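import Pool.Agent.Lib.MP_a3f657_nt.C2RhBomb
import Pool.Agent.Lib.MP_ace998_an.Alg

/-!
The coordinate ring of a monic plane curve: degrees, points and a branch.
-/

namespace Pool.Agent.Lib.MP_346d6a_co.Step

open Polynomial Module Pool.Agent.Lib.MP_a3f657_nt.Two.Rh

variable {k : Type} [Field k] {P : k[X][X]}

/-- The power basis of the coordinate ring. -/
noncomputable abbrev bs (hP : P.Monic) : Basis (Fin P.natDegree) k[X] (AdjoinRoot P) :=
  AdjoinRoot.powerBasisAux' hP

/-- The reduced representative. -/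
noncomputable abbrev rp (hP : P.Monic) : AdjoinRoot P →ₗ[k[X]] k[X][X] :=
  AdjoinRoot.modByMonicHom hP

variable (hP : P.Monic)

theorem bs_apply (j : Fin P.natDegree) : bs hP j = AdjoinRoot.root P ^ (j : ℕ) :=
  (AdjoinRoot.powerBasis' hP).basis_eq_pow j

theorem mk_rp (b : AdjoinRoot P) : AdjoinRoot.mk P (rp hP b) = b :=
  AdjoinRoot.mk_leftInverse hP b

theorem degree_rp (b : AdjoinRoot P) : (rp hP b).degree < P.degree := by
  obtain ⟨g, rfl⟩ := AdjoinRoot.mk_surjective b
  rw [AdjoinRoot.modByMonicHom_mk]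
  exact degree_modByMonic_lt _ hP

theorem coeff_rp_of_le (b : AdjoinRoot P) {j : ℕ} (hj : P.natDegree ≤ j) :
    (rp hP b).coeff j = 0 :=
  coeff_eq_zero_of_degree_lt ((degree_rp hP b).trans_le
    (degree_le_natDegree.trans (by exact_mod_cast hj)))

theorem dg_mk {w : ℕ} (G : k[X][X]) (hG : G.degree < P.degree)
    (hw : ∀ i, (G.coeff i).natDegree ≤ w) : Dg (bs hP) (AdjoinRoot.mk P G) w := fun i => by
  rw [AdjoinRoot.powerBasisAux'_repr_apply_to_fun, AdjoinRoot.modByMonicHom_mk,
    (modByMonic_eq_self_iff hP).2 hG]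
  exact hw _

theorem natDegree_rp {m : ℕ} {b : AdjoinRoot P} (hb : Dg (bs hP) b m) (j : ℕ) :
    ((rp hP b).coeff j).natDegree ≤ m := by
  rcases lt_or_ge j P.natDegree with hj | hj
  · have := hb ⟨j, hj⟩
    rwa [AdjoinRoot.powerBasisAux'_repr_apply_to_fun] at this
  · rw [coeff_rp_of_le hP b hj]
    simp

theorem dg_root_mul_bs {w : ℕ} (hw : ∀ i, (P.coeff i).natDegree ≤ w) (j : Fin P.natDegree) :
    Dg (bs hP) (AdjoinRoot.root P * bs hP j) w := by
  rcases lt_or_ge ((j : ℕ) + 1) P.natDegree with hj | hj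
  · have h : AdjoinRoot.root P * bs hP j = bs hP ⟨j + 1, hj⟩ := by
      rw [bs_apply, bs_apply, pow_succ']
    rw [h]
    exact (Dg.basis _).mono (Nat.zero_le _)
  · have hj' : (j : ℕ) + 1 = P.natDegree := le_antisymm j.2 hj
    have h : AdjoinRoot.root P * bs hP j = AdjoinRoot.mk P (X ^ P.natDegree - P) := by
      rw [bs_apply, ← pow_succ', hj', map_sub, AdjoinRoot.mk_self, sub_zero, map_pow,
        AdjoinRoot.mk_X]
    rw [h]
    refine dg_mk hP _ ?_ fun i => ?_
    · have h1 : (X ^ P.natDegree : k[X][X]).degree = P.degree := by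
        rw [degree_X_pow, degree_eq_natDegree hP.ne_zero]
      rw [← h1]
      exact degree_sub_lt_left h1 (pow_ne_zero _ X_ne_zero)
        (by rw [leadingCoeff_X_pow, hP.leadingCoeff])
    · rw [coeff_sub, coeff_X_pow]
      refine (natDegree_sub_le _ _).trans (max_le ?_ (hw i))
      split_ifs <;> simp

theorem dg_root_mul {w m : ℕ} (hw : ∀ i, (P.coeff i).natDegree ≤ w) {b : AdjoinRoot P}
    (hb : Dg (bs hP) b m) : Dg (bs hP) (AdjoinRoot.root P * b) (m + w) :=
  hb.map (LinearMap.mulLeft k[X] (AdjoinRoot.root P)) (dg_root_mul_bs hP hw)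

theorem dg_root_pow_mul {w m : ℕ} (hw : ∀ i, (P.coeff i).natDegree ≤ w) {b : AdjoinRoot P}
    (hb : Dg (bs hP) b m) (i : ℕ) : Dg (bs hP) (AdjoinRoot.root P ^ i * b) (m + i * w) := by
  induction i with
  | zero => simpa using hb
  | succ i ih =>
    rw [pow_succ', mul_assoc]
    exact (dg_root_mul hP hw ih).mono (le_of_eq (by ring))

theorem dg_bs_mul {w n : ℕ} (hw : ∀ i, (P.coeff i).natDegree ≤ w) (hn : P.natDegree ≤ n)
    (i j : Fin P.natDegree) : Dg (bs hP) (bs hP i * bs hP j) (n * w) := by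
  rw [bs_apply hP i]
  refine (dg_root_pow_mul hP hw (Dg.basis j) i).mono ?_
  rw [zero_add]
  exact Nat.mul_le_mul_right _ (i.2.le.trans hn)

theorem dg_one (hd : 0 < P.natDegree) (c : ℕ) : Dg (bs hP) 1 c := by
  have h := (Dg.basis (e := bs hP) ⟨0, hd⟩).mono (Nat.zero_le c)
  rwa [bs_apply, pow_zero] at h

omit hP in
theorem dg_neg {n m : ℕ} {e : Basis (Fin n) k[X] (AdjoinRoot P)} {b : AdjoinRoot P}
    (hb : Dg e b m) : Dg e (-b) m := fun i => by
  rw [map_neg, Finsupp.neg_apply, natDegree_neg]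
  exact hb i

omit hP in
theorem dg_sub {n m : ℕ} {e : Basis (Fin n) k[X] (AdjoinRoot P)} {b b' : AdjoinRoot P}
    (hb : Dg e b m) (hb' : Dg e b' m) : Dg e (b - b') m := by
  rw [sub_eq_add_neg]
  exact hb.add (dg_neg hb')

/-- Evaluation at a point of the curve. -/
noncomputable def ev {x y : k} (h : P.evalEval x y = 0) : AdjoinRoot P →+* k :=
  AdjoinRoot.lift (evalRingHom x) y (by rwa [eval₂_evalRingHom])

omit hP in
theorem ev_mk {x y : k} (h : P.evalEval x y = 0) (G : k[X][X]) :
    ev h (AdjoinRoot.mk P G) = G.evalEval x y := by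
  rw [ev, AdjoinRoot.lift_mk, eval₂_evalRingHom]

omit hP in
theorem ev_root {x y : k} (h : P.evalEval x y = 0) : ev h (AdjoinRoot.root P) = y :=
  AdjoinRoot.lift_root _

omit hP in
theorem ev_of {x y : k} (h : P.evalEval x y = 0) (a : k[X]) :
    ev h (AdjoinRoot.of P a) = a.eval x :=
  AdjoinRoot.lift_of _

omit hP in
theorem bezout_eval {A B : k[X][X]} {r : k[X]} (hB : A * P + B * derivative P = C r) (x : k) :
    A.map (evalRingHom x) * P.map (evalRingHom x) +
      B.map (evalRingHom x) * derivative (P.map (evalRingHom x)) = C (r.eval x) := by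
  have := congrArg (Polynomial.map (evalRingHom x)) hB
  simpa [derivative_map] using this

include hP in
theorem exists_branch [IsAlgClosed k] (hirr : Irreducible P) {A B : k[X][X]} {r : k[X]}
    (hr : r ≠ 0) (hB : A * P + B * derivative P = C r) :
    ∃ (ι : AdjoinRoot P →ₐ[k] PowerSeries k) (π : AdjoinRoot P),
      Function.Injective ι ∧ ι π = PowerSeries.X := by
  have := AdjoinRoot.isDomain_of_prime hirr.prime
  have hd : 0 < P.natDegree := hP.natDegree_pos.2 hirr.ne_one
  obtain ⟨x₀, hx₀⟩ : ∃ x₀, r.eval x₀ ≠ 0 := by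
    by_contra h
    push Not at h
    exact hr (Polynomial.funext fun x => by simp [h x])
  obtain ⟨y₀, hy₀⟩ := IsAlgClosed.exists_root (P.map (evalRingHom x₀)) (by
    rw [hP.degree_map, degree_eq_natDegree hP.ne_zero]
    exact_mod_cast hd.ne')
  have hy₁ : (derivative (P.map (evalRingHom x₀))).eval y₀ ≠ 0 := fun h => by
    have h2 := congrArg (eval y₀) (bezout_eval hB x₀)
    rw [eval_add, eval_mul, eval_mul, hy₀.eq_zero, h] at h2
    exact hx₀ (by simpa using h2.symm)
  let ψ : k[X] →ₐ[k] PowerSeries k := aeval (PowerSeries.X + PowerSeries.C x₀)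
  have hψ : (PowerSeries.constantCoeff (R := k)).comp (ψ : k[X] →+* PowerSeries k) =
      evalRingHom x₀ := by
    refine Polynomial.ringHom_ext (fun a => ?_) ?_
    · simp [ψ]
    · simp [ψ]
  have hψ' : ∀ G : k[X][X], PowerSeries.constantCoeff
      ((G.map (ψ : k[X] →+* PowerSeries k)).eval (PowerSeries.C y₀)) =
      (G.map (evalRingHom x₀)).eval y₀ := fun G => by
    rw [eval_map, hom_eval₂, hψ, eval_map]
    simp
  obtain ⟨φ, hφ⟩ := Pool.Agent.Lib.MP_ace998_an.exists_series_root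
    (P.map (ψ : k[X] →+* PowerSeries k)) (PowerSeries.C y₀) (by rw [hψ']; exact hy₀)
    (by rw [derivative_map, hψ', ← derivative_map]; exact hy₁)
  rw [eval_map] at hφ
  have hπ : AdjoinRoot.liftAlgHom P ψ φ hφ (AdjoinRoot.of P (X - C x₀)) = PowerSeries.X := by
    rw [AdjoinRoot.liftAlgHom_of]
    simp [ψ]
  refine ⟨AdjoinRoot.liftAlgHom P ψ φ hφ, _, ?_, hπ⟩
  rw [injective_iff_map_eq_zero]
  intro b hb
  by_contra hb0
  have := order_le_norm (bs hP) _ hπ hb0 ((Algebra.norm k[X] b).natDegree + 1) (by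
    rw [hb, PowerSeries.order_zero]
    exact le_top)
  omega

omit hP in
theorem eval_eq_zero_of_rec {p U : k[X]} (hp : p.Monic) {d : ℕ} (hd : p.natDegree = d + 1)
    {y y' : k} (hy : p.eval y = 0) (hy' : p.eval y' = 0) (hne : y' ≠ y)
    (hU : ∀ j, d + 1 ≤ j → U.coeff j = 0)
    (hrec : ∀ j, j < d → U.coeff j - y * U.coeff (j + 1) - p.coeff (j + 1) * U.coeff d = 0) :
    U.eval y' = 0 := by
  have hW : (X - C y) * U - p * C (U.coeff d) = C (((X - C y) * U - p * C (U.coeff d)).coeff 0) := by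
    refine eq_C_of_natDegree_eq_zero (Nat.le_zero.1 (natDegree_le_iff_coeff_eq_zero.2 ?_))
    intro j hj
    obtain ⟨j, rfl⟩ : ∃ i, j = i + 1 := ⟨j - 1, by omega⟩
    rw [coeff_sub, sub_mul, coeff_sub, coeff_X_mul, coeff_C_mul, coeff_mul_C]
    rcases lt_trichotomy j d with h | h | h
    · exact hrec j h
    · subst h
      rw [hU (j + 1) le_rfl, ← hd, hp.coeff_natDegree]
      ring
    · rw [hU j h, hU (j + 1) (by omega), coeff_eq_zero_of_natDegree_lt (p := p) (by omega)]
      ring
  have h1 := congrArg (eval y) hW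
  have h2 := congrArg (eval y') hW
  simp only [eval_sub, eval_mul, eval_X, eval_C, hy, hy', sub_self, zero_mul, sub_zero] at h1 h2
  rw [← h1] at h2
  exact (mul_eq_zero.1 h2).resolve_left (sub_ne_zero.2 hne)

include hP in
theorem eval_coeff_eq_zero [IsAlgClosed k] {A B : k[X][X]} {r : k[X]}
    (hB : A * P + B * derivative P = C r) {x : k} (hx : r.eval x ≠ 0) {G : k[X][X]}
    (hG : G.degree < P.degree) (h : ∀ y, P.evalEval x y = 0 → G.evalEval x y = 0) (j : ℕ) :
    (G.coeff j).eval x = 0 := by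
  classical
  have hsep : (P.map (evalRingHom x)).Separable := by
    refine ⟨C (r.eval x)⁻¹ * A.map (evalRingHom x), C (r.eval x)⁻¹ * B.map (evalRingHom x), ?_⟩
    rw [mul_assoc, mul_assoc, ← mul_add, bezout_eval hB x, ← C_mul, inv_mul_cancel₀ hx, C_1]
  have hm := hP.map (evalRingHom x)
  have h0 : G.map (evalRingHom x) = 0 := by
    by_contra h0
    have hdvd : P.map (evalRingHom x) ∣ G.map (evalRingHom x) := by
      refine (IsAlgClosed.splits _).dvd_of_roots_le_roots hm.ne_zero ?_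
      rw [Multiset.le_iff_subset (nodup_roots hsep)]
      intro y hy
      rw [mem_roots h0, IsRoot, map_evalRingHom_eval]
      rw [mem_roots hm.ne_zero, IsRoot, map_evalRingHom_eval] at hy
      exact h y hy
    have := degree_le_of_dvd hdvd h0
    rw [hP.degree_map] at this
    exact absurd (hG.trans_le (this.trans degree_map_le)) (lt_irrefl _)
  have := congrArg (coeff · j) h0
  simpa using this

end Pool.Agent.Lib.MP_346d6a_co.Step
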