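import Pool.Agent.Lib.MP_346d6a_co.Core
import Pool.Agent.Lib.MP_346d6a_co.AH44Basis

/-!
Existence of rational points on plane curves over large finite fields, by the method of
Bombieri and Stepanov.
-/

namespace Pool.Agent.Lib.MP_346d6a_co

open Polynomial Module Pool.Agent.Lib.MP_a3f657_nt.Two.Rh

namespace Step

variable {k : Type} [Field k] {P : k[X][X]} (hP : P.Monic)

include hP in
theorem exists_relation {d w m D : ℕ} (hd : P.natDegree = d + 1)
    (hw : ∀ i, (P.coeff i).natDegree ≤ w) {O : Type} [Fintype O] (F : O → AdjoinRoot P)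
    (hF : ∀ o, Dg (bs hP) (F o) D) (hdim : d * (m + D + w + 1) < Fintype.card O * (m + 1)) :
    ∃ g : O → AdjoinRoot P, g ≠ 0 ∧ (∀ o, Dg (bs hP) (g o) m) ∧
      ∀ (x y y' : k) (h : P.evalEval x y = 0), P.evalEval x y' = 0 → y' ≠ y →
        ∑ o, ev h (F o) * (rp hP (g o)).evalEval x y' = 0 := by
  classical
  let ζ : ℕ → (O → Vm (bs hP) m) →ₗ[k] AdjoinRoot P := fun j => ∑ o : O,
    (LinearMap.mulLeft k (F o)) ∘ₗ ((Algebra.linearMap k[X] (AdjoinRoot P)) ∘ₗ
      (lcoeff k[X] j) ∘ₗ rp hP).restrictScalars k ∘ₗ (Vm (bs hP) m).subtype ∘ₗ LinearMap.proj o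
  have hζ : ∀ j g, ζ j g = ∑ o : O, F o * AdjoinRoot.of P ((rp hP (g o)).coeff j) :=
    fun j g => by simp [ζ, LinearMap.sum_apply]
  have hsm : ∀ (a : k[X]) (b : AdjoinRoot P), AdjoinRoot.of P a * b = a • b := fun a b => by
    rw [Algebra.smul_def, AdjoinRoot.algebraMap_eq]
  have hζD : ∀ j g, Dg (bs hP) (ζ j g) (m + D) := fun j g => by
    rw [hζ]
    refine Dg.sum _ _ fun o _ => ?_
    rw [mul_comm, hsm]
    exact (hF o).smul (natDegree_rp hP (g o).2 j)
  let Φ₀ : ℕ → (O → Vm (bs hP) m) →ₗ[k] AdjoinRoot P := fun j =>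
    ζ j - LinearMap.mulLeft k (AdjoinRoot.root P) ∘ₗ ζ (j + 1) -
      LinearMap.mulLeft k (AdjoinRoot.of P (P.coeff (j + 1))) ∘ₗ ζ d
  have hΦ₀ : ∀ j g, Φ₀ j g = ζ j g - AdjoinRoot.root P * ζ (j + 1) g -
      AdjoinRoot.of P (P.coeff (j + 1)) * ζ d g := fun j g => rfl
  let Φ : (O → Vm (bs hP) m) →ₗ[k] (Fin d → Vm (bs hP) (m + D + w)) := LinearMap.pi fun j =>
    (Φ₀ j).codRestrict (Vm (bs hP) (m + D + w)) fun g => by
      rw [hΦ₀, hsm]
      exact dg_sub (dg_sub ((hζD _ g).mono (by omega)) (dg_root_mul hP hw (hζD _ g)))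
        (((hζD _ g).smul (hw _)).mono (by omega))
  have hker : LinearMap.ker Φ ≠ ⊥ := by
    refine LinearMap.ker_ne_bot_of_finrank_lt ?_
    rw [finrank_pi_fintype, finrank_pi_fintype, Finset.sum_const, Finset.sum_const, finrank_Vm,
      finrank_Vm, Finset.card_univ, Finset.card_univ, Fintype.card_fin, smul_eq_mul, smul_eq_mul,
      mul_left_comm, mul_left_comm (Fintype.card O)]
    exact Nat.mul_lt_mul_of_pos_left hdim (by omega)
  obtain ⟨g, hg, hg0⟩ := Submodule.exists_mem_ne_zero_of_ne_bot hker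
  refine ⟨fun o => g o, fun h => hg0 (funext fun o => Subtype.ext (congrFun h o)),
    fun o => (g o).2, fun x y y' h h' hne => ?_⟩
  let U : k[X] := ∑ o, C (ev h (F o)) * (rp hP (g o)).map (evalRingHom x)
  have hU : ∀ j, U.coeff j = ev h (ζ j g) := fun j => by
    rw [hζ, map_sum, finsetSum_coeff]
    refine Finset.sum_congr rfl fun o _ => ?_
    rw [coeff_C_mul, map_mul, ev_of, coeff_map, coe_evalRingHom]
  have key := eval_eq_zero_of_rec (U := U) (hP.map (evalRingHom x)) (d := d)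
    (by rw [hP.natDegree_map, hd]) (y := y) (y' := y') (by rwa [map_evalRingHom_eval])
    (by rwa [map_evalRingHom_eval]) hne
    (fun j hj => by
      rw [hU, hζ, Finset.sum_eq_zero, map_zero]
      intro o _
      rw [coeff_rp_of_le hP _ (hd ▸ hj), map_zero, mul_zero])
    (fun j hj => by
      have h1 : Φ₀ j g = 0 :=
        congrArg Subtype.val (congrFun (LinearMap.mem_ker.1 hg) ⟨j, hj⟩)
      have h2 := congrArg (ev h) h1
      rw [hΦ₀, map_sub, map_sub, map_mul, map_mul, ev_root, ev_of, map_zero] at h2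
      rw [hU, hU, hU, coeff_map, coe_evalRingHom]
      exact h2)
  simpa only [U, eval_finsetSum, eval_mul, eval_C, map_evalRingHom_eval] using key

theorem exists_pow_eq_of_natDegree_lt [IsAlgClosed k] [CharP k 2] {s : ℕ} (hs : 1 ≤ s) {u : k[X]}
    (hu : u ≠ 0) (hdeg : u.natDegree < 2 ^ s) : ∃ x : k, x ^ 2 ^ s = x ∧ u.eval x ≠ 0 := by
  by_contra h
  push Not at h
  have h1 : (X ^ 2 ^ s - X : k[X]) ≠ 0 := FiniteField.X_pow_card_pow_sub_X_ne_zero k
    (by omega) one_lt_two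
  have hdvd : (X ^ 2 ^ s - X : k[X]) ∣ u := by
    refine (IsAlgClosed.splits _).dvd_of_roots_le_roots h1 ?_
    rw [Multiset.le_iff_subset (nodup_roots (galois_poly_separable 2 (2 ^ s)
      (dvd_pow_self 2 (by omega))))]
    intro x hx
    rw [mem_roots h1, IsRoot, eval_sub, eval_pow, eval_X, sub_eq_zero] at hx
    exact (mem_roots hu).2 (h x hx)
  have := natDegree_le_of_dvd hdvd hu
  rw [FiniteField.X_pow_card_pow_sub_X_natDegree_eq k (by omega) one_lt_two] at this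
  omega

end Step

open Step

theorem stepanov : Stepanov := by
  intro n w
  obtain ⟨c, hcdef⟩ : ∃ c, c = n * w := ⟨_, rfl⟩
  obtain ⟨μ, hμ⟩ : ∃ μ, μ = 3 * (n * c) + n * w + c + 1 := ⟨_, rfl⟩
  have hK : μ < 2 ^ μ := Nat.lt_two_pow_self
  obtain ⟨m, hm⟩ : ∃ m, 2 ^ μ = m + c + 1 := ⟨2 ^ μ - c - 1, by omega⟩
  refine ⟨μ + (n * (2 ^ μ + c) + w + 2 ^ μ + 2 * c), fun s hs k _ _ _ P A B r hP hirr hn hw hfix
    hr hrw hB => ?_⟩
  obtain ⟨t, rfl⟩ : ∃ t, s = μ + t := ⟨s - μ, by omega⟩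
  have hS : n * (2 ^ μ + c) + w + 2 ^ μ + 2 * c < 2 ^ t :=
    lt_of_le_of_lt (by omega) Nat.lt_two_pow_self
  have := AdjoinRoot.isDomain_of_prime hirr.prime
  have hd0 : 0 < P.natDegree := hP.natDegree_pos.2 hirr.ne_one
  obtain ⟨d, hd⟩ : ∃ d, P.natDegree = d + 1 := ⟨P.natDegree - 1, by omega⟩
  obtain ⟨ι, π, hι, hπ⟩ := exists_branch hP hirr hr hB
  have hc : ∀ i j, Dg (bs hP) (bs hP i * bs hP j) c := hcdef ▸ dg_bs_mul hP hw hn
  have h1 : Dg (bs hP) 1 c := dg_one hP hd0 c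
  obtain ⟨O, f, hO1, hO2, hf⟩ := exists_orders (bs hP) ι hι hπ hc (2 ^ μ) (2 ^ t)
    (lt_of_le_of_lt ((Nat.mul_le_mul_right _ hn).trans (by omega)) hS)
  obtain ⟨g, hg0, hgm, hg⟩ := exists_relation hP (m := m) hd hw (fun o : O => f o ^ 2 ^ μ)
    (fun o => Dg.pow hc h1 (hf o).1 (2 ^ μ)) (by
      rw [Fintype.card_coe]
      refine lt_of_lt_of_le ?_ (Nat.mul_le_mul_right _ hO1)
      rw [hd]
      have hdn : d + 1 ≤ n := hd ▸ hn
      have h2 : d * c + c ≤ n * c := by nlinarith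
      have h3 : d * w ≤ n * w := Nat.mul_le_mul_right _ (by omega)
      have h4 : 3 * (d * c + c) + d * w + c + 1 < m + c + 1 := by omega
      have h5 := Nat.mul_le_mul_left (m + c + 2) h4.le
      rw [hm]
      nlinarith [Nat.zero_le (d * c), Nat.zero_le (m * (d * c)), Nat.zero_le (c * (d * c)),
        Nat.zero_le (m * (d * w)), Nat.zero_le (c * (d * w)), Nat.zero_le (m * c),
        Nat.zero_le (c * c), Nat.zero_le (d * w)])
  let σ := iterateFrobeniusEquiv k 2 (μ + t)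
  let G : O → k[X][X] := fun o => (rp hP (g o)).map (mapRingHom (σ.symm : k →+* k))
  have hinj : Function.Injective (mapRingHom (σ.symm : k →+* k)) :=
    map_injective _ σ.symm.injective
  have hGdeg : ∀ o, (G o).degree < P.degree := fun o => degree_map_le.trans_lt (degree_rp hP _)
  have hGm : ∀ o, Dg (bs hP) (AdjoinRoot.mk P (G o)) m := fun o =>
    dg_mk hP _ (hGdeg o) fun i => by
      rw [coeff_map, coe_mapRingHom]
      exact natDegree_map_le.trans (natDegree_rp hP (hgm o) i)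
  have hGev : ∀ o x y, (G o).evalEval x y ^ 2 ^ (μ + t) =
      (rp hP (g o)).evalEval (x ^ 2 ^ (μ + t)) (y ^ 2 ^ (μ + t)) := fun o x y => by
    have h2 := map_mapRingHom_evalEval (σ : k →+* k) (G o) x y
    have h3 : (G o).map (mapRingHom (σ : k →+* k)) = rp hP (g o) := by
      simp only [G]
      rw [Polynomial.map_map, mapRingHom_comp]
      simp
    rw [h3] at h2
    exact h2.symm
  set Ψ := ∑ o : O, f o * AdjoinRoot.mk P (G o) ^ 2 ^ t with hΨdef
  have hΨ : Ψ ≠ 0 := by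
    intro h
    have h2 := congrArg ι h
    simp only [hΨdef, map_sum, map_mul, map_pow, map_zero] at h2
    refine sum_ne_zero_of_orders (2 ^ t) (fun o : O => ι (f o))
      (fun o => ι (AdjoinRoot.mk P (G o))) (fun o => o)
      (fun o => (hf o).2) (fun o => hO2 o o.2) Subtype.val_injective ?_ h2
    obtain ⟨o, ho⟩ := Function.ne_iff.1 hg0
    refine ⟨o, fun h => ho ?_⟩
    have h3 : AdjoinRoot.mk P (G o) = 0 := hι (by rw [h, map_zero])
    have h4 : G o = 0 := by
      by_contra h4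
      exact AdjoinRoot.mk_ne_zero_of_degree_lt hP h4 (hGdeg o) h3
    rw [← mk_rp hP (g o), (Polynomial.map_eq_zero_iff hinj).1 h4, map_zero]
    rfl
  have hD : Dg (bs hP) Ψ (2 ^ μ + (2 ^ t * (m + c) + c) + c) :=
    Dg.sum _ _ fun o _ => (hf o).1.mul hc (Dg.pow hc h1 (hGm o) (2 ^ t))
  obtain ⟨j, hj⟩ : ∃ j, (rp hP Ψ).coeff j ≠ 0 := by
    by_contra h
    push Not at h
    refine hΨ ?_
    rw [← mk_rp hP Ψ, (Polynomial.ext h : rp hP Ψ = 0), map_zero]
  obtain ⟨x, hx, hx0⟩ := exists_pow_eq_of_natDegree_lt (s := μ + t) (by omega) (mul_ne_zero hr hj)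
    (by
      refine (natDegree_mul_le.trans (add_le_add hrw (natDegree_rp hP hD j))).trans_lt ?_
      have h2 : 2 ^ (μ + t) = 2 ^ t * (m + c) + 2 ^ t := by
        rw [pow_add, hm]
        ring
      omega)
  rw [eval_mul, mul_ne_zero_iff] at hx0
  by_contra hcon
  push Not at hcon
  refine hx0.2 (eval_coeff_eq_zero hP hB hx0.1 (degree_rp hP Ψ) (fun y hy => ?_) j)
  have hy' : P.evalEval x (y ^ 2 ^ (μ + t)) = 0 := by
    have h2 := map_mapRingHom_evalEval (iterateFrobenius k 2 (μ + t)) P x y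
    rw [hfix, hy, map_zero, iterateFrobenius_def, iterateFrobenius_def, hx] at h2
    exact h2
  have h2 := hg x y _ hy hy' fun h => hx0.1 (hcon x y hx h hy)
  rw [← ev_mk hy, mk_rp]
  refine pow_eq_zero_iff (n := 2 ^ μ) (by positivity) |>.1 ?_
  rw [← h2, hΨdef, map_sum, sum_pow_char_pow]
  refine Finset.sum_congr rfl fun o _ => ?_
  rw [map_mul, map_pow, map_pow, mul_pow, ← pow_mul, ← pow_add, add_comm t μ, ev_mk, hGev, hx]

end Pool.Agent.Lib.MP_346d6a_co
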