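import Pool.Agent.Lib.MP_346d6a_co.Core

/-!
Part B, algebra: Bezout identities, degree bounds of factors, reduction to monic curves.
-/

namespace Pool.Agent.Lib.MP_346d6a_co

open Polynomial

section

variable {k : Type} [Field k]

theorem B_bezout (P h : k[X][X]) (hP : Irreducible P) (hd : P.natDegree ≠ 0) (hh : ¬ P ∣ h) :
    ∃ (A B : k[X][X]) (r : k[X]), r ≠ 0 ∧ A * P + B * h = C r := by
  have hprim : P.IsPrimitive := hP.isPrimitive hd
  let K := FractionRing k[X]
  have hinj : Function.Injective (algebraMap k[X] K) := IsFractionRing.injective _ _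
  have h1 : Irreducible (P.map (algebraMap k[X] K)) :=
    hprim.irreducible_iff_irreducible_map_fraction_map.1 hP
  have h2 : ¬ P.map (algebraMap k[X] K) ∣ h.map (algebraMap k[X] K) := fun H =>
    hh (hprim.dvd_of_fraction_map_dvd_fraction_map H)
  have h3 := resultant_ne_zero _ _ ((h1.coprime_iff_not_dvd).2 h2)
  rw [natDegree_map_eq_of_injective hinj, natDegree_map_eq_of_injective hinj,
    resultant_map_map] at h3
  obtain ⟨p, q, -, -, e⟩ := exists_mul_add_mul_eq_C_resultant P h le_rfl le_rfl (Or.inl hd)
  refine ⟨p, q, P.resultant h, fun H => h3 (by rw [H, map_zero]), ?_⟩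
  rw [← e]; ring

theorem B_swap_coeff (P : k[X][X]) (i j : ℕ) :
    ((Bivariate.swap P).coeff j).coeff i = (P.coeff i).coeff j := by
  induction P using Polynomial.induction_on' with
  | add p q hp hq => simp only [map_add, coeff_add, hp, hq]
  | monomial n a =>
    induction a using Polynomial.induction_on' with
    | add p q hp hq => simp only [map_add, coeff_add, hp, hq]
    | monomial m c =>
      rw [Bivariate.swap_monomial_monomial]
      simp only [coeff_monomial]
      split_ifs <;> simp_all [coeff_monomial]

theorem B_swap_le (P : k[X][X]) (w : ℕ) :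
    (Bivariate.swap P).natDegree ≤ w ↔ ∀ i, (P.coeff i).natDegree ≤ w := by
  simp only [natDegree_le_iff_coeff_eq_zero]
  constructor
  · intro H i N hN
    rw [← B_swap_coeff, H N hN, coeff_zero]
  · intro H N hN
    ext i
    rw [B_swap_coeff, H i N hN, coeff_zero]

theorem B_factor_le {P f : k[X][X]} (hP : P ≠ 0) (hf : f ∣ P) {w : ℕ}
    (hw : ∀ i, (P.coeff i).natDegree ≤ w) : ∀ i, (f.coeff i).natDegree ≤ w := by
  rw [← B_swap_le] at hw ⊢
  refine (natDegree_le_of_dvd (map_dvd Bivariate.swap hf) ?_).trans hw
  simpa using hP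

/-- The property `PAC` for monic curves. -/
def PACm (φ : k ≃+* k) : Prop :=
  ∀ (P : k[X][X]) (r : k[X]), P.Monic → Irreducible P → P.map (mapRingHom (φ : k →+* k)) = P →
    derivative P ≠ 0 → r ≠ 0 → ∃ x y : k, φ x = x ∧ φ y = y ∧ P.evalEval x y = 0 ∧ r.eval x ≠ 0

theorem B_irred_norm {K : Type} [Field K] {p : K[X]} (hp : Irreducible p) :
    Irreducible p.integralNormalization := by
  have hd : 1 ≤ p.natDegree := hp.natDegree_pos
  have ha : p.leadingCoeff ≠ 0 := leadingCoeff_ne_zero.2 hp.ne_zero
  let _ := invertibleOfNonzero ha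
  have h1 := integralNormalization_eval₂_leadingCoeff_mul hd (C : K →+* K[X]) X
  have h2 : algEquivCMulXAddC p.leadingCoeff 0 p.integralNormalization =
      C p.leadingCoeff ^ (p.natDegree - 1) * p := by
    rw [eval₂_C_X] at h1
    rw [← h1]
    simp [algEquivCMulXAddC, aeval_def]
  rw [← MulEquiv.irreducible_iff (algEquivCMulXAddC p.leadingCoeff 0), h2]
  exact (irreducible_isUnit_mul ((isUnit_C.2 ha.isUnit).pow _)).2 hp

theorem B_pac_of_monic (φ : k ≃+* k) (H : PACm φ) : PAC φ := by
  intro P h hP hinv hder hh
  have hd : P.natDegree ≠ 0 := fun h0 => hder (by rw [eq_C_of_natDegree_eq_zero h0]; simp)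
  have hd1 : 1 ≤ P.natDegree := Nat.pos_of_ne_zero hd
  have ha : P.leadingCoeff ≠ 0 := leadingCoeff_ne_zero.2 hP.ne_zero
  have hinjφ : Function.Injective (mapRingHom (φ : k →+* k)) := map_injective _ φ.injective
  have haφ : P.leadingCoeff.map (φ : k →+* k) = P.leadingCoeff := by
    have := leadingCoeff_map_of_injective hinjφ P
    rw [hinv] at this
    exact this.symm
  obtain ⟨A, B, r, hr, e⟩ := B_bezout P h hP hd hh
  have hQm : P.integralNormalization.Monic := monic_integralNormalization hP.ne_zero
  have hQi : Irreducible P.integralNormalization := by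
    let K := FractionRing k[X]
    have hinj : Function.Injective (algebraMap k[X] K) := IsFractionRing.injective _ _
    have h1 : Irreducible (P.map (algebraMap k[X] K)) :=
      (hP.isPrimitive hd).irreducible_iff_irreducible_map_fraction_map.1 hP
    rw [hQm.irreducible_iff_irreducible_map_fraction_map (K := K),
      ← integralNormalization_map _ _ (by simpa [hinj] using hP.ne_zero)]
    exact B_irred_norm h1
  have hQinv : P.integralNormalization.map (mapRingHom (φ : k →+* k)) =
      P.integralNormalization := by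
    rw [← integralNormalization_map _ _ (by rw [coe_mapRingHom, haφ]; exact ha), hinv]
  have hQd : derivative P.integralNormalization ≠ 0 := by
    intro h0
    apply hder
    ext1 i
    have h1 := congrArg (fun q => q.coeff i) h0
    simp only [coeff_derivative, coeff_zero] at h1 ⊢
    have h2 := integralNormalization_coeff_mul_leadingCoeff_pow (p := P) (i + 1) hd1
    apply mul_right_cancel₀ (pow_ne_zero (P.natDegree - 1) ha)
    rw [mul_right_comm, ← h2, mul_right_comm, h1, zero_mul, zero_mul]
  obtain ⟨x, y, hx, hy, h0, hne⟩ := H _ (P.leadingCoeff * r) hQm hQi hQinv hQd (mul_ne_zero ha hr)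
  rw [eval_mul, mul_ne_zero_iff] at hne
  have hax : φ (P.leadingCoeff.eval x) = P.leadingCoeff.eval x := by
    have := eval_map_apply (p := P.leadingCoeff) (φ : k →+* k) x
    rw [haφ, RingHom.coe_coe, hx] at this
    exact this.symm
  have hP0 : P.evalEval x (y / P.leadingCoeff.eval x) = 0 := by
    have h1 := integralNormalization_eval₂_leadingCoeff_mul hd1 (evalRingHom x)
      (y / P.leadingCoeff.eval x)
    rw [eval₂_evalRingHom, coe_evalRingHom, mul_div_cancel₀ _ hne.1, h0] at h1
    exact (mul_eq_zero.1 h1.symm).resolve_left (pow_ne_zero _ hne.1)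
  refine ⟨x, y / P.leadingCoeff.eval x, hx, by rw [map_div₀, hy, hax], hP0, fun h1 => hne.2 ?_⟩
  have := congrArg (evalEval x (y / P.leadingCoeff.eval x)) e
  rw [evalEval_add, evalEval_mul, evalEval_mul, hP0, h1, evalEval_C] at this
  simpa using this.symm

end

end Pool.Agent.Lib.MP_346d6a_co
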