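import Pool.Agent.Lib.MP_346d6a_co.B1

/-!
Part B, transfer: polynomial identities hold in an ultraproduct iff they hold almost everywhere.
-/

namespace Pool.Agent.Lib.MP_346d6a_co

open Polynomial Filter

section

variable {R K A : Type} [CommRing R] [CommRing K] [CommRing A]

/-- `π a` vanishes iff almost all components of `a` vanish. -/
def Los (U : Ultrafilter ℕ) (π : R →+* K) (e : ℕ → R →+* A) : Prop :=
  ∀ a, π a = 0 ↔ ∀ᶠ s in (U : Filter ℕ), e s a = 0

variable {U : Ultrafilter ℕ} {π : R →+* K} {e : ℕ → R →+* A}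

theorem Los.eq (H : Los U π e) (a b : R) :
    π a = π b ↔ ∀ᶠ s in (U : Filter ℕ), e s a = e s b := by
  rw [← sub_eq_zero, ← map_sub, H]
  simp only [map_sub, sub_eq_zero]

theorem Los.ne (H : Los U π e) (a : R) : π a ≠ 0 ↔ ∀ᶠ s in (U : Filter ℕ), e s a ≠ 0 := by
  rw [Ne, H, Ultrafilter.eventually_not]

theorem Los.poly (H : Los U π e) : Los U (mapRingHom π) (fun s => mapRingHom (e s)) := by
  intro p
  simp only [coe_mapRingHom, Polynomial.ext_iff, coeff_map, coeff_zero, H _]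
  constructor
  · intro h
    filter_upwards [(eventually_all_finset p.support).2 fun i _ => h i] with s hs i
    by_cases hi : i ∈ p.support
    · exact hs i hi
    · rw [notMem_support_iff.1 hi, map_zero]
  · intro h i
    exact h.mono fun s hs => hs i

theorem B_glue (e : ℕ → R →+* A) (p : ℕ → A[X]) (n : ℕ) (hn : ∀ s, (p s).natDegree ≤ n)
    (hc : ∀ i, ∃ c : R, ∀ s, e s c = (p s).coeff i) : ∃ q : R[X], ∀ s, q.map (e s) = p s := by
  choose c hc using hc
  refine ⟨∑ i ∈ Finset.range (n + 1), monomial i (c i), fun s => ?_⟩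
  rw [(p s).as_sum_range' (n + 1) (Nat.lt_succ_of_le (hn s)), Polynomial.map_sum]
  simp only [map_monomial, hc]

end

section

variable {k₀ : Type} [Field k₀]

/-- The components of a sequence. -/
abbrev ev (k₀ : Type) [Field k₀] (s : ℕ) : (ℕ → k₀) →+* k₀ := Pi.evalRingHom (fun _ => k₀) s

theorem B_glue₂ (p : ℕ → k₀[X][X]) (n w : ℕ) (hn : ∀ s, (p s).natDegree ≤ n)
    (hw : ∀ s i, ((p s).coeff i).natDegree ≤ w) :
    ∃ q : (ℕ → k₀)[X][X], ∀ s, q.map (mapRingHom (ev k₀ s)) = p s :=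
  B_glue (fun s => mapRingHom (ev k₀ s)) p n hn fun i =>
    B_glue (ev k₀) (fun s => (p s).coeff i) w (fun s => hw s i) fun j =>
      ⟨fun s => ((p s).coeff i).coeff j, fun _ => rfl⟩

variable {k : Type} [Field k] {U : Ultrafilter ℕ} {π : (ℕ → k₀) →+* k}

theorem B_irred (hπ : Function.Surjective π) (H : Los U π (ev k₀)) (P : (ℕ → k₀)[X][X])
    (hm : P.Monic) (hi : Irreducible (P.map (mapRingHom π))) :
    ∀ᶠ s in (U : Filter ℕ), Irreducible (P.map (mapRingHom (ev k₀ s))) := by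
  have H2 := H.poly.poly
  have hs2 : Function.Surjective (mapRingHom (mapRingHom π)) :=
    map_surjective _ (map_surjective _ hπ)
  by_contra hc
  rw [← Ultrafilter.eventually_not] at hc
  obtain ⟨w, hw⟩ : ∃ w, ∀ i, (P.coeff i).natDegree ≤ w :=
    ⟨P.support.sup fun i => (P.coeff i).natDegree, fun i => by
      by_cases hi : i ∈ P.support
      · exact Finset.le_sup (f := fun i => (P.coeff i).natDegree) hi
      · simp [notMem_support_iff.1 hi]⟩
  have hd : P.natDegree ≠ 0 := by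
    intro h0
    rw [eq_one_of_monic_natDegree_zero hm h0, Polynomial.map_one] at hi
    exact not_irreducible_one hi
  have key : ∀ s, ∃ f g : k₀[X][X], (f.natDegree ≤ P.natDegree ∧
      ∀ i, (f.coeff i).natDegree ≤ w) ∧ (g.natDegree ≤ P.natDegree ∧
      ∀ i, (g.coeff i).natDegree ≤ w) ∧ (¬ Irreducible (P.map (mapRingHom (ev k₀ s))) →
        f * g = P.map (mapRingHom (ev k₀ s)) ∧ f.natDegree ≠ 0 ∧ g.natDegree ≠ 0) := by
    intro s
    by_cases h : Irreducible (P.map (mapRingHom (ev k₀ s)))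
    · exact ⟨0, 0, by simp, by simp, fun h' => absurd h h'⟩
    have hms : (P.map (mapRingHom (ev k₀ s))).Monic := hm.map _
    have hds : (P.map (mapRingHom (ev k₀ s))).natDegree = P.natDegree := hm.natDegree_map _
    have hws : ∀ i, ((P.map (mapRingHom (ev k₀ s))).coeff i).natDegree ≤ w := fun i => by
      rw [coeff_map]
      exact natDegree_map_le.trans (hw i)
    have h' := h
    rw [hms.irreducible_iff_natDegree] at h'
    push Not at h'
    obtain ⟨f, g, -, -, hfg, hf0, hg0⟩ := h' (fun h1 => hd (by rw [← hds, h1, natDegree_one]))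
    have hf : f ∣ P.map (mapRingHom (ev k₀ s)) := ⟨g, hfg.symm⟩
    have hg : g ∣ P.map (mapRingHom (ev k₀ s)) := ⟨f, by rw [← hfg, mul_comm]⟩
    exact ⟨f, g, ⟨hds ▸ natDegree_le_of_dvd hf hms.ne_zero, B_factor_le hms.ne_zero hf hws⟩,
      ⟨hds ▸ natDegree_le_of_dvd hg hms.ne_zero, B_factor_le hms.ne_zero hg hws⟩,
      fun _ => ⟨hfg, hf0, hg0⟩⟩
  choose f g hf hg hfg using key
  obtain ⟨F, hF⟩ := B_glue₂ f _ _ (fun s => (hf s).1) (fun s => (hf s).2)
  obtain ⟨G, hG⟩ := B_glue₂ g _ _ (fun s => (hg s).1) (fun s => (hg s).2)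
  have hunit : ∀ (F : (ℕ → k₀)[X][X]), IsUnit (F.map (mapRingHom π)) →
      ∀ᶠ s in (U : Filter ℕ), (F.map (mapRingHom (ev k₀ s))).natDegree = 0 := by
    intro F hu
    obtain ⟨u, hu⟩ := hu.exists_right_inv
    obtain ⟨u, rfl⟩ := hs2 u
    have := (H2.eq (F * u) 1).1 (by rw [map_mul, map_one]; exact hu)
    refine this.mono fun s hs => natDegree_eq_zero_of_isUnit ?_
    rw [map_mul, map_one] at hs
    exact IsUnit.of_mul_eq_one _ hs
  have hmul : P.map (mapRingHom π) = F.map (mapRingHom π) * G.map (mapRingHom π) := by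
    rw [← Polynomial.map_mul]
    refine (H2.eq P (F * G)).2 (hc.mono fun s hs => ?_)
    rw [map_mul]
    simp only [coe_mapRingHom, hF, hG]
    exact (hfg s hs).1.symm
  rcases hi.isUnit_or_isUnit hmul with hu | hu
  · obtain ⟨s, h1, h2⟩ := ((hunit F hu).and hc).exists
    exact (hfg s h2).2.1 (hF s ▸ h1)
  · obtain ⟨s, h1, h2⟩ := ((hunit G hu).and hc).exists
    exact (hfg s h2).2.2 (hG s ▸ h1)

theorem B_algClosed [IsAlgClosed k₀] (hπ : Function.Surjective π) : IsAlgClosed k := by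
  refine IsAlgClosed.of_exists_root k fun p hm hi => ?_
  obtain ⟨q, rfl, hd, hq⟩ := lifts_and_natDegree_eq_and_monic
    ((mem_lifts p).2 (map_surjective π hπ p)) hm
  have : ∀ s, ∃ x, (q.map (ev k₀ s)).eval x = 0 := fun s =>
    IsAlgClosed.exists_root _ (by
      rw [hq.degree_map, degree_eq_natDegree hq.ne_zero, hd]
      exact_mod_cast hi.natDegree_pos.ne')
  choose x hx using this
  refine ⟨π x, ?_⟩
  rw [eval_map_apply]
  have : q.eval x = 0 := funext fun s =>
    (eval_map_apply (p := q) (ev k₀ s) x).symm.trans (hx s)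
  rw [this, map_zero]

variable [CharP k₀ 2]

/-- Componentwise Frobenius. -/
noncomputable def frobSeq (k₀ : Type) [Field k₀] [CharP k₀ 2] : (ℕ → k₀) →+* (ℕ → k₀) :=
  RingHom.pi fun s => (iterateFrobenius k₀ 2 s).comp (ev k₀ s)

theorem frobSeq_apply (a : ℕ → k₀) (s : ℕ) : frobSeq k₀ a s = a s ^ 2 ^ s := rfl

theorem B_pacm [IsAlgClosed k₀] (hS : Stepanov) (hU : (U : Filter ℕ) ≤ atTop)
    (hπ : Function.Surjective π) (H : Los U π (ev k₀)) (φ : k ≃+* k)
    (hφ : ∀ a, φ (π a) = π (frobSeq k₀ a)) : PACm φ := by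
  intro P r hm hi hinv hder hr
  have H1 := H.poly
  have H2 := H1.poly
  have hs1 : Function.Surjective (mapRingHom π) := map_surjective _ hπ
  have hs2 : Function.Surjective (mapRingHom (mapRingHom π)) := map_surjective _ hs1
  have hd : P.natDegree ≠ 0 := fun h0 => hder (by rw [eq_C_of_natDegree_eq_zero h0]; simp)
  obtain ⟨A, B, r₁, hr₁, e⟩ := B_bezout P (derivative P) hi hd fun h =>
    (natDegree_le_of_dvd h hder).not_gt (natDegree_derivative_lt hd)
  obtain ⟨P, rfl, -, hPm⟩ := lifts_and_natDegree_eq_and_monic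
    ((mem_lifts P).2 (map_surjective _ hs1 P)) hm
  obtain ⟨A', hA⟩ := hs2 (C r * A)
  obtain ⟨B', hB⟩ := hs2 (C r * B)
  obtain ⟨ρ, hρ⟩ := hs1 (r * r₁)
  obtain ⟨w, hw⟩ : ∃ w, ∀ i, (P.coeff i).natDegree ≤ w :=
    ⟨P.support.sup fun i => (P.coeff i).natDegree, fun i => by
      by_cases hi : i ∈ P.support
      · exact Finset.le_sup (f := fun i => (P.coeff i).natDegree) hi
      · simp [notMem_support_iff.1 hi]⟩
  obtain ⟨s₀, hs₀⟩ := hS P.natDegree (max w ρ.natDegree)
  have e1 := B_irred hπ H P hPm hi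
  have e2 := (H1.ne ρ).1 (by rw [hρ]; exact mul_ne_zero hr hr₁)
  have e3 := (H2.eq (A' * P + B' * derivative P) (C ρ)).1 (by
    rw [map_add, map_mul, map_mul, hA, hB]
    simp only [coe_mapRingHom, map_C, ← derivative_map] at hρ ⊢
    rw [hρ, C_mul, ← e]
    ring)
  have e4 := (H2.eq (P.map (mapRingHom (frobSeq k₀))) P).1 (by
    have : π.comp (frobSeq k₀) = (φ : k →+* k).comp π := RingHom.ext fun a => (hφ a).symm
    simp only [coe_mapRingHom]
    rw [Polynomial.map_map, mapRingHom_comp, this, ← mapRingHom_comp, ← Polynomial.map_map, hinv])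
  have e5 : ∀ᶠ s in (U : Filter ℕ), ∃ p : k₀ × k₀, p.1 ^ 2 ^ s = p.1 ∧ p.2 ^ 2 ^ s = p.2 ∧
      (P.map (mapRingHom (ev k₀ s))).evalEval p.1 p.2 = 0 ∧ (ρ.map (ev k₀ s)).eval p.1 ≠ 0 := by
    filter_upwards [e1, e2, e3, e4, hU (eventually_ge_atTop s₀)] with s h1 h2 h3 h4 h5
    simp only [coe_mapRingHom] at h2 h3 h4
    obtain ⟨x, y, h⟩ := hs₀ s h5 k₀ (P.map (mapRingHom (ev k₀ s))) (A'.map (mapRingHom (ev k₀ s)))
      (B'.map (mapRingHom (ev k₀ s))) (ρ.map (ev k₀ s)) (hPm.map _) h1 natDegree_map_le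
      (fun i => by
        rw [coeff_map]
        exact natDegree_map_le.trans ((hw i).trans (le_max_left _ _)))
      (by
        have : (iterateFrobenius k₀ 2 s).comp (ev k₀ s) = (ev k₀ s).comp (frobSeq k₀) := rfl
        rw [Polynomial.map_map, mapRingHom_comp, this, ← mapRingHom_comp, ← Polynomial.map_map,
          h4])
      h2 (natDegree_map_le.trans (le_max_right _ _))
      (by
        rw [derivative_map, ← Polynomial.map_mul, ← Polynomial.map_mul, ← Polynomial.map_add, h3,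
          map_C, coe_mapRingHom])
    exact ⟨(x, y), h⟩
  obtain ⟨p, hp⟩ := e5.choice
  refine ⟨π fun s => (p s).1, π fun s => (p s).2, ?_, ?_, ?_, ?_⟩
  · rw [hφ]
    exact (H.eq _ _).2 (hp.mono fun s hs => hs.1)
  · rw [hφ]
    exact (H.eq _ _).2 (hp.mono fun s hs => hs.2.1)
  · rw [map_mapRingHom_evalEval]
    refine (H _).2 (hp.mono fun s hs => ?_)
    rw [← map_mapRingHom_evalEval]
    exact hs.2.2.1
  · have : (r * r₁).eval (π fun s => (p s).1) ≠ 0 := by
      rw [← hρ, coe_mapRingHom, eval_map_apply]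
      refine (H.ne _).2 (hp.mono fun s hs => ?_)
      rw [← eval_map_apply]
      exact hs.2.2.2
    rw [eval_mul] at this
    exact left_ne_zero_of_mul this

end

end Pool.Agent.Lib.MP_346d6a_co
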