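import Pool.Agent.Lib.MP_346d6a_co.B2

/-!
Part B: the ultraproduct of the Frobenius difference fields.
-/

namespace Pool.Agent.Lib.MP_346d6a_co

open Polynomial Filter

section

variable {k₀ : Type} [Field k₀] {k : Type} [Field k] {U : Ultrafilter ℕ} {π : (ℕ → k₀) →+* k}

theorem B_eval (π : (ℕ → k₀) →+* k) (f : k₀[X]) (a : ℕ → k₀) :
    (f.map (π.comp (Pi.constRingHom ℕ k₀))).eval (π a) = π fun s => f.eval (a s) := by
  rw [← Polynomial.map_map, eval_map_apply]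
  congr 1
  funext s
  have h := eval_map_apply (p := f.map (Pi.constRingHom ℕ k₀)) (ev k₀ s) a
  rw [Polynomial.map_map, show (ev k₀ s).comp (Pi.constRingHom ℕ k₀) = RingHom.id k₀ from rfl,
    Polynomial.map_id] at h
  exact h.symm

theorem B_const {a : ℕ → k₀} {p : k₀[X]} (hp : p ≠ 0)
    (h : ∀ᶠ s in (U : Filter ℕ), p.eval (a s) = 0) : ∃ c, ∀ᶠ s in (U : Filter ℕ), a s = c := by
  obtain ⟨c, -, hc⟩ := (Ultrafilter.eventually_exists_mem_iff (f := U) (P := fun c s => a s = c)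
    (finite_setOfPred_isRoot hp)).1 (h.mono fun s hs => ⟨a s, hs, rfl⟩)
  exact ⟨c, hc⟩

variable [CharP k₀ 2] [IsAlgClosed k₀]

theorem B_phi (hπ : Function.Surjective π) (H : Los U π (ev k₀)) :
    ∃ φ : k ≃+* k, ∀ a, φ (π a) = π (frobSeq k₀ a) := by
  have hker : RingHom.ker π ≤ RingHom.ker (π.comp (frobSeq k₀)) := by
    intro a ha
    rw [RingHom.mem_ker] at ha ⊢
    refine (H _).2 (((H a).1 ha).mono fun s hs => ?_)
    have hs' : a s = 0 := hs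
    change a s ^ 2 ^ s = 0
    rw [hs', zero_pow (by positivity)]
  let ψ : k →+* k := π.liftOfSurjective hπ ⟨_, hker⟩
  have hψ : ∀ a, ψ (π a) = π (frobSeq k₀ a) := fun a =>
    RingHom.liftOfSurjective_comp_apply π hπ ⟨_, hker⟩ a
  refine ⟨RingEquiv.ofBijective ψ ⟨ψ.injective, fun x => ?_⟩, hψ⟩
  obtain ⟨a, rfl⟩ := hπ x
  refine ⟨π fun s => (iterateFrobeniusEquiv k₀ 2 s).symm (a s), ?_⟩
  rw [hψ]
  congr 1
  funext s
  exact (iterateFrobeniusEquiv k₀ 2 s).apply_symm_apply (a s)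

theorem B_prim (k₀ : Type) [Field k₀] [CharP k₀ 2] [IsAlgClosed k₀] (s : ℕ) :
    ∃ x : k₀, 1 ≤ s → IsPrimitiveRoot x (2 ^ s - 1) := by
  by_cases hs : 1 ≤ s
  · have : NeZero ((2 ^ s - 1 : ℕ) : k₀) := ⟨by
      have h2 : (2 : k₀) = 0 := CharP.cast_eq_zero k₀ 2
      rw [Nat.cast_sub Nat.one_le_two_pow]
      simp [h2, zero_pow (show s ≠ 0 by omega)]⟩
    obtain ⟨x, hx⟩ := HasEnoughRootsOfUnity.exists_primitiveRoot k₀ (2 ^ s - 1)
    exact ⟨x, fun _ => hx⟩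
  · exact ⟨0, fun h => absurd h hs⟩

theorem B_main (hS : Stepanov) (hk : ∀ c : k₀, ∃ N, 1 ≤ N ∧ c ^ 2 ^ N = c) (S : Set ℕ)
    (hU : (U : Filter ℕ) ≤ atTop) (hUS : ∀ᶠ s in (U : Filter ℕ), s ∈ S)
    (hπ : Function.Surjective π) (H : Los U π (ev k₀)) [Algebra k₀ k]
    (hι : algebraMap k₀ k = π.comp (Pi.constRingHom ℕ k₀)) :
    ∃ (φ : k ≃+* k) (φ₀ : k₀ →+* k₀) (t : k), PAC φ ∧
      (∀ c, φ (algebraMap k₀ k c) = algebraMap k₀ k (φ₀ c)) ∧ φ t = t ∧ Transcendental k₀ t ∧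
      (∀ c : k₀, (∀ s ∈ S, c ^ 2 ^ s = c) → φ₀ c = c) ∧
      ∀ f : k₀[X], (∀ s ∈ S, APNFix (iterateFrobeniusEquiv k₀ 2 s) f) →
        APNFix φ (f.map (algebraMap k₀ k)) := by
  obtain ⟨φ, hφ⟩ := B_phi hπ H
  have hinj := (algebraMap k₀ k).injective
  have hι' : ∀ c, algebraMap k₀ k c = π fun _ => c := fun c => by rw [hι]; rfl
  have h0 : ∀ c, ∃ c', φ (algebraMap k₀ k c) = algebraMap k₀ k c' := by
    intro c
    obtain ⟨N, hN, hc⟩ := hk c
    obtain ⟨c', hc'⟩ := B_const (U := U) (a := fun s => c ^ 2 ^ s)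
      (FiniteField.X_pow_card_sub_X_ne_zero k₀ (Nat.one_lt_two_pow (show N ≠ 0 by omega)))
      (Eventually.of_forall fun s => by
        rw [eval_sub, eval_pow, eval_X, ← pow_mul, mul_comm, pow_mul, hc, sub_self])
    refine ⟨c', ?_⟩
    rw [hι', hι', hφ]
    exact (H.eq _ _).2 hc'
  choose g hg using h0
  let φ₀ : k₀ →+* k₀ :=
    { toFun := g
      map_one' := hinj (by rw [← hg, map_one, map_one])
      map_mul' := fun a b => hinj (by rw [map_mul, ← hg, ← hg, ← hg, map_mul, map_mul])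
      map_zero' := hinj (by rw [← hg, map_zero, map_zero])
      map_add' := fun a b => hinj (by rw [map_add, ← hg, ← hg, ← hg, map_add, map_add]) }
  choose t ht using B_prim k₀
  have hfix : ∀ a, φ (π a) = π a ↔ ∀ᶠ s in (U : Filter ℕ), a s ^ 2 ^ s = a s := fun a => by
    rw [hφ]
    exact H.eq _ _
  refine ⟨φ, φ₀, π t, B_pac_of_monic φ (B_pacm hS hU hπ H φ hφ), hg, ?_, ?_, ?_, ?_⟩
  · refine (hfix t).2 (Eventually.mono (hU (eventually_ge_atTop 1)) fun s hs => ?_)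
    have h1 : 2 ^ s = 2 ^ s - 1 + 1 := (Nat.sub_add_cancel Nat.one_le_two_pow).symm
    rw [h1, pow_succ, (ht s hs).pow_eq_one, one_mul]
  · rintro ⟨p, hp, h⟩
    rw [← eval_map_algebraMap, hι, B_eval] at h
    obtain ⟨c, hc⟩ := B_const hp ((H _).1 h)
    obtain ⟨s₁, h1, h2⟩ := (hc.and (hU (eventually_ge_atTop 1))).exists
    obtain ⟨s₂, h3, h4⟩ := (hc.and (hU (eventually_gt_atTop s₁))).exists
    have h2' : 1 ≤ s₁ := h2
    have h4' : s₁ < s₂ := h4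
    have h5 := (h1 ▸ ht s₁ h2').unique (h3 ▸ ht s₂ (by omega))
    have h6 : 2 ^ s₁ < 2 ^ s₂ := Nat.pow_lt_pow_right (by norm_num) h4'
    have h7 : 1 ≤ 2 ^ s₁ := Nat.one_le_two_pow
    omega
  · intro c hc
    apply hinj
    refine (hg c).symm.trans ?_
    rw [hι']
    exact (hfix _).2 (hUS.mono fun s hs => hc s hs)
  · intro f hf x y z hx hy hz h
    obtain ⟨x, rfl⟩ := hπ x
    obtain ⟨y, rfl⟩ := hπ y
    obtain ⟨z, rfl⟩ := hπ z
    rw [← map_add π, ← map_add π, hι, B_eval, B_eval, B_eval, B_eval, ← map_add π, ← map_add π,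
      ← map_add π] at h
    rw [H.eq, H.eq, H.eq, ← Ultrafilter.eventually_or, ← Ultrafilter.eventually_or]
    filter_upwards [hUS, (hfix x).1 hx, (hfix y).1 hy, (hfix z).1 hz, (H _).1 h]
      with s h1 h2 h3 h4 h5
    exact hf s h1 (x s) (y s) (z s) h2 h3 h4 h5

end

theorem existsPAC (h : Stepanov) : ExistsPAC := by
  intro k₀ _ _ _ hk S hS
  have hne : (atTop ⊓ 𝓟 S).NeBot :=
    frequently_mem_iff_neBot.1 (Nat.frequently_atTop_iff_infinite.2 hS)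
  let U : Ultrafilter ℕ := Ultrafilter.of (atTop ⊓ 𝓟 S)
  have hU : (U : Filter ℕ) ≤ atTop ⊓ 𝓟 S := Ultrafilter.of_le _
  let π : (ℕ → k₀) →+* Germ (U : Filter ℕ) k₀ := Germ.coeRingHom _
  have hπ : Function.Surjective π := fun x => Germ.inductionOn x fun a => ⟨a, rfl⟩
  have H : Los U π (ev k₀) := fun a => Germ.coe_eq
  let _ : Algebra k₀ (Germ (U : Filter ℕ) k₀) := (π.comp (Pi.constRingHom ℕ k₀)).toAlgebra
  exact ⟨Germ (U : Filter ℕ) k₀, inferInstance, B_algClosed hπ,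
    charP_of_injective_ringHom (π.comp (Pi.constRingHom ℕ k₀)).injective 2, inferInstance,
    B_main h hk S (hU.trans inf_le_left) (le_principal_iff.1 (hU.trans inf_le_right)) hπ H rfl⟩

end Pool.Agent.Lib.MP_346d6a_co
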