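import Pool.Agent.Lib.MP_346d6a_co.Defs

/-!
Internal definitions and the statements of the parts of the proof.
-/

namespace Pool.Agent.Lib.MP_346d6a_co

open Polynomial

section

variable {k : Type} [Field k]

/-- Every invariant irreducible separable plane curve has fixed points off any other curve. -/
def PAC (φ : k ≃+* k) : Prop :=
  ∀ P h : k[X][X], Irreducible P → P.map (mapRingHom (φ : k →+* k)) = P → derivative P ≠ 0 →
    ¬ P ∣ h → ∃ x y : k, φ x = x ∧ φ y = y ∧ P.evalEval x y = 0 ∧ h.evalEval x y ≠ 0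

/-- `f` is APN on the fixed field of `φ`. -/
def APNFix (φ : k ≃+* k) (f : k[X]) : Prop :=
  ∀ x y z : k, φ x = x → φ y = y → φ z = z →
    f.eval x + f.eval y + f.eval z + f.eval (x + y + z) = 0 → x = y ∨ y = z ∨ x = z

/-- The monomial `x ^ e` has generic nontrivial fixed solutions. -/
def GenPt (φ : k ≃+* k) (e : ℕ) : Prop :=
  ∀ N : ℕ, ∃ x z : k, φ x = x ∧ φ z = z ∧ x ^ e + (x + 1) ^ e = z ^ e + (z + 1) ^ e ∧
    z ≠ x ∧ z ≠ x + 1 ∧ ∀ δ, 1 ≤ δ → δ ≤ N → z ^ δ ≠ (z + 1) ^ δ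

/-- The substitution `b ↦ Y`, `a ↦ s * Y` (`b`, `s` inner and `a`, `Y` outer variables).
The degree of `Th P` is the total degree of `P`, its coefficients are the homogeneous parts. -/
noncomputable def Th : k[X][X] →+* k[X][X] :=
  eval₂RingHom (eval₂RingHom (C.comp C) X) (C X * X)

variable (k) in
/-- `x ^ j + y ^ j + z ^ j + (x + y + z) ^ j` at `x = 1`, `y = 1 + b`, `z = 1 + a`. -/
noncomputable def Sec (j : ℕ) : k[X][X] :=
  1 + (1 + C X) ^ j + (1 + X) ^ j + (1 + C X + X) ^ j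

/-- A first order deformation of a factorisation of `Sec e` in the direction `Sec n`. -/
def Block (φ₀ : k →+* k) (e n : ℕ) (α : k) : Prop :=
  ∃ U W U₁ W₁ : k[X][X], U * W = Sec k e ∧ U₁ * W + W₁ * U = Sec k n ∧
    (Th U).leadingCoeff.natDegree = (Th U).natDegree ∧ (Th U).leadingCoeff.eval α = 0 ∧
    ∀ β, (Th U).leadingCoeff.eval β = 0 →
      (Th W).leadingCoeff.eval β ≠ 0 ∧ (Th U).leadingCoeff.eval (φ₀ β) ≠ 0

end

/-- A real valuation on `Ω`, trivial on `k`, with residue field `k` and a small element `τ`. -/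
structure Val (k Ω : Type) [Field k] [Field Ω] [Algebra k Ω] where
  v : Valuation Ω NNReal
  τ : Ω
  τ_ne : τ ≠ 0
  τ_lt : v τ < 1
  const : ∀ c : k, c ≠ 0 → v (algebraMap k Ω c) = 1
  res : ∀ x, v x ≤ 1 → ∃ c : k, v (x - algebraMap k Ω c) < 1

/-- Part A: rational points on absolutely irreducible curves over large finite fields. -/
def Stepanov : Prop :=
  ∀ n w : ℕ, ∃ s₀ : ℕ, ∀ s, s₀ ≤ s → ∀ (k : Type) [Field k] [IsAlgClosed k] [CharP k 2]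
    (P A B : k[X][X]) (r : k[X]), P.Monic → Irreducible P → P.natDegree ≤ n →
    (∀ i, (P.coeff i).natDegree ≤ w) → P.map (mapRingHom (iterateFrobenius k 2 s)) = P →
    r ≠ 0 → r.natDegree ≤ w → A * P + B * derivative P = C r →
    ∃ x y : k, x ^ 2 ^ s = x ∧ y ^ 2 ^ s = y ∧ P.evalEval x y = 0 ∧ r.eval x ≠ 0

/-- Part B: the ultraproduct of Frobenius difference fields. -/
def ExistsPAC : Prop :=
  ∀ (k₀ : Type) [Field k₀] [IsAlgClosed k₀] [CharP k₀ 2],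
    (∀ c : k₀, ∃ N, 1 ≤ N ∧ c ^ 2 ^ N = c) → ∀ S : Set ℕ, S.Infinite →
    ∃ (k : Type) (_ : Field k) (_ : IsAlgClosed k) (_ : CharP k 2) (_ : Algebra k₀ k)
      (φ : k ≃+* k) (φ₀ : k₀ →+* k₀) (t : k), PAC φ ∧
      (∀ c, φ (algebraMap k₀ k c) = algebraMap k₀ k (φ₀ c)) ∧ φ t = t ∧ Transcendental k₀ t ∧
      (∀ c : k₀, (∀ s ∈ S, c ^ 2 ^ s = c) → φ₀ c = c) ∧
      ∀ f : k₀[X], (∀ s ∈ S, APNFix (iterateFrobeniusEquiv k₀ 2 s) f) →
        APNFix φ (f.map (algebraMap k₀ k))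

/-- Part C1: an algebraically closed valued difference field over `(k, φ)`. -/
def ExistsVal : Prop :=
  ∀ (k : Type) [Field k] [IsAlgClosed k] (φ : k ≃+* k),
    ∃ (Ω : Type) (_ : Field Ω) (_ : IsAlgClosed Ω) (_ : Algebra k Ω) (V : Val k Ω)
      (g : Ω ≃+* Ω), g V.τ = V.τ ∧ (∀ c, g (algebraMap k Ω c) = algebraMap k Ω (φ c)) ∧
      ∀ x, V.v (g x) = V.v x

/-- Part C1: a fixed simple root over a transcendental extension gives a fixed point. -/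
def RootLemma : Prop :=
  ∀ (k : Type) [Field k] (φ : k ≃+* k), PAC φ →
    ∀ (Ω : Type) [Field Ω] [Algebra k Ω] (g : Ω →+* Ω) (τ y : Ω), Transcendental k τ →
    g τ = τ → g y = y → (∀ c, g (algebraMap k Ω c) = algebraMap k Ω (φ c)) →
    ∀ E h : k[X][X], aevalAeval τ y E = 0 → aevalAeval τ y (derivative E) ≠ 0 →
      aevalAeval τ y h ≠ 0 →
      ∃ x₀ y₀ : k, φ x₀ = x₀ ∧ φ y₀ = y₀ ∧ E.evalEval x₀ y₀ = 0 ∧ h.evalEval x₀ y₀ ≠ 0

/-- Part C2: reduction to the odd part of the degree. -/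
def TopReduction : Prop :=
  ∀ (k : Type) [Field k] [IsAlgClosed k] [CharP k 2] (φ : k ≃+* k), PAC φ →
    ∀ (f : k[X]) (r e : ℕ), APNFix φ f → f.map (φ : k →+* k) = f →
    (∀ j ∈ f.support, ¬ Lin j) → derivative f ≠ 0 → Odd e → f.natDegree = 2 ^ r * e →
    r ≠ 1 ∧ ¬ GenPt φ e

/-- Part D: blocks. -/
def Blocks : Prop :=
  ∀ (k₀ k : Type) [Field k₀] [IsAlgClosed k₀] [CharP k₀ 2] [Field k] [IsAlgClosed k] [CharP k 2]
    [Algebra k₀ k] (φ : k ≃+* k) (φ₀ : k₀ →+* k₀) (t : k), PAC φ →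
    (∀ c, φ (algebraMap k₀ k c) = algebraMap k₀ k (φ₀ c)) → φ t = t → Transcendental k₀ t →
    ∀ (f : k₀[X]) (e n : ℕ), APNFix φ (f.map (algebraMap k₀ k)) → f.map φ₀ = f →
    f.natDegree = e → Odd e → n + 1 < e → f.coeff n ≠ 0 → (∀ j, n < j → j < e → f.coeff j = 0) →
    (∀ β : k₀, (X - C β) ^ 2 ∣ (1 + X ^ e + (1 + X) ^ e : k₀[X]) →
      1 + β ^ (e - 1) + (1 + β) ^ (e - 1) ≠ 0) →
    ∀ α : k₀, α ≠ 0 → α ≠ 1 → Odd (rootMultiplicity α (1 + X ^ e + (1 + X) ^ e : k₀[X])) →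
    Block φ₀ e n α

/-- Part E: the Gold degree. -/
def GoldCase : Prop :=
  ∀ (k : Type) [Field k] [IsAlgClosed k] [CharP k 2] (φ₀ : k →+* k) (u n : ℕ), 1 ≤ u →
    n < 2 ^ u → ¬ Lin n →
    ∃ α : k, α ^ 2 ^ u = α ∧ α ≠ 0 ∧ α ≠ 1 ∧ ¬ Block φ₀ (2 ^ u + 1) n α

/-- Part F: the Kasami-Welch degree. -/
def KasamiCase : Prop :=
  ∀ (k : Type) [Field k] [IsAlgClosed k] [CharP k 2] (φ₀ : k →+* k) (u n : ℕ), 2 ≤ u →
    n < 4 ^ u - 2 ^ u → ¬ Lin n →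
    ∃ α : k, α ^ 2 ^ u = α ∧ α ≠ 0 ∧ α ≠ 1 ∧ ¬ Block φ₀ (4 ^ u - 2 ^ u + 1) n α

/-- Part M: the curve of a monomial that is neither Gold nor Kasami-Welch has a big component. -/
def BigFactor : Prop :=
  ∀ (k : Type) [Field k] [IsAlgClosed k] [CharP k 2] (u o : ℕ), 1 ≤ u → Odd o → 3 ≤ o →
    o + 1 ≠ 2 ^ u → ∀ P : k[X], P = X ^ (2 ^ u * o + 1) + (X + 1) ^ (2 ^ u * o + 1) →
    ∃ D : k[X][X], Irreducible D ∧ D ∣ P.map C + C P ∧ 2 ^ u * o < 2 * D.natDegree + 2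

end Pool.Agent.Lib.MP_346d6a_co
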