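import Pool.Agent.Lib.MP_346d6a_co.Th

/-!
Part D, general lemmas: top forms, descent of factorisations, expansion in a transcendental.
-/

namespace Pool.Agent.Lib.MP_346d6a_co.D90

open Polynomial Finset

theorem coeff_mul_split {R : Type} [CommRing R] (P Q : R[X]) {j : ℕ} (hj : 1 ≤ j) :
    (P * Q).coeff j = P.coeff j * Q.coeff 0 + Q.coeff j * P.coeff 0 +
      ∑ i ∈ Ioo 0 j, P.coeff i * Q.coeff (j - i) := by
  rw [coeff_mul, Finset.Nat.sum_antidiagonal_eq_sum_range_succ
    (fun a b => P.coeff a * Q.coeff b) j, sum_range_succ]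
  have h : range j = insert 0 (Ioo 0 j) := by
    ext i; simp only [mem_range, mem_insert, mem_Ioo]; omega
  rw [h, sum_insert (by simp)]
  simp only [Nat.sub_zero, Nat.sub_self]
  ring

section descent

variable {A k : Type} [CommRing A] [Field k] (ι : A →+* k)

theorem descent_zero (P Q : k[X][X]) {u w x y : A[X]} (hu : u.Monic)
    (hP : P.coeff 0 = u.map ι) (hQ : Q.coeff 0 = w.map ι) (hxy : x * u + y * w = 1)
    (hdeg : ∀ j, 1 ≤ j → (P.coeff j).degree < (u.map ι).degree)
    (hPQ : ∀ j, (P * Q).coeff j ∈ liftsRing ι) (j : ℕ) :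
    P.coeff j ∈ liftsRing ι ∧ Q.coeff j ∈ liftsRing ι := by
  induction j using Nat.strong_induction_on with
  | _ j ih =>
    rcases Nat.eq_zero_or_pos j with rfl | hj
    · exact ⟨⟨u, hP.symm⟩, ⟨w, hQ.symm⟩⟩
    have h1 : P.coeff j * w.map ι + Q.coeff j * u.map ι ∈ liftsRing ι := by
      have h2 := coeff_mul_split P Q hj
      rw [hP, hQ] at h2
      rw [eq_sub_of_add_eq h2.symm]
      refine Subring.sub_mem _ (hPQ j) (Subring.sum_mem _ fun i hi => ?_)
      rw [mem_Ioo] at hi
      exact Subring.mul_mem _ (ih i hi.2).1 (ih (j - i) (by omega)).2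
    obtain ⟨r, hr⟩ := h1
    simp only [coe_mapRingHom] at hr
    have hum : (u.map ι).Monic := hu.map ι
    have hxy' : x.map ι * u.map ι + y.map ι * w.map ι = 1 := by
      rw [← Polynomial.map_mul, ← Polynomial.map_mul, ← Polynomial.map_add, hxy,
        Polynomial.map_one]
    have h3 : ((y * r).map ι) %ₘ (u.map ι) = P.coeff j := by
      refine (div_modByMonic_unique (y.map ι * Q.coeff j - x.map ι * P.coeff j) _ hum
        ⟨?_, hdeg j hj⟩).2
      rw [Polynomial.map_mul, hr]
      linear_combination (-P.coeff j) * hxy'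
    have h4 : P.coeff j = ((y * r) %ₘ u).map ι := by rw [map_modByMonic _ hu, h3]
    refine ⟨⟨_, h4.symm⟩, ⟨(r - ((y * r) %ₘ u) * w) /ₘ u, ?_⟩⟩
    simp only [coe_mapRingHom]
    rw [map_divByMonic _ hu, Polynomial.map_sub, Polynomial.map_mul, ← h4, hr,
      add_sub_cancel_left, mul_comm, mul_divByMonic_cancel_left _ hum]

theorem descent (P Q : k[X][X]) {u w x y : A[X]} (hu : u.Monic)
    (hP : P.leadingCoeff = u.map ι) (hQ : Q.leadingCoeff = w.map ι) (hxy : x * u + y * w = 1)
    (hdeg : ∀ j, j < P.natDegree → (P.coeff j).degree < (u.map ι).degree)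
    (hPQ : ∀ j, (P * Q).coeff j ∈ liftsRing ι) (j : ℕ) :
    P.coeff j ∈ liftsRing ι ∧ Q.coeff j ∈ liftsRing ι := by
  have h := descent_zero ι (reflect P.natDegree P) (reflect Q.natDegree Q) hu
    (by rw [coeff_reflect, revAt_zero, ← hP]; rfl) (by rw [coeff_reflect, revAt_zero, ← hQ]; rfl)
    hxy (fun j hj => by
      rw [coeff_reflect]
      by_cases h1 : j ≤ P.natDegree
      · rw [revAt_le h1]; exact hdeg _ (by omega)
      · rw [revAt_eq_self_of_lt (by omega), coeff_eq_zero_of_natDegree_lt (by omega), degree_zero]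
        exact bot_lt_iff_ne_bot.2 (degree_ne_bot.2 (hu.map ι).ne_zero))
    (fun j => by
      rw [← reflect_mul P Q le_rfl le_rfl, coeff_reflect]; exact hPQ _)
  constructor
  · have := (h (revAt P.natDegree j)).1
    rwa [coeff_reflect, revAt_invol] at this
  · have := (h (revAt Q.natDegree j)).2
    rwa [coeff_reflect, revAt_invol] at this

end descent

section top

variable {k : Type} [Field k]

/-- The top form. -/
noncomputable def top (P : k[X][X]) : k[X] := (Th P).leadingCoeff

theorem top_mul (P Q : k[X][X]) : top (P * Q) = top P * top Q := by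
  simp only [top, map_mul, leadingCoeff_mul]

theorem top_eq_zero {P : k[X][X]} : top P = 0 ↔ P = 0 := by
  rw [top, leadingCoeff_eq_zero, Th_eq_zero]

theorem top_CC (c : k) : top (C (C c) : k[X][X]) = C c := by
  rw [top, Th_C_C, leadingCoeff_C]

theorem top_neg (P : k[X][X]) : top (-P) = -top P := by
  simp only [top, map_neg, leadingCoeff_neg]

theorem natDegree_top_le (P : k[X][X]) : (top P).natDegree ≤ (Th P).natDegree :=
  natDegree_coeff_Th_le P _

theorem top_map {K : Type} [Field K] (ψ : k →+* K) (P : k[X][X]) :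
    top (P.map (mapRingHom ψ)) = (top P).map ψ := by
  rw [top, Th_map, leadingCoeff_map_of_injective]
  · rfl
  · exact map_injective ψ ψ.injective

theorem isUnit_CC {P : k[X][X]} (h : IsUnit P) : ∃ c : k, c ≠ 0 ∧ P = C (C c) := by
  obtain ⟨p, hp, rfl⟩ := Polynomial.isUnit_iff.1 h
  obtain ⟨c, hc, rfl⟩ := Polynomial.isUnit_iff.1 hp
  exact ⟨c, hc.ne_zero, rfl⟩

theorem exists_irred_top (α : k) (G : k[X][X]) :
    G ≠ 0 → (top G).eval α = 0 → ∃ U, Irreducible U ∧ U ∣ G ∧ (top U).eval α = 0 := by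
  induction G using WfDvdMonoid.induction_on_irreducible with
  | zero => exact fun h => absurd rfl h
  | unit u hu =>
    intro _ h
    obtain ⟨c, hc, rfl⟩ := isUnit_CC hu
    rw [top_CC, eval_C] at h
    exact absurd h hc
  | mul a i ha hi ih =>
    intro _ h
    rw [top_mul, eval_mul, mul_eq_zero] at h
    rcases h with h | h
    · exact ⟨i, hi, dvd_mul_right _ _, h⟩
    · obtain ⟨U, h1, h2, h3⟩ := ih ha h
      exact ⟨U, h1, h2.mul_left _, h3⟩

theorem eval_coeff_pred {P Q : k[X][X]} {β : k} {N : ℕ} (hN : P.natDegree + Q.natDegree ≤ N + 1)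
    (hP : P.leadingCoeff.eval β = 0) (hQ : Q.leadingCoeff.eval β = 0) :
    ((P * Q).coeff N).eval β = 0 := by
  have key : ∀ (R : k[X][X]) (i : ℕ), R.leadingCoeff.eval β = 0 → R.natDegree ≤ i →
      (R.coeff i).eval β = 0 := by
    intro R i h hi
    rcases hi.eq_or_lt with rfl | hi
    · exact h
    · rw [coeff_eq_zero_of_natDegree_lt hi, eval_zero]
  rw [coeff_mul, eval_finsetSum]
  refine sum_eq_zero fun p hp => ?_
  rw [HasAntidiagonal.mem_antidiagonal] at hp
  rw [eval_mul]
  by_cases h : P.natDegree ≤ p.1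
  · rw [key P _ hP h, zero_mul]
  · rw [key Q _ hQ (by omega), mul_zero]

theorem gap_step {U W A B : k[X][X]} (hc : IsCoprime (top U) (top W)) (hU : U ≠ 0)
    (hA : A ≠ 0 → (Th A).natDegree < (top U).natDegree) (h : A * W + B * U = 0) :
    A = 0 ∧ B = 0 := by
  have hA0 : A = 0 := by
    by_contra hne
    have h1 : top A * top W = -(top B * top U) := by
      rw [← top_mul, ← top_mul, ← top_neg, eq_neg_of_add_eq_zero_left h]
    have h2 : top U ∣ top A := hc.dvd_of_dvd_mul_right ⟨-top B, by rw [h1]; ring⟩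
    have h3 := natDegree_le_of_dvd h2 (fun h => hne (top_eq_zero.1 h))
    have h4 := natDegree_top_le A
    have := hA hne
    omega
  rw [hA0, zero_mul, zero_add] at h
  exact ⟨hA0, (mul_eq_zero.1 h).resolve_right hU⟩

theorem gap {F G : k[X][X][X]} {d : ℕ} (hd : 1 ≤ d)
    (hc : IsCoprime (top (F.coeff 0)) (top (G.coeff 0))) (hU : F.coeff 0 ≠ 0)
    (hA : ∀ j, 1 ≤ j → F.coeff j ≠ 0 →
      (Th (F.coeff j)).natDegree < (top (F.coeff 0)).natDegree)
    (h : ∀ j, 1 ≤ j → j < d → (F * G).coeff j = 0) :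
    (F * G).coeff d = F.coeff d * G.coeff 0 + G.coeff d * F.coeff 0 := by
  have key : ∀ j, 1 ≤ j → j < d → F.coeff j = 0 ∧ G.coeff j = 0 := by
    intro j
    induction j using Nat.strong_induction_on with
    | _ j ih =>
      intro h1 h2
      refine gap_step hc hU (hA j h1) ?_
      have h3 := coeff_mul_split F G h1
      rw [h j h1 h2, sum_eq_zero, add_zero] at h3
      · exact h3.symm
      · intro i hi
        rw [mem_Ioo] at hi
        rw [(ih i hi.2 hi.1 (by omega)).1, zero_mul]
  rw [coeff_mul_split F G hd, sum_eq_zero, add_zero]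
  intro i hi
  rw [mem_Ioo] at hi
  rw [(key i hi.1 hi.2).1, zero_mul]

end top

section psi

variable {k₀ k : Type} [Field k₀] [Field k] [Algebra k₀ k]

/-- Substitution of `t` for the outer variable. -/
noncomputable def Psi (t : k) : k₀[X][X][X] →+* k[X][X] :=
  eval₂RingHom (mapRingHom (mapRingHom (algebraMap k₀ k))) (C (C t))

theorem Psi_monomial (t : k) (l : ℕ) (P : k₀[X][X]) :
    Psi t (monomial l P) = P.map (mapRingHom (algebraMap k₀ k)) * C (C (t ^ l)) := by
  simp [Psi]

theorem Psi_C (t : k) (P : k₀[X][X]) :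
    Psi t (C P) = P.map (mapRingHom (algebraMap k₀ k)) := by
  simp [Psi]

theorem exists_cp (t : k) (F : k₀[X][X][X]) (i j : ℕ) :
    ∃ p : k₀[X], aeval t p = ((Psi t F).coeff j).coeff i ∧
      ∀ l, p.coeff l = ((F.coeff l).coeff j).coeff i := by
  induction F using Polynomial.induction_on' with
  | add F G hF hG =>
    obtain ⟨p, hp, hp'⟩ := hF
    obtain ⟨q, hq, hq'⟩ := hG
    exact ⟨p + q, by simp [hp, hq], fun l => by simp [hp', hq']⟩
  | monomial n P =>
    refine ⟨monomial n ((P.coeff j).coeff i), ?_, fun l => ?_⟩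
    · rw [Psi_monomial, coeff_mul_C, coeff_mul_C, aeval_monomial]
      simp
    · simp only [coeff_monomial]
      split_ifs <;> simp

theorem Psi_coeff {t : k} (ht : Transcendental k₀ t) {F : k₀[X][X][X]} {i j : ℕ} {c : k₀}
    (h : ((Psi t F).coeff j).coeff i = algebraMap k₀ k c) (l : ℕ) :
    ((F.coeff l).coeff j).coeff i = if l = 0 then c else 0 := by
  obtain ⟨p, hp, hp'⟩ := exists_cp t F i j
  have : p = C c := transcendental_iff_injective.1 ht (by rw [hp, h, aeval_C])
  rw [← hp', this, coeff_C]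

theorem Psi_injective {t : k} (ht : Transcendental k₀ t) :
    Function.Injective (Psi t : k₀[X][X][X] → k[X][X]) := by
  rw [injective_iff_map_eq_zero]
  intro F hF
  ext l j i
  have := Psi_coeff ht (F := F) (i := i) (j := j) (c := 0) (by simp [hF]) l
  simpa using this

theorem Psi_map_CC (t : k) (p : k₀[X]) : Psi t (p.map (C.comp C)) = C (C (aeval t p)) := by
  induction p using Polynomial.induction_on' with
  | add p q h1 h2 => simp only [Polynomial.map_add, map_add, h1, h2]
  | monomial n a => rw [Polynomial.map_monomial, Psi_monomial]; simp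

theorem mem_range_Psi (t : k) (U : k[X][X])
    (h : ∀ i j, ∃ p : k₀[X], aeval t p = (U.coeff j).coeff i) :
    ∃ F : k₀[X][X][X], Psi t F = U := by
  change U ∈ RingHom.range (R := k₀[X][X][X]) (Psi t)
  rw [U.as_sum_support_C_mul_X_pow]
  refine Subring.sum_mem _ fun j _ => Subring.mul_mem _ ?_
    (Subring.pow_mem _ (RingHom.mem_range.2 ⟨C X, by simp [Psi_C]⟩) _)
  rw [(U.coeff j).as_sum_support_C_mul_X_pow, map_sum]
  refine Subring.sum_mem _ fun i _ => ?_
  rw [map_mul, map_pow]
  refine Subring.mul_mem _ ?_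
    (Subring.pow_mem _ (RingHom.mem_range.2 ⟨C (C X), by simp [Psi_C]⟩) _)
  obtain ⟨p, hp⟩ := h i j
  rw [← hp]
  exact ⟨p.map (C.comp C), Psi_map_CC t p⟩

theorem Th_coeff_Psi {t : k} (ht : Transcendental k₀ t) {F : k₀[X][X][X]} {N : ℕ} {u : k₀[X]}
    (h : (Th (Psi t F)).coeff N = u.map (algebraMap k₀ k)) (l : ℕ) :
    (Th (F.coeff l)).coeff N = if l = 0 then u else 0 := by
  ext j
  have h1 := congrArg (fun p => p.coeff j) h
  simp only [coeff_coeff_Th, coeff_map] at h1
  rw [coeff_coeff_Th]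
  by_cases hj : j ≤ N
  · rw [if_pos hj] at h1 ⊢
    rw [Psi_coeff ht h1 l]
    split_ifs <;> simp
  · rw [if_neg hj] at h1 ⊢
    have : u.coeff j = 0 := (map_eq_zero _).1 h1.symm
    split_ifs <;> simp [this]

end psi

end Pool.Agent.Lib.MP_346d6a_co.D90
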