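import Pool.Agent.Lib.MP_346d6a_co.D90A

/-!
Part D, the plane section `G` and its factorisation over the big field.
-/

namespace Pool.Agent.Lib.MP_346d6a_co.D90

open Polynomial Finset

section one

variable {k : Type} [Field k] [CharP k 2]

theorem cast_odd {e : ℕ} (he : Odd e) : (e : k) = 1 := by
  obtain ⟨r, rfl⟩ := he
  have h2 : (2 : k) = 0 := CharTwo.two_eq_zero
  push_cast
  rw [h2]; ring

theorem T_spec {e : ℕ} (he : Odd e) (h2 : 2 ≤ e) :
    (1 + X ^ e + (1 + X) ^ e : k[X]).Monic ∧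
      (1 + X ^ e + (1 + X) ^ e : k[X]).natDegree = e - 1 := by
  have h1 : (1 + X ^ e + (1 + X) ^ e : k[X]).natDegree ≤ e - 1 := by
    rw [natDegree_le_iff_coeff_eq_zero]
    intro N hN
    simp only [coeff_add, coeff_one, coeff_X_pow, coeff_one_add_X_pow]
    rw [if_neg (by omega)]
    by_cases h : N = e
    · subst h
      have h2 : (2 : k) = 0 := CharTwo.two_eq_zero
      simp only [if_true, Nat.choose_self, Nat.cast_one]
      linear_combination h2
    · rw [if_neg h, Nat.choose_eq_zero_of_lt (by omega)]; simp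
  have h3 : (1 + X ^ e + (1 + X) ^ e : k[X]).coeff (e - 1) = 1 := by
    simp only [coeff_add, coeff_one, coeff_X_pow, coeff_one_add_X_pow]
    rw [if_neg (by omega), if_neg (by omega), Nat.choose_symm (by omega), Nat.choose_one_right,
      cast_odd he]
    simp
  have h4 := natDegree_eq_of_le_of_coeff_ne_zero h1 (by rw [h3]; exact one_ne_zero)
  exact ⟨by rw [Monic, leadingCoeff, h4, h3], h4⟩

theorem CX_dvd_Sec (j : ℕ) : (C X : k[X][X]) ∣ Sec k j := by
  have h2 : (2 : k[X][X]) = 0 := CharTwo.two_eq_zero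
  have h : Sec k j = ((1 + C X) ^ j - 1 ^ j) + ((1 + C X + X) ^ j - (1 + X) ^ j) := by
    rw [Sec, one_pow]
    linear_combination (1 + (1 + X) ^ j) * h2
  rw [h]
  refine dvd_add ?_ ?_
  · have := sub_dvd_pow_sub_pow (1 + C X : k[X][X]) 1 j
    rwa [add_sub_cancel_left] at this
  · have := sub_dvd_pow_sub_pow (1 + C X + X : k[X][X]) (1 + X) j
    rwa [show (1 + C X + X : k[X][X]) - (1 + X) = C X by ring] at this

/-- A linear combination of the sections. -/
noncomputable def Gk (c : ℕ → k) (e : ℕ) : k[X][X] :=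
  ∑ j ∈ range (e + 1), C (C (c j)) * Sec k j

omit [CharP k 2] in
theorem coeff_Th_Gk (c : ℕ → k) (e s : ℕ) (hs : 1 ≤ s) : (Th (Gk c e)).coeff s =
    (∑ j ∈ range (e + 1), C (c j) * (j.choose s : k[X])) * (1 + X ^ s + (1 + X) ^ s) := by
  simp only [Gk, map_sum, map_mul, Th_C_C, finsetSum_coeff, coeff_C_mul, coeff_Th_Sec _ _ hs,
    sum_mul, mul_assoc]

theorem Gk_spec {c : ℕ → k} {e : ℕ} (he : Odd e) (h2 : 2 ≤ e) (h1 : c e = 1)
    (h0 : c (e - 1) = 0) :
    (Th (Gk c e)).natDegree = e ∧ top (Gk c e) = 1 + X ^ e + (1 + X) ^ e ∧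
      (Th (Gk c e)).coeff (e - 1) = 1 + X ^ (e - 1) + (1 + X) ^ (e - 1) := by
  have ha : (Th (Gk c e)).natDegree ≤ e := by
    rw [natDegree_le_iff_coeff_eq_zero]
    intro N hN
    rw [coeff_Th_Gk c e N (by omega), sum_eq_zero, zero_mul]
    intro j hj
    rw [mem_range] at hj
    rw [Nat.choose_eq_zero_of_lt (by omega)]; simp
  have hb : (Th (Gk c e)).coeff e = 1 + X ^ e + (1 + X) ^ e := by
    rw [coeff_Th_Gk c e e (by omega), sum_range_succ, sum_eq_zero, h1]
    · simp
    intro j hj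
    rw [mem_range] at hj
    rw [Nat.choose_eq_zero_of_lt (by omega)]; simp
  have hc := natDegree_eq_of_le_of_coeff_ne_zero ha
    (by rw [hb]; exact (T_spec he h2).1.ne_zero)
  refine ⟨hc, by rw [top, leadingCoeff, hc, hb], ?_⟩
  rw [coeff_Th_Gk c e _ (by omega), sum_range_succ, sum_eq_zero, h1,
    Nat.choose_symm (by omega), Nat.choose_one_right]
  · rw [← map_natCast C, cast_odd he]; simp
  intro j hj
  rw [mem_range] at hj
  by_cases h : j = e - 1
  · rw [h, h0]; simp
  · rw [Nat.choose_eq_zero_of_lt (by omega)]; simp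

theorem CX_dvd_Gk (c : ℕ → k) (e : ℕ) : (C X : k[X][X]) ∣ Gk c e :=
  dvd_sum fun j _ => (CX_dvd_Sec j).mul_left _

omit [CharP k 2] in
theorem Gk_map (φ : k →+* k) {c : ℕ → k} (hc : ∀ j, φ (c j) = c j) (e : ℕ) :
    (Gk c e).map (mapRingHom φ) = Gk c e := by
  simp only [Gk, Polynomial.map_sum, Polynomial.map_mul, Sec_map, map_C, coe_mapRingHom, hc]

omit [CharP k 2] in
theorem top_h : top (X * C X * (X + C X) : k[X][X]) = X * (X + 1) := by
  have : Th (X * C X * (X + C X) : k[X][X]) = C (X * (X + 1)) * X ^ 3 := by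
    simp only [map_mul, map_add, Th_X, Th_C_X, map_one]; ring
  rw [top, this, leadingCoeff_C_mul_X_pow]

theorem Gk_point {φ : k ≃+* k} {g : k[X]} (hg : APNFix φ g) {t : k} (ht : φ t = t) (ht0 : t ≠ 0)
    {e : ℕ} (he : g.natDegree = e) (hge : g.coeff e ≠ 0) {x y : k} (hx : φ x = x) (hy : φ y = y)
    (h : (Gk (fun j => g.coeff j / g.coeff e * t ^ (e - j)) e).evalEval x y = 0) :
    (X * C X * (X + C X) : k[X][X]).evalEval x y = 0 := by
  have h2 : (2 : k) = 0 := CharTwo.two_eq_zero
  have hs : 1 / t + (1 + x) / t + (1 + y) / t = (1 + x + y) / t := by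
    field_simp; linear_combination h2
  have h3 := hg (1 / t) ((1 + x) / t) ((1 + y) / t) (by simp [ht]) (by simp [ht, hx])
    (by simp [ht, hy]) (by
      rw [hs]
      simp only [Gk, evalEval_finsetSum, evalEval_mul, evalEval_CC, evalEval_Sec] at h
      simp only [eval_eq_sum_range, he, ← sum_add_distrib]
      have h4 := congrArg (fun z => g.coeff e / t ^ e * z) h
      simp only [mul_sum, mul_zero] at h4
      rw [← h4]
      refine sum_congr rfl fun j hj => ?_
      rw [mem_range] at hj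
      obtain ⟨r, hr⟩ := Nat.exists_eq_add_of_le (by omega : j ≤ e)
      have h5 : t ^ e = t ^ j * t ^ (e - j) := by rw [← pow_add]; congr 1; omega
      rw [h5]
      simp only [div_pow, one_pow]
      field_simp)
  simp only [evalEval_mul, evalEval_add, evalEval_X, evalEval_C, eval_X]
  rcases h3 with h3 | h3 | h3
  · have : x = 0 := by field_simp at h3; linear_combination -h3
    simp [this]
  · have : x = y := by field_simp at h3; linear_combination h3
    rw [this]; linear_combination y ^ 3 * h2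
  · have : y = 0 := by field_simp at h3; linear_combination -h3
    simp [this]

theorem derivative_ne_zero_of_odd {u : k[X]} {α : k}
    (h : Odd (rootMultiplicity α u)) : derivative u ≠ 0 := by
  have hu : u ≠ 0 := by
    rintro rfl
    simp at h
  obtain ⟨v, hv, hnd⟩ := exists_eq_pow_rootMultiplicity_mul_and_not_dvd u hu α
  obtain ⟨r, hr⟩ := h
  rw [hr] at hv
  intro h0
  have h1 : derivative u = (X - C α) ^ (2 * r) * (v + (X - C α) * derivative v) := by
    rw [hv, derivative_mul, derivative_pow]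
    have : ((2 * r + 1 : ℕ) : k) = 1 := cast_odd ⟨r, rfl⟩
    rw [this]
    simp only [derivative_sub, derivative_X, derivative_C, sub_zero, mul_one, map_one,
      Nat.add_sub_cancel]
    ring
  rw [h0, eq_comm, mul_eq_zero] at h1
  rcases h1 with h1 | h1
  · exact pow_ne_zero _ (X_sub_C_ne_zero α) h1
  · exact hnd ⟨-derivative v, by linear_combination h1⟩

/-- The factorisation over the big field. -/
theorem exists_factor [IsAlgClosed k] {φ : k ≃+* k} (hφ : PAC φ) {G : k[X][X]} {e : ℕ}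
    (he : Odd e) (h2 : 2 ≤ e) (hd : (Th G).natDegree = e)
    (htop : top G = 1 + X ^ e + (1 + X) ^ e)
    (hnext : (Th G).coeff (e - 1) = 1 + X ^ (e - 1) + (1 + X) ^ (e - 1))
    (hb : (C X : k[X][X]) ∣ G) (hG : G.map (mapRingHom (φ : k →+* k)) = G)
    (hpt : ∀ x y, φ x = x → φ y = y → G.evalEval x y = 0 →
      (X * C X * (X + C X) : k[X][X]).evalEval x y = 0)
    (hsq : ∀ β : k, (X - C β) ^ 2 ∣ (1 + X ^ e + (1 + X) ^ e : k[X]) →
      1 + β ^ (e - 1) + (1 + β) ^ (e - 1) ≠ 0)
    {α : k} (h0 : α ≠ 0) (h1 : α ≠ 1)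
    (hodd : Odd (rootMultiplicity α (1 + X ^ e + (1 + X) ^ e : k[X]))) :
    ∃ U W, U * W = G ∧ (top U).Monic ∧ (top U).natDegree = (Th U).natDegree ∧
      (top U).eval α = 0 ∧ ∀ β, (top U).eval β = 0 →
        (top W).eval β ≠ 0 ∧ (top U).eval (φ β) ≠ 0 := by
  obtain ⟨hTm, hTd⟩ := T_spec (k := k) he h2
  have hG0 : G ≠ 0 := fun h => hTm.ne_zero (by rw [← htop, top_eq_zero.2 h])
  have key : ∀ U W, U * W = G → ∀ β, (top U).eval β = 0 → (top W).eval β ≠ 0 := by
    intro U W hUW β hU hW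
    have hU0 : Th U ≠ 0 := fun h => hG0 (by rw [← hUW, Th_eq_zero.1 h, zero_mul])
    have hW0 : Th W ≠ 0 := fun h => hG0 (by rw [← hUW, Th_eq_zero.1 h, mul_zero])
    refine hsq β ?_ ?_
    · rw [← htop, ← hUW, top_mul, sq]
      exact mul_dvd_mul (dvd_iff_isRoot.2 hU) (dvd_iff_isRoot.2 hW)
    · have h3 : (Th U).natDegree + (Th W).natDegree ≤ e - 1 + 1 := by
        rw [← natDegree_mul hU0 hW0, ← map_mul, hUW, hd]; omega
      have h4 := eval_coeff_pred h3 hU hW
      rw [← map_mul, hUW, hnext] at h4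
      simpa using h4
  have hroot : (top G).eval α = 0 := by
    rw [htop]
    exact ((rootMultiplicity_pos hTm.ne_zero).1 hodd.pos)
  obtain ⟨U', hU'i, ⟨W', hW'⟩, hU'α⟩ := exists_irred_top α G hG0 hroot
  have hlc : (top U').leadingCoeff ≠ 0 :=
    leadingCoeff_ne_zero.2 fun h => hU'i.ne_zero (top_eq_zero.1 h)
  obtain ⟨U, W, hUW, hUi, hm, hUα⟩ : ∃ U W, U * W = G ∧ Irreducible U ∧ (top U).Monic ∧
      (top U).eval α = 0 := by
    refine ⟨U' * C (C (top U').leadingCoeff⁻¹), C (C (top U').leadingCoeff) * W', ?_, ?_, ?_, ?_⟩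
    · rw [hW', mul_assoc, ← mul_assoc (C _), ← map_mul, ← map_mul, inv_mul_cancel₀ hlc]
      simp
    · exact (irreducible_mul_isUnit (isUnit_C.2 (isUnit_C.2 (inv_ne_zero hlc).isUnit))).2 hU'i
    · rw [top_mul, top_CC]
      exact monic_mul_leadingCoeff_inv fun h => hU'i.ne_zero (top_eq_zero.1 h)
    · rw [top_mul, eval_mul, hU'α, zero_mul]
  have hnd : ¬U ∣ (X * C X * (X + C X) : k[X][X]) := by
    rintro ⟨V, hV⟩
    have h3 := congrArg (fun P => (top P).eval α) hV
    simp only [top_h, top_mul U V, eval_mul, hUα, zero_mul, eval_X, eval_add, eval_one,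
      mul_eq_zero] at h3
    have h22 : (2 : k) = 0 := CharTwo.two_eq_zero
    rcases h3 with h3 | h3
    · exact h0 h3
    · exact h1 (by linear_combination h3 - h22)
  have hp : Prime (C X : k[X][X]) := prime_C_iff.2 prime_X
  have hdeg : (top U).natDegree = (Th U).natDegree := by
    have h3 : (C X : k[X][X]) ∣ W := by
      refine (hp.dvd_or_dvd (hUW ▸ hb)).resolve_left fun h => hnd ?_
      exact ((hp.irreducible.associated_of_dvd hUi h).symm.dvd.mul_left _).mul_right _
    obtain ⟨V, rfl⟩ := h3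
    have hV : V ≠ 0 := fun h => hG0 (by rw [← hUW, h]; simp)
    have h4 : (Th U).natDegree + (1 + (Th V).natDegree) = e := by
      rw [← hd, ← hUW, map_mul, map_mul, Th_C_X,
        natDegree_mul (mt Th_eq_zero.1 hUi.ne_zero) (mul_ne_zero X_ne_zero (mt Th_eq_zero.1 hV)),
        natDegree_mul X_ne_zero (mt Th_eq_zero.1 hV), natDegree_X]
    have h5 : (top U).natDegree + (top V).natDegree = e - 1 := by
      have h6 : top (C X : k[X][X]) = 1 := by rw [top, Th_C_X, leadingCoeff_X]
      rw [← hTd, ← htop, ← hUW, top_mul, top_mul, h6, one_mul,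
        natDegree_mul hm.ne_zero (mt top_eq_zero.1 hV)]
    have := natDegree_top_le U
    have := natDegree_top_le V
    omega
  refine ⟨U, W, hUW, hm, hdeg, hUα, fun β hβ => ⟨key U W hUW β hβ, fun hβ' => ?_⟩⟩
  have hφi : Irreducible (U.map (mapRingHom (φ : k →+* k))) :=
    (MulEquiv.irreducible_iff (mapEquiv (mapEquiv φ)).toMulEquiv).2 hUi
  have hφd : U.map (mapRingHom (φ : k →+* k)) ∣ U * W := by
    rw [hUW, ← hG, ← hUW, Polynomial.map_mul]; exact dvd_mul_right _ _
  have hφβ : (top (U.map (mapRingHom (φ : k →+* k)))).eval (φ β) = 0 := by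
    rw [top_map]
    have := eval_map_apply (φ : k →+* k) (p := top U) β
    rw [hβ, map_zero] at this
    exact this
  rcases hφi.prime.dvd_or_dvd hφd with h3 | ⟨V, hV⟩
  · obtain ⟨c, hc⟩ := hφi.associated_of_dvd hUi h3
    obtain ⟨c', -, hc'⟩ := isUnit_CC c.isUnit
    have h4 := congrArg (fun P => (top P).leadingCoeff) hc
    simp only [hc', top_mul, top_CC, top_map, leadingCoeff_mul, leadingCoeff_C,
      (hm.map _).leadingCoeff, hm.leadingCoeff, one_mul] at h4
    rw [hc', h4, map_one, map_one, mul_one] at hc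
    have hder : derivative U ≠ 0 := by
      intro hd0
      have hW0 : top W ≠ 0 := fun h => key U W hUW α hUα (by rw [h, eval_zero])
      have h5 : rootMultiplicity α (top U) =
          rootMultiplicity α (1 + X ^ e + (1 + X) ^ e : k[X]) := by
        rw [← htop, ← hUW, top_mul, rootMultiplicity_mul (mul_ne_zero hm.ne_zero hW0),
          rootMultiplicity_eq_zero (key U W hUW α hUα), add_zero]
      have h6 := derivative_ne_zero_of_odd (h5 ▸ hodd)
      have h7 : 0 < (top U).natDegree := natDegree_pos_iff_degree_pos.2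
        (degree_pos_of_root hm.ne_zero hUα)
      obtain ⟨N, hN⟩ : ∃ N, (Th U).natDegree = N + 1 := ⟨(Th U).natDegree - 1, by omega⟩
      apply h6
      rw [top, leadingCoeff, hN, derivative_coeff_Th, hd0, map_zero, coeff_zero]
    obtain ⟨x, y, hx, hy, h5, h6⟩ := hφ U _ hUi hc hder hnd
    exact h6 (hpt x y hx hy (by rw [← hUW, evalEval_mul, h5, zero_mul]))
  · exact key U W hUW _ hβ' (by rw [hV, top_mul, eval_mul, hφβ, zero_mul])

end one

end Pool.Agent.Lib.MP_346d6a_co.D90
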