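import Pool.Agent.Lib.MP_346d6a_co.D90B

/-!
Part D: blocks.
-/

namespace Pool.Agent.Lib.MP_346d6a_co

open Polynomial Finset

namespace D90

variable {k₀ k : Type} [Field k₀] [Field k] [Algebra k₀ k]

/-- The plane section as a polynomial in the parameter. -/
noncomputable def Gt (f : k₀[X]) (e : ℕ) : k₀[X][X][X] :=
  ∑ j ∈ range (e + 1), monomial (e - j) (C (C (f.coeff j / f.coeff e)) * Sec k₀ j)

theorem coeff_Gt (f : k₀[X]) {e j : ℕ} (hj : j ≤ e) :
    (Gt f e).coeff (e - j) = C (C (f.coeff j / f.coeff e)) * Sec k₀ j := by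
  rw [Gt, finsetSum_coeff, sum_eq_single j]
  · rw [coeff_monomial, if_pos rfl]
  · intro i hi hij
    rw [mem_range] at hi
    rw [coeff_monomial, if_neg (by omega)]
  · intro h
    exact absurd (mem_range.2 (by omega)) h

theorem Psi_Gt (t : k) (f : k₀[X]) (e : ℕ) : Psi t (Gt f e) =
    Gk (fun j => (f.map (algebraMap k₀ k)).coeff j / (f.map (algebraMap k₀ k)).coeff e *
      t ^ (e - j)) e := by
  simp only [Gt, Gk, map_sum, Psi_monomial, Polynomial.map_mul, Sec_map, map_C, coe_mapRingHom,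
    coeff_map, map_div₀, map_mul]
  refine sum_congr rfl fun j _ => ?_
  ring

theorem lifts_Th_Psi (t : k) (F : k₀[X][X][X]) (N : ℕ) :
    (Th (Psi t F)).coeff N ∈ liftsRing (aeval t : k₀[X] →ₐ[k₀] k).toRingHom := by
  rw [← lifts_iff_liftsRing, lifts_iff_coeff_lifts]
  intro j
  rw [coeff_coeff_Th]
  split_ifs
  · obtain ⟨p, hp, -⟩ := exists_cp t F (N - j) j
    exact ⟨p, hp⟩
  · exact ⟨0, map_zero _⟩

theorem exists_Psi (t : k) {U : k[X][X]}
    (h : ∀ N, (Th U).coeff N ∈ liftsRing (aeval t : k₀[X] →ₐ[k₀] k).toRingHom) :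
    ∃ F : k₀[X][X][X], Psi t F = U := by
  refine mem_range_Psi t U fun i j => ?_
  have := h (i + j)
  rw [← lifts_iff_liftsRing, lifts_iff_coeff_lifts] at this
  rw [coeff_coeff_eq_Th]
  exact this j

theorem map_C_map (t : k) (p : k₀[X]) :
    (p.map C).map (aeval t : k₀[X] →ₐ[k₀] k).toRingHom = p.map (algebraMap k₀ k) := by
  rw [Polynomial.map_map]
  congr 1
  ext c
  simp

theorem top_Psi {t : k} (ht : Transcendental k₀ t) {F : k₀[X][X][X]} {u : k₀[X]} (hu : u ≠ 0)
    (h : top (Psi t F) = u.map (algebraMap k₀ k)) :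
    (Th (F.coeff 0)).natDegree = (Th (Psi t F)).natDegree ∧ top (F.coeff 0) = u ∧
      ∀ l, 1 ≤ l → F.coeff l ≠ 0 → (Th (F.coeff l)).natDegree < (Th (Psi t F)).natDegree := by
  have h1 : ∀ l N, (Th (Psi t F)).natDegree < N → (Th (F.coeff l)).coeff N = 0 := by
    intro l N hN
    rw [Th_coeff_Psi ht (u := 0) (by rw [coeff_eq_zero_of_natDegree_lt hN, Polynomial.map_zero])]
    simp
  have h2 := Th_coeff_Psi ht (N := (Th (Psi t F)).natDegree) h
  have h3 : ∀ l, (Th (F.coeff l)).natDegree ≤ (Th (Psi t F)).natDegree := fun l =>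
    natDegree_le_iff_coeff_eq_zero.2 (h1 l)
  have h4 := natDegree_eq_of_le_of_coeff_ne_zero (h3 0) (by rw [h2, if_pos rfl]; exact hu)
  refine ⟨h4, by rw [top, leadingCoeff, h4, h2, if_pos rfl], fun l hl hne => ?_⟩
  refine lt_of_le_of_ne (h3 l) fun he => hne (top_eq_zero.1 ?_)
  rw [top, leadingCoeff, he, h2, if_neg (by omega)]

end D90

open D90

theorem blocks : Blocks := by
  intro k₀ k _ _ _ _ _ _ _ φ φ₀ t hφ hφ₀ ht htr f e n hapn hf hdeg he hne hn hgap hsq α h0 h1 hodd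
  have h2 : 2 ≤ e := by omega
  have hinj := (algebraMap k₀ k).injective
  have hfe : f.coeff e ≠ 0 := by
    rw [← hdeg]
    exact leadingCoeff_ne_zero.2 fun h => hn (by rw [h, coeff_zero])
  have ht0 : t ≠ 0 := fun h => htr (h ▸ isAlgebraic_zero)
  obtain ⟨hTm, -⟩ := T_spec (k := k₀) he h2
  have hT : (1 + X ^ e + (1 + X) ^ e : k[X]) =
      (1 + X ^ e + (1 + X) ^ e : k₀[X]).map (algebraMap k₀ k) := by simp
  have hroot : ∀ β : k, (1 + X ^ e + (1 + X) ^ e : k[X]).IsRoot β →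
      β ∈ (algebraMap k₀ k).range := fun β hβ =>
    (IsAlgClosed.splits _).mem_range_of_isRoot hTm.ne_zero (hT ▸ hβ)
  have hfix : ∀ j, (φ : k →+* k) ((f.map (algebraMap k₀ k)).coeff j) =
      (f.map (algebraMap k₀ k)).coeff j := fun j => by
    rw [coeff_map, RingHom.coe_coe, hφ₀, ← coeff_map φ₀, hf]
  have hge : (f.map (algebraMap k₀ k)).coeff e ≠ 0 := by
    rw [coeff_map]; exact (_root_.map_ne_zero _).2 hfe
  obtain ⟨s1, s2, s3⟩ := Gk_spec (k := k) (c := fun j => (f.map (algebraMap k₀ k)).coeff j /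
    (f.map (algebraMap k₀ k)).coeff e * t ^ (e - j)) he h2
    (by simp only [Nat.sub_self, pow_zero, mul_one]; exact div_self hge)
    (by simp only [coeff_map, hgap (e - 1) (by omega) (by omega)]; simp)
  obtain ⟨U, W, hUW, hm, hUd, hUα, hβ⟩ := exists_factor hφ he h2 s1 s2 s3 (CX_dvd_Gk _ _)
    (Gk_map _ (fun j => by
      simp only [map_mul, map_div₀, map_pow, hfix]; rw [RingHom.coe_coe, ht]) e)
    (fun x y hx hy h => Gk_point hapn ht ht0 (by rw [natDegree_map, hdeg]) hge hx hy h)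
    (fun β hβ => by
      obtain ⟨b, rfl⟩ := hroot β (dvd_iff_isRoot.1 ((dvd_pow_self _ two_ne_zero).trans hβ))
      have h3 := hsq b ((map_dvd_map' (algebraMap k₀ k)).1 (by rw [← hT]; simpa using hβ))
      have h4 := (_root_.map_ne_zero (algebraMap k₀ k)).2 h3
      simpa using h4)
    (α := algebraMap k₀ k α) ((_root_.map_ne_zero _).2 h0) (fun h => h1 (hinj (by rw [h, map_one])))
    (by rw [hT, ← eq_rootMultiplicity_map hinj]; exact hodd)
  have hTT : top U * top W = (1 + X ^ e + (1 + X) ^ e : k₀[X]).map (algebraMap k₀ k) := by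
    rw [← top_mul, hUW, s2, hT]
  obtain ⟨u, hu, -, hum⟩ := lifts_and_natDegree_eq_and_monic
    ((IsAlgClosed.splits _).mem_lift_of_roots_mem_range hm (algebraMap k₀ k) fun a ha =>
      hroot a (by
        rw [hT, ← hTT]
        exact (isRoot_of_mem_roots ha).dvd (dvd_mul_right _ _))) hm
  obtain ⟨w, hw⟩ : u ∣ (1 + X ^ e + (1 + X) ^ e : k₀[X]) :=
    (map_dvd_map' (algebraMap k₀ k)).1 (by rw [hu, ← hTT]; exact dvd_mul_right _ _)
  have hw' : w.map (algebraMap k₀ k) = top W := by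
    apply mul_left_cancel₀ hm.ne_zero
    rw [hTT, hw, Polynomial.map_mul, hu]
  have hev : ∀ (p : k₀[X]) (b : k₀), (p.map (algebraMap k₀ k)).eval (algebraMap k₀ k b) =
      algebraMap k₀ k (p.eval b) := fun p b => eval_map_apply _ b
  have hβ₀ : ∀ b, u.eval b = 0 → w.eval b ≠ 0 ∧ u.eval (φ₀ b) ≠ 0 := by
    intro b hb
    have := hβ (algebraMap k₀ k b) (by rw [← hu, hev, hb, map_zero])
    rw [hφ₀, ← hu, ← hw', hev, hev] at this
    exact ⟨fun h => this.1 (by rw [h, map_zero]), fun h => this.2 (by rw [h, map_zero])⟩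
  have hcop : IsCoprime u w := by
    rw [isCoprime_iff_aeval_ne_zero_of_isAlgClosed k₀ k₀]
    intro a
    simp only [coe_aeval_eq_eval]
    by_cases h : u.eval a = 0
    · exact Or.inr (hβ₀ a h).1
    · exact Or.inl h
  have hw0 : w ≠ 0 := fun h => hTm.ne_zero (by rw [hw, h, mul_zero])
  obtain ⟨x, y, hxy⟩ := hcop
  have hdesc := descent (aeval t : k₀[X] →ₐ[k₀] k).toRingHom (Th U) (Th W) (u := u.map C)
    (w := w.map C) (x := x.map C) (y := y.map C) (hum.map C)
    (by rw [map_C_map, hu]; rfl) (by rw [map_C_map, hw']; rfl)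
    (by rw [← Polynomial.map_mul, ← Polynomial.map_mul, ← Polynomial.map_add, hxy,
      Polynomial.map_one])
    (fun j hj => by
      rw [map_C_map, hu, degree_eq_natDegree hm.ne_zero, hUd]
      exact degree_le_natDegree.trans_lt
        (by exact_mod_cast (natDegree_coeff_Th_le U j).trans_lt hj))
    (fun j => by rw [← map_mul, hUW, ← Psi_Gt]; exact lifts_Th_Psi t _ j)
  obtain ⟨F, rfl⟩ := exists_Psi (k₀ := k₀) t fun N => (hdesc N).1
  obtain ⟨H, rfl⟩ := exists_Psi (k₀ := k₀) t fun N => (hdesc N).2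
  have hFH : F * H = Gt f e := Psi_injective htr (by rw [map_mul, hUW, Psi_Gt])
  obtain ⟨a1, a2, a3⟩ := top_Psi htr hum.ne_zero hu.symm
  obtain ⟨-, b2, -⟩ := top_Psi htr hw0 hw'.symm
  have hud : u.natDegree = (Th (Psi t F)).natDegree := by rw [← hUd, ← hu, natDegree_map]
  have hgp := gap (F := F) (G := H) (d := e - n) (by omega) (by rw [a2, b2]; exact ⟨x, y, hxy⟩)
    (fun h => hum.ne_zero (by rw [← a2, top_eq_zero.2 h]))
    (fun j hj hne => by rw [a2, hud]; exact a3 j hj hne)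
    (fun j hj hj' => by
      have := coeff_Gt f (e := e) (j := e - j) (by omega)
      rw [show e - (e - j) = j by omega, hgap (e - j) (by omega) (by omega)] at this
      rw [hFH, this]; simp)
  rw [hFH, coeff_Gt f (by omega)] at hgp
  have hz := coeff_Gt f (e := e) le_rfl
  rw [Nat.sub_self, ← hFH, mul_coeff_zero, div_self hfe, map_one, map_one, one_mul] at hz
  have hc : (C (C (f.coeff e / f.coeff n)) : k₀[X][X]) * C (C (f.coeff n / f.coeff e)) = 1 := by
    rw [← map_mul, ← map_mul, div_mul_div_cancel₀ hn, div_self hfe, map_one, map_one]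
  refine ⟨F.coeff 0, H.coeff 0, C (C (f.coeff e / f.coeff n)) * F.coeff (e - n),
    C (C (f.coeff e / f.coeff n)) * H.coeff (e - n), hz, ?_, ?_, ?_, fun β hb => ?_⟩
  · linear_combination (-C (C (f.coeff e / f.coeff n))) * hgp + Sec k₀ n * hc
  · change (top _).natDegree = _
    rw [a2, a1, hud]
  · change (top _).eval α = 0
    rw [a2]
    apply hinj
    rw [← hev, hu, hUα, map_zero]
  · change (top _).eval β = 0 at hb
    change (top _).eval β ≠ 0 ∧ (top _).eval (φ₀ β) ≠ 0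
    rw [a2] at hb ⊢
    rw [b2]
    exact hβ₀ β hb

end Pool.Agent.Lib.MP_346d6a_co
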