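import Mathlib

/-!
APN functions, exceptional APN polynomials, CCZ-equivalence.
-/

namespace Pool.Agent.Lib.MP_346d6a_co

open Polynomial

/-- `G` is APN: `G (x + α) + G x = β` has at most two solutions whenever `α ≠ 0`. -/
def IsAPN {E : Type} [Field E] (G : E → E) : Prop :=
  ∀ α β : E, α ≠ 0 → {x : E | G (x + α) + G x = β}.ncard ≤ 2

/-- `f` is APN on an extension of degree `m` for infinitely many `m`. -/
def ExcAPN {F : Type} [Field F] (f : F[X]) : Prop :=
  {m : ℕ | 1 ≤ m ∧ ∃ (E : Type) (_ : Field E) (_ : Algebra F E),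
    Module.finrank F E = m ∧ IsAPN (fun x : E => aeval x f)}.Infinite

/-- An affine permutation of `E × E` maps the graph of `G` onto the graph of `H`. -/
def CCZ {E : Type} [Field E] (G H : E → E) : Prop :=
  ∃ (L : E × E ≃+ E × E) (c : E × E),
    (fun p => L p + c) '' {p | p.2 = G p.1} = {p | p.2 = H p.1}

/-- Gold numbers. -/
def Gold (t : ℕ) : Prop := ∃ j, 1 ≤ j ∧ t = 2 ^ j + 1

/-- Kasami-Welch numbers. -/
def Kasami (t : ℕ) : Prop := ∃ j, 1 ≤ j ∧ t = 4 ^ j - 2 ^ j + 1

/-- Exponents of constant or additive monomials: zero and the powers of two. -/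
def Lin (j : ℕ) : Prop := j = 0 ∨ ∃ i, j = 2 ^ i

end Pool.Agent.Lib.MP_346d6a_co
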