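import Pool.Agent.Lib.MP_346d6a_co.Core

/-!
Operations preserving the APN property, passage to the algebraic closure, CCZ-equivalence.
-/

namespace Pool.Agent.Lib.MP_346d6a_co

open Polynomial

/-- Polynomials all of whose exponents are zero or powers of two. -/
def Aff {F : Type} [Field F] (A : F[X]) : Prop := ∀ j, A.coeff j ≠ 0 → Lin j

open Classical in
/-- The part of `f` with exponents that are neither zero nor powers of two. -/
noncomputable def nl {F : Type} [Field F] (f : F[X]) : F[X] :=
  ∑ j ∈ f.support.filter (fun j => ¬ Lin j), monomial j (f.coeff j)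

section

variable {F : Type} [Field F]

open Classical in
theorem coeff_nl (f : F[X]) (j : ℕ) : (nl f).coeff j = if Lin j then 0 else f.coeff j := by
  simp only [nl, finsetSum_coeff, coeff_monomial, Finset.sum_ite_eq', Finset.mem_filter,
    mem_support_iff]
  by_cases h : Lin j <;> by_cases h' : f.coeff j = 0 <;> simp [h, h']

theorem aff_sub_nl (f : F[X]) : Aff (f - nl f) := fun j hj => by
  by_contra h
  rw [coeff_sub, coeff_nl, if_neg h, sub_self] at hj
  exact hj rfl

theorem Aff.eval₂_add {E : Type} [Field E] [CharP E 2] (ι : F →+* E) {A : F[X]} (h : Aff A)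
    (x y : E) : A.eval₂ ι (x + y) = A.eval₂ ι x + A.eval₂ ι y + ι (A.coeff 0) := by
  have h2 : (2 : E) = 0 := CharTwo.two_eq_zero
  have h0 : ι (A.coeff 0) = A.eval₂ ι 0 := (eval₂_at_zero _).symm
  rw [h0]
  simp only [eval₂_eq_sum, Polynomial.sum, ← Finset.sum_add_distrib]
  refine Finset.sum_congr rfl fun j hj => ?_
  rcases h j (mem_support_iff.1 hj) with rfl | ⟨i, rfl⟩
  · simp only [pow_zero]
    linear_combination -(ι (A.coeff 0)) * h2
  · rw [add_pow_char_pow, zero_pow (by positivity)]
    ring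

variable {k : Type} [Field k] [CharP k 2] {φ : k ≃+* k} (ι : F →+* k)

theorem apn_of_add_aff {f A : F[X]} (hA : Aff A) (h : APNFix φ ((f + A).map ι)) :
    APNFix φ (f.map ι) := fun x y z hx hy hz he => by
  refine h x y z hx hy hz ?_
  have h2 : (2 : k) = 0 := CharTwo.two_eq_zero
  simp only [Polynomial.map_add, eval_add, eval_map] at he ⊢
  rw [hA.eval₂_add ι, hA.eval₂_add ι]
  linear_combination he +
    (A.eval₂ ι x + A.eval₂ ι y + A.eval₂ ι z + ι (A.coeff 0)) * h2

theorem apn_nl {f : F[X]} (h : APNFix φ (f.map ι)) : APNFix φ ((nl f).map ι) :=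
  apn_of_add_aff ι (aff_sub_nl f) (by rwa [add_sub_cancel])

theorem apn_of_expand [PerfectRing k 2] {f : F[X]} (ν : ℕ)
    (h : APNFix φ ((expand F (2 ^ ν) f).map ι)) : APNFix φ (f.map ι) :=
    fun x y z hx hy hz he => by
  have hs : ∀ x : k, φ x = x → ∃ x', φ x' = x' ∧ x' ^ 2 ^ ν = x := fun x hx => by
    obtain ⟨x', rfl⟩ := (iterateFrobeniusEquiv k 2 ν).surjective x
    refine ⟨x', (iterateFrobeniusEquiv k 2 ν).injective ?_, rfl⟩
    rw [← hx]
    simp [iterateFrobenius_def]
  obtain ⟨x', hx', rfl⟩ := hs x hx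
  obtain ⟨y', hy', rfl⟩ := hs y hy
  obtain ⟨z', hz', rfl⟩ := hs z hz
  have := h x' y' z' hx' hy' hz' (by
    simp only [map_expand, expand_eval, add_pow_char_pow]
    exact he)
  rcases this with rfl | rfl | rfl <;> simp

theorem apn_taylor (hι : ∀ c, φ (ι c) = ι c) {f : F[X]} (c : F) (h : APNFix φ (f.map ι)) :
    APNFix φ ((taylor c f).map ι) := fun x y z hx hy hz he => by
  have h2 : (2 : k) = 0 := CharTwo.two_eq_zero
  simp only [map_taylor, taylor_eval] at he
  have := h (x + ι c) (y + ι c) (z + ι c) (by rw [map_add, hx, hι]) (by rw [map_add, hy, hι])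
    (by rw [map_add, hz, hι]) (by
      rw [show x + ι c + (y + ι c) + (z + ι c) = x + y + z + ι c by linear_combination ι c * h2]
      exact he)
  simpa using this

theorem ccz_of {E : Type} [Field E] [CharP E 2] {G H : E → E} (σ : E ≃+ E) (B : E →+ E)
    (a b c : E) (ha : a ≠ 0) (h : ∀ x, G x = a * H (σ x + c) + B x + b) : CCZ G H := by
  have h2 : (2 : E) = 0 := CharTwo.two_eq_zero
  let L : E × E ≃+ E × E :=
    { toFun := fun p => (σ p.1, a⁻¹ * (p.2 + B p.1))
      invFun := fun p => (σ.symm p.1, a * p.2 - B (σ.symm p.1))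
      left_inv := fun p => by
        simp only [AddEquiv.symm_apply_apply]
        rw [mul_inv_cancel_left₀ ha, add_sub_cancel_right]
      right_inv := fun p => by
        simp only [AddEquiv.apply_symm_apply]
        rw [sub_add_cancel, inv_mul_cancel_left₀ ha]
      map_add' := fun p p' => by
        simp only [Prod.fst_add, Prod.snd_add, map_add, Prod.mk_add_mk]
        congr 1
        ring }
  refine ⟨L, (c, a⁻¹ * b), ?_⟩
  have hL : ∀ x, L (x, G x) + (c, a⁻¹ * b) = (σ x + c, H (σ x + c)) := fun x => by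
    change (σ x, a⁻¹ * (G x + B x)) + (c, a⁻¹ * b) = _
    rw [Prod.mk_add_mk, h x]
    congr 1
    field_simp
    linear_combination (B x + b) * h2
  ext p
  constructor
  · rintro ⟨⟨x, y⟩, hy, rfl⟩
    obtain rfl : y = G x := hy
    simp only [hL]
    rfl
  · intro hp
    refine ⟨(σ.symm (p.1 - c), G (σ.symm (p.1 - c))), rfl, ?_⟩
    simp only [hL, AddEquiv.apply_symm_apply, sub_add_cancel]
    exact Prod.ext rfl (Eq.symm hp)

end

theorem ccz_of_form {F : Type} [Field F] {E : Type} [Field E] [CharP E 2] [Finite E] [Algebra F E]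
    {f A₁ A₂ : F[X]} {a c : F} {ν t : ℕ} (ha : a ≠ 0) (h₁ : Aff A₁) (h₂ : Aff A₂)
    (hf : f = expand F (2 ^ ν) (taylor c (monomial t a + A₂)) + A₁) :
    CCZ (fun x : E => aeval x f) (fun x => x ^ t) := by
  have h2 : (2 : E) = 0 := CharTwo.two_eq_zero
  let ι := algebraMap F E
  let B : E →+ E :=
    { toFun := fun x => A₂.eval₂ ι (x ^ 2 ^ ν) + ι (A₂.coeff 0) + (A₁.eval₂ ι x + ι (A₁.coeff 0))
      map_zero' := by
        rw [zero_pow (by positivity), eval₂_at_zero, eval₂_at_zero]
        linear_combination (ι (A₂.coeff 0) + ι (A₁.coeff 0)) * h2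
      map_add' := fun x y => by
        rw [add_pow_char_pow, h₁.eval₂_add, h₂.eval₂_add]
        ring }
  refine ccz_of (iterateFrobeniusEquiv E 2 ν).toAddEquiv B (ι a)
    (A₂.eval₂ ι (ι c) + ι (A₁.coeff 0)) (ι c) ((map_ne_zero ι).2 ha) fun x => ?_
  change aeval x f = ι a * (x ^ 2 ^ ν + ι c) ^ t +
    (A₂.eval₂ ι (x ^ 2 ^ ν) + ι (A₂.coeff 0) + (A₁.eval₂ ι x + ι (A₁.coeff 0))) + _
  rw [hf, map_add, expand_aeval, taylor_apply, aeval_comp, map_add, map_add, aeval_monomial,
    aeval_X, aeval_C, aeval_def, aeval_def, h₂.eval₂_add]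
  linear_combination -(ι (A₁.coeff 0)) * h2

theorem apnFix_of_isAPN {F : Type} [Field F] [Fintype F] [CharP F 2] {a : ℕ}
    (ha : Fintype.card F = 2 ^ a) (k : Type) [Field k] [IsAlgClosed k] [CharP k 2] [Algebra F k]
    {E : Type} [Field E] [Algebra F E] {m : ℕ} (hm : 1 ≤ m) (hE : Module.finrank F E = m)
    {f : F[X]} (h : IsAPN fun x : E => aeval x f) :
    APNFix (iterateFrobeniusEquiv k 2 (a * m)) (f.map (algebraMap F k)) := by
  classical
  have : Module.Finite F E := Module.finite_of_finrank_pos (by omega)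
  have : Finite E := Module.finite_of_finite F
  let : Fintype E := Fintype.ofFinite E
  have : CharP E 2 := charP_of_injective_algebraMap (algebraMap F E).injective 2
  have hc : Fintype.card E = 2 ^ (a * m) := by
    rw [Module.card_eq_pow_finrank (K := F), ha, hE, pow_mul]
  let ψ : E →ₐ[F] k := IsAlgClosed.lift
  have hψ : ∀ x : k, x ^ 2 ^ (a * m) = x → ∃ y, ψ y = x := fun x hx => by
    have h1 : 1 < 2 ^ (a * m) := hc ▸ Fintype.one_lt_card
    have hne := FiniteField.X_pow_card_pow_sub_X_ne_zero k (p := 2) (n := a * m)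
      (by rintro h; rw [h] at h1; omega) one_lt_two
    have hdeg := FiniteField.X_pow_card_pow_sub_X_natDegree_eq k (p := 2) (n := a * m)
      (by rintro h; rw [h] at h1; omega) one_lt_two
    have hsub : Finset.univ.image ψ ⊆ (X ^ 2 ^ (a * m) - X : k[X]).roots.toFinset := by
      intro z hz
      obtain ⟨y, -, rfl⟩ := Finset.mem_image.1 hz
      rw [Multiset.mem_toFinset, mem_roots hne]
      simp only [IsRoot, eval_sub, eval_pow, eval_X]
      rw [← map_pow, ← hc, FiniteField.pow_card, sub_self]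
    have heq := Finset.eq_of_subset_of_card_le hsub (by
      rw [Finset.card_image_of_injective _ (show Function.Injective ψ from ψ.injective),
        Finset.card_univ, hc]
      exact (Multiset.toFinset_card_le _).trans ((card_roots' _).trans hdeg.le))
    have hx' : x ∈ (X ^ 2 ^ (a * m) - X : k[X]).roots.toFinset := by
      rw [Multiset.mem_toFinset, mem_roots hne]
      simp [IsRoot, hx]
    rw [← heq] at hx'
    obtain ⟨y, -, hy⟩ := Finset.mem_image.1 hx'
    exact ⟨y, hy⟩
  intro x y z hx hy hz he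
  obtain ⟨x, rfl⟩ := hψ x hx
  obtain ⟨y, rfl⟩ := hψ y hy
  obtain ⟨z, rfl⟩ := hψ z hz
  have he' : aeval x f + aeval y f + aeval z f + aeval (x + y + z) f = 0 := by
    apply ψ.injective
    simp only [eval_map_algebraMap, ← map_add, aeval_algHom_apply] at he
    rw [map_zero]
    exact he
  by_contra hne
  push Not at hne
  obtain ⟨h1, h2, h3⟩ := hne
  have h1' : x ≠ y := fun h => h1 (by rw [h])
  have h2' : y ≠ z := fun h => h2 (by rw [h])
  have h3' : x ≠ z := fun h => h3 (by rw [h])
  have htwo : (2 : E) = 0 := CharTwo.two_eq_zero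
  have h4 := h (x + y) (aeval x f + aeval y f) (fun h => h1' (by linear_combination h - y * htwo))
  have h5 : ({x, y, z} : Set E) ⊆
      {w | aeval (w + (x + y)) f + aeval w f = aeval x f + aeval y f} := by
    rintro w (rfl | rfl | rfl)
    · rw [Set.mem_ofPred_eq, show w + (w + y) = y by linear_combination w * htwo, add_comm]
    · rw [Set.mem_ofPred_eq, show w + (x + w) = x by linear_combination w * htwo]
    · rw [Set.mem_ofPred_eq, show w + (x + y) = x + y + w by ring]
      linear_combination he' - (aeval x f + aeval y f) * htwo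
  have h6 := Set.ncard_le_ncard h5 (Set.toFinite _)
  rw [Set.ncard_eq_three.2 ⟨x, y, z, h1', h3', h2', rfl⟩] at h6
  exact absurd (h6.trans h4) (by norm_num)

end Pool.Agent.Lib.MP_346d6a_co
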