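import Pool.Agent.Lib.MP_346d6a_co.Fin1

/-!
Generic points from a big component; the top forms in the Gold and Kasami-Welch degrees.
-/

namespace Pool.Agent.Lib.MP_346d6a_co

open Polynomial

variable {k : Type} [Field k]

/-- An irreducible polynomial associated to its conjugate can be scaled to an invariant one. -/
theorem exists_fixed_of_dvd (φ : k ≃+* k) {D : k[X][X]} (hD : Irreducible D)
    (h : D ∣ D.map (mapRingHom (φ : k →+* k))) :
    ∃ D' : k[X][X], Associated D D' ∧ D'.map (mapRingHom (φ : k →+* k)) = D' := by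
  have h0 : D ≠ 0 := hD.ne_zero
  set a := D.leadingCoeff.leadingCoeff with ha
  have ha0 : a ≠ 0 := by simpa [ha] using h0
  have hinj : Function.Injective (mapRingHom (φ : k →+* k)) := map_injective _ φ.injective
  have hirr : Irreducible (D.map (mapRingHom (φ : k →+* k))) :=
    (MulEquiv.irreducible_iff (mapEquiv (mapEquiv φ))).2 hD
  obtain ⟨v, hv⟩ := hD.associated_of_dvd hirr h
  obtain ⟨r, hr, hr'⟩ := isUnit_iff.1 v.isUnit
  obtain ⟨c, hc, rfl⟩ := isUnit_iff.1 hr
  have h1 : a * c = φ a := by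
    have := congrArg (fun P : k[X][X] => P.leadingCoeff.leadingCoeff) hv
    simp only [← hr', leadingCoeff_mul, leadingCoeff_C] at this
    rw [leadingCoeff_map_of_injective hinj, coe_mapRingHom,
      leadingCoeff_map_of_injective φ.injective] at this
    exact this
  refine ⟨D * C (C a⁻¹), associated_mul_unit_right _ _ ?_, ?_⟩
  · exact isUnit_C.2 (isUnit_C.2 (inv_ne_zero ha0).isUnit)
  · rw [Polynomial.map_mul, ← hv, ← hr', map_C, coe_mapRingHom, map_C, mul_assoc, ← map_mul,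
      ← map_mul]
    congr 3
    have : φ a ≠ 0 := (map_ne_zero φ).2 ha0
    rw [map_inv₀, RingHom.coe_coe, ← h1]
    have := hc.ne_zero
    field_simp

theorem natDegree_le_one_of_dvd_map [IsAlgClosed k] {D : k[X][X]} (hD : Irreducible D) {p : k[X]}
    (hp : p ≠ 0) (h : D ∣ p.map C) : D.natDegree ≤ 1 := by
  have hpr := hD.prime
  rw [(IsAlgClosed.splits p).eq_prod_roots, Polynomial.map_mul, Polynomial.map_multiset_prod] at h
  rcases hpr.dvd_or_dvd h with h | h
  · refine absurd (isUnit_of_dvd_unit h ?_) hD.not_isUnit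
    rw [map_C]
    exact isUnit_C.2 (isUnit_C.2 (leadingCoeff_ne_zero.2 hp).isUnit)
  · obtain ⟨q, hq, hq'⟩ := hpr.exists_mem_multiset_dvd h
    simp only [Multiset.map_map, Multiset.mem_map, Function.comp_apply] at hq
    obtain ⟨a, -, rfl⟩ := hq
    rw [Polynomial.map_sub, map_X, map_C] at hq'
    exact (natDegree_le_of_dvd hq' (X_sub_C_ne_zero _)).trans (natDegree_X_sub_C _).le

theorem natDegree_mono_diff [CharP k 2] {e : ℕ} (he : Odd e) :
    (X ^ e + (X + 1) ^ e : k[X]).natDegree = e - 1 ∧ (X ^ e + (X + 1) ^ e : k[X]).Monic := by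
  obtain ⟨n, rfl⟩ := he
  have h1 : (X ^ (2 * n + 1) + (X + 1) ^ (2 * n + 1) : k[X]).coeff (2 * n) = 1 := by
    rw [coeff_add, coeff_X_pow, if_neg (by omega), coeff_X_add_one_pow, Nat.choose_succ_self_right]
    simp [CharTwo.two_eq_zero]
  have h2 : (X ^ (2 * n + 1) + (X + 1) ^ (2 * n + 1) : k[X]).natDegree ≤ 2 * n := by
    rw [natDegree_le_iff_coeff_eq_zero]
    intro j hj
    rw [coeff_add, coeff_X_pow, coeff_X_add_one_pow]
    split_ifs with h
    · rw [h, Nat.choose_self, Nat.cast_one, CharTwo.add_self_eq_zero]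
    · rw [Nat.choose_eq_zero_of_lt (by omega)]
      simp
  exact ⟨natDegree_eq_of_le_of_coeff_ne_zero h2 (h1 ▸ one_ne_zero),
    monic_of_natDegree_le_of_coeff_eq_one _ h2 h1⟩

theorem genPt_of_factor [IsAlgClosed k] [CharP k 2] {φ : k ≃+* k} (hφ : PAC φ) {e : ℕ}
    (he : Odd e) (he' : 5 ≤ e) {P : k[X]} (hP : P = X ^ e + (X + 1) ^ e) {D : k[X][X]}
    (hD : Irreducible D) (hdvd : D ∣ P.map C + C P) (hdeg : e - 1 < 2 * D.natDegree + 2) :
    GenPt φ e := by
  classical
  intro N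
  have h2 : (2 : k) = 0 := CharTwo.two_eq_zero
  have h2' : (2 : k[X]) = 0 := CharTwo.two_eq_zero
  have h2'' : (2 : k[X][X]) = 0 := CharTwo.two_eq_zero
  obtain ⟨hPd, hPm⟩ := natDegree_mono_diff (k := k) he
  rw [← hP] at hPd hPm
  have hD2 : 2 ≤ D.natDegree := by
    obtain ⟨n, rfl⟩ := he
    omega
  set E : k[X][X] := P.map C + C P with hE
  have hEm : E.Monic := (hPm.map C).add_of_left (by
    rw [degree_map_eq_of_injective C_injective]
    exact degree_C_le.trans_lt (natDegree_pos_iff_degree_pos.1 (by omega)))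
  have hEd : E.natDegree = e - 1 := by
    rw [hE, natDegree_add_C, natDegree_map_eq_of_injective C_injective, hPd]
  have hEφ : E.map (mapRingHom (φ : k →+* k)) = E := by
    simp [hE, hP]
  have hlin : ∀ c : k[X], ¬ D ∣ X - C c := fun c h =>
    absurd ((natDegree_le_of_dvd h (X_sub_C_ne_zero _)).trans (natDegree_X_sub_C _).le) (by omega)
  have hmap : ∀ p : k[X], p ≠ 0 → ¬ D ∣ p.map C := fun p hp h =>
    absurd (natDegree_le_one_of_dvd_map hD hp h) (by omega)
  have hl : (X - C X) * (X - C (X + 1)) ∣ E := by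
    refine (isCoprime_X_sub_C_of_isUnit_sub (by simp)).mul_dvd (dvd_iff_isRoot.2 ?_)
      (dvd_iff_isRoot.2 ?_)
    · simp [hE, hP, CharTwo.add_self_eq_zero]
    · simp only [hE, hP, IsRoot, Polynomial.map_add, Polynomial.map_pow, map_X, Polynomial.map_one,
        eval_add, eval_pow, eval_X, eval_one, eval_C]
      rw [show (X + 1 + 1 : k[X]) = X by linear_combination h2']
      linear_combination (X ^ e + (X + 1) ^ e) * h2'
  have hirr : Irreducible (D.map (mapRingHom (φ : k →+* k))) :=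
    (MulEquiv.irreducible_iff (mapEquiv (mapEquiv φ))).2 hD
  have hdeg' : (D.map (mapRingHom (φ : k →+* k))).natDegree = D.natDegree :=
    natDegree_map_eq_of_injective (map_injective _ φ.injective) _
  have hstab : D ∣ D.map (mapRingHom (φ : k →+* k)) := by
    by_contra hn
    have h3 : D.map (mapRingHom (φ : k →+* k)) ∣ E := hEφ ▸ Polynomial.map_dvd _ hdvd
    obtain ⟨Φ, hΦ⟩ := hl
    have hΦ0 : Φ ≠ 0 := by
      rintro rfl
      exact hEm.ne_zero (by rw [hΦ, mul_zero])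
    have hdiv : ∀ D' : k[X][X], Irreducible D' → 2 ≤ D'.natDegree → D' ∣ E → D' ∣ Φ :=
      fun D' hD' hd h => by
        rw [hΦ] at h
        refine (hD'.prime.dvd_or_dvd h).resolve_left fun h => ?_
        rcases hD'.prime.dvd_or_dvd h with h | h <;>
          exact absurd ((natDegree_le_of_dvd h (X_sub_C_ne_zero _)).trans
            (natDegree_X_sub_C _).le) (by omega)
    have h4 := (hD.isRelPrime_iff_not_dvd.2 hn).mul_dvd (hdiv _ hD hD2 hdvd)
      (hdiv _ hirr (by omega) h3)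
    have h5 := natDegree_le_of_dvd h4 hΦ0
    rw [natDegree_mul hD.ne_zero hirr.ne_zero, hdeg'] at h5
    rw [hΦ, natDegree_mul (mul_ne_zero (X_sub_C_ne_zero _) (X_sub_C_ne_zero _)) hΦ0,
      natDegree_mul (X_sub_C_ne_zero _) (X_sub_C_ne_zero _), natDegree_X_sub_C,
      natDegree_X_sub_C] at hEd
    omega
  obtain ⟨D', hD', hfix⟩ := exists_fixed_of_dvd φ hD hstab
  have hP' : derivative P ≠ 0 := by
    obtain ⟨n, rfl⟩ := he
    intro h
    have := congrArg (eval 0) h
    simp [hP, derivative_pow, show 2 * n ≠ 0 by omega, h2] at this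
  have hder : derivative D' ≠ 0 := by
    intro h
    obtain ⟨Q, hQ⟩ := hD'.symm.dvd.trans hdvd
    refine hmap _ hP' (hD'.dvd.trans ⟨derivative Q, ?_⟩)
    have := congrArg derivative hQ
    rw [derivative_mul, h, hE] at this
    simpa [derivative_map] using this
  have hq : ∀ δ ∈ Finset.Icc 1 N, (X ^ δ + (X + 1) ^ δ : k[X]) ≠ 0 := fun δ hδ h => by
    have := congrArg (eval 0) h
    simp [show δ ≠ 0 by have := (Finset.mem_Icc.1 hδ).1; omega] at this
  obtain ⟨x, z, hx, hz, h0, h1⟩ := hφ D' ((X - C X) * (X - C (X + 1)) *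
      (∏ δ ∈ Finset.Icc 1 N, (X ^ δ + (X + 1) ^ δ : k[X])).map C) (hD'.irreducible hD) hfix hder
    (fun h => by
      rcases hD.prime.dvd_or_dvd (hD'.dvd.trans h) with h | h
      · rcases hD.prime.dvd_or_dvd h with h | h <;> exact hlin _ h
      · exact hmap _ (Finset.prod_ne_zero_iff.2 hq) h)
  obtain ⟨Q, hQ⟩ := hD'.symm.dvd.trans hdvd
  have h3 : E.evalEval x z = 0 := by rw [hQ, evalEval_mul, h0, zero_mul]
  simp only [evalEval_mul, evalEval_sub, evalEval_X, evalEval_C, evalEval_map_C, eval_X, eval_add,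
    eval_one, eval_prod, eval_pow, ne_eq, mul_eq_zero, not_or, Finset.prod_eq_zero_iff,
    not_exists, not_and, sub_eq_zero] at h1
  simp only [hE, evalEval_add, evalEval_map_C, evalEval_C, hP, eval_add, eval_pow, eval_X,
    eval_one] at h3
  refine ⟨x, z, hx, hz, by linear_combination h3 - (z ^ e + (z + 1) ^ e) * h2, h1.1.1, h1.1.2,
    fun δ hδ hδ' h => h1.2 δ (Finset.mem_Icc.2 ⟨hδ, hδ'⟩) ?_⟩
  rw [h, CharTwo.add_self_eq_zero]

section top

variable [CharP k 2]

theorem top_gold (u : ℕ) :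
    (1 + X ^ (2 ^ u + 1) + (1 + X) ^ (2 ^ u + 1) : k[X]) = X ^ 2 ^ u - X := by
  have h2 : (2 : k[X]) = 0 := CharTwo.two_eq_zero
  rw [pow_succ (1 + X : k[X]), add_pow_char_pow, one_pow, pow_succ]
  linear_combination (1 + X + X ^ 2 ^ u * X) * h2

theorem sep_frob {u : ℕ} (hu : 1 ≤ u) : (X ^ 2 ^ u - X : k[X]).Separable :=
  galois_poly_separable 2 _ (dvd_pow_self 2 (by omega))

theorem rootMultiplicity_frob {u : ℕ} (hu : 1 ≤ u) {α : k} (h : α ^ 2 ^ u = α) :
    rootMultiplicity α (X ^ 2 ^ u - X : k[X]) = 1 := by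
  refine le_antisymm (rootMultiplicity_le_one_of_separable (sep_frob hu) _) ?_
  exact (rootMultiplicity_pos (sep_frob hu).ne_zero).2 (by simp [h])

theorem top_kasami (u : ℕ) :
    (1 + X ^ (4 ^ u - 2 ^ u + 1) + (1 + X) ^ (4 ^ u - 2 ^ u + 1) : k[X]) * (X ^ 2 - X) ^ 2 ^ u =
      (X ^ 2 ^ u - X) ^ (2 ^ u + 1) := by
  have h2 : (2 : k[X]) = 0 := CharTwo.two_eq_zero
  have h4 : 4 ^ u = 2 ^ u * 2 ^ u := by rw [← mul_pow]; rfl
  have h5 : 4 ^ u - 2 ^ u + 2 ^ u = 2 ^ u * 2 ^ u := by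
    rw [h4, Nat.sub_add_cancel (Nat.le_mul_self _)]
  have h6 : (X : k[X]) ^ (4 ^ u - 2 ^ u) * X ^ 2 ^ u = (X ^ 2 ^ u) ^ 2 ^ u := by
    rw [← pow_add, h5, pow_mul]
  have h7 : (1 + X : k[X]) ^ (4 ^ u - 2 ^ u) * (1 + X ^ 2 ^ u) = 1 + (X ^ 2 ^ u) ^ 2 ^ u := by
    have : (1 + X : k[X]) ^ 2 ^ u = 1 + X ^ 2 ^ u := by rw [add_pow_char_pow, one_pow]
    rw [← this, ← pow_add, h5, pow_mul, this, add_pow_char_pow, one_pow]
  rw [pow_succ (X ^ 2 ^ u - X), sub_pow_char_pow, sub_pow_char_pow, pow_succ, pow_succ (1 + X),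
    ← pow_mul X 2, mul_comm 2, pow_mul X _ 2]
  generalize (X : k[X]) ^ (4 ^ u - 2 ^ u) = A at *
  generalize (1 + X : k[X]) ^ (4 ^ u - 2 ^ u) = B at *
  generalize ((X : k[X]) ^ 2 ^ u) ^ 2 ^ u = Z at *
  generalize (X : k[X]) ^ 2 ^ u = Y at *
  linear_combination X * (Y - 1) * h6 + (1 + X) * Y * h7 +
    (X * Y * Z - B * Y - B * X * Y + Y ^ 2) * h2

end top

end Pool.Agent.Lib.MP_346d6a_co
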