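import Pool.Agent.Lib.MP_346d6a_co.Fin2

/-!
Assembly of the parts.
-/

namespace Pool.Agent.Lib.MP_346d6a_co

open Polynomial

theorem three_le_kasami {u : ℕ} (hu : 1 ≤ u) : 2 ≤ 4 ^ u - 2 ^ u ∧ 2 ∣ 4 ^ u - 2 ^ u ∧
    4 ^ u - 2 ^ u = (2 ^ u - 1) * 2 ^ u := by
  have h4 : 4 ^ u = 2 ^ u * 2 ^ u := by rw [← mul_pow]; rfl
  have h1 : 2 ≤ 2 ^ u := by simpa using Nat.pow_le_pow_right two_pos hu
  have h2 : 4 ^ u - 2 ^ u = (2 ^ u - 1) * 2 ^ u := by rw [h4, Nat.sub_one_mul]
  refine ⟨?_, h2 ▸ (dvd_pow_self 2 (by omega)).mul_left _, h2⟩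
  rw [h2]
  exact h1.trans (Nat.le_mul_of_pos_left _ (by omega))

theorem odd_degree (hD : Blocks) (hE : GoldCase) (hF : KasamiCase) {k₀ k : Type} [Field k₀]
    [IsAlgClosed k₀] [CharP k₀ 2] [Field k] [IsAlgClosed k] [CharP k 2] [Algebra k₀ k]
    {φ : k ≃+* k} {φ₀ : k₀ →+* k₀} {t : k} (hφ : PAC φ)
    (h₀ : ∀ c, φ (algebraMap k₀ k c) = algebraMap k₀ k (φ₀ c)) (ht : φ t = t)
    (ht' : Transcendental k₀ t) {f : k₀[X]} {e : ℕ} (he : Gold e ∨ Kasami e)
    (hapn : APNFix φ (f.map (algebraMap k₀ k))) (hfix : f.map φ₀ = f) (hdeg : f.natDegree = e)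
    (hnl : ∀ j, f.coeff j ≠ 0 → ¬ Lin j) (hc : f.coeff (e - 1) = 0) :
    ∀ j, j ≠ e → f.coeff j = 0 := by
  classical
  by_contra hcon
  push Not at hcon
  have hne : (f.support.erase e).Nonempty := by
    obtain ⟨j, h1, h2⟩ := hcon
    exact ⟨j, by simp [h1, h2]⟩
  set n := (f.support.erase e).max' hne with hn
  obtain ⟨h1, h2⟩ := Finset.mem_erase.1 ((f.support.erase e).max'_mem hne)
  rw [← hn] at h1 h2
  have h2' := mem_support_iff.1 h2
  have h3 : n ≤ e := hdeg ▸ le_natDegree_of_mem_supp _ h2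
  have h4 : n + 1 < e := by
    by_contra h
    exact h2' ((show e - 1 = n by omega) ▸ hc)
  have h5 : ∀ j, n < j → j < e → f.coeff j = 0 := fun j hj hj' => by
    by_contra h
    exact absurd ((f.support.erase e).le_max' j (by simp [h, hj'.ne])) (by omega)
  have gold : ∀ u, 1 ≤ u → e = 2 ^ u + 1 → False := fun u hu he => by
    obtain ⟨α, hα, h0, h1, hb⟩ := hE k₀ φ₀ u n hu (by omega) (hnl n h2')
    refine hb (he ▸ hD k₀ k φ φ₀ t hφ h₀ ht ht' f e n hapn hfix hdeg ?_ h4 h2' h5 ?_ α h0 h1 ?_)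
    · rw [he]
      exact (Nat.even_pow.2 ⟨even_two, by omega⟩).add_one
    · intro β hβ
      rw [he, top_gold, sq] at hβ
      exact absurd ((sep_frob hu).squarefree _ hβ) (not_isUnit_X_sub_C β)
    · rw [he, top_gold, rootMultiplicity_frob hu hα]
      exact odd_one
  rcases he with ⟨u, hu, he⟩ | ⟨u, hu, he⟩
  · exact gold u hu he
  rcases hu.eq_or_lt with rfl | hu2
  · exact gold 1 le_rfl (by rw [he]; norm_num)
  obtain ⟨α, hα, h0, h1, hb⟩ := hF k₀ φ₀ u n hu2 (by omega) (hnl n h2')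
  obtain ⟨g1, g2, g3⟩ := three_le_kasami hu
  have hodd : Odd e := he ▸ (even_iff_two_dvd.2 g2).add_one
  have htwo : (2 : k₀) = 0 := CharTwo.two_eq_zero
  have hk := top_kasami (k := k₀) u
  refine hb (he ▸ hD k₀ k φ φ₀ t hφ h₀ ht ht' f e n hapn hfix hdeg hodd h4 h2' h5 ?_ α h0 h1 ?_)
  · intro β hβ
    obtain ⟨Q, hQ⟩ := hβ
    have g4 := congrArg (eval β) hk
    rw [← he, hQ] at g4
    simp only [eval_mul, eval_pow, eval_sub, eval_X, eval_C, sub_self, ne_eq, OfNat.ofNat_ne_zero,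
      not_false_eq_true, zero_pow, zero_mul] at g4
    have g5 : β ^ 2 ^ u = β := sub_eq_zero.1 (pow_eq_zero_iff (Nat.succ_ne_zero _) |>.1 g4.symm)
    have g6 := congrArg (fun p => eval β (derivative p)) hQ
    have g7 : (e : k₀) = 1 := by
      obtain ⟨m, rfl⟩ := hodd
      simp [htwo]
    simp only [derivative_add, derivative_one, derivative_pow, derivative_X, eval_add, eval_mul,
      eval_C, eval_pow, eval_X, eval_one, eval_zero, derivative_mul, eval_sub, sub_self, g7] at g6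
    have g8 : β ^ (e - 1) + (1 + β) ^ (e - 1) = 0 := by simpa using g6
    rw [add_assoc, g8, add_zero]
    exact one_ne_zero
  · have g4 := congrArg (rootMultiplicity α) hk
    have g0 : (X ^ 2 ^ u - X : k₀[X]) ≠ 0 := (sep_frob hu).ne_zero
    rw [rootMultiplicity_mul (hk ▸ pow_ne_zero _ g0), ← he,
      rootMultiplicity_eq_zero (p := (X ^ 2 - X) ^ 2 ^ u), add_zero] at g4
    · have g5 : ∀ m, rootMultiplicity α ((X ^ 2 ^ u - X : k₀[X]) ^ m) = m := fun m => by
        induction m with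
        | zero => simp
        | succ m ih =>
          rw [pow_succ, rootMultiplicity_mul (mul_ne_zero (pow_ne_zero _ g0) g0), ih,
            rootMultiplicity_frob hu hα]
      rw [g4, g5]
      exact (Nat.even_pow.2 ⟨even_two, by omega⟩).add_one
    · simp only [IsRoot, eval_pow, eval_sub, eval_X]
      refine pow_ne_zero _ ?_
      rw [sq, ← mul_sub_one]
      exact mul_ne_zero h0 (sub_ne_zero.2 h1)

theorem exists_contract {F : Type} [Field F] [CharP F 2] (g : F[X]) (hg : g.natDegree ≠ 0) :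
    ∃ (ν : ℕ) (h : F[X]), g = expand F (2 ^ ν) h ∧ derivative h ≠ 0 := by
  induction hn : g.natDegree using Nat.strong_induction_on generalizing g with
  | _ n ih =>
    by_cases h : derivative g = 0
    · have h1 := expand_contract 2 h two_ne_zero
      have h2 := congrArg natDegree h1
      rw [natDegree_expand] at h2
      obtain ⟨ν, h', h3, h4⟩ := ih _ (by omega) (contract 2 g) (by omega) rfl
      refine ⟨ν + 1, h', ?_, h4⟩
      rw [← h1, h3, expand_expand, pow_succ']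
    · exact ⟨0, g, by simp, h⟩

theorem Lin.mul_pow {j : ℕ} (h : Lin j) (ν : ℕ) : Lin (j * 2 ^ ν) := by
  rcases h with rfl | ⟨i, rfl⟩
  · exact Or.inl (zero_mul _)
  · exact Or.inr ⟨i + ν, (pow_add _ _ _).symm⟩

theorem gold_or_kasami (hM : BigFactor) {k : Type} [Field k] [IsAlgClosed k] [CharP k 2]
    {φ : k ≃+* k} (hφ : PAC φ) {e : ℕ} (he : Odd e) (he1 : e ≠ 1) (h : ¬ GenPt φ e) :
    Gold e ∨ Kasami e := by
  obtain ⟨m, rfl⟩ := he
  obtain ⟨u, o, ho, hm⟩ := Nat.exists_eq_two_pow_mul_odd (n := 2 * m) (by omega)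
  have hu : 1 ≤ u := by
    rcases u with - | u
    · rw [pow_zero, one_mul] at hm
      exact absurd (hm ▸ ho) (by simp)
    · omega
  by_cases h1 : o = 1
  · exact Or.inl ⟨u, hu, by rw [hm, h1, mul_one]⟩
  by_cases h2 : o + 1 = 2 ^ u
  · exact Or.inr ⟨u, hu, by rw [hm, (three_le_kasami hu).2.2, ← h2, Nat.add_sub_cancel, mul_comm]⟩
  have h3 : 3 ≤ o := by
    obtain ⟨a, rfl⟩ := ho
    omega
  obtain ⟨D, hD, hD1, hD2⟩ := hM k u o hu ho h3 h2 _ rfl
  have h4 : 2 ≤ 2 ^ u := by simpa using Nat.pow_le_pow_right two_pos hu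
  have h5 := Nat.mul_le_mul h4 h3
  exact absurd (genPt_of_factor hφ ⟨m, rfl⟩ (by omega) (by rw [hm]) hD hD1 (by omega)) h

theorem main (hB : ExistsPAC) (hC : TopReduction) (hD : Blocks) (hE : GoldCase) (hF : KasamiCase)
    (hM : BigFactor) (F : Type) [Field F] [Fintype F] [CharP F 2] (f : F[X]) (hf : ExcAPN f) :
    ∃ t r : ℕ, (Gold t ∨ Kasami t) ∧ IsGreatest {j | f.coeff j ≠ 0 ∧ ¬ Lin j} (2 ^ r * t) ∧
      ((∀ j, f.coeff j ≠ 0 → ¬ Lin j → 2 ^ (r - 1) ∣ j) →
        ∀ (E : Type) [Field E] [Finite E] [Algebra F E],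
          CCZ (fun x : E => aeval x f) (fun x => x ^ t)) := by
  classical
  obtain ⟨a, -, ha⟩ := FiniteField.card F 2
  let k₀ := AlgebraicClosure F
  have halg : ∀ c : k₀, ∃ N, 1 ≤ N ∧ c ^ 2 ^ N = c := fun c => by
    have hi : IsIntegral F c := Algebra.IsIntegral.isIntegral c
    have := IntermediateField.adjoin.finiteDimensional hi
    have : Finite (IntermediateField.adjoin F {c}) := Module.finite_of_finite F
    let := Fintype.ofFinite (IntermediateField.adjoin F {c})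
    obtain ⟨N, -, hN⟩ := FiniteField.card (IntermediateField.adjoin F {c}) 2
    refine ⟨N, N.2, ?_⟩
    have h := FiniteField.pow_card (IntermediateField.AdjoinSimple.gen F c)
    rw [hN] at h
    exact congrArg Subtype.val h
  obtain ⟨k, _, _, _, _, φ, φ₀, t, hφ, h₀, ht, ht', hfix, hapn⟩ := hB k₀ halg _
    (hf.image (f := fun m => (a : ℕ) * m) fun m _ m' _ h => Nat.eq_of_mul_eq_mul_left a.2 h)
  have hφ₀ : ∀ c : F, φ₀ (algebraMap F k₀ c) = algebraMap F k₀ c := fun c => hfix _ (by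
    rintro s ⟨m, -, rfl⟩
    rw [← map_pow, pow_mul, ← ha, FiniteField.pow_card_pow])
  let ι : F →+* k := (algebraMap k₀ k).comp (algebraMap F k₀)
  have hι : ∀ c, φ (ι c) = ι c := fun c => by simp [ι, h₀, hφ₀]
  have h1 : APNFix φ (f.map ι) := by
    rw [← Polynomial.map_map]
    refine hapn _ ?_
    rintro s ⟨m, ⟨hm, E, _, _, hE, h⟩, rfl⟩
    exact apnFix_of_isAPN ha k₀ hm hE h
  have h2 := apn_nl ι h1
  have hnl : ∀ (g : F[X]) j, (nl g).coeff j ≠ 0 ↔ g.coeff j ≠ 0 ∧ ¬ Lin j := fun g j => by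
    rw [coeff_nl]
    split_ifs with h <;> simp [h]
  have h3 : (nl f).natDegree ≠ 0 := fun h => by
    have h4 : nl f = 0 := by
      rw [eq_C_of_natDegree_eq_zero h, coeff_nl, if_pos (show Lin 0 from Or.inl rfl), map_zero]
    rw [h4] at h2
    rcases h2 0 1 t (map_zero φ) (map_one φ) ht (by simp) with h | h | h
    · exact zero_ne_one h
    · exact ht' (h ▸ isAlgebraic_one)
    · exact ht' (h ▸ isAlgebraic_zero)
  obtain ⟨ν, h, hh, hh'⟩ := exists_contract _ h3
  have h4 : APNFix φ (h.map ι) := apn_of_expand ι ν (hh ▸ h2)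
  have hco : ∀ j, (nl f).coeff (j * 2 ^ ν) = h.coeff j := fun j => by
    rw [hh, coeff_expand_mul (by positivity)]
  have h5 : ∀ j, h.coeff j ≠ 0 → ¬ Lin j := fun j hj hl =>
    ((hnl f _).1 (hco j ▸ hj)).2 (hl.mul_pow ν)
  have h0 : h ≠ 0 := by
    rintro rfl
    exact hh' derivative_zero
  have h6 := h5 _ (leadingCoeff_ne_zero.2 h0)
  obtain ⟨r, e, he, hd⟩ := Nat.exists_eq_two_pow_mul_odd (n := h.natDegree)
    fun h => h6 (Or.inl h)
  have hfixι : ∀ g : F[X], (g.map ι).map (φ : k →+* k) = g.map ι := fun g => by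
    ext j
    simp [hι]
  obtain ⟨hr, hg⟩ := hC k φ hφ (h.map ι) r e h4 (hfixι h)
    (fun j hj => h5 j (by simpa using hj))
    (by rw [derivative_map]; exact (Polynomial.map_ne_zero_iff ι.injective).2 hh') he
    (by rw [natDegree_map, hd])
  have he1 : e ≠ 1 := by
    rintro rfl
    exact h6 (Or.inr ⟨r, by rw [hd, mul_one]⟩)
  have hGK := gold_or_kasami hM hφ he he1 hg
  have hdeg : (nl f).natDegree = 2 ^ (ν + r) * e := by
    rw [hh, natDegree_expand, hd]
    ring
  refine ⟨e, ν + r, hGK, ⟨?_, fun j hj => ?_⟩, fun hdiv E _ _ _ => ?_⟩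
  · rw [← hdeg]
    refine (hnl f _).1 (leadingCoeff_ne_zero.2 ?_)
    rintro h
    exact h3 (by rw [h, natDegree_zero])
  · rw [← hdeg]
    exact le_natDegree_of_ne_zero ((hnl f j).2 hj)
  have : CharP E 2 := charP_of_injective_algebraMap (algebraMap F E).injective 2
  have hr0 : r = 0 := by
    obtain ⟨j, hj⟩ : ∃ j, (derivative h).coeff j ≠ 0 := by
      by_contra hc
      push Not at hc
      exact hh' (Polynomial.ext hc)
    rw [coeff_derivative] at hj
    have hj1 := (hnl f _).1 (hco _ ▸ left_ne_zero_of_mul hj)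
    have hj2 := hdiv _ hj1.1 hj1.2
    by_contra hr0
    rw [show ν + r - 1 = ν + 1 + (r - 2) by omega, pow_add, pow_succ'] at hj2
    have hj3 := Nat.dvd_of_mul_dvd_mul_right (by positivity) (dvd_of_mul_right_dvd hj2)
    refine right_ne_zero_of_mul hj ?_
    rw [← Nat.cast_succ]
    exact (CharP.cast_eq_zero_iff F 2 _).2 hj3
  rw [hr0, pow_zero, one_mul] at hd
  have htwo : (2 : F) = 0 := CharTwo.two_eq_zero
  have hlc : h.leadingCoeff ≠ 0 := leadingCoeff_ne_zero.2 h0
  set c := h.nextCoeff / h.leadingCoeff with hc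
  have hle : ¬ Lin e := hd ▸ h6
  have h7 : (taylor c h).coeff e = h.leadingCoeff := by
    rw [← leadingCoeff_taylor c h, leadingCoeff, natDegree_taylor, hd]
  have h8 : (taylor c h).coeff (e - 1) = 0 := by
    obtain ⟨m, rfl⟩ := he
    rw [Nat.add_sub_cancel, taylor_coeff]
    have g1 : (hasseDeriv (2 * m) h).natDegree ≤ 1 := by
      have := natDegree_hasseDeriv_le h (2 * m)
      omega
    rw [eq_X_add_C_of_natDegree_le_one g1]
    simp only [hasseDeriv_coeff, eval_add, eval_mul, eval_C, eval_X, zero_add, Nat.choose_self,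
      Nat.cast_one, one_mul]
    rw [add_comm 1, Nat.choose_succ_self_right, hc, nextCoeff_of_natDegree_pos (by omega),
      leadingCoeff, hd, Nat.add_sub_cancel]
    rw [leadingCoeff, hd] at hlc
    push_cast
    field_simp
    linear_combination (m + 1) * h.coeff (2 * m) * htwo
  have h9 : (nl (taylor c h)).coeff e = h.leadingCoeff := by rw [coeff_nl, if_neg hle, h7]
  have h10 := odd_degree hD hE hF hφ h₀ ht ht' (f := (nl (taylor c h)).map (algebraMap F k₀)) hGK
    (by rw [Polynomial.map_map]; exact apn_nl ι (apn_taylor ι hι c h4))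
    (by ext j; simp [hφ₀])
    (by
      rw [natDegree_map]
      refine natDegree_eq_of_le_of_coeff_ne_zero ?_ (h9 ▸ hlc)
      rw [natDegree_le_iff_coeff_eq_zero]
      intro j hj
      rw [coeff_nl, coeff_eq_zero_of_natDegree_lt (by rwa [natDegree_taylor, hd]), ite_self])
    (fun j hj => ((hnl _ j).1 (by simpa using hj)).2)
    (by rw [coeff_map, coeff_nl, h8, ite_self, map_zero])
  have h11 : nl (taylor c h) = monomial e h.leadingCoeff := by
    ext j
    rw [coeff_monomial]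
    split_ifs with hj
    · rw [← hj, h9]
    · simpa using h10 j (Ne.symm hj)
  refine ccz_of_form (c := c) (ν := ν) hlc (aff_sub_nl f) (aff_sub_nl (taylor c h)) ?_
  rw [← h11, add_sub_cancel, taylor_taylor, CharTwo.add_self_eq_zero, taylor_zero, ← hh,
    add_sub_cancel]

end Pool.Agent.Lib.MP_346d6a_co
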