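import Pool.Agent.Lib.MP_346d6a_co.G34a

/-!
Part E: the Gold degree.
-/

namespace Pool.Agent.Lib.MP_346d6a_co

open Polynomial

namespace G34

variable {k : Type} [Field k]

theorem sum_eval_zero {F : Type} [Field F] [Fintype F] (ι : F →+* k) (P : k[X])
    (hP : P.natDegree < Fintype.card F - 1) : ∑ b : F, P.eval (ι b) = 0 := by
  simp only [eval_eq_sum_range' hP]
  rw [Finset.sum_comm]
  refine Finset.sum_eq_zero fun i hi => ?_
  rw [← Finset.mul_sum]
  have h := congrArg ι (FiniteField.sum_pow_lt_card_sub_one F i (Finset.mem_range.mp hi))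
  simp only [map_sum, map_pow, map_zero] at h
  rw [h, mul_zero]

theorem indic [CharP k 2] (u : ℕ) (x y : k) (hx : x ^ 2 ^ u = x)
    (hy : y ^ 2 ^ u = y) (hxy : x ≠ y) : 1 + (x + y) ^ (2 ^ u - 1) = 0 := by
  have two : (2 : k) = 0 := CharTwo.two_eq_zero
  have hne : x + y ≠ 0 := fun h => hxy (by linear_combination h - y * two)
  have h1 : (x + y) ^ 2 ^ u = x + y := by rw [add_pow_char_pow, hx, hy]
  have hpos : 1 ≤ 2 ^ u := Nat.one_le_two_pow
  have h2 : (x + y) ^ (2 ^ u - 1) * (x + y) = 1 * (x + y) := by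
    rw [← pow_succ, Nat.sub_add_cancel hpos, h1, one_mul]
  rw [mul_right_cancel₀ hne h2]
  linear_combination two

theorem core [CharP k 2] {F : Type} [Field F] [Fintype F] (ι : F →+* k) (φ₀ : k →+* k)
    (u i j : ℕ) (hF : Fintype.card F = 2 ^ u) (hij : i < j) (hju : j < u) (f w A B : k[X])
    (hfw : f * w = X ^ 2 ^ u + X) (hψ : A * w + B * f = X ^ 2 ^ i + X ^ 2 ^ j)
    (hd : (A * w).natDegree < 2 ^ i + 2 ^ j) (a : F) (ha : f.eval (ι a) = 0)
    (hψa : ι a ^ 2 ^ i + ι a ^ 2 ^ j ≠ 0) (hφ : ∀ b, f.eval b = 0 → f.eval (φ₀ b) ≠ 0) :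
    False := by
  classical
  have two : (2 : k[X]) = 0 := CharTwo.two_eq_zero
  have two' : (2 : k) = 0 := CharTwo.two_eq_zero
  have hfix : ∀ b : F, ι b ^ 2 ^ u = ι b := fun b => by
    rw [← map_pow, ← hF, FiniteField.pow_card]
  have hfix' : ∀ b : F, φ₀ (ι b) ^ 2 ^ u = φ₀ (ι b) := fun b => by rw [← map_pow, hfix]
  have hw : ∀ x : k, x ^ 2 ^ u = x → f.eval x ≠ 0 → w.eval x = 0 := by
    intro x hx hf
    have h := congrArg (eval x) hfw
    simp only [eval_mul, eval_add, eval_pow, eval_X, hx] at h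
    refine (mul_eq_zero.mp ?_).resolve_left hf
    linear_combination h + x * two'
  have hev : ∀ x : k, A.eval x * w.eval x + B.eval x * f.eval x = x ^ 2 ^ i + x ^ 2 ^ j := by
    intro x
    simpa using congrArg (eval x) hψ
  have hv : A * w * (A * w + (X ^ 2 ^ i + X ^ 2 ^ j)) = (X ^ 2 ^ u + X) * (A * B) := by
    rw [← hψ, ← hfw]
    linear_combination (A * w) ^ 2 * two
  have hv0 : A * B ≠ 0 := by
    intro h
    rcases mul_eq_zero.mp h with h | h
    · have h1 := hev (ι a)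
      rw [h, ha] at h1
      exact hψa (by simpa using h1.symm)
    · have h1 := hev (φ₀ (ι a))
      rw [h, hw _ (hfix' a) (hφ _ ha)] at h1
      apply hψa
      apply φ₀.injective
      simpa using h1.symm
  have hi1 : 1 ≤ 2 ^ i := Nat.one_le_two_pow
  have hj1 : 1 ≤ 2 ^ j := Nat.one_le_two_pow
  have hij' : 2 ^ i < 2 ^ j := Nat.pow_lt_pow_right (by omega) hij
  rcases Nat.lt_or_ge (j + 1) u with h1 | h1
  · have h2 : 2 ^ (j + 2) ≤ 2 ^ u := Nat.pow_le_pow_right (by omega) h1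
    have h3 : 2 ^ (j + 2) = 4 * 2 ^ j := by ring
    have h4 := deg_v (2 ^ i) (2 ^ j) (2 ^ u) hi1 hj1 (by omega) _ _ hd hv hv0
    omega
  obtain rfl : u = j + 1 := by omega
  rcases Nat.lt_or_ge (i + 1) j with h2 | h2
  · have h3 : 2 ^ (i + 2) ≤ 2 ^ j := Nat.pow_le_pow_right (by omega) h2
    have h4 : 2 ^ (i + 2) = 4 * 2 ^ i := by ring
    have h5 : 2 ^ (j + 1) = 2 * 2 ^ j := by ring
    rw [h5] at hv
    exact hv0 (mid (2 ^ i) (2 ^ j) hi1 (by omega) _ _ hd hv)
  obtain rfl : j = i + 1 := by omega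
  obtain ⟨Om, hOm⟩ : ∃ Om : Finset F, ∀ b, b ∈ Om ↔ f.eval (ι b) = 0 :=
    ⟨Finset.univ.filter fun b => f.eval (ι b) = 0, by simp⟩
  obtain ⟨p, hp⟩ : ∃ p : ℕ → k, ∀ E, p E = ∑ b ∈ Om, ι b ^ E := ⟨_, fun _ => rfl⟩
  have e1 : 2 ^ (i + 1) = 2 * 2 ^ i := by ring
  have e2 : 2 ^ (i + 1 + 1) = 4 * 2 ^ i := by ring
  have e3 : 2 ^ (i + 2) = 4 * 2 ^ i := by ring
  have key := psum i p
    (fun E => by
      rw [hp, hp, sum_pow_char]
      exact Finset.sum_congr rfl fun b _ => by rw [← pow_mul, mul_comm])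
    (fun H E => by
      rw [hp, hp]
      exact Finset.sum_congr rfl fun b _ => by rw [pow_add, pow_mul, hfix, ← pow_add])
    (fun E hE => by
      have hdeg : (A * w * X ^ E).natDegree < Fintype.card F - 1 := by
        have h3 := natDegree_mul_le (p := A * w) (q := X ^ E)
        rw [natDegree_X_pow] at h3
        omega
      have h3 := sum_eval_zero ι _ hdeg
      have h4 : ∑ b : F, (A * w * X ^ E).eval (ι b) =
          ∑ b ∈ Om, (ι b ^ (E + 2 ^ i) + ι b ^ (E + 2 ^ (i + 1))) := by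
        symm
        apply Finset.sum_subset_zero_on_sdiff (Finset.subset_univ _)
        · intro b hb
          have hb' : f.eval (ι b) ≠ 0 := fun h => (Finset.mem_sdiff.mp hb).2 ((hOm b).mpr h)
          simp [hw _ (hfix b) hb']
        · intro b hb
          have h5 := hev (ι b)
          rw [(hOm b).mp hb, mul_zero, add_zero] at h5
          simp only [eval_mul, eval_pow, eval_X, h5]
          ring
      rw [h4, Finset.sum_add_distrib, ← hp, ← hp] at h3
      linear_combination h3 - p (E + 2 ^ (i + 1)) * two')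
  have hfixp : ∀ E, E < 2 ^ (i + 2) → ∑ b ∈ Om, φ₀ (ι b) ^ E = ∑ b ∈ Om, ι b ^ E := by
    intro E hE
    have h3 : φ₀ (p E) = p E := by
      have h4 : p E * (p E - 1) = 0 := by linear_combination key E hE
      rcases mul_eq_zero.mp h4 with h5 | h5
      · rw [h5, map_zero]
      · rw [sub_eq_zero.mp h5, map_one]
    rw [hp] at h3
    simpa using h3
  obtain ⟨P, hP⟩ : ∃ P : k[X], P = 1 + (X + C (φ₀ (ι a))) ^ (2 ^ (i + 2) - 1) := ⟨_, rfl⟩
  have hPd : P.natDegree < 2 ^ (i + 2) := by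
    have h3 : P.natDegree ≤ 2 ^ (i + 2) - 1 := by
      rw [hP]
      refine (natDegree_add_le _ _).trans (max_le (by simp) ?_)
      refine natDegree_pow_le.trans ?_
      rw [natDegree_X_add_C, mul_one]
    omega
  have hPe : ∀ x : k, P.eval x = 1 + (x + φ₀ (ι a)) ^ (2 ^ (i + 2) - 1) := by
    intro x
    simp [hP]
  have hsum : ∑ b ∈ Om, P.eval (φ₀ (ι b)) = ∑ b ∈ Om, P.eval (ι b) := by
    simp only [eval_eq_sum_range' hPd]
    rw [Finset.sum_comm, Finset.sum_comm (s := Om)]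
    refine Finset.sum_congr rfl fun E hE => ?_
    rw [← Finset.mul_sum, ← Finset.mul_sum, hfixp E (Finset.mem_range.mp hE)]
  have hR : ∑ b ∈ Om, P.eval (ι b) = 0 := by
    refine Finset.sum_eq_zero fun b hb => ?_
    rw [hPe]
    refine indic (i + 2) _ _ (hfix b) (hfix' a) fun h => ?_
    exact hφ _ ha (h ▸ (hOm b).mp hb)
  have hL : ∑ b ∈ Om, P.eval (φ₀ (ι b)) = 1 := by
    rw [Finset.sum_eq_single_of_mem a ((hOm a).mpr ha)]
    · rw [hPe, CharTwo.add_self_eq_zero, zero_pow (by omega), add_zero]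
    · intro b _ hba
      rw [hPe]
      refine indic (i + 2) _ _ (hfix' b) (hfix' a) fun h => ?_
      exact hba (ι.injective (φ₀.injective h))
  rw [hL, hR] at hsum
  exact one_ne_zero hsum

theorem factor_monomial {R : Type} [CommRing R] [IsDomain R] (U W : R[X]) (c : R) (hc : c ≠ 0)
    (N : ℕ) (h : U * W = monomial N c) : U = monomial U.natDegree U.leadingCoeff := by
  have hne : U * W ≠ 0 := by rw [h]; simpa using hc
  have hU : U ≠ 0 := left_ne_zero_of_mul hne
  have hW : W ≠ 0 := right_ne_zero_of_mul hne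
  have h1 := natDegree_mul hU hW
  have h2 := natTrailingDegree_mul hU hW
  rw [h, natDegree_monomial_eq N hc] at h1
  rw [h, natTrailingDegree_monomial hc] at h2
  have h3 := natTrailingDegree_le_natDegree U
  have h4 := natTrailingDegree_le_natDegree W
  ext n
  rw [coeff_monomial]
  split_ifs with h5
  · rw [← h5]; rfl
  · rcases Nat.lt_or_gt_of_ne h5 with h6 | h6
    · exact coeff_eq_zero_of_natDegree_lt h6
    · exact coeff_eq_zero_of_lt_natTrailingDegree (by omega)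

theorem Th_Sec_gold [CharP k 2] (u : ℕ) :
    Th (Sec k (2 ^ u + 1)) = monomial (2 ^ u + 1) (X ^ 2 ^ u + X) := by
  have two : (2 : k[X][X]) = 0 := CharTwo.two_eq_zero
  simp only [Sec, map_add, map_mul, map_pow, map_one, Th_C_X, Th_X, ← C_mul_X_pow_eq_monomial,
    pow_succ, add_pow_char_pow, one_pow, mul_pow]
  linear_combination (2 + X + X ^ 2 ^ u + C X * X + C X ^ 2 ^ u * X ^ 2 ^ u + X ^ 2 ^ u * X +
    C X ^ 2 ^ u * X ^ 2 ^ u * C X * X) * two

end G34

open G34 in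
theorem goldCase : GoldCase := by
  intro k _ _ _ φ₀ u n hu hn hlin
  classical
  have : Fact (Nat.Prime 2) := ⟨Nat.prime_two⟩
  obtain ⟨i, j, hij, hodd⟩ := exists_two_bits n hlin
  have hi1 : 1 ≤ 2 ^ i := Nat.one_le_two_pow
  have hij' : 2 ^ i < 2 ^ j := Nat.pow_lt_pow_right (by omega) hij
  have hle : 2 ^ i + 2 ^ j ≤ n := by
    by_contra h
    rw [Nat.choose_eq_zero_of_lt (by omega)] at hodd
    omega
  have hju' : 2 ^ j < 2 ^ u := by omega
  have hju : j < u := (Nat.pow_lt_pow_iff_right (by omega)).mp hju'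
  let _ : Algebra (ZMod 2) k := ZMod.algebra k 2
  let _ : Fintype (GaloisField 2 u) := Fintype.ofFinite _
  have hF : Fintype.card (GaloisField 2 u) = 2 ^ u := by
    rw [← Nat.card_eq_fintype_card, GaloisField.card 2 u (by omega)]
  obtain ⟨ι⟩ : Nonempty (GaloisField 2 u →+* k) :=
    ⟨(IsAlgClosed.lift : GaloisField 2 u →ₐ[ZMod 2] k).toRingHom⟩
  have hdψ : (X ^ 2 ^ i + X ^ 2 ^ j : k[X]).natDegree = 2 ^ j := by
    rw [natDegree_add_eq_right_of_natDegree_lt] <;> simp [hij']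
  obtain ⟨a, ha⟩ : ∃ a : GaloisField 2 u, ι a ^ 2 ^ i + ι a ^ 2 ^ j ≠ 0 := by
    by_contra h
    push Not at h
    have h1 : (X ^ 2 ^ i + X ^ 2 ^ j : k[X]) = 0 :=
      eq_zero_of_natDegree_lt_card_of_eval_eq_zero _ ι.injective (fun b => by simpa using h b)
        (by rw [hdψ, hF]; exact hju')
    rw [h1, natDegree_zero] at hdψ
    omega
  refine ⟨ι a, by rw [← map_pow, ← hF, FiniteField.pow_card], ?_, ?_, ?_⟩
  · intro h
    apply ha
    rw [h, zero_pow (by omega), zero_pow (by omega), add_zero]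
  · intro h
    apply ha
    rw [h, one_pow, one_pow, CharTwo.add_self_eq_zero]
  rintro ⟨U, W, U₁, W₁, h1, h2, h3, h4, h5⟩
  have hq : 2 ≤ 2 ^ u := by omega
  have hb := big_ne_zero (k := k) _ hq
  have g1 : Th U * Th W = monomial (2 ^ u + 1) (X ^ 2 ^ u + X) := by
    rw [← map_mul, h1, Th_Sec_gold]
  have g2 := factor_monomial _ _ _ hb _ g1
  have g3 := factor_monomial _ _ _ hb _ ((mul_comm _ _).trans g1)
  obtain ⟨f, hf⟩ : ∃ f, f = (Th U).leadingCoeff := ⟨_, rfl⟩
  obtain ⟨w, hw⟩ : ∃ w, w = (Th W).leadingCoeff := ⟨_, rfl⟩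
  obtain ⟨m, hm⟩ : ∃ m, m = (Th U).natDegree := ⟨_, rfl⟩
  obtain ⟨m', hm'⟩ : ∃ m', m' = (Th W).natDegree := ⟨_, rfl⟩
  rw [← hf] at g2 h3 h4 h5
  rw [← hw] at g3 h5
  rw [← hm] at g2 h3
  rw [← hm'] at g3
  rw [g2, g3, monomial_mul_monomial] at g1
  have hmm : m + m' = 2 ^ u + 1 := by
    by_contra h
    have := congrArg (fun P => coeff P (2 ^ u + 1)) g1
    simp only [coeff_monomial, if_neg h, if_true] at this
    exact hb this.symm
  have hfw : f * w = X ^ 2 ^ u + X := by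
    have := congrArg (fun P => coeff P (2 ^ u + 1)) g1
    simpa only [coeff_monomial, if_pos hmm, if_true] using this
  have hdw : w.natDegree + 1 = m' := by
    have hne : f * w ≠ 0 := hfw ▸ hb
    have := natDegree_mul (left_ne_zero_of_mul hne) (right_ne_zero_of_mul hne)
    rw [hfw, natDegree_big _ hq] at this
    omega
  have g4 : Th U₁ * X ^ m' * C w + Th W₁ * X ^ m * C f = Th (Sec k n) := by
    rw [← h2, map_add, map_mul, map_mul, g2, g3, ← C_mul_X_pow_eq_monomial,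
      ← C_mul_X_pow_eq_monomial]
    ring
  have g5 := congrArg (fun P => coeff P (2 ^ i + 2 ^ j)) g4
  simp only [coeff_add, coeff_mul_C] at g5
  rw [coeff_Th_Sec _ _ (by omega)] at g5
  have two : (2 : k[X]) = 0 := CharTwo.two_eq_zero
  have g6 : ((n.choose (2 ^ i + 2 ^ j) : ℕ) : k[X]) = 1 := by
    rw [← Nat.div_add_mod (n.choose (2 ^ i + 2 ^ j)) 2, hodd]
    simp [two]
  have g7 : (1 + X ^ (2 ^ i + 2 ^ j) + (1 + X) ^ (2 ^ i + 2 ^ j) : k[X]) =
      X ^ 2 ^ i + X ^ 2 ^ j := by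
    simp only [pow_add, add_pow_char_pow, one_pow]
    linear_combination (1 + X ^ 2 ^ i * X ^ 2 ^ j) * two
  rw [g6, one_mul, g7] at g5
  refine core ι φ₀ u i j hF hij hju f w _ _ hfw g5 ?_ a h4 ha fun b hb => (h5 b hb).2
  rw [coeff_mul_X_pow']
  split_ifs with h6
  · have h7 := natDegree_mul_le (p := (Th U₁).coeff (2 ^ i + 2 ^ j - m')) (q := w)
    have h8 := natDegree_coeff_Th_le U₁ (2 ^ i + 2 ^ j - m')
    omega
  · simp only [zero_mul, natDegree_zero]
    omega

end Pool.Agent.Lib.MP_346d6a_co
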