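import Pool.Agent.Lib.MP_346d6a_co.Th

/-!
One variable lemmas for the Gold degree.
-/

namespace Pool.Agent.Lib.MP_346d6a_co.G34

open Polynomial

theorem choose_step (n s a b : ℕ) (ha : a < 2) (hb : b < 2) :
    (2 * n + a).choose (2 * s + b) % 2 = (a.choose b * n.choose s) % 2 := by
  have : Fact (Nat.Prime 2) := ⟨Nat.prime_two⟩
  have h := Choose.choose_modEq_choose_mod_mul_choose_div_nat (n := 2 * n + a) (k := 2 * s + b)
    (p := 2)
  have e1 : (2 * n + a) % 2 = a := by omega
  have e2 : (2 * s + b) % 2 = b := by omega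
  have e3 : (2 * n + a) / 2 = n := by omega
  have e4 : (2 * s + b) / 2 = s := by omega
  rw [e1, e2, e3, e4] at h
  exact h

theorem exists_bit (n : ℕ) (hn : n ≠ 0) : ∃ j, n.choose (2 ^ j) % 2 = 1 := by
  induction n using Nat.strong_induction_on with
  | _ n ih =>
    rcases Nat.even_or_odd' n with ⟨m, rfl | rfl⟩
    · obtain ⟨j, hj⟩ := ih m (by omega) (by omega)
      refine ⟨j + 1, ?_⟩
      have h := choose_step m (2 ^ j) 0 0 (by omega) (by omega)
      rw [pow_succ, mul_comm (2 ^ j) 2]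
      simpa [hj] using h
    · exact ⟨0, by simp⟩

theorem exists_two_bits (n : ℕ) (hn : ¬ Lin n) :
    ∃ i j, i < j ∧ n.choose (2 ^ i + 2 ^ j) % 2 = 1 := by
  induction n using Nat.strong_induction_on with
  | _ n ih =>
    have h0 : n ≠ 0 := fun h => hn (Or.inl h)
    rcases Nat.even_or_odd' n with ⟨m, rfl | rfl⟩
    · have hm : ¬ Lin m := by
        rintro (h | ⟨i, h⟩)
        · omega
        · exact hn (Or.inr ⟨i + 1, by rw [h, pow_succ, mul_comm]⟩)
      obtain ⟨i, j, hij, h⟩ := ih m (by omega) hm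
      refine ⟨i + 1, j + 1, by omega, ?_⟩
      have h1 := choose_step m (2 ^ i + 2 ^ j) 0 0 (by omega) (by omega)
      have e : 2 ^ (i + 1) + 2 ^ (j + 1) = 2 * (2 ^ i + 2 ^ j) := by ring
      rw [e]
      simpa [h] using h1
    · have hm : m ≠ 0 := by
        rintro rfl
        exact hn (Or.inr ⟨0, by simp⟩)
      obtain ⟨j, hj⟩ := exists_bit m hm
      refine ⟨0, j + 1, by omega, ?_⟩
      have h1 := choose_step m (2 ^ j) 1 1 (by omega) (by omega)
      have e : 2 ^ 0 + 2 ^ (j + 1) = 2 * 2 ^ j + 1 := by ring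
      rw [e]
      simpa [hj] using h1

variable {k : Type} [Field k]

theorem natDegree_big (Q : ℕ) (hQ : 2 ≤ Q) : (X ^ Q + X : k[X]).natDegree = Q := by
  rw [natDegree_add_eq_left_of_natDegree_lt] <;> simp
  omega

theorem big_ne_zero (Q : ℕ) (hQ : 2 ≤ Q) : (X ^ Q + X : k[X]) ≠ 0 := by
  intro h
  have := natDegree_big (k := k) Q hQ
  rw [h, natDegree_zero] at this
  omega

theorem deg_v (a T Q : ℕ) (ha : 1 ≤ a) (hT : 1 ≤ T) (hQ : 2 ≤ Q) (h v : k[X])
    (hd : h.natDegree < a + T) (hv : h * (h + (X ^ a + X ^ T)) = (X ^ Q + X) * v) (h0 : v ≠ 0) :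
    Q + v.natDegree + 2 ≤ 2 * (a + T) := by
  have h1 : ((X ^ Q + X) * v).natDegree = Q + v.natDegree := by
    rw [natDegree_mul (big_ne_zero Q hQ) h0, natDegree_big Q hQ]
  have h2 : (h + (X ^ a + X ^ T)).natDegree ≤ a + T - 1 := by
    refine (natDegree_add_le _ _).trans (max_le (by omega) ?_)
    refine (natDegree_add_le _ _).trans (max_le ?_ ?_) <;> simp <;> omega
  have h3 := natDegree_mul_le (p := h) (q := h + (X ^ a + X ^ T))
  rw [hv, h1] at h3
  omega

theorem mid [CharP k 2] (a T : ℕ) (ha : 1 ≤ a) (haT : 4 * a ≤ T) (h v : k[X])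
    (hd : h.natDegree < a + T) (hv : h * (h + (X ^ a + X ^ T)) = (X ^ (2 * T) + X) * v) :
    v = 0 := by
  by_contra h0
  have two : (2 : k[X]) = 0 := CharTwo.two_eq_zero
  have hdv := deg_v a T (2 * T) ha (by omega) (by omega) h v hd hv h0
  have hm : (X ^ T : k[X]).Monic := monic_X_pow T
  obtain ⟨h1, hh1⟩ : ∃ h1, h1 = h /ₘ X ^ T := ⟨_, rfl⟩
  obtain ⟨h0', hh0⟩ : ∃ h0', h0' = h %ₘ X ^ T := ⟨_, rfl⟩
  have hsplit : h = h0' + X ^ T * h1 := by
    rw [hh0, hh1]; exact (modByMonic_add_div h _).symm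
  have d1 : h1.natDegree < a := by
    rw [hh1, natDegree_divByMonic _ hm, natDegree_X_pow]; omega
  have d0 : h0'.natDegree < T := by
    have hne : (X ^ T : k[X]) ≠ 1 := by
      intro e
      have := congrArg natDegree e
      simp at this
      omega
    have := natDegree_modByMonic_lt h hm hne
    rwa [← hh0, natDegree_X_pow] at this
  obtain ⟨r, hr⟩ : ∃ r, r = h0' + X ^ a * h1 := ⟨_, rfl⟩
  have dah : (X ^ a * h1).natDegree ≤ 2 * a - 1 := by
    refine natDegree_mul_le.trans ?_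
    rw [natDegree_X_pow]; omega
  have dr : r.natDegree < T := by
    rw [hr]
    refine (natDegree_add_le _ _).trans_lt (max_lt d0 (by omega))
  have dR : (X * v + h0' ^ 2 + X ^ a * h0').natDegree ≤
      max (2 * a - 1) (max (2 * h0'.natDegree) (a + h0'.natDegree)) := by
    refine (natDegree_add_le _ _).trans (max_le ((natDegree_add_le _ _).trans (max_le ?_ ?_)) ?_)
    · refine natDegree_mul_le.trans ?_
      rw [natDegree_X]; omega
    · refine natDegree_pow_le.trans ?_
      omega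
    · refine natDegree_mul_le.trans ?_
      rw [natDegree_X_pow]; omega
  have e1 : X ^ (2 * T) * (v + h1 ^ 2 + h1) = X ^ T * r + (X * v + h0' ^ 2 + X ^ a * h0') := by
    rw [hsplit] at hv
    rw [hr]
    linear_combination (-1 : k[X]) * hv +
      (X ^ (2 * T) * (h1 ^ 2 + h1) + h0' * X ^ T * h1 - X * v) * two
  have e2 : v + h1 ^ 2 + h1 = 0 := by
    by_contra hne
    have l1 : (X ^ (2 * T) * (v + h1 ^ 2 + h1)).natDegree = 2 * T + (v + h1 ^ 2 + h1).natDegree := by
      rw [natDegree_mul (by simp) hne, natDegree_X_pow]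
    have l2 : (X ^ T * r).natDegree ≤ T + r.natDegree := by
      refine natDegree_mul_le.trans ?_
      rw [natDegree_X_pow]
    have l3 := natDegree_add_le (X ^ T * r) (X * v + h0' ^ 2 + X ^ a * h0')
    rw [← e1, l1] at l3
    omega
  rw [e2, mul_zero] at e1
  have e3 : X ^ T * r = X * v + h0' ^ 2 + X ^ a * h0' := by
    linear_combination (-1 : k[X]) * e1 - (X * v + h0' ^ 2 + X ^ a * h0') * two
  have e4 : r = 0 := by
    by_contra hne
    have l1 : (X ^ T * r).natDegree = T + r.natDegree := by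
      rw [natDegree_mul (by simp) hne, natDegree_X_pow]
    rw [e3] at l1
    rcases Nat.lt_or_ge (2 * h0'.natDegree) T with hc | hc
    · omega
    · have l2 : r.natDegree = h0'.natDegree := by
        rw [hr]
        exact natDegree_add_eq_left_of_natDegree_lt (by omega)
      omega
  have e5 : h0' = X ^ a * h1 := by
    rw [hr] at e4
    linear_combination e4 - (X ^ a * h1) * two
  have e6 : (X ^ (2 * a) + X) * v = 0 := by
    rw [e4, e5] at e3
    linear_combination (-1 : k[X]) * e3 + X ^ (2 * a) * e2 - X ^ (2 * a) * (h1 ^ 2 + h1) * two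
  exact h0 ((mul_eq_zero.mp e6).resolve_left (big_ne_zero _ (by omega)))

theorem psum [CharP k 2] (c : ℕ) (p : ℕ → k) (sq : ∀ E, p (2 * E) = p E ^ 2)
    (per : ∀ H E, p (2 ^ (c + 2) * H + E) = p (H + E))
    (rel : ∀ E, E < 2 ^ c → p (E + 2 ^ c) = p (E + 2 ^ (c + 1))) :
    ∀ E, E < 2 ^ (c + 2) → p E ^ 2 = p E := by
  have sqs : ∀ d E, p (2 ^ d * E) = p E ^ 2 ^ d := by
    intro d E
    induction d with
    | zero => simp
    | succ d ih => rw [pow_succ, mul_comm (2 ^ d) 2, mul_assoc, sq, ih, ← pow_mul, mul_comm]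
  have inj : ∀ (d : ℕ) (x y : k), x ^ 2 ^ d = y ^ 2 ^ d → x = y := fun d x y h =>
    (iterateFrobenius k 2 d).injective (by simpa [iterateFrobenius_def] using h)
  have relt : ∀ t d H E, t + d = c → H < 2 ^ d → E < 2 ^ t →
      p (2 ^ (t + 2) * H + 2 ^ t + E) = p (2 ^ (t + 2) * H + 2 ^ (t + 1) + E) := by
    intro t d H E htd hH hE
    apply inj d
    rw [← sqs, ← sqs]
    have e1 : 2 ^ d * (2 ^ (t + 2) * H + 2 ^ t + E) = 2 ^ (c + 2) * H + (2 ^ d * E + 2 ^ c) := by
      rw [← htd]; ring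
    have e2 : 2 ^ d * (2 ^ (t + 2) * H + 2 ^ (t + 1) + E) =
        2 ^ (c + 2) * H + (2 ^ d * E + 2 ^ (c + 1)) := by
      rw [← htd]; ring
    rw [e1, e2, per, per, ← add_assoc, ← add_assoc]
    apply rel
    have e3 : 2 ^ c = 2 ^ d * 2 ^ t := by rw [← htd]; ring
    have e4 : 2 ^ d * (E + 1) ≤ 2 ^ d * 2 ^ t := Nat.mul_le_mul_left _ hE
    rw [e3]
    nlinarith
  have ind : ∀ t d, t + d = c + 1 → ∀ E H, E < 2 ^ t → H < 2 ^ d →
      p (2 ^ (t + 1) * H + E) = p (2 ^ (t + 1) * H + 2 * E) := by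
    intro t
    induction t with
    | zero =>
      intro d _ E H hE _
      have : E = 0 := by simpa using hE
      simp [this]
    | succ t ih =>
      intro d htd E H hE hH
      have hd : 2 ^ (d + 1) = 2 * 2 ^ d := by ring
      rcases Nat.lt_or_ge E (2 ^ t) with hc | hc
      · have h1 := ih (d + 1) (by omega) E (2 * H) hc (by omega)
        have e : 2 ^ (t + 1) * (2 * H) = 2 ^ (t + 1 + 1) * H := by ring
        rwa [e] at h1
      · obtain ⟨E', rfl⟩ := Nat.exists_eq_add_of_le hc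
        have ht : 2 ^ (t + 1) = 2 * 2 ^ t := by ring
        have hE' : E' < 2 ^ t := by omega
        have h1 := ih (d + 1) (by omega) E' (2 * H + 1) hE' (by omega)
        have h2 := relt t d H E' (by omega) hH hE'
        have e1 : 2 ^ (t + 1) * (2 * H + 1) + E' = 2 ^ (t + 2) * H + 2 ^ (t + 1) + E' := by ring
        have e2 : 2 ^ (t + 1) * (2 * H + 1) + 2 * E' = 2 ^ (t + 1 + 1) * H + 2 * (2 ^ t + E') := by
          ring
        rw [e1, e2, ← h2] at h1
        rw [← h1, ← add_assoc]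
  have low : ∀ E, E < 2 ^ (c + 1) → p E ^ 2 = p E := by
    intro E hE
    have h1 := ind (c + 1) 0 rfl E 0 hE (by simp)
    simp only [mul_zero, zero_add] at h1
    rw [← sq, ← h1]
  have hq : 2 ^ (c + 2) = 2 * 2 ^ (c + 1) := by ring
  have hpos : 0 < 2 ^ (c + 1) := by positivity
  have wrap : ∀ E', p (2 ^ (c + 1) + E') ^ 2 = p (2 * E' + 1) := by
    intro E'
    have h1 := per 1 (2 * E')
    rw [← sq, add_comm (2 * E') 1, ← h1]
    congr 1
    ring
  intro E
  induction E using Nat.strong_induction_on with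
  | _ E ih =>
    intro hE
    rcases Nat.lt_or_ge E (2 ^ (c + 1)) with hc | hc
    · exact low E hc
    · obtain ⟨E', rfl⟩ := Nat.exists_eq_add_of_le hc
      rcases Nat.lt_or_ge (2 * E' + 1) (2 ^ (c + 1) + E') with h2 | h2
      · have h3 := ih _ h2 (by omega)
        rw [← wrap] at h3
        apply inj 1
        simpa using h3
      · rw [wrap]
        congr 1
        omega

end Pool.Agent.Lib.MP_346d6a_co.G34
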