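import Mathlib

/-! Baer-Suzuki theorem (Alperin-Lyons proof) and the two-group generated by two involutions. -/

namespace H64BS

open Subgroup

variable {G : Type*} [Group G] [Finite G] {p : ℕ} [Fact p.Prime]

theorem exists_norm (K T : Set G) (hK : ∀ g k, k ∈ K → g * k * g⁻¹ ∈ K) (P : Subgroup G)
    (hP : IsPGroup p P) (hTP : closure T ≤ P) (hT : ∀ k, k ∈ K → k ∈ closure T → k ∈ T)
    (hTK : T ⊆ K) (hne : ∃ k, k ∈ K ∧ k ∈ P ∧ k ∉ T) :
    ∃ x, x ∈ K ∧ x ∈ P ∧ x ∉ T ∧ x ∈ normalizer (closure T : Set G) := by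
  classical
  let S : Set (Subgroup G) := {H | closure T ≤ H ∧ H ≤ P ∧ ∀ k, k ∈ K → k ∈ H → k ∈ T}
  have hS : S.Nonempty := ⟨closure T, le_rfl, hTP, hT⟩
  obtain ⟨H, hH⟩ := (Set.toFinite S).exists_maximal hS
  obtain ⟨⟨h1, h2, h3⟩, hmax⟩ := hH
  have hHP : H ≠ P := by
    rintro rfl
    obtain ⟨k, hk, hkP, hkT⟩ := hne
    exact hkT (h3 k hk hkP)
  have := hP.isNilpotent
  have hnc : NormalizerCondition P := Group.normalizerCondition_of_isNilpotent
  have hlt : H.subgroupOf P < ⊤ := by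
    rw [lt_top_iff_ne_top]
    intro h
    rw [subgroupOf_eq_top] at h
    exact hHP (le_antisymm h2 h)
  obtain ⟨y, hy1, hy2⟩ := SetLike.exists_of_lt (hnc _ hlt)
  have hyN : (y : G) ∈ normalizer (H : Set G) := by
    apply mem_normalizer_fintype
    intro n hn
    have hn' : (⟨n, h2 hn⟩ : P) ∈ H.subgroupOf P := hn
    have := (mem_normalizer_iff.1 hy1 ⟨n, h2 hn⟩).1 hn'
    exact this
  let N : Subgroup G := P ⊓ normalizer (H : Set G)
  have hHN : H ≤ N := le_inf h2 le_normalizer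
  have hN : N ∉ S := by
    intro hNS
    have := hmax hNS hHN
    exact hy2 (this ⟨y.2, hyN⟩)
  have : ∃ k, k ∈ K ∧ k ∈ N ∧ k ∉ T := by
    by_contra hcon
    push Not at hcon
    exact hN ⟨h1.trans hHN, inf_le_left, hcon⟩
  obtain ⟨x, hxK, hxN, hxT⟩ := this
  refine ⟨x, hxK, hxN.1, hxT, ?_⟩
  apply mem_normalizer_fintype
  intro n hn
  change n ∈ closure T at hn
  change x * n * x⁻¹ ∈ closure T
  induction hn using closure_induction with
  | mem t ht =>
    apply Subgroup.subset_closure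
    apply h3 _ (hK _ _ (hTK ht))
    exact (mem_normalizer_iff.1 hxN.2 t).1 (h1 (Subgroup.subset_closure ht))
  | one => simp
  | mul a b _ _ ha hb =>
    have : x * (a * b) * x⁻¹ = (x * a * x⁻¹) * (x * b * x⁻¹) := by group
    rw [this]; exact mul_mem ha hb
  | inv a _ ha =>
    have : x * a⁻¹ * x⁻¹ = (x * a * x⁻¹)⁻¹ := by group
    rw [this]; exact inv_mem ha

theorem card_inter (K : Set G) (hK : ∀ g k, k ∈ K → g * k * g⁻¹ ∈ K) (P Q : Sylow p G) :
    (K ∩ (P : Subgroup G)).ncard ≤ (K ∩ (Q : Subgroup G)).ncard := by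
  obtain ⟨g, rfl⟩ := MulAction.exists_smul_eq G P Q
  apply Set.ncard_le_ncard_of_injOn (fun k => g * k * g⁻¹)
  · rintro k ⟨hk, hkP⟩
    refine ⟨hK _ _ hk, ?_⟩
    change g * k * g⁻¹ ∈ ((g • P : Sylow p G) : Subgroup G)
    rw [Sylow.coe_subgroup_smul, Subgroup.mem_pointwise_smul_iff_inv_smul_mem]
    have : (k : G) ∈ (P : Subgroup G) := hkP
    simpa [mul_assoc] using this
  · intro a _ b _ hab
    simpa using hab

/-- Baer-Suzuki. -/
theorem baer_suzuki (K : Set G) (hK : ∀ g k, k ∈ K → g * k * g⁻¹ ∈ K)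
    (h2 : ∀ x y, x ∈ K → y ∈ K → IsPGroup p (closure {x, y})) : IsPGroup p (closure K) := by
  classical
  by_contra hcon
  have hex : ∃ PQ : Sylow p G × Sylow p G,
      K ∩ (PQ.1 : Subgroup G) ≠ K ∩ (PQ.2 : Subgroup G) := by
    obtain ⟨P⟩ : Nonempty (Sylow p G) := inferInstance
    have : ¬ K ⊆ (P : Subgroup G) := by
      intro h
      exact hcon (P.isPGroup'.to_le ((closure_le _).2 h))
    obtain ⟨y, hy, hyP⟩ := Set.not_subset.1 this
    obtain ⟨Q, hQ⟩ := (h2 y y hy hy).exists_le_sylow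
    refine ⟨(P, Q), fun h => hyP ?_⟩
    have : y ∈ K ∩ (Q : Subgroup G) := ⟨hy, hQ (Subgroup.subset_closure (by simp))⟩
    rw [← h] at this
    exact this.2
  let S : Set (Sylow p G × Sylow p G) :=
    {PQ | K ∩ (PQ.1 : Subgroup G) ≠ K ∩ (PQ.2 : Subgroup G)}
  obtain ⟨⟨P, Q⟩, hPQ, hmax⟩ := Set.exists_max_image S
    (fun PQ => (K ∩ (PQ.1 : Subgroup G) ∩ (PQ.2 : Subgroup G)).ncard) (Set.toFinite _) hex
  change K ∩ (P : Subgroup G) ≠ K ∩ (Q : Subgroup G) at hPQ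
  set T : Set G := K ∩ (P : Subgroup G) ∩ (Q : Subgroup G) with hTdef
  have hTP : closure T ≤ P := (closure_le _).2 (fun t ht => ht.1.2)
  have hTQ : closure T ≤ Q := (closure_le _).2 (fun t ht => ht.2)
  have hT : ∀ k, k ∈ K → k ∈ closure T → k ∈ T := fun k hk h => ⟨⟨hk, hTP h⟩, hTQ h⟩
  have hTK : T ⊆ K := fun t ht => ht.1.1
  have hneP : ∃ k, k ∈ K ∧ k ∈ (P : Subgroup G) ∧ k ∉ T := by
    by_contra h
    push Not at h
    apply hPQ
    apply Set.eq_of_subset_of_ncard_le _ (card_inter K hK Q P) (Set.toFinite _)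
    intro k hk
    exact ⟨hk.1, (h k hk.1 hk.2).2⟩
  have hneQ : ∃ k, k ∈ K ∧ k ∈ (Q : Subgroup G) ∧ k ∉ T := by
    by_contra h
    push Not at h
    apply hPQ
    symm
    apply Set.eq_of_subset_of_ncard_le _ (card_inter K hK P Q) (Set.toFinite _)
    intro k hk
    exact ⟨hk.1, (h k hk.1 hk.2).1.2⟩
  obtain ⟨x, hxK, hxP, hxT, hxN⟩ := exists_norm K T hK P P.isPGroup' hTP hT hTK hneP
  obtain ⟨y, hyK, hyQ, hyT, hyN⟩ := exists_norm K T hK Q Q.isPGroup' hTQ hT hTK hneQ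
  have hD : IsPGroup p (closure T) := P.isPGroup'.to_le hTP
  have hsup : IsPGroup p (closure {x, y} ⊔ closure T : Subgroup G) := by
    apply IsPGroup.to_sup_of_normal_right' (h2 x y hxK hyK) hD
    rw [closure_le]
    rintro z (rfl | rfl)
    · exact hxN
    · exact hyN
  obtain ⟨R, hR⟩ := hsup.exists_le_sylow
  have hTR : ∀ t, t ∈ T → t ∈ (R : Subgroup G) := fun t ht =>
    hR (mem_sup_right (Subgroup.subset_closure ht))
  have hxR : x ∈ (R : Subgroup G) := hR (mem_sup_left (Subgroup.subset_closure (by simp)))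
  have hyR : y ∈ (R : Subgroup G) := hR (mem_sup_left (Subgroup.subset_closure (by simp)))
  have key : ∀ (A : Sylow p G) (z : G), (∀ t, t ∈ T → t ∈ (A : Subgroup G)) → z ∈ K →
      z ∈ (A : Subgroup G) → z ∈ (R : Subgroup G) → z ∉ T →
      K ∩ (A : Subgroup G) = K ∩ (R : Subgroup G) := by
    intro A z hA hzK hzA hzR hzT
    by_contra hne
    have h1 := hmax (A, R) hne
    have h3 : T.ncard < (K ∩ (A : Subgroup G) ∩ (R : Subgroup G)).ncard := by
      apply Set.ncard_lt_ncard _ (Set.toFinite _)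
      refine ⟨fun t ht => ⟨⟨hTK ht, hA t ht⟩, hTR t ht⟩, fun h => hzT (h ⟨⟨hzK, hzA⟩, hzR⟩)⟩
    exact absurd h1 (not_le.2 h3)
  apply hPQ
  rw [key P x (fun t ht => ht.1.2) hxK hxP hxR hxT, key Q y (fun t ht => ht.2) hyK hyQ hyR hyT]

omit [Finite G] in
theorem two_invol (x y : G) (hx : x * x = 1) (hy : y * y = 1) (n : ℕ) (hw : (x * y) ^ 2 ^ n = 1) :
    IsPGroup 2 (closure {x, y}) := by
  have hxi : x⁻¹ = x := inv_eq_of_mul_eq_one_right hx
  have hyi : y⁻¹ = y := inv_eq_of_mul_eq_one_right hy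
  have hconj : ∀ i : ℤ, x * (x * y) ^ i = (x * y) ^ (-i) * x := by
    intro i
    have h1 : x * (x * y) * x⁻¹ = (x * y)⁻¹ := by
      rw [mul_inv_rev, hxi, hyi, ← mul_assoc, hx, one_mul]
    have h2 : x * (x * y) ^ i * x⁻¹ = (x * y) ^ (-i) := by
      rw [← conj_zpow, h1, inv_zpow', ]
    rw [← h2]; group
  have key : ∀ g, g ∈ closure ({x, y} : Set G) →
      ∃ i : ℤ, g = (x * y) ^ i ∨ g = (x * y) ^ i * x := by
    intro g hg
    induction hg using closure_induction with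
    | mem t ht =>
      rcases ht with rfl | rfl
      · exact ⟨0, Or.inr (by simp)⟩
      · refine ⟨-1, Or.inr ?_⟩
        rw [zpow_neg_one, mul_inv_rev, hxi, hyi, mul_assoc, hx, mul_one]
    | one => exact ⟨0, Or.inl (by simp)⟩
    | mul a b _ _ ha hb =>
      obtain ⟨i, rfl | rfl⟩ := ha <;> obtain ⟨j, rfl | rfl⟩ := hb
      · exact ⟨i + j, Or.inl (by rw [zpow_add])⟩
      · exact ⟨i + j, Or.inr (by rw [zpow_add, mul_assoc])⟩
      · exact ⟨i + -j, Or.inr (by rw [zpow_add, mul_assoc, hconj, mul_assoc])⟩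
      · refine ⟨i + -j, Or.inl ?_⟩
        rw [zpow_add, mul_assoc, ← mul_assoc x, hconj, mul_assoc, hx, mul_one]
    | inv a _ ha =>
      obtain ⟨i, rfl | rfl⟩ := ha
      · exact ⟨-i, Or.inl (by rw [zpow_neg])⟩
      · refine ⟨i, Or.inr ?_⟩
        rw [mul_inv_rev, hxi, ← zpow_neg, hconj, neg_neg]
  rintro ⟨g, hg⟩
  obtain ⟨i, rfl | rfl⟩ := key g hg
  · refine ⟨n, Subtype.ext ?_⟩
    change ((x * y) ^ i) ^ 2 ^ n = 1
    rw [← zpow_natCast, ← zpow_mul, mul_comm, zpow_mul, zpow_natCast, hw, one_zpow]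
  · refine ⟨1, Subtype.ext ?_⟩
    change ((x * y) ^ i * x) ^ 2 ^ 1 = 1
    rw [pow_one, pow_two, mul_assoc, ← mul_assoc x, hconj, mul_assoc, hx, mul_one, ← zpow_add]
    simp

end H64BS
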