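import Pool.Agent.Lib.MP_346d6a_co.H64P

/-! Core of the index-two cycle lemma. -/

namespace H64Q

variable {F : Type*} [AddCommGroup F] {C : Type*} {V : Type*} [AddCommGroup V] {col : V → C}

theorem IsK.congr {c c' : F → C} {p : F ≃+ F} {K : AddSubgroup F}
    (e : ∀ t t', c t = c t' ↔ c' t = c' t') (h : IsK c p K) : IsK c' p K := by
  obtain ⟨l, m, T, hK⟩ := h
  exact ⟨l, m, ⟨T.l0, T.m0, T.ne, fun t t' a b => by rw [← e, T.col t t' a b], T.t1, T.t2⟩, hK⟩

/-- Transport of a datum. -/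
def Dat.map (D : Dat F col) (g : V ≃+ V) (hg : ∀ u v, col (g u) = col (g v) ↔ col u = col v) :
    Dat F col where
  io := g.toAddMonoidHom.comp D.io
  p := D.p
  tw := ⟨D.tw.h2, D.tw.fin, fun t t' => (hg _ _).trans ((D.tw.iff t t').trans (hg _ _).symm),
    fun t ht e => D.tw.free t ht ((hg _ _).1 e)⟩
  Z := D.Z.comap g.symm.toAddMonoidHom
  hio w := by simpa using D.hio w
  lam u := D.lam (g.symm u)
  hlam u y hy := by rw [map_add]; exact D.hlam _ _ hy
  hM u hu h hh := by
    obtain ⟨u, rfl⟩ := g.surjective u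
    have := (hg _ _).2 (D.hM u (by simpa using hu) h (by simpa using hh))
    simpa using this

/-- Admissible endomorphisms. -/
def Adm (F : Type*) [AddCommGroup F] (col : V → C) (E : V →+ V) : Prop :=
  ∃ (D : Dat F col) (X : V →+ F), D.XX X ∧ ∀ v, E v = D.io (X v)

theorem Adm.map {E : V →+ V} (h : Adm F col E) (g : V ≃+ V)
    (hg : ∀ u v, col (g u) = col (g v) ↔ col u = col v) :
    Adm F col (g.toAddMonoidHom.comp (E.comp g.symm.toAddMonoidHom)) := by
  obtain ⟨D, X, hX, hE⟩ := h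
  refine ⟨D.map g hg, X.comp g.symm.toAddMonoidHom, ⟨fun u hu => hX.z _ hu,
    fun u hu => hX.lam _ hu, fun K hK u hu => hX.good K (hK.congr fun t t' => hg _ _) _ hu⟩,
    fun v => ?_⟩
  change g (E (g.symm v)) = g (D.io (X (g.symm v)))
  rw [hE]

theorem Adm.sq {E : V →+ V} (h : Adm F col E) (v : V) : E (E v) = 0 := by
  obtain ⟨D, X, hX, hE⟩ := h
  rw [hE, hE, hX.z _ (D.hio _), map_zero]

theorem Adm.col_eq {E : V →+ V} (h : Adm F col E) (v : V) : col (v + E v) = col v := by
  obtain ⟨D, X, hX, hE⟩ := h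
  rw [hE]
  by_cases hv : v ∈ D.Z
  · simp [hX.z _ hv]
  · exact D.hM _ hv _ (hX.lam _ hv)

theorem Adm.pair {E E' : V →+ V} (h : Adm F col E) (h' : Adm F col E') (v : V) :
    E (E' (E (E' (E (E' v))))) = 0 := by
  obtain ⟨D, X, hX, hE⟩ := h
  obtain ⟨D', X', hX', hE'⟩ := h'
  simp only [hE, hE']
  rw [H64Q.pair D D' hX hX', map_zero]

/-- Additive automorphisms permuting the colours. -/
def Gam (col : V → C) : Subgroup (AddMonoid.End V)ˣ where
  carrier := {g | ∀ u v, col (g.val u) = col (g.val v) ↔ col u = col v}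
  one_mem' := fun _ _ => Iff.rfl
  mul_mem' := fun {a b} ha hb u v => (ha _ _).trans (hb u v)
  inv_mem' := fun {a} ha u v => by
    have e : ∀ w, a.val (a⁻¹.val w) = w := fun w => DFunLike.congr_fun a.mul_inv w
    rw [← ha, e, e]

/-- The additive automorphism of a unit. -/
def toEq (g : (AddMonoid.End V)ˣ) : V ≃+ V where
  toFun := g.val
  invFun := g⁻¹.val
  left_inv w := DFunLike.congr_fun g.inv_mul w
  right_inv w := DFunLike.congr_fun g.mul_inv w
  map_add' := map_add _

/-- Closed under colours. -/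
def Inv (col : V → C) (U : AddSubgroup V) : Prop := ∀ u, u ∈ U → ∀ v, col v = col u → v ∈ U

theorem core [Finite V] (h2 : ∀ v : V, v + v = 0) (U : AddSubgroup V) (hU : Inv col U)
    (hne : U ≠ ⊥) : ∃ f : U →+ ZMod 2, f ≠ 0 ∧ ∀ E, Adm F col E → ∀ (u : V) (_ : u ∈ U)
      (h : E u ∈ U), f ⟨E u, h⟩ = 0 := by
  have : Finite (AddMonoid.End V) := DFunLike.finite _
  have hR : ∀ x : AddMonoid.End V, x + x = 0 := fun x => AddMonoidHom.ext fun v => h2 _
  have : Fact (Nat.Prime 2) := ⟨Nat.prime_two⟩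
  let K : Set (Gam col) := {g | ∃ E : AddMonoid.End V, Adm F col E ∧ g.val.val = 1 + E}
  have hsq : ∀ E : AddMonoid.End V, Adm F col E → (1 + E) * (1 + E) = 1 := by
    intro E hE
    have e : E * E = 0 := AddMonoidHom.ext fun v => hE.sq v
    have : (1 + E) * (1 + E) = 1 + E * E + (E + E) := by noncomm_ring
    rw [this, e, hR, add_zero, add_zero]
  have hP : IsPGroup 2 (Subgroup.closure K) := by
    apply H64BS.baer_suzuki
    · rintro g k ⟨E, hE, hk⟩
      refine ⟨_, hE.map (toEq g.val) g.2, ?_⟩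
      change g.val.val * k.val.val * g.val⁻¹.val = 1 + g.val.val * (E * g.val⁻¹.val)
      rw [hk, mul_add, add_mul, mul_one, Units.mul_inv, mul_assoc]
    · rintro x y ⟨E, hE, hx⟩ ⟨E', hE', hy⟩
      apply H64BS.two_invol x y _ _ 3
      · apply Subtype.ext
        apply Units.ext
        change ((x.val * y.val) ^ 2 ^ 3 : (AddMonoid.End V)ˣ).val = 1
        rw [Units.val_pow_eq_pow_val, Units.val_mul, hx, hy]
        exact ring_eight hR E E' (AddMonoidHom.ext fun v => hE.sq v)
          (AddMonoidHom.ext fun v => hE'.sq v) (AddMonoidHom.ext fun v => hE.pair hE' v)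
      · apply Subtype.ext
        apply Units.ext
        change x.val.val * x.val.val = 1
        rw [hx, hsq E hE]
      · apply Subtype.ext
        apply Units.ext
        change y.val.val * y.val.val = 1
        rw [hy, hsq E' hE']
  have hcol : ∀ g, g ∈ Subgroup.closure K → ∀ v, col (g.val.val v) = col v := by
    intro g hg
    induction hg using Subgroup.closure_induction with
    | mem g hg =>
      obtain ⟨E, hE, hg⟩ := hg
      intro v
      rw [hg]
      exact hE.col_eq v
    | one => intro v; rfl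
    | mul a b _ _ ha hb => intro v; exact (ha _).trans (hb v)
    | inv a _ ha =>
      intro v
      rw [← ha]
      exact congrArg col (DFunLike.congr_fun a.val.mul_inv v)
  let res : Subgroup.closure K → U →+ U := fun g =>
    AddMonoidHom.mk' (fun u => ⟨g.val.val.val u, hU _ u.2 _ (hcol _ g.2 _)⟩)
      fun a b => Subtype.ext (map_add _ _ _)
  let _ : MulAction (Subgroup.closure K) (U →+ ZMod 2) :=
    { smul := fun g f => f.comp (res g⁻¹)
      one_smul := fun f => AddMonoidHom.ext fun u => rfl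
      mul_smul := fun a b f => AddMonoidHom.ext fun u => by
        change f (res (a * b)⁻¹ u) = f (res b⁻¹ (res a⁻¹ u))
        rw [mul_inv_rev]
        rfl }
  have : Finite (U →+ ZMod 2) := DFunLike.finite _
  have hdvd : 2 ∣ Nat.card (U →+ ZMod 2) := by
    obtain ⟨⟨u, hu⟩, hu0⟩ := (AddSubgroup.ne_bot_iff_exists_ne_zero).1 hne
    obtain ⟨l, h1, -⟩ := sep (F := U) (fun t => Subtype.ext (h2 _)) ⊥ ⟨u, hu⟩ (by simpa using hu0)
    have hl : l ≠ 0 := by rintro rfl; simp at h1
    have : addOrderOf l = 2 := addOrderOf_eq_prime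
      (AddMonoidHom.ext fun t => by rw [two_nsmul]; exact CharTwo.add_self_eq_zero _) hl
    have h3 := addOrderOf_dvd_natCard l
    rwa [this] at h3
  obtain ⟨f, hf, hf0⟩ := hP.exists_fixed_point_of_prime_dvd_card_of_fixed_point (U →+ ZMod 2)
    hdvd (a := 0) (fun g => AddMonoidHom.ext fun u => rfl)
  refine ⟨f, hf0.symm, fun E hE u hu h => ?_⟩
  let E' : AddMonoid.End V := E
  let e : (AddMonoid.End V)ˣ := ⟨1 + E', 1 + E', hsq E' hE, hsq E' hE⟩
  have he : e ∈ Gam col := fun a b => by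
    change col (a + E a) = col (b + E b) ↔ _
    rw [hE.col_eq, hE.col_eq]
  have h3 := DFunLike.congr_fun
    (hf (⟨⟨e, he⟩, Subgroup.subset_closure ⟨E', hE, rfl⟩⟩ : Subgroup.closure K)) ⟨u, hu⟩
  have h4 : f (⟨u, hu⟩ + ⟨E u, h⟩) = f ⟨u, hu⟩ := h3
  rw [map_add] at h4
  simpa using h4

/-- The subgroup generated by the admissible displacements. -/
def Sub (F : Type*) [AddCommGroup F] (col : V → C) (U : AddSubgroup V) : AddSubgroup V :=
  AddSubgroup.closure {x | ∃ E, Adm F col E ∧ ∃ u, u ∈ U ∧ x = E u}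

theorem Sub.mem {U : AddSubgroup V} {E : V →+ V} (hE : Adm F col E) {u : V} (hu : u ∈ U) :
    E u ∈ Sub F col U := AddSubgroup.subset_closure ⟨E, hE, u, hu, rfl⟩

theorem Sub.le {U : AddSubgroup V} (hU : Inv col U) : Sub F col U ≤ U := by
  rw [Sub, AddSubgroup.closure_le]
  rintro x ⟨E, hE, u, hu, rfl⟩
  simpa using U.sub_mem (hU u hu _ (hE.col_eq u)) hu

theorem Sub.lt [Finite V] (h2 : ∀ v : V, v + v = 0) {U : AddSubgroup V} (hU : Inv col U)
    (hne : U ≠ ⊥) : Sub F col U < U := by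
  refine lt_of_le_of_ne (Sub.le hU) fun e => ?_
  obtain ⟨f, hf, h⟩ := core (F := F) h2 U hU hne
  apply hf
  have : ∀ x (hx : x ∈ Sub F col U), f ⟨x, Sub.le hU hx⟩ = 0 := by
    intro x hx
    induction hx using AddSubgroup.closure_induction with
    | mem x hx =>
      obtain ⟨E, hE, u, hu, rfl⟩ := hx
      exact h E hE u hu _
    | zero => exact map_zero f
    | add a b ha' hb' ha hb =>
      have := map_add f ⟨a, Sub.le hU ha'⟩ ⟨b, Sub.le hU hb'⟩
      rw [ha, hb, add_zero] at this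
      exact this
    | neg a ha' ha =>
      have := map_neg f ⟨a, Sub.le hU ha'⟩
      rw [ha, neg_zero] at this
      exact this
  ext ⟨x, hx⟩
  exact this x (e.symm ▸ hx)

theorem Sub.map {U : AddSubgroup V} (g : V ≃+ V)
    (hg : ∀ u v, col (g u) = col (g v) ↔ col u = col v) (hU : ∀ u, u ∈ U → g u ∈ U) (x : V)
    (hx : x ∈ Sub F col U) : g x ∈ Sub F col U := by
  induction hx using AddSubgroup.closure_induction with
  | mem x hx =>
    obtain ⟨E, hE, u, hu, rfl⟩ := hx
    simpa using Sub.mem (hE.map g hg) (hU u hu)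
  | zero => simp
  | add a b _ _ ha hb => rw [map_add]; exact add_mem ha hb
  | neg a _ ha => rw [map_neg]; exact neg_mem ha

theorem Sub.inv (horb : ∀ u v, col u = col v → ∃ g : V ≃+ V, (∀ w, col (g w) = col w) ∧ g u = v)
    {U : AddSubgroup V} (hU : Inv col U) : Inv col (Sub F col U) := by
  intro u hu v e
  obtain ⟨g, hg, rfl⟩ := horb u v e.symm
  exact Sub.map g (fun a b => by rw [hg, hg]) (fun w hw => hU w hw _ (hg w)) u hu

end H64Q
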