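import Pool.Agent.Lib.MP_346d6a_co.H64Q
import Pool.Agent.Lib.MP_346d6a_co.H64BS

/-! The pair lemma and the core of the index-two cycle lemma. -/

namespace H64Q

variable {F : Type*} [AddCommGroup F] {C : Type*} {c : F → C} {p : F ≃+ F}

theorem IsK.col {K : AddSubgroup F} (h : IsK c p K) {t t' : F} (ht : t ∉ K) (ht' : t' ∉ K) :
    c t = c t' ↔ t + t' ∈ K := by
  obtain ⟨l, m, T, hK⟩ := h
  rw [T.col t t' (by rwa [← hK]) (by rwa [← hK]), hK, map_add, map_add]
  have : ∀ a b : ZMod 2, a = b ↔ a + b = 0 := by decide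
  rw [this, this (m t)]

theorem IsK.third {K : AddSubgroup F} (h : IsK c p K) {t : F} (ht : t ∉ K) :
    ∃ s, s ∉ K ∧ t + s ∉ K := by
  obtain ⟨l, m, T, hK⟩ := h
  obtain ⟨s, h1, h2⟩ := ex_val T.l0 T.m0 T.ne (m t) (l t + m t)
  refine ⟨s, ?_, ?_⟩ <;> rw [hK] at ht ⊢
  · rw [h1, h2]
    revert ht
    generalize l t = x, m t = y
    revert x y; decide
  · rw [map_add, map_add, h1, h2]
    revert ht
    generalize l t = x, m t = y
    revert x y; decide

theorem aff (g : F → ZMod 2) (f : F →+ ZMod 2) (hg : ∀ t t', f t = f t' → g t = g t') :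
    ∃ a b : ZMod 2, ∀ t, g t = a * f t + b := by
  by_cases hf : f = 0
  · exact ⟨0, g 0, fun t => by rw [hg t 0 (by simp [hf])]; simp⟩
  · obtain ⟨s, hs⟩ := ex_one hf
    refine ⟨g s + g 0, g 0, fun t => ?_⟩
    rcases z2 (f t) with h | h
    · rw [hg t 0 (by simp [h]), h]; simp
    · rw [hg t s (by rw [h, hs]), h, mul_one, add_assoc, CharTwo.add_self_eq_zero, add_zero]

variable {V : Type*} [AddCommGroup V]

/-- A datum of the index-two cycle lemma. -/
structure Dat (F : Type*) [AddCommGroup F] (col : V → C) where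
  io : F →+ V
  p : F ≃+ F
  tw : Tw (fun w => col (io w)) p
  Z : AddSubgroup V
  hio : ∀ w, io w ∈ Z
  lam : V → F →+ ZMod 2
  hlam : ∀ u y, y ∈ Z → lam (u + y) = lam u
  hM : ∀ u, u ∉ Z → ∀ h, lam u h = 0 → col (u + io h) = col u

variable {col : V → C}

/-- Admissible maps of a datum. -/
structure Dat.XX (D : Dat F col) (X : V →+ F) : Prop where
  z : ∀ u, u ∈ D.Z → X u = 0
  lam : ∀ u, u ∉ D.Z → D.lam u (X u) = 0
  good : ∀ K, IsK (fun w => col (D.io w)) D.p K → ∀ u, u ∉ D.Z → D.lam u ≠ 0 →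
    (∀ h, h ∈ K → D.lam u h = 0) → X u ∈ K

theorem Dat.row (D : Dat F col) {u : V} (hu : u ∉ D.Z) {t t' : F}
    (h : D.lam u t = D.lam u t') : col (u + D.io t) = col (u + D.io t') := by
  have h1 : u + D.io t' ∉ D.Z := fun e => hu (by simpa using D.Z.sub_mem e (D.hio t'))
  have := D.hM _ h1 (t - t') (by rw [D.hlam _ _ (D.hio t'), map_sub, h, sub_self])
  rw [← this, map_sub]
  congr 1
  abel

theorem Dat.lam_eq (D : Dat F col) {u v : V} (h : u - v ∈ D.Z) : D.lam u = D.lam v := by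
  rw [← D.hlam v _ h]
  congr 1
  abel

theorem sub_eq (h2 : ∀ t : F, t + t = 0) (a b : F) : a - b = a + b := by
  rw [sub_eq_add_neg, neg_eq_of_add_eq_zero_left (h2 b)]

theorem case1 (D D' : Dat F col) {X X' : V →+ F} (hX : D.XX X) (hX' : D'.XX X')
    (hB : ¬ Big (D'.Z.comap D.io)) (t : F) : X' (D.io (X (D'.io (X' (D.io t))))) = 0 := by
  by_cases ht : D.io t ∈ D'.Z
  · simp [hX'.z _ ht]
  by_cases hu : D'.io (X' (D.io t)) ∈ D.Z
  · simp [hX.z _ hu]
  set u := X' (D.io t) with hudef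
  have hin : ∀ a b, D.io a ∉ D'.Z → D.io b ∉ D'.Z → D.io (a + b) ∈ D'.Z := by
    intro a b ha hb
    by_contra hab
    exact hB ⟨a, b, ha, hb, hab⟩
  obtain ⟨l, h1, h0⟩ := sep D.tw.h2 (D'.Z.comap D.io) t ht
  have hl : l ≠ 0 := by rintro rfl; simp at h1
  have hout : ∀ s, l s = 1 → D.io s ∉ D'.Z := fun s hs hY => by
    rw [h0 s hY] at hs; exact absurd hs (by decide)
  have hker : ∀ s, l s = 0 → D.io s ∈ D'.Z := by
    intro s hs
    by_contra hn
    have := h0 _ (hin s t hn ht)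
    rw [map_add, hs, h1] at this
    exact absurd this (by decide)
  have hc : ∀ s, l s = 1 → col (D.io s) = col (D'.io u + D.io s) := by
    intro s hs
    have e : D'.lam (D.io s) = D'.lam (D.io t) := by
      apply D'.lam_eq
      rw [← map_sub, sub_eq D.tw.h2]
      exact hin s t (hout s hs) ht
    rw [add_comm, D'.hM _ (hout s hs) u (by rw [e]; exact hX'.lam _ ht)]
  have hq : ∀ s s', l s = 1 → l s' = 1 → D.lam (D'.io u) s = D.lam (D'.io u) s' →
      col (D.io s) = col (D.io s') := by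
    intro s s' a b e
    rw [hc s a, hc s' b]
    exact D.row hu e
  have hm : D.lam (D'.io u) ≠ 0 := fun e => D.tw.maj hl fun s s' a b => hq s s' a b (by simp [e])
  have hne : l ≠ D.lam (D'.io u) := fun e =>
    D.tw.maj hl fun s s' a b => hq s s' a b (by rw [← e, a, b])
  have := hX.good _ (D.tw.typeQ hl hm hne hq) _ hu hm (fun h hh => hh.2)
  exact hX'.z _ (hker _ this.1)

theorem isK_of_big (D D' : Dat F col) (hB : Big (D'.Z.comap D.io)) (hB' : Big (D.Z.comap D'.io)) :
    IsK (fun w => col (D.io w)) D.p (D'.Z.comap D.io) := by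
  classical
  apply D.tw.isK_of_affine _ hB
  intro t0
  obtain ⟨u1, u2, h1, h2, h3⟩ := hB'
  let chi : V → ZMod 2 := fun v => if col v = col (D.io t0) then 1 else 0
  have hchi : ∀ v v', col v = col v' → chi v = chi v' := fun v v' e => by simp only [chi, e]
  have row : ∀ u, D'.io u ∉ D.Z → ∃ a b : ZMod 2, ∀ t,
      chi (D'.io u + D.io t) = a * D.lam (D'.io u) t + b := fun u hu =>
    aff (fun t => chi (D'.io u + D.io t)) _ fun t t' e => hchi _ _ (D.row hu e)
  obtain ⟨a1, b1, r1⟩ := row u1 h1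
  obtain ⟨a2, b2, r2⟩ := row u2 h2
  obtain ⟨a3, b3, r3⟩ := row _ h3
  refine ⟨(AddMonoidHom.mulLeft a1).comp (D.lam (D'.io u1)) +
    (AddMonoidHom.mulLeft a2).comp (D.lam (D'.io u2)) +
    (AddMonoidHom.mulLeft a3).comp (D.lam (D'.io (u1 + u2))), 1 + b1 + b2 + b3, fun t ht => ?_⟩
  obtain ⟨a, b, r⟩ := aff (fun u => chi (D.io t + D'.io u)) (D'.lam (D.io t))
    fun u u' e => hchi _ _ (D'.row ht e)
  have e0 := r 0
  have e1 := r u1
  have e2 := r u2
  have e3 := r (u1 + u2)
  rw [add_comm (D.io t), r1] at e1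
  rw [add_comm (D.io t), r2] at e2
  rw [add_comm (D.io t), r3, map_add (D'.lam (D.io t))] at e3
  simp only [map_zero, add_zero, mul_zero, zero_add] at e0
  have e4 : col (D.io t) = col (D.io t0) ↔ b = 1 := by
    rw [← e0]
    simp [chi]
  rw [e4]
  simp only [AddMonoidHom.add_apply, AddMonoidHom.comp_apply, AddMonoidHom.coe_mulLeft]
  have two : (2 : ZMod 2) = 0 := rfl
  constructor
  · intro hb
    linear_combination e1 + e2 + e3 + hb +
      (a * D'.lam (D.io t) u1 + a * D'.lam (D.io t) u2 + b - b1 - b2 - b3) * two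
  · intro hb
    linear_combination hb - e1 - e2 - e3 -
      (a * D'.lam (D.io t) u1 + a * D'.lam (D.io t) u2 + b - b1 - b2 - b3) * two

theorem case2 (D D' : Dat F col) {X X' : V →+ F} (hX : D.XX X) (hX' : D'.XX X')
    (hB : Big (D'.Z.comap D.io)) (hB' : Big (D.Z.comap D'.io)) :
    (∀ t, X (D'.io (X' (D.io t))) = 0) ∨ ∀ u, X' (D.io (X (D'.io u))) = 0 := by
  have hK := isK_of_big D D' hB hB'
  have hK' := isK_of_big D' D hB' hB
  by_cases hall : ∀ t, D.io t ∉ D'.Z → D'.lam (D.io t) ≠ 0 ∧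
      ∀ h, h ∈ D.Z.comap D'.io → D'.lam (D.io t) h = 0
  · left
    intro t
    by_cases ht : D.io t ∈ D'.Z
    · simp [hX'.z _ ht]
    · exact hX.z _ (hX'.good _ hK' _ ht (hall t ht).1 (hall t ht).2)
  right
  obtain ⟨t, hall⟩ := not_forall.1 hall
  obtain ⟨ht, hall⟩ := Classical.not_imp.1 hall
  have hvan : ∀ u0, ∃ u, D'.io (u - u0) ∈ D.Z ∧ D'.lam (D.io t) u = 0 := by
    intro u0
    rcases z2 (D'.lam (D.io t) u0) with h0 | h0
    · exact ⟨u0, by simp, h0⟩
    have hne : D'.lam (D.io t) ≠ 0 := by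
      intro e
      rw [e] at h0
      simp at h0
    have : ∃ h, h ∈ D.Z.comap D'.io ∧ D'.lam (D.io t) h ≠ 0 := by
      by_contra hn
      push Not at hn
      exact hall ⟨hne, hn⟩
    obtain ⟨h, hh, hh'⟩ := this
    refine ⟨u0 + h, by simpa using hh, ?_⟩
    rw [map_add, h0, (z2 _).resolve_left hh']
    decide
  have main : ∀ u0, D'.io u0 ∉ D.Z → col (D'.io u0) ≠ col (D.io t) →
      X (D'.io u0) ∈ D'.Z.comap D.io := by
    intro u0 hu0 hc
    obtain ⟨u, hu1, hu2⟩ := hvan u0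
    have hu : D'.io u ∉ D.Z := fun e => hu0 (by simpa using D.Z.sub_mem e hu1)
    have hcu : col (D'.io u) = col (D'.io u0) :=
      (hK'.col hu hu0).2 (by rw [← sub_eq D.tw.h2]; exact hu1)
    have hl : D.lam (D'.io u) = D.lam (D'.io u0) := D.lam_eq (by rw [← map_sub]; exact hu1)
    have one : ∀ h, h ∈ D'.Z.comap D.io → D.lam (D'.io u0) (t + h) = 1 := by
      intro h hh
      have hth : D.io (t + h) ∉ D'.Z := fun e => ht (by simpa using D'.Z.sub_mem e hh)
      apply (z2 _).resolve_left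
      intro e
      apply hc
      have e1 : col (D.io (t + h)) = col (D.io t) :=
        (hK.col hth ht).2 (by rw [add_right_comm, D.tw.h2, zero_add]; exact hh)
      have e2 : D'.lam (D.io (t + h)) = D'.lam (D.io t) := by
        rw [map_add]; exact D'.hlam _ _ hh
      rw [← hcu, ← e1, ← D'.hM _ hth u (by rw [e2, hu2]), add_comm,
        D.hM _ hu (t + h) (by rw [hl, e])]
    have o1 := one 0 (zero_mem _)
    rw [add_zero] at o1
    apply hX.good _ hK _ hu0
    · intro e
      rw [e] at o1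
      simp at o1
    · intro h hh
      have := one h hh
      rw [map_add, o1] at this
      simpa using this
  intro u
  apply hX'.z
  change X (D'.io u) ∈ D'.Z.comap D.io
  by_cases hu : D'.io u ∈ D.Z
  · rw [hX.z _ hu]; exact zero_mem _
  by_cases hc : col (D'.io u) = col (D.io t)
  · obtain ⟨s, hs, hus⟩ := hK'.third (t := u) hu
    have m1 := main s hs fun e => hus ((hK'.col hu hs).1 (hc.trans e.symm))
    have m2 := main (u + s) hus fun e => hs (by
      have := (hK'.col hu hus).1 (hc.trans e.symm)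
      rwa [← add_assoc, D.tw.h2, zero_add] at this)
    simpa using (D'.Z.comap D.io).sub_mem m2 m1
  · exact main u hu hc

/-- Pair lemma. -/
theorem pair (D D' : Dat F col) {X X' : V →+ F} (hX : D.XX X) (hX' : D'.XX X') (v : V) :
    X (D'.io (X' (D.io (X (D'.io (X' (D.io (X (D'.io (X' v)))))))))) = 0 := by
  by_cases hB : Big (D'.Z.comap D.io)
  · by_cases hB' : Big (D.Z.comap D'.io)
    · rcases case2 D D' hX hX' hB hB' with h | h
      · exact h _
      · simp [h]
    · exact case1 D' D hX' hX hB' _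
  · simp [case1 D D' hX hX' hB]

theorem ring_eight {R : Type*} [Ring R] (h2 : ∀ x : R, x + x = 0) (a b : R) (ha : a * a = 0)
    (hb : b * b = 0) (hab : a * b * (a * b) * (a * b) = 0) : ((1 + a) * (1 + b)) ^ 2 ^ 3 = 1 := by
  have sq : ∀ x : R, (1 + x) ^ 2 = 1 + x ^ 2 := fun x => by
    have : (1 + x) ^ 2 = 1 + x ^ 2 + (x + x) := by noncomm_ring
    rw [this, h2, add_zero]
  have ha1 : (1 + a) * (1 + a) = 1 := by rw [← pow_two, sq, pow_two, ha, add_zero]
  have hb1 : (1 + b) * (1 + b) = 1 := by rw [← pow_two, sq, pow_two, hb, add_zero]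
  set w := (1 + a) * (1 + b) with hw
  set w' := (1 + b) * (1 + a) with hw'
  have h1 : w * w' = 1 := by
    rw [hw, hw', mul_assoc, ← mul_assoc (1 + b), hb1, one_mul, ha1]
  have h1' : w' * w = 1 := by
    rw [hw, hw', mul_assoc, ← mul_assoc (1 + a), ha1, one_mul, hb1]
  have hs : w + w' = a * b + b * a := by
    have : w + w' = a * b + b * a + ((1 + a + b) + (1 + a + b)) := by
      rw [hw, hw']; noncomm_ring
    rw [this, h2, add_zero]
  have hc : Commute w (w + w') := (Commute.refl w).add_right (h1.trans h1'.symm)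
  have h3 : w ^ 2 = 1 + w * (w + w') := by
    rw [mul_add, h1, add_comm (w * w), ← add_assoc, h2, zero_add, pow_two]
  have x1 : a * b * (b * a) = 0 := by rw [mul_assoc, ← mul_assoc b, hb, zero_mul, mul_zero]
  have x2 : b * a * (a * b) = 0 := by rw [mul_assoc, ← mul_assoc a, ha, zero_mul, mul_zero]
  have s2 : (a * b + b * a) ^ 2 = (a * b) ^ 2 + (b * a) ^ 2 := by
    rw [pow_two, pow_two, pow_two, add_mul, mul_add, mul_add, x1, x2, add_zero, zero_add]
  have s4 : (a * b + b * a) ^ 4 = 0 := by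
    have e1 : (a * b) ^ 2 * (a * b) ^ 2 = a * b * (a * b) * (a * b) * (a * b) := by noncomm_ring
    have e2 : (b * a) ^ 2 * (b * a) ^ 2 = b * (a * b * (a * b) * (a * b)) * a := by noncomm_ring
    have e3 : (a * b) ^ 2 * (b * a) ^ 2 = a * b * (a * b * (b * a)) * (b * a) := by noncomm_ring
    have e4 : (b * a) ^ 2 * (a * b) ^ 2 = b * a * (b * a * (a * b)) * (a * b) := by noncomm_ring
    rw [show 4 = 2 * 2 from rfl, pow_mul, s2, pow_two, add_mul, mul_add, mul_add, e1, e2, e3, e4,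
      hab, x1, x2]
    simp
  rw [show 2 ^ 3 = 2 * 2 * 2 from rfl, pow_mul, pow_mul, h3, sq, sq, ← pow_mul, hc.mul_pow, hs, s4]
  simp

end H64Q
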