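import Mathlib

/-! Colourings of a finite elementary abelian two-group with a free twist. -/

namespace H64Q

variable {F : Type*} [AddCommGroup F] {C : Type*}

theorem z2 (a : ZMod 2) : a = 0 ∨ a = 1 := by revert a; decide

theorem sep (h2 : ∀ t : F, t + t = 0) (Y : AddSubgroup F) (t : F) (ht : t ∉ Y) :
    ∃ l : F →+ ZMod 2, l t = 1 ∧ ∀ y, y ∈ Y → l y = 0 := by
  let _ : Module (ZMod 2) F := AddCommGroup.zmodModule (n := 2) (fun x => by rw [two_nsmul, h2])
  obtain ⟨f, hf, hf'⟩ := Submodule.exists_dual_map_eq_bot_of_notMem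
    (p := AddSubgroup.toZModSubmodule 2 Y) (x := t) ht inferInstance
  refine ⟨f.toAddMonoidHom, (z2 _).resolve_left hf, fun y hy => ?_⟩
  have : f y ∈ (AddSubgroup.toZModSubmodule 2 Y).map f := Submodule.mem_map_of_mem hy
  rw [hf'] at this
  exact this

theorem ex_one {l : F →+ ZMod 2} (hl : l ≠ 0) : ∃ t, l t = 1 := by
  by_contra h
  push Not at h
  exact hl (AddMonoidHom.ext fun t => (z2 _).resolve_right (h t))

theorem ex_both {l l' : F →+ ZMod 2} (hl : l ≠ 0) (hl' : l' ≠ 0) : ∃ t, l t = 1 ∧ l' t = 1 := by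
  obtain ⟨a, ha⟩ := ex_one hl
  obtain ⟨b, hb⟩ := ex_one hl'
  rcases z2 (l' a) with h | h
  · rcases z2 (l b) with h' | h'
    · exact ⟨a + b, by simp [ha, h'], by simp [hb, h]⟩
    · exact ⟨b, h', hb⟩
  · exact ⟨a, ha, h⟩

theorem ex_val {l l' : F →+ ZMod 2} (hl : l ≠ 0) (hl' : l' ≠ 0) (hne : l ≠ l') (a b : ZMod 2) :
    ∃ t, l t = a ∧ l' t = b := by
  obtain ⟨x, hx, hx'⟩ := ex_both hl hl'
  have : ∃ y, l y ≠ l' y := by
    by_contra h
    push Not at h
    exact hne (AddMonoidHom.ext h)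
  obtain ⟨y, hy⟩ := this
  have h0 : l 0 = 0 ∧ l' 0 = 0 := by simp
  have h1 : l (x + y) = 1 + l y ∧ l' (x + y) = 1 + l' y := by simp [hx, hx']
  have : ∀ u v a b : ZMod 2, u ≠ v → (0 = a ∧ 0 = b) ∨ (1 = a ∧ 1 = b) ∨ (u = a ∧ v = b) ∨
      (1 + u = a ∧ 1 + v = b) := by decide
  rcases this _ _ a b hy with h | h | h | h
  · exact ⟨0, by simp [← h.1], by simp [← h.2]⟩
  · exact ⟨x, hx.trans h.1, hx'.trans h.2⟩
  · exact ⟨y, h⟩
  · exact ⟨x + y, h1.1.trans h.1, h1.2.trans h.2⟩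

theorem comb {l l' f : F →+ ZMod 2} (hl : l ≠ 0) (hl' : l' ≠ 0)
    (hne : l ≠ l') (e : ZMod 2) (hf : ∀ t, l t = 1 → l' t = 1 → f t = e) :
    ∃ a b : ZMod 2, a + b = e ∧ ∀ t, f t = a * l t + b * l' t := by
  obtain ⟨x, hx, hx'⟩ := ex_val hl hl' hne 1 0
  obtain ⟨y, hy, hy'⟩ := ex_val hl hl' hne 0 1
  have hxy : f x + f y = e := by
    rw [← map_add]; exact hf _ (by simp [hx, hy]) (by simp [hx', hy'])
  refine ⟨f x, f y, hxy, fun t => ?_⟩
  have hz : ∀ a b c : ZMod 2, a + b = c → a = c + b := by decide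
  rcases z2 (l t) with h | h <;> rcases z2 (l' t) with h' | h'
  · have := hf (t + (x + y)) (by simp [hx, hy, h]) (by simp [hx', hy', h'])
    rw [map_add, map_add, hxy] at this
    simpa [h, h'] using this
  · have := hf (t + x) (by simp [hx, h]) (by simp [hx', h'])
    rw [map_add, ← hxy, add_comm (f x)] at this
    simpa [h, h'] using this
  · have := hf (t + y) (by simp [hy, h]) (by simp [hy', h'])
    rw [map_add, ← hxy] at this
    simpa [h, h'] using this
  · rw [hf t h h', h, h', mul_one, mul_one, hxy]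

/-- A colouring with a twist that moves the colour of every nonzero point. -/
structure Tw (c : F → C) (p : F ≃+ F) : Prop where
  h2 : ∀ t : F, t + t = 0
  fin : Finite F
  iff : ∀ t t', c (p t) = c (p t') ↔ c t = c t'
  free : ∀ t, t ≠ 0 → c (p t) ≠ c t

/-- Transport of a functional. -/
def tr (p : F ≃+ F) (l : F →+ ZMod 2) : F →+ ZMod 2 := l.comp p.symm.toAddMonoidHom

@[simp] theorem tr_apply (p : F ≃+ F) (l : F →+ ZMod 2) (t : F) : tr p l (p t) = l t := by
  simp [tr]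

theorem tr_ne (p : F ≃+ F) {l : F →+ ZMod 2} (hl : l ≠ 0) : tr p l ≠ 0 := by
  obtain ⟨t, ht⟩ := ex_one hl
  intro h
  have := tr_apply p l t
  rw [h, ht] at this
  simp at this

theorem tr_add (p : F ≃+ F) (l l' : F →+ ZMod 2) : tr p (l + l') = tr p l + tr p l' := by
  ext t; simp [tr]

variable {c : F → C} {p : F ≃+ F}

theorem Tw.nofix (h : Tw c p) {l : F →+ ZMod 2} (hl : l ≠ 0) : tr p l ≠ l := by
  intro he
  have := h.fin
  let q : F →+ F := p.toAddMonoidHom + AddMonoidHom.id F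
  have hq : Function.Injective q := by
    rw [injective_iff_map_eq_zero]
    intro t ht
    by_contra h0
    apply h.free t h0
    have h1 : p t + t = 0 := ht
    have : p t = t := by
      rw [← add_zero (p t), ← h.h2 t, ← add_assoc, h1, zero_add]
    rw [this]
  obtain ⟨t, ht⟩ := ex_one hl
  obtain ⟨s, rfl⟩ := Finite.surjective_of_injective hq t
  have h1 : l (p s + s) = 1 := ht
  have h3 : l (p s) = l s := by rw [← tr_apply p l s, he]
  rw [map_add, h3] at h1
  revert h1; generalize l s = a; revert a; decide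

theorem Tw.maj (h : Tw c p) {l : F →+ ZMod 2} (hl : l ≠ 0)
    (hm : ∀ t t', l t = 1 → l t' = 1 → c t = c t') : False := by
  obtain ⟨t, h1, h2⟩ := ex_both hl (tr_ne p hl)
  obtain ⟨s, rfl⟩ := p.surjective t
  rw [tr_apply] at h2
  apply h.free s _ (hm _ _ h1 h2)
  rintro rfl
  simp at h2

/-- The exceptional configuration: three monochromatic cosets of a subgroup of index four. -/
structure Tri (c : F → C) (p : F ≃+ F) (l m : F →+ ZMod 2) : Prop where
  l0 : l ≠ 0
  m0 : m ≠ 0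
  ne : l ≠ m
  col : ∀ t t', ¬ (l t = 0 ∧ m t = 0) → ¬ (l t' = 0 ∧ m t' = 0) →
    (c t = c t' ↔ l t = l t' ∧ m t = m t')
  t1 : tr p l = m
  t2 : tr p m = l + m

theorem Tw.typeQ_aux (h : Tw c p) {l m : F →+ ZMod 2} (hl : l ≠ 0) (hm : m ≠ 0) (hne : l ≠ m)
    (hq : ∀ t t', l t = 1 → l t' = 1 → m t = m t' → c t = c t')
    (hx : ∃ s, l s = 1 ∧ m s = 0 ∧ l (p s) = 1 ∧ m (p s) = 1) : Tri c p l m := by
  obtain ⟨s, hs1, hs2, hs3, hs4⟩ := hx
  obtain ⟨x0, hx0, hx0'⟩ := ex_val hl hm hne 1 0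
  obtain ⟨x1, hx1, hx1'⟩ := ex_val hl hm hne 1 1
  have nz : ∀ t, l t = 1 → t ≠ 0 := by rintro t ht rfl; simp at ht
  have c0 : ∀ t, l t = 1 → m t = 0 → c t = c x0 := fun t a b => hq _ _ a hx0 (b.trans hx0'.symm)
  have c1 : ∀ t, l t = 1 → m t = 1 → c t = c x1 := fun t a b => hq _ _ a hx1 (b.trans hx1'.symm)
  have h01 : c x0 ≠ c x1 := by
    intro he
    apply h.maj hl
    intro t t' a b
    rcases z2 (m t) with u | u <;> rcases z2 (m t') with v | v <;>
      simp [c0 t a, c1 t a, c0 t' b, c1 t' b, u, v, he]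
  have p0 : c (p x0) = c x1 := by
    rw [← c1 _ hs3 hs4, h.iff, c0 _ hs1 hs2]
  have p1 : c (p x1) ≠ c x1 := h.free _ (nz _ hx1)
  have d0 : ∀ t, tr p l t = 1 → tr p m t = 0 → c t = c x1 := by
    intro t a b
    obtain ⟨r, rfl⟩ := p.surjective t
    rw [tr_apply] at a b
    rw [← p0, h.iff, c0 r a b]
  have d1 : ∀ t, tr p l t = 1 → tr p m t = 1 → c t = c (p x1) := by
    intro t a b
    obtain ⟨r, rfl⟩ := p.surjective t
    rw [tr_apply] at a b
    rw [h.iff, c1 r a b]
  have hl1 := tr_ne p hl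
  have hll1 : l ≠ tr p l := (h.nofix hl).symm
  by_cases hA : c (p x1) = c x0
  · exfalso
    have hl2 := tr_ne p hl1
    have hl12 : tr p l ≠ tr p (tr p l) := (h.nofix hl1).symm
    have e1 : ∀ t, l t = 1 → tr p l t = 1 → (m + tr p m) t = 1 := by
      intro t a b
      rcases z2 (m t) with u | u <;> rcases z2 (tr p m t) with v | v
      · exact absurd ((c0 t a u).symm.trans (d0 t b v)) h01
      · simp [u, v]
      · simp [u, v]
      · exact absurd (((d1 t b v).trans hA).symm.trans (c1 t a u)) h01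
    have e2 : ∀ t, l t = 1 → tr p (tr p l) t = 1 → m t = tr p (tr p m) t := by
      intro t a b
      obtain ⟨r, rfl⟩ := p.surjective t
      rw [tr_apply] at b ⊢
      rcases z2 (m (p r)) with u | u <;> rcases z2 (tr p m r) with v | v
      · rw [u, v]
      · exfalso
        have := (h.iff _ _).2 ((d1 r b v).trans hA)
        rw [c0 _ a u, p0] at this
        exact h01 this
      · exfalso
        have := (h.iff _ _).2 (d0 r b v)
        rw [c1 _ a u, hA] at this
        exact h01 this.symm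
      · rw [u, v]
    obtain ⟨a, b, hab, hf⟩ := comb hl hl1 hll1 1 e1
    have hf' : ∀ t, tr p m t + tr p (tr p m) t = a * tr p l t + b * tr p (tr p l) t := by
      intro t
      obtain ⟨r, rfl⟩ := p.surjective t
      simpa using hf r
    have hf0 : ∀ t, m t + tr p m t = a * l t + b * tr p l t := fun t => by simpa using hf t
    have key : ∀ t, l t = 1 → tr p (tr p l) t = 1 → tr p l t = 1 := by
      intro t u v
      have i1 := hf0 t
      have i2 := hf' t
      have i3 := e2 t u v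
      rw [u] at i1
      rw [v, ← i3] at i2
      have : ∀ a b x y w : ZMod 2, a + b = 1 → x + y = a * 1 + b * w → y + x = a * w + b * 1 →
          w = 1 := by decide
      exact this _ _ _ _ _ hab i1 i2
    by_cases h02 : l = tr p (tr p l)
    · obtain ⟨t, u, v⟩ := ex_val hl hl1 hll1 1 0
      have := key t u (h02 ▸ u)
      rw [v] at this
      exact absurd this (by decide)
    · obtain ⟨a', b', hab', hg⟩ := comb hl hl2 h02 1 key
      have : ∀ a' b' : ZMod 2, a' + b' = 1 → (a' = 1 ∧ b' = 0) ∨ (a' = 0 ∧ b' = 1) := by decide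
      rcases this a' b' hab' with ⟨rfl, rfl⟩ | ⟨rfl, rfl⟩
      · exact hll1 (AddMonoidHom.ext fun t => by simp [hg t])
      · exact hl12 (AddMonoidHom.ext fun t => by simp [hg t])
  · have e : ∀ t, l t = 1 → tr p l t = 1 → m t = 1 ∧ tr p m t = 0 := by
      intro t a b
      rcases z2 (m t) with u | u <;> rcases z2 (tr p m t) with v | v
      · exact absurd ((c0 t a u).symm.trans (d0 t b v)) h01
      · exact absurd ((d1 t b v).symm.trans (c0 t a u)) hA
      · exact ⟨u, v⟩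
      · exact absurd ((d1 t b v).symm.trans (c1 t a u)) p1
    obtain ⟨a, b, hab, hf⟩ := comb hl hl1 hll1 1 (fun t u v => (e t u v).1)
    obtain ⟨a', b', hab', hf'⟩ := comb hl hl1 hll1 0 (fun t u v => (e t u v).2)
    have t1 : tr p l = m := by
      have : ∀ a' b' : ZMod 2, a' + b' = 1 → (a' = 1 ∧ b' = 0) ∨ (a' = 0 ∧ b' = 1) := by decide
      rcases this a b hab with ⟨rfl, rfl⟩ | ⟨rfl, rfl⟩
      · exact absurd (AddMonoidHom.ext fun t => by simp [hf t]) hne
      · exact AddMonoidHom.ext fun t => by simp [hf t]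
    have t2 : tr p m = l + m := by
      have : ∀ a' b' : ZMod 2, a' + b' = 0 → (a' = 0 ∧ b' = 0) ∨ (a' = 1 ∧ b' = 1) := by decide
      rcases this a' b' hab' with ⟨rfl, rfl⟩ | ⟨rfl, rfl⟩
      · exact absurd (AddMonoidHom.ext fun t => by simp [hf' t]) (tr_ne p hm)
      · exact AddMonoidHom.ext fun t => by simp [hf' t, t1]
    have c2 : ∀ t, l t = 0 → m t = 1 → c t = c (p x1) := fun t u v =>
      d1 t (by rw [t1, v]) (by rw [t2]; simp [u, v])
    refine ⟨hl, hm, hne, fun t t' n n' => ?_, t1, t2⟩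
    have hA' : c x0 ≠ c (p x1) := fun e => hA e.symm
    rcases z2 (l t) with u | u <;> rcases z2 (m t) with v | v <;>
      rcases z2 (l t') with u' | u' <;> rcases z2 (m t') with v' | v' <;>
      first
        | exact (n (And.intro u v)).elim
        | exact (n' (And.intro u' v')).elim
        | simp [c0 t, c1 t, c2 t, c0 t', c1 t', c2 t', u, v, u', v', h01, h01.symm, hA, hA', p1,
            p1.symm]

/-- The subgroup of the exceptional configuration. -/
def IsK (c : F → C) (p : F ≃+ F) (K : AddSubgroup F) : Prop :=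
  ∃ l m : F →+ ZMod 2, Tri c p l m ∧ ∀ t, t ∈ K ↔ l t = 0 ∧ m t = 0

theorem Tw.typeQ (h : Tw c p) {l m : F →+ ZMod 2} (hl : l ≠ 0) (hm : m ≠ 0) (hne : l ≠ m)
    (hq : ∀ t t', l t = 1 → l t' = 1 → m t = m t' → c t = c t') :
    IsK c p (l.ker ⊓ m.ker) := by
  obtain ⟨t, h1, h2⟩ := ex_both hl (tr_ne p hl)
  obtain ⟨s, rfl⟩ := p.surjective t
  rw [tr_apply] at h2
  have hs : s ≠ 0 := by rintro rfl; simp at h2
  have hne' : m (p s) ≠ m s := fun e => h.free s hs (hq _ _ h1 h2 e)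
  rcases z2 (m s) with u | u
  · refine ⟨l, m, h.typeQ_aux hl hm hne hq ⟨s, h2, u, h1, ?_⟩, fun t => by simp⟩
    exact (z2 _).resolve_left (u ▸ hne')
  · have v : m (p s) = 0 := (z2 _).resolve_right (u ▸ hne')
    refine ⟨l, l + m, h.typeQ_aux hl ?_ ?_ ?_ ⟨s, h2, ?_, h1, ?_⟩, fun t => ?_⟩
    · intro e
      have := DFunLike.congr_fun e (p s)
      simp [h1, v] at this
    · intro e
      have := DFunLike.congr_fun e s
      simp [u] at this
    · intro t t' a b e
      apply hq _ _ a b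
      simpa [a, b] using e
    · simp only [AddMonoidHom.add_apply, h2, u]; decide
    · simp [h1, v]
    · simp only [AddSubgroup.mem_inf, AddMonoidHom.mem_ker, AddMonoidHom.add_apply]
      constructor
      · rintro ⟨a, b⟩; simp [a, b]
      · rintro ⟨a, b⟩; exact ⟨a, by simpa [a] using b⟩

theorem IsK.le {K K' : AddSubgroup F} (h : IsK c p K) (h' : IsK c p K') : K' ≤ K := by
  obtain ⟨l, m, T, hK⟩ := h
  obtain ⟨l', m', T', hK'⟩ := h'
  intro k hk
  by_contra hkK
  rw [hK] at hkK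
  have hk' := (hK' k).1 hk
  have main : ∀ t, ¬ (l t = 0 ∧ m t = 0) → ¬ (l (t + k) = 0 ∧ m (t + k) = 0) → t ∈ K' := by
    intro t a b
    by_contra ht
    rw [hK'] at ht
    have h1 : c t = c (t + k) := by
      rw [T'.col t (t + k) ht (by simpa [hk'.1, hk'.2] using ht)]
      simp [hk'.1, hk'.2]
    rw [T.col t (t + k) a b] at h1
    apply hkK
    simpa using h1
  have : ∀ u v : ZMod 2, ¬ (u = 0 ∧ v = 0) → ∃ a b : ZMod 2, ¬ (a = 0 ∧ b = 0) ∧
      ¬ (a + u = 0 ∧ b + v = 0) ∧ ∀ x y : ZMod 2,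
        (¬ (x = 0 ∧ y = 0) ∧ ¬ (x + u = 0 ∧ y + v = 0)) ∨
        (¬ (x + a = 0 ∧ y + b = 0) ∧ ¬ (x + a + u = 0 ∧ y + b + v = 0)) := by
    intro u v huv
    refine ⟨v, u + v, ?_, ?_, fun x y => ?_⟩ <;> revert huv
    · revert u v; decide
    · revert u v; decide
    · rcases z2 u with rfl | rfl <;> rcases z2 v with rfl | rfl <;> revert x y <;> decide
  obtain ⟨a, b, h1, h2, h3⟩ := this _ _ hkK
  obtain ⟨w, rfl, rfl⟩ := ex_val T.l0 T.m0 T.ne a b
  have hw : w ∈ K' := main w h1 (by simpa using h2)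
  obtain ⟨t, ht⟩ := ex_one T'.l0
  have : t ∈ K' := by
    rcases h3 (l t) (m t) with ⟨u, v⟩ | ⟨u, v⟩
    · exact main t u (by simpa using v)
    · have := main (t + w) (by simpa using u) (by simpa using v)
      simpa using K'.sub_mem this hw
  rw [((hK' t).1 this).1] at ht
  exact absurd ht (by decide)

theorem IsK.unique {K K' : AddSubgroup F} (h : IsK c p K) (h' : IsK c p K') : K = K' :=
  le_antisymm (h'.le h) (h.le h')

/-- A subgroup of index at least four. -/
def Big (Y : AddSubgroup F) : Prop := ∃ a b, a ∉ Y ∧ b ∉ Y ∧ a + b ∉ Y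

theorem Tw.not_mono (h : Tw c p) (Y : AddSubgroup F) (a : F) (ha : a ∉ Y)
    (hm : ∀ t t', t ∉ Y → t' ∉ Y → c t = c t') : False := by
  obtain ⟨l, h1, h0⟩ := sep h.h2 Y a ha
  have hl : l ≠ 0 := by rintro rfl; simp at h1
  have : ∀ t, l t = 1 → t ∉ Y := fun t ht hY => by rw [h0 t hY] at ht; exact absurd ht (by decide)
  exact h.maj hl fun t t' u v => hm t t' (this t u) (this t' v)

theorem Tw.a2 (h : Tw c p) (Y : AddSubgroup F) (hY : Big Y) (f : F →+ ZMod 2) (hf : f ≠ 0)
    (hm : ∀ t t', t ∉ Y → t' ∉ Y → f t = f t' → c t = c t') : False := by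
  by_cases h0 : ∀ y, y ∈ Y → f y = 0
  · have : ∀ t, f t = 1 → t ∉ Y := fun t ht hY => by
      rw [h0 t hY] at ht; exact absurd ht (by decide)
    exact h.maj hf fun t t' u v => hm t t' (this t u) (this t' v) (u.trans v.symm)
  push Not at h0
  obtain ⟨y, hy, hfy⟩ := h0
  replace hfy := (z2 _).resolve_left hfy
  obtain ⟨a, b, ha, hb, hab⟩ := hY
  obtain ⟨l, h1, h0⟩ := sep h.h2 Y a ha
  have hl : l ≠ 0 := by rintro rfl; simp at h1
  have hout : ∀ t, l t = 1 → t ∉ Y := fun t ht hY => by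
    rw [h0 t hY] at ht; exact absurd ht (by decide)
  have hne : l ≠ f := by
    rintro rfl
    exact hout y hfy hy
  obtain ⟨l', m', T, hK⟩ := h.typeQ hl hf hne fun t t' u v => hm t t' (hout t u) (hout t' v)
  have fix1 : ∀ t, t ∉ Y → ∃ t', t' ∉ Y ∧ l t' = l t ∧ f t' = 1 := by
    intro t ht
    rcases z2 (f t) with u | u
    · refine ⟨t + y, fun e => ht (by simpa using Y.sub_mem e hy), by simp [h0 y hy], by simp [u, hfy]⟩
    · exact ⟨t, ht, rfl, u⟩
  have : ∃ t, t ∉ Y ∧ l t = 0 := by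
    rcases z2 (l b) with u | u
    · exact ⟨b, hb, u⟩
    · exact ⟨a + b, hab, by rw [map_add, h1, u]; decide⟩
  obtain ⟨t0, ht0, hl0⟩ := this
  obtain ⟨t, ht, u, v⟩ := fix1 t0 ht0
  obtain ⟨t', ht', u', v'⟩ := fix1 a ha
  have n : ∀ s, f s = 1 → ¬ (l' s = 0 ∧ m' s = 0) := fun s hs e => by
    have : f s = 0 := ((hK s).2 e).2
    rw [hs] at this
    exact absurd this (by decide)
  have e := (T.col t t' (n t v) (n t' v')).1 (hm t t' ht ht' (v.trans v'.symm))
  have : t + t' ∈ l.ker ⊓ f.ker := by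
    rw [hK, map_add, map_add, e.1, e.2]
    constructor <;> exact CharTwo.add_self_eq_zero _
  have : l (t + t') = 0 := this.1
  rw [map_add, u, hl0, u', h1] at this
  exact absurd this (by decide)

/-- If every colour class outside a subgroup of index at least four is affine, the subgroup is the
exceptional one. -/
theorem Tw.isK_of_affine (h : Tw c p) (Y : AddSubgroup F) (hY : Big Y)
    (haff : ∀ t0, ∃ (f : F →+ ZMod 2) (e : ZMod 2), ∀ t, t ∉ Y → (c t = c t0 ↔ f t = e)) :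
    IsK c p Y := by
  obtain ⟨a, b, ha, hb, hab⟩ := id hY
  obtain ⟨f1, e1, H1⟩ := haff a
  have : ∃ t, t ∉ Y ∧ c t ≠ c a := by
    by_contra hc
    push Not at hc
    exact h.not_mono Y a ha fun t t' u v => (hc t u).trans (hc t' v).symm
  obtain ⟨a2, ha2, hc2⟩ := this
  obtain ⟨f2, e2, H2⟩ := haff a2
  have i11 : f1 a = e1 := (H1 a ha).1 rfl
  have i12 : f1 a2 ≠ e1 := fun e => hc2 ((H1 a2 ha2).2 e)
  have i22 : f2 a2 = e2 := (H2 a2 ha2).1 rfl
  have i21 : f2 a ≠ e2 := fun e => hc2 ((H2 a ha).2 e).symm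
  have hf1 : f1 ≠ 0 := by rintro rfl; exact i12 i11
  have hf2 : f2 ≠ 0 := by rintro rfl; exact i21 i22
  by_cases hff : f1 = f2
  · exfalso
    subst hff
    apply h.a2 Y hY f1 hf1
    intro t t' u v e
    by_cases h1 : f1 t = e1
    · rw [(H1 t u).2 h1, (H1 t' v).2 (e ▸ h1)]
    · have h3 : f1 t = e2 := by
        have : ∀ x y e : ZMod 2, y ≠ e → ¬ x = e → x = y := by decide
        rw [← i22]
        exact this _ _ _ i12 h1
      rw [(H2 t u).2 h3, (H2 t' v).2 (e ▸ h3)]
  have hin : ∀ t, f1 t = e1 → f2 t = e2 → t ∈ Y := by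
    intro t u v
    by_contra ht
    exact hc2 (((H2 t ht).2 v).symm.trans ((H1 t ht).2 u))
  obtain ⟨w, hw1, hw2⟩ := ex_val hf1 hf2 hff e1 e2
  have hwY := hin w hw1 hw2
  have hK : ∀ t, f1 t = 0 → f2 t = 0 → t ∈ Y := by
    intro t u v
    have := hin (t + w) (by simp [u, hw1]) (by simp [v, hw2])
    simpa using Y.sub_mem this hwY
  have hK' : ∀ y, y ∈ Y → f1 y = 0 ∧ f2 y = 0 := by
    intro y hy
    by_contra hn
    have out : ∀ t, t ∉ Y → ¬ (f1 t = 0 ∧ f2 t = 0) ∧ ¬ (f1 t + f1 y = 0 ∧ f2 t + f2 y = 0) := by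
      intro t ht
      refine ⟨fun e => ht (hK t e.1 e.2), fun e => ht ?_⟩
      have := hK (t + y) (by rw [map_add, e.1]) (by rw [map_add, e.2])
      simpa using Y.sub_mem this hy
    have o1 := out a ha
    have o2 := out b hb
    have o3 := out _ hab
    rw [map_add, map_add] at o3
    revert o1 o2 o3 hn
    generalize f1 a = x1, f2 a = x2, f1 b = y1, f2 b = y2, f1 y = z1, f2 y = z2'
    rcases z2 x1 with rfl | rfl <;> rcases z2 x2 with rfl | rfl <;>
      rcases z2 y1 with rfl | rfl <;> rcases z2 y2 with rfl | rfl <;>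
      rcases z2 z1 with rfl | rfl <;> rcases z2 z2' with rfl | rfl <;> decide
  have he1 : e1 = 0 := hw1 ▸ (hK' w hwY).1
  have he2 : e2 = 0 := hw2 ▸ (hK' w hwY).2
  subst he1 he2
  have hl : f1 + f2 ≠ 0 := by
    intro e
    apply hff
    ext t
    have := DFunLike.congr_fun e t
    simp only [AddMonoidHom.add_apply, AddMonoidHom.zero_apply] at this
    revert this
    generalize f1 t = x, f2 t = y
    revert x y; decide
  have hne : f1 + f2 ≠ f1 := by
    intro e
    apply hf2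
    simpa using e
  have := h.typeQ hl hf1 hne (by
    intro t t' u v e
    simp only [AddMonoidHom.add_apply] at u v
    have n : ∀ s, f1 s + f2 s = 1 → s ∉ Y := fun s hs hY => by
      rw [(hK' s hY).1, (hK' s hY).2] at hs; exact absurd hs (by decide)
    rcases z2 (f1 t) with x | x
    · rw [(H1 t (n t u)).2 x, (H1 t' (n t' v)).2 (e ▸ x)]
    · have z : ∀ y : ZMod 2, 1 + y = 1 → y = 0 := by decide
      rw [(H2 t (n t u)).2 (z _ (x ▸ u)), (H2 t' (n t' v)).2 (z _ ((e ▸ x : f1 t' = 1) ▸ v))])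
  convert this using 1
  ext t
  simp only [AddSubgroup.mem_inf, AddMonoidHom.mem_ker, AddMonoidHom.add_apply]
  constructor
  · intro ht; simp [hK' t ht]
  · rintro ⟨u, v⟩; exact hK t v (by simpa [v] using u)

end H64Q
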