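import Mathlib

/-! The cycle lemma (Lemma U) and its corollary. -/

namespace H64U

variable {V : Type*} [AddCommGroup V]

/-- Walks in a graph whose nodes carry a vector; the walk records its length and its sum. -/
inductive W {P : Type*} (R : P → P → Prop) (x : P → V) : P → P → ℕ → V → Prop
  | nil (a : P) : W R x a a 0 (x a)
  | cons {a b c : P} {m : ℕ} {S : V} : R a b → W R x b c m S → W R x a c (m + 1) (x a + S)

section
variable {P : Type*} {R : P → P → Prop} {x : P → V}

theorem W.later {b c : P} {m : ℕ} {S : V} (h : W R x b c m S) (Z : AddSubgroup V) :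
    S - x b ∈ Z ∨ ∃ d m' S', m' < m ∧ x d ∉ Z ∧ W R x d c m' S' := by
  induction h with
  | nil a => left; simp
  | @cons a b c m S _ h ih =>
    by_cases hb : x b ∈ Z
    · rcases ih with h1 | ⟨d, m', S', h1, h2, h3⟩
      · left
        have := Z.add_mem h1 hb
        simpa using this
      · exact Or.inr ⟨d, m', S', by omega, h2, h3⟩
    · exact Or.inr ⟨b, m, S, by omega, hb, h⟩

theorem W.concat {a b c d : P} {m m' : ℕ} {S S' : V} (h : W R x a b m S) (hR : R b c)
    (h' : W R x c d m' S') : W R x a d (m + m' + 1) (S + S') := by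
  induction h with
  | nil a => simpa using W.cons hR h'
  | @cons a b e m S h1 _ ih =>
    have := W.cons h1 (ih hR)
    rw [show m + 1 + m' + 1 = m + m' + 1 + 1 by omega, add_assoc (x a)]
    exact this

variable {r : V → V → Prop}

theorem W.split (hr : Equivalence r) {a c : P} {m : ℕ} {S : V} (h : W R x a c m S)
    (hn : ¬ r (x a) (x c)) : ∃ b d m1 S1 m2 S2, W R x a b m1 S1 ∧ R b d ∧ W R x d c m2 S2 ∧
      m = m1 + m2 + 1 ∧ S = S1 + S2 ∧ r (x a) (x b) ∧ ¬ r (x b) (x d) := by
  induction h with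
  | nil a => exact absurd (hr.refl _) hn
  | @cons a b c m S h1 h ih =>
    by_cases hab : r (x a) (x b)
    · obtain ⟨b', d, m1, S1, m2, S2, w1, w2, w3, rfl, rfl, w4, w5⟩ :=
        ih fun e => hn (hr.trans hab e)
      exact ⟨b', d, m1 + 1, x a + S1, m2, S2, W.cons h1 w1, w2, w3, by omega, by rw [add_assoc],
        hr.trans hab w4, w5⟩
    · exact ⟨a, b, 0, x a, m, S, W.nil a, h1, h, by omega, rfl, hr.refl _, hab⟩

variable (hr : Equivalence r) (Z : P → AddSubgroup V) (hR : ∀ a b, R a b ↔ x b ∉ Z a)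
  (hM : ∀ a u, u ∉ Z a → r u (u + x a))
include hr hR hM

theorem W.good {a c : P} {m : ℕ} {S : V} (h : W R x a c m S) :
    r S (x c) ∨ ∃ m' S', m' < m ∧ W R x a c m' S' := by
  induction h with
  | nil a => exact Or.inl (hr.refl _)
  | @cons a b c m S h1 h ih =>
    rcases ih with h2 | ⟨m', S', h2, h3⟩
    · rcases h.later (Z a) with h3 | ⟨d, m', S', h3, h4, h5⟩
      · left
        have : S ∉ Z a := fun e => (hR a b).1 h1 (by simpa using (Z a).sub_mem e h3)
        rw [add_comm]
        exact hr.trans (hr.symm (hM a S this)) h2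
      · exact Or.inr ⟨m' + 1, _, by omega, W.cons ((hR a d).2 h4) h5⟩
    · exact Or.inr ⟨m' + 1, _, by omega, W.cons h1 h3⟩

theorem W.closed (m : ℕ) : ∀ {a c : P} {S : V}, W R x a c m S → R c a → r (x a) (x c) := by
  induction m using Nat.strong_induction_on with
  | _ m ih =>
    intro a c S h hc
    by_contra hn
    rcases h.good hr Z hR hM with h1 | ⟨m', S', h1, h2⟩
    · obtain ⟨b, d, m1, S1, m2, S2, w1, w2, w3, rfl, rfl, w4, w5⟩ := h.split hr hn
      rcases (w3.concat hc w1).good hr Z hR hM with h2 | ⟨m', S', h2, h3⟩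
      · rw [add_comm] at h2
        exact hn (hr.trans w4 (hr.trans (hr.symm h2) h1))
      · exact w5 (hr.symm (ih m' (by omega) h3 w2))
    · exact hn (ih m' h1 h2 hc)

end

/-- Lemma U. -/
theorem lemU [Finite V] {r : V → V → Prop} (hr : Equivalence r) (g : V ≃+ V)
    (hg : ∀ u v, r u v → r (g u) (g v)) (A Z : AddSubgroup V)
    (hM : ∀ u, u ∉ Z → ∀ t, t ∈ A → r u (u + t)) (x : V) (hx : x ∈ A) (hgx : g x ∉ Z) :
    r (g x) x := by
  let e : Equiv.Perm V := g.toEquiv
  have he : ∀ u, e u = g u := fun _ => rfl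
  have hpow : ∀ n : ℕ, ∀ u v, r u v → r ((e ^ n) u) ((e ^ n) v) := by
    intro n
    induction n with
    | zero => intro u v h; simpa using h
    | succ n ih => intro u v h; rw [pow_succ']; exact hg _ _ (ih u v h)
  have hadd : ∀ n : ℕ, ∀ u v, (e ^ n) (u + v) = (e ^ n) u + (e ^ n) v := by
    intro n
    induction n with
    | zero => intro u v; simp
    | succ n ih =>
      intro u v
      rw [pow_succ']
      simp only [Equiv.Perm.mul_apply, ih, he, map_add]
  let Zs : ℕ → AddSubgroup V := fun n => Z.map (AddMonoidHom.mk' (e ^ n) (hadd n))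
  let xs : ℕ → V := fun n => (e ^ n) x
  let R : ℕ → ℕ → Prop := fun a b => xs b ∉ Zs a
  have hZ : ∀ (n : ℕ) (u : V), (e ^ n) u ∈ Zs n ↔ u ∈ Z := fun n u =>
    AddSubgroup.mem_map_iff_mem (f := AddMonoidHom.mk' (e ^ n) (hadd n)) (e ^ n).injective
  have hM' : ∀ a u, u ∉ Zs a → r u (u + xs a) := by
    intro a u hu
    obtain ⟨w, rfl⟩ := (e ^ a).surjective u
    have := hpow a _ _ (hM w (fun h => hu ((hZ a w).2 h)) x hx)
    rwa [hadd] at this
  have hstep : ∀ a, R a (a + 1) := by
    intro a h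
    apply hgx
    have h' : (e ^ a) (g x) ∈ Zs a := by
      have : xs (a + 1) = (e ^ a) (g x) := by simp only [xs, pow_succ]; rfl
      rwa [this] at h
    exact (hZ a _).1 h'
  have hw : ∀ k, ∃ S, W R xs 1 (k + 1) k S := by
    intro k
    induction k with
    | zero => exact ⟨_, W.nil 1⟩
    | succ k ih =>
      obtain ⟨S, h⟩ := ih
      exact ⟨_, h.concat (hstep _) (W.nil _)⟩
  obtain ⟨k, hk⟩ : ∃ k, e ^ (k + 1) = 1 :=
    ⟨orderOf e - 1, by rw [Nat.sub_add_cancel (orderOf_pos e), pow_orderOf_eq_one]⟩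
  obtain ⟨S, h⟩ := hw k
  have hc : R (k + 1) 1 := by
    intro h
    apply hgx
    rw [← hZ (k + 1)]
    have h1 : (e ^ (k + 1)) (g x) = xs 1 := by rw [hk]; simp [xs, he]
    rwa [h1]
  have := W.closed hr Zs (fun _ _ => Iff.rfl) hM' k h hc
  simpa [xs, hk, he] using this

/-- Corollary: the closed subgroup generated by `A` is proper. -/
theorem corU [Finite V] {r : V → V → Prop} (hr : Equivalence r)
    (horb : ∀ u v, r u v → ∃ g : V ≃+ V, g u = v ∧ ∀ w, r w (g w))
    (p : V ≃+ V) (hp : ∀ u v, r u v → r (p u) (p v))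
    (hfix : ∀ x, r (p x) x → ∀ y, r x y → y = x)
    (A Z : AddSubgroup V) (hAZ : A ≤ Z) (hZ : Z ≠ ⊤)
    (hM : ∀ u, u ∉ Z → ∀ t, t ∈ A → r u (u + t)) :
    ∃ U : AddSubgroup V, U ≠ ⊤ ∧ A ≤ U ∧ ∀ u v, u ∈ U → r u v → v ∈ U := by
  refine ⟨AddSubgroup.closure {v | ∃ x, x ∈ A ∧ r x v}, ?_, fun x hx =>
    AddSubgroup.subset_closure ⟨x, hx, hr.refl x⟩, ?_⟩
  · intro htop
    apply hZ
    have : AddSubgroup.closure {v | ∃ x, x ∈ A ∧ r x v} ≤ Z.comap p.toAddMonoidHom := by
      rw [AddSubgroup.closure_le]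
      rintro v ⟨x, hx, hxv⟩
      obtain ⟨g, rfl, hg⟩ := horb x v hxv
      by_contra hn
      have h1 : r (p (g x)) x := lemU hr (g.trans p)
        (fun u v h => hp _ _ (hr.trans (hr.symm (hg u)) (hr.trans h (hg v)))) A Z hM x hx hn
      have h2 : r (p x) x := hr.trans (hp _ _ hxv) h1
      apply hn
      change p (g x) ∈ Z
      rw [hfix x h2 _ (hr.symm h1)]
      exact hAZ hx
    rw [htop, top_le_iff] at this
    rw [eq_top_iff]
    intro v _
    obtain ⟨w, rfl⟩ := p.surjective v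
    have h3 : w ∈ Z.comap p.toAddMonoidHom := by rw [this]; trivial
    exact h3
  · intro u v hu huv
    obtain ⟨g, rfl, hg⟩ := horb u v huv
    clear huv
    induction hu using AddSubgroup.closure_induction with
    | mem w hw =>
      obtain ⟨x, hx, hxw⟩ := hw
      exact AddSubgroup.subset_closure ⟨x, hx, hr.trans hxw (hg w)⟩
    | zero => simp
    | add a b _ _ ha hb => rw [map_add]; exact add_mem ha hb
    | neg a _ ha => rw [map_neg]; exact neg_mem ha

end H64U
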