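import Pool.Agent.Lib.MP_346d6a_co.H64C

/-! The three uses of the index-two cycle lemma. -/

namespace H64Q

section Trace

variable {F : Type*} [Field F] [Finite F] [Algebra (ZMod 2) F]

omit [Finite F] in
theorem self_add (t : F) : t + t = 0 := by
  have : (2 : F) = 0 := by
    rw [← map_ofNat (algebraMap (ZMod 2) F) 2]
    exact map_zero _
  rw [← two_mul, this, zero_mul]

/-- The functional attached to a field element by the trace form. -/
noncomputable def tf (x : F) : F →+ ZMod 2 :=
  (Algebra.trace (ZMod 2) F).toAddMonoidHom.comp (AddMonoidHom.mulLeft x)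

omit [Finite F] in
theorem tf_apply (x w : F) : tf x w = Algebra.trace (ZMod 2) F (x * w) := rfl

omit [Finite F] in
theorem tf_add (x y : F) : tf (x + y) = tf x + tf y := by
  ext w; simp [tf_apply, add_mul]

omit [Finite F] in
theorem tf_zero : tf (0 : F) = 0 := by
  ext w; simp [tf_apply]

theorem tf_eq_zero {x : F} (h : tf x = 0) : x = 0 := by
  have : Fact (Nat.Prime 2) := ⟨Nat.prime_two⟩
  exact (traceForm_nondegenerate (ZMod 2) F).1 x fun w => DFunLike.congr_fun h w

theorem tf_inj {x y : F} (h : tf x = tf y) : x = y := by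
  have : tf (x + y) = 0 := by
    rw [tf_add, h]
    ext w
    exact CharTwo.add_self_eq_zero _
  have h1 := tf_eq_zero this
  rw [← add_zero x, ← self_add y, ← add_assoc, h1, zero_add]

theorem tf_surj (l : F →+ ZMod 2) : ∃ x, tf x = l := by
  have : Fact (Nat.Prime 2) := ⟨Nat.prime_two⟩
  obtain ⟨x, hx⟩ := ((Algebra.traceForm (ZMod 2) F).toDual
    (traceForm_nondegenerate (ZMod 2) F)).surjective (l.toZModLinearMap 2)
  exact ⟨x, AddMonoidHom.ext fun w => DFunLike.congr_fun hx w⟩

omit [Finite F] in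
theorem trace_sig (sig : F ≃+* F) (x : F) :
    Algebra.trace (ZMod 2) F (sig x) = Algebra.trace (ZMod 2) F x :=
  Algebra.trace_eq_of_algEquiv (AlgEquiv.ofRingEquiv (f := sig) fun r =>
    DFunLike.congr_fun (RingHom.ext_zmod (sig.toRingHom.comp (algebraMap (ZMod 2) F))
      (algebraMap (ZMod 2) F)) r) x

omit [Finite F] in
theorem tr_tf {p : F ≃+ F} {del : F} {sig : F ≃+* F} (hd : del ≠ 0)
    (hp : ∀ w, p w = del * sig w) (r : F) : tr p (tf r) = tf (sig r / del) := by
  ext t
  obtain ⟨w, rfl⟩ := p.surjective t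
  rw [tr_apply, hp, tf_apply, tf_apply, ← trace_sig sig, map_mul]
  congr 1
  field_simp

/-- The annihilator of the exceptional subgroup is a line over the field with four elements. -/
theorem tri_rel {C : Type*} {c : F → C} {p : F ≃+ F} (h : Tw c p) {del : F} {sig : F ≃+* F}
    (hd : del ≠ 0) (hp : ∀ w, p w = del * sig w) {r1 r2 : F} (T : Tri c p (tf r1) (tf r2)) :
    r1 ^ 2 + r1 * r2 + r2 ^ 2 = 0 := by
  have two : (2 : F) = 0 := by rw [← one_add_one_eq_two, self_add]
  have h1 : r1 ≠ 0 := by rintro rfl; exact T.l0 tf_zero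
  have h2 : r2 ≠ 0 := by rintro rfl; exact T.m0 tf_zero
  have h3 : r1 + r2 ≠ 0 := fun e => T.ne (by
    rw [show r1 = r2 by linear_combination e - r2 * two])
  have e1 : sig r1 = del * r2 := by
    have := T.t1
    rw [tr_tf hd hp] at this
    rw [← tf_inj this]
    field_simp
  have e2 : sig r2 = del * (r1 + r2) := by
    have := T.t2
    rw [tr_tf hd hp, ← tf_add] at this
    rw [← tf_inj this]
    field_simp
  have e3 : sig (r1 + r2) = del * r1 := by
    rw [map_add, e1, e2]
    linear_combination del * r2 * two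
  by_contra hn
  have hy : tf (r2 ^ 2 / r1 + (r1 + r2) ^ 2 / r2 + r1 ^ 2 / (r1 + r2)) ≠ 0 := by
    intro e
    have e' := tf_eq_zero e
    field_simp at e'
    apply hn
    apply pow_eq_zero_iff (n := 2) two_ne_zero |>.1
    linear_combination e' - (r1 ^ 3 * r2 + 0 * r1 * r2 ^ 3) * two
  apply h.nofix hy
  rw [tr_tf hd hp]
  congr 1
  rw [map_add, map_add, map_div₀, map_div₀, map_div₀, map_pow, map_pow, map_pow, e1, e2, e3]
  field_simp
  ring

end Trace

variable {V : Type*} [AddCommGroup V] {C : Type*} {F : Type*} [Field F] [Algebra (ZMod 2) F]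
  {k : Type*} [Field k] [Algebra F k]

/-- The hypotheses of the index-two cycle lemma. -/
structure Hyp (col : V → C) (pi : V ≃+ V) (io : F →+ V) (m z : V →+ k) (del : F)
    (sig : F ≃+* F) : Prop where
  h2 : ∀ v : V, v + v = 0
  horb : ∀ u v, col u = col v → ∃ g : V ≃+ V, (∀ w, col (g w) = col w) ∧ g u = v
  hpi : ∀ u v, col u = col v → col (pi u) = col (pi v)
  hm : ∀ w, m (io w) = 0
  hz : ∀ w, z (io w) = 0
  hsig : ∀ w, pi (io w) = io (del * sig w)
  H0 : ∀ w, w ≠ 0 → col (pi (io w)) ≠ col (io w)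
  hM : ∀ u h, (m u ≠ 0 ∨ z u ≠ 0) → (∀ r : F, z u = algebraMap F k r * m u ^ 2 → m u ≠ 0 →
    Algebra.trace (ZMod 2) F (r * h) = 0) → col (u + io h) = col u

open Classical in
/-- The ratio, when it lies in the small field. -/
noncomputable def rho (F : Type*) [Field F] [Algebra F k] (a b : k) : F :=
  if h : ∃ r : F, a ≠ 0 ∧ b = algebraMap F k r * a ^ 2 then h.choose else 0

omit [Algebra (ZMod 2) F] in
theorem rho_spec (a b : k) : rho F a b = 0 ∨ (a ≠ 0 ∧ b = algebraMap F k (rho F a b) * a ^ 2) := by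
  unfold rho
  split_ifs with h
  · exact Or.inr h.choose_spec
  · exact Or.inl rfl

omit [Algebra (ZMod 2) F] in
theorem rho_eq {a b : k} {r : F} (ha : a ≠ 0) (hb : b = algebraMap F k r * a ^ 2) :
    rho F a b = r := by
  have h : ∃ r : F, a ≠ 0 ∧ b = algebraMap F k r * a ^ 2 := ⟨r, ha, hb⟩
  unfold rho
  rw [dif_pos h]
  apply (algebraMap F k).injective
  exact mul_right_cancel₀ (pow_ne_zero 2 ha) (h.choose_spec.2.symm.trans hb)

theorem two_k (F : Type*) [Field F] [Algebra (ZMod 2) F] (k : Type*) [Field k] [Algebra F k] :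
    (2 : k) = 0 := by
  rw [← one_add_one_eq_two, ← map_one (algebraMap F k), ← map_add, self_add, map_zero]

/-- The additive polynomial attached to a pair. -/
noncomputable def ph (F : Type*) [Field F] [Algebra (ZMod 2) F] [Algebra F k] (a b : k) :
    F →+ k :=
  AddMonoidHom.mk' (fun w => (algebraMap F k w * a) ^ 2 + algebraMap F k w * b) fun v w => by
    rw [map_add]
    linear_combination (algebraMap F k v * algebraMap F k w * a ^ 2) * two_k F k

theorem ph_apply (a b : k) (w : F) :
    ph F a b w = (algebraMap F k w * a) ^ 2 + algebraMap F k w * b := rfl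

theorem ph_root {a b : k} (hab : a ≠ 0 ∨ b ≠ 0) {w w' : F} (hw : w ≠ 0) (hw' : w' ≠ 0)
    (h : ph F a b w = 0) (h' : ph F a b w' = 0) : w = w' := by
  rw [ph_apply] at h h'
  have e : algebraMap F k w * a ^ 2 + b = 0 :=
    mul_left_cancel₀ ((map_ne_zero (algebraMap F k)).2 hw) (by linear_combination h)
  have e' : algebraMap F k w' * a ^ 2 + b = 0 :=
    mul_left_cancel₀ ((map_ne_zero (algebraMap F k)).2 hw') (by linear_combination h')
  have ha : a ≠ 0 := by
    rintro rfl
    simp_all
  apply (algebraMap F k).injective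
  exact mul_right_cancel₀ (pow_ne_zero 2 ha) (by linear_combination e - e')

theorem exists_X [Finite F] (m z : V →+ k) (t : k →+ ZMod 2) :
    ∃ X : V →+ F, ∀ u w, tf (X u) w = t (ph F (m u) (z u) w) := by
  choose X hX using fun u => tf_surj (t.comp (ph F (m u) (z u)))
  refine ⟨AddMonoidHom.mk' X fun u v => tf_inj ?_, fun u w => DFunLike.congr_fun (hX u) w⟩
  rw [tf_add, hX, hX, hX]
  ext w
  simp only [AddMonoidHom.comp_apply, AddMonoidHom.add_apply, ph_apply, ← map_add t, map_add m,
    map_add z]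
  congr 1
  linear_combination (algebraMap F k w ^ 2 * m u * m v) * two_k F k

variable {col : V → C} {pi : V ≃+ V} {io : F →+ V} {m z : V →+ k} {del : F} {sig : F ≃+* F}

theorem Hyp.del_ne (H : Hyp col pi io m z del sig) : del ≠ 0 := by
  intro e
  have h1 : pi (io 1) = 0 := by rw [H.hsig, e]; simp
  apply H.H0 1 one_ne_zero
  rw [h1, (map_eq_zero_iff pi pi.injective).1 h1]

theorem Hyp.inj (H : Hyp col pi io m z del sig) {w : F} (h : io w = 0) : w = 0 := by
  by_contra hw
  apply H.H0 w hw
  rw [h, map_zero]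

theorem Hyp.iff [Finite V] (H : Hyp col pi io m z del sig) (u v : V) :
    col (pi u) = col (pi v) ↔ col u = col v := by
  refine ⟨fun h => ?_, H.hpi u v⟩
  let e : Equiv.Perm V := pi.toEquiv
  have hpow : ∀ n : ℕ, col ((e ^ (n + 1)) u) = col ((e ^ (n + 1)) v) := by
    intro n
    induction n with
    | zero => rw [zero_add, pow_one]; exact h
    | succ n ih => rw [pow_succ']; exact H.hpi _ _ ih
  have := hpow (orderOf e - 1)
  rwa [Nat.sub_add_cancel (orderOf_pos e), pow_orderOf_eq_one] at this

/-- The datum attached to the hypotheses. -/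
noncomputable def Hyp.dat [Finite V] [Finite F] (H : Hyp col pi io m z del sig) : Dat F col where
  io := io
  p := { toFun := fun w => del * sig w
         invFun := fun w => sig.symm (w / del)
         left_inv := fun w => by simp [H.del_ne]
         right_inv := fun w => by simp [mul_div_cancel₀ _ H.del_ne]
         map_add' := fun v w => by rw [map_add, mul_add] }
  tw := ⟨self_add, inferInstance, fun t t' => by
    change col (io (del * sig t)) = col (io (del * sig t')) ↔ _
    rw [← H.hsig, ← H.hsig, H.iff], fun t ht => by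
    change col (io (del * sig t)) ≠ _
    rw [← H.hsig]
    exact H.H0 t ht⟩
  Z := m.ker ⊓ z.ker
  hio w := ⟨H.hm w, H.hz w⟩
  lam u := tf (rho F (m u) (z u))
  hlam u y hy := by
    have h1 : m y = 0 := hy.1
    have h2 : z y = 0 := hy.2
    rw [map_add, map_add, h1, h2, add_zero, add_zero]
  hM u hu h hh := H.hM u h (not_and_or.1 hu) fun r hr ha => by
    rw [← rho_eq ha hr]
    exact hh

variable [Finite V] [Finite F]

theorem Hyp.xx (H : Hyp col pi io m z del sig) (t : k →+ ZMod 2) (X : V →+ F)
    (hX : ∀ u w, tf (X u) w = t (ph F (m u) (z u) w))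
    (hgood : ∀ K, IsK (fun w => col (io w)) H.dat.p K → ∀ u, H.dat.lam u ≠ 0 →
      (∀ h, h ∈ K → H.dat.lam u h = 0) → X u ∈ K) : H.dat.XX X := by
  refine ⟨fun u hu => tf_eq_zero (AddMonoidHom.ext fun w => ?_), fun u _ => ?_,
    fun K hK u _ => hgood K hK u⟩
  · have h1 : m u = 0 := hu.1
    have h2 : z u = 0 := hu.2
    rw [hX, ph_apply, h1, h2]
    simp
  · change tf (rho F (m u) (z u)) (X u) = 0
    rw [tf_apply, mul_comm, ← tf_apply, hX, ph_apply]
    rcases rho_spec (F := F) (m u) (z u) with h | ⟨-, h⟩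
    · simp [h]
    · generalize rho F (m u) (z u) = r at h
      rw [← map_zero t]
      congr 1
      rw [h]
      linear_combination (algebraMap F k r * m u) ^ 2 * two_k F k

theorem Hyp.noQ (H : Hyp col pi io m z del sig)
    (hgood : ∀ K, IsK (fun w => col (io w)) H.dat.p K → ∀ u, H.dat.lam u = 0) :
    ∃ U : AddSubgroup V, Inv col U ∧ io.range ≤ U ∧ U ≤ m.ker ⊓ z.ker := by
  let U : AddSubgroup V := AddSubgroup.closure {v | ∃ w, col v = col (io w)}
  have hmap : ∀ g : V ≃+ V, (∀ v w, col v = col (io w) → ∃ w', col (g v) = col (io w')) →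
      ∀ u, u ∈ U → g u ∈ U := by
    intro g hg u hu
    induction hu using AddSubgroup.closure_induction with
    | mem x hx =>
      obtain ⟨w, hw⟩ := hx
      exact AddSubgroup.subset_closure (hg x w hw)
    | zero => simp
    | add a b _ _ ha hb => rw [map_add]; exact add_mem ha hb
    | neg a _ ha => rw [map_neg]; exact neg_mem ha
  have hU : Inv col U := by
    intro u hu v e
    obtain ⟨g, hg, rfl⟩ := H.horb u v e.symm
    exact hmap g (fun v w h => ⟨w, (hg v).trans h⟩) u hu
  refine ⟨U, hU, ?_, fun u hu => ?_⟩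
  · rintro _ ⟨w, rfl⟩
    exact AddSubgroup.subset_closure ⟨w, rfl⟩
  by_contra hn
  have hne : U ≠ ⊥ := by
    intro e
    rw [e, AddSubgroup.mem_bot] at hu
    exact hn (hu ▸ zero_mem _)
  apply (Sub.lt (F := F) H.h2 hU hne).2
  change U ≤ Sub F col U
  have hall : ∀ w, io w ∈ Sub F col U := by
    intro w
    by_contra hw
    obtain ⟨l, h1, h0⟩ := sep self_add ((Sub F col U).comap io) w hw
    have key : ∀ x : F, (∀ y, io y ∈ Sub F col U → tf x y = 0) → ph F (m u) (z u) x = 0 := by
      intro x hx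
      by_contra hp
      obtain ⟨t, t1, -⟩ := sep (fun a : k => by linear_combination a * two_k F k) ⊥ _
        (by simpa using hp)
      obtain ⟨X, hX⟩ := exists_X (F := F) m z t
      have hA : Adm F col (io.comp X) :=
        ⟨H.dat, X, H.xx t X hX fun K hK v hv => absurd (hgood K hK v) hv, fun _ => rfl⟩
      have := hx _ (Sub.mem hA hu)
      rw [tf_apply, mul_comm, ← tf_apply, hX, t1] at this
      exact absurd this (by decide)
    obtain ⟨x, rfl⟩ := tf_surj l
    obtain ⟨x', hx'⟩ := tf_surj ((tf x).comp H.dat.p.toAddMonoidHom)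
    have e : tr H.dat.p (tf x') = tf x := by
      ext a
      obtain ⟨b, rfl⟩ := H.dat.p.surjective a
      rw [tr_apply, hx']
      rfl
    have hx0 : x ≠ 0 := by
      rintro rfl
      simp [tf_zero] at h1
    have hx1 : x' ≠ 0 := by
      rintro rfl
      apply hx0
      apply tf_eq_zero
      rw [← e, tf_zero]
      rfl
    have := ph_root (not_and_or.1 hn) hx0 hx1 (key x h0) (key x' fun y hy => by
      rw [hx']
      apply h0
      change io (del * sig y) ∈ Sub F col U
      rw [← H.hsig]
      exact Sub.map pi H.iff (hmap pi fun v w h => ⟨_, by rw [H.hpi _ _ h, H.hsig]⟩) _ hy)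
    subst this
    exact H.dat.tw.nofix (fun h => hx0 (tf_eq_zero h)) e
  rw [AddSubgroup.closure_le]
  rintro v ⟨w, hw⟩
  exact Sub.inv H.horb hU _ (hall w) v hw

/-- Use A. -/
theorem Hyp.useA (H : Hyp col pi io m z del sig) (h : m = 0 ∨ z = 0) :
    ∃ U : AddSubgroup V, Inv col U ∧ io.range ≤ U ∧ U ≤ m.ker ⊓ z.ker := by
  apply H.noQ
  intro K _ u
  change tf (rho F (m u) (z u)) = 0
  rcases rho_spec (F := F) (m u) (z u) with h1 | ⟨h1, h2⟩
  · rw [h1, tf_zero]
  · rcases h with rfl | rfl
    · exact absurd rfl h1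
    · rw [rho_eq (r := 0) h1 (by simp), tf_zero]

/-- Use B. -/
theorem Hyp.useB (H : Hyp col pi io m z del sig) (mu : F) (hmu : mu ≠ 1)
    (hg : ∀ w, col (io (mu * w)) = col (io w)) :
    ∃ U : AddSubgroup V, Inv col U ∧ io.range ≤ U ∧ U ≤ m.ker ⊓ z.ker := by
  apply H.noQ
  intro K hK
  exfalso
  have hmu1 : 1 + mu ≠ 0 := fun e => hmu (by linear_combination e - self_add (1 : F))
  have hmu0 : mu ≠ 0 := by
    rintro rfl
    apply H.H0 1 one_ne_zero
    rw [H.hsig, ← hg, ← hg 1, zero_mul, zero_mul]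
  obtain ⟨l, l2, T, hK'⟩ := id hK
  have hsurj : ∀ (a : F), a ≠ 0 → ∀ f g : F →+ ZMod 2, (∀ t, f (a * t) = g (a * t)) → f = g :=
    fun a ha f g h => AddMonoidHom.ext fun t => by
      have := h (t / a)
      rwa [mul_div_cancel₀ _ ha] at this
  let a : F →+ ZMod 2 := l.comp (AddMonoidHom.mulLeft (1 + mu))
  have ha : ∀ t, a t = l t + l (mu * t) := fun t => by
    rw [← map_add]
    change l ((1 + mu) * t) = _
    rw [add_mul, one_mul]
  have ha0 : a ≠ 0 := fun e => T.l0 (hsurj _ hmu1 l 0 fun t => DFunLike.congr_fun e t)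
  have hal : a ≠ l := fun e => T.l0 (hsurj _ hmu0 l 0 fun t => by
    have := ha t
    rw [e] at this
    simpa using this)
  obtain ⟨x, y, hxy, hf⟩ := comb (f := l2.comp (AddMonoidHom.mulLeft mu)) ha0 T.l0 hal 0 (by
    intro t h1 h2
    have ht : t ∉ K := fun e => by
      rw [((hK' t).1 e).1] at h2
      exact absurd h2 (by decide)
    by_contra hn
    have hmt : mu * t ∉ K := fun e => hn ((hK' _).1 e).2
    have := ((hK' _).1 ((hK.col ht hmt).1 (hg t).symm)).1
    rw [map_add, ← ha, h1] at this
    exact absurd this (by decide))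
  have hf' : ∀ t, l2 (mu * t) = x * l (mu * t) := fun t => by
    have h1 : l2 (mu * t) = x * a t + y * l t := hf t
    rw [h1, ha]
    linear_combination l t * hxy
  rcases z2 x with rfl | rfl
  · exact T.m0 (hsurj _ hmu0 l2 0 fun t => by simp [hf'])
  · exact T.ne (hsurj _ hmu0 l l2 fun t => by simp [hf'])

/-- Use C. -/
theorem Hyp.useC (H : Hyp col pi io m z del sig) (kap : k) (S : Finset k)
    (hS : ∀ u, ∃ s, s ∈ S ∧ z u = kap * s) (hcard : 2 * S.card ^ 2 < Nat.card F) :
    ∃ U : AddSubgroup V, Inv col U ∧ U ≤ m.ker ⊓ z.ker ∧ ∃ w, w ≠ 0 ∧ io w ∈ U := by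
  classical
  by_cases hQ : ¬ ∃ K, IsK (fun w => col (io w)) H.dat.p K
  · obtain ⟨U, h1, h2, h3⟩ := H.noQ fun K hK => absurd ⟨K, hK⟩ hQ
    exact ⟨U, h1, h3, 1, one_ne_zero, h2 ⟨1, rfl⟩⟩
  obtain ⟨K0, hK0⟩ := not_not.1 hQ
  obtain ⟨l, l2, T, hK'⟩ := id hK0
  obtain ⟨r1, rfl⟩ := tf_surj l
  obtain ⟨r2, rfl⟩ := tf_surj l2
  have hrel := congrArg (algebraMap F k) (tri_rel H.dat.tw H.del_ne (fun _ => rfl) T)
  simp only [map_add, map_mul, map_pow, map_zero] at hrel
  let th : V × V →+ k := ((AddMonoidHom.mulLeft (algebraMap F k r1)).comp z).coprod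
    ((AddMonoidHom.mulLeft (algebraMap F k r2)).comp z)
  have hth : ∀ a b, algebraMap F k r1 * z a + algebraMap F k r2 * z b ∈ th.range :=
    fun a b => ⟨(a, b), rfl⟩
  have hadm : ∀ u, u ∉ m.ker ⊓ z.ker → ∃ X : V →+ F, H.dat.XX X ∧ X u ≠ 0 := by
    intro u hu
    have : ∃ w, ph F (m u) (z u) w ∉ th.range := by
      by_contra hn
      push Not at hn
      have _ := Fintype.ofFinite F
      have h1 := Finset.card_le_mul_card_image_of_maps_to (s := (Finset.univ : Finset F))
        (t := (S ×ˢ S).image fun q => algebraMap F k r1 * (kap * q.1) +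
          algebraMap F k r2 * (kap * q.2)) (f := ph F (m u) (z u)) (fun w _ => by
            obtain ⟨⟨a, b⟩, hab⟩ := hn w
            obtain ⟨s, hs, e⟩ := hS a
            obtain ⟨s', hs', e'⟩ := hS b
            refine Finset.mem_image.2 ⟨(s, s'), Finset.mem_product.2 ⟨hs, hs'⟩, ?_⟩
            rw [← hab, ← e, ← e']
            rfl) 2 (fun b _ => by
            by_contra hc
            obtain ⟨x, y, w, hx, hy, hw, h1, h2, h3⟩ := Finset.two_lt_card_iff.1 (not_le.1 hc)
            simp only [Finset.mem_filter, Finset.mem_univ, true_and] at hx hy hw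
            have := ph_root (not_and_or.1 hu) (sub_ne_zero.2 h2) (sub_ne_zero.2 h3)
              (by rw [map_sub, hx, hw, sub_self]) (by rw [map_sub, hy, hw, sub_self])
            exact h1 (sub_left_injective this))
      have h2 := Finset.card_image_le (s := S ×ˢ S) (f := fun q : k × k =>
        algebraMap F k r1 * (kap * q.1) + algebraMap F k r2 * (kap * q.2))
      rw [Finset.card_product] at h2
      rw [Finset.card_univ, ← Nat.card_eq_fintype_card] at h1
      rw [pow_two] at hcard
      omega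
    obtain ⟨w, hw⟩ := this
    obtain ⟨t, t1, t0⟩ := sep (fun a : k => by linear_combination a * two_k F k) th.range _ hw
    obtain ⟨X, hX⟩ := exists_X (F := F) m z t
    refine ⟨X, H.xx t X hX fun K hK v hv h0 => ?_, fun e => ?_⟩
    · obtain rfl := hK.unique hK0
      change tf (rho F (m v) (z v)) ≠ 0 at hv
      change ∀ h, h ∈ K → tf (rho F (m v) (z v)) h = 0 at h0
      obtain ⟨s, s1, s2⟩ := ex_both T.l0 T.m0
      obtain ⟨x, y, -, hf⟩ := comb (f := tf (rho F (m v) (z v))) T.l0 T.m0 T.ne
        (tf (rho F (m v) (z v)) s) (fun a a1 a2 => by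
          have := h0 (a - s) ((hK' _).2 (by simp [a1, a2, s1, s2]))
          rwa [map_sub, sub_eq_zero] at this)
      have hz := ((rho_spec (F := F) (m v) (z v)).resolve_left fun e => hv (by rw [e, tf_zero])).2
      generalize rho F (m v) (z v) = r at hz hf hv
      have two := two_k F k
      rw [hK', tf_apply, tf_apply, mul_comm r1, mul_comm r2, ← tf_apply, ← tf_apply, hX, hX,
        ph_apply, ph_apply]
      rcases z2 x with rfl | rfl <;> rcases z2 y with rfl | rfl
      · exact absurd (AddMonoidHom.ext fun a => by simp [hf]) hv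
      · obtain rfl : r = r2 := tf_inj (AddMonoidHom.ext fun a => by simp [hf])
        constructor <;> apply t0
        · convert hth 0 v using 1
          rw [map_zero, hz]
          linear_combination m v ^ 2 * hrel - algebraMap F k r ^ 2 * m v ^ 2 * two
        · convert hth 0 0 using 1
          rw [map_zero, hz]
          linear_combination algebraMap F k r ^ 2 * m v ^ 2 * two
      · obtain rfl : r = r1 := tf_inj (AddMonoidHom.ext fun a => by simp [hf])
        constructor <;> apply t0
        · convert hth 0 0 using 1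
          rw [map_zero, hz]
          linear_combination algebraMap F k r ^ 2 * m v ^ 2 * two
        · convert hth v 0 using 1
          rw [map_zero, hz]
          linear_combination m v ^ 2 * hrel - algebraMap F k r ^ 2 * m v ^ 2 * two
      · obtain rfl : r = r1 + r2 := tf_inj (AddMonoidHom.ext fun a => by simp [hf, tf_add])
        rw [map_add] at hz
        constructor <;> apply t0
        · convert hth v v using 1
          rw [hz]
          linear_combination - m v ^ 2 * hrel + algebraMap F k r1 ^ 2 * m v ^ 2 * two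
        · convert hth v v using 1
          rw [hz]
          linear_combination - m v ^ 2 * hrel + algebraMap F k r2 ^ 2 * m v ^ 2 * two
    · have := hX u w
      rw [e, tf_zero, t1] at this
      simp at this
  have main : ∀ U : AddSubgroup V, Inv col U → (∃ w, w ≠ 0 ∧ io w ∈ U) →
      ∃ U : AddSubgroup V, Inv col U ∧ U ≤ m.ker ⊓ z.ker ∧ ∃ w, w ≠ 0 ∧ io w ∈ U := by
    intro U
    induction U using WellFoundedLT.induction with
    | _ U ih =>
      intro hU hw
      by_cases hle : U ≤ m.ker ⊓ z.ker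
      · exact ⟨U, hU, hle, hw⟩
      obtain ⟨u, hu, hn⟩ := SetLike.not_le_iff_exists.1 hle
      obtain ⟨X, hX, hX0⟩ := hadm u hn
      have hne : U ≠ ⊥ := by
        intro e
        rw [e, AddSubgroup.mem_bot] at hu
        exact hn (hu ▸ zero_mem _)
      have hA : Adm F col (io.comp X) := ⟨H.dat, X, hX, fun _ => rfl⟩
      exact ih _ (Sub.lt (F := F) H.h2 hU hne) (Sub.inv H.horb hU) ⟨X u, hX0, Sub.mem hA hu⟩
  exact main ⊤ (fun _ _ _ _ => trivial) ⟨1, one_ne_zero, trivial⟩

end H64Q
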