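import Pool.Agent.Lib.MP_346d6a_co.Th

/-!
Tools for the Kasami-Welch case: evaluation of plane curves on polynomial branches.
-/

namespace Pool.Agent.Lib.MP_346d6a_co.Kas

open Polynomial

variable {k : Type} [Field k]

theorem biv_induction {p : k[X][X] → Prop} (P : k[X][X]) (h0 : p 0)
    (hadd : ∀ a b, p a → p b → p (a + b))
    (hm : ∀ i j c, (P.coeff j).coeff i ≠ 0 → p (monomial j (monomial i c))) : p P := by
  rw [P.as_sum_support]
  refine Finset.sum_induction _ p hadd h0 fun j _ => ?_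
  rw [(P.coeff j).as_sum_support, map_sum]
  exact Finset.sum_induction _ p hadd h0 fun i hi => hm i j _ (mem_support_iff.1 hi)

theorem ev_monomial {R : Type} [CommRing R] [Algebra k R] (b a : R) (i j : ℕ) (c : k) :
    aevalAeval b a (monomial j (monomial i c) : k[X][X]) = algebraMap k R c * b ^ i * a ^ j := by
  simp [← C_mul_X_pow_eq_monomial]

theorem pow_dvd_ev {R : Type} [CommRing R] [Algebra k R] {P : k[X][X]} {N : ℕ}
    (h : X ^ N ∣ Th P) {t b a : R} (hb : t ∣ b) (ha : t ∣ a) : t ^ N ∣ aevalAeval b a P := by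
  refine biv_induction (p := fun P => t ^ N ∣ aevalAeval b a P) P (by simp)
    (fun _ _ h1 h2 => by rw [map_add]; exact dvd_add h1 h2) fun i j c hc => ?_
  have hN : N ≤ i + j := by
    by_contra hN
    rw [coeff_coeff_eq_Th, X_pow_dvd_iff.1 h _ (not_le.1 hN)] at hc
    simp at hc
  rw [ev_monomial, mul_assoc]
  refine ((pow_dvd_pow t hN).trans ?_).mul_left _
  rw [pow_add]
  exact mul_dvd_mul (pow_dvd_pow_of_dvd hb i) (pow_dvd_pow_of_dvd ha j)

theorem coeff_ev_top {b a : k[X]} {D : ℕ} (hD : 0 < D) (hb : b.natDegree ≤ D)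
    (ha : a.natDegree ≤ D) {α : k} (hα : a.coeff D = b.coeff D * α) (P : k[X][X]) :
    (aevalAeval b a P).coeff ((Th P).natDegree * D) =
      b.coeff D ^ (Th P).natDegree * (Th P).leadingCoeff.eval α := by
  rw [leadingCoeff]
  generalize hm : (Th P).natDegree = m
  refine biv_induction (p := fun P => (aevalAeval b a P).coeff (m * D) =
    b.coeff D ^ m * ((Th P).coeff m).eval α) P (by simp)
    (fun _ _ h1 h2 => by simp only [map_add, coeff_add, eval_add, h1, h2, mul_add])
    fun i j c hc => ?_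
  have hN : i + j ≤ m := by
    by_contra hN
    rw [coeff_coeff_eq_Th, coeff_eq_zero_of_natDegree_lt (p := Th P) (by omega)] at hc
    simp at hc
  have h1 : (b ^ i).natDegree ≤ i * D := natDegree_pow_le.trans (Nat.mul_le_mul_left i hb)
  have h2 : (a ^ j).natDegree ≤ j * D := natDegree_pow_le.trans (Nat.mul_le_mul_left j ha)
  simp only [ev_monomial, Th_monomial, algebraMap_eq, mul_assoc, coeff_C_mul, coeff_monomial]
  split_ifs with h
  · rw [← h, add_mul, coeff_mul_add_eq_of_natDegree_le h1 h2, coeff_pow_of_natDegree_le hb,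
      coeff_pow_of_natDegree_le ha, hα, eval_monomial]
    ring
  · rw [coeff_eq_zero_of_natDegree_lt (natDegree_mul_le.trans_lt ((add_le_add h1 h2).trans_lt ?_))]
    · simp
    · rw [← add_mul]
      exact Nat.mul_lt_mul_of_pos_right (by omega) hD

theorem eval_ev (b a : k[X]) (x : k) (P : k[X][X]) :
    (aevalAeval b a P).eval x = P.evalEval (b.eval x) (a.eval x) := by
  refine biv_induction (p := fun P => (aevalAeval b a P).eval x =
    P.evalEval (b.eval x) (a.eval x)) P (by simp)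
    (fun _ _ h1 h2 => by simp only [map_add, eval_add, evalEval_add, h1, h2]) fun i j c _ => ?_
  rw [ev_monomial]
  simp [← C_mul_X_pow_eq_monomial, evalEval_mul, evalEval_pow, evalEval_C]

/-- translation of the plane -/
noncomputable def Sh (b₀ a₀ : k) : k[X][X] →ₐ[k] k[X][X] :=
  aevalAeval (C (C b₀) + C X) (C (C a₀) + X)

theorem ev_Sh (b₀ a₀ : k) (b a : k[X]) (P : k[X][X]) :
    aevalAeval (b - C b₀) (a - C a₀) (Sh b₀ a₀ P) = aevalAeval b a P := by
  have : (aevalAeval (b - C b₀) (a - C a₀)).comp (Sh b₀ a₀) =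
      (aevalAeval b a : k[X][X] →ₐ[k] k[X]) := by
    refine algHom_ext' ?_ ?_
    · ext; simp [Sh]
    · simp [Sh]
  exact DFunLike.congr_fun this P

theorem pow_dvd_or {R : Type} [CommRing R] [IsDomain R] {p a b : R} (hp : Prime p) {h : ℕ}
    (H : p ^ (2 * h + 1) ∣ a * b) : p ^ (h + 1) ∣ a ∨ p ^ (h + 1) ∣ b := by
  by_contra hn
  rw [not_or, ← emultiplicity_lt_iff_not_dvd, ← emultiplicity_lt_iff_not_dvd] at hn
  rw [pow_dvd_iff_le_emultiplicity, emultiplicity_mul hp] at H
  obtain ⟨h1, h2⟩ := hn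
  generalize emultiplicity p a = x at *
  generalize emultiplicity p b = y at *
  lift x to ℕ using h1.ne_top
  lift y to ℕ using h2.ne_top
  norm_cast at *
  omega

theorem choose_two_pow_odd {i : ℕ} : ∀ {n : ℕ}, n.testBit i = true → Odd (n.choose (2 ^ i)) := by
  induction i with
  | zero => intro n h; simpa [Nat.odd_iff] using h
  | succ i ih =>
    intro n h
    have h1 := ih (n := n / 2) (by rwa [Nat.testBit_succ] at h)
    have h2 := Choose.choose_modEq_choose_mod_mul_choose_div_nat (n := n) (k := 2 ^ (i + 1))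
      (p := 2)
    rw [show 2 ^ (i + 1) % 2 = 0 by omega, show 2 ^ (i + 1) / 2 = 2 ^ i by omega,
      Nat.choose_zero_right, one_mul] at h2
    rw [Nat.odd_iff] at h1 ⊢
    exact Eq.trans h2 h1

theorem cast_odd {R : Type} [CommRing R] [CharP R 2] {n : ℕ} (h : Odd n) : (n : R) = 1 := by
  obtain ⟨m, rfl⟩ := h
  push_cast
  rw [CharTwo.two_eq_zero, zero_mul, zero_add]

section ring

variable {R : Type} [CommRing R] [CharP R 2]

theorem herm_id {L M : R} (s : R) (v : ℕ) (hL : L ^ 2 ^ v = L) (hM : M * (1 + L) = 1) :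
    1 + L * s ^ (2 ^ v + 1) + L * M * (1 + s) ^ (2 ^ v + 1) + M * (1 + L * s) ^ (2 ^ v + 1) = 0 := by
  have h2 : (2 : R) = 0 := CharTwo.two_eq_zero
  simp only [pow_succ _ (2 ^ v), add_pow_char_pow, mul_pow, hL, one_pow]
  linear_combination (1 + L * s ^ 2 ^ v * s) * hM +
    (1 + L * s ^ 2 ^ v * s + L * M * s + L * M * s ^ 2 ^ v) * h2

theorem kas_expand {x : R} (d : R) {u r : ℕ} (hr : r + 1 = 2 ^ u) (hu : 1 ≤ u) (hx : x ^ r = 1) :
    d ^ (2 ^ u + 1) ∣ (x + d) ^ (2 ^ u * r + 1) - (x + d + d ^ 2 ^ u) := by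
  have h1 : x ^ 2 ^ u = x := by rw [← hr, pow_succ, hx, one_mul]
  have hodd : Odd r := by
    have : Even (2 ^ u) := (Nat.even_pow' (by omega)).2 even_two
    rw [← hr] at this
    exact Nat.not_even_iff_odd.1 (Nat.even_add_one.1 this)
  obtain ⟨κ, hκ⟩ := powAddExpansion x (d ^ 2 ^ u) r
  have h2 : x * x ^ (r - 1) = 1 := by
    rw [← pow_succ', Nat.sub_add_cancel hodd.pos, hx]
  obtain ⟨c, hc⟩ : d ∣ d ^ 2 ^ u := dvd_pow_self d (by positivity)
  rw [pow_succ (x + d), pow_mul, add_pow_char_pow, h1, hκ, hx, cast_odd hodd, pow_succ d]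
  refine ⟨x ^ (r - 1) + κ * c * (x + d), ?_⟩
  linear_combination d ^ 2 ^ u * h2 + κ * d ^ 2 ^ u * (x + d) * hc

end ring

theorem coeff_lin_pow (x A : k) (n m : ℕ) :
    ((C x + C A * X) ^ n).coeff m = n.choose m * A ^ m * x ^ (n - m) := by
  have h : (C x + C A * X : k[X]) ^ n = ((X + C x) ^ n).comp (C A * X) := by
    simp [add_comm]
  rw [h, comp_C_mul_X_coeff, coeff_X_add_C_pow]
  ring

theorem coeff_pow_of_dvd {y : k[X]} {x A : k} {q m : ℕ} (h : X ^ q ∣ y - (C x + C A * X))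
    (hm : m < q) (n : ℕ) : (y ^ n).coeff m = n.choose m * A ^ m * x ^ (n - m) := by
  have h1 := X_pow_dvd_iff.1 (h.trans (sub_dvd_pow_sub_pow _ _ n)) m hm
  rw [coeff_sub, sub_eq_zero] at h1
  rw [h1, coeff_lin_pow]

end Pool.Agent.Lib.MP_346d6a_co.Kas
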