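import Pool.Agent.Lib.MP_346d6a_co.KBasic

/-!
The Kasami-Welch case.
-/

set_option linter.unusedSectionVars false

namespace Pool.Agent.Lib.MP_346d6a_co.Kas

open Polynomial

variable {k : Type} [Field k] [CharP k 2]

/-- first coordinate of a branch -/
noncomputable def yy (q : ℕ) (l σ : k) : k[X] := C l * (X + C σ) ^ (q + 1)

/-- second coordinate of a branch -/
noncomputable def zz (q : ℕ) (l σ : k) : k[X] := yy q (l * (1 + l)⁻¹) (1 + σ)

/-- evaluation on a branch -/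
noncomputable def ev (q : ℕ) (l σ : k) : k[X][X] →ₐ[k] k[X] :=
  aevalAeval (1 + yy q l σ) (1 + zz q l σ)

theorem ev_Sec (q : ℕ) (l σ : k) (j : ℕ) : ev q l σ (Sec k j) =
    1 + yy q l σ ^ j + zz q l σ ^ j + (1 + yy q l σ + zz q l σ) ^ j := by
  have h2 : (2 : k[X]) = 0 := CharTwo.two_eq_zero
  simp only [ev, Sec, map_add, map_pow, map_one, aevalAeval_X, aevalAeval_Y]
  rw [show 1 + (1 + yy q l σ) = yy q l σ by linear_combination h2,
    show 1 + (1 + zz q l σ) = zz q l σ by linear_combination h2,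
    show yy q l σ + (1 + zz q l σ) = 1 + yy q l σ + zz q l σ by ring]

theorem one_add_ne {l : k} (h : l ≠ 1) : 1 + l ≠ 0 := fun h' =>
  h (by linear_combination h' - (CharTwo.two_eq_zero : (2 : k) = 0))

theorem pow_iter {R : Type} [Monoid R] {x : R} {q : ℕ} (h : x ^ q = x) (n : ℕ) :
    x ^ q ^ n = x := by
  induction n with
  | zero => simp
  | succ n ih => rw [pow_succ, pow_mul, ih, h]

variable {u r : ℕ} (hr : r + 1 = 2 ^ u)
include hr

omit [CharP k 2] in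
theorem pow_q {x : k} (h : x ^ r = 1) : x ^ 2 ^ u = x := by rw [← hr, pow_succ, h, one_mul]

omit [CharP k 2] in
theorem pow_r {x : k} (h : x ^ 2 ^ u = x) (h0 : x ≠ 0) : x ^ r = 1 := by
  rw [← hr, pow_succ] at h
  exact mul_right_cancel₀ h0 (h.trans (one_mul x).symm)

theorem add_q {x y : k} (hx : x ^ 2 ^ u = x) (hy : y ^ 2 ^ u = y) : (x + y) ^ 2 ^ u = x + y := by
  rw [add_pow_char_pow, hx, hy]

theorem ev_Sec_e {l : k} (hl : l ^ r = 1) (h1 : l ≠ 1) (σ : k) :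
    ev (2 ^ u) l σ (Sec k (2 ^ u * r + 1)) = 0 := by
  have h2 : (2 : k[X]) = 0 := CharTwo.two_eq_zero
  have hM : (C (1 + l)⁻¹ : k[X]) * (1 + C l) = 1 := by
    rw [← C_1, ← C_add, ← C_mul, inv_mul_cancel₀ (one_add_ne h1)]
  have hL : (C l : k[X]) ^ 2 ^ u = C l := by rw [← C_pow, pow_q hr hl]
  have hL3 : (C l : k[X]) ^ 2 ^ (u * 3) = C l := by rw [pow_mul, pow_iter hL]
  have hm : (1 + l)⁻¹ ^ r = 1 := by
    rw [inv_pow, pow_r hr (add_q hr (one_pow _) (pow_q hr hl)) (one_add_ne h1), inv_one]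
  have he : ∀ x : k, x ^ r = 1 → (C x : k[X]) ^ (2 ^ u * r + 1) = C x := fun x hx => by
    rw [← C_pow, pow_succ, mul_comm (2 ^ u), pow_mul, hx, one_pow, one_mul]
  have hx : (2 ^ u + 1) * (2 ^ u * r + 1) = 2 ^ (u * 3) + 1 := by
    rw [pow_mul, ← hr]; ring
  have h3 := herm_id (X + C σ) u hL hM
  have h4 := herm_id (X + C σ) (u * 3) hL3 hM
  have h5 : X + C (1 + σ) = 1 + (X + C σ) := by rw [C_add, C_1]; ring
  have h6 : 1 + yy (2 ^ u) l σ + zz (2 ^ u) l σ =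
      C (1 + l)⁻¹ * (1 + C l * (X + C σ)) ^ (2 ^ u + 1) := by
    simp only [zz, yy, h5, C_mul]
    linear_combination h3 - (C (1 + l)⁻¹ * (1 + C l * (X + C σ)) ^ (2 ^ u + 1)) * h2
  rw [ev_Sec, h6]
  simp only [zz, yy, h5, C_mul, mul_pow, ← pow_mul, hx, he l hl, he _ hm]
  exact h4

omit hr [CharP k 2] in
theorem yy_deg (q : ℕ) (l σ : k) :
    (1 + yy q l σ).natDegree ≤ q + 1 ∧ (1 + yy q l σ).coeff (q + 1) = l := by
  have h := (monic_X_add_C σ).pow (n := q + 1)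
  have h1 : ((X + C σ) ^ (q + 1)).natDegree = q + 1 := by
    rw [(monic_X_add_C σ).natDegree_pow, natDegree_X_add_C, mul_one]
  constructor
  · exact (natDegree_add_le _ _).trans
      (max_le (by simp) ((natDegree_C_mul_le _ _).trans h1.le))
  · rw [coeff_add, yy, coeff_C_mul, coeff_one, if_neg (by omega), zero_add]
    nth_rewrite 2 [← h1]
    rw [h.coeff_natDegree, mul_one]

omit hr [CharP k 2] in
theorem ev_ne {q : ℕ} {l : k} (h0 : l ≠ 0) (σ : k) {P : k[X][X]}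
    (h : (Th P).leadingCoeff.eval (1 + l)⁻¹ ≠ 0) : ev q l σ P ≠ 0 := fun h' => by
  have := coeff_ev_top (by omega) (yy_deg q l σ).1 (yy_deg q (l * (1 + l)⁻¹) (1 + σ)).1
    (α := (1 + l)⁻¹) (by rw [(yy_deg _ _ _).2, (yy_deg _ _ _).2]) P
  rw [(yy_deg _ _ _).2] at this
  exact mul_ne_zero (pow_ne_zero _ h0) h (this.symm.trans (by rw [← zz, ← ev, h', coeff_zero]))

omit hr in
theorem yy_lin (l σ : k) : X ^ 2 ^ u ∣
    yy (2 ^ u) l σ - (C (l * σ ^ (2 ^ u + 1)) + C (l * σ ^ 2 ^ u) * X) :=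
  ⟨C l * (X + C σ), by
    simp only [yy, pow_succ _ (2 ^ u), add_pow_char_pow, C_mul, C_pow]; ring⟩

/-- a branch through the point with coordinates `y₀`, `z₀` -/
structure Good (r q : ℕ) (y₀ z₀ l σ : k) : Prop where
  hl : l ^ r = 1
  h1 : l ≠ 1
  hσ : σ ≠ 0
  hy : l * σ ^ (q + 1) = y₀
  hz : l * (1 + l)⁻¹ * (1 + σ) ^ (q + 1) = z₀

open Classical in
theorem exists_branches [IsAlgClosed k] (hu : 1 ≤ u) {y₀ z₀ : k} (hy : y₀ ^ r = 1)
    (hz : z₀ ^ r = 1) (hw : 1 + y₀ + z₀ ≠ 0) (hne : y₀ ≠ z₀) (Om : Finset k)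
    (hO : 2 * Om.card < r) :
    ∃ l σ, Good r (2 ^ u) y₀ z₀ l σ ∧ (1 + l)⁻¹ ∉ Om := by
  have h2 : (2 : k) = 0 := CharTwo.two_eq_zero
  have hr0 : r ≠ 0 := by omega
  have hy0 : y₀ ≠ 0 := fun h => by simp [h, hr0] at hy
  have hz0 : z₀ ≠ 0 := fun h => by simp [h, hr0] at hz
  have hyz : y₀ + z₀ ≠ 0 := fun h => hne (by linear_combination h - z₀ * h2)
  have hodd : Odd (2 ^ u + 1) := ((Nat.even_pow' (by omega)).2 even_two).add_one
  have : NeZero ((2 ^ u + 1 : ℕ) : k) := ⟨by rw [cast_odd hodd]; exact one_ne_zero⟩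
  obtain ⟨ξ, hξ⟩ := HasEnoughRootsOfUnity.exists_primitiveRoot k (2 ^ u + 1)
  set d : k := y₀ / (y₀ + z₀) with hd
  set c : k := z₀ * (1 + y₀ + z₀) * y₀ / (y₀ + z₀) ^ 2 with hc
  have hc0 : c ≠ 0 := by positivity
  have hyq := pow_q hr hy
  have hzq := pow_q hr hz
  have hdq : d ^ 2 ^ u = d := by rw [hd, div_pow, hyq, add_q hr hyq hzq]
  have hcq : c ^ 2 ^ u = c := by
    rw [hc, div_pow, mul_pow, mul_pow, ← pow_mul, mul_comm 2, pow_mul, hyq, hzq,
      add_q hr hyq hzq, add_q hr (add_q hr (one_pow _) hyq) hzq]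
  have hcard : (nthRoots (2 ^ u + 1) c).toFinset.card = 2 ^ u + 1 := by
    rw [Multiset.toFinset_card_of_nodup (hξ.nthRoots_nodup hc0), hξ.card_nthRoots,
      if_pos (IsAlgClosed.exists_pow_nat_eq c (by omega))]
  set T := ((nthRoots (2 ^ u + 1) c).toFinset.erase d).erase (1 + d) with hT
  have hTc : r ≤ T.card := by
    have a := Finset.pred_card_le_card_erase (s := (nthRoots (2 ^ u + 1) c).toFinset) (a := d)
    have b := Finset.pred_card_le_card_erase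
      (s := (nthRoots (2 ^ u + 1) c).toFinset.erase d) (a := 1 + d)
    rw [← hT] at b
    omega
  have key : ∀ τ ∈ T, Good r (2 ^ u) y₀ z₀ (y₀ / (τ + d) ^ (2 ^ u + 1)) (τ + d) ∧
      y₀ * (τ + d) ^ 2 ^ u =
        (y₀ + z₀) * (τ + d) ^ (2 ^ u + 1) + y₀ * (1 + z₀) + y₀ * (τ + d) := fun τ hτ => by
    simp only [hT, Finset.mem_erase, Multiset.mem_toFinset,
      mem_nthRoots (by omega : 0 < 2 ^ u + 1)] at hτ
    obtain ⟨t1, t0, ht⟩ := hτ
    have hs0 : τ + d ≠ 0 := fun h => t0 (by linear_combination h - d * h2)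
    have hs1 : 1 + (τ + d) ≠ 0 := fun h => t1 (by linear_combination h - (1 + d) * h2)
    have hτ2 : (τ ^ 2 ^ u) ^ 2 ^ u = τ := by
      have hτ0 : τ ^ 2 ^ u ≠ 0 := pow_ne_zero _ fun h => hc0 (by rw [← ht, h]; simp)
      refine mul_right_cancel₀ hτ0 ?_
      rw [← mul_pow, ← pow_succ, ht, hcq, ← pow_succ', ht]
    set σ := τ + d with hσ
    have hσq : σ ^ 2 ^ u = τ ^ 2 ^ u + d := by rw [hσ, add_pow_char_pow, hdq]
    have hN : (σ ^ (2 ^ u + 1)) ^ 2 ^ u = σ ^ (2 ^ u + 1) := by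
      rw [pow_succ σ, mul_pow, hσq, add_pow_char_pow, hτ2, hdq, mul_comm]
    have hN0 : σ ^ (2 ^ u + 1) ≠ 0 := pow_ne_zero _ hs0
    have e1 : y₀ * σ ^ 2 ^ u = (y₀ + z₀) * σ ^ (2 ^ u + 1) + y₀ * (1 + z₀) + y₀ * σ := by
      rw [pow_succ τ] at ht
      have a1 : d * (y₀ + z₀) = y₀ := by rw [hd]; field_simp
      have a2 : τ ^ 2 ^ u * τ * (y₀ + z₀) ^ 2 = z₀ * (1 + y₀ + z₀) * y₀ := by
        rw [ht, hc]; field_simp
      refine mul_left_cancel₀ hyz ?_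
      rw [pow_succ σ, hσq, hσ]
      linear_combination -a2 - ((y₀ + z₀) * (τ ^ 2 ^ u + τ) + d * (y₀ + z₀) + y₀) * a1 -
        (y₀ * (y₀ + z₀) * τ + y₀ ^ 2 + y₀ * z₀ + y₀ ^ 2 * z₀ + y₀ * z₀ ^ 2) * h2
    have e2 : y₀ * (1 + σ) ^ (2 ^ u + 1) = z₀ * (σ ^ (2 ^ u + 1) + y₀) := by
      rw [pow_succ (1 + σ), add_pow_char_pow, one_pow]
      rw [pow_succ σ] at e1 ⊢
      linear_combination e1 + (y₀ + y₀ * σ + y₀ * σ ^ 2 ^ u * σ) * h2
    have e3 : σ ^ (2 ^ u + 1) + y₀ ≠ 0 := fun h => by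
      rw [h, mul_zero] at e2
      exact mul_ne_zero hy0 (pow_ne_zero _ hs1) e2
    refine ⟨⟨?_, fun h => e3 ?_, hs0, by field_simp, ?_⟩, e1⟩
    · rw [div_pow, hy, pow_r hr hN hN0, div_one]
    · rw [div_eq_one_iff_eq hN0] at h
      linear_combination -h + y₀ * h2
    · rw [one_add_div hN0, inv_div]
      field_simp
      linear_combination e2
  by_contra hn
  push Not at hn
  have h3 := Finset.card_le_mul_card_image_of_maps_to
    (f := fun τ => (1 + y₀ / (τ + d) ^ (2 ^ u + 1))⁻¹) (s := T) (t := Om)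
    (fun τ hτ => hn _ _ (key τ hτ).1) 2 fun β _ => by
      set N := y₀ / (β⁻¹ - 1) with hN
      set p : k[X] := C y₀ * (X + C d) ^ 2 +
        C ((y₀ + z₀) * N + y₀ * (1 + z₀)) * (X + C d) + C (y₀ * N) with hp
      have hp2 : p.natDegree = 2 := by
        rw [hp]; compute_degree!
      refine (card_le_degree_of_subset_roots (p := p) fun τ hτ => ?_).trans hp2.le
      rw [Finset.mem_val, Finset.mem_filter] at hτ
      obtain ⟨g, e1⟩ := key τ hτ.1
      have hN0 : (τ + d) ^ (2 ^ u + 1) ≠ 0 := pow_ne_zero _ g.hσ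
      have e2 : N = (τ + d) ^ (2 ^ u + 1) := by
        rw [hN, ← hτ.2, inv_inv, add_sub_cancel_left]; field_simp
      rw [mem_roots (fun h => by simp [h] at hp2), IsRoot, hp]
      simp only [eval_add, eval_mul, eval_pow, eval_C, eval_X, e2]
      rw [pow_succ (τ + d) (2 ^ u)] at e1 ⊢
      linear_combination -(τ + d) * e1 + (y₀ * (τ + d) ^ 2 ^ u * (τ + d)) * h2
  omega

open Classical in
theorem two_branches [IsAlgClosed k] (hu : 2 ≤ u) (φ₀ : k →+* k) {n : ℕ}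
    (hB : ∀ α : k, α ^ 2 ^ u = α → α ≠ 0 → α ≠ 1 → Block φ₀ (2 ^ u * r + 1) n α) {y₀ z₀ : k}
    (hy : y₀ ^ r = 1) (hz : z₀ ^ r = 1) (hw : 1 + y₀ + z₀ ≠ 0) (hne : y₀ ≠ z₀) :
    ∃ (U W U₁ W₁ : k[X][X]) (l σ l' σ' : k), U * W = Sec k (2 ^ u * r + 1) ∧
      U₁ * W + W₁ * U = Sec k n ∧ Good r (2 ^ u) y₀ z₀ l σ ∧ Good r (2 ^ u) y₀ z₀ l' σ' ∧
      ev (2 ^ u) l σ U = 0 ∧ ev (2 ^ u) l' σ' W = 0 := by
  have h4 : 2 ^ 2 ≤ 2 ^ u := Nat.pow_le_pow_right (by omega) hu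
  have hr0 : 0 < r := by omega
  obtain ⟨l, σ, g, -⟩ := exists_branches hr (by omega) hy hz hw hne ∅ (by simpa using hr0)
  have hl0 : ∀ {l : k}, l ^ r = 1 → l ≠ 0 := fun h h' => by simp [h', hr0.ne'] at h
  have hα : ∀ {l : k}, l ^ r = 1 → l ≠ 1 → (1 + l)⁻¹ ^ r = 1 ∧ (1 + l)⁻¹ ≠ 1 := fun hl h1 =>
    ⟨by rw [inv_pow, pow_r hr (add_q hr (one_pow _) (pow_q hr hl)) (one_add_ne h1), inv_one],
      fun h => hl0 hl (by simpa using h)⟩
  obtain ⟨U, W, U₁, W₁, h1, h2, -, h3, h5⟩ := hB _ (pow_q hr (hα g.hl g.h1).1)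
    (hl0 (hα g.hl g.h1).1) (hα g.hl g.h1).2
  set A := (nthRootsFinset r (1 : k)).erase 1 with hA
  have hAc : A.card < r := (Finset.card_erase_lt_of_mem ((mem_nthRootsFinset hr0 _).2
    (one_pow _))).trans_le ((Multiset.toFinset_card_le _).trans (card_nthRoots _ _))
  set Om := A.filter fun β => (Th U).leadingCoeff.eval β = 0 with hOm
  have hO : 2 * Om.card ≤ A.card := by
    have a : Disjoint Om (Om.image φ₀) := Finset.disjoint_right.2 fun x hx hx' => by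
      obtain ⟨β, hβ, rfl⟩ := Finset.mem_image.1 hx
      exact (h5 β (Finset.mem_filter.1 hβ).2).2 (Finset.mem_filter.1 hx').2
    rw [two_mul]
    nth_rewrite 2 [← Finset.card_image_of_injective Om φ₀.injective]
    rw [← Finset.card_union_of_disjoint a]
    refine Finset.card_le_card (Finset.union_subset (Finset.filter_subset _ _) fun x hx => ?_)
    obtain ⟨β, hβ, rfl⟩ := Finset.mem_image.1 hx
    have := (Finset.mem_filter.1 hβ).1
    simp only [hA, Finset.mem_erase, mem_nthRootsFinset hr0] at this ⊢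
    exact ⟨fun h => this.1 (φ₀.injective (h.trans φ₀.map_one.symm)),
      by rw [← map_pow, this.2, map_one]⟩
  obtain ⟨l', σ', g', h6⟩ := exists_branches hr (by omega) hy hz hw hne Om (by omega)
  refine ⟨U, W, U₁, W₁, l, σ, l', σ', h1, h2, g, g', ?_, ?_⟩
  · have := ev_Sec_e hr g.hl g.h1 σ
    rw [← h1, map_mul] at this
    exact (mul_eq_zero.1 this).resolve_right (ev_ne (hl0 g.hl) σ (h5 _ h3).1)
  · have := ev_Sec_e hr g'.hl g'.h1 σ'
    rw [← h1, map_mul] at this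
    refine (mul_eq_zero.1 this).resolve_left (ev_ne (hl0 g'.hl) σ' fun h => h6 ?_)
    simp only [hOm, hA, Finset.mem_filter, Finset.mem_erase, mem_nthRootsFinset hr0]
    exact ⟨⟨(hα g'.hl g'.h1).2, (hα g'.hl g'.h1).1⟩, h⟩

omit hr in
theorem Good.eval_zero {q : ℕ} {y₀ z₀ l σ : k} (g : Good r q y₀ z₀ l σ) (P : k[X][X]) :
    (ev q l σ P).eval 0 = P.evalEval (1 + y₀) (1 + z₀) := by
  rw [ev, eval_ev, ← g.hy, ← g.hz]
  simp [zz, yy]

theorem point_eq [IsAlgClosed k] (hu : 2 ≤ u) (φ₀ : k →+* k) {n : ℕ}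
    (hB : ∀ α : k, α ^ 2 ^ u = α → α ≠ 0 → α ≠ 1 → Block φ₀ (2 ^ u * r + 1) n α) {y₀ z₀ : k}
    (hy : y₀ ^ r = 1) (hz : z₀ ^ r = 1) (hw : 1 + y₀ + z₀ ≠ 0) :
    1 + y₀ ^ n + z₀ ^ n + (1 + y₀ + z₀) ^ n = 0 := by
  have h2 : (2 : k) = 0 := CharTwo.two_eq_zero
  by_cases hne : y₀ = z₀
  · rw [hne, show 1 + z₀ + z₀ = 1 by linear_combination z₀ * h2, one_pow]
    linear_combination (1 + z₀ ^ n) * h2
  obtain ⟨U, W, U₁, W₁, l, σ, l', σ', -, h1, g, g', h3, h4⟩ :=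
    two_branches hr hu φ₀ hB hy hz hw hne
  have a := g.eval_zero U
  have b := g'.eval_zero W
  rw [h3, eval_zero] at a
  rw [h4, eval_zero] at b
  have c := evalEval_Sec n (1 + y₀) (1 + z₀)
  rw [← h1, evalEval_add, evalEval_mul, evalEval_mul, ← a, ← b,
    show 1 + (1 + y₀) = y₀ by linear_combination h2, show 1 + (1 + z₀) = z₀ by linear_combination h2,
    show y₀ + (1 + z₀) = 1 + y₀ + z₀ by ring] at c
  linear_combination -c

theorem mult_split (hu : 1 ≤ u) {y₀ z₀ : k} (hy : y₀ ^ r = 1) (hz : z₀ ^ r = 1)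
    (hw : (1 + y₀ + z₀) ^ r = 1) {U W : k[X][X]} (h : U * W = Sec k (2 ^ u * r + 1)) :
    X ^ (2 ^ (u - 1) + 1) ∣ Th (Sh (1 + y₀) (1 + z₀) U) ∨
      X ^ (2 ^ (u - 1) + 1) ∣ Th (Sh (1 + y₀) (1 + z₀) W) := by
  refine pow_dvd_or prime_X ?_
  have h2 : (2 : k[X][X]) = 0 := CharTwo.two_eq_zero
  have hC : ∀ x : k, x ^ r = 1 → (C (C x) : k[X][X]) ^ r = 1 := fun x hx => by
    rw [← C_pow, ← C_pow, hx, C_1, C_1]
  have hX : ∀ c : k[X], (X : k[X][X]) ^ (2 ^ u + 1) ∣ (C c * X) ^ (2 ^ u + 1) := fun c =>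
    pow_dvd_pow_of_dvd (dvd_mul_left _ _) _
  have a := (hX 1).trans (kas_expand _ hr hu (hC _ hy))
  have b := (hX X).trans (kas_expand _ hr hu (hC _ hz))
  have c := (hX (1 + X)).trans (kas_expand _ hr hu (hC _ hw))
  rw [← pow_succ', Nat.sub_add_cancel hu, ← map_mul, ← map_mul, h]
  convert (a.add b).add c using 1
  simp only [Sec, Sh, map_add, map_pow, map_one, aevalAeval_X, aevalAeval_Y, Th_C_C, Th_C_X, Th_X,
    one_mul, add_mul, add_pow_char_pow]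
  rw [show 1 + (1 + C (C y₀) + X : k[X][X]) = C (C y₀) + X by linear_combination h2,
    show 1 + (1 + C (C z₀) + C X * X : k[X][X]) = C (C z₀) + C X * X by linear_combination h2,
    show C (C y₀) + X + (1 + C (C z₀) + C X * X : k[X][X]) =
      1 + C (C y₀) + C (C z₀) + (X + C X * X) by ring]
  linear_combination (1 + C (C y₀) + C (C z₀) + X + C X * X + X ^ 2 ^ u + (C X * X) ^ 2 ^ u) * h2

omit hr in
theorem Good.dvd_ev {y₀ z₀ l σ : k} (g : Good r (2 ^ u) y₀ z₀ l σ) {P : k[X][X]} {N : ℕ}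
    (h : X ^ N ∣ Th (Sh (1 + y₀) (1 + z₀) P)) : X ^ N ∣ ev (2 ^ u) l σ P := by
  rw [ev, ← ev_Sh (1 + y₀) (1 + z₀)]
  refine pow_dvd_ev h ?_ ?_ <;> rw [X_dvd_iff, coeff_zero_eq_eval_zero]
  · simp [yy, g.hy]
  · simp [zz, yy, g.hz]

omit hr in
theorem Good.coeff_Sec {ζ l σ : k} (g : Good r (2 ^ u) 1 ζ l σ) (n : ℕ) {i : ℕ} (hi : i < u) :
    (ev (2 ^ u) l σ (Sec k n)).coeff (2 ^ i) =
      n.choose (2 ^ i) * (l * σ ^ 2 ^ u) ^ 2 ^ i * (1 + ζ ^ (n - 2 ^ i)) := by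
  have h2 : (2 : k[X]) = 0 := CharTwo.two_eq_zero
  have hlt : 2 ^ i < 2 ^ u := Nat.pow_lt_pow_right (by omega) hi
  have a := yy_lin (u := u) l σ
  have b := yy_lin (u := u) (l * (1 + l)⁻¹) (1 + σ)
  rw [g.hy] at a
  rw [g.hz, ← zz] at b
  have c : X ^ 2 ^ u ∣ 1 + yy (2 ^ u) l σ + zz (2 ^ u) l σ -
      (C ζ + C (l * σ ^ 2 ^ u + l * (1 + l)⁻¹ * (1 + σ) ^ 2 ^ u) * X) := by
    convert a.add b using 1
    rw [C_add, C_1]
    linear_combination h2
  rw [ev_Sec, coeff_add, coeff_add, coeff_add, coeff_pow_of_dvd a hlt, coeff_pow_of_dvd b hlt,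
    coeff_pow_of_dvd c hlt, coeff_one, if_neg (by positivity), add_pow_char_pow _ _ 2 i, one_pow]
  linear_combination (n.choose (2 ^ i) * (l * (1 + l)⁻¹ * (1 + σ) ^ 2 ^ u) ^ 2 ^ i *
    ζ ^ (n - 2 ^ i)) * (CharTwo.two_eq_zero : (2 : k) = 0)

omit [CharP k 2] in
theorem exists_bit (hu : 2 ≤ u) {ζ : k} (hζ : IsPrimitiveRoot ζ r) {n : ℕ} (hn : n < 2 ^ u * r)
    (hL : ¬ Lin n) (h0 : n % 2 ^ u ≠ 0) :
    ∃ i < u, n.testBit i = true ∧ ζ ^ n ≠ ζ ^ 2 ^ i := by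
  have hb : ∀ i, (n % 2 ^ u).testBit i = true → i < u ∧ n.testBit i = true := fun i hi => by
    simpa using hi
  have hlt : ∀ i < u, 2 ^ i < r := fun i hi => by
    have a : 2 ^ (i + 1) ≤ 2 ^ u := Nat.pow_le_pow_right (by omega) hi
    have b : 2 ^ 2 ≤ 2 ^ u := Nat.pow_le_pow_right (by omega) hu
    omega
  obtain ⟨i, hi⟩ := Nat.exists_testBit_of_ne_zero h0
  by_contra hc
  push Not at hc
  have h1 : n % 2 ^ u = 2 ^ i := Nat.eq_of_testBit_eq fun j => by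
    rw [Nat.testBit_two_pow]
    by_cases hj : (n % 2 ^ u).testBit j = true
    · have := hζ.pow_inj (hlt i (hb i hi).1) (hlt j (hb j hj).1)
        ((hc i (hb i hi).1 (hb i hi).2).symm.trans (hc j (hb j hj).1 (hb j hj).2))
      rw [hj, Nat.pow_right_injective le_rfl this]; simp
    · have : i ≠ j := fun h => hj (h ▸ hi)
      simp [hj, this]
  have h2 := Nat.div_add_mod n (2 ^ u)
  have h3 : n / 2 ^ u < r := Nat.div_lt_of_lt_mul hn
  have h4 : n / 2 ^ u ≠ 0 := fun h => hL (Or.inr ⟨i, by rw [← h2, h, h1]; simp⟩)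
  have h5 := hc i (hb i hi).1 (hb i hi).2
  rw [← h2, h1, pow_add, pow_mul, pow_q hr hζ.pow_eq_one] at h5
  exact hζ.pow_ne_one_of_pos_of_lt h4 h3
    (mul_right_cancel₀ (pow_ne_zero _ (hζ.ne_zero (by omega))) (h5.trans (one_mul _).symm))

theorem no_blocks [IsAlgClosed k] (hu : 2 ≤ u) (φ₀ : k →+* k) {n : ℕ} (hn : n < 2 ^ u * r)
    (hL : ¬ Lin n)
    (hB : ∀ α : k, α ^ 2 ^ u = α → α ≠ 0 → α ≠ 1 → Block φ₀ (2 ^ u * r + 1) n α) : False := by
  classical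
  have h2 : (2 : k) = 0 := CharTwo.two_eq_zero
  have h4 : 2 ^ 2 ≤ 2 ^ u := Nat.pow_le_pow_right (by omega) hu
  have hodd : Odd r := by
    have : Even (2 ^ u) := (Nat.even_pow' (by omega)).2 even_two
    rw [← hr] at this
    exact Nat.not_even_iff_odd.1 (Nat.even_add_one.1 this)
  have : NeZero ((r : ℕ) : k) := ⟨by rw [cast_odd hodd]; exact one_ne_zero⟩
  obtain ⟨ζ, hζ⟩ := HasEnoughRootsOfUnity.exists_primitiveRoot k r
  have hζ1 : ζ ≠ 1 := hζ.ne_one (by omega)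
  have hζ0 : ζ ≠ 0 := hζ.ne_zero (by omega)
  by_cases h0 : n % 2 ^ u = 0
  · obtain ⟨m, rfl⟩ := Nat.dvd_of_mod_eq_zero h0
    have hm : m < r := Nat.lt_of_mul_lt_mul_left hn
    have hm0 : m ≠ 0 := fun h => hL (Or.inl (by simp [h]))
    obtain ⟨i, hi⟩ := Nat.exists_testBit_of_ne_zero hm0
    have hne : 2 ^ i ≠ m := fun h => hL (Or.inr ⟨u + i, by rw [pow_add, h]⟩)
    set p : k[X] := (X + C (1 + ζ)) ^ m - X ^ m + C (1 + ζ ^ m) with hp
    have hp0 : p ≠ 0 := fun h => by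
      have := congrArg (fun p => p.coeff (2 ^ i)) h
      simp only [hp, coeff_add, coeff_sub, coeff_X_add_C_pow, coeff_X_pow, if_neg hne,
        coeff_C_of_ne_zero (by positivity : 2 ^ i ≠ 0), cast_odd (choose_two_pow_odd hi),
        coeff_zero] at this
      exact pow_ne_zero _ (one_add_ne hζ1) (by simpa using this)
    have hd : p.natDegree ≤ m - 1 := by
      rw [natDegree_le_iff_coeff_eq_zero]
      intro j hj
      simp only [hp, coeff_add, coeff_sub, coeff_X_add_C_pow, coeff_X_pow,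
        coeff_C_of_ne_zero (by omega : j ≠ 0)]
      split_ifs with h
      · simp [h]
      · simp [Nat.choose_eq_zero_of_lt (by omega : m < j)]
    have h5 := card_le_degree_of_subset_roots (p := p)
      (Z := (nthRootsFinset r (1 : k)).erase (1 + ζ)) fun y hy => by
        rw [Finset.mem_val, Finset.mem_erase, mem_nthRootsFinset (by omega)] at hy
        have hw : 1 + y + ζ ≠ 0 := fun h => hy.1 (by linear_combination h - (1 + ζ) * h2)
        have := point_eq hr hu φ₀ hB hy.2 hζ.pow_eq_one hw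
        rw [pow_mul, pow_mul, pow_mul, add_q hr (add_q hr (one_pow _) (pow_q hr hy.2))
          (pow_q hr hζ.pow_eq_one), pow_q hr hy.2, pow_q hr hζ.pow_eq_one,
          show 1 + y + ζ = y + (1 + ζ) by ring] at this
        rw [mem_roots hp0, IsRoot, hp]
        simp only [eval_add, eval_sub, eval_pow, eval_C, eval_X]
        linear_combination this - y ^ m * h2
    have h6 := Finset.pred_card_le_card_erase (s := nthRootsFinset r (1 : k)) (a := 1 + ζ)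
    rw [hζ.card_nthRootsFinset] at h6
    omega
  · obtain ⟨i, hi, hb, hz⟩ := exists_bit hr hu hζ hn hL h0
    have hw : 1 + 1 + ζ = ζ := by linear_combination h2
    obtain ⟨U, W, U₁, W₁, l, σ, l', σ', h1, h3, g, g', h5, h6⟩ :=
      two_branches hr hu φ₀ hB (one_pow r) hζ.pow_eq_one (by rwa [hw]) hζ1.symm
    have key : ∀ l σ, Good r (2 ^ u) 1 ζ l σ →
        ¬ X ^ (2 ^ (u - 1) + 1) ∣ ev (2 ^ u) l σ (Sec k n) := fun l σ g h => by
      have a := X_pow_dvd_iff.1 h (2 ^ i)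
        (Nat.lt_succ_of_le (Nat.pow_le_pow_right (by omega) (by omega)))
      rw [g.coeff_Sec n hi, cast_odd (choose_two_pow_odd hb), one_mul] at a
      have hl : l ≠ 0 := fun h => by simpa [h] using g.hy
      refine mul_ne_zero (pow_ne_zero _ (mul_ne_zero hl (pow_ne_zero _ g.hσ)))
        (one_add_ne fun h => hz ?_) a
      rw [← Nat.sub_add_cancel (Nat.ge_two_pow_of_testBit hb), pow_add, h, one_mul]
    rcases mult_split hr (by omega) (one_pow r) hζ.pow_eq_one (by rw [hw, hζ.pow_eq_one]) h1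
      with h | h
    · refine key _ _ g' ?_
      rw [← h3, map_add, map_mul, map_mul, h6, mul_zero, zero_add]
      exact (g'.dvd_ev h).mul_left _
    · refine key _ _ g ?_
      rw [← h3, map_add, map_mul, map_mul, h5, mul_zero, add_zero]
      exact (g.dvd_ev h).mul_left _

end Pool.Agent.Lib.MP_346d6a_co.Kas

namespace Pool.Agent.Lib.MP_346d6a_co

theorem kasamiCase : KasamiCase := by
  intro k _ _ _ φ₀ u n hu hn hL
  obtain ⟨r, hr⟩ : ∃ r, r + 1 = 2 ^ u := ⟨2 ^ u - 1, Nat.sub_add_cancel Nat.one_le_two_pow⟩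
  have he : 4 ^ u - 2 ^ u = 2 ^ u * r := by
    rw [show 4 = 2 * 2 from rfl, mul_pow]
    nth_rewrite 2 [← hr]
    rw [mul_add, mul_one, Nat.add_sub_cancel]
  rw [he] at hn ⊢
  by_contra hc
  push Not at hc
  exact Kas.no_blocks hr hu φ₀ hn hL hc

end Pool.Agent.Lib.MP_346d6a_co
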