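import Pool.Agent.Lib.MP_346d6a_co.M47Cl

/-!
Clusters over a pair of critical points of the first type.
-/

namespace Pool.Agent.Lib.MP_346d6a_co.M47

open Polynomial Finset

variable {q s : ℕ}

section

variable {k Ω : Type} [Field k] [CharP k 2] [Field Ω] [CharP Ω 2] [Algebra k Ω] (V : Val k Ω)

theorem J_rel (hq : IsQ q) {x₀ z₀ γ : k} (h1 : hh (s + 2) z₀ = 0) (h2 : hh (s + 2) x₀ = 0)
    (hP : hh (q * (s + 2) + 1) z₀ = hh (q * (s + 2) + 1) x₀)
    (hγ : γ ^ q * hh (q * (s + 1) + 1) z₀ = hh (q * (s + 1) + 1) x₀)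
    (hδ : hh (q * (s + 1)) z₀ * γ ^ (q + 1) + hh (q * (s + 1)) x₀ = 0) :
    (z₀ + z₀ ^ q) ^ (q + 1) * (x₀ * (x₀ + 1)) ^ q =
      (x₀ + x₀ ^ q) ^ (q + 1) * (z₀ * (z₀ + 1)) ^ q := by
  obtain ⟨a1, a2, a3, a4⟩ := crit_id hq h1
  obtain ⟨b1, b2, b3, b4⟩ := crit_id hq h2
  have hβ := cr_ne hq h1
  have hN := pow_ne_zero (q * (s + 2)) (left_ne_zero_of_mul a1)
  rw [a2, b2] at hP
  rw [← hP] at b3 b4
  rw [CharTwo.add_eq_zero] at hδ
  have a5 := pow_ne_zero q a1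
  have b5 := pow_ne_zero q b1
  generalize (z₀ * (z₀ + 1)) ^ q = W at *
  generalize (x₀ * (x₀ + 1)) ^ q = W' at *
  have e1 : γ ^ (q + 1) * W' = W := by
    refine mul_left_cancel₀ hβ ?_
    rw [← mul_assoc, hδ, a3, b3]
  have hγ0 : γ ≠ 0 := by
    rintro rfl
    rw [zero_pow (by omega), zero_mul] at e1
    exact a5 e1.symm
  have e2 : z₀ + z₀ ^ q = (x₀ + x₀ ^ q) * γ := by
    refine mul_left_cancel₀ (mul_ne_zero (mul_ne_zero hN b5) (pow_ne_zero q hγ0)) ?_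
    linear_combination -(W' * γ ^ q) * a4 + W * W' * hγ + W * b4 -
      z₀ ^ (q * (s + 2)) * (x₀ + x₀ ^ q) * e1
  rw [e2, mul_pow, mul_assoc, e1]

variable [IsAlgClosed k] [IsAlgClosed Ω]

theorem AA_main (hq : IsQ q) (hs : Odd s) {U W : k[X][X]} (hU : U.Monic) (hW : W.Monic)
    (h : U * W ∣ EE k q s) {x₀ z₀ : k} (h1 : mu V U x₀ z₀ ≠ 0) (h2 : mu V W x₀ z₀ ≠ 0)
    (hA : z₀ ^ q ≠ z₀) :
    mu V U x₀ z₀ * mu V W x₀ z₀ ≤ q - 1 ∧
    (z₀ + z₀ ^ q) ^ (q + 1) * (x₀ * (x₀ + 1)) ^ q =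
      (x₀ + x₀ ^ q) ^ (q + 1) * (z₀ * (z₀ + 1)) ^ q ∧
    ∀ ε : k, ε = 0 ∨ ε = 1 → U * W * (X + C (X + C ε)) ∣ EE k q s → z₀ ≠ x₀ + ε := by
  classical
  obtain ⟨hk, c1, c2, -, hP⟩ := mu_mul_ne V hq hs hU hW h h1 h2
  have hq2 := hq.two_le
  have hkq : kap q s z₀ = q := by
    rcases kap_cases q s z₀ with ⟨a1, -⟩ | ⟨-, -, a1⟩ | ⟨-, a1, -⟩
    exacts [absurd c1 a1, a1, absurd a1 hA]
  have hsum := mu_add_le V hq hs hU hW h x₀ z₀
  rw [hkq] at hsum
  have hα := (cq_eq_zero hq c1).not.2 hA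
  obtain ⟨γ, hγ⟩ := IsAlgClosed.exists_pow_nat_eq
    (hh (q * (s + 1) + 1) x₀ / hh (q * (s + 1) + 1) z₀) (by omega : 0 < q)
  rw [eq_div_iff hα] at hγ
  have hUE := (dvd_mul_right U W).trans h
  have sub := rt_subset (x := algebraMap k Ω x₀ + V.τ) (EE_monic hq).1 hU hUE
  have est := fun a ha hz => AA_est V hq hs (a := a) ha hz hk c1 c2 hA hγ
  have hδ : hh (q * (s + 1)) z₀ * γ ^ (q + 1) + hh (q * (s + 1)) x₀ = 0 := by
    by_contra hδ
    have h3 := mu_level V hq hs hU hUE x₀ z₀ γ (r := q) (p := q + 1) (by omega) (by omega)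
      (Nat.isCoprime_iff_coprime.2 (by simp))
    rw [filter_congr fun a ha => and_iff_left_of_imp fun hz => (est a (sub ha) hz).1 hδ] at h3
    have := Nat.le_of_dvd (Nat.pos_of_ne_zero h1) h3
    unfold mu at *
    omega
  have h3 := mu_level V hq hs hU hUE x₀ z₀ γ (r := q - 1) (p := q) (by omega) (by omega)
    (Nat.isCoprime_iff_coprime.2 (by
      rw [show q = q - 1 + 1 by omega]; simp))
  have pair : ∀ a ∈ rt (algebraMap k Ω x₀ + V.τ) (EE k q s),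
      ∀ b ∈ rt (algebraMap k Ω x₀ + V.τ) (EE k q s), V.v (a - algebraMap k Ω z₀) < 1 → b ≠ a →
      V.v V.τ ^ q ≤ V.v (b - a) ^ (q - 1) := fun a ha b hb hz hab =>
    pair_A V hq hs (root_le V hq ha) (root_le V hq hb) hab
      (((mem_EE hq).1 hb).trans ((mem_EE hq).1 ha).symm)
      (((v_g_fin V hq hs hz).2 c1).trans (v_b_eq V hq hs ha hz hk))
  refine ⟨?_, J_rel hq c1 c2 hP hγ hδ, fun ε hε hL hz => ?_⟩
  · have h4 := card_filter_add_card_filter_not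
      (s := {a ∈ rt (algebraMap k Ω x₀ + V.τ) U | V.v (a - algebraMap k Ω z₀) < 1})
      (fun a => V.v (a - (algebraMap k Ω z₀ + algebraMap k Ω γ * V.τ)) ^ (q - 1) = V.v V.τ ^ q)
    rw [filter_filter, filter_filter] at h4
    have h5 : #{a ∈ rt (algebraMap k Ω x₀ + V.τ) U | V.v (a - algebraMap k Ω z₀) < 1 ∧
        ¬ V.v (a - (algebraMap k Ω z₀ + algebraMap k Ω γ * V.τ)) ^ (q - 1) = V.v V.τ ^ q} ≤ 1 := by
      rw [card_le_one]
      intro a ha b hb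
      obtain ⟨a1, a2, a3⟩ := mem_filter.1 ha
      obtain ⟨b1, b2, b3⟩ := mem_filter.1 hb
      by_contra hab
      have a4 := lt_of_le_of_ne ((est a (sub a1) a2).2 hδ) a3
      have b4 := lt_of_le_of_ne ((est b (sub b1) b2).2 hδ) b3
      have h6 := V.v.map_sub (a - (algebraMap k Ω z₀ + algebraMap k Ω γ * V.τ))
        (b - (algebraMap k Ω z₀ + algebraMap k Ω γ * V.τ))
      rw [sub_sub_sub_cancel_right] at h6
      refine (pair b (sub b1) a (sub a1) b2 hab).not_gt ?_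
      rcases le_max_iff.1 h6 with h7 | h7
      · exact (pow_le_pow_left₀ zero_le h7 _).trans_lt a4
      · exact (pow_le_pow_left₀ zero_le h7 _).trans_lt b4
    change _ = mu V U x₀ z₀ at h4
    rcases Nat.eq_zero_or_pos #{a ∈ rt (algebraMap k Ω x₀ + V.τ) U |
      V.v (a - algebraMap k Ω z₀) < 1 ∧
      V.v (a - (algebraMap k Ω z₀ + algebraMap k Ω γ * V.τ)) ^ (q - 1) = V.v V.τ ^ q} with h6 | h6
    · rw [show mu V U x₀ z₀ = 1 by omega]; omega
    · have := Nat.le_of_dvd h6 h3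
      rw [show mu V W x₀ z₀ = 1 by omega]; omega
  · have h4 : γ = 1 := by
      have h5 : hh (q * (s + 1) + 1) z₀ = hh (q * (s + 1) + 1) x₀ := by
        rcases hε with rfl | rfl
        · rw [hz, add_zero]
        · rw [hz, hh_add_one]
      rw [← h5, mul_eq_right₀ hα, ← CharTwo.add_eq_zero, ← one_pow q, ← hq.add_pow] at hγ
      exact CharTwo.add_eq_zero.1 (pow_eq_zero_iff (by omega) |>.1 hγ)
    subst h4
    have hm : (X + C (X + C ε) : k[X][X]).Monic := monic_X_add_C _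
    have h5 : algebraMap k Ω z₀ + algebraMap k Ω 1 * V.τ ∈
        rt (algebraMap k Ω x₀ + V.τ) (X + C (X + C ε) : k[X][X]) := by
      rw [mem_rt hm, hz]
      simp only [Polynomial.map_add, map_X, map_C, map_add, jj_X, jj_C, eval_add, eval_X, eval_C,
        map_one]
      rw [CharTwo.add_eq_zero]; ring
    have hSq := ((pl_fin V x₀).sq hq hs).of_dvd ((hU.mul hW).mul hm) hL
    have h6 := rt_subset (EE_monic hq).1 hm ((dvd_mul_left _ _).trans hL) h5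
    rw [filter_congr fun a ha => and_iff_left_of_imp fun hz' => le_antisymm
      ((est a (sub ha) hz').2 hδ) (by
        rw [V.v.map_sub_swap a]
        refine pair a (sub ha) _ h6 hz' fun e => disjoint_left.1 hSq.disj
          (rt_subset (hU.mul hW) hU (dvd_mul_right U W) ha) (e ▸ h5))] at h3
    have h7 := Nat.le_of_dvd (Nat.pos_of_ne_zero h1) h3
    have h8 := mu_add_le V hq hs (hU.mul hW) hm hL x₀ z₀
    have h9 : mu V U x₀ z₀ + mu V W x₀ z₀ ≤ mu V (U * W) x₀ z₀ :=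
      card_add_le (hSq.of_dvd (hU.mul hW) (dvd_mul_right _ _)) hU hW dvd_rfl _
    have h10 : mu V (X + C (X + C ε)) x₀ z₀ ≠ 0 :=
      card_ne_zero.2 ⟨_, mem_filter.2 ⟨h5, by simpa using V.τ_lt⟩⟩
    unfold mu at *
    omega

end

end Pool.Agent.Lib.MP_346d6a_co.M47
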