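import Pool.Agent.Lib.MP_346d6a_co.M47Inf

/-!
The Bezout inequality for two complementary parts of the curve.
-/

namespace Pool.Agent.Lib.MP_346d6a_co.M47

open Polynomial Finset

variable {q s : ℕ}

section

variable {k Ω : Type} [Field k] [Field Ω] [CharP Ω 2] [Algebra k Ω] (V : Val k Ω)

open Classical in
/-- The number of roots of `U` at infinity in the direction `ζ`. -/
noncomputable def nu (U : k[X][X]) (ζ : k) : ℕ :=
  #{a ∈ rt V.τ⁻¹ U | V.v (a - algebraMap k Ω ζ * V.τ⁻¹) < (V.v V.τ)⁻¹}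

omit [CharP Ω 2] in
theorem res_unique_inf {a : Ω} {y z : k} (h1 : V.v (a - algebraMap k Ω y * V.τ⁻¹) < (V.v V.τ)⁻¹)
    (h2 : V.v (a - algebraMap k Ω z * V.τ⁻¹) < (V.v V.τ)⁻¹) : y = z := by
  have := V.v.map_sub_lt h2 h1
  rw [sub_sub_sub_cancel_left, ← sub_mul, ← map_sub] at this
  by_contra h
  rw [v_cmul V (sub_ne_zero.2 h), map_inv₀] at this
  exact lt_irrefl _ this

variable [CharP k 2] [IsAlgClosed k] [IsAlgClosed Ω]

theorem nu_E_le (hq : IsQ q) (hs : Odd s) {ζ : k} (hζ : ζ ^ (s + 2) = 1) :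
    nu V (EE k q s) ζ ≤ q := by
  have hM := one_lt_M V
  have hy := v_zx V hζ
  have h2 := hq.two_le
  refine card_cluster_le V.v (fun a => a - algebraMap k Ω ζ * V.τ⁻¹) _ (zero_lt_one.trans hM) _
    (fun a ha => V.v.map_sub_le (root_inf_v V hq ha).le hy.le) _ ?_
  have e : ∀ y c : Ω, (hh (q * (s + 2) + 1) X + C c).comp (X + C y) =
      hh (q * (s + 2) + 1) (X + C y) + C c := fun y c => by simp [hh]
  rw [((pl_inf V).sq hq hs).shift, EE_map, e, (coeff_taylor hq hs _ _).2.1,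
    v_hh_even V (hy ▸ hM) (hq.even.mul_right _) (by positivity), hy,
    ((pl_inf V).sq hq hs).card, (EE_monic hq).2]
  ring

theorem nu_add_le (hq : IsQ q) (hs : Odd s) {U W : k[X][X]} (hU : U.Monic) (hW : W.Monic)
    (h : U * W ∣ EE k q s) {ζ : k} (hζ : ζ ^ (s + 2) = 1) : nu V U ζ + nu V W ζ ≤ q :=
  (card_add_le ((pl_inf V).sq hq hs) hU hW h _).trans (nu_E_le V hq hs hζ)

theorem nu_mul_ne (hq : IsQ q) (hs : Odd s) {U W : k[X][X]} (hU : U.Monic) (hW : W.Monic)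
    (h : U * W ∣ EE k q s) {ζ : k} (hζ : ζ ^ (s + 2) = 1) (h1 : nu V U ζ ≠ 0)
    (h2 : nu V W ζ ≠ 0) : ζ ^ q = ζ := by
  by_contra hc
  have h3 := nu_add_le V hq hs hU hW h hζ
  have h4 := hq.two_le
  have hUE := (dvd_mul_right U W).trans h
  have h5 := (pl_inf V).level (((pl_inf V).sq hq hs).of_dvd hU hUE) (C ζ * X) q (-1) (by omega)
    (isCoprime_one_right.neg_right)
  simp only [map_mul, jj_C, jj_X, zpow_neg, zpow_one] at h5
  have h6 : q ∣ nu V U ζ := by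
    rw [nu]
    convert h5 using 2
    refine filter_congr fun a ha => ⟨fun h7 =>
      (inf_est V hq hs (rt_subset (EE_monic hq).1 hU hUE ha) hζ h7).1 hc, fun h7 => ?_⟩
    by_contra h8
    have h9 := (one_lt_M V).trans_le (not_lt.1 h8)
    exact h7.not_gt ((not_lt.1 h8).trans_lt (lt_self_pow₀ h9 h4))
  have := Nat.le_of_dvd (Nat.pos_of_ne_zero h1) h6
  omega

theorem sum_nu (hq : IsQ q) (hs : Odd s) {U : k[X][X]} (hU : U.Monic) (h : U ∣ EE k q s) :
    ∑ ζ ∈ nthRootsFinset (s + 2) (1 : k), nu V U ζ = U.natDegree := by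
  classical
  rw [← (((pl_inf V).sq hq hs).of_dvd hU h).card]
  refine le_antisymm (sum_cl_le _ _
    (fun ζ a => V.v (a - algebraMap k Ω ζ * V.τ⁻¹) < (V.v V.τ)⁻¹)
    fun i j a => res_unique_inf V) (le_trans (card_le_card fun a ha => ?_) card_biUnion_le)
  obtain ⟨ζ, h1, h2⟩ := root_inf_res V hq hs (rt_subset (EE_monic hq).1 hU h ha)
  exact mem_biUnion.2 ⟨ζ, (mem_nthRootsFinset (by omega) _).2 h1, mem_filter.2 ⟨ha, h2⟩⟩

theorem sum_mu (hq : IsQ q) (hs : Odd s) {U : k[X][X]} (hU : U.Monic) (h : U ∣ EE k q s) (x₀ : k)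
    (T : Finset k) : ∑ z₀ ∈ T, mu V U x₀ z₀ ≤ U.natDegree := by
  rw [← (((pl_fin V x₀).sq hq hs).of_dvd hU h).card]
  exact sum_cl_le _ _ (fun z₀ a => V.v (a - algebraMap k Ω z₀) < 1) fun i j a => res_unique V

theorem II_inf (hq : IsQ q) (hs : Odd s) {U W : k[X][X]} (hU : U.Monic) (hW : W.Monic)
    (h : U * W ∣ EE k q s) : II V V.τ⁻¹ V.τ U W ≤
      ∑ ζ ∈ nthRootsFinset (s + 2) (1 : k), (nu V U ζ * nu V W ζ : ℕ) * (1 : ℝ) := by
  refine pair_sum _ _ (nthRootsFinset (s + 2) (1 : k))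
    (fun ζ a => V.v (a - algebraMap k Ω ζ * V.τ⁻¹) < (V.v V.τ)⁻¹) _ (fun _ => 1)
    (fun _ => zero_le_one) fun a ha b hb => ?_
  have ha' := rt_subset (EE_monic hq).1 hU ((dvd_mul_right U W).trans h) ha
  have hb' := rt_subset (EE_monic hq).1 hW ((dvd_mul_left W U).trans h) hb
  obtain ⟨ζ, hζ, hz⟩ := root_inf_res V hq hs hb'
  by_cases hz' : V.v (a - algebraMap k Ω ζ * V.τ⁻¹) < (V.v V.τ)⁻¹
  · refine .inr ⟨ζ, (mem_nthRootsFinset (by omega) _).2 hζ, hz', hz, ?_⟩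
    have hab : a ≠ b := fun e => disjoint_left.1
      (((pl_inf V).sq hq hs).of_dvd (hU.mul hW) h).disj ha (e ▸ hb)
    have := ord_le V (y := V.τ * (a - b)) (r := 1) (p := 1) (by
      rw [pow_one, pow_one, map_mul]
      exact le_mul_of_one_le_right' (pair_inf V hq hs hb' ha' hab))
    simpa using this
  · left
    have h3 : (V.v V.τ)⁻¹ ≤ V.v (a - b) := by
      by_contra h4
      refine hz' ?_
      simpa using V.v.map_add_lt (not_le.1 h4) hz
    have := ord_le V (y := V.τ * (a - b)) (r := 1) (p := 0) (by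
      rw [pow_zero, pow_one, map_mul, ← mul_inv_cancel₀ (t_pos V).ne']
      exact mul_le_mul_right h3 _)
    simpa using this

theorem bez_ineq (hq : IsQ q) (hs : Odd s) {U W : k[X][X]} (hU : U.Monic) (hW : W.Monic)
    (h : U * W ∣ EE k q s) : (U.natDegree * W.natDegree : ℝ) ≤
      ∑ x₀ ∈ crit k s, ∑ z₀ ∈ crit k s, (mu V U x₀ z₀ * mu V W x₀ z₀ : ℕ) * dd q z₀ +
      ∑ ζ ∈ nthRootsFinset (s + 2) (1 : k), (nu V U ζ * nu V W ζ : ℕ) := by
  rw [bezout V hU hW (fun x hx => (hx.sq hq hs).of_dvd (hU.mul hW) h) (crit k s)]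
  · refine add_le_add (sum_le_sum fun x₀ _ => II_fin V hq hs hU hW h x₀) ?_
    simpa using II_inf V hq hs hU hW h
  · intro x₀ hx
    refine (II_fin V hq hs hU hW h x₀).trans (sum_nonpos fun z₀ _ => le_of_eq ?_)
    rw [mul_eq_zero, Nat.cast_eq_zero, mul_eq_zero]
    by_contra hc
    push Not at hc
    exact hx ((mem_crit hs).2 (mu_mul_ne V hq hs hU hW h hc.1.1 hc.1.2).2.2.1)

theorem nu_one (hq : IsQ q) (hs : Odd s) {U W : k[X][X]} (hU : U.Monic) (hW : W.Monic)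
    (h : U * W * ((X + C (X + C 0)) * (X + C (X + C 1))) ∣ EE k q s) :
    nu V U 1 + nu V W 1 + 2 ≤ q := by
  have hm : ∀ ε : k, (X + C (X + C ε) : k[X][X]).Monic := fun ε => monic_X_add_C _
  have h1 := nu_add_le V hq hs (hU.mul hW) ((hm 0).mul (hm 1)) h (one_pow _)
  have hSq := ((pl_inf V).sq hq hs).of_dvd ((hU.mul hW).mul ((hm 0).mul (hm 1))) h
  have h2 : nu V U 1 + nu V W 1 ≤ nu V (U * W) 1 :=
    card_add_le (hSq.of_dvd (hU.mul hW) (dvd_mul_right _ _)) hU hW dvd_rfl _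
  have h3 : nu V (X + C (X + C 0)) 1 + nu V (X + C (X + C 1)) 1 ≤
      nu V ((X + C (X + C 0)) * (X + C (X + C 1))) 1 :=
    card_add_le (hSq.of_dvd ((hm 0).mul (hm 1)) (dvd_mul_left _ _)) (hm 0) (hm 1) dvd_rfl _
  have h4 : ∀ ε : k, nu V (X + C (X + C ε)) 1 ≠ 0 := fun ε =>
    card_ne_zero.2 ⟨V.τ⁻¹ + algebraMap k Ω ε, mem_filter.2 ⟨by
      rw [mem_rt (hm ε)]
      simp [CharTwo.add_self_eq_zero], by
      simpa using (const_le V ε).trans_lt (one_lt_M V)⟩⟩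
  have := h4 0
  have := h4 1
  omega

end

end Pool.Agent.Lib.MP_346d6a_co.M47
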