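import Pool.Agent.Lib.MP_346d6a_co.M47Fin

/-!
Sizes of clusters at finite places and the local intersection numbers.
-/

namespace Pool.Agent.Lib.MP_346d6a_co.M47

open Polynomial Finset

variable {q s : ℕ}

section

variable {k Ω : Type} [Field k] [CharP k 2] [Field Ω] [CharP Ω 2] [Algebra k Ω] (V : Val k Ω)

open Classical in
/-- The number of roots of `U` above `x₀` with residue `z₀`. -/
noncomputable def mu (U : k[X][X]) (x₀ z₀ : k) : ℕ :=
  #{a ∈ rt (algebraMap k Ω x₀ + V.τ) U | V.v (a - algebraMap k Ω z₀) < 1}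

open Classical in
variable (k) in
/-- The critical points. -/
noncomputable def crit (s : ℕ) : Finset k := (hh (s + 2) (X : k[X])).roots.toFinset

theorem mem_crit (hs : Odd s) {y : k} : y ∈ crit k s ↔ hh (s + 2) y = 0 := by
  classical
  rw [crit, Multiset.mem_toFinset, mem_roots (hh_monic hs.add_one).1.ne_zero]
  simp [hh]

theorem card_crit (hs : Odd s) : #(crit k s) ≤ s + 1 := by
  classical
  refine (Multiset.toFinset_card_le _).trans ((card_roots' _).trans ?_)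
  exact (hh_monic hs.add_one).2.le

omit [CharP k 2] [CharP Ω 2] in
theorem card_add_le {x : Ω} {U W F : k[X][X]} (hF : Sq x F) (hU : U.Monic) (hW : W.Monic)
    (h : U * W ∣ F) (p : Ω → Prop) [DecidablePred p] :
    #((rt x U).filter p) + #((rt x W).filter p) ≤ #((rt x F).filter p) := by
  classical
  rw [← card_union_of_disjoint (disjoint_filter_filter (hF.of_dvd (hU.mul hW) h).disj),
    ← filter_union]
  refine card_le_card (filter_subset_filter _ (union_subset ?_ ?_))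
  · exact rt_subset hF.1 hU ((dvd_mul_right U W).trans h)
  · exact rt_subset hF.1 hW ((dvd_mul_left W U).trans h)

omit [CharP k 2] [CharP Ω 2] in
theorem res_unique {a : Ω} {y z : k} (h1 : V.v (a - algebraMap k Ω y) < 1)
    (h2 : V.v (a - algebraMap k Ω z) < 1) : y = z := by
  have := V.v.map_sub_lt h2 h1
  rw [sub_sub_sub_cancel_left, ← map_sub] at this
  exact sub_eq_zero.1 (const_eq_zero V this)

variable [IsAlgClosed k] [IsAlgClosed Ω]

theorem mu_E_le (hq : IsQ q) (hs : Odd s) (x₀ z₀ : k) : mu V (EE k q s) x₀ z₀ ≤ kap q s z₀ := by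
  refine card_cluster_le V.v (fun a => a - algebraMap k Ω z₀) 1 one_pos _
    (fun a ha => V.v.map_sub_le (root_le V hq ha) (const_le V _)) _ ?_
  have e : ∀ y c : Ω, (hh (q * (s + 2) + 1) X + C c).comp (X + C y) =
      hh (q * (s + 2) + 1) (X + C y) + C c := fun y c => by simp [hh]
  rw [((pl_fin V x₀).sq hq hs).shift, EE_map, e, one_pow, one_pow, mul_one]
  obtain ⟨h1, h2, h3⟩ := coeff_taylor hq hs (algebraMap k Ω z₀)
    (hh (q * (s + 2) + 1) (algebraMap k Ω x₀ + V.τ))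
  rcases kap_cases q s z₀ with ⟨h4, h⟩ | ⟨h4, h5, h⟩ | ⟨h4, h5, h⟩ <;> rw [h]
  · rw [h1, ← map_hh, hh_frob hq]; exact V.const _ (pow_ne_zero _ h4)
  · rw [h2, ← map_hh]; exact V.const _ ((cq_eq_zero hq h4).not.2 h5)
  · rw [h3, ← map_hh]; exact V.const _ (cr_ne hq h4)

theorem mu_add_le (hq : IsQ q) (hs : Odd s) {U W : k[X][X]} (hU : U.Monic) (hW : W.Monic)
    (h : U * W ∣ EE k q s) (x₀ z₀ : k) : mu V U x₀ z₀ + mu V W x₀ z₀ ≤ kap q s z₀ :=
  (card_add_le ((pl_fin V x₀).sq hq hs) hU hW h _).trans (mu_E_le V hq hs x₀ z₀)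

open Classical in
theorem mu_level (hq : IsQ q) (hs : Odd s) {U : k[X][X]} (hU : U.Monic) (h : U ∣ EE k q s)
    (x₀ z₀ γ : k) {r p : ℕ} (hr : 0 < r) (hp : 0 < p) (hc : IsCoprime (r : ℤ) p) :
    r ∣ #{a ∈ rt (algebraMap k Ω x₀ + V.τ) U | V.v (a - algebraMap k Ω z₀) < 1 ∧
      V.v (a - (algebraMap k Ω z₀ + algebraMap k Ω γ * V.τ)) ^ r = V.v V.τ ^ p} := by
  have h1 := (pl_fin V x₀).level (((pl_fin V x₀).sq hq hs).of_dvd hU h)
    (C z₀ + C γ * (X - C x₀)) r p hr hc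
  simp only [map_add, map_mul, map_sub, jj_C, jj_X, add_sub_cancel_left, zpow_natCast] at h1
  convert h1 using 3 with a
  refine and_iff_right_of_imp fun h2 => ?_
  have h3 := (pow_lt_one_iff_of_nonneg zero_le hr.ne').1
    (h2.trans_lt (pow_lt_one₀ zero_le V.τ_lt hp.ne'))
  have h4 := V.v.map_add_lt h3 ((v_cmul_le V γ V.τ).trans_lt V.τ_lt)
  convert h4 using 2
  ring

theorem mu_dvd (hq : IsQ q) (hs : Odd s) {U : k[X][X]} (hU : U.Monic) (h : U ∣ EE k q s)
    {x₀ z₀ : k} (hc : kap q s z₀ ≠ kap q s x₀) : kap q s z₀ ∣ mu V U x₀ z₀ := by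
  have h1 := mu_level V hq hs hU h x₀ z₀ 0 (kap_pos hq z₀) (kap_pos hq x₀) (kap_cop hc)
  rw [mu]
  convert h1 using 2
  refine filter_congr fun a ha => (and_iff_left_of_imp fun h2 => ?_).symm
  rw [map_zero, zero_mul, add_zero]
  exact (root_fin V hq hs (rt_subset (EE_monic hq).1 hU h ha) h2).2

theorem mu_mul_ne (hq : IsQ q) (hs : Odd s) {U W : k[X][X]} (hU : U.Monic) (hW : W.Monic)
    (h : U * W ∣ EE k q s) {x₀ z₀ : k} (h1 : mu V U x₀ z₀ ≠ 0) (h2 : mu V W x₀ z₀ ≠ 0) :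
    kap q s z₀ = kap q s x₀ ∧ hh (s + 2) z₀ = 0 ∧ hh (s + 2) x₀ = 0 ∧
      (z₀ ^ q = z₀ ↔ x₀ ^ q = x₀) ∧ hh (q * (s + 2) + 1) z₀ = hh (q * (s + 2) + 1) x₀ := by
  have h3 := mu_add_le V hq hs hU hW h x₀ z₀
  have h4 : kap q s z₀ = kap q s x₀ := by
    by_contra hc
    have h5 := Nat.le_of_dvd (Nat.pos_of_ne_zero h1)
      (mu_dvd V hq hs hU ((dvd_mul_right U W).trans h) hc)
    omega
  obtain ⟨a, ha⟩ := card_ne_zero.1 h1
  have h5 := (root_fin V hq hs (rt_subset (EE_monic hq).1 hU ((dvd_mul_right U W).trans h)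
    (mem_filter.1 ha).1) (mem_filter.1 ha).2).1
  have h6 := hq.two_le
  refine ⟨h4, ?_⟩
  rcases kap_cases q s z₀ with ⟨-, a1⟩ | ⟨a1, a2, a3⟩ | ⟨a1, a2, a3⟩ <;>
    rcases kap_cases q s x₀ with ⟨-, b1⟩ | ⟨b1, b2, b3⟩ | ⟨b1, b2, b3⟩ <;>
    first | omega | exact ⟨a1, b1, by simp [a2, b2], h5⟩

omit [IsAlgClosed k] [IsAlgClosed Ω] in
theorem v_b_eq (hq : IsQ q) (hs : Odd s) {x₀ z₀ : k} {a : Ω}
    (ha : a ∈ rt (algebraMap k Ω x₀ + V.τ) (EE k q s)) (hz : V.v (a - algebraMap k Ω z₀) < 1)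
    (hk : kap q s z₀ = kap q s x₀) : V.v (a - algebraMap k Ω z₀) = V.v V.τ := by
  have h := (root_fin V hq hs ha hz).2
  rwa [← hk, pow_left_inj₀ zero_le zero_le (kap_pos hq _).ne'] at h

open Classical in
/-- The distance of two roots in a critical cluster. -/
noncomputable def dd (q : ℕ) (z₀ : k) : ℝ := if z₀ ^ q = z₀ then 1 else q / (q - 1)

theorem II_fin (hq : IsQ q) (hs : Odd s) {U W : k[X][X]} (hU : U.Monic) (hW : W.Monic)
    (h : U * W ∣ EE k q s) (x₀ : k) : II V (algebraMap k Ω x₀ + V.τ) 1 U W ≤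
      ∑ z₀ ∈ crit k s, (mu V U x₀ z₀ * mu V W x₀ z₀ : ℕ) * dd q z₀ := by
  have h2 : (2 : ℝ) ≤ q := by exact_mod_cast hq.two_le
  refine pair_sum _ _ (crit k s) (fun z₀ a => V.v (a - algebraMap k Ω z₀) < 1) _ (dd q)
    (fun z₀ => ?_) fun a ha b hb => ?_
  · unfold dd
    split_ifs
    · exact zero_le_one
    · exact div_nonneg (by linarith) (by linarith)
  have ha' := rt_subset (EE_monic hq).1 hU ((dvd_mul_right U W).trans h) ha
  have hb' := rt_subset (EE_monic hq).1 hW ((dvd_mul_left W U).trans h) hb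
  obtain ⟨z₀, hz⟩ := V.res b (root_le V hq hb')
  rw [one_mul]
  by_cases hz' : V.v (a - algebraMap k Ω z₀) < 1
  · obtain ⟨h3, h4, -⟩ := mu_mul_ne V hq hs hU hW h
      (card_ne_zero.2 ⟨a, mem_filter.2 ⟨ha, hz'⟩⟩) (card_ne_zero.2 ⟨b, mem_filter.2 ⟨hb, hz⟩⟩)
    refine .inr ⟨z₀, (mem_crit hs).2 h4, hz', hz, ?_⟩
    have hab : a ≠ b := fun e => disjoint_left.1
      (((pl_fin V x₀).sq hq hs).of_dvd (hU.mul hW) h).disj ha (e ▸ hb)
    have h5 := v_b_eq V hq hs hb' hz h3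
    have h6 := ((v_g_fin V hq hs hz).2 h4).trans h5
    have h7 := ((mem_EE hq).1 ha').trans ((mem_EE hq).1 hb').symm
    unfold dd
    split_ifs with h8
    · have h9 := v_hh_lip V.v (const_le V z₀) hz.le (q * (s + 1) + 1)
      rw [← map_hh, (cq_eq_zero hq h4).2 h8, map_zero, add_zero, add_sub_cancel, h5] at h9
      have := ord_le V (y := a - b) (r := 1) (p := 1) (by
        simpa using pair_B V hq hs (root_le V hq hb') (root_le V hq ha') hab h7 h6 h9)
      simpa using this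
    · have := ord_le V (pair_A V hq hs (root_le V hq hb') (root_le V hq ha') hab h7 h6)
      rw [Nat.cast_sub (by have := hq.two_le; omega), Nat.cast_one] at this
      rw [le_div_iff₀ (by linarith), mul_comm]
      exact this
  · left
    have h3 : 1 ≤ V.v (a - b) := by
      by_contra h4
      refine hz' ?_
      simpa using V.v.map_add_lt (not_le.1 h4) hz
    simpa using ord_le V (y := a - b) (r := 1) (p := 0) (by simpa using h3)

omit [IsAlgClosed k] [IsAlgClosed Ω] in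
theorem AA_est (hq : IsQ q) (hs : Odd s) {x₀ z₀ γ : k} {a : Ω}
    (ha : a ∈ rt (algebraMap k Ω x₀ + V.τ) (EE k q s)) (hz : V.v (a - algebraMap k Ω z₀) < 1)
    (hk : kap q s z₀ = kap q s x₀) (h1 : hh (s + 2) z₀ = 0) (h2 : hh (s + 2) x₀ = 0)
    (hA : z₀ ^ q ≠ z₀) (hγ : γ ^ q * hh (q * (s + 1) + 1) z₀ = hh (q * (s + 1) + 1) x₀) :
    (hh (q * (s + 1)) z₀ * γ ^ (q + 1) + hh (q * (s + 1)) x₀ ≠ 0 →
      V.v (a - (algebraMap k Ω z₀ + algebraMap k Ω γ * V.τ)) ^ q = V.v V.τ ^ (q + 1)) ∧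
    (hh (q * (s + 1)) z₀ * γ ^ (q + 1) + hh (q * (s + 1)) x₀ = 0 →
      V.v (a - (algebraMap k Ω z₀ + algebraMap k Ω γ * V.τ)) ^ (q - 1) ≤ V.v V.τ ^ q) := by
  have h3 := hq.two_le
  have hb := v_b_eq V hq hs ha hz hk
  obtain ⟨R, hR, e⟩ := tay_fin V hq hs z₀ hz.le
  obtain ⟨R', hR', e'⟩ := tay_fin V hq hs x₀ V.τ_lt.le
  rw [add_sub_cancel, (mem_EE hq).1 ha, (root_fin V hq hs ha hz).1, e', hh_frob hq (s + 2),
    hh_frob hq (s + 2), h1, h2, zero_pow (by omega), map_zero, zero_mul, zero_mul, zero_add,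
    zero_add, ← hγ] at e
  have hα := (cq_eq_zero hq h1).not.2 hA
  generalize hh (q * (s + 1) + 1) z₀ = α at *
  generalize hh (q * (s + 1)) z₀ = β at *
  generalize hh (q * (s + 1)) x₀ = β' at *
  have e1 : a - algebraMap k Ω z₀ =
      algebraMap k Ω γ * V.τ + (a - (algebraMap k Ω z₀ + algebraMap k Ω γ * V.τ)) := by ring
  generalize a - (algebraMap k Ω z₀ + algebraMap k Ω γ * V.τ) = w at *
  have hR2 : V.v (R + R') ≤ V.v V.τ ^ (2 * q) := V.v.map_add_le (hb ▸ hR) hR'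
  have ht := t_pos V
  have lt : ∀ {i j : ℕ}, i < j → V.v V.τ ^ j < V.v V.τ ^ i :=
    pow_lt_pow_right_of_lt_one₀ ht V.τ_lt
  have two : (2 : Ω) = 0 := CharTwo.two_eq_zero
  have e2 : (a - algebraMap k Ω z₀) ^ q = algebraMap k Ω γ ^ q * V.τ ^ q + w ^ q := by
    rw [e1, hq.add_pow, mul_pow]
  have e3 : algebraMap k Ω α * w ^ q = algebraMap k Ω β' * V.τ ^ (q + 1) +
      (algebraMap k Ω β * (a - algebraMap k Ω z₀) ^ (q + 1) + (R + R')) := by
    rw [e2, map_mul, map_pow] at e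
    linear_combination -e - (algebraMap k Ω β * (a - algebraMap k Ω z₀) ^ (q + 1) + R) * two
  have hw1 : V.v w ^ q ≤ V.v V.τ ^ (q + 1) := by
    rw [← map_pow, ← v_cmul V hα, e3]
    refine V.v.map_add_le ((v_cmul_le V _ _).trans (by rw [map_pow])) (V.v.map_add_le
      ((v_cmul_le V _ _).trans (by rw [map_pow, hb])) (hR2.trans (lt (by omega)).le))
  have hw2 : V.v w < V.v V.τ := lt_of_pow_lt_pow_left₀ q zero_le (hw1.trans_lt (lt (by omega)))
  have e4 : algebraMap k Ω α * w ^ q = algebraMap k Ω (β * γ ^ (q + 1) + β') * V.τ ^ (q + 1) +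
      (algebraMap k Ω (β * γ ^ q) * (V.τ ^ q * w) + (algebraMap k Ω (β * γ) * (V.τ * w ^ q) +
      (algebraMap k Ω β * w ^ (q + 1) + (R + R')))) := by
    rw [e3, pow_succ (a - _), e2, e1]
    simp only [map_add, map_mul, map_pow]
    ring
  have key : ∀ B, V.v V.τ ^ q * V.v w < B → V.v V.τ * V.v w ^ q < B → V.v w ^ (q + 1) < B →
      V.v V.τ ^ (2 * q) < B → V.v (algebraMap k Ω (β * γ ^ q) * (V.τ ^ q * w) +
      (algebraMap k Ω (β * γ) * (V.τ * w ^ q) + (algebraMap k Ω β * w ^ (q + 1) + (R + R')))) <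
      B := fun B b1 b2 b3 b4 => by
    refine V.v.map_add_lt ?_ (V.v.map_add_lt ?_ (V.v.map_add_lt ?_ (hR2.trans_lt b4))) <;>
      refine (v_cmul_le V _ _).trans_lt ?_ <;> simpa
  refine ⟨fun hδ => ?_, fun hδ => ?_⟩
  · have h4 := v_cmul V hδ (V.τ ^ (q + 1))
    rw [← map_pow, ← v_cmul V hα, e4, v_eq_of_lt, h4, map_pow]
    rw [h4, map_pow]
    refine key _ ?_ ?_ (pow_lt_pow_left₀ hw2 zero_le (by omega)) (lt (by omega))
    · rw [pow_succ]; gcongr
    · refine (mul_le_mul_right hw1 _).trans_lt ?_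
      rw [← pow_succ']; exact lt (by omega)
  · by_contra hn
    have hn := not_le.1 hn
    have hw0 : 0 < V.v w := pos_of_ne_zero fun h0 => by
      rw [h0, zero_pow (by omega)] at hn; exact hn.not_ge zero_le
    have h4 := congrArg V.v e4
    rw [v_cmul V hα, hδ, map_zero, zero_mul, zero_add, map_pow] at h4
    refine h4.not_gt (key _ ?_ ?_ ?_ ?_)
    · rw [show q = q - 1 + 1 by omega, pow_succ (V.v w), Nat.sub_add_cancel (by omega)]
      gcongr
    · exact mul_lt_of_lt_one_left (by positivity) V.τ_lt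
    · exact pow_lt_pow_right_of_lt_one₀ hw0 (hw2.trans V.τ_lt) (by omega)
    · rw [pow_mul]
      refine pow_lt_pow_left₀ (lt_of_pow_lt_pow_left₀ (q - 1) zero_le (lt_of_le_of_lt ?_ hn))
        zero_le (by omega)
      rw [← pow_mul]
      exact pow_le_pow_right_of_le_one' V.τ_lt.le (by omega)

end

end Pool.Agent.Lib.MP_346d6a_co.M47
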