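import Pool.Agent.Lib.MP_346d6a_co.M47Tay

/-!
The curve `P(z) = P(x)` and its clusters at finite places.
-/

namespace Pool.Agent.Lib.MP_346d6a_co.M47

open Polynomial Finset

variable {q s : ℕ}

section

variable {k : Type} [Field k] [CharP k 2]

variable (k) in
/-- The curve. -/
noncomputable def EE (q s : ℕ) : k[X][X] := hh (q * (s + 2) + 1) X + C (hh (q * (s + 2) + 1) X)

theorem EE_monic (hq : IsQ q) : (EE k q s).Monic ∧ (EE k q s).natDegree = q * (s + 2) := by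
  have h := hh_monic (R := k[X]) (hq.even.mul_right (s + 2))
  have h2 := hq.two_le
  refine ⟨h.1.add_of_left (degree_C_le.trans_lt ?_), by rw [EE, natDegree_add_C, h.2]⟩
  rw [← natDegree_pos_iff_degree_pos, h.2]
  positivity

open Classical in
/-- The multiplicity of `y` as a root of `P - P(y)`. -/
noncomputable def kap (q s : ℕ) (y : k) : ℕ :=
  if hh (s + 2) y ≠ 0 then 1 else if y ^ q ≠ y then q else q + 1

theorem crit_id (hq : IsQ q) {y : k} (h : hh (s + 2) y = 0) :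
    y * (y + 1) ≠ 0 ∧ hh (q * (s + 2) + 1) y = y ^ (q * (s + 2)) ∧
    hh (q * (s + 1)) y * (y * (y + 1)) ^ q = y ^ (q * (s + 2)) ∧
    hh (q * (s + 1) + 1) y * (y * (y + 1)) ^ q = y ^ (q * (s + 2)) * (y + y ^ q) := by
  have h1 : (y + 1) ^ (s + 2) = y ^ (s + 2) := (CharTwo.add_eq_zero.1 h).symm
  have h2 : (y + 1) ^ (q * (s + 2)) = y ^ (q * (s + 2)) := by
    rw [mul_comm, pow_mul, pow_mul, h1]
  have h3 : (y + 1) ^ q = y ^ q + 1 := by rw [hq.add_pow, one_pow]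
  have two : (2 : k) = 0 := CharTwo.two_eq_zero
  refine ⟨mul_ne_zero ?_ ?_, ?_, ?_, ?_⟩
  · rintro rfl
    simp at h1
  · intro h0
    rw [h0, CharTwo.add_eq_zero.1 h0] at h1
    simp at h1
  · rw [hh, pow_succ, pow_succ, h2]
    linear_combination y ^ (q * (s + 2)) * y * two
  · have : hh (q * (s + 1)) y * (y * (y + 1)) ^ q =
        y ^ (q * (s + 2)) * (y + 1) ^ q + (y + 1) ^ (q * (s + 2)) * y ^ q := by
      rw [hh, mul_pow]; ring
    rw [this, h2, h3]
    linear_combination y ^ (q * (s + 2)) * y ^ q * two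
  · have : hh (q * (s + 1) + 1) y * (y * (y + 1)) ^ q =
        y ^ (q * (s + 2)) * y * (y + 1) ^ q + (y + 1) ^ (q * (s + 2)) * (y + 1) * y ^ q := by
      rw [hh, mul_pow]; ring
    rw [this, h2, h3]
    linear_combination y ^ (q * (s + 2)) * y * y ^ q * two

theorem cr_ne (hq : IsQ q) {y : k} (h : hh (s + 2) y = 0) : hh (q * (s + 1)) y ≠ 0 := by
  obtain ⟨h1, -, h2, -⟩ := crit_id hq h
  intro h0
  rw [h0, zero_mul] at h2
  exact pow_ne_zero _ (left_ne_zero_of_mul h1) h2.symm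

theorem cq_eq_zero (hq : IsQ q) {y : k} (h : hh (s + 2) y = 0) :
    hh (q * (s + 1) + 1) y = 0 ↔ y ^ q = y := by
  obtain ⟨h1, -, -, h2⟩ := crit_id hq h
  rw [← mul_left_inj' (pow_ne_zero q h1), zero_mul, h2, mul_eq_zero, CharTwo.add_eq_zero, eq_comm (a := y)]
  exact or_iff_right (pow_ne_zero _ (left_ne_zero_of_mul h1))

theorem kap_cases (q s : ℕ) (y : k) : (hh (s + 2) y ≠ 0 ∧ kap q s y = 1) ∨
    (hh (s + 2) y = 0 ∧ y ^ q ≠ y ∧ kap q s y = q) ∨
    (hh (s + 2) y = 0 ∧ y ^ q = y ∧ kap q s y = q + 1) := by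
  unfold kap
  split_ifs with h1 h2
  · exact .inl ⟨h1, rfl⟩
  · exact .inr (.inl ⟨not_not.1 h1, h2, rfl⟩)
  · exact .inr (.inr ⟨not_not.1 h1, not_not.1 h2, rfl⟩)

theorem kap_pos (hq : IsQ q) (y : k) : 0 < kap q s y := by
  have := hq.two_le
  rcases kap_cases q s y with h | h | h <;> omega

theorem kap_cop {y z : k} (h : kap q s y ≠ kap q s z) :
    IsCoprime (kap q s y : ℤ) (kap q s z : ℤ) := by
  rw [Nat.isCoprime_iff_coprime]
  rcases kap_cases q s y with ⟨-, h1⟩ | ⟨-, -, h1⟩ | ⟨-, -, h1⟩ <;>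
    rcases kap_cases q s z with ⟨-, h2⟩ | ⟨-, -, h2⟩ | ⟨-, -, h2⟩ <;>
    simp_all

end

section

variable {k Ω : Type} [Field k] [CharP k 2] [Field Ω] [CharP Ω 2] [Algebra k Ω] (V : Val k Ω)

omit [CharP k 2] [CharP Ω 2] in
theorem EE_map (x : Ω) : (EE k q s).map (jj x) =
    hh (q * (s + 2) + 1) X + C (hh (q * (s + 2) + 1) x) := by
  rw [EE, Polynomial.map_add, map_C, map_hh, jj_X]
  simp [hh]

theorem mem_EE (hq : IsQ q) {x a : Ω} :
    a ∈ rt x (EE k q s) ↔ hh (q * (s + 2) + 1) a = hh (q * (s + 2) + 1) x := by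
  rw [mem_rt (EE_monic hq).1, EE_map, ← CharTwo.add_eq_zero (a := hh _ a)]
  simp [hh]

variable {V} in
theorem Pl.sq [IsAlgClosed k] {x : Ω} (hx : Pl V x) (hq : IsQ q) (hs : Odd s) :
    Sq x (EE k q s) := by
  classical
  refine ⟨(EE_monic hq).1, Multiset.nodup_iff_count_le_one.2 fun z => ?_⟩
  by_contra h
  rw [count_roots, not_le,
    one_lt_rootMultiplicity_iff_isRoot ((EE_monic hq).1.map _).ne_zero] at h
  have h1 := (mem_EE hq).1 ((mem_rt (EE_monic hq).1).2 h.1)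
  have h2 : hh (s + 2) z = 0 := by
    have h3 := h.2
    have h4 : ((q * (s + 2) + 1 : ℕ) : Ω) = 1 := cast_odd (hq.even.mul_right _).add_one
    rw [EE_map, IsRoot.def, hh, derivative_add, derivative_C, derivative_add, derivative_X_pow,
      derivative_pow, h4] at h3
    have h5 : hh (q * (s + 2)) z = 0 := by simpa [hh] using h3
    rw [hh_frob hq] at h5
    exact pow_eq_zero_iff (by have := hq.two_le; omega) |>.1 h5
  obtain ⟨c, rfl⟩ : z ∈ (algebraMap k Ω).range := by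
    refine (IsAlgClosed.splits (hh (s + 2) X)).mem_range_of_isRoot
      (hh_monic hs.add_one).1.ne_zero ?_
    simpa [hh] using h2
  have h3 : jj x (hh (q * (s + 2) + 1) (X : k[X])) = jj x (C (hh (q * (s + 2) + 1) c)) := by
    rw [map_hh, jj_X, jj_C, map_hh, h1]
  have h4 := congrArg natDegree (hx.inj h3)
  rw [(hh_monic (hq.even.mul_right _)).2, natDegree_C] at h4
  have := hq.two_le
  simp only [mul_eq_zero] at h4
  omega

omit [CharP k 2] in
theorem tay_fin (hq : IsQ q) (hs : Odd s) (y : k) {b : Ω} (hb : V.v b ≤ 1) :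
    ∃ R, V.v R ≤ V.v b ^ (2 * q) ∧
      hh (q * (s + 2) + 1) (algebraMap k Ω y + b) + algebraMap k Ω (hh (q * (s + 2) + 1) y) =
      algebraMap k Ω (hh (q * (s + 2)) y) * b + algebraMap k Ω (hh (q * (s + 1) + 1) y) * b ^ q +
      algebraMap k Ω (hh (q * (s + 1)) y) * b ^ (q + 1) + R := by
  refine ⟨b ^ (2 * q) * rem q s (algebraMap k Ω y) b, ?_, ?_⟩
  · rw [map_mul, map_pow]
    exact mul_le_of_le_one_right' (by simpa using v_rem V.v le_rfl (const_le V y) hb)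
  · simp only [map_hh]
    rw [hh_taylor hq hs]
    linear_combination hh (q * (s + 2) + 1) (algebraMap k Ω y) * (CharTwo.two_eq_zero (R := Ω))

omit [CharP k 2] [CharP Ω 2] in
theorem v_cmul_le (c : k) (b : Ω) : V.v (algebraMap k Ω c * b) ≤ V.v b := by
  rw [map_mul]; exact mul_le_of_le_one_left' (const_le V c)

omit [CharP k 2] [CharP Ω 2] in
theorem v_cmul {c : k} (hc : c ≠ 0) (b : Ω) : V.v (algebraMap k Ω c * b) = V.v b := by
  rw [map_mul, V.const c hc, one_mul]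

theorem kap_val (hq : IsQ q) (hs : Odd s) (y : k) {b : Ω} (hb : V.v b < 1) :
    V.v (hh (q * (s + 2) + 1) (algebraMap k Ω y + b) + algebraMap k Ω (hh (q * (s + 2) + 1) y)) =
      V.v b ^ kap q s y := by
  rcases eq_or_ne b 0 with rfl | h0
  · rw [add_zero, map_hh, CharTwo.add_self_eq_zero, map_zero, zero_pow (kap_pos hq y).ne']
  have hp : 0 < V.v b := pos_iff_ne_zero.2 ((Valuation.ne_zero_iff _).2 h0)
  have h2 := hq.two_le
  obtain ⟨R, hR, e⟩ := tay_fin V hq hs y hb.le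
  have lt : ∀ {i j : ℕ}, i < j → V.v b ^ j < V.v b ^ i := pow_lt_pow_right_of_lt_one₀ hp hb
  have le : ∀ (c : k) {i j : ℕ}, i < j → V.v (algebraMap k Ω c * b ^ j) < V.v b ^ i :=
    fun c i j h => (v_cmul_le V c _).trans_lt (by rw [map_pow]; exact lt h)
  rw [e, hh_frob hq]
  rcases kap_cases q s y with ⟨h1, h⟩ | ⟨h1, h3, h⟩ | ⟨h1, h3, h⟩ <;> rw [h]
  · have h4 := v_cmul V (pow_ne_zero q h1) b
    rw [add_assoc, add_assoc, v_eq_of_lt, h4, pow_one]
    rw [h4, ← pow_one (V.v b)]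
    exact V.v.map_add_lt (le _ h2) (V.v.map_add_lt (le _ (by omega)) (hR.trans_lt (lt (by omega))))
  · have h4 := v_cmul V ((cq_eq_zero hq h1).not.2 h3) (b ^ q)
    rw [h1, zero_pow (by omega), map_zero, zero_mul, zero_add, add_assoc, v_eq_of_lt, h4, map_pow]
    rw [h4, map_pow]
    exact V.v.map_add_lt (le _ (by omega)) (hR.trans_lt (lt (by omega)))
  · have h4 := v_cmul V (cr_ne hq h1) (b ^ (q + 1))
    rw [h1, zero_pow (by omega), (cq_eq_zero hq h1).2 h3, map_zero, zero_mul, zero_mul, zero_add,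
      zero_add, v_eq_of_lt, h4, map_pow]
    rw [h4, map_pow]
    exact hR.trans_lt (lt (by omega))

omit [CharP k 2] in
theorem v_P_eq (hq : IsQ q) {y : Ω} (hy : 1 < V.v y) :
    V.v (hh (q * (s + 2) + 1) y) = V.v y ^ (q * (s + 2)) := by
  have h2 := hq.two_le
  have h3 : 0 < q * (s + 2) := by positivity
  obtain ⟨m, hm⟩ : ∃ m, q * (s + 2) = m + 1 := ⟨q * (s + 2) - 1, by omega⟩
  have h4 : Odd m := by
    have := hq.even.mul_right (s + 2)
    rwa [hm, Nat.even_add_one, Nat.not_even_iff_odd] at this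
  rw [hm]
  exact v_hh_eq V.v hy h4

omit [CharP k 2] [CharP Ω 2] in
theorem v_x_le (x₀ : k) : V.v (algebraMap k Ω x₀ + V.τ) ≤ 1 :=
  V.v.map_add_le (const_le V x₀) V.τ_lt.le

theorem root_le (hq : IsQ q) {x₀ : k} {a : Ω} (ha : a ∈ rt (algebraMap k Ω x₀ + V.τ) (EE k q s)) :
    V.v a ≤ 1 := by
  by_contra h
  have h1 := v_P_eq (s := s) V hq (not_le.1 h)
  rw [(mem_EE hq).1 ha] at h1
  have h2 := hq.two_le
  exact (h1 ▸ v_hh_one V.v (v_x_le V x₀) _).not_gt (one_lt_pow₀ (not_le.1 h) (by positivity))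

theorem root_fin (hq : IsQ q) (hs : Odd s) {x₀ z₀ : k} {a : Ω}
    (ha : a ∈ rt (algebraMap k Ω x₀ + V.τ) (EE k q s)) (hz : V.v (a - algebraMap k Ω z₀) < 1) :
    hh (q * (s + 2) + 1) z₀ = hh (q * (s + 2) + 1) x₀ ∧
      V.v (a - algebraMap k Ω z₀) ^ kap q s z₀ = V.v V.τ ^ kap q s x₀ := by
  have h1 := kap_val V hq hs z₀ hz
  have h2 := kap_val V hq hs x₀ V.τ_lt
  rw [add_sub_cancel, (mem_EE hq).1 ha] at h1
  have h3 : hh (q * (s + 2) + 1) z₀ = hh (q * (s + 2) + 1) x₀ := by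
    rw [← CharTwo.add_eq_zero]
    refine const_eq_zero V ?_
    have h4 := V.v.map_add_lt (h1.trans_lt (pow_lt_one₀ zero_le hz (kap_pos hq _).ne'))
      (h2.trans_lt (pow_lt_one₀ zero_le V.τ_lt (kap_pos hq _).ne'))
    rwa [add_add_add_comm, CharTwo.add_self_eq_zero, zero_add, ← map_add] at h4
  exact ⟨h3, by rw [← h1, ← h2, h3]⟩

theorem v_g_fin (hq : IsQ q) (hs : Odd s) {z₀ : k} {a : Ω} (hz : V.v (a - algebraMap k Ω z₀) < 1) :
    (hh (s + 2) z₀ ≠ 0 → V.v (hh (s + 2) a) = 1) ∧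
    (hh (s + 2) z₀ = 0 → V.v (hh (s + 2) a) = V.v (a - algebraMap k Ω z₀)) := by
  have e : a = algebraMap k Ω z₀ + (a - algebraMap k Ω z₀) := by ring
  generalize a - algebraMap k Ω z₀ = b at *
  subst e
  refine ⟨fun h => ?_, fun h => ?_⟩
  · have h1 := (v_hh_lip V.v (const_le V z₀) hz.le (s + 2)).trans_lt hz
    have h2 := V.const _ h
    rw [← map_hh, ← h2] at h1
    have := v_eq_of_lt V.v h1
    rwa [add_comm (hh _ _), ← add_assoc, CharTwo.add_self_eq_zero, zero_add, h2] at this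
  · have h1 := v_hh_lin V.v (const_le V z₀) hz.le hs
    rcases eq_or_ne b 0 with rfl | h0
    · rw [add_zero, ← map_hh, h, map_zero]
    have hp : 0 < V.v b := pos_iff_ne_zero.2 ((Valuation.ne_zero_iff _).2 h0)
    have h3 : hh (s + 1) z₀ ≠ 0 := fun h4 => cr_ne hq h (by
      rw [hh_frob hq, h4, zero_pow (by have := hq.two_le; omega)])
    have h2 := v_cmul V h3 b
    rw [← map_hh, ← map_hh, h, map_zero, add_zero] at h1
    have h4 := h1.trans_lt (pow_lt_pow_right_of_lt_one₀ hp hz one_lt_two)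
    rw [pow_one, ← h2] at h4
    have := v_eq_of_lt V.v h4
    rwa [add_comm (hh _ _), ← add_assoc, CharTwo.add_self_eq_zero, zero_add, h2] at this

omit [CharP k 2] in
theorem pair_gen (hq : IsQ q) (hs : Odd s) {a b : Ω} {M : NNReal} (hM : 1 ≤ M) (ha : V.v a ≤ M)
    (hd : V.v (b - a) ≤ M) (h : hh (q * (s + 2) + 1) b = hh (q * (s + 2) + 1) a)
    (h1 : V.v (hh (q * (s + 1) + 1) a) * V.v (b - a) ^ q < V.v (hh (s + 2) a) ^ q * V.v (b - a))
    (h2 : V.v (hh (q * (s + 1)) a) * V.v (b - a) ^ (q + 1) < V.v (hh (s + 2) a) ^ q * V.v (b - a))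
    (h3 : V.v (b - a) ^ (2 * q) * M ^ (q * s) < V.v (hh (s + 2) a) ^ q * V.v (b - a)) : False := by
  have e := hh_taylor hq hs a (b - a)
  rw [add_sub_cancel, h, hh_frob hq, add_assoc, add_assoc, add_assoc, left_eq_add,
    CharTwo.add_eq_zero] at e
  have h4 := congrArg V.v e
  rw [map_mul, map_pow] at h4
  refine h4.not_gt (V.v.map_add_lt ?_ (V.v.map_add_lt ?_ ?_))
  · rwa [map_mul, map_pow]
  · rwa [map_mul, map_pow]
  · rw [map_mul, map_pow]
    exact (mul_le_mul_right (v_rem V.v hM ha hd) _).trans_lt h3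

omit [CharP k 2] in
theorem pair_A (hq : IsQ q) (hs : Odd s) {a b : Ω} (ha : V.v a ≤ 1) (hb : V.v b ≤ 1) (hab : b ≠ a)
    (h : hh (q * (s + 2) + 1) b = hh (q * (s + 2) + 1) a) (hg : V.v (hh (s + 2) a) = V.v V.τ) :
    V.v V.τ ^ q ≤ V.v (b - a) ^ (q - 1) := by
  by_contra hn
  have hd : V.v (b - a) ≤ 1 := V.v.map_sub_le hb ha
  have hp : 0 < V.v (b - a) := pos_iff_ne_zero.2 ((Valuation.ne_zero_iff _).2 (sub_ne_zero.2 hab))
  have h2 := hq.two_le
  have h3 : ∀ i, q ≤ i → V.v (b - a) ^ i < V.v (hh (s + 2) a) ^ q * V.v (b - a) := fun i hi => by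
    refine (pow_le_pow_right_of_le_one' hd hi).trans_lt ?_
    rw [hg, show q = q - 1 + 1 by omega, pow_succ, Nat.sub_add_cancel (by omega)]
    exact mul_lt_mul_of_pos_right (not_le.1 hn) hp
  refine pair_gen V hq hs le_rfl ha hd h ?_ ?_ ?_
  · exact (mul_le_of_le_one_left' (v_hh_one V.v ha _)).trans_lt (h3 _ le_rfl)
  · exact (mul_le_of_le_one_left' (v_hh_one V.v ha _)).trans_lt (h3 _ (by omega))
  · rw [one_pow, mul_one]; exact h3 _ (by omega)

omit [CharP k 2] in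
theorem pair_B (hq : IsQ q) (hs : Odd s) {a b : Ω} (ha : V.v a ≤ 1) (hb : V.v b ≤ 1) (hab : b ≠ a)
    (h : hh (q * (s + 2) + 1) b = hh (q * (s + 2) + 1) a) (hg : V.v (hh (s + 2) a) = V.v V.τ)
    (hc : V.v (hh (q * (s + 1) + 1) a) ≤ V.v V.τ) : V.v V.τ ≤ V.v (b - a) := by
  by_contra hn
  have hn := not_le.1 hn
  have hd : V.v (b - a) ≤ 1 := V.v.map_sub_le hb ha
  have hp : 0 < V.v (b - a) := pos_iff_ne_zero.2 ((Valuation.ne_zero_iff _).2 (sub_ne_zero.2 hab))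
  have h2 := hq.two_le
  have h3 : ∀ i, q + 1 ≤ i → V.v (b - a) ^ i < V.v (hh (s + 2) a) ^ q * V.v (b - a) :=
    fun i hi => by
    refine (pow_le_pow_right_of_le_one' hd hi).trans_lt ?_
    rw [hg, pow_succ]
    exact mul_lt_mul_of_pos_right (pow_lt_pow_left₀ hn zero_le (by omega)) hp
  refine pair_gen V hq hs le_rfl ha hd h ?_ ?_ ?_
  · obtain ⟨r, rfl⟩ : ∃ r, q = r + 1 := ⟨q - 1, by omega⟩
    have := t_pos V
    calc _ ≤ V.v V.τ * (V.v (b - a) ^ r * V.v (b - a)) := by rw [pow_succ]; gcongr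
      _ < V.v V.τ * (V.v V.τ ^ r * V.v (b - a)) := by gcongr; omega
      _ = _ := by rw [hg]; ring
  · exact (mul_le_of_le_one_left' (v_hh_one V.v ha _)).trans_lt (h3 _ le_rfl)
  · rw [one_pow, mul_one]; exact h3 _ (by omega)

end

end Pool.Agent.Lib.MP_346d6a_co.M47
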