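import Pool.Agent.Lib.MP_346d6a_co.M47Four

/-!
The case where `o` divides `q - 1`: small factors have degree at most `q`.
-/

namespace Pool.Agent.Lib.MP_346d6a_co.M47

open Polynomial Finset

variable {q s : ℕ}

theorem five_arith {q o N M m B₁ B₂ : ℝ} (hq : 3 * o + 1 ≤ q) (ho : 3 ≤ o) (hNM : N + M + 1 = o)
    (hN : 0 ≤ N) (hle : N ≤ M) (h0 : 1 ≤ N ∨ (N = 0 ∧ (o + 1) ^ 2 ≤ q)) (hm : q + 1 ≤ m)
    (hm' : 2 * m ≤ q * o) (b1 : B₁ ≤ N ^ 2 * (q + 1) ^ 2 / 4)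
    (b1' : 2 * m ≤ (q + 1) * N → B₁ ≤ N * (q + 1) * m - m ^ 2) (b2 : B₂ ≤ M ^ 2 * (q + 1) ^ 2 / 4)
    (b2' : 2 * m ≤ (q + 1) * M → B₂ ≤ M * (q + 1) * m - m ^ 2)
    (h : m * (q * o - m) ≤ B₁ + B₂ + (q * m - m ^ 2 / o)) : False := by
  have hm0 : 0 < m := by linarith
  have ho0 : 0 < o := by linarith
  have hq0 : 0 < q + 1 := by linarith
  have h1 : (o - 1) * (m * (q * o - m)) ≤ o * (B₁ + B₂) := by
    have := mul_le_mul_of_nonneg_left h ho0.le
    have e : o * (m ^ 2 / o) = m ^ 2 := by field_simp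
    linarith
  obtain rfl : o = N + M + 1 := hNM.symm
  rcases le_or_gt (2 * m) ((q + 1) * M) with h2 | h2
  · have b3 := b2' h2
    rcases le_or_gt (2 * m) ((q + 1) * N) with h3 | h3
    · have b4 := mul_le_mul_of_nonneg_left (add_le_add (b1' h3) b3) ho0.le
      have h4 : m * (m * (N + M + 2)) ≤ m * ((N + M + 1) * (N + M)) := by linarith
      have h5 := le_of_mul_le_mul_left h4 hm0
      nlinarith
    · have b5 : B₁ ≤ N * (q + 1) * m / 2 := by
        have := mul_le_mul_of_nonneg_left h3.le (mul_nonneg hN hq0.le)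
        linarith
      have b4 := mul_le_mul_of_nonneg_left (add_le_add b5 b3) ho0.le
      have h4 : m * m ≤ m * ((N + M + 1) * (M - N * (q - 1) / 2)) := by linarith
      have h5 := le_of_mul_le_mul_left h4 hm0
      rcases h0 with h6 | ⟨rfl, h6⟩
      · have h7 : M - N * (q - 1) / 2 ≤ 0 := by nlinarith
        nlinarith
      · nlinarith
  · have hM : 1 ≤ M := by linarith
    have b3 : B₁ + B₂ ≤ M * (N + M) * (q + 1) ^ 2 / 4 := by
      have : N * N * (q + 1) ^ 2 ≤ M * N * (q + 1) ^ 2 := by gcongr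
      linarith
    have b4 := mul_le_mul_of_nonneg_left b3 ho0.le
    have h4 : (N + M) * (4 * (m * (q * (N + M + 1) - m))) ≤
        (N + M) * ((N + M + 1) * M * (q + 1) ^ 2) := by linarith
    have h5 := le_of_mul_le_mul_left h4 (by linarith)
    have h6 : 0 ≤ (2 * m - (q + 1) * M) * (2 * (q * (N + M + 1)) - 2 * m - (q + 1) * M) :=
      mul_nonneg (by linarith) (by linarith)
    have h7 : 0 < (q + 1) * M * ((q - 1) * (N + M + 1) - (q + 1) * M) :=
      mul_pos (mul_pos hq0 (by linarith)) (by nlinarith)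
    linarith

theorem class_bound {ι : Type} (K : Finset ι) (f f' : ι → ι → ℕ) {m S : ℕ} (hK : #K ≤ S)
    (h1 : ∀ x ∈ K, ∀ z ∈ K, f x z + f' x z ≤ q + 1) (h2 : ∀ x, ∑ z ∈ K, f x z ≤ m) (hm : 0 < m) :
    ∑ x ∈ K, ∑ z ∈ K, ((f x z * f' x z : ℕ) : ℝ) ≤ S ^ 2 * (q + 1) ^ 2 / 4 ∧
    ((2 * m : ℝ) ≤ (q + 1) * S →
      ∑ x ∈ K, ∑ z ∈ K, ((f x z * f' x z : ℕ) : ℝ) ≤ S * (q + 1) * m - m ^ 2) := by
  have hK' : (#K : ℝ) ≤ S := by exact_mod_cast hK
  have key : ∀ a : ℝ, 2 * a ≤ q + 1 → ∑ x ∈ K, ∑ z ∈ K, ((f x z * f' x z : ℕ) : ℝ) ≤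
      S * ((q + 1 - 2 * a) * m + a ^ 2 * S) := fun a ha => by
    have h3 : (0 : ℝ) ≤ q + 1 - 2 * a := by linarith
    refine (sum_le_card_nsmul _ _ ((q + 1 - 2 * a) * m + a ^ 2 * S) fun x hx => ?_).trans ?_
    · calc _ ≤ ∑ z ∈ K, ((q + 1 - 2 * a) * f x z + a ^ 2) := sum_le_sum fun z hz => by
            have h4 : (f x z + f' x z : ℝ) ≤ q + 1 := by exact_mod_cast h1 x hx z hz
            have h5 := mul_le_mul_of_nonneg_left h4 (by positivity : (0 : ℝ) ≤ f x z)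
            push_cast
            linarith [sq_nonneg (f x z - a)]
        _ = (q + 1 - 2 * a) * (∑ z ∈ K, f x z : ℕ) + a ^ 2 * #K := by
            rw [sum_add_distrib, ← mul_sum, sum_const, nsmul_eq_mul, Nat.cast_sum, mul_comm (#K : ℝ)]
        _ ≤ _ := by gcongr; exact h2 x
    · rw [nsmul_eq_mul]; gcongr
  refine ⟨(key ((q + 1) / 2) (by linarith)).trans_eq (by ring), fun h => ?_⟩
  have hS : (0 : ℝ) < S := by
    by_contra h3
    have : (0 : ℝ) < m := by exact_mod_cast hm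
    rw [le_antisymm (not_lt.1 h3) (by positivity)] at h
    linarith
  refine (key (m / S) (by rw [← mul_div_assoc, div_le_iff₀ hS]; exact h)).trans_eq ?_
  field_simp
  ring

theorem inf_bound {ι : Type} (K : Finset ι) (f f' : ι → ℕ) {m o : ℕ} (hK : #K ≤ o) (ho : 0 < o)
    (h1 : ∀ z ∈ K, f z + f' z ≤ q) (h2 : ∑ z ∈ K, f z = m) :
    ∑ z ∈ K, ((f z * f' z : ℕ) : ℝ) ≤ q * m - m ^ 2 / o := by
  have hK' : (#K : ℝ) ≤ o := by exact_mod_cast hK
  have key : ∀ a : ℝ, ∑ z ∈ K, ((f z * f' z : ℕ) : ℝ) ≤ (q - 2 * a) * m + o * a ^ 2 := fun a =>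
    calc _ ≤ ∑ z ∈ K, ((q - 2 * a) * f z + a ^ 2) := sum_le_sum fun z hz => by
          have h4 : (f z + f' z : ℝ) ≤ q := by exact_mod_cast h1 z hz
          have h5 := mul_le_mul_of_nonneg_left h4 (by positivity : (0 : ℝ) ≤ f z)
          push_cast
          linarith [sq_nonneg (f z - a)]
      _ ≤ _ := by
          rw [sum_add_distrib, ← mul_sum, ← Nat.cast_sum, h2, sum_const, nsmul_eq_mul]
          gcongr
  refine (key (m / o)).trans_eq ?_
  field_simp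
  ring

section

variable {k Ω : Type} [Field k] [CharP k 2] [Field Ω] [CharP Ω 2] [Algebra k Ω] (V : Val k Ω)

theorem two_pow_of [IsAlgClosed k] (hq : IsQ q) (hs : Odd s)
    (h : ∀ y ∈ crit k s, ∀ z ∈ crit k s, hh (q * (s + 2) + 1) y = hh (q * (s + 2) + 1) z) :
    ∃ a, s + 2 + 1 = 2 ^ a := by
  have ho := hs.add_even even_two
  have : NeZero ((s + 2 : ℕ) : k) := ⟨by rw [cast_odd ho]; exact one_ne_zero⟩
  obtain ⟨ζ₀, hζ₀⟩ := HasEnoughRootsOfUnity.exists_primitiveRoot k (s + 2)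
  have two : (2 : k) = 0 := CharTwo.two_eq_zero
  have h1 : ∀ ζ : k, ζ ^ (s + 2) = 1 → ζ ≠ 1 → hh (s + 2) (1 + ζ)⁻¹ = 0 := fun ζ a1 a2 => by
    have a3 : 1 + ζ ≠ 0 := CharTwo.add_eq_zero.not.2 a2.symm
    have : (1 + ζ)⁻¹ + 1 = ζ * (1 + ζ)⁻¹ := by
      field_simp
      linear_combination two
    rw [hh, this, mul_pow, a1, one_mul, CharTwo.add_self_eq_zero]
  have h2 : ∀ ζ : k, ζ ^ (s + 2) = 1 → ζ ≠ 1 → (1 + ζ) ^ (s + 2) = (1 + ζ₀) ^ (s + 2) := by
    intro ζ a1 a2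
    have a3 := h1 ζ a1 a2
    have a4 := h1 ζ₀ hζ₀.pow_eq_one (hζ₀.ne_one (by omega))
    have a5 := h _ ((mem_crit hs).2 a3) _ ((mem_crit hs).2 a4)
    rw [(crit_id hq a3).2.1, (crit_id hq a4).2.1, mul_comm, pow_mul, pow_mul,
      ← CharTwo.add_eq_zero, ← hq.add_pow, pow_eq_zero_iff (by have := hq.two_le; omega),
      CharTwo.add_eq_zero, inv_pow, inv_pow, inv_inj] at a5
    exact a5
  have h3 : ∀ i, 2 ≤ i → ((1 + X) ^ (s + 2 + 1) + C ((1 + ζ₀) ^ (s + 2)) * (1 + X) +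
      (X ^ (s + 2 + 1) + X) : k[X]).coeff i =
      ((s + 2 + 1).choose i : k) + if i = s + 2 + 1 then 1 else 0 := fun i hi => by
    simp only [coeff_add, coeff_one_add_X_pow, coeff_C_mul, coeff_X_pow, coeff_one, coeff_X]
    rw [if_neg (by omega : ¬ i = 0), if_neg (by omega : ¬ 1 = i)]
    simp
  have h4 : ((1 + X) ^ (s + 2 + 1) + C ((1 + ζ₀) ^ (s + 2)) * (1 + X) +
      (X ^ (s + 2 + 1) + X) : k[X]) = 0 := by
    refine eq_zero_of_natDegree_lt_card_of_eval_eq_zero' _ (nthRootsFinset (s + 2) 1)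
      (fun ζ hζ => ?_) ?_
    · have a1 := (mem_nthRootsFinset (by omega) _).1 hζ
      simp only [eval_add, eval_pow, eval_one, eval_X, eval_mul, eval_C]
      rw [pow_succ ζ, a1, one_mul, CharTwo.add_self_eq_zero, add_zero, pow_succ]
      rcases eq_or_ne ζ 1 with rfl | a2
      · simp [CharTwo.add_self_eq_zero]
      · rw [h2 ζ a1 a2, CharTwo.add_self_eq_zero]
    · rw [hζ₀.card_nthRootsFinset, Nat.lt_succ_iff, natDegree_le_iff_coeff_eq_zero]
      intro i hi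
      rw [h3 i (by omega)]
      obtain rfl | rfl | h5 : i = s + 2 ∨ i = s + 2 + 1 ∨ s + 2 + 1 < i := by omega
      · rw [Nat.choose_succ_self_right, cast_even ho.add_one, if_neg (by omega), add_zero]
      · simp [CharTwo.add_self_eq_zero]
      · rw [Nat.choose_eq_zero_of_lt h5, if_neg (by omega)]; simp
  obtain ⟨a, w, hw, e⟩ := Nat.exists_eq_two_pow_mul_odd (n := s + 2 + 1) (by omega)
  refine ⟨a, ?_⟩
  by_contra h5
  have h6 : 1 ≤ a := by
    by_contra h6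
    rw [show a = 0 by omega, pow_zero, one_mul] at e
    exact Nat.not_even_iff_odd.2 hw (e ▸ ho.add_one)
  have h7 : IsQ (2 ^ a) := ⟨a, h6, rfl⟩
  have h8 := h3 _ h7.two_le
  rw [h4, coeff_zero, if_neg (Ne.symm h5), add_zero, ← coeff_one_add_X_pow, e, pow_mul,
    h7.add_pow, one_pow] at h8
  have h9 := coeff_expand_mul' (R := k) (by positivity : 0 < 2 ^ a) ((1 + X) ^ w) 1
  rw [mul_one, map_pow, map_add, map_one, expand_X, ← h8, coeff_one_add_X_pow,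
    Nat.choose_one_right, cast_odd hw] at h9
  exact zero_ne_one h9

theorem sq_le_q (hq : IsQ q) (hne : s + 2 + 1 ≠ q) (hd : s + 2 ∣ q - 1) {a : ℕ}
    (h : s + 2 + 1 = 2 ^ a) : (s + 2 + 1) ^ 2 ≤ q := by
  obtain ⟨u, hu, rfl⟩ := hq
  have h1 := Nat.pow_sub_one_gcd_pow_sub_one 2 a u
  rw [← h, Nat.add_sub_cancel, Nat.gcd_eq_left hd] at h1
  have h2 : 2 ^ a.gcd u = 2 ^ a := by
    have := Nat.two_pow_pos (a.gcd u)
    omega
  obtain ⟨c, hc⟩ : a ∣ u := Nat.pow_right_injective le_rfl h2 ▸ Nat.gcd_dvd_right a u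
  rw [h, ← pow_mul]
  refine Nat.pow_le_pow_right two_pos (hc ▸ Nat.mul_le_mul_left a ?_)
  rcases c with _ | _ | c
  · omega
  · rw [h, hc] at hne; simp at hne
  · omega

theorem three_le (hq : IsQ q) (hs : Odd s) (hne : s + 2 + 1 ≠ q) (hd : s + 2 ∣ q - 1) :
    3 * (s + 2) + 1 ≤ q := by
  obtain ⟨c, hc⟩ := hd
  obtain ⟨r, hr⟩ := hq.even
  obtain ⟨j, hj⟩ := hs
  have := hq.two_le
  rcases c with _ | _ | _ | c
  · omega
  · omega
  · omega
  · have : (s + 2) * 3 ≤ (s + 2) * (c + 1 + 1 + 1) := Nat.mul_le_mul_left _ (by omega)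
    omega

omit [CharP k 2] in
theorem zeta_fix (hq : IsQ q) (hd : s + 2 ∣ q - 1) {ζ : k} (h : ζ ^ (s + 2) = 1) : ζ ^ q = ζ := by
  obtain ⟨c, hc⟩ := hd
  have := hq.two_le
  rw [show q = (s + 2) * c + 1 by omega, pow_succ, pow_mul, h, one_pow, one_mul]

theorem crit_B (hq : IsQ q) (hd : s + 2 ∣ q - 1) {y : k} (h : hh (s + 2) y = 0) :
    y ^ q = y ∧ kap q s y = q + 1 := by
  obtain ⟨h1, -, h2⟩ := crit_zeta hq h
  have h3 := h2.1 (zeta_fix hq hd h1)
  exact ⟨h3, by rw [kap, if_neg (not_not.2 h), if_neg (not_not.2 h3)]⟩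

theorem exists_class [IsAlgClosed k] (hq : IsQ q) (hs : Odd s) (hne : s + 2 + 1 ≠ q)
    (hd : s + 2 ∣ q - 1) : ∃ K ⊆ crit k s, 2 * #K ≤ #(crit k s) ∧
      (1 ≤ #K ∨ (#K = 0 ∧ (s + 2 + 1) ^ 2 ≤ q)) ∧ ∀ x ∈ crit k s, ∀ z ∈ crit k s,
      hh (q * (s + 2) + 1) z = hh (q * (s + 2) + 1) x → (x ∈ K ↔ z ∈ K) := by
  classical
  by_cases h : ∀ y ∈ crit k s, ∀ z ∈ crit k s, hh (q * (s + 2) + 1) y = hh (q * (s + 2) + 1) z
  · obtain ⟨a, ha⟩ := two_pow_of hq hs h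
    exact ⟨∅, empty_subset _, by simp, .inr ⟨rfl, sq_le_q hq hne hd ha⟩, by simp⟩
  push Not at h
  obtain ⟨y, hy, z, hz, h⟩ := h
  have h1 := card_filter_add_card_filter_not (s := crit k s)
    (fun x => hh (q * (s + 2) + 1) x = hh (q * (s + 2) + 1) y)
  rcases le_total #{x ∈ crit k s | hh (q * (s + 2) + 1) x = hh (q * (s + 2) + 1) y}
    #{x ∈ crit k s | ¬ hh (q * (s + 2) + 1) x = hh (q * (s + 2) + 1) y} with h2 | h2
  · refine ⟨_, filter_subset (fun x => hh (q * (s + 2) + 1) x = hh (q * (s + 2) + 1) y) _,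
      by omega, .inl (card_pos.2 ⟨y, mem_filter.2 ⟨hy, rfl⟩⟩), fun a ha b hb e => ?_⟩
    simp [ha, hb, e]
  · refine ⟨_, filter_subset (fun x => ¬ hh (q * (s + 2) + 1) x = hh (q * (s + 2) + 1) y) _,
      by omega, .inl (card_pos.2 ⟨z, mem_filter.2 ⟨hz, h.symm⟩⟩), fun a ha b hb e => ?_⟩
    simp [ha, hb, e]

variable [IsAlgClosed k] [IsAlgClosed Ω]

include V in
theorem deg_le_q (hq : IsQ q) (hs : Odd s) (hne : s + 2 + 1 ≠ q) (hd : s + 2 ∣ q - 1)
    {U : k[X][X]} (hU : U.Monic) (h : U ∣ EE k q s) (hm : 2 * U.natDegree ≤ q * (s + 2)) :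
    U.natDegree ≤ q := by
  classical
  by_contra hn
  obtain ⟨W, hW'⟩ := h
  have hW : W.Monic := hU.of_mul_monic_left (hW' ▸ (EE_monic hq).1)
  have h : U * W ∣ EE k q s := hW'.symm.dvd
  have hUE := (dvd_mul_right U W).trans h
  have hdeg : (W.natDegree : ℝ) = q * (s + 2) - U.natDegree := by
    rw [eq_sub_iff_add_eq, add_comm]
    exact_mod_cast (hU.natDegree_mul hW).symm.trans (hW' ▸ (EE_monic hq).2)
  obtain ⟨K, hK, k1, k2, k3⟩ := exists_class (k := k) hq hs hne hd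
  have hc := card_crit (k := k) hs
  obtain ⟨M, hM⟩ : ∃ M, #K + M = s + 1 := ⟨s + 1 - #K, by omega⟩
  have hb : ∀ T ⊆ crit k s, ∀ S, #T ≤ S → _ := fun T hT S hS =>
    class_bound (q := q) T (mu V U) (mu V W) hS (fun x _ z hz => by
      rw [← (crit_B hq hd ((mem_crit hs).1 (hT hz))).2]; exact mu_add_le V hq hs hU hW h x z)
      (fun x => sum_mu V hq hs hU hUE x T) (by omega)
  obtain ⟨b1, b1'⟩ := hb K hK _ le_rfl
  obtain ⟨b2, b2'⟩ := hb (crit k s \ K) sdiff_subset M (by rw [card_sdiff_of_subset hK]; omega)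
  refine five_arith (o := s + 2) (by exact_mod_cast three_le hq hs hne hd)
    (by obtain ⟨j, hj⟩ := hs; exact_mod_cast (by omega : 3 ≤ s + 2))
    (by exact_mod_cast (by omega : #K + M + 1 = s + 2)) (by positivity)
    (by exact_mod_cast (by omega : #K ≤ M)) (by exact_mod_cast k2)
    (by exact_mod_cast (by omega : q + 1 ≤ U.natDegree)) (by exact_mod_cast hm) b1 b1' b2 b2' ?_
  rw [← hdeg]
  refine (bez_ineq V hq hs hU hW h).trans (add_le_add (le_of_eq ?_) ?_)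
  · have e : ∀ x ∈ crit k s, ∀ z ∈ crit k s, ¬ (x ∈ K ↔ z ∈ K) →
        ((mu V U x z * mu V W x z : ℕ) : ℝ) = 0 := fun x hx z hz hxz => by
      by_contra h0
      obtain ⟨a1, a2⟩ := mul_ne_zero_iff.1 (Nat.cast_ne_zero.1 h0)
      exact hxz (k3 x hx z hz (mu_mul_ne V hq hs hU hW h a1 a2).2.2.2.2)
    rw [sum_congr rfl fun x _ => sum_congr rfl fun z hz => by
      rw [dd, if_pos (crit_B hq hd ((mem_crit hs).1 hz)).1, mul_one], ← sum_sdiff hK, add_comm]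
    congr 1
    · exact sum_congr rfl fun x hx => (sum_subset hK fun z hz hz' =>
        e x (hK hx) z hz (by simp [hx, hz'])).symm
    · exact sum_congr rfl fun x hx => (sum_subset sdiff_subset fun z hz hz' =>
        e x (mem_sdiff.1 hx).1 z hz (by simpa [hz, (mem_sdiff.1 hx).2] using hz')).symm
  · rw [Nat.cast_sum]
    refine inf_bound _ _ _ (o := s + 2) ?_ (by omega) (fun ζ hζ =>
      nu_add_le V hq hs hU hW h ((mem_nthRootsFinset (by omega) _).1 hζ)) (sum_nu V hq hs hU hUE)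
      |>.trans_eq (by push_cast; rfl)
    rw [nthRootsFinset_def]
    exact (Multiset.toFinset_card_le _).trans (card_nthRoots _ _)

end

end Pool.Agent.Lib.MP_346d6a_co.M47
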