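import Pool.Agent.Lib.MP_346d6a_co.M47Bez

/-!
The case where `o` does not divide `q - 1`.
-/

namespace Pool.Agent.Lib.MP_346d6a_co.M47

open Polynomial Finset

variable {q s : ℕ}

theorem IsQ.cases (hq : IsQ q) : q = 2 ∨ q = 4 ∨ 8 ≤ q := by
  obtain ⟨u, hu, rfl⟩ := hq
  rcases u with _ | _ | _ | u
  · omega
  · simp
  · simp
  · exact .inr (.inr (Nat.pow_le_pow_right (n := 2) (by norm_num) (by omega : 3 ≤ u + 3)))

theorem sum_le_two {ι : Type} (T : Finset ι) (f : ι → ℝ) (p p' : ι → Prop) [DecidablePred p]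
    [DecidablePred p'] {c c' : ℝ} (hc : 0 ≤ c) (hc' : 0 ≤ c')
    (h : ∀ i ∈ T, f i ≤ 0 ∨ (p i ∧ f i ≤ c) ∨ (p' i ∧ f i ≤ c')) :
    ∑ i ∈ T, f i ≤ #(T.filter p) * c + #(T.filter p') * c' := by
  rw [← nsmul_eq_mul, ← nsmul_eq_mul, ← sum_const, ← sum_const, sum_filter, sum_filter,
    ← sum_add_distrib]
  refine sum_le_sum fun i hi => ?_
  rcases h i hi with h1 | ⟨h1, h2⟩ | ⟨h1, h2⟩
  · split_ifs <;> linarith
  · rw [if_pos h1]; split_ifs <;> linarith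
  · rw [if_pos h1]; split_ifs <;> linarith

theorem mul_le_sq {a b : ℕ} {c : ℝ} (h : (a + b : ℝ) ≤ c) : ((a * b : ℕ) : ℝ) ≤ c ^ 2 / 4 := by
  push_cast
  have := pow_le_pow_left₀ (by positivity) h 2
  nlinarith [sq_nonneg (a - b : ℝ)]

theorem four_arith {q o b β γ T m m' : ℕ} (hq : q = 2 ∨ q = 4 ∨ 8 ≤ q) (ho : 3 ≤ o) (hodd : Odd o)
    (hne : o + 1 ≠ q) (hb : 3 * (b + 1) ≤ o) (hb' : b + 2 ≤ q) (hβ : β ≤ b) (hγ : γ ≤ b)
    (hT1 : T ≤ (o - 1) * (o - 3)) (hT2 : q = 4 → T ≤ (o - 1) * 20) (hT3 : q = 2 → T = 0)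
    (hm : m + m' + 2 = q * o) (h1 : m ≤ 2 * m') (h2 : m' ≤ 2 * m)
    (h : (m * m' : ℝ) ≤ (β * β : ℕ) * ((q + 1) ^ 2 / 4) + T * q +
      (1 * ((q - 2) ^ 2 / 4) + γ * (q ^ 2 / 4))) : False := by
  obtain ⟨r, rfl⟩ : ∃ r, o = r + 3 := ⟨o - 3, by omega⟩
  rw [show r + 3 - 1 = r + 2 by omega] at hT1 hT2
  rw [Nat.add_sub_cancel] at hT1
  have e1 : (2 : ℝ) * (q * (r + 3) - 2) ^ 2 ≤ 9 * (m * m') := by
    have a1 : (m + m' + 2 : ℝ) = q * (r + 3) := by exact_mod_cast hm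
    have a2 : (m : ℝ) ≤ 2 * m' := by exact_mod_cast h1
    have a3 : (m' : ℝ) ≤ 2 * m := by exact_mod_cast h2
    rw [← a1]
    nlinarith [mul_nonneg (sub_nonneg.2 a2) (sub_nonneg.2 a3)]
  have e2 : ((β * β : ℕ) : ℝ) ≤ b * b := by exact_mod_cast Nat.mul_le_mul hβ hβ
  have e3 : (γ : ℝ) ≤ b := by exact_mod_cast hγ
  have e4 : (T : ℝ) ≤ (r + 2) * r := by exact_mod_cast hT1
  have e5 : (m * m' : ℝ) ≤ b * b * ((q + 1) ^ 2 / 4) + T * q +
      (1 * ((q - 2) ^ 2 / 4) + b * (q ^ 2 / 4)) := h.trans (by gcongr)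
  have r0 : (0 : ℝ) ≤ r := by positivity
  rcases hq with rfl | rfl | hq
  · rw [hT3 rfl, show b = 0 by omega] at e5
    push_cast at e1 e5
    nlinarith
  · have e6 : (T : ℝ) ≤ (r + 2) * 20 := by exact_mod_cast hT2 rfl
    have e7 : (b : ℝ) ≤ 2 := by exact_mod_cast (by omega : b ≤ 2)
    have e8 : (2 : ℝ) ≤ r := by
      obtain ⟨j, hj⟩ := hodd
      exact_mod_cast (by omega : 2 ≤ r)
    have e9 : (b : ℝ) * b ≤ 4 := by nlinarith [(by positivity : (0 : ℝ) ≤ b)]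
    push_cast at e1 e5
    rcases le_total (r : ℝ) 20 with h3 | h3
    · nlinarith [mul_nonneg (sub_nonneg.2 e8) (sub_nonneg.2 h3)]
    · nlinarith [mul_nonneg r0 (sub_nonneg.2 h3)]
  · have e6 : (8 : ℝ) ≤ q := by exact_mod_cast hq
    have e7 : (3 : ℝ) * (b + 1) ≤ r + 3 := by exact_mod_cast hb
    have b0 : (0 : ℝ) ≤ b := by positivity
    have e8 : (b * b * ((q + 1) ^ 2 / 4) + (1 * ((q - 2) ^ 2 / 4) + b * (q ^ 2 / 4)) : ℝ) ≤
        (r + 3) ^ 2 * (q + 1) ^ 2 / 36 := by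
      have a1 : ((q : ℝ) - 2) ^ 2 ≤ (q + 1) ^ 2 := by nlinarith
      have a2 : (b : ℝ) * q ^ 2 ≤ b * (q + 1) ^ 2 := by gcongr; linarith
      have a3 : (3 * (b + 1) : ℝ) ^ 2 * (q + 1) ^ 2 ≤ (r + 3) ^ 2 * (q + 1) ^ 2 := by gcongr
      nlinarith [mul_nonneg b0 (sq_nonneg (q + 1 : ℝ))]
    have e9 : (T : ℝ) * q ≤ (r + 3) ^ 2 * q := by gcongr; nlinarith
    have e10 : ((r : ℝ) + 3) ^ 2 * (q - 2 / 3) ^ 2 ≤ (q * (r + 3) - 2) ^ 2 := by
      rw [← mul_pow]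
      refine pow_le_pow_left₀ (mul_nonneg (by linarith) (by linarith)) (by nlinarith) 2
    have e11 : ((r : ℝ) + 3) ^ 2 * ((q + 1) ^ 2 + 36 * q) < (r + 3) ^ 2 * (8 * (q - 2 / 3) ^ 2) := by
      gcongr; nlinarith
    nlinarith

section

variable {k Ω : Type} [Field k] [CharP k 2] [Field Ω] [CharP Ω 2] [Algebra k Ω] (V : Val k Ω)

open Classical in
/-- The critical points of the first type that may contribute. -/
noncomputable def JS (q s : ℕ) (x₀ : k) : Finset k :=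
  {z₀ ∈ crit k s | z₀ ≠ x₀ + 0 ∧ z₀ ≠ x₀ + 1 ∧ (z₀ + z₀ ^ q) ^ (q + 1) * (x₀ * (x₀ + 1)) ^ q =
      (x₀ + x₀ ^ q) ^ (q + 1) * (z₀ * (z₀ + 1)) ^ q}

theorem JS_le (hs : Odd s) {x₀ : k} (hx : x₀ ∈ crit k s) : #(JS q s x₀) ≤ s + 2 - 3 := by
  classical
  have h1 : x₀ + 1 ∈ (crit k s).erase x₀ :=
    mem_erase.2 ⟨by simp, by rw [mem_crit hs, hh_add_one, ← mem_crit hs]; exact hx⟩
  have h2 : JS q s x₀ ⊆ ((crit k s).erase x₀).erase (x₀ + 1) := fun z hz => by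
    obtain ⟨a1, a2, a3, -⟩ := mem_filter.1 hz
    exact mem_erase.2 ⟨a3, mem_erase.2 ⟨by simpa using a2, a1⟩⟩
  have h3 := card_le_card h2
  rw [card_erase_of_mem h1, card_erase_of_mem hx] at h3
  have := card_crit (k := k) hs
  omega

theorem JS_four (hs : Odd s) {x₀ : k} (hx : x₀ ∈ crit k s) : #(JS 4 s x₀) ≤ 20 := by
  classical
  have h1 := pow_ne_zero 4 (crit_id ⟨2, one_le_two, rfl⟩ ((mem_crit hs).1 hx)).1
  have h2 : ((X + X ^ 4) ^ 5 * C ((x₀ * (x₀ + 1)) ^ 4) -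
      C ((x₀ + x₀ ^ 4) ^ 5) * (X * (X + 1)) ^ 4 : k[X]).natDegree = 20 := by
    generalize (x₀ * (x₀ + 1)) ^ 4 = a at h1
    generalize (x₀ + x₀ ^ 4) ^ 5 = b
    compute_degree!
  rw [← h2]
  refine card_le_degree_of_subset_roots fun z hz => ?_
  rw [mem_roots (ne_zero_of_natDegree_gt (n := 0) (by omega))]
  have := (mem_filter.1 hz).2.2.2
  simpa [sub_eq_zero] using this

theorem JS_two (hs : Odd s) {x₀ : k} (hx : x₀ ∈ crit k s) : #(JS 2 s x₀) = 0 := by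
  classical
  rw [card_eq_zero, eq_empty_iff_forall_notMem]
  intro z hz
  obtain ⟨a1, a2, a3, a4⟩ := mem_filter.1 hz
  have h1 := (crit_id ⟨1, le_rfl, rfl⟩ ((mem_crit hs).1 hx)).1
  have h2 := (crit_id ⟨1, le_rfl, rfl⟩ ((mem_crit hs).1 a1)).1
  have h3 : (x₀ * (x₀ + 1)) ^ 2 * (z * (z + 1)) ^ 2 * ((z - (x₀ + 0)) * (z - (x₀ + 1))) = 0 := by
    linear_combination a4 + (x₀ * (x₀ + 1)) ^ 2 * (z * (z + 1)) ^ 2 * (x₀ ^ 2 + x₀ - z - x₀ * z) *
      (CharTwo.two_eq_zero (R := k))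
  exact mul_ne_zero (mul_ne_zero (pow_ne_zero 2 h1) (pow_ne_zero 2 h2))
    (mul_ne_zero (sub_ne_zero.2 a2) (sub_ne_zero.2 a3)) h3

omit [CharP k 2] in
theorem mem_gcd (hq : IsQ q) {ζ : k} (h1 : ζ ^ (s + 2) = 1) (h2 : ζ ^ q = ζ) :
    ζ ∈ nthRootsFinset ((s + 2).gcd (q - 1)) (1 : k) := by
  rw [mem_nthRootsFinset (Nat.gcd_pos_of_pos_left _ (by omega)), pow_gcd_eq_one]
  refine ⟨h1, mul_right_cancel₀ (b := ζ) (by rintro rfl; simp at h1) ?_⟩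
  rw [← pow_succ, Nat.sub_add_cancel (by have := hq.two_le; omega), h2, one_mul]

theorem crit_zeta {y : k} (hq : IsQ q) (h : hh (s + 2) y = 0) :
    ((y + 1) / y) ^ (s + 2) = 1 ∧ (y + 1) / y ≠ 1 ∧ (((y + 1) / y) ^ q = (y + 1) / y ↔ y ^ q = y) := by
  have h0 := left_ne_zero_of_mul (crit_id hq h).1
  refine ⟨?_, ?_, ?_⟩
  · rw [div_pow, ← CharTwo.add_eq_zero.1 h, div_self (pow_ne_zero _ h0)]
  · rw [Ne, div_eq_one_iff_eq h0]; simp
  · rw [div_pow, hq.add_pow, one_pow, div_eq_div_iff (pow_ne_zero _ h0) h0]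
    exact ⟨fun h => by linear_combination -h, fun h => by rw [h]⟩

variable [IsAlgClosed k] [IsAlgClosed Ω]

include V in
theorem four (hq : IsQ q) (hs : Odd s) (hne : s + 2 + 1 ≠ q) (hnd : ¬ s + 2 ∣ q - 1)
    {U W : k[X][X]} (hU : U.Monic) (hW : W.Monic)
    (h : U * W * ((X + C (X + C 0)) * (X + C (X + C 1))) = EE k q s)
    (h1 : U.natDegree ≤ 2 * W.natDegree) (h2 : W.natDegree ≤ 2 * U.natDegree) : False := by
  classical
  have hq2 := hq.two_le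
  have hq2' : (2 : ℝ) ≤ q := by exact_mod_cast hq2
  have hd : U * W ∣ EE k q s := h ▸ dvd_mul_right _ _
  have hm : ∀ ε : k, (X + C (X + C ε) : k[X][X]).Monic := fun ε => monic_X_add_C _
  have hdeg : U.natDegree + W.natDegree + 2 = q * (s + 2) := by
    rw [← (EE_monic (k := k) hq).2, ← h, (hU.mul hW).natDegree_mul ((hm 0).mul (hm 1)),
      hU.natDegree_mul hW, (hm 0).natDegree_mul (hm 1), natDegree_X_add_C, natDegree_X_add_C]
  set R := (nthRootsFinset ((s + 2).gcd (q - 1)) (1 : k)).erase 1 with hR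
  have hg : #R + 1 ≤ (s + 2).gcd (q - 1) := by
    rw [hR, card_erase_add_one (one_mem_nthRootsFinset (Nat.gcd_pos_of_pos_left _ (by omega))),
      nthRootsFinset_def]
    exact (Multiset.toFinset_card_le _).trans (card_nthRoots _ _)
  have hg1 : 3 * (s + 2).gcd (q - 1) ≤ s + 2 := by
    obtain ⟨c, hc⟩ := Nat.gcd_dvd_left (s + 2) (q - 1)
    have h3 : Odd c := (Nat.odd_mul.1 (hc ▸ hs.add_even even_two)).2
    have h4 : c ≠ 1 := by
      rintro rfl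
      exact hnd (by rw [hc, mul_one]; exact Nat.gcd_dvd_right _ _)
    obtain ⟨j, hj⟩ := h3
    nlinarith [(by omega : 3 ≤ c)]
  have hg2 : (s + 2).gcd (q - 1) ≤ q - 1 := Nat.le_of_dvd (by omega) (Nat.gcd_dvd_right _ _)
  have hβ : #{y ∈ crit k s | y ^ q = y} ≤ #R := by
    refine card_le_card_of_injOn (fun y => (y + 1) / y) (fun y hy => ?_) fun y hy z hz e => ?_
    · obtain ⟨a1, a2⟩ := mem_filter.1 (mem_coe.1 hy)
      obtain ⟨b1, b2, b3⟩ := crit_zeta hq ((mem_crit hs).1 a1)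
      exact mem_coe.2 (mem_erase.2 ⟨b2, mem_gcd hq b1 (b3.2 a2)⟩)
    · have a1 := left_ne_zero_of_mul (crit_id hq ((mem_crit hs).1 (mem_filter.1 (mem_coe.1 hy)).1)).1
      have a2 := left_ne_zero_of_mul (crit_id hq ((mem_crit hs).1 (mem_filter.1 (mem_coe.1 hz)).1)).1
      simp only [div_eq_div_iff a1 a2] at e
      linear_combination -e
  have hγ : #{ζ ∈ nthRootsFinset (s + 2) (1 : k) | ζ ∈ R} ≤ #R :=
    card_le_card fun ζ h => (mem_filter.1 h).2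
  have hS : ∑ x₀ ∈ crit k s, #{z₀ ∈ crit k s | x₀ ^ q = x₀ ∧ z₀ ^ q = z₀} =
      #{y ∈ crit k s | y ^ q = y} * #{y ∈ crit k s | y ^ q = y} := by
    rw [← smul_eq_mul, ← sum_const, sum_filter]
    refine sum_congr rfl fun x₀ _ => ?_
    split_ifs with h3 <;> simp [h3]
  have hT : ∀ K, (∀ x₀ ∈ crit k s, #(JS q s x₀) ≤ K) →
      ∑ x₀ ∈ crit k s, #(JS q s x₀) ≤ (s + 2 - 1) * K := fun K hK =>
    (sum_le_card_nsmul _ _ _ hK).trans (Nat.mul_le_mul_right _ (card_crit hs))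
  refine four_arith hq.cases (by obtain ⟨j, hj⟩ := hs; omega) (hs.add_even even_two) hne
    (b := #R) (by omega) (by omega) hβ hγ (hT _ fun x₀ => JS_le hs)
    (by rintro rfl; exact hT _ fun x₀ => JS_four hs)
    (by rintro rfl; exact sum_eq_zero fun x₀ => JS_two hs) hdeg h1 h2 ?_
  refine (bez_ineq V hq hs hU hW hd).trans (add_le_add ?_ ?_)
  · rw [← hS, Nat.cast_sum, Nat.cast_sum, sum_mul, sum_mul, ← sum_add_distrib]
    refine sum_le_sum fun x₀ _ => sum_le_two _ _ _ _ (by positivity) (by positivity) fun z₀ _ => ?_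
    by_cases h3 : mu V U x₀ z₀ * mu V W x₀ z₀ = 0
    · simp [h3]
    obtain ⟨a1, a2⟩ := mul_ne_zero_iff.1 h3
    obtain ⟨-, b1, -, b2, -⟩ := mu_mul_ne V hq hs hU hW hd a1 a2
    unfold dd
    split_ifs with h4
    · refine .inr (.inl ⟨⟨b2.1 h4, h4⟩, ?_⟩)
      have h5 := mu_add_le V hq hs hU hW hd x₀ z₀
      rw [kap, if_neg (not_not.2 b1), if_neg (not_not.2 h4)] at h5
      rw [mul_one]
      exact mul_le_sq (by exact_mod_cast h5)
    · obtain ⟨c1, c2, c3⟩ := AA_main V hq hs hU hW hd a1 a2 h4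
      refine .inr (.inr ⟨⟨c3 0 (.inl rfl) ?_, c3 1 (.inr rfl) ?_, c2⟩, ?_⟩)
      · exact h ▸ mul_dvd_mul_left _ (dvd_mul_right _ _)
      · exact h ▸ mul_dvd_mul_left _ (dvd_mul_left _ _)
      · have : ((mu V U x₀ z₀ * mu V W x₀ z₀ : ℕ) : ℝ) ≤ q - 1 := by
          rw [le_sub_iff_add_le]; exact_mod_cast (by omega : mu V U x₀ z₀ * mu V W x₀ z₀ + 1 ≤ q)
        rw [← mul_div_assoc, div_le_iff₀ (by linarith), mul_comm]
        gcongr
  · rw [Nat.cast_sum]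
    refine (sum_le_two _ _ (· = 1) (· ∈ R) (c := (q - 2) ^ 2 / 4) (c' := q ^ 2 / 4) (by positivity)
      (by positivity) fun ζ hζ => ?_).trans ?_
    · have h4 := (mem_nthRootsFinset (by omega) _).1 hζ
      by_cases h3 : nu V U ζ * nu V W ζ = 0
      · simp [h3]
      obtain ⟨a1, a2⟩ := mul_ne_zero_iff.1 h3
      rcases eq_or_ne ζ 1 with rfl | h5
      · refine .inr (.inl ⟨rfl, mul_le_sq ?_⟩)
        rw [le_sub_iff_add_le]; exact_mod_cast nu_one V hq hs hU hW h.dvd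
      · exact .inr (.inr ⟨mem_erase.2 ⟨h5, mem_gcd hq h4 (nu_mul_ne V hq hs hU hW hd h4 a1 a2)⟩,
          mul_le_sq (by exact_mod_cast nu_add_le V hq hs hU hW hd h4)⟩)
    · have h3 : #((nthRootsFinset (s + 2) (1 : k)).filter (· = 1)) ≤ 1 :=
        card_le_one.2 fun a ha b hb => (mem_filter.1 ha).2.trans (mem_filter.1 hb).2.symm
      gcongr
      exact_mod_cast h3

end

end Pool.Agent.Lib.MP_346d6a_co.M47
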