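import Pool.Agent.Lib.MP_346d6a_co.M47AA

/-!
Clusters at the infinite place.
-/

namespace Pool.Agent.Lib.MP_346d6a_co.M47

open Polynomial Finset

variable {q s : ℕ}

section

variable {k Ω : Type} [Field k] [Field Ω] [CharP Ω 2] [Algebra k Ω] (V : Val k Ω)

theorem v_hh_even {y : Ω} (hy : 1 < V.v y) {m : ℕ} (hm : Even m) (h0 : 0 < m) :
    V.v (hh (m + 1) y) = V.v y ^ m := by
  obtain ⟨m, rfl⟩ : ∃ j, m = j + 1 := ⟨m - 1, by omega⟩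
  rw [Nat.even_add_one, Nat.not_even_iff_odd] at hm
  exact v_hh_eq V.v hy hm

theorem P_top (hq : IsQ q) (hs : Odd s) {w : Ω} {M : NNReal} (hM : 1 ≤ M) (hw : V.v w ≤ M) :
    V.v (hh (q * (s + 2) + 1) w + w ^ (q * (s + 2)) + w ^ (q * (s + 1) + 1)) ≤
      M ^ (q * (s + 1)) := by
  have e : hh (q * (s + 2) + 1) w + w ^ (q * (s + 2)) + w ^ (q * (s + 1) + 1) =
      w ^ (q * (s + 1)) + (w + 1) * rem1 q s w 1 := by
    rw [hh, pow_taylor hq hs]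
    linear_combination (w ^ (q * (s + 2) + 1) + w ^ (q * (s + 2)) + w ^ (q * (s + 1) + 1)) *
      (CharTwo.two_eq_zero (R := Ω))
  rw [e]
  refine V.v.map_add_le (by rw [map_pow]; gcongr) ?_
  rw [map_mul]
  refine (mul_le_mul' (V.v.map_add_le hw (by simpa using hM)) (v_rem1 V.v hM hw)).trans ?_
  rw [← pow_succ']
  exact pow_le_pow_right₀ hM (by have := hq.two_le; nlinarith)

omit [CharP Ω 2] in
theorem v_zx {ζ : k} (h : ζ ^ (s + 2) = 1) : V.v (algebraMap k Ω ζ * V.τ⁻¹) = (V.v V.τ)⁻¹ := by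
  rw [v_cmul V (by rintro rfl; simp at h), map_inv₀]

variable [CharP k 2]

theorem root_inf_v (hq : IsQ q) {a : Ω} (ha : a ∈ rt V.τ⁻¹ (EE k q s)) :
    V.v a = (V.v V.τ)⁻¹ := by
  have h0 : 0 < q * (s + 2) := by have := hq.two_le; positivity
  have h1 := v_P_eq (s := s) V hq (y := V.τ⁻¹) (by rw [map_inv₀]; exact one_lt_M V)
  rw [← (mem_EE hq).1 ha, map_inv₀] at h1
  have h2 : 1 < V.v a := by
    by_contra h
    exact (h1 ▸ v_hh_one V.v (not_lt.1 h) _).not_gt (one_lt_pow₀ (one_lt_M V) h0.ne')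
  rwa [v_P_eq V hq h2, pow_left_inj₀ zero_le zero_le h0.ne'] at h1

theorem root_inf_res (hq : IsQ q) (hs : Odd s) {a : Ω} (ha : a ∈ rt V.τ⁻¹ (EE k q s)) :
    ∃ ζ : k, ζ ^ (s + 2) = 1 ∧ V.v (a - algebraMap k Ω ζ * V.τ⁻¹) < (V.v V.τ)⁻¹ := by
  have ht := t_pos V
  have hM := one_lt_M V
  have h2 := hq.two_le
  have h1 := root_inf_v V hq ha
  obtain ⟨ζ, hζ⟩ := V.res (a * V.τ) (by rw [map_mul, h1, inv_mul_cancel₀ ht.ne'])
  have h3 : V.v (a - algebraMap k Ω ζ * V.τ⁻¹) < (V.v V.τ)⁻¹ := by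
    have : a - algebraMap k Ω ζ * V.τ⁻¹ = (a * V.τ - algebraMap k Ω ζ) * V.τ⁻¹ := by
      have := V.τ_ne
      field_simp
    rw [this, map_mul, map_inv₀]
    exact mul_lt_of_lt_one_left (by positivity) hζ
  refine ⟨ζ, ?_, h3⟩
  have h4 : ∀ w : Ω, V.v w ≤ (V.v V.τ)⁻¹ →
      V.v (hh (q * (s + 2) + 1) w + w ^ (q * (s + 2))) < (V.v V.τ)⁻¹ ^ (q * (s + 2)) := by
    intro w hw
    have h5 := V.v.map_sub_lt ((P_top V hq hs hM.le hw).trans_lt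
      (pow_lt_pow_right₀ hM (by nlinarith : q * (s + 1) < q * (s + 2))))
      (y := w ^ (q * (s + 1) + 1)) (by
        rw [map_pow]
        exact (pow_le_pow_left₀ zero_le hw _).trans_lt (pow_lt_pow_right₀ hM (by nlinarith)))
    rwa [add_sub_cancel_right] at h5
  obtain ⟨m, hm⟩ : ∃ m, q * (s + 2) = m + 1 := ⟨q * (s + 2) - 1, by
    have : 0 < q * (s + 2) := by positivity
    omega⟩
  have h5 := (pow_est V.v (y := algebraMap k Ω ζ * V.τ⁻¹)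
    ((v_cmul_le V _ _).trans (map_inv₀ _ _).le) h3.le m).1.trans_lt
    (mul_lt_mul_of_pos_right h3 (by positivity))
  rw [add_sub_cancel, ← pow_succ', ← hm] at h5
  have h6 := V.v.map_add_lt (V.v.map_add_lt (h4 a h1.le) (h4 V.τ⁻¹ (map_inv₀ _ _).le)) h5
  have e : hh (q * (s + 2) + 1) a + a ^ (q * (s + 2)) +
      (hh (q * (s + 2) + 1) V.τ⁻¹ + V.τ⁻¹ ^ (q * (s + 2))) +
      (a ^ (q * (s + 2)) - (algebraMap k Ω ζ * V.τ⁻¹) ^ (q * (s + 2))) =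
      algebraMap k Ω ((ζ ^ (s + 2) + 1) ^ q) * V.τ⁻¹ ^ (q * (s + 2)) := by
    rw [(mem_EE hq).1 ha, hq.add_pow, ← pow_mul, mul_comm (s + 2), one_pow, map_add, map_pow,
      map_one, mul_pow]
    linear_combination (hh (q * (s + 2) + 1) V.τ⁻¹ + a ^ (q * (s + 2)) -
      algebraMap k Ω ζ ^ (q * (s + 2)) * V.τ⁻¹ ^ (q * (s + 2))) * (CharTwo.two_eq_zero (R := Ω))
  rw [e] at h6
  by_contra h7
  rw [v_cmul V (pow_ne_zero _ (CharTwo.add_eq_zero.not.2 h7)), map_pow, map_inv₀] at h6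
  exact lt_irrefl _ h6

theorem inf_est (hq : IsQ q) (hs : Odd s) {a : Ω} (ha : a ∈ rt V.τ⁻¹ (EE k q s)) {ζ : k}
    (hζ : ζ ^ (s + 2) = 1) (hb : V.v (a - algebraMap k Ω ζ * V.τ⁻¹) < (V.v V.τ)⁻¹) :
    (ζ ^ q ≠ ζ → V.v (a - algebraMap k Ω ζ * V.τ⁻¹) ^ q = (V.v V.τ)⁻¹) ∧
    (ζ ^ q = ζ → V.v (a - algebraMap k Ω ζ * V.τ⁻¹) ≤ 1) := by
  have hM := one_lt_M V
  have h2 := hq.two_le
  have hy := v_zx V hζ
  have two : (2 : Ω) = 0 := CharTwo.two_eq_zero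
  have e := hh_taylor hq hs (algebraMap k Ω ζ * V.τ⁻¹) (a - algebraMap k Ω ζ * V.τ⁻¹)
  rw [add_sub_cancel, (mem_EE hq).1 ha] at e
  have hT := V.v.map_add_le (P_top V hq hs hM.le hy.le) (P_top V hq hs hM.le (map_inv₀ _ _).le)
  have hζ' : algebraMap k Ω ζ ^ (q * (s + 2)) = 1 := by
    rw [← map_pow, mul_comm, pow_mul, hζ, one_pow, map_one]
  have hz : ζ ^ (q * (s + 1) + 1) + 1 = 0 ↔ ζ ^ q = ζ := by
    have h0 : ζ ^ q ≠ 0 := pow_ne_zero _ (by rintro rfl; simp at hζ)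
    have : ζ ^ (q * (s + 1) + 1) * ζ ^ q = (ζ ^ (s + 2)) ^ q * ζ := by ring
    rw [CharTwo.add_eq_zero, ← mul_left_inj' h0, this, hζ, one_pow, one_mul, one_mul, eq_comm]
  have hq' : V.v (hh (q * (s + 1) + 1) (algebraMap k Ω ζ * V.τ⁻¹)) =
      (V.v V.τ)⁻¹ ^ (q * (s + 1)) := by
    rw [v_hh_even V (hy ▸ hM) (hq.even.mul_right _) (by positivity), hy]
  have h1 : V.v (hh (q * (s + 2)) (algebraMap k Ω ζ * V.τ⁻¹)) ≤ (V.v V.τ)⁻¹ ^ (q * (s + 1)) := by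
    rw [hh_frob hq, map_pow, mul_comm q, pow_mul]
    exact pow_le_pow_left₀ zero_le (v_hh_le V.v hM.le hy.le _) _
  obtain ⟨m, hm⟩ : ∃ m, q * (s + 1) = m + 1 := ⟨q * (s + 1) - 1, by
    have : 0 < q * (s + 1) := by positivity
    omega⟩
  have h3 := v_hh_le V.v hM.le hy.le m
  rw [← hm] at h3
  have h4 := v_rem (q := q) (s := s) V.v hM.le hy.le hb.le
  have e2 : hh (q * (s + 2) + 1) (algebraMap k Ω ζ * V.τ⁻¹) +
      (algebraMap k Ω ζ * V.τ⁻¹) ^ (q * (s + 2)) + (algebraMap k Ω ζ * V.τ⁻¹) ^ (q * (s + 1) + 1) +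
      (hh (q * (s + 2) + 1) V.τ⁻¹ + V.τ⁻¹ ^ (q * (s + 2)) + V.τ⁻¹ ^ (q * (s + 1) + 1)) =
      algebraMap k Ω (ζ ^ (q * (s + 1) + 1) + 1) * V.τ⁻¹ ^ (q * (s + 1) + 1) +
      (hh (q * (s + 1) + 1) (algebraMap k Ω ζ * V.τ⁻¹) * (a - algebraMap k Ω ζ * V.τ⁻¹) ^ q +
      (hh (q * (s + 2)) (algebraMap k Ω ζ * V.τ⁻¹) * (a - algebraMap k Ω ζ * V.τ⁻¹) +
      (hh (q * (s + 1)) (algebraMap k Ω ζ * V.τ⁻¹) * (a - algebraMap k Ω ζ * V.τ⁻¹) ^ (q + 1) +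
      (a - algebraMap k Ω ζ * V.τ⁻¹) ^ (2 * q) *
        rem q s (algebraMap k Ω ζ * V.τ⁻¹) (a - algebraMap k Ω ζ * V.τ⁻¹)))) := by
    rw [mul_pow, mul_pow, hζ', map_add, map_pow, map_one]
    linear_combination e +
      (hh (q * (s + 2) + 1) (algebraMap k Ω ζ * V.τ⁻¹) + V.τ⁻¹ ^ (q * (s + 2))) * two
  rw [e2] at hT
  generalize a - algebraMap k Ω ζ * V.τ⁻¹ = b at *
  generalize hh (q * (s + 1) + 1) (algebraMap k Ω ζ * V.τ⁻¹) = c₁ at *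
  generalize hh (q * (s + 2)) (algebraMap k Ω ζ * V.τ⁻¹) = c₂ at *
  generalize hh (q * (s + 1)) (algebraMap k Ω ζ * V.τ⁻¹) = c₃ at *
  generalize rem q s (algebraMap k Ω ζ * V.τ⁻¹) b = c₄ at *
  have hx : V.v (V.τ⁻¹ ^ (q * (s + 1) + 1)) = (V.v V.τ)⁻¹ ^ (q * (s + 1)) * (V.v V.τ)⁻¹ := by
    rw [map_pow, map_inv₀, pow_succ]
  generalize (V.v V.τ)⁻¹ = M at *
  have hM0 : 0 < M := zero_lt_one.trans hM
  have k1 : ∀ B, 1 ≤ B → V.v b ≤ B → B < M →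
      V.v (c₃ * b ^ (q + 1) + b ^ (2 * q) * c₄) < M ^ (q * (s + 1)) * B ^ q := fun B b1 b2 b3 => by
    refine V.v.map_add_lt ?_ ?_ <;> rw [map_mul, map_pow]
    · calc _ ≤ M ^ m * B ^ (q + 1) := by gcongr
        _ = M ^ m * B * B ^ q := by ring
        _ < M ^ m * M * B ^ q := by gcongr
        _ = _ := by rw [hm, pow_succ]
    · calc _ ≤ B ^ (2 * q) * M ^ (q * s) := by gcongr
        _ = M ^ (q * s) * B ^ q * B ^ q := by ring
        _ < M ^ (q * s) * M ^ q * B ^ q := by gcongr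
        _ = _ := by ring
  have k2 : 1 < V.v b → V.v (c₁ * b ^ q + (c₂ * b + (c₃ * b ^ (q + 1) + b ^ (2 * q) * c₄))) =
      M ^ (q * (s + 1)) * V.v b ^ q := fun h5 => by
    rw [v_eq_of_lt, map_mul, map_pow, hq']
    rw [map_mul, map_pow, hq']
    refine V.v.map_add_lt ?_ (k1 _ h5.le le_rfl hb)
    rw [map_mul]
    calc _ ≤ M ^ (q * (s + 1)) * V.v b ^ 1 := by rw [pow_one]; gcongr
      _ < _ := by gcongr; omega
  have k3 : V.v b ≤ 1 → V.v (c₁ * b ^ q + (c₂ * b + (c₃ * b ^ (q + 1) + b ^ (2 * q) * c₄))) ≤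
      M ^ (q * (s + 1)) := fun h5 => by
    refine V.v.map_add_le ?_ (V.v.map_add_le ?_ (by simpa using (k1 1 le_rfl h5 hM).le))
    · rw [map_mul, map_pow, hq']; exact mul_le_of_le_one_right' (pow_le_one₀ zero_le h5)
    · rw [map_mul]; exact (mul_le_of_le_one_right' h5).trans h1
  refine ⟨fun h5 => ?_, fun h5 => ?_⟩
  · have h6 := (v_cmul V (hz.not.2 h5) _).trans hx
    have h7 : M ^ (q * (s + 1)) < M ^ (q * (s + 1)) * M := lt_mul_of_one_lt_right (by positivity) hM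
    have h8 := v_eq_of_lt V.v (hT.trans_lt (h7.trans_eq h6.symm))
    rw [← add_assoc, CharTwo.add_self_eq_zero, zero_add, h6] at h8
    have h9 : 1 < V.v b := by
      by_contra h9
      exact (h8 ▸ k3 (not_lt.1 h9)).not_gt h7
    rw [k2 h9] at h8
    exact mul_left_cancel₀ (by positivity) h8
  · by_contra h9
    rw [hz.2 h5, map_zero, zero_mul, zero_add, k2 (not_le.1 h9)] at hT
    exact hT.not_gt (lt_mul_of_one_lt_right (by positivity)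
      (one_lt_pow₀ (not_le.1 h9) (by omega)))

theorem v_g_inf (hq : IsQ q) (hs : Odd s) {a : Ω} (ha : a ∈ rt V.τ⁻¹ (EE k q s)) :
    V.v (hh (s + 2) a) = (V.v V.τ)⁻¹ ^ (s + 1) := by
  have h := root_inf_v V hq ha
  rw [v_hh_eq V.v (h ▸ one_lt_M V) hs, h]

theorem pair_inf (hq : IsQ q) (hs : Odd s) {a b : Ω} (ha : a ∈ rt V.τ⁻¹ (EE k q s))
    (hb : b ∈ rt V.τ⁻¹ (EE k q s)) (hab : b ≠ a) : 1 ≤ V.v (b - a) := by
  by_contra hn
  have hn := not_le.1 hn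
  have hM := one_lt_M V
  have h2 := hq.two_le
  have h1 := root_inf_v V hq ha
  have hp : 0 < V.v (b - a) := pos_iff_ne_zero.2 ((Valuation.ne_zero_iff _).2 (sub_ne_zero.2 hab))
  have h3 : ∀ (B : NNReal) (i : ℕ), B ≤ (V.v V.τ)⁻¹ ^ (q * (s + 1)) → 1 < i →
      B * V.v (b - a) ^ i < V.v (hh (s + 2) a) ^ q * V.v (b - a) := fun B i b1 b2 => by
    rw [v_g_inf V hq hs ha, ← pow_mul, mul_comm (s + 1)]
    have := pow_lt_pow_right_of_lt_one₀ hp hn b2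
    rw [pow_one] at this
    exact (mul_le_mul_left b1 _).trans_lt (mul_lt_mul_of_pos_left this (by positivity))
  refine pair_gen V hq hs hM.le h1.le (hn.trans hM).le
    (((mem_EE hq).1 hb).trans ((mem_EE hq).1 ha).symm) (h3 _ _ (v_hh_le V.v hM.le h1.le _) h2)
    (h3 _ _ ?_ (by omega)) ?_
  · simpa using v_hh_mul_le V.v hM.le h1.le (b := 1) (by simpa using hM.le) (q * (s + 1))
  · rw [mul_comm]
    exact h3 _ _ (pow_le_pow_right₀ hM.le (by nlinarith)) (by omega)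

theorem g_inf_res (hq : IsQ q) (hs : Odd s) {a : Ω} (ha : a ∈ rt V.τ⁻¹ (EE k q s)) {ζ c : k}
    (hζ : ζ ^ (s + 2) = 1) (hb : V.v (a - algebraMap k Ω ζ * V.τ⁻¹) < (V.v V.τ)⁻¹) :
    V.v (algebraMap k Ω c * hh (s + 2) a + hh (s + 2) V.τ⁻¹) < (V.v V.τ)⁻¹ ^ (s + 1) ↔ c = ζ := by
  have hM := one_lt_M V
  have h1 := root_inf_v V hq ha
  have h2 : V.v V.τ⁻¹ = (V.v V.τ)⁻¹ := map_inv₀ _ _
  have lt : (V.v V.τ)⁻¹ ^ s < (V.v V.τ)⁻¹ ^ (s + 1) := pow_lt_pow_right₀ hM (by omega)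
  have h3 := v_hh_top V.v (h1 ▸ hM.le) hs
  have h4 := v_hh_top V.v (h2 ▸ hM.le) hs
  rw [h1] at h3
  rw [h2] at h4
  have h5 := (pow_est V.v (v_zx V hζ).le hb.le s).1.trans_lt
    (mul_lt_mul_of_pos_right hb (by positivity))
  rw [add_sub_cancel, ← pow_succ'] at h5
  have h6 := V.v.map_add_lt ((v_cmul_le V c _).trans_lt (V.v.map_add_lt (h3.trans_lt lt) h5))
    (h4.trans_lt lt)
  have e : algebraMap k Ω c * (hh (s + 2) a + a ^ (s + 1) +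
      (a ^ (s + 1) - (algebraMap k Ω ζ * V.τ⁻¹) ^ (s + 1))) + (hh (s + 2) V.τ⁻¹ + V.τ⁻¹ ^ (s + 1)) =
      algebraMap k Ω c * hh (s + 2) a + hh (s + 2) V.τ⁻¹ -
      algebraMap k Ω (c * ζ ^ (s + 1) + 1) * V.τ⁻¹ ^ (s + 1) := by
    simp only [map_add, map_mul, map_pow, map_one, mul_pow]
    linear_combination (algebraMap k Ω c * a ^ (s + 1) + V.τ⁻¹ ^ (s + 1)) *
      (CharTwo.two_eq_zero (R := Ω))
  rw [e] at h6
  have hz : c * ζ ^ (s + 1) + 1 = 0 ↔ c = ζ := by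
    have h0 : ζ ≠ 0 := by rintro rfl; simp at hζ
    rw [CharTwo.add_eq_zero, ← mul_left_inj' h0, mul_assoc, ← pow_succ, hζ, mul_one, one_mul]
  refine ⟨fun h7 => ?_, fun h7 => ?_⟩
  · by_contra h8
    have := V.v.map_sub_lt h7 h6
    rw [sub_sub_cancel, v_cmul V (hz.not.2 h8), map_pow, h2] at this
    exact lt_irrefl _ this
  · rwa [hz.2 h7, map_zero, zero_mul, sub_zero] at h6

end

end Pool.Agent.Lib.MP_346d6a_co.M47
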