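import Pool.Agent.Lib.MP_346d6a_co.M47Five

/-!
Part M: the curve of a monomial that is neither Gold nor Kasami-Welch has a big component.
-/

namespace Pool.Agent.Lib.MP_346d6a_co.M47

open Polynomial Finset

variable {q s : ℕ}

section

variable {k Ω : Type} [Field k] [Field Ω] [Algebra k Ω] (V : Val k Ω)

variable {V} in
theorem Pl.exists_irr {x a : Ω} (hx : Pl V x) {U : k[X][X]} (hU : U.Monic) (ha : a ∈ rt x U) :
    ∃ D : k[X][X], D.Monic ∧ Irreducible D ∧ a ∈ rt x D ∧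
      ∀ H : k[X][X], (H.map (jj x)).eval a = 0 → D ∣ H := by
  letI : Algebra k[X] Ω := (jj x).toAlgebra
  have : Module.IsTorsionFree k[X] Ω := Module.isTorsionFree_iff_algebraMap_injective.2 hx.inj
  have e : ∀ H : k[X][X], aeval a H = (H.map (jj x)).eval a := fun H =>
    (eval_map_algebraMap H a).symm
  have hi : IsIntegral k[X] a := ⟨U, hU, by rw [← aeval_def, e, ← mem_rt hU]; exact ha⟩
  refine ⟨minpoly k[X] a, minpoly.monic hi, minpoly.irreducible hi, ?_, fun H hH =>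
    minpoly.isIntegrallyClosed_dvd hi ((e H).trans hH)⟩
  rw [mem_rt (minpoly.monic hi), ← e, minpoly.aeval]

variable {V} in
theorem Pl.irr_dvd {x a : Ω} (hx : Pl V x) {U H : k[X][X]} (hU : U.Monic) (hI : Irreducible U)
    (ha : a ∈ rt x U) (hH : (H.map (jj x)).eval a = 0) : U ∣ H := by
  obtain ⟨D, -, h1, -, h2⟩ := hx.exists_irr hU ha
  exact ((h1.dvd_symm hI (h2 U ((mem_rt hU).1 ha)))).trans (h2 H hH)

variable [CharP k 2] [CharP Ω 2] [IsAlgClosed k] [IsAlgClosed Ω]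

theorem v_g_le (hq : IsQ q) (hs : Odd s) (hd : s + 2 ∣ q - 1) {U : k[X][X]} (hU : U.Monic)
    (h : U ∣ EE k q s) (hm : U.natDegree ≤ q) {x₀ : k} {a : Ω}
    (ha : a ∈ rt (algebraMap k Ω x₀ + V.τ) U) :
    V.v (hh (s + 2) (algebraMap k Ω x₀ + V.τ)) ≤ V.v (hh (s + 2) a) := by
  have ha' := rt_subset (EE_monic hq).1 hU h ha
  obtain ⟨z₀, hz⟩ := V.res a (root_le V hq ha')
  by_cases h1 : hh (s + 2) z₀ = 0
  · have h2 := (crit_B hq hd h1).2
    have h3 : kap q s z₀ = kap q s x₀ := by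
      by_contra h3
      have h4 := Nat.le_of_dvd (card_pos.2 ⟨a, mem_filter.2 ⟨ha, hz⟩⟩) (mu_dvd V hq hs hU h h3)
      have h5 := sum_mu V hq hs hU h x₀ {z₀}
      rw [sum_singleton] at h5
      unfold mu at h5
      omega
    have h4 : hh (s + 2) x₀ = 0 := by
      have := hq.two_le
      rcases kap_cases q s x₀ with ⟨-, a1⟩ | ⟨a1, -⟩ | ⟨a1, -⟩
      exacts [by omega, a1, a1]
    rw [(v_g_fin V hq hs hz).2 h1, v_b_eq V hq hs ha' hz h3,
      (v_g_fin V hq hs (by simpa using V.τ_lt)).2 h4, add_sub_cancel_left]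
  · rw [(v_g_fin V hq hs hz).1 h1]
    exact v_hh_one V.v (v_x_le V x₀) _

theorem zeta_eq (hq : IsQ q) (hs : Odd s) (hd : s + 2 ∣ q - 1) {U : k[X][X]} (hU : U.Monic)
    (hI : Irreducible U) (h : U ∣ EE k q s) (hm : U.natDegree ≤ q) {a₁ : Ω} {ζ : k}
    (ha₁ : a₁ ∈ rt V.τ⁻¹ U) (hζ : ζ ^ (s + 2) = 1)
    (hb : V.v (a₁ - algebraMap k Ω ζ * V.τ⁻¹) < (V.v V.τ)⁻¹) :
    ∀ a ∈ rt V.τ⁻¹ U, V.v (a - algebraMap k Ω ζ * V.τ⁻¹) < (V.v V.τ)⁻¹ := by
  classical
  have hM := one_lt_M V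
  have sq : ∀ x, Pl V x → Sq x U := fun x hx => (hx.sq hq hs).of_dvd hU h
  have sub := fun x : Ω => rt_subset (x := x) (EE_monic hq).1 hU h
  have e1 : ∀ x a : Ω, ((hh (s + 2) X : k[X][X]).map (jj x)).eval a = hh (s + 2) a := by
    simp [hh]
  have e2 : ∀ x a : Ω, ((C (C ζ) * hh (s + 2) X + C (hh (s + 2) X) : k[X][X]).map (jj x)).eval a =
      algebraMap k Ω ζ * hh (s + 2) a + hh (s + 2) x := by
    intro x a
    rw [Polynomial.map_add, Polynomial.map_mul, map_C, map_C, eval_add, eval_mul, eval_C, eval_C,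
      e1, jj_C, map_hh, jj_X]
  have r1 := fun x hx => (sq x hx).res (hh (s + 2) X) _ le_rfl
  have r2 := fun x hx => (sq x hx).res (C (C ζ) * hh (s + 2) X + C (hh (s + 2) X)) _ le_rfl
  simp only [e1] at r1
  simp only [e2] at r2
  generalize resultant U (hh (s + 2) X) _ _ = A₀ at r1
  generalize resultant U (C (C ζ) * hh (s + 2) X + C (hh (s + 2) X)) _ _ = A at r2
  have hg := fun a (ha : a ∈ rt V.τ⁻¹ U) => v_g_inf V hq hs (sub _ ha)
  have hA₀ : A₀ ≠ 0 := by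
    rintro rfl
    obtain ⟨a, ha, h0⟩ := prod_eq_zero_iff.1 ((r1 _ (pl_inf V)).symm.trans (map_zero _))
    have := hg a ha
    rw [h0, map_zero] at this
    exact (pow_pos (zero_lt_one.trans hM) _).ne this
  have hA : A = 0 := by
    by_contra hA
    have h1 : A₀.roots ≤ A.roots := Multiset.le_iff_count.2 fun x₀ => by
      rw [← pow_le_pow_iff_right_of_lt_one₀ (t_pos V) V.τ_lt, ← v_fin V x₀ hA, ← v_fin V x₀ hA₀,
        r1 _ (pl_fin V x₀), r2 _ (pl_fin V x₀), map_prod, map_prod]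
      exact prod_le_prod' fun a ha => V.v.map_add_le (v_cmul_le V _ _) (v_g_le V hq hs hd hU h hm ha)
    have h2 := Multiset.card_le_card h1
    rw [← (IsAlgClosed.splits _).natDegree_eq_card_roots,
      ← (IsAlgClosed.splits _).natDegree_eq_card_roots, ← pow_le_pow_iff_right₀ hM, ← v_inf V hA,
      ← v_inf V hA₀, r1 _ (pl_inf V), r2 _ (pl_inf V), map_prod, map_prod] at h2
    refine h2.not_gt (prod_lt_prod (fun a ha => ?_) (fun a ha => ?_) ⟨a₁, ha₁, ?_⟩)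
    · refine pos_iff_ne_zero.2 ((Valuation.ne_zero_iff _).2 fun h0 => hA ((pl_inf V).inj ?_))
      rw [r2 _ (pl_inf V), map_zero]
      exact prod_eq_zero ha h0
    · refine V.v.map_add_le (v_cmul_le V _ _) ?_
      have h3 : V.v V.τ⁻¹ = (V.v V.τ)⁻¹ := map_inv₀ _ _
      rw [hg a ha, v_hh_eq V.v (h3 ▸ hM) hs, h3]
    · rw [hg a₁ ha₁]
      exact (g_inf_res V hq hs (sub _ ha₁) hζ hb).2 rfl
  obtain ⟨a₂, ha₂, h0⟩ := prod_eq_zero_iff.1 ((r2 _ (pl_inf V)).symm.trans (hA ▸ map_zero _))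
  have h1 := (pl_inf V).irr_dvd hU hI ha₂ ((e2 _ _).trans h0)
  intro a ha
  have h2 := eval_eq_zero_of_dvd_of_eval_eq_zero (map_dvd (jj V.τ⁻¹) h1) ((mem_rt hU).1 ha)
  obtain ⟨ξ, h3, h4⟩ := root_inf_res V hq hs (sub _ ha)
  rwa [(g_inf_res V hq hs (sub _ ha) h3 h4 (c := ζ)).1 (by
    rw [← e2, h2, map_zero]; exact pow_pos (zero_lt_one.trans hM) _)]

theorem exists_line (hq : IsQ q) (hs : Odd s) (hne : s + 2 + 1 ≠ q) (hd : s + 2 ∣ q - 1)
    (hD : ∀ D : k[X][X], Irreducible D → D ∣ EE k q s → 2 * D.natDegree + 2 ≤ q * (s + 2))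
    {a₁ : Ω} (ha₁ : a₁ ∈ rt V.τ⁻¹ (EE k q s)) :
    ∃ ζ β : k, ζ ^ (s + 2) = 1 ∧ V.v (a₁ - algebraMap k Ω ζ * V.τ⁻¹ - algebraMap k Ω β) < 1 ∧
      (EE k q s).eval (C ζ * X + C β) = 0 := by
  classical
  obtain ⟨U, hU, hI, ha, h1⟩ := (pl_inf V).exists_irr (EE_monic hq).1 ha₁
  have h := h1 _ ((mem_rt (EE_monic hq).1).1 ha₁)
  have hm := deg_le_q V hq hs hne hd hU h (by have := hD U hI h; omega)
  obtain ⟨ζ, hζ, hb⟩ := root_inf_res V hq hs ha₁
  have h2 : ∀ a ∈ rt V.τ⁻¹ U, V.v (a - algebraMap k Ω ζ * V.τ⁻¹) ≤ 1 := fun a ha' =>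
    (inf_est V hq hs (rt_subset (EE_monic hq).1 hU h ha') hζ
      (zeta_eq V hq hs hd hU hI h hm ha hζ hb a ha')).2 (zeta_fix hq hd hζ)
  obtain ⟨β, hβ⟩ := V.res _ (h2 a₁ ha)
  refine ⟨ζ, β, hζ, hβ, eval_eq_zero_of_dvd_of_eval_eq_zero h ?_⟩
  by_contra h3
  have h4 := v_inf V h3
  rw [← eval_map_apply, (((pl_inf V).sq hq hs).of_dvd hU h).prod, eval_prod, map_prod,
    ← mul_prod_erase _ _ ha] at h4
  have e : ∀ a : Ω, V.v (eval (jj V.τ⁻¹ (C ζ * X + C β)) (X - C a)) =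
      V.v (a - algebraMap k Ω ζ * V.τ⁻¹ - algebraMap k Ω β) := fun a => by
    rw [eval_sub, eval_X, eval_C, V.v.map_sub_swap, map_add, map_mul, jj_C, jj_C, jj_X, sub_sub]
  simp only [e] at h4
  refine h4.not_lt (lt_of_lt_of_le ?_ (one_le_pow₀ (one_lt_M V).le))
  exact (mul_le_of_le_one_right' (prod_le_one' fun a ha' =>
    V.v.map_sub_le (h2 a (mem_of_mem_erase ha')) (const_le V β))).trans_lt hβ

include V in
theorem five (hq : IsQ q) (hs : Odd s) (hne : s + 2 + 1 ≠ q) (hd : s + 2 ∣ q - 1)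
    (hD : ∀ D : k[X][X], Irreducible D → D ∣ EE k q s → 2 * D.natDegree + 2 ≤ q * (s + 2)) :
    False := by
  classical
  obtain ⟨x₀, hx⟩ : ∃ x₀ : k, hh (s + 2) x₀ = 0 := by
    obtain ⟨x₀, hx⟩ := IsAlgClosed.exists_root (hh (s + 2) (X : k[X])) (degree_ne_of_natDegree_ne
      (by rw [(hh_monic hs.add_one).2]; simp))
    exact ⟨x₀, by simpa [hh] using hx⟩
  have h1 := card_le_card_of_forall_subsingleton (s := rt V.τ⁻¹ (EE k q s))
    (t := nthRootsFinset (s + 2) (1 : k) ×ˢ crit k s) (fun a p =>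
      V.v (a - algebraMap k Ω p.1 * V.τ⁻¹ - algebraMap k Ω (p.2 - p.1 * x₀)) < 1) ?_ ?_
  · rw [((pl_inf V).sq hq hs).card, (EE_monic hq).2, card_product, nthRootsFinset_def] at h1
    have h2 := h1.trans (Nat.mul_le_mul ((Multiset.toFinset_card_le _).trans (card_nthRoots _ _))
      (card_crit hs))
    have h3 := three_le hq hs hne hd
    nlinarith
  · intro a ha
    obtain ⟨ζ, β, h1, h2, h3⟩ := exists_line V hq hs hne hd hD ha
    refine ⟨(ζ, ζ * x₀ + β), mem_product.2 ⟨(mem_nthRootsFinset (by omega) _).2 h1, ?_⟩,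
      by simpa using h2⟩
    have h4 : jj (algebraMap k Ω x₀ + V.τ) (C ζ * X + C β) ∈
        rt (algebraMap k Ω x₀ + V.τ) (EE k q s) := by
      rw [mem_rt (EE_monic hq).1, eval_map_apply, h3, map_zero]
    have h5 : V.v (jj (algebraMap k Ω x₀ + V.τ) (C ζ * X + C β) - algebraMap k Ω (ζ * x₀ + β)) =
        V.v V.τ := by
      rw [← v_cmul V (c := ζ) (by rintro rfl; simp at h1) V.τ]
      congr 1
      simp only [map_add, map_mul, jj_C, jj_X]
      ring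
    have h6 := (root_fin V hq hs h4 (h5 ▸ V.τ_lt)).2
    rw [h5, pow_right_inj₀ (t_pos V) V.τ_lt.ne, (crit_B hq hd hx).2] at h6
    have := hq.two_le
    rw [mem_crit hs]
    rcases kap_cases q s (ζ * x₀ + β) with ⟨-, a1⟩ | ⟨a1, -⟩ | ⟨a1, -⟩
    exacts [by omega, a1, a1]
  · intro p _ a ha b hb
    by_contra hab
    have := V.v.map_sub_lt ha.2 hb.2
    rw [sub_sub_sub_cancel_right, sub_sub_sub_cancel_right] at this
    exact this.not_ge (pair_inf V hq hs hb.1 ha.1 hab)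

include V in
theorem exists_split (hq : IsQ q) (hs : Odd s) {F : k[X][X]} (hF : F.Monic) (h : F ∣ EE k q s)
    (h0 : 0 < F.natDegree)
    (hD : ∀ D : k[X][X], Irreducible D → D ∣ F → 2 * D.natDegree ≤ F.natDegree) :
    ∃ U W : k[X][X], U.Monic ∧ W.Monic ∧ U * W = F ∧ U.natDegree ≤ 2 * W.natDegree ∧
      W.natDegree ≤ 2 * U.natDegree := by
  classical
  have ex : ∃ m, ∃ U : k[X][X], U.Monic ∧ U ∣ F ∧ F.natDegree ≤ 3 * m ∧ U.natDegree = m :=
    ⟨_, F, hF, dvd_rfl, by omega, rfl⟩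
  obtain ⟨U, hU, ⟨W, hW⟩, h1, h2⟩ := Nat.find_spec ex
  have hmin : ∀ G : k[X][X], G.Monic → G ∣ F → F.natDegree ≤ 3 * G.natDegree →
      U.natDegree ≤ G.natDegree := fun G a1 a2 a3 => h2 ▸ Nat.find_min' ex ⟨G, a1, a2, a3, rfl⟩
  rw [← h2] at h1
  have hW' : W.Monic := hU.of_mul_monic_left (hW ▸ hF)
  have h3 := hU.natDegree_mul hW'
  rw [← hW] at h3
  refine ⟨U, W, hU, hW', hW.symm, ?_, by omega⟩
  by_contra h4
  have hUF : U ∣ F := ⟨W, hW⟩
  obtain ⟨a, ha⟩ := card_pos.1 ((((pl_inf V).sq hq hs).of_dvd hU (hUF.trans h)).card.symm ▸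
    (by omega : 0 < U.natDegree))
  obtain ⟨D, a1, a2, a3, a4⟩ := (pl_inf V).exists_irr hU ha
  obtain ⟨G, hG⟩ := a4 U ((mem_rt hU).1 ha)
  have hG' : G.Monic := a1.of_mul_monic_left (hG ▸ hU)
  have h5 := a1.natDegree_mul hG'
  rw [← hG] at h5
  have hDF : D ∣ F := (Dvd.intro _ hG.symm).trans hUF
  have h6 := hD D a2 hDF
  have h7 := hmin D a1 hDF
  have h8 := hmin G hG' ((Dvd.intro_left _ hG.symm).trans hUF)
  have h9 := a1.natDegree_pos_of_not_isUnit a2.not_isUnit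
  omega

end

theorem bigFactor (h : ExistsVal) : BigFactor := by
  intro k _ _ _ u o hu ho h3 hne P hP
  obtain ⟨Ω, _, _, _, V, -⟩ := h k (RingEquiv.refl k)
  have : CharP Ω 2 := charP_of_injective_algebraMap (algebraMap k Ω).injective 2
  obtain ⟨s, rfl⟩ : ∃ s, o = s + 2 := ⟨o - 2, by omega⟩
  have hs : Odd s := by simpa [Nat.odd_add] using ho
  have hq : IsQ (2 ^ u) := ⟨u, hu, rfl⟩
  have hE : P.map C + C P = EE k (2 ^ u) s := by simp [hP, EE, hh]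
  rw [hE]
  generalize 2 ^ u = q at *
  by_contra hn
  push Not at hn
  by_cases hd : s + 2 ∣ q - 1
  · exact five V hq hs hne hd hn
  have hm : ∀ ε : k, (X + C (X + C ε) : k[X][X]).Monic := fun ε => monic_X_add_C _
  have h1 : ∀ ε : k, ε = 0 ∨ ε = 1 → (X + C (X + C ε) : k[X][X]) ∣ EE k q s := fun ε hε => by
    rw [← CharTwo.sub_eq_add, dvd_iff_isRoot, IsRoot.def, EE, eval_add, eval_C,
      CharTwo.add_eq_zero, ← coe_evalRingHom, map_hh, coe_evalRingHom, eval_X]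
    rcases hε with rfl | rfl
    · simp
    · rw [C_1, hh_add_one]
  have h2 : IsCoprime (X + C (X + C 0) : k[X][X]) (X + C (X + C 1)) := ⟨1, 1, by
    simp only [map_add, map_zero, map_one]
    linear_combination (X + C X) * (CharTwo.two_eq_zero (R := k[X][X]))⟩
  obtain ⟨F, hF⟩ := h2.mul_dvd (h1 0 (.inl rfl)) (h1 1 (.inr rfl))
  have hF' : F.Monic := ((hm 0).mul (hm 1)).of_mul_monic_left (hF ▸ (EE_monic hq).1)
  have h4 := ((hm 0).mul (hm 1)).natDegree_mul hF'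
  rw [← hF, (EE_monic hq).2, (hm 0).natDegree_mul (hm 1), natDegree_X_add_C,
    natDegree_X_add_C] at h4
  have hFE : F ∣ EE k q s := Dvd.intro_left _ hF.symm
  obtain ⟨U, W, hU, hW, e, a1, a2⟩ := exists_split V hq hs hF' hFE
    (by have := hq.two_le; nlinarith) fun D b1 b2 => by
      have := hn D b1 (b2.trans hFE)
      omega
  exact four V hq hs hne hd hU hW (by rw [e, hF, mul_comm]) a1 a2

end Pool.Agent.Lib.MP_346d6a_co.M47
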