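import Pool.Agent.Lib.MP_346d6a_co.M47Val

/-!
Places of `k[X]`, roots at a place, Bezout's formula.
-/

namespace Pool.Agent.Lib.MP_346d6a_co.M47

open Polynomial Finset

section

variable {k Ω : Type} [Field k] [Field Ω] [Algebra k Ω] (V : Val k Ω)

/-- Evaluation at `x`. -/
noncomputable def jj (x : Ω) : k[X] →+* Ω := eval₂RingHom (algebraMap k Ω) x

@[simp] theorem jj_X (x : Ω) : jj x (X : k[X]) = x := by simp [jj]

@[simp] theorem jj_C (x : Ω) (c : k) : jj x (C c) = algebraMap k Ω c := by simp [jj]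

theorem t_pos : 0 < V.v V.τ := by
  rw [pos_iff_ne_zero]; exact (Valuation.ne_zero_iff _).2 V.τ_ne

theorem one_lt_M : 1 < (V.v V.τ)⁻¹ := (one_lt_inv₀ (t_pos V)).2 V.τ_lt

theorem const_le (c : k) : V.v (algebraMap k Ω c) ≤ 1 := by
  rcases eq_or_ne c 0 with rfl | h
  · simp
  · exact (V.const c h).le

theorem const_eq_zero {c : k} (h : V.v (algebraMap k Ω c) < 1) : c = 0 := by
  by_contra hc
  exact (V.const c hc).not_lt h

theorem v_jj [IsAlgClosed k] (x : Ω) {p : k[X]} (hp : p ≠ 0) :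
    V.v (jj x p) = (p.roots.map fun r => V.v (x - algebraMap k Ω r)).prod := by
  conv_lhs => rw [(IsAlgClosed.splits p).eq_prod_roots]
  rw [map_mul, map_mul, jj_C, V.const _ (leadingCoeff_ne_zero.2 hp), one_mul, map_multiset_prod,
    map_multiset_prod, Multiset.map_map, Multiset.map_map]
  simp

open Classical in
theorem v_fin [IsAlgClosed k] (x₀ : k) {p : k[X]} (hp : p ≠ 0) :
    V.v (jj (algebraMap k Ω x₀ + V.τ) p) = V.v V.τ ^ p.roots.count x₀ := by
  rw [v_jj V _ hp]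
  induction p.roots using Multiset.induction_on with
  | empty => simp
  | cons a s ih =>
    rw [Multiset.map_cons, Multiset.prod_cons, ih]
    rcases eq_or_ne x₀ a with rfl | h
    · rw [Multiset.count_cons_self, pow_succ', add_sub_cancel_left]
    · have h1 := V.const _ (sub_ne_zero.2 h)
      rw [Multiset.count_cons_of_ne h, add_sub_right_comm, ← map_sub, v_eq_of_lt, h1, one_mul]
      rw [h1]; exact V.τ_lt

theorem v_inf [IsAlgClosed k] {p : k[X]} (hp : p ≠ 0) :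
    V.v (jj V.τ⁻¹ p) = (V.v V.τ)⁻¹ ^ p.natDegree := by
  rw [v_jj V _ hp, (IsAlgClosed.splits p).natDegree_eq_card_roots, ← Multiset.prod_replicate,
    ← Multiset.map_const']
  refine congrArg _ (Multiset.map_congr rfl fun r _ => ?_)
  rw [sub_eq_add_neg, v_eq_of_lt, map_inv₀]
  rw [Valuation.map_neg, map_inv₀]
  exact (const_le V r).trans_lt (one_lt_M V)

/-- `x` defines a place with uniformizer of value `v τ`. -/
def Pl (x : Ω) : Prop := ∀ p : k[X], p ≠ 0 → ∃ z : ℤ, V.v (jj x p) = V.v V.τ ^ z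

theorem pl_fin [IsAlgClosed k] (x₀ : k) : Pl V (algebraMap k Ω x₀ + V.τ) := by
  classical
  exact fun p hp => ⟨p.roots.count x₀, by rw [v_fin V x₀ hp, zpow_natCast]⟩

theorem pl_inf [IsAlgClosed k] : Pl V V.τ⁻¹ :=
  fun p hp => ⟨-p.natDegree, by rw [v_inf V hp, zpow_neg, zpow_natCast, inv_pow]⟩

variable {V} in
theorem Pl.inj {x : Ω} (h : Pl V x) : Function.Injective (jj x : k[X] →+* Ω) := by
  rw [injective_iff_map_eq_zero]
  intro p hp
  by_contra h0
  obtain ⟨z, hz⟩ := h p h0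
  rw [hp, map_zero] at hz
  exact (zpow_pos (t_pos V) z).ne hz

open Classical in
/-- The roots of `U` at the place `x`. -/
noncomputable def rt (x : Ω) (U : k[X][X]) : Finset Ω := (U.map (jj x)).roots.toFinset

/-- `U` is monic with simple roots. -/
def Sq (x : Ω) (U : k[X][X]) : Prop := U.Monic ∧ (U.map (jj x)).roots.Nodup

theorem mem_rt {x a : Ω} {U : k[X][X]} (h : U.Monic) :
    a ∈ rt x U ↔ (U.map (jj x)).eval a = 0 := by
  classical
  rw [rt, Multiset.mem_toFinset, mem_roots (h.map _).ne_zero, IsRoot.def]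

theorem Sq.val {x : Ω} {U : k[X][X]} (h : Sq x U) : (rt x U).val = (U.map (jj x)).roots := by
  classical
  rw [rt, Multiset.toFinset_val, h.2.dedup]

theorem Sq.prod [IsAlgClosed Ω] {x : Ω} {U : k[X][X]} (h : Sq x U) :
    U.map (jj x) = ∏ a ∈ rt x U, (X - C a) := by
  rw [Finset.prod, h.val]
  exact (IsAlgClosed.splits _).eq_prod_roots_of_monic (h.1.map _)

theorem Sq.card [IsAlgClosed Ω] {x : Ω} {U : k[X][X]} (h : Sq x U) :
    #(rt x U) = U.natDegree := by
  rw [Finset.card, h.val, ← (IsAlgClosed.splits _).natDegree_eq_card_roots, h.1.natDegree_map]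

theorem Sq.of_dvd {x : Ω} {U W : k[X][X]} (h : Sq x U) (hW : W.Monic) (hd : W ∣ U) : Sq x W :=
  ⟨hW, Multiset.nodup_of_le (roots.le_of_dvd (h.1.map (jj x)).ne_zero (map_dvd (jj x) hd)) h.2⟩

theorem rt_subset {x : Ω} {U W : k[X][X]} (hU : U.Monic) (hW : W.Monic) (hd : W ∣ U) :
    rt x W ⊆ rt x U := fun a ha => by
  rw [mem_rt hW] at ha
  rw [mem_rt hU]
  exact eval_eq_zero_of_dvd_of_eval_eq_zero (map_dvd _ hd) ha

theorem Sq.disj {x : Ω} {U W : k[X][X]} (h : Sq x (U * W)) : Disjoint (rt x U) (rt x W) := by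
  have h2 := h.2
  have h3 := (h.1.map (jj x)).ne_zero
  rw [Polynomial.map_mul] at h2 h3
  rw [roots_mul h3] at h2
  classical
  rw [rt, rt, Multiset.disjoint_toFinset]
  exact (Multiset.nodup_add.1 h2).2.2

theorem Sq.shift [IsAlgClosed Ω] {x : Ω} {U : k[X][X]} (h : Sq x U) (y : Ω) :
    ∏ a ∈ rt x U, (X - C (a - y)) = (U.map (jj x)).comp (X + C y) := by
  rw [h.prod, Polynomial.prod_comp]
  refine prod_congr rfl fun a _ => ?_
  simp only [sub_comp, X_comp, C_comp, map_sub]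
  ring

open Classical in
variable {V} in
theorem Pl.level [IsAlgClosed Ω] {x : Ω} (hx : Pl V x) {U : k[X][X]} (h : Sq x U) (c : k[X])
    (r : ℕ) (p : ℤ) (hr : 0 < r) (hc : IsCoprime (r : ℤ) p) :
    r ∣ #{a ∈ rt x U | V.v (a - jj x c) ^ r = V.v V.τ ^ p} := by
  refine level_dvd V.v (fun a => a - jj x c) _ _ (t_pos V) V.τ_lt ?_ r p hr hc
  have : (U.map (jj x)).comp (X + C (jj x c)) = (U.comp (X + C c)).map (jj x) := by
    simp [map_comp]
  rw [h.shift, this]
  intro i hi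
  rw [coeff_map] at hi ⊢
  exact hx _ fun h0 => hi (by rw [h0, map_zero])

theorem Sq.res [IsAlgClosed Ω] {x : Ω} {U : k[X][X]} (h : Sq x U) (H : k[X][X]) (N : ℕ)
    (hN : H.natDegree ≤ N) :
    jj x (resultant U H U.natDegree N) = ∏ a ∈ rt x U, (H.map (jj x)).eval a := by
  rw [← resultant_map_map, ← h.1.natDegree_map (jj x),
    resultant_eq_prod_eval _ _ _ (natDegree_map_le.trans hN) (IsAlgClosed.splits _),
    (h.1.map _).leadingCoeff, one_pow, one_mul, Finset.prod, h.val]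

/-- The order, normalized by `ord τ = 1`. -/
noncomputable def ord (y : Ω) : ℝ := Real.logb (V.v V.τ) (V.v y)

theorem log_t_neg : Real.log (V.v V.τ) < 0 :=
  Real.log_neg (by exact_mod_cast t_pos V) (by exact_mod_cast V.τ_lt)

theorem ord_le {y : Ω} {r p : ℕ} (h : V.v V.τ ^ p ≤ V.v y ^ r) : r * ord V y ≤ p := by
  have h0 : (0 : ℝ) < V.v V.τ := by exact_mod_cast t_pos V
  have h1 : ((V.v V.τ : ℝ)) ^ p ≤ (V.v y : ℝ) ^ r := by exact_mod_cast h
  have h2 := Real.log_le_log (pow_pos h0 p) h1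
  rw [Real.log_pow, Real.log_pow] at h2
  rw [ord, Real.logb, ← mul_div_assoc, div_le_iff_of_neg (log_t_neg V)]
  exact h2

theorem ord_eq {y : Ω} {p : ℤ} (h : V.v y = V.v V.τ ^ p) : ord V y = p := by
  rw [ord, h, Real.logb, NNReal.coe_zpow, Real.log_zpow, mul_div_assoc,
    div_self (log_t_neg V).ne, mul_one]

theorem ord_prod {ι : Type} (A : Finset ι) (f : ι → Ω) (h : ∀ a ∈ A, f a ≠ 0) :
    ord V (∏ a ∈ A, f a) = ∑ a ∈ A, ord V (f a) := by
  rw [ord, map_prod, NNReal.coe_prod, Real.logb_prod]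
  · rfl
  · intro a ha
    exact_mod_cast (Valuation.ne_zero_iff _).2 (h a ha)

/-- The local intersection number. -/
noncomputable def II (x c : Ω) (U W : k[X][X]) : ℝ :=
  ∑ a ∈ rt x U, ∑ b ∈ rt x W, ord V (c * (a - b))

theorem II_eq [IsAlgClosed Ω] {x c : Ω} {U W : k[X][X]} (hU : U.Monic) (hW : W.Monic)
    (h : Sq x (U * W)) (hc : c ≠ 0) :
    jj x (resultant U W U.natDegree W.natDegree) ≠ 0 ∧ II V x c U W =
      ord V (c ^ (U.natDegree * W.natDegree) * jj x (resultant U W U.natDegree W.natDegree)) := by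
  have h1 := h.of_dvd hU (dvd_mul_right U W)
  have h2 := h.of_dvd hW (dvd_mul_left W U)
  have h3 : ∀ a ∈ rt x U, ∀ b ∈ rt x W, a - b ≠ 0 := fun a ha b hb h0 =>
    disjoint_left.1 h.disj ha (sub_eq_zero.1 h0 ▸ hb)
  have h4 : jj x (resultant U W U.natDegree W.natDegree) =
      ∏ a ∈ rt x U, ∏ b ∈ rt x W, (a - b) := by
    rw [h1.res W _ le_rfl, h2.prod]
    simp [eval_prod]
  rw [h4]
  refine ⟨prod_ne_zero_iff.2 fun a ha => prod_ne_zero_iff.2 (h3 a ha), ?_⟩
  have h5 : c ^ (U.natDegree * W.natDegree) * ∏ a ∈ rt x U, ∏ b ∈ rt x W, (a - b) =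
      ∏ a ∈ rt x U, ∏ b ∈ rt x W, (c * (a - b)) := by
    simp only [prod_mul_distrib, prod_const, h1.card, h2.card]
    rw [← pow_mul, mul_comm W.natDegree]
  rw [h5, ord_prod V _ _ fun a ha => prod_ne_zero_iff.2 fun b hb => mul_ne_zero hc (h3 a ha b hb)]
  exact sum_congr rfl fun a ha => (ord_prod V _ _ fun b hb => mul_ne_zero hc (h3 a ha b hb)).symm

/-- Bezout's formula. -/
theorem bezout [IsAlgClosed k] [IsAlgClosed Ω] {U W : k[X][X]} (hU : U.Monic) (hW : W.Monic)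
    (h : ∀ x, Pl V x → Sq x (U * W)) (T : Finset k)
    (hT : ∀ x₀ ∉ T, II V (algebraMap k Ω x₀ + V.τ) 1 U W ≤ 0) :
    (U.natDegree * W.natDegree : ℝ) =
      ∑ x₀ ∈ T, II V (algebraMap k Ω x₀ + V.τ) 1 U W + II V V.τ⁻¹ V.τ U W := by
  classical
  obtain ⟨h1, h2⟩ := II_eq V hU hW (h _ (pl_inf V)) V.τ_ne
  generalize hρ : resultant U W U.natDegree W.natDegree = ρ at h1 h2
  have h0 : ρ ≠ 0 := fun h0 => h1 (by rw [h0, map_zero])
  have h3 : ∀ x₀, II V (algebraMap k Ω x₀ + V.τ) 1 U W = ρ.roots.count x₀ := by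
    intro x₀
    rw [(II_eq V hU hW (h _ (pl_fin V x₀)) one_ne_zero).2, hρ, one_pow, one_mul]
    exact_mod_cast ord_eq V (p := (ρ.roots.count x₀ : ℕ)) (by rw [v_fin V x₀ h0, zpow_natCast])
  have h4 : ∑ x₀ ∈ T, ρ.roots.count x₀ = ρ.natDegree := by
    rw [(IsAlgClosed.splits ρ).natDegree_eq_card_roots]
    refine Multiset.sum_count_eq_card fun a ha => ?_
    by_contra hn
    have h5 := hT a hn
    rw [h3] at h5
    exact (Multiset.count_pos.2 ha).not_ge (by exact_mod_cast h5)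
  rw [h2, ord_eq V (p := (U.natDegree * W.natDegree : ℕ) - (ρ.natDegree : ℤ)),
    sum_congr rfl fun x₀ _ => h3 x₀, ← h4]
  · push_cast; ring
  · rw [map_mul, map_pow, v_inf V h0, zpow_sub₀ (t_pos V).ne', zpow_natCast, zpow_natCast,
      inv_pow, div_eq_mul_inv]

open Classical in
theorem pair_sum {ι : Type} (A B : Finset Ω) (T : Finset ι) (cl : ι → Ω → Prop) (f : Ω → Ω → ℝ)
    (d : ι → ℝ) (hd : ∀ i, 0 ≤ d i)
    (h : ∀ a ∈ A, ∀ b ∈ B, f a b ≤ 0 ∨ ∃ i ∈ T, cl i a ∧ cl i b ∧ f a b ≤ d i) :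
    ∑ a ∈ A, ∑ b ∈ B, f a b ≤ ∑ i ∈ T, (#(A.filter (cl i)) * #(B.filter (cl i)) : ℕ) * d i := by
  have h0 : ∀ a b i, (0 : ℝ) ≤ (if cl i a then 1 else 0) * (if cl i b then 1 else 0) * d i :=
    fun a b i => mul_nonneg (by split_ifs <;> simp) (hd i)
  calc _ ≤ ∑ a ∈ A, ∑ b ∈ B, ∑ i ∈ T,
        (if cl i a then 1 else 0) * (if cl i b then 1 else 0) * d i := by
        refine sum_le_sum fun a ha => sum_le_sum fun b hb => ?_
        rcases h a ha b hb with h1 | ⟨i, hi, h1, h2, h3⟩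
        · exact h1.trans (sum_nonneg fun i _ => h0 a b i)
        · refine le_trans ?_ (single_le_sum (fun i _ => h0 a b i) hi)
          simpa [h1, h2] using h3
    _ = _ := by
        simp only [card_filter, Nat.cast_mul, Nat.cast_sum, Nat.cast_ite, Nat.cast_one,
          Nat.cast_zero, sum_mul_sum]
        simp only [sum_mul]
        exact (sum_congr rfl fun a _ => sum_comm).trans sum_comm

open Classical in
theorem sum_cl_le {ι : Type} (A : Finset Ω) (T : Finset ι) (cl : ι → Ω → Prop)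
    (h : ∀ i j a, cl i a → cl j a → i = j) : ∑ i ∈ T, #(A.filter (cl i)) ≤ #A := by
  rw [← card_biUnion]
  · exact card_le_card (biUnion_subset.2 fun i _ => filter_subset _ _)
  · intro i _ j _ hij
    exact disjoint_left.2 fun a h1 h2 => hij (h i j a (mem_filter.1 h1).2 (mem_filter.1 h2).2)

end

end Pool.Agent.Lib.MP_346d6a_co.M47
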