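import Pool.Agent.Lib.MP_346d6a_co.M47Pl

/-!
Taylor expansions of `y ^ e + (y + 1) ^ e` in characteristic two.
-/

namespace Pool.Agent.Lib.MP_346d6a_co.M47

open Polynomial Finset

/-- `q` is a power of two, at least two. -/
def IsQ (q : ℕ) : Prop := ∃ u, 1 ≤ u ∧ q = 2 ^ u

/-- `y ^ m + (y + 1) ^ m`. -/
def hh {R : Type} [CommRing R] (m : ℕ) (y : R) : R := y ^ m + (y + 1) ^ m

/-- The remainder of the expansion. -/
def rem1 {R : Type} [CommRing R] (q s : ℕ) (w b : R) : R :=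
  ∑ j ∈ range (s + 1), ((s + 2).choose (j + 2) : R) * (b ^ (q * j) * w ^ (q * (s - j)))

/-- The remainder of the expansion. -/
def rem {R : Type} [CommRing R] (q s : ℕ) (y b : R) : R :=
  ∑ j ∈ range (s + 1), ((s + 2).choose (j + 2) : R) *
    (b ^ (q * j) * (hh (q * (s - j) + 1) y + b * hh (q * (s - j)) y))

variable {q s : ℕ}

theorem IsQ.two_le (hq : IsQ q) : 2 ≤ q := by
  obtain ⟨u, hu, rfl⟩ := hq
  exact Nat.pow_le_pow_right (n := 2) (by norm_num) hu

theorem IsQ.even (hq : IsQ q) : Even q := by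
  obtain ⟨u, hu, rfl⟩ := hq
  exact (Nat.even_pow' (by omega)).2 even_two

section

variable {R : Type} [CommRing R]

theorem map_hh {S : Type} [CommRing S] (f : R →+* S) (m : ℕ) (y : R) :
    f (hh m y) = hh m (f y) := by simp [hh]

variable [CharP R 2]

theorem IsQ.add_pow (hq : IsQ q) (a b : R) : (a + b) ^ q = a ^ q + b ^ q := by
  obtain ⟨u, hu, rfl⟩ := hq
  exact add_pow_char_pow a b 2 u

theorem cast_even {m : ℕ} (h : Even m) : (m : R) = 0 := (CharP.cast_eq_zero_iff R 2 m).2 h.two_dvd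

theorem cast_odd {m : ℕ} (h : Odd m) : (m : R) = 1 := by
  obtain ⟨a, rfl⟩ := h
  rw [Nat.cast_add_one, cast_even (even_two_mul a), zero_add]

theorem hh_frob (hq : IsQ q) (m : ℕ) (y : R) : hh (q * m) y = hh m y ^ q := by
  rw [hh, hh, hq.add_pow, ← pow_mul, ← pow_mul, mul_comm]

theorem hh_add_one (m : ℕ) (y : R) : hh m (y + 1) = hh m y := by
  rw [hh, hh, add_assoc, CharTwo.add_self_eq_zero, add_zero, add_comm]

theorem pow_taylor (hq : IsQ q) (hs : Odd s) (w b : R) :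
    (w + b) ^ (q * (s + 2) + 1) = w ^ (q * (s + 2) + 1) + w ^ (q * (s + 2)) * b +
      w ^ (q * (s + 1) + 1) * b ^ q + w ^ (q * (s + 1)) * b ^ (q + 1) +
      b ^ (2 * q) * ((w + b) * rem1 q s w b) := by
  have h1 : ((s + 2).choose 1 : R) = 1 := by
    rw [Nat.choose_one_right, cast_odd (hs.add_even even_two)]
  have h2 : ∑ j ∈ range (s + 1), (b ^ q) ^ (j + 1 + 1) * (w ^ q) ^ (s + 2 - (j + 1 + 1)) *
      ((s + 2).choose (j + 1 + 1) : R) = b ^ (2 * q) * rem1 q s w b := by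
    rw [rem1, mul_sum]
    refine sum_congr rfl fun j _ => ?_
    rw [show s + 2 - (j + 1 + 1) = s - j by omega]
    ring
  rw [pow_succ, pow_mul, hq.add_pow, add_comm (w ^ q), _root_.add_pow, sum_range_succ',
    sum_range_succ', h2, zero_add, h1]
  simp only [Nat.choose_zero_right, Nat.cast_one, Nat.sub_zero,
    show s + 2 - 1 = s + 1 by omega]
  ring

theorem hh_taylor (hq : IsQ q) (hs : Odd s) (y b : R) :
    hh (q * (s + 2) + 1) (y + b) = hh (q * (s + 2) + 1) y + hh (q * (s + 2)) y * b +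
      hh (q * (s + 1) + 1) y * b ^ q + hh (q * (s + 1)) y * b ^ (q + 1) +
      b ^ (2 * q) * rem q s y b := by
  have h : rem q s y b = (y + b) * rem1 q s y b + (y + 1 + b) * rem1 q s (y + 1) b := by
    rw [rem, rem1, rem1, mul_sum, mul_sum, ← sum_add_distrib]
    refine sum_congr rfl fun j _ => ?_
    simp only [hh]
    ring
  rw [h, hh, add_right_comm y b 1, pow_taylor hq hs, pow_taylor hq hs]
  simp only [hh]
  ring

theorem hh_monic [Nontrivial R] {m : ℕ} (hm : Even m) :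
    (hh (m + 1) (X : R[X])).Monic ∧ (hh (m + 1) (X : R[X])).natDegree = m := by
  have h1 : (hh (m + 1) (X : R[X])).natDegree ≤ m := by
    rw [natDegree_le_iff_coeff_eq_zero]
    intro i hi
    rw [hh, coeff_add, coeff_X_pow, coeff_X_add_one_pow]
    rcases eq_or_ne i (m + 1) with rfl | h
    · simp [CharTwo.add_self_eq_zero]
    · rw [if_neg h, Nat.choose_eq_zero_of_lt (by omega)]; simp
  have h2 : (hh (m + 1) (X : R[X])).coeff m = 1 := by
    rw [hh, coeff_add, coeff_X_pow, coeff_X_add_one_pow, if_neg (by omega),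
      Nat.choose_succ_self_right, cast_odd hm.add_one, zero_add]
  exact ⟨monic_of_natDegree_le_of_coeff_eq_one m h1 h2,
    natDegree_eq_of_le_of_coeff_ne_zero h1 (by rw [h2]; exact one_ne_zero)⟩

theorem coeff_taylor (hq : IsQ q) (hs : Odd s) (y c : R) :
    (hh (q * (s + 2) + 1) (X + C y) + C c).coeff 1 = hh (q * (s + 2)) y ∧
    (hh (q * (s + 2) + 1) (X + C y) + C c).coeff q = hh (q * (s + 1) + 1) y ∧
    (hh (q * (s + 2) + 1) (X + C y) + C c).coeff (q + 1) = hh (q * (s + 1)) y := by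
  have h2 := hq.two_le
  rw [add_comm X, hh_taylor hq hs]
  simp only [← map_hh, coeff_add, coeff_C_mul, coeff_X_pow, coeff_X_pow_mul', coeff_C, coeff_X]
  refine ⟨?_, ?_, ?_⟩ <;> split_ifs <;> first | contradiction | omega | simp

end

section

variable {Ω : Type} [Field Ω] (v : Valuation Ω NNReal)

theorem v_nat (m : ℕ) : v (m : Ω) ≤ 1 := by
  induction m with
  | zero => simp
  | succ m ih => rw [Nat.cast_succ]; exact v.map_add_le ih (by simp)

theorem pow_est {y w : Ω} {M : NNReal} (hy : v y ≤ M) (hw : v w ≤ M) (m : ℕ) :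
    v ((y + w) ^ (m + 1) - y ^ (m + 1)) ≤ v w * M ^ m ∧
    v ((y + w) ^ (m + 2) - y ^ (m + 2) - (m + 2 : ℕ) * y ^ (m + 1) * w) ≤ v w ^ 2 * M ^ m := by
  induction m with
  | zero =>
    refine ⟨by simp, ?_⟩
    have : (y + w) ^ (0 + 2) - y ^ (0 + 2) - (0 + 2 : ℕ) * y ^ (0 + 1) * w = w ^ 2 := by
      push_cast; ring
    rw [this]; simp
  | succ m ih =>
    have h1 : v (y + w) ≤ M := v.map_add_le hy hw
    have e1 : (y + w) ^ (m + 1 + 1) - y ^ (m + 1 + 1) =
        (y + w) * ((y + w) ^ (m + 1) - y ^ (m + 1)) + w * y ^ (m + 1) := by ring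
    have e2 : (y + w) ^ (m + 1 + 2) - y ^ (m + 1 + 2) - (m + 1 + 2 : ℕ) * y ^ (m + 1 + 1) * w =
        (y + w) * ((y + w) ^ (m + 2) - y ^ (m + 2) - (m + 2 : ℕ) * y ^ (m + 1) * w) +
          (m + 2 : ℕ) * (w ^ 2 * y ^ (m + 1)) := by push_cast; ring
    rw [e1, e2]
    refine ⟨v.map_add_le ?_ ?_, v.map_add_le ?_ ?_⟩
    · rw [map_mul]
      calc _ ≤ M * (v w * M ^ m) := mul_le_mul' h1 ih.1
        _ = _ := by ring
    · rw [map_mul, map_pow]; gcongr
    · rw [map_mul]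
      calc _ ≤ M * (v w ^ 2 * M ^ m) := mul_le_mul' h1 ih.2
        _ = _ := by ring
    · rw [map_mul, map_mul, map_pow, map_pow]
      exact (mul_le_of_le_one_left' (v_nat v _)).trans (by gcongr)

variable [CharP Ω 2]

theorem v_hh_le {y : Ω} {M : NNReal} (hM : 1 ≤ M) (hy : v y ≤ M) (m : ℕ) :
    v (hh (m + 1) y) ≤ M ^ m := by
  have := (pow_est v hy (w := 1) (by simpa using hM) m).1
  rwa [CharTwo.sub_eq_add, add_comm, map_one, one_mul] at this

theorem v_hh_mul_le {y b : Ω} {M : NNReal} (hM : 1 ≤ M) (hy : v y ≤ M) (hb : v b ≤ M) (m : ℕ) :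
    v (b * hh m y) ≤ M ^ m := by
  rcases m with _ | m
  · simp [hh, CharTwo.add_self_eq_zero]
  · rw [map_mul, pow_succ']
    exact mul_le_mul' hb (v_hh_le v hM hy m)

theorem v_hh_one {y : Ω} (hy : v y ≤ 1) (m : ℕ) : v (hh m y) ≤ 1 := by
  simpa using v_hh_mul_le v le_rfl hy (b := 1) (by simp) m

/-- The leading term of `hh (m + 2) y` for odd `m` and large `y`. -/
theorem v_hh_top {y : Ω} (hy : 1 ≤ v y) {m : ℕ} (hm : Odd m) :
    v (hh (m + 2) y + y ^ (m + 1)) ≤ v y ^ m := by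
  have := (pow_est v (y := y) le_rfl (w := 1) (by simpa using hy) m).2
  rw [cast_odd (hm.add_even even_two)] at this
  simpa [CharTwo.sub_eq_add, hh, add_comm] using this

theorem v_hh_eq {y : Ω} (hy : 1 < v y) {m : ℕ} (hm : Odd m) :
    v (hh (m + 2) y) = v y ^ (m + 1) := by
  have h := v_hh_top v hy.le hm
  have e : hh (m + 2) y = y ^ (m + 1) + (hh (m + 2) y + y ^ (m + 1)) := by
    rw [add_comm (hh _ _), ← add_assoc, CharTwo.add_self_eq_zero, zero_add]
  rw [e, v_eq_of_lt, map_pow]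
  rw [map_pow]
  exact h.trans_lt (pow_lt_pow_right₀ hy (by omega))

theorem v_hh_lip {y b : Ω} (hy : v y ≤ 1) (hb : v b ≤ 1) (m : ℕ) :
    v (hh m (y + b) + hh m y) ≤ v b := by
  rcases m with _ | m
  · simp [hh, CharTwo.add_self_eq_zero]
  have h1 := (pow_est v hy hb m).1
  have h2 := (pow_est v (v.map_add_le hy (by simp) : v (y + 1) ≤ 1) hb m).1
  rw [one_pow, mul_one, CharTwo.sub_eq_add] at h1 h2
  have := v.map_add_le h1 h2
  convert this using 2
  simp only [hh]; ring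

theorem v_hh_lin {y b : Ω} (hy : v y ≤ 1) (hb : v b ≤ 1) {m : ℕ} (hm : Odd m) :
    v (hh (m + 2) (y + b) + hh (m + 2) y + hh (m + 1) y * b) ≤ v b ^ 2 := by
  have h1 := (pow_est v hy hb m).2
  have h2 := (pow_est v (v.map_add_le hy (by simp) : v (y + 1) ≤ 1) hb m).2
  rw [one_pow, mul_one, CharTwo.sub_eq_add, CharTwo.sub_eq_add,
    cast_odd (hm.add_even even_two)] at h1 h2
  have := v.map_add_le h1 h2
  convert this using 2
  simp only [hh]; ring

omit [CharP Ω 2] in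
theorem v_rem1 {w : Ω} {M : NNReal} (hM : 1 ≤ M) (hw : v w ≤ M) :
    v (rem1 q s w 1) ≤ M ^ (q * s) := by
  refine v.map_sum_le fun j hj => ?_
  rw [map_mul, one_pow, one_mul, map_pow]
  refine (mul_le_of_le_one_left' (v_nat v _)).trans ?_
  calc _ ≤ M ^ (q * (s - j)) := by gcongr
    _ ≤ _ := pow_le_pow_right₀ hM (Nat.mul_le_mul_left _ (by omega))

theorem v_rem {y b : Ω} {M : NNReal} (hM : 1 ≤ M) (hy : v y ≤ M) (hb : v b ≤ M) :
    v (rem q s y b) ≤ M ^ (q * s) := by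
  refine v.map_sum_le fun j hj => ?_
  rw [map_mul, map_mul, map_pow]
  refine (mul_le_of_le_one_left' (v_nat v _)).trans ?_
  have := mem_range.1 hj
  calc _ ≤ M ^ (q * j) * M ^ (q * (s - j)) :=
        mul_le_mul' (by gcongr) (v.map_add_le (v_hh_le v hM hy _) (v_hh_mul_le v hM hy hb _))
    _ = _ := by rw [← pow_add, ← mul_add, show j + (s - j) = s by omega]

end

end Pool.Agent.Lib.MP_346d6a_co.M47
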