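import Pool.Agent.Lib.MP_346d6a_co.Core

/-!
Valuation tools for part M: Newton polygon estimates, places of `k[X]`, Bezout's formula.
-/

namespace Pool.Agent.Lib.MP_346d6a_co.M47

open Polynomial Finset

section

variable {Ω : Type} [Field Ω] (v : Valuation Ω NNReal)

theorem v_eq_of_lt {a b : Ω} (h : v b < v a) : v (a + b) = v a := v.map_add_eq_of_lt_left h

open Classical in
theorem coeff_prod {ι : Type} (f : ι → Ω) (s : NNReal) (hs : 0 < s) (A : Finset ι) :
    v ((∏ a ∈ A, (X - C (f a))).coeff #{a ∈ A | v (f a) < s}) =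
      ∏ a ∈ A with s ≤ v (f a), v (f a) ∧
    (∀ i, v ((∏ a ∈ A, (X - C (f a))).coeff i) * s ^ i ≤
      (∏ a ∈ A with s ≤ v (f a), v (f a)) * s ^ #{a ∈ A | v (f a) < s}) ∧
    (∀ i < #{a ∈ A | v (f a) < s}, v ((∏ a ∈ A, (X - C (f a))).coeff i) * s ^ i <
      (∏ a ∈ A with s ≤ v (f a), v (f a)) * s ^ #{a ∈ A | v (f a) < s}) := by
  induction A using Finset.induction_on with
  | empty =>
    refine ⟨by simp, fun i => ?_, by simp⟩
    rcases i with _ | i <;> simp [coeff_one]
  | insert a A ha ih =>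
    have hc : 0 < ∏ a ∈ A with s ≤ v (f a), v (f a) :=
      prod_pos fun b hb => hs.trans_le (mem_filter.1 hb).2
    rw [prod_insert ha, filter_insert, filter_insert]
    generalize (∏ a ∈ A, (X - C (f a))) = F at ih ⊢
    have e0 : ∀ i, ((X - C (f a)) * F).coeff i = (X * F).coeff i + -(f a * F.coeff i) := by
      intro i; rw [sub_mul, coeff_sub, coeff_C_mul, sub_eq_add_neg]
    have hn1 : a ∉ A.filter fun a => v (f a) < s := fun h => ha (mem_filter.1 h).1
    have hn2 : a ∉ A.filter fun a => s ≤ v (f a) := fun h => ha (mem_filter.1 h).1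
    obtain ⟨h1, h2, h3⟩ := ih
    have g2 : ∀ i, v ((X * F).coeff i) * s ^ i ≤
        (∏ a ∈ A with s ≤ v (f a), v (f a)) * s ^ #{a ∈ A | v (f a) < s} * s := by
      rintro (_ | i)
      · simp
      · rw [coeff_X_mul, pow_succ, ← mul_assoc]; exact mul_le_mul_left (h2 i) s
    have g3 : ∀ i < #{a ∈ A | v (f a) < s} + 1, v ((X * F).coeff i) * s ^ i <
        (∏ a ∈ A with s ≤ v (f a), v (f a)) * s ^ #{a ∈ A | v (f a) < s} * s := by
      rintro (_ | i) hi
      · simp only [mul_coeff_zero, coeff_X_zero, zero_mul, map_zero]; positivity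
      · rw [coeff_X_mul, pow_succ, ← mul_assoc]; exact mul_lt_mul_of_pos_right (h3 i (by omega)) hs
    have key : ∀ (i : ℕ) (B : NNReal), v ((X * F).coeff i) * s ^ i ≤ B →
        v (f a) * (v (F.coeff i) * s ^ i) ≤ B → v (((X - C (f a)) * F).coeff i) * s ^ i ≤ B := by
      intro i B b1 b2
      rw [e0]
      rcases le_max_iff.1 (v.map_add ((X * F).coeff i) (-(f a * F.coeff i))) with h | h
      · exact le_trans (by gcongr) b1
      · rw [v.map_neg, map_mul] at h
        rw [← mul_assoc] at b2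
        exact le_trans (by gcongr) b2
    have key' : ∀ (i : ℕ) (B : NNReal), v ((X * F).coeff i) * s ^ i < B →
        v (f a) * (v (F.coeff i) * s ^ i) < B → v (((X - C (f a)) * F).coeff i) * s ^ i < B := by
      intro i B b1 b2
      exact (key i _ (le_max_left _ _) (le_max_right _ _)).trans_lt (max_lt b1 b2)
    by_cases h : v (f a) < s
    · rw [if_pos h, if_neg (not_le.2 h), card_insert_of_notMem hn1]
      generalize #{a ∈ A | v (f a) < s} = d at *
      generalize (∏ a ∈ A with s ≤ v (f a), v (f a)) = c at *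
      have g4 : ∀ i, v (f a) * (v (F.coeff i) * s ^ i) < c * s ^ d * s := fun i =>
        calc _ ≤ v (f a) * (c * s ^ d) := mul_le_mul_right (h2 i) _
          _ < s * (c * s ^ d) := by gcongr
          _ = _ := by ring
      refine ⟨?_, fun i => ?_, fun i hi => ?_⟩
      · rw [e0, coeff_X_mul, v_eq_of_lt v, h1]
        rw [v.map_neg, map_mul, h1]
        have := g4 (d + 1)
        rw [← mul_assoc, mul_assoc c, ← pow_succ] at this
        exact lt_of_mul_lt_mul_right this zero_le
      · rw [pow_succ, ← mul_assoc]; exact key i _ (g2 i) (g4 i).le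
      · rw [pow_succ, ← mul_assoc]; exact key' i _ (g3 i hi) (g4 i)
    · rw [if_neg h, if_pos (not_lt.1 h), prod_insert hn2]
      generalize #{a ∈ A | v (f a) < s} = d at *
      generalize (∏ a ∈ A with s ≤ v (f a), v (f a)) = c at *
      have h' := not_lt.1 h
      have ha0 : 0 < v (f a) := hs.trans_le h'
      have g5 : c * s ^ d * s ≤ v (f a) * c * s ^ d :=
        calc _ ≤ c * s ^ d * v (f a) := by gcongr
          _ = _ := by ring
      refine ⟨?_, fun i => ?_, fun i hi => ?_⟩
      · rw [e0, add_comm, v_eq_of_lt v, v.map_neg, map_mul, h1]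
        rw [v.map_neg, map_mul, h1]
        exact lt_of_mul_lt_mul_right ((g3 d (by omega)).trans_le g5) zero_le
      · refine key i _ ((g2 i).trans g5) ?_
        rw [mul_assoc]; exact mul_le_mul_right (h2 i) _
      · refine key' i _ ((g3 i (by omega)).trans_le g5) ?_
        rw [mul_assoc]; exact mul_lt_mul_of_pos_left (h3 i hi) ha0

open Classical in
/-- Size of a cluster. -/
theorem card_cluster_le {ι : Type} (f : ι → Ω) (M : NNReal) (hM : 0 < M) (A : Finset ι)
    (hA : ∀ a ∈ A, v (f a) ≤ M) (i : ℕ)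
    (hi : v ((∏ a ∈ A, (X - C (f a))).coeff i) * M ^ i = M ^ #A) :
    #{a ∈ A | v (f a) < M} ≤ i := by
  by_contra h
  have h3 := (coeff_prod v f M hM A).2.2 i (not_le.1 h)
  rw [hi, prod_congr rfl (g := fun _ => M) fun a ha =>
    le_antisymm (hA a (mem_filter.1 ha).1) (mem_filter.1 ha).2, prod_const, ← pow_add] at h3
  have := card_filter_add_card_filter_not (s := A) (fun a => v (f a) < M)
  simp only [not_lt] at this
  rw [add_comm, this] at h3
  exact lt_irrefl _ h3

theorem exists_gap {ι : Type} (f : ι → NNReal) (s : NNReal) (A : Finset ι) :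
    ∃ s', s < s' ∧ ∀ a ∈ A, s < f a → s' ≤ f a := by
  classical
  induction A using Finset.induction_on with
  | empty => exact ⟨s + 1, by simp, by simp⟩
  | insert a A ha ih =>
    obtain ⟨s', h1, h2⟩ := ih
    by_cases h : s < f a
    · refine ⟨min s' (f a), lt_min h1 h, fun b hb hb' => ?_⟩
      rcases mem_insert.1 hb with rfl | hb
      · exact min_le_right _ _
      · exact (min_le_left _ _).trans (h2 b hb hb')
    · refine ⟨s', h1, fun b hb hb' => ?_⟩
      rcases mem_insert.1 hb with rfl | hb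
      · exact absurd hb' h
      · exact h2 b hb hb'

open Classical in
/-- The level lemma. -/
theorem level_dvd {ι : Type} (f : ι → Ω) (A : Finset ι) (t : NNReal) (ht0 : 0 < t) (ht1 : t < 1)
    (hA : ∀ i, (∏ a ∈ A, (X - C (f a))).coeff i ≠ 0 →
      ∃ z : ℤ, v ((∏ a ∈ A, (X - C (f a))).coeff i) = t ^ z)
    (r : ℕ) (p : ℤ) (hr : 0 < r) (hc : IsCoprime (r : ℤ) p) :
    r ∣ #{a ∈ A | v (f a) ^ r = t ^ p} := by
  rcases (A.filter fun a => v (f a) ^ r = t ^ p).eq_empty_or_nonempty with h | ⟨a₀, h⟩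
  · simp [h]
  have h0 := (mem_filter.1 h).2
  generalize v (f a₀) = s at h0
  have hs : 0 < s := by
    rw [pos_iff_ne_zero]
    rintro rfl
    rw [zero_pow hr.ne'] at h0
    exact (zpow_pos ht0 p).ne h0
  have hz : ∀ s' : NNReal, 0 < s' → ∃ z : ℤ, ∏ a ∈ A with s' ≤ v (f a), v (f a) = t ^ z := by
    intro s' hs'
    have h1 := (coeff_prod v f s' hs' A).1
    rw [← h1]
    refine hA _ fun h => ?_
    rw [h, map_zero] at h1
    exact (prod_pos fun b hb => hs'.trans_le (mem_filter.1 hb).2).ne h1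
  obtain ⟨s', h1, h2⟩ := exists_gap (fun a => v (f a)) s A
  obtain ⟨z, hz1⟩ := hz s hs
  obtain ⟨z', hz2⟩ := hz s' (hs.trans h1)
  have e1 : A.filter (fun a => v (f a) ^ r = t ^ p) =
      (A.filter fun a => s ≤ v (f a)).filter fun a => v (f a) = s := by
    ext a
    simp only [mem_filter, ← h0, pow_left_inj₀ zero_le zero_le hr.ne']
    exact ⟨fun h => ⟨⟨h.1, h.2.ge⟩, h.2⟩, fun h => ⟨h.1.1, h.2⟩⟩
  have e2 : A.filter (fun a => s' ≤ v (f a)) =
      (A.filter fun a => s ≤ v (f a)).filter fun a => ¬ v (f a) = s := by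
    ext a
    simp only [mem_filter]
    exact ⟨fun h => ⟨⟨h.1, (h1.trans_le h.2).le⟩, (h1.trans_le h.2).ne'⟩,
      fun h => ⟨h.1.1, h2 a h.1.1 (lt_of_le_of_ne h.1.2 (Ne.symm h.2))⟩⟩
  rw [← prod_filter_mul_prod_filter_not _ (fun a => v (f a) = s), ← e2, hz2,
    prod_congr rfl (g := fun _ => s) fun a ha => (mem_filter.1 ha).2, prod_const, ← e1] at hz1
  generalize #{a ∈ A | v (f a) ^ r = t ^ p} = c at hz1
  have e3 : t ^ (p * c + z' * r) = t ^ (z * r) := by
    rw [zpow_add₀ ht0.ne', zpow_mul, zpow_mul, zpow_mul, ← h0, ← hz1]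
    simp only [zpow_natCast]
    ring
  have e4 := zpow_right_injective₀ ht0 ht1.ne e3
  have : (r : ℤ) ∣ p * c := ⟨z - z', by linarith⟩
  exact_mod_cast hc.dvd_of_dvd_mul_left this

end

end Pool.Agent.Lib.MP_346d6a_co.M47
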