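import Pool.Agent.Lib.MP_346d6a_co.T98Val

/-!
The Newton polygon of the homogenised difference polynomial.
-/

namespace Pool.Agent.Lib.MP_346d6a_co.T98

open Polynomial Finset

variable {k K : Type} [Field k] [Field K] [Algebra k K] {V : Val k K}

/-- the homogenised difference polynomial -/
noncomputable def QQ (f : k[X]) (T : K) : K[X] :=
  ∑ j ∈ range (f.natDegree + 1),
    C (algebraMap k K (f.coeff j) * T ^ (f.natDegree - j)) * (X ^ j + (X + 1) ^ j)

/-- residues of the terms -/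
def kap (f : k[X]) (z : k) (i j : ℕ) : k :=
  f.coeff j * ((z ^ (j - i) + (z + 1) ^ (j - i)) * (j.choose i : k))

/-- terms that occur -/
def Adm (f : k[X]) (i j : ℕ) : Prop := 1 ≤ i ∧ f.coeff j ≠ 0 ∧ Odd (j.choose i)

/-- the minimal order at level `m` -/
noncomputable def bb (f : k[X]) (N m : ℕ) : ℕ :=
  sInf {n | ∃ i j, Adm f i j ∧ n = N * (f.natDegree - j) + m * i}

/-- coefficients of the reduction at level `m` -/
noncomputable def ell (f : k[X]) (z : k) (N m i : ℕ) : k :=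
  ∑ j ∈ range (f.natDegree + 1),
    if N * (f.natDegree - j) + m * i = bb f N m then kap f z i j else 0

/-- the reduction at level `m` -/
noncomputable def LL (f : k[X]) (z : k) (N m : ℕ) : k[X] :=
  ∑ i ∈ Icc 1 f.natDegree, monomial i (ell f z N m i)

variable {f : k[X]} {z : k} {N m i j : ℕ}

lemma eval_QQ (T s : K) : (QQ f T).eval s = ∑ j ∈ range (f.natDegree + 1),
    algebraMap k K (f.coeff j) * T ^ (f.natDegree - j) * (s ^ j + (s + 1) ^ j) := by
  simp [QQ, eval_finsetSum]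

lemma coeff_taylor_QQ (T s : K) (i : ℕ) : (taylor s (QQ f T)).coeff i =
    ∑ j ∈ range (f.natDegree + 1), algebraMap k K (f.coeff j) * T ^ (f.natDegree - j) *
      ((s ^ (j - i) + (s + 1) ^ (j - i)) * (j.choose i : K)) := by
  rw [QQ, map_sum, finsetSum_coeff]
  refine sum_congr rfl fun j _ => ?_
  have e : taylor s (C (algebraMap k K (f.coeff j) * T ^ (f.natDegree - j)) *
      (X ^ j + (X + 1) ^ j)) = C (algebraMap k K (f.coeff j) * T ^ (f.natDegree - j)) *
      ((X + C s) ^ j + (X + C (s + 1)) ^ j) := by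
    simp [taylor_apply, add_assoc]
  rw [e, coeff_C_mul, coeff_add, coeff_X_add_C_pow, coeff_X_add_C_pow, add_mul]

lemma Adm.le (h : Adm f i j) : i ≤ j := by
  by_contra h1
  have := h.2.2
  rw [Nat.choose_eq_zero_of_lt (not_le.1 h1)] at this
  simp at this

lemma Adm.le' (h : Adm f i j) : j ≤ f.natDegree := le_natDegree_of_ne_zero h.2.1

lemma Adm.pow (h : Adm f i j) (hmin : ∀ i' < i, ¬ Adm f i' j) : ∃ a, i = 2 ^ a := by
  have : Fact (Nat.Prime 2) := ⟨Nat.prime_two⟩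
  refine ⟨_, Choose.eq_pow_multiplicity_of_choose_modEq_zero_nat (p := 2) h.1 fun i' hi' => ?_⟩
  rw [mem_Icc] at hi'
  have h1 := h.1
  by_contra h2
  refine hmin i' (by omega) ⟨hi'.1, h.2.1, ?_⟩
  have h3 : Odd (i.choose i') := by
    rwa [Nat.modEq_zero_iff_dvd, ← even_iff_two_dvd, Nat.not_even_iff_odd] at h2
  have h4 := h.2.2.mul h3
  rw [Nat.choose_mul (by omega)] at h4
  exact (Nat.odd_mul.1 h4).1

lemma Adm.bb_le (h : Adm f i j) (N m : ℕ) : bb f N m ≤ N * (f.natDegree - j) + m * i :=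
  Nat.sInf_le ⟨i, j, h, rfl⟩

lemma Adm.pow_of_eq (h : Adm f i j) (hm : 1 ≤ m)
    (he : N * (f.natDegree - j) + m * i = bb f N m) : ∃ a, i = 2 ^ a :=
  h.pow fun i' hi' h' => by
    have := h'.bb_le N m
    have := Nat.mul_lt_mul_of_pos_left hi' hm
    omega

lemma ell_eq (hN : 1 ≤ N) (hj : j ≤ f.natDegree) (he : N * (f.natDegree - j) + m * i = bb f N m) :
    ell f z N m i = kap f z i j := by
  rw [ell, sum_eq_single j, if_pos he]
  · intro j' hj' hne
    rw [if_neg]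
    intro h
    rw [mem_range] at hj'
    have := Nat.eq_of_mul_eq_mul_left hN (Nat.add_right_cancel (h.trans he.symm))
    omega
  · intro h
    exact absurd (mem_range.2 (by omega)) h

lemma coeff_LL (hi : 1 ≤ i) : (LL f z N m).coeff i = ell f z N m i := by
  rw [LL, finsetSum_coeff]
  simp only [coeff_monomial, sum_ite_eq', mem_Icc]
  split_ifs with h
  · rfl
  · refine (sum_eq_zero fun j hj => ?_).symm
    rw [mem_range] at hj
    rw [kap, Nat.choose_eq_zero_of_lt (by omega)]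
    simp

lemma eval_LL (x : k) : (LL f z N m).eval x = ∑ i ∈ Icc 1 f.natDegree, ell f z N m i * x ^ i := by
  simp [LL, eval_finsetSum]

lemma map_kap {φ : k ≃+* k} (hf : ∀ j, φ (f.coeff j) = f.coeff j) (hz : φ z = z) (i j : ℕ) :
    φ (kap f z i j) = kap f z i j := by
  simp [kap, hf, hz]

lemma map_ell {φ : k ≃+* k} (hf : ∀ j, φ (f.coeff j) = f.coeff j) (hz : φ z = z) :
    φ (ell f z N m i) = ell f z N m i := by
  rw [ell, map_sum]
  refine sum_congr rfl fun j _ => ?_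
  split_ifs
  · exact map_kap hf hz _ _
  · exact map_zero _

variable [CharP k 2]

lemma cast_ne_zero_iff {n : ℕ} : (n : k) ≠ 0 ↔ Odd n := by
  rw [ne_eq, CharP.cast_eq_zero_iff k 2, ← even_iff_two_dvd, Nat.not_even_iff_odd]

lemma adm_of_kap (hi : 1 ≤ i) (h : kap f z i j ≠ 0) : Adm f i j :=
  ⟨hi, left_ne_zero_of_mul h, cast_ne_zero_iff.1 (right_ne_zero_of_mul (right_ne_zero_of_mul h))⟩

lemma exists_adm_one (hf : derivative f ≠ 0) : ∃ j, Adm f 1 j := by
  by_contra! h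
  refine hf (Polynomial.ext fun j => ?_)
  rw [coeff_derivative, coeff_zero]
  by_contra h1
  refine h (j + 1) ⟨le_rfl, left_ne_zero_of_mul h1, ?_⟩
  rw [Nat.choose_one_right, ← cast_ne_zero_iff (k := k)]
  exact_mod_cast right_ne_zero_of_mul h1

lemma exists_of_ell_ne (hi : 1 ≤ i) (h : ell f z N m i ≠ 0) :
    ∃ j, Adm f i j ∧ N * (f.natDegree - j) + m * i = bb f N m := by
  obtain ⟨j, -, hj⟩ := exists_ne_zero_of_sum_ne_zero h
  rw [ne_eq, ite_eq_right_iff, Classical.not_imp] at hj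
  exact ⟨j, adm_of_kap hi hj.2, hj.1⟩

lemma kap_ne_zero (hf : ∀ j ∈ f.support, ¬ Lin j)
    (hz : ∀ δ, 1 ≤ δ → δ ≤ f.natDegree → z ^ δ ≠ (z + 1) ^ δ) (h : Adm f i j)
    (hi : ∃ a, i = 2 ^ a) : kap f z i j ≠ 0 := by
  have h1 := h.le
  have h2 := h.le'
  have h3 : i ≠ j := by
    rintro rfl
    exact hf i (mem_support_iff.2 h.2.1) (Or.inr hi)
  refine mul_ne_zero h.2.1 (mul_ne_zero ?_ (cast_ne_zero_iff.2 h.2.2))
  rw [← CharTwo.sub_eq_add, sub_ne_zero]
  exact hz _ (by omega) (by omega)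

omit [CharP k 2] in
lemma cg_term {s : K} (hs : Cg V s z) (i j : ℕ) : Cg V (algebraMap k K (f.coeff j) *
    ((s ^ (j - i) + (s + 1) ^ (j - i)) * (j.choose i : K))) (kap f z i j) :=
  (Cg.const _).mul (((hs.pow _).add ((hs.add Cg.one).pow _)).mul (Cg.natCast _))

lemma term_eq_zero (h : ¬ (f.coeff j ≠ 0 ∧ Odd (j.choose i))) (s : K) :
    algebraMap k K (f.coeff j) * (s * (j.choose i : K)) = 0 := by
  rw [← map_natCast (algebraMap k K), ← cast_ne_zero_iff (k := k), not_and_or, not_not,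
    not_not] at *
  rcases h with h | h <;> simp [h]

lemma cg_coef {s : K} (hs : Cg V s z) (i A B : ℕ)
    (h : ∀ j, f.coeff j ≠ 0 → Odd (j.choose i) → B ≤ N * (f.natDegree - j) + A) :
    Cg V ((taylor s (QQ f (V.τ ^ N))).coeff i * V.τ ^ A / V.τ ^ B)
      (∑ j ∈ range (f.natDegree + 1), if N * (f.natDegree - j) + A = B then kap f z i j else 0) := by
  rw [coeff_taylor_QQ, sum_mul, sum_div]
  refine Cg.sum fun j _ => ?_
  have h1 := cg_term (f := f) hs i j
  rw [mul_right_comm _ (_ ^ _), mul_assoc, ← pow_mul, ← pow_add, mul_div_assoc]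
  by_cases h2 : f.coeff j ≠ 0 ∧ Odd (j.choose i)
  · rw [div_eq_mul_inv, ← pow_sub₀ _ V.τ_ne (h j h2.1 h2.2)]
    have h3 := h1.mul (Cg.tau.pow (N * (f.natDegree - j) + A - B))
    have := h j h2.1 h2.2
    split_ifs with h4
    · simpa [h4] using h1
    · rwa [zero_pow (by omega), mul_zero] at h3
  · have h3 : kap f z i j = 0 := by simpa [kap] using term_eq_zero (K := k) h2 _
    rw [term_eq_zero h2, h3]
    simpa using Cg.zero

lemma cg_top (hN : 1 ≤ N) {s : K} (hs : Cg V s z) (i : ℕ) :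
    Cg V ((taylor s (QQ f (V.τ ^ N))).coeff i) (kap f z i f.natDegree) := by
  have := cg_coef (f := f) (N := N) hs i 0 0 fun _ _ _ => Nat.zero_le _
  rw [sum_eq_single f.natDegree (fun j hj hne => if_neg ?_) (by simp)] at this
  · simpa using this
  · rw [mem_range] at hj
    have := Nat.mul_pos hN (by omega : 0 < f.natDegree - j)
    omega

lemma lvl_aux {a t : NNReal} (ht : 0 < t) (ht1 : t < 1) (ha0 : 0 < a) (ha : a < 1)
    {N A B i i' : ℕ} (hi : i < i') (hN : i' - i ∣ N)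
    (h : t ^ (N * A) * a ^ i = t ^ (N * B) * a ^ i') : ∃ m, 1 ≤ m ∧ a = t ^ m := by
  obtain ⟨δ, rfl⟩ := Nat.exists_eq_add_of_lt hi
  rw [show i + δ + 1 - i = δ + 1 by omega] at hN
  obtain ⟨c, rfl⟩ := hN
  have h1 : (t ^ (c * A)) ^ (δ + 1) = (t ^ (c * B) * a) ^ (δ + 1) := by
    refine mul_right_cancel₀ (pow_ne_zero i ha0.ne') ?_
    rw [mul_pow, ← pow_mul, ← pow_mul, mul_assoc (t ^ _), ← pow_add]
    convert h using 3 <;> ring
  have h2 := (pow_left_inj₀ zero_le zero_le δ.succ_ne_zero).1 h1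
  have h3 : c * B < c * A := by
    rw [← pow_lt_pow_iff_right_of_lt_one₀ ht ht1, h2]
    exact mul_lt_of_lt_one_right (pow_pos ht _) ha
  refine ⟨c * A - c * B, by omega, ?_⟩
  rw [pow_sub₀ _ ht.ne' h3.le, h2]
  field_simp

lemma lvl (hf : ∀ j ∈ f.support, ¬ Lin j) (hf' : derivative f ≠ 0)
    (hz : ∀ δ, 1 ≤ δ → δ ≤ f.natDegree → z ^ δ ≠ (z + 1) ^ δ) (hN : N = f.natDegree.factorial)
    {s s' : K} (hs : Cg V s z) (hs' : Cg V s' z)
    (he : (QQ f (V.τ ^ N)).eval s' = (QQ f (V.τ ^ N)).eval s) (hne : s' ≠ s) :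
    ∃ m, 1 ≤ m ∧ V.v (s' - s) = V.v V.τ ^ m := by
  classical
  set u := s' - s with hu
  have hu0 : 0 < V.v u := by
    rw [pos_iff_ne_zero, ne_eq, map_eq_zero]; exact sub_ne_zero.2 hne
  have hu1 : V.v u < 1 := by simpa [cg_zero] using hs'.sub hs
  have hN0 : 0 < N := hN ▸ Nat.factorial_pos _
  let w : ℕ × ℕ → NNReal := fun p => V.v V.τ ^ (N * (f.natDegree - p.2)) * V.v u ^ p.1
  let c : ℕ × ℕ → K := fun p => algebraMap k K (f.coeff p.2) *
    ((s ^ (p.2 - p.1) + (s + 1) ^ (p.2 - p.1)) * (p.2.choose p.1 : K))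
  let t : ℕ × ℕ → K := fun p => c p * (V.τ ^ (N * (f.natDegree - p.2)) * u ^ p.1)
  have hw : ∀ p, 0 < w p := fun p => mul_pos (pow_pos v_tau_pos _) (pow_pos hu0 _)
  have ht : ∀ p, V.v (t p) = V.v (c p) * w p := fun p => by simp only [t, w, map_mul, map_pow]
  set P := range f.natDegree ×ˢ range (f.natDegree + 1) with hP
  have hsum : ∑ p ∈ P, t (p.1 + 1, p.2) = 0 := by
    have h1 : (taylor s (QQ f (V.τ ^ N))).natDegree < f.natDegree + 1 := by
      rw [Nat.lt_succ_iff, natDegree_le_iff_coeff_eq_zero]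
      intro i hi
      rw [coeff_taylor_QQ]
      refine sum_eq_zero fun j hj => ?_
      rw [mem_range] at hj
      rw [Nat.choose_eq_zero_of_lt (by omega)]
      simp
    have h2 := eval_eq_sum_range' h1 u
    rw [taylor_eval, hu, sub_add_cancel, he, sum_range_succ', taylor_coeff_zero, pow_zero, mul_one,
      right_eq_add] at h2
    rw [← h2, hP, sum_product]
    refine sum_congr rfl fun i _ => ?_
    rw [coeff_taylor_QQ, sum_mul]
    refine sum_congr rfl fun j _ => ?_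
    simp only [t, c, pow_mul]
    ring
  have hmem : ∀ i j, Adm f (i + 1) j → (i, j) ∈ P := fun i j h => by
    have := h.le
    have := h.le'
    simp only [hP, mem_product, mem_range]
    omega
  obtain ⟨j1, hj1⟩ := exists_adm_one hf'
  obtain ⟨⟨i0, j0⟩, h0, hmax⟩ := exists_max_image (P.filter fun p => Adm f (p.1 + 1) p.2)
    (fun p => w (p.1 + 1, p.2)) ⟨(0, j1), mem_filter.2 ⟨hmem 0 j1 hj1, hj1⟩⟩
  rw [mem_filter] at h0
  have hpow := h0.2.pow fun i' hi' h' => by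
    obtain ⟨i', rfl⟩ := Nat.exists_eq_add_of_le' h'.1
    refine absurd (hmax (i', j0) (mem_filter.2 ⟨hmem _ _ h', h'⟩)) (not_le.2 ?_)
    exact mul_lt_mul_of_pos_left (pow_lt_pow_right_of_lt_one₀ hu0 hu1 hi') (pow_pos v_tau_pos _)
  have hv0 : V.v (t (i0 + 1, j0)) = w (i0 + 1, j0) := by
    rw [ht, (cg_term hs _ _).eq_one (kap_ne_zero hf hz h0.2 hpow), one_mul]
  obtain ⟨⟨i1, j1⟩, h1, h2⟩ : ∃ p ∈ P \ {(i0, j0)}, w (i0 + 1, j0) ≤ V.v (t (p.1 + 1, p.2)) := by
    by_contra! hc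
    have := V.v.map_sum_eq_of_lt (f := fun p : ℕ × ℕ => t (p.1 + 1, p.2)) h0.1
      fun p hp => by rw [hv0]; exact hc p hp
    rw [hsum, map_zero, hv0] at this
    exact (hw _).ne this
  rw [mem_sdiff, mem_singleton] at h1
  have h3 : Adm f (i1 + 1) j1 := by
    by_contra h4
    have : c (i1 + 1, j1) = 0 := term_eq_zero (fun h5 => h4 ⟨by omega, h5⟩) _
    rw [ht, this, map_zero, zero_mul] at h2
    exact absurd (hw _) (not_lt.2 h2)
  have h4 : w (i0 + 1, j0) = w (i1 + 1, j1) := by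
    refine le_antisymm (h2.trans ?_) (hmax (i1, j1) (mem_filter.2 ⟨h1.1, h3⟩))
    rw [ht]
    exact mul_le_of_le_one_left zero_le (cg_term hs _ _).le_one
  have a1 := h0.2.le
  have a2 := h0.2.le'
  have a3 := h3.le
  have a4 := h3.le'
  simp only at a1 a2
  rcases lt_trichotomy i0 i1 with h5 | rfl | h5
  · exact lvl_aux v_tau_pos V.τ_lt hu0 hu1 (Nat.succ_lt_succ h5)
      (hN ▸ Nat.dvd_factorial (by omega) (by omega)) h4
  · have h6 := Nat.eq_of_mul_eq_mul_left hN0 (pow_right_injective₀ v_tau_pos V.τ_lt.ne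
      (mul_right_cancel₀ (pow_ne_zero _ hu0.ne') h4))
    exact absurd (by simp only at h6; congr 1; omega) h1.2
  · exact lvl_aux v_tau_pos V.τ_lt hu0 hu1 (Nat.succ_lt_succ h5)
      (hN ▸ Nat.dvd_factorial (by omega) (by omega)) h4.symm

lemma lev {φ : k ≃+* k} (hφ : ∀ j, φ (f.coeff j) = f.coeff j) (hφz : φ z = z)
    (hf : ∀ j ∈ f.support, ¬ Lin j) (hf' : derivative f ≠ 0)
    (hz : ∀ δ, 1 ≤ δ → δ ≤ f.natDegree → z ^ δ ≠ (z + 1) ^ δ) (hN : N = f.natDegree.factorial) :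
    Lev V φ (QQ f (V.τ ^ N)) z (LL f z N) (bb f N) where
  cg m _ s hs i hi := by
    rw [coeff_LL hi]
    exact cg_coef hs i _ _ fun j h1 h2 => Adm.bb_le ⟨hi, h1, h2⟩ N m
  ne m hm := by
    obtain ⟨j1, hj1⟩ := exists_adm_one hf'
    obtain ⟨i, j, h, he⟩ := Nat.sInf_mem
      (s := {n | ∃ i j, Adm f i j ∧ n = N * (f.natDegree - j) + m * i}) ⟨_, 1, j1, hj1, rfl⟩
    intro h0
    have := coeff_LL (f := f) (z := z) (N := N) (m := m) h.1
    rw [h0, coeff_zero, ell_eq (hN ▸ Nat.factorial_pos _) h.le' he.symm] at this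
    exact kap_ne_zero hf hz h (h.pow_of_eq hm he.symm) this.symm
  zero m := by
    rw [coeff_zero_eq_eval_zero, eval_LL]
    exact sum_eq_zero fun i hi => by rw [zero_pow (by rw [mem_Icc] at hi; omega), mul_zero]
  add m hm x y := by
    simp only [eval_LL, ← sum_add_distrib]
    refine sum_congr rfl fun i hi => ?_
    by_cases h : ell f z N m i = 0
    · simp [h]
    · obtain ⟨j, h1, h2⟩ := exists_of_ell_ne (mem_Icc.1 hi).1 h
      obtain ⟨a, rfl⟩ := h1.pow_of_eq hm h2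
      rw [add_pow_char_pow, mul_add]
  fix m x := by simp only [eval_LL, map_sum, map_mul, map_pow, map_ell hφ hφz]
  lvl s s' hs hs' he hne := lvl hf hf' hz hN hs hs' he hne

omit [CharP k 2] in
lemma bb_eq {j1 : ℕ} (h1 : Adm f 1 j1) (hmax : ∀ j, Adm f 1 j → j ≤ j1)
    (hm : N * (f.natDegree - j1) ≤ m) : N * (f.natDegree - j1) + m * 1 = bb f N m := by
  refine le_antisymm ?_ (h1.bb_le N m)
  obtain ⟨i, j, h, he⟩ := Nat.sInf_mem
    (s := {n | ∃ i j, Adm f i j ∧ n = N * (f.natDegree - j) + m * i}) ⟨_, 1, j1, h1, rfl⟩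
  rw [bb, he]
  rcases h.1.eq_or_lt with rfl | hi
  · have := Nat.mul_le_mul_left N (Nat.sub_le_sub_left (hmax j h) f.natDegree)
    omega
  · have := Nat.mul_le_mul_left m hi
    omega

lemma exists_max_adm (hf' : derivative f ≠ 0) : ∃ j1, Adm f 1 j1 ∧ ∀ j, Adm f 1 j → j ≤ j1 := by
  obtain ⟨j, hj⟩ := exists_adm_one hf'
  obtain ⟨j1, h1, h2⟩ := Set.exists_max_image {j | Adm f 1 j} id
    ((Set.finite_Iic f.natDegree).subset fun j (hj : Adm f 1 j) => hj.le') ⟨j, hj⟩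
  exact ⟨j1, h1, h2⟩

end Pool.Agent.Lib.MP_346d6a_co.T98
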