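import Pool.Agent.Lib.MP_346d6a_co.T98Lev

/-!
Reduction to the odd part of the degree.
-/

namespace Pool.Agent.Lib.MP_346d6a_co.T98

open Polynomial Finset

variable {k K : Type} [Field k] [Field K] [Algebra k K] {V : Val k K}

/-- the plane curve -/
noncomputable def EE (f : k[X]) (N : ℕ) (x : k) : k[X][X] :=
  ∑ j ∈ range (f.natDegree + 1), C (C (f.coeff j) * (X ^ N) ^ (f.natDegree - j)) *
    (X ^ j + (X + 1) ^ j - C (C (x ^ j + (x + 1) ^ j)))

variable {f : k[X]} {z : k} {N : ℕ}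

lemma aeval_EE (x : k) (t s : K) : aevalAeval t s (EE f N x) =
    (QQ f (t ^ N)).eval s - (QQ f (t ^ N)).eval (algebraMap k K x) := by
  rw [eval_QQ, eval_QQ, EE, map_sum, ← sum_sub_distrib]
  refine sum_congr rfl fun j _ => ?_
  simp only [map_mul, map_sub, map_add, map_pow, map_one, aevalAeval_C, aevalAeval_Y, aeval_C,
    aeval_X]
  ring

lemma aeval_derivative_EE (x : k) (t s : K) : aevalAeval t s (derivative (EE f N x)) =
    (taylor s (QQ f (t ^ N))).coeff 1 := by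
  rw [coeff_taylor_QQ, EE, derivative_sum, map_sum]
  refine sum_congr rfl fun j _ => ?_
  rw [derivative_C_mul, derivative_sub, derivative_C, sub_zero, derivative_add, derivative_pow,
    derivative_pow]
  simp only [map_mul, map_add, map_pow, map_one, aevalAeval_C, aevalAeval_Y, aeval_C,
    aeval_X, derivative_X, derivative_one, map_natCast, add_zero,
    Nat.choose_one_right]
  ring

lemma eval_QQ_hom {T : k} (hT : T ≠ 0) (s : k) : (QQ f T).eval s =
    T ^ f.natDegree * (f.eval (s / T) + f.eval ((s + 1) / T)) := by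
  rw [eval_QQ, eval_eq_sum_range, eval_eq_sum_range, ← sum_add_distrib, mul_sum]
  refine sum_congr rfl fun j hj => ?_
  rw [mem_range] at hj
  rw [pow_sub₀ _ hT (by omega), div_pow, div_pow]
  simp only [Algebra.algebraMap_self, RingHom.id_apply]
  field_simp

lemma map_QQ {φ : k ≃+* k} (hφ : ∀ j, φ (f.coeff j) = f.coeff j) {g : K ≃+* K} {T : K}
    (hT : g T = T) (hgc : ∀ c, g (algebraMap k K c) = algebraMap k K (φ c)) (s : K) :
    g ((QQ f T).eval s) = (QQ f T).eval (g s) := by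
  simp only [eval_QQ, map_sum, map_mul, map_add, map_pow, map_one, hgc, hφ, hT]

lemma exists_generic {φ : k ≃+* k} (hP : PAC φ) (d : ℕ) :
    ∃ z : k, φ z = z ∧ ∀ δ, 1 ≤ δ → δ ≤ d → z ^ δ ≠ (z + 1) ^ δ := by
  obtain ⟨x, y, h1, -, -, h2⟩ := hP X (C (∏ δ ∈ Icc 1 d, (X ^ δ - (X + 1) ^ δ))) irreducible_X
    (by simp) (by simp) (by
      rw [X_dvd_iff, coeff_C_zero]
      intro h
      have := congrArg (eval 0) h
      rw [eval_prod, eval_zero, prod_eq_zero_iff] at this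
      obtain ⟨δ, hδ, h3⟩ := this
      rw [mem_Icc] at hδ
      simp [zero_pow (by omega : δ ≠ 0)] at h3)
  refine ⟨x, h1, fun δ a b h => h2 ?_⟩
  rw [evalEval_C, eval_prod]
  exact prod_eq_zero (mem_Icc.2 ⟨a, b⟩) (by simp [h])

variable [CharP k 2]

lemma coeff_one_ne (hf : ∀ j ∈ f.support, ¬ Lin j) (hf' : derivative f ≠ 0)
    (hz : ∀ δ, 1 ≤ δ → δ ≤ f.natDegree → z ^ δ ≠ (z + 1) ^ δ) (hN : 1 ≤ N) {s : K}
    (hs : Cg V s z) : (taylor s (QQ f (V.τ ^ N))).coeff 1 ≠ 0 := by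
  obtain ⟨j1, h1, h2⟩ := exists_max_adm hf'
  have h3 := cg_coef (f := f) (N := N) hs 1 (N * (f.natDegree - j1) * 1)
    (bb f N (N * (f.natDegree - j1))) fun j a b => Adm.bb_le ⟨le_rfl, a, b⟩ N _
  have h4 := h3.ne_zero (c := ell f z N (N * (f.natDegree - j1)) 1) (by
    rw [ell_eq hN h1.le' (bb_eq h1 h2 le_rfl)]
    exact kap_ne_zero hf hz h1 ⟨0, rfl⟩)
  intro h0
  simp [h0] at h4

lemma no_fix (h2 : RootLemma) {φ : k ≃+* k} (hP : PAC φ) (hA : APNFix φ f)
    (hf : ∀ j ∈ f.support, ¬ Lin j) (hf' : derivative f ≠ 0)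
    (hz : ∀ δ, 1 ≤ δ → δ ≤ f.natDegree → z ^ δ ≠ (z + 1) ^ δ) (hN : 1 ≤ N) {g : K ≃+* K}
    (hgτ : g V.τ = V.τ) (hgc : ∀ c, g (algebraMap k K c) = algebraMap k K (φ c))
    {x : k} (hx : φ x = x) {s : K} (hs : Cg V s z) (hg : g s = s)
    (he : (QQ f (V.τ ^ N)).eval s = (QQ f (V.τ ^ N)).eval (algebraMap k K x)) :
    s = algebraMap k K x ∨ s = algebraMap k K (x + 1) := by
  by_contra! hc
  obtain ⟨x0, y0, a1, a2, a3, a4⟩ := h2 k φ hP K g V.τ s transcendental_tau hgτ hg hgc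
    (EE f N x) (C X * ((X - C (C x)) * (X - C (C (x + 1))))) (by rw [aeval_EE, he, sub_self])
    (by rw [aeval_derivative_EE]; exact coeff_one_ne hf hf' hz hN hs) (by
      simp only [map_mul, map_sub, aevalAeval_C, aevalAeval_Y, aeval_C, aeval_X]
      exact mul_ne_zero V.τ_ne (mul_ne_zero (sub_ne_zero.2 hc.1) (sub_ne_zero.2 hc.2)))
  simp only [evalEval_mul, evalEval_sub, evalEval_C, evalEval_X, eval_X, eval_C, ne_eq,
    mul_eq_zero, not_or, sub_eq_zero] at a4
  have hT : x0 ^ N ≠ 0 := pow_ne_zero _ a4.1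
  have h2 : (2 : k) = 0 := CharTwo.two_eq_zero
  rw [← coe_aevalAeval_eq_evalEval, aeval_EE, eval_QQ_hom hT, eval_QQ_hom hT, ← mul_sub,
    mul_eq_zero, or_iff_right (pow_ne_zero _ hT), Algebra.algebraMap_self, RingHom.id_apply] at a3
  have e : x / x0 ^ N + (x + 1) / x0 ^ N + y0 / x0 ^ N = (y0 + 1) / x0 ^ N := by
    rw [← add_div, ← add_div]
    congr 1
    linear_combination x * h2
  rcases hA (x / x0 ^ N) ((x + 1) / x0 ^ N) (y0 / x0 ^ N) (by simp [hx, a1]) (by simp [hx, a1])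
    (by simp [a1, a2]) (by
      rw [e]
      linear_combination a3 + (f.eval (x / x0 ^ N) + f.eval ((x + 1) / x0 ^ N)) * h2)
    with h | h | h
  · simpa using (div_left_inj' hT).1 h
  · exact a4.2.2 ((div_left_inj' hT).1 h).symm
  · exact a4.2.1 ((div_left_inj' hT).1 h).symm

lemma odd_choose {r e : ℕ} (he : Odd e) : Odd ((2 ^ r * e).choose (2 ^ r)) := by
  have : Fact (Nat.Prime 2) := ⟨Nat.prime_two⟩
  have h := Choose.choose_pow_mul_pow_mul_modEq_choose_nat (p := 2) (k := r) (a := e) (b := 1)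
  rw [mul_one, Nat.choose_one_right, Nat.ModEq] at h
  rwa [Nat.odd_iff, h, ← Nat.odd_iff]

theorem topReduction (h1 : ExistsVal) (h2 : RootLemma) : TopReduction := by
  intro k _ _ _ φ hP f r e hA hφ hf hf' he hd
  obtain ⟨K, _, _, _, V, g, hgτ, hgc, hgv⟩ := h1 k φ
  have hφ' : ∀ j, φ (f.coeff j) = f.coeff j := fun j => by
    simpa using congrArg (fun p => coeff p j) hφ
  set N := f.natDegree.factorial with hN
  have hN1 : 1 ≤ N := Nat.factorial_pos _
  have hf0 : f ≠ 0 := by rintro rfl; simp at hf'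
  have htop : Adm f (2 ^ r) f.natDegree :=
    ⟨Nat.one_le_two_pow, leadingCoeff_ne_zero.2 hf0, hd ▸ odd_choose he⟩
  have hQ := map_QQ hφ' (g := g) (T := V.τ ^ N) (by rw [map_pow, hgτ]) hgc
  have h20 : (2 : k) = 0 := CharTwo.two_eq_zero
  have claimA : ∀ z, φ z = z → (∀ δ, 1 ≤ δ → δ ≤ f.natDegree → z ^ δ ≠ (z + 1) ^ δ) →
      ∀ m, 1 ≤ m → ∀ x, φ x = x → (LL f z N m).eval x = 0 → x = 0 := fun z hz hz' m hm x =>
    (lev hφ' hz hf hf' hz' hN).claimA hgτ hgc hgv hQ hz (fun s hs hg hq => by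
      refine (no_fix h2 hP hA hf hf' hz' hN1 hgτ hgc hz hs hg hq).resolve_right ?_
      rintro rfl
      have := (hs.sub (Cg.const (z + 1))).ne_zero (by simp)
      simp at this) hm
  constructor
  · rintro rfl
    obtain ⟨z, hz, hz'⟩ := exists_generic hP f.natDegree
    obtain ⟨j1, a1, a2⟩ := exists_max_adm hf'
    have hj1 : j1 < f.natDegree := by
      refine a1.le'.lt_of_ne ?_
      rintro rfl
      have := a1.2.2
      rw [Nat.choose_one_right, hd, pow_one, Nat.odd_iff] at this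
      omega
    set m := N * (f.natDegree - j1) with hm
    have hm1 : 1 ≤ m := Nat.mul_pos hN1 (by omega)
    have hb := bb_eq a1 a2 hm.symm.le
    have b1 : ell f z N m 1 ≠ 0 := by
      rw [ell_eq hN1 a1.le' hb]; exact kap_ne_zero hf hz' a1 ⟨0, rfl⟩
    have b2 : ell f z N m 2 ≠ 0 := by
      rw [ell_eq hN1 le_rfl (by rw [← hb, Nat.sub_self]; omega)]
      exact kap_ne_zero hf hz' htop ⟨1, rfl⟩
    refine div_ne_zero b1 b2 (claimA z hz hz' m hm1 _ (by rw [map_div₀, map_ell hφ' hz,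
      map_ell hφ' hz]) ?_)
    have hd2 := htop.le
    rw [eval_LL, sum_eq_add_of_mem 1 2 (mem_Icc.2 (by omega)) (mem_Icc.2 (by omega)) (by omega)]
    · field_simp
      linear_combination ell f z N m 1 ^ 2 * h20
    · intro i hi hi'
      rw [mem_Icc] at hi
      by_cases h0 : ell f z N m i = 0
      · rw [h0, zero_mul]
      · obtain ⟨j, -, h3⟩ := exists_of_ell_ne hi.1 h0
        have := Nat.mul_le_mul_left m (by omega : 3 ≤ i)
        omega
  · intro hG
    obtain ⟨x, z, hx, hz, heq, n1, n2, hz'⟩ := hG f.natDegree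
    have c1 := (cg_top (V := V) (f := f) hN1 (Cg.const z) 0).sub
      (cg_top (f := f) hN1 (Cg.const x) 0)
    have c2 : kap f z 0 f.natDegree - kap f x 0 f.natDegree = 0 := by
      simp only [kap, Nat.sub_zero, hd, mul_comm (2 ^ r) e, pow_mul, ← add_pow_char_pow, heq,
        sub_self]
    rw [c2, cg_zero, taylor_coeff_zero, taylor_coeff_zero] at c1
    obtain ⟨s, hs, hg, hq⟩ := (lev hφ' hz hf hf' hz' hN).claimB hgτ hgc hgv hQ hz
      (claimA z hz hz') (by rw [hQ, hgc, hx]) c1 htop.1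
      ((cg_top hN1 (Cg.const z) _).eq_one (kap_ne_zero hf hz' htop ⟨r, rfl⟩))
    rcases no_fix h2 hP hA hf hf' hz' hN1 hgτ hgc hx hs hg hq with rfl | rfl
    · exact (hs.sub (Cg.const x)).ne_zero (sub_ne_zero.2 n1) (sub_self _)
    · exact (hs.sub (Cg.const (x + 1))).ne_zero (sub_ne_zero.2 n2) (sub_self _)

end Pool.Agent.Lib.MP_346d6a_co.T98
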