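import Pool.Agent.Lib.MP_346d6a_co.Core

/-!
Congruences modulo the maximal ideal, and the torsor argument.
-/

namespace Pool.Agent.Lib.MP_346d6a_co.T98

open Polynomial

variable {k K : Type} [Field k] [Field K] [Algebra k K] {V : Val k K}

variable (V) in
/-- `x` is integral with residue `c` -/
def Cg (x : K) (c : k) : Prop := V.v (x - algebraMap k K c) < 1

lemma v_const_le (c : k) : V.v (algebraMap k K c) ≤ 1 := by
  by_cases h : c = 0
  · simp [h]
  · exact (V.const c h).le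

lemma Cg.const (c : k) : Cg V (algebraMap k K c) c := by simp [Cg]

lemma cg_zero {x : K} : Cg V x 0 ↔ V.v x < 1 := by simp [Cg]

lemma Cg.le_one {x : K} {c : k} (h : Cg V x c) : V.v x ≤ 1 := by
  have := V.v.map_add_le (le_of_lt h) (v_const_le (V := V) c)
  rwa [sub_add_cancel] at this

lemma Cg.eq_one {x : K} {c : k} (h : Cg V x c) (hc : c ≠ 0) : V.v x = 1 := by
  have := V.v.map_add_eq_of_lt_right (x := x - algebraMap k K c) (y := algebraMap k K c)
    (by rw [V.const c hc]; exact h)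
  rwa [sub_add_cancel, V.const c hc] at this

lemma Cg.ne_zero {x : K} {c : k} (h : Cg V x c) (hc : c ≠ 0) : x ≠ 0 := by
  rintro rfl
  simpa using h.eq_one hc

lemma Cg.add {x y : K} {a b : k} (h : Cg V x a) (h' : Cg V y b) : Cg V (x + y) (a + b) := by
  have := V.v.map_add_lt h h'
  rwa [Cg, map_add, add_sub_add_comm]

lemma Cg.sub {x y : K} {a b : k} (h : Cg V x a) (h' : Cg V y b) : Cg V (x - y) (a - b) := by
  have := V.v.map_sub_lt h h'
  rwa [Cg, map_sub (algebraMap k K), sub_sub_sub_comm]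

lemma Cg.mul {x y : K} {a b : k} (h : Cg V x a) (h' : Cg V y b) : Cg V (x * y) (a * b) := by
  have e : x * y - algebraMap k K (a * b) =
      x * (y - algebraMap k K b) + (x - algebraMap k K a) * algebraMap k K b := by
    rw [map_mul]; ring
  rw [Cg, e]
  refine V.v.map_add_lt ?_ ?_
  · rw [map_mul]; exact mul_lt_one_of_nonneg_of_lt_one_right h.le_one zero_le h'
  · rw [map_mul]; exact mul_lt_one_of_nonneg_of_lt_one_left zero_le h (v_const_le b)

lemma Cg.one : Cg V 1 1 := by simpa using Cg.const (V := V) 1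

lemma Cg.zero : Cg V 0 0 := by simp [Cg]

lemma Cg.natCast (n : ℕ) : Cg V (n : K) (n : k) := by simpa using Cg.const (V := V) (n : k)

lemma Cg.pow {x : K} {a : k} (h : Cg V x a) (n : ℕ) : Cg V (x ^ n) (a ^ n) := by
  induction n with
  | zero => simpa using Cg.one
  | succ n ih => rw [pow_succ, pow_succ]; exact ih.mul h

lemma Cg.sum {ι : Type} {s : Finset ι} {x : ι → K} {a : ι → k} (h : ∀ i ∈ s, Cg V (x i) (a i)) :
    Cg V (∑ i ∈ s, x i) (∑ i ∈ s, a i) := by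
  rw [Cg, map_sum, ← Finset.sum_sub_distrib]
  exact V.v.map_sum_lt one_ne_zero h

lemma Cg.eval {p : K[X]} {q : k[X]} (h : ∀ i, Cg V (p.coeff i) (q.coeff i)) {y : K} {c : k}
    (hy : Cg V y c) : Cg V (p.eval y) (q.eval c) := by
  rw [eval_eq_sum_range' (n := max p.natDegree q.natDegree + 1) (by omega),
    eval_eq_sum_range' (n := max p.natDegree q.natDegree + 1) (by omega)]
  exact Cg.sum fun i _ => (h i).mul (hy.pow i)

lemma Cg.tau : Cg V V.τ 0 := cg_zero.2 V.τ_lt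

lemma v_tau_pos : 0 < V.v V.τ := by
  rw [pos_iff_ne_zero, ne_eq, map_eq_zero]; exact V.τ_ne

lemma v_tau_pow_lt {m : ℕ} (hm : 1 ≤ m) : V.v V.τ ^ m < 1 :=
  pow_lt_one₀ zero_le V.τ_lt (by omega)

lemma transcendental_tau : Transcendental k V.τ := by
  rw [transcendental_iff]
  intro p hp
  by_contra h0
  obtain ⟨q, hq, hq'⟩ := exists_eq_pow_rootMultiplicity_mul_and_not_dvd p h0 0
  rw [hq, map_mul, map_pow, mul_eq_zero] at hp
  rcases hp with hp | hp
  · simp [V.τ_ne] at hp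
  · rw [dvd_iff_isRoot] at hq'
    refine (Cg.eval (V := V) (p := q.map (algebraMap k K)) (q := q) (fun i => ?_)
      Cg.tau).ne_zero hq' ?_
    · rw [coeff_map]; exact Cg.const _
    · rwa [eval_map_algebraMap]

lemma exists_root_lt [IsAlgClosed K] (p : K[X]) (i : ℕ) (h : V.v (p.coeff 0) < V.v (p.coeff i)) :
    ∃ y, p.eval y = 0 ∧ V.v y < 1 := by
  induction hn : p.natDegree generalizing p i with
  | zero =>
    rcases i with _ | i
    · exact absurd h (lt_irrefl _)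
    · rw [coeff_eq_zero_of_natDegree_lt (by omega : p.natDegree < i + 1)] at h
      simp at h
  | succ n ih =>
    have hp : p ≠ 0 := by rintro rfl; simp at hn
    obtain ⟨y, hy⟩ := IsAlgClosed.exists_root p (by
      rw [degree_eq_natDegree hp, hn]; exact_mod_cast n.succ_ne_zero)
    by_cases hv : V.v y < 1
    · exact ⟨y, hy, hv⟩
    obtain ⟨q, rfl⟩ := dvd_iff_isRoot.2 hy
    have hq : q ≠ 0 := right_ne_zero_of_mul hp
    rw [natDegree_mul (X_sub_C_ne_zero y) hq, natDegree_X_sub_C] at hn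
    by_contra hc
    have hq' : ∀ j, V.v (q.coeff j) ≤ V.v (q.coeff 0) := fun j => by
      by_contra h1
      obtain ⟨w, h2, h3⟩ := ih q j (not_le.1 h1) (by omega)
      exact hc ⟨w, by simp [h2], h3⟩
    refine absurd h (not_lt.2 ?_)
    have e0 : V.v (((X - C y) * q).coeff 0) = V.v y * V.v (q.coeff 0) := by simp
    rcases i with _ | i
    · exact le_rfl
    · rw [e0, sub_mul, coeff_sub, coeff_X_mul, coeff_C_mul]
      refine V.v.map_sub_le ((hq' i).trans (le_mul_of_one_le_left zero_le (not_lt.1 hv))) ?_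
      rw [map_mul]
      exact mul_le_mul_right (hq' _) _

variable (V) in
/-- The reductions of the Taylor expansions of `Q` at all levels are additive. -/
structure Lev (φ : k ≃+* k) (Q : K[X]) (z : k) (L : ℕ → k[X]) (b : ℕ → ℕ) : Prop where
  cg : ∀ m, 1 ≤ m → ∀ s, Cg V s z → ∀ i, 1 ≤ i →
    Cg V ((taylor s Q).coeff i * V.τ ^ (m * i) / V.τ ^ b m) ((L m).coeff i)
  ne : ∀ m, 1 ≤ m → L m ≠ 0
  zero : ∀ m, (L m).coeff 0 = 0
  add : ∀ m, 1 ≤ m → ∀ x y, (L m).eval (x + y) = (L m).eval x + (L m).eval y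
  fix : ∀ m x, φ ((L m).eval x) = (L m).eval (φ x)
  lvl : ∀ s s', Cg V s z → Cg V s' z → Q.eval s' = Q.eval s → s' ≠ s →
    ∃ m, 1 ≤ m ∧ V.v (s' - s) = V.v V.τ ^ m

variable {φ : k ≃+* k} {Q : K[X]} {z : k} {L : ℕ → k[X]} {b : ℕ → ℕ}

/-- rescaled Taylor expansion -/
noncomputable def resc (Q : K[X]) (s c t u : K) : K[X] :=
  C u⁻¹ * (taylor s Q - C c).comp (C t * X)

lemma eval_resc (s c t u y : K) : (resc Q s c t u).eval y = (Q.eval (s + t * y) - c) / u := by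
  simp [resc, eval_comp, taylor_eval, add_comm, div_eq_inv_mul]

lemma coeff_resc_zero (s c t u : K) : (resc Q s c t u).coeff 0 = (Q.eval s - c) / u := by
  rw [coeff_zero_eq_eval_zero, eval_resc, mul_zero, add_zero]

lemma coeff_resc (s c t u : K) {i : ℕ} (hi : 1 ≤ i) :
    (resc Q s c t u).coeff i = (taylor s Q).coeff i * t ^ i / u := by
  rw [resc, coeff_C_mul, comp_C_mul_X_coeff, coeff_sub, coeff_C, if_neg (by omega), sub_zero,
    div_eq_inv_mul]

lemma Lev.eval (h : Lev V φ Q z L b) {m : ℕ} (hm : 1 ≤ m) {s y : K} (hs : Cg V s z) {c : k}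
    (hy : Cg V y c) :
    Cg V ((Q.eval (s + V.τ ^ m * y) - Q.eval s) / V.τ ^ b m) ((L m).eval c) := by
  rw [← eval_resc]
  refine Cg.eval (fun i => ?_) hy
  rcases Nat.eq_zero_or_pos i with rfl | hi
  · rw [coeff_resc_zero, h.zero, sub_self, zero_div]; exact Cg.zero
  · rw [coeff_resc _ _ _ _ hi, ← pow_mul]; exact h.cg m hm s hs i hi

lemma cg_add_tau {m : ℕ} (hm : 1 ≤ m) {s y : K} (hs : Cg V s z) {c : k} (hy : Cg V y c) :
    Cg V (s + V.τ ^ m * y) z := by
  have := hs.add ((Cg.tau.pow m).mul hy)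
  rwa [zero_pow (by omega), zero_mul, add_zero] at this

lemma Lev.exists_coeff (h : Lev V φ Q z L b) {m : ℕ} (hm : 1 ≤ m) :
    ∃ i, 1 ≤ i ∧ (L m).coeff i ≠ 0 := by
  obtain ⟨i, hi⟩ : ∃ i, (L m).coeff i ≠ 0 := by
    by_contra! h0
    exact h.ne m hm (Polynomial.ext h0)
  refine ⟨i, Nat.pos_of_ne_zero ?_, hi⟩
  rintro rfl
  exact hi (h.zero m)

lemma Lev.lift [IsAlgClosed K] (h : Lev V φ Q z L b) {m : ℕ} (hm : 1 ≤ m) {s : K} (hs : Cg V s z)
    {c : k} (hc : (L m).eval c = 0) : ∃ y, Cg V y c ∧ Q.eval (s + V.τ ^ m * y) = Q.eval s := by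
  obtain ⟨i, hi, hi'⟩ := h.exists_coeff hm
  obtain ⟨y, h1, h2⟩ := exists_root_lt (V := V)
    (resc Q (s + V.τ ^ m * algebraMap k K c) (Q.eval s) (V.τ ^ m) (V.τ ^ b m)) i (by
      rw [coeff_resc_zero, coeff_resc _ _ _ _ hi, ← pow_mul,
        (h.cg m hm _ (cg_add_tau hm hs (Cg.const c)) i hi).eq_one hi', ← cg_zero, ← hc]
      exact h.eval hm hs (Cg.const c))
  rw [eval_resc, div_eq_zero_iff, or_iff_left (pow_ne_zero _ V.τ_ne), sub_eq_zero, add_assoc,
    ← mul_add] at h1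
  exact ⟨_, by simpa using (Cg.const c).add (cg_zero.2 h2), h1⟩

lemma Lev.finite (h : Lev V φ Q z L b) (c : K) : {s | Q.eval s = c}.Finite := by
  obtain ⟨i, hi, hi'⟩ := h.exists_coeff le_rfl
  have h1 := (h.cg 1 le_rfl _ (Cg.const z) i hi).ne_zero hi'
  have h2 : Q - C c ≠ 0 := by
    intro h0
    rw [sub_eq_zero.1 h0, taylor_C, coeff_C, if_neg (by omega)] at h1
    simp at h1
  simpa [sub_eq_zero] using finite_setOfPred_isRoot h2

variable {g : K ≃+* K}

lemma Cg.map (hgc : ∀ c, g (algebraMap k K c) = algebraMap k K (φ c))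
    (hgv : ∀ x, V.v (g x) = V.v x) {x : K} {c : k} (h : Cg V x c) : Cg V (g x) (φ c) := by
  rwa [Cg, ← hgc, ← map_sub, hgv]

lemma Lev.torsor [IsAlgClosed K] [CharP k 2] (h : Lev V φ Q z L b) (hgτ : g V.τ = V.τ)
    (hgc : ∀ c, g (algebraMap k K c) = algebraMap k K (φ c)) (hgv : ∀ x, V.v (g x) = V.v x)
    (hQ : ∀ s, g (Q.eval s) = Q.eval (g s)) {s0 : K} (hs0 : Cg V s0 z)
    (hc : g (Q.eval s0) = Q.eval s0) {ρ : NNReal} (hρ : ρ ≤ 1) (hg0 : V.v (g s0 - s0) < ρ)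
    (hL : ∀ m, 1 ≤ m → V.v V.τ ^ m < ρ → ∀ x, φ x = x → (L m).eval x = 0 → x = 0) :
    ∃ s, V.v (s - s0) < ρ ∧ Q.eval s = Q.eval s0 ∧ g s = s := by
  set S := {s | Q.eval s = Q.eval s0} ∩ {s | V.v (s - s0) < ρ} with hS
  have hSz : ∀ s ∈ S, Cg V s z := fun s hs => by
    simpa using (cg_zero.2 (hs.2.trans_le hρ)).add hs0
  have hSg : ∀ s ∈ S, g s ∈ S := fun s hs => by
    refine ⟨by rw [Set.mem_ofPred_eq, ← hQ, hs.1, hc], ?_⟩
    have := V.v.map_add_lt ((hgv (s - s0)).trans_lt hs.2) hg0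
    rwa [map_sub, sub_add_sub_cancel] at this
  obtain ⟨s, hs, hmin⟩ := Set.exists_min_image S (fun s => V.v (g s - s))
    ((h.finite _).inter_of_left _) ⟨s0, rfl, by simpa using zero_le.trans_lt hg0⟩
  refine ⟨s, hs.2, hs.1, ?_⟩
  by_contra hne
  obtain ⟨m, hm, hv⟩ := h.lvl s (g s) (hSz s hs) (hSz _ (hSg s hs)) ((hSg s hs).1.trans hs.1.symm)
    hne
  have hτ : V.τ ^ m ≠ 0 := pow_ne_zero _ V.τ_ne
  have hτ' : V.v V.τ ^ m ≠ 0 := pow_ne_zero _ v_tau_pos.ne'
  have hρ' : V.v V.τ ^ m < ρ := by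
    have := V.v.map_sub_lt (hSg s hs).2 hs.2
    rwa [sub_sub_sub_cancel_right, hv] at this
  obtain ⟨u, hu⟩ := V.res ((g s - s) / V.τ ^ m) (by rw [map_div₀, map_pow, hv, div_self hτ'])
  have hu0 : (L m).eval u = 0 := by
    have := h.eval hm (hSz s hs) hu
    rw [mul_div_cancel₀ _ hτ, add_sub_cancel, (hSg s hs).1, hs.1, sub_self, zero_div] at this
    by_contra h0
    exact this.ne_zero h0 rfl
  have hA : {x | (L m).IsRoot x}.Finite := finite_setOfPred_isRoot (h.ne m hm)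
  have hmaps : Set.MapsTo (fun x => φ x + x) {x | (L m).IsRoot x} {x | (L m).IsRoot x} :=
    fun x (hx : (L m).eval x = 0) => by
      change (L m).eval (φ x + x) = 0
      rw [h.add m hm, ← h.fix, hx, map_zero, add_zero]
  obtain ⟨w, hw, hw'⟩ := ((hA.injOn_iff_bijOn_of_mapsTo hmaps).1
    fun x (hx : (L m).eval x = 0) y (hy : (L m).eval y = 0) (hxy : φ x + x = φ y + y) => by
      have h2 : (2 : k) = 0 := CharTwo.two_eq_zero
      have := hL m hm hρ' (x + y) (by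
        rw [map_add]; linear_combination hxy + (φ y - x) * h2) (by rw [h.add m hm, hx, hy, add_zero])
      linear_combination this - y * h2).surjOn hu0
  obtain ⟨y, hy, hy'⟩ := h.lift hm (hSz s hs) hw
  have hmem : s + V.τ ^ m * y ∈ S := by
    refine ⟨hy'.trans hs.1, ?_⟩
    change V.v (s + V.τ ^ m * y - s0) < ρ
    rw [add_sub_right_comm]
    refine V.v.map_add_lt hs.2 ?_
    rw [map_mul, map_pow]
    exact (mul_le_of_le_one_right zero_le hy.le_one).trans_lt hρ'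
  refine absurd (hmin _ hmem) (not_le.2 ?_)
  have h3 := (Cg.add hu (hy.map hgc hgv)).sub hy
  have h2 : (2 : k) = 0 := CharTwo.two_eq_zero
  rw [show u + φ w - w = 0 by linear_combination -hw' + φ w * h2, cg_zero] at h3
  have e : g (s + V.τ ^ m * y) - (s + V.τ ^ m * y) =
      V.τ ^ m * ((g s - s) / V.τ ^ m + g y - y) := by
    rw [map_add, map_mul, map_pow, hgτ]
    field_simp
    ring
  rw [e, hv, map_mul, map_pow]
  exact mul_lt_of_lt_one_right (pos_iff_ne_zero.2 hτ') h3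

lemma Lev.claimA [IsAlgClosed K] [CharP k 2] (h : Lev V φ Q z L b) (hgτ : g V.τ = V.τ)
    (hgc : ∀ c, g (algebraMap k K c) = algebraMap k K (φ c)) (hgv : ∀ x, V.v (g x) = V.v x)
    (hQ : ∀ s, g (Q.eval s) = Q.eval (g s)) (hz : φ z = z)
    (hno : ∀ s, Cg V s z → g s = s → Q.eval s = Q.eval (algebraMap k K z) →
      s = algebraMap k K z) {m : ℕ} (hm : 1 ≤ m) {x : k} (hx : φ x = x)
    (hx' : (L m).eval x = 0) : x = 0 := by
  by_contra hx0
  set z' := algebraMap k K z with hz'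
  have hgz : g z' = z' := by rw [hz', hgc, hz]
  set R := {s | Q.eval s = Q.eval z'} ∩ {s | ∃ m, 1 ≤ m ∧ ∃ x y, φ x = x ∧ x ≠ 0 ∧ Cg V y x ∧
    s = z' + V.τ ^ m * y} with hR
  have hlift : ∀ m, 1 ≤ m → ∀ x, φ x = x → (L m).eval x = 0 → x ≠ 0 →
      ∃ s ∈ R, V.v (s - z') = V.v V.τ ^ m := fun m hm x h1 h2 h3 => by
    obtain ⟨y, hy, hy'⟩ := h.lift hm (Cg.const z) h2
    refine ⟨_, ⟨hy', m, hm, x, y, h1, h3, hy, rfl⟩, ?_⟩
    rw [add_sub_cancel_left, map_mul, map_pow, hy.eq_one h3, mul_one]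
  obtain ⟨s0, hs0, hmin⟩ := Set.exists_min_image R (fun s => V.v (s - z'))
    ((h.finite _).inter_of_left _) (by
      obtain ⟨s, hs, -⟩ := hlift m hm x hx hx' hx0
      exact ⟨s, hs⟩)
  obtain ⟨h0, m0, hm0, x0, y0, a1, a2, a3, rfl⟩ := hs0
  have hv0 : V.v (z' + V.τ ^ m0 * y0 - z') = V.v V.τ ^ m0 := by
    rw [add_sub_cancel_left, map_mul, map_pow, a3.eq_one a2, mul_one]
  have hτ' : 0 < V.v V.τ ^ m0 := pow_pos v_tau_pos _
  obtain ⟨s, b1, b2, b3⟩ := h.torsor hgτ hgc hgv hQ (cg_add_tau hm0 (Cg.const z) a3)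
    (by rw [h0, hQ, hgz]) (v_tau_pow_lt hm0).le (by
      have h3 := (a3.map hgc hgv).sub a3
      rw [a1, sub_self, cg_zero] at h3
      rw [map_add, map_mul, map_pow, hgτ, hgz, add_sub_add_left_eq_sub, ← mul_sub, map_mul, map_pow]
      exact mul_lt_of_lt_one_right hτ' h3) fun m hm hlt x h1 h2 => by
      by_contra h3
      obtain ⟨s, hs, hs'⟩ := hlift m hm x h1 h2 h3
      have := hmin s hs
      rw [hv0, hs'] at this
      exact absurd hlt (not_lt.2 this)
  have hsz : Cg V s z := by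
    simpa using (cg_zero.2 (b1.trans (v_tau_pow_lt hm0))).add (cg_add_tau hm0 (Cg.const z) a3)
  rw [hno s hsz b3 (b2.trans h0), V.v.map_sub_swap, hv0] at b1
  exact lt_irrefl _ b1

lemma Lev.claimB [IsAlgClosed K] [CharP k 2] (h : Lev V φ Q z L b) (hgτ : g V.τ = V.τ)
    (hgc : ∀ c, g (algebraMap k K c) = algebraMap k K (φ c)) (hgv : ∀ x, V.v (g x) = V.v x)
    (hQ : ∀ s, g (Q.eval s) = Q.eval (g s)) (hz : φ z = z)
    (hA : ∀ m, 1 ≤ m → ∀ x, φ x = x → (L m).eval x = 0 → x = 0) {c : K} (hc : g c = c)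
    (h0 : V.v (Q.eval (algebraMap k K z) - c) < 1) {i : ℕ} (hi : 1 ≤ i)
    (h1 : V.v ((taylor (algebraMap k K z) Q).coeff i) = 1) :
    ∃ s, Cg V s z ∧ g s = s ∧ Q.eval s = c := by
  obtain ⟨y, a1, a2⟩ := exists_root_lt (V := V) (resc Q (algebraMap k K z) c 1 1) i (by
    rw [coeff_resc_zero, coeff_resc _ _ _ _ hi, one_pow, mul_one, div_one, div_one, h1]
    exact h0)
  rw [eval_resc, div_one, one_mul, sub_eq_zero] at a1
  have hs0 : Cg V (algebraMap k K z + y) z := by simpa using (Cg.const z).add (cg_zero.2 a2)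
  obtain ⟨s, b1, b2, b3⟩ := h.torsor hgτ hgc hgv hQ hs0 (by rw [a1, hc]) le_rfl (by
    have := (hs0.map hgc hgv).sub hs0
    rwa [hz, sub_self, cg_zero] at this) fun m hm _ => hA m hm
  exact ⟨s, by simpa using (cg_zero.2 b1).add hs0, b3, b2.trans a1⟩

end Pool.Agent.Lib.MP_346d6a_co.T98
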