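import Pool.Agent.Lib.MP_346d6a_co.Core

/-!
Basic facts on the valued fields `Val k Ω` (helper94).
-/

set_option maxHeartbeats 400000

namespace Pool.Agent.Lib.MP_346d6a_co

open Polynomial

namespace Val

variable {k Ω : Type} [Field k] [Field Ω] [Algebra k Ω] (V : Val k Ω)

theorem τ_pos : 0 < V.v V.τ := (V.v.pos_iff).mpr V.τ_ne

theorem const_le (c : k) : V.v (algebraMap k Ω c) ≤ 1 := by
  by_cases h : c = 0
  · simp [h]
  · exact (V.const c h).le

theorem eq_zero_of_lt {c : k} (h : V.v (algebraMap k Ω c) < 1) : c = 0 := by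
  by_contra hc
  exact absurd (V.const c hc) h.ne

theorem res_unique {a b : k} (h : V.v (algebraMap k Ω a - algebraMap k Ω b) < 1) : a = b := by
  rw [← map_sub] at h
  exact sub_eq_zero.mp (V.eq_zero_of_lt h)

theorem res_unique' {x : Ω} {a b : k} (ha : V.v (x - algebraMap k Ω a) < 1)
    (hb : V.v (x - algebraMap k Ω b) < 1) : a = b := by
  apply V.res_unique
  have := V.v.map_sub_lt hb ha
  rwa [sub_sub_sub_cancel_left] at this

theorem le_one_of_res {x : Ω} {a : k} (ha : V.v (x - algebraMap k Ω a) < 1) : V.v x ≤ 1 := by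
  have := V.v.map_add_le ha.le (V.const_le a)
  rwa [sub_add_cancel] at this

theorem eq_one_of_res {x : Ω} {a : k} (h0 : a ≠ 0) (ha : V.v (x - algebraMap k Ω a) < 1) :
    V.v x = 1 := by
  have h := V.v.map_add_eq_of_lt_right (x := x - algebraMap k Ω a) (y := algebraMap k Ω a)
    (by rw [V.const a h0]; exact ha)
  rwa [sub_add_cancel, V.const a h0] at h

theorem res_add {x y : Ω} {a b : k} (ha : V.v (x - algebraMap k Ω a) < 1)
    (hb : V.v (y - algebraMap k Ω b) < 1) : V.v (x + y - algebraMap k Ω (a + b)) < 1 := by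
  have := V.v.map_add_lt ha hb
  rwa [sub_add_sub_comm, ← map_add] at this

theorem res_mul {x y : Ω} {a b : k} (ha : V.v (x - algebraMap k Ω a) < 1)
    (hb : V.v (y - algebraMap k Ω b) < 1) : V.v (x * y - algebraMap k Ω (a * b)) < 1 := by
  have e : x * y - algebraMap k Ω (a * b) =
      x * (y - algebraMap k Ω b) + (x - algebraMap k Ω a) * algebraMap k Ω b := by
    rw [map_mul]; ring
  rw [e]
  refine V.v.map_add_lt ?_ ?_
  · rw [map_mul]
    exact mul_lt_one_of_nonneg_of_lt_one_right (V.le_one_of_res ha) zero_le hb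
  · rw [map_mul]
    exact mul_lt_one_of_nonneg_of_lt_one_left zero_le ha (V.const_le b)

theorem res_const (a : k) : V.v (algebraMap k Ω a - algebraMap k Ω a) < 1 := by simp

theorem res_pow {x : Ω} {a : k} (ha : V.v (x - algebraMap k Ω a) < 1) (n : ℕ) :
    V.v (x ^ n - algebraMap k Ω (a ^ n)) < 1 := by
  induction n with
  | zero => simp
  | succ n ih => rw [pow_succ, pow_succ]; exact V.res_mul ih ha

theorem res_sum {ι : Type*} (s : Finset ι) {x : ι → Ω} {a : ι → k}
    (h : ∀ i ∈ s, V.v (x i - algebraMap k Ω (a i)) < 1) :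
    V.v (∑ i ∈ s, x i - algebraMap k Ω (∑ i ∈ s, a i)) < 1 := by
  rw [map_sum, ← Finset.sum_sub_distrib]
  exact V.v.map_sum_lt one_ne_zero h

/-- `p` reduces coefficientwise to `pb`. -/
def Red (p : Polynomial Ω) (pb : k[X]) : Prop :=
  ∀ i, V.v (p.coeff i - algebraMap k Ω (pb.coeff i)) < 1

variable {V}

theorem Red.unique {p : Polynomial Ω} {a b : k[X]} (ha : V.Red p a) (hb : V.Red p b) : a = b := by
  ext i
  exact V.res_unique' (ha i) (hb i)

theorem Red.map (a : k[X]) : V.Red (a.map (algebraMap k Ω)) a := by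
  intro i; simp

theorem Red.add {p q : Polynomial Ω} {a b : k[X]} (ha : V.Red p a) (hb : V.Red q b) :
    V.Red (p + q) (a + b) := by
  intro i
  rw [coeff_add, coeff_add]
  exact V.res_add (ha i) (hb i)

theorem Red.mul {p q : Polynomial Ω} {a b : k[X]} (ha : V.Red p a) (hb : V.Red q b) :
    V.Red (p * q) (a * b) := by
  intro i
  rw [coeff_mul, coeff_mul]
  exact V.res_sum _ fun c _ => V.res_mul (ha _) (hb _)

theorem Red.C {x : Ω} {a : k} (h : V.v (x - algebraMap k Ω a) < 1) : V.Red (C x) (C a) := by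
  intro i
  rw [coeff_C, coeff_C]
  split_ifs
  · exact h
  · simp

theorem Red.X : V.Red (X : Polynomial Ω) X := by
  simpa using Red.map (V := V) (Polynomial.X : k[X])

theorem Red.neg {p : Polynomial Ω} {a : k[X]} (ha : V.Red p a) : V.Red (-p) (-a) := by
  intro i
  rw [coeff_neg, coeff_neg, map_neg, ← neg_sub', Valuation.map_neg]
  exact ha i

theorem Red.sub {p q : Polynomial Ω} {a b : k[X]} (ha : V.Red p a) (hb : V.Red q b) :
    V.Red (p - q) (a - b) := by
  rw [sub_eq_add_neg, sub_eq_add_neg]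
  exact ha.add hb.neg

theorem Red.coeff_le {p : Polynomial Ω} {a : k[X]} (ha : V.Red p a) (i : ℕ) : V.v (p.coeff i) ≤ 1 :=
  V.le_one_of_res (ha i)

theorem Red.ne_zero {p : Polynomial Ω} {a : k[X]} (ha : V.Red p a) (h : a ≠ 0) : p ≠ 0 := by
  rintro rfl
  exact h (ha.unique (by simpa using Red.map (V := V) (0 : k[X])))

theorem Red.eval {p : Polynomial Ω} {a : k[X]} (ha : V.Red p a) {y : Ω} {b : k}
    (hy : V.v (y - algebraMap k Ω b) < 1) : V.v (p.eval y - algebraMap k Ω (a.eval b)) < 1 := by
  rw [eval_eq_sum_range' (n := max p.natDegree a.natDegree + 1) (by omega),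
    eval_eq_sum_range' (p := a) (n := max p.natDegree a.natDegree + 1) (by omega)]
  exact V.res_sum _ fun i _ => V.res_mul (ha i) (V.res_pow hy i)

/-- The residue of a root is a root of the reduction. -/
theorem Red.root {p : Polynomial Ω} {a : k[X]} (ha : V.Red p a) {y : Ω} {b : k}
    (hy : V.v (y - algebraMap k Ω b) < 1) (h0 : p.eval y = 0) : a.eval b = 0 := by
  have := ha.eval hy
  rw [h0, zero_sub, Valuation.map_neg] at this
  exact V.eq_zero_of_lt this

variable (V)

/-- Every polynomial with integral coefficients has a reduction. -/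
theorem exists_red (p : Polynomial Ω) (h : ∀ i, V.v (p.coeff i) ≤ 1) :
    ∃ pb : k[X], V.Red p pb ∧ pb.natDegree ≤ p.natDegree := by
  choose c hc using fun i => V.res _ (h i)
  refine ⟨∑ i ∈ Finset.range (p.natDegree + 1), monomial i (c i), ?_, ?_⟩
  · intro i
    rw [finsetSum_coeff]
    simp only [coeff_monomial, Finset.sum_ite_eq', Finset.mem_range]
    split_ifs with hi
    · exact hc i
    · rw [coeff_eq_zero_of_natDegree_lt (by omega)]; simp
  · refine natDegree_sum_le_of_forall_le _ _ fun i hi => (natDegree_monomial_le _).trans ?_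
    have := Finset.mem_range.mp hi
    omega

open Classical in
theorem red_prod (s : Multiset Ω) : ∃ (u : Ω) (t : Multiset k), u ≠ 0 ∧
    V.Red (C u * (s.map fun y => X - C y).prod) (t.map fun b => X - C b).prod ∧
    ∀ b, t.count b = (s.filter fun y => V.v (y - algebraMap k Ω b) < 1).card := by
  induction s using Multiset.induction_on with
  | empty => exact ⟨1, 0, one_ne_zero, by simpa using Red.map (V := V) (1 : k[X]), by simp⟩
  | cons y s ih =>
    obtain ⟨u, t, hu, h1, h2⟩ := ih
    rcases le_or_gt (V.v y) 1 with hy | hy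
    · obtain ⟨c, hc⟩ := V.res y hy
      refine ⟨u, c ::ₘ t, hu, ?_, fun b => ?_⟩
      · rw [Multiset.map_cons, Multiset.map_cons, Multiset.prod_cons, Multiset.prod_cons,
          mul_left_comm]
        exact (Red.X.sub (Red.C hc)).mul h1
      · rw [Multiset.filter_cons, Multiset.card_add, ← h2, Multiset.count_cons, add_comm]
        congr 1
        by_cases hb : b = c
        · subst hb; simp [hc]
        · rw [if_neg hb, if_neg fun h => hb (V.res_unique' h hc)]; simp
    · have hy0 : y ≠ 0 := by rintro rfl; simp at hy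
      refine ⟨-y⁻¹ * u, t, mul_ne_zero (neg_ne_zero.mpr (inv_ne_zero hy0)) hu, ?_, fun b => ?_⟩
      · have e : C (-y⁻¹ * u) * (Multiset.map (fun y => X - C y) (y ::ₘ s)).prod =
            (C (-y⁻¹) * X + C 1) * (C u * (s.map fun y => X - C y).prod) := by
          rw [Multiset.map_cons, Multiset.prod_cons]
          have : (C 1 : Polynomial Ω) = C y⁻¹ * C y := by rw [← C_mul, inv_mul_cancel₀ hy0]
          rw [this, C_mul, C_neg]
          ring
        rw [e]
        have h3 : V.Red (C (-y⁻¹) * X + C 1) (C 0 * X + C 1) := by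
          refine ((Red.C ?_).mul Red.X).add (Red.C (by simp))
          rw [map_zero, sub_zero, Valuation.map_neg, map_inv₀]
          exact inv_lt_one_of_one_lt₀ hy
        simpa using h3.mul h1
      · rw [Multiset.filter_cons_of_neg, h2]
        intro h
        exact absurd (V.le_one_of_res h) (not_le.mpr hy)

variable {V}

open Classical in
/-- The number of roots in a residue disc is the multiplicity of the root of the reduction. -/
theorem Red.card_cluster [IsAlgClosed Ω] {p : Polynomial Ω} {pb : k[X]} (h : V.Red p pb) (h0 : pb ≠ 0)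
    (b : k) : (p.roots.filter fun y => V.v (y - algebraMap k Ω b) < 1).card =
      pb.rootMultiplicity b := by
  obtain ⟨u, t, hu, h1, h2⟩ := V.red_prod p.roots
  have hp : p = Polynomial.C (p.leadingCoeff / u) *
      (Polynomial.C u * (p.roots.map fun y => Polynomial.X - Polynomial.C y).prod) := by
    rw [← mul_assoc, ← C_mul, div_mul_cancel₀ _ hu]
    exact (IsAlgClosed.splits p).eq_prod_roots
  set w := p.leadingCoeff / u
  have hm : (t.map fun b => Polynomial.X - Polynomial.C b).prod.Monic :=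
    monic_multisetProd_X_sub_C t
  have hw : V.v w ≤ 1 := by
    have h3 := h1 (t.map fun b => Polynomial.X - Polynomial.C b).prod.natDegree
    rw [hm.coeff_natDegree] at h3
    have h4 := V.eq_one_of_res one_ne_zero h3
    have h5 := h.coeff_le (t.map fun b => Polynomial.X - Polynomial.C b).prod.natDegree
    rw [hp, coeff_C_mul, map_mul, h4, mul_one] at h5
    exact h5
  obtain ⟨c, hc⟩ := V.res w hw
  have h3 := (Red.C hc).mul h1
  rw [← hp] at h3
  have h4 := h.unique h3
  have hc0 : c ≠ 0 := by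
    rintro rfl
    exact h0 (by simpa using h4)
  rw [← h2, ← count_roots, h4, roots_C_mul _ hc0, roots_multiset_prod_X_sub_C]

variable (V)

/-- Roots of the reduction lift. -/
theorem lift_root [IsAlgClosed Ω] (p : Polynomial Ω) (pb : k[X]) (h0 : pb ≠ 0)
    (h : ∀ i, V.v (p.coeff i - algebraMap k Ω (pb.coeff i)) < 1) (b : k) (hb : pb.eval b = 0) :
    ∃ y, p.eval y = 0 ∧ V.v (y - algebraMap k Ω b) < 1 := by
  classical
  have h1 := Red.card_cluster (V := V) h h0 b
  have h2 : 0 < pb.rootMultiplicity b := (rootMultiplicity_pos h0).mpr hb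
  rw [← h1, Multiset.card_pos_iff_exists_mem] at h2
  obtain ⟨y, hy⟩ := h2
  rw [Multiset.mem_filter] at hy
  exact ⟨y, isRoot_of_mem_roots hy.1, hy.2⟩

open Classical in
theorem card_cluster_le [IsAlgClosed Ω] (p : Polynomial Ω) (pb : k[X]) (h0 : pb ≠ 0)
    (h : ∀ i, V.v (p.coeff i - algebraMap k Ω (pb.coeff i)) < 1) (b : k) :
    (p.roots.filter fun y => V.v (y - algebraMap k Ω b) < 1).card ≤ pb.rootMultiplicity b :=
  (Red.card_cluster (V := V) h h0 b).le

theorem v_aeval_of_lt_one {x : Ω} (hx : V.v x < 1) {p : k[X]} (hp : p ≠ 0) :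
    V.v (aeval x p) = V.v x ^ p.natTrailingDegree := by
  obtain ⟨q, hq, hq'⟩ := exists_eq_pow_rootMultiplicity_mul_and_not_dvd p hp 0
  rw [rootMultiplicity_eq_natTrailingDegree', map_zero, sub_zero] at hq
  rw [map_zero, sub_zero, X_dvd_iff, coeff_zero_eq_eval_zero] at hq'
  have h1 := (Red.map (V := V) q).eval (y := x) (b := 0) (by simpa using hx)
  have h2 := V.eq_one_of_res hq' h1
  rw [eval_map_algebraMap] at h2
  conv_lhs => rw [hq]
  rw [map_mul, map_mul, h2, mul_one, map_pow, aeval_X, map_pow]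

theorem v_aeval_of_one_lt {x : Ω} (hx : 1 < V.v x) {p : k[X]} (hp : p ≠ 0) :
    V.v (aeval x p) = V.v x ^ p.natDegree := by
  have hx0 : x ≠ 0 := by rintro rfl; simp at hx
  have hi : V.v x⁻¹ < 1 := by rw [map_inv₀]; exact inv_lt_one_of_one_lt₀ hx
  have h1 := V.v_aeval_of_lt_one hi (p := p.reverse) (by simpa using hp)
  rw [natTrailingDegree_reverse, pow_zero] at h1
  let _ := invertibleOfNonzero hx0
  have h2 := eval₂_reverse_mul_pow (algebraMap k Ω) x p
  rw [invOf_eq_inv] at h2
  rw [aeval_def] at h1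
  rw [aeval_def, ← h2, map_mul, h1, one_mul, map_pow]

theorem v_aeval_τ {p : k[X]} (hp : p ≠ 0) : V.v (aeval V.τ p) = V.v V.τ ^ p.natTrailingDegree :=
  V.v_aeval_of_lt_one V.τ_lt hp

theorem v_aeval_τ_inv {p : k[X]} (hp : p ≠ 0) :
    V.v (aeval V.τ⁻¹ p) = (V.v V.τ)⁻¹ ^ p.natDegree := by
  rw [V.v_aeval_of_one_lt _ hp, map_inv₀]
  rw [map_inv₀]
  exact (one_lt_inv₀ V.τ_pos).mpr V.τ_lt

theorem transcendental_of_lt_one {x : Ω} (hx0 : x ≠ 0) (hx : V.v x < 1) : Transcendental k x := by
  rintro ⟨p, hp, h⟩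
  have := V.v_aeval_of_lt_one hx hp
  rw [h, map_zero] at this
  exact pow_ne_zero _ ((V.v.ne_zero_iff).mpr hx0) this.symm

theorem transcendental_τ : Transcendental k V.τ := V.transcendental_of_lt_one V.τ_ne V.τ_lt

end Val

end Pool.Agent.Lib.MP_346d6a_co
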