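import Pool.Agent.Lib.MP_346d6a_co.VApi

/-!
The algebraic closure of the field of Laurent series with its spectral norm (helper94).
-/

set_option maxHeartbeats 400000

namespace Pool.Agent.Lib.MP_346d6a_co

open Polynomial

theorem existsVal_of_complete (k : Type) [Field k] [IsAlgClosed k] (φ : k ≃+* k) (L : Type)
    [NontriviallyNormedField L] [IsUltrametricDist L] [CompleteSpace L] (ι : k →+* L) (τ : L)
    (hτ0 : τ ≠ 0) (hτ : ‖τ‖ < 1) (hc : ∀ c : k, c ≠ 0 → ‖ι c‖ = 1)
    (hres : ∀ x : L, ‖x‖ ≤ 1 → ∃ c : k, ‖x - ι c‖ < 1) (ψ : L ≃+* L) (hψτ : ψ τ = τ)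
    (hψc : ∀ c, ψ (ι c) = ι (φ c)) (hψ : ∀ x, ‖ψ x‖ = ‖x‖) :
    ∃ (Ω : Type) (_ : Field Ω) (_ : IsAlgClosed Ω) (_ : Algebra k Ω) (V : Val k Ω)
      (g : Ω ≃+* Ω), g V.τ = V.τ ∧ (∀ c, g (algebraMap k Ω c) = algebraMap k Ω (φ c)) ∧
      ∀ x, V.v (g x) = V.v x := by
  let A := AlgebraicClosure L
  let _ : NormedField A := spectralNorm.normedField L A
  have hn : ∀ x : A, ‖x‖ = spectralNorm L A x := fun _ => rfl
  have hext : ∀ x : L, ‖algebraMap L A x‖ = ‖x‖ := fun x => spectralNorm_extends x
  have : IsUltrametricDist A :=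
    IsUltrametricDist.isUltrametricDist_of_forall_norm_add_le_max_norm
      (isNonarchimedean_spectralNorm (K := L) (L := A))
  let _ : Algebra k A := ((algebraMap L A).comp ι).toAlgebra
  have hal : ∀ c, algebraMap k A c = algebraMap L A (ι c) := fun _ => rfl
  let v : Valuation A NNReal := NormedField.valuation
  have hv : ∀ x, ((v x : NNReal) : ℝ) = ‖x‖ := fun _ => rfl
  have hv1 : ∀ x, v x < 1 ↔ ‖x‖ < 1 := fun x => by rw [← hv]; norm_cast
  have hv2 : ∀ x, v x ≤ 1 ↔ ‖x‖ ≤ 1 := fun x => by rw [← hv]; norm_cast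
  have hconst : ∀ c : k, c ≠ 0 → v (algebraMap k A c) = 1 := by
    intro c h0
    apply NNReal.eq
    rw [hv, hal, hext, hc c h0]; rfl
  have hR : ∀ x, v x ≤ 1 → ∃ c : k, v (x - algebraMap k A c) < 1 := by
    intro x hx
    have hint : IsIntegral L x := Algebra.IsIntegral.isIntegral x
    have hm := minpoly.monic hint
    have hco : ∀ i, ‖(minpoly L x).coeff i‖ ≤ 1 :=
      (spectralValue_le_one_iff hm).mp ((hv2 x).mp hx)
    choose c hcc using fun i => hres _ (hco i)
    set n := (minpoly L x).natDegree with hnd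
    let pb : k[X] := X ^ n + ∑ i ∈ Finset.range n, C (c i) * X ^ i
    have hdeg : (∑ i ∈ Finset.range n, C (c i) * X ^ i : k[X]).degree < n := by
      refine (degree_sum_le _ _).trans_lt
        ((Finset.sup_lt_iff (WithBot.bot_lt_coe n)).mpr fun i hi => ?_)
      exact (degree_C_mul_X_pow_le _ _).trans_lt (WithBot.coe_lt_coe.mpr (Finset.mem_range.mp hi))
    have hpm : pb.Monic := monic_X_pow_add hdeg
    have h0 : x ^ n + ∑ i ∈ Finset.range n, algebraMap L A ((minpoly L x).coeff i) * x ^ i = 0 := by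
      have := minpoly.aeval L x
      rw [hm.as_sum] at this
      simpa using this
    have h1 : aeval x pb = ∑ i ∈ Finset.range n,
        -(algebraMap L A ((minpoly L x).coeff i - ι (c i)) * x ^ i) := by
      simp only [pb, map_add, map_pow, aeval_X, map_sum, map_mul, aeval_C, hal, map_sub]
      rw [eq_neg_of_add_eq_zero_left h0, ← Finset.sum_neg_distrib, ← Finset.sum_add_distrib]
      exact Finset.sum_congr rfl fun i _ => by ring
    have h2 : v (aeval x pb) < 1 := by
      rw [h1]
      refine v.map_sum_lt one_ne_zero fun i _ => ?_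
      rw [Valuation.map_neg, map_mul, map_pow]
      refine mul_lt_one_of_nonneg_of_lt_one_left zero_le ?_ (pow_le_one₀ zero_le hx)
      rw [hv1, hext]
      exact hcc i
    by_contra hne
    push Not at hne
    rw [(IsAlgClosed.splits pb).eq_prod_roots_of_monic hpm, map_multiset_prod, map_multiset_prod,
      Multiset.map_map, Multiset.map_map] at h2
    refine absurd h2 (not_lt.mpr (Multiset.one_le_prod_of_one_le ?_))
    intro z hz
    obtain ⟨b, -, rfl⟩ := Multiset.mem_map.mp hz
    simpa using hne b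
  let g : A ≃+* A := IsAlgClosure.equivOfEquiv A A ψ
  have hg : ∀ x : L, g (algebraMap L A x) = algebraMap L A (ψ x) := fun x =>
    IsAlgClosure.equivOfEquiv_algebraMap A A ψ x
  refine ⟨A, inferInstance, inferInstance, inferInstance,
    ⟨v, algebraMap L A τ, by simpa using hτ0, by rw [hv1, hext]; exact hτ, hconst, hR⟩, g,
    by simp only [hg, hψτ], fun c => by rw [hal, hal, hg, hψc], fun x => ?_⟩
  apply NNReal.eq
  let f : AbsoluteValue A ℝ := (NormedField.toAbsoluteValue A).comp (f := (g : A →+* A)) g.injective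
  have hf : ∀ x, f x = ‖g x‖ := fun _ => rfl
  have := spectralNorm_unique_field_norm_ext (K := L) (L := A) (f := f)
    (fun x => by rw [hf, hg, hext, hψ]) x
  rw [hf] at this
  exact this

open LaurentSeries WithZero

/-- The coefficientwise action on Laurent series. -/
noncomputable def lsMap {k : Type} [Field k] (φ : k ≃+* k) : LaurentSeries k ≃+* LaurentSeries k where
  toFun x := x.map φ
  invFun x := x.map φ.symm
  left_inv x := by ext; simp
  right_inv x := by ext; simp
  map_mul' x y := HahnSeries.map_mul (φ : k →ₙ+* k)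
  map_add' x y := by ext; simp

theorem lsMap_coeff {k : Type} [Field k] (φ : k ≃+* k) (x : LaurentSeries k) (n : ℤ) :
    (lsMap φ x).coeff n = φ (x.coeff n) := rfl

theorem v_lsMap_le {k : Type} [Field k] (φ : k ≃+* k) (x : LaurentSeries k) :
    Valued.v (lsMap φ x) ≤ Valued.v x := by
  by_cases hx : x = 0
  · simp [hx]
  have h0 : Valued.v x ≠ 0 := by simpa using hx
  rw [valuation_le_iff_coeff_lt_log_eq_zero k h0]
  intro n hn
  rw [lsMap_coeff, (valuation_le_iff_coeff_lt_log_eq_zero k h0).mp le_rfl n hn, map_zero]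

theorem v_lt_one_iff {k : Type} [Field k] (x : LaurentSeries k) :
    Valued.v x < 1 ↔ ∀ n : ℤ, n < 1 → x.coeff n = 0 := by
  rw [← valuation_le_iff_coeff_lt_eq_zero]
  by_cases h0 : Valued.v x = 0
  · simp [h0]
  rw [← exp_log h0, ← exp_zero, exp_lt_exp, exp_le_exp]
  omega

open scoped Valued in
theorem existsVal : ExistsVal := by
  intro k _ _ φ
  have hX : Valued.v (HahnSeries.single (1 : ℤ) (1 : k) : LaurentSeries k) = exp (-1 : ℤ) :=
    valuation_single_zpow k 1
  have : (Valued.v : Valuation (LaurentSeries k) (WithZero (Multiplicative ℤ))).IsNontrivial :=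
    ⟨⟨HahnSeries.single (1 : ℤ) (1 : k), by rw [hX]; simp, by rw [hX, ← exp_zero]; simp⟩⟩
  let _ : (Valued.v : Valuation (LaurentSeries k) (WithZero (Multiplicative ℤ))).RankOne :=
    Valuation.IsRankOneDiscrete.rankOne _ (e := 2) one_lt_two
  refine existsVal_of_complete k φ (LaurentSeries k) HahnSeries.C (HahnSeries.single (1 : ℤ) (1 : k))
    (by simp) ?_ ?_ ?_ (lsMap φ) ?_ ?_ ?_
  · rw [Valued.toNormedField.norm_lt_one_iff, hX, ← exp_zero, exp_lt_exp]
    omega
  · intro c hc
    apply le_antisymm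
    · rw [Valued.toNormedField.norm_le_one_iff, ← exp_zero, ← neg_zero,
        valuation_le_iff_coeff_lt_eq_zero]
      intro n hn
      rw [HahnSeries.C_apply, HahnSeries.coeff_single_of_ne hn.ne]
    · rw [Valued.toNormedField.one_le_norm_iff, ← not_lt, v_lt_one_iff]
      intro h
      exact hc (by simpa using h 0 one_pos)
  · intro x hx
    rw [Valued.toNormedField.norm_le_one_iff, ← exp_zero, ← neg_zero,
      valuation_le_iff_coeff_lt_eq_zero] at hx
    refine ⟨x.coeff 0, ?_⟩
    rw [Valued.toNormedField.norm_lt_one_iff, v_lt_one_iff]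
    intro n hn
    rw [HahnSeries.coeff_sub, HahnSeries.C_apply]
    rcases eq_or_lt_of_le (by omega : n ≤ 0) with rfl | h
    · simp
    · rw [hx n h, HahnSeries.coeff_single_of_ne h.ne, sub_zero]
  · ext n
    rw [lsMap_coeff, HahnSeries.coeff_single]
    split_ifs <;> simp
  · intro c
    ext n
    rw [lsMap_coeff, HahnSeries.C_apply, HahnSeries.C_apply, HahnSeries.coeff_single,
      HahnSeries.coeff_single]
    split_ifs <;> simp
  · intro x
    apply le_antisymm
    · rw [Valued.toNormedField.norm_le_iff]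
      exact v_lsMap_le φ x
    · rw [Valued.toNormedField.norm_le_iff]
      have := v_lsMap_le φ.symm (lsMap φ x)
      rwa [show lsMap φ.symm (lsMap φ x) = x from (lsMap φ).left_inv x] at this

end Pool.Agent.Lib.MP_346d6a_co
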