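import Pool.Agent.Lib.MP_346d6a_co.Core

/-!
A fixed simple root over a transcendental extension gives a fixed point (helper94).
-/

set_option maxHeartbeats 400000

namespace Pool.Agent.Lib.MP_346d6a_co

open Polynomial

theorem exists_irred_factor {R S : Type} [CommRing R] [IsDomain R] [WfDvdMonoid R] [Field S]
    (ψ : R →+* S) (E : R) (hE : E ≠ 0) (h : ψ E = 0) : ∃ P, Irreducible P ∧ P ∣ E ∧ ψ P = 0 := by
  induction E using WfDvdMonoid.induction_on_irreducible with
  | zero => exact (hE rfl).elim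
  | unit u hu => exact ((hu.map ψ).ne_zero h).elim
  | mul a i ha hi ih =>
    rw [map_mul, mul_eq_zero] at h
    rcases h with h | h
    · exact ⟨i, hi, dvd_mul_right _ _, h⟩
    · obtain ⟨P, h1, h2, h3⟩ := ih ha h
      exact ⟨P, h1, h2.mul_left _, h3⟩

theorem dvd_of_aevalAeval_eq_zero {k L : Type} [Field k] [Field L] [Algebra k L] {τ y : L}
    (hτ : Transcendental k τ) {P Q : k[X][X]} (hP : Irreducible P) (h1 : aevalAeval τ y P = 0)
    (h2 : aevalAeval τ y Q = 0) : P ∣ Q := by
  have hinj : Function.Injective (aeval τ : k[X] →ₐ[k] L) := transcendental_iff_injective.mp hτ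
  have hdeg : P.natDegree ≠ 0 := by
    intro h0
    rw [eq_C_of_natDegree_eq_zero h0] at h1 hP
    have : P.coeff 0 = 0 := hinj (by simpa using h1)
    rw [this] at hP
    simp at hP
  have hprim := hP.isPrimitive hdeg
  let K := FractionRing k[X]
  let l : K →+* L := IsFractionRing.lift (g := ((aeval τ : k[X] →ₐ[k] L) : k[X] →+* L)) hinj
  have hl : ∀ R : k[X][X], eval₂ l y (R.map (algebraMap k[X] K)) = aevalAeval τ y R := by
    intro R
    induction R using Polynomial.induction_on' with
    | add p q hp hq => rw [Polynomial.map_add, eval₂_add, hp, hq, map_add]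
    | monomial n a =>
      rw [← C_mul_X_pow_eq_monomial]
      simp [l]
  have hirr : Irreducible (P.map (algebraMap k[X] K)) :=
    (hprim.irreducible_iff_irreducible_map_fraction_map (K := K)).mp hP
  rw [hprim.dvd_iff_fraction_map_dvd_fraction_map K]
  by_contra hnd
  obtain ⟨A, B, hAB⟩ := (hirr.coprime_iff_not_dvd).mpr hnd
  have := congrArg (eval₂ l y) hAB
  rw [eval₂_add, eval₂_mul, eval₂_mul, hl, hl, h1, h2] at this
  simp at this

theorem rootLemma : RootLemma := by
  intro k _ φ hPAC L _ _ g τ y hτ hgτ hgy hg E h hE hE' hh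
  have hE0 : E ≠ 0 := by rintro rfl; simp at hE'
  obtain ⟨P₁, hP₁, hd₁, hz₁⟩ :=
    exists_irred_factor ((aevalAeval τ y : k[X][X] →ₐ[k] L) : k[X][X] →+* L) E hE0 hE
  have ha : P₁.leadingCoeff.leadingCoeff ≠ 0 := by simpa using hP₁.ne_zero
  set P := C (C (P₁.leadingCoeff.leadingCoeff)⁻¹) * P₁ with hPdef
  have hu : IsUnit (C (C (P₁.leadingCoeff.leadingCoeff)⁻¹) : k[X][X]) :=
    isUnit_C.mpr (isUnit_C.mpr (inv_ne_zero ha).isUnit)
  have hP : Irreducible P := (irreducible_isUnit_mul hu).mpr hP₁
  have hd : P ∣ E := (hu.mul_left_dvd).mpr hd₁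
  have hz : aevalAeval τ y P = 0 := by
    rw [hPdef, map_mul]
    exact mul_eq_zero_of_right _ hz₁
  have hlc : P.leadingCoeff.leadingCoeff = 1 := by
    rw [hPdef, leadingCoeff_mul, leadingCoeff_mul, leadingCoeff_C, leadingCoeff_C,
      inv_mul_cancel₀ ha]
  have hcomm : ∀ R : k[X][X],
      aevalAeval τ y (R.map (mapRingHom (φ : k →+* k))) = g (aevalAeval τ y R) := by
    have h1 : ∀ a : k[X], aeval τ (a.map (φ : k →+* k)) = g (aeval τ a) := by
      intro a
      induction a using Polynomial.induction_on' with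
      | add p q hp hq => rw [Polynomial.map_add, map_add, hp, hq, map_add, map_add]
      | monomial n a =>
        rw [← C_mul_X_pow_eq_monomial]
        simp [hg, hgτ]
    intro R
    induction R using Polynomial.induction_on' with
    | add p q hp hq => rw [Polynomial.map_add, map_add, hp, hq, map_add, map_add]
    | monomial n a =>
      rw [← C_mul_X_pow_eq_monomial]
      simp [h1, hgy]
  have hφinj : Function.Injective (mapRingHom (φ : k →+* k)) :=
    Polynomial.map_injective _ φ.injective
  have hirr : Irreducible (P.map (mapRingHom (φ : k →+* k))) :=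
    (MulEquiv.irreducible_iff (mapEquiv (mapEquiv φ))).mpr hP
  have hfix : P.map (mapRingHom (φ : k →+* k)) = P := by
    obtain ⟨R, hR⟩ := dvd_of_aevalAeval_eq_zero hτ hP hz (Q := P.map (mapRingHom (φ : k →+* k)))
      (by rw [hcomm, hz, map_zero])
    have hRu : IsUnit R := (hirr.isUnit_or_isUnit hR).resolve_left hP.not_isUnit
    obtain ⟨r, hr, rfl⟩ := isUnit_iff.mp hRu
    obtain ⟨c, -, rfl⟩ := isUnit_iff.mp hr
    have h1 := congrArg (fun Q : k[X][X] => Q.leadingCoeff.leadingCoeff) hR
    simp only [leadingCoeff_mul, leadingCoeff_C, hlc, one_mul] at h1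
    rw [leadingCoeff_map_of_injective hφinj, coe_mapRingHom,
      leadingCoeff_map_of_injective φ.injective, hlc, map_one] at h1
    rw [hR, ← h1]
    simp
  obtain ⟨Q, hQ⟩ := hd
  have hder : derivative P ≠ 0 := by
    intro h0
    apply hE'
    rw [hQ, derivative_mul, h0, zero_mul, zero_add, map_mul, hz, zero_mul]
  have hnd : ¬ P ∣ h := by
    rintro ⟨R, rfl⟩
    exact hh (by rw [map_mul, hz, zero_mul])
  obtain ⟨x₀, y₀, h1, h2, h3, h4⟩ := hPAC P h hP hfix hder hnd
  exact ⟨x₀, y₀, h1, h2, by rw [hQ, evalEval_mul, h3, zero_mul], h4⟩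

end Pool.Agent.Lib.MP_346d6a_co
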