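import Pool.Agent.Lib.MP_346d6a_co.TDefs
import Pool.Agent.Lib.MP_346d6a_co.VApi
import Pool.Agent.Lib.MP_346d6a_co.VExists
import Pool.Agent.Lib.MP_346d6a_co.VRoot

/-!
The tame case: evaluation, generic points, colours.
-/

set_option maxSynthPendingDepth 3

namespace Pool.Agent.Lib.MP_346d6a_co

open Polynomial

variable {k : Type} [Field k] {Ω : Type} [Field Ω] [Algebra k Ω]

section ev

variable (s x y : Ω)

@[simp] theorem ev2_C (p : k[X]) : ev2 s x (C p) = aeval s p := by simp [ev2]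

@[simp] theorem ev2_X : ev2 (k := k) s x X = x := by simp [ev2]

theorem ev2_eq (h : k[X][X]) :
    ev2 s x h = (h.map ((aeval s : k[X] →ₐ[k] Ω) : k[X] →+* Ω)).eval x := by
  induction h using Polynomial.induction_on' with
  | add p q hp hq => rw [map_add, hp, hq, Polynomial.map_add, eval_add]
  | monomial n a => simp [← C_mul_X_pow_eq_monomial]

@[simp] theorem ev2_map_C (p : k[X]) : ev2 s x (p.map C) = aeval x p := by
  induction p using Polynomial.induction_on' with
  | add p q hp hq => rw [Polynomial.map_add, map_add, hp, hq, map_add]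
  | monomial n a => simp [← C_mul_X_pow_eq_monomial]

theorem ev2_taylor (h : k[X][X]) : ev2 s x (taylor X h) = ev2 s (x + s) h := by
  induction h using Polynomial.induction_on' with
  | add p q hp hq => rw [map_add, map_add, hp, hq, map_add]
  | monomial n a => simp [← C_mul_X_pow_eq_monomial]

theorem ev2_DD (f : k[X]) : ev2 s x (DD f) = aeval (x + s) f + aeval x f := by
  rw [DD, map_add, ev2_taylor, ev2_map_C, ev2_map_C]

theorem ev2_self (a b : k) (h : k[X][X]) : ev2 a b h = h.evalEval a b := by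
  rw [ev2_eq, ← map_evalRingHom_eval]
  congr 2

@[simp] theorem ev3_C (h : k[X][X]) : ev3 s x y (C h) = ev2 s x h := by simp [ev3]

@[simp] theorem ev3_X : ev3 (k := k) s x y X = y := by simp [ev3]

theorem ev3_eq (P : k[X][X][X]) : ev3 s x y P = (P.map (ev2 s x)).eval y := by
  rw [ev3, coe_eval₂RingHom, eval_map]

@[simp] theorem ev3_map_C (h : k[X][X]) : ev3 s x y (h.map C) = ev2 s y h := by
  induction h using Polynomial.induction_on' with
  | add p q hp hq => rw [Polynomial.map_add, map_add, hp, hq, map_add]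
  | monomial n a => simp [← C_mul_X_pow_eq_monomial]

theorem ev3_SS (h : k[X][X]) : ev3 s x y (SS h) = ev2 s y h + ev2 s x h := by
  rw [SS, map_add, ev3_map_C, ev3_C]

theorem ev3_FF (f : k[X]) : ev3 s x y (FF f) =
    aeval (y + s) f + aeval y f + (aeval (x + s) f + aeval x f) := by
  rw [FF, ev3_SS, ev2_DD, ev2_DD]

theorem ev3_triv : ev3 s x y (triv k) = s * (y + x) * (y + x + s) := by simp [triv]

theorem ev3_swap (P : k[X][X][X]) : ev3 s x y (Bivariate.swap P) = ev3 s y x P := by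
  have : (ev3 s x y).comp (Bivariate.swap (R := k[X]) : k[X][X][X] →+* k[X][X][X]) =
      ev3 s y x := by
    ext <;> simp [Bivariate.swap_apply]
  exact RingHom.congr_fun this P

/-- Evaluation commutes with a map of fields that is semilinear over `φ`. -/
theorem map_ev3 {Ω' : Type} [Field Ω'] [Algebra k Ω'] (φ : k →+* k) (j : Ω →+* Ω')
    (hj : ∀ c, j (algebraMap k Ω c) = algebraMap k Ω' (φ c)) (P : k[X][X][X]) :
    j (ev3 s x y P) = ev3 (j s) (j x) (j y) (mp3 φ P) := by
  have : j.comp (ev3 s x y) = (ev3 (j s) (j x) (j y)).comp (mp3 φ) := by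
    ext <;> simp [mp3, mp2, hj]
  exact RingHom.congr_fun this P

end ev

/-- Polynomials over an infinite field are determined by their values. -/
theorem ext_ev2 [Infinite k] {p q : k[X][X]} (h : ∀ a b : k, p.evalEval a b = q.evalEval a b) :
    p = q := by
  have h1 : ∀ a : k, p.map (evalRingHom a) = q.map (evalRingHom a) := fun a =>
    Polynomial.funext fun b => by rw [map_evalRingHom_eval, map_evalRingHom_eval, h]
  ext1 i
  refine Polynomial.funext fun a => ?_
  simpa using congrArg (fun r => r.coeff i) (h1 a)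

theorem ext_ev3 [Infinite k] {P Q : k[X][X][X]}
    (h : ∀ s x y : k, ev3 s x y P = ev3 s x y Q) : P = Q := by
  have h1 : ∀ s x : k, P.map (ev2 s x) = Q.map (ev2 s x) := fun s x =>
    Polynomial.funext fun y => by rw [← ev3_eq, ← ev3_eq, h]
  ext1 i
  refine ext_ev2 fun a b => ?_
  simpa [ev2_self] using congrArg (fun r => r.coeff i) (h1 a b)

section mp

variable (φ : k →+* k)

theorem mp2_DD (f : k[X]) : mp2 φ (DD f) = DD (f.map φ) := by
  simp [mp2, DD, Polynomial.map_map, mapRingHom_comp_C]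

theorem mp3_C (h : k[X][X]) : mp3 φ (C h) = C (mp2 φ h) := by simp [mp3]

theorem mp3_SS (h : k[X][X]) : mp3 φ (SS h) = SS (mp2 φ h) := by
  simp [mp3, mp2, SS, Polynomial.map_map, mapRingHom_comp_C]

theorem mp3_FF (f : k[X]) : mp3 φ (FF f) = FF (f.map φ) := by rw [FF, mp3_SS, mp2_DD, FF]

/-- The action of an automorphism on `k[s][x][y]`. -/
noncomputable def mp3E (φ : k ≃+* k) : k[X][X][X] ≃+* k[X][X][X] :=
  mapEquiv (mapEquiv (mapEquiv φ))

theorem mp3E_apply (φ : k ≃+* k) (P : k[X][X][X]) : mp3E φ P = mp3 (φ : k →+* k) P := rfl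

theorem mp3_bijective (φ : k ≃+* k) : Function.Bijective (mp3 (φ : k →+* k)) :=
  (mp3E φ).bijective

theorem mp3_refl (P : k[X][X][X]) : mp3 ((RingEquiv.refl k : k ≃+* k) : k →+* k) P = P := by
  simp [mp3, mp2]

theorem mem_map_mp3 (φ : k ≃+* k) (I : Ideal k[X][X][X]) (P : k[X][X][X]) :
    mp3 (φ : k →+* k) P ∈ I.map (mp3 (φ : k →+* k)) ↔ P ∈ I := by
  rw [← Ideal.mem_comap, Ideal.comap_map_of_bijective _ (mp3_bijective φ)]

end mp

section deg

theorem coeff_DD_eq (f : k[X]) (m : ℕ) : (DD f).coeff m = hasseDeriv m f + C (f.coeff m) := by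
  have h : hasseDeriv m (f.map (C : k →+* k[X])) = (hasseDeriv m f).map C := by
    ext1 i
    simp [hasseDeriv_coeff]
  rw [DD, coeff_add, taylor_coeff, h, eval_map, eval₂_C_X, coeff_map]

theorem coeff_DD [CharP k 2] (f : k[X]) (m i : ℕ) : ((DD f).coeff m).coeff i =
    if i = 0 then 0 else ((m + i).choose i : k) * f.coeff (m + i) := by
  rw [coeff_DD_eq, coeff_add, hasseDeriv_coeff, coeff_C]
  split_ifs with h
  · subst h
    simp [CharTwo.add_self_eq_zero]
  · rw [add_zero, add_comm i m, Nat.choose_symm_add]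

theorem coeff_DD_one [CharP k 2] (f : k[X]) (m : ℕ) :
    ((DD f).coeff m).coeff 1 = (derivative f).coeff m := by
  rw [coeff_DD, if_neg one_ne_zero, coeff_derivative, Nat.choose_one_right, mul_comm]
  push_cast
  rfl

theorem natDegree_derivative_le_DD [CharP k 2] (f : k[X]) :
    (derivative f).natDegree ≤ (DD f).natDegree := by
  rw [natDegree_le_iff_coeff_eq_zero]
  intro j hj
  rw [← coeff_DD_one, coeff_eq_zero_of_natDegree_lt hj, coeff_zero]

theorem natDegree_DD_ne [CharP k 2] {f : k[X]} (h : (derivative f).natDegree ≠ 0) :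
    (DD f).natDegree ≠ 0 := by
  have := natDegree_derivative_le_DD f
  omega

theorem derivative_DD (f : k[X]) : derivative (DD f) = DD (derivative f) := by
  simp [DD, taylor_apply, derivative_comp, derivative_map]

theorem DD_ne_zero [CharP k 2] {f : k[X]} (h : f.natDegree ≠ 0) : DD f ≠ 0 := fun h0 => by
  have := coeff_DD f 0 f.natDegree
  rw [h0, if_neg h, zero_add, Nat.choose_self, Nat.cast_one, one_mul] at this
  exact h (by rw [leadingCoeff_eq_zero.1 this.symm, natDegree_zero])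

theorem natDegree_SS (h : k[X][X]) : (SS h).natDegree = h.natDegree := by
  rw [SS, natDegree_add_C, natDegree_map_eq_of_injective C_injective]

theorem leadingCoeff_SS {h : k[X][X]} (hh : h.natDegree ≠ 0) :
    (SS h).leadingCoeff = C h.leadingCoeff := by
  rw [leadingCoeff, natDegree_SS, SS, coeff_add, coeff_C_of_ne_zero hh, add_zero, coeff_map,
    leadingCoeff]

theorem SS_ne_zero {h : k[X][X]} (hh : h.natDegree ≠ 0) : SS h ≠ 0 := fun h0 =>
  hh (by rw [← natDegree_SS, h0, natDegree_zero])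

theorem eval_zero_SS {h : k[X][X]} (h0 : h.coeff 0 = 0) : (SS h).eval 0 = h := by
  rw [SS, eval_add, eval_C, ← coeff_zero_eq_eval_zero, coeff_map, h0, map_zero, zero_add]

theorem FF_ne_zero [CharP k 2] {f : k[X]} (h : (derivative f).natDegree ≠ 0) : FF f ≠ 0 :=
  SS_ne_zero (natDegree_DD_ne h)

end deg

section gen

variable {s x y : Ω}

theorem Gen.aeval_inj (h : Gen k s x) : Function.Injective (aeval s : k[X] →ₐ[k] Ω) :=
  fun p q hpq => C_injective (h (by simpa using hpq))

theorem Gen.aeval_ne (h : Gen k s x) {p : k[X]} (hp : p ≠ 0) : aeval s p ≠ 0 :=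
  fun h0 => hp (h.aeval_inj (by rw [h0, map_zero]))

theorem Gen.ev2_ne (h : Gen k s x) {p : k[X][X]} (hp : p ≠ 0) : ev2 s x p ≠ 0 :=
  fun h0 => hp (h (by rw [h0, map_zero]))

theorem Gen.s_ne (h : Gen k s x) : s ≠ 0 := by simpa using h.aeval_ne X_ne_zero

/-- Another solution of `h (s, y) = h (s, x)` is again generic. -/
theorem Gen.root (hx : Gen k s x) {h : k[X][X]} (hh : h.natDegree ≠ 0)
    (hy : ev2 s y h = ev2 s x h) : Gen k s y := by
  let _ : Algebra k[X] Ω := ((aeval s : k[X] →ₐ[k] Ω) : k[X] →+* Ω).toAlgebra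
  have e : ∀ (z : Ω) (p : k[X][X]), ev2 s z p = (aeval z : k[X][X] →ₐ[k[X]] Ω) p := fun z p => by
    rw [ev2_eq, aeval_def, eval_map]
    rfl
  have h1 : Transcendental k[X] x :=
    transcendental_iff_injective.2 fun p q hpq => hx (by rw [e, e, hpq])
  have h2 := h1.aeval h hh (mem_nonZeroDivisors_of_ne_zero (leadingCoeff_ne_zero.2 (by
    rintro rfl
    exact hh natDegree_zero)))
  rw [← e, ← hy, e] at h2
  have h3 : Transcendental k[X] y := fun ha => h2 (by
    have : Algebra.adjoin k[X] {y} ≤ Subalgebra.algebraicClosure k[X] Ω :=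
      Algebra.adjoin_le (Set.singleton_subset_iff.2 ha)
    exact this (aeval_mem_adjoin_singleton _ _))
  intro p q hpq
  exact transcendental_iff_injective.1 h3 (by rw [← e, ← e, hpq])

theorem Gen.add (hx : Gen k s x) : Gen k s (x + s) := fun p q hpq =>
  taylor_injective X (hx (by rw [ev2_taylor, ev2_taylor, hpq]))

theorem Gen.natDegree_ne (hx : Gen k s x) {P : k[X][X][X]} (hP : P ≠ 0) (h : ev3 s x y P = 0) :
    P.natDegree ≠ 0 := fun h0 => by
  rw [eq_C_of_natDegree_eq_zero h0] at h hP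
  rw [ev3_C] at h
  exact hx.ev2_ne (fun h1 => hP (by rw [h1, map_zero])) h

/-- The relations of a generic point of an irreducible surface. -/
theorem Gen.dvd_iff (hx : Gen k s x) {P : k[X][X][X]} (hP : Irreducible P)
    (h1 : ev3 s x y P = 0) (Q : k[X][X][X]) : ev3 s x y Q = 0 ↔ P ∣ Q := by
  refine ⟨fun h2 => ?_, by rintro ⟨R, rfl⟩; rw [map_mul, h1, zero_mul]⟩
  have hprim := hP.isPrimitive (hx.natDegree_ne hP.ne_zero h1)
  let K := FractionRing k[X][X]
  let l : K →+* Ω := IsFractionRing.lift (g := ev2 s x) hx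
  have hl : ∀ R : k[X][X][X], eval₂ l y (R.map (algebraMap k[X][X] K)) = ev3 s x y R := by
    intro R
    rw [eval₂_map, ev3, coe_eval₂RingHom]
    congr 1
    exact RingHom.ext fun a => by simp [l]
  have hirr : Irreducible (P.map (algebraMap k[X][X] K)) :=
    (hprim.irreducible_iff_irreducible_map_fraction_map (K := K)).mp hP
  rw [hprim.dvd_iff_fraction_map_dvd_fraction_map K]
  by_contra hnd
  obtain ⟨A, B, hAB⟩ := (hirr.coprime_iff_not_dvd).mpr hnd
  have := congrArg (eval₂ l y) hAB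
  rw [eval₂_add, eval₂_mul, eval₂_mul, hl, hl, h1, h2] at this
  simp at this

theorem mem_col {P : k[X][X][X]} : P ∈ col k s x y ↔ ev3 s x y P = 0 := RingHom.mem_ker

theorem col_eq_iff {s' x' y' : Ω} : col k s x y = col k s' x' y' ↔
    ∀ P : k[X][X][X], (ev3 s x y P = 0 ↔ ev3 s' x' y' P = 0) := by
  simp only [Ideal.ext_iff, mem_col]

theorem Gen.col_eq (hx : Gen k s x) {P : k[X][X][X]} (hP : Irreducible P)
    (h1 : ev3 s x y P = 0) : col k s x y = Ideal.span {P} := by
  ext Q
  rw [mem_col, hx.dvd_iff hP h1, Ideal.mem_span_singleton]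

theorem col_swap {x' y' : Ω} (h : col k s x y = col k s x' y') : col k s y x = col k s y' x' := by
  rw [col_eq_iff] at h ⊢
  intro P
  rw [← ev3_swap, ← ev3_swap s x' y', h]

/-- Two generic points of a surface have the same colour unless they lie on two factors. -/
theorem col_eq_of {x₁ x₂ y₁ y₂ : Ω} (h₁ : Gen k s x₁) (h₂ : Gen k s x₂) {G : k[X][X][X]}
    (hG : G ≠ 0) (g₁ : ev3 s x₁ y₁ G = 0) (g₂ : ev3 s x₂ y₂ G = 0)
    (h : ∀ P₁ P₂ : k[X][X][X], Irreducible P₁ → Irreducible P₂ → P₁ * P₂ ∣ G →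
      ev3 s x₁ y₁ P₁ = 0 → ev3 s x₂ y₂ P₂ = 0 → False) : col k s x₁ y₁ = col k s x₂ y₂ := by
  obtain ⟨P₁, i₁, d₁, z₁⟩ := exists_irred_factor _ G hG g₁
  obtain ⟨P₂, i₂, d₂, z₂⟩ := exists_irred_factor _ G hG g₂
  have h3 : P₁ ∣ P₂ := by
    by_contra hn
    exact h P₁ P₂ i₁ i₂ ((i₁.isRelPrime_iff_not_dvd.2 hn).mul_dvd d₁ d₂) z₁ z₂
  rw [h₁.col_eq i₁ z₁, h₂.col_eq i₂ z₂, Ideal.span_singleton_eq_span_singleton]
  exact i₁.associated_of_dvd i₂ h3

theorem Gen.map_SS_ne (hx : Gen k s x) {h : k[X][X]} (hh : h.natDegree ≠ 0) :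
    (SS h).map (ev2 s x) ≠ 0 :=
  (Polynomial.map_ne_zero_iff hx).2 (SS_ne_zero hh)

theorem Gen.natDegree_map (hx : Gen k s x) (P : k[X][X][X]) :
    (P.map (ev2 s x)).natDegree = P.natDegree :=
  natDegree_map_eq_of_injective hx P

variable [CharP k 2] {f : k[X]}

theorem Gen.mem_Rts (hx : Gen k s x) (hf : (derivative f).natDegree ≠ 0) :
    y ∈ Rts f s x ↔ ev3 s x y (FF f) = 0 := by
  classical
  rw [Rts, Multiset.mem_toFinset, FF, mem_roots (hx.map_SS_ne (natDegree_DD_ne hf)), IsRoot,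
    ev3_eq]

theorem Gen.mem_Rts' (hx : Gen k s x) (hf : (derivative f).natDegree ≠ 0) :
    y ∈ Rts f s x ↔ ev2 s y (DD f) = ev2 s x (DD f) := by
  have : CharP Ω 2 := charP_of_injective_algebraMap (algebraMap k Ω).injective 2
  rw [hx.mem_Rts hf, FF, ev3_SS, CharTwo.add_eq_zero]

theorem Gen.self_mem (hx : Gen k s x) (hf : (derivative f).natDegree ≠ 0) : x ∈ Rts f s x :=
  (hx.mem_Rts' hf).2 rfl

theorem Gen.add_mem (hx : Gen k s x) (hf : (derivative f).natDegree ≠ 0) (hy : y ∈ Rts f s x) :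
    y + s ∈ Rts f s x := by
  have : CharP Ω 2 := charP_of_injective_algebraMap (algebraMap k Ω).injective 2
  rw [hx.mem_Rts' hf] at hy ⊢
  rw [← hy, ev2_DD, ev2_DD, add_assoc, CharTwo.add_self_eq_zero, add_zero, add_comm]

theorem Gen.of_mem (hx : Gen k s x) (hf : (derivative f).natDegree ≠ 0) (hy : y ∈ Rts f s x) :
    Gen k s y :=
  hx.root (natDegree_DD_ne hf) ((hx.mem_Rts' hf).1 hy)

theorem Gen.Rts_eq (hx : Gen k s x) (hf : (derivative f).natDegree ≠ 0) (hy : y ∈ Rts f s x) :
    Rts f s y = Rts f s x := by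
  ext z
  rw [(hx.of_mem hf hy).mem_Rts' hf, hx.mem_Rts' hf, (hx.mem_Rts' hf).1 hy]

/-- Two roots form a point of the surface. -/
theorem Gen.ev3_FF (hx : Gen k s x) (hf : (derivative f).natDegree ≠ 0) {a b : Ω}
    (ha : a ∈ Rts f s x) (hb : b ∈ Rts f s x) : ev3 s a b (FF f) = 0 := by
  rwa [← (hx.of_mem hf ha).mem_Rts hf, hx.Rts_eq hf ha]

theorem Gen.mem_of_SS (hx : Gen k s x) (hf : (derivative f).natDegree ≠ 0) {h : k[X][X]}
    (hd : SS h ∣ FF f) (hy : ev2 s y h = ev2 s x h) : y ∈ Rts f s x := by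
  have : CharP Ω 2 := charP_of_injective_algebraMap (algebraMap k Ω).injective 2
  obtain ⟨R, hR⟩ := hd
  rw [hx.mem_Rts hf, hR, map_mul, ev3_SS, hy, CharTwo.add_self_eq_zero, zero_mul]

theorem Gen.separable [IsAlgClosed Ω] (hx : Gen k s x) (hf : (derivative f).natDegree ≠ 0) :
    ((FF f).map (ev2 s x)).Separable := by
  rw [separable_def, isCoprime_iff_aeval_ne_zero_of_isAlgClosed Ω Ω]
  intro y
  by_contra hc
  push Not at hc
  obtain ⟨h1, h2⟩ := hc
  rw [coe_aeval_eq_eval, ← ev3_eq] at h1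
  rw [coe_aeval_eq_eval, derivative_map, ← ev3_eq, FF, SS, derivative_add, derivative_C,
    add_zero, derivative_map, ev3_map_C, derivative_DD] at h2
  exact (hx.of_mem hf ((hx.mem_Rts hf).2 h1)).ev2_ne (DD_ne_zero hf) h2

open Classical in
/-- A divisor of `FF f` has as many roots as its degree. -/
theorem Gen.card_roots [IsAlgClosed Ω] (hx : Gen k s x) (hf : (derivative f).natDegree ≠ 0)
    {P : k[X][X][X]} (hP : P ∣ FF f) :
    (P.map (ev2 s x)).roots.toFinset.card = P.natDegree := by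
  rw [Multiset.toFinset_card_of_nodup
    (nodup_roots ((hx.separable hf).of_dvd (Polynomial.map_dvd _ hP))),
    ← (IsAlgClosed.splits _).natDegree_eq_card_roots, hx.natDegree_map]

theorem Gen.card_Rts [IsAlgClosed Ω] (hx : Gen k s x) (hf : (derivative f).natDegree ≠ 0) :
    (Rts f s x).card = (DD f).natDegree := by
  rw [Rts, hx.card_roots hf dvd_rfl, FF, natDegree_SS]

/-- A fixed colour is trivial. -/
theorem Ctx.fixed_col {φ : k ≃+* k} (hc : Ctx φ f) (hx : Gen k s x) (hy : y ∈ Rts f s x)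
    (h : (col k s x y).map (mp3 (φ : k →+* k)) = col k s x y) : y = x ∨ y = x + s := by
  have : CharP Ω 2 := charP_of_injective_algebraMap (algebraMap k Ω).injective 2
  obtain ⟨P, i, d, z⟩ := exists_irred_factor (ev3 s x y) _ (FF_ne_zero hc.deg)
    ((hx.mem_Rts hc.deg).1 hy)
  have h1 : ev3 s x y (mp3 (φ : k →+* k) P) = 0 := by
    rw [← mem_col, ← h, mem_map_mp3, mem_col, z]
  have h2 := (hx.dvd_iff i z _).2 (hc.exc P i d ((hx.dvd_iff i z _).1 h1))
  rw [ev3_triv, mul_eq_zero, mul_eq_zero, add_assoc, CharTwo.add_eq_zero,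
    CharTwo.add_eq_zero] at h2
  rcases h2 with (h2 | h2) | h2
  · exact absurd h2 hx.s_ne
  · exact Or.inl h2
  · exact Or.inr h2

end gen

/-- A valued field containing generic points. -/
theorem exists_gen (k : Type) [Field k] [IsAlgClosed k] :
    ∃ (k₁ Ω : Type) (_ : Field k₁) (_ : IsAlgClosed k₁) (_ : Field Ω) (_ : IsAlgClosed Ω)
      (_ : Algebra k k₁) (_ : Algebra k Ω) (_ : Algebra k₁ Ω) (_ : IsScalarTower k k₁ Ω)
      (_ : Val k₁ Ω) (t : k₁), Transcendental k t ∧
      ∀ s : Ω, Transcendental k₁ s → Gen k s (algebraMap k₁ Ω t) := by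
  obtain ⟨k₁, _, _, _, V₁, -⟩ := existsVal k (RingEquiv.refl k)
  obtain ⟨Ω, _, _, _, V, -⟩ := existsVal k₁ (RingEquiv.refl k₁)
  let _ : Algebra k Ω := ((algebraMap k₁ Ω).comp (algebraMap k k₁)).toAlgebra
  have : IsScalarTower k k₁ Ω := IsScalarTower.of_algebraMap_eq fun _ => rfl
  refine ⟨k₁, Ω, inferInstance, inferInstance, inferInstance, inferInstance, inferInstance,
    inferInstance, inferInstance, this, V, V₁.τ, V₁.transcendental_τ, fun s hs p q hpq => ?_⟩
  have e : ∀ p : k[X][X], ev2 s (algebraMap k₁ Ω V₁.τ) p =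
      aeval s ((Bivariate.swap p).map ((aeval V₁.τ : k[X] →ₐ[k] k₁) : k[X] →+* k₁)) := by
    intro p
    have : ev2 (k := k) s (algebraMap k₁ Ω V₁.τ) = (((aeval s : k₁[X] →ₐ[k₁] Ω) : k₁[X] →+* Ω).comp
        (mapRingHom ((aeval V₁.τ : k[X] →ₐ[k] k₁) : k[X] →+* k₁))).comp
        (Bivariate.swap (R := k) : k[X][X] →+* k[X][X]) := by
      ext <;> simp [Bivariate.swap_apply, IsScalarTower.algebraMap_apply k k₁ Ω]
    exact RingHom.congr_fun this p
  rw [e, e] at hpq
  exact Bivariate.swap.injective (map_injective _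
    (transcendental_iff_injective.1 V₁.transcendental_τ) (transcendental_iff_injective.1 hs hpq))

open Classical in
theorem Val.red_prod' (V : Val k Ω) (s : Multiset Ω) : ∃ (u : Ω) (t : Multiset k), u ≠ 0 ∧
    V.Red (C u * (s.map fun y => X - C y).prod) (t.map fun b => X - C b).prod ∧
    t.card = (s.filter fun y => V.v y ≤ 1).card := by
  induction s using Multiset.induction_on with
  | empty => exact ⟨1, 0, one_ne_zero, by simpa using Val.Red.map (V := V) (1 : k[X]), by simp⟩
  | cons y s ih =>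
    obtain ⟨u, t, hu, h1, h2⟩ := ih
    rcases le_or_gt (V.v y) 1 with hy | hy
    · obtain ⟨c, hc⟩ := V.res y hy
      refine ⟨u, c ::ₘ t, hu, ?_, ?_⟩
      · rw [Multiset.map_cons, Multiset.map_cons, Multiset.prod_cons, Multiset.prod_cons,
          mul_left_comm]
        exact (Val.Red.X.sub (Val.Red.C hc)).mul h1
      · rw [Multiset.filter_cons_of_pos (p := fun y => V.v y ≤ 1) _ hy, Multiset.card_cons, Multiset.card_cons, h2]
    · have hy0 : y ≠ 0 := by rintro rfl; simp at hy
      refine ⟨-y⁻¹ * u, t, mul_ne_zero (neg_ne_zero.mpr (inv_ne_zero hy0)) hu, ?_, ?_⟩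
      · have e : C (-y⁻¹ * u) * (Multiset.map (fun y => X - C y) (y ::ₘ s)).prod =
            (C (-y⁻¹) * X + C 1) * (C u * (s.map fun y => X - C y).prod) := by
          rw [Multiset.map_cons, Multiset.prod_cons]
          have : (C 1 : Polynomial Ω) = C y⁻¹ * C y := by rw [← C_mul, inv_mul_cancel₀ hy0]
          rw [this, C_mul, C_neg]
          ring
        rw [e]
        have h3 : V.Red (C (-y⁻¹) * X + C 1) (C 0 * X + C 1) := by
          refine ((Val.Red.C ?_).mul Val.Red.X).add (Val.Red.C (by simp))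
          rw [map_zero, sub_zero, Valuation.map_neg, map_inv₀]
          exact inv_lt_one_of_one_lt₀ hy
        simpa using h3.mul h1
      · rw [Multiset.filter_cons_of_neg (p := fun y => V.v y ≤ 1) _ (not_le.mpr hy), h2]

open Classical in
/-- The number of integral roots is the degree of the reduction. -/
theorem Val.Red.card_fin [IsAlgClosed Ω] {V : Val k Ω} {p : Polynomial Ω} {pb : k[X]}
    (h : V.Red p pb) (h0 : pb ≠ 0) :
    (p.roots.filter fun y => V.v y ≤ 1).card = pb.natDegree := by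
  obtain ⟨u, t, hu, h1, h2⟩ := V.red_prod' p.roots
  have hp : p = Polynomial.C (p.leadingCoeff / u) *
      (Polynomial.C u * (p.roots.map fun y => Polynomial.X - Polynomial.C y).prod) := by
    rw [← mul_assoc, ← C_mul, div_mul_cancel₀ _ hu]
    exact (IsAlgClosed.splits p).eq_prod_roots
  set w := p.leadingCoeff / u
  have hm : (t.map fun b => Polynomial.X - Polynomial.C b).prod.Monic :=
    monic_multisetProd_X_sub_C t
  have hw : V.v w ≤ 1 := by
    have h3 := h1 (t.map fun b => Polynomial.X - Polynomial.C b).prod.natDegree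
    rw [hm.coeff_natDegree] at h3
    have h4 := V.eq_one_of_res one_ne_zero h3
    have h5 := h.coeff_le (t.map fun b => Polynomial.X - Polynomial.C b).prod.natDegree
    rw [hp, coeff_C_mul, map_mul, h4, mul_one] at h5
    exact h5
  obtain ⟨c, hc⟩ := V.res w hw
  have h3 := (Val.Red.C hc).mul h1
  rw [← hp] at h3
  have h4 := h.unique h3
  have hc0 : c ≠ 0 := by
    rintro rfl
    exact h0 (by simpa using h4)
  rw [← h2, h4, natDegree_C_mul hc0, natDegree_multiset_prod_X_sub_C_eq_card]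

section res

variable {k₁ : Type} [Field k₁] [Algebra k k₁] [Algebra k₁ Ω] [IsScalarTower k k₁ Ω]
  (V : Val k₁ Ω) {s x y : Ω} {a b c : k₁}

theorem Val.res_aeval (hs : V.v (s - algebraMap k₁ Ω a) < 1) (p : k[X]) :
    V.v (aeval s p - algebraMap k₁ Ω (aeval a p)) < 1 := by
  have := (Val.Red.map (V := V) (p.map (algebraMap k k₁))).eval hs
  rwa [Polynomial.map_map, ← IsScalarTower.algebraMap_eq, eval_map_algebraMap,
    eval_map_algebraMap] at this

theorem Val.res_ev2 (hs : V.v (s - algebraMap k₁ Ω a) < 1) (hx : V.v (x - algebraMap k₁ Ω b) < 1)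
    (h : k[X][X]) : V.v (ev2 s x h - algebraMap k₁ Ω (ev2 a b h)) < 1 := by
  rw [ev2_eq, ev2_eq]
  refine Val.Red.eval (fun i => ?_) hx
  rw [coeff_map, coeff_map]
  exact V.res_aeval hs _

theorem Val.red_ev2 (hs : V.v (s - algebraMap k₁ Ω a) < 1) (hx : V.v (x - algebraMap k₁ Ω b) < 1)
    (P : k[X][X][X]) : V.Red (P.map (ev2 s x)) (P.map (ev2 a b)) := fun i => by
  rw [coeff_map, coeff_map]
  exact V.res_ev2 hs hx _

theorem Val.res_ev3 (hs : V.v (s - algebraMap k₁ Ω a) < 1) (hx : V.v (x - algebraMap k₁ Ω b) < 1)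
    (hy : V.v (y - algebraMap k₁ Ω c) < 1) (P : k[X][X][X]) :
    V.v (ev3 s x y P - algebraMap k₁ Ω (ev3 a b c P)) < 1 := by
  rw [ev3_eq, ev3_eq]
  exact (V.red_ev2 hs hx P).eval hy

/-- The reduction of a point of a surface is a point of the surface. -/
theorem Val.ev3_eq_zero (hs : V.v (s - algebraMap k₁ Ω a) < 1)
    (hx : V.v (x - algebraMap k₁ Ω b) < 1) (hy : V.v (y - algebraMap k₁ Ω c) < 1)
    {P : k[X][X][X]} (h : ev3 s x y P = 0) : ev3 a b c P = 0 := by
  have := V.res_ev3 hs hx hy P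
  rw [h, zero_sub, Valuation.map_neg] at this
  exact V.eq_zero_of_lt this

theorem Val.v_algebraMap_le (u : k) : V.v (algebraMap k Ω u) ≤ 1 := by
  rw [IsScalarTower.algebraMap_apply k k₁ Ω]
  exact V.const_le _

theorem Val.v_aeval_le {r : NNReal} (hr : 1 ≤ r) (hs : V.v s ≤ r) {p : k[X]} {n : ℕ}
    (hn : p.natDegree ≤ n) : V.v (aeval s p) ≤ r ^ n := by
  rw [aeval_eq_sum_range]
  refine V.v.map_sum_le fun i hi => ?_
  rw [Algebra.smul_def, map_mul, map_pow]
  have := Finset.mem_range.1 hi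
  exact (mul_le_of_le_one_left zero_le (V.v_algebraMap_le _)).trans
    ((pow_le_pow_left₀ zero_le hs i).trans (pow_le_pow_right₀ hr (by omega)))

theorem Val.v_aeval_eq (hs : 1 < V.v s) {p : k[X]} (hp : p ≠ 0) :
    V.v (aeval s p) = V.v s ^ p.natDegree := by
  have := V.v_aeval_of_one_lt hs (p := p.map (algebraMap k k₁)) (by simpa using hp)
  rwa [aeval_map_algebraMap, natDegree_map] at this

end res

section parity

theorem choose_two_pow_mul {R : Type} [Field R] [CharP R 2] (c o i : ℕ) :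
    (((2 ^ c * o).choose i : ℕ) : R) = if 2 ^ c ∣ i then (o.choose (i / 2 ^ c) : R) else 0 := by
  have h : ((X + 1) ^ (2 ^ c * o) : R[X]) = expand R (2 ^ c) ((X + 1) ^ o) := by
    rw [pow_mul, add_pow_char_pow, map_pow, map_add, expand_X, map_one, one_pow]
  rw [← coeff_X_add_one_pow, h, coeff_expand (by positivity), coeff_X_add_one_pow]

theorem choose_two_pow_self {R : Type} [Field R] [CharP R 2] (c : ℕ) {o : ℕ} (ho : Odd o) :
    (((2 ^ c * o).choose (2 ^ c) : ℕ) : R) = 1 := by
  rw [choose_two_pow_mul, if_pos dvd_rfl, Nat.div_self (by positivity), Nat.choose_one_right]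
  obtain ⟨m, rfl⟩ := ho
  simp [CharTwo.two_eq_zero]

variable [CharP k 2]

theorem tame_iff {f : k[X]} : Tame f ↔
    ∀ c o, Odd o → f.coeff (2 ^ c * o) ≠ 0 → o ≤ (derivative f).natDegree + 1 := by
  constructor
  · intro h c o ho hc
    have h1 := h (2 ^ c) Nat.one_le_two_pow
    obtain ⟨m, rfl⟩ := ho
    have h2 : (hasseDeriv (2 ^ c) f).coeff (2 ^ c * (2 * m)) ≠ 0 := by
      rw [hasseDeriv_coeff, ← Nat.mul_add_one, choose_two_pow_self c ⟨m, rfl⟩, one_mul]
      exact hc
    have h3 := Nat.le_of_mul_le_mul_left ((le_natDegree_of_ne_zero h2).trans h1) (by positivity)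
    omega
  · intro h i hi
    rw [natDegree_le_iff_coeff_eq_zero]
    intro m hm
    by_contra hne
    rw [hasseDeriv_coeff] at hne
    obtain ⟨c, o, ho, hj⟩ := Nat.exists_eq_two_pow_mul_odd (n := m + i) (by omega)
    rw [hj] at hne
    have h1 := h c o ho (right_ne_zero_of_mul hne)
    have h2 : 2 ^ c ∣ i := by
      by_contra h2
      rw [choose_two_pow_mul, if_neg h2, zero_mul] at hne
      exact hne rfl
    have h3 := Nat.le_of_dvd hi h2
    have h4 := Nat.mul_le_mul_left (2 ^ c) h1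
    have h5 := Nat.mul_le_mul_right (derivative f).natDegree h3
    rw [mul_add, mul_one] at h4
    omega

omit [CharP k 2] in
theorem hasseDeriv_taylor (f : k[X]) (c : k) (i : ℕ) :
    hasseDeriv i (taylor c f) = taylor c (hasseDeriv i f) := by
  have h : ∀ g : k[X], hasseDeriv i (g.map (C : k →+* k[X])) = (hasseDeriv i g).map C := fun g => by
    ext1 i
    simp [hasseDeriv_coeff]
  have h1 := taylor_coeff (X : k[X]) ((taylor c f).map C) i
  rw [h, eval_map, eval₂_C_X, map_taylor, taylor_taylor, taylor_coeff, h, eval_map] at h1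
  exact h1.symm

omit [CharP k 2] in
theorem Tame.taylor {f : k[X]} (h : Tame f) (c : k) : Tame (taylor c f) := fun i hi => by
  rw [← hasseDeriv_one', hasseDeriv_taylor, hasseDeriv_taylor, natDegree_taylor, natDegree_taylor,
    hasseDeriv_one']
  exact h i hi

/-- A polynomial whose differences are constant is affine. -/
theorem aff_of_DD {A : k[X]} (h : (DD A).natDegree = 0) : Aff A := fun j hj => by
  by_contra hl
  obtain ⟨c, o, ho, rfl⟩ := Nat.exists_eq_two_pow_mul_odd (n := j) fun h0 => hl (Or.inl h0)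
  obtain ⟨m, rfl⟩ := ho
  have hm : m ≠ 0 := by
    rintro rfl
    exact hl (Or.inr ⟨c, by simp⟩)
  have h1 := coeff_DD A (2 ^ c * (2 * m)) (2 ^ c)
  rw [if_neg (by positivity), ← Nat.mul_add_one, choose_two_pow_self c ⟨m, rfl⟩, one_mul,
    coeff_eq_zero_of_natDegree_lt (p := DD A) (by rw [h]; positivity), coeff_zero] at h1
  exact hj h1.symm

theorem aff_of_additive [Infinite k] {A : k[X]}
    (h : ∀ a b, A.eval (a + b) + A.eval 0 = A.eval a + A.eval b) : Aff A := by
  refine aff_of_DD ?_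
  have h2 : (2 : k) = 0 := CharTwo.two_eq_zero
  rw [show DD A = C (A + C (A.eval 0)) from ext_ev2 fun a b => ?_, natDegree_C]
  rw [← ev2_self, ev2_DD, evalEval_C, eval_add, eval_C, coe_aeval_eq_eval, coe_aeval_eq_eval]
  linear_combination h b a + (A.eval b - A.eval 0) * h2

end parity

end Pool.Agent.Lib.MP_346d6a_co
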