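import Pool.Agent.Lib.MP_346d6a_co.TBasic

/-!
The tame case, part TBlock.
-/

set_option maxSynthPendingDepth 3

namespace Pool.Agent.Lib.MP_346d6a_co

open Polynomial

namespace TBlock

variable {k : Type} [Field k] {Ω : Type} [Field Ω] [Algebra k Ω]

theorem eq_prod {q : Polynomial Ω} {Y : Finset Ω} (hd : q.natDegree ≤ Y.card)
    (hz : ∀ y ∈ Y, q.eval y = 0) : q = C q.leadingCoeff * ∏ y ∈ Y, (X - C y) := by
  rcases eq_or_ne q 0 with rfl | hq
  · simp
  refine eq_leadingCoeff_mul_of_monic_of_dvd_of_natDegree_le (monic_prod_X_sub_C id Y) ?_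
    (by rwa [natDegree_finsetProd_X_sub_C_eq_card])
  exact (Multiset.prod_X_sub_C_dvd_iff_le_roots hq Y.val).2
    ((Multiset.le_iff_subset Y.nodup).2 fun y hy => (mem_roots hq).2 (hz y hy))

theorem coeff_swap {R : Type} [CommRing R] (P : R[X][X]) (i j : ℕ) :
    ((Bivariate.swap P).coeff j).coeff i = (P.coeff i).coeff j := by
  induction P using Polynomial.induction_on' with
  | add p q hp hq => simp only [map_add, coeff_add, hp, hq]
  | monomial n a =>
    rw [Bivariate.swap_monomial, coeff_mul_C, coeff_map, coeff_C_mul, coeff_X_pow, coeff_monomial]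
    by_cases h : n = i
    · simp [h]
    · simp [h, Ne.symm h]

theorem swap_SS (h : k[X][X]) : Bivariate.swap (SS h) = SS h := by
  rw [SS, map_add, Bivariate.swap_map_C, Bivariate.swap_C, add_comm]

theorem eq_C_of_dvd {R : Type} [CommRing R] [IsDomain R] {d : R[X]} {c : R} (hc : c ≠ 0)
    (h : d ∣ C c) : ∃ e, d = C e :=
  ⟨_, eq_C_of_natDegree_eq_zero (Nat.le_zero.1
    ((natDegree_le_of_dvd h (C_ne_zero.2 hc)).trans (natDegree_C c).le))⟩

theorem ev3_diag (s a : Ω) (P : k[X][X][X]) : ev3 s a a P = ev2 s a (P.eval X) := by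
  have : ev3 (k := k) s a a = (ev2 s a).comp (evalRingHom X) := by ext <;> simp
  exact RingHom.congr_fun this P

theorem relPrime {h : k[X][X]} (hp : h.IsPrimitive) (h0 : h.coeff 0 = 0) {γ : k[X]}
    (hγ : γ ≠ 0) : IsRelPrime (SS h) (C (C γ)) := by
  intro d h1 h2
  obtain ⟨d, rfl⟩ := eq_C_of_dvd (C_ne_zero.2 hγ) h2
  have h3 := (C_dvd_iff_dvd_coeff _ _).1 h2 0
  rw [coeff_C_zero] at h3
  obtain ⟨d, rfl⟩ := eq_C_of_dvd hγ h3
  have h4 := eval_dvd (x := 0) h1
  rw [eval_zero_SS h0, eval_C] at h4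
  exact isUnit_C.2 (isUnit_C.2 (isPrimitive_iff_isUnit_of_C_dvd.1 hp _ h4))

/-- Normalisation of a nonconstant polynomial. -/
theorem exists_norm {p : k[X][X]} (hp : p.natDegree ≠ 0) : ∃ (h : k[X][X]) (c : k[X]), c ≠ 0 ∧
    h.IsPrimitive ∧ h.coeff 0 = 0 ∧ h.leadingCoeff.Monic ∧ h.natDegree = p.natDegree ∧
    p = C c * h + C (p.coeff 0) := by
  classical
  set q := p - C (p.coeff 0) with hq
  have hd : q.natDegree = p.natDegree := natDegree_sub_C
  have hq0 : q ≠ 0 := fun h => hp (by rw [← hd, h, natDegree_zero])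
  have hc : q.content ≠ 0 := fun h => hq0 (content_eq_zero_iff.1 h)
  set u := q.primPart.leadingCoeff.leadingCoeff
  have hu : u ≠ 0 := leadingCoeff_ne_zero.2 (leadingCoeff_ne_zero.2 q.primPart_ne_zero)
  have e : q = C (q.content * C u) * (C (C u⁻¹) * q.primPart) := by
    rw [← mul_assoc, ← C_mul, mul_assoc, ← C_mul, mul_inv_cancel₀ hu, C_1, mul_one]
    exact q.eq_C_content_mul_primPart
  have hc' : q.content * C u ≠ 0 := mul_ne_zero hc (C_ne_zero.2 hu)
  refine ⟨C (C u⁻¹) * q.primPart, q.content * C u, hc', ?_, ?_, ?_, ?_, ?_⟩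
  · refine isPrimitive_of_dvd q.isPrimitive_primPart ⟨C (C u), ?_⟩
    rw [mul_right_comm, ← C_mul, ← C_mul, inv_mul_cancel₀ hu, C_1, C_1, one_mul]
  · have := congrArg (coeff · 0) e
    simp only [coeff_C_mul (a := q.content * C u)] at this
    refine (mul_eq_zero.1 (this.symm.trans ?_)).resolve_left hc'
    simp [hq]
  · rw [leadingCoeff_mul, leadingCoeff_C, Monic, leadingCoeff_mul, leadingCoeff_C,
      inv_mul_cancel₀ hu]
  · rw [natDegree_C_mul (C_ne_zero.2 (inv_ne_zero hu)), natDegree_primPart, hd]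
  · rw [← e, hq, sub_add_cancel]

variable [CharP k 2] {s a : Ω} {Y : Finset Ω}

theorem ev3_SS_iff (x y : Ω) (h : k[X][X]) : ev3 s x y (SS h) = 0 ↔ ev2 s y h = ev2 s x h := by
  have : CharP Ω 2 := charP_of_injective_algebraMap (algebraMap k Ω).injective 2
  rw [ev3_SS, CharTwo.add_eq_zero]

theorem map_SS (ha : Gen k s a) {h : k[X][X]} (h0 : h.natDegree ≠ 0) (hd : h.natDegree ≤ Y.card)
    (hz : ∀ y ∈ Y, ev2 s y h = ev2 s a h) :
    (SS h).map (ev2 s a) = C (aeval s h.leadingCoeff) * ∏ y ∈ Y, (X - C y) := by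
  have := eq_prod (q := (SS h).map (ev2 s a)) (Y := Y) (by rwa [ha.natDegree_map, natDegree_SS])
    fun y hy => by rw [← ev3_eq, ev3_SS_iff, hz y hy]
  rwa [leadingCoeff_map_of_injective ha, leadingCoeff_SS h0, ev2_C] at this

omit [CharP k 2] in
theorem cross (ha : Gen k s a) {P Q : k[X][X][X]} {α β : k[X]} {W : Polynomial Ω}
    (hP : P.map (ev2 s a) = C (aeval s α) * W) (hQ : Q.map (ev2 s a) = C (aeval s β) * W) :
    C (C β) * P = C (C α) * Q := by
  refine map_injective _ ha ?_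
  rw [Polynomial.map_mul, Polynomial.map_mul, hP, hQ, map_C, map_C, ev2_C, ev2_C, mul_left_comm]

variable [IsAlgClosed Ω] {f : k[X]} {ψ : Ideal k[X][X][X] → Ideal k[X][X][X]}

omit [IsAlgClosed Ω] in
/-- The product of the components meeting `Y`. -/
theorem exists_P (ha : Gen k s a) (hf : (derivative f).natDegree ≠ 0)
    (hcl : Closed (Rts f s a) Y (col k s) ψ) (haY : a ∈ Y) (Z : Finset Ω) (hZ : Z ⊆ Y) :
    ∃ P, P ∣ FF f ∧ (∀ y ∈ Z, ev3 s a y P = 0) ∧
      ∀ x ∈ Y, ∀ y, (ev3 s x y P = 0 ∨ ev3 s y x P = 0) → y ∈ Y := by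
  classical
  induction Z using Finset.induction_on with
  | empty => exact ⟨1, one_dvd _, by simp, by simp⟩
  | insert b Z _ ih =>
    obtain ⟨P, h1, h2, h3⟩ := ih ((Finset.subset_insert _ _).trans hZ)
    have hb : b ∈ Y := hZ (Finset.mem_insert_self _ _)
    by_cases h4 : ev3 s a b P = 0
    · exact ⟨P, h1, by simpa [h4] using h2, h3⟩
    obtain ⟨p, i, d, z⟩ := exists_irred_factor (ev3 s a b) _ (FF_ne_zero hf)
      ((ha.mem_Rts hf).1 (hcl.1 hb))
    refine ⟨p * P, (i.isRelPrime_iff_not_dvd.2 fun e => h4 ((ha.dvd_iff i z P).2 e)).mul_dvd d h1,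
      fun y hy => ?_, fun x hx y hy => ?_⟩
    · rcases Finset.mem_insert.1 hy with rfl | hy
      · rw [map_mul, z, zero_mul]
      · rw [map_mul, h2 y hy, mul_zero]
    have gx := ha.of_mem hf (hcl.1 hx)
    rw [map_mul, map_mul, mul_eq_zero, mul_eq_zero, or_or_or_comm] at hy
    refine hy.elim (fun hy => ?_) (h3 x hx y)
    have hX : y ∈ Rts f s a := by
      rw [← ha.Rts_eq hf (hcl.1 hx), gx.mem_Rts hf]
      rcases hy with hy | hy
      · exact (gx.dvd_iff i hy _).2 d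
      · obtain ⟨r, hr⟩ := d
        rw [FF, ← swap_SS, ev3_swap, ← FF, hr, map_mul, hy, zero_mul]
    refine hcl.2 a haY b hb x hx y hX (hy.imp (fun hy => ?_) fun hy => Or.inl ?_)
    · rw [gx.col_eq i hy, ha.col_eq i z]
    · rw [(ha.of_mem hf hX).col_eq i hy, ha.col_eq i z]

theorem natDegree_le (ha : Gen k s a) (hf : (derivative f).natDegree ≠ 0) {P : k[X][X][X]}
    (hP : P ∣ FF f) (h : ∀ y, ev3 s a y P = 0 → y ∈ Y) : P.natDegree ≤ Y.card := by
  classical
  rw [← ha.card_roots hf hP]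
  refine Finset.card_le_card fun y hy => h y ?_
  rw [ev3_eq]
  exact (isRoot_of_mem_roots (Multiset.mem_toFinset.1 hy))

/-- A polynomial that is constant on `Y`. -/
theorem exists_h (ha : Gen k s a) (hf : (derivative f).natDegree ≠ 0)
    (hc : Coh (Rts f s a) (col k s) ψ) (hcl : Closed (Rts f s a) Y (col k s) ψ) (haY : a ∈ Y) :
    ∃ h : k[X][X], h.IsPrimitive ∧ h.coeff 0 = 0 ∧ h.leadingCoeff.Monic ∧ h.natDegree ≠ 0 ∧
      h.natDegree ≤ Y.card ∧ (∀ y ∈ Y, ev2 s y h = ev2 s a h) ∧ SS h ∣ FF f := by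
  obtain ⟨P, h1, h2, h3⟩ := exists_P ha hf hcl haY Y subset_rfl
  have hP0 : P ≠ 0 := ne_zero_of_dvd_ne_zero (FF_ne_zero hf) h1
  have h4 : ∀ x ∈ Y, ∀ y ∈ Y, ev3 s x y P = 0 := by
    intro x hx y hy
    obtain ⟨π, p1, p2, -, p4⟩ := hc.orb x (hcl.1 hx) x (hcl.1 hx) a (hcl.1 haY) a (hcl.1 haY)
      ((hc.diag x (hcl.1 hx) a (hcl.1 haY) a (hcl.1 haY)).2 rfl)
    have e := p4 x (hcl.1 hx) y (hcl.1 hy)
    rw [p2] at e
    rw [← mem_col, ← e, mem_col]
    exact h2 _ (hcl.2 x hx y hy a haY _ (p1.mapsTo (hcl.1 hy)) (Or.inl e))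
  have d1 : P.natDegree ≤ Y.card := natDegree_le ha hf h1 fun y hy => h3 a haY y (Or.inl hy)
  have d2 : (Bivariate.swap P).natDegree ≤ Y.card := by
    refine natDegree_le ha hf ?_ fun y hy => h3 a haY y (Or.inr (by rwa [ev3_swap] at hy))
    have := map_dvd (Bivariate.swap (R := k[X])) h1
    rwa [FF, swap_SS, ← FF] at this
  obtain ⟨α, hl⟩ : ∃ α, P.leadingCoeff = C α := by
    refine eq_C_of_dvd (c := (DD f).leadingCoeff) (leadingCoeff_ne_zero.2 fun e =>
      natDegree_DD_ne hf (by rw [e, natDegree_zero])) ?_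
    rw [← leadingCoeff_SS (natDegree_DD_ne hf)]
    exact leadingCoeff_dvd_leadingCoeff h1
  have h5 : ∀ x ∈ Y, P.map (ev2 s x) = C (aeval s α) * ∏ y ∈ Y, (X - C y) := by
    intro x hx
    have gx := ha.of_mem hf (hcl.1 hx)
    have := eq_prod (q := P.map (ev2 s x)) (Y := Y) (by rwa [gx.natDegree_map])
      fun y hy => by rw [← ev3_eq, h4 x hx y hy]
    rwa [leadingCoeff_map_of_injective gx, hl, ev2_C] at this
  obtain ⟨i, hi⟩ : ∃ i, (P.coeff i).natDegree ≠ 0 := by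
    by_contra hn
    push Not at hn
    obtain ⟨Q, rfl⟩ : P ∈ lifts (C : k[X] →+* k[X][X]) :=
      (lifts_iff_coeff_lifts P).2 fun i => ⟨_, (eq_C_of_natDegree_eq_zero (hn i)).symm⟩
    have := h4 a haY a haY
    rw [coe_mapRingHom, ev3_map_C] at this
    exact ha.ev2_ne (by rintro rfl; simp at hP0) this
  obtain ⟨h, c, c0, q1, q2, q3, q4, q5⟩ := exists_norm hi
  have d3 : h.natDegree ≤ Y.card := by
    rw [q4, natDegree_le_iff_coeff_eq_zero]
    intro j hj
    rw [← coeff_swap, coeff_eq_zero_of_natDegree_lt (d2.trans_lt hj), coeff_zero]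
  have hz : ∀ y ∈ Y, ev2 s y h = ev2 s a h := by
    intro y hy
    have := congrArg (coeff · i) ((h5 y hy).trans (h5 a haY).symm)
    simp only [coeff_map] at this
    rw [q5] at this
    simpa [ha.aeval_ne c0] using this
  refine ⟨h, q1, q2, q3, q4 ▸ hi, d3, hz, .trans ?_ h1⟩
  exact (relPrime q1 q2 q3.ne_zero).dvd_of_dvd_mul_left
    ⟨_, (cross ha (h5 a haY) (map_SS ha (q4 ▸ hi) d3 hz)).trans (mul_comm _ _)⟩

end TBlock

open TBlock

theorem blockPoly (hT : Transfer) (hC : CohLemma) (hM : ModuleLemma) : BlockPoly := by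
  intro k _ _ φ f hc Ω _ _ _ s a ha Y hY haY
  have hcoh := hC k φ f hc Ω s a ha
  have hcl := hM _ _ _ _ _ hcoh Y hY
  obtain ⟨h, q1, q2, q3, q4, q5, q6, q7⟩ := exists_h ha hc.deg hcoh hcl haY
  have e := map_SS ha q4 q5 q6
  have hl := ha.aeval_ne q3.ne_zero
  have hfib : ∀ y, ev2 s y h = ev2 s a h → y ∈ Y := by
    intro y hy
    rw [← ev3_SS_iff, ev3_eq, e, eval_mul, eval_C, eval_prod, mul_eq_zero,
      Finset.prod_eq_zero_iff] at hy
    obtain ⟨z, hz, hy⟩ := hy.resolve_left hl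
    rw [eval_sub, eval_X, eval_C, sub_eq_zero] at hy
    exact hy ▸ hz
  refine ⟨h, ⟨q1, q2, q3, ?_, q7, ?_⟩, ?_, fun y _ => ⟨q6 y, hfib y⟩⟩
  · obtain ⟨π, p1, p2, p3⟩ := hcoh.tw a (hcl.1 haY)
    have p4 : ∀ b ∈ Y, col k s a (π b) = (col k s a b).map (mp3 (φ : k →+* k)) := fun b hb => by
      rw [← p3 a (hcl.1 haY) b (hcl.1 hb), p2]
    have p5 : Set.MapsTo π Y Y := fun b hb =>
      hcl.2 a haY b hb a haY _ (p1.mapsTo (hcl.1 hb)) (Or.inr (Or.inr (p4 b hb)))
    have p6 : Set.SurjOn π Y Y := Finset.surjOn_of_injOn_of_card_le π p5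
      (p1.injOn.mono fun b hb => hcl.1 hb) le_rfl
    have hi : Function.Injective (mapRingHom (φ : k →+* k)) := map_injective _ φ.injective
    have d : (mp2 (φ : k →+* k) h).natDegree = h.natDegree := natDegree_map_eq_of_injective hi h
    have l : (mp2 (φ : k →+* k) h).leadingCoeff = h.leadingCoeff.map (φ : k →+* k) :=
      leadingCoeff_map_of_injective hi h
    have e' := map_SS ha (h := mp2 (φ : k →+* k) h) (Y := Y) (d ▸ q4) (d ▸ q5) fun y hy => by
      obtain ⟨b, hb, rfl⟩ := p6 hy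
      rw [← ev3_SS_iff, ← mem_col, p4 b hb, ← mp3_SS, mem_map_mp3, mem_col, ev3_SS_iff, q6 b hb]
    have e2 := congrArg (eval 0) (cross ha e e')
    rw [eval_mul, eval_mul, eval_C, eval_C, eval_zero_SS q2,
      eval_zero_SS (by simp [mp2, q2]), l] at e2
    have e3 : h.leadingCoeff ∣ h.leadingCoeff.map (φ : k →+* k) := by
      have r : IsRelPrime (C h.leadingCoeff) h := fun d d1 d2 => by
        obtain ⟨d, rfl⟩ := eq_C_of_dvd q3.ne_zero d1
        exact isUnit_C.2 (isPrimitive_iff_isUnit_of_C_dvd.1 q1 _ d2)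
      simpa using (C_dvd_iff_dvd_coeff _ _).1 (r.dvd_of_dvd_mul_right ⟨_, e2⟩) 0
    rw [eq_of_monic_of_dvd_of_natDegree_le q3 (q3.map _) e3 natDegree_map_le] at e2
    exact (mul_left_cancel₀ (C_ne_zero.2 q3.ne_zero) e2).symm
  · intro Ω' _ _ _ s' x x' y hx hy e1 e2
    obtain ⟨π, p1, p2, -, p3⟩ := hT k (RingEquiv.refl k) f (by simp) hc.deg Ω Ω' s a a s' x x ha
      (ha.self_mem hc.deg) fun P => by
        rw [mp3_refl, ev3_diag, ev3_diag, map_eq_zero_iff _ ha, map_eq_zero_iff _ hx]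
    simp only [mp3_refl] at p3
    obtain ⟨u, hu, rfl⟩ := p1.surjOn (hx.mem_of_SS hc.deg q7 e1)
    obtain ⟨w, hw, rfl⟩ := p1.surjOn hy
    have huY : u ∈ Y := hfib u (by
      rwa [← ev3_SS_iff, p3 a (hcl.1 haY) u hu, p2, ev3_SS_iff])
    have hwY : w ∉ Y := fun hwY => e2 (by
      rw [← ev3_SS_iff, ← p2, ← p3 a (hcl.1 haY) w hw, ev3_SS_iff, q6 w hwY])
    have := col_eq_iff.1 (hY.2 u huY a haY w hw hwY)
    exact col_eq_iff.2 fun P => by rw [← p3 u hu w hw, this, p3 a (hcl.1 haY) w hw, p2]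
  · rw [← natDegree_SS, ← ha.natDegree_map, e, natDegree_C_mul hl,
      natDegree_finsetProd_X_sub_C_eq_card]

end Pool.Agent.Lib.MP_346d6a_co
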