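import Pool.Agent.Lib.MP_346d6a_co.TBasic

/-!
The tame case, part TCoc.
-/

set_option maxSynthPendingDepth 3

namespace Pool.Agent.Lib.MP_346d6a_co

open Polynomial

namespace TCoc

theorem exists_sq {R : Type} [CommRing R] [CharP R 2] [NoZeroDivisors R] {q : R[X]}
    (h : derivative q = 0) (hs : ∀ i, ∃ r, r ^ 2 = q.coeff i) : ∃ r : R[X], r ^ 2 = q := by
  haveI : Fact (Nat.Prime 2) := ⟨Nat.prime_two⟩
  obtain ⟨r, hr⟩ : ∃ r : R[X], r.map (frobenius R 2) = contract 2 q :=
    (mem_lifts _).1 ((lifts_iff_coeff_lifts _).2 fun i => by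
      rw [coeff_contract two_ne_zero]
      exact hs _)
  exact ⟨r, by rw [← map_frobenius_expand 2, map_expand, hr, expand_contract 2 h two_ne_zero]⟩

theorem derivative_derivative {R : Type} [CommRing R] [CharP R 2] (q : R[X]) :
    derivative (derivative q) = 0 := by
  ext i
  have : ((i + 1 + 1 : ℕ) : R) * ((i + 1 : ℕ) : R) = 0 := by
    rw [← Nat.cast_mul, CharP.cast_eq_zero_iff R 2, mul_comm]
    exact (Nat.even_mul_succ_self _).two_dvd
  push_cast at this
  rw [coeff_derivative, coeff_derivative, coeff_zero]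
  push_cast
  rw [mul_assoc, this, mul_zero]

variable {k : Type} [Field k]

theorem coeff_swap (Φ : k[X][X]) (i j : ℕ) :
    ((Bivariate.swap Φ).coeff i).coeff j = (Φ.coeff j).coeff i := by
  induction Φ using Polynomial.induction_on' with
  | add p q hp hq => simp only [map_add, coeff_add, hp, hq]
  | monomial n f =>
    rw [Bivariate.swap_monomial, coeff_mul_C, coeff_map, coeff_C_mul, coeff_X_pow, coeff_monomial]
    by_cases h : n = j
    · rw [if_pos h, if_pos h.symm, mul_one]
    · rw [if_neg h, if_neg (Ne.symm h), mul_zero, coeff_zero]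

theorem coeff_symm [Infinite k] {Φ : k[X][X]} (h : ∀ a b, Φ.evalEval a b = Φ.evalEval b a)
    (i j : ℕ) : (Φ.coeff i).coeff j = (Φ.coeff j).coeff i := by
  have : Bivariate.swap Φ = Φ := ext_ev2 fun a b => by
    rw [h a b, ← ev2_self, ← ev2_self]
    exact Bivariate.aevalAeval_swap a b Φ
  rw [← coeff_swap, this]

theorem evalEval_DD (g : k[X]) (a b : k) : (DD g).evalEval a b = g.eval (b + a) + g.eval b := by
  rw [← ev2_self, ev2_DD, coe_aeval_eq_eval, coe_aeval_eq_eval]

theorem natDegree_DD_le (g : k[X]) : (DD g).natDegree ≤ g.natDegree :=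
  (natDegree_add_le _ _).trans (max_le ((natDegree_taylor _ _).le.trans natDegree_map_le)
    natDegree_map_le)

/-- The hypotheses on the cocycle. -/
structure Hyp (Φ : k[X][X]) : Prop where
  symm : ∀ a b, Φ.evalEval a b = Φ.evalEval b a
  zero : ∀ a, Φ.evalEval a 0 = 0
  alt : ∀ a, Φ.evalEval a a = 0
  coc : ∀ a b c, Φ.evalEval a b + Φ.evalEval (a + b) c = Φ.evalEval a (b + c) + Φ.evalEval b c

variable [Infinite k] [CharP k 2] {Φ : k[X][X]}

theorem Hyp.derivative_eq (h : Hyp Φ) : derivative Φ = DD (Φ.coeff 1) := by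
  refine ext_ev2 fun a b => ?_
  have e : C (Φ.evalEval a b) + Φ.map (evalRingHom (a + b)) =
      taylor b (Φ.map (evalRingHom a)) + Φ.map (evalRingHom b) :=
    Polynomial.funext fun c => by
      rw [eval_add, eval_add, eval_C, taylor_eval, map_evalRingHom_eval, map_evalRingHom_eval,
        map_evalRingHom_eval, h.coc, add_comm c b]
  have e1 := congrArg (coeff · 1) e
  simp only [coeff_add, coeff_C_succ, coeff_map, taylor_coeff_one, coe_evalRingHom, zero_add,
    derivative_map, map_evalRingHom_eval] at e1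
  rw [evalEval_DD, add_comm b a, e1, add_assoc, CharTwo.add_self_eq_zero, add_zero]

omit [CharP k 2] in
theorem Hyp.coeff_zero (h : Hyp Φ) : Φ.coeff 0 = 0 :=
  Polynomial.funext fun a => by
    rw [eval_zero, ← h.zero a, evalEval, C_0, coeff_zero_eq_eval_zero]

omit [Infinite k] [CharP k 2] in
theorem eval_diag (Θ : k[X][X]) (a : k) : (Θ.eval X).eval a = Θ.evalEval a a := by
  induction Θ using Polynomial.induction_on' with
  | add p q hp hq => rw [eval_add, eval_add, evalEval_add, hp, hq]
  | monomial n f => simp [evalEval]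

omit [CharP k 2] in
theorem Hyp.coeff_one_one (h : Hyp Φ) : (Φ.coeff 1).coeff 1 = 0 := by
  have e0 : Φ.eval X = 0 := Polynomial.funext fun a => by rw [eval_diag, h.alt, eval_zero]
  have e1 : Φ = X * (X * Φ.divX.divX + C (Φ.coeff 1)) := by
    have a1 := X_mul_divX_add Φ
    have a2 := X_mul_divX_add Φ.divX
    rw [coeff_divX, zero_add] at a2
    rw [h.coeff_zero, C_0, add_zero] at a1
    rw [a2, a1]
  rw [e1, eval_mul, eval_X, eval_add, eval_mul, eval_X, eval_C] at e0
  have e2 := congrArg (coeff · 1) ((mul_eq_zero.1 e0).resolve_left X_ne_zero)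
  simp only [coeff_add, coeff_X_mul, coeff_zero] at e2
  have e3 : (Φ.divX.divX.eval X).coeff 0 = 0 := by
    rw [coeff_zero_eq_eval_zero, eval_diag, evalEval, C_0, ← coeff_zero_eq_eval_zero,
      ← coeff_zero_eq_eval_zero, coeff_divX, coeff_divX, coeff_symm h.symm, h.coeff_zero,
      Polynomial.coeff_zero]
  rwa [e3, zero_add] at e2

theorem Hyp.derivative_coeff (h : Hyp Φ) : derivative (Φ.coeff 1) = 0 := by
  have e := derivative_derivative Φ
  rw [h.derivative_eq, derivative_DD] at e
  refine Polynomial.funext fun a => ?_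
  have e1 := evalEval_DD (derivative (Φ.coeff 1)) a 0
  rw [e, evalEval_zero, zero_add, ← coeff_zero_eq_eval_zero, coeff_derivative, zero_add,
    h.coeff_one_one, zero_mul, add_zero] at e1
  rw [eval_zero, e1]

omit [Infinite k] in
theorem Hyp.add_cob (h : Hyp Φ) {g : k[X]} (hg : g.eval 0 = 0) : Hyp (Φ + (DD g + C g)) := by
  have two : (2 : k) = 0 := CharTwo.two_eq_zero
  refine ⟨fun a b => ?_, fun a => ?_, fun a => ?_, fun a b c => ?_⟩ <;>
    simp only [evalEval_add, evalEval_DD, evalEval_C]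
  · rw [h.symm a b, add_comm a b]
    ring
  · rw [h.zero, zero_add, zero_add, hg, add_zero, CharTwo.add_self_eq_zero]
  · rw [h.alt, CharTwo.add_self_eq_zero, hg, zero_add, zero_add, CharTwo.add_self_eq_zero]
  · rw [add_comm c (a + b), add_comm (b + c) a, ← add_assoc a b c, add_comm b a, add_comm c b]
    linear_combination h.coc a b c + (g.eval (a + b) - g.eval (b + c)) * two

omit [Infinite k] in
theorem Hyp.of_sq (h : Hyp (Φ ^ 2)) : Hyp Φ := by
  have inj : ∀ x y : k, x ^ 2 = y ^ 2 → x = y := fun x y e => CharTwo.sq_injective e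
  refine ⟨fun a b => inj _ _ ?_, fun a => inj _ _ ?_, fun a => inj _ _ ?_,
    fun a b c => inj _ _ ?_⟩
  · simpa only [evalEval_pow] using h.symm a b
  · simpa only [evalEval_pow, zero_pow two_ne_zero] using h.zero a
  · simpa only [evalEval_pow, zero_pow two_ne_zero] using h.alt a
  · simpa only [evalEval_pow, CharTwo.add_sq] using h.coc a b c

theorem Hyp.step [IsAlgClosed k] (h : Hyp Φ) : ∃ (g : k[X]) (Ψ : k[X][X]), Hyp Ψ ∧
    2 * Ψ.natDegree ≤ Φ.natDegree + 1 ∧ (Φ.natDegree = 1 → Ψ.natDegree = 0) ∧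
    Φ + (DD g + C g) = Ψ ^ 2 := by
  have h1 := h.add_cob (g := X * Φ.coeff 1) (by rw [eval_mul, eval_X, zero_mul])
  have hd : derivative (Φ + (DD (X * Φ.coeff 1) + C (X * Φ.coeff 1))) = 0 := by
    rw [derivative_add, derivative_add, derivative_C, add_zero, derivative_DD, derivative_mul,
      derivative_X, one_mul, h.derivative_coeff, mul_zero, add_zero, h.derivative_eq,
      CharTwo.add_self_eq_zero]
  obtain ⟨Ψ, hΨ⟩ := exists_sq hd fun i => exists_sq (by
    ext j
    have := congrArg (fun q : k[X][X] => (q.coeff j).coeff i) hd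
    simp only [coeff_derivative, Polynomial.coeff_zero] at this
    rw [← Nat.cast_succ, ← map_natCast C, coeff_mul_C, coeff_symm h1.symm, Nat.cast_succ] at this
    rw [coeff_derivative, this, Polynomial.coeff_zero]) fun j =>
      IsAlgClosed.exists_pow_nat_eq _ two_pos
  have d1 : (Φ.coeff 1).natDegree ≤ Φ.natDegree :=
    natDegree_le_iff_coeff_eq_zero.2 fun i hi => by
      rw [coeff_symm h.symm, coeff_eq_zero_of_natDegree_lt hi, Polynomial.coeff_zero]
  have d2 := natDegree_expand 2 (contract 2 (Φ.coeff 1))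
  rw [expand_contract 2 h.derivative_coeff two_ne_zero] at d2
  have d3 : 2 * Ψ.natDegree ≤ max Φ.natDegree (1 + (Φ.coeff 1).natDegree) := by
    rw [← natDegree_pow, hΨ]
    refine (natDegree_add_le _ _).trans (max_le_max le_rfl ((natDegree_add_le _ _).trans
      (max_le ((natDegree_DD_le _).trans (natDegree_mul_le.trans ?_)) ?_)))
    · rw [natDegree_X]
    · rw [natDegree_C]
      exact Nat.zero_le _
  exact ⟨_, Ψ, Hyp.of_sq (hΨ ▸ h1), by omega, by omega, hΨ.symm⟩

theorem Hyp.cob [IsAlgClosed k] (n : ℕ) : ∀ Φ : k[X][X], Hyp Φ → Φ.natDegree = n →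
    ∃ g : k[X], ∀ a b, Φ.evalEval a b = g.eval a + g.eval b + g.eval (a + b) := by
  induction n using Nat.strong_induction_on with
  | _ n ih =>
    intro Φ h hn
    rcases Nat.eq_zero_or_pos n with rfl | hpos
    · refine ⟨0, fun a b => ?_⟩
      rw [eq_C_of_natDegree_eq_zero hn, h.coeff_zero]
      simp
    · obtain ⟨g, Ψ, hΨ, d1, d2, e⟩ := h.step
      obtain ⟨g', hg'⟩ := ih Ψ.natDegree (by omega) Ψ hΨ rfl
      refine ⟨g + g' ^ 2, fun a b => ?_⟩
      have e1 := congrArg (evalEval a b) e
      have two : (2 : k) = 0 := CharTwo.two_eq_zero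
      simp only [evalEval_add, evalEval_DD, evalEval_C, evalEval_pow, hg', CharTwo.add_sq,
        add_comm b a] at e1
      simp only [eval_add, eval_pow]
      linear_combination e1 - (g.eval a + g.eval b + g.eval (a + b)) * two

end TCoc

open TCoc

theorem cocycle : Cocycle := fun _ _ _ _ Φ h₁ h₂ h₃ h₄ => Hyp.cob _ Φ ⟨h₁, h₂, h₃, h₄⟩ rfl

end Pool.Agent.Lib.MP_346d6a_co
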