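import Pool.Agent.Lib.MP_346d6a_co.TBasic

/-!
The tame case, part TComb.
-/

set_option maxSynthPendingDepth 3

namespace Pool.Agent.Lib.MP_346d6a_co

open Polynomial

namespace TComb

variable {α κ : Type} {X Y Y' : Finset α} {c : α → α → κ} {ψ θ : κ → κ} {π : α → α} {w w' : κ}

lemma transp (h : Coh X c ψ) {a b a' b' : α} (ha : a ∈ X) (hb : b ∈ X) (ha' : a' ∈ X)
    (hb' : b' ∈ X) (e : c a b = c a' b') : c b a = c b' a' := by
  obtain ⟨π, -, rfl, rfl, h1⟩ := h.orb a ha b hb a' ha' b' hb' e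
  exact (h1 b hb a ha).symm

/-- A bipartition all of whose crossing pairs have the colour `w`. -/
def Split (c : α → α → κ) (Z : Finset α) (w : κ) : Prop :=
  ∃ P : α → Prop, (∃ p ∈ Z, P p) ∧ (∃ q ∈ Z, ¬ P q) ∧
    ∀ p ∈ Z, ∀ q ∈ Z, P p → ¬ P q → c p q = w ∧ c q p = w

lemma Split.unique (h : Split c Y w) (h' : Split c Y w') : w = w' := by
  obtain ⟨P, ⟨p, hp, h1⟩, ⟨q, hq, h2⟩, h⟩ := h
  obtain ⟨P', ⟨r, hr, h3⟩, ⟨s, hs, h4⟩, h'⟩ := h'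
  by_cases h5 : P r
  · by_cases h6 : P' q
    · by_cases h7 : P s
      · exact (h s hs q hq h7 h2).1.symm.trans (h' q hq s hs h6 h4).2
      · exact (h r hr s hs h5 h7).1.symm.trans (h' r hr s hs h3 h4).1
    · exact (h r hr q hq h5 h2).1.symm.trans (h' r hr q hq h3 h6).1
  · by_cases h6 : P' p
    · by_cases h7 : P s
      · exact (h s hs r hr h7 h5).1.symm.trans (h' r hr s hs h3 h4).2
      · exact (h p hp s hs h1 h7).1.symm.trans (h' p hp s hs h6 h4).1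
    · exact (h p hp r hr h1 h5).1.symm.trans (h' r hr p hp h3 h6).2

variable [DecidableEq α]

lemma Split.image (h : Split c Y w) (hY : Y ⊆ X) (hπ : Set.BijOn π X X)
    (hθ : ∀ u ∈ X, ∀ v ∈ X, c (π u) (π v) = θ (c u v)) : Split c (Y.image π) (θ w) := by
  obtain ⟨P, ⟨p, hp, h1⟩, ⟨q, hq, h2⟩, h⟩ := h
  refine ⟨fun y => ∃ x ∈ Y, P x ∧ π x = y, ⟨_, Finset.mem_image_of_mem π hp, p, hp, h1, rfl⟩,
    ⟨_, Finset.mem_image_of_mem π hq, fun ⟨x, hx, h3, h4⟩ => h2 (hπ.injOn (hY hx) (hY hq) h4 ▸ h3)⟩,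
    ?_⟩
  rintro _ - y hy' ⟨x, hx, h3, rfl⟩ h4
  obtain ⟨y, hy, rfl⟩ := Finset.mem_image.1 hy'
  obtain ⟨h5, h6⟩ := h x hx y hy h3 fun h5 => h4 ⟨y, hy, h5, rfl⟩
  rw [hθ x (hY hx) y (hY hy), hθ y (hY hy) x (hY hx), h5, h6]
  exact ⟨rfl, rfl⟩

lemma mod_image (h : IsMod X Y c) (hπ : Set.BijOn π X X)
    (hθ : ∀ u ∈ X, ∀ v ∈ X, c (π u) (π v) = θ (c u v)) : IsMod X (Y.image π) c := by
  refine ⟨Finset.image_subset_iff.2 fun x hx => hπ.mapsTo (h.1 hx), fun a ha' b hb' y hy' h1 => ?_⟩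
  obtain ⟨a, ha, rfl⟩ := Finset.mem_image.1 ha'
  obtain ⟨b, hb, rfl⟩ := Finset.mem_image.1 hb'
  obtain ⟨y, hy, rfl⟩ := hπ.surjOn hy'
  rw [hθ a (h.1 ha) y hy, hθ b (h.1 hb) y hy,
    h.2 a ha b hb y hy fun h2 => h1 (Finset.mem_image_of_mem π h2)]

lemma overlap (h : Coh X c ψ) (hY : IsMod X Y c) (hY' : IsMod X Y' c) (hc : Y'.card = Y.card)
    {b : α} (hb : b ∈ Y) (hb' : b ∈ Y') (hne : Y ≠ Y') : ∃ w, Split c Y w ∧ Split c Y' w ∧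
      ∃ a ∈ X, ∃ d ∈ X, d ≠ b ∧ c a b = w ∧ c a d = w := by
  classical
  obtain ⟨a, ha, ha'⟩ := Finset.not_subset.1 fun h1 => hne (Finset.eq_of_subset_of_card_le h1 hc.le)
  obtain ⟨d, hd', hd⟩ :=
    Finset.not_subset.1 fun h1 => hne (Finset.eq_of_subset_of_card_le h1 hc.ge).symm
  have haX := hY.1 ha
  have hdX := hY'.1 hd'
  have hbX := hY.1 hb
  have h1 : ∀ p ∈ Y, p ∈ Y' → ∀ q ∈ Y, q ∉ Y' → c p q = c d a := fun p hp hp' q hq hq' =>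
    (hY'.2 p hp' d hd' q (hY.1 hq) hq').trans
      (transp h (hY.1 hq) hdX haX hdX (hY.2 q hq a ha d hdX hd))
  have h2 : ∀ p ∈ Y, p ∈ Y' → ∀ q ∈ Y', q ∉ Y → c p q = c a d := fun p hp hp' q hq hq' =>
    (hY.2 p hp a ha q (hY'.1 hq) hq').trans
      (transp h (hY'.1 hq) haX hdX haX (hY'.2 q hq d hd' a haX ha'))
  have h3 : ∀ p ∈ Y, p ∈ Y' → ∀ q ∈ Y, q ∉ Y' → c q p = c a d := fun p hp hp' q hq hq' =>
    transp h (hY.1 hp) (hY.1 hq) hdX haX (h1 p hp hp' q hq hq')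
  have h4 : c d a = c a d := by
    by_contra h5
    obtain ⟨π, hπ, rfl, -, h6⟩ := h.orb a haX a haX b hbX b hbX ((h.diag a haX b hbX b hbX).2 rfl)
    refine (Finset.card_lt_card (s := X.filter fun y => c (π a) y = c a d)
      (t := X.filter fun y => c a y = c a d) ⟨fun y hy => ?_, fun h7 => ?_⟩).not_ge
      (Finset.card_le_card_of_injOn π (fun y hy => ?_) (hπ.injOn.mono fun y hy => ?_))
    · rw [Finset.mem_filter] at hy ⊢
      refine ⟨hy.1, ?_⟩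
      by_cases h8 : y ∈ Y
      · by_cases h9 : y ∈ Y'
        · exact h3 y h8 h9 a ha ha'
        · exact absurd ((h1 _ hb hb' y h8 h9).symm.trans hy.2) h5
      · exact (hY.2 a ha _ hb y hy.1 h8).trans hy.2
    · have h8 := (Finset.mem_filter.1 (h7 (Finset.mem_filter.2 ⟨hbX, h3 _ hb hb' a ha ha'⟩))).2
      exact hd ((h.diag _ hbX a haX d hdX).1 h8 ▸ ha)
    · simp only [Finset.coe_filter, Set.mem_ofPred_eq] at hy ⊢
      exact ⟨hπ.mapsTo hy.1, (h6 a haX y hy.1).trans hy.2⟩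
    · exact (Finset.mem_filter.1 hy).1
  exact ⟨c a d, ⟨(· ∈ Y'), ⟨b, hb, hb'⟩, ⟨a, ha, ha'⟩, fun p hp q hq hp' hq' =>
    ⟨(h1 p hp hp' q hq hq').trans h4, h3 p hp hp' q hq hq'⟩⟩, ⟨(· ∈ Y), ⟨b, hb', hb⟩, ⟨d, hd', hd⟩,
    fun p hp q hq hp' hq' => ⟨h2 p hp' hp q hq hq', (transp h (hY.1 hp') (hY'.1 hq) haX hdX
      (h2 p hp' hp q hq hq')).trans h4⟩⟩, a, haX, d, hdX, fun e => hd (e ▸ hb),
    h3 b hb hb' a ha ha', rfl⟩

lemma key (h : Coh X c ψ) (hY : IsMod X Y c) (hY' : IsMod X Y' c) (hc : Y'.card = Y.card)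
    {b : α} (hb : b ∈ Y) (hb' : b ∈ Y') : Y = Y' := by
  by_contra hne
  obtain ⟨w, h1, -, a, ha, d, hd, h2, h3, h4⟩ := overlap h hY hY' hc hb hb' hne
  obtain ⟨π, hπ, h5, h6⟩ := h.tw b (hY.1 hb)
  have h7 := h1.image hY.1 hπ h6
  refine h2 (h.fix a ha b (hY.1 hb) d hd ?_ (h4.trans h3.symm))
  rw [h3]
  by_cases h8 : Y = Y.image π
  · exact h7.unique (h8 ▸ h1)
  · obtain ⟨w', h9, h10, -⟩ := overlap h hY (mod_image hY hπ h6)
      (Finset.card_image_of_injOn (hπ.injOn.mono hY.1)) hb (Finset.mem_image.2 ⟨b, hb, h5⟩) h8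
    exact (h7.unique h10).trans (h9.unique h1)

lemma stab (h : Coh X c ψ) (hY : IsMod X Y c) (hπ : Set.BijOn π X X)
    (hθ : ∀ u ∈ X, ∀ v ∈ X, c (π u) (π v) = θ (c u v)) {a b : α} (ha : a ∈ Y) (ha' : π a ∈ Y)
    (hb : b ∈ Y) : π b ∈ Y :=
  key h hY (mod_image hY hπ hθ) (Finset.card_image_of_injOn (hπ.injOn.mono hY.1)) ha'
    (Finset.mem_image_of_mem π ha) ▸ Finset.mem_image_of_mem π hb

lemma half (h : Coh X c ψ) (hB : Closed X Y c ψ) {a b : α} (ha : a ∈ Y) (hb : b ∈ Y) (hab : a ≠ b)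
    {S : Finset α} (hS : S ⊆ X) (hc : Y.card ≤ 2 * S.card) (h1 : ∀ y ∈ S, c a y = c a b) :
    ψ (c a b) = c a b := by
  obtain ⟨π, hπ, h2, h3⟩ := h.tw a (hB.1 ha)
  have h4 : ∀ y ∈ S, y ≠ a := by
    rintro y hy rfl
    exact hab ((h.diag y (hS hy) y (hS hy) b (hB.1 hb)).1 (h1 y hy))
  have h5 : ∀ y ∈ S, c a (π y) = ψ (c a b) := fun y hy => by
    rw [← h1 y hy, ← h3 a (hB.1 ha) y (hS hy), h2]
  have h6 : S ∪ S.image π ⊆ Y.erase a := by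
    refine Finset.union_subset (fun y hy => ?_) (Finset.image_subset_iff.2 fun y hy => ?_)
    · exact Finset.mem_erase.2 ⟨h4 y hy, hB.2 a ha b hb a ha y (hS hy) (.inl (h1 y hy))⟩
    · exact Finset.mem_erase.2 ⟨fun e => h4 y hy (hπ.injOn (hS hy) (hB.1 ha) (e.trans h2.symm)),
        hB.2 a ha b hb a ha _ (hπ.mapsTo (hS hy)) (.inr (.inr (h5 y hy)))⟩
  by_contra h7
  have h8 := (Finset.card_le_card h6).trans_lt (Finset.card_erase_lt_of_mem ha)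
  rw [Finset.card_union_of_disjoint, Finset.card_image_of_injOn (hπ.injOn.mono hS)] at h8
  · omega
  · refine Finset.disjoint_right.2 fun y h9 hy' => ?_
    obtain ⟨y, hy, rfl⟩ := Finset.mem_image.1 h9
    exact h7 ((h5 y hy).symm.trans (h1 _ hy'))

end TComb

open TComb

theorem moduleLemma : ModuleLemma := by
  classical
  intro α κ X c ψ h Y hY
  have h1 : ∀ a ∈ Y, ∀ b ∈ Y, ∀ a' ∈ Y, ∀ b' ∈ X, c a' b' = c a b → b' ∈ Y := by
    intro a ha b hb a' ha' b' hb' e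
    obtain ⟨π, hπ, rfl, rfl, h2⟩ := h.orb a (hY.1 ha) b (hY.1 hb) a' (hY.1 ha') b' hb' e.symm
    exact stab (θ := id) h hY hπ h2 ha ha' hb
  refine ⟨hY.1, fun a ha b hb a' ha' b' hb' e => ?_⟩
  rcases e with e | e | e
  · exact h1 a ha b hb a' ha' b' hb' e
  · obtain ⟨π, hπ, rfl, rfl, h2⟩ := h.orb a (hY.1 ha) b (hY.1 hb) b' hb' a' (hY.1 ha') e.symm
    exact stab (θ := id) h hY hπ h2 hb ha' ha
  · obtain ⟨π, hπ, h2, h3⟩ := h.tw a (hY.1 ha)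
    refine h1 a ha (π b) (stab h hY hπ h3 ha (h2.symm ▸ ha) hb) a' ha' b' hb' ?_
    rw [e, ← h3 a (hY.1 ha) b (hY.1 hb), h2]

theorem halfLemma : HalfLemma := by
  classical
  rintro α κ X c ψ h B hB a ha b hb hab S hS hc (h1 | h1)
  · have h2 := half h hB hb ha hab.symm hS hc fun y hy =>
      transp h (hS hy) (hB.1 hb) (hB.1 ha) (hB.1 hb) (h1 y hy)
    obtain ⟨π, hπ, h3, h4⟩ := h.tw b (hB.1 hb)
    have h5 := h.fix b (hB.1 hb) a (hB.1 ha) (π a) (hπ.mapsTo (hB.1 ha)) h2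
      (by rw [← h2, ← h4 b (hB.1 hb) a (hB.1 ha), h3])
    rw [← h4 a (hB.1 ha) b (hB.1 hb), h3, h5]
  · exact half h hB ha hb hab hS hc h1

end Pool.Agent.Lib.MP_346d6a_co
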