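import Pool.Agent.Lib.MP_346d6a_co.TBasic

/-!
The tame case: the core theorem.
-/

set_option maxSynthPendingDepth 3

namespace Pool.Agent.Lib.MP_346d6a_co

open Polynomial

theorem DD_add {k : Type} [Field k] (f g : k[X]) : DD (f + g) = DD f + DD g := by
  simp only [DD, Polynomial.map_add, map_add]
  ring

theorem eq_C_mul_X {k : Type} [Field k] [IsAlgClosed k] {g : k[X]} {γ : k} (hγ : γ ≠ 0)
    (hd : derivative g = C γ) (hr : ∀ ζ, g.eval ζ = 0 → ζ = 0) : g = C γ * X := by
  have h0 : g ≠ 0 := by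
    rintro rfl
    exact hγ (C_eq_zero.1 (by rw [← hd, derivative_zero]))
  obtain ⟨q, hq, hq'⟩ := exists_eq_pow_rootMultiplicity_mul_and_not_dvd g h0 0
  have h1 : q.degree = 0 := by
    by_contra h
    obtain ⟨z, hz⟩ := IsAlgClosed.exists_root q h
    have : z = 0 := hr z (by rw [hq, eval_mul, hz.eq_zero, mul_zero])
    exact hq' (dvd_iff_isRoot.2 (this ▸ hz))
  rw [eq_C_of_degree_eq_zero h1, map_zero, sub_zero] at hq
  generalize rootMultiplicity 0 g = n at hq
  generalize q.coeff 0 = a at hq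
  subst hq
  rw [mul_comm, derivative_C_mul_X_pow] at hd
  have h2 := congrArg (fun p => p.coeff 0) hd
  simp only [coeff_C_mul, coeff_X_pow, coeff_C_zero] at h2
  rcases n with - | - | n
  · exact absurd (by simpa using h2.symm) hγ
  · have h3 : a = γ := by simpa using h2
    rw [h3, zero_add, pow_one, mul_comm]
  · exact absurd (by simpa using h2.symm) hγ

theorem coreThm (hF : FirstBlock) (hG : GStruct) (hL : LcUnit) (hR : RootsG) (hS : Sym4)
    (hC : Cocycle) (hO : OddDeg) : CoreThm := by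
  intro k _ _ _ φ f hc ht hr
  have h2 : (2 : k) = 0 := CharTwo.two_eq_zero
  obtain ⟨h, hb, hd, htay⟩ := hF k φ f hc ht
  obtain ⟨g, R, hFF, hg, hζ⟩ := hG k f h hc.deg hb.prim hb.zero hd hb.dvd
  have hN : h.natDegree ≠ 0 := hd ▸ hc.deg
  have hγ : (derivative f).leadingCoeff ≠ 0 := leadingCoeff_ne_zero.2 fun h0 =>
    hc.deg (by rw [h0, natDegree_zero])
  generalize (derivative f).leadingCoeff = γ at hg hγ
  have hm : h.Monic := hL k φ f h hc hb fun κ hκ => by
    have h1 := pow_sub_one_dvd_derivative_of_pow_dvd (hκ.mul_left g)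
    rw [hg, show 2 - 1 = 1 from rfl, pow_one, dvd_iff_isRoot, IsRoot, eval_C] at h1
    exact hγ h1
  rw [hm.leadingCoeff, mul_one] at hg
  have hζ' : ∀ ζ, g.eval ζ = 0 →
      ∃ a, taylor ζ (derivative f) = C γ * h.map (evalRingHom ζ) + C a := fun ζ h0 => by
    simpa only [hg, eval_C] using hζ ζ h0
  obtain rfl := eq_C_mul_X hγ hg fun ζ h0 =>
    hR k φ f h hc ht hr hb hm htay g R γ hγ hFF hg ζ h0 (hζ' ζ h0)
  obtain ⟨a, ha⟩ := hζ' 0 (by simp)
  rw [taylor_zero] at ha
  obtain ⟨hdvd, hsym⟩ := hS k f h R γ a hγ hm hN htay hFF ha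
  set Φ : k[X][X] := C X * h with hΦ
  have e0 : ∀ s x, Φ.evalEval s x = s * h.evalEval s x := fun s x => by
    rw [hΦ, evalEval_mul, evalEval_C, eval_X]
  have e1 : ∀ s, Φ.evalEval s 0 = 0 := fun s => by
    rw [e0, evalEval, C_0, ← coeff_zero_eq_eval_zero h, hb.zero, eval_zero, mul_zero]
  have e2 : ∀ s x, Φ.evalEval s (x + s) = Φ.evalEval s x := fun s x => by
    rw [e0, e0, ← ev2_self, ← ev2_taylor, htay, ev2_self]
  have e3 : ∀ s x y, Φ.evalEval s x + Φ.evalEval s y =
      Φ.evalEval (s + x + y) y + Φ.evalEval (s + x + y) x := fun s x y => by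
    simp only [e0, ← mul_add, hsym s x y]
  have e4 : ∀ s x, Φ.evalEval (s + x) x = Φ.evalEval s x := fun s x => by
    have := e3 s x 0
    rw [add_zero, e1, e1, add_zero, zero_add] at this
    exact this.symm
  have e5 : ∀ a b, Φ.evalEval a b = Φ.evalEval b a := fun a b => by
    rw [← e2 a b, ← e4 a (b + a), show a + (b + a) = b by linear_combination a * h2, add_comm b a,
      e2]
  obtain ⟨g₁, hg₁⟩ := hC k Φ e5 e1 (fun a => by simpa [e1] using e2 a 0) fun a b c => by
    have := e3 (a + b) a c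
    rw [show a + b + a + c = b + c by linear_combination a * h2, e4 b c, add_comm a b, e4 b a,
      e5 b a, e5 (b + c) a, add_comm b a] at this
    rw [this, add_comm]
  have hnl : ∀ j, (nl g₁).coeff j ≠ 0 → ¬ Lin j := fun j hj hl => by
    rw [coeff_nl, if_pos hl] at hj
    exact hj rfl
  have hDD : DD (nl g₁) = Φ + C (nl g₁) := ext_ev2 fun s x => by
    have h3 := (aff_sub_nl g₁).eval₂_add (RingHom.id k) x s
    have h4 := hg₁ 0 0
    rw [e1, add_zero] at h4
    simp only [eval₂_id, eval_sub, RingHom.id_apply, coeff_sub, coeff_nl,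
      if_pos (show Lin 0 from Or.inl rfl), coeff_zero_eq_eval_zero g₁] at h3
    rw [← ev2_self, ev2_DD, evalEval_add, evalEval_C, hg₁, add_comm s x, coe_aeval_eq_eval,
      coe_aeval_eq_eval]
    linear_combination -h3 + h4 + (eval x (nl g₁) - eval x g₁ - eval s g₁ + eval 0 g₁) * h2
  have hFg : FF (nl g₁) = C (C X) * SS h := by
    have h2' : (2 : k[X][X][X]) = 0 := CharTwo.two_eq_zero
    rw [FF, hDD, hΦ]
    simp only [SS, Polynomial.map_add, Polynomial.map_mul, map_C, map_add, map_mul]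
    linear_combination C (C (nl g₁)) * h2'
  have hΦd : Φ.natDegree = h.natDegree := natDegree_C_mul X_ne_zero
  have hd1 : (DD (nl g₁)).natDegree = h.natDegree := by rw [hDD, natDegree_add_C, hΦd]
  have hl1 : (DD (nl g₁)).leadingCoeff = X := by
    rw [leadingCoeff, hd1, hDD, coeff_add, coeff_C_of_ne_zero hN, add_zero, hΦ, coeff_C_mul,
      hm.coeff_natDegree, mul_one]
  have hd2 : (derivative (nl g₁)).natDegree = h.natDegree := by
    refine le_antisymm (hd1 ▸ natDegree_derivative_le_DD _) (le_natDegree_of_ne_zero ?_)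
    rw [← coeff_DD_one, ← hd1, ← leadingCoeff, hl1, coeff_X_one]
    exact one_ne_zero
  have hfix : (nl g₁).map (φ : k →+* k) = nl g₁ := by
    have h3 : mp2 (φ : k →+* k) Φ = Φ := by
      rw [hΦ, map_mul, hb.fix]
      simp [mp2]
    have h4 : Aff ((nl g₁).map (φ : k →+* k) + nl g₁) := by
      refine aff_of_DD ?_
      have h2' : (2 : k[X][X]) = 0 := CharTwo.two_eq_zero
      rw [DD_add, ← mp2_DD, hDD, map_add, h3,
        show Φ + mp2 (φ : k →+* k) (C (nl g₁)) + (Φ + C (nl g₁)) =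
          C ((nl g₁).map (φ : k →+* k) + nl g₁) by
          simp only [mp2, coe_mapRingHom, map_C, map_add]
          linear_combination Φ * h2', natDegree_C]
    ext j
    by_contra hne
    have h5 := h4 j (by rwa [coeff_add, Ne, CharTwo.add_eq_zero])
    rw [coeff_map, coeff_nl, if_pos h5, map_zero] at hne
    exact hne rfl
  have hdv : FF (nl g₁) ∣ FF f := hFg ▸ hdvd
  refine ⟨nl g₁, hfix, hnl, ?_, hdv⟩
  rw [← hd, ← hd2]
  exact hO k φ _ ⟨hfix, fun P hP hP' => hc.exc P hP (hP'.trans hdv), hd2 ▸ hN⟩ hnl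
    (hd1.trans hd2.symm) hl1

end Pool.Agent.Lib.MP_346d6a_co
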