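import Pool.Agent.Lib.MP_346d6a_co.Fin1

/-!
The tame case: definitions and the statements of the parts of the proof.
`k[X][X][X]` is `k[s][x][y]` (`s` innermost, `y` outermost), `k[X][X]` is `k[s][x]`.
-/

namespace Pool.Agent.Lib.MP_346d6a_co

open Polynomial

section

variable {k : Type} [Field k]

/-- `f (x + s) + f x` in `k[s][x]`. -/
noncomputable def DD (f : k[X]) : k[X][X] := taylor X (f.map C) + f.map C

/-- `h (s, y) + h (s, x)` in `k[s][x][y]`. -/
noncomputable def SS (h : k[X][X]) : k[X][X][X] := h.map C + C h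

/-- `f (y + s) + f y + f (x + s) + f x`. -/
noncomputable def FF (f : k[X]) : k[X][X][X] := SS (DD f)

/-- Action on the coefficients. -/
noncomputable def mp2 (φ : k →+* k) : k[X][X] →+* k[X][X] := mapRingHom (mapRingHom φ)

/-- Action on the coefficients. -/
noncomputable def mp3 (φ : k →+* k) : k[X][X][X] →+* k[X][X][X] := mapRingHom (mp2 φ)

variable (k) in
/-- The three trivial planes `s (y + x) (y + x + s)`. -/
noncomputable def triv : k[X][X][X] := C (C X) * (X + C X) * (X + C X + C (C X))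

/-- The only invariant components of the surface `FF f = 0` are the trivial planes. -/
def Exc (φ : k →+* k) (f : k[X]) : Prop :=
  ∀ P : k[X][X][X], Irreducible P → P ∣ FF f → P ∣ mp3 φ P → P ∣ triv k

/-- Tame polynomials. -/
def Tame (f : k[X]) : Prop :=
  ∀ i, 1 ≤ i → (hasseDeriv i f).natDegree ≤ i * (derivative f).natDegree

/-- No nonzero `κ` has `f (x + κ) + f x` constant. -/
def Rad0 (f : k[X]) : Prop := ∀ κ : k, κ ≠ 0 → (taylor κ f + f).natDegree ≠ 0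

/-- The standing assumptions. -/
structure Ctx (φ : k ≃+* k) (f : k[X]) : Prop where
  fix : f.map (φ : k →+* k) = f
  exc : Exc (φ : k →+* k) f
  deg : (derivative f).natDegree ≠ 0

variable {Ω : Type} [Field Ω] [Algebra k Ω]

/-- Evaluation of `k[s][x]`. -/
noncomputable def ev2 (s x : Ω) : k[X][X] →+* Ω := (aevalAeval s x : k[X][X] →ₐ[k] Ω)

/-- Evaluation of `k[s][x][y]`. -/
noncomputable def ev3 (s x y : Ω) : k[X][X][X] →+* Ω := eval₂RingHom (ev2 s x) y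

variable (k) in
/-- `s` and `x` are algebraically independent over `k`. -/
def Gen (s x : Ω) : Prop := Function.Injective (ev2 (k := k) s x)

open Classical in
/-- The solutions `y` of `f (y + s) + f y = f (x + s) + f x`. -/
noncomputable def Rts (f : k[X]) (s x : Ω) : Finset Ω := ((FF f).map (ev2 s x)).roots.toFinset

variable (k) in
/-- The colour of the pair `(x, y)`. -/
noncomputable def col (s x y : Ω) : Ideal k[X][X][X] := RingHom.ker (ev3 s x y)

/-- The fibres of `h` are modules. -/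
def ModBlk (f : k[X]) (h : k[X][X]) : Prop :=
  ∀ (Ω : Type) [Field Ω] [IsAlgClosed Ω] [Algebra k Ω] (s x x' y : Ω), Gen k s x →
    y ∈ Rts f s x → ev2 s x' h = ev2 s x h → ev2 s y h ≠ ev2 s x h → col k s x' y = col k s x y

/-- `h` defines an invariant system of blocks which are modules. -/
structure Blk (φ : k ≃+* k) (f : k[X]) (h : k[X][X]) : Prop where
  prim : h.IsPrimitive
  zero : h.coeff 0 = 0
  mon : h.leadingCoeff.Monic
  fix : mp2 (φ : k →+* k) h = h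
  dvd : SS h ∣ FF f
  md : ModBlk f h

end

section

variable {α κ : Type}

/-- A colouring of the pairs of `X` by the orbitals of a transitive group, with a twist `ψ`
all of whose fixed colours have valency one. -/
structure Coh (X : Finset α) (c : α → α → κ) (ψ : κ → κ) : Prop where
  diag : ∀ a ∈ X, ∀ b ∈ X, ∀ d ∈ X, (c a a = c b d ↔ b = d)
  orb : ∀ a ∈ X, ∀ b ∈ X, ∀ a' ∈ X, ∀ b' ∈ X, c a b = c a' b' → ∃ π : α → α,
    Set.BijOn π X X ∧ π a = a' ∧ π b = b' ∧ ∀ u ∈ X, ∀ w ∈ X, c (π u) (π w) = c u w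
  tw : ∀ a ∈ X, ∃ π : α → α,
    Set.BijOn π X X ∧ π a = a ∧ ∀ u ∈ X, ∀ w ∈ X, c (π u) (π w) = ψ (c u w)
  fix : ∀ a ∈ X, ∀ b ∈ X, ∀ b' ∈ X, ψ (c a b) = c a b → c a b' = c a b → b' = b

/-- Modules. -/
def IsMod (X Y : Finset α) (c : α → α → κ) : Prop :=
  Y ⊆ X ∧ ∀ a ∈ Y, ∀ b ∈ Y, ∀ y ∈ X, y ∉ Y → c a y = c b y

/-- Blocks of an invariant block system. -/
def Closed (X Y : Finset α) (c : α → α → κ) (ψ : κ → κ) : Prop :=
  Y ⊆ X ∧ ∀ a ∈ Y, ∀ b ∈ Y, ∀ a' ∈ Y, ∀ b' ∈ X,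
    (c a' b' = c a b ∨ c b' a' = c a b ∨ c a' b' = ψ (c a b)) → b' ∈ Y

end

/-- Modules are blocks. -/
def ModuleLemma : Prop :=
  ∀ (α κ : Type) (X : Finset α) (c : α → α → κ) (ψ : κ → κ), Coh X c ψ →
    ∀ Y, IsMod X Y c → Closed X Y c ψ

/-- A colour of valency at least half the size of a block is fixed. -/
def HalfLemma : Prop :=
  ∀ (α κ : Type) (X : Finset α) (c : α → α → κ) (ψ : κ → κ), Coh X c ψ →
    ∀ B, Closed X B c ψ → ∀ a ∈ B, ∀ b ∈ B, a ≠ b → ∀ S : Finset α, S ⊆ X → B.card ≤ 2 * S.card →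
    ((∀ x ∈ S, c x b = c a b) ∨ (∀ y ∈ S, c a y = c a b)) → ψ (c a b) = c a b

/-- Isomorphisms of generic configurations. -/
def Transfer : Prop :=
  ∀ (k : Type) [Field k] [CharP k 2] (φ : k ≃+* k) (f : k[X]), f.map (φ : k →+* k) = f →
    (derivative f).natDegree ≠ 0 →
    ∀ (Ω Ω' : Type) [Field Ω] [IsAlgClosed Ω] [Algebra k Ω] [Field Ω'] [IsAlgClosed Ω']
      [Algebra k Ω'] (s x y : Ω) (s' x' y' : Ω'), Gen k s x → y ∈ Rts f s x →
    (∀ P : k[X][X][X], ev3 s x y P = 0 ↔ ev3 s' x' y' (mp3 (φ : k →+* k) P) = 0) →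
    ∃ π : Ω → Ω', Set.BijOn π (Rts f s x) (Rts f s' x') ∧ π x = x' ∧ π y = y' ∧
      ∀ u ∈ Rts f s x, ∀ w ∈ Rts f s x, ∀ P : k[X][X][X],
        (ev3 s u w P = 0 ↔ ev3 s' (π u) (π w) (mp3 (φ : k →+* k) P) = 0)

/-- The generic configuration is coherent. -/
def CohLemma : Prop :=
  ∀ (k : Type) [Field k] [CharP k 2] (φ : k ≃+* k) (f : k[X]), Ctx φ f →
    ∀ (Ω : Type) [Field Ω] [IsAlgClosed Ω] [Algebra k Ω] (s a : Ω), Gen k s a →
    Coh (Rts f s a) (col k s) (Ideal.map (mp3 (φ : k →+* k)))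

/-- A module is the fibre of a polynomial. -/
def BlockPoly : Prop :=
  ∀ (k : Type) [Field k] [CharP k 2] (φ : k ≃+* k) (f : k[X]), Ctx φ f →
    ∀ (Ω : Type) [Field Ω] [IsAlgClosed Ω] [Algebra k Ω] (s a : Ω), Gen k s a →
    ∀ Y, IsMod (Rts f s a) Y (col k s) → a ∈ Y →
    ∃ h : k[X][X], Blk φ f h ∧ h.natDegree = Y.card ∧
      ∀ y ∈ Rts f s a, (y ∈ Y ↔ ev2 s y h = ev2 s a h)

/-- Gauss lemma: a surface that is a graph over a polydisc has one component there. -/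
def Indep : Prop :=
  ∀ (k k₁ Ω : Type) [Field k] [Field k₁] [IsAlgClosed k₁] [Field Ω] [Algebra k Ω] [Algebra k₁ Ω]
    (V : Val k₁ Ω) (G : k[X][X][X]) (s y x μ l c : Ω), c ≠ 0 →
    (∀ ε ξ : Ω, V.v ε ≤ 1 → V.v ξ ≤ 1 →
      V.v (ev3 (s + l * ε) (x + μ * ξ) y G - c * ε) < V.v c) →
    ∀ P₁ P₂ : k[X][X][X], P₁ * P₂ ∣ G → ∀ ξ₁ ξ₂ : Ω, V.v ξ₁ ≤ 1 → V.v ξ₂ ≤ 1 →
    ev3 s (x + μ * ξ₁) y P₁ = 0 → ev3 s (x + μ * ξ₂) y P₂ = 0 → False

/-- Tame polynomials at a finite value of `s`: an infinite root sees close roots alike. -/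
def IndepTame : Prop :=
  ∀ (k k₁ Ω : Type) [Field k] [CharP k 2] [Field k₁] [IsAlgClosed k₁] [Field Ω] [IsAlgClosed Ω]
    [Algebra k k₁] [Algebra k Ω] [Algebra k₁ Ω] [IsScalarTower k k₁ Ω] (V : Val k₁ Ω) (f : k[X]),
    (derivative f).natDegree ≠ 0 → Tame f → ∀ s x₁ x₂ y : Ω, Gen k s x₁ → x₂ ∈ Rts f s x₁ →
    y ∈ Rts f s x₁ → V.v s ≤ 1 → V.v x₁ ≤ 1 → V.v x₂ ≤ 1 → 1 < V.v y →
    (V.v s < 1 ∨ V.v (x₂ - x₁) < 1) → col k s x₂ y = col k s x₁ y

/-- The roots that stay finite as `s` tends to zero form a block. -/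
def FirstBlock : Prop :=
  ∀ (k : Type) [Field k] [IsAlgClosed k] [CharP k 2] (φ : k ≃+* k) (f : k[X]), Ctx φ f → Tame f →
    ∃ h : k[X][X], Blk φ f h ∧ h.natDegree = (derivative f).natDegree ∧ taylor X h = h

/-- The decomposition of `DD f` through `h`. -/
def GStruct : Prop :=
  ∀ (k : Type) [Field k] [CharP k 2] (f : k[X]) (h : k[X][X]), (derivative f).natDegree ≠ 0 →
    h.IsPrimitive → h.coeff 0 = 0 → h.natDegree = (derivative f).natDegree → SS h ∣ FF f →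
    ∃ (g : k[X]) (R : k[X][X][X]), FF f = SS h * (C (C g) + SS h * R) ∧
      derivative (g * h.leadingCoeff) = C (derivative f).leadingCoeff ∧
      ∀ ζ : k, g.eval ζ = 0 → ∃ a : k,
        taylor ζ (derivative f) = C ((derivative g).eval ζ) * h.map (evalRingHom ζ) + C a

/-- The block polynomial is monic. -/
def LcUnit : Prop :=
  ∀ (k : Type) [Field k] [IsAlgClosed k] [CharP k 2] (φ : k ≃+* k) (f : k[X]) (h : k[X][X]),
    Ctx φ f → Blk φ f h → (∀ κ : k, ¬ (X - C κ) ^ 2 ∣ h.leadingCoeff) → h.Monic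

/-- The only root of `g` is zero. -/
def RootsG : Prop :=
  ∀ (k : Type) [Field k] [IsAlgClosed k] [CharP k 2] (φ : k ≃+* k) (f : k[X]) (h : k[X][X]),
    Ctx φ f → Tame f → Rad0 f → Blk φ f h → h.Monic → taylor X h = h →
    ∀ (g : k[X]) (R : k[X][X][X]) (γ : k), γ ≠ 0 → FF f = SS h * (C (C g) + SS h * R) →
    derivative g = C γ → ∀ ζ : k, g.eval ζ = 0 →
    (∃ a : k, taylor ζ (derivative f) = C γ * h.map (evalRingHom ζ) + C a) → ζ = 0

/-- The product of the components meeting the trivial planes is symmetric. -/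
def Sym4 : Prop :=
  ∀ (k : Type) [Field k] [CharP k 2] (f : k[X]) (h : k[X][X]) (R : k[X][X][X]) (γ a : k), γ ≠ 0 →
    h.Monic → h.natDegree ≠ 0 → taylor X h = h → FF f = SS h * (C (C (C γ * X)) + SS h * R) →
    derivative f = C γ * h.map (evalRingHom 0) + C a →
    C (C X) * SS h ∣ FF f ∧ ∀ s x y : k, s * (h.evalEval s x + h.evalEval s y) =
      (s + x + y) * (h.evalEval (s + x + y) y + h.evalEval (s + x + y) x)

/-- Alternating symmetric polynomial cocycles are coboundaries. -/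
def Cocycle : Prop :=
  ∀ (k : Type) [Field k] [IsAlgClosed k] [CharP k 2] (Φ : k[X][X]),
    (∀ a b, Φ.evalEval a b = Φ.evalEval b a) → (∀ a, Φ.evalEval a 0 = 0) →
    (∀ a, Φ.evalEval a a = 0) →
    (∀ a b c, Φ.evalEval a b + Φ.evalEval (a + b) c = Φ.evalEval a (b + c) + Φ.evalEval b c) →
    ∃ g : k[X], ∀ a b, Φ.evalEval a b = g.eval a + g.eval b + g.eval (a + b)

/-- If the leading coefficient of `DD g` is `s` then `g` has odd degree. -/
def OddDeg : Prop :=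
  ∀ (k : Type) [Field k] [IsAlgClosed k] [CharP k 2] (φ : k ≃+* k) (g : k[X]), Ctx φ g →
    (∀ j, g.coeff j ≠ 0 → ¬ Lin j) → (DD g).natDegree = (derivative g).natDegree →
    (DD g).leadingCoeff = X → g.natDegree = (derivative g).natDegree + 1

/-- The core of the tame case. -/
def CoreThm : Prop :=
  ∀ (k : Type) [Field k] [IsAlgClosed k] [CharP k 2] (φ : k ≃+* k) (f : k[X]), Ctx φ f → Tame f →
    Rad0 f → ∃ g : k[X], g.map (φ : k →+* k) = g ∧ (∀ j, g.coeff j ≠ 0 → ¬ Lin j) ∧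
      g.natDegree = (derivative f).natDegree + 1 ∧ FF g ∣ FF f

/-- Descent of factorisations (uniqueness in Hensel's lemma). -/
def Descent : Prop :=
  ∀ (K k : Type) [Field K] [Field k] [Algebra K k] (Q : K[X][X]) (b : K) (U W : k[X][X]),
    Q.map (mapRingHom (algebraMap K k)) = U * W → Q.leadingCoeff.eval b ≠ 0 →
    (Q.map (evalRingHom b)).Separable → (Q.map (evalRingHom b)).Splits →
    ∃ U' : K[X][X], U'.map (mapRingHom (algebraMap K k)) = C W.leadingCoeff * U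

/-- Invariant components of the surface have fixed points. -/
def SurfPAC : Prop :=
  ∀ (k₀ k : Type) [Field k₀] [IsAlgClosed k₀] [CharP k₀ 2] [Field k] [IsAlgClosed k] [CharP k 2]
    [Algebra k₀ k] (φ : k ≃+* k) (φ₀ : k₀ →+* k₀) (t : k), PAC φ →
    (∀ c, φ (algebraMap k₀ k c) = algebraMap k₀ k (φ₀ c)) → φ t = t → Transcendental k₀ t →
    (∀ c : k₀, ∃ N, 1 ≤ N ∧ c ^ 2 ^ N = c) → ∀ f : k₀[X], (derivative f).natDegree ≠ 0 →
    APNFix φ (f.map (algebraMap k₀ k)) → Exc φ₀ f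

/-- Factoring out the radical. -/
def RadRed : Prop :=
  ∀ (F k : Type) [Field F] [CharP F 2] [Field k] [IsAlgClosed k] [Algebra F k] (f : F[X]),
    (derivative f).natDegree ≠ 0 → Tame f →
    ∃ f₁ L M : F[X], Aff L ∧ L.coeff 0 = 0 ∧ L.Monic ∧ L.coeff 1 ≠ 0 ∧ Aff M ∧
      f = f₁.comp L + M ∧ (derivative f₁).natDegree ≠ 0 ∧ Tame f₁ ∧
      Rad0 (f₁.map (algebraMap F k))

/-- An additive right factor can be cancelled. -/
def ApnComp : Prop :=
  ∀ (k : Type) [Field k] [IsAlgClosed k] [CharP k 2] (φ : k ≃+* k),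
    (∀ a b : k, ∃ u, φ u = u ∧ u ≠ a ∧ u ≠ b) → ∀ L f : k[X], L.map (φ : k →+* k) = L → Aff L →
    L.coeff 0 = 0 → L.coeff 1 ≠ 0 → APNFix φ (f.comp L) → APNFix φ f

/-- If the cone of `x ^ e` lies on the surface of `f`, the exponents have large odd parts. -/
def Homog : Prop :=
  ∀ (k : Type) [Field k] [IsAlgClosed k] [CharP k 2] (f : k[X]) (e : ℕ), Odd e → 3 ≤ e →
    (∀ s x y : k, (y + s) ^ e + y ^ e + ((x + s) ^ e + x ^ e) = 0 →
      f.eval (y + s) + f.eval y + (f.eval (x + s) + f.eval x) = 0) →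
    ∀ c o, Odd o → f.coeff (2 ^ c * o) ≠ 0 → o = 1 ∨ e ≤ o

/-- CCZ-equivalence on a finite field. -/
def FinCCZ : Prop :=
  ∀ (E : Type) [Field E] [Finite E] [CharP E 2] (L₁ L₂ B : E →+ E) (c b : E) (t : ℕ) (G : E → E),
    (∀ x, G x = L₁ ((L₂ x + c) ^ t) + B x + b) → IsAPN G → 1 ≤ t → t + 1 < Nat.card E →
    CCZ G (fun x => x ^ t)

end Pool.Agent.Lib.MP_346d6a_co
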