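import Pool.Agent.Lib.MP_346d6a_co.TBasic

/-!
The tame case, part TDesc.
-/

set_option maxSynthPendingDepth 3

namespace Pool.Agent.Lib.MP_346d6a_co

open Polynomial

namespace TDesc

/-- A retraction of a ring map extends coefficientwise to polynomials. -/
theorem exists_lift {R S : Type} [CommRing R] [CommRing S] (φ : R →+* S) (r : S →+ R)
    (hr : ∀ a s, r (φ a * s) = a * r s) :
    ∃ ρ : S[X] →+ R[X], (∀ p n, (ρ p).coeff n = r (p.coeff n)) ∧
      ∀ a s, ρ (mapRingHom φ a * s) = a * ρ s := by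
  have hc : ∀ (p : S[X]) (n : ℕ),
      (p.sum fun m a => monomial m (r a)).coeff n = r (p.coeff n) := by
    intro p n
    rw [coeff_sum, sum_def, Finset.sum_eq_single n]
    · rw [coeff_monomial, if_pos rfl]
    · intro m _ hm
      rw [coeff_monomial, if_neg hm]
    · intro hn
      rw [notMem_support_iff.mp hn, map_zero, map_zero, coeff_zero]
  refine ⟨AddMonoidHom.mk' (fun p => p.sum fun m a => monomial m (r a)) fun p q => ?_, hc,
    fun a s => ?_⟩
  · ext n
    rw [coeff_add, hc, hc, hc, coeff_add, map_add]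
  · ext n
    simp only [AddMonoidHom.mk'_apply, hc, coeff_mul, map_sum, coe_mapRingHom, coeff_map, hr]

/-- A divisor of a split polynomial whose leading coefficient descends, descends. -/
theorem lift_of_dvd {K k : Type} [Field K] [Field k] (ι : K →+* k) {q : K[X]} (hq : q.Splits)
    (hq0 : q ≠ 0) {u : k[X]} (hu : u ∣ q.map ι) {c : K} (hc : u.leadingCoeff = ι c) :
    ∃ g : K[X], g.map ι = u := by
  have hm0 : q.map ι ≠ 0 := map_ne_zero hq0
  have hs : u.Splits := (hq.map ι).of_dvd hm0 hu
  have : u ∈ liftsRing ι := by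
    rw [hs.eq_prod_roots, hc]
    refine Subring.mul_mem _ ⟨C c, by simp⟩ (Subring.multiset_prod_mem _ _ fun g hg => ?_)
    obtain ⟨x, hx, rfl⟩ := Multiset.mem_map.mp hg
    have hx' : (q.map ι).IsRoot x := (isRoot_of_mem_roots hx).dvd hu
    obtain ⟨y, rfl⟩ := hq.mem_range_of_isRoot hq0 hx'
    exact ⟨X - C y, by simp⟩
  exact this

theorem dvd_of_map_eq_zero {k : Type} [Field k] (β : k) {u : k[X][X]}
    (h : u.map (evalRingHom β) = 0) : C (X - C β) ∣ u := by
  rw [C_dvd_iff_dvd_coeff]
  intro i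
  rw [dvd_iff_isRoot]
  have := congrArg (fun p => p.coeff i) h
  simpa using this

theorem eq_zero_of_pow_dvd {k : Type} [Field k] (β : k) {D : k[X][X]}
    (h : ∀ j : ℕ, C (X - C β) ^ (j + 1) ∣ D) : D = 0 := by
  ext1 i
  have h1 := h (D.coeff i).natDegree
  rw [← C_pow, C_dvd_iff_dvd_coeff] at h1
  refine eq_zero_of_dvd_of_natDegree_lt (h1 i) ?_
  rw [natDegree_pow, natDegree_X_sub_C]
  omega

/-- Uniqueness in Hensel's lemma, with a coefficientwise retraction. -/
theorem main {K k : Type} [Field K] [Field k] (ι : K →+* k) (b : K) (ρ : k[X][X] →+ K[X][X])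
    (r : k[X] →+ K[X]) (hc : ∀ p n, (ρ p).coeff n = r (p.coeff n))
    (hr1 : ∀ a, r (mapRingHom ι a) = a)
    (hρ : ∀ a s, ρ (mapRingHom (mapRingHom ι) a * s) = a * ρ s)
    (U W : k[X][X]) (T : K[X][X]) (hT : U * W = mapRingHom (mapRingHom ι) T) (l : K[X])
    (hl : U.leadingCoeff = mapRingHom ι l) (hl0 : l.eval b ≠ 0)
    (hcop : IsCoprime (U.map (evalRingHom (ι b))) (W.map (evalRingHom (ι b))))
    (gU gW : K[X]) (hgU : gU.map ι = U.map (evalRingHom (ι b)))
    (hgW : gW.map ι = W.map (evalRingHom (ι b))) :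
    mapRingHom (mapRingHom ι) (ρ U) = U := by
  set φ : K[X][X] →+* k[X][X] := mapRingHom (mapRingHom ι) with hφ
  set e : k[X][X] →+* k[X] := mapRingHom (evalRingHom (ι b)) with he
  set w : k[X][X] := C (X - C (ι b)) with hw
  set w' : K[X][X] := C (X - C b) with hw'
  have hww : φ w' = w := by simp [hφ, hw, hw']
  have hw0 : w ≠ 0 := C_ne_zero.mpr (X_sub_C_ne_zero _)
  have hw0' : w' ≠ 0 := C_ne_zero.mpr (X_sub_C_ne_zero _)
  have hew : e w = 0 := by simp [he, hw]
  have hρφ : ∀ a, ρ (φ a) = a := by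
    intro a
    ext1 n
    rw [hc, hφ, coe_mapRingHom, coeff_map, hr1]
  have hlb : (evalRingHom (ι b)) U.leadingCoeff ≠ 0 := by
    rw [hl, coe_evalRingHom, coe_mapRingHom, eval_map_apply]
    exact (map_ne_zero ι).mpr hl0
  have hU0 : U ≠ 0 := by
    rintro rfl
    simp at hlb
  have hdeg : (e U).degree = U.degree := degree_map_eq_of_leadingCoeff_ne_zero _ hlb
  have heU0 : e U ≠ 0 := by
    intro h
    rw [h, degree_zero] at hdeg
    exact hU0 (degree_eq_bot.mp hdeg.symm)
  have base : ∀ (P : k[X][X]) (g : K[X]), g.map ι = P.map (evalRingHom (ι b)) →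
      ∃ u, P = φ (ρ P) + w ^ (0 + 1) * u := by
    intro P g hg
    have h1 : w ∣ P - φ (g.map C) := by
      refine dvd_of_map_eq_zero _ ?_
      rw [Polynomial.map_sub, ← hg, hφ, coe_mapRingHom, Polynomial.map_map, Polynomial.map_map,
        sub_eq_zero]
      congr 1
      ext a
      simp
    obtain ⟨u, hu⟩ := h1
    have h2 : P = φ (g.map C) + φ w' * u := by rw [hww, ← hu]; ring
    have h3 : ρ P = g.map C + w' * ρ u := by rw [h2, map_add, hρφ, hρ]
    refine ⟨u - φ (ρ u), ?_⟩
    rw [h3, map_add, map_mul, hww, zero_add, pow_one]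
    linear_combination hu
  have hzero : ∀ (P u : k[X][X]) (j : ℕ), P = φ (ρ P) + w ^ j * u → ρ u = 0 := by
    intro P u j h
    have h1 := congrArg ρ h
    rw [map_add, hρφ, ← hww, ← map_pow, hρ] at h1
    have h2 : w' ^ j * ρ u = 0 := by linear_combination -h1
    exact (mul_eq_zero.mp h2).resolve_left (pow_ne_zero _ hw0')
  have key : ∀ j : ℕ, ∃ u v, U = φ (ρ U) + w ^ (j + 1) * u ∧ W = φ (ρ W) + w ^ (j + 1) * v := by
    intro j
    induction j with
    | zero =>
      obtain ⟨u, hu⟩ := base U gU hgU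
      obtain ⟨v, hv⟩ := base W gW hgW
      exact ⟨u, v, hu, hv⟩
    | succ j ih =>
      obtain ⟨u, v, hu, hv⟩ := ih
      have hu0 := hzero U u _ hu
      have hv0 := hzero W v _ hv
      have h1 : φ T = φ (ρ U * ρ W) + φ (w' ^ (j + 1) * ρ U) * v + φ (w' ^ (j + 1) * ρ W) * u +
          φ (w' ^ (j + 1) * w' ^ (j + 1)) * (u * v) := by
        rw [← hT]
        simp only [map_mul, map_pow, hww]
        nth_rewrite 1 [hu, hv]
        ring
      have h2 := congrArg ρ h1
      rw [map_add, map_add, map_add, hρφ, hρφ, hρ, hρ, hρ, hu0, hv0] at h2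
      have h3 := congrArg φ h2
      rw [h1] at h3
      simp only [map_add, map_mul, map_pow, hww, mul_zero, add_zero] at h3
      have h4 : w ^ (j + 1) * (φ (ρ U) * v + φ (ρ W) * u +
          w ^ (j + 1) * (u * v - φ (ρ (u * v)))) = 0 := by
        linear_combination h3
      have h5 := congrArg e ((mul_eq_zero.mp h4).resolve_left (pow_ne_zero _ hw0))
      have hA : e (φ (ρ U)) = e U := by
        conv_rhs => rw [hu]
        rw [map_add, map_mul, map_pow, hew, pow_succ, mul_zero, zero_mul, add_zero]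
      have hB : e (φ (ρ W)) = e W := by
        conv_rhs => rw [hv]
        rw [map_add, map_mul, map_pow, hew, pow_succ, mul_zero, zero_mul, add_zero]
      rw [map_add, map_add, map_mul, map_mul, map_mul, map_pow, hew, pow_succ, mul_zero, zero_mul,
        add_zero, hA, hB, map_zero] at h5
      have hdu : u.degree < U.degree := by
        rw [degree_eq_natDegree hU0, degree_lt_iff_coeff_zero]
        intro m hm
        have h6 : (φ (ρ U)).coeff m = U.coeff m := by
          rw [hφ, coe_mapRingHom, coeff_map, hc]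
          rcases hm.eq_or_lt with h | h
          · rw [← h, coeff_natDegree, hl, hr1]
          · rw [coeff_eq_zero_of_natDegree_lt h, map_zero, map_zero]
        have h7 := congrArg (fun p => p.coeff m) hu
        simp only [coeff_add, h6, hw, ← C_pow, coeff_C_mul] at h7
        have h8 : (X - C (ι b)) ^ (j + 1) * u.coeff m = 0 := by linear_combination -h7
        exact (mul_eq_zero.mp h8).resolve_left (pow_ne_zero _ (X_sub_C_ne_zero _))
      have heu : e u = 0 := by
        have h9 : e U ∣ e u * e W := ⟨-e v, by linear_combination h5⟩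
        refine eq_zero_of_dvd_of_degree_lt (hcop.dvd_of_dvd_mul_right h9) ?_
        exact lt_of_le_of_lt degree_map_le (hdeg ▸ hdu)
      have hev : e v = 0 := by
        rw [heu, mul_zero, add_zero] at h5
        exact (mul_eq_zero.mp h5).resolve_left heU0
      obtain ⟨u', rfl⟩ := dvd_of_map_eq_zero _ heu
      obtain ⟨v', rfl⟩ := dvd_of_map_eq_zero _ hev
      exact ⟨u', v', by rw [pow_succ w (j + 1), mul_assoc]; exact hu,
        by rw [pow_succ w (j + 1), mul_assoc]; exact hv⟩
  have : U - φ (ρ U) = 0 := by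
    refine eq_zero_of_pow_dvd (ι b) fun j => ?_
    obtain ⟨u, -, hu, -⟩ := key j
    exact ⟨u, by linear_combination hu⟩
  exact (sub_eq_zero.mp this).symm

end TDesc

open TDesc

theorem descent : Descent := by
  intro K k _ _ _ Q b U W hQ hl hsep hspl
  set ι : K →+* k := algebraMap K k with hι
  obtain ⟨r₀, hr₀⟩ := (Algebra.linearMap K k).exists_leftInverse_of_injective
    (LinearMap.ker_eq_bot.mpr (algebraMap K k).injective)
  have hr₀1 : ∀ a, r₀ (ι a) = a := fun a => LinearMap.congr_fun hr₀ a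
  obtain ⟨r, hrc, hr⟩ := exists_lift ι r₀.toAddMonoidHom fun a s => by
    rw [hι, ← Algebra.smul_def]
    exact r₀.map_smul a s
  have hr1 : ∀ a, r (mapRingHom ι a) = a := by
    intro a
    ext n
    rw [hrc, coe_mapRingHom, coeff_map]
    exact hr₀1 _
  obtain ⟨ρ, hρc, hρ⟩ := exists_lift (mapRingHom ι) r hr
  have hinj : Function.Injective (mapRingHom ι) := map_injective ι ι.injective
  have hlc : U.leadingCoeff * W.leadingCoeff = mapRingHom ι Q.leadingCoeff := by
    rw [← leadingCoeff_mul, ← hQ, leadingCoeff_map_of_injective hinj]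
  have hl0 : Q.leadingCoeff ≠ 0 := by
    intro h
    rw [h] at hl
    exact hl (eval_zero)
  have hlb : (evalRingHom (ι b)) (mapRingHom ι Q.leadingCoeff) = ι (Q.leadingCoeff.eval b) := by
    rw [coe_evalRingHom, coe_mapRingHom, eval_map_apply]
  have hlb0 : ι (Q.leadingCoeff.eval b) ≠ 0 := (map_ne_zero ι).mpr hl
  have hU1 : (C W.leadingCoeff * U).leadingCoeff = mapRingHom ι Q.leadingCoeff := by
    rw [leadingCoeff_mul, leadingCoeff_C, mul_comm, hlc]
  have hW1 : (C U.leadingCoeff * W).leadingCoeff = mapRingHom ι Q.leadingCoeff := by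
    rw [leadingCoeff_mul, leadingCoeff_C, hlc]
  have hT : (C W.leadingCoeff * U) * (C U.leadingCoeff * W) =
      mapRingHom (mapRingHom ι) (C Q.leadingCoeff * Q) := by
    rw [map_mul, coe_mapRingHom, map_C, hQ, ← hlc, C_mul]
    ring
  have hcomm : ∀ P : K[X][X], (mapRingHom (mapRingHom ι) P).map (evalRingHom (ι b)) =
      (P.map (evalRingHom b)).map ι := by
    intro P
    rw [coe_mapRingHom, Polynomial.map_map, Polynomial.map_map]
    congr 1
    ext a <;> simp
  have hprod : (C W.leadingCoeff * U).map (evalRingHom (ι b)) *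
      (C U.leadingCoeff * W).map (evalRingHom (ι b)) =
      (C (Q.leadingCoeff.eval b) * Q.map (evalRingHom b)).map ι := by
    rw [← Polynomial.map_mul, hT, hcomm, Polynomial.map_mul, map_C, coe_evalRingHom]
  have hsep' : (C (Q.leadingCoeff.eval b) * Q.map (evalRingHom b)).Separable :=
    Separable.unit_mul (isUnit_C.mpr hl.isUnit) hsep
  have hspl' : (C (Q.leadingCoeff.eval b) * Q.map (evalRingHom b)).Splits := hspl.C_mul _
  have hcop : IsCoprime ((C W.leadingCoeff * U).map (evalRingHom (ι b)))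
      ((C U.leadingCoeff * W).map (evalRingHom (ι b))) := by
    refine Separable.isCoprime ?_
    rw [hprod]
    exact hsep'.map
  have hlm : ∀ P : k[X][X], P.leadingCoeff = mapRingHom ι Q.leadingCoeff →
      (P.map (evalRingHom (ι b))).leadingCoeff = ι (Q.leadingCoeff.eval b) := by
    intro P hP
    rw [leadingCoeff_map_of_leadingCoeff_ne_zero _ (by rw [hP, hlb]; exact hlb0), hP, hlb]
  obtain ⟨gU, hgU⟩ := lift_of_dvd ι hspl' hsep'.ne_zero (hprod ▸ dvd_mul_right _ _) (hlm _ hU1)
  obtain ⟨gW, hgW⟩ := lift_of_dvd ι hspl' hsep'.ne_zero (hprod ▸ dvd_mul_left _ _) (hlm _ hW1)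
  exact ⟨ρ (C W.leadingCoeff * U),
    main ι b ρ r hρc hr1 hρ _ _ _ hT _ hU1 hl hcop gU gW hgU hgW⟩

end Pool.Agent.Lib.MP_346d6a_co
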