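import Pool.Agent.Lib.MP_346d6a_co.TBasic
import Pool.Agent.Lib.MP_346d6a_co.Fin2

/-!
The tame case, part TFin.
-/

set_option maxSynthPendingDepth 3

namespace Pool.Agent.Lib.MP_346d6a_co

open Polynomial

namespace TFin

/-- CCZ-equivalence from additive equivalences on both sides. -/
theorem ccz_of_equiv {E : Type} [Field E] {G H : E → E} (σ τ : E ≃+ E) (B : E →+ E)
    (b c : E) (h : ∀ x, G x = τ (H (σ x + c)) + B x + b) : CCZ G H := by
  let L : E × E ≃+ E × E :=
    { toFun := fun p => (σ p.1, τ.symm (p.2 - B p.1))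
      invFun := fun p => (σ.symm p.1, τ p.2 + B (σ.symm p.1))
      left_inv := fun p => by
        simp only [AddEquiv.symm_apply_apply, AddEquiv.apply_symm_apply, sub_add_cancel]
      right_inv := fun p => by
        simp only [AddEquiv.symm_apply_apply, AddEquiv.apply_symm_apply, add_sub_cancel_right]
      map_add' := fun p p' => by
        simp only [Prod.fst_add, Prod.snd_add, map_add, Prod.mk_add_mk, map_sub]
        congr 1
        ring }
  refine ⟨L, (c, -τ.symm b), ?_⟩
  have hL : ∀ x, L (x, G x) + (c, -τ.symm b) = (σ x + c, H (σ x + c)) := fun x => by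
    change (σ x, τ.symm (G x - B x)) + (c, -τ.symm b) = _
    rw [Prod.mk_add_mk, h x]
    congr 1
    rw [show τ (H (σ x + c)) + B x + b - B x = τ (H (σ x + c)) + b by ring, map_add,
      AddEquiv.symm_apply_apply, add_neg_cancel_right]
  ext p
  constructor
  · rintro ⟨⟨x, y⟩, hy, rfl⟩
    obtain rfl : y = G x := hy
    simp only [hL]
    rfl
  · intro hp
    refine ⟨(σ.symm (p.1 - c), G (σ.symm (p.1 - c))), rfl, ?_⟩
    simp only [hL, AddEquiv.apply_symm_apply, sub_add_cancel]
    exact Prod.ext rfl (Eq.symm hp)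

/-- The derivatives of an APN function are two-to-one. -/
theorem two_to_one {E : Type} [Field E] [Finite E] [CharP E 2] {G : E → E} (h : IsAPN G)
    {s : E} (hs : s ≠ 0) {u w : E} (he : G (w + s) + G w = G (u + s) + G u) :
    w = u ∨ w = u + s := by
  have h2 : (2 : E) = 0 := CharTwo.two_eq_zero
  by_contra hn
  push Not at hn
  have h5 : ({u, u + s, w} : Set E) ⊆ {x | G (x + s) + G x = G (u + s) + G u} := by
    rintro x (rfl | rfl | rfl)
    · rfl
    · rw [Set.mem_ofPred_eq, show u + s + s = u by linear_combination s * h2, add_comm]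
    · exact he
  have h6 := Set.ncard_le_ncard h5 (Set.toFinite _)
  rw [Set.ncard_eq_three.2 ⟨u, u + s, w, by simpa using hs, hn.1.symm, hn.2.symm, rfl⟩] at h6
  exact absurd (h6.trans (h s _ hs)) (by norm_num)

/-- A set with half of the points that is disjoint from its translate is its complement. -/
theorem flip {E : Type} [Field E] [Fintype E] [DecidableEq E] (I : Finset E) (a : E)
    (hc : Fintype.card E ≤ 2 * I.card) (hd : ∀ v ∈ I, v + a ∉ I) :
    (∀ v, v + a ∈ I ↔ v ∉ I) ∧ Fintype.card E = 2 * I.card := by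
  have hdis : Disjoint I (I.image (fun v => v + a)) := by
    rw [Finset.disjoint_right]
    intro x hx
    obtain ⟨v, hv, rfl⟩ := Finset.mem_image.1 hx
    exact hd v hv
  have hcard : (I ∪ I.image (fun v => v + a)).card = 2 * I.card := by
    rw [Finset.card_union_of_disjoint hdis,
      Finset.card_image_of_injective _ (add_left_injective a), two_mul]
  have huniv : I ∪ I.image (fun v => v + a) = Finset.univ :=
    Finset.eq_univ_of_card _ (le_antisymm (Finset.card_le_univ _) (hcard ▸ hc))
  refine ⟨fun v => ⟨fun h hv => hd v hv h, fun h => ?_⟩, by rw [← hcard, huniv, Finset.card_univ]⟩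
  have h1 : v + a ∈ I ∪ I.image (fun v => v + a) := huniv ▸ Finset.mem_univ _
  rcases Finset.mem_union.1 h1 with h1 | h1
  · exact h1
  · obtain ⟨w, hw, hw'⟩ := Finset.mem_image.1 h1
    exact absurd (add_right_cancel hw' ▸ hw) h

theorem flip_sum {E : Type} [Field E] [DecidableEq E] (I : Finset E) (g : E → E) (S : Finset E)
    (h : ∀ s ∈ S, ∀ v, v + g s ∈ I ↔ v ∉ I) (v : E) :
    v + ∑ s ∈ S, g s ∈ I ↔ (v ∈ I ↔ Even S.card) := by
  induction S using Finset.induction_on with
  | empty => simp
  | insert a S ha ih =>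
    rw [Finset.sum_insert ha, Finset.card_insert_of_notMem ha, Nat.even_add_one,
      show v + (g a + ∑ s ∈ S, g s) = v + ∑ s ∈ S, g s + g a by ring,
      h a (Finset.mem_insert_self _ _), ih fun s hs => h s (Finset.mem_insert_of_mem hs)]
    tauto

/-- An additive map that keeps a power function APN is injective. -/
theorem inj_of_pow {E : Type} [Field E] [Finite E] [CharP E 2] (L : E →+ E) {t : ℕ} (ht : 1 ≤ t)
    (ht' : t + 1 < Nat.card E)
    (h : ∀ s, s ≠ 0 → ∀ u w : E, L ((w + s) ^ t + w ^ t) = L ((u + s) ^ t + u ^ t) →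
      w = u ∨ w = u + s) : Function.Injective L := by
  classical
  have h2 : (2 : E) = 0 := CharTwo.two_eq_zero
  let _ : Fintype E := Fintype.ofFinite E
  rw [Nat.card_eq_fintype_card] at ht'
  rw [injective_iff_map_eq_zero]
  intro c₀ hc₀
  by_contra hne
  set D : E → E := fun u => (u + 1) ^ t + u ^ t with hD
  have hD1 : ∀ u, D (u + 1) = D u := fun u => by
    simp only [hD]
    rw [show u + 1 + 1 = u by linear_combination h2, add_comm]
  set I : Finset E := Finset.univ.image D with hI
  have hc : Fintype.card E ≤ 2 * I.card := by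
    rw [← Finset.card_univ]
    refine Finset.card_le_mul_card_image _ 2 fun v hv => ?_
    obtain ⟨u, -, rfl⟩ := Finset.mem_image.1 hv
    refine le_trans (Finset.card_le_card (t := {u, u + 1}) fun w hw => ?_) Finset.card_le_two
    have h1 : D w = D u := (Finset.mem_filter.1 hw).2
    simpa using h 1 one_ne_zero u w (congrArg L h1)
  have hd : ∀ s : E, s ≠ 0 → ∀ v ∈ I, v + c₀ * s ^ t ∉ I := fun s hs v hv hv' => by
    obtain ⟨u, -, rfl⟩ := Finset.mem_image.1 hv
    obtain ⟨w, -, hw⟩ := Finset.mem_image.1 hv'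
    have e : ∀ z : E, (s⁻¹ * z + s⁻¹) ^ t + (s⁻¹ * z) ^ t = s⁻¹ ^ t * D z := fun z => by
      simp only [hD]
      rw [show s⁻¹ * z + s⁻¹ = s⁻¹ * (z + 1) by ring, mul_pow, mul_pow, mul_add]
    have h1 : s⁻¹ ^ t * D w = s⁻¹ ^ t * D u + c₀ := by
      rw [hw, mul_add, mul_comm c₀, ← mul_assoc, ← mul_pow, inv_mul_cancel₀ hs, one_pow, one_mul]
    have h3 := h s⁻¹ (inv_ne_zero hs) (s⁻¹ * u) (s⁻¹ * w) (by
      rw [e, e, h1, map_add, hc₀, add_zero])
    have h4 : D w = D u := by
      rcases h3 with h3 | h3
      · rw [mul_left_cancel₀ (inv_ne_zero hs) h3]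
      · rw [show s⁻¹ * u + s⁻¹ = s⁻¹ * (u + 1) by ring] at h3
        rw [mul_left_cancel₀ (inv_ne_zero hs) h3, hD1]
    rw [h4] at h1
    exact hne (by linear_combination -h1)
  have hq := (flip I _ hc (hd 1 one_ne_zero)).2
  have hs := flip_sum I (fun s => c₀ * s ^ t) (Finset.univ.erase 0)
    (fun s hs => (flip I _ hc (hd s (Finset.ne_of_mem_erase hs))).1) 0
  have hz : ∑ s ∈ Finset.univ.erase (0 : E), c₀ * s ^ t = 0 := by
    rw [← Finset.mul_sum, Finset.sum_erase _ (zero_pow (by omega)),
      FiniteField.sum_pow_lt_card_sub_one E t (by omega), mul_zero]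
  have hodd : ¬ Even (Finset.univ.erase (0 : E)).card := by
    rw [Finset.card_erase_of_mem (Finset.mem_univ _), Finset.card_univ, hq, Nat.even_iff]
    omega
  rw [hz, add_zero] at hs
  tauto

/-- If equal values of `P` force equal values of a nonconstant `Q`, then `Q` has larger degree. -/
theorem natDegree_le_of_fibre {k : Type} [Field k] [IsAlgClosed k] {P Q : k[X]}
    (hP : derivative P ≠ 0) (hQ : Q.natDegree ≠ 0)
    (h : ∀ x y, P.eval y = P.eval x → Q.eval y = Q.eval x) : P.natDegree ≤ Q.natDegree := by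
  classical
  rcases Nat.eq_zero_or_pos P.natDegree with h0 | h0
  · omega
  obtain ⟨v, hv⟩ := Infinite.exists_notMem_finset ((derivative P).roots.toFinset.image P.eval)
  have hdeg : (P - C v).natDegree = P.natDegree := natDegree_sub_C
  have hne : P - C v ≠ 0 := fun h1 => by
    rw [h1, natDegree_zero] at hdeg
    omega
  have hsep : (P - C v).Separable := by
    rw [separable_def, isCoprime_iff_aeval_ne_zero_of_isAlgClosed k k]
    intro y
    by_contra hc
    push Not at hc
    obtain ⟨h1, h2⟩ := hc
    rw [coe_aeval_eq_eval, eval_sub, eval_C, sub_eq_zero] at h1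
    rw [coe_aeval_eq_eval, derivative_sub, derivative_C, sub_zero] at h2
    exact hv (Finset.mem_image.2 ⟨y, Multiset.mem_toFinset.2 ((mem_roots hP).2 h2), h1⟩)
  have hcard : (P - C v).roots.toFinset.card = P.natDegree := by
    rw [Multiset.toFinset_card_of_nodup (nodup_roots hsep),
      ← (IsAlgClosed.splits _).natDegree_eq_card_roots, hdeg]
  have hm : ∀ y, y ∈ (P - C v).roots.toFinset → P.eval y = v := fun y hy => by
    have := (mem_roots hne).1 (Multiset.mem_toFinset.1 hy)
    rwa [IsRoot, eval_sub, eval_C, sub_eq_zero] at this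
  obtain ⟨x, hx⟩ := Finset.card_pos.1 (hcard ▸ h0)
  have hdeg' : (Q - C (Q.eval x)).natDegree = Q.natDegree := natDegree_sub_C
  have hne' : Q - C (Q.eval x) ≠ 0 := fun h1 => by
    rw [h1, natDegree_zero] at hdeg'
    omega
  have hsub : (P - C v).roots.toFinset ⊆ (Q - C (Q.eval x)).roots.toFinset := fun y hy => by
    rw [Multiset.mem_toFinset, mem_roots hne', IsRoot, eval_sub, eval_C, sub_eq_zero]
    exact h x y (by rw [hm x hx, hm y hy])
  rw [← hcard, ← hdeg']
  exact (Finset.card_le_card hsub).trans ((Multiset.toFinset_card_le _).trans (card_roots' _))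

end TFin

open TFin

theorem apnComp : ApnComp := by
  intro k _ _ _ φ hu L f hφ hL h0 h1 h
  have h2 : (2 : k) = 0 := CharTwo.two_eq_zero
  have hadd : ∀ x y : k, L.eval (x + y) = L.eval x + L.eval y := fun x y => by
    have := hL.eval₂_add (RingHom.id k) x y
    rwa [h0, map_zero, add_zero] at this
  have hcomm : ∀ x : k, L.eval (φ x) = φ (L.eval x) := fun x => by
    conv_lhs => rw [← hφ]
    rw [eval_map]
    exact eval₂_at_apply (φ : k →+* k) x
  have hz : L.eval 0 = 0 := by rw [← coeff_zero_eq_eval_zero, h0]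
  have hL0 : L ≠ 0 := by
    rintro rfl
    exact h1 (coeff_zero 1)
  have hker : ∀ κ : k, φ κ = κ → L.eval κ = 0 → κ = 0 := fun κ hκ hκ' => by
    by_contra hne
    obtain ⟨u, hu1, hu2, hu3⟩ := hu 0 κ
    have := h 0 κ u (map_zero φ) hκ hu1 (by
      simp only [eval_comp, zero_add, hadd, hκ', hz]
      linear_combination (f.eval 0 + f.eval (L.eval u)) * h2)
    rcases this with h3 | h3 | h3
    · exact hne h3.symm
    · exact hu3 h3.symm
    · exact hu2 h3.symm
  have hfin : {κ : k | L.eval κ = 0}.Finite := L.finite_setOfPred_isRoot hL0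
  have hmaps : Set.MapsTo (fun κ => φ κ + κ) {κ : k | L.eval κ = 0} {κ : k | L.eval κ = 0} :=
    fun κ hκ => by
      have hκ' : L.eval κ = 0 := hκ
      change L.eval (φ κ + κ) = 0
      rw [hadd, hcomm, hκ', map_zero, add_zero]
  have hinj : Set.InjOn (fun κ => φ κ + κ) {κ : k | L.eval κ = 0} := fun κ hκ κ' hκ' he => by
    have hκ1 : L.eval κ = 0 := hκ
    have hκ2 : L.eval κ' = 0 := hκ'
    have he' : φ κ + κ = φ κ' + κ' := he
    have := hker (κ + κ') (by rw [map_add]; linear_combination he' + (φ κ' - κ) * h2)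
      (by rw [hadd, hκ1, hκ2, add_zero])
    linear_combination this - κ' * h2
  have hsurj := ((hfin.injOn_iff_bijOn_of_mapsTo hmaps).1 hinj).surjOn
  have hpull : ∀ u : k, φ u = u → ∃ r, φ r = r ∧ L.eval r = u := fun u hu' => by
    obtain ⟨r, hr⟩ := IsAlgClosed.exists_root (L - C u) (by
      intro hd
      have := congrArg (fun p => coeff p 1) (eq_C_of_degree_eq_zero hd)
      simp only [coeff_sub, coeff_C_succ, sub_zero] at this
      exact h1 this)
    rw [IsRoot, eval_sub, eval_C, sub_eq_zero] at hr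
    obtain ⟨κ, hκ, he⟩ := hsurj (show φ r + r ∈ {κ : k | L.eval κ = 0} by
      change L.eval (φ r + r) = 0
      rw [hadd, hcomm, hr, hu', CharTwo.add_self_eq_zero])
    have hκ1 : L.eval κ = 0 := hκ
    have he' : φ κ + κ = φ r + r := he
    exact ⟨r + κ, by rw [map_add]; linear_combination he' + (φ r - κ) * h2,
      by rw [hadd, hr, hκ1, add_zero]⟩
  intro x y z hx hy hz' he
  obtain ⟨x, hx', rfl⟩ := hpull x hx
  obtain ⟨y, hy', rfl⟩ := hpull y hy
  obtain ⟨z, hz'', rfl⟩ := hpull z hz'
  have := h x y z hx' hy' hz'' (by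
    simp only [eval_comp, hadd]
    exact he)
  rcases this with rfl | rfl | rfl <;> simp

theorem homog : Homog := by
  intro k _ _ _ f e he he3 h c o ho hc
  have h2 : (2 : k) = 0 := CharTwo.two_eq_zero
  have key : ∀ x y : k, (y + 1) ^ e + y ^ e + ((x + 1) ^ e + x ^ e) = 0 →
      (y + 1) ^ o + y ^ o + ((x + 1) ^ o + x ^ o) = 0 := fun x y hxy => by
    have hQ : f.comp (C (y + 1) * X) + f.comp (C y * X) +
        (f.comp (C (x + 1) * X) + f.comp (C x * X)) = 0 := by
      refine Polynomial.funext fun l => ?_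
      have := h l (x * l) (y * l) (by
        rw [show y * l + l = (y + 1) * l by ring, show x * l + l = (x + 1) * l by ring]
        simp only [mul_pow]
        linear_combination l ^ e * hxy)
      rw [show y * l + l = (y + 1) * l by ring, show x * l + l = (x + 1) * l by ring] at this
      simpa only [eval_add, eval_comp, eval_mul, eval_C, eval_X, eval_zero] using this
    have h3 := congrArg (fun p => coeff p (2 ^ c * o)) hQ
    simp only [coeff_add, comp_C_mul_X_coeff, coeff_zero] at h3
    have h4 : ((y + 1) ^ o + y ^ o + ((x + 1) ^ o + x ^ o)) ^ 2 ^ c = 0 := by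
      refine mul_left_cancel₀ hc ?_
      rw [add_pow_char_pow, add_pow_char_pow, add_pow_char_pow, ← pow_mul, ← pow_mul, ← pow_mul,
        ← pow_mul, mul_comm o]
      linear_combination h3
    exact pow_eq_zero_iff (by positivity) |>.1 h4
  by_cases ho1 : o = 1
  · exact Or.inl ho1
  right
  have hP := (natDegree_mono_diff (k := k) he).1
  have hQ := (natDegree_mono_diff (k := k) ho).1
  have hP' : derivative (X ^ e + (X + 1) ^ e : k[X]) ≠ 0 := by
    obtain ⟨n, rfl⟩ := he
    intro h
    have := congrArg (eval 0) h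
    simp [derivative_pow, show 2 * n ≠ 0 by omega, h2] at this
  have := natDegree_le_of_fibre hP' (Q := X ^ o + (X + 1) ^ o) (by
    rw [hQ]
    obtain ⟨n, rfl⟩ := ho
    omega) (fun x y hxy => by
      simp only [eval_add, eval_pow, eval_X, eval_one] at hxy ⊢
      have := key x y (by linear_combination hxy + (x ^ e + (x + 1) ^ e) * h2)
      linear_combination this - (x ^ o + (x + 1) ^ o) * h2)
  rw [hP, hQ] at this
  obtain ⟨n, rfl⟩ := ho
  omega

theorem finCCZ : FinCCZ := by
  intro E _ _ _ L₁ L₂ B c b t G hG hA ht ht'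
  have h2 : (2 : E) = 0 := CharTwo.two_eq_zero
  have hL₂ : Function.Injective L₂ := by
    rw [injective_iff_map_eq_zero]
    intro κ hκ
    by_contra hne
    have h1 := hA κ (B κ) hne
    have h3 : {x : E | G (x + κ) + G x = B κ} = Set.univ := by
      refine Set.eq_univ_of_forall fun x => ?_
      change G (x + κ) + G x = B κ
      rw [hG, hG, map_add, map_add, hκ, add_zero]
      linear_combination (L₁ ((L₂ x + c) ^ t) + B x + b) * h2
    rw [h3, Set.ncard_univ] at h1
    omega
  let σ : E ≃+ E := AddEquiv.ofBijective L₂ (Finite.injective_iff_bijective.1 hL₂)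
  have hσ : ∀ x, L₂ (σ.symm x) = x := fun x => σ.apply_symm_apply x
  have hL₁ : Function.Injective L₁ := by
    refine inj_of_pow L₁ ht ht' fun s hs u w he => ?_
    have e : ∀ z : E, G (σ.symm (z - c) + σ.symm s) + G (σ.symm (z - c)) =
        L₁ ((z + s) ^ t + z ^ t) + B (σ.symm s) := fun z => by
      rw [hG, hG, map_add L₂, map_add B, map_add L₁, hσ, hσ, sub_add_cancel,
        show z - c + s + c = z + s by ring]
      linear_combination (B (σ.symm (z - c)) + b) * h2
    have h1 := two_to_one hA (s := σ.symm s) (by simpa using hs) (u := σ.symm (u - c))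
      (w := σ.symm (w - c)) (by rw [e, e, he])
    rcases h1 with h1 | h1
    · exact Or.inl (sub_left_injective (σ.symm.injective h1))
    · rw [← map_add] at h1
      exact Or.inr (by linear_combination σ.symm.injective h1)
  exact ccz_of_equiv σ (AddEquiv.ofBijective L₁ (Finite.injective_iff_bijective.1 hL₁)) B b c hG

end Pool.Agent.Lib.MP_346d6a_co
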