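import Pool.Agent.Lib.MP_346d6a_co.TBasic

/-!
The tame case, part TFirst.
-/

set_option maxSynthPendingDepth 3

namespace Pool.Agent.Lib.MP_346d6a_co

open Polynomial

namespace TFirst

variable {k : Type} [Field k] {Ω : Type} [Field Ω] [Algebra k Ω]

theorem map_SS (a b : Ω) (h : k[X][X]) : (SS h).map (ev2 a b) =
    h.map ((aeval a : k[X] →ₐ[k] Ω) : k[X] →+* Ω) + C (ev2 a b h) := by
  have e : (ev2 a b).comp (C : k[X] →+* k[X][X]) = ((aeval a : k[X] →ₐ[k] Ω) : k[X] →+* Ω) :=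
    RingHom.ext fun p => by simp
  rw [SS, Polynomial.map_add, Polynomial.map_map, map_C, e]

theorem natDegree_map_SS (a b : Ω) (h : k[X][X]) : ((SS h).map (ev2 a b)).natDegree =
    (h.map ((aeval a : k[X] →ₐ[k] Ω) : k[X] →+* Ω)).natDegree := by
  rw [map_SS, natDegree_add_C]

theorem SS_C_mul (p : k[X]) (h : k[X][X]) : SS (C p * h) = C (C p) * SS h := by
  simp [SS, mul_add]

theorem dvd_of_C_dvd_C {R : Type} [CommRing R] {p q : R} (h : (C p : R[X]) ∣ C q) : p ∣ q := by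
  simpa using (C_dvd_iff_dvd_coeff p (C q)).1 h 0

variable {k₁ : Type} [Field k₁] [Algebra k k₁] [Algebra k₁ Ω] [IsScalarTower k k₁ Ω]
  [IsAlgClosed Ω] (V : Val k₁ Ω) {s x y : Ω} {a b : k₁}

open Classical in
/-- The number of integral roots of a divisor of `FF f`. -/
theorem card_int [CharP k 2] {f : k[X]} (hf : (derivative f).natDegree ≠ 0) (hx : Gen k s x)
    (hs : V.v (s - algebraMap k₁ Ω a) < 1) (hb : V.v (x - algebraMap k₁ Ω b) < 1)
    {P : k[X][X][X]} (hP : P ∣ FF f) (h0 : P.map (ev2 a b) ≠ 0) :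
    ((P.map (ev2 s x)).roots.toFinset.filter fun y => V.v y ≤ 1).card =
      (P.map (ev2 a b)).natDegree := by
  have hn := nodup_roots ((hx.separable hf).of_dvd (Polynomial.map_dvd (ev2 s x) hP))
  rw [← (V.red_ev2 hs hb P).card_fin h0, ← Multiset.toFinset_filter,
    Multiset.toFinset_card_of_nodup (hn.filter _)]

/-- A surface through a point with an infinite last coordinate has a small leading
coefficient. -/
theorem lc_vanish (hs : V.v (s - algebraMap k₁ Ω a) < 1) (hx : V.v x ≤ 1) (hy : 1 < V.v y)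
    {P : k[X][X][X]} {α : k[X]} (hα : P.leadingCoeff = C α) (h0 : ev3 s x y P = 0) :
    aeval a α = 0 := by
  classical
  by_contra hne
  obtain ⟨b, hb⟩ := V.res x hx
  have hr := V.red_ev2 hs hb P
  have h1 : ev2 a b P.leadingCoeff ≠ 0 := by rwa [hα, ev2_C]
  have h2 : (P.map (ev2 a b)).natDegree = P.natDegree := natDegree_map_of_leadingCoeff_ne_zero _ h1
  have h3 : P.map (ev2 a b) ≠ 0 := fun h => h1 (by
    have := congrArg (fun q => q.coeff P.natDegree) h
    simpa using this)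
  have h4 := hr.card_fin h3
  have h5 : (P.map (ev2 s x)).roots.filter (fun y => V.v y ≤ 1) = (P.map (ev2 s x)).roots :=
    Multiset.eq_of_le_of_card_le (Multiset.filter_le _ _)
      (by rw [h4, h2]; exact (card_roots' _).trans natDegree_map_le)
  have h6 : y ∈ (P.map (ev2 s x)).roots := by
    rw [mem_roots (hr.ne_zero h3), IsRoot, ← ev3_eq, h0]
  exact absurd (Multiset.filter_eq_self.1 h5 y h6) (not_le.2 hy)

end TFirst

open TFirst

theorem firstBlock (hB : BlockPoly) (hI : IndepTame) : FirstBlock := by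
  classical
  intro k _ _ _ φ f hc hT
  obtain ⟨k₁, Ω, _, _, _, _, _, _, _, _, V, t, -, hg⟩ := exists_gen k
  have hf := hc.deg
  have hx : Gen k V.τ (algebraMap k₁ Ω t) := hg _ V.transcendental_τ
  set s := V.τ with hsd
  set a := algebraMap k₁ Ω t with had
  have hs1 : V.v s < 1 := V.τ_lt
  have ha1 : V.v a ≤ 1 := V.const_le t
  set Y := (Rts f s a).filter fun y => V.v y ≤ 1 with hY
  have hmod : IsMod (Rts f s a) Y (col k s) := by
    refine ⟨Finset.filter_subset _ _, fun u hu w hw y hy hy' => ?_⟩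
    obtain ⟨u1, u2⟩ := Finset.mem_filter.1 hu
    obtain ⟨w1, w2⟩ := Finset.mem_filter.1 hw
    have hy2 : 1 < V.v y := not_le.1 fun h => hy' (Finset.mem_filter.2 ⟨hy, h⟩)
    have e := hx.Rts_eq hf w1
    exact hI k k₁ Ω V f hf hT s w u y (hx.of_mem hf w1) (e ▸ u1) (e ▸ hy) hs1.le w2 u2 hy2
      (Or.inl hs1)
  have haY : a ∈ Y := Finset.mem_filter.2 ⟨hx.self_mem hf, ha1⟩
  obtain ⟨h, hb, hd, hm⟩ := hB k φ f hc Ω s a hx Y hmod haY
  refine ⟨h, hb, ?_, ?_⟩
  · obtain ⟨D, hD⟩ : (C X : k[X][X]) ∣ DD f :=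
      (C_dvd_iff_dvd_coeff _ _).2 fun m => X_dvd_iff.2 (by rw [coeff_DD, if_pos rfl])
    have hF : FF f = C (C X) * SS D := by rw [FF, hD, SS_C_mul]
    have hR : Rts f s a = ((SS D).map (ev2 s a)).roots.toFinset := by
      rw [Rts, hF, Polynomial.map_mul, map_C, ev2_C, aeval_X, roots_C_mul _ hx.s_ne]
    have h1 : D.map ((aeval (0 : k₁) : k[X] →ₐ[k] k₁) : k[X] →+* k₁) =
        (derivative f).map (algebraMap k k₁) := by
      ext m
      rw [coeff_map, coeff_map, ← coeff_DD_one, hD, coeff_C_mul, coeff_X_mul]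
      simp [aeval_def, eval₂_at_zero]
    have h2 : ((SS D).map (ev2 (0 : k₁) t)).natDegree = (derivative f).natDegree := by
      rw [natDegree_map_SS, h1, natDegree_map]
    have h3 : (SS D).map (ev2 (0 : k₁) t) ≠ 0 := fun h0 => hf (by rw [← h2, h0, natDegree_zero])
    rw [hd, hY, hR, ← h2]
    exact card_int V hf hx (by simpa using hs1) (V.res_const t) ⟨C (C X), by rw [hF, mul_comm]⟩ h3
  · have h1 := hx.add_mem hf (hx.self_mem hf)
    refine hx ?_
    rw [ev2_taylor]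
    exact (hm _ h1).1 (Finset.mem_filter.2 ⟨h1, V.v.map_add_le ha1 hs1.le⟩)

theorem lcUnit (hC : CohLemma) (hH : HalfLemma) : LcUnit := by
  classical
  intro k _ _ _ φ f h hc hb hsq
  by_contra hmon
  have hf := hc.deg
  have hl0 : h.leadingCoeff ≠ 0 := hb.mon.ne_zero
  have hN : h.natDegree ≠ 0 := fun h0 => hl0 (by rw [leadingCoeff, h0, hb.zero])
  obtain ⟨κ, hκ⟩ := IsAlgClosed.exists_root h.leadingCoeff
    (fun h0 => hmon (hb.mon.degree_le_zero_iff_eq_one.1 h0.le))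
  obtain ⟨k₁, Ω, _, _, _, _, _, _, _, _, V, t, -, hg⟩ := exists_gen k
  have hΩ : CharP Ω 2 := charP_of_injective_algebraMap (algebraMap k Ω).injective 2
  set κ₁ := algebraMap k k₁ κ with hκ₁
  have hev : ∀ p : k[X], aeval κ₁ p = 0 ↔ X - C κ ∣ p := fun p => by
    rw [hκ₁, aeval_algebraMap_apply, map_eq_zero_iff _ (algebraMap k k₁).injective,
      coe_aeval_eq_eval, dvd_iff_isRoot, IsRoot]
  set s := V.τ + algebraMap k₁ Ω κ₁ with hsd
  set a := algebraMap k₁ Ω t with had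
  have hx : Gen k s a := hg _ fun h0 => V.transcendental_τ (by
    simpa [hsd] using h0.sub (isAlgebraic_algebraMap (A := Ω) κ₁))
  have hs : V.v (s - algebraMap k₁ Ω κ₁) < 1 := by simpa [hsd] using V.τ_lt
  have hs1 : V.v s ≤ 1 := V.le_one_of_res hs
  have ha1 : V.v a ≤ 1 := V.const_le t
  set B := ((SS h).map (ev2 s a)).roots.toFinset with hBd
  have hmem : ∀ y, y ∈ B ↔ ev2 s y h = ev2 s a h := fun y => by
    rw [hBd, Multiset.mem_toFinset, mem_roots (hx.map_SS_ne hN), IsRoot, ← ev3_eq, ev3_SS,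
      CharTwo.add_eq_zero]
  have hsub : B ⊆ Rts f s a := fun y hy => hx.mem_of_SS hf hb.dvd ((hmem y).1 hy)
  have hSS : ∀ u w : Ω, SS h ∈ col k s u w ↔ ev2 s w h = ev2 s u h := fun u w => by
    rw [mem_col, ev3_SS, CharTwo.add_eq_zero]
  have hin : ∀ u ∈ B, ∀ w ∈ B, SS h ∈ col k s u w := fun u hu w hw =>
    (hSS u w).2 (((hmem w).1 hw).trans ((hmem u).1 hu).symm)
  have hcl : Closed (Rts f s a) B (col k s) (Ideal.map (mp3 (φ : k →+* k))) := by
    refine ⟨hsub, fun u hu w hw u' hu' w' _ hcase => ?_⟩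
    have h1 := hin u hu w hw
    have h2 := (hmem u').1 hu'
    rw [hmem, ← h2]
    rcases hcase with e | e | e
    · exact (hSS _ _).1 (e ▸ h1)
    · exact ((hSS _ _).1 (e ▸ h1)).symm
    · refine (hSS _ _).1 ?_
      rw [e, ← hb.fix, ← mp3_SS, mem_map_mp3]
      exact h1
  have hcard : B.card = h.natDegree := by rw [hBd, hx.card_roots hf hb.dvd, natDegree_SS]
  set hr := h.map ((aeval κ₁ : k[X] →ₐ[k] k₁) : k[X] →+* k₁) with hrd
  have hr0 : hr ≠ 0 := fun h0 => by
    refine not_isUnit_X_sub_C κ (hb.prim _ ((C_dvd_iff_dvd_coeff _ _).2 fun i => (hev _).1 ?_))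
    have := congrArg (fun q => q.coeff i) h0
    simpa [hrd] using this
  have hr1 : hr.natDegree ≠ 0 := fun h0 => hr0 (by
    rw [eq_C_of_natDegree_eq_zero h0, hrd, coeff_map, hb.zero, map_zero, map_zero])
  have hr2 : hr.natDegree < h.natDegree := by
    refine natDegree_map_lt ?_ hr0
    exact (hev _).2 (dvd_iff_isRoot.2 hκ)
  have hr3 : ((SS h).map (ev2 κ₁ t)).natDegree = hr.natDegree := natDegree_map_SS _ _ _
  set Y := B.filter fun y => V.v y ≤ 1 with hYd
  set Z := B.filter fun y => ¬ V.v y ≤ 1 with hZd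
  have hY : Y.card = hr.natDegree := by
    rw [← hr3]
    exact card_int V hf hx hs (V.res_const t) hb.dvd
      fun h0 => hr1 (by rw [← hr3, h0, natDegree_zero])
  have hYZ : Y.card + Z.card = B.card := Finset.card_filter_add_card_filter_not _
  obtain ⟨y, hy⟩ : Z.Nonempty := Finset.card_pos.1 (by omega)
  have hlc : ∀ P : k[X][X][X], P ∣ SS h → ∀ u ∈ Y, ∀ w ∈ Z, ev3 s u w P = 0 →
      ∃ α, P.leadingCoeff = C α ∧ X - C κ ∣ α := by
    intro P hP u hu w hw h0
    have h1 := leadingCoeff_dvd_leadingCoeff hP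
    rw [leadingCoeff_SS hN] at h1
    have h2 : P.leadingCoeff.natDegree = 0 := by
      have := natDegree_le_of_dvd h1 (C_ne_zero.2 hl0)
      rwa [natDegree_C, Nat.le_zero] at this
    have h3 := eq_C_of_natDegree_eq_zero h2
    exact ⟨_, h3, (hev _).1 (lc_vanish V hs (Finset.mem_filter.1 hu).2
      (not_le.1 (Finset.mem_filter.1 hw).2) h3 h0)⟩
  have hone : ∀ u ∈ Y, ∀ w ∈ Z, ∀ u' ∈ Y, ∀ w' ∈ Z, col k s u w = col k s u' w' := by
    intro u hu w hw u' hu' w' hw'
    have u1 := (Finset.mem_filter.1 hu).1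
    have u2 := (Finset.mem_filter.1 hu').1
    refine col_eq_of (hx.of_mem hf (hsub u1)) (hx.of_mem hf (hsub u2)) (SS_ne_zero hN)
      (mem_col.1 (hin u u1 w (Finset.mem_filter.1 hw).1))
      (mem_col.1 (hin u' u2 w' (Finset.mem_filter.1 hw').1)) fun P₁ P₂ _ _ hd z₁ z₂ => ?_
    obtain ⟨α₁, e₁, d₁⟩ := hlc P₁ ((dvd_mul_right _ _).trans hd) u hu w hw z₁
    obtain ⟨α₂, e₂, d₂⟩ := hlc P₂ ((dvd_mul_left _ _).trans hd) u' hu' w' hw' z₂
    have h1 := leadingCoeff_dvd_leadingCoeff hd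
    rw [leadingCoeff_SS hN, leadingCoeff_mul, e₁, e₂, ← C_mul] at h1
    exact hsq κ (by rw [sq]; exact (mul_dvd_mul d₁ d₂).trans (dvd_of_C_dvd_C h1))
  have haB : a ∈ B := (hmem a).2 rfl
  have haY : a ∈ Y := Finset.mem_filter.2 ⟨haB, ha1⟩
  obtain ⟨hyB, hy1⟩ := Finset.mem_filter.1 hy
  have hay : a ≠ y := fun e => hy1 (e ▸ ha1)
  have hfix : (col k s a y).map (mp3 (φ : k →+* k)) = col k s a y := by
    rcases le_total Y.card Z.card with hle | hle
    · exact hH _ _ _ _ _ (hC k φ f hc Ω s a hx) B hcl a haB y hyB hay Z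
        ((Finset.filter_subset _ _).trans hsub) (by omega)
        (Or.inr fun w hw => hone a haY w hw a haY y hy)
    · exact hH _ _ _ _ _ (hC k φ f hc Ω s a hx) B hcl a haB y hyB hay Y
        ((Finset.filter_subset _ _).trans hsub) (by omega)
        (Or.inl fun u hu => hone u hu y hy a haY y hy)
  rcases hc.fixed_col hx (hsub hyB) hfix with e | e
  · exact hay e.symm
  · exact hy1 (e ▸ V.v.map_add_le ha1 hs1)

end Pool.Agent.Lib.MP_346d6a_co
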