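import Pool.Agent.Lib.MP_346d6a_co.TBasic

/-!
The tame case, part TIndep.
-/

set_option maxSynthPendingDepth 3

namespace Pool.Agent.Lib.MP_346d6a_co

open Polynomial

namespace TIndep

section red

variable {k Ω : Type} [Field k] [Field Ω] [Algebra k Ω] {V : Val k Ω}

/-- Coefficientwise reduction in two variables. -/
def Red2 (V : Val k Ω) (P : (Polynomial Ω)[X]) (q : k[X][X]) : Prop :=
  ∀ i, V.Red (P.coeff i) (q.coeff i)

theorem Red2.eval {P : (Polynomial Ω)[X]} {q : k[X][X]} (h : Red2 V P q) {ε ξ : Ω} {e z : k}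
    (he : V.v (ε - algebraMap k Ω e) < 1) (hz : V.v (ξ - algebraMap k Ω z) < 1) :
    V.v (P.evalEval ε ξ - algebraMap k Ω (q.evalEval e z)) < 1 := by
  rw [← map_evalRingHom_eval, ← map_evalRingHom_eval]
  refine Val.Red.eval (fun i => ?_) hz
  rw [coeff_map, coeff_map]
  exact (h i).eval he

theorem exists_red2 (P : (Polynomial Ω)[X]) (h : ∀ i j, V.v ((P.coeff i).coeff j) ≤ 1) :
    ∃ q, Red2 V P q := by
  choose q hq _ using fun i => V.exists_red (P.coeff i) (h i)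
  refine ⟨∑ i ∈ Finset.range (P.natDegree + 1), monomial i (q i), fun i => ?_⟩
  rw [finsetSum_coeff]
  simp only [coeff_monomial, Finset.sum_ite_eq', Finset.mem_range]
  split_ifs with hi
  · exact hq i
  · rw [coeff_eq_zero_of_natDegree_lt (by omega)]
    simpa using Val.Red.map (V := V) (0 : k[X])

variable (V) in
/-- Normalisation to Gauss norm one. -/
theorem exists_norm {P : (Polynomial Ω)[X]} (hP : P ≠ 0) :
    ∃ (a : Ω) (P' : (Polynomial Ω)[X]) (q : k[X][X]), a ≠ 0 ∧ P = C (C a) * P' ∧ Red2 V P' q ∧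
      q ≠ 0 := by
  obtain ⟨⟨i, j⟩, hij, hm⟩ := Finset.exists_max_image
    (P.support.sigma fun i => (P.coeff i).support) (fun p => V.v ((P.coeff p.1).coeff p.2))
    ⟨⟨P.natDegree, (P.coeff P.natDegree).natDegree⟩, Finset.mem_sigma.2
      ⟨natDegree_mem_support_of_nonzero hP,
        natDegree_mem_support_of_nonzero (leadingCoeff_ne_zero.2 hP)⟩⟩
  have ha : (P.coeff i).coeff j ≠ 0 := mem_support_iff.1 (Finset.mem_sigma.1 hij).2
  set a := (P.coeff i).coeff j with hdef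
  have hc : ∀ i j, ((C (C a⁻¹) * P).coeff i).coeff j = a⁻¹ * (P.coeff i).coeff j := fun i j => by
    rw [coeff_C_mul, coeff_C_mul]
  obtain ⟨q, hq⟩ := exists_red2 (V := V) (C (C a⁻¹) * P) fun i' j' => by
    rw [hc, map_mul, map_inv₀]
    refine inv_mul_le_one_of_le₀ ?_ zero_le
    by_cases h0 : (P.coeff i').coeff j' = 0
    · simp [h0]
    · refine hm ⟨i', j'⟩ (Finset.mem_sigma.2 ⟨mem_support_iff.2 fun h1 => h0 ?_,
        mem_support_iff.2 h0⟩)
      rw [show P.coeff i' = 0 from h1, coeff_zero]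
  refine ⟨a, _, q, ha, ?_, hq, ?_⟩
  · rw [← mul_assoc, ← C_mul, ← C_mul, mul_inv_cancel₀ ha, C_1, C_1, one_mul]
  · rintro rfl
    have := hq i j
    rw [hc, ← hdef, inv_mul_cancel₀ ha] at this
    simp at this

theorem gauss [Infinite k] {Q₁ Q₂ Q₃ : (Polynomial Ω)[X]} {c : Ω} (hc : c ≠ 0)
    (h : ∀ ε ξ : Ω, V.v ε ≤ 1 → V.v ξ ≤ 1 →
      V.v ((Q₁ * Q₂ * Q₃).evalEval ε ξ - c * ε) < V.v c) {ξ₁ ξ₂ : Ω} (h₁ : V.v ξ₁ ≤ 1)
    (h₂ : V.v ξ₂ ≤ 1) (z₁ : Q₁.evalEval 0 ξ₁ = 0) (z₂ : Q₂.evalEval 0 ξ₂ = 0) : False := by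
  have h0 : Q₁ * Q₂ * Q₃ ≠ 0 := fun h0 => by
    have := h 1 0 (by simp) (by simp)
    simp [h0] at this
  obtain ⟨a₁, P₁, q₁, n₁, rfl, r₁, m₁⟩ := exists_norm V (left_ne_zero_of_mul (left_ne_zero_of_mul h0))
  obtain ⟨a₂, P₂, q₂, n₂, rfl, r₂, m₂⟩ :=
    exists_norm V (right_ne_zero_of_mul (left_ne_zero_of_mul h0))
  obtain ⟨a₃, P₃, q₃, -, rfl, r₃, m₃⟩ := exists_norm V (right_ne_zero_of_mul h0)
  have hv : 0 < V.v c := (V.v.pos_iff).2 hc
  have key : ∀ e z : k, ∃ w : Ω,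
      V.v (w - algebraMap k Ω ((q₁ * q₂ * q₃).evalEval e z)) < 1 ∧
      V.v (a₁ * a₂ * a₃ / c * w - algebraMap k Ω e) < 1 := fun e z => by
    refine ⟨P₁.evalEval (algebraMap k Ω e) (algebraMap k Ω z) *
      P₂.evalEval (algebraMap k Ω e) (algebraMap k Ω z) *
      P₃.evalEval (algebraMap k Ω e) (algebraMap k Ω z), ?_, ?_⟩
    · rw [evalEval_mul, evalEval_mul]
      exact V.res_mul (V.res_mul (r₁.eval (V.res_const e) (V.res_const z))
        (r₂.eval (V.res_const e) (V.res_const z))) (r₃.eval (V.res_const e) (V.res_const z))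
    · have := h _ _ (V.const_le e) (V.const_le z)
      rw [← div_lt_one₀ hv, ← map_div₀] at this
      convert this using 2
      simp only [evalEval_mul, evalEval_CC]
      field_simp
  have hq : q₁ * q₂ * q₃ ≠ 0 := mul_ne_zero (mul_ne_zero m₁ m₂) m₃
  have hA : V.v (a₁ * a₂ * a₃ / c) ≤ 1 := by
    by_contra hA
    refine hq (ext_ev2 fun e z => ?_)
    obtain ⟨w, w1, w2⟩ := key e z
    rw [evalEval_zero]
    by_contra h1
    have := V.le_one_of_res w2
    rw [map_mul, V.eq_one_of_res h1 w1, mul_one] at this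
    exact hA this
  obtain ⟨b, hb⟩ := V.res _ hA
  have hE : (C X : k[X][X]) = q₁ * (q₂ * (q₃ * C (C b))) := ext_ev2 fun e z => by
    obtain ⟨w, w1, w2⟩ := key e z
    have := V.res_unique' w2 (V.res_mul hb w1)
    simp only [evalEval_mul, evalEval_CC] at this ⊢
    rw [evalEval_C, eval_X]
    linear_combination this
  have hu : ∀ {a : Ω} {P : (Polynomial Ω)[X]} {q : k[X][X]} {ξ : Ω}, a ≠ 0 → Red2 V P q →
      V.v ξ ≤ 1 → (C (C a) * P).evalEval 0 ξ = 0 → ¬ IsUnit q := fun {a P q ξ} ha r hξ z hq => by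
    obtain ⟨u, hu⟩ := V.res _ hξ
    have h3 := r.eval (ε := 0) (e := 0) (by simp) hu
    rw [evalEval_mul, evalEval_CC] at z
    rw [(mul_eq_zero.1 z).resolve_left ha, zero_sub, Valuation.map_neg] at h3
    exact (hq.map (evalEvalRingHom 0 u)).ne_zero (V.eq_zero_of_lt h3)
  rcases (prime_C_iff.2 prime_X).irreducible.isUnit_or_isUnit hE with h3 | h3
  · exact hu n₁ r₁ h₁ z₁ h3
  · exact hu n₂ r₂ h₂ z₂ (isUnit_of_mul_isUnit_left h3)

end red

section sub

variable {k Ω : Type} [Field k] [Field Ω] [Algebra k Ω]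

variable (k) in
/-- The substitution `s ↦ s + l ε`, `x ↦ x + μ ξ`, `y ↦ y`. -/
noncomputable def sub3 (s y x μ l : Ω) : k[X][X][X] →+* (Polynomial Ω)[X] :=
  eval₂RingHom (eval₂RingHom (eval₂RingHom (C.comp (C.comp (algebraMap k Ω)))
    (C (C s + C l * X))) (C (C x) + C (C μ) * X)) (C (C y))

theorem evalEval_sub3 (s y x μ l ε ξ : Ω) (P : k[X][X][X]) :
    (sub3 k s y x μ l P).evalEval ε ξ = ev3 (s + l * ε) (x + μ * ξ) y P := by
  have : (evalEvalRingHom ε ξ).comp (sub3 k s y x μ l) = ev3 (s + l * ε) (x + μ * ξ) y := by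
    ext <;> simp [sub3]
  exact RingHom.congr_fun this P

theorem taylor_sum (f : k[X]) (a u : Ω) : aeval (a + u) f - aeval a f - aeval a (derivative f) * u =
    ∑ i ∈ Finset.range f.natDegree, aeval a (hasseDeriv (i + 2) f) * u ^ (i + 2) := by
  have h : ∀ i, hasseDeriv i (f.map (algebraMap k Ω)) = (hasseDeriv i f).map (algebraMap k Ω) :=
    fun i => by
      ext1 j
      simp [hasseDeriv_coeff]
  have h1 : aeval (a + u) f =
      ∑ i ∈ Finset.range (f.natDegree + 2), aeval a (hasseDeriv i f) * u ^ i := by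
    rw [← eval_map_algebraMap, add_comm a u, ← taylor_eval,
      eval_eq_sum_range' (n := f.natDegree + 2) (by rw [natDegree_taylor, natDegree_map]; omega)]
    refine Finset.sum_congr rfl fun i _ => ?_
    rw [taylor_coeff, h, eval_map_algebraMap]
  rw [h1, Finset.sum_range_succ', Finset.sum_range_succ']
  simp

variable {k₁ : Type} [Field k₁] [Algebra k k₁] [Algebra k₁ Ω] [IsScalarTower k k₁ Ω] (V : Val k₁ Ω)

theorem lip (f : k[X]) {a u : Ω} (ha : V.v a ≤ 1) (hu : V.v u ≤ 1) :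
    V.v (aeval (a + u) f - aeval a f) ≤ V.v u := by
  have h : ∀ p : k[X], V.v (aeval a p) ≤ 1 := fun p => by
    simpa using V.v_aeval_le le_rfl ha (le_refl p.natDegree)
  rw [sub_eq_iff_eq_add.1 (taylor_sum f a u)]
  refine V.v.map_add_le (V.v.map_sum_le fun i _ => ?_) ?_
  · rw [map_mul, map_pow]
    exact (mul_le_of_le_one_left zero_le (h _)).trans (pow_le_of_le_one zero_le hu (by omega))
  · rw [map_mul]
    exact mul_le_of_le_one_left zero_le (h _)

theorem tail {f : k[X]} (hf : Tame f) {z u : Ω} (hz : 1 ≤ V.v z) {r : NNReal} (h0 : 0 < r)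
    (h1 : r < 1) (hu : V.v z ^ (derivative f).natDegree * V.v u ≤ r) :
    V.v (aeval (z + u) f - aeval z f - aeval z (derivative f) * u) < r := by
  rw [taylor_sum]
  refine V.v.map_sum_lt h0.ne' fun i _ => ?_
  rw [map_mul, map_pow]
  calc _ ≤ V.v z ^ ((i + 2) * (derivative f).natDegree) * V.v u ^ (i + 2) :=
        mul_le_mul_left (V.v_aeval_le hz le_rfl (hf (i + 2) (by omega))) _
    _ = (V.v z ^ (derivative f).natDegree * V.v u) ^ (i + 2) := by ring
    _ ≤ r ^ (i + 2) := pow_le_pow_left₀ zero_le hu _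
    _ < r := pow_lt_self_of_lt_one₀ h0 h1 (by omega)

omit [Algebra k Ω] [Algebra k k₁] [IsScalarTower k k₁ Ω] in
theorem exists_mid [IsAlgClosed Ω] {t : Ω} (ht : V.v t < 1) :
    ∃ c : Ω, c ≠ 0 ∧ V.v t < V.v c ∧ V.v c < 1 := by
  obtain ⟨b, b0, b1, b2⟩ : ∃ b : Ω, b ≠ 0 ∧ V.v t ≤ V.v b ∧ V.v b < 1 := by
    rcases le_total (V.v t) (V.v V.τ) with h | h
    · exact ⟨V.τ, V.τ_ne, h, V.τ_lt⟩
    · exact ⟨t, (V.v.pos_iff).1 (V.τ_pos.trans_le h), le_rfl, ht⟩
  obtain ⟨c, rfl⟩ := IsAlgClosed.exists_pow_nat_eq b two_pos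
  have c0 : c ≠ 0 := fun h => b0 (by simp [h])
  rw [map_pow] at b1 b2
  have c1 : V.v c < 1 := (pow_lt_one_iff_of_nonneg zero_le two_ne_zero).1 b2
  exact ⟨c, c0, b1.trans_lt (pow_lt_self_of_lt_one₀ ((V.v.pos_iff).2 c0) c1 one_lt_two), c1⟩

end sub

end TIndep

open TIndep

theorem indep : Indep := by
  rintro k k₁ Ω _ _ _ _ _ _ V G s y x μ l c hc h P₁ P₂ ⟨P₃, rfl⟩ ξ₁ ξ₂ h₁ h₂ z₁ z₂
  refine gauss (V := V) (Q₁ := sub3 k s y x μ l P₁) (Q₂ := sub3 k s y x μ l P₂)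
    (Q₃ := sub3 k s y x μ l P₃) hc (fun ε ξ hε hξ => ?_) h₁ h₂ ?_ ?_
  · rw [← map_mul, ← map_mul, evalEval_sub3]
    exact h ε ξ hε hξ
  · rwa [evalEval_sub3, mul_zero, add_zero]
  · rwa [evalEval_sub3, mul_zero, add_zero]

theorem indepTame (hI : Indep) : IndepTame := by
  intro k k₁ Ω _ _ _ _ _ _ _ _ _ _ V f hf ht s x₁ x₂ y hg hx₂ hy hs h₁ h₂ hy1 hlt
  have : CharP Ω 2 := charP_of_injective_algebraMap (algebraMap k Ω).injective 2
  have two : (2 : Ω) = 0 := CharTwo.two_eq_zero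
  refine col_eq_of (hg.of_mem hf hx₂) hg (FF_ne_zero hf) (hg.ev3_FF hf hx₂ hy)
    ((hg.mem_Rts hf).1 hy) fun P₁ P₂ _ _ hd z₁ z₂ => ?_
  have hμ : V.v (x₂ - x₁) ≤ 1 := V.v.map_sub_le h₂ h₁
  obtain ⟨c, c0, c1, c2⟩ : ∃ c : Ω, c ≠ 0 ∧ V.v c < 1 ∧ ∀ ξ, V.v ξ ≤ 1 →
      V.v (aeval (x₁ + (x₂ - x₁) * ξ + s) f - aeval (x₁ + (x₂ - x₁) * ξ) f -
        (aeval (x₁ + s) f - aeval x₁ f)) < V.v c := by
    rcases hlt with h | h
    · obtain ⟨c, c0, c1, c2⟩ := exists_mid V h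
      refine ⟨c, c0, c2, fun ξ hξ => V.v.map_sub_lt ((lip V f ?_ hs).trans_lt c1)
        ((lip V f h₁ hs).trans_lt c1)⟩
      exact V.v.map_add_le h₁ (by rw [map_mul]; exact mul_le_one' hμ hξ)
    · obtain ⟨c, c0, c1, c2⟩ := exists_mid V h
      refine ⟨c, c0, c2, fun ξ hξ => ?_⟩
      have h3 : V.v ((x₂ - x₁) * ξ) < V.v c := by
        rw [map_mul]
        exact (mul_le_of_le_one_right zero_le hξ).trans_lt c1
      have h4 := (h3.trans c2).le
      rw [sub_sub_sub_comm, add_right_comm]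
      exact V.v.map_sub_lt ((lip V f (V.v.map_add_le h₁ hs) h4).trans_lt h3)
        ((lip V f h₁ h4).trans_lt h3)
  have hz : 1 < V.v (y + s) := by
    rw [V.v.map_add_eq_of_lt_left (hs.trans_lt hy1)]
    exact hy1
  have hd0 : derivative f ≠ 0 := fun h => hf (by rw [h, natDegree_zero])
  have hD := V.v_aeval_eq hz hd0
  have hD1 : 1 < V.v (aeval (y + s) (derivative f)) := hD ▸ one_lt_pow₀ hz hf
  have hD0 : aeval (y + s) (derivative f) ≠ 0 := (V.v.pos_iff).1 (zero_lt_one.trans hD1)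
  have hc : 0 < V.v c := (V.v.pos_iff).2 c0
  have H : aeval (y + s) f + aeval y f = aeval (x₁ + s) f + aeval x₁ f := by
    rw [← ev2_DD, ← ev2_DD]
    exact (hg.mem_Rts' hf).1 hy
  refine hI k k₁ Ω V (FF f) s y x₁ (x₂ - x₁) (c / aeval (y + s) (derivative f)) c c0
    (fun ε ξ hε hξ => ?_) P₁ P₂ hd 1 0 (by simp) (by simp) (by simpa using z₁) (by simpa using z₂)
  set η := c / aeval (y + s) (derivative f) * ε with hη
  set w := x₁ + (x₂ - x₁) * ξ with hw
  have e1 : aeval (y + s) (derivative f) * η = c * ε := by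
    rw [hη]
    field_simp
  have e2 : V.v (y + s) ^ (derivative f).natDegree * V.v η ≤ V.v c := by
    rw [← hD, ← map_mul, e1, map_mul]
    exact mul_le_of_le_one_right zero_le hε
  have e3 : V.v η < V.v c := by
    rw [hη, map_mul, map_div₀]
    exact (mul_le_of_le_one_right zero_le hε).trans_lt (div_lt_self hc hD1)
  have e4 : V.v (w + s) ≤ 1 :=
    V.v.map_add_le (V.v.map_add_le h₁ (by rw [map_mul]; exact mul_le_one' hμ hξ)) hs
  have e5 : ev3 (s + η) w y (FF f) - c * ε =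
      (aeval (y + s + η) f - aeval (y + s) f - aeval (y + s) (derivative f) * η) +
      (aeval (w + s + η) f - aeval (w + s) f) +
      (aeval (w + s) f - aeval w f - (aeval (x₁ + s) f - aeval x₁ f)) := by
    rw [ev3_FF, e1, ← add_assoc y, ← add_assoc w]
    linear_combination H + (aeval (x₁ + s) f + aeval w f) * two
  rw [e5]
  exact V.v.map_add_lt (V.v.map_add_lt (tail V ht hz.le hc c1 e2)
    ((lip V f e4 (e3.trans c1).le).trans_lt e3)) (c2 ξ hξ)

end Pool.Agent.Lib.MP_346d6a_co
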