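import Pool.Agent.Lib.MP_346d6a_co.Fin3
import Pool.Agent.Lib.MP_346d6a_co.TBasic

/-!
The tame case: assembly.
-/

set_option maxSynthPendingDepth 3

namespace Pool.Agent.Lib.MP_346d6a_co

open Polynomial

theorem nl_ne_iff {F : Type} [Field F] (g : F[X]) (j : ℕ) :
    (nl g).coeff j ≠ 0 ↔ g.coeff j ≠ 0 ∧ ¬ Lin j := by
  rw [coeff_nl]
  split_ifs with h <;> simp [h]

theorem lin_iff {c o : ℕ} (ho : Odd o) : Lin (2 ^ c * o) ↔ o = 1 := by
  refine ⟨?_, by rintro rfl; exact Or.inr ⟨c, mul_one _⟩⟩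
  rintro (h | ⟨i, h⟩)
  · exact absurd h (mul_ne_zero (by positivity) ho.pos.ne')
  · exact (Nat.Coprime.pow_right i (Nat.coprime_two_right.2 ho)).eq_one_of_dvd
      ⟨2 ^ c, by rw [← h, mul_comm]⟩

theorem odd_part_unique {c c' o o' : ℕ} (ho : Odd o) (ho' : Odd o') (h : 2 ^ c * o = 2 ^ c' * o') :
    c = c' ∧ o = o' := by
  have key : ∀ {c c' o o' : ℕ}, Odd o → 2 ^ c * o = 2 ^ c' * o' → c' ≤ c := fun {c c' o o'} ho h =>
    (Nat.pow_dvd_pow_iff_le_right one_lt_two).1
      ((Nat.Coprime.pow_left c' (Nat.coprime_two_left.2 ho)).dvd_of_dvd_mul_right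
        ⟨o', h⟩)
  obtain rfl := le_antisymm (key ho' h.symm) (key ho h)
  exact ⟨rfl, Nat.eq_of_mul_eq_mul_left (by positivity) h⟩

theorem odd_of_gk {t : ℕ} (h : Gold t ∨ Kasami t) : Odd t ∧ 3 ≤ t := by
  rcases h with ⟨u, hu, rfl⟩ | ⟨u, hu, rfl⟩
  · refine ⟨(Nat.even_pow.2 ⟨even_two, by omega⟩).add_one, ?_⟩
    have : 2 ≤ 2 ^ u := by simpa using Nat.pow_le_pow_right two_pos hu
    omega
  · obtain ⟨g1, g2, -⟩ := three_le_kasami hu
    exact ⟨(even_iff_two_dvd.2 g2).add_one, by omega⟩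

section

variable {F : Type} [Field F] [CharP F 2]

theorem odd_natDegree_derivative {f : F[X]} (h : derivative f ≠ 0) :
    Odd ((derivative f).natDegree + 1) ∧ f.coeff ((derivative f).natDegree + 1) ≠ 0 := by
  have h1 := leadingCoeff_ne_zero.2 h
  rw [leadingCoeff, coeff_derivative] at h1
  refine ⟨?_, left_ne_zero_of_mul h1⟩
  by_contra ho
  refine right_ne_zero_of_mul h1 ?_
  rw [← Nat.cast_succ]
  exact (CharP.cast_eq_zero_iff F 2 _).2 (even_iff_two_dvd.1 (Nat.not_odd_iff_even.1 ho))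

theorem coeff_derivative_odd {f : F[X]} {e : ℕ} (he : Odd e) :
    (derivative f).coeff (e - 1) = f.coeff e := by
  obtain ⟨m, rfl⟩ := he
  rw [Nat.add_sub_cancel, coeff_derivative]
  simp [CharTwo.two_eq_zero]

omit [CharP F 2] in
theorem aff_map_iff {k : Type} [Field k] (ι : F →+* k) {A : F[X]} : Aff (A.map ι) ↔ Aff A := by
  simp [Aff]

theorem Aff.comp {A L : F[X]} (hA : Aff A) (hL : Aff L) : Aff (A.comp L) := by
  let k := AlgebraicClosure F
  let ι := algebraMap F k
  have h2 : (2 : k) = 0 := CharTwo.two_eq_zero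
  rw [← aff_map_iff ι]
  refine aff_of_additive fun a b => ?_
  simp only [eval_map, eval₂_comp, hL.eval₂_add ι, hA.eval₂_add ι, eval₂_at_zero]
  linear_combination (eval₂ ι (ι (L.coeff 0)) A + ι (A.coeff 0)) * h2

omit [CharP F 2] in
theorem Aff.add {A B : F[X]} (hA : Aff A) (hB : Aff B) : Aff (A + B) := fun j hj => by
  by_contra h
  have h1 : A.coeff j = 0 := by_contra fun h' => h (hA j h')
  have h2 : B.coeff j = 0 := by_contra fun h' => h (hB j h')
  exact hj (by rw [coeff_add, h1, h2, add_zero])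

theorem Aff.taylor {A : F[X]} (hA : Aff A) (c : F) : Aff (taylor c A) :=
  hA.comp fun j hj => by
    rcases j with - | - | j
    · exact Or.inl rfl
    · exact Or.inr ⟨0, rfl⟩
    · simp [coeff_X] at hj

/-- The additive map of an affine polynomial. -/
noncomputable def Aff.hom {A : F[X]} (hA : Aff A) (E : Type) [Field E] [CharP E 2] [Algebra F E] :
    E →+ E where
  toFun x := aeval x A + algebraMap F E (A.coeff 0)
  map_zero' := by rw [aeval_def, eval₂_at_zero, CharTwo.add_self_eq_zero]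
  map_add' x y := by
    simp only [aeval_def]
    rw [hA.eval₂_add]
    have h2 : (2 : E) = 0 := CharTwo.two_eq_zero
    ring

omit [CharP F 2] in
theorem Aff.hom_apply {A : F[X]} (hA : Aff A) (E : Type) [Field E] [CharP E 2] [Algebra F E]
    (x : E) : hA.hom E x = aeval x A + algebraMap F E (A.coeff 0) := rfl

theorem Tame.map {k : Type} [Field k] [CharP k 2] (ι : F →+* k) {f : F[X]} (h : Tame f) :
    Tame (f.map ι) := by
  rw [tame_iff] at h ⊢
  intro c o ho hc
  rw [derivative_map, natDegree_map]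
  exact h c o ho (by simpa using hc)

theorem rational_shift [PerfectRing F 2] {k : Type} [Field k] [CharP k 2] (ι : F →+* k) {p : F[X]}
    {a b c : k} {n : ℕ} (ha : a ≠ 0) (hn : ¬ Lin n)
    (h : taylor c (p.map ι) = C a * X ^ n + C b) : ∃ c', ι c' = c := by
  obtain ⟨v, m, hm, rfl⟩ := Nat.exists_eq_two_pow_mul_odd (n := n) fun h0 => hn (Or.inl h0)
  have hm1 : m ≠ 1 := fun h1 => hn ((lin_iff hm).2 h1)
  have h1 : p.map ι = C a * (X + C c) ^ (2 ^ v * m) + C b := by
    have := congrArg (taylor c) h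
    rwa [taylor_taylor, CharTwo.add_self_eq_zero, taylor_zero, map_add, taylor_mul, taylor_C,
      taylor_C, taylor_X_pow] at this
  obtain ⟨m, rfl⟩ := hm
  have h2 := congrArg (fun r => r.coeff (2 ^ v * (2 * m + 1))) h1
  have h3 := congrArg (fun r => r.coeff (2 ^ v * (2 * m))) h1
  have hm0 : m ≠ 0 := by omega
  simp only [coeff_map, coeff_add, coeff_C_mul, coeff_X_add_C_pow] at h2 h3
  rw [coeff_C_of_ne_zero (by positivity), Nat.sub_self, Nat.choose_self, pow_zero, Nat.cast_one,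
    mul_one, mul_one, add_zero] at h2
  rw [coeff_C_of_ne_zero (by positivity), add_zero, Nat.mul_add_one, Nat.add_sub_cancel_left,
    Nat.choose_symm_add, ← Nat.mul_add_one, choose_two_pow_self v ⟨m, rfl⟩, mul_one] at h3
  obtain ⟨c', hc'⟩ := (iterateFrobeniusEquiv F 2 v).surjective
    (p.coeff (2 ^ v * (2 * m)) / p.coeff (2 ^ v * (2 * m + 1)))
  refine ⟨c', iterateFrobenius_inj k 2 v ?_⟩
  rw [iterateFrobenius_def, iterateFrobenius_def, ← map_pow]
  change ι (iterateFrobeniusEquiv F 2 v c') = _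
  rw [hc', map_div₀, h2, h3, mul_div_cancel_left₀ _ ha]

end

theorem odd_struct (hD : Blocks) (hE : GoldCase) (hF : KasamiCase) {k₀ k : Type} [Field k₀]
    [IsAlgClosed k₀] [CharP k₀ 2] [Field k] [IsAlgClosed k] [CharP k 2] [Algebra k₀ k]
    {φ : k ≃+* k} {φ₀ : k₀ →+* k₀} {t : k} (hφ : PAC φ)
    (h₀ : ∀ c, φ (algebraMap k₀ k c) = algebraMap k₀ k (φ₀ c)) (ht : φ t = t)
    (ht' : Transcendental k₀ t) {g : k₀[X]} {e : ℕ} (hGK : Gold e ∨ Kasami e)
    (hapn : APNFix φ (g.map (algebraMap k₀ k))) (hfix : g.map φ₀ = g) (hd : g.natDegree = e) :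
    ∃ c : k₀, (g.coeff (e - 1) = 0 → c = 0) ∧
      nl (taylor c g) = monomial e g.leadingCoeff := by
  obtain ⟨he, he3⟩ := odd_of_gk hGK
  have htwo : (2 : k₀) = 0 := CharTwo.two_eq_zero
  have h0 : g ≠ 0 := by
    rintro rfl
    rw [natDegree_zero] at hd
    omega
  have hlc : g.leadingCoeff ≠ 0 := leadingCoeff_ne_zero.2 h0
  set c := g.coeff (e - 1) / g.coeff e with hc
  have hfc : ∀ j, φ₀ (g.coeff j) = g.coeff j := fun j => by rw [← coeff_map, hfix]
  have hcf : φ₀ c = c := by rw [hc, map_div₀, hfc, hfc]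
  have hle : ¬ Lin e := fun h => by
    have := (lin_iff (c := 0) he).1 (by simpa using h)
    omega
  have h7 : (taylor c g).coeff e = g.leadingCoeff := by
    rw [← leadingCoeff_taylor c g, leadingCoeff, natDegree_taylor, hd]
  have h8 : (taylor c g).coeff (e - 1) = 0 := by
    obtain ⟨m, rfl⟩ := he
    rw [Nat.add_sub_cancel, taylor_coeff]
    have g1 : (hasseDeriv (2 * m) g).natDegree ≤ 1 := by
      have := natDegree_hasseDeriv_le g (2 * m)
      omega
    rw [eq_X_add_C_of_natDegree_le_one g1]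
    simp only [hasseDeriv_coeff, eval_add, eval_mul, eval_C, eval_X, zero_add, Nat.choose_self,
      Nat.cast_one, one_mul]
    rw [add_comm 1, Nat.choose_succ_self_right, hc, Nat.add_sub_cancel]
    rw [leadingCoeff, hd] at hlc
    push_cast
    field_simp
    linear_combination (m + 1) * g.coeff (2 * m) * htwo
  have h9 : (nl (taylor c g)).coeff e = g.leadingCoeff := by rw [coeff_nl, if_neg hle, h7]
  have h4 : APNFix φ ((taylor c g).map (algebraMap k₀ k)) := fun x y z hx hy hz he => by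
    have h2 : (2 : k) = 0 := CharTwo.two_eq_zero
    have hι : φ (algebraMap k₀ k c) = algebraMap k₀ k c := by rw [h₀, hcf]
    simp only [map_taylor, taylor_eval] at he
    generalize algebraMap k₀ k c = c' at he hι
    have := hapn (x + c') (y + c') (z + c') (by rw [map_add, hx, hι]) (by rw [map_add, hy, hι])
      (by rw [map_add, hz, hι]) (by
        rw [show x + c' + (y + c') + (z + c') = x + y + z + c' by linear_combination c' * h2]
        exact he)
    simpa using this
  have h5 : (taylor c g).map φ₀ = taylor c g := by rw [map_taylor, hfix, hcf]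
  have h10 := odd_degree hD hE hF hφ h₀ ht ht' (f := nl (taylor c g)) hGK (apn_nl _ h4)
    (by
      ext j
      rw [coeff_map, coeff_nl]
      split_ifs
      · exact map_zero _
      · rw [← coeff_map, h5])
    (by
      refine natDegree_eq_of_le_of_coeff_ne_zero ?_ (h9 ▸ hlc)
      rw [natDegree_le_iff_coeff_eq_zero]
      intro j hj
      rw [coeff_nl, coeff_eq_zero_of_natDegree_lt (by rwa [natDegree_taylor, hd]), ite_self])
    (fun j hj => ((nl_ne_iff _ j).1 hj).2) (by rw [coeff_nl, h8, ite_self])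
  refine ⟨c, fun h => by rw [hc, h, zero_div], ?_⟩
  ext j
  rw [coeff_monomial]
  split_ifs with hj
  · rw [← hj, h9]
  · exact h10 j (Ne.symm hj)

/-- The structure of tame polynomials with trivial radical. -/
theorem tame_struct (hC : TopReduction) (hD : Blocks) (hE : GoldCase) (hF : KasamiCase)
    (hM : BigFactor) (hcore : CoreThm) (hsurf : SurfPAC) (hhom : Homog) {F k₀ k : Type} [Field F]
    [CharP F 2] [PerfectRing F 2] [Field k₀] [IsAlgClosed k₀] [CharP k₀ 2] [Field k]
    [IsAlgClosed k] [CharP k 2] [Algebra F k₀] [Algebra k₀ k] {φ : k ≃+* k} {φ₀ : k₀ ≃+* k₀}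
    {t : k} (hφ : PAC φ) (h₀ : ∀ c, φ (algebraMap k₀ k c) = algebraMap k₀ k (φ₀ c)) (ht : φ t = t)
    (ht' : Transcendental k₀ t) (halg : ∀ c : k₀, ∃ N, 1 ≤ N ∧ c ^ 2 ^ N = c)
    (hφ₀ : ∀ c : F, φ₀ (algebraMap F k₀ c) = algebraMap F k₀ c) {f : F[X]}
    (hapn : APNFix φ ((f.map (algebraMap F k₀)).map (algebraMap k₀ k)))
    (hdeg : (derivative f).natDegree ≠ 0) (htame : Tame f) (hrad : Rad0 (f.map (algebraMap F k₀))) :
    ∃ (e : ℕ) (c : F), (Gold e ∨ Kasami e) ∧ (taylor c f).coeff e ≠ 0 ∧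
      ∀ v o, Odd o → (taylor c f).coeff (2 ^ v * o) ≠ 0 → o = 1 ∨ o = e := by
  set f₀ := f.map (algebraMap F k₀) with hf₀
  have h2 : (2 : k) = 0 := CharTwo.two_eq_zero
  have h2' : (2 : k₀) = 0 := CharTwo.two_eq_zero
  have hdeg₀ : (derivative f₀).natDegree ≠ 0 := by rwa [hf₀, derivative_map, natDegree_map]
  obtain ⟨g, hfix, hnl, hd, R, hR⟩ := hcore k₀ φ₀ f₀ ⟨by ext j; simp [hf₀, hφ₀],
    hsurf k₀ k φ φ₀ t hφ h₀ ht ht' halg f₀ hdeg₀ hapn, hdeg₀⟩ (htame.map _) hrad
  have hder : derivative f₀ ≠ 0 := fun h => hdeg₀ (by rw [h, natDegree_zero])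
  set e := (derivative f₀).natDegree + 1 with hedef
  have he : Odd e := (odd_natDegree_derivative hder).1
  have hg0 : g ≠ 0 := by
    rintro rfl
    rw [natDegree_zero] at hd
    omega
  have hlc : g.leadingCoeff ≠ 0 := leadingCoeff_ne_zero.2 hg0
  have hapng : APNFix φ (g.map (algebraMap k₀ k)) := fun x y z hx hy hz h => by
    refine hapn x y z hx hy hz ?_
    have h3 := congrArg (ev3 (x + y) x z) hR
    rw [map_mul, ev3_FF, ev3_FF, show x + (x + y) = y by linear_combination x * h2,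
      show z + (x + y) = x + y + z by ring] at h3
    simp only [eval_map_algebraMap] at h ⊢
    linear_combination h3 + ev3 (x + y) x z R * h
  obtain ⟨-, hg⟩ := hC k φ hφ (g.map (algebraMap k₀ k)) 0 e hapng
    (by
      ext j
      rw [coeff_map, coeff_map, RingHom.coe_coe, h₀, ← RingHom.coe_coe φ₀, ← coeff_map, hfix])
    (fun j hj => hnl j (by simpa using hj))
    (fun h => by
      have := coeff_derivative_odd (f := g.map (algebraMap k₀ k)) he
      rw [h, coeff_zero, coeff_map, ← hd, eq_comm, map_eq_zero] at this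
      exact hlc this) he (by rw [natDegree_map, hd, pow_zero, one_mul])
  have hGK := gold_or_kasami hM hφ he (by omega) hg
  obtain ⟨c, hc0, hc⟩ := odd_struct hD hE hF hφ h₀ ht ht' hGK hapng hfix hd
  have hdt : (derivative (taylor c f₀)).natDegree + 1 = e := by
    rw [← hasseDeriv_one', hasseDeriv_taylor, natDegree_taylor, hasseDeriv_one']
  have hdt0 : derivative (taylor c f₀) ≠ 0 := fun h => by
    rw [h, natDegree_zero] at hdt
    omega
  have h5 : ∀ v o, Odd o → (taylor c f₀).coeff (2 ^ v * o) ≠ 0 → o = 1 ∨ o = e := by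
    intro v o ho hne
    have h6 := tame_iff.1 ((htame.map (algebraMap F k₀)).taylor c) v o ho hne
    refine (hhom k₀ (taylor c f₀) e he (odd_of_gk hGK).2 (fun s x y h => ?_) v o ho hne).imp id
      fun h => le_antisymm (hdt ▸ h6) h
    have h3 := congrArg (ev3 s (x + c) (y + c)) hR
    rw [map_mul, ev3_FF, ev3_FF, add_right_comm x, add_right_comm y] at h3
    simp only [coe_aeval_eq_eval, ← taylor_eval c] at h3
    have h4 : ∀ u, eval u (taylor c g) =
        g.leadingCoeff * u ^ e + eval u (taylor c g - nl (taylor c g)) := fun u => by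
      rw [eval_sub, hc, eval_monomial, add_sub_cancel]
    have h7 := fun u w => (aff_sub_nl (taylor c g)).eval₂_add (RingHom.id k₀) u w
    simp only [eval₂_id] at h7
    rw [h4 (y + s), h4 y, h4 (x + s), h4 x, h7, h7] at h3
    generalize taylor c g - nl (taylor c g) = A at h3
    linear_combination h3 + ev3 s (x + c) (y + c) R * g.leadingCoeff * h +
      ev3 s (x + c) (y + c) R * (eval y A + eval x A + eval s A + RingHom.id k₀ (A.coeff 0)) * h2'
  have h6 : (taylor c f₀).coeff e ≠ 0 := hdt ▸ (odd_natDegree_derivative hdt0).2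
  obtain ⟨c', rfl⟩ : ∃ c', algebraMap F k₀ c' = c := by
    by_cases hl : Lin (e - 1)
    · exact ⟨0, by rw [hc0 (by_contra fun h => hnl _ h hl), map_zero]⟩
    refine rational_shift _ (p := derivative f) (b := (taylor c f₀).coeff 1) h6 hl ?_
    rw [← derivative_map, ← hf₀, ← hasseDeriv_one', ← hasseDeriv_taylor, hasseDeriv_one']
    ext j
    rw [coeff_add, coeff_C_mul, coeff_X_pow, coeff_C]
    rcases Nat.even_or_odd j with hj | hj
    · rw [← Nat.add_sub_cancel (n := j) (m := 1), coeff_derivative_odd hj.add_one,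
        Nat.add_sub_cancel]
      have h7 := h5 0 (j + 1) hj.add_one
      rw [pow_zero, one_mul] at h7
      split_ifs with h8 h9 h9
      · omega
      · rw [mul_one, add_zero, show j + 1 = e by omega]
      · rw [mul_zero, zero_add, h9, zero_add]
      · rw [mul_zero, add_zero]
        by_contra h
        rcases h7 h with h | h <;> omega
    · obtain ⟨m, rfl⟩ := hj
      obtain ⟨n, hn⟩ := he
      rw [if_neg (by omega), if_neg (by omega), coeff_derivative, mul_zero, add_zero]
      push_cast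
      linear_combination (taylor c f₀).coeff (2 * m + 1 + 1) * (m + 1) * h2'
  rw [hf₀, ← map_taylor] at h5 h6
  simp only [coeff_map, _root_.map_ne_zero] at h5 h6
  exact ⟨e, c', hGK, h6, h5⟩

set_option maxHeartbeats 400000 in
theorem finish_tame (hfin : FinCCZ) {F : Type} [Field F] [CharP F 2] {f h q L M : F[X]} {ν e : ℕ}
    {c : F} (hh : nl f = expand F (2 ^ ν) h) (h5 : ∀ j, h.coeff j ≠ 0 → ¬ Lin j) (hL : Aff L)
    (hL0 : L.coeff 0 = 0) (hLm : L.Monic) (hL1 : L.coeff 1 ≠ 0) (hMa : Aff M)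
    (hdec : h = (taylor c q).comp L + M) (he : Odd e) (he3 : 3 ≤ e) (hq : q.coeff e ≠ 0)
    (hq' : ∀ v o, Odd o → q.coeff (2 ^ v * o) ≠ 0 → o = 1 ∨ o = e) :
    ∃ r : ℕ, IsGreatest {j | f.coeff j ≠ 0 ∧ ¬ Lin j} (2 ^ r * e) ∧
      ∀ (E : Type) [Field E] [Finite E] [Algebra F E], IsAPN (fun x : E => aeval x f) →
        e + 1 < Nat.card E → CCZ (fun x : E => aeval x f) (fun x => x ^ e) := by
  have hf₁ : taylor c q = taylor c (nl q) + taylor c (q - nl q) := by
    rw [← map_add, add_sub_cancel]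
  have hexp : ∀ j, (nl q).coeff j ≠ 0 → ∃ v, j = 2 ^ v * e := fun j hj => by
    obtain ⟨g1, g2⟩ := (nl_ne_iff q j).1 hj
    obtain ⟨v, o, ho, rfl⟩ := Nat.exists_eq_two_pow_mul_odd (n := j) fun h => g2 (Or.inl h)
    rcases hq' v o ho g1 with rfl | rfl
    · exact absurd ((lin_iff ho).2 rfl) g2
    · exact ⟨v, rfl⟩
  have hq0 : nl q ≠ 0 := fun h0 => by
    have := (nl_ne_iff q e).2 ⟨hq, fun h => by
      have := (lin_iff (c := 0) he).1 (by simpa using h)
      omega⟩
    rw [h0] at this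
    exact this rfl
  obtain ⟨v, hv⟩ := hexp _ (leadingCoeff_ne_zero.2 hq0)
  obtain ⟨w, hw⟩ : ∃ w, L.natDegree = 2 ^ w :=
    (hL _ (leadingCoeff_ne_zero.2 hLm.ne_zero)).resolve_left fun h0 => by
      have := le_natDegree_of_ne_zero hL1
      omega
  have hA := ((aff_sub_nl q).taylor c).comp hL |>.add hMa
  have hP : ((taylor c (nl q)).comp L).natDegree = 2 ^ (v + w) * e := by
    rw [natDegree_comp, natDegree_taylor, hv, hw]
    ring
  have hh₂ : h = (taylor c (nl q)).comp L + ((taylor c (q - nl q)).comp L + M) := by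
    rw [← add_assoc, ← add_comp, ← hf₁, hdec]
  have hdh : h.natDegree = 2 ^ (v + w) * e := by
    have g1 : ∀ j, ¬ Lin j → h.coeff j = ((taylor c (nl q)).comp L).coeff j := fun j hj => by
      rw [hh₂, coeff_add, by_contra fun h' => hj (hA j h'), add_zero]
    refine natDegree_eq_of_le_of_coeff_ne_zero ?_ ?_
    · rw [natDegree_le_iff_coeff_eq_zero]
      intro j hj
      by_contra hne
      exact hne (by rw [g1 j (h5 j hne), coeff_eq_zero_of_natDegree_lt (hP ▸ hj)])
    · rw [g1 _ fun h => by have := (lin_iff he).1 h; omega, ← hP]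
      refine leadingCoeff_ne_zero.2 fun h0 => ?_
      rw [h0, natDegree_zero] at hP
      exact absurd hP.symm (by positivity)
  have hdf : (nl f).natDegree = 2 ^ (ν + (v + w)) * e := by
    rw [hh, natDegree_expand, hdh]
    ring
  refine ⟨ν + (v + w), ⟨?_, fun j hj => ?_⟩, fun E _ _ _ hE hcard => ?_⟩
  · rw [← hdf]
    refine (nl_ne_iff f _).1 (leadingCoeff_ne_zero.2 ?_)
    rintro h
    rw [h, natDegree_zero] at hdf
    exact absurd hdf.symm (by positivity)
  · rw [← hdf]
    exact le_natDegree_of_ne_zero ((nl_ne_iff f j).2 hj)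
  have : CharP E 2 := charP_of_injective_algebraMap (algebraMap F E).injective 2
  have htwo : (2 : E) = 0 := CharTwo.two_eq_zero
  have he0 : e ≠ 0 := by omega
  have hL₁ : Aff (contract e (nl q)) := fun i hi => by
    rw [coeff_contract he0] at hi
    obtain ⟨u, hu⟩ := hexp _ hi
    exact Or.inr ⟨u, Nat.eq_of_mul_eq_mul_right (by omega) hu⟩
  have hL₂ : expand F e (contract e (nl q)) = nl q := by
    ext j
    rw [coeff_expand (by omega)]
    split_ifs with hj
    · rw [coeff_contract he0, Nat.div_mul_cancel hj]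
    · by_contra hne
      obtain ⟨u, rfl⟩ := hexp j (Ne.symm hne)
      exact hj (dvd_mul_left _ _)
  have hL₃ : (contract e (nl q)).coeff 0 = 0 := by
    rw [coeff_contract he0, zero_mul, coeff_nl, if_pos (show Lin 0 from Or.inl rfl)]
  let fr : E →+ E := (iterateFrobenius E 2 ν : E →+* E)
  have g1 : ∀ x : E, aeval x f = aeval x (nl f) + aeval x (f - nl f) := fun x => by
    rw [← map_add, add_sub_cancel]
  have g2 : ∀ x : E, aeval x (nl f) = aeval (x ^ 2 ^ ν) h := fun x => by rw [hh, expand_aeval]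
  have g3 : ∀ x : E, aeval x ((taylor c (nl q)).comp L) =
      aeval ((aeval x L + algebraMap F E c) ^ e) (contract e (nl q)) := fun x => by
    rw [← expand_aeval, hL₂, aeval_comp, taylor_apply, aeval_comp, map_add, aeval_X, aeval_C]
  have hA₁ := aff_sub_nl f
  generalize (taylor c (q - nl q)).comp L + M = A at hA hh₂
  generalize f - nl f = A₁ at hA₁ g1
  have g4 : ∀ x : E, aeval x h = aeval x ((taylor c (nl q)).comp L) + aeval x A := fun x => by
    rw [← map_add, ← hh₂]
  have g5 : ∀ x : E, fr x = x ^ 2 ^ ν := fun x => rfl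
  refine hfin E (hL₁.hom E) ((hL.hom E).comp fr) ((hA.hom E).comp fr + hA₁.hom E)
    (algebraMap F E c) (algebraMap F E (A.coeff 0) + algebraMap F E (A₁.coeff 0)) e _
    (fun x => ?_) hE (by omega) hcard
  simp only [AddMonoidHom.add_apply, AddMonoidHom.comp_apply, Aff.hom_apply, g5]
  rw [hL₃, hL0, map_zero, add_zero, add_zero, ← g3, g1, g2, g4]
  linear_combination -(algebraMap F E (A.coeff 0) + algebraMap F E (A₁.coeff 0)) * htwo

set_option maxHeartbeats 400000 in
theorem main_tame (hB : ExistsPAC) (hC : TopReduction) (hD : Blocks) (hE : GoldCase)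
    (hF : KasamiCase) (hM : BigFactor) (hcore : CoreThm) (hsurf : SurfPAC) (hrad : RadRed)
    (hcomp : ApnComp) (hhom : Homog) (hfin : FinCCZ) (F : Type) [Field F] [Fintype F] [CharP F 2]
    (f : F[X]) (hf : ExcAPN f) {ν e₀ : ℕ} (he₀ : Odd e₀) (he₁ : e₀ ≠ 1)
    (hν : f.coeff (2 ^ ν * e₀) ≠ 0)
    (hT : ∀ c o, Odd o → o ≠ 1 → f.coeff (2 ^ c * o) ≠ 0 → ν ≤ c ∧ o ≤ e₀) :
    ∃ t r : ℕ, (Gold t ∨ Kasami t) ∧ IsGreatest {j | f.coeff j ≠ 0 ∧ ¬ Lin j} (2 ^ r * t) ∧
      ∀ (E : Type) [Field E] [Finite E] [Algebra F E], IsAPN (fun x : E => aeval x f) →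
        t + 1 < Nat.card E → CCZ (fun x : E => aeval x f) (fun x => x ^ t) := by
  classical
  obtain ⟨a, -, ha⟩ := FiniteField.card F 2
  let k₀ := AlgebraicClosure F
  have halg : ∀ c : k₀, ∃ N, 1 ≤ N ∧ c ^ 2 ^ N = c := fun c => by
    have hi : IsIntegral F c := Algebra.IsIntegral.isIntegral c
    have := IntermediateField.adjoin.finiteDimensional hi
    have : Finite (IntermediateField.adjoin F {c}) := Module.finite_of_finite F
    let := Fintype.ofFinite (IntermediateField.adjoin F {c})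
    obtain ⟨N, -, hN⟩ := FiniteField.card (IntermediateField.adjoin F {c}) 2
    refine ⟨N, N.2, ?_⟩
    have h := FiniteField.pow_card (IntermediateField.AdjoinSimple.gen F c)
    rw [hN] at h
    exact congrArg Subtype.val h
  obtain ⟨k, _, _, _, _, φ, φ₀, t, hφ, h₀, ht, ht', hfix, hapn⟩ := hB k₀ halg _
    (hf.image (f := fun m => (a : ℕ) * m) fun m _ m' _ h => Nat.eq_of_mul_eq_mul_left a.2 h)
  have hφ₀ : ∀ c : F, φ₀ (algebraMap F k₀ c) = algebraMap F k₀ c := fun c => hfix _ (by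
    rintro s ⟨m, -, rfl⟩
    rw [← map_pow, pow_mul, ← ha, FiniteField.pow_card_pow])
  let φ₁ : k₀ ≃+* k₀ := RingEquiv.ofBijective φ₀
    (Algebra.IsAlgebraic.algHom_bijective (⟨φ₀, hφ₀⟩ : k₀ →ₐ[F] k₀))
  let ι : F →+* k := (algebraMap k₀ k).comp (algebraMap F k₀)
  have hι : ∀ c, φ (ι c) = ι c := fun c => by simp [ι, h₀, hφ₀]
  have h1 : APNFix φ (f.map ι) := by
    rw [← Polynomial.map_map]
    refine hapn _ ?_
    rintro s ⟨m, ⟨hm, E, _, _, hE, h⟩, rfl⟩
    exact apnFix_of_isAPN ha k₀ hm hE h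
  have h2 := apn_nl ι h1
  have hν' : (nl f).coeff (2 ^ ν * e₀) ≠ 0 :=
    (nl_ne_iff f _).2 ⟨hν, fun h => he₁ ((lin_iff he₀).1 h)⟩
  have h3 : (nl f).natDegree ≠ 0 := fun h => by
    have := le_natDegree_of_ne_zero hν'
    exact absurd (Nat.le_zero.1 (h ▸ this)) (mul_ne_zero (by positivity) he₀.pos.ne')
  obtain ⟨μ, h, hh, hh'⟩ := exists_contract _ h3
  have h4 : APNFix φ (h.map ι) := apn_of_expand ι μ (hh ▸ h2)
  have hco : ∀ j, (nl f).coeff (j * 2 ^ μ) = h.coeff j := fun j => by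
    rw [hh, coeff_expand_mul (by positivity)]
  have h5 : ∀ j, h.coeff j ≠ 0 → ¬ Lin j := fun j hj hl =>
    ((nl_ne_iff f _).1 (hco j ▸ hj)).2 (hl.mul_pow μ)
  have h6 : ∀ c o, Odd o → h.coeff (2 ^ c * o) ≠ 0 → ν ≤ c + μ ∧ o ≤ e₀ := fun c o ho hc =>
    hT _ o ho (fun h1 => h5 _ hc ((lin_iff ho).2 h1)) (by
      rw [pow_add, mul_right_comm]
      exact ((nl_ne_iff f _).1 (hco _ ▸ hc)).1)
  obtain ⟨ho, hoc⟩ := odd_natDegree_derivative hh'
  have hdeg : (derivative h).natDegree ≠ 0 := fun h0 =>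
    h5 _ hoc (Or.inr ⟨0, by rw [h0]; rfl⟩)
  have h7 : ν = μ := by
    refine le_antisymm (by simpa using (h6 0 _ ho (by simpa using hoc)).1) ?_
    rw [hh, coeff_expand (by positivity)] at hν'
    split_ifs at hν' with hd
    · exact (Nat.pow_dvd_pow_iff_le_right one_lt_two).1
        ((Nat.Coprime.pow_left μ (Nat.coprime_two_left.2 he₀)).dvd_of_dvd_mul_right hd)
    · exact absurd rfl hν'
  subst h7
  have h8 : e₀ ≤ (derivative h).natDegree + 1 := by
    rw [mul_comm, hco, ← coeff_derivative_odd he₀] at hν'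
    have := le_natDegree_of_ne_zero hν'
    omega
  have htame : Tame h := tame_iff.2 fun c o ho hc => (h6 c o ho hc).2.trans h8
  obtain ⟨f₁, L, M, hL, hL0, hLm, hL1, hMa, hdec, hdeg₁, htame₁, hrad₁⟩ := hrad F k₀ h hdeg htame
  have h9 : APNFix φ (f₁.map ι) := by
    refine hcomp k φ (fun a b => ?_) (L.map ι) _ (by ext j; simp [hι]) ((aff_map_iff ι).2 hL)
      (by simp [hL0]) (by simpa using hL1) ?_
    · have t0 : t ≠ 0 := fun h => ht' (h ▸ isAlgebraic_zero)
      have t1 : t ≠ 1 := fun h => ht' (h ▸ isAlgebraic_one)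
      by_contra hn
      push Not at hn
      have g0 := hn 0 (map_zero φ)
      have g1 := hn 1 (map_one φ)
      have g2 := hn t ht
      by_cases ha0 : (0 : k) = a
      · subst ha0
        exact t1 ((g2 t0).trans (g1 one_ne_zero).symm)
      · obtain rfl := g0 ha0
        by_cases ha1 : (1 : k) = a
        · subst ha1
          exact t0 (g2 t1)
        · exact one_ne_zero (g1 ha1)
    · rw [← map_comp]
      exact apn_of_add_aff ι hMa (hdec ▸ h4)
  obtain ⟨e, c, hGK, hq, hq'⟩ := tame_struct hC hD hE hF hM hcore hsurf hhom (φ₀ := φ₁) hφ h₀ ht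
    ht' halg hφ₀ (f := f₁) (by rwa [Polynomial.map_map]) hdeg₁ htame₁ hrad₁
  obtain ⟨he, he3⟩ := odd_of_gk hGK
  obtain ⟨r, hr⟩ := finish_tame hfin (c := c) hh h5 hL hL0 hLm hL1 hMa
    (by rwa [taylor_taylor, CharTwo.add_self_eq_zero, taylor_zero]) he he3 hq hq'
  exact ⟨e, r, hGK, hr⟩

end Pool.Agent.Lib.MP_346d6a_co
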