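import Pool.Agent.Lib.MP_346d6a_co.TBasic

/-!
The tame case, part TOdd.
-/

set_option maxSynthPendingDepth 3

namespace Pool.Agent.Lib.MP_346d6a_co

open Polynomial

namespace TOdd

variable {k k₁ Ω : Type} [Field k] [Field k₁] [Field Ω] [Algebra k k₁] [Algebra k Ω]
  [Algebra k₁ Ω] [IsScalarTower k k₁ Ω] (V : Val k₁ Ω)

theorem v_prod {r : NNReal} (t : Multiset Ω) (h : ∀ x ∈ t, V.v x ≤ r) (m : ℕ) :
    V.v ((t.map (X - C ·)).prod.coeff m) * r ^ m ≤ r ^ t.card := by
  induction t using Multiset.induction_on generalizing m with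
  | empty =>
    rw [Multiset.map_zero, Multiset.prod_zero, coeff_one]
    split_ifs with c <;> simp [c]
  | cons a t ih =>
    have ha := h a (Multiset.mem_cons_self _ _)
    replace ih := ih fun x hx => h x (Multiset.mem_cons_of_mem hx)
    rw [Multiset.map_cons, Multiset.prod_cons, Multiset.card_cons, pow_succ' r t.card]
    have h1 : ∀ m, V.v (a * (t.map (X - C ·)).prod.coeff m) * r ^ m ≤ r * r ^ t.card := fun m => by
      rw [map_mul, mul_assoc]
      exact mul_le_mul' ha (ih m)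
    rcases m with _ | m
    · rw [mul_coeff_zero, coeff_sub, coeff_X_zero, coeff_C_zero, zero_sub, neg_mul,
        Valuation.map_neg]
      exact h1 0
    · rw [coeff_X_sub_C_mul]
      refine (mul_le_mul_left (V.v.map_sub _ _) _).trans ?_
      rw [max_mul]
      refine max_le ?_ (h1 _)
      rw [pow_succ', mul_left_comm]
      exact mul_le_mul_right (ih m) _

theorem v_ev2_lt (H : k[X][X]) (η z : Ω) {B : NNReal} (hB : B ≠ 0)
    (h : ∀ m i, (H.coeff m).coeff i ≠ 0 → V.v η ^ i * V.v z ^ m < B) : V.v (ev2 η z H) < B := by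
  rw [ev2_eq, eval_eq_sum_range]
  refine V.v.map_sum_lt hB fun m _ => ?_
  rw [coeff_map, RingHom.coe_coe, aeval_eq_sum_range, Finset.sum_mul]
  refine V.v.map_sum_lt hB fun i _ => ?_
  by_cases c : (H.coeff m).coeff i = 0
  · rw [c, zero_smul, zero_mul, map_zero]
    exact pos_iff_ne_zero.2 hB
  · rw [Algebra.smul_def, mul_assoc, map_mul, map_mul, map_pow, map_pow]
    exact (mul_le_of_le_one_left zero_le (V.v_algebraMap_le _)).trans_lt (h m i c)

theorem res_top {s : Ω} (hs : 1 < V.v s) {q : k[X]} {n : ℕ} (hq : q.natDegree ≤ n + 1) :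
    V.v (aeval s q / s ^ (n + 1) - algebraMap k₁ Ω (algebraMap k k₁ (q.coeff (n + 1)))) < 1 := by
  have h0 : s ≠ 0 := by rintro rfl; simp at hs
  have h1 : (q - monomial (n + 1) (q.coeff (n + 1))).natDegree ≤ n := by
    rw [natDegree_le_iff_coeff_eq_zero]
    intro j hj
    rw [coeff_sub, coeff_monomial]
    split_ifs with c
    · rw [c, sub_self]
    · rw [coeff_eq_zero_of_natDegree_lt (by omega), sub_zero]
  have h2 := V.v_aeval_le hs.le le_rfl h1
  rw [map_sub, aeval_monomial] at h2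
  rw [← IsScalarTower.algebraMap_apply, div_sub' (pow_ne_zero _ h0), map_div₀, map_pow,
    div_lt_one (by positivity), mul_comm]
  exact h2.trans_lt (pow_lt_pow_right₀ hs n.lt_succ_self)

theorem v_D_le (g : k[X]) {r : NNReal} (hr : 1 ≤ r) {x u : Ω} (hx : V.v x ≤ r) (hu : V.v u ≤ r) :
    V.v (aeval (x + u) g + aeval x g) ≤ r ^ g.natDegree :=
  V.v.map_add_le (V.v_aeval_le hr (V.v.map_add_le hx hu) le_rfl) (V.v_aeval_le hr hx le_rfl)

variable [CharP k 2]

theorem le_of_DD {g : k[X]} {m i : ℕ} (h : ((DD g).coeff m).coeff i ≠ 0) :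
    m + i ≤ g.natDegree ∧ i ≠ 0 := by
  rw [coeff_DD] at h
  split_ifs at h with c
  · exact absurd rfl h
  · exact ⟨le_natDegree_of_ne_zero (right_ne_zero_of_mul h), c⟩

theorem deg_DD (g : k[X]) (m : ℕ) : ((DD g).coeff m).natDegree ≤ g.natDegree - m := by
  rw [natDegree_le_iff_coeff_eq_zero]
  intro j hj
  by_contra c
  have := (le_of_DD c).1
  omega

omit [CharP k 2] in
theorem coeff_F (g : k[X]) (s a : Ω) {m : ℕ} (hm : m ≠ 0) :
    ((FF g).map (ev2 s a)).coeff m = aeval s ((DD g).coeff m) := by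
  rw [coeff_map, FF, SS, coeff_add, coeff_C_of_ne_zero hm, add_zero, coeff_map, ev2_C]

open Classical in
theorem card_Y [IsAlgClosed Ω] {g : k[X]} (hg : (derivative g).natDegree ≠ 0) {s a : Ω}
    (hG : Gen k s a) (hs : 1 < V.v s) (ha : V.v a ≤ 1) {e : ℕ} (he : e ≠ 0)
    (hN : (DD g).natDegree < g.natDegree) (heN : e < g.natDegree)
    (h1 : ((DD g).coeff e).coeff (g.natDegree - e) ≠ 0)
    (h2 : ∀ m, e < m → m < g.natDegree → ((DD g).coeff m).coeff (g.natDegree - m) = 0) :
    ((Rts g s a).filter fun x => V.v x ≤ V.v s).card = e := by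
  have h0 : s ≠ 0 := hG.s_ne
  have hv : 0 < V.v s := one_pos.trans hs
  set F := (FF g).map (ev2 s a) with hF
  set p := C (s ^ g.natDegree)⁻¹ * F.comp (C s * X) with hp
  have c0 : ∀ m, p.coeff m = F.coeff m * s ^ m / s ^ g.natDegree := fun m => by
    rw [hp, coeff_C_mul, comp_C_mul_X_coeff, inv_mul_eq_div]
  have c1 : ∀ m, m ≠ 0 → m < g.natDegree → V.v (p.coeff m - algebraMap k₁ Ω (algebraMap k k₁
      (((DD g).coeff m).coeff (g.natDegree - m)))) < 1 := fun m hm hd => by
    obtain ⟨n, hn⟩ : ∃ n, g.natDegree = m + (n + 1) := ⟨g.natDegree - m - 1, by omega⟩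
    have := deg_DD g m
    rw [c0, hF, coeff_F g s a hm, hn, pow_add, mul_comm (s ^ m),
      mul_div_mul_right _ _ (pow_ne_zero _ h0), Nat.add_sub_cancel_left]
    exact res_top V hs (by omega)
  have c2 : ∀ m, g.natDegree ≤ m → p.coeff m = 0 := fun m hm => by
    rw [c0, hF, coeff_F g s a (by omega), coeff_eq_zero_of_natDegree_lt (p := DD g) (by omega)]
    simp
  obtain ⟨pb, hpb, -⟩ := V.exists_red p fun m => by
    rcases eq_or_ne m 0 with rfl | hm
    · rw [c0, pow_zero, mul_one, map_div₀, map_pow, div_le_one (by positivity),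
        coeff_zero_eq_eval_zero, hF, ← ev3_eq, ev3_FF]
      exact V.v.map_add_le (v_D_le V g hs.le (by simp) le_rfl)
        (v_D_le V g hs.le (ha.trans hs.le) le_rfl)
    · rcases lt_or_ge m g.natDegree with c | c
      · exact V.le_one_of_res (c1 m hm c)
      · simp [c2 m c]
  have d1 : pb.coeff e ≠ 0 := by
    rw [V.res_unique' (hpb e) (c1 e he heN)]
    exact (_root_.map_ne_zero _).2 h1
  have d2 : pb.natDegree = e := by
    refine le_antisymm (natDegree_le_iff_coeff_eq_zero.2 fun m hm => ?_)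
      (le_natDegree_of_ne_zero d1)
    rcases lt_or_ge m g.natDegree with c | c
    · rw [V.res_unique' (hpb m) (c1 m (by omega) c), h2 m hm c, map_zero]
    · refine V.res_unique' (hpb m) ?_
      simp [c2 m c]
  have d3 := hpb.card_fin fun c => d1 (by rw [c, coeff_zero])
  have d4 := map_roots_comp_C_mul_X_add_C F s 0 h0.isUnit
  rw [C_0, add_zero] at d4
  rw [hp, roots_C_mul _ (inv_ne_zero (pow_ne_zero _ h0)), d2] at d3
  rw [← d3, Rts, ← Multiset.toFinset_filter, Multiset.toFinset_card_of_nodup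
    ((nodup_roots (hG.separable hg)).filter _), ← hF, ← d4, Multiset.filter_map, Multiset.card_map]
  congr 2
  funext x
  rw [Function.comp_apply, add_zero, map_mul, mul_le_iff_le_one_right hv]

theorem star [IsAlgClosed Ω] {g : k[X]} (hg : (derivative g).natDegree ≠ 0) {s a : Ω}
    (hG : Gen k s a) (hs : 1 < V.v s) (hlc : (DD g).leadingCoeff = X) {r : NNReal}
    (hr : ∀ x ∈ Rts g s a, V.v x ≤ r) {m i : ℕ} (hm : m ≠ 0) (h : ((DD g).coeff m).coeff i ≠ 0) :
    V.v s ^ i * r ^ m ≤ V.v s * r ^ (DD g).natDegree := by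
  classical
  set F := (FF g).map (ev2 s a) with hF
  have hd : F.natDegree = (DD g).natDegree := by rw [hF, hG.natDegree_map, FF, natDegree_SS]
  have hl : F.leadingCoeff = s := by
    rw [leadingCoeff, hd, hF, coeff_F g s a (natDegree_DD_ne hg), coeff_natDegree, hlc, aeval_X]
  have h1 := v_prod V F.roots (fun x hx => hr x (Multiset.mem_toFinset.2 hx)) m
  rw [← (IsAlgClosed.splits F).natDegree_eq_card_roots, hd] at h1
  have h2 := congrArg (fun p => V.v (p.coeff m)) (IsAlgClosed.splits F).eq_prod_roots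
  simp only [coeff_C_mul, map_mul, hl] at h2
  rw [hF, coeff_F g s a hm, V.v_aeval_eq hs fun c => h (by rw [c, coeff_zero]), ← hF] at h2
  refine (mul_le_mul_left (pow_le_pow_right₀ hs.le (le_natDegree_of_ne_zero h)) _).trans ?_
  rw [h2, mul_assoc]
  exact mul_le_mul_right h1 _

theorem graph {g : k[X]} {s a y l : Ω} {N : ℕ} (hs : 1 < V.v s) (ha : V.v a ≤ V.v s)
    (hy : V.v s < V.v y) (h0 : ev3 s a y (FF g) = 0) (hl : V.v l < V.v s)
    (hl' : V.v s ^ g.natDegree < V.v l * V.v y ^ N)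
    (hst : ∀ m i, m ≠ 0 → ((DD g).coeff m).coeff i ≠ 0 →
      V.v s ^ i * V.v y ^ m ≤ V.v s * V.v y ^ N) {ε ξ : Ω} (hε : V.v ε ≤ 1) (hξ : V.v ξ ≤ 1) :
    V.v (ev3 (s + l * ε) (0 + s * ξ) y (FF g) - l * aeval (y + s) (derivative g) * ε) <
      V.v l * V.v y ^ N := by
  have : CharP Ω 2 := charP_of_injective_algebraMap (algebraMap k Ω).injective 2
  have h2 : (2 : Ω) = 0 := CharTwo.two_eq_zero
  have hη : V.v (l * ε) ≤ V.v l := by rw [map_mul]; exact mul_le_of_le_one_right zero_le hε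
  have hw : V.v (0 + s * ξ) ≤ V.v s := by
    rw [zero_add, map_mul]; exact mul_le_of_le_one_right zero_le hξ
  have hz : V.v (y + s) = V.v y := V.v.map_add_eq_of_lt_left hy
  have hB : 0 < V.v l * V.v y ^ N := zero_le.trans_lt hl'
  have hl0 : 0 < V.v l := pos_iff_ne_zero.2 (left_ne_zero_of_mul hB.ne')
  have hs0 : 0 < V.v s := one_pos.trans hs
  have e : ev3 (s + l * ε) (0 + s * ξ) y (FF g) - l * aeval (y + s) (derivative g) * ε =
      ev2 (l * ε) (y + s) (DD g - C X * (derivative g).map C) + ((aeval (a + s) g + aeval a g) +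
        (aeval (0 + s * ξ + (s + l * ε)) g + aeval (0 + s * ξ) g)) := by
    rw [ev3_FF] at h0
    rw [ev3_FF, map_sub, map_mul, ev2_C, aeval_X, ev2_map_C, ev2_DD, add_assoc y s]
    linear_combination h0 - (aeval (y + s) g + aeval (a + s) g + aeval a g) * h2
  rw [e]
  refine V.v.map_add_lt (v_ev2_lt V _ _ _ hB.ne' fun m i h => ?_)
    ((V.v.map_add_le (v_D_le V g hs.le ha le_rfl)
      (v_D_le V g hs.le hw (V.v.map_add_le le_rfl (hη.trans hl.le)))).trans_lt hl')
  rw [coeff_sub, coeff_C_mul, coeff_map, coeff_sub, X_mul_C, coeff_C_mul_X] at h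
  have hi : i ≠ 1 := by
    rintro rfl
    exact h (by rw [if_pos rfl, coeff_DD_one, sub_self])
  rw [if_neg hi, sub_zero] at h
  obtain ⟨k1, k2⟩ := le_of_DD h
  rw [hz]
  refine (mul_le_mul_left (pow_le_pow_left₀ zero_le hη i) _).trans_lt ?_
  rcases eq_or_ne m 0 with rfl | hm
  · rw [pow_zero, mul_one]
    exact ((pow_le_pow_left₀ zero_le hl.le i).trans
      (pow_le_pow_right₀ hs.le (by omega))).trans_lt hl'
  · obtain ⟨j, rfl⟩ : ∃ j, i = j + 1 := ⟨i - 1, by omega⟩
    have k3 := hst m _ hm h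
    rw [pow_succ', mul_assoc, mul_le_mul_iff_right₀ hs0] at k3
    rw [pow_succ', mul_assoc, mul_lt_mul_iff_right₀ hl0]
    exact (mul_lt_mul_of_pos_right (pow_lt_pow_left₀ hl zero_le (by omega))
      (pow_pos (hs0.trans hy) m)).trans_le k3

end TOdd

open TOdd

theorem oddDeg (hC : CohLemma) (hH : HalfLemma) (hI : Indep) : OddDeg := by
  classical
  intro k _ _ _ φ g hc hlin hdeg hlc
  have hg := hc.deg
  have hd0 : g.natDegree ≠ 0 := fun c => hg (by
    have := natDegree_derivative_le g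
    omega)
  have hNd := natDegree_derivative_lt hd0
  have hgd : g.coeff g.natDegree ≠ 0 := leadingCoeff_ne_zero.2 fun c => hd0 (by simp [c])
  obtain ⟨r, o, ⟨u, rfl⟩, hd⟩ := Nat.exists_eq_two_pow_mul_odd hd0
  have hu : u ≠ 0 := by
    rintro rfl
    exact hlin _ hgd (Or.inr ⟨r, by simpa using hd⟩)
  have hr0 : 0 < 2 ^ r := by positivity
  set e := 2 ^ r * (2 * u) with he
  have hde : g.natDegree = e + 2 ^ r := by rw [hd, Nat.mul_add_one]
  have he1 : 2 ^ r ≤ e := Nat.le_mul_of_pos_right _ (by omega)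
  have h1 : ((DD g).coeff e).coeff (2 ^ r) ≠ 0 := by
    rw [coeff_DD, if_neg hr0.ne', ← hde]
    nth_rw 1 [hd]
    rwa [choose_two_pow_self r ⟨u, rfl⟩, one_mul]
  have heN : e ≤ (DD g).natDegree := le_natDegree_of_ne_zero fun c => h1 (by rw [c, coeff_zero])
  by_contra hne
  have hr1 : 2 ^ r ≠ 1 := fun c => by omega
  have heN' : e ≠ (DD g).natDegree := fun c => h1 (by
    rw [c, coeff_natDegree, hlc, coeff_X_of_ne_one hr1])
  obtain ⟨k₁, Ω, _, _, _, _, _, _, _, _, V, t, -, ht⟩ := exists_gen k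
  have hG := ht V.τ⁻¹ fun h => V.transcendental_τ (IsAlgebraic.inv_iff.1 h)
  have hs : 1 < V.v V.τ⁻¹ := by
    rw [map_inv₀]
    exact (one_lt_inv₀ V.τ_pos).2 V.τ_lt
  have ha := V.const_le t
  generalize V.τ⁻¹ = s at hG hs
  generalize algebraMap k₁ Ω t = a at hG ha
  have hs0 : 0 < V.v s := one_pos.trans hs
  have hY := card_Y V hg hG hs ha (e := e) (by omega) (by omega) (by omega)
    (by rwa [hde, Nat.add_sub_cancel_left]) fun m k1 k2 => by
      rw [coeff_DD, if_neg (by omega), Nat.add_sub_cancel' k2.le]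
      nth_rw 1 [hd]
      rw [choose_two_pow_mul, if_neg (Nat.not_dvd_of_pos_of_lt (by omega) (by omega)), zero_mul]
  have hX := hG.card_Rts hg
  have haX := hG.self_mem hg
  obtain ⟨y, hyX, hy⟩ := (Rts g s a).exists_max_image V.v ⟨a, haX⟩
  have hsy : V.v s < V.v y := by
    by_contra! c
    rw [Finset.filter_true_of_mem fun x hx => (hy x hx).trans c] at hY
    omega
  have hy0 : 0 < V.v y := hs0.trans hsy
  have hst := fun m i hm h => star V hg hG hs hlc hy (m := m) (i := i) hm h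
  have k1 : V.v s ^ g.natDegree < V.v s * V.v y ^ (DD g).natDegree := by
    refine lt_of_lt_of_le ?_ (hst _ _ (by omega) h1)
    rw [hde, pow_add, mul_comm]
    exact mul_lt_mul_of_pos_left (pow_lt_pow_left₀ hsy zero_le (by omega)) (by positivity)
  obtain ⟨l, hl⟩ := IsAlgClosed.exists_pow_nat_eq (s ^ (g.natDegree + 1) / y ^ (DD g).natDegree)
    two_pos
  have k2 : V.v l * (V.v l * V.v y ^ (DD g).natDegree) = V.v s * V.v s ^ g.natDegree := by
    rw [← mul_assoc, ← sq, ← map_pow, hl, map_div₀, map_pow, map_pow,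
      div_mul_cancel₀ _ (by positivity), pow_succ']
  have k3 : V.v l < V.v s := by
    by_contra! c
    exact absurd k2 ((mul_lt_mul_of_pos_left k1 hs0).trans_le
      (mul_le_mul' c (mul_le_mul_left c _))).ne'
  have k4 : V.v s ^ g.natDegree < V.v l * V.v y ^ (DD g).natDegree := by
    by_contra! c
    exact absurd k2 ((mul_le_mul_right c _).trans_lt
      (mul_lt_mul_of_pos_right k3 (by positivity))).ne
  have k5 : V.v (l * aeval (y + s) (derivative g)) = V.v l * V.v y ^ (DD g).natDegree := by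
    have hz : V.v (y + s) = V.v y := V.v.map_add_eq_of_lt_left hsy
    rw [map_mul, V.v_aeval_eq (by rw [hz]; exact hs.trans hsy) fun c => hg (by simp [c]), hz, hdeg]
  have k6 : ∀ x ∈ (Rts g s a).filter fun x => V.v x ≤ V.v s, col k s x y = col k s a y := by
    intro x hx
    rw [Finset.mem_filter] at hx
    have q : ∀ x : Ω, 0 + s * (x / s) = x := fun x => by
      rw [zero_add, mul_div_cancel₀ _ hG.s_ne]
    have q' : ∀ x : Ω, V.v x ≤ V.v s → V.v (x / s) ≤ 1 := fun x hx => by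
      rwa [map_div₀, div_le_one hs0]
    refine col_eq_of (hG.of_mem hg hx.1) hG (FF_ne_zero hg) (hG.ev3_FF hg hx.1 hyX)
      (hG.ev3_FF hg haX hyX) fun P₁ P₂ _ _ hP z₁ z₂ => hI k k₁ Ω V (FF g) s y 0 s l
        (l * aeval (y + s) (derivative g)) (fun c => ?_) (fun ε ξ hε hξ => ?_) P₁ P₂ hP (x / s)
        (a / s) (q' x hx.2) (q' a (ha.trans hs.le)) (by rwa [q]) (by rwa [q])
    · rw [c, map_zero] at k5
      exact (zero_le.trans_lt k4).ne k5
    · rw [k5]
      exact graph V hs (ha.trans hs.le) hsy (hG.ev3_FF hg haX hyX) k3 k4 hst hε hξ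
  have k7 := hH _ _ _ _ _ (hC k φ g hc Ω s a hG) (Rts g s a)
    ⟨subset_rfl, fun _ _ _ _ _ _ _ h _ => h⟩ a haX y hyX
    (fun c => absurd (c ▸ ha.trans hs.le) hsy.not_ge) _ (Finset.filter_subset _ _)
    (by rw [hY]; omega) (Or.inl k6)
  rcases hc.fixed_col hG hyX k7 with rfl | rfl
  · exact hsy.not_ge (ha.trans hs.le)
  · exact hsy.not_ge (V.v.map_add_le (ha.trans hs.le) le_rfl)

end Pool.Agent.Lib.MP_346d6a_co
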