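import Pool.Agent.Lib.MP_346d6a_co.TBasic

/-!
The tame case, part TRad.
-/

set_option maxSynthPendingDepth 3

namespace Pool.Agent.Lib.MP_346d6a_co

open Polynomial

namespace TRad

section aff

variable {F : Type} [Field F]

theorem aff_eval₂_add {E : Type} [CommRing E] [CharP E 2] (ι : F →+* E) {A : F[X]} (h : Aff A)
    (x y : E) : A.eval₂ ι (x + y) = A.eval₂ ι x + A.eval₂ ι y + ι (A.coeff 0) := by
  have h2 : (2 : E) = 0 := CharTwo.two_eq_zero
  have h0 : ι (A.coeff 0) = A.eval₂ ι 0 := (eval₂_at_zero _).symm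
  rw [h0]
  simp only [eval₂_eq_sum, Polynomial.sum, ← Finset.sum_add_distrib]
  refine Finset.sum_congr rfl fun j hj => ?_
  rcases h j (mem_support_iff.1 hj) with rfl | ⟨i, rfl⟩
  · simp only [pow_zero]
    linear_combination -(ι (A.coeff 0)) * h2
  · rw [add_pow_char_pow, zero_pow (by positivity)]
    ring

theorem aff_taylor [CharP F 2] {A : F[X]} (h : Aff A) (κ : F) :
    taylor κ A = A + C (A.eval κ + A.coeff 0) := by
  rw [taylor_apply, comp, aff_eval₂_add C h, eval₂_C_X, eval₂_at_apply, C_add, add_assoc]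

theorem aff_taylor_X [CharP F 2] {A : F[X]} (h : Aff A) :
    taylor (X : F[X]) (A.map C) = A.map C + C (A + C (A.coeff 0)) := by
  have e1 : A.eval₂ ((C : F[X] →+* F[X][X]).comp C) X = A.map C := by
    rw [← eval₂_map, eval₂_C_X]
  have e2 : A.eval₂ ((C : F[X] →+* F[X][X]).comp C) (C X) = C A := by
    rw [← hom_eval₂, eval₂_C_X]
  rw [taylor_apply, comp, eval₂_map, aff_eval₂_add _ h, e1, e2, C_add, add_assoc]
  rfl

theorem aff_derivative [CharP F 2] {A : F[X]} (h : Aff A) : derivative A = C (A.coeff 1) := by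
  ext j
  rw [coeff_derivative, coeff_C]
  split_ifs with hj
  · subst hj
    simp
  · by_cases h0 : A.coeff (j + 1) = 0
    · rw [h0, zero_mul]
    · rcases h _ h0 with h1 | ⟨i, hi⟩
      · omega
      · have hi0 : i ≠ 0 := by
          rintro rfl
          omega
        have : ((j : F) + 1) = 0 := by
          rw [← Nat.cast_succ, Nat.succ_eq_add_one, hi, Nat.cast_pow, Nat.cast_ofNat,
            CharTwo.two_eq_zero, zero_pow hi0]
        rw [this, mul_zero]

theorem aff_of_map {k : Type} [Field k] (ι : F →+* k) {A : F[X]} (h : Aff (A.map ι)) : Aff A :=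
  fun j hj => h j (by rw [coeff_map]; exact (map_ne_zero ι).2 hj)

theorem aff_map {k : Type} [Field k] (ι : F →+* k) {A : F[X]} (h : Aff A) : Aff (A.map ι) :=
  fun j hj => h j (by rw [coeff_map] at hj; exact (map_ne_zero ι).1 hj)

theorem hasseDeriv_map {R S : Type} [CommRing R] [CommRing S] (ι : R →+* S) (g : R[X]) (i : ℕ) :
    hasseDeriv i (g.map ι) = (hasseDeriv i g).map ι := by
  ext1 j
  simp [hasseDeriv_coeff]

theorem coeff_DD_map {k : Type} [Field k] (ι : F →+* k) (f : F[X]) (m : ℕ) :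
    (DD (f.map ι)).coeff m = ((DD f).coeff m).map ι := by
  rw [coeff_DD_eq, coeff_DD_eq, hasseDeriv_map, Polynomial.map_add, map_C, coeff_map]

theorem coeff_tay (g : F[X]) (κ : F) (m : ℕ) :
    (taylor κ g + g).coeff m = ((DD g).coeff m).eval κ := by
  rw [coeff_DD_eq, coeff_add, taylor_coeff, eval_add, eval_C]

theorem const_iff [CharP F 2] (g : F[X]) (κ : F) :
    (∃ c, taylor κ g = g + C c) ↔ (taylor κ g + g).natDegree = 0 := by
  constructor
  · rintro ⟨c, hc⟩
    rw [hc, add_right_comm, CharTwo.add_self_eq_zero, zero_add, natDegree_C]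
  · intro h
    refine ⟨(taylor κ g + g).coeff 0, ?_⟩
    rw [← eq_C_of_natDegree_eq_zero h, add_comm, add_assoc, CharTwo.add_self_eq_zero, add_zero]

theorem const_iff' [CharP F 2] (g : F[X]) (κ : F) :
    (∃ c, taylor κ g = g + C c) ↔ ∀ m, ((DD g).coeff (m + 1)).eval κ = 0 := by
  rw [const_iff, ← Nat.le_zero, natDegree_le_iff_coeff_eq_zero]
  constructor
  · intro h m
    rw [← coeff_tay]
    exact h _ (Nat.succ_pos m)
  · intro h N hN
    obtain ⟨m, rfl⟩ := Nat.exists_eq_succ_of_ne_zero hN.ne'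
    rw [coeff_tay]
    exact h m

theorem derivative_coeff_DD (f : F[X]) (m : ℕ) :
    derivative ((DD f).coeff m) = hasseDeriv m (derivative f) := by
  have h1 := LinearMap.congr_fun (hasseDeriv_comp (R := F) 1 m) f
  have h2 := LinearMap.congr_fun (hasseDeriv_comp (R := F) m 1) f
  simp only [LinearMap.comp_apply, hasseDeriv_one] at h1 h2
  rw [coeff_DD_eq, derivative_add, derivative_C, add_zero, h1, h2, add_comm 1 m,
    Nat.choose_one_right, Nat.choose_succ_self_right]

/-- The polynomial whose roots form the radical. -/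
theorem exists_L [CharP F 2] (f : F[X]) (hf : (derivative f).natDegree ≠ 0) :
    ∃ L : F[X], L.Monic ∧ L.Separable ∧ L.coeff 0 = 0 ∧ L.coeff 1 ≠ 0 ∧
      (∀ m, L ∣ (DD f).coeff (m + 1)) ∧
      ∀ (E : Type) [CommRing E] (e : F[X] →+* E), (∀ m, e ((DD f).coeff (m + 1)) = 0) → e L = 0 := by
  obtain ⟨N, hN⟩ := Nat.exists_eq_succ_of_ne_zero hf
  have hlc : (derivative f).leadingCoeff ≠ 0 := leadingCoeff_ne_zero.2 fun h0 => hf (by simp [h0])
  have hD : derivative ((DD f).coeff (N + 1)) = C (derivative f).leadingCoeff := by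
    rw [derivative_coeff_DD, ← Nat.succ_eq_add_one, ← hN, hasseDeriv_natDegree_eq_C]
  let I : Ideal F[X] := Ideal.span (Set.range fun m : ℕ => (DD f).coeff (m + 1))
  obtain ⟨g, hg⟩ := (IsPrincipalIdealRing.principal I).principal
  have hmem : ∀ m, g ∣ (DD f).coeff (m + 1) := fun m => by
    rw [← Ideal.mem_span_singleton]
    have : (DD f).coeff (m + 1) ∈ I := Ideal.subset_span ⟨m, rfl⟩
    rwa [hg] at this
  have hg0 : g ≠ 0 := by
    rintro rfl
    rw [zero_dvd_iff.1 (hmem N), derivative_zero] at hD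
    exact hlc (C_eq_zero.1 hD.symm)
  have hgI : g ∈ I := by rw [hg]; exact Ideal.mem_span_singleton_self g
  have hker : ∀ (E : Type) [CommRing E] (e : F[X] →+* E),
      (∀ m, e ((DD f).coeff (m + 1)) = 0) → e (g * C g.leadingCoeff⁻¹) = 0 := by
    intro E _ e he
    have : I ≤ RingHom.ker e := Ideal.span_le.2 (by rintro _ ⟨m, rfl⟩; exact he m)
    rw [map_mul, (RingHom.mem_ker).1 (this hgI), zero_mul]
  have hdvd : ∀ m, g * C g.leadingCoeff⁻¹ ∣ (DD f).coeff (m + 1) := fun m =>
    (IsUnit.mul_right_dvd (isUnit_C.2 (IsUnit.mk0 _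
      (inv_ne_zero (leadingCoeff_ne_zero.2 hg0))))).2 (hmem m)
  have h0 : (g * C g.leadingCoeff⁻¹).coeff 0 = 0 := by
    rw [coeff_zero_eq_eval_zero]
    refine hker F (evalRingHom 0) fun m => ?_
    rw [coe_evalRingHom, ← coeff_zero_eq_eval_zero, coeff_DD, if_pos rfl]
  refine ⟨g * C g.leadingCoeff⁻¹, monic_mul_leadingCoeff_inv hg0, ?_, h0, ?_, hdvd, hker⟩
  all_goals
    obtain ⟨q, hq⟩ := hdvd N
    set L := g * C g.leadingCoeff⁻¹
    rw [hq, derivative_mul] at hD
  · refine ⟨C (derivative f).leadingCoeff⁻¹ * derivative q, C (derivative f).leadingCoeff⁻¹ * q, ?_⟩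
    have : C (derivative f).leadingCoeff⁻¹ * C (derivative f).leadingCoeff = 1 := by
      rw [← C_mul, inv_mul_cancel₀ hlc, C_1]
    rw [← this, ← hD]
    ring
  · intro h1
    have := congrArg (fun p => p.coeff 0) hD
    simp only [coeff_add, mul_coeff_zero, coeff_derivative, zero_add, h0, h1, zero_mul,
      coeff_C_zero] at this
    exact hlc this.symm

end aff

section alg

variable {k : Type} [Field k] [IsAlgClosed k] {L : k[X]}

theorem vanish (hs : L.Separable) {p : k[X]} (hp : p.natDegree < L.natDegree)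
    (h : ∀ κ, L.eval κ = 0 → p.eval κ = 0) : p = 0 := by
  classical
  refine eq_zero_of_natDegree_lt_card_of_eval_eq_zero' p L.roots.toFinset (fun κ hκ => h κ ?_) ?_
  · exact (mem_roots hs.ne_zero).1 (Multiset.mem_toFinset.1 hκ)
  · rwa [Multiset.toFinset_card_of_nodup (nodup_roots hs), IsAlgClosed.card_roots_eq_natDegree]

variable [CharP k 2]

theorem aff_crit (hs : L.Separable) (hn : L.natDegree ≠ 0) {r : k[X]}
    (hr : r.natDegree ≤ L.natDegree) (h : ∀ κ, L.eval κ = 0 → ∃ c, taylor κ r = r + C c) :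
    Aff r := by
  refine aff_of_DD ?_
  rw [← Nat.le_zero, natDegree_le_iff_coeff_eq_zero]
  intro N hN
  obtain ⟨m, rfl⟩ := Nat.exists_eq_succ_of_ne_zero hN.ne'
  refine vanish hs ?_ fun κ hκ => (const_iff' r κ).1 (h κ hκ) m
  rw [coeff_DD_eq, natDegree_add_C]
  have := natDegree_hasseDeriv_le r m.succ
  omega

omit [CharP k 2] in
theorem taylor_L (hm : L.Monic) (hs : L.Separable) (hn : L.natDegree ≠ 0)
    (hadd : ∀ a b, L.eval a = 0 → L.eval b = 0 → L.eval (a + b) = 0) {κ : k}
    (hκ : L.eval κ = 0) : taylor κ L = L := by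
  rw [← sub_eq_zero]
  refine vanish hs ?_ fun a ha => by rw [eval_sub, taylor_eval, hadd a κ ha hκ, ha, sub_self]
  by_cases h0 : taylor κ L - L = 0
  · rw [h0, natDegree_zero]
    omega
  · rw [natDegree_lt_natDegree_iff h0, ← degree_taylor L κ]
    exact degree_sub_lt_left (degree_taylor L κ) ((taylor_eq_zero κ L).not.2 hm.ne_zero)
      (leadingCoeff_taylor κ L)

omit [IsAlgClosed k] [CharP k 2] in
theorem div_step (hm : L.Monic) (hn : L.natDegree ≠ 0) {κ c : k} (hL : taylor κ L = L) {p : k[X]}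
    (hp : taylor κ p = p + C c) :
    taylor κ (p /ₘ L) = p /ₘ L ∧ taylor κ (p %ₘ L) = p %ₘ L + C c := by
  have h1 := modByMonic_add_div p L
  have h2 := congrArg (taylor κ) h1
  rw [map_add, taylor_mul, hL, hp] at h2
  have hd := degree_modByMonic_lt p hm
  have h3 := div_modByMonic_unique (taylor κ (p /ₘ L)) (taylor κ (p %ₘ L)) hm
    ⟨h2, by rwa [degree_taylor]⟩
  have h4 := div_modByMonic_unique (f := p + C c) (p /ₘ L) (p %ₘ L + C c) hm
    ⟨by linear_combination h1, (degree_add_le _ _).trans_lt (max_lt hd (degree_C_le.trans_lt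
      (natDegree_pos_iff_degree_pos.1 (Nat.pos_of_ne_zero hn))))⟩
  exact ⟨h3.1.symm.trans h4.1, h3.2.symm.trans h4.2⟩

end alg

section comp

variable {F k : Type} [Field F] [Field k] [IsAlgClosed k] (ι : F →+* k) {L : F[X]}

theorem exists_comp (hm : L.Monic) (hs : L.Separable) (hn : L.natDegree ≠ 0)
    (hL : ∀ κ, (L.map ι).eval κ = 0 → taylor κ (L.map ι) = L.map ι) (n : ℕ) :
    ∀ p : F[X], p.natDegree = n → (∀ κ, (L.map ι).eval κ = 0 → taylor κ (p.map ι) = p.map ι) →
      ∃ q : F[X], p = q.comp L := by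
  induction n using Nat.strong_induction_on with
  | _ n ih =>
    intro p hpn hp
    by_cases h0 : p.natDegree = 0
    · exact ⟨C (p.coeff 0), by rw [C_comp]; exact eq_C_of_natDegree_eq_zero h0⟩
    have hn' : (L.map ι).natDegree ≠ 0 := by rwa [natDegree_map]
    have hstep := fun κ (hκ : (L.map ι).eval κ = 0) =>
      div_step (c := 0) (hm.map ι) hn' (hL κ hκ) (p := p.map ι) (by rw [hp κ hκ, C_0, add_zero])
    obtain ⟨q, hq⟩ := ih (p /ₘ L).natDegree (by rw [natDegree_divByMonic p hm]; omega) (p /ₘ L) rfl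
      fun κ hκ => by rw [map_divByMonic ι hm]; exact (hstep κ hκ).1
    have hr : (p %ₘ L).map ι - C (((p %ₘ L).map ι).eval 0) = 0 := by
      refine vanish (hs.map (f := ι)) ?_ fun κ hκ => ?_
      · rw [natDegree_sub_C, natDegree_map, natDegree_map]
        exact natDegree_modByMonic_lt p hm fun h1 => hn (by rw [h1, natDegree_one])
      · have := congrArg (eval 0) (hstep κ hκ).2
        rw [taylor_eval, zero_add, C_0, add_zero, ← map_modByMonic ι hm] at this
        rw [eval_sub, eval_C, this, sub_self]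
    have hr0 : (p %ₘ L).natDegree = 0 := by
      rw [← natDegree_map ι, sub_eq_zero.1 hr, natDegree_C]
    refine ⟨X * q + C ((p %ₘ L).coeff 0), ?_⟩
    rw [add_comp, mul_comp, X_comp, C_comp, ← hq, ← eq_C_of_natDegree_eq_zero hr0, add_comm,
      modByMonic_add_div]

end comp

section tame

variable {F : Type} [Field F] [CharP F 2] {f₁ L M : F[X]}

theorem natDegree_der (hL : Aff L) (h1 : L.coeff 1 ≠ 0) (hM : Aff M) :
    (derivative (f₁.comp L + M)).natDegree = (derivative f₁).natDegree * L.natDegree := by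
  rw [derivative_add, derivative_comp, aff_derivative hL, aff_derivative hM, natDegree_add_C,
    natDegree_C_mul h1, natDegree_comp]

omit [CharP F 2] in
theorem coeff_pow_L (h0 : L.coeff 0 = 0) (i j : ℕ) :
    (L ^ j).coeff i = if j ≤ i then (L.divX ^ j).coeff (i - j) else 0 := by
  have : L = X * L.divX := by
    have := X_mul_divX_add L
    rw [h0, C_0, add_zero] at this
    exact this.symm
  conv_lhs => rw [this, mul_pow, coeff_X_pow_mul']

theorem hasse_comp (hL : Aff L) (h0 : L.coeff 0 = 0) (hM : Aff M) {i : ℕ} (hi : i ≠ 0) :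
    hasseDeriv i (f₁.comp L + M) =
      ∑ j ∈ (taylor L (f₁.map C)).support, (hasseDeriv j f₁).comp L * C ((L ^ j).coeff i) +
        C (M.coeff i) := by
  have e0 : ∀ g : F[X], (taylor (X : F[X]) (g.map C)).coeff i = hasseDeriv i g := fun g => by
    rw [taylor_coeff, hasseDeriv_map, eval_map, eval₂_C_X]
  have e1 : taylor (X : F[X]) ((f₁.comp L).map C) = (taylor L (f₁.map C)).comp (L.map C) := by
    have := aff_taylor_X hL
    rw [h0, C_0, add_zero, taylor_apply] at this
    rw [map_comp, taylor_apply, taylor_apply, comp_assoc, comp_assoc, this, add_comp, X_comp,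
      C_comp]
  rw [← e0, Polynomial.map_add, map_add, coeff_add, e1, aff_taylor_X hM, coeff_add,
    coeff_C_of_ne_zero hi, add_zero, coeff_map, comp_eq_sum_left, Polynomial.sum,
    finsetSum_coeff]
  congr 1
  refine Finset.sum_congr rfl fun j _ => ?_
  rw [coeff_C_mul, taylor_coeff, hasseDeriv_map, eval_map, ← Polynomial.map_pow, coeff_map]
  rfl

theorem tame_of (hL : Aff L) (h0 : L.coeff 0 = 0) (h1 : L.coeff 1 ≠ 0) (hM : Aff M)
    (ht : Tame (f₁.comp L + M)) : Tame f₁ := by
  have hn : 0 < L.natDegree := le_natDegree_of_ne_zero h1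
  intro i
  induction i using Nat.strong_induction_on with
  | _ i ih =>
    intro hi
    refine Nat.le_of_mul_le_mul_right ?_ hn
    rw [← natDegree_comp]
    have h2 := ht i hi
    rw [natDegree_der hL h1 hM, hasse_comp hL h0 hM (by omega), natDegree_add_C, ← mul_assoc] at h2
    by_cases hmem : i ∈ (taylor L (f₁.map C)).support
    · rw [← Finset.add_sum_erase _ _ hmem] at h2
      have h3 : (∑ j ∈ (taylor L (f₁.map C)).support.erase i,
          (hasseDeriv j f₁).comp L * C ((L ^ j).coeff i)).natDegree ≤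
          i * (derivative f₁).natDegree * L.natDegree := by
        refine natDegree_sum_le_of_forall_le _ _ fun j hj => ?_
        have hji := Finset.ne_of_mem_erase hj
        rcases Nat.eq_zero_or_pos j with rfl | hj0
        · rw [pow_zero, coeff_one, if_neg (by omega), C_0, mul_zero, natDegree_zero]
          exact Nat.zero_le _
        · rcases lt_or_gt_of_ne hji with hlt | hlt
          · refine (natDegree_mul_C_le _ _).trans ?_
            rw [natDegree_comp]
            exact Nat.mul_le_mul_right _ ((ih j hlt hj0).trans (Nat.mul_le_mul_right _ hlt.le))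
          · rw [coeff_pow_L h0, if_neg (by omega), C_0, mul_zero, natDegree_zero]
            exact Nat.zero_le _
      have h4 : (L ^ i).coeff i ≠ 0 := by
        rw [coeff_pow_L h0, if_pos le_rfl, Nat.sub_self, coeff_zero_eq_eval_zero, eval_pow,
          ← coeff_zero_eq_eval_zero, coeff_divX]
        exact pow_ne_zero _ h1
      rw [← natDegree_mul_C h4, ← add_sub_cancel_right ((hasseDeriv i f₁).comp L * _)
        (∑ j ∈ (taylor L (f₁.map C)).support.erase i,
          (hasseDeriv j f₁).comp L * C ((L ^ j).coeff i))]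
      exact (natDegree_sub_le _ _).trans (max_le h2 h3)
    · rw [notMem_support_iff, taylor_coeff, hasseDeriv_map, eval_map] at hmem
      rw [comp, hmem, natDegree_zero]
      exact Nat.zero_le _

end tame

end TRad

open TRad

theorem radRed : RadRed := by
  intro F k _ _ _ _ _ f hf ht
  have : CharP k 2 := charP_of_injective_algebraMap (algebraMap F k).injective 2
  set ι := algebraMap F k
  obtain ⟨L, hm, hs, h0, h1, hdvd, hker⟩ := exists_L f hf
  have hn : L.natDegree ≠ 0 := Nat.pos_iff_ne_zero.1 (le_natDegree_of_ne_zero h1)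
  have hn' : (L.map ι).natDegree ≠ 0 := by rwa [natDegree_map]
  have hrad : ∀ κ : k, (L.map ι).eval κ = 0 ↔ ∃ c, taylor κ (f.map ι) = f.map ι + C c := by
    intro κ
    rw [const_iff']
    constructor
    · intro h m
      obtain ⟨q, hq⟩ := hdvd m
      rw [coeff_DD_map, hq, Polynomial.map_mul, eval_mul, h, zero_mul]
    · intro h
      rw [eval_map]
      refine hker k (eval₂RingHom ι κ) fun m => ?_
      rw [coe_eval₂RingHom, ← eval_map, ← coeff_DD_map, h]
  have hadd : ∀ a b, (L.map ι).eval a = 0 → (L.map ι).eval b = 0 →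
      (L.map ι).eval (a + b) = 0 := by
    intro a b ha hb
    obtain ⟨c, hc⟩ := (hrad a).1 ha
    obtain ⟨d, hd⟩ := (hrad b).1 hb
    exact (hrad _).2 ⟨c + d, by rw [← taylor_taylor, hd, map_add, hc, taylor_C, C_add, add_assoc]⟩
  have hL : ∀ κ, (L.map ι).eval κ = 0 → taylor κ (L.map ι) = L.map ι := fun κ hκ =>
    taylor_L (hm.map ι) hs.map hn' hadd hκ
  have haL : Aff L := aff_of_map ι (aff_crit hs.map hn' le_rfl fun κ hκ =>
    ⟨0, by rw [hL κ hκ, C_0, add_zero]⟩)
  have haM : Aff (f %ₘ L) := by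
    refine aff_of_map ι (aff_crit (L := L.map ι) hs.map hn' ?_ fun κ hκ => ?_)
    · rw [natDegree_map, natDegree_map]
      exact (natDegree_modByMonic_lt f hm fun h1 => hn (by rw [h1, natDegree_one])).le
    · obtain ⟨c, hc⟩ := (hrad κ).1 hκ
      rw [map_modByMonic ι hm]
      exact ⟨c, (div_step (hm.map ι) hn' (hL κ hκ) hc).2⟩
  obtain ⟨q, hq⟩ := exists_comp ι hm hs hn hL _ (f /ₘ L) rfl fun κ hκ => by
    obtain ⟨c, hc⟩ := (hrad κ).1 hκ
    rw [map_divByMonic ι hm]
    exact (div_step (hm.map ι) hn' (hL κ hκ) hc).1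
  have hfe : f = (X * q).comp L + f %ₘ L := by
    rw [mul_comp, X_comp, ← hq, add_comm, modByMonic_add_div]
  refine ⟨X * q, L, f %ₘ L, haL, h0, hm, h1, haM, hfe, fun h => hf ?_,
    tame_of haL h0 h1 haM (hfe ▸ ht), fun κ' hκ' h => hκ' ?_⟩
  · rw [hfe, natDegree_der haL h1 haM, h, zero_mul]
  · obtain ⟨c, hc⟩ := (const_iff _ _).2 h
    obtain ⟨κ, hκ⟩ := IsAlgClosed.exists_root (L.map ι - C κ') (by
      rw [degree_sub_C (natDegree_pos_iff_degree_pos.1 (Nat.pos_of_ne_zero hn'))]
      exact (natDegree_pos_iff_degree_pos.1 (Nat.pos_of_ne_zero hn')).ne')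
    rw [IsRoot, eval_sub, eval_C, sub_eq_zero] at hκ
    rw [← hκ, hrad]
    have e1 : taylor κ (L.map ι) = L.map ι + C κ' := by
      rw [aff_taylor (aff_map ι haL), hκ, coeff_map, h0, map_zero, add_zero]
    have e2 : taylor κ (((X * q).map ι).comp (L.map ι)) =
        ((X * q).map ι).comp (L.map ι) + C c := by
      have e3 : ((X * q).map ι).comp (L.map ι + C κ') =
          (taylor κ' ((X * q).map ι)).comp (L.map ι) := by
        rw [taylor_apply, comp_assoc, add_comp, X_comp, C_comp]
      rw [taylor_apply, comp_assoc, ← taylor_apply, e1, e3, hc, add_comp, C_comp]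
    refine ⟨c + (((f %ₘ L).map ι).eval κ + ((f %ₘ L).map ι).coeff 0), ?_⟩
    have e4 : f.map ι = ((X * q).map ι).comp (L.map ι) + (f %ₘ L).map ι := by
      rw [← map_comp, ← Polynomial.map_add, ← hfe]
    rw [e4, map_add, e2, aff_taylor (aff_map ι haM), C_add (a := c)]
    ring

end Pool.Agent.Lib.MP_346d6a_co
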