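import Pool.Agent.Lib.MP_346d6a_co.TBasic

/-!
The tame case, part TRoots.
-/

set_option maxSynthPendingDepth 3

namespace Pool.Agent.Lib.MP_346d6a_co

open Polynomial

namespace TRoots

section theta

variable {k k₁ : Type} [Field k] [Field k₁] [Algebra k k₁]

variable (k) in
/-- Substitution of a constant for `x`, keeping `s` as a variable. -/
noncomputable def th2 (b : k₁) : k[X][X] →+* k₁[X] :=
  eval₂RingHom (mapRingHom (algebraMap k k₁)) (C b)

variable (k) in
/-- Substitution of constants for `x` and `y`, keeping `s` as a variable. -/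
noncomputable def th3 (b c : k₁) : k[X][X][X] →+* k₁[X] := eval₂RingHom (th2 k b) (C c)

@[simp] theorem th2_C (b : k₁) (p : k[X]) : th2 k b (C p) = p.map (algebraMap k k₁) := by
  simp [th2]

@[simp] theorem th2_X (b : k₁) : th2 k b X = C b := by simp [th2]

@[simp] theorem th3_C (b c : k₁) (p : k[X][X]) : th3 k b c (C p) = th2 k b p := by simp [th3]

@[simp] theorem th3_X (b c : k₁) : th3 k b c X = C c := by simp [th3]

theorem th3_map_C (b c : k₁) (h : k[X][X]) : th3 k b c (h.map C) = th2 k c h := by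
  induction h using Polynomial.induction_on' with
  | add p q hp hq => rw [Polynomial.map_add, map_add, hp, hq, map_add]
  | monomial n a => simp [← C_mul_X_pow_eq_monomial]

theorem th3_SS (b c : k₁) (h : k[X][X]) : th3 k b c (SS h) = th2 k c h + th2 k b h := by
  rw [SS, map_add, th3_map_C, th3_C]

theorem th2_map_C (b : k₁) (p : k[X]) : th2 k b (p.map C) = C (aeval b p) := by
  induction p using Polynomial.induction_on' with
  | add p q hp hq => rw [Polynomial.map_add, map_add, hp, hq, map_add, map_add]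
  | monomial n a => simp [← C_mul_X_pow_eq_monomial]

theorem th2_taylor (b : k₁) (p : k[X]) :
    th2 k b (taylor X (p.map C)) = taylor b (p.map (algebraMap k k₁)) := by
  induction p using Polynomial.induction_on' with
  | add p q hp hq =>
    rw [Polynomial.map_add, map_add, map_add, hp, hq, Polynomial.map_add, map_add]
  | monomial n a => simp [← C_mul_X_pow_eq_monomial, add_comm]

theorem eval_th3 (z b c : k₁) (P : k[X][X][X]) : (th3 k b c P).eval z = ev3 z b c P := by
  have : (evalRingHom z).comp (th3 k b c) = ev3 z b c := by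
    ext <;> simp
  exact RingHom.congr_fun this P

/-- A point on two factors is a double root in the direction of `s`. -/
theorem double {z b c : k₁} {G P₁ P₂ : k[X][X][X]} (hd : P₁ * P₂ ∣ G) (h₁ : ev3 z b c P₁ = 0)
    (h₂ : ev3 z b c P₂ = 0) : (derivative (th3 k b c G)).eval z = 0 := by
  obtain ⟨Q, rfl⟩ := hd
  rw [← eval_th3] at h₁ h₂
  simp [derivative_mul, h₁, h₂]

theorem deriv_th2_DD (z b : k₁) (f : k[X]) :
    (derivative (th2 k b (DD f))).eval z = aeval (z + b) (derivative f) := by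
  rw [DD, map_add, th2_taylor, th2_map_C, derivative_add, derivative_C, add_zero,
    ← hasseDeriv_one', hasseDeriv_taylor, hasseDeriv_one', taylor_eval, derivative_map,
    eval_map_algebraMap]

theorem aeval_map_eval (ζ : k) (c : k₁) (h : k[X][X]) :
    aeval c (h.map (evalRingHom ζ)) = ev2 (algebraMap k k₁ ζ) c h := by
  induction h using Polynomial.induction_on' with
  | add p q hp hq => rw [Polynomial.map_add, map_add, hp, hq, map_add]
  | monomial n a => simp [← C_mul_X_pow_eq_monomial, aeval_algebraMap_apply_eq_algebraMap_eval]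

theorem aeval_taylor' (ζ : k) (c : k₁) (p : k[X]) :
    aeval c (taylor ζ p) = aeval (algebraMap k k₁ ζ + c) p := by
  rw [taylor_apply, aeval_comp]
  simp [add_comm]

variable [CharP k 2]

/-- The double root lemma for the whole surface. -/
theorem double_FF {f : k[X]} {h : k[X][X]} {γ a ζ : k} (hγ : γ ≠ 0)
    (ht : taylor ζ (derivative f) = C γ * h.map (evalRingHom ζ) + C a) {b c : k₁}
    {P₁ P₂ : k[X][X][X]} (hd : P₁ * P₂ ∣ FF f) (h₁ : ev3 (algebraMap k k₁ ζ) b c P₁ = 0)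
    (h₂ : ev3 (algebraMap k k₁ ζ) b c P₂ = 0) :
    ev2 (algebraMap k k₁ ζ) c h = ev2 (algebraMap k k₁ ζ) b h := by
  have : CharP k₁ 2 := charP_of_injective_algebraMap (algebraMap k k₁).injective 2
  have h3 := double hd h₁ h₂
  rw [FF, th3_SS, derivative_add, eval_add, deriv_th2_DD, deriv_th2_DD, ← aeval_taylor',
    ← aeval_taylor', ht, CharTwo.add_eq_zero] at h3
  simp only [map_add, map_mul, aeval_C, aeval_map_eval, add_left_inj] at h3
  exact mul_left_cancel₀ ((_root_.map_ne_zero _).2 hγ) h3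

/-- The double root lemma for the cofactor. -/
theorem double_R {g : k[X]} {h : k[X][X]} {R : k[X][X][X]} {γ : k} (hγ : γ ≠ 0)
    (hg : derivative g = C γ) {z b : k₁} {P₁ P₂ : k[X][X][X]}
    (hd : P₁ * P₂ ∣ C (C g) + SS h * R) (h₁ : ev3 z b b P₁ = 0) (h₂ : ev3 z b b P₂ = 0) :
    False := by
  have : CharP k₁ 2 := charP_of_injective_algebraMap (algebraMap k k₁).injective 2
  have h3 := double hd h₁ h₂
  rw [map_add, map_mul, th3_SS, CharTwo.add_self_eq_zero, zero_mul, add_zero, th3_C, th2_C,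
    derivative_map, hg, map_C, eval_C] at h3
  exact (_root_.map_ne_zero _).2 hγ h3

/-- Away from the radical the surface does not contain the whole line. -/
theorem map_FF_ne [IsAlgClosed k] {f : k[X]} (hR : Rad0 f) {ζ : k} (hζ : ζ ≠ 0) (t : k₁) :
    (FF f).map (ev2 (algebraMap k k₁ ζ) t) ≠ 0 := fun h0 => by
  have : CharP k₁ 2 := charP_of_injective_algebraMap (algebraMap k k₁).injective 2
  have h1 : ∀ y : k, algebraMap k k₁ ((taylor ζ f + f).eval y) =
      aeval (t + algebraMap k k₁ ζ) f + aeval t f := fun y => by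
    have h2 := ev3_eq (algebraMap k k₁ ζ) t (algebraMap k k₁ y) (FF f)
    rw [h0, eval_zero, ev3_FF, CharTwo.add_eq_zero, ← map_add,
      aeval_algebraMap_apply_eq_algebraMap_eval, aeval_algebraMap_apply_eq_algebraMap_eval] at h2
    rw [eval_add, taylor_eval, map_add, h2]
  refine hR ζ hζ ?_
  rw [show taylor ζ f + f = C ((taylor ζ f + f).eval 0) from Polynomial.funext fun y => ?_,
    natDegree_C]
  rw [eval_C]
  exact (algebraMap k k₁).injective (by rw [h1, h1])

end theta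

theorem monic_SS {k : Type} [Field k] {h : k[X][X]} (hm : h.Monic) (hh : h.natDegree ≠ 0) :
    (SS h).Monic := by
  rw [Monic, leadingCoeff_SS hh, hm.leadingCoeff, map_one]

section val

variable {k k₁ Ω : Type} [Field k] [Field k₁] [Field Ω] [IsAlgClosed Ω] [Algebra k k₁]
  [Algebra k Ω] [Algebra k₁ Ω] [IsScalarTower k k₁ Ω] (V : Val k₁ Ω)

/-- Roots of a monic polynomial at an integral point are integral. -/
theorem int_of_root {P : k[X][X][X]} (hP : P.Monic) {s x y : Ω} {a b : k₁}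
    (hs : V.v (s - algebraMap k₁ Ω a) < 1) (hx : V.v (x - algebraMap k₁ Ω b) < 1)
    (hy : ev3 s x y P = 0) : V.v y ≤ 1 := by
  classical
  have h1 := (V.red_ev2 hs hx P).card_fin (hP.map _).ne_zero
  rw [hP.natDegree_map, ← hP.natDegree_map (ev2 s x),
    (IsAlgClosed.splits _).natDegree_eq_card_roots] at h1
  have h2 := Multiset.eq_of_le_of_card_le (Multiset.filter_le (fun y => V.v y ≤ 1) _) h1.ge
  refine Multiset.filter_eq_self.1 h2 y ?_
  rw [mem_roots (hP.map _).ne_zero, IsRoot, ← ev3_eq, hy]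

omit [IsAlgClosed Ω] in
theorem close_iff {u w : Ω} {a b : k₁} (hu : V.v (u - algebraMap k₁ Ω a) < 1)
    (hw : V.v (w - algebraMap k₁ Ω b) < 1) : V.v (u - w) < 1 ↔ a = b := by
  constructor
  · intro h
    refine V.res_unique' hu ?_
    have := V.v.map_add_lt h hw
    rwa [sub_add_sub_cancel] at this
  · rintro rfl
    have := V.v.map_sub_lt hu hw
    rwa [sub_sub_sub_cancel_right] at this

end val

end TRoots

open TRoots

theorem rootsG (hC : CohLemma) (hM : ModuleLemma) (hI : IndepTame) : RootsG := by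
  intro k _ _ _ φ f h hc hT hR hB hm htay g R γ hγ hF hg ζ hζ ⟨a₀, ht⟩
  by_contra hζ0
  classical
  obtain ⟨k₁, Ω, _, _, _, _, _, _, _, _, V, t, -, hgen⟩ := exists_gen k
  have : CharP Ω 2 := charP_of_injective_algebraMap (algebraMap k Ω).injective 2
  have : CharP k₁ 2 := charP_of_injective_algebraMap (algebraMap k k₁).injective 2
  have hh : h.natDegree ≠ 0 := fun h0 => by
    have h1 := hB.zero
    rw [hm.natDegree_eq_zero.1 h0] at h1
    simp at h1
  have hSm := monic_SS hm hh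
  set z := algebraMap k k₁ ζ with hz
  set s := V.τ + algebraMap k₁ Ω z with hsdef
  set a := algebraMap k₁ Ω t with hadef
  have hs : V.v (s - algebraMap k₁ Ω z) < 1 := by
    rw [hsdef, add_sub_cancel_right]
    exact V.τ_lt
  have ha : V.v (a - algebraMap k₁ Ω t) < 1 := V.res_const t
  have hG : Gen k s a := by
    refine hgen s ?_
    have := V.transcendental_τ.aeval (X + C z) (by simp)
      (by rw [(monic_X_add_C z).leadingCoeff]; exact one_mem _)
    simpa using this
  have hd := hc.deg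
  have haX := hG.self_mem hd
  set U := (Rts f s a).filter fun x => V.v x ≤ 1 ∧ V.v (ev2 s x h - ev2 s a h) < 1 with hU
  have memU : ∀ x, x ∈ U ↔ x ∈ Rts f s a ∧ V.v x ≤ 1 ∧ V.v (ev2 s x h - ev2 s a h) < 1 :=
    fun x => Finset.mem_filter
  have near : ∀ x ∈ Rts f s a, V.v (x - algebraMap k₁ Ω t) < 1 → x ∈ U := fun x hx hxt =>
    (memU x).2 ⟨hx, V.le_one_of_res hxt,
      (close_iff V (V.res_ev2 hs hxt h) (V.res_ev2 hs ha h)).2 rfl⟩
  have haU : a ∈ U := near a haX ha
  have hK : ∀ x ∈ U, ∃ x' ∈ Rts f s a, ev2 s x' h = ev2 s x h ∧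
      V.v (x' - algebraMap k₁ Ω t) < 1 := by
    intro x hx
    obtain ⟨hx1, hx2, hx3⟩ := (memU x).1 hx
    obtain ⟨b, hb⟩ := V.res x hx2
    have h1 := (close_iff V (V.res_ev2 hs hb h) (V.res_ev2 hs ha h)).1 hx3
    obtain ⟨x', h2, h3⟩ := V.lift_root _ _ (hSm.map (ev2 z b)).ne_zero (V.red_ev2 hs hb (SS h)) t
      (by rw [← ev3_eq, ev3_SS, h1, CharTwo.add_self_eq_zero])
    rw [← ev3_eq, ev3_SS, CharTwo.add_eq_zero] at h2
    refine ⟨x', ?_, h2, h3⟩
    rw [← hG.Rts_eq hd hx1]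
    exact (hG.of_mem hd hx1).mem_of_SS hd hB.dvd h2
  have hmod1 : ∀ x ∈ U, ∀ y ∈ Rts f s a, y ∉ U → col k s x y = col k s a y := by
    intro x hx y hy hyU
    obtain ⟨hx1, hx2, hx3⟩ := (memU x).1 hx
    obtain ⟨x', h1, h2, h3⟩ := hK x hx
    have hne : ev2 s y h ≠ ev2 s x h := fun he => by
      obtain ⟨b, hb⟩ := V.res x hx2
      refine hyU ((memU y).2 ⟨hy, int_of_root V hSm hs hb ?_, by rw [he]; exact hx3⟩)
      rw [ev3_SS, he, CharTwo.add_self_eq_zero]
    rw [← hB.md Ω s x x' y (hG.of_mem hd hx1) (by rw [hG.Rts_eq hd hx1]; exact hy) h2 hne]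
    rcases lt_or_ge 1 (V.v y) with hv | hv
    · exact hI k k₁ Ω V f hd hT s a x' y hG h1 hy (V.le_one_of_res hs) (V.le_one_of_res ha)
        (V.le_one_of_res h3) hv (Or.inr h3)
    · obtain ⟨c, hc'⟩ := V.res y hv
      refine col_eq_of (hG.of_mem hd h1) hG (FF_ne_zero hd) (hG.ev3_FF hd h1 hy)
        (hG.ev3_FF hd haX hy) fun P₁ P₂ _ _ hP z₁ z₂ => hyU ((memU y).2 ⟨hy, hv, ?_⟩)
      exact (close_iff V (V.res_ev2 hs hc' h) (V.res_ev2 hs ha h)).2
        (double_FF hγ ht hP (V.ev3_eq_zero hs h3 hc' z₁) (V.ev3_eq_zero hs ha hc' z₂))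
  have hmod : IsMod (Rts f s a) U (col k s) :=
    ⟨Finset.filter_subset _ _, fun x₁ h₁ x₂ h₂ y hy hyU => by
      rw [hmod1 x₁ h₁ y hy hyU, hmod1 x₂ h₂ y hy hyU]⟩
  set R₀ := C (C g) + SS h * R with hR₀
  have hR₀ne : R₀.map (ev2 z t) ≠ 0 := fun h0 =>
    map_FF_ne hR hζ0 t (by rw [hF, Polynomial.map_mul, h0, mul_zero])
  have hR₀ne' : R₀ ≠ 0 := fun h0 => hR₀ne (by rw [h0, Polynomial.map_zero])
  obtain ⟨y₁, hy₁, hy₁t⟩ := V.lift_root _ _ hR₀ne (V.red_ev2 hs ha R₀) t (by
    rw [← ev3_eq, hR₀, map_add, map_mul, ev3_SS, CharTwo.add_self_eq_zero, zero_mul, add_zero,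
      ev3_C, ev2_C, hz, aeval_algebraMap_apply_eq_algebraMap_eval, hζ, map_zero])
  rw [← ev3_eq] at hy₁
  have hy₁X : y₁ ∈ Rts f s a := by
    rw [hG.mem_Rts hd, hF, map_mul, hy₁, mul_zero]
  have hy₁U : y₁ ∈ U := near y₁ hy₁X hy₁t
  have hy₁H : ev2 s y₁ h ≠ ev2 s a h := fun he => by
    rw [hR₀, map_add, map_mul, ev3_SS, he, CharTwo.add_self_eq_zero, zero_mul, add_zero,
      ev3_C, ev2_C] at hy₁
    refine hG.aeval_ne ?_ hy₁
    rintro rfl
    rw [derivative_zero] at hg
    exact hγ (C_eq_zero.1 hg.symm)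
  have hone : ∀ y ∈ U, ev2 s y h ≠ ev2 s a h → col k s a y = col k s a y₁ := by
    intro y hy hne
    have hy1 := ((memU y).1 hy).1
    obtain ⟨y', h1, h2, h3⟩ := hK y hy
    rw [← col_swap (hB.md Ω s y y' a (hG.of_mem hd hy1) (by rw [hG.Rts_eq hd hy1]; exact haX)
      h2 hne.symm)]
    have h4 : ev3 s a y' R₀ = 0 := by
      have h5 := hG.ev3_FF hd haX h1
      rw [hF, map_mul, mul_eq_zero, ev3_SS, CharTwo.add_eq_zero, h2] at h5
      exact h5.resolve_left hne
    exact col_eq_of hG hG hR₀ne' h4 hy₁ fun P₁ P₂ _ _ hP z₁ z₂ =>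
      double_R hγ hg hP (V.ev3_eq_zero hs ha h3 z₁) (V.ev3_eq_zero hs ha hy₁t z₂)
  have coh := hC k φ f hc Ω s a hG
  have hcl := hM _ _ _ _ _ coh U hmod
  obtain ⟨π, hπ1, hπ2, hπ3⟩ := coh.tw a haX
  have e1 := hπ3 a haX y₁ hy₁X
  rw [hπ2] at e1
  have hπU : π y₁ ∈ U := hcl.2 a haU y₁ hy₁U a haU (π y₁) (hπ1.mapsTo hy₁X) (Or.inr (Or.inr e1))
  have hπH : ev2 s (π y₁) h ≠ ev2 s a h := fun he => by
    have h1 : SS h ∈ col k s a (π y₁) := by
      rw [mem_col, ev3_SS, he, CharTwo.add_self_eq_zero]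
    rw [e1, ← hB.fix, ← mp3_SS, mem_map_mp3, mem_col, ev3_SS, CharTwo.add_eq_zero] at h1
    exact hy₁H h1
  rw [hone _ hπU hπH] at e1
  rcases hc.fixed_col hG hy₁X e1.symm with h1 | h1
  · exact hy₁H (by rw [h1])
  · exact hy₁H (by rw [h1, ← ev2_taylor, htay])

end Pool.Agent.Lib.MP_346d6a_co
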