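import Pool.Agent.Lib.MP_346d6a_co.TBasic

/-!
The tame case, part TStruct.
-/

set_option maxSynthPendingDepth 3

namespace Pool.Agent.Lib.MP_346d6a_co

open Polynomial

namespace TStruct

variable {k : Type} [Field k]

theorem relPrime {h : k[X][X]} (hp : h.IsPrimitive) (h0 : h.coeff 0 = 0) (hn : h.natDegree ≠ 0) :
    IsRelPrime (SS h) (C h) := by
  intro d d1 d2
  have hh : h ≠ 0 := fun e => hn (by rw [e, natDegree_zero])
  have e1 := eq_C_of_natDegree_eq_zero (Nat.le_zero.1
    ((natDegree_le_of_dvd d2 (C_ne_zero.2 hh)).trans (natDegree_C h).le))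
  generalize d.coeff 0 = r at e1
  subst e1
  have r1 := (C_dvd_iff_dvd_coeff _ _).1 d1 (SS h).natDegree
  rw [coeff_natDegree, leadingCoeff_SS hn] at r1
  have e2 := eq_C_of_natDegree_eq_zero (Nat.le_zero.1 ((natDegree_le_of_dvd r1
    (C_ne_zero.2 (leadingCoeff_ne_zero.2 hh))).trans (natDegree_C _).le))
  generalize r.coeff 0 = t at e2
  subst e2
  have r2 := (C_dvd_iff_dvd_coeff _ _).1 d1 0
  rw [coeff_zero_eq_eval_zero, eval_zero_SS h0] at r2
  exact isUnit_C.2 (isUnit_C.2 (hp t r2))

variable [CharP k 2]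

theorem decomp {h : k[X][X]} (hp : h.IsPrimitive) (h0 : h.coeff 0 = 0) (hn : h.natDegree ≠ 0)
    (n : ℕ) : ∀ D : k[X][X], D.natDegree = n → SS h ∣ SS D → ∃ G : k[X][X], D = G.comp h := by
  induction n using Nat.strong_induction_on with
  | _ n ih =>
    intro D hD hd
    by_cases e : D.natDegree = 0
    · exact ⟨C (D.coeff 0), by rw [C_comp]; exact eq_C_of_natDegree_eq_zero e⟩
    have h1 := _root_.map_dvd (evalRingHom 0) hd
    rw [coe_evalRingHom, eval_zero_SS h0, SS, eval_add, eval_C, ← coeff_zero_eq_eval_zero,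
      coeff_map, add_comm] at h1
    obtain ⟨D₁, h1⟩ := h1
    have e1 : D = h * D₁ + C (D.coeff 0) := by
      rw [← h1, add_assoc, CharTwo.add_self_eq_zero, add_zero]
    have hh : h ≠ 0 := fun z => hn (by rw [z, natDegree_zero])
    have n1 : D₁ ≠ 0 := fun z => e (by rw [e1, z, mul_zero, zero_add, natDegree_C])
    have lt : D₁.natDegree < n := by
      have := congrArg natDegree h1
      rw [natDegree_add_C, natDegree_mul hh n1] at this
      omega
    have e2 : SS D = SS h * D₁.map C + C h * SS D₁ := by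
      have two : (2 : k[X][X][X]) = 0 := CharTwo.two_eq_zero
      rw [e1]
      generalize D.coeff 0 = a
      simp only [SS, Polynomial.map_add, Polynomial.map_mul, map_C, map_add, map_mul]
      linear_combination (C (C a) - C h * D₁.map C) * two
    rw [e2, dvd_add_right (dvd_mul_right _ _)] at hd
    obtain ⟨G, hG⟩ := ih _ lt D₁ rfl ((relPrime hp h0 hn).dvd_of_dvd_mul_left hd)
    refine ⟨X * G + C (D.coeff 0), ?_⟩
    rw [add_comp, mul_comp, X_comp, C_comp, ← hG]
    exact e1

theorem SS_comp (h E : k[X][X]) (g : k[X]) :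
    ∃ R, SS ((C g * X + expand k[X] 2 E).comp h) = SS h * (C (C g) + SS h * R) := by
  have two : (2 : k[X][X][X]) = 0 := CharTwo.two_eq_zero
  have e : (expand k[X] 2 E).comp h = E.eval₂ C (h ^ 2) := by
    rw [expand_eq_comp_X_pow, comp_assoc, X_pow_comp, comp]
  have e1 : (E.eval₂ C (h ^ 2)).map C = (E.map (C.comp C)).eval (h.map C ^ 2 : k[X][X][X]) := by
    rw [← coe_mapRingHom, hom_eval₂, mapRingHom_comp_C, map_pow, eval_map]
  have e2 : C (E.eval₂ C (h ^ 2)) = (E.map (C.comp C)).eval (C h ^ 2 : k[X][X][X]) := by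
    rw [hom_eval₂, map_pow, eval_map]
  obtain ⟨R, hR⟩ := sub_dvd_eval_sub (h.map C ^ 2 : k[X][X][X]) (C h ^ 2) (E.map (C.comp C))
  refine ⟨R, ?_⟩
  rw [add_comp, mul_comp, C_comp, X_comp, e]
  simp only [SS, Polynomial.map_add, Polynomial.map_mul, map_C, map_add, map_mul]
  rw [e1, e2]
  linear_combination hR + ((E.map (C.comp C)).eval (C h ^ 2 : k[X][X][X]) -
    (C h ^ 2 + C h * h.map C) * R) * two

omit [CharP k 2]

/-- The derivative with respect to the inner variable. -/
noncomputable def ds : Derivation ℤ k[X][X] k[X][X] :=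
  @Differential.mapCoeffs k[X] _ ⟨derivative'.restrictScalars ℤ⟩

theorem coeff_ds (p : k[X][X]) (i : ℕ) : (ds p).coeff i = derivative (p.coeff i) := rfl

theorem ds_C (a : k[X]) : ds (C a) = C (derivative a) :=
  @Differential.mapCoeffs_C k[X] _ ⟨derivative'.restrictScalars ℤ⟩ a

theorem ds_X : ds (X : k[X][X]) = 0 :=
  @Differential.mapCoeffs_X k[X] _ ⟨derivative'.restrictScalars ℤ⟩

theorem ds_mul (p q : k[X][X]) : ds (p * q) = p * ds q + q * ds p := ds.leibniz p q

theorem ds_comp (G h : k[X][X]) :
    ds (G.comp h) = (ds G).comp h + (derivative G).comp h * ds h := by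
  induction G using Polynomial.induction_on with
  | C a => simp [ds_C]
  | add p q hp hq =>
    simp only [add_comp, map_add, hp, hq]
    ring
  | monomial n a ih =>
    rw [pow_succ, ← mul_assoc]
    generalize C a * X ^ n = p at ih
    simp only [mul_comp, X_comp, ds_mul, ih, ds_X, derivative_mul, derivative_X, add_comp,
      mul_zero, zero_add, mul_one]
    ring

theorem ds_map (f : k[X]) : ds (f.map C) = 0 := by
  ext1 i
  rw [coeff_ds, coeff_map, derivative_C, coeff_zero]

theorem ds_DD (f : k[X]) : ds (DD f) = taylor X ((derivative f).map C) := by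
  rw [DD, map_add, ds_map, add_zero, taylor_apply, taylor_apply, ds_comp, ds_map, map_add, ds_X,
    ds_C, derivative_X, derivative_map, zero_comp, zero_add, zero_add, C_1, mul_one]

theorem natDegree_ds (p : k[X][X]) : (ds p).natDegree ≤ p.natDegree := by
  rw [natDegree_le_iff_coeff_eq_zero]
  intro i hi
  rw [coeff_ds, coeff_eq_zero_of_natDegree_lt hi, derivative_zero]

theorem natDegree_DD_lt [CharP k 2] {f : k[X]} (h : f.natDegree ≠ 0) :
    (DD f).natDegree < f.natDegree := by
  refine lt_of_le_of_lt (natDegree_le_iff_coeff_eq_zero.2 fun m hm => ?_)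
    (Nat.sub_one_lt h)
  ext i
  rw [coeff_DD, coeff_zero]
  split_ifs with e
  · rfl
  · rw [coeff_eq_zero_of_natDegree_lt (by omega), mul_zero]

end TStruct

open TStruct

theorem gStruct : GStruct := by
  intro k _ _ f h hf hp h0 hN hd
  have hn : h.natDegree ≠ 0 := hN ▸ hf
  obtain ⟨G, hG⟩ := decomp hp h0 hn _ (DD f) rfl hd
  have e1 : DD (derivative f) = derivative h * (derivative G).comp h := by
    rw [← derivative_DD, hG, derivative_comp]
  have n1 := DD_ne_zero hf
  have lt := natDegree_DD_lt hf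
  rw [e1] at n1 lt
  rw [natDegree_mul (left_ne_zero_of_mul n1) (right_ne_zero_of_mul n1), natDegree_comp, ← hN] at lt
  have d0 : (derivative G).natDegree = 0 := by
    by_contra e
    have := Nat.le_mul_of_pos_left h.natDegree (Nat.pos_of_ne_zero e)
    omega
  have e2 : derivative G = C (G.coeff 1) := by
    rw [eq_C_of_natDegree_eq_zero d0, coeff_derivative]
    simp
  have e3 : G = C (G.coeff 1) * X + expand k[X] 2 (contract 2 (G - C (G.coeff 1) * X)) := by
    rw [expand_contract 2 (by simp [e2]) two_ne_zero, add_sub_cancel]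
  obtain ⟨R, hR⟩ := SS_comp h (contract 2 (G - C (G.coeff 1) * X)) (G.coeff 1)
  rw [← e3, ← hG] at hR
  have e4 := ds_DD f
  rw [hG, ds_comp, e2, C_comp] at e4
  have nT : (taylor X ((derivative f).map (C : k →+* k[X]))).natDegree = h.natDegree := by
    rw [natDegree_taylor, natDegree_map_eq_of_injective C_injective, hN]
  have d1 : (ds G).natDegree ≤ 1 := by
    have := natDegree_sub_le_of_le nT.le ((natDegree_C_mul_le (G.coeff 1) _).trans (natDegree_ds h))
    rw [← e4, add_sub_cancel_right, natDegree_comp, max_self] at this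
    exact Nat.le_of_mul_le_mul_right (by rwa [one_mul]) (Nat.pos_of_ne_zero hn)
  rw [eq_X_add_C_of_natDegree_le_one d1, add_comp, mul_comp, C_comp, C_comp, X_comp, coeff_ds]
    at e4
  refine ⟨G.coeff 1, R, hR, ?_, fun ζ hζ => ⟨((ds G).coeff 0).eval ζ, ?_⟩⟩
  · have := congrArg (fun p => p.coeff h.natDegree) e4
    simp only [coeff_add, coeff_C_mul, coeff_C_of_ne_zero hn, coeff_ds, coeff_natDegree] at this
    rw [← nT, coeff_natDegree, leadingCoeff_taylor,
      leadingCoeff_map_of_injective C_injective] at this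
    rw [derivative_mul, ← this, add_zero]
  · have := congrArg (Polynomial.map (evalRingHom ζ)) e4
    rw [map_taylor, Polynomial.map_map] at this
    simp only [Polynomial.map_add, Polynomial.map_mul, map_C, coe_evalRingHom, hζ, map_zero,
      zero_mul, add_zero, eval_X] at this
    rw [this, show (evalRingHom ζ).comp C = RingHom.id k by ext; simp, Polynomial.map_id]

end Pool.Agent.Lib.MP_346d6a_co
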