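import Pool.Agent.Lib.MP_346d6a_co.TBasic
import Pool.Agent.Lib.MP_346d6a_co.Fin2

/-!
The tame case, part TSurf.
-/

set_option maxSynthPendingDepth 3

namespace Pool.Agent.Lib.MP_346d6a_co

open Polynomial

namespace TSurf

variable {k₀ : Type} [Field k₀]

section gen

variable {Ω : Type} [Field Ω] [Algebra k₀ Ω] {s x y : Ω}

theorem ev2_swap (s x : Ω) (p : k₀[X][X]) : ev2 s x (Bivariate.swap p) = ev2 x s p := by
  have : (ev2 s x).comp (Bivariate.swap (R := k₀) : k₀[X][X] →+* k₀[X][X]) = ev2 x s := by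
    ext <;> simp [Bivariate.swap_apply]
  exact RingHom.congr_fun this p

theorem gen_swap (h : Gen k₀ s x) : Gen k₀ x s := fun p q hpq =>
  Bivariate.swap.injective (h (by rw [ev2_swap, ev2_swap, hpq]))

theorem ev2_comp (s x : Ω) (p q : k₀[X][X]) : ev2 s x (p.comp q) = ev2 s (ev2 s x q) p := by
  have : (ev2 s x).comp (compRingHom q) = ev2 s (ev2 s x q) := by
    ext <;> simp
  exact RingHom.congr_fun this p

theorem gen_comp (h : Gen k₀ s x) {q : k₀[X][X]} (hq : q.natDegree ≠ 0) :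
    Gen k₀ s (ev2 s x q) := by
  refine (injective_iff_map_eq_zero _).2 fun p hp => ?_
  rw [← ev2_comp] at hp
  refine (comp_eq_zero_iff.1 (h (hp.trans (map_zero _).symm))).resolve_right fun e => hq ?_
  rw [e.2, natDegree_C]

/-- A polynomial over the function field vanishing at a generic point has large degree. -/
theorem deg_le (hx : Gen k₀ s x) {P : k₀[X][X][X]} (hP : Irreducible P)
    (h1 : ev3 s x y P = 0) {u : Polynomial Ω} (hu : u ≠ 0) (h2 : u.eval y = 0)
    (hc : ∀ i, u.coeff i ∈ Subfield.closure (Set.range (ev2 (k := k₀) s x))) :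
    P.natDegree ≤ u.natDegree := by
  have hprim := hP.isPrimitive (hx.natDegree_ne hP.ne_zero h1)
  let K := FractionRing k₀[X][X]
  obtain ⟨l, hl⟩ : ∃ l : K →+* Ω, l.comp (algebraMap k₀[X][X] K) = ev2 s x :=
    ⟨IsFractionRing.lift (g := ev2 s x) hx,
      RingHom.ext (IsFractionRing.lift_algebraMap (K := K) (g := ev2 s x) hx)⟩
  have hle : Subfield.closure (Set.range (ev2 (k := k₀) s x)) ≤ l.fieldRange :=
    Subfield.closure_le.2 (by
      rintro _ ⟨a, rfl⟩
      exact RingHom.mem_fieldRange.2 ⟨algebraMap _ K a, RingHom.congr_fun hl a⟩)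
  obtain ⟨u', rfl⟩ := (mem_lifts (f := l) u).1 ((lifts_iff_coeff_lifts u).2 fun i =>
    Set.mem_range.2 (RingHom.mem_fieldRange.1 (hle (hc i))))
  have hirr : Irreducible (P.map (algebraMap k₀[X][X] K)) :=
    (hprim.irreducible_iff_irreducible_map_fraction_map (K := K)).mp hP
  rw [natDegree_map, ← natDegree_map_eq_of_injective (IsFractionRing.injective k₀[X][X] K) P]
  refine natDegree_le_of_dvd ?_ fun e => hu (by rw [e, Polynomial.map_zero])
  by_contra hnd
  obtain ⟨A, B, hAB⟩ := (hirr.coprime_iff_not_dvd).mpr hnd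
  have := congrArg (fun r => (r.map l).eval y) hAB
  simp only [Polynomial.map_add, Polynomial.map_mul, eval_add, eval_mul, Polynomial.map_map, hl,
    ← ev3_eq, h1, h2] at this
  simp at this

/-- Kronecker substitution. -/
theorem kron [Infinite k₀] {D : k₀[X][X]} (hD : D ≠ 0) :
    ∃ (M : ℕ) (b : k₀), ev2 (b ^ M) b D ≠ 0 := by
  by_contra! h
  refine hD (Bivariate.swap.injective ((eq_zero_of_infinite_isRoot _ ?_).trans (map_zero _).symm))
  refine Set.infinite_of_injective_forall_mem (f := fun M : ℕ => (X ^ M : k₀[X]))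
    (fun M N e => by simpa using congrArg natDegree e) fun M => Polynomial.funext fun b => ?_
  have e : ((evalRingHom b).comp (evalRingHom (X ^ M : k₀[X]))) = ev2 b (b ^ M) := by
    ext <;> simp
  exact (RingHom.congr_fun e _).trans (((ev2_swap _ _ _).trans (h M b)).trans eval_zero.symm)

/-- A separable specialisation. -/
theorem sep_point [Infinite k₀] (hx : Gen k₀ s x) {P : k₀[X][X][X]} (hP : P.natDegree ≠ 0)
    (hs : (P.map (ev2 s x)).Separable) : ∃ (M : ℕ) (b : k₀),
      ev2 (b ^ M) b P.leadingCoeff ≠ 0 ∧ (P.map (ev2 (b ^ M) b)).Separable := by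
  have h0 : resultant P (derivative P) ≠ 0 := fun e => by
    have := resultant_ne_zero _ _ hs
    rw [derivative_map, hx.natDegree_map, hx.natDegree_map, resultant_map_map, e] at this
    exact this (map_zero _)
  obtain ⟨p, q, -, -, e⟩ := exists_mul_add_mul_eq_C_resultant P (derivative P) le_rfl le_rfl
    (Or.inl hP)
  obtain ⟨M, b, h⟩ := kron (mul_ne_zero h0 ((leadingCoeff_ne_zero (p := P)).2 fun e =>
    hP (by rw [e, natDegree_zero])))
  rw [map_mul, mul_ne_zero_iff] at h
  refine ⟨M, b, h.2, C (ev2 (b ^ M) b (resultant P (derivative P)))⁻¹ * p.map (ev2 (b ^ M) b),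
    C (ev2 (b ^ M) b (resultant P (derivative P)))⁻¹ * q.map (ev2 (b ^ M) b), ?_⟩
  have := congrArg (Polynomial.map (ev2 (b ^ M) b)) e
  rw [Polynomial.map_add, Polynomial.map_mul, Polynomial.map_mul, map_C] at this
  rw [derivative_map, mul_assoc, mul_assoc, ← mul_add, mul_comm (p.map _), mul_comm (q.map _), this,
    ← C_mul, inv_mul_cancel₀ h.1, C_1]

end gen

section th

variable {A : Type} [Field A] [Algebra k₀ A]

/-- The curve `s = x ^ M + t (x ^ 2 ^ N + x)`. -/
noncomputable def sg (M N : ℕ) (t : A) : A[X] := X ^ M + C t * (X ^ 2 ^ N + X)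

variable (k₀) in
/-- Restriction to the curve `s = σ x`. -/
noncomputable def th (σ : A[X]) : k₀[X][X] →+* A[X] := (aevalAeval σ X : k₀[X][X] →ₐ[k₀] A[X])

theorem sg_map {B : Type} [Field B] (g : A →+* B) (M N : ℕ) (t : A) :
    (sg M N t).map g = sg M N (g t) := by simp [sg]

theorem th_map {B : Type} [Field B] [Algebra k₀ B] (g : A →+* B) (ψ : k₀ →+* k₀)
    (hg : ∀ c, g (algebraMap k₀ A c) = algebraMap k₀ B (ψ c)) (σ : A[X]) :
    (mapRingHom g).comp (th k₀ σ) = (th k₀ (σ.map g)).comp (mp2 ψ) := by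
  ext <;> simp [th, mp2, hg]

theorem th_eval (σ : A[X]) {b c : k₀} (h : σ.eval (algebraMap k₀ A b) = algebraMap k₀ A c) :
    (evalRingHom (algebraMap k₀ A b)).comp (th k₀ σ) = (algebraMap k₀ A).comp (ev2 c b) := by
  ext <;> simp [th, h]

variable {Ω : Type} [Field Ω] [Algebra k₀ Ω] [Algebra A Ω] [IsScalarTower k₀ A Ω]

theorem th_aeval (σ : A[X]) (z : Ω) :
    ((aeval z : A[X] →ₐ[A] Ω) : A[X] →+* Ω).comp (th k₀ σ) = ev2 (aeval z σ) z := by
  ext <;> simp [th, IsScalarTower.algebraMap_apply k₀ A Ω]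

theorem ev2_th (σ : A[X]) (z y : Ω) (R : k₀[X][X][X]) :
    ev2 z y (R.map (th k₀ σ)) = ev3 (aeval z σ) z y R := by
  rw [ev2_eq, Polynomial.map_map, th_aeval, ev3_eq]

theorem gen_base {t : A} (ht : Transcendental k₀ t) {z : Ω} (hz : Transcendental A z) :
    Gen k₀ (algebraMap A Ω t) z := fun p q hpq => by
  have e : ev2 (k := k₀) (algebraMap A Ω t) z = ((aeval z : A[X] →ₐ[A] Ω) : A[X] →+* Ω).comp
      (mapRingHom ((aeval t : k₀[X] →ₐ[k₀] A) : k₀[X] →+* A)) := by
    ext <;> simp [IsScalarTower.algebraMap_apply k₀ A Ω]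
  rw [e] at hpq
  exact map_injective _ (transcendental_iff_injective.1 ht) (transcendental_iff_injective.1 hz hpq)

theorem m_ne {R : Type} [Field R] {N : ℕ} (hN : 1 ≤ N) : (X ^ 2 ^ N + X : R[X]) ≠ 0 := fun e => by
  have h : 1 < 2 ^ N := Nat.one_lt_two_pow (by omega)
  simpa [coeff_X_pow, h.ne] using congrArg (coeff · 1) e

theorem gen_sg {t : A} (ht : Transcendental k₀ t) {z : Ω} (hz : Transcendental A z) (M : ℕ)
    {N : ℕ} (hN : 1 ≤ N) : Gen k₀ (aeval z (sg M N t)) z := by
  have := gen_swap (gen_comp (gen_swap (gen_base ht hz))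
    (q := C (X ^ 2 ^ N + X) * X + C (X ^ M)) (by rw [natDegree_linear (m_ne hN)]; exact one_ne_zero))
  convert this using 1
  simp [sg]
  ring

theorem mem_closure {t : A} {z : Ω} (hz : Transcendental A z) (M : ℕ) {N : ℕ} (hN : 1 ≤ N)
    (p : (IntermediateField.adjoin k₀ {t})[X]) :
    aeval z (p.map (algebraMap _ A)) ∈
      Subfield.closure (Set.range (ev2 (k := k₀) (aeval z (sg M N t)) z)) := by
  set F := Subfield.closure (Set.range (ev2 (k := k₀) (aeval z (sg M N t)) z))
  have h0 : ∀ q, ev2 (k := k₀) (aeval z (sg M N t)) z q ∈ F := fun q =>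
    Subfield.subset_closure ⟨q, rfl⟩
  have h1 : z ∈ F := by simpa using h0 X
  have h2 : aeval z (sg M N t) ∈ F := by simpa using h0 (C X)
  have h3 : z ^ 2 ^ N + z ≠ 0 := fun e =>
    m_ne hN (transcendental_iff_injective.1 hz (by simpa using e))
  have h4 : algebraMap A Ω t ∈ F := by
    convert div_mem (sub_mem h2 (pow_mem h1 M)) (add_mem (pow_mem h1 (2 ^ N)) h1) using 1
    simp [sg, h3]
  have h5 : IntermediateField.adjoin k₀ {t} ≤ (F.comap (algebraMap A Ω)).toIntermediateField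
      fun c => by simpa [← IsScalarTower.algebraMap_apply] using h0 (C (C c)) :=
    IntermediateField.adjoin_le_iff.2 (Set.singleton_subset_iff.2 h4)
  induction p using Polynomial.induction_on' with
  | add p q hp hq => simpa using add_mem hp hq
  | monomial n a => simpa using F.mul_mem (h5 a.2) (pow_mem h1 n)

end th

section main

variable {k : Type} [Field k] [Algebra k₀ k] {φ : k ≃+* k} {φ₀ : k₀ →+* k₀} {t : k} {f : k₀[X]}

theorem fin [CharP k 2] (h : APNFix φ (f.map (algebraMap k₀ k))) {s x y : k} (hs : φ s = s)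
    (hx : φ x = x) (hy : φ y = y) (h0 : ev3 s x y (FF f) = 0) : ev3 s x y (triv k₀) = 0 := by
  have h2 : (2 : k) = 0 := CharTwo.two_eq_zero
  rw [ev3_FF] at h0
  have := h x (x + s) y hx (by rw [map_add, hx, hs]) hy (by
    rw [show x + (x + s) + y = y + s by linear_combination x * h2]
    simp only [eval_map_algebraMap]
    linear_combination h0)
  rw [ev3_triv]
  rcases this with e | e | e
  · rw [left_eq_add.1 e, zero_mul, zero_mul]
  · rw [show y + x + s = 0 by linear_combination e + y * h2, mul_zero]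
  · rw [show y + x = 0 by linear_combination e + y * h2, mul_zero, zero_mul]

theorem const_case [IsAlgClosed k₀] [CharP k₀ 2] [CharP k 2]
    (hφ : ∀ c, φ (algebraMap k₀ k c) = algebraMap k₀ k (φ₀ c)) (ht : φ t = t)
    (htr : Transcendental k₀ t) (hf : (derivative f).natDegree ≠ 0)
    (h : APNFix φ (f.map (algebraMap k₀ k))) {P : k₀[X][X][X]} (hP : Irreducible P)
    (h1 : P ∣ FF f) (h2 : P ∣ mp3 φ₀ P) (h0 : P.natDegree = 0) : P ∣ triv k₀ := by
  obtain ⟨p, rfl⟩ := natDegree_eq_zero.1 h0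
  have h3 := leadingCoeff_dvd_leadingCoeff h1
  rw [FF, leadingCoeff_SS (natDegree_DD_ne hf), leadingCoeff_C] at h3
  have h4 := natDegree_le_of_dvd h3 (C_ne_zero.2 (leadingCoeff_ne_zero.2 fun e =>
    natDegree_DD_ne hf (by rw [e, natDegree_zero])))
  rw [natDegree_C, Nat.le_zero] at h4
  obtain ⟨α, rfl⟩ := natDegree_eq_zero.1 h4
  obtain ⟨κ, hκ⟩ := IsAlgClosed.exists_root α fun e => hP.not_isUnit
    (isUnit_C.2 (isUnit_C.2 (isUnit_iff_degree_eq_zero.2 e)))
  have h5 : C (C (X - C κ)) ∣ C (C α) := _root_.map_dvd C (_root_.map_dvd C (dvd_iff_isRoot.2 hκ))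
  have h6 : C (C α) ∣ C (C (X - C κ)) := (hP.dvd_iff.1 h5).elim
    (fun e => absurd (isUnit_C.1 (isUnit_C.1 e)) (not_isUnit_X_sub_C κ)) fun e => e.dvd
  have h7 : φ₀ κ = κ := by
    have := _root_.map_dvd (ev3 κ 0 0) ((h5.trans h2).trans (_root_.map_dvd (mp3 φ₀) h6))
    exact (sub_eq_zero.1 (by simpa [mp3, mp2] using this)).symm
  have h8 := _root_.map_dvd (ev3 (algebraMap k₀ k κ) 0 t) (h5.trans h1)
  have h9 := fin h (s := algebraMap k₀ k κ) (by rw [hφ, h7]) (map_zero φ) ht (by simpa using h8)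
  rw [ev3_triv, add_zero, mul_eq_zero, mul_eq_zero, CharTwo.add_eq_zero] at h9
  rcases h9 with (e | e) | e
  · rw [(map_eq_zero _).1 e, C_0, sub_zero] at h6
    exact h6.trans ((dvd_mul_right _ _).mul_right _)
  · exact absurd (e ▸ isAlgebraic_zero) htr
  · exact absurd (e ▸ isAlgebraic_algebraMap κ) htr

end main

end TSurf

open TSurf

theorem surfPAC (hD : Descent) : SurfPAC := by
  intro k₀ k _ _ _ _ _ _ _ φ φ₀ t hPAC hφ ht htr hN f hf h P hP h1 h2
  by_cases h0 : P.natDegree = 0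
  · exact const_case hφ ht htr hf h hP h1 h2 h0
  by_contra hn
  obtain ⟨Ω, -, _, _, -, -, _, -, -, -, -, z, hz, -⟩ := exists_gen k
  let _ : Algebra k₀ Ω := ((algebraMap k Ω).comp (algebraMap k₀ k)).toAlgebra
  have : IsScalarTower k₀ k Ω := IsScalarTower.of_algebraMap_eq fun _ => rfl
  have hsep : ∀ {s x : Ω}, Gen k₀ s x → (P.map (ev2 s x)).Separable := fun hx =>
    (hx.separable hf).of_dvd (Polynomial.map_dvd _ h1)
  obtain ⟨M, b, hb1, hb2⟩ := sep_point (gen_base htr hz) h0 (hsep (gen_base htr hz))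
  obtain ⟨N, hN1, hN2⟩ := hN b
  have hg := gen_sg htr hz M hN1
  have hj : Function.Injective ((aeval z : k[X] →ₐ[k] Ω) : k[X] →+* Ω) :=
    transcendental_iff_injective.1 hz
  set σ := sg M N t with hσ
  set Q := P.map (th k₀ σ) with hQ
  have hQj : Q.map ((aeval z : k[X] →ₐ[k] Ω) : k[X] →+* Ω) = P.map (ev2 (aeval z σ) z) := by
    rw [hQ, Polynomial.map_map, th_aeval]
  have hQd : Q.natDegree = P.natDegree := by
    rw [← natDegree_map_eq_of_injective hj, hQj, hg.natDegree_map]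
  obtain ⟨y, hy⟩ := IsAlgClosed.exists_root (P.map (ev2 (aeval z σ) z)) fun e =>
    h0 (by rw [← hg.natDegree_map, natDegree_eq_zero_iff_degree_le_zero.2 e.le])
  rw [IsRoot, ← ev3_eq] at hy
  have hQ0 : Q ≠ 0 := fun e => h0 (by rw [← hQd, e, natDegree_zero])
  obtain ⟨U, hU, ⟨W, hW⟩, hUy⟩ := exists_irred_factor (ev2 z y) Q hQ0 (by rw [ev2_th, hy])
  have hW0 : W ≠ 0 := fun e => hQ0 (by rw [hW, e, mul_zero])
  -- descent
  let K := IntermediateField.adjoin k₀ {t}
  have hK : CharP K 2 := charP_of_injective_algebraMap (algebraMap k₀ K).injective 2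
  have he := th_eval (sg M N (IntermediateField.AdjoinSimple.gen k₀ t)) (b := b) (c := b ^ M) (by
    simp only [sg, eval_add, eval_mul, eval_pow, eval_X, eval_C, ← map_pow, hN2,
      CharTwo.add_self_eq_zero, mul_zero, add_zero])
  have hl : eval (algebraMap k₀ K b) (th k₀ (sg M N (IntermediateField.AdjoinSimple.gen k₀ t))
      P.leadingCoeff) ≠ 0 := fun e =>
    hb1 ((map_eq_zero (algebraMap k₀ K)).1 ((RingHom.congr_fun he _).symm.trans e))
  obtain ⟨U', hU'⟩ := hD K k (P.map (th k₀ (sg M N (IntermediateField.AdjoinSimple.gen k₀ t))))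
    (algebraMap k₀ K b) U W
    (by
      rw [Polynomial.map_map, th_map (algebraMap K k) (RingHom.id k₀) fun _ => rfl, sg_map, ← hW]
      simp [mp2, hQ, hσ])
    (by rwa [leadingCoeff_map_of_leadingCoeff_ne_zero _ fun e => hl (by rw [e, eval_zero])])
    (by rw [Polynomial.map_map, he, ← Polynomial.map_map]; exact hb2.map)
    (by rw [Polynomial.map_map, he, ← Polynomial.map_map]; exact (IsAlgClosed.splits _).map _)
  have hlc : W.leadingCoeff ≠ 0 := leadingCoeff_ne_zero.2 hW0
  have hdeg := deg_le hg hP hy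
    (u := (C W.leadingCoeff * U).map ((aeval z : k[X] →ₐ[k] Ω) : k[X] →+* Ω))
    ((Polynomial.map_ne_zero_iff hj).2 (mul_ne_zero (C_ne_zero.2 hlc) hU.ne_zero))
    (by rw [← ev2_eq, map_mul, hUy, mul_zero]) fun i => by
      rw [← hU', coeff_map, coeff_map]
      exact mem_closure hz M hN1 _
  rw [natDegree_map_eq_of_injective hj, natDegree_C_mul hlc] at hdeg
  have hWd : W.natDegree = 0 := by
    rw [hW, natDegree_mul hU.ne_zero hW0] at hQd
    omega
  -- invariance
  have hinj : Function.Injective (mapRingHom (φ : k →+* k)) := map_injective _ φ.injective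
  have hst : U ∣ U.map (mapRingHom (φ : k →+* k)) := by
    have h3 : Q ∣ Q.map (mapRingHom (φ : k →+* k)) := by
      conv_rhs => rw [hQ, Polynomial.map_map, th_map _ φ₀ hφ, hσ, sg_map, RingHom.coe_coe, ht,
        ← Polynomial.map_map]
      exact Polynomial.map_dvd _ h2
    rw [hW, Polynomial.map_mul] at h3
    refine (hU.prime.dvd_or_dvd ((dvd_mul_right _ _).trans h3)).resolve_right fun e => ?_
    have := natDegree_le_of_dvd e ((Polynomial.map_ne_zero_iff hinj).2 hW0)
    rw [natDegree_map_eq_of_injective hinj] at this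
    omega
  obtain ⟨D, hUD, hfix⟩ := exists_fixed_of_dvd φ hU hst
  have hDQ : D ∣ Q := hUD.symm.dvd.trans ⟨W, hW⟩
  have hDy : ev2 z y D = 0 := zero_dvd_iff.1 (hUy ▸ _root_.map_dvd (ev2 z y) hUD.dvd)
  have hder : derivative D ≠ 0 := fun e => by
    have h3 := (hQj ▸ hsep hg).of_dvd (Polynomial.map_dvd _ hDQ)
    rw [separable_def, derivative_map, e, Polynomial.map_zero, isCoprime_zero_right] at h3
    exact (h3.map (evalRingHom y)).ne_zero ((ev2_eq z y D).symm.trans hDy)
  obtain ⟨x₀, y₀, hx₀, hy₀, h3, h4⟩ := hPAC D ((triv k₀).map (th k₀ σ)) (hUD.irreducible hU) hfix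
    hder fun e => hn ((hg.dvd_iff hP hy _).1 (by
      rw [← ev2_th]
      exact zero_dvd_iff.1 (hDy ▸ _root_.map_dvd (ev2 z y) e)))
  rw [← ev2_self] at h3 h4
  rw [ev2_th] at h4
  refine h4 (fin h (by simp [hσ, sg, hx₀, ht]) hx₀ hy₀ ?_)
  rw [← ev2_th]
  exact zero_dvd_iff.1 (h3 ▸ _root_.map_dvd (ev2 x₀ y₀) (hDQ.trans (Polynomial.map_dvd _ h1)))

end Pool.Agent.Lib.MP_346d6a_co
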