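import Pool.Agent.Lib.MP_346d6a_co.TBasic

/-!
The tame case, part TSym.
-/

set_option maxSynthPendingDepth 3

namespace Pool.Agent.Lib.MP_346d6a_co

open Polynomial

namespace TSym

variable {k : Type} [Field k] {B : Type} [CommRing B] [Algebra k B]

/-- Evaluation of `k[s][x]` in a commutative algebra. -/
noncomputable def e2 (s x : B) : k[X][X] →+* B := (aevalAeval s x : k[X][X] →ₐ[k] B)

/-- Evaluation of `k[s][x][y]` in a commutative algebra. -/
noncomputable def e3 (s x y : B) : k[X][X][X] →+* B := eval₂RingHom (e2 s x) y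

section ev

variable (s x y : B)

@[simp] theorem e2_C (p : k[X]) : e2 s x (C p) = aeval s p := by simp [e2]

@[simp] theorem e2_X : e2 (k := k) s x X = x := by simp [e2]

@[simp] theorem e2_map_C (p : k[X]) : e2 s x (p.map C) = aeval x p := by
  induction p using Polynomial.induction_on' with
  | add p q hp hq => rw [Polynomial.map_add, map_add, hp, hq, map_add]
  | monomial n a => simp [← C_mul_X_pow_eq_monomial]

theorem e2_taylor (h : k[X][X]) : e2 s x (taylor X h) = e2 s (x + s) h := by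
  induction h using Polynomial.induction_on' with
  | add p q hp hq => rw [map_add, map_add, hp, hq, map_add]
  | monomial n a => simp [← C_mul_X_pow_eq_monomial]

theorem e2_DD (f : k[X]) : e2 s x (DD f) = aeval (x + s) f + aeval x f := by
  rw [DD, map_add, e2_taylor, e2_map_C, e2_map_C]

@[simp] theorem e3_C (h : k[X][X]) : e3 s x y (C h) = e2 s x h := by simp [e3]

@[simp] theorem e3_X : e3 (k := k) s x y X = y := by simp [e3]

@[simp] theorem e3_map_C (h : k[X][X]) : e3 s x y (h.map C) = e2 s y h := by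
  induction h using Polynomial.induction_on' with
  | add p q hp hq => rw [Polynomial.map_add, map_add, hp, hq, map_add]
  | monomial n a => simp [← C_mul_X_pow_eq_monomial]

theorem e3_SS (h : k[X][X]) : e3 s x y (SS h) = e2 s y h + e2 s x h := by
  rw [SS, map_add, e3_map_C, e3_C]

theorem e3_FF (f : k[X]) : e3 s x y (FF f) =
    aeval (y + s) f + aeval y f + (aeval (x + s) f + aeval x f) := by
  rw [FF, e3_SS, e2_DD, e2_DD]

theorem e3_e3 (a b c P : k[X][X][X]) :
    e3 s x y (e3 a b c P) = e3 (e3 s x y a) (e3 s x y b) (e3 s x y c) P := by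
  have : (e3 s x y).comp (e3 (k := k) a b c) = e3 (e3 s x y a) (e3 s x y b) (e3 s x y c) := by
    ext <;> simp
  exact RingHom.congr_fun this P

end ev

theorem e3_id (P : k[X][X][X]) : e3 (C (C X) : k[X][X][X]) (C X) X P = P := by
  have : e3 (k := k) (C (C X) : k[X][X][X]) (C X) X = RingHom.id _ := by
    ext <;> simp
  exact RingHom.congr_fun this P

/-- the substitution `s = 0` -/
noncomputable def rho : k[X][X][X] →+* k[X][X] := e3 0 (C X) X

/-- the involution -/
noncomputable def inv : k[X][X][X] →+* k[X][X][X] := e3 (C (C X) + C X + X) X (C X)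

theorem rho_eq (P : k[X][X][X]) : rho P = P.map (mapRingHom (evalRingHom 0)) := by
  have : (rho : k[X][X][X] →+* k[X][X]) = mapRingHom (mapRingHom (evalRingHom 0)) := by
    ext <;> simp [rho]
  exact RingHom.congr_fun this P

theorem dvd_of_rho {P : k[X][X][X]} (h : rho P = 0) : C (C X) ∣ P := by
  rw [C_dvd_iff_dvd_coeff]
  intro i
  rw [C_dvd_iff_dvd_coeff]
  intro j
  have := congrArg (fun q => (q.coeff i).coeff j) ((rho_eq P).symm.trans h)
  simp only [coeff_map, coe_mapRingHom, coe_evalRingHom, coeff_zero] at this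
  rwa [X_dvd_iff, coeff_zero_eq_eval_zero]

theorem rho_s : rho (C (C X) : k[X][X][X]) = 0 := by simp [rho]

theorem rho_c (c : k) : rho (C (C (C c)) : k[X][X][X]) = C (C c) := by simp [rho]

theorem inv_c (c : k) : inv (C (C (C c)) : k[X][X][X]) = C (C (C c)) := by simp [inv]

theorem rho_SS (h : k[X][X]) :
    rho (SS h) = (h.map (evalRingHom 0)).map C + C (h.map (evalRingHom 0)) := by
  rw [rho_eq, SS, Polynomial.map_add, map_C, Polynomial.map_map, Polynomial.map_map,
    mapRingHom_comp_C]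
  rfl

theorem SS_monic {h : k[X][X]} (hm : h.Monic) (hd : h.natDegree ≠ 0) : (SS h).Monic := by
  rw [Monic, leadingCoeff_SS hd, hm.leadingCoeff, map_one]

variable [CharP k 2]

omit [CharP k 2] in
theorem e3_inv (s x y : B) (P : k[X][X][X]) : e3 s x y (inv P) = e3 (s + x + y) y x P := by
  rw [inv, e3_e3]
  simp

theorem inv_twice (P : k[X][X][X]) : inv (inv P) = P := by
  refine (e3_inv _ _ _ P).trans ?_
  rw [show (C (C X) + C X + X + X + C X : k[X][X][X]) = C (C X) by
    rw [add_assoc _ X X, CharTwo.add_self_eq_zero, add_zero, add_assoc, CharTwo.add_self_eq_zero,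
      add_zero], e3_id]

theorem inv_FF (f : k[X]) : inv (FF f) = FF f := by
  conv_rhs => rw [← e3_id (FF f)]
  rw [inv, e3_FF, e3_FF, show (C X + (C (C X) + C X + X) : k[X][X][X]) = X + C (C X) by
      linear_combination CharTwo.add_self_eq_zero (C X : k[X][X][X]),
    show (X + (C (C X) + C X + X) : k[X][X][X]) = C X + C (C X) by
      linear_combination CharTwo.add_self_eq_zero (X : k[X][X][X])]
  ring

theorem rho_FF (f : k[X]) : rho (FF f) = 0 := by
  rw [rho, e3_FF, add_zero, add_zero, CharTwo.add_self_eq_zero, CharTwo.add_self_eq_zero, add_zero]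

theorem rho_inv_SS {h : k[X][X]} (ht : taylor X h = h) : rho (inv (SS h)) = 0 := by
  rw [rho, e3_inv, e3_SS, zero_add]
  conv_lhs => enter [1]; rw [← ht, e2_taylor, ← add_assoc, CharTwo.add_self_eq_zero, zero_add]
  exact CharTwo.add_self_eq_zero _

theorem exists_D1 (f : k[X]) :
    ∃ D : k[X][X], FF f = C (C X) * SS D ∧ D.map (evalRingHom 0) = derivative f := by
  obtain ⟨D, hD⟩ : C X ∣ DD f := by
    rw [C_dvd_iff_dvd_coeff]
    intro m
    rw [X_dvd_iff, coeff_DD, if_pos rfl]
  refine ⟨D, ?_, ?_⟩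
  · rw [FF, hD, SS, SS, Polynomial.map_mul, map_C, map_mul, mul_add]
  · ext m
    rw [← coeff_DD_one, hD, coeff_C_mul, coeff_X_mul, coeff_map, coe_evalRingHom,
      coeff_zero_eq_eval_zero]

omit [CharP k 2] in
theorem relPrime {Q S : k[X][X][X]} {γ : k} (hγ : γ ≠ 0) (hQ : rho Q = C (C γ)) (hS : S.Monic) :
    IsRelPrime Q (C (C X) * S) := by
  have hu : IsUnit (rho Q) := hQ ▸ isUnit_C.2 (isUnit_C.2 hγ.isUnit)
  refine IsRelPrime.mul_right ?_ fun d h1 h2 => ?_
  · refine ((prime_C_iff.2 (prime_C_iff.2 prime_X)).irreducible.isRelPrime_iff_not_dvd.2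
      fun c => ?_).symm
    have := map_dvd rho c
    rw [rho_s, zero_dvd_iff] at this
    exact hu.ne_zero this
  · have h3 : IsUnit d.leadingCoeff := hS.isUnit_leadingCoeff_of_dvd h2
    have h4 := natDegree_eq_zero_of_isUnit (isUnit_of_dvd_unit (map_dvd rho h1) hu)
    rw [rho_eq, natDegree_map_of_leadingCoeff_ne_zero _ (h3.map _).ne_zero] at h4
    rw [eq_C_of_natDegree_eq_zero h4, isUnit_C]
    rwa [leadingCoeff, h4] at h3

end TSym

open TSym

theorem sym4 : Sym4 := by
  intro k _ _ f h R γ a hγ hm hd ht hF hf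
  have hS := SS_monic hm hd
  have h0 : rho (SS h) ≠ 0 := by
    rw [rho_eq]
    exact (hS.map _).ne_zero
  have h1 : rho R = 0 := by
    have := congrArg rho hF
    rw [rho_FF, map_mul, map_add, map_mul, map_mul, map_mul, map_mul, rho_s, mul_zero,
      zero_add] at this
    simpa [h0] using this
  obtain ⟨R₂, rfl⟩ := dvd_of_rho h1
  obtain ⟨R₁, e1⟩ : ∃ R₁, R₁ = C (C (C γ)) + SS h * R₂ := ⟨_, rfl⟩
  have h2 : FF f = C (C X) * SS h * R₁ := by
    rw [hF, e1, map_mul, map_mul]
    ring
  have h3 : rho R₁ = C (C γ) := by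
    obtain ⟨D, d1, d2⟩ := exists_D1 f
    rw [h2, mul_assoc] at d1
    have d3 := congrArg rho (mul_left_cancel₀ (C_ne_zero.2 (C_ne_zero.2 X_ne_zero)) d1)
    rw [map_mul, rho_SS D, d2, hf] at d3
    refine mul_left_cancel₀ h0 (d3.trans ?_)
    rw [rho_SS, Polynomial.map_add, Polynomial.map_mul, map_C, map_C, map_add, map_mul]
    linear_combination CharTwo.add_self_eq_zero (C (C a) : k[X][X])
  have h4 : rho (inv R₁) = C (C γ) := by
    rw [e1, map_add, map_mul, map_add, map_mul, rho_inv_SS ht, zero_mul, add_zero, inv_c, rho_c]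
  have h5 : inv (C (C X) * SS h) * inv R₁ = C (C X) * SS h * R₁ := by
    rw [← map_mul, ← h2, inv_FF]
  obtain ⟨T, hT⟩ := (relPrime hγ h4 hS).dvd_of_dvd_mul_left ⟨_, h5.symm.trans (mul_comm _ _)⟩
  have n1 : (C (C γ) : k[X][X]) ≠ 0 := C_ne_zero.2 (C_ne_zero.2 hγ)
  have n2 : R₁ ≠ 0 := fun c => n1 (by rw [← h3, c, map_zero])
  have h6 : IsUnit T := by
    have e := congrArg inv hT
    rw [map_mul, inv_twice] at e
    rw [e, mul_assoc] at hT
    exact IsUnit.of_mul_eq_one_right _ ((mul_left_cancel₀ n2 ((mul_one R₁).trans hT)).symm)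
  obtain ⟨t₂, u₂, rfl⟩ := Polynomial.isUnit_iff.1 h6
  obtain ⟨t₁, u₁, rfl⟩ := Polynomial.isUnit_iff.1 u₂
  obtain ⟨c, -, rfl⟩ := Polynomial.isUnit_iff.1 u₁
  have h7 : c = 1 := by
    have e := congrArg rho hT
    rw [map_mul, h3, h4, rho_c] at e
    exact C_injective (C_injective (mul_left_cancel₀ n1 (e.symm.trans (mul_one _).symm)))
  rw [h7, map_one, map_one, map_one, mul_one] at hT
  rw [← hT] at h5
  refine ⟨⟨_, h2⟩, fun s x y => ?_⟩
  have h8 := congrArg (e3 s x y) (mul_right_cancel₀ n2 h5)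
  have e : ∀ a b : k, e2 a b h = h.evalEval a b := fun a b => ev2_self a b h
  rw [e3_inv, map_mul, map_mul, e3_SS, e3_SS, e, e, e, e] at h8
  simp only [e3_C, e2_C, aeval_X] at h8
  linear_combination -h8

end Pool.Agent.Lib.MP_346d6a_co
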