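import Pool.Agent.Lib.MP_346d6a_co.TBasic

/-!
The tame case, part TTrans.
-/

set_option maxSynthPendingDepth 3

namespace Pool.Agent.Lib.MP_346d6a_co

open Polynomial

namespace TTrans

/-- Two points with the same equations have isomorphic algebraic closures. -/
theorem exists_ext {R Ω Ω' : Type} [CommRing R] [Field Ω] [Field Ω'] [IsAlgClosed Ω']
    (α : R →+* Ω) (β : R →+* Ω') (h : ∀ r, α r = 0 ↔ β r = 0) :
    ∃ (S : Subfield Ω) (j : S →+* Ω'), (∀ r, ∃ hr : α r ∈ S, j ⟨α r, hr⟩ = β r) ∧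
      ∀ p : R[X], p.map α ≠ 0 → ∀ z, (p.map α).eval z = 0 → z ∈ S := by
  have := RingHom.ker_isPrime α
  let _ : Algebra (R ⧸ RingHom.ker α) Ω := (RingHom.kerLift α).toAlgebra
  let _ : Algebra (R ⧸ RingHom.ker α) Ω' :=
    (Ideal.Quotient.lift (RingHom.ker α) β fun r hr => (h r).1 hr).toAlgebra
  have i1 : FaithfulSMul (R ⧸ RingHom.ker α) Ω :=
    (faithfulSMul_iff_algebraMap_injective _ _).2 (RingHom.kerLift_injective α)
  have i2 : FaithfulSMul (R ⧸ RingHom.ker α) Ω' := (faithfulSMul_iff_algebraMap_injective _ _).2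
    (RingHom.lift_injective_of_ker_le_ideal _ _ fun r hr => (h r).2 hr)
  let T := Subalgebra.algebraicClosure (R ⧸ RingHom.ker α) Ω
  let j : T →ₐ[R ⧸ RingHom.ker α] Ω' := IsAlgClosed.lift
  let S : Subfield Ω := { T.toSubring with inv_mem' := fun _ hx => IsAlgebraic.inv hx }
  refine ⟨S, (j : T →+* Ω').comp (S.subtype.codRestrict T fun x => x.2), fun r =>
    ⟨T.algebraMap_mem (Ideal.Quotient.mk _ r), j.commutes (Ideal.Quotient.mk _ r)⟩,
    fun p hp z hz => ?_⟩
  have e : (p.map (Ideal.Quotient.mk _)).map (algebraMap (R ⧸ RingHom.ker α) Ω) = p.map α := by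
    rw [Polynomial.map_map]
    rfl
  exact ⟨p.map (Ideal.Quotient.mk _), fun h0 => hp (by rw [← e, h0, Polynomial.map_zero]), by
    rw [← eval_map_algebraMap, e, hz]⟩

variable {k Ω Ω' : Type} [Field k] [Field Ω] [Algebra k Ω] [Field Ω'] [Algebra k Ω']

theorem mp2_bijective (φ : k ≃+* k) : Function.Bijective (mp2 (φ : k →+* k)) :=
  ⟨map_injective _ (map_injective _ φ.injective), map_surjective _ (map_surjective _ φ.surjective)⟩

theorem diag_iff (φ : k ≃+* k) {s a b : Ω} (ha : Gen k s a) (hb : Gen k s b) (P : k[X][X][X]) :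
    ev3 s a a P = 0 ↔ ev3 s b b (mp3 (φ : k →+* k) P) = 0 := by
  have h1 : ∀ a : Ω, ev3 (k := k) s a a = (ev2 s a).comp (evalRingHom X) := fun a => by
    ext <;> simp
  have h2 : (evalRingHom X).comp (mp3 (φ : k →+* k)) = (mp2 (φ : k →+* k)).comp (evalRingHom X) := by
    ext <;> simp [mp3, mp2]
  rw [h1, h1, RingHom.comp_apply, RingHom.comp_apply, map_eq_zero_iff _ ha, map_eq_zero_iff _ hb,
    ← RingHom.comp_apply, h2, RingHom.comp_apply, map_eq_zero_iff _ (mp2_bijective φ).1]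

end TTrans

open TTrans

theorem transfer : Transfer := by
  intro k _ _ φ f hφ hf Ω Ω' _ _ _ _ _ _ s x y s' x' y' hx hy hker
  classical
  obtain ⟨S, j, h1, h2⟩ := exists_ext (ev3 (k := k) s x y)
    ((ev3 s' x' y').comp (mp3 (φ : k →+* k))) hker
  choose m hm using h1
  have hk : ∀ c, algebraMap k Ω c ∈ S := fun c => by simpa using m (C (C (C c)))
  let _ : Algebra k S := ((algebraMap k Ω).codRestrict S hk).toAlgebra
  let π : Ω → Ω' := fun z => if hz : z ∈ S then j ⟨z, hz⟩ else 0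
  have hπ : ∀ z : S, π z = j z := fun z => dif_pos z.2
  have hπ' : ∀ P, π (ev3 s x y P) = ev3 s' x' y' (mp3 (φ : k →+* k) P) := fun P =>
    (hπ ⟨_, m P⟩).trans (hm P)
  have hs : π s = s' := by simpa [mp3, mp2] using hπ' (C (C X))
  have hx1 : π x = x' := by simpa [mp3, mp2] using hπ' (C X)
  have hy1 : π y = y' := by simpa [mp3, mp2] using hπ' X
  have ms : s ∈ S := by simpa using m (C (C X))
  have key : ∀ u ∈ S, ∀ w ∈ S, ∀ P : k[X][X][X],
      (ev3 s u w P = 0 ↔ ev3 s' (π u) (π w) (mp3 (φ : k →+* k) P) = 0) := fun u hu w hw P => by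
    have e1 := map_ev3 (⟨s, ms⟩ : S) ⟨u, hu⟩ ⟨w, hw⟩ ((RingEquiv.refl k : k ≃+* k) : k →+* k)
      S.subtype (fun _ => rfl) P
    have e2 := map_ev3 (⟨s, ms⟩ : S) ⟨u, hu⟩ ⟨w, hw⟩ (φ : k →+* k) j (fun c => by
      exact (hπ ⟨_, hk c⟩).symm.trans (by simpa [mp3, mp2] using hπ' (C (C (C c))))) P
    rw [← hπ, ← hπ, ← hπ, ← hπ, hs] at e2
    rw [mp3_refl] at e1
    rw [← e2, hπ, map_eq_zero j, ← map_eq_zero S.subtype, e1]
    rfl
  have hx' : Gen k s' x' := (injective_iff_map_eq_zero _).2 fun p hp => by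
    obtain ⟨q, rfl⟩ := (mp2_bijective φ).2 p
    have := (hker (C q)).2 (by rwa [mp3_C, ev3_C])
    rw [ev3_C, map_eq_zero_iff _ hx] at this
    rw [this, map_zero]
  have hS : ∀ u ∈ Rts f s x, u ∈ S := fun u hu => by
    have e : ((FF f).map C).map (ev3 s x y) = (FF f).map (ev2 s x) := by
      rw [Polynomial.map_map]
      exact congrArg ((FF f).map ·) (RingHom.ext fun p => ev3_C s x y p)
    exact h2 ((FF f).map C) (e ▸ hx.map_SS_ne (natDegree_DD_ne hf)) u
      (by rw [e, ← ev3_eq, ← hx.mem_Rts hf]; exact hu)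
  have hmap : Set.MapsTo π (Rts f s x) (Rts f s' x') := fun u hu => by
    have := (key x (hS x (hx.self_mem hf)) u (hS u hu) _).1 ((hx.mem_Rts hf).1 hu)
    rw [mp3_FF, hφ, hx1] at this
    exact (hx'.mem_Rts hf).2 this
  have hinj : Set.InjOn π (Rts f s x) := fun u hu w hw e => congrArg Subtype.val
    (j.injective ((hπ ⟨u, hS u hu⟩).symm.trans (e.trans (hπ ⟨w, hS w hw⟩))))
  exact ⟨π, ⟨hmap, hinj, Finset.surjOn_of_injOn_of_card_le π hmap hinj
    (by rw [hx.card_Rts hf, hx'.card_Rts hf])⟩, hx1, hy1,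
    fun u hu w hw => key u (hS u hu) w (hS w hw)⟩

theorem cohLemma (hT : Transfer) : CohLemma := by
  intro k _ _ φ f hc Ω _ _ _ s a ha
  have hf := hc.deg
  have : CharP Ω 2 := charP_of_injective_algebraMap (algebraMap k Ω).injective 2
  refine ⟨fun a₀ h₀ b hb d _ => ⟨fun e => ?_, ?_⟩, fun a₀ h₀ b hb a' h' b' _ e => ?_,
    fun a₀ h₀ => ?_, fun a₀ h₀ b hb b' _ e e' => ?_⟩
  · have : X + C X ∈ col k s a₀ a₀ := mem_col.2 (by simp [CharTwo.add_self_eq_zero])
    rw [e, mem_col] at this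
    exact (CharTwo.add_eq_zero.1 (by simpa using this)).symm
  · rintro rfl
    exact col_eq_iff.2 fun P => by
      simpa only [mp3_refl] using diag_iff (RingEquiv.refl k) (ha.of_mem hf h₀) (ha.of_mem hf hb) P
  · obtain ⟨π, h1, h2, h3, h4⟩ := hT k (RingEquiv.refl k) f (by simp) hf Ω Ω s a₀ b s a' b'
      (ha.of_mem hf h₀) (by rwa [ha.Rts_eq hf h₀]) fun P => by rw [mp3_refl, col_eq_iff.1 e P]
    rw [ha.Rts_eq hf h₀] at h1 h4
    rw [ha.Rts_eq hf h'] at h1
    exact ⟨π, h1, h2, h3, fun u hu w hw => col_eq_iff.2 fun P => by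
      rw [h4 u hu w hw P, mp3_refl]⟩
  · have h := ha.of_mem hf h₀
    obtain ⟨π, h1, h2, -, h4⟩ := hT k φ f hc.fix hf Ω Ω s a₀ a₀ s a₀ a₀ h (h.self_mem hf)
      (diag_iff φ h h)
    rw [ha.Rts_eq hf h₀] at h1 h4
    refine ⟨π, h1, h2, fun u hu w hw => Ideal.ext fun P => ?_⟩
    obtain ⟨Q, rfl⟩ := (mp3_bijective φ).2 P
    rw [mem_map_mp3, mem_col, mem_col, h4 u hu w hw Q]
  · have key : ∀ Q : k[X][X], b + ev2 s a₀ Q = 0 → b' = b := fun Q hQ => by
      have : X + C Q ∈ col k s a₀ b := mem_col.2 (by simpa using hQ)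
      rw [← e', mem_col] at this
      exact add_right_cancel ((by simpa using this : b' + ev2 s a₀ Q = 0).trans hQ.symm)
    rcases hc.fixed_col (ha.of_mem hf h₀) (by rwa [ha.Rts_eq hf h₀]) e with h | h
    · exact key X (by simp [h, CharTwo.add_self_eq_zero])
    · exact key (X + C X) (by simp [h, CharTwo.add_self_eq_zero])

end Pool.Agent.Lib.MP_346d6a_co
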