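import Pool.Agent.Lib.MP_346d6a_co.Core

/-!
Basic facts on the substitution `Th`.
-/

namespace Pool.Agent.Lib.MP_346d6a_co

open Polynomial

variable {k : Type} [Field k]

@[simp] theorem Th_X : Th (X : k[X][X]) = C X * X := by simp [Th]

@[simp] theorem Th_C_X : Th (C X : k[X][X]) = X := by simp [Th]

@[simp] theorem Th_C_C (c : k) : Th (C (C c) : k[X][X]) = C (C c) := by simp [Th]

theorem Th_C (p : k[X]) : Th (C p : k[X][X]) = p.map C := by
  induction p using Polynomial.induction_on' with
  | add p q hp hq => rw [map_add, map_add, hp, hq, Polynomial.map_add]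
  | monomial n a =>
    rw [← C_mul_X_pow_eq_monomial, map_mul, map_mul, map_pow, map_pow, Th_C_C, Th_C_X]
    simp

theorem Th_monomial (i j : ℕ) (c : k) :
    Th (monomial j (monomial i c) : k[X][X]) = monomial (i + j) (monomial j c) := by
  simp only [← C_mul_X_pow_eq_monomial, map_mul, map_pow, Th_C_C, Th_C_X, Th_X]
  ring

theorem coeff_coeff_Th (P : k[X][X]) (N j : ℕ) :
    ((Th P).coeff N).coeff j = if j ≤ N then (P.coeff j).coeff (N - j) else 0 := by
  induction P using Polynomial.induction_on' with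
  | add p q hp hq =>
    simp only [map_add, coeff_add, hp, hq]
    split_ifs <;> simp
  | monomial b p =>
    induction p using Polynomial.induction_on' with
    | add p q hp hq =>
      simp only [map_add, coeff_add] at hp hq ⊢
      rw [hp, hq]
      split_ifs <;> simp
    | monomial a c =>
      rw [Th_monomial]
      simp only [coeff_monomial]
      by_cases h1 : b = j
      · subst h1
        by_cases h2 : a + b = N
        · subst h2
          simp
        · rw [if_neg h2, if_pos rfl, coeff_monomial]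
          split_ifs with h3 h4
          · omega
          · simp
          · simp
      · rw [if_neg h1]
        split_ifs with h2 h3 h3
        · simp [coeff_monomial, h1]
        · simp [coeff_monomial, h1]
        · simp
        · simp

theorem coeff_coeff_eq_Th (P : k[X][X]) (i j : ℕ) :
    (P.coeff j).coeff i = ((Th P).coeff (i + j)).coeff j := by
  rw [coeff_coeff_Th, if_pos (by omega), Nat.add_sub_cancel]

theorem Th_injective : Function.Injective (Th : k[X][X] → k[X][X]) := fun P Q h => by
  ext j i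
  rw [coeff_coeff_eq_Th P, coeff_coeff_eq_Th Q, h]

theorem Th_eq_zero {P : k[X][X]} : Th P = 0 ↔ P = 0 := map_eq_zero_iff _ Th_injective

theorem natDegree_coeff_Th_le (P : k[X][X]) (N : ℕ) : ((Th P).coeff N).natDegree ≤ N := by
  rw [natDegree_le_iff_coeff_eq_zero]
  intro j hj
  rw [coeff_coeff_Th, if_neg (by omega)]

theorem natDegree_coeff_Th_le' (P : k[X][X]) (N : ℕ) :
    ((Th P).coeff N).natDegree ≤ P.natDegree := by
  rw [natDegree_le_iff_coeff_eq_zero]
  intro j hj
  rw [coeff_coeff_Th, coeff_eq_zero_of_natDegree_lt hj]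
  simp

theorem natDegree_le_natDegree_Th (P : k[X][X]) : P.natDegree ≤ (Th P).natDegree := by
  rw [natDegree_le_iff_coeff_eq_zero]
  intro j hj
  ext i
  rw [coeff_coeff_eq_Th, coeff_eq_zero_of_natDegree_lt (by omega : (Th P).natDegree < i + j)]
  simp

theorem Th_map {K : Type} [Field K] (ψ : k →+* K) (P : k[X][X]) :
    Th (P.map (mapRingHom ψ)) = (Th P).map (mapRingHom ψ) := by
  ext N j
  simp only [coeff_coeff_Th, coeff_map, coe_mapRingHom]
  split_ifs <;> simp

theorem derivative_coeff_Th (P : k[X][X]) (N : ℕ) :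
    derivative ((Th P).coeff (N + 1)) = (Th (derivative P)).coeff N := by
  ext j
  simp only [coeff_derivative, coeff_coeff_Th, Nat.add_le_add_iff_right, Nat.add_sub_add_right]
  split_ifs
  · have h : ((j : k[X]) + 1) = C ((j : k) + 1) := by simp
    rw [h, coeff_mul_C]
  · simp

theorem Sec_map {K : Type} [Field K] (ψ : k →+* K) (j : ℕ) :
    (Sec k j).map (mapRingHom ψ) = Sec K j := by
  simp [Sec]

theorem evalEval_Sec (j : ℕ) (b a : k) :
    (Sec k j).evalEval b a = 1 + (1 + b) ^ j + (1 + a) ^ j + (1 + b + a) ^ j := by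
  simp [Sec, evalEval_add, evalEval_pow, evalEval_C]

theorem coeff_one_add_C_mul_X_pow {R : Type} [CommRing R] (c : R) (j s : ℕ) :
    ((1 + C c * X : R[X]) ^ j).coeff s = (j.choose s : R) * c ^ s := by
  have h : (1 + C c * X : R[X]) ^ j = ((1 + X) ^ j).comp (C c * X) := by simp
  rw [h, comp_C_mul_X_coeff, coeff_one_add_X_pow]

theorem coeff_Th_Sec (j s : ℕ) (hs : 1 ≤ s) :
    (Th (Sec k j)).coeff s = (j.choose s : k[X]) * (1 + X ^ s + (1 + X) ^ s) := by
  have h : Th (Sec k j) =
      1 + (1 + C 1 * X) ^ j + (1 + C X * X) ^ j + (1 + C (1 + X) * X) ^ j := by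
    simp only [Sec, map_add, map_pow, map_one, Th_C_X, Th_X]
    ring
  rw [h]
  simp only [coeff_add, coeff_one_add_C_mul_X_pow, coeff_one, if_neg (by omega : s ≠ 0)]
  ring

theorem coeff_Th_Sec_zero [CharP k 2] (j : ℕ) : (Th (Sec k j)).coeff 0 = 0 := by
  have h : Th (Sec k j) =
      1 + (1 + C 1 * X) ^ j + (1 + C X * X) ^ j + (1 + C (1 + X) * X) ^ j := by
    simp only [Sec, map_add, map_pow, map_one, Th_C_X, Th_X]
    ring
  rw [h]
  simp only [coeff_add, coeff_one_add_C_mul_X_pow, coeff_one]
  have h2 : (2 : k[X]) = 0 := CharTwo.two_eq_zero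
  simp only [if_true, Nat.choose_zero_right, Nat.cast_one, pow_zero]
  linear_combination 2 * h2

theorem natDegree_Th_Sec_le (j : ℕ) : (Th (Sec k j)).natDegree ≤ j := by
  rw [natDegree_le_iff_coeff_eq_zero]
  intro s hs
  rw [coeff_Th_Sec j s (by omega), Nat.choose_eq_zero_of_lt hs]
  simp

end Pool.Agent.Lib.MP_346d6a_co
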