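import Pool.Agent.Lib.MP_346d6a_co.Fin3
import Pool.Agent.Lib.MP_346d6a_co.AH44Stepanov
import Pool.Agent.Lib.MP_346d6a_co.B3
import Pool.Agent.Lib.MP_346d6a_co.VExists
import Pool.Agent.Lib.MP_346d6a_co.VRoot
import Pool.Agent.Lib.MP_346d6a_co.T98Top
import Pool.Agent.Lib.MP_346d6a_co.DBlocks
import Pool.Agent.Lib.MP_346d6a_co.G34
import Pool.Agent.Lib.MP_346d6a_co.KCase
import Pool.Agent.Lib.MP_346d6a_co.M47Main

/-!
The Aubry-McGuire-Rodier conjecture for every polynomial whose largest exponent outside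
`0, 1, 2, 4, 8, ...` is odd, twice an odd number, or `2 ^ r * e` with `e` odd and neither a Gold
nor a Kasami-Welch number.
-/

namespace Pool.Agent.Lib.MP_346d6a_co.TopExp

open Polynomial Pool.Agent.Lib.MP_346d6a_co

theorem result (F : Type) [Field F] [Fintype F] [CharP F 2] (f : F[X]) (hf : ExcAPN f)
    (hd : ∀ r t : ℕ, 2 ≤ r → (Gold t ∨ Kasami t) →
      IsGreatest {j | f.coeff j ≠ 0 ∧ ¬ Lin j} (2 ^ r * t) →
      ∀ j, f.coeff j ≠ 0 → ¬ Lin j → 2 ^ (r - 1) ∣ j) :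
    ∃ t r : ℕ, (Gold t ∨ Kasami t) ∧ IsGreatest {j | f.coeff j ≠ 0 ∧ ¬ Lin j} (2 ^ r * t) ∧
      ∀ (E : Type) [Field E] [Finite E] [Algebra F E],
        CCZ (fun x : E => aeval x f) (fun x => x ^ t) := by
  obtain ⟨t, r, ht, hg, h⟩ := main (existsPAC stepanov) (T98.topReduction existsVal rootLemma)
    blocks goldCase kasamiCase (M47.bigFactor existsVal) F f hf
  refine ⟨t, r, ht, hg, h ?_⟩
  by_cases hr : 2 ≤ r
  · exact hd r t hr ht hg
  · intro j _ _
    have : r - 1 = 0 := by omega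
    simp [this]

end Pool.Agent.Lib.MP_346d6a_co.TopExp
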