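import Pool.Agent.Lib.MP_346d6a_co.W27Form

/-!
Counting the roots near `x` and near `x + s`.
-/

set_option maxSynthPendingDepth 3
set_option linter.unusedSectionVars false

namespace Pool.Agent.Lib.MP_346d6a_co

open Polynomial

namespace W27

open W48

namespace St

variable {k k₁ Ω : Type} [Field k] [Field k₁] [Field Ω] [Algebra k k₁] [Algebra k Ω]
  [Algebra k₁ Ω] [IsScalarTower k k₁ Ω] [CharP k 2] [IsAlgClosed k] [IsAlgClosed k₁] [IsAlgClosed Ω]
  (S : St k k₁ Ω)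
  {Q : k[X][X][X]} {δ g₁ g₂ g₃ : ℕ}

/-- The top form at the residue point. -/
noncomputable def tf (Q : k[X][X][X]) : k₁[X] :=
  (hom k Q).leadingCoeff.map ((aeval (1 + S.z) : k[X] →ₐ[k] k₁) : k[X] →+* k₁)

theorem comp_eq (Q : k[X][X][X]) : (Q.map (ev2 S.s S.x)).comp (C S.x * X) =
    ∑ u ∈ Finset.range ((hom k Q).natDegree + 1), C (S.x ^ u) *
      ((((hom k Q).coeff u).map ((aeval (1 + S.z) : k[X] →ₐ[k] k₁) : k[X] →+* k₁)).map
        (algebraMap k₁ Ω)) := by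
  refine Polynomial.funext fun Y => ?_
  have h1 := ev3_hom (algebraMap k₁ Ω (1 + S.z)) Y S.x Q
  rw [ev3_eq, ev3_eq, eval_eq_sum_range' (natDegree_map_le.trans_lt (Nat.lt_succ_self _))] at h1
  rw [eval_comp, eval_mul, eval_C, eval_X, mul_comm S.x Y, s, ← h1, eval_finsetSum]
  refine Finset.sum_congr rfl fun u _ => ?_
  rw [coeff_map, ev2_eq, eval_mul, eval_C, mul_comm, Polynomial.map_map]
  congr 3
  refine RingHom.ext fun p => ?_
  exact aeval_algebraMap_apply Ω (1 + S.z) p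

theorem red_top (Q : k[X][X][X]) : S.V.Red (C (S.x ^ (hom k Q).natDegree)⁻¹ *
    (Q.map (ev2 S.s S.x)).comp (C S.x * X)) (S.tf Q) := by
  have h0 : ∀ (A : ℕ → k₁[X]) (n m : ℕ), m ≤ n → S.V.Red (C (S.x ^ n)⁻¹ *
      ∑ u ∈ Finset.range m, C (S.x ^ u) * (A u).map (algebraMap k₁ Ω)) 0 := by
    intro A n m
    induction m with
    | zero => intro _; simpa using Val.Red.map (V := S.V) 0
    | succ m ih =>
      intro hm
      have h1 : S.V.v ((S.x ^ n)⁻¹ * S.x ^ m - algebraMap k₁ Ω 0) < 1 := by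
        rw [map_zero, sub_zero, map_mul, map_inv₀, map_pow, map_pow,
          inv_mul_lt_one₀ (pow_pos (zero_lt_one.trans S.one_lt_x) _)]
        exact pow_lt_pow_right₀ S.one_lt_x hm
      have h2 := (ih (by omega)).add ((Val.Red.C h1).mul (Val.Red.map (A m)))
      rw [Finset.sum_range_succ, mul_add, ← mul_assoc, ← C_mul]
      simpa using h2
  rw [comp_eq, Finset.sum_range_succ, mul_add, ← mul_assoc, ← C_mul,
    inv_mul_cancel₀ (pow_ne_zero _ S.x_ne), C_1, one_mul]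
  have h3 := (h0 (fun u => ((hom k Q).coeff u).map
    ((aeval (1 + S.z) : k[X] →ₐ[k] k₁) : k[X] →+* k₁)) _ (hom k Q).natDegree le_rfl).add
      (Val.Red.map (S.tf Q))
  rw [zero_add] at h3
  exact h3

theorem ae_inj : Function.Injective ((aeval (1 + S.z) : k[X] →ₐ[k] k₁) : k[X] →+* k₁) :=
  transcendental_iff_injective.1 S.z1_trans

theorem ne_of_dvd (hQ : Q ∣ FF S.f) : Q ≠ 0 := fun e =>
  FF_ne_zero S.hf (zero_dvd_iff.1 (e ▸ hQ))

theorem tf_ne (hQ : Q ≠ 0) : S.tf Q ≠ 0 :=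
  (Polynomial.map_ne_zero_iff S.ae_inj).2 (leadingCoeff_ne_zero.2 (hom_ne hQ))

theorem roots_top (Q : k[X][X][X]) (n : ℕ) :
    (C (S.x ^ n)⁻¹ * (Q.map (ev2 S.s S.x)).comp (C S.x * X)).roots =
      (Q.map (ev2 S.s S.x)).roots.map fun y => y / S.x := by
  have h := roots_comp_C_mul_X_add_C (Q.map (ev2 S.s S.x)) S.x 0 (IsUnit.mk0 _ S.x_ne)
  rw [C_0, add_zero] at h
  rw [roots_C_mul _ (inv_ne_zero (pow_ne_zero _ S.x_ne)), h]
  refine Multiset.map_congr rfl fun y _ => ?_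
  rw [sub_zero, Ring.inverse_eq_inv, div_eq_inv_mul]

open Classical in
theorem card_filter_rt (hQ : Q ∣ FF S.f) (P : Ω → Prop) [DecidablePred P] (n : ℕ) :
    ((S.rt Q).filter fun y => P (y / S.x)).card =
      ((C (S.x ^ n)⁻¹ * (Q.map (ev2 S.s S.x)).comp (C S.x * X)).roots.filter P).card := by
  have hn : (Q.map (ev2 S.s S.x)).roots.Nodup :=
    nodup_roots ((S.gen.separable S.hf).of_dvd (Polynomial.map_dvd _ hQ))
  rw [roots_top, Multiset.filter_map, Multiset.card_map, rt, ← Multiset.toFinset_filter,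
    Multiset.toFinset_card_of_nodup (hn.filter _)]
  rfl

open Classical in
theorem card_res (hQ : Q ∣ FF S.f) (U : k₁) :
    ((S.rt Q).filter fun y => S.Res y U).card = (S.tf Q).rootMultiplicity U := by
  rw [← (S.red_top Q).card_cluster (S.tf_ne (S.ne_of_dvd hQ)) U,
    ← S.card_filter_rt hQ fun y => S.V.v (y - algebraMap k₁ Ω U) < 1]
  exact congrArg Finset.card (Finset.filter_congr fun _ _ => Iff.rfl)

theorem natDegree_tf (hQ : Q ∣ FF S.f) (h : Nm Q δ g₁ g₂ g₃) : (S.tf Q).natDegree = Q.natDegree := by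
  rw [tf, natDegree_map_eq_of_injective S.ae_inj, (h.deg3 S.ed hQ).1]

theorem eval_map_ne {T : k[X][X]} {c : k[X]} (h : ¬ (X + C c) ∣ T) :
    ¬ (T.map ((aeval (1 + S.z) : k[X] →ₐ[k] k₁) : k[X] →+* k₁)).IsRoot (aeval (1 + S.z) c) := by
  intro e
  refine h ?_
  have h1 : ((aeval (1 + S.z) : k[X] →ₐ[k] k₁) : k[X] →+* k₁) (T.eval c) = 0 := by
    rw [← eval₂_at_apply, ← eval_map]
    exact e
  have h2 : (X - C c) ∣ T := dvd_iff_isRoot.2 (S.ae_inj (h1.trans (map_zero _).symm))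
  rwa [CharTwo.sub_eq_add] at h2

theorem mult_aux {K : Type} [Field K] {a b c : K} (hab : a ≠ b) (hc : c ≠ 0) {T : K[X]}
    (hT : ¬ T.IsRoot a) (m n l : ℕ) :
    ((X - C a) ^ m * (X - C b) ^ n * C c ^ l * T).rootMultiplicity a = m := by
  have h0 : T ≠ 0 := fun e => hT (by simp [e])
  have h1 : (X - C b) ^ n * C c ^ l * T ≠ 0 :=
    mul_ne_zero (mul_ne_zero (pow_ne_zero _ (X_sub_C_ne_zero b))
      (pow_ne_zero _ (C_ne_zero.2 hc))) h0
  have h2 : ¬ ((X - C b) ^ n * C c ^ l * T).IsRoot a := by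
    rw [IsRoot.def, eval_mul, eval_mul, eval_pow, eval_pow, eval_sub, eval_X, eval_C, eval_C]
    exact mul_ne_zero (mul_ne_zero (pow_ne_zero _ (sub_ne_zero.2 hab)) (pow_ne_zero _ hc)) hT
  rw [mul_assoc, mul_assoc, ← mul_assoc ((X - C b) ^ n),
    rootMultiplicity_mul (mul_ne_zero (pow_ne_zero _ (X_sub_C_ne_zero a)) h1),
    rootMultiplicity_X_sub_C_pow, rootMultiplicity_eq_zero h2, add_zero]

open Classical in
theorem count (hQ : Q ∣ FF S.f) (h : Nm Q δ g₁ g₂ g₃) :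
    ((S.rt Q).filter fun y => S.Res y 1).card = g₁ ∧
      ((S.rt Q).filter fun y => S.Res y S.z).card = g₂ ∧
      lg S.V (ev2 S.s S.x Q.leadingCoeff) = S.p * g₃ := by
  have := charP k k₁
  obtain ⟨T, hT, t1, t2, -⟩ := h.fac
  have e1 : (X + 1 : k₁[X]) = X - C 1 := by rw [CharTwo.sub_eq_add, C_1]
  have e2 : (X + 1 + C (1 + S.z) : k₁[X]) = X - C S.z := by
    rw [CharTwo.sub_eq_add, C_add, C_1, add_assoc, ← add_assoc (1 : k₁[X]),
      CharTwo.add_self_eq_zero, zero_add]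
  have h1 : S.tf Q = (X - C 1) ^ g₁ * (X - C S.z) ^ g₂ * C (1 + S.z) ^ g₃ *
      T.map ((aeval (1 + S.z) : k[X] →ₐ[k] k₁) : k[X] →+* k₁) := by
    rw [tf, hT, ← e1, ← e2]
    simp
  have r1 := S.eval_map_ne (c := 1) (T := T) (by rwa [C_1])
  have r2 := S.eval_map_ne (c := 1 + X) (T := T) (by rwa [C_add, C_1, ← add_assoc])
  rw [map_one] at r1
  rw [map_add, map_one, aeval_X, ← add_assoc, CharTwo.add_self_eq_zero, zero_add] at r2
  refine ⟨?_, ?_, ?_⟩
  · rw [S.card_res hQ, h1, mult_aux S.z_ne_one.symm S.z1_ne r1]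
  · rw [S.card_res hQ, h1, mul_comm ((X - C 1) ^ g₁), mult_aux S.z_ne_one S.z1_ne r2]
  · have h0 := S.ne_of_dvd hQ
    have h2 := S.red_top Q Q.natDegree
    have h3 : (S.tf Q).coeff Q.natDegree ≠ 0 := by
      rw [← S.natDegree_tf hQ h]
      exact leadingCoeff_ne_zero.2 (S.tf_ne h0)
    have h4 := lg_of_v_one (S.V.eq_one_of_res h3 h2)
    have h5 : ev2 S.s S.x Q.leadingCoeff ≠ 0 := S.gen.ev2_ne (leadingCoeff_ne_zero.2 h0)
    rw [coeff_C_mul, comp_C_mul_X_coeff, coeff_map, coeff_natDegree,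
      lg_mul (inv_ne_zero (pow_ne_zero _ S.x_ne)) (mul_ne_zero h5 (pow_ne_zero _ S.x_ne)),
      lg_mul h5 (pow_ne_zero _ S.x_ne), lg_inv, lg_pow, lg_pow, lg_x, h.deg,
      ← (h.deg3 S.ed hQ).2] at h4
    push_cast at h4
    linarith

theorem tf_FF : S.tf (FF S.f) = C (algebraMap k k₁ S.f.leadingCoeff) *
    ((X + C (1 + S.z)) ^ tt S.j + X ^ tt S.j + C (S.z ^ tt S.j + 1)) ^ 2 ^ S.r := by
  have := charP k k₁
  have e : (1 + (1 + C S.z) : k₁[X]) = C S.z := by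
    rw [← add_assoc, CharTwo.add_self_eq_zero, zero_add]
  rw [tf, (top_FF S.ed).2]
  simp [e, add_assoc]

theorem lc_ne : algebraMap k k₁ S.f.leadingCoeff ≠ 0 :=
  (_root_.map_ne_zero _).2 (leadingCoeff_ne_zero.2 fun e => S.hf (by simp [e]))

theorem root_res {y : Ω} (hy : y ∈ S.R) : ∃ U, S.Res y U ∧
    (U + 1 + S.z) ^ tt S.j + U ^ tt S.j + S.z ^ tt S.j + 1 = 0 := by
  classical
  obtain ⟨δ, g₁, g₂, g₃, h⟩ := exists_nm (FF_ne_zero S.hf)
  have h1 := (S.red_top (FF S.f)).card_fin (S.tf_ne (FF_ne_zero S.hf))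
  rw [← S.card_filter_rt dvd_rfl fun y => S.V.v y ≤ 1, S.natDegree_tf dvd_rfl h,
    ← S.card_rt dvd_rfl] at h1
  have h2 := Finset.filter_card_eq h1 y hy
  obtain ⟨U, hU⟩ := S.V.res _ h2
  refine ⟨U, hU, ?_⟩
  have h3 := (S.red_top (FF S.f)).root hU (by
    rw [eval_mul, eval_comp, eval_mul, eval_C, eval_C, eval_X, mul_div_cancel₀ _ S.x_ne, ← ev3_eq,
      S.mem_R.1 hy, mul_zero])
  rw [tf_FF, eval_mul, eval_C, eval_pow] at h3
  have h4 := pow_eq_zero_iff (by positivity) |>.1 ((mul_eq_zero.1 h3).resolve_left S.lc_ne)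
  simpa [add_assoc] using h4

theorem lg_lc : lg S.V (ev2 S.s S.x (FF S.f).leadingCoeff) + S.p * S.R.card =
    S.p * S.f.natDegree := by
  obtain ⟨δ, g₁, g₂, g₃, h⟩ := exists_nm (FF_ne_zero S.hf)
  rw [(S.count dvd_rfl h).2.2, ← S.rt_FF, S.card_rt dvd_rfl, ← (top_FF S.ed).1, h.deg,
    ← (h.deg3 S.ed dvd_rfl).2]
  push_cast
  ring

theorem mult_pow {K : Type} [Field K] (F : K[X]) (a : K) (n : ℕ) :
    (F ^ n).rootMultiplicity a = n * F.rootMultiplicity a := by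
  classical
  rw [← count_roots, ← count_roots, roots_pow, Multiset.count_nsmul]

open Classical in
theorem card_near {U : k₁} (hU : U = 1 ∨ U = S.z) :
    (S.R.filter fun y => S.Res y U).card ≤ 2 ^ S.r := by
  have := charP k k₁
  obtain ⟨m, hm⟩ := odd_tt (j := S.j) (by have := S.ed.j2; omega)
  have hm0 : 2 * m ≠ 0 := by have := tt_ge S.ed.j2; omega
  set F : k₁[X] := (X + C (1 + S.z)) ^ tt S.j + X ^ tt S.j + C (S.z ^ tt S.j + 1) with hF
  have h1 : (derivative F).eval U = (U + (1 + S.z)) ^ (2 * m) + U ^ (2 * m) := by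
    have e : ((2 * m + 1 : ℕ) : k₁) = 1 := by
      push_cast
      rw [CharTwo.two_eq_zero, zero_mul, zero_add]
    rw [hF, hm]
    simp only [derivative_add, derivative_pow, derivative_C, derivative_X, add_zero, mul_one,
      Nat.add_sub_cancel, e, C_1, one_mul, eval_add, eval_pow, eval_X, eval_C]
  have h2 : (derivative F).eval U ≠ 0 := by
    rw [h1]
    rcases hU with rfl | rfl
    · rw [← add_assoc, CharTwo.add_self_eq_zero, zero_add, one_pow]
      exact fun e => S.z_pow_ne hm0 (CharTwo.add_eq_zero.1 e)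
    · rw [add_left_comm, CharTwo.add_self_eq_zero, add_zero, one_pow]
      exact fun e => S.z_pow_ne hm0 (CharTwo.add_eq_zero.1 e).symm
  have h3 : F ≠ 0 := fun e => h2 (by simp [e])
  have h4 : F.rootMultiplicity U ≤ 1 := not_lt.1 fun e =>
    h2 ((one_lt_rootMultiplicity_iff_isRoot h3).1 e).2
  rw [← S.rt_FF, S.card_res dvd_rfl, tf_FF, ← hF,
    rootMultiplicity_mul (mul_ne_zero (C_ne_zero.2 S.lc_ne) (pow_ne_zero _ h3)),
    rootMultiplicity_C, zero_add, mult_pow]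
  exact mul_le_of_le_one_right (Nat.zero_le _) h4

end St

end W27

end Pool.Agent.Lib.MP_346d6a_co
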