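import Pool.Agent.Lib.MP_346d6a_co.W48FP

/-!
From exceptional polynomials to initial forms.
-/

set_option maxSynthPendingDepth 3

namespace Pool.Agent.Lib.MP_346d6a_co

open Polynomial

namespace W48

open W28

variable {k k₁ Ω : Type} [Field k] [Field k₁] [Field Ω] [Algebra k k₁] [Algebra k Ω] [Algebra k₁ Ω]
  [IsScalarTower k k₁ Ω]

variable (k) in
/-- The value of a polynomial at the point `u, x` is as large as its monomials. -/
def GP (V : Val k₁ Ω) (u x : Ω) : Prop :=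
  ∀ (P : k[X][X]) (i j : ℕ), (P.coeff j).coeff i ≠ 0 → V.v (u ^ i * x ^ j) ≤ V.v (ev2 u x P)

namespace Co

/-- The pairs of exponents of the monomials. -/
noncomputable def sp (P : k[X][X]) : Finset (Σ _ : ℕ, ℕ) :=
  P.support.sigma fun j => (P.coeff j).support

theorem mem_sp {P : k[X][X]} {p : Σ _ : ℕ, ℕ} : p ∈ sp P ↔ (P.coeff p.1).coeff p.2 ≠ 0 := by
  rw [sp, Finset.mem_sigma, mem_support_iff, mem_support_iff]
  exact ⟨fun h => h.2, fun h => ⟨fun e => h (by rw [e, coeff_zero]), h⟩⟩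

theorem ev2_sp (P : k[X][X]) (u x : Ω) : ev2 u x P =
    ∑ p ∈ sp P, algebraMap k Ω ((P.coeff p.1).coeff p.2) * (u ^ p.2 * x ^ p.1) := by
  rw [ev2_sum, sp, Finset.sum_sigma]
  refine Finset.sum_congr rfl fun j _ => ?_
  rw [aeval_def, eval₂_eq_sum, Polynomial.sum, Finset.sum_mul]
  exact Finset.sum_congr rfl fun i _ => mul_assoc _ _ _

theorem v_const (V : Val k₁ Ω) (c : k) : V.v (algebraMap k Ω c) ≤ 1 := by
  rw [IsScalarTower.algebraMap_apply k k₁ Ω]
  exact V.const_le _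

theorem v_const_mul (V : Val k₁ Ω) (c : k) (x : Ω) : V.v (algebraMap k Ω c * x) ≤ V.v x := by
  rw [map_mul]
  exact mul_le_of_le_one_left zero_le (v_const V c)

/-- Some power of two below `i` has an odd binomial coefficient. -/
theorem exists_pow {i j : ℕ} (hi : 1 ≤ i) (h : Odd (j.choose i)) :
    ∃ a, 2 ^ a ≤ i ∧ Odd (j.choose (2 ^ a)) := by
  classical
  have : Fact (Nat.Prime 2) := ⟨Nat.prime_two⟩
  have hex : ∃ m, 1 ≤ m ∧ Odd (j.choose m) := ⟨i, hi, h⟩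
  obtain ⟨h1, h2⟩ := Nat.find_spec hex
  have h3 : Nat.find hex ≤ i := Nat.find_min' hex ⟨hi, h⟩
  have h4 : ∃ a, Nat.find hex = 2 ^ a := by
    refine ⟨_, Choose.eq_pow_multiplicity_of_choose_modEq_zero_nat (p := 2) h1 fun i' hi' => ?_⟩
    rw [Finset.mem_Icc] at hi'
    by_contra h5
    refine Nat.find_min hex (m := i') (by omega) ⟨hi'.1, ?_⟩
    have h6 : Odd ((Nat.find hex).choose i') := by
      rwa [Nat.modEq_zero_iff_dvd, ← even_iff_two_dvd, Nat.not_even_iff_odd] at h5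
    have h7 := h2.mul h6
    rw [Nat.choose_mul (by omega)] at h7
    exact (Nat.odd_mul.1 h7).1
  obtain ⟨a, ha⟩ := h4
  exact ⟨a, ha ▸ h3, ha ▸ h2⟩

theorem coeff_hasse [CharP k 2] (P : k[X][X]) (i D l : ℕ) :
    ((hasseDeriv i P).coeff D).coeff l ≠ 0 ↔
      Odd ((D + i).choose i) ∧ (P.coeff (D + i)).coeff l ≠ 0 := by
  rw [hasseDeriv_coeff, ← nsmul_eq_mul, coeff_smul, nsmul_eq_mul, mul_ne_zero_iff, Ne,
    CharP.cast_eq_zero_iff k 2, ← even_iff_two_dvd, Nat.not_even_iff_odd]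

theorem map_hasse {R S : Type} [CommRing R] [CommRing S] (j : R →+* S) (P : R[X]) (i : ℕ) :
    hasseDeriv i (P.map j) = (hasseDeriv i P).map j := by
  ext1 m
  simp [hasseDeriv_coeff]

theorem le_of_hasse {R : Type} [CommRing R] {P : R[X]} {n a : ℕ} (hn : P.natDegree ≤ n)
    (h : hasseDeriv (2 ^ a) P ≠ 0) : a ∈ Finset.range (n + 1) := by
  rw [Finset.mem_range]
  by_contra h1
  have h2 : a < 2 ^ a := Nat.lt_two_pow_self
  exact h (hasseDeriv_eq_zero_of_lt_natDegree _ _ (by omega))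

theorem coeff_add_part (u x : Ω) {P : k[X][X]} {n : ℕ} (hn : P.natDegree ≤ n) (a : ℕ) :
    (∑ a ∈ Finset.range (n + 1), monomial (2 ^ a) (ev2 u x (hasseDeriv (2 ^ a) P))).coeff (2 ^ a) =
      ev2 u x (hasseDeriv (2 ^ a) P) := by
  rw [finsetSum_coeff]
  simp only [coeff_monomial, Nat.pow_right_inj (one_lt_two), Finset.sum_ite_eq']
  split_ifs with h
  · rfl
  · by_contra h1
    exact h (le_of_hasse hn fun e => h1 (by rw [e, map_zero]))

theorem coeff_add_part' (c : ℕ → Ω) (n : ℕ) {i : ℕ} (hi : ¬ ∃ a, i = 2 ^ a) :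
    (∑ a ∈ Finset.range (n + 1), monomial (2 ^ a) (c a)).coeff i = 0 := by
  rw [finsetSum_coeff]
  refine Finset.sum_eq_zero fun a _ => ?_
  rw [coeff_monomial, if_neg fun e => hi ⟨a, e.symm⟩]

theorem v_pow_sub (V : Val k₁ Ω) {x y : Ω} (hx : x ≠ 0) (hy : V.v (y - x) < V.v x) (D : ℕ) :
    V.v (y ^ D - x ^ D) < V.v (x ^ D) := by
  have h0 : 0 < V.v x := (V.v.pos_iff).2 hx
  have h1 : V.v (y / x - algebraMap k₁ Ω 1) < 1 := by
    rwa [map_one, div_sub_one hx, map_div₀, div_lt_one₀ h0]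
  have h2 := V.res_pow h1 D
  rwa [one_pow, map_one, div_pow, div_sub_one (pow_ne_zero _ hx), map_div₀,
    div_lt_one₀ ((V.v.pos_iff).2 (pow_ne_zero _ hx))] at h2

theorem natDegree_DD_le (f : k[X]) : (DD f).natDegree ≤ f.natDegree := by
  rw [DD]
  refine (natDegree_add_le _ _).trans (max_le ?_ natDegree_map_le)
  rw [natDegree_taylor]
  exact natDegree_map_le

end Co

open Co

theorem gauss_pair (V : Val k₁ Ω) {u₀ : k₁} (hu : Transcendental k u₀) (q n : ℤ) (hn : n ≠ 0) :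
    GP k V (algebraMap k₁ Ω u₀ * V.τ ^ q) (V.τ ^ n) := by
  classical
  intro P i j hij
  have hu0 : u₀ ≠ 0 := fun e => hu (e ▸ isAlgebraic_zero)
  have hτ := V.τ_ne
  have hp := V.τ_pos
  obtain ⟨p₀, hp₀, hmin⟩ := Finset.exists_min_image (sp P)
    (fun p => q * p.2 + n * p.1) ⟨⟨j, i⟩, mem_sp.2 hij⟩
  set w : ℤ := q * p₀.2 + n * p₀.1 with hw
  have e : ∀ a b : ℕ, (algebraMap k₁ Ω u₀ * V.τ ^ q) ^ a * (V.τ ^ n) ^ b =
      algebraMap k₁ Ω (u₀ ^ a) * V.τ ^ (q * a + n * b) := fun a b => by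
    rw [mul_pow, map_pow, zpow_add₀ hτ, zpow_mul, zpow_mul, zpow_natCast, zpow_natCast, mul_assoc]
  let r : k[X] := ∑ p ∈ sp P,
    if q * p.2 + n * p.1 = w then monomial p.2 ((P.coeff p.1).coeff p.2) else 0
  have hr : r ≠ 0 := fun h0 => by
    have h1 := congrArg (fun s => s.coeff p₀.2) h0
    simp only [r, finsetSum_coeff, coeff_zero] at h1
    rw [Finset.sum_eq_single p₀ (fun p _ hne => ?_) fun h => absurd hp₀ h, if_pos rfl,
      coeff_monomial, if_pos rfl] at h1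
    · exact mem_sp.1 hp₀ h1
    · split_ifs with h2
      · rw [coeff_monomial, if_neg]
        intro h3
        refine hne ?_
        rw [hw, h3, add_right_inj, mul_right_inj' hn, Nat.cast_inj] at h2
        exact Sigma.ext h2 (heq_of_eq h3)
      · rfl
  have hres : V.v (ev2 (algebraMap k₁ Ω u₀ * V.τ ^ q) (V.τ ^ n) P / V.τ ^ w -
      algebraMap k₁ Ω (aeval u₀ r)) < 1 := by
    rw [ev2_sp, Finset.sum_div, map_sum]
    refine V.res_sum _ fun p hp' => ?_
    rw [e, mul_div_assoc, mul_div_assoc, ← zpow_sub₀ hτ]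
    split_ifs with h2
    · rw [h2, sub_self, zpow_zero, mul_one, aeval_monomial, map_mul,
        ← IsScalarTower.algebraMap_apply, sub_self, map_zero]
      exact zero_lt_one
    · rw [map_zero, map_zero, sub_zero]
      refine (v_const_mul V _ _).trans_lt ?_
      rw [map_mul, V.const _ (pow_ne_zero _ hu0), one_mul, map_zpow₀]
      exact zpow_lt_one₀ hp V.τ_lt (sub_pos.2 (lt_of_le_of_ne (hmin p hp') (Ne.symm h2)))
  have h1 := V.eq_one_of_res (aeval_ne hu hr) hres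
  rw [map_div₀, div_eq_one_iff_eq ((V.v.ne_zero_iff).2 (zpow_ne_zero _ hτ))] at h1
  rw [h1, e, map_mul, V.const _ (pow_ne_zero _ hu0), one_mul, map_zpow₀, map_zpow₀]
  exact zpow_le_zpow_right_of_le_one₀ hp V.τ_lt.le (hmin ⟨j, i⟩ (mem_sp.2 hij))

theorem GP.gen {V : Val k₁ Ω} {u x : Ω} (h : GP k V u x) (hu : u ≠ 0) (hx : x ≠ 0) :
    Gen k u x := by
  refine (injective_iff_map_eq_zero _).2 fun P hP => ?_
  by_contra h0
  have h1 := h P (P.coeff P.natDegree).natDegree P.natDegree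
    (leadingCoeff_ne_zero.2 (leadingCoeff_ne_zero.2 h0))
  rw [hP, map_zero, le_zero_iff, V.v.zero_iff] at h1
  exact mul_ne_zero (pow_ne_zero _ hu) (pow_ne_zero _ hx) h1

/-- The additive part of the Taylor expansion governs all levels. -/
theorem lev [CharP k 2] {V : Val k₁ Ω} {u x : Ω} (h : GP k V u x) (hu : u ≠ 0) (hx : x ≠ 0)
    (P : k[X][X]) {n : ℕ} (hn : P.natDegree ≤ n) {a₀ : ℕ} (h0 : hasseDeriv (2 ^ a₀) P ≠ 0)
    {y t : Ω} (hy : V.v (y - x) < V.v x) (ht : t ≠ 0) (ht' : V.v t < V.v x) {i : ℕ} (hi : 1 ≤ i) :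
    ∃ l, V.v ((ev2 u y (hasseDeriv i P) - (∑ a ∈ Finset.range (n + 1),
        monomial (2 ^ a) (ev2 u x (hasseDeriv (2 ^ a) P))).coeff i) * t ^ i) <
      V.v ((∑ a ∈ Finset.range (n + 1),
        monomial (2 ^ a) (ev2 u x (hasseDeriv (2 ^ a) P))).coeff l * t ^ l) := by
  obtain ⟨b, -, hmax⟩ := Finset.exists_max_image (Finset.range (n + 1))
    (fun a => V.v (ev2 u x (hasseDeriv (2 ^ a) P) * t ^ 2 ^ a)) ⟨0, by simp⟩
  refine ⟨2 ^ b, ?_⟩
  rw [coeff_add_part u x hn b]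
  set N := V.v (ev2 u x (hasseDeriv (2 ^ b) P) * t ^ 2 ^ b) with hN
  have hN0 : N ≠ 0 := fun e => by
    have h1 := hmax a₀ (le_of_hasse hn h0)
    rw [e, le_zero_iff, V.v.zero_iff] at h1
    exact mul_ne_zero ((h.gen hu hx).ev2_ne h0) (pow_ne_zero _ ht) h1
  have pu : 0 < V.v u := (V.v.pos_iff).2 hu
  have pt : 0 < V.v t := (V.v.pos_iff).2 ht
  have px : 0 < V.v x := (V.v.pos_iff).2 hx
  have key : ∀ a D l, ((hasseDeriv (2 ^ a) P).coeff D).coeff l ≠ 0 →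
      V.v u ^ l * V.v x ^ D * V.v t ^ 2 ^ a ≤ N := fun a D l hc => by
    refine le_trans ?_ (hmax a (le_of_hasse hn fun e => hc (by rw [e, coeff_zero, coeff_zero])))
    rw [map_mul, map_pow, ← map_pow V.v u, ← map_pow V.v x, ← map_mul]
    exact mul_le_mul_left (h _ l D hc) _
  by_cases hp : ∃ a, i = 2 ^ a
  · obtain ⟨a, rfl⟩ := hp
    rw [coeff_add_part u x hn a, ev2_sp, ev2_sp, ← Finset.sum_sub_distrib, Finset.sum_mul]
    refine V.v.map_sum_lt hN0 fun p hp => ?_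
    rw [← mul_sub, ← mul_sub, mul_assoc]
    refine (v_const_mul V _ _).trans_lt (lt_of_lt_of_le ?_ (key a p.1 p.2 (mem_sp.1 hp)))
    rw [map_mul, map_mul, map_pow, map_pow, ← map_pow V.v x]
    exact mul_lt_mul_of_pos_right (mul_lt_mul_of_pos_left (v_pow_sub V hx hy _) (pow_pos pu _))
      (pow_pos pt _)
  · have hyx : V.v y = V.v x := by
      have := V.v.map_add_eq_of_lt_right hy
      rwa [sub_add_cancel] at this
    rw [coeff_add_part' _ n hp, sub_zero, ev2_sp, Finset.sum_mul]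
    refine V.v.map_sum_lt hN0 fun p hp' => ?_
    obtain ⟨h1, h2⟩ := (coeff_hasse P i p.1 p.2).1 (mem_sp.1 hp')
    obtain ⟨a, h3, h4⟩ := exists_pow hi h1
    obtain ⟨m, rfl⟩ := Nat.exists_eq_add_of_le h3
    have hm : m ≠ 0 := fun e => hp ⟨a, by rw [e, add_zero]⟩
    have e : p.1 + (2 ^ a + m) = p.1 + m + 2 ^ a := by ring
    rw [e] at h2 h4
    rw [mul_assoc]
    refine (v_const_mul V _ _).trans_lt (lt_of_lt_of_le ?_
      (key a (p.1 + m) p.2 ((coeff_hasse P _ _ _).2 ⟨h4, h2⟩)))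
    rw [map_mul, map_mul, map_pow, map_pow, map_pow, hyx, pow_add, pow_add, mul_comm _ (V.v t ^ m),
      ← mul_assoc, ← mul_assoc]
    exact mul_lt_mul_of_pos_right (mul_lt_mul_of_pos_left (pow_lt_pow_left₀ ht' zero_le hm)
      (mul_pos (pow_pos pu _) (pow_pos px _))) (pow_pos pt _)

theorem core [CharP k 2] [IsAlgClosed Ω] {φ : k ≃+* k} {f : k[X]} (hc : Ctx φ f) (V : Val k₁ Ω)
    (g : Ω ≃+* Ω) (hg : Ov φ g) (hv : ∀ x, V.v (g x) = V.v x) {u x θ : Ω} (gu : g u = u)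
    (gx : g x = x) (gθ : g θ = θ) (hu : u ≠ 0) (hθ : θ ≠ 0) (hG : GP k V u x)
    (h1 : V.v θ < V.v x) (h2 : V.v θ ≤ V.v u) {a₀ : ℕ}
    (h : V.v (∑ a ∈ Finset.range (f.natDegree + 1), ev2 u x (hasseDeriv (2 ^ a) (DD f)) * θ ^ 2 ^ a)
      < V.v (ev2 u x (hasseDeriv (2 ^ a₀) (DD f)) * θ ^ 2 ^ a₀)) : V.v (u - θ) < V.v θ := by
  have := charP k Ω
  have hx : x ≠ 0 := fun e => by simp [e] at h1
  have hgen := hG.gen hu hx
  have hD : mp2 (φ : k →+* k) (DD f) = DD f := by rw [mp2_DD, hc.fix]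
  have hm : ∀ (y : Ω) (P : k[X][X]), g (ev2 u y P) = ev2 u (g y) (mp2 (φ : k →+* k) P) :=
    fun y P => by
      have e := map_ev2 (φ : k →+* k) (g : Ω →+* Ω) hg u y P
      rwa [RingHom.coe_coe, gu] at e
  have hH : ∀ i, mp2 (φ : k →+* k) (hasseDeriv i (DD f)) = hasseDeriv i (DD f) := fun i => by
    rw [mp2, coe_mapRingHom, ← map_hasse, ← coe_mapRingHom, ← mp2, hD]
  have eA : ∀ y : Ω, (∑ a ∈ Finset.range (f.natDegree + 1),
      monomial (2 ^ a) (ev2 u x (hasseDeriv (2 ^ a) (DD f)))).eval y =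
      ∑ a ∈ Finset.range (f.natDegree + 1), ev2 u x (hasseDeriv (2 ^ a) (DD f)) * y ^ 2 ^ a :=
    fun y => by simp only [eval_finsetSum, eval_monomial]
  have h0 : hasseDeriv (2 ^ a₀) (DD f) ≠ 0 := fun e => by simp [e] at h
  obtain ⟨y, gy, hy, hne, hy'⟩ := fp V g hv
    ((DD f).map ((aeval u : k[X] →ₐ[k] Ω) : k[X] →+* Ω))
    (∑ a ∈ Finset.range (f.natDegree + 1), monomial (2 ^ a) (ev2 u x (hasseDeriv (2 ^ a) (DD f))))
    (fun y => by rw [← ev2_eq, ← ev2_eq, hm, hD])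
    (fun y => by simp only [eA, map_sum, map_mul, map_pow, hm, hH, gx])
    (fun y z => by simp only [eA, add_pow_char_pow, mul_add, Finset.sum_add_distrib])
    gx hθ (fun y t hy ht ht' i hi => by
      rw [taylor_coeff, map_hasse, ← ev2_eq]
      exact lev hG hu hx (DD f) (natDegree_DD_le f) h0 (hy.trans_lt h1) ht (ht'.trans_lt h1) hi)
    (by rw [gθ, sub_self, map_zero]; exact (V.v.pos_iff).2 hθ) (l := 2 ^ a₀)
    (by rw [eA, coeff_add_part u x (natDegree_DD_le f)]; exact h)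
  rw [← ev2_eq, ← ev2_eq] at hy
  have hcol : (col k u x y).map (mp3 (φ : k →+* k)) = col k u x y := by
    ext P
    obtain ⟨P, rfl⟩ := (mp3_bijective φ).2 P
    have e := map_ev3 (s := u) (x := x) (y := y) (φ : k →+* k) (g : Ω →+* Ω) hg P
    rw [RingHom.coe_coe, gu, gx, gy] at e
    rw [mem_map_mp3, mem_col, mem_col, ← e, map_eq_zero_iff _ g.injective]
  rcases hc.fixed_col hgen ((hgen.mem_Rts' hc.deg).2 hy) hcol with e | e
  · exact absurd e hne
  · rw [e, add_sub_cancel_left] at hy'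
    exact hy'.resolve_left (not_lt.2 h2)

end W48

end Pool.Agent.Lib.MP_346d6a_co
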