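import Pool.Agent.Lib.MP_346d6a_co.W27Ed
import Pool.Agent.Lib.MP_346d6a_co.W48Core
import Pool.Agent.Lib.MP_346d6a_co.TTrans

/-!
Kasami degrees: the place `|s| = |x| = R`, definitions and basic facts (helper27).
-/

set_option maxSynthPendingDepth 3
set_option linter.unusedSectionVars false

namespace Pool.Agent.Lib.MP_346d6a_co

open Polynomial

namespace W27

open W48

section alg

variable {K : Type} [Field K]

/-- The additive polynomial `∑ p c X ^ 2 ^ c`. -/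
noncomputable def ap (I : Finset ℕ) (p : ℕ → K) : K[X] := ∑ c ∈ I, monomial (2 ^ c) (p c)

/-- The `2 ^ a`-th power of the adjoint of `ap I p` at `w`. -/
def adj (I : Finset ℕ) (a : ℕ) (p : ℕ → K) (w : K) : K := ∑ c ∈ I, (p c * w) ^ 2 ^ (a - c)

theorem ap_add (I : Finset ℕ) (p q : ℕ → K) : ap I p + ap I q = ap I fun c => p c + q c := by
  simp [ap, Finset.sum_add_distrib]

theorem eval_ap (I : Finset ℕ) (p : ℕ → K) (t : K) :
    (ap I p).eval t = ∑ c ∈ I, p c * t ^ 2 ^ c := by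
  simp [ap, eval_finsetSum]

theorem coeff_ap (I : Finset ℕ) (p : ℕ → K) (c : ℕ) :
    (ap I p).coeff (2 ^ c) = if c ∈ I then p c else 0 := by
  rw [ap, finsetSum_coeff]
  simp only [coeff_monomial, Nat.pow_right_inj (one_lt_two), Finset.sum_ite_eq']

theorem coeff_ap_of_ne (I : Finset ℕ) (p : ℕ → K) {i : ℕ} (h : ∀ c ∈ I, i ≠ 2 ^ c) :
    (ap I p).coeff i = 0 := by
  rw [ap, finsetSum_coeff]
  exact Finset.sum_eq_zero fun c hc => by rw [coeff_monomial, if_neg (h c hc).symm]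

theorem eval_ap_add [CharP K 2] (I : Finset ℕ) (p : ℕ → K) (t u : K) :
    (ap I p).eval (t + u) = (ap I p).eval t + (ap I p).eval u := by
  simp only [eval_ap, add_pow_char_pow, mul_add, Finset.sum_add_distrib]

theorem adj_add [CharP K 2] (I : Finset ℕ) (a : ℕ) (p q : ℕ → K) (w : K) :
    adj I a (fun c => p c + q c) w = adj I a p w + adj I a q w := by
  simp only [adj, add_mul, add_pow_char_pow, Finset.sum_add_distrib]

variable {k : Type} [Field k]

/-- The leading coefficient of the Hasse derivative of order `2 ^ c`. -/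
noncomputable def cc (f : k[X]) (c : ℕ) : k := (hasseDeriv (2 ^ c) f).leadingCoeff

/-- The coefficients of the initial form of `f (x U + θ) + f (x U)`. -/
noncomputable def gc [Algebra k K] (f : k[X]) (U : K) (c : ℕ) : K :=
  algebraMap k K (cc f c) * U ^ dg f (2 ^ c)

/-- The units `U₁`, `U₂` are not close to being proportional over `k`. -/
def Sep [Algebra k K] (V : Val k K) (j : ℕ) (U₁ U₂ : K) : Prop :=
  V.v U₁ = 1 ∧ V.v U₂ = 1 ∧ ∀ r₁ r₂ : k, r₁ ≠ 0 → r₂ ≠ 0 →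
    V.v V.τ ≤ V.v (algebraMap k K r₂ * U₁ + algebraMap k K r₁ * U₂) ^ (2 ^ j + 1)

variable (k) in
/-- The substitution `s ↦ S U`, `x ↦ U`, `y ↦ Y U` into `k[S][Y][U]`. -/
noncomputable def hom : k[X][X][X] →+* k[X][X][X] :=
  eval₂RingHom (eval₂RingHom (eval₂RingHom (C.comp (C.comp C)) (C (C X) * X)) X) (C X * X)

variable (k) in
/-- The substitution `s ↦ s + x + y`. -/
noncomputable def sg : k[X][X][X] →+* k[X][X][X] :=
  eval₂RingHom (eval₂RingHom (eval₂RingHom (C.comp (C.comp C)) (C (C X) + C X + X)) (C X)) X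

/-- `δ` is the total degree of `Q` and `g₁`, `g₂`, `g₃` are the multiplicities of the three
trivial lines in its top form. -/
structure Nm (Q : k[X][X][X]) (δ g₁ g₂ g₃ : ℕ) : Prop where
  deg : (hom k Q).natDegree = δ
  fac : ∃ T : k[X][X], (hom k Q).leadingCoeff = (X + 1) ^ g₁ * (X + 1 + C X) ^ g₂ * C X ^ g₃ * T ∧
    ¬ (X + 1) ∣ T ∧ ¬ (X + 1 + C X) ∣ T ∧ ¬ C X ∣ T

theorem tt_add (j : ℕ) : tt j + 2 ^ j = 2 ^ j * 2 ^ j + 1 := by
  have : 2 ^ j ≤ 4 ^ j := Nat.pow_le_pow_left (by norm_num) j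
  have h : 4 ^ j = 2 ^ j * 2 ^ j := by rw [← mul_pow]; rfl
  rw [tt]; omega

theorem tt_ge {j : ℕ} (h : 2 ≤ j) : 13 ≤ tt j := by
  have h1 := tt_add j
  have h2 : 2 ^ 2 ≤ 2 ^ j := Nat.pow_le_pow_right two_pos h
  nlinarith

theorem odd_tt {j : ℕ} (h : 1 ≤ j) : Odd (tt j) := by
  have h1 := tt_add j
  obtain ⟨i, rfl⟩ : ∃ i, j = i + 1 := ⟨j - 1, by omega⟩
  rw [pow_succ] at h1
  exact ⟨2 * (2 ^ i * 2 ^ i) - 2 ^ i, by
    have : 2 ^ i ≤ 2 ^ i * 2 ^ i := Nat.le_mul_self _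
    have e : 2 ^ i * 2 * (2 ^ i * 2) = 4 * (2 ^ i * 2 ^ i) := by ring
    omega⟩

variable {f : k[X]} {r j a : ℕ} {I : Finset ℕ}

theorem Ed.two_le (h : Ed f r j a I) : 2 ≤ 2 ^ a := by
  simpa using Nat.pow_le_pow_right two_pos h.a1

theorem Ed.lt (h : Ed f r j a I) : dg f 1 < dg f (2 ^ a) :=
  (Nat.le_mul_of_pos_left _ (by positivity)).trans_lt h.wild

/-- The degrees on the edge are at least the first one. -/
theorem Ed.dg_ge (h : Ed f r j a I) {c : ℕ} (hc : c ∈ I) : dg f 1 ≤ dg f (2 ^ c) := by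
  have h1 := h.on c hc
  have h2 : (0 : ℤ) < 2 ^ a - 1 := by
    have : (2 : ℤ) ≤ 2 ^ a := by exact_mod_cast h.two_le
    omega
  have h3 : (0 : ℤ) ≤ 2 ^ c - 1 := by
    have : (0 : ℤ) < 2 ^ c := by positivity
    omega
  have h4 : (0 : ℤ) < (dg f (2 ^ a) : ℤ) - dg f 1 := by have := h.lt; omega
  have : (0 : ℤ) ≤ (dg f (2 ^ c) : ℤ) - dg f 1 :=
    nonneg_of_mul_nonneg_left (by rw [h1]; exact mul_nonneg h4.le h3) h2
  omega

theorem Ed.dg_ne (h : Ed f r j a I) {c : ℕ} (hc : c ∈ I) : dg f (2 ^ c) ≠ 0 := by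
  have := h.dg_ge hc
  have := h.pos
  omega

theorem Ed.cc_ne (h : Ed f r j a I) {c : ℕ} (hc : c ∈ I) : cc f c ≠ 0 :=
  leadingCoeff_ne_zero.2 fun e => h.dg_ne hc (by rw [dg, e, natDegree_zero])

end alg

/-- A wild exceptional polynomial of Kasami degree together with the place. -/
structure St (k k₁ Ω : Type) [Field k] [Field k₁] [Field Ω] [Algebra k k₁] [Algebra k Ω]
    [Algebra k₁ Ω] where
  φ : k ≃+* k
  f : k[X]
  r : ℕ
  j : ℕ
  a : ℕ
  I : Finset ℕ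
  V₁ : Val k k₁
  V : Val k₁ Ω
  g : Ω ≃+* Ω
  ctx : Ctx φ f
  ed : Ed f r j a I
  ov : Ov φ g
  gv : ∀ x, V.v (g x) = V.v x
  gτ : g V.τ = V.τ
  gz : g (algebraMap k₁ Ω V₁.τ) = algebraMap k₁ Ω V₁.τ

theorem exists_st {k : Type} [Field k] [IsAlgClosed k] {φ : k ≃+* k} {f : k[X]} {r j a : ℕ}
    {I : Finset ℕ} (hc : Ctx φ f) (he : Ed f r j a I) :
    ∃ (k₁ Ω : Type) (_ : Field k₁) (_ : IsAlgClosed k₁) (_ : Field Ω) (_ : IsAlgClosed Ω)
      (_ : Algebra k k₁) (_ : Algebra k Ω) (_ : Algebra k₁ Ω) (_ : IsScalarTower k k₁ Ω),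
      Nonempty (St k k₁ Ω) := by
  obtain ⟨k₁, _, _, _, V₁, g₁, a1, a2, -⟩ := existsVal k φ
  obtain ⟨Ω, _, _, _, V, g, b1, b2, b3⟩ := existsVal k₁ g₁
  let _ : Algebra k Ω := ((algebraMap k₁ Ω).comp (algebraMap k k₁)).toAlgebra
  have : IsScalarTower k k₁ Ω := IsScalarTower.of_algebraMap_eq fun _ => rfl
  exact ⟨k₁, Ω, _, ‹_›, _, ‹_›, _, _, _, this, ⟨⟨φ, f, r, j, a, I, V₁, V, g, hc, he, fun c => by
    rw [IsScalarTower.algebraMap_apply k k₁ Ω, b2, a2, ← IsScalarTower.algebraMap_apply], b3, b1,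
    by rw [b2, a1]⟩⟩⟩

namespace St

variable {k k₁ Ω : Type} [Field k] [Field k₁] [Field Ω] [Algebra k k₁] [Algebra k Ω]
  [Algebra k₁ Ω] (S : St k k₁ Ω)

/-- The small element of the residue field. -/
def z : k₁ := S.V₁.τ

/-- The logarithmic size of `x`. -/
def p : ℕ := 2 ^ S.a - 1

/-- Minus the logarithmic size of the first level. -/
noncomputable def w : ℕ := dg S.f (2 ^ S.a) - dg S.f 1

/-- The base point. -/
noncomputable def x : Ω := S.V.τ ^ (-(S.p : ℤ))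

/-- The direction; `x + s = z x`. -/
noncomputable def s : Ω := algebraMap k₁ Ω (1 + S.z) * S.x

/-- The radius of the first level. -/
noncomputable def μ : Ω := S.V.τ ^ S.w

/-- The size of the differences of `f` on the first level. -/
noncomputable def b : Ω := S.x ^ dg S.f 1 * S.μ

/-- The roots. -/
noncomputable def R : Finset Ω := Rts S.f S.s S.x

open Classical in
/-- The roots of a surface. -/
noncomputable def rt (Q : k[X][X][X]) : Finset Ω := (Q.map (ev2 S.s S.x)).roots.toFinset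

/-- `y / x` has the residue `U`. -/
def Res (y : Ω) (U : k₁) : Prop := S.V.v (y / S.x - algebraMap k₁ Ω U) < 1

/-- Far from `x` and from `x + s`. -/
def Far (y : Ω) : Prop := ¬ S.Res y 1 ∧ ¬ S.Res y S.z

/-- The first level. -/
def Cl (y y' : Ω) : Prop := S.V.v (y' - y) ≤ S.V.v S.μ

/-- The initial form of `f (x U + θ) + f (x U)` on the first level. -/
noncomputable def gp (U : k₁) : k₁[X] := ap S.I (gc S.f U)

open Classical in
/-- The kernel `log (R / max (|y - y'|, |μ|))`. -/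
noncomputable def K (y y' : Ω) : ℝ := if S.Cl y y' then S.p + S.w else S.p - lg S.V (y' - y)

theorem hf : (derivative S.f).natDegree ≠ 0 := S.ctx.deg

theorem p_add : S.p + 1 = 2 ^ S.a := by
  have := S.ed.two_le
  rw [p]; omega

theorem p_pos : 0 < S.p := by
  have := S.ed.two_le
  have := S.p_add
  omega

theorem w_add : S.w + dg S.f 1 = dg S.f (2 ^ S.a) := by
  have := S.ed.lt
  rw [w]; omega

theorem w_gt : S.p * dg S.f 1 < S.w := by
  have h1 := S.ed.wild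
  rw [← S.w_add, ← S.p_add] at h1
  nlinarith

/-- The points of the edge. -/
theorem on {c : ℕ} (hc : c ∈ S.I) :
    S.p * dg S.f (2 ^ c) + S.w = S.p * dg S.f 1 + S.w * 2 ^ c := by
  have h1 := S.ed.on c hc
  have h2 : (2 : ℤ) ^ S.a = S.p + 1 := by exact_mod_cast S.p_add.symm
  rw [← S.w_add, h2] at h1
  zify
  push_cast at h1
  linear_combination h1

/-- The points below the edge. -/
theorem off {i : ℕ} (hi : 1 ≤ i) (h : ∀ c ∈ S.I, i ≠ 2 ^ c) :
    S.p * dg S.f i + S.w < S.p * dg S.f 1 + S.w * i := by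
  have h1 := S.ed.off i hi h
  have h2 : (2 : ℤ) ^ S.a = S.p + 1 := by exact_mod_cast S.p_add.symm
  rw [← S.w_add, h2] at h1
  zify
  push_cast at h1
  linarith

theorem z_ne : S.z ≠ 0 := S.V₁.τ_ne

theorem z_lt : S.V₁.v S.z < 1 := S.V₁.τ_lt

theorem z_trans : Transcendental k S.z := S.V₁.transcendental_τ

theorem z1_trans : Transcendental k (1 + S.z) := by
  simpa [z] using transcendental_add_tau (V := S.V₁) 1

theorem z_pow_ne {n : ℕ} (hn : n ≠ 0) : S.z ^ n ≠ 1 := fun h => by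
  have := pow_lt_one₀ zero_le S.z_lt hn
  rw [← map_pow, h, map_one] at this
  exact lt_irrefl _ this

theorem z_ne_one : S.z ≠ 1 := by simpa using S.z_pow_ne one_ne_zero

theorem z1_ne : 1 + S.z ≠ 0 := fun h => S.z1_trans (h ▸ isAlgebraic_zero)

theorem x_ne : S.x ≠ 0 := zpow_ne_zero _ S.V.τ_ne

theorem μ_ne : S.μ ≠ 0 := pow_ne_zero _ S.V.τ_ne

theorem b_ne : S.b ≠ 0 := mul_ne_zero (pow_ne_zero _ S.x_ne) S.μ_ne

theorem s_ne : S.s ≠ 0 := mul_ne_zero ((_root_.map_ne_zero _).2 S.z1_ne) S.x_ne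

theorem lg_x : lg S.V S.x = S.p := by
  rw [x, lg_zpow, lg_tau]; simp

theorem lg_μ : lg S.V S.μ = -S.w := by
  rw [μ, lg_pow, lg_tau]; simp

theorem lg_b : lg S.V S.b = S.p * dg S.f 1 - S.w := by
  rw [b, lg_mul (pow_ne_zero _ S.x_ne) S.μ_ne, lg_pow, lg_x, lg_μ]; ring

theorem v_s : S.V.v S.s = S.V.v S.x := by
  rw [s, map_mul, S.V.const _ S.z1_ne, one_mul]

theorem one_lt_x : 1 < S.V.v S.x :=
  (one_lt_v_iff S.x_ne).2 (by rw [lg_x]; exact_mod_cast S.p_pos)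

theorem μ_lt_one : S.V.v S.μ < 1 :=
  (W48.v_lt_one_iff S.μ_ne).2 (by
    have : 0 < S.w := (Nat.zero_le _).trans_lt S.w_gt
    rw [lg_μ, neg_lt_zero]; exact_mod_cast this)

theorem μ_lt_x : S.V.v S.μ < S.V.v S.x := S.μ_lt_one.trans S.one_lt_x

theorem g_x : S.g S.x = S.x := by rw [x, map_zpow₀, S.gτ]

theorem g_μ : S.g S.μ = S.μ := by rw [μ, map_pow, S.gτ]

theorem g_s : S.g S.s = S.s := by
  rw [s, map_mul, g_x, map_add, map_one, map_add, map_one, z, S.gz]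

variable {S}

theorem res_iff {y : Ω} {U : k₁} :
    S.Res y U ↔ S.V.v (y - algebraMap k₁ Ω U * S.x) < S.V.v S.x := by
  have h : y / S.x - algebraMap k₁ Ω U = (y - algebraMap k₁ Ω U * S.x) / S.x := by
    have := S.x_ne
    field_simp
  rw [Res, h, map_div₀, div_lt_one ((S.V.v.pos_iff).2 S.x_ne)]

theorem Res.unique {y : Ω} {U U' : k₁} (h : S.Res y U) (h' : S.Res y U') : U = U' :=
  S.V.res_unique' h h'

theorem Res.le {y : Ω} {U : k₁} (h : S.Res y U) : S.V.v y ≤ S.V.v S.x := by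
  have := S.V.le_one_of_res h
  rwa [map_div₀, div_le_one ((S.V.v.pos_iff).2 S.x_ne)] at this

theorem exists_res {y : Ω} (h : S.V.v y ≤ S.V.v S.x) : ∃ U, S.Res y U :=
  S.V.res _ (by rwa [map_div₀, div_le_one ((S.V.v.pos_iff).2 S.x_ne)])

theorem Res.add {y y' : Ω} {U U' : k₁} (h : S.Res y U) (h' : S.Res y' U') :
    S.Res (y + y') (U + U') := by
  rw [Res, add_div]
  exact S.V.res_add h h'

/-- Two points with the same residue are closer than `R`. -/
theorem Res.sub_lt {y y' : Ω} {U : k₁} (h : S.Res y U) (h' : S.Res y' U) :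
    S.V.v (y' - y) < S.V.v S.x := by
  have := S.V.v.map_sub_lt (res_iff.1 h') (res_iff.1 h)
  rwa [sub_sub_sub_cancel_right] at this

theorem Res.of_lt {y y' : Ω} {U : k₁} (h : S.Res y U) (h' : S.V.v (y' - y) < S.V.v S.x) :
    S.Res y' U := by
  have := S.V.v.map_add_lt h' (res_iff.1 h)
  rw [sub_add_sub_cancel] at this
  exact res_iff.2 this

theorem Res.of_cl {y y' : Ω} {U : k₁} (h : S.Res y U) (h' : S.Cl y y') : S.Res y' U :=
  h.of_lt (lt_of_le_of_lt h' S.μ_lt_x)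

theorem Cl.refl (y : Ω) : S.Cl y y := by simp [Cl]

theorem Cl.symm {y y' : Ω} (h : S.Cl y y') : S.Cl y' y := by
  rw [Cl, Valuation.map_sub_swap]; exact h

variable (S)

theorem res_x : S.Res S.x 1 := res_iff.2 (by simpa using (S.V.v.pos_iff).2 S.x_ne)

theorem res_s : S.Res S.s (1 + S.z) := res_iff.2 (by simpa [s] using (S.V.v.pos_iff).2 S.x_ne)

theorem K_symm (y y' : Ω) : S.K y y' = S.K y' y := by
  by_cases h : S.Cl y y'
  · rw [K, K, if_pos h, if_pos h.symm]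
  · rw [K, K, if_neg h, if_neg fun e => h e.symm, lg_congr (S.V.v.map_sub_swap y' y)]

theorem K_self (y : Ω) : S.K y y = S.p + S.w := if_pos (Cl.refl y)

variable [IsScalarTower k k₁ Ω]

theorem gp_pair : GP k S.V S.s S.x :=
  gauss_pair S.V S.z1_trans _ _ (by have := S.p_pos; omega)

theorem gen : Gen k S.s S.x := S.gp_pair.gen S.s_ne S.x_ne

/-- Nonzero polynomials are large at the place. -/
theorem one_le_ev2 {P : k[X][X]} (hP : P ≠ 0) : 1 ≤ S.V.v (ev2 S.s S.x P) := by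
  refine le_trans ?_ (S.gp_pair P P.leadingCoeff.natDegree P.natDegree (by simpa using hP))
  rw [map_mul, map_pow, map_pow, v_s]
  exact one_le_mul_of_one_le_of_one_le (one_le_pow₀ S.one_lt_x.le) (one_le_pow₀ S.one_lt_x.le)

theorem mem_rt {Q : k[X][X][X]} (hQ : Q ≠ 0) {y : Ω} : y ∈ S.rt Q ↔ ev3 S.s S.x y Q = 0 := by
  classical
  rw [rt, Multiset.mem_toFinset, mem_roots ((Polynomial.map_ne_zero_iff S.gen).2 hQ), ev3_eq]
  rfl

variable [CharP k 2]

theorem res_xs : S.Res (S.x + S.s) S.z := by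
  have := charP k k₁
  have h := S.res_x.add S.res_s
  rwa [← add_assoc, CharTwo.add_self_eq_zero, zero_add] at h

theorem rt_FF : S.rt (FF S.f) = S.R := rfl

theorem mem_R {y : Ω} : y ∈ S.R ↔ ev3 S.s S.x y (FF S.f) = 0 := S.gen.mem_Rts S.hf

theorem x_mem : S.x ∈ S.R := S.gen.self_mem S.hf

theorem rt_subset {Q : k[X][X][X]} (hQ : Q ∣ FF S.f) : S.rt Q ⊆ S.R := fun y hy => by
  obtain ⟨P, hP⟩ := hQ
  have h0 : Q ≠ 0 := fun e => FF_ne_zero S.hf (by rw [hP, e, zero_mul])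
  rw [S.mem_R, hP, map_mul, (S.mem_rt h0).1 hy, zero_mul]

theorem card_rt [IsAlgClosed Ω] {Q : k[X][X][X]} (hQ : Q ∣ FF S.f) :
    (S.rt Q).card = Q.natDegree := S.gen.card_roots S.hf hQ

theorem coh [IsAlgClosed Ω] : Coh S.R (col k S.s) (Ideal.map (mp3 (S.φ : k →+* k))) :=
  cohLemma transfer k S.φ S.f S.ctx Ω S.s S.x S.gen

end St

end W27

end Pool.Agent.Lib.MP_346d6a_co
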