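import Mathlib

/-!
The Euclidean algorithm for additive polynomials.
-/

namespace Pool.Agent.Lib.MP_346d6a_co

open Polynomial

namespace W64

variable {K : Type} [Field K]

/-- The additive polynomial with coefficients `p 0, …, p a`. -/
noncomputable def AP (a : ℕ) (p : ℕ → K) : K[X] :=
  ∑ i ∈ Finset.range (a + 1), monomial (2 ^ i) (p i)

/-- Additive polynomials. -/
def Adv (P : K[X]) : Prop := ∀ e, P.coeff e ≠ 0 → ∃ i, e = 2 ^ i

theorem Adv.ind {P : K[X]} (h : Adv P) {M : K[X] → Prop} (h0 : M 0)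
    (h1 : ∀ i c, M (monomial (2 ^ i) c)) (h2 : ∀ p q, M p → M q → M (p + q)) : M P := by
  rw [P.as_sum_support]
  refine Finset.sum_induction _ M h2 h0 fun e he => ?_
  obtain ⟨i, rfl⟩ := h e (mem_support_iff.1 he)
  exact h1 _ _

theorem adv_zero : Adv (0 : K[X]) := fun _ h => absurd rfl h

theorem adv_monomial (i : ℕ) (c : K) : Adv (monomial (2 ^ i) c) := fun e h => by
  rw [coeff_monomial] at h
  split_ifs at h with h1
  · exact ⟨i, h1.symm⟩
  · exact absurd rfl h

theorem adv_lin (c : K) : Adv (C c * X) := by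
  simpa [← C_mul_X_pow_eq_monomial] using adv_monomial 0 c

theorem adv_X : Adv (X : K[X]) := by simpa using adv_lin (1 : K)

theorem Adv.add {P Q : K[X]} (h : Adv P) (h' : Adv Q) : Adv (P + Q) := fun e he => by
  by_cases h1 : P.coeff e = 0
  · exact h' e (by rwa [coeff_add, h1, zero_add] at he)
  · exact h e h1

theorem adv_AP (a : ℕ) (p : ℕ → K) : Adv (AP a p) :=
  Finset.sum_induction _ Adv (fun _ _ => Adv.add) adv_zero fun _ _ => adv_monomial _ _

theorem coeff_AP (a : ℕ) (p : ℕ → K) (i : ℕ) :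
    (AP a p).coeff (2 ^ i) = if i ∈ Finset.range (a + 1) then p i else 0 := by
  rw [AP, finsetSum_coeff]
  simp only [coeff_monomial, Nat.pow_right_inj (one_lt_two), Finset.sum_ite_eq']

theorem Adv.comp_zero {P : K[X]} (h : Adv P) : P.comp 0 = 0 :=
  h.ind (M := fun P => P.comp 0 = 0) zero_comp (fun i c => by simp)
    fun p q hp hq => by rw [add_comp, hp, hq, add_zero]

theorem Adv.deg {P : K[X]} (h : Adv P) (h0 : P ≠ 0) : ∃ i, P.natDegree = 2 ^ i :=
  h _ (leadingCoeff_ne_zero.2 h0)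

theorem Adv.eq_AP {P : K[X]} (h : Adv P) {a : ℕ} (ha : P.natDegree ≤ 2 ^ a) :
    P = AP a fun i => P.coeff (2 ^ i) := by
  ext e
  by_cases he : ∃ i, e = 2 ^ i
  · obtain ⟨i, rfl⟩ := he
    rw [coeff_AP]
    split_ifs with hi
    · rfl
    · exact coeff_eq_zero_of_natDegree_lt (ha.trans_lt (Nat.pow_lt_pow_right one_lt_two
        (by simpa using hi)))
  · rw [not_not.1 fun e1 => he (h e e1), not_not.1 fun e1 => he (adv_AP _ _ e e1)]

variable [CharP K 2]

theorem Adv.comp_add {P : K[X]} (h : Adv P) (A B : K[X]) : P.comp (A + B) = P.comp A + P.comp B :=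
  h.ind (M := fun P => P.comp (A + B) = P.comp A + P.comp B) (by simp)
    (fun i c => by simp only [monomial_comp, add_pow_char_pow, mul_add])
    fun p q hp hq => by simp only [add_comp, hp, hq]; ring

theorem Adv.comp {P A : K[X]} (h : Adv P) (hA : Adv A) : Adv (P.comp A) :=
  h.ind (M := fun P => Adv (P.comp A)) (by simpa using adv_zero)
    (fun i c => hA.ind (M := fun A => Adv ((monomial (2 ^ i) c).comp A))
      (by rw [(adv_monomial i c).comp_zero]; exact adv_zero)
      (fun j b => by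
        rw [monomial_comp, monomial_pow, C_mul_monomial, ← pow_add]
        exact adv_monomial _ _)
      fun p q hp hq => by rw [(adv_monomial i c).comp_add]; exact hp.add hq)
    fun p q hp hq => by rw [add_comp]; exact hp.add hq

omit [CharP K 2] in
theorem Adv.aeval_add {P : K[X]} (h : Adv P) {R : Type} [CommRing R] [Algebra K R] [CharP R 2]
    (x y : R) : aeval (x + y) P = aeval x P + aeval y P :=
  h.ind (M := fun P => aeval (x + y) P = aeval x P + aeval y P) (by simp)
    (fun i c => by simp only [aeval_monomial, add_pow_char_pow, mul_add])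
    fun p q hp hq => by simp only [map_add, hp, hq]; ring

/-- The values of the adjoint. -/
def adj (p : ℕ → K) (w : K) : ℕ → K
  | 0 => p 0 * w
  | i + 1 => adj p w i ^ 2 + p (i + 1) * w

theorem adj_eq (p : ℕ → K) (w : K) (a : ℕ) :
    adj p w a = ∑ i ∈ Finset.range (a + 1), (p i * w) ^ 2 ^ (a - i) := by
  induction a with
  | zero => simp [adj]
  | succ a ih =>
    rw [adj, ih, Finset.sum_range_succ _ (a + 1), CharTwo.sum_sq, Nat.sub_self, pow_zero, pow_one]
    congr 1
    refine Finset.sum_congr rfl fun i hi => ?_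
    rw [← pow_mul, ← pow_succ, Nat.succ_sub (Nat.lt_succ_iff.1 (Finset.mem_range.1 hi))]

theorem mul_AP (p : ℕ → K) (w : K) (a : ℕ) : ∃ h : K[X],
    C w * AP a p = h ^ 2 + h + monomial (2 ^ a) (adj p w a) := by
  induction a with
  | zero => exact ⟨0, by simp [AP, adj, C_mul_monomial, mul_comm]⟩
  | succ a ih =>
    obtain ⟨h, e⟩ := ih
    refine ⟨h + monomial (2 ^ a) (adj p w a), ?_⟩
    rw [AP, Finset.sum_range_succ, ← AP, mul_add, e, CharTwo.add_sq, monomial_pow, ← pow_succ, adj,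
      map_add, C_mul_monomial, mul_comm w]
    linear_combination
      -(CharTwo.two_eq_zero (R := K[X])) * monomial (2 ^ (a + 1)) (adj p w a ^ 2)

variable [IsAlgClosed K]

theorem adj_zero {p : ℕ → K} {w : K} {a : ℕ} {h : K[X]} (e : C w * AP a p = h ^ 2 + h) :
    adj p w a = 0 := by
  obtain ⟨h', e'⟩ := mul_AP p w a
  by_contra hc
  have e1 : (h + h') * (h + h' + 1) = monomial (2 ^ a) (adj p w a) := by
    linear_combination e' - e + (CharTwo.two_eq_zero (R := K[X])) * (h * h' + h' ^ 2 + h')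
  have hd : (h + h').degree ≠ 0 := fun e2 => by
    have := congrArg natDegree e1
    rw [eq_C_of_degree_eq_zero e2, ← C_1, ← C_add, ← C_mul, natDegree_C,
      natDegree_monomial_eq _ hc] at this
    exact (pow_pos two_pos a).ne this
  have hd' : (h + h' + 1).degree ≠ 0 := fun e2 => by
    have e3 := eq_C_of_degree_eq_zero e2
    have := congrArg natDegree e1
    rw [eq_sub_of_add_eq e3, sub_add_cancel, ← C_1, ← C_sub, ← C_mul, natDegree_C,
      natDegree_monomial_eq _ hc] at this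
    exact (pow_pos two_pos a).ne this
  have key : ∀ x : K, ((h + h') * (h + h' + 1)).eval x = 0 → x = 0 := fun x hx => by
    rw [e1, eval_monomial] at hx
    exact pow_eq_zero_iff (pow_pos two_pos a).ne' |>.1 ((mul_eq_zero.1 hx).resolve_left hc)
  obtain ⟨x, hx⟩ := IsAlgClosed.exists_root _ hd
  obtain ⟨y, hy⟩ := IsAlgClosed.exists_root _ hd'
  obtain rfl := key x (by rw [eval_mul, hx.eq_zero, zero_mul])
  obtain rfl := key y (by rw [eval_mul, hy.eq_zero, mul_zero])
  rw [IsRoot, eval_add, hx.eq_zero, zero_add, eval_one] at hy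
  exact one_ne_zero hy

theorem exists_adj (p : ℕ → K) (a : ℕ) (h0 : p 0 ≠ 0) (h1 : p (a + 1) ≠ 0) :
    ∃ w, w ≠ 0 ∧ adj p w (a + 1) = 0 := by
  let u : K[X] := ∑ i ∈ Finset.range (a + 2), monomial (2 ^ (a + 1 - i) - 1) (p i ^ 2 ^ (a + 1 - i))
  have hc : ∀ j ∈ Finset.range (a + 2), u.coeff (2 ^ (a + 1 - j) - 1) = p j ^ 2 ^ (a + 1 - j) :=
    fun j hj => by
      rw [finsetSum_coeff, Finset.sum_eq_single j (fun i hi hij => ?_) fun e => absurd hj e,
        coeff_monomial, if_pos rfl]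
      rw [coeff_monomial, if_neg fun e => hij ?_]
      have h2 := Nat.two_pow_pos (a + 1 - i)
      have h3 := Nat.two_pow_pos (a + 1 - j)
      have := (Nat.pow_right_inj one_lt_two).1 (by omega : 2 ^ (a + 1 - i) = 2 ^ (a + 1 - j))
      rw [Finset.mem_range] at hi hj
      omega
  have hd : u.degree ≠ 0 := fun e => by
    have := hc 0 (by simp)
    rw [eq_C_of_degree_eq_zero e, coeff_C, if_neg (by
      have := Nat.one_lt_two_pow (n := a + 1 - 0) (by omega)
      omega)] at this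
    exact pow_ne_zero _ h0 this.symm
  obtain ⟨w, hw⟩ := IsAlgClosed.exists_root _ hd
  refine ⟨w, fun e => ?_, ?_⟩
  · have := hc (a + 1) (by simp)
    rw [Nat.sub_self, pow_zero, pow_one, Nat.sub_self, coeff_zero_eq_eval_zero, ← e, hw.eq_zero]
      at this
    exact h1 this.symm
  · have := congrArg (· * w) hw.eq_zero
    simp only [u, eval_finsetSum, eval_monomial, Finset.sum_mul, zero_mul] at this
    rw [adj_eq, ← this]
    refine Finset.sum_congr rfl fun i _ => ?_
    rw [mul_pow, mul_assoc, ← pow_succ, Nat.sub_add_cancel Nat.one_le_two_pow]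

/-- The left greatest common divisor. -/
theorem exists_gcd (n : ℕ) : ∀ P Q : K[X], P.natDegree + Q.natDegree = n → Adv P → Adv Q →
    ∃ A₁ A₂ B P' Q' : K[X], Adv A₁ ∧ Adv A₂ ∧ Adv B ∧ Adv P' ∧ Adv Q' ∧
      P.comp A₁ + Q.comp A₂ = B ∧ P = B.comp P' ∧ Q = B.comp Q' := by
  induction n using Nat.strong_induction_on with
  | _ n ih =>
  intro P Q hn hP hQ
  wlog hle : Q = 0 ∨ (P ≠ 0 ∧ Q.natDegree ≤ P.natDegree) generalizing P Q
  · obtain ⟨A₁, A₂, B, P', Q', h1, h2, h3, h4, h5, h6, h7, h8⟩ := this Q P (by omega) hQ hP (by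
      by_cases e : P = 0
      · exact Or.inl e
      · exact Or.inr ⟨fun e' => hle (Or.inl e'), le_of_not_ge fun e' => hle (Or.inr ⟨e, e'⟩)⟩)
    exact ⟨A₂, A₁, B, Q', P', h2, h1, h3, h5, h4, by rw [add_comm, h6], h8, h7⟩
  by_cases hQ0 : Q = 0
  · exact ⟨X, 0, P, X, 0, adv_X, adv_zero, hP, adv_X, adv_zero, by simp [hQ0], by simp,
      by rw [hQ0, hP.comp_zero]⟩
  obtain ⟨hP0, hle⟩ := hle.resolve_left hQ0
  obtain ⟨i, hi⟩ := hP.deg hP0
  obtain ⟨j, hj⟩ := hQ.deg hQ0
  obtain ⟨e, rfl⟩ : ∃ e, i = j + e := Nat.exists_eq_add_of_le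
    ((Nat.pow_le_pow_iff_right one_lt_two).1 (by rwa [← hi, ← hj]))
  obtain ⟨c, hc⟩ := IsAlgClosed.exists_pow_nat_eq (P.leadingCoeff / Q.leadingCoeff)
    (pow_pos two_pos j)
  have hq := leadingCoeff_ne_zero.2 hQ0
  have hc0 : c ≠ 0 := fun e0 => by
    rw [e0, zero_pow (pow_pos two_pos j).ne', eq_comm, div_eq_zero_iff] at hc
    exact hc.elim (leadingCoeff_ne_zero.2 hP0) hq
  have hM := adv_monomial e c
  set M : K[X] := monomial (2 ^ e) c with hMd
  have dM : M.natDegree = 2 ^ e := by rw [hMd, natDegree_monomial_eq _ hc0]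
  have dQ : (Q.comp M).natDegree = P.natDegree := by rw [natDegree_comp, dM, hj, hi, pow_add]
  have lQ : (Q.comp M).leadingCoeff = P.leadingCoeff := by
    rw [leadingCoeff_comp (by rw [dM]; exact (pow_pos two_pos e).ne'), hMd, leadingCoeff_monomial,
      hj, hc, mul_div_cancel₀ _ hq]
  have hlt : (P + Q.comp M).natDegree < P.natDegree := by
    rw [← CharTwo.sub_eq_add]
    by_cases e0 : P - Q.comp M = 0
    · rw [e0, natDegree_zero, hi]; positivity
    · refine natDegree_lt_natDegree e0 (degree_sub_lt_left ?_ hP0 lQ.symm)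
      rw [degree_eq_natDegree hP0, degree_eq_natDegree (leadingCoeff_ne_zero.1
        (lQ ▸ leadingCoeff_ne_zero.2 hP0)), dQ]
  obtain ⟨A₁, A₂, B, P', Q', h1, h2, h3, h4, h5, h6, h7, h8⟩ :=
    ih _ (by omega) (P + Q.comp M) Q rfl (hP.add (hQ.comp hM)) hQ
  refine ⟨A₁, M.comp A₁ + A₂, B, P' + Q'.comp M, Q', h1, (hM.comp h1).add h2, h3,
    h4.add (h5.comp hM), h5, ?_, ?_, h8⟩
  · rw [← h6, hQ.comp_add, add_comp, comp_assoc, add_assoc]
  · rw [h3.comp_add, ← h7, ← comp_assoc, ← h8, add_assoc, CharTwo.add_self_eq_zero, add_zero]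

theorem euc (a : ℕ) (p q : ℕ → K) (hq : q 0 ≠ 0)
    (h : ∀ w, ∑ i ∈ Finset.range (a + 1), (p i * w) ^ 2 ^ (a - i) = 0 →
      ∑ i ∈ Finset.range (a + 1), (q i * w) ^ 2 ^ (a - i) = 0 → w = 0) :
    ∃ A₁ A₂ : K[X], (AP a p).comp A₁ + (AP a q).comp A₂ = X ∧ Adv A₁ ∧ Adv A₂ := by
  obtain ⟨A₁, A₂, B, P', Q', h1, h2, h3, -, -, h6, h7, h8⟩ :=
    exists_gcd _ (AP a p) (AP a q) rfl (adv_AP _ _) (adv_AP _ _)
  have hB : B.coeff 1 ≠ 0 := fun e => by
    have d0 : derivative B = 0 := by
      ext i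
      rw [coeff_derivative, coeff_zero]
      by_contra e1
      obtain ⟨j, hj⟩ := h3 _ (left_ne_zero_of_mul e1)
      rcases j with _ | j
      · exact left_ne_zero_of_mul e1 (hj ▸ e)
      · refine right_ne_zero_of_mul e1 ?_
        have := (CharP.cast_eq_zero_iff K 2 (i + 1)).2 (hj ▸ dvd_pow_self 2 j.succ_ne_zero)
        exact_mod_cast this
    have := congrArg (fun P => (derivative P).coeff 0) h8
    simp only [derivative_comp, d0, zero_comp, mul_zero, coeff_derivative, coeff_zero] at this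
    have e2 := coeff_AP a q 0
    rw [pow_zero, if_pos (by simp)] at e2
    simp [e2, hq] at this
  have hB0 : B ≠ 0 := fun e => hB (by rw [e, coeff_zero])
  obtain ⟨m, hm⟩ := h3.deg hB0
  have hE := h3.eq_AP hm.le
  rcases m with _ | m
  · have hE' : B = C (B.coeff 1) * X := by
      conv_lhs => rw [hE]
      simp [AP, ← C_mul_X_pow_eq_monomial]
    refine ⟨A₁.comp (C (B.coeff 1)⁻¹ * X), A₂.comp (C (B.coeff 1)⁻¹ * X), ?_,
      h1.comp (adv_lin _), h2.comp (adv_lin _)⟩
    rw [← comp_assoc, ← comp_assoc, ← add_comp, h6]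
    conv_lhs => rw [hE']
    simp [← mul_assoc, ← C_mul, hB]
  · obtain ⟨w, hw, e⟩ := exists_adj (fun i => B.coeff (2 ^ i)) m (by simpa using hB)
      (by rw [← hm]; exact leadingCoeff_ne_zero.2 hB0)
    obtain ⟨g, hg⟩ := mul_AP (fun i => B.coeff (2 ^ i)) w (m + 1)
    rw [← hE, e, map_zero, add_zero] at hg
    have key : ∀ (r : ℕ → K) (R : K[X]), AP a r = B.comp R → adj r w a = 0 := fun r R e1 =>
      adj_zero (h := g.comp R) (by
        have := congrArg (·.comp R) hg
        simpa [← e1] using this)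
    exact absurd (h w (adj_eq p w a ▸ key p _ h7) (adj_eq q w a ▸ key q _ h8)) hw

end W64

end Pool.Agent.Lib.MP_346d6a_co
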