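import Pool.Agent.Lib.MP_346d6a_co.W27Def
import Pool.Agent.Lib.MP_346d6a_co.W64Euc

/-!
The Euclidean algorithm for additive polynomials.
-/

set_option maxSynthPendingDepth 3
set_option linter.unusedSectionVars false

namespace Pool.Agent.Lib.MP_346d6a_co

open Polynomial

namespace W27

open W48

variable {K : Type} [Field K] [IsAlgClosed K] [CharP K 2]

theorem euclid (I : Finset ℕ) (a : ℕ) (hI : ∀ c ∈ I, c ≤ a) (h0 : 0 ∈ I) (p q : ℕ → K)
    (hq : q 0 ≠ 0) (h : ∀ w, adj I a p w = 0 → adj I a q w = 0 → w = 0) :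
    ∃ A₁ A₂ : K[X], A₁.eval 0 = 0 ∧ A₂.eval 0 = 0 ∧
      (ap I p).comp A₁ + (ap I q).comp A₂ = X := by
  classical
  have hs : I ⊆ Finset.range (a + 1) := fun c hc => Finset.mem_range.2 (Nat.lt_succ_of_le (hI c hc))
  have e1 : ∀ p : ℕ → K, W64.AP a (fun c => if c ∈ I then p c else 0) = ap I p := fun p => by
    rw [W64.AP, ap, ← Finset.sum_subset hs fun c _ hc => by rw [if_neg hc, map_zero]]
    exact Finset.sum_congr rfl fun c hc => by rw [if_pos hc]
  have e2 : ∀ (p : ℕ → K) (w : K), ∑ i ∈ Finset.range (a + 1),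
      ((if i ∈ I then p i else 0) * w) ^ 2 ^ (a - i) = adj I a p w := fun p w => by
    rw [adj, ← Finset.sum_subset hs fun c _ hc => by
      rw [if_neg hc, zero_mul, zero_pow (by positivity)]]
    exact Finset.sum_congr rfl fun c hc => by rw [if_pos hc]
  obtain ⟨A₁, A₂, h1, h2, h3⟩ := W64.euc a (fun c => if c ∈ I then p c else 0)
    (fun c => if c ∈ I then q c else 0) (by rwa [if_pos h0]) fun w a b =>
      h w (by rw [← e2]; exact a) (by rw [← e2]; exact b)
  have e3 : ∀ A : K[X], W64.Adv A → A.eval 0 = 0 := fun A hA => by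
    rw [← coeff_zero_eq_eval_zero]
    by_contra hn
    obtain ⟨i, hi⟩ := hA 0 hn
    exact (pow_pos two_pos i).ne hi
  exact ⟨A₁, A₂, e3 _ h2, e3 _ h3, by rwa [e1, e1] at h1⟩

end W27

end Pool.Agent.Lib.MP_346d6a_co
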