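import Pool.Agent.Lib.MP_346d6a_co.W48Def

/-!
No common adjoint root.
-/

set_option maxSynthPendingDepth 3

namespace Pool.Agent.Lib.MP_346d6a_co

open Polynomial

namespace W64

open W48

variable {k K : Type} [Field k] [Field K] [Algebra k K]

/-- Sizes in the equation `A ^ N Φ(A) ^ E = B ^ N Φ(B) ^ E`. -/
theorem near_root (V : Val k K) {Φ : k[X]} (h0 : Φ.eval 0 ≠ 0)
    (hs : ∀ r : k, r ≠ 0 → (derivative Φ).eval r ≠ 0) {A B : K} (hAB : V.v B < V.v A) {N E : ℕ}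
    (hN : N ≠ 0) (h : A ^ N * aeval A Φ ^ E = B ^ N * aeval B Φ ^ E) :
    V.v A = 1 ∧ ∃ r : k, r ≠ 0 ∧ V.v (A - algebraMap k K r) ^ E = V.v B ^ N := by
  have hΦ : Φ ≠ 0 := fun e => h0 (by rw [e, eval_zero])
  have small : ∀ x : K, V.v x < 1 → V.v (aeval x Φ) = 1 := fun x hx =>
    V.eq_one_of_res h0 (res_aeval (κ := 0) (by simpa using hx) Φ)
  have hv := congrArg V.v h
  simp only [map_mul, map_pow] at hv
  have hp := pow_lt_pow_left₀ hAB zero_le hN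
  rcases lt_trichotomy (V.v A) 1 with h1 | h1 | h1
  · rw [small A h1, small B (hAB.trans h1), one_pow, mul_one, mul_one] at hv
    exact absurd hv hp.ne'
  · refine ⟨h1, ?_⟩
    obtain ⟨r, hr⟩ := V.res A h1.le
    have r0 : r ≠ 0 := by
      rintro rfl
      simp [h1] at hr
    rw [h1, small B (h1 ▸ hAB), one_pow, one_pow, one_mul, mul_one] at hv
    have e0 : Φ.eval r = 0 := by
      by_contra e
      rw [V.eq_one_of_res e (res_aeval hr Φ), one_pow] at hv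
      rw [h1, one_pow] at hp
      exact hp.ne hv.symm
    obtain ⟨Ψ, rfl⟩ := dvd_iff_isRoot.2 e0
    have e1 : Ψ.eval r ≠ 0 := by simpa using hs r r0
    refine ⟨r, r0, ?_⟩
    rw [← hv, map_mul, map_mul, V.eq_one_of_res e1 (res_aeval hr Ψ), mul_one]
    simp
  · have h2 := V.v_aeval_le (k := k) h1.le hAB.le (p := Φ) le_rfl
    rw [V.v_aeval_of_one_lt h1 hΦ] at hv
    have h3 : 0 < (V.v A ^ Φ.natDegree) ^ E := pow_pos (pow_pos (zero_lt_one.trans h1) _) _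
    exact absurd hv (lt_of_le_of_lt (mul_le_mul_right (pow_le_pow_left₀ zero_le h2 E) _)
      (mul_lt_mul_of_pos_right hp h3)).ne'

theorem expo {a i e o D₀ D Da : ℕ} (hi : i ≤ a) (ha : 1 ≤ a) (ho : Odd o)
    (hd : Da = 2 ^ a * D₀ + 2 ^ e * o)
    (h : ((D : ℤ) - D₀) * (2 ^ a - 1) = ((Da : ℤ) - D₀) * (2 ^ i - 1)) :
    (2 ^ a - 1) * (2 ^ (a - i) * D) + 2 ^ e * o * 2 ^ (a - i) =
      (2 ^ a - 1) * (2 ^ a * D₀) + 2 ^ e * o * 2 ^ a ∧
    ∃ M, 2 ^ (a - i) * D = 2 ^ a * D₀ + 2 ^ e * M ∧ (i ≠ 0 → M ≠ 0) ∧ (i ≠ a → Even M) := by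
  obtain ⟨x, rfl⟩ := Nat.exists_eq_add_of_le hi
  rw [Nat.add_sub_cancel_left]
  have h1 : ((D : ℤ) - 2 ^ i * D₀) * (2 ^ (i + x) - 1) = 2 ^ e * (o * (2 ^ i - 1)) := by
    rw [hd] at h
    push_cast at h
    linear_combination h
  have oq : Odd ((2 : ℤ) ^ (i + x) - 1) := (Int.even_pow.2 ⟨even_two, by omega⟩).sub_odd odd_one
  refine ⟨?_, ?_⟩
  · zify [Nat.one_le_two_pow (n := i + x)]
    linear_combination 2 ^ x * h1
  obtain ⟨m, hm⟩ : (2 : ℤ) ^ e ∣ (D : ℤ) - 2 ^ i * D₀ :=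
    ((Int.isCoprime_two_left.2 oq).pow_left).dvd_of_dvd_mul_right ⟨_, h1⟩
  rw [hm, mul_assoc] at h1
  have h2 := mul_left_cancel₀ (by positivity) h1
  have q0 : (0 : ℤ) < 2 ^ (i + x) - 1 := sub_pos.2 (one_lt_pow₀ one_lt_two (by omega))
  have o0 : (0 : ℤ) < o := by exact_mod_cast ho.pos
  have i0 : (0 : ℤ) ≤ 2 ^ i - 1 := sub_nonneg.2 (one_le_pow₀ one_le_two)
  obtain ⟨m, rfl⟩ := Int.eq_ofNat_of_zero_le (nonneg_of_mul_nonneg_left
    (h2 ▸ mul_nonneg o0.le i0) q0)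
  refine ⟨2 ^ x * m, ?_, fun h3 => mul_ne_zero (by positivity) ?_, fun h3 =>
    (Nat.even_pow.2 ⟨even_two, by omega⟩).mul_right _⟩
  · zify
    linear_combination 2 ^ x * hm
  · rintro rfl
    have : (0 : ℤ) < 2 ^ i - 1 := sub_pos.2 (one_lt_pow₀ one_lt_two h3)
    have := mul_pos o0 this
    simp at h2
    omega

section mcm

variable [CharP k 2]

theorem mcm_id [CharP K 2] {j t : ℕ} (ht : t + 2 ^ j = 2 ^ j * 2 ^ j + 1) (y : K) :
    (1 + y ^ t + (y + 1) ^ t) * (y * (y + 1)) ^ 2 ^ j = (y ^ 2 ^ j + y) ^ (2 ^ j + 1) := by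
  have h1 : ∀ x : K, x ^ t * x ^ 2 ^ j = (x ^ 2 ^ j) ^ 2 ^ j * x := fun x => by
    rw [← pow_add, ht, pow_succ, pow_mul]
  have h2 := h1 (y + 1)
  have h3 := h1 y
  rw [pow_succ, mul_pow]
  simp only [add_pow_char_pow, one_pow] at h2 ⊢
  generalize y ^ 2 ^ j = a at *
  generalize a ^ 2 ^ j = b at *
  linear_combination a * h2 + (a + 1) * h3 + (CharTwo.two_eq_zero (R := K)) * (a + a * b * y)

omit [CharP k 2] in
theorem res_geom (V : Val k K) {x y : K} {c : k} (hx : V.v (x - algebraMap k K c) < 1)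
    (hy : V.v (y - algebraMap k K c) < 1) (t : ℕ) :
    V.v (∑ i ∈ Finset.range t, x ^ i * y ^ (t - 1 - i) - algebraMap k K (t * c ^ (t - 1))) < 1 := by
  rw [← geom_sum₂_self]
  exact V.res_sum _ fun i _ => V.res_mul (V.res_pow hx _) (V.res_pow hy _)

theorem small_eq (V : Val k K) {t : ℕ} (ht : Odd t) (h2 : 2 ≤ t) {y z : K} (hy : V.v y < 1)
    (hz : V.v z < 1) (h : y ^ t + (y + 1) ^ t = z ^ t + (z + 1) ^ t) : y = z := by
  have h3 := V.res_add (res_geom V (c := 0) (x := y) (y := z) (by simpa) (by simpa) t)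
    (res_geom V (c := 1) (x := y + 1) (y := z + 1) (by simpa) (by simpa) t)
  have h4 := V.eq_one_of_res (by
    rw [zero_pow (by omega), one_pow, mul_zero, zero_add, mul_one]
    exact fun e => Nat.not_even_iff_odd.2 ht
      (even_iff_two_dvd.2 ((CharP.cast_eq_zero_iff k 2 t).1 e))) h3
  have h5 := geom_sum₂_mul y z t
  have h6 := geom_sum₂_mul (y + 1) (z + 1) t
  refine sub_eq_zero.1 ((mul_eq_zero.1 (?_ : _ * (y - z) = 0)).resolve_left
    ((V.v.ne_zero_iff).1 (h4 ▸ one_ne_zero)))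
  linear_combination h5 + h6 + h

theorem mcm_core (V : Val k K) {j t : ℕ} (hj : 1 ≤ j) (ht : t + 2 ^ j = 2 ^ j * 2 ^ j + 1)
    {y z : K} (hz0 : z ≠ 0) (hz : V.v z < 1) (h : y ^ t + (y + 1) ^ t = z ^ t + (z + 1) ^ t)
    (h0 : y ≠ z) (h1 : y + 1 ≠ z) : ∃ β : k, β ≠ 0 ∧ β + 1 ≠ 0 ∧
      V.v (y - algebraMap k K β) < 1 ∧ V.v z ≤ V.v (y - algebraMap k K β) ^ (2 ^ j + 1) := by
  have := charP k K
  have hJ : 1 < 2 ^ j := Nat.one_lt_two_pow (by omega)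
  have ho : Odd t := by
    have e : Even (2 ^ j) := Nat.even_pow.2 ⟨even_two, by omega⟩
    have := (e.mul_right (2 ^ j)).add_one
    rwa [← ht, Nat.odd_add, iff_true_right e] at this
  have h2 : 2 ≤ t := by nlinarith
  have z0 : 0 < V.v z := (V.v.pos_iff).2 hz0
  have vz : V.v (1 + y ^ t + (y + 1) ^ t) = V.v z := by
    have e := congrArg V.v (mcm_id ht z)
    rw [map_mul, map_pow, map_pow, map_mul, V.v.map_add_eq_of_lt_right (y := 1) (by simpa),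
      V.v.map_add_eq_of_lt_right (x := z ^ 2 ^ j) (by
        rw [map_pow]; exact pow_lt_self_of_lt_one₀ z0 hz hJ), map_one, mul_one, pow_succ'] at e
    rw [add_assoc, h, ← add_assoc]
    exact mul_right_cancel₀ (pow_ne_zero _ z0.ne') e
  have e := congrArg V.v (mcm_id ht y)
  rw [map_mul, vz, map_pow, map_pow, map_mul] at e
  have hy : V.v y ≤ 1 := by
    by_contra e1
    rw [not_le] at e1
    rw [V.v.map_add_eq_of_lt_left (y := 1) (by simpa), V.v.map_add_eq_of_lt_left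
      (x := y ^ 2 ^ j) (by rw [map_pow]; exact lt_self_pow₀ e1 hJ), map_pow, ← pow_mul, ← pow_two,
      ← pow_mul] at e
    refine absurd e (lt_of_lt_of_le (mul_lt_of_lt_one_left (pow_pos (zero_lt_one.trans e1) _) hz)
      (pow_le_pow_right₀ e1.le (by nlinarith))).ne
  obtain ⟨β, hβ⟩ := V.res y hy
  have hβ1 := V.res_add hβ (V.res_const 1)
  rw [map_one] at hβ1
  have n0 : β ≠ 0 := by
    rintro rfl
    exact h0 (small_eq V ho h2 (by simpa using hβ) hz h)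
  have n1 : β + 1 ≠ 0 := fun e1 => h1 (small_eq V ho h2 (by simpa [e1] using hβ1) hz (by
    rw [← h, add_assoc y, CharTwo.add_self_eq_zero, add_zero, add_comm]))
  rw [V.eq_one_of_res n0 hβ, V.eq_one_of_res n1 hβ1, one_mul, one_pow, mul_one] at e
  refine ⟨β, n0, n1, hβ, e.le.trans (pow_le_pow_left₀ zero_le ?_ _)⟩
  have e2 : β ^ 2 ^ j + β = 0 := by
    by_contra e2
    rw [V.eq_one_of_res e2 (V.res_add (V.res_pow hβ _) hβ), one_pow] at e
    exact hz.ne e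
  have e3 : y ^ 2 ^ j + y = (y - algebraMap k K β) ^ 2 ^ j + (y - algebraMap k K β) := by
    have := congrArg (algebraMap k K) e2
    rw [map_add, map_pow, map_zero] at this
    rw [sub_pow_char_pow]
    linear_combination this
  rw [e3]
  refine V.v.map_add_le ?_ le_rfl
  rw [map_pow]
  exact pow_le_of_le_one zero_le hβ.le (by omega)

omit [CharP k 2] in
theorem far_le (V : Val k K) {z δ : K} (hz0 : z ≠ 0) (hz : V.v z < 1) (hδ : V.v δ < 1) {J : ℕ}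
    (hJ : 1 ≤ J) (h : V.v z ≤ V.v δ ^ (J + 1)) {c₀ c₁ : k} (c₂ : k) (hc : c₀ = 0 → c₁ ≠ 0) :
    V.v z ≤ V.v (algebraMap k K c₀ + (algebraMap k K c₁ * δ + algebraMap k K c₂ * z)) ^ (J + 1) := by
  have h2 : V.v (algebraMap k K c₂ * z) ≤ V.v z := by
    rw [map_mul]; exact mul_le_of_le_one_left zero_le (V.const_le _)
  by_cases e : c₀ = 0
  · have δ0 : 0 < V.v δ := by
      refine pos_of_ne_zero fun e0 => ?_
      rw [e0, zero_pow (by omega)] at h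
      exact ((V.v.pos_iff).2 hz0).not_ge h
    have h3 : V.v (algebraMap k K c₁ * δ) = V.v δ := by rw [map_mul, V.const _ (hc e), one_mul]
    rwa [e, map_zero, zero_add, V.v.map_add_eq_of_lt_left (h2.trans_lt (h.trans_lt
      ((pow_lt_self_of_lt_one₀ δ0 hδ (by omega)).trans_eq h3.symm))), h3]
  · have h3 : V.v (algebraMap k K c₁ * δ) < 1 := by
      rw [map_mul]; exact (mul_le_of_le_one_left zero_le (V.const_le _)).trans_lt hδ
    rw [V.v.map_add_eq_of_lt_left (by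
      rw [V.const _ e]; exact V.v.map_add_lt h3 (h2.trans_lt hz)), V.const _ e, one_pow]
    exact hz.le

/-- The residues of the far roots. -/
theorem mcm (V : Val k K) {j t : ℕ} (hj : 1 ≤ j) (ht : t + 2 ^ j = 2 ^ j * 2 ^ j + 1)
    {y z : K} (hz0 : z ≠ 0) (hz : V.v z < 1) (h : 1 + z ^ t + y ^ t + (y + 1 + z) ^ t = 0)
    (h0 : y ≠ z) (h1 : y ≠ 1) : V.v y = 1 ∧ V.v (y + 1 + z) = 1 ∧
      (∀ r₁ r₂ : k, r₁ ≠ 0 → r₂ ≠ 0 →
        V.v z ≤ V.v (algebraMap k K r₂ * 1 + algebraMap k K r₁ * y) ^ (2 ^ j + 1)) ∧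
      ∀ r₁ r₂ : k, r₁ ≠ 0 → r₂ ≠ 0 →
        V.v z ≤ V.v (algebraMap k K r₂ * y + algebraMap k K r₁ * (y + 1 + z)) ^ (2 ^ j + 1) := by
  have := charP k K
  have t2 := CharTwo.two_eq_zero (R := K)
  have vs : V.v (1 + z) = 1 := by rw [V.v.map_add_eq_of_lt_left (by simpa), map_one]
  have s0 : 1 + z ≠ 0 := (V.v.ne_zero_iff).1 (vs ▸ one_ne_zero)
  obtain ⟨Y, rfl⟩ : ∃ Y, y = (1 + z) * Y := ⟨y / (1 + z), (mul_div_cancel₀ _ s0).symm⟩
  obtain ⟨Z, hZ⟩ : ∃ Z, z = (1 + z) * Z := ⟨z / (1 + z), (mul_div_cancel₀ _ s0).symm⟩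
  have e1 : (1 + z) * (Z + 1) = 1 := by linear_combination -hZ + z * t2
  have e2 : (1 + z) * Y + 1 + z = (1 + z) * (Y + 1) := by ring
  have vZ : V.v Z = V.v z := by
    have := congrArg V.v hZ
    rw [map_mul, vs, one_mul] at this
    exact this.symm
  have Z0 : Z ≠ 0 := fun e => hz0 (by rw [hZ, e, mul_zero])
  obtain ⟨β, n0, n1, hβ, hle⟩ := mcm_core V hj ht (y := Y) Z0 (vZ ▸ hz)
    (mul_left_cancel₀ (pow_ne_zero t s0) (by
      rw [mul_add, mul_add, ← mul_pow, ← mul_pow, ← mul_pow, ← mul_pow, e1, ← hZ, ← e2, one_pow]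
      linear_combination h - (1 + z ^ t) * t2)) (fun e => h0 (by rw [e, ← hZ]))
    (fun e => h1 (by linear_combination e1 + (1 + z) * e - (1 + z) * t2))
  have hβ1 := V.res_add hβ (V.res_const 1)
  rw [map_one] at hβ1
  have hJ : 1 ≤ 2 ^ j := Nat.one_le_two_pow
  refine ⟨by rw [map_mul, vs, V.eq_one_of_res n0 hβ, one_mul],
    by rw [e2, map_mul, vs, V.eq_one_of_res n1 hβ1, one_mul], fun r₁ r₂ h₁ h₂ => ?_,
    fun r₁ r₂ h₁ h₂ => ?_⟩
  · have := far_le V Z0 (vZ ▸ hz) hβ hJ hle (c₀ := r₂ + r₁ * β) (c₁ := r₁) r₂ fun _ => h₁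
    rw [vZ] at this
    rw [← one_mul (V.v (_ + _)), ← vs, ← map_mul] at this
    refine this.trans_eq (congrArg (fun x => V.v x ^ _) ?_)
    rw [map_add, map_mul]
    linear_combination algebraMap k K r₂ * e1
  · have := far_le V Z0 (vZ ▸ hz) hβ hJ hle (c₀ := (r₂ + r₁) * β + r₁) (c₁ := r₂ + r₁) 0
      fun e e' => h₁ (by simpa [e'] using e)
    rw [vZ] at this
    rw [← one_mul (V.v (_ + _)), ← vs, ← map_mul] at this
    refine this.trans_eq (congrArg (fun x => V.v x ^ _) ?_)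
    simp only [map_add, map_mul, map_zero]
    ring

end mcm

variable [IsAlgClosed k] [CharP k 2] [IsAlgClosed K]

theorem nw (V : Val k K) {z U₁ U₂ w : K} (hz0 : z ≠ 0) (hz : V.v z < 1) (h1 : V.v U₁ = 1)
    (h2 : V.v U₂ = 1) {J : ℕ} (hU : ∀ r₁ r₂ : k, r₁ ≠ 0 → r₂ ≠ 0 →
      V.v z ≤ V.v (algebraMap k K r₂ * U₁ + algebraMap k K r₁ * U₂) ^ (J + 1))
    (I : Finset ℕ) (c : ℕ → k) (D : ℕ → ℕ) {a : ℕ} (ha1 : 1 ≤ a) (h0 : 0 ∈ I) (ha : a ∈ I)
    (hI : ∀ i ∈ I, i ≤ a ∧ c i ≠ 0 ∧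
      ((D i : ℤ) - D 0) * (2 ^ a - 1) = ((D a : ℤ) - D 0) * (2 ^ i - 1))
    (hD : D 0 ≠ 0) (hw : 2 ^ a * D 0 < D a)
    (two : ∀ e, 2 ^ e ∣ D a - 2 ^ a * D 0 → 2 ^ e < (J + 1) * (2 ^ a * D 0))
    (e₁ : ∑ i ∈ I, (algebraMap k K (c i) * w * U₁ ^ D i) ^ 2 ^ (a - i) =
      ∑ i ∈ I, (algebraMap k K (c i) * w * z ^ D i) ^ 2 ^ (a - i))
    (e₂ : ∑ i ∈ I, (algebraMap k K (c i) * w * U₂ ^ D i) ^ 2 ^ (a - i) =
      ∑ i ∈ I, (algebraMap k K (c i) * w * z ^ D i) ^ 2 ^ (a - i)) : w = 0 := by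
  classical
  by_contra w0
  have := charP k K
  obtain ⟨e, o, ho, hδ⟩ := Nat.exists_eq_two_pow_mul_odd (n := D a - 2 ^ a * D 0) (by omega)
  have hE := two e (hδ ▸ dvd_mul_right _ _)
  have hd : D a = 2 ^ a * D 0 + 2 ^ e * o := by omega
  have hx := fun i (hi : i ∈ I) => expo (hI i hi).1 ha1 ho hd (hI i hi).2.2
  choose! M hM hM0 hM1 using fun i hi => (hx i hi).2
  have M0 : M 0 = 0 := by simpa using hM 0 h0
  have Ma : M a = o := by
    have := hM a ha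
    rw [Nat.sub_self, pow_zero, one_mul, hd, add_right_inj] at this
    exact (Nat.eq_of_mul_eq_mul_left (Nat.two_pow_pos e) this).symm
  choose c' hc' using fun i => IsAlgClosed.exists_pow_nat_eq (c i ^ 2 ^ (a - i)) (Nat.two_pow_pos e)
  have c0 : ∀ i ∈ I, c' i ≠ 0 := fun i hi e0 => pow_ne_zero _ (hI i hi).2.1 (by
    rw [← hc', e0, zero_pow (Nat.two_pow_pos e).ne'])
  obtain ⟨σ, hσ⟩ := IsAlgClosed.exists_pow_nat_eq w⁻¹
    (mul_pos (Nat.two_pow_pos e) ho.pos)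
  have σ0 : σ ≠ 0 := by
    rintro rfl
    rw [zero_pow (mul_pos (Nat.two_pow_pos e) ho.pos).ne'] at hσ
    exact inv_ne_zero w0 hσ.symm
  set ρ := σ ^ (2 ^ a - 1) with hρ
  let Φ : k[X] := ∑ i ∈ I, monomial (M i) (c' i)
  have key : ∀ U : K, σ ^ ((2 ^ a - 1) * (2 ^ a * D 0) + 2 ^ e * o * 2 ^ a) *
      ∑ i ∈ I, (algebraMap k K (c i) * w * U ^ D i) ^ 2 ^ (a - i) =
      (ρ * U) ^ (2 ^ a * D 0) * aeval (ρ * U) Φ ^ 2 ^ e := fun U => by
    simp only [Φ, map_sum, aeval_monomial, sum_pow_char_pow, Finset.mul_sum]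
    refine Finset.sum_congr rfl fun i hi => ?_
    rw [← (hx i hi).1, pow_add, pow_mul σ (2 ^ e * o), hσ, pow_mul σ, ← hρ,
      mul_pow (algebraMap k K (c' i)), ← map_pow, hc', map_pow, ← pow_mul (ρ * U), mul_left_comm,
      ← pow_add (ρ * U), mul_comm (M i), ← hM i hi]
    simp only [mul_pow, inv_pow, ← pow_mul, mul_comm (D i)]
    field_simp
  have Φ0 : Φ.eval 0 ≠ 0 := by
    rw [eval_finsetSum, Finset.sum_eq_single 0 (fun i hi h => by
      rw [eval_monomial, zero_pow (hM0 i hi h), mul_zero]) fun h => absurd h0 h]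
    simpa [M0] using c0 0 h0
  have Φ1 : ∀ r : k, r ≠ 0 → (derivative Φ).eval r ≠ 0 := fun r hr => by
    rw [derivative_sum, Finset.sum_eq_single a (fun i hi h => by
      rw [derivative_monomial, (CharP.cast_eq_zero_iff k 2 _).2 (hM1 i hi h).two_dvd, mul_zero,
        map_zero]) fun h => absurd ha h, derivative_monomial, eval_monomial, Ma]
    exact mul_ne_zero (mul_ne_zero (c0 a ha) fun e0 => Nat.not_even_iff_odd.2 ho
      (even_iff_two_dvd.2 ((CharP.cast_eq_zero_iff k 2 o).1 e0))) (pow_ne_zero _ hr)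
  have ρ0 : 0 < V.v ρ := (V.v.pos_iff).2 (pow_ne_zero _ σ0)
  have N0 : 2 ^ a * D 0 ≠ 0 := by positivity
  have near : ∀ U : K, V.v U = 1 → ∑ i ∈ I, (algebraMap k K (c i) * w * U ^ D i) ^ 2 ^ (a - i) =
      ∑ i ∈ I, (algebraMap k K (c i) * w * z ^ D i) ^ 2 ^ (a - i) → V.v ρ = 1 ∧ ∃ r : k, r ≠ 0 ∧
      V.v (ρ * U - algebraMap k K r) ^ 2 ^ e = V.v z ^ (2 ^ a * D 0) := fun U hU1 eU => by
    obtain ⟨h3, r, h4, h5⟩ := near_root V Φ0 Φ1 (A := ρ * U) (B := ρ * z) (by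
      rw [map_mul, map_mul, hU1]; exact mul_lt_mul_of_pos_left hz ρ0) N0
      (by rw [← key, ← key, eU])
    rw [map_mul, hU1, mul_one] at h3
    exact ⟨h3, r, h4, by rw [h5, map_mul, h3, one_mul]⟩
  obtain ⟨hρ1, r₁, n₁, p₁⟩ := near U₁ h1 e₁
  obtain ⟨-, r₂, n₂, p₂⟩ := near U₂ h2 e₂
  have h3 : V.v (algebraMap k K r₂ * U₁ + algebraMap k K r₁ * U₂) ^ 2 ^ e ≤
      V.v z ^ (2 ^ a * D 0) := by
    have e3 : ρ * (algebraMap k K r₂ * U₁ + algebraMap k K r₁ * U₂) =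
        algebraMap k K r₂ * (ρ * U₁ - algebraMap k K r₁) +
        algebraMap k K r₁ * (ρ * U₂ - algebraMap k K r₂) := by
      linear_combination (CharTwo.two_eq_zero (R := K)) * algebraMap k K r₁ * algebraMap k K r₂
    have h4 := V.v.map_add (algebraMap k K r₂ * (ρ * U₁ - algebraMap k K r₁))
      (algebraMap k K r₁ * (ρ * U₂ - algebraMap k K r₂))
    rw [← e3, map_mul, map_mul, map_mul, hρ1, V.const _ n₁, V.const _ n₂, one_mul, one_mul,
      one_mul] at h4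
    rcases le_max_iff.1 h4 with h5 | h5
    · exact p₁ ▸ pow_le_pow_left₀ zero_le h5 _
    · exact p₂ ▸ pow_le_pow_left₀ zero_le h5 _
  have h4 := pow_le_pow_left₀ zero_le (hU r₁ r₂ n₁ n₂) (2 ^ e)
  rw [← pow_mul, mul_comm (J + 1), pow_mul] at h4
  have h5 := h4.trans (pow_le_pow_left₀ zero_le h3 _)
  rw [← pow_mul, mul_comm] at h5
  exact absurd h5 (not_le.2 (pow_lt_pow_right_of_lt_one₀ ((V.v.pos_iff).2 hz0) hz hE))

end W64

end Pool.Agent.Lib.MP_346d6a_co
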