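import Pool.Agent.Lib.MP_346d6a_co.W27Def
import Pool.Agent.Lib.MP_346d6a_co.W64NW

/-!
The residues of the far roots.
-/

set_option maxSynthPendingDepth 3
set_option linter.unusedSectionVars false

namespace Pool.Agent.Lib.MP_346d6a_co

open Polynomial

namespace W27

open W48

/-- The identity of Mueller, Cohen and Matthews. -/
theorem mcm_id {R : Type} [CommRing R] [IsDomain R] [CharP R 2] (j : ℕ) (y : R) :
    (1 + y ^ tt j + (1 + y) ^ tt j) * (y ^ 2 + y) ^ 2 ^ j = (y ^ 2 ^ j + y) ^ (2 ^ j + 1) := by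
  have h1 : ∀ x : R, x ^ tt j * x ^ 2 ^ j = (x ^ 2 ^ j) ^ 2 ^ j * x := fun x => by
    rw [← pow_add, tt_add, pow_succ, pow_mul]
  have h2 := h1 (1 + y)
  have h3 := h1 y
  rw [show y ^ 2 + y = y * (1 + y) by ring, pow_succ, mul_pow]
  simp only [add_pow_char_pow, one_pow] at h2 ⊢
  generalize y ^ 2 ^ j = a at *
  generalize a ^ 2 ^ j = b at *
  linear_combination a * h2 + (a + 1) * h3 + (CharTwo.two_eq_zero (R := R)) * (a + a * b * y)

variable {k K : Type} [Field k] [IsAlgClosed k] [CharP k 2] [Field K] [IsAlgClosed K] [Algebra k K]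
  (V : Val k K)

theorem mcm {j : ℕ} (hj : 2 ≤ j) {U : K}
    (h : (U + 1 + V.τ) ^ tt j + U ^ tt j + V.τ ^ tt j + 1 = 0) (h1 : U ≠ 1) (h2 : U ≠ V.τ) :
    Sep V j 1 U ∧ Sep V j U (U + 1 + V.τ) := by
  obtain ⟨a1, a2, a3, a4⟩ := W64.mcm V (by omega) (tt_add j) V.τ_ne V.τ_lt (y := U)
    (by linear_combination h) h2 h1
  exact ⟨⟨map_one _, a1, a3⟩, a1, a2, a4⟩

variable {V} in
theorem Sep.pow_ne {j : ℕ} {U₁ U₂ : K} (h : Sep V j U₁ U₂) {n : ℕ} (hn : n ≠ 0) :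
    U₁ ^ n ≠ U₂ ^ n := by
  intro e
  have := charP k K
  have h2 : U₂ ≠ 0 := (V.v.ne_zero_iff).1 (h.2.1 ▸ one_ne_zero)
  have h3 : IsIntegral k (U₁ / U₂) := IsIntegral.of_pow (Nat.pos_of_ne_zero hn) (by
    rw [div_pow, e, div_self (pow_ne_zero _ h2)]; exact isIntegral_one)
  obtain ⟨c, hc⟩ := minpoly.mem_range_of_degree_eq_one k _
    (IsAlgClosed.degree_eq_one_of_irreducible k (minpoly.irreducible h3))
  have c0 : c ≠ 0 := by
    rintro rfl
    rw [map_zero, eq_comm, div_eq_zero_iff, or_iff_left h2] at hc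
    simpa [hc] using h.1
  have h4 := h.2.2 c 1 c0 one_ne_zero
  rw [hc, div_mul_cancel₀ _ h2, map_one, one_mul, CharTwo.add_self_eq_zero, map_zero,
    zero_pow (Nat.succ_ne_zero _)] at h4
  exact V.τ_pos.not_ge h4

end W27

end Pool.Agent.Lib.MP_346d6a_co
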