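import Pool.Agent.Lib.MP_346d6a_co.W27Def
import Pool.Agent.Lib.MP_346d6a_co.W64NW

/-!
The initial forms have no common adjoint root.
-/

set_option maxSynthPendingDepth 3
set_option linter.unusedSectionVars false

namespace Pool.Agent.Lib.MP_346d6a_co

open Polynomial

namespace W27

open W48

variable {k K : Type} [Field k] [IsAlgClosed k] [CharP k 2] [Field K] [IsAlgClosed K] [Algebra k K]
  (V : Val k K) {f : k[X]} {r j a : ℕ} {I : Finset ℕ}

theorem nw (he : Ed f r j a I) {U₁ U₂ w : K} (hs : Sep V j U₁ U₂)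
    (h₁ : adj I a (gc f U₁) w = adj I a (gc f V.τ) w)
    (h₂ : adj I a (gc f U₂) w = adj I a (gc f V.τ) w) : w = 0 := by
  have e : ∀ U : K, adj I a (gc f U) w = ∑ i ∈ I,
      (algebraMap k K (cc f i) * w * U ^ dg f (2 ^ i)) ^ 2 ^ (a - i) := fun U =>
    Finset.sum_congr rfl fun i _ => by rw [gc, mul_right_comm]
  rw [e, e] at h₁ h₂
  exact W64.nw V V.τ_ne V.τ_lt hs.1 hs.2.1 hs.2.2 I (cc f) (fun i => dg f (2 ^ i)) he.a1 he.zero
    he.top (fun i hi => ⟨he.le i hi, he.cc_ne hi, he.on i hi⟩) he.pos he.wild he.two h₁ h₂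

end W27

end Pool.Agent.Lib.MP_346d6a_co
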