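import Pool.Agent.Lib.MP_346d6a_co.W27Path
import Pool.Agent.Lib.MP_346d6a_co.W27Euc
import Pool.Agent.Lib.MP_346d6a_co.W27Nw
import Pool.Agent.Lib.MP_346d6a_co.W27Mcm
import Pool.Agent.Lib.MP_346d6a_co.W27Cnt

/-!
Far roots do not see the first level.
-/

set_option maxSynthPendingDepth 3
set_option linter.unusedSectionVars false

namespace Pool.Agent.Lib.MP_346d6a_co

open Polynomial

namespace W27

open W48

namespace St

variable {k k₁ Ω : Type} [Field k] [Field k₁] [Field Ω] [Algebra k k₁] [Algebra k Ω]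
  [Algebra k₁ Ω] [IsScalarTower k k₁ Ω] [CharP k 2] [IsAlgClosed k] [IsAlgClosed k₁] [IsAlgClosed Ω]
  (S : St k k₁ Ω)

theorem far_sep {y : Ω} (hy : y ∈ S.R) (hF : S.Far y) :
    ∃ U, S.Res y U ∧ Sep S.V₁ S.j 1 U ∧ Sep S.V₁ S.j U (U + 1 + S.z) := by
  obtain ⟨U, h1, h2⟩ := S.root_res hy
  exact ⟨U, h1, mcm S.V₁ S.ed.j2 h2 (fun e => hF.1 (e ▸ h1)) fun e => hF.2 (by
    have e' : U = S.z := e
    exact e' ▸ h1)⟩

theorem partner_x : ∃ y ∈ S.R, y ≠ S.x ∧ S.Cl S.x y := by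
  have := charP k k₁
  refine S.partner S.x_mem S.res_x fun n hn => ?_
  rw [one_pow, CharTwo.add_self_eq_zero, zero_add]
  exact (S.z_pow_ne hn).symm

theorem partner_far {y : Ω} (hy : y ∈ S.R) (hF : S.Far y) : ∃ y' ∈ S.R, y' ≠ y ∧ S.Cl y y' := by
  obtain ⟨U, h1, -, h2⟩ := S.far_sep hy hF
  exact S.partner hy h1 fun n hn => h2.pow_ne hn

/-- The Euclidean algorithm for the initial forms. -/
theorem euc {U₁ U₂ U₃ W₁ W₂ : k₁} (hs : Sep S.V₁ S.j W₁ W₂) (h0 : U₁ ^ dg S.f 1 ≠ U₃ ^ dg S.f 1)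
    (h : ∀ F : k₁ → k₁, F U₁ = F U₂ → F U₁ = F U₃ → F W₁ = F S.z ∧ F W₂ = F S.z) :
    ∃ A₁ A₂ : k₁[X], A₁.eval 0 = 0 ∧ A₂.eval 0 = 0 ∧
      (S.gp U₁ + S.gp U₂).comp A₁ + (S.gp U₁ + S.gp U₃).comp A₂ = X := by
  have := charP k k₁
  rw [gp, gp, gp, ap_add, ap_add]
  refine euclid S.I S.a S.ed.le S.ed.zero _ _ ?_ fun w a b => ?_
  · rw [gc, gc, ← mul_add, pow_zero]
    exact mul_ne_zero ((_root_.map_ne_zero _).2 (S.ed.cc_ne S.ed.zero))
      fun e => h0 (CharTwo.add_eq_zero.1 e)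
  · rw [adj_add, CharTwo.add_eq_zero] at a b
    obtain ⟨c, d⟩ := h (fun U => adj S.I S.a (gc S.f U) w) a b
    exact nw S.V₁ S.ed hs c d

theorem modx {x' y : Ω} (hx : x' ∈ S.R) (hc : S.Cl S.x x') (hy : y ∈ S.R) (hF : S.Far y) :
    col k S.s x' y = col k S.s S.x y := by
  have := charP k Ω
  have := charP k k₁
  have two : (2 : Ω) = 0 := CharTwo.two_eq_zero
  obtain ⟨U, h1, h2, -⟩ := S.far_sep hy hF
  obtain ⟨A₁, A₂, a1, a2, hE⟩ := S.euc (U₁ := 1) (U₂ := S.z) (U₃ := U) h2 (h2.pow_ne S.ed.pos)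
    fun F a b => ⟨a, b.symm.trans a⟩
  have r1 := S.mem_R.1 hx
  have r2 := S.mem_R.1 hy
  rw [ev3_FF] at r1 r2
  obtain ⟨α, β, b1, b2, b3, b4, h⟩ := S.move (θ := x' - S.x) S.res_x S.res_xs h1 A₁ A₂ a1 a2 hE hc
    (by
      rw [add_sub_cancel, show S.x + S.s + (x' - S.x) = x' + S.s by ring]
      linear_combination r1)
  refine (indep3 S.V (FF_ne_zero S.hf) (C (C S.s) + β) (C (C S.x) + (α + β)) (C (C y) + β)
    (b := S.b) (fun e t => ?_) S.gen (S.gen.of_mem S.hf hx) (S.mem_R.1 hy)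
    (S.gen.ev3_FF S.hf hx hy) ?_ ?_ ?_ ?_ ?_ ?_).symm
  · convert h e t _ _ rfl rfl using 4
    simp only [evalEval_add, evalEval_CC, ev3_FF]
    generalize α.evalEval _ _ = u
    generalize β.evalEval _ _ = v
    rw [show y + v + (S.s + v) = y + S.s by linear_combination v * two,
      show S.x + (u + v) + (S.s + v) = S.x + S.s + u by linear_combination v * two]
    linear_combination r2 - (aeval y S.f + aeval (S.x + S.s) S.f + aeval S.x S.f) * two
  all_goals simp [evalEval_add, evalEval_CC, b1, b2, b3, b4]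

theorem mody {y y' : Ω} (hy : y ∈ S.R) (hF : S.Far y) (hy' : y' ∈ S.R) (hc : S.Cl y y') :
    col k S.s S.x y' = col k S.s S.x y := by
  have := charP k Ω
  have := charP k k₁
  have two : (2 : Ω) = 0 := CharTwo.two_eq_zero
  obtain ⟨U, h1, -, h2⟩ := S.far_sep hy hF
  obtain ⟨A₁, A₂, a1, a2, hE⟩ := S.euc (U₁ := U) (U₂ := U + 1 + S.z) (U₃ := S.z) h2 (fun e => by
    have e' := congrArg S.V₁.v e
    rw [map_pow, map_pow, h2.1, one_pow] at e'
    exact (pow_lt_one₀ zero_le S.z_lt S.ed.pos).ne' e') fun F a b => ⟨b, a.symm.trans b⟩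
  have r1 := S.mem_R.1 hy'
  have r2 := S.mem_R.1 hy
  rw [ev3_FF] at r1 r2
  have h3 : S.Res (y + S.s) (U + 1 + S.z) := by
    rw [add_assoc]; exact h1.add S.res_s
  obtain ⟨α, β, b1, b2, b3, b4, h⟩ := S.move (θ := y' - y) h1 h3 S.res_xs A₁ A₂ a1 a2 hE hc
    (by
      rw [add_sub_cancel, show y + S.s + (y' - y) = y' + S.s by ring]
      linear_combination r1 + r2 - (aeval (S.x + S.s) S.f + aeval S.x S.f) * two)
  refine (indep3 S.V (FF_ne_zero S.hf) (C (C S.s) + β) (C (C S.x)) (C (C y) + (α + β))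
    (b := S.b) (fun e t => ?_) S.gen S.gen (S.mem_R.1 hy) (S.mem_R.1 hy') ?_ ?_ ?_ ?_ ?_ ?_).symm
  · convert h e t _ _ rfl rfl using 4
    simp only [evalEval_add, evalEval_CC, ev3_FF]
    generalize α.evalEval _ _ = u
    generalize β.evalEval _ _ = v
    rw [show y + (u + v) + (S.s + v) = y + S.s + u by linear_combination v * two,
      show S.x + (S.s + v) = S.x + S.s + v by ring]
    linear_combination r2 - (aeval y S.f + aeval (y + S.s) S.f + aeval (S.x + S.s) S.f) * two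
  all_goals simp [evalEval_add, evalEval_CC, b1, b2, b3, b4]

end St

end W27

end Pool.Agent.Lib.MP_346d6a_co
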