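import Pool.Agent.Lib.MP_346d6a_co.W27Ker
import Pool.Agent.Lib.MP_346d6a_co.W27Mod

/-!
The discriminant budget.
-/

set_option maxSynthPendingDepth 3
set_option linter.unusedSectionVars false

namespace Pool.Agent.Lib.MP_346d6a_co

open Polynomial

namespace W27

open W48

namespace St

variable {k k₁ Ω : Type} [Field k] [Field k₁] [Field Ω] [Algebra k k₁] [Algebra k Ω]
  [Algebra k₁ Ω] [IsScalarTower k k₁ Ω] [CharP k 2] [IsAlgClosed k] [IsAlgClosed k₁] [IsAlgClosed Ω]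
  (S : St k k₁ Ω)
  {Q : k[X][X][X]} {δ g₁ g₂ g₃ : ℕ}

theorem disc_ne (hQ : Q ∣ FF S.f) : Q ≠ 0 := fun e => FF_ne_zero S.hf (zero_dvd_iff.1 (e ▸ hQ))

theorem disc_lc (hQ : Q ∣ FF S.f) : ev2 S.s S.x Q.leadingCoeff ≠ 0 :=
  (map_ne_zero_iff _ S.gen).2 (leadingCoeff_ne_zero.2 (S.disc_ne hQ))

theorem disc_roots (hQ : Q ∣ FF S.f) : (Q.map (ev2 S.s S.x)).roots = (S.rt Q).val := by
  classical
  rw [rt, Multiset.toFinset_val, Multiset.dedup_eq_self.2
    (nodup_roots ((S.gen.separable S.hf).of_dvd (Polynomial.map_dvd _ hQ)))]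

theorem disc_lg {P : k[X][X]} (h : ev2 S.s S.x P ≠ 0) : 0 ≤ lg S.V (ev2 S.s S.x P) := by
  have h1 := S.one_le_ev2 (P := P) (fun e => h (by rw [e, map_zero]))
  rwa [← map_one S.V.v, v_le_iff one_ne_zero h, lg_one] at h1

open Classical in
theorem disc_der (hQ : Q ∣ FF S.f) {y : Ω} (hy : y ∈ S.rt Q) :
    (derivative (Q.map (ev2 S.s S.x))).eval y =
      ev2 S.s S.x Q.leadingCoeff * ∏ y' ∈ (S.rt Q).erase y, (y - y') := by
  conv_lhs => rw [(IsAlgClosed.splits (Q.map (ev2 S.s S.x))).eq_prod_roots]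
  rw [derivative_C_mul, eval_mul, eval_C, S.disc_roots hQ,
    eval_multiset_prod_X_sub_C_derivative hy, leadingCoeff_map_of_injective S.gen,
    Finset.prod_eq_multiset_prod, Finset.erase_val]

open Classical in
/-- The discriminant is a nonzero polynomial in `s`, `x`. -/
theorem disc0 (hQ : Q ∣ FF S.f) (hk : Q.natDegree ≠ 0) :
    ∑ y ∈ S.rt Q, ∑ y' ∈ (S.rt Q).erase y, S.K y y' ≤
      (2 * Q.natDegree - 1) * lg S.V (ev2 S.s S.x Q.leadingCoeff) +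
        S.p * (Q.natDegree ^ 2 - Q.natDegree) := by
  have hl := S.disc_lc hQ
  have hd := S.gen.natDegree_map Q
  have e : ev2 S.s S.x (resultant Q (derivative Q) Q.natDegree (Q.natDegree - 1)) =
      ev2 S.s S.x Q.leadingCoeff ^ (Q.natDegree - 1) * ∏ y ∈ S.rt Q,
        (ev2 S.s S.x Q.leadingCoeff * ∏ y' ∈ (S.rt Q).erase y, (y - y')) := by
    rw [← resultant_map_map, ← derivative_map, ← hd, resultant_eq_prod_eval _ _ _
      (natDegree_derivative_le _) (IsAlgClosed.splits _), leadingCoeff_map_of_injective S.gen,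
      S.disc_roots hQ, ← Finset.prod_congr rfl fun y hy => S.disc_der hQ hy]
    rfl
  have n1 : ∀ y, ∀ y' ∈ (S.rt Q).erase y, y - y' ≠ 0 := fun y y' h =>
    sub_ne_zero.2 (Finset.ne_of_mem_erase h).symm
  have n2 : ∀ y ∈ S.rt Q, ev2 S.s S.x Q.leadingCoeff * ∏ y' ∈ (S.rt Q).erase y, (y - y') ≠ 0 :=
    fun y _ => mul_ne_zero hl (Finset.prod_ne_zero_iff.2 (n1 y))
  have n3 := Finset.prod_ne_zero_iff.2 n2
  have h0 := S.disc_lg (e ▸ mul_ne_zero (pow_ne_zero _ hl) n3)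
  have hc : ((Q.natDegree - 1 : ℕ) : ℝ) = Q.natDegree - 1 := Nat.cast_pred (Nat.pos_of_ne_zero hk)
  rw [e, lg_mul (pow_ne_zero _ hl) n3, lg_pow, lg_prod _ _ n2, hc] at h0
  have h1 : ∑ y ∈ S.rt Q, lg S.V (ev2 S.s S.x Q.leadingCoeff *
      ∏ y' ∈ (S.rt Q).erase y, (y - y')) ≤ ∑ y ∈ S.rt Q, (lg S.V (ev2 S.s S.x Q.leadingCoeff) +
        (Q.natDegree - 1) * S.p - ∑ y' ∈ (S.rt Q).erase y, S.K y y') := by
    refine Finset.sum_le_sum fun y hy => ?_
    rw [lg_mul hl (Finset.prod_ne_zero_iff.2 (n1 y)), lg_prod _ _ (n1 y)]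
    have h2 : ∑ y' ∈ (S.rt Q).erase y, lg S.V (y - y') ≤
        ∑ y' ∈ (S.rt Q).erase y, (S.p - S.K y y') := Finset.sum_le_sum fun y' hy' => by
      rw [S.K_symm]
      exact S.lg_le_K (Finset.ne_of_mem_erase hy').symm
    rw [Finset.sum_sub_distrib, Finset.sum_const, Finset.card_erase_of_mem hy, S.card_rt hQ,
      nsmul_eq_mul, hc] at h2
    linarith
  rw [Finset.sum_sub_distrib, Finset.sum_const, S.card_rt hQ, nsmul_eq_mul] at h1
  linarith

open Classical in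
theorem disc_split (T : Finset Ω) (H : Ω → ℝ) : ∑ y ∈ T, H y =
    ∑ y ∈ T.filter fun y => S.Res y 1, H y + ∑ y ∈ T.filter fun y => S.Res y S.z, H y +
      ∑ y ∈ T.filter fun y => S.Far y, H y := by
  simp only [Finset.sum_filter, ← Finset.sum_add_distrib]
  refine Finset.sum_congr rfl fun y _ => ?_
  by_cases a : S.Res y 1
  · have b : ¬ S.Res y S.z := fun b => S.z_ne_one (b.unique a)
    simp [a, b, Far]
  · by_cases b : S.Res y S.z <;> simp [a, b, Far]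

open Classical in
theorem disc_near (hQ : Q ∣ FF S.f) {U : k₁} (hU : U = 1 ∨ U = S.z) {g : ℕ}
    (hg : ((S.rt Q).filter fun y => S.Res y U).card = g) :
    (S.p * tt S.j * g ^ 2 - g * (S.p + S.w) : ℝ) ≤
      ∑ y ∈ (S.rt Q).filter fun y => S.Res y U, ∑ y' ∈ (S.rt Q).erase y, S.K y y' := by
  have h1 := S.ker hU (T := (S.rt Q).filter fun y => S.Res y U) fun y hy =>
    ⟨S.rt_subset hQ (Finset.mem_filter.1 hy).1, (Finset.mem_filter.1 hy).2⟩
  have h2 : ∑ y ∈ (S.rt Q).filter fun y => S.Res y U,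
      ∑ y' ∈ (S.rt Q).filter fun y => S.Res y U, S.K y y' ≤
      ∑ y ∈ (S.rt Q).filter fun y => S.Res y U,
        ((S.p + S.w : ℝ) + ∑ y' ∈ (S.rt Q).erase y, S.K y y') := by
    refine Finset.sum_le_sum fun y hy => ?_
    have hy' := (Finset.mem_filter.1 hy).1
    rw [← S.K_self y, Finset.add_sum_erase _ _ hy']
    exact Finset.sum_le_sum_of_subset_of_nonneg (Finset.filter_subset _ _) fun y' h _ =>
      S.K_nonneg (S.rt_subset hQ hy') (S.rt_subset hQ h)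
  rw [Finset.sum_add_distrib, Finset.sum_const, hg, nsmul_eq_mul] at h2
  rw [hg] at h1
  linarith

open Classical in
theorem disc_far (hQ : Q ∣ FF S.f) {y : Ω} (hy : y ∈ S.rt Q) (hF : S.Far y) :
    (S.p + S.w : ℝ) ≤ ∑ y' ∈ (S.rt Q).erase y, S.K y y' := by
  have hR := S.rt_subset hQ hy
  obtain ⟨y', h1, h2, h3⟩ := S.partner_far hR hF
  have h4 : y' ∈ S.rt Q := (S.mem_rt (S.disc_ne hQ)).2
    ((col_eq_iff.1 (S.mody hR hF h1 h3) Q).2 ((S.mem_rt (S.disc_ne hQ)).1 hy))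
  refine le_trans (le_of_eq ?_) (Finset.single_le_sum (fun u hu => S.K_nonneg hR
    (S.rt_subset hQ (Finset.mem_of_mem_erase hu))) (Finset.mem_erase.2 ⟨h2, h4⟩))
  rw [K, if_pos h3]

theorem disc (hQ : Q ∣ FF S.f) (h : Nm Q δ g₁ g₂ g₃) (hk : Q.natDegree ≠ 0) :
    (S.p * tt S.j * (g₁ ^ 2 + g₂ ^ 2) + (Q.natDegree - 2 * g₁ - 2 * g₂) * (S.p + S.w) : ℝ) ≤
      S.p * ((2 * Q.natDegree - 1) * g₃ + Q.natDegree ^ 2 - Q.natDegree) := by
  classical
  obtain ⟨c1, c2, c3⟩ := S.count hQ h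
  have h0 := S.disc0 hQ hk
  have h1 := S.disc_near hQ (Or.inl rfl) c1
  have h2 := S.disc_near hQ (Or.inr rfl) c2
  have h3 := Finset.card_nsmul_le_sum _ _ _ fun y (hy : y ∈ (S.rt Q).filter fun y => S.Far y) =>
    S.disc_far hQ (Finset.mem_filter.1 hy).1 (Finset.mem_filter.1 hy).2
  have h4 := S.disc_split (S.rt Q) fun _ => 1
  simp only [Finset.sum_const, nsmul_eq_mul, mul_one, c1, c2, S.card_rt hQ] at h4
  rw [S.disc_split, c3] at h0
  rw [nsmul_eq_mul, show (((S.rt Q).filter fun y => S.Far y).card : ℝ) =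
    Q.natDegree - g₁ - g₂ by linarith] at h3
  linarith

theorem delta_ge (hQ : Q ∣ FF S.f) (h : Nm Q δ g₁ g₂ g₃) {y : Ω} (hy : y ∈ S.rt Q)
    (hx : S.x ∉ S.rt Q) (hc : S.Cl S.x y) : S.p + S.w ≤ S.p * δ := by
  have hl := S.disc_lc hQ
  have n1 : ∀ y' ∈ S.rt Q, S.x - y' ≠ 0 := fun y' h => sub_ne_zero.2 fun e => hx (e ▸ h)
  have n2 := Finset.prod_ne_zero_iff.2 n1
  have e : ev2 S.s S.x (Q.eval X) =
      ev2 S.s S.x Q.leadingCoeff * ∏ y' ∈ S.rt Q, (S.x - y') := by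
    rw [← eval₂_at_apply, ev2_X, ← eval_map, (IsAlgClosed.splits _).eval_eq_prod_roots,
      leadingCoeff_map_of_injective S.gen, S.disc_roots hQ]
    rfl
  have h0 := S.disc_lg (e ▸ mul_ne_zero hl n2)
  rw [e, lg_mul hl n2, lg_prod _ _ n1, (S.count hQ h).2.2] at h0
  have h1 : ∑ y' ∈ S.rt Q, lg S.V (S.x - y') ≤ ∑ y' ∈ S.rt Q, (S.p - S.K y' S.x) :=
    Finset.sum_le_sum fun y' hy' => S.lg_le_K (sub_ne_zero.1 (n1 y' hy'))
  have h2 := Finset.single_le_sum (f := fun y' => S.K y' S.x)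
    (fun u hu => S.K_nonneg (S.rt_subset hQ hu) S.x_mem) hy
  rw [Finset.sum_sub_distrib, Finset.sum_const, S.card_rt hQ, nsmul_eq_mul] at h1
  simp only [K, if_pos hc.symm] at h1 h2
  rw [← (h.deg3 S.ed hQ).2]
  have : (S.p + S.w : ℝ) ≤ S.p * (Q.natDegree + g₃) := by linarith
  exact_mod_cast this

end St

end W27

end Pool.Agent.Lib.MP_346d6a_co
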