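import Pool.Agent.Lib.MP_346d6a_co.W64Chain

/-!
Kasami degrees: the first edge of the polygon of a wild polynomial.
-/

set_option maxSynthPendingDepth 3

namespace Pool.Agent.Lib.MP_346d6a_co

open Polynomial

namespace W27

variable {k : Type} [Field k]

/-- The Kasami-Welch number. -/
def tt (j : ℕ) : ℕ := 4 ^ j - 2 ^ j + 1

/-- The degree of the `i`-th Hasse derivative. -/
noncomputable def dg (f : k[X]) (i : ℕ) : ℕ := (hasseDeriv i f).natDegree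

/-- The first edge of the polygon joins `(1, dg f 1)` to `(2 ^ a, dg f (2 ^ a))` and carries the
points `2 ^ c`, `c ∈ I`. -/
structure Ed (f : k[X]) (r j a : ℕ) (I : Finset ℕ) : Prop where
  j2 : 2 ≤ j
  deg : f.natDegree = 2 ^ r * tt j
  nd : (DD f).natDegree + 2 ^ r = f.natDegree
  a1 : 1 ≤ a
  zero : 0 ∈ I
  top : a ∈ I
  le : ∀ c ∈ I, c ≤ a
  pos : dg f 1 ≠ 0
  wild : 2 ^ a * dg f 1 < dg f (2 ^ a)
  on : ∀ c ∈ I, ((dg f (2 ^ c) : ℤ) - dg f 1) * (2 ^ a - 1) =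
    ((dg f (2 ^ a) : ℤ) - dg f 1) * (2 ^ c - 1)
  off : ∀ i : ℕ, 1 ≤ i → (∀ c ∈ I, i ≠ 2 ^ c) → ((dg f i : ℤ) - dg f 1) * (2 ^ a - 1) <
    ((dg f (2 ^ a) : ℤ) - dg f 1) * (i - 1)
  two : ∀ e, 2 ^ e ∣ dg f (2 ^ a) - 2 ^ a * dg f 1 → 2 ^ e < (2 ^ j + 1) * (2 ^ a * dg f 1)

section aux

open W48

variable [CharP k 2] {f : k[X]}

theorem cand_of {m i : ℕ} (hi : 1 ≤ i) (h : ((m + i).choose i : k) * f.coeff (m + i) ≠ 0) :
    ∃ a D, Cand1 f.support a D ∧ 2 ^ a ≤ i ∧ D + 2 ^ a = m + i := by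
  obtain ⟨c, o, ⟨x, rfl⟩, hj⟩ := Nat.exists_eq_two_pow_mul_odd (n := m + i) (by omega)
  have h2 : 2 ^ c ∣ i := by
    by_contra h2
    rw [hj, choose_two_pow_mul, if_neg h2, zero_mul] at h
    exact h rfl
  have e : 2 ^ (c + 1) * x + 2 ^ c = m + i := by rw [hj]; ring
  exact ⟨c, _, ⟨e ▸ mem_support_iff.2 (right_ne_zero_of_mul h), dvd_mul_right _ _⟩,
    Nat.le_of_dvd hi h2, e⟩

theorem cand_choose {a D : ℕ} (h : Cand1 f.support a D) :
    ((D + 2 ^ a).choose (2 ^ a) : k) * f.coeff (D + 2 ^ a) ≠ 0 := by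
  obtain ⟨h1, x, rfl⟩ := h
  have e : 2 ^ (a + 1) * x + 2 ^ a = 2 ^ a * (2 * x + 1) := by ring
  rw [e, choose_two_pow_self a ⟨x, rfl⟩, one_mul, ← e]
  exact mem_support_iff.1 h1

theorem cand_le_dg {a D : ℕ} (h : Cand1 f.support a D) : D ≤ dg f (2 ^ a) :=
  le_natDegree_of_ne_zero (by rw [hasseDeriv_coeff]; exact cand_choose h)

theorem cand_of_dg {i : ℕ} (hi : 1 ≤ i) (h : dg f i ≠ 0) :
    ∃ a D, Cand1 f.support a D ∧ 2 ^ a ≤ i ∧ D + 2 ^ a = dg f i + i := by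
  refine cand_of hi ?_
  rw [← hasseDeriv_coeff]
  exact leadingCoeff_ne_zero.2 fun e => h (by rw [dg, e, natDegree_zero])

end aux

open W48 W64 in
theorem exists_ed [IsAlgClosed k] [CharP k 2] {φ : k ≃+* k} {f : k[X]} {r j : ℕ} (hc : Ctx φ f)
    (hl : ∀ e, f.coeff e ≠ 0 → ¬ Lin e) (hj : 2 ≤ j) (hd : f.natDegree = 2 ^ r * tt j)
    (hw : ¬ Tame f) : ∃ a I, Ed f r j a I := by
  classical
  have h0 : dg f 1 ≠ 0 := by rw [dg, hasseDeriv_one']; exact hc.deg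
  obtain ⟨m, hm⟩ : ∃ m, 2 ^ j = m + 1 := ⟨2 ^ j - 1, (Nat.sub_add_cancel Nat.one_le_two_pow).symm⟩
  have ho : Odd m := by
    have : Even (m + 1) := hm ▸ (Nat.even_pow.2 ⟨even_two, by omega⟩)
    exact Nat.not_even_iff_odd.1 (Nat.even_add_one.1 this)
  have hd' : f.natDegree = 2 ^ (r + j) * m + 2 ^ r := by
    have e : 4 ^ j - 2 ^ j = 2 ^ j * m := by
      rw [show 4 ^ j = 2 ^ j * 2 ^ j by rw [← mul_pow]; rfl, Nat.sub_eq_iff_eq_add
        (Nat.le_mul_self _), ← Nat.mul_succ, Nat.succ_eq_add_one, ← hm]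
    rw [hd, tt, e]; ring
  have hn : 2 ^ (r + 1) ∣ 2 ^ (r + j) * m := (pow_dvd_pow 2 (by omega)).mul_right _
  have c0 : Cand1 f.support 0 (dg f 1) := by
    obtain ⟨a, D, h1, h2, h3⟩ := cand_of_dg le_rfl h0
    obtain rfl : a = 0 := by
      by_contra e
      have := Nat.one_lt_two_pow e
      omega
    rwa [show D = dg f 1 by omega] at h1
  have pw : ∀ a, 1 ≤ a → (0 : ℚ) < 2 ^ a - 1 := fun a h => sub_pos.2 (one_lt_pow₀ one_lt_two
    (by omega))
  obtain ⟨a₁, D₁, c₁, p₁, w₁⟩ : ∃ a D, Cand1 f.support a D ∧ 1 ≤ a ∧ 2 ^ a * dg f 1 < D := by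
    obtain ⟨i, hi, h1⟩ : ∃ i, 1 ≤ i ∧ i * dg f 1 < dg f i := by
      by_contra e
      exact hw fun i hi => by
        rw [← hasseDeriv_one']
        exact not_lt.1 fun e1 => e ⟨i, hi, e1⟩
    obtain ⟨a, D, h2, h3, h4⟩ := cand_of_dg (f := f) hi (by omega)
    have h5 := Nat.mul_le_mul_right (dg f 1) h3
    refine ⟨a, D, h2, Nat.one_le_iff_ne_zero.2 ?_, by omega⟩
    rintro rfl
    have := cand_le_dg h2
    rw [pow_zero] at *
    omega
  obtain ⟨a₂, D₂, c₂, p₂, m₂⟩ := exists_max f.support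
    (fun a D => ((D : ℚ) - dg f 1) / (2 ^ a - 1)) (fun a _ => 1 ≤ a) c₁ p₁
  set ν : ℚ := ((D₂ : ℚ) - dg f 1) / (2 ^ a₂ - 1) with hν
  have d0 : (0 : ℚ) < dg f 1 := by exact_mod_cast Nat.pos_of_ne_zero h0
  have hν0 : (dg f 1 : ℚ) < ν := by
    refine lt_of_lt_of_le ?_ (m₂ _ _ c₁ p₁)
    rw [lt_div_iff₀ (pw _ p₁)]
    have : (2 : ℚ) ^ a₁ * dg f 1 < D₁ := by exact_mod_cast w₁
    linarith
  have hall : ∀ a D, Cand1 f.support a D → (D : ℚ) - dg f 1 ≤ ν * (2 ^ a - 1) := fun a D h => by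
    rcases Nat.eq_zero_or_pos a with rfl | p
    · have : (D : ℚ) ≤ dg f 1 := by exact_mod_cast cand_le_dg h
      simpa using this
    · exact (div_le_iff₀ (pw a p)).1 (m₂ a D h p)
  obtain ⟨a, D, c, e, m₃⟩ := exists_max f.support (fun a _ => (a : ℚ))
    (fun a D => (D : ℚ) - dg f 1 = ν * (2 ^ a - 1)) c₂ (by
      rw [hν, div_mul_cancel₀ _ (pw _ p₂).ne'])
  have m₃' : ∀ a' D', Cand1 f.support a' D' → (D' : ℚ) - dg f 1 = ν * (2 ^ a' - 1) → a' ≤ a :=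
    fun a' D' c' e' => by exact_mod_cast m₃ a' D' c' e'
  have p : 1 ≤ a := p₂.trans (m₃' _ _ c₂ (by rw [hν, div_mul_cancel₀ _ (pw _ p₂).ne']))
  -- all points are below the line
  have key : ∀ i : ℕ, 1 ≤ i → (dg f i : ℚ) - dg f 1 < ν * (i - 1) ∨
      ∃ c ≤ a, i = 2 ^ c ∧ (dg f i : ℚ) - dg f 1 = ν * (i - 1) := fun i hi => by
    have hi' : (0 : ℚ) ≤ i - 1 := sub_nonneg.2 (by exact_mod_cast hi)
    by_cases e0 : dg f i = 0
    · left
      rw [e0]
      have := mul_nonneg (d0.trans hν0).le hi'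
      push_cast
      linarith
    obtain ⟨a', D', h2, h3, h4⟩ := cand_of_dg hi e0
    have h5 := hall a' D' h2
    have h6 : (D' : ℚ) + 2 ^ a' = dg f i + i := by exact_mod_cast h4
    rcases h3.lt_or_eq with h3 | rfl
    · have : (2 : ℚ) ^ a' < i := by exact_mod_cast h3
      left
      nlinarith
    · rw [← add_right_cancel h4]
      push_cast
      exact h5.lt_or_eq.imp id fun e1 => ⟨a', m₃' _ _ h2 e1, rfl, e1⟩
  have eD : dg f (2 ^ a) = D := by
    refine le_antisymm ?_ (cand_le_dg c)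
    have : (dg f (2 ^ a) : ℚ) ≤ D := by
      rcases key (2 ^ a) Nat.one_le_two_pow with h1 | ⟨_, _, _, h1⟩ <;> push_cast at h1 <;> linarith
    exact_mod_cast this
  have wl : 2 ^ a * dg f 1 < D := by
    have : (2 : ℚ) ^ a * dg f 1 < D := by nlinarith [pw a p]
    exact_mod_cast this
  refine ⟨a, (Finset.range (a + 1)).filter fun c => (dg f (2 ^ c) : ℚ) - dg f 1 = ν * (2 ^ c - 1),
    hj, hd, ?_, p, by simp, by simp [eD, e], fun c h => ?_, h0, eD ▸ wl, fun c h => ?_,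
    fun i hi h => ?_, fun e' he' => ?_⟩
  · rw [hd', add_left_inj]
    refine le_antisymm (natDegree_le_iff_coeff_eq_zero.2 fun x hx => ?_)
      (le_natDegree_of_ne_zero fun e0 => ?_)
    · ext i
      rw [coeff_DD, coeff_zero]
      split_ifs with hi
      · rfl
      by_contra e0
      obtain ⟨a', D', h2, h3, h4⟩ := cand_of (Nat.one_le_iff_ne_zero.2 hi) e0
      have := cand_le hc hl hd' hn rfl ho h2
      omega
    · have := coeff_DD f (2 ^ (r + j) * m) (2 ^ r)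
      rw [e0, coeff_zero, if_neg (Nat.two_pow_pos r).ne'] at this
      refine cand_choose ⟨hd' ▸ natDegree_mem_support_of_nonzero fun e1 => ?_, hn⟩ this.symm
      exact h0 (by simp [dg, e1])
  · exact Nat.lt_succ_iff.1 (Finset.mem_range.1 (Finset.mem_filter.1 h).1)
  · have h1 := (Finset.mem_filter.1 h).2
    have : ((dg f (2 ^ c) : ℚ) - dg f 1) * (2 ^ a - 1) = ((D : ℚ) - dg f 1) * (2 ^ c - 1) := by
      rw [h1, e]; ring
    rw [eD]
    exact_mod_cast this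
  · rcases key i hi with h1 | ⟨c, h1, rfl, h2⟩
    · have : ((dg f i : ℚ) - dg f 1) * (2 ^ a - 1) < ((D : ℚ) - dg f 1) * (i - 1) := by
        rw [e]; nlinarith [pw a p]
      rw [eD]
      exact_mod_cast this
    · exact absurd rfl (h c (Finset.mem_filter.2 ⟨Finset.mem_range.2 (by omega), by
        exact_mod_cast h2⟩))
  · obtain ⟨-, b, o, hb, h1⟩ := chain hc hl hd' hn rfl ho (μ := -ν) (by linarith) c
      (fun a' D' c' => by linarith [hall a' D' c']) fun a' D' c' e1 => m₃' a' D' c' (by linarith)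
    rw [eD] at he'
    have hN : 0 < 2 ^ a * dg f 1 := by positivity
    generalize 2 ^ a * dg f 1 = N at *
    rcases le_total e' b with h2 | h2
    · have h3 : 2 ^ e' ∣ D := hb ▸ (pow_dvd_pow 2 h2).mul_right _
      have h4 := Nat.le_of_dvd hN ((Nat.dvd_sub_iff_right wl.le h3).1 he')
      nlinarith
    · have h3 : 2 ^ b ∣ D := hb ▸ dvd_mul_right _ _
      have h4 := Nat.le_of_dvd hN
        ((Nat.dvd_sub_iff_right wl.le h3).1 ((pow_dvd_pow 2 h2).trans he'))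
      have h5 := Nat.le_of_dvd (by omega) he'
      have h6 := Nat.mul_le_mul h4 h1
      have h7 : 2 ^ e' ≤ N * m := by omega
      nlinarith

end W27

end Pool.Agent.Lib.MP_346d6a_co
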