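import Pool.Agent.Lib.MP_346d6a_co.W27Top

/-!
The top form of the surface and of its components.
-/

set_option maxSynthPendingDepth 3
set_option linter.unusedSectionVars false

namespace Pool.Agent.Lib.MP_346d6a_co

open Polynomial

namespace W27

open W48

variable {k : Type} [Field k] [CharP k 2] {f : k[X]} {Q : k[X][X][X]} {δ g₁ g₂ g₃ r j a : ℕ}
  {I : Finset ℕ}

theorem form_hom_mono (c : k) (n : ℕ) : hom k (FF (monomial n c)) =
    C (C (C c) * ((X + C X) ^ n + X ^ n + (1 + C X) ^ n + 1)) * X ^ n := by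
  have e1 : (C X * X + C (C X) * X : k[X][X][X]) = (C X + C (C X)) * X := by ring
  have e2 : (X + C (C X) * X : k[X][X][X]) = (1 + C (C X)) * X := by ring
  simp only [FF, SS, DD, hom, ← C_mul_X_pow_eq_monomial, Polynomial.map_mul, Polynomial.map_pow,
    Polynomial.map_add, map_C, map_X, taylor_mul, taylor_pow, taylor_C, taylor_X, map_add, map_mul,
    map_pow, map_one, coe_eval₂RingHom, eval₂_C, eval₂_X, RingHom.comp_apply]
  rw [e1, e2, mul_pow, mul_pow, mul_pow]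
  ring

theorem coeff_hom_FF (f : k[X]) (e : ℕ) : (hom k (FF f)).coeff e =
    C (C (f.coeff e)) * ((X + C X) ^ e + X ^ e + (1 + C X) ^ e + 1) := by
  induction f using Polynomial.induction_on' with
  | add p q hp hq =>
    have e1 : FF (p + q) = FF p + FF q := by
      simp only [FF, SS, DD, Polynomial.map_add, map_add]
      ring
    rw [e1, map_add, coeff_add, hp, hq, coeff_add, map_add, map_add, add_mul]
  | monomial n c =>
    rw [form_hom_mono, coeff_C_mul_X_pow, coeff_monomial]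
    by_cases h : e = n
    · rw [if_pos h, if_pos h.symm, h]
    · rw [if_neg h, if_neg fun x => h x.symm, map_zero, map_zero, zero_mul]

omit [CharP k 2] in
theorem form_coeff (t : ℕ) {i : ℕ} (hi : i ≠ 0) :
    ((X + C X) ^ t + X ^ t + (1 + C X) ^ t + 1 : k[X][X]).coeff i =
      X ^ (t - i) * (t.choose i : k[X]) + if i = t then 1 else 0 := by
  have e1 : ((1 + C X) ^ t : k[X][X]) = C ((1 + X) ^ t) := by simp
  rw [coeff_add, coeff_add, coeff_add, coeff_X_add_C_pow, coeff_X_pow, e1, coeff_C_of_ne_zero hi,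
    coeff_one, if_neg hi, add_zero, add_zero]

/-- The reduced top form has degree `t - 1` in `Y` and is divisible by `S` exactly once. -/
theorem form_spec {t : ℕ} (ht : Odd t) (h3 : 3 ≤ t) :
    ((X + C X) ^ t + X ^ t + (1 + C X) ^ t + 1 : k[X][X]).natDegree + 1 = t ∧
      ∃ T : k[X][X], (X + C X) ^ t + X ^ t + (1 + C X) ^ t + 1 = C X * T ∧ ¬ C X ∣ T := by
  obtain ⟨n, rfl⟩ : ∃ n, t = n + 1 := ⟨t - 1, by omega⟩
  have hc : ((X + C X) ^ (n + 1) + X ^ (n + 1) + (1 + C X) ^ (n + 1) + 1 : k[X][X]).coeff n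
      = X := by
    obtain ⟨m, hm⟩ := ht
    rw [form_coeff _ (by omega), if_neg (by omega), Nat.choose_succ_self_right, hm,
      show 2 * m + 1 - n = 1 by omega]
    push_cast
    rw [CharTwo.two_eq_zero]
    ring
  refine ⟨?_, ?_⟩
  · congr 1
    refine natDegree_eq_of_le_of_coeff_ne_zero (natDegree_le_iff_coeff_eq_zero.2 fun i hi => ?_)
      (by rw [hc]; exact X_ne_zero)
    rw [form_coeff _ (by omega)]
    by_cases h : i = n + 1
    · rw [if_pos h, h, Nat.choose_self, Nat.sub_self, pow_zero, Nat.cast_one, one_mul,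
        CharTwo.add_self_eq_zero]
    · rw [if_neg h, Nat.choose_eq_zero_of_lt (by omega), Nat.cast_zero, mul_zero, add_zero]
  · have d1 := sub_dvd_pow_sub_pow (X + C X : k[X][X]) X (n + 1)
    have d2 := sub_dvd_pow_sub_pow (1 + C X : k[X][X]) 1 (n + 1)
    rw [add_sub_cancel_left, CharTwo.sub_eq_add] at d1 d2
    rw [one_pow] at d2
    obtain ⟨T, hT⟩ := dvd_add d1 d2
    rw [← add_assoc] at hT
    refine ⟨T, hT, ?_⟩
    rintro ⟨T', rfl⟩
    rw [hT, coeff_C_mul, coeff_C_mul] at hc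
    have h1 : (X : k[X]) * T'.coeff n = 1 := mul_left_cancel₀ X_ne_zero (by rw [hc, mul_one])
    exact not_isUnit_X (IsUnit.of_mul_eq_one _ h1)

theorem form_top (he : Ed f r j a I) : (hom k (FF f)).coeff f.natDegree = C (C f.leadingCoeff) *
      ((X + C X) ^ tt j + X ^ tt j + (1 + C X) ^ tt j + 1) ^ 2 ^ r ∧
    (C (C f.leadingCoeff) *
      ((X + C X) ^ tt j + X ^ tt j + (1 + C X) ^ tt j + 1) ^ 2 ^ r : k[X][X]) ≠ 0 := by
  have h1 := tt_ge he.j2
  have h2 := (form_spec (k := k) (odd_tt (j := j) (by have := he.j2; omega)) (by omega)).1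
  refine ⟨?_, mul_ne_zero (C_ne_zero.2 (C_ne_zero.2 (leadingCoeff_ne_zero.2 fun e => ?_)))
    (pow_ne_zero _ fun e => ?_)⟩
  · rw [coeff_hom_FF, coeff_natDegree, he.deg, add_pow_char_pow, add_pow_char_pow,
      add_pow_char_pow, one_pow, ← pow_mul, ← pow_mul, ← pow_mul, mul_comm (tt j)]
  · have := he.deg
    rw [e, natDegree_zero] at this
    have h3 : 0 < 2 ^ r * tt j := by positivity
    omega
  · rw [e, natDegree_zero] at h2
    omega

theorem top_FF (he : Ed f r j a I) : (hom k (FF f)).natDegree = f.natDegree ∧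
    (hom k (FF f)).leadingCoeff = C (C f.leadingCoeff) *
      ((X + C X) ^ tt j + X ^ tt j + (1 + C X) ^ tt j + 1) ^ 2 ^ r := by
  obtain ⟨h1, h2⟩ := form_top he
  have h3 : (hom k (FF f)).natDegree = f.natDegree :=
    natDegree_eq_of_le_of_coeff_ne_zero (natDegree_le_iff_coeff_eq_zero.2 fun i hi => by
      rw [coeff_hom_FF, coeff_eq_zero_of_natDegree_lt hi, map_zero, map_zero, zero_mul])
      (by rwa [h1])
  exact ⟨h3, by rw [leadingCoeff, h3, h1]⟩

omit [CharP k 2] in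
theorem Nm.form_le (hQ : Q ≠ 0) (h : Nm Q δ g₁ g₂ g₃) :
    (hom k Q).leadingCoeff.natDegree ≤ Q.natDegree ∧
      (hom k Q).leadingCoeff.natDegree + g₃ ≤ δ := by
  have h0 : (hom k Q).leadingCoeff.leadingCoeff ≠ 0 :=
    leadingCoeff_ne_zero.2 (leadingCoeff_ne_zero.2 (hom_ne hQ))
  obtain ⟨h1, h2⟩ := hom_coeff Q (u := (hom k Q).natDegree)
    (m := (hom k Q).leadingCoeff.natDegree) h0
  obtain ⟨T, hT, -⟩ := h.fac
  have h3 : (X : k[X]) ^ g₃ ∣ (hom k Q).leadingCoeff.leadingCoeff := by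
    refine (C_dvd_iff_dvd_coeff _ _).1 ?_ _
    rw [hT, map_pow]
    exact Dvd.dvd.mul_right (Dvd.intro_left _ rfl) _
  have h4 := natDegree_le_of_dvd h3 h0
  rw [natDegree_X_pow] at h4
  rw [h.deg] at h2
  refine ⟨h1, ?_⟩
  have h5 : ((hom k Q).coeff δ).coeff (hom k Q).leadingCoeff.natDegree =
      (hom k Q).leadingCoeff.leadingCoeff := by rw [← h.deg]; rfl
  rw [h5] at h2
  omega

omit [CharP k 2] in
theorem Nm.form_fac (h : Nm Q δ g₁ g₂ g₃) :
    ∃ M : k[X][X], (hom k Q).leadingCoeff = C X ^ g₃ * M ∧ ¬ C X ∣ M := by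
  obtain ⟨T, hT, -, -, h3⟩ := h.fac
  have hp : Prime (C X : k[X][X]) := prime_C_iff.2 prime_X
  have h1 : ∀ P : k[X][X], P.coeff 1 = 1 → ¬ C X ∣ P := fun P hP hd =>
    not_isUnit_X (isUnit_of_dvd_one (hP ▸ (C_dvd_iff_dvd_coeff _ _).1 hd 1))
  refine ⟨(X + 1) ^ g₁ * (X + 1 + C X) ^ g₂ * T, by rw [hT]; ring, fun hd => ?_⟩
  rcases hp.dvd_or_dvd hd with hd | hd
  · rcases hp.dvd_or_dvd hd with hd | hd
    · exact h1 _ (by simp [coeff_one]) (hp.dvd_of_dvd_pow hd)
    · exact h1 _ (by simp [coeff_one]) (hp.dvd_of_dvd_pow hd)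
  · exact h3 hd

theorem Nm.deg3 (he : Ed f r j a I) (hQ : Q ∣ FF f) (h : Nm Q δ g₁ g₂ g₃) :
    (hom k Q).leadingCoeff.natDegree = Q.natDegree ∧ Q.natDegree + g₃ = δ := by
  obtain ⟨Q', hF⟩ := hQ
  obtain ⟨t1, t2⟩ := top_FF he
  have t3 := (form_top he).2
  have h1 := tt_ge he.j2
  obtain ⟨s1, T, s2, -⟩ :=
    form_spec (k := k) (odd_tt (j := j) (by have := he.j2; omega)) (by omega)
  have hF0 : FF f ≠ 0 := fun e => t3 (by rw [← t2, e, map_zero, leadingCoeff_zero])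
  have hQ0 : Q ≠ 0 := fun e => hF0 (by rw [hF, e, zero_mul])
  have hQ0' : Q' ≠ 0 := fun e => hF0 (by rw [hF, e, mul_zero])
  obtain ⟨δ', g₁', g₂', g₃', h'⟩ := exists_nm hQ0'
  obtain ⟨a1, a2⟩ := h.form_le hQ0
  obtain ⟨b1, b2⟩ := h'.form_le hQ0'
  obtain ⟨M, m1, m2⟩ := h.form_fac
  obtain ⟨M', m1', m2'⟩ := h'.form_fac
  have d1 : Q.natDegree + Q'.natDegree + 2 ^ r = f.natDegree := by
    rw [← natDegree_mul hQ0 hQ0', ← hF, FF, natDegree_SS, he.nd]
  have d2 : δ + δ' = f.natDegree := by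
    rw [← t1, hF, map_mul, natDegree_mul (hom_ne hQ0) (hom_ne hQ0'), h.deg, h'.deg]
  rw [hF, map_mul, leadingCoeff_mul] at t2
  have d3 : (hom k Q).leadingCoeff.natDegree + (hom k Q').leadingCoeff.natDegree + 2 ^ r
      = f.natDegree := by
    rw [← natDegree_mul (leadingCoeff_ne_zero.2 (hom_ne hQ0))
      (leadingCoeff_ne_zero.2 (hom_ne hQ0')), t2, natDegree_C_mul (C_ne_zero.1
        (left_ne_zero_of_mul t3)), natDegree_pow, he.deg]
    conv_rhs => rw [← s1]
    ring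
  have d4 : 2 ^ r ≤ g₃ + g₃' := by
    by_contra hc
    obtain ⟨e, he'⟩ : ∃ e, 2 ^ r = g₃ + g₃' + (e + 1) := ⟨2 ^ r - (g₃ + g₃') - 1, by omega⟩
    have hp : Prime (C X : k[X][X]) := prime_C_iff.2 prime_X
    have e1 : M * M' = C X * (C (C f.leadingCoeff) * C X ^ e * T ^ 2 ^ r) := by
      refine mul_left_cancel₀ (pow_ne_zero (g₃ + g₃') hp.ne_zero) ?_
      rw [m1, m1', s2, mul_pow, he'] at t2
      rw [he']
      linear_combination t2
    exact (hp.dvd_or_dvd ⟨_, e1⟩).elim m2 m2'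
  omega

end W27

end Pool.Agent.Lib.MP_346d6a_co
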