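import Mathlib

/-!
Ultrametric kernels are positive semidefinite.
-/

namespace Pool.Agent.Lib.MP_346d6a_co

namespace W64

open Finset

variable {α : Type*}

open Classical in
theorem per_psd (C : Finset α) (r : α → α → Prop) (hs : ∀ a ∈ C, ∀ b ∈ C, r a b → r b a)
    (ht : ∀ a ∈ C, ∀ b ∈ C, ∀ c ∈ C, r a b → r b c → r a c) (x : α → ℝ) :
    0 ≤ ∑ a ∈ C, ∑ b ∈ C, (if r a b then 1 else 0) * (x a * x b) := by
  let cl : α → Finset α := fun a => C.filter (r a)
  let y : Finset α → α → ℝ := fun c a => if cl a = c ∧ r a a then x a else 0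
  have key : ∀ a ∈ C, ∀ b ∈ C, (if r a b then 1 else 0) * (x a * x b) =
      ∑ c ∈ C.image cl, y c a * y c b := fun a ha b hb => by
    rw [sum_eq_single (cl a) (fun c _ hc => by simp [y, Ne.symm hc])
      fun h => absurd (mem_image_of_mem cl ha) h]
    by_cases h : r a b
    · have h' := hs a ha b hb h
      have e : cl b = cl a := filter_congr fun c hc =>
        ⟨ht a ha b hb c hc h, ht b hb a ha c hc h'⟩
      simp [y, h, e, ht a ha b hb a ha h h', ht b hb a ha b hb h' h]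
    · have : ¬ (cl b = cl a ∧ r b b) := fun e => h (mem_filter.1
        (e.1 ▸ mem_filter.2 ⟨hb, e.2⟩ : b ∈ cl a)).2
      simp only [y, if_neg h, if_neg this, zero_mul, mul_zero]
  rw [sum_congr rfl fun a ha => sum_congr rfl fun b hb => key a ha b hb,
    sum_congr rfl fun a _ => sum_comm, sum_comm]
  refine sum_nonneg fun c _ => ?_
  rw [← sum_mul_sum]
  exact mul_self_nonneg _

open Classical in
theorem ultra_psd (C : Finset α) (x : α → ℝ) (n : ℕ) : ∀ K : α → α → ℝ,
    ((C ×ˢ C).filter fun p => 0 < K p.1 p.2).card = n → (∀ a ∈ C, ∀ b ∈ C, K a b = K b a) →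
    (∀ a ∈ C, ∀ b ∈ C, 0 ≤ K a b) →
    (∀ a ∈ C, ∀ b ∈ C, ∀ c ∈ C, min (K a b) (K b c) ≤ K a c) →
    0 ≤ ∑ a ∈ C, ∑ b ∈ C, K a b * (x a * x b) := by
  induction n using Nat.strong_induction_on with
  | _ n ih =>
  intro K hn hs h0 hu
  rcases ((C ×ˢ C).filter fun p => 0 < K p.1 p.2).eq_empty_or_nonempty with he | he
  · refine (sum_eq_zero fun a ha => sum_eq_zero fun b hb => ?_).ge
    have : ¬ 0 < K a b := filter_eq_empty_iff.1 he (x := (a, b)) (mem_product.2 ⟨ha, hb⟩)
    rw [le_antisymm (not_lt.1 this) (h0 a ha b hb), zero_mul]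
  obtain ⟨p, hp, hm⟩ := exists_min_image _ (fun p => K p.1 p.2) he
  have m0 := (mem_filter.1 hp).2
  set m := K p.1 p.2 with hmd
  have hlt : ((C ×ˢ C).filter fun p => 0 < max (K p.1 p.2 - m) 0).card < n := by
    refine hn ▸ card_lt_card ⟨fun q hq => ?_, fun h => ?_⟩
    · rw [mem_filter] at hq ⊢
      refine ⟨hq.1, ?_⟩
      have := hq.2
      simp only [lt_max_iff, lt_irrefl, or_false] at this
      linarith
    · simpa [← hmd] using (mem_filter.1 (h hp)).2
  have h1 := ih _ hlt (fun a b => max (K a b - m) 0)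
    rfl (fun a ha b hb => by rw [hs a ha b hb]) (fun _ _ _ _ => le_max_right _ _)
    fun a ha b hb c hc => by
      rcases min_le_iff.1 (hu a ha b hb c hc) with h | h
      · exact min_le_of_left_le (max_le_max_right _ (by linarith))
      · exact min_le_of_right_le (max_le_max_right _ (by linarith))
  have h2 := mul_nonneg m0.le (per_psd C (fun a b => 0 < K a b)
    (fun a ha b hb h => hs a ha b hb ▸ h)
    (fun a ha b hb c hc h h' => (lt_min h h').trans_le (hu a ha b hb c hc)) x)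
  refine (add_nonneg h1 h2).trans_eq ?_
  simp only [mul_sum, ← sum_add_distrib]
  refine sum_congr rfl fun a ha => sum_congr rfl fun b hb => ?_
  split_ifs with h
  · have := hm (a, b) (mem_filter.2 ⟨mem_product.2 ⟨ha, hb⟩, h⟩)
    rw [max_eq_left (sub_nonneg.2 this)]
    ring
  · rw [le_antisymm (not_lt.1 h) (h0 a ha b hb), max_eq_right (by linarith)]
    ring

theorem ker (C S : Finset α) (hS : S ⊆ C) (K : α → α → ℝ) (hs : ∀ a ∈ C, ∀ b ∈ C, K a b = K b a)
    (h0 : ∀ a ∈ C, ∀ b ∈ C, 0 ≤ K a b)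
    (hu : ∀ a ∈ C, ∀ b ∈ C, ∀ c ∈ C, min (K a b) (K b c) ≤ K a c) {d : ℝ}
    (hd : ∀ a ∈ C, ∑ b ∈ C, K a b = d) :
    (S.card : ℝ) ^ 2 * d ≤ C.card * ∑ a ∈ S, ∑ b ∈ S, K a b := by
  classical
  rcases C.eq_empty_or_nonempty with rfl | hC
  · simp [subset_empty.1 hS]
  have hC' : (0 : ℝ) < C.card := by exact_mod_cast hC.card_pos
  have h1 := ultra_psd C (fun a => (if a ∈ S then (C.card : ℝ) else 0) - S.card) _ K rfl hs h0 hu
  have e1 : ∀ g : α → ℝ, ∑ a ∈ C, (if a ∈ S then (C.card : ℝ) else 0) * g a =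
      C.card * ∑ a ∈ S, g a := fun g => by
    simp only [ite_mul, zero_mul, ← sum_filter, filter_mem_eq_inter, inter_eq_right.2 hS, mul_sum]
  have e2 : ∀ a ∈ C, ∑ b ∈ C, K a b * (((if a ∈ S then (C.card : ℝ) else 0) - S.card) *
      ((if b ∈ S then (C.card : ℝ) else 0) - S.card)) =
      (if a ∈ S then (C.card : ℝ) else 0) * (C.card * ∑ b ∈ S, K a b - S.card * d) -
        S.card * (C.card * ∑ b ∈ S, K a b - S.card * d) := fun a ha => by
    rw [← sub_mul, ← hd a ha, ← e1, mul_sum C, ← sum_sub_distrib, mul_sum]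
    exact sum_congr rfl fun b _ => by ring
  have e3 : ∑ a ∈ C, ∑ b ∈ S, K a b = S.card * d := by
    rw [sum_comm, sum_congr rfl fun b hb => (sum_congr rfl fun a ha => hs a ha b (hS hb)).trans
      (hd b (hS hb)), sum_const, nsmul_eq_mul]
  rw [sum_congr rfl e2, sum_sub_distrib, e1, ← mul_sum, sum_sub_distrib, sum_sub_distrib, ← mul_sum,
    ← mul_sum, ← mul_sum, e3] at h1
  simp only [sum_const, nsmul_eq_mul] at h1
  nlinarith

end W64

end Pool.Agent.Lib.MP_346d6a_co
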