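import Pool.Agent.Lib.MP_346d6a_co.W27Def
import Pool.Agent.Lib.MP_346d6a_co.W64Ker

/-!
Ultrametric kernels are positive semidefinite.
-/

set_option maxSynthPendingDepth 3
set_option linter.unusedSectionVars false

namespace Pool.Agent.Lib.MP_346d6a_co

open Polynomial

namespace W27

open W48

variable {α : Type}

theorem ultra_psd (C : Finset α) (K : α → α → ℝ) (hs : ∀ a b, K a b = K b a)
    (h0 : ∀ a ∈ C, ∀ b ∈ C, 0 ≤ K a b)
    (hu : ∀ a ∈ C, ∀ b ∈ C, ∀ c ∈ C, min (K a b) (K b c) ≤ K a c) (u : α → ℝ) :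
    0 ≤ ∑ a ∈ C, ∑ b ∈ C, u a * u b * K a b := by
  refine (W64.ultra_psd C u _ K rfl (fun a _ b _ => hs a b) h0 hu).trans_eq ?_
  exact Finset.sum_congr rfl fun a _ => Finset.sum_congr rfl fun b _ => mul_comm _ _

theorem ultra_sum (C : Finset α) (K : α → α → ℝ) (hs : ∀ a b, K a b = K b a)
    (h0 : ∀ a ∈ C, ∀ b ∈ C, 0 ≤ K a b)
    (hu : ∀ a ∈ C, ∀ b ∈ C, ∀ c ∈ C, min (K a b) (K b c) ≤ K a c) {L : ℝ}
    (hL : ∀ a ∈ C, ∑ b ∈ C, K a b = L) {T : Finset α} (hT : T ⊆ C) :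
    (T.card : ℝ) ^ 2 * L ≤ C.card * ∑ a ∈ T, ∑ b ∈ T, K a b := by
  exact W64.ker C T hT K (fun a _ b _ => hs a b) h0 hu hL

end W27

end Pool.Agent.Lib.MP_346d6a_co
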