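import Pool.Agent.Lib.MP_346d6a_co.W27Red
import Pool.Agent.Lib.MP_346d6a_co.W27Cnt
import Pool.Agent.Lib.MP_346d6a_co.W27Psd

/-!
The roots near `x` are close to each other on average.
-/

set_option maxSynthPendingDepth 3
set_option linter.unusedSectionVars false

namespace Pool.Agent.Lib.MP_346d6a_co

open Polynomial

namespace W27

open W48

theorem red_prod_norm {K Ω : Type} [Field K] [Field Ω] [Algebra K Ω] (V : Val K Ω)
    (s : Multiset Ω) : ∃ (u : Ω) (q : K[X]), q.Monic ∧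
      V.Red (C u * (s.map fun y => X - C y).prod) q ∧
      V.v u * (s.map fun y => max 1 (V.v y)).prod = 1 := by
  induction s using Multiset.induction_on with
  | empty => exact ⟨1, 1, monic_one, by simpa using Val.Red.map (V := V) (1 : K[X]), by simp⟩
  | cons y s ih =>
    obtain ⟨u, q, hq, h1, h2⟩ := ih
    rcases le_or_gt (V.v y) 1 with hy | hy
    · obtain ⟨c, hc⟩ := V.res y hy
      refine ⟨u, (X - C c) * q, (monic_X_sub_C c).mul hq, ?_, ?_⟩
      · rw [Multiset.map_cons, Multiset.prod_cons, mul_left_comm]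
        exact (Val.Red.X.sub (Val.Red.C hc)).mul h1
      · rw [Multiset.map_cons, Multiset.prod_cons, max_eq_left hy, one_mul, h2]
    · have hy0 : y ≠ 0 := by rintro rfl; simp at hy
      refine ⟨-y⁻¹ * u, q, hq, ?_, ?_⟩
      · have e : C (-y⁻¹ * u) * (Multiset.map (fun y => X - C y) (y ::ₘ s)).prod =
            (C (-y⁻¹) * X + C 1) * (C u * (s.map fun y => X - C y).prod) := by
          rw [Multiset.map_cons, Multiset.prod_cons]
          have : (C 1 : Polynomial Ω) = C y⁻¹ * C y := by rw [← C_mul, inv_mul_cancel₀ hy0]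
          rw [this, C_mul, C_neg]
          ring
        rw [e]
        have h3 : V.Red (C (-y⁻¹) * X + C 1) (C 0 * X + C 1) := by
          refine ((Val.Red.C ?_).mul Val.Red.X).add (Val.Red.C (by simp))
          rw [map_zero, sub_zero, Valuation.map_neg, map_inv₀]
          exact inv_lt_one_of_one_lt₀ hy
        simpa using h3.mul h1
      · rw [Multiset.map_cons, Multiset.prod_cons, max_eq_right hy.le, map_mul, Valuation.map_neg,
          map_inv₀, mul_mul_mul_comm, inv_mul_cancel₀ ((V.v.ne_zero_iff).2 hy0), one_mul, h2]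

/-- The Gauss norm in terms of the roots. -/
theorem gauss_eq {K Ω : Type} [Field K] [Field Ω] [Algebra K Ω] [IsAlgClosed Ω] {V : Val K Ω}
    {p : Polynomial Ω} {pb : K[X]} (h : V.Red p pb) (h0 : pb ≠ 0) :
    V.v p.leadingCoeff * (p.roots.map fun y => max 1 (V.v y)).prod = 1 := by
  obtain ⟨u, q, hm, h1, h2⟩ := red_prod_norm V p.roots
  have hu : u ≠ 0 := by
    rintro rfl
    simp at h2
  have hp : p = C (p.leadingCoeff / u) * (C u * (p.roots.map fun y => X - C y).prod) := by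
    rw [← mul_assoc, ← C_mul, div_mul_cancel₀ _ hu]
    exact (IsAlgClosed.splits p).eq_prod_roots
  have e : p.leadingCoeff = p.leadingCoeff / u * u := (div_mul_cancel₀ _ hu).symm
  set w := p.leadingCoeff / u
  have hw : V.v w ≤ 1 := by
    have h3 := h1 q.natDegree
    rw [hm.coeff_natDegree] at h3
    have h4 := V.eq_one_of_res one_ne_zero h3
    have h5 := h.coeff_le q.natDegree
    rw [hp, coeff_C_mul, map_mul, h4, mul_one] at h5
    exact h5
  obtain ⟨c, hc⟩ := V.res w hw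
  have h3 := (Val.Red.C hc).mul h1
  rw [← hp] at h3
  have h4 := h.unique h3
  have hc0 : c ≠ 0 := by
    rintro rfl
    exact h0 (by simpa using h4)
  rw [e, map_mul, V.eq_one_of_res hc0 hc, one_mul, h2]

/-- The Gauss norm of a product of linear factors. -/
theorem gauss_prod {K Ω ι : Type} [Field K] [Field Ω] [Algebra K Ω] [IsAlgClosed Ω] {V : Val K Ω}
    {u : Ω} {T : Finset ι} {a : ι → Ω} {pb : K[X]}
    (h : V.Red (C u * ∏ i ∈ T, (X - C (a i))) pb) (h0 : pb ≠ 0) :
    V.v u * ∏ i ∈ T, max 1 (V.v (a i)) = 1 := by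
  have hu : u ≠ 0 := by
    rintro rfl
    exact h.ne_zero h0 (by simp)
  have h1 := gauss_eq h h0
  have e : ∏ i ∈ T, (X - C (a i)) = ((T.val.map a).map fun y => X - C y).prod := by
    rw [Multiset.map_map]; rfl
  rw [leadingCoeff_mul, leadingCoeff_C, (monic_prod_X_sub_C a T).leadingCoeff, mul_one,
    roots_C_mul _ hu, e, roots_multiset_prod_X_sub_C, Multiset.map_map] at h1
  exact h1

namespace St

variable {k k₁ Ω : Type} [Field k] [Field k₁] [Field Ω] [Algebra k k₁] [Algebra k Ω]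
  [Algebra k₁ Ω] [IsScalarTower k k₁ Ω] [CharP k 2] [IsAlgClosed k] [IsAlgClosed k₁] [IsAlgClosed Ω]
  (S : St k k₁ Ω)

theorem ne_of_not_cl {y y' : Ω} (h : ¬ S.Cl y y') : y' - y ≠ 0 := fun e => h (by simp [Cl, e])

theorem sub_le_x {y y' : Ω} (hy : y ∈ S.R) (hy' : y' ∈ S.R) : S.V.v (y' - y) ≤ S.V.v S.x := by
  obtain ⟨U, h, -⟩ := S.root_res hy
  obtain ⟨U', h', -⟩ := S.root_res hy'
  exact S.V.v.map_sub_le h'.le h.le

theorem K_nonneg {y y' : Ω} (hy : y ∈ S.R) (hy' : y' ∈ S.R) : 0 ≤ S.K y y' := by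
  rw [K]
  split_ifs with h
  · positivity
  · have := (v_le_iff (S.ne_of_not_cl h) S.x_ne).1 (S.sub_le_x hy hy')
    rw [lg_x] at this
    linarith

/-- The kernel bounds the distance. -/
theorem lg_le_K {y y' : Ω} (h : y' ≠ y) : lg S.V (y' - y) ≤ S.p - S.K y y' := by
  rw [K]
  split_ifs with h1
  · have := (v_le_iff (sub_ne_zero.2 h) S.μ_ne).1 h1
    rw [lg_μ] at this
    linarith
  · linarith

theorem K_le (y y' : Ω) : S.K y y' ≤ S.p + S.w := by
  rw [K]
  split_ifs with h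
  · exact le_rfl
  · have := (v_lt_iff S.μ_ne (S.ne_of_not_cl h)).1 (not_le.1 h)
    rw [lg_μ] at this
    linarith

theorem K_mono {y y' u u' : Ω} (h : S.V.v (y' - y) ≤ S.V.v (u' - u)) : S.K u u' ≤ S.K y y' := by
  by_cases h1 : S.Cl y y'
  · exact (S.K_le u u').trans_eq (if_pos h1).symm
  · have h2 : ¬ S.Cl u u' := fun e => h1 (h.trans e)
    have := (v_le_iff (S.ne_of_not_cl h1) (S.ne_of_not_cl h2)).1 h
    rw [K, K, if_neg h1, if_neg h2]
    linarith

theorem K_ultra (y y' y'' : Ω) : min (S.K y y') (S.K y' y'') ≤ S.K y y'' := by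
  have h := S.V.v.map_add (y'' - y') (y' - y)
  rw [sub_add_sub_cancel] at h
  rcases le_max_iff.1 h with h | h
  · exact (min_le_right _ _).trans (S.K_mono h)
  · exact (min_le_left _ _).trans (S.K_mono h)

theorem K_eq_zero {y y' : Ω} (hy : y ∈ S.R) (hy' : y' ∈ S.R) {U : k₁} (h : S.Res y U)
    (h' : ¬ S.Res y' U) : S.K y y' = 0 := by
  have h1 : S.V.v (y' - y) = S.V.v S.x :=
    le_antisymm (S.sub_le_x hy hy') (not_lt.1 fun e => h' (h.of_lt e))
  rw [K, if_neg fun e => h' (h.of_cl e), lg_congr h1, lg_x, sub_self]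

theorem red_ne {U : k₁} (hU : U = 1 ∨ U = S.z) : S.gp U + S.gp (U + 1 + S.z) ≠ 0 := by
  have := charP k k₁
  intro e
  have h1 := congrArg (fun q => q.coeff (2 ^ 0)) e
  simp only [gp, ap_add, coeff_ap, if_pos S.ed.zero, coeff_zero, gc] at h1
  rw [← mul_add, mul_eq_zero] at h1
  rcases h1 with h1 | h1
  · exact S.ed.cc_ne S.ed.zero ((_root_.map_eq_zero _).1 h1)
  · refine S.z_pow_ne (S.ed.dg_ne S.ed.zero) ?_
    rcases hU with rfl | rfl
    · rwa [CharTwo.add_self_eq_zero, zero_add, one_pow, CharTwo.add_eq_zero, eq_comm] at h1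
    · rwa [add_right_comm, CharTwo.add_self_eq_zero, zero_add, one_pow, CharTwo.add_eq_zero] at h1

theorem map_FF_eq : (FF S.f).map (ev2 S.s S.x) =
    C (ev2 S.s S.x (FF S.f).leadingCoeff) * ∏ y ∈ S.R, (X - C y) := by
  classical
  have h := (IsAlgClosed.splits ((FF S.f).map (ev2 S.s S.x))).eq_prod_roots
  rw [leadingCoeff_map_of_injective S.gen] at h
  rw [h, R, Rts, Finset.prod_eq_multiset_prod, Multiset.toFinset_val,
    (nodup_roots (S.gen.separable S.hf)).dedup]

theorem scaled_eq (y : Ω) : C S.b⁻¹ * (taylor y ((FF S.f).map (ev2 S.s S.x))).comp (C S.μ * X) =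
    C (S.b⁻¹ * ev2 S.s S.x (FF S.f).leadingCoeff * S.μ ^ S.R.card) *
      ∏ y' ∈ S.R, (X - C ((y' - y) / S.μ)) := by
  have e : ∀ y' : Ω, (taylor y (X - C y')).comp (C S.μ * X) = C S.μ * (X - C ((y' - y) / S.μ)) :=
    fun y' => by
      rw [mul_sub, ← C_mul, mul_div_cancel₀ _ S.μ_ne, C_sub]
      simp only [map_sub, taylor_X, taylor_C, sub_comp, add_comp, X_comp, C_comp]
      ring
  rw [map_FF_eq, taylor_mul, taylor_C, taylor_apply, Polynomial.prod_comp, mul_comp, C_comp,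
    Polynomial.prod_comp]
  simp only [← taylor_apply, e]
  rw [Finset.prod_mul_distrib, Finset.prod_const, C_mul, C_mul, C_pow]
  ring

open Classical in
theorem row_sum {y : Ω} (hy : y ∈ S.R) {U : k₁} (hU : U = 1 ∨ U = S.z) (h : S.Res y U) :
    ∑ y' ∈ S.R.filter fun y' => S.Res y' U, S.K y y' =
      S.p * S.f.natDegree + S.w - S.p * dg S.f 1 := by
  have h1 := S.red_root hy h
  rw [scaled_eq] at h1
  have h2 := gauss_prod h1 (S.red_ne hU)
  have hμ : 0 < S.V.v S.μ := (S.V.v.pos_iff).2 S.μ_ne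
  -- replace the maxima by values of elements
  let m : Ω → Ω := fun y' => if S.Cl y y' then 1 else (y' - y) / S.μ
  have m0 : ∀ y', m y' ≠ 0 := fun y' => by
    simp only [m]
    split_ifs with e
    · exact one_ne_zero
    · exact div_ne_zero (S.ne_of_not_cl e) S.μ_ne
  have m1 : ∀ y', max 1 (S.V.v ((y' - y) / S.μ)) = S.V.v (m y') := fun y' => by
    simp only [m]
    split_ifs with e
    · rw [map_one, max_eq_left]
      rwa [map_div₀, div_le_one hμ]
    · rw [max_eq_right]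
      rw [map_div₀, one_le_div₀ hμ]
      exact (not_le.1 e).le
  have m2 : ∀ y', lg S.V (m y') = S.p + S.w - S.K y y' := fun y' => by
    simp only [m, K]
    split_ifs with e
    · rw [lg_one, sub_self]
    · rw [lg_div (S.ne_of_not_cl e) S.μ_ne, lg_μ]; ring
  have l0 : ev2 S.s S.x (FF S.f).leadingCoeff ≠ 0 :=
    S.gen.ev2_ne (leadingCoeff_ne_zero.2 (FF_ne_zero S.hf))
  simp only [m1] at h2
  rw [← map_prod, ← map_mul] at h2
  have h3 := lg_of_v_one h2
  rw [lg_mul (mul_ne_zero (mul_ne_zero (inv_ne_zero S.b_ne) l0) (pow_ne_zero _ S.μ_ne))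
    (Finset.prod_ne_zero_iff.2 fun y' _ => m0 y'), lg_mul (mul_ne_zero (inv_ne_zero S.b_ne) l0)
    (pow_ne_zero _ S.μ_ne), lg_mul (inv_ne_zero S.b_ne) l0, lg_inv, lg_pow, lg_b, lg_μ,
    lg_prod _ _ fun y' _ => m0 y'] at h3
  simp only [m2, Finset.sum_sub_distrib, Finset.sum_const, nsmul_eq_mul] at h3
  rw [Finset.sum_filter_of_ne fun y' hy' e => by_contra fun e' => e (S.K_eq_zero hy hy' h e')]
  linarith [S.lg_lc]

theorem ker {U : k₁} (hU : U = 1 ∨ U = S.z) {T : Finset Ω} (hT : ∀ y ∈ T, y ∈ S.R ∧ S.Res y U) :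
    (S.p * tt S.j * T.card ^ 2 : ℝ) ≤ ∑ y ∈ T, ∑ y' ∈ T, S.K y y' := by
  classical
  have h1 := ultra_sum (S.R.filter fun y' => S.Res y' U) S.K S.K_symm
    (fun a ha b hb => S.K_nonneg (Finset.mem_filter.1 ha).1 (Finset.mem_filter.1 hb).1)
    (fun a _ b _ c _ => S.K_ultra a b c)
    (fun a ha => S.row_sum (Finset.mem_filter.1 ha).1 hU (Finset.mem_filter.1 ha).2)
    (T := T) fun y hy => Finset.mem_filter.2 (hT y hy)
  have h2 : (((S.R.filter fun y' => S.Res y' U).card : ℕ) : ℝ) ≤ 2 ^ S.r := by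
    exact_mod_cast S.card_near hU
  have h3 : 0 ≤ ∑ y ∈ T, ∑ y' ∈ T, S.K y y' :=
    Finset.sum_nonneg fun a ha => Finset.sum_nonneg fun b hb => S.K_nonneg (hT a ha).1 (hT b hb).1
  have h4 : (S.p * dg S.f 1 : ℝ) < S.w := by exact_mod_cast S.w_gt
  have h5 : (S.f.natDegree : ℝ) = 2 ^ S.r * tt S.j := by exact_mod_cast S.ed.deg
  have h6 := mul_le_mul_of_nonneg_right h2 h3
  have h7 := mul_nonneg (sq_nonneg (T.card : ℝ)) (sub_nonneg.2 h4.le)
  refine le_of_mul_le_mul_left ?_ (show (0 : ℝ) < 2 ^ S.r by positivity)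
  rw [h5] at h1
  nlinarith

end St

end W27

end Pool.Agent.Lib.MP_346d6a_co
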