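import Pool.Agent.Lib.MP_346d6a_co.W27Def
import Pool.Agent.Lib.MP_346d6a_co.TComb

/-!
Twin counting in a coherent configuration.
-/

set_option maxSynthPendingDepth 3
set_option linter.unusedSectionVars false

namespace Pool.Agent.Lib.MP_346d6a_co

open Polynomial

namespace W27

open W48

namespace Twin

open Classical in
/-- Two relations that hold for more than half of each row, resp. column, hold together. -/
theorem meet {α : Type} {A B : Finset α} (P Q : α → α → Prop) (hA : A.Nonempty) (hB : B.Nonempty)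
    (hP : ∀ a ∈ A, 2 * (B.filter fun b => ¬ P a b).card < B.card)
    (hQ : ∀ b ∈ B, 2 * (A.filter fun a => ¬ Q a b).card < A.card) :
    ∃ a ∈ A, ∃ b ∈ B, P a b ∧ Q a b := by
  by_contra hn
  have h1 : ∑ a ∈ A, 2 * (B.filter fun b => ¬ P a b).card < ∑ _a ∈ A, B.card :=
    Finset.sum_lt_sum_of_nonempty hA hP
  have h2 : ∑ b ∈ B, 2 * (A.filter fun a => ¬ Q a b).card < ∑ _b ∈ B, A.card :=
    Finset.sum_lt_sum_of_nonempty hB hQ
  have h3 : ∑ b ∈ B, (A.filter fun a => ¬ Q a b).card =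
      ∑ a ∈ A, (B.filter fun b => ¬ Q a b).card := by
    simp only [Finset.card_filter]
    exact Finset.sum_comm
  have h4 : ∑ _a ∈ A, B.card ≤ ∑ a ∈ A, ((B.filter fun b => ¬ P a b).card +
      (B.filter fun b => ¬ Q a b).card) := by
    refine Finset.sum_le_sum fun a ha => (Finset.card_le_card fun b hb => ?_).trans
      (Finset.card_union_le _ _)
    rw [Finset.mem_union, Finset.mem_filter, Finset.mem_filter]
    by_cases h : P a b
    · exact Or.inr ⟨hb, fun h' => hn ⟨a, ha, b, hb, h, h'⟩⟩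
    · exact Or.inl ⟨hb, h⟩
  rw [← Finset.mul_sum] at h1 h2
  rw [Finset.sum_add_distrib] at h4
  rw [h3] at h2
  simp only [Finset.sum_const, smul_eq_mul] at h1 h2 h4
  rw [mul_comm B.card] at h2
  omega

open Classical in
theorem row {α κ : Type} {X : Finset α} {c : α → α → κ} {ψ : κ → κ} (h : Coh X c ψ) {x y : α}
    (hx : x ∈ X) (hy : y ∈ X) (Z : α → Prop) (m : ∀ u ∈ X, ¬ Z u → c y u = c x u) {w : κ}
    (hw : 2 * (X.filter fun u => c x u = w ∧ Z u).card < (X.filter fun u => c x u = w).card)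
    {a : α} (ha : a ∈ X.filter fun u => c x u = c x y) :
    2 * ((X.filter fun u => c x u = w).filter fun b => ¬ c a b = w).card <
      (X.filter fun u => c x u = w).card := by
  obtain ⟨ha1, ha2⟩ := Finset.mem_filter.1 ha
  obtain ⟨π, hπ, e1, e2, e3⟩ := h.orb x hx y hy x hx a ha1 ha2.symm
  refine lt_of_le_of_lt (Nat.mul_le_mul_left 2 (Finset.card_le_card_of_surjOn π ?_)) hw
  intro b hb
  obtain ⟨hb1, hb2⟩ := Finset.mem_filter.1 (Finset.mem_coe.1 hb)
  obtain ⟨hb3, hb4⟩ := Finset.mem_filter.1 hb1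
  obtain ⟨u, hu, rfl⟩ := hπ.surjOn hb3
  have e4 : c x u = w := by rw [← e3 x hx u hu, e1, hb4]
  refine ⟨u, Finset.mem_coe.2 (Finset.mem_filter.2 ⟨hu, e4, ?_⟩), rfl⟩
  by_contra hz
  exact hb2 (by rw [← e2, e3 y hy u hu, m u hu hz, e4])

end Twin

open Classical in
/-- If `y₁` and `y₂` see all points outside `Z` as `x` does, and the colours of `(x, y₁)` and
`(x, y₂)` lie mostly outside `Z`, then these colours agree. -/
theorem twin {α κ : Type} {X : Finset α} {c : α → α → κ} {ψ : κ → κ} (h : Coh X c ψ) {x y₁ y₂ : α}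
    (hx : x ∈ X) (h₁ : y₁ ∈ X) (h₂ : y₂ ∈ X) (Z : α → Prop)
    (m₁ : ∀ u ∈ X, ¬ Z u → c y₁ u = c x u) (m₂ : ∀ u ∈ X, ¬ Z u → c y₂ u = c x u)
    (a₁ : 2 * (X.filter fun u => c x u = c x y₁ ∧ Z u).card <
      (X.filter fun u => c x u = c x y₁).card)
    (a₂ : 2 * (X.filter fun u => c x u = c x y₂ ∧ Z u).card <
      (X.filter fun u => c x u = c x y₂).card) : c x y₁ = c x y₂ := by
  have n₁ : (X.filter fun u => c x u = c x y₁).Nonempty := ⟨y₁, Finset.mem_filter.2 ⟨h₁, rfl⟩⟩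
  have n₂ : (X.filter fun u => c x u = c x y₂).Nonempty := ⟨y₂, Finset.mem_filter.2 ⟨h₂, rfl⟩⟩
  obtain ⟨a, ha, b, hb, e1, e2⟩ := Twin.meet (fun a b => c a b = c x y₁)
    (fun a b => c b a = c x y₁) n₁ n₁ (fun a ha => by convert Twin.row h hx h₁ Z m₁ a₁ ha)
    (fun b hb => by convert Twin.row h hx h₁ Z m₁ a₁ hb)
  obtain ⟨a', ha', b', hb', e3, e4⟩ := Twin.meet (fun a b => c a b = c x y₂)
    (fun a b => c b a = c x y₁) n₁ n₂ (fun a ha => by convert Twin.row h hx h₁ Z m₁ a₂ ha)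
    (fun b hb => by convert Twin.row h hx h₂ Z m₂ a₁ hb)
  have := TComb.transp h (Finset.mem_filter.1 ha).1 (Finset.mem_filter.1 hb).1
    (Finset.mem_filter.1 hb').1 (Finset.mem_filter.1 ha').1 (e1.trans e4.symm)
  rw [← e2, this, e3]

end W27

end Pool.Agent.Lib.MP_346d6a_co
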