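import Pool.Agent.Lib.MP_346d6a_co.W27Disc
import Pool.Agent.Lib.MP_346d6a_co.W27Twin

/-!
Exceptional polynomials of Kasami degree are tame.
-/

set_option maxSynthPendingDepth 3
set_option linter.unusedSectionVars false

namespace Pool.Agent.Lib.MP_346d6a_co

open Polynomial

namespace W27

open W48

theorem arith {p w t kk g₁ g₂ g₃ : ℝ} (hp : 0 < p) (ht : 13 ≤ t) (h1 : 1 ≤ g₁) (h2 : 0 ≤ g₃)
    (h3 : g₃ ≤ g₂) (h4 : g₁ + g₂ ≤ kk) (h5 : kk ≤ 2 * (g₁ + g₂)) (h6 : p + w ≤ p * (kk + g₃))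
    (h : p * t * (g₁ ^ 2 + g₂ ^ 2) + (kk - 2 * g₁ - 2 * g₂) * (p + w) ≤
      p * ((2 * kk - 1) * g₃ + kk ^ 2 - kk)) : False := by
  have e1 : (2 * (g₁ + g₂) - kk) * (p + w) ≤ (2 * (g₁ + g₂) - kk) * (p * (kk + g₃)) :=
    mul_le_mul_of_nonneg_left h6 (by linarith)
  have e2 : p * (t * (g₁ ^ 2 + g₂ ^ 2)) ≤ p * ((2 * kk - 1) * g₃ + kk ^ 2 - kk +
      (2 * (g₁ + g₂) - kk) * (kk + g₃)) := by nlinarith
  have e3 := le_of_mul_le_mul_left e2 hp
  have e4 : 13 * (g₁ ^ 2 + g₂ ^ 2) ≤ t * (g₁ ^ 2 + g₂ ^ 2) :=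
    mul_le_mul_of_nonneg_right ht (by positivity)
  have e5 : (g₁ + g₂) * kk ≤ (g₁ + g₂) * (2 * (g₁ + g₂)) :=
    mul_le_mul_of_nonneg_left h5 (by linarith)
  have e6 : g₃ * kk ≤ g₃ * (2 * (g₁ + g₂)) := mul_le_mul_of_nonneg_left h5 h2
  have e7 : (g₁ + g₂) * g₃ ≤ (g₁ + g₂) * g₂ := mul_le_mul_of_nonneg_left h3 (by linarith)
  nlinarith [sq_nonneg (3 * g₁ - 2 * g₂), sq_nonneg g₂]

namespace St

variable {k k₁ Ω : Type} [Field k] [Field k₁] [Field Ω] [Algebra k k₁] [Algebra k Ω]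
  [Algebra k₁ Ω] [IsScalarTower k k₁ Ω] [CharP k 2] [IsAlgClosed k] [IsAlgClosed k₁] [IsAlgClosed Ω]
  (S : St k k₁ Ω)
  {Q : k[X][X][X]} {δ g₁ g₂ g₃ : ℕ}

open Classical in
theorem near_card (hQ : Q ∣ FF S.f) (h : Nm Q δ g₁ g₂ g₃) :
    ((S.rt Q).filter fun y => ¬ S.Far y).card = g₁ + g₂ := by
  obtain ⟨c1, c2, -⟩ := S.count hQ h
  rw [← c1, ← c2, ← Finset.card_union_of_disjoint, ← Finset.filter_or]
  · congr 1
    refine Finset.filter_congr fun y _ => ?_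
    rw [Far]; tauto
  · exact Finset.disjoint_filter.2 fun y _ a b => S.z_ne_one (b.unique a)

theorem near_le (hQ : Q ∣ FF S.f) (h : Nm Q δ g₁ g₂ g₃) : g₁ + g₂ ≤ Q.natDegree := by
  classical
  rw [← S.near_card hQ h, ← S.card_rt hQ]
  exact Finset.card_filter_le _ _

theorem absurd_small (hQ : Q ∣ FF S.f) (h : Nm Q δ g₁ g₂ g₃) (h1 : 1 ≤ g₁) (h3 : g₃ ≤ g₂)
    (h5 : Q.natDegree ≤ 2 * (g₁ + g₂)) (h6 : S.p + S.w ≤ S.p * δ) : False := by
  have h4 := S.near_le hQ h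
  rw [← (h.deg3 S.ed hQ).2] at h6
  exact arith (p := S.p) (w := S.w) (t := tt S.j) (kk := Q.natDegree) (g₁ := g₁) (g₂ := g₂)
    (g₃ := g₃) (by exact_mod_cast S.p_pos) (by exact_mod_cast tt_ge S.ed.j2) (by exact_mod_cast h1)
    (by positivity) (by exact_mod_cast h3) (by exact_mod_cast h4) (by exact_mod_cast h5)
    (by exact_mod_cast h6) (S.disc hQ h (by omega))

open Classical in
/-- Most roots with the colour of a first level root are far. -/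
theorem big {y : Ω} (hy : y ∈ S.R) (hne : y ≠ S.x) (hc : S.Cl S.x y) :
    2 * (S.R.filter fun u => col k S.s S.x u = col k S.s S.x y ∧ ¬ S.Far u).card <
      (S.R.filter fun u => col k S.s S.x u = col k S.s S.x y).card := by
  obtain ⟨Q, hi, hQ, h0⟩ := exists_irred_factor (ev3 S.s S.x y) (FF S.f) (FF_ne_zero S.hf)
    (S.mem_R.1 hy)
  have key : ∀ u, u ∈ S.rt Q ↔ u ∈ S.R ∧ col k S.s S.x u = col k S.s S.x y := fun u =>
    ⟨fun hu => ⟨S.rt_subset hQ hu, by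
      rw [S.gen.col_eq hi ((S.mem_rt hi.ne_zero).1 hu), S.gen.col_eq hi h0]⟩,
      fun hu => (S.mem_rt hi.ne_zero).2 ((col_eq_iff.1 hu.2 Q).2 h0)⟩
  have e1 : (S.R.filter fun u => col k S.s S.x u = col k S.s S.x y) = S.rt Q := by
    ext u; rw [key, Finset.mem_filter]
  have e2 : (S.R.filter fun u => col k S.s S.x u = col k S.s S.x y ∧ ¬ S.Far u) =
      (S.rt Q).filter fun u => ¬ S.Far u := by
    ext u; rw [Finset.mem_filter, Finset.mem_filter, key, and_assoc]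
  obtain ⟨δ, g₁, g₂, g₃, h⟩ := exists_nm hi.ne_zero
  rw [e1, e2, S.near_card hQ h, S.card_rt hQ]
  by_contra hn
  have hyQ : y ∈ S.rt Q := (key y).2 ⟨hy, rfl⟩
  have hx : S.x ∉ S.rt Q := fun hx =>
    hne ((S.coh.diag _ S.x_mem _ S.x_mem _ hy).1 ((key _).1 hx).2).symm
  have h6 := S.delta_ge hQ h hyQ hx hc
  have h1 : 1 ≤ g₁ := by
    rw [← (S.count hQ h).1]
    exact Finset.card_pos.2 ⟨y, Finset.mem_filter.2 ⟨hyQ, S.res_x.of_cl hc⟩⟩
  rcases le_or_gt g₃ g₂ with h3 | h3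
  · exact S.absurd_small hQ h h1 h3 (not_lt.1 hn) h6
  · have hQ' : sg k Q ∣ FF S.f := by
      have e := map_dvd (sg k) hQ
      rwa [sg_FF] at e
    have d1 := (h.deg3 S.ed hQ).2
    have d2 := (h.sg.deg3 S.ed hQ').2
    exact S.absurd_small hQ' h.sg h1 h3.le (by omega) h6

include S in
theorem absurd : False := by
  obtain ⟨y, hy, hne, hc⟩ := S.partner_x
  have hg : ∀ P : k[X][X][X], S.g (ev3 S.s S.x y P) =
      ev3 S.s S.x (S.g y) (mp3 (S.φ : k →+* k) P) := fun P => by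
    have := map_ev3 S.s S.x y (S.φ : k →+* k) (S.g : Ω →+* Ω) S.ov P
    simpa only [RingHom.coe_coe, S.g_s, S.g_x] using this
  have hy' : S.g y ∈ S.R := by
    have := hg (FF S.f)
    rw [S.mem_R.1 hy, map_zero, mp3_FF, S.ctx.fix] at this
    exact S.mem_R.2 this.symm
  have hne' : S.g y ≠ S.x := fun e => hne (S.g.injective (by rw [e, S.g_x]))
  have hc' : S.Cl S.x (S.g y) := by
    rw [Cl, ← S.gv, map_sub, S.g_x] at hc
    exact hc
  have hcol : col k S.s S.x (S.g y) = (col k S.s S.x y).map (mp3 (S.φ : k →+* k)) := by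
    ext P
    obtain ⟨P, rfl⟩ := (mp3_bijective S.φ).2 P
    rw [mem_map_mp3, mem_col, mem_col, ← hg, map_eq_zero_iff _ S.g.injective]
  have := twin S.coh S.x_mem hy hy' (fun u => ¬ S.Far u)
    (fun u hu hF => S.modx hy hc hu (not_not.1 hF))
    (fun u hu hF => S.modx hy' hc' hu (not_not.1 hF))
    (by convert S.big hy hne hc) (by convert S.big hy' hne' hc')
  rcases S.ctx.fixed_col S.gen hy (by rw [← hcol, this]) with e | e
  · exact hne e
  · exact S.z_ne_one ((e ▸ S.res_xs : S.Res y S.z).unique (S.res_x.of_cl hc))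

end St

end W27

theorem wildK : WildK := by
  intro k _ _ _ φ f r j hc hl _ hj hd
  by_contra hw
  obtain ⟨a, I, he⟩ := W27.exists_ed hc hl hj hd hw
  obtain ⟨k₁, Ω, _, _, _, _, _, _, _, _, ⟨S⟩⟩ := W27.exists_st hc he
  exact S.absurd

end Pool.Agent.Lib.MP_346d6a_co
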