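import Pool.Agent.Lib.MP_346d6a_co.W28Def
import Pool.Agent.Lib.MP_346d6a_co.TIndep

/-!
Reduction of factorisations on a polydisc, and polynomial paths on the residue curve.
-/

set_option maxSynthPendingDepth 3

namespace Pool.Agent.Lib.MP_346d6a_co

open Polynomial

namespace W28

open TIndep

variable {k Ω : Type} [Field k] [Field Ω] [Algebra k Ω]

variable (k) in
/-- The substitution `s ↦ s₀ + l ε`, `u ↦ u₀ + μ ε + c t`. -/
noncomputable def sub2 (s₀ l u₀ μ c : Ω) : k[X][X] →+* (Polynomial Ω)[X] :=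
  eval₂RingHom (eval₂RingHom (C.comp (C.comp (algebraMap k Ω))) (C (C s₀ + C l * X)))
    (C (C u₀ + C μ * X) + C (C c) * X)

theorem evalEval_sub2 (s₀ l u₀ μ c ε t : Ω) (P : k[X][X]) :
    (sub2 k s₀ l u₀ μ c P).evalEval ε t = ev2 (s₀ + l * ε) (u₀ + μ * ε + c * t) P := by
  have : (evalEvalRingHom ε t).comp (sub2 k s₀ l u₀ μ c) =
      ev2 (s₀ + l * ε) (u₀ + μ * ε + c * t) := by
    ext <;> simp [sub2]
  exact RingHom.congr_fun this P

/-- Gauss lemma: a factorisation reduces to a factorisation of the reduction. -/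
theorem gauss2 [Infinite k] (V : Val k Ω) {Q₁ Q₂ : (Polynomial Ω)[X]} {b : Ω} {E : k[X][X]}
    (hE : E ≠ 0) (h : ∀ e t : k, V.v ((Q₁ * Q₂).evalEval (algebraMap k Ω e) (algebraMap k Ω t) / b -
      algebraMap k Ω (E.evalEval e t)) < 1) :
    ∃ (a₁ a₂ : Ω) (P₁ P₂ : (Polynomial Ω)[X]) (q₁ q₂ : k[X][X]), a₁ ≠ 0 ∧ a₂ ≠ 0 ∧
      Q₁ = C (C a₁) * P₁ ∧ Q₂ = C (C a₂) * P₂ ∧ Red2 V P₁ q₁ ∧ Red2 V P₂ q₂ ∧ q₁ * q₂ = E := by
  have hz : ∀ {x : k[X][X]}, (∀ e t : k, V.v (0 - algebraMap k Ω (x.evalEval e t)) < 1) → x = 0 :=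
    fun {x} hx => ext_ev2 fun e t => by
      have := hx e t
      rw [zero_sub, Valuation.map_neg] at this
      rw [evalEval_zero]
      exact V.eq_zero_of_lt this
  have h0 : Q₁ * Q₂ ≠ 0 := fun h0 => hE (hz fun e t => by simpa [h0] using h e t)
  obtain ⟨a₁, P₁, q₁, n₁, rfl, r₁, m₁⟩ := exists_norm V (left_ne_zero_of_mul h0)
  obtain ⟨a₂, P₂, q₂, n₂, rfl, r₂, m₂⟩ := exists_norm V (right_ne_zero_of_mul h0)
  have key : ∀ e z : k, ∃ w : Ω, V.v (w - algebraMap k Ω ((q₁ * q₂).evalEval e z)) < 1 ∧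
      V.v (a₁ * a₂ / b * w - algebraMap k Ω (E.evalEval e z)) < 1 := fun e z => by
    refine ⟨P₁.evalEval (algebraMap k Ω e) (algebraMap k Ω z) *
      P₂.evalEval (algebraMap k Ω e) (algebraMap k Ω z), ?_, ?_⟩
    · rw [evalEval_mul]
      exact V.res_mul (r₁.eval (V.res_const e) (V.res_const z))
        (r₂.eval (V.res_const e) (V.res_const z))
    · have := h e z
      convert this using 3
      simp only [evalEval_mul, evalEval_CC]
      ring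
  have hq : q₁ * q₂ ≠ 0 := mul_ne_zero m₁ m₂
  have hA : V.v (a₁ * a₂ / b) ≤ 1 := by
    by_contra hA
    refine hq (ext_ev2 fun e z => ?_)
    obtain ⟨w, w1, w2⟩ := key e z
    rw [evalEval_zero]
    by_contra h1
    have := V.le_one_of_res w2
    rw [map_mul, V.eq_one_of_res h1 w1, mul_one] at this
    exact hA this
  obtain ⟨β, hβ⟩ := V.res _ hA
  have hE' : C (C β) * q₁ * q₂ = E := ext_ev2 fun e z => by
    obtain ⟨w, w1, w2⟩ := key e z
    have := V.res_unique' w2 (V.res_mul hβ w1)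
    simp only [evalEval_mul, evalEval_CC] at this ⊢
    linear_combination -this
  have hβ0 : algebraMap k Ω β ≠ 0 := by
    rw [_root_.map_ne_zero]
    rintro rfl
    exact hE (by simpa using hE'.symm)
  refine ⟨a₁ / algebraMap k Ω β, a₂, C (C (algebraMap k Ω β)) * P₁, P₂, C (C β) * q₁, q₂,
    div_ne_zero n₁ hβ0, n₂, ?_, rfl, fun i => ?_, r₂, hE'⟩
  · rw [← mul_assoc, ← C_mul, ← C_mul, div_mul_cancel₀ _ hβ0]
  · rw [coeff_C_mul, coeff_C_mul]
    exact (Val.Red.C (V.res_const β)).mul (r₁ i)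

/-- Zeros reduce to zeros. -/
theorem red_zero {V : Val k Ω} {P : (Polynomial Ω)[X]} {q : k[X][X]} (h : Red2 V P q) {ε ξ : Ω}
    {e t : k} (he : V.v (ε - algebraMap k Ω e) < 1) (ht : V.v (ξ - algebraMap k Ω t) < 1)
    (h0 : P.evalEval ε ξ = 0) : q.evalEval e t = 0 := by
  have := h.eval he ht
  rw [h0, zero_sub, Valuation.map_neg] at this
  exact V.eq_zero_of_lt this

/-- Zeros of the reduction on a fibre lift. -/
theorem red_lift [IsAlgClosed Ω] {V : Val k Ω} {P : (Polynomial Ω)[X]} {q : k[X][X]}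
    (h : Red2 V P q) {ε : Ω} {e t : k} (he : V.v (ε - algebraMap k Ω e) < 1)
    (hq : q.map (evalRingHom e) ≠ 0) (h0 : q.evalEval e t = 0) :
    ∃ ξ, V.v (ξ - algebraMap k Ω t) < 1 ∧ P.evalEval ε ξ = 0 := by
  obtain ⟨ξ, h1, h2⟩ := V.lift_root (P.map (evalRingHom ε)) (q.map (evalRingHom e)) hq
    (fun i => by
      rw [coeff_map, coeff_map]
      exact (h i).eval he) t (by rwa [map_evalRingHom_eval])
  exact ⟨ξ, h2, by rwa [map_evalRingHom_eval] at h1⟩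

/-- Two points of a polynomial path on a smooth curve lie on the same factor. -/
theorem path_indep {E q₁ q₂ q₃ : k[X][X]} (hE : q₁ * q₂ * q₃ = E)
    (hsm : ∀ e t : k, E.evalEval e t = 0 → (derivative E).evalEval e t ≠ 0) (p w : k[X])
    (hp : (aevalAeval p w : k[X][X] →ₐ[k] k[X]) E = 0) {χ₁ χ₂ : k}
    (h₁ : q₁.evalEval (p.eval χ₁) (w.eval χ₁) = 0) (h₂ : q₂.evalEval (p.eval χ₂) (w.eval χ₂) = 0) :
    False := by
  have ev : ∀ (q : k[X][X]) (χ : k), ((aevalAeval p w : k[X][X] →ₐ[k] k[X]) q).eval χ =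
      q.evalEval (p.eval χ) (w.eval χ) := fun q χ => by
    have : (evalRingHom χ).comp (aevalAeval p w : k[X][X] →ₐ[k] k[X]).toRingHom =
        evalEvalRingHom (p.eval χ) (w.eval χ) := by
      ext <;> simp
    exact RingHom.congr_fun this q
  have two : ∀ {r₁ r₂ r₃ : k[X][X]} {e t : k}, r₁ * r₂ * r₃ = E → r₁.evalEval e t = 0 →
      r₂.evalEval e t = 0 → False := fun {r₁ r₂ r₃ e t} hr a₁ a₂ => by
    refine hsm e t ?_ ?_ <;> rw [← hr]
    · simp [evalEval_mul, a₁]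
    · simp [derivative_mul, evalEval_mul, evalEval_add, a₁, a₂]
  rw [← hE, map_mul, map_mul, mul_eq_zero, mul_eq_zero] at hp
  rcases hp with (hp | hp) | hp
  · exact two hE (by rw [← ev, hp, eval_zero]) h₂
  · exact two hE h₁ (by rw [← ev, hp, eval_zero])
  · exact two (r₁ := q₁) (r₂ := q₃) (r₃ := q₂) (by rw [← hE]; ring) h₁
      (by rw [← ev, hp, eval_zero])

/-- The polydisc lemma. -/
theorem polydisc [Infinite k] (V : Val k Ω) {Q₁ Q₂ Q₃ : (Polynomial Ω)[X]} {b : Ω} {E : k[X][X]}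
    (h : ∀ e t : k, V.v ((Q₁ * Q₂ * Q₃).evalEval (algebraMap k Ω e) (algebraMap k Ω t) / b -
      algebraMap k Ω (E.evalEval e t)) < 1)
    (hsm : ∀ e t : k, E.evalEval e t = 0 → (derivative E).evalEval e t ≠ 0) (p w : k[X])
    (hp : (aevalAeval p w : k[X][X] →ₐ[k] k[X]) E = 0) {χ₁ χ₂ : k} {ε₁ ξ₁ ε₂ ξ₂ : Ω}
    (e₁ : V.v (ε₁ - algebraMap k Ω (p.eval χ₁)) < 1) (t₁ : V.v (ξ₁ - algebraMap k Ω (w.eval χ₁)) < 1)
    (e₂ : V.v (ε₂ - algebraMap k Ω (p.eval χ₂)) < 1) (t₂ : V.v (ξ₂ - algebraMap k Ω (w.eval χ₂)) < 1)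
    (z₁ : Q₁.evalEval ε₁ ξ₁ = 0) (z₂ : Q₂.evalEval ε₂ ξ₂ = 0) : False := by
  have hE : E ≠ 0 := by
    rintro rfl
    exact hsm 0 0 (by simp) (by simp)
  obtain ⟨a, a₃, P, P₃, q, q₃, na, -, hP, -, rP, -, hq⟩ := gauss2 V hE h
  have hq0 : q ≠ 0 := by
    rintro rfl
    exact hE (by simpa using hq.symm)
  obtain ⟨a₁, a₂, P₁, P₂, q₁, q₂, n₁, n₂, rfl, rfl, r₁, r₂, hq'⟩ :=
    gauss2 V (Q₁ := Q₁) (Q₂ := Q₂) (b := a) hq0 fun e t => by
      rw [hP, evalEval_mul, evalEval_CC, mul_div_cancel_left₀ _ na]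
      exact rP.eval (V.res_const e) (V.res_const t)
  rw [evalEval_mul, evalEval_CC] at z₁ z₂
  exact path_indep (by rw [hq', hq]) hsm p w hp
    (red_zero r₁ e₁ t₁ ((mul_eq_zero.1 z₁).resolve_left n₁))
    (red_zero r₂ e₂ t₂ ((mul_eq_zero.1 z₂).resolve_left n₂))

theorem tr_sq {R : Type} [CommRing R] [CharP R 2] (a : ℕ) (x : R) :
    (∑ i ∈ Finset.range a, x ^ 2 ^ i) ^ 2 + ∑ i ∈ Finset.range a, x ^ 2 ^ i = x ^ 2 ^ a + x := by
  have two : (2 : R) = 0 := CharTwo.two_eq_zero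
  induction a with
  | zero => simp [CharTwo.add_self_eq_zero]
  | succ n ih =>
    rw [Finset.sum_range_succ, pow_succ 2 n, pow_mul]
    linear_combination ih + ((∑ i ∈ Finset.range n, x ^ 2 ^ i) * x ^ 2 ^ n + x ^ 2 ^ n) * two

/-- Paths on the curve `w ^ q + w = m e + z e ^ 2`. -/
theorem exists_path [IsAlgClosed k] [CharP k 2] (a : ℕ) (m z h : k) (h0 : m ≠ 0 ∨ z ≠ 0)
    (hh : h ^ 2 ^ a = h)
    (hρ : ∀ ρ : k, ρ ^ 2 ^ a = ρ → z = ρ * m ^ 2 → m ≠ 0 → Tr a (ρ * h) = 0) :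
    ∃ (p w : k[X]) (χ : k), w ^ 2 ^ a + w + C m * p + C z * p ^ 2 = 0 ∧
      p.eval 0 = 0 ∧ w.eval 0 = 0 ∧ p.eval χ = 0 ∧ w.eval χ = h := by
  have hq : 2 ^ a ≠ 0 := by positivity
  have two : (2 : k) = 0 := CharTwo.two_eq_zero
  have twoP : (2 : k[X]) = 0 := CharTwo.two_eq_zero
  by_cases hz : z = 0
  · have hm : m ≠ 0 := h0.resolve_right (not_not.2 hz)
    refine ⟨C m⁻¹ * (X ^ 2 ^ a + X), X, h, ?_, by simp [hq], by simp, ?_, by simp⟩
    · rw [hz, ← mul_assoc, ← C_mul, mul_inv_cancel₀ hm, C_1, C_0]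
      linear_combination (X ^ 2 ^ a + X) * twoP
    · simp [hh, CharTwo.add_self_eq_zero]
  by_cases hm : m = 0
  · obtain ⟨s, hs⟩ := IsAlgClosed.exists_pow_nat_eq z (n := 2) two_pos
    obtain ⟨χ, hχ⟩ := IsAlgClosed.exists_pow_nat_eq h (n := 2) two_pos
    have hs0 : s ≠ 0 := by
      rintro rfl
      exact hz (by simpa using hs.symm)
    refine ⟨C s⁻¹ * (X ^ 2 ^ a + X), X ^ 2, χ, ?_, by simp [hq], by simp, ?_, by simpa using hχ⟩
    · have h1 : (C z : k[X]) * C s⁻¹ ^ 2 = 1 := by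
        rw [← C_pow, ← C_mul, ← hs, ← mul_pow, mul_inv_cancel₀ hs0, one_pow, C_1]
      rw [hm, C_0, ← pow_mul, mul_comm 2, pow_mul]
      linear_combination (X ^ 2 ^ a + X) ^ 2 * h1 +
        ((X ^ 2 ^ a) ^ 2 + X ^ 2 + X ^ 2 ^ a * X) * twoP
    · have h1 : (χ ^ 2 ^ a + χ) ^ 2 = 0 := by
        have h2 : (χ ^ 2 ^ a) ^ 2 = h := by rw [← pow_mul, mul_comm, pow_mul, hχ, hh]
        linear_combination h2 + hχ + (h + χ ^ 2 ^ a * χ) * two
      simp [pow_eq_zero_iff (two_ne_zero) |>.1 h1]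
  obtain ⟨ρ, hρz⟩ : ∃ ρ : k, z = ρ * m ^ 2 := ⟨z / m ^ 2, by field_simp⟩
  have fin : ∀ e w : k[X], e ^ 2 + e = C ρ * (w ^ 2 ^ a + w) →
      w ^ 2 ^ a + w + C m * (C (m / z) * e) + C z * (C (m / z) * e) ^ 2 = 0 := fun e w he => by
    have h1 : (C m : k[X]) * C (m / z) * C ρ = 1 := by
      rw [← C_mul, ← C_mul, ← C_1]
      congr 1
      field_simp
      linear_combination -hρz
    have h2 : (C z : k[X]) * C (m / z) ^ 2 = C m * C (m / z) := by
      rw [← C_pow, ← C_mul, ← C_mul]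
      congr 1
      field_simp
    linear_combination (e ^ 2) * h2 + (C m * C (m / z)) * he + (w ^ 2 ^ a + w) * h1 +
      (w ^ 2 ^ a + w) * twoP
  have evT : ∀ (x : k[X]) (χ : k), (∑ i ∈ Finset.range a, x ^ 2 ^ i).eval χ = Tr a (x.eval χ) :=
    fun x χ => by simp [Tr, eval_finsetSum]
  have T0 : Tr a (0 : k) = 0 := Finset.sum_eq_zero fun i _ => zero_pow (by positivity)
  by_cases hfix : ρ ^ 2 ^ a = ρ
  · refine ⟨C (m / z) * ∑ i ∈ Finset.range a, (C ρ * X) ^ 2 ^ i, X, h, fin _ _ ?_, ?_, by simp, ?_,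
      by simp⟩
    · rw [tr_sq, mul_pow, ← C_pow, hfix]
      ring
    · rw [eval_mul, evT]
      simp [T0]
    · rw [eval_mul, evT]
      simp [hρ ρ hfix hρz hm]
  · obtain ⟨g, hg⟩ := IsAlgClosed.exists_pow_nat_eq ρ (n := 2 ^ a) (by positivity)
    have hd : ρ + g ≠ 0 := fun hd => by
      have : g = ρ := by linear_combination hd - ρ * two
      exact hfix (by rw [← this] at hg ⊢; exact hg)
    obtain ⟨w, hw⟩ : ∃ w : k[X], w = C (ρ + g)⁻¹ * (X ^ 2 + X) := ⟨_, rfl⟩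
    have hw1 : (C ρ + C g) * w = X ^ 2 + X := by
      rw [hw, ← mul_assoc, ← C_add, ← C_mul, mul_inv_cancel₀ hd, C_1, one_mul]
    have hwχ : w.eval (Tr a (g * h)) = h := by
      have h1 : Tr a (g * h) ^ 2 + Tr a (g * h) = (g * h) ^ 2 ^ a + g * h := tr_sq a (g * h)
      rw [mul_pow, hg, hh] at h1
      rw [hw]
      simp only [eval_mul, eval_C, eval_add, eval_pow, eval_X]
      rw [h1]
      field_simp
    have hw0 : w.eval 0 = 0 := by simp [hw]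
    refine ⟨C (m / z) * (∑ i ∈ Finset.range a, (C g * w) ^ 2 ^ i + X), w, Tr a (g * h),
      fin _ _ ?_, ?_, hw0, ?_, hwχ⟩
    · have h1 := tr_sq a (C g * w)
      rw [mul_pow, ← C_pow, hg] at h1
      linear_combination h1 - hw1 +
        ((∑ i ∈ Finset.range a, (C g * w) ^ 2 ^ i) * X + C g * w) * twoP
    · rw [eval_mul, eval_add, evT]
      simp [hw0, T0]
    · rw [eval_mul, eval_add, evT]
      simp [hwχ, CharTwo.add_self_eq_zero]

end W28

end Pool.Agent.Lib.MP_346d6a_co
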