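import Pool.Agent.Lib.MP_346d6a_co.W27Red
import Pool.Agent.Lib.MP_346d6a_co.W28Path

/-!
Moving three of the four points on the first level.
-/

set_option maxSynthPendingDepth 3
set_option linter.unusedSectionVars false

namespace Pool.Agent.Lib.MP_346d6a_co

open Polynomial

namespace W27

open W48

variable {k k₁ Ω : Type} [Field k] [Field k₁] [Field Ω] [Algebra k k₁] [Algebra k Ω]
  [Algebra k₁ Ω] [IsScalarTower k k₁ Ω] [CharP k 2] [IsAlgClosed k] [IsAlgClosed k₁] [IsAlgClosed Ω]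
  (S : St k k₁ Ω)

theorem indep3 (V : Val k₁ Ω) {G : k[X][X][X]} (hG : G ≠ 0) (σ ξ η : (Polynomial Ω)[X]) {b : Ω}
    (h : ∀ e t : k₁, V.v (ev3 (σ.evalEval (algebraMap k₁ Ω e) (algebraMap k₁ Ω t))
      (ξ.evalEval (algebraMap k₁ Ω e) (algebraMap k₁ Ω t))
      (η.evalEval (algebraMap k₁ Ω e) (algebraMap k₁ Ω t)) G / b - algebraMap k₁ Ω t) < 1)
    {s x₁ x₂ y₁ y₂ : Ω} (h₁ : Gen k s x₁) (h₂ : Gen k s x₂) (g₁ : ev3 s x₁ y₁ G = 0)
    (g₂ : ev3 s x₂ y₂ G = 0) (s₁ : σ.evalEval 0 0 = s) (s₂ : σ.evalEval 1 0 = s)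
    (a₁ : ξ.evalEval 0 0 = x₁) (a₂ : ξ.evalEval 1 0 = x₂) (b₁ : η.evalEval 0 0 = y₁)
    (b₂ : η.evalEval 1 0 = y₂) : col k s x₁ y₁ = col k s x₂ y₂ := by
  let Ψ : k[X][X][X] →+* (Polynomial Ω)[X] := eval₂RingHom (eval₂RingHom (eval₂RingHom
    (C.comp (C.comp (algebraMap k Ω))) σ) ξ) η
  have ev : ∀ (e t : Ω) (P : k[X][X][X]), (Ψ P).evalEval e t =
      ev3 (σ.evalEval e t) (ξ.evalEval e t) (η.evalEval e t) P := fun e t P => by
    have : (evalEvalRingHom e t).comp Ψ =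
        ev3 (σ.evalEval e t) (ξ.evalEval e t) (η.evalEval e t) := by
      ext <;> simp [Ψ]
    exact RingHom.congr_fun this P
  refine col_eq_of h₁ h₂ hG g₁ g₂ fun P Q _ _ ⟨R, hR⟩ hP hQ => ?_
  refine W28.polydisc V (Q₁ := Ψ P) (Q₂ := Ψ Q) (Q₃ := Ψ R) (b := b) (E := X)
    (fun e t => ?_) (fun e t _ => by simp) X 0 (by simp) (χ₁ := 0) (χ₂ := 1) (ε₁ := 0) (ξ₁ := 0)
    (ε₂ := 1) (ξ₂ := 0) (by simp) (by simp) (by simp) (by simp) ?_ ?_
  · rw [← map_mul, ← map_mul, ← hR, ev, evalEval_X]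
    exact h e t
  · rw [ev, s₁, a₁, b₁, hP]
  · rw [ev, s₂, a₂, b₂, hQ]

theorem St.move {A B D θ : Ω} {U₁ U₂ U₃ : k₁} (hA : S.Res A U₁) (hB : S.Res B U₂) (hD : S.Res D U₃)
    (A₁ A₂ : k₁[X]) (h1 : A₁.eval 0 = 0) (h2 : A₂.eval 0 = 0)
    (hE : (S.gp U₁ + S.gp U₂).comp A₁ + (S.gp U₁ + S.gp U₃).comp A₂ = X)
    (hθ : S.V.v θ ≤ S.V.v S.μ)
    (h0 : aeval (A + θ) S.f + aeval A S.f + (aeval (B + θ) S.f + aeval B S.f) = 0) :
    ∃ α β : (Polynomial Ω)[X], α.evalEval 0 0 = 0 ∧ β.evalEval 0 0 = 0 ∧ α.evalEval 1 0 = θ ∧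
      β.evalEval 1 0 = 0 ∧ ∀ (e t : k₁) (u v : Ω),
        u = α.evalEval (algebraMap k₁ Ω e) (algebraMap k₁ Ω t) →
        v = β.evalEval (algebraMap k₁ Ω e) (algebraMap k₁ Ω t) →
        S.V.v ((aeval (A + (u + v)) S.f + aeval A S.f + (aeval (B + u) S.f + aeval B S.f) +
          (aeval (D + v) S.f + aeval D S.f)) / S.b - algebraMap k₁ Ω t) < 1 := by
  have := charP k k₁
  have μ0 := S.μ_ne
  obtain ⟨t₀, ht₀⟩ := S.V.res (θ / S.μ) (by
    rwa [map_div₀, div_le_one ((S.V.v.pos_iff).2 μ0)])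
  set P := S.gp U₁ + S.gp U₂ with hP
  have P0 : P.eval t₀ = 0 := by
    have := S.V.res_add (St.red_pt hA ht₀) (St.red_pt hB ht₀)
    rw [← add_div, h0, zero_div, zero_sub, Valuation.map_neg] at this
    rw [hP, eval_add]
    exact S.V.eq_zero_of_lt this
  have P00 : P.eval 0 = 0 := by simp [hP, St.gp, eval_ap]
  let η : (Polynomial Ω)[X] := X + C (aeval (C (algebraMap k₁ Ω t₀) * X) P)
  have al : ∀ (Q : k₁[X]) (e t : Ω), (aeval η Q).evalEval e t =
      aeval (t + aeval (algebraMap k₁ Ω t₀ * e) P) Q := fun Q e t => by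
    have e1 : ∀ (R : k₁[X]) (u : Polynomial Ω), (aeval u R).eval e = aeval (u.eval e) R :=
      fun R u => by
        induction R using Polynomial.induction_on' with
        | add p q hp hq => simp only [map_add, eval_add, hp, hq]
        | monomial n c => simp [aeval_monomial]
    induction Q using Polynomial.induction_on' with
    | add p q hp hq => simp only [map_add, evalEval_add, hp, hq]
    | monomial n c => simp [aeval_monomial, evalEval_mul, evalEval_pow, evalEval_add, η,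
        evalEval_C, e1]
  have al' : ∀ (Q : k₁[X]) (e t : k₁), (aeval η Q).evalEval (algebraMap k₁ Ω e)
      (algebraMap k₁ Ω t) = algebraMap k₁ Ω (Q.eval (t + P.eval (t₀ * e))) := fun Q e t => by
    rw [al, ← map_mul, aeval_algebraMap_apply, ← map_add, aeval_algebraMap_apply,
      coe_aeval_eq_eval, coe_aeval_eq_eval]
  have a0 : ∀ Q : k₁[X], Q.eval 0 = 0 → (aeval η Q).evalEval 0 0 = 0 := fun Q hQ => by
    simpa [P00, hQ] using al' Q 0 0
  have a1 : ∀ Q : k₁[X], Q.eval 0 = 0 → (aeval η Q).evalEval 1 0 = 0 := fun Q hQ => by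
    simpa [P0, hQ] using al' Q 1 0
  refine ⟨C (C θ * X) + C (C S.μ) * aeval η A₁, C (C S.μ) * aeval η A₂, ?_, ?_, ?_, ?_,
    fun e t u v hu hv => ?_⟩
  · simp [evalEval_add, evalEval_mul, evalEval_C, a0 _ h1]
  · simp [evalEval_mul, a0 _ h2]
  · simp [evalEval_add, evalEval_mul, evalEval_C, a1 _ h1]
  · simp [evalEval_mul, a1 _ h2]
  rw [evalEval_add, evalEval_mul, evalEval_CC, al', evalEval_C, eval_mul, eval_C, eval_X] at hu
  rw [evalEval_mul, evalEval_CC, al'] at hv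
  set y := t + P.eval (t₀ * e) with hy
  have ru : S.V.v (u / S.μ - algebraMap k₁ Ω (t₀ * e + A₁.eval y)) < 1 := by
    have := S.V.res_add (S.V.res_mul ht₀ (S.V.res_const e)) (S.V.res_const (A₁.eval y))
    rw [hu]
    convert this using 3
    field_simp
  have rv : S.V.v (v / S.μ - algebraMap k₁ Ω (A₂.eval y)) < 1 := by
    rw [hv, mul_div_cancel_left₀ _ μ0]
    exact S.V.res_const _
  have ruv := S.V.res_add ru rv
  rw [← add_div] at ruv
  have h3 := S.V.res_add (S.V.res_add (St.red_pt hA ruv) (St.red_pt hB ru)) (St.red_pt hD rv)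
  rw [← add_div, ← add_div] at h3
  convert h3 using 4
  have h4 := congrArg (eval y) hE
  simp only [eval_add, eval_comp, eval_X, hP] at h4
  simp only [St.gp, eval_ap_add, eval_add, hP] at h4 hy ⊢
  linear_combination -h4 - hy - (CharTwo.two_eq_zero (R := k₁)) *
    (eval (t₀ * e) (ap S.I (gc S.f U₁)) + eval (t₀ * e) (ap S.I (gc S.f U₂)))

end W27

end Pool.Agent.Lib.MP_346d6a_co
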