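import Pool.Agent.Lib.MP_346d6a_co.W27Def

/-!
The reduction on the first level.
-/

set_option maxSynthPendingDepth 3
set_option linter.unusedSectionVars false

namespace Pool.Agent.Lib.MP_346d6a_co

open Polynomial

namespace W27

open W48

namespace St

variable {k k₁ Ω : Type} [Field k] [Field k₁] [Field Ω] [Algebra k k₁] [Algebra k Ω]
  [Algebra k₁ Ω] [IsScalarTower k k₁ Ω] [CharP k 2] [IsAlgClosed k] [IsAlgClosed k₁] [IsAlgClosed Ω]
  (S : St k k₁ Ω)

/-- The residue of a polynomial at a large point. -/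
theorem res_lead {A : Ω} {U : k₁} (h : S.Res A U) (H : k[X]) :
    S.V.v (aeval A H / S.x ^ H.natDegree -
      algebraMap k₁ Ω (algebraMap k k₁ H.leadingCoeff * U ^ H.natDegree)) < 1 := by
  have hx := S.x_ne
  have e : aeval A H / S.x ^ H.natDegree = ∑ i ∈ Finset.range (H.natDegree + 1),
      algebraMap k₁ Ω (algebraMap k k₁ (H.coeff i)) * (A / S.x) ^ i *
        S.x⁻¹ ^ (H.natDegree - i) := by
    rw [aeval_eq_sum_range, Finset.sum_div]
    refine Finset.sum_congr rfl fun i hi => ?_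
    obtain ⟨d, hd⟩ := Nat.exists_eq_add_of_le (Nat.lt_succ_iff.1 (Finset.mem_range.1 hi))
    rw [← IsScalarTower.algebraMap_apply, Algebra.smul_def, hd, Nat.add_sub_cancel_left, pow_add,
      div_pow, inv_pow]
    field_simp
  have hi : S.V.v (S.x⁻¹ - algebraMap k₁ Ω 0) < 1 := by
    rw [map_zero, sub_zero, map_inv₀]
    exact inv_lt_one_of_one_lt₀ S.one_lt_x
  have := S.V.res_sum (Finset.range (H.natDegree + 1)) fun i _ =>
    S.V.res_mul (S.V.res_mul (S.V.res_const (algebraMap k k₁ (H.coeff i))) (S.V.res_pow h i))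
      (S.V.res_pow hi (H.natDegree - i))
  rw [← e, Finset.sum_range_succ, Finset.sum_eq_zero fun i hi => by
    rw [zero_pow (by have := Finset.mem_range.1 hi; omega), mul_zero]] at this
  simpa using this

theorem scale (i : ℕ) {n : ℕ}
    (h : S.p * dg S.f i + S.w + n = S.p * dg S.f 1 + S.w * i) :
    S.b⁻¹ * S.x ^ dg S.f i * S.μ ^ i = S.V.τ ^ n := by
  have ht := S.V.τ_ne
  have e : S.x = (S.V.τ ^ S.p)⁻¹ := by rw [x, zpow_neg, zpow_natCast]
  rw [b, μ, e, inv_pow, inv_pow, ← pow_mul, ← pow_mul, ← pow_mul]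
  field_simp
  rw [← pow_add, ← pow_add, ← pow_add]
  congr 1
  omega

variable {S} in
theorem red_mu {A : Ω} {U : k₁} (h : S.Res A U) : S.V.Red (C S.b⁻¹ *
    ((taylor A (S.f.map (algebraMap k Ω))).comp (C S.μ * X) - C (aeval A S.f))) (S.gp U) := by
  intro i
  rw [coeff_C_mul, coeff_sub, comp_C_mul_X_coeff, taylor_coeff, coeff_C]
  rcases Nat.eq_zero_or_pos i with rfl | hi
  · rw [gp, coeff_ap_of_ne _ _ fun c _ => (pow_pos two_pos c).ne]
    simp [eval_map_algebraMap]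
  have hm : hasseDeriv i (S.f.map (algebraMap k Ω)) = (hasseDeriv i S.f).map (algebraMap k Ω) := by
    ext n
    simp [hasseDeriv_coeff]
  rw [if_neg hi.ne', sub_zero, hm, eval_map_algebraMap]
  have hx : S.x ^ dg S.f i ≠ 0 := pow_ne_zero _ S.x_ne
  have e : S.b⁻¹ * (aeval A (hasseDeriv i S.f) * S.μ ^ i) =
      aeval A (hasseDeriv i S.f) / S.x ^ dg S.f i * (S.b⁻¹ * S.x ^ dg S.f i * S.μ ^ i) := by
    field_simp
  have h1 := S.res_lead h (hasseDeriv i S.f)
  by_cases hc : ∃ c ∈ S.I, i = 2 ^ c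
  · obtain ⟨c, hc, rfl⟩ := hc
    rw [e, S.scale _ (n := 0) (S.on hc), pow_zero, mul_one, gp, coeff_ap, if_pos hc]
    exact h1
  · have hc' : ∀ c ∈ S.I, i ≠ 2 ^ c := fun c h1 h2 => hc ⟨c, h1, h2⟩
    obtain ⟨n, hn⟩ := Nat.exists_eq_add_of_lt (S.off hi hc')
    rw [e, S.scale _ (n := n + 1) (by omega), gp, coeff_ap_of_ne _ _ hc', map_zero, sub_zero,
      map_mul, map_pow]
    exact mul_lt_one_of_nonneg_of_lt_one_right (S.V.le_one_of_res h1) zero_le
      (pow_lt_one₀ zero_le S.V.τ_lt n.succ_ne_zero)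

variable {S} in
theorem red_pt {A θ : Ω} {U t : k₁} (h : S.Res A U)
    (ht : S.V.v (θ / S.μ - algebraMap k₁ Ω t) < 1) :
    S.V.v ((aeval (A + θ) S.f + aeval A S.f) / S.b - algebraMap k₁ Ω ((S.gp U).eval t)) < 1 := by
  have := charP k Ω
  have h1 := (red_mu h).eval ht
  rw [eval_mul, eval_C, eval_sub, eval_C, eval_comp, eval_mul, eval_C, eval_X,
    mul_div_cancel₀ _ S.μ_ne, taylor_eval, eval_map_algebraMap, CharTwo.sub_eq_add (aeval _ _),
    add_comm θ, ← div_eq_inv_mul] at h1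
  exact h1

/-- The equation of the surface near a root. -/
theorem red_root {y : Ω} (hy : y ∈ S.R) {U : k₁} (h : S.Res y U) : S.V.Red (C S.b⁻¹ *
    (taylor y ((FF S.f).map (ev2 S.s S.x))).comp (C S.μ * X)) (S.gp U + S.gp (U + 1 + S.z)) := by
  have := charP k Ω
  have two : (2 : Ω) = 0 := CharTwo.two_eq_zero
  have h3 : S.Res (y + S.s) (U + 1 + S.z) := by
    rw [add_assoc]; exact h.add S.res_s
  have r2 := S.mem_R.1 hy
  rw [ev3_FF] at r2
  convert (red_mu h).add (red_mu h3) using 1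
  refine Polynomial.funext fun t => ?_
  simp only [eval_mul, eval_C, eval_sub, eval_add, eval_comp, eval_X, taylor_eval,
    eval_map_algebraMap, ← ev3_eq, ev3_FF]
  rw [show S.μ * t + (y + S.s) = S.μ * t + y + S.s by ring]
  linear_combination S.b⁻¹ * r2

theorem partner {y : Ω} (hy : y ∈ S.R) {U : k₁} (h : S.Res y U)
    (hne : ∀ n, n ≠ 0 → U ^ n ≠ (U + 1 + S.z) ^ n) : ∃ y' ∈ S.R, y' ≠ y ∧ S.Cl y y' := by
  have := charP k k₁
  have hr := S.red_root hy h
  set P := S.gp U + S.gp (U + 1 + S.z) with hP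
  have hc : ∀ c ∈ S.I, P.coeff (2 ^ c) ≠ 0 := fun c hc => by
    rw [hP, gp, gp, ap_add, coeff_ap, if_pos hc, gc, gc, ← mul_add]
    exact mul_ne_zero ((_root_.map_ne_zero _).2 (S.ed.cc_ne hc))
      fun e => hne _ (S.ed.dg_ne hc) (CharTwo.add_eq_zero.1 e)
  have h1 : P.divX.coeff 0 ≠ 0 := by simpa [coeff_divX] using hc 0 S.ed.zero
  have h2 : P.divX.degree ≠ 0 := fun e => by
    have h3 := hc _ S.ed.top
    have h4 := S.ed.two_le
    rw [show 2 ^ S.a = (2 ^ S.a - 1) + 1 by omega, ← coeff_divX] at h3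
    have h5 := le_natDegree_of_ne_zero h3
    rw [natDegree_eq_zero_iff_degree_le_zero.2 e.le] at h5
    omega
  obtain ⟨t, ht⟩ := IsAlgClosed.exists_root _ h2
  have t0 : t ≠ 0 := by
    rintro rfl
    exact h1 (by rw [coeff_zero_eq_eval_zero]; exact ht)
  have h0 : P.coeff 0 = 0 := by
    rw [hP, gp, gp, ap_add, coeff_ap_of_ne _ _ fun c _ => (pow_pos two_pos c).ne]
  obtain ⟨θ, a1, a2⟩ := S.V.lift_root _ P (fun e => hc 0 S.ed.zero (by rw [e, coeff_zero])) hr t (by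
    rw [← P.divX_mul_X_add, h0, C_0, add_zero, eval_mul, ht.eq_zero, zero_mul])
  have vθ := S.V.eq_one_of_res t0 a2
  rw [eval_mul, eval_C, eval_comp, eval_mul, eval_C, eval_X, taylor_eval, ← ev3_eq,
    mul_eq_zero, or_iff_right (inv_ne_zero S.b_ne)] at a1
  refine ⟨_, S.mem_R.2 a1, fun e => ?_, ?_⟩
  · rw [add_eq_right, mul_eq_zero, or_iff_right S.μ_ne] at e
    rw [e, map_zero] at vθ
    exact zero_ne_one vθ
  · rw [Cl, add_sub_cancel_right, map_mul, vθ, mul_one]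

end St

end W27

end Pool.Agent.Lib.MP_346d6a_co
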