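import Pool.Agent.Lib.MP_346d6a_co.W27Def

/-!
Top forms and the symmetry `s ↦ s + x + y`.
-/

set_option maxSynthPendingDepth 3
set_option linter.unusedSectionVars false

namespace Pool.Agent.Lib.MP_346d6a_co

open Polynomial

namespace W27

open W48

variable {k Ω : Type} [Field k] [Field Ω] [Algebra k Ω] {Q : k[X][X][X]} {δ g₁ g₂ g₃ : ℕ}

theorem ev3_hom (σ Y U : Ω) (Q : k[X][X][X]) :
    ev3 σ Y U (hom k Q) = ev3 (σ * U) U (Y * U) Q := by
  have : (ev3 σ Y U).comp (hom k) = ev3 (k := k) (σ * U) U (Y * U) := by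
    ext <;> simp [hom]
  exact RingHom.congr_fun this Q

theorem ev3_sg (s x y : Ω) (Q : k[X][X][X]) : ev3 s x y (sg k Q) = ev3 (s + x + y) x y Q := by
  have : (ev3 s x y).comp (sg k) = ev3 (k := k) (s + x + y) x y := by
    ext <;> simp [sg]
  exact RingHom.congr_fun this Q

namespace TopA

theorem hom_monomial (m l i : ℕ) (c : k) : hom k (monomial m (monomial l (monomial i c))) =
    monomial (i + l + m) (monomial m (monomial i c)) := by
  simp only [← C_mul_X_pow_eq_monomial, map_mul, map_pow]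
  simp [hom]
  ring

theorem coeff_hom (Q : k[X][X][X]) (u m i : ℕ) : (((hom k Q).coeff u).coeff m).coeff i =
    if i + m ≤ u then ((Q.coeff m).coeff (u - i - m)).coeff i else 0 := by
  induction Q using Polynomial.induction_on' with
  | add p q hp hq => simp only [map_add, coeff_add, hp, hq]; split_ifs <;> simp
  | monomial m' P =>
    induction P using Polynomial.induction_on' with
    | add p q hp hq => simp only [map_add, coeff_add, hp, hq]; split_ifs <;> simp
    | monomial l P =>
      induction P using Polynomial.induction_on' with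
      | add p q hp hq => simp only [map_add, coeff_add, hp, hq]; split_ifs <;> simp
      | monomial i' c =>
        simp only [hom_monomial, coeff_monomial, apply_ite (coeff · m), apply_ite (coeff · i),
          apply_ite (coeff · (u - i - m)), coeff_zero]
        split_ifs <;> first | rfl | omega

variable (k) in
/-- The substitution `S ↦ S + 1 + Y`. -/
noncomputable def sig : k[X][X] →+* k[X][X] :=
  eval₂RingHom (eval₂RingHom (C.comp C) (C X + 1 + X)) X

theorem hom_sg (Q : k[X][X][X]) : hom k (sg k Q) = (hom k Q).map (sig k) := by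
  have : (hom k).comp (sg k) = (mapRingHom (sig k)).comp (hom k) := by
    refine Polynomial.ringHom_ext' (Polynomial.ringHom_ext' (Polynomial.ringHom_ext'
      (RingHom.ext fun c => ?_) ?_) ?_) ?_ <;> simp [hom, sg, sig]
    ring
  exact RingHom.congr_fun this Q

theorem sig_X : sig k X = X := by simp [sig]

theorem sig_C : sig k (C X) = X + 1 + C X := by simp [sig]; ring

theorem sig_C' [CharP k 2] : sig k (X + 1 + C X) = C X := by
  rw [map_add, map_add, sig_X, sig_C, map_one, ← add_assoc, CharTwo.add_self_eq_zero, zero_add]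

theorem sig_sig [CharP k 2] (T : k[X][X]) : sig k (sig k T) = T := by
  have : (sig k).comp (sig k) = RingHom.id _ := by
    refine Polynomial.ringHom_ext' (Polynomial.ringHom_ext' (RingHom.ext fun c => ?_) ?_) ?_
    · simp [sig]
    · simp only [RingHom.comp_apply, sig_C, sig_C', RingHom.id_apply]
    · simp only [RingHom.comp_apply, sig_X, RingHom.id_apply]
  exact RingHom.congr_fun this T

theorem three {R : Type} [CommRing R] [WfDvdMonoid R] {a p q r : R} (h0 : a ≠ 0) (hp : ¬ IsUnit p)
    (hq : ¬ IsUnit q) (hr : ¬ IsUnit r) : ∃ (g₁ g₂ g₃ : ℕ) (T : R),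
      a = p ^ g₁ * q ^ g₂ * r ^ g₃ * T ∧ ¬ p ∣ T ∧ ¬ q ∣ T ∧ ¬ r ∣ T := by
  obtain ⟨g₁, T₁, n1, rfl⟩ := WfDvdMonoid.max_power_factor' h0 hp
  obtain ⟨g₂, T₂, n2, rfl⟩ := WfDvdMonoid.max_power_factor' (right_ne_zero_of_mul h0) hq
  obtain ⟨g₃, T, n3, rfl⟩ := WfDvdMonoid.max_power_factor'
    (right_ne_zero_of_mul (right_ne_zero_of_mul h0)) hr
  exact ⟨g₁, g₂, g₃, T, by ring, fun h => n1 ((h.mul_left _).mul_left _),
    fun h => n2 (h.mul_left _), n3⟩

theorem ev3_sg_FF [CharP Ω 2] (s x y : Ω) (f : k[X]) :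
    ev3 s x y (sg k (FF f)) = ev3 s x y (FF f) := by
  rw [ev3_sg, ev3_FF, ev3_FF, show y + (s + x + y) = x + s by grind,
    show x + (s + x + y) = y + s by grind]
  ring

end TopA

open TopA

theorem hom_ne (hQ : Q ≠ 0) : hom k Q ≠ 0 := fun h => hQ <| by
  ext m l i
  have := coeff_hom Q (i + m + l) m i
  rw [h, if_pos (by omega), show i + m + l - i - m = l by omega] at this
  simpa using this.symm

/-- The coefficient of `U ^ u Y ^ m` has degree at most `u - m` in `S`. -/
theorem hom_coeff (Q : k[X][X][X]) {u m : ℕ} (h : ((hom k Q).coeff u).coeff m ≠ 0) :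
    m ≤ Q.natDegree ∧ (((hom k Q).coeff u).coeff m).natDegree + m ≤ u := by
  have h1 := leadingCoeff_ne_zero.2 h
  rw [leadingCoeff, coeff_hom] at h1
  split_ifs at h1 with h2
  · exact ⟨le_natDegree_of_ne_zero fun e => h1 (by simp [e]), h2⟩
  · exact absurd rfl h1

theorem exists_nm (hQ : Q ≠ 0) : ∃ δ g₁ g₂ g₃, Nm Q δ g₁ g₂ g₃ := by
  obtain ⟨g₁, g₂, g₃, T, h⟩ := three (leadingCoeff_ne_zero.2 (hom_ne hQ))
    (not_isUnit_X_add_C (1 : k[X])) (not_isUnit_X_add_C (1 + X : k[X]))
    (fun e => not_isUnit_X (isUnit_C.1 e) : ¬ IsUnit (C X : k[X][X]))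
  rw [C_add, C_1, ← add_assoc] at h
  exact ⟨_, g₁, g₂, g₃, rfl, T, h⟩

variable [CharP k 2]

theorem sg_FF (f : k[X]) : sg k (FF f) = FF f := by
  let F := FractionRing k[X][X][X]
  let ι := algebraMap k[X][X][X] F
  have : CharP F 2 := charP_of_injective_algebraMap (IsFractionRing.injective k[X][X][X] F) 2
  have h : ev3 (ι (C (C X))) (ι (C X)) (ι X) = ι := by
    refine Polynomial.ringHom_ext' (Polynomial.ringHom_ext' (Polynomial.ringHom_ext'
      (RingHom.ext fun c => ?_) ?_) ?_) ?_ <;> simp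
    rfl
  refine IsFractionRing.injective k[X][X][X] F ?_
  change ι _ = ι _
  rw [← h]
  exact ev3_sg_FF _ _ _ f

theorem Nm.sg (h : Nm Q δ g₁ g₂ g₃) : Nm (sg k Q) δ g₁ g₃ g₂ := by
  have hi : Function.Injective (sig k) := Function.LeftInverse.injective sig_sig
  have h1 : sig k (X + 1) = X + 1 := by rw [map_add, sig_X, map_one]
  obtain ⟨T, e, n1, n2, n3⟩ := h.fac
  refine ⟨by rw [hom_sg, natDegree_map_eq_of_injective hi, h.deg], sig k T, ?_, fun d => n1 ?_,
    fun d => n3 ?_, fun d => n2 ?_⟩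
  · rw [hom_sg, leadingCoeff_map_of_injective hi, e]
    simp only [map_mul, map_pow, h1, sig_C, sig_C']
    ring
  · simpa only [h1, sig_sig] using map_dvd (sig k) d
  · simpa only [sig_C', sig_sig] using map_dvd (sig k) d
  · simpa only [sig_C, sig_sig] using map_dvd (sig k) d

end W27

end Pool.Agent.Lib.MP_346d6a_co
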