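import Pool.Agent.Lib.MP_346d6a_co.W28Col
import Pool.Agent.Lib.MP_346d6a_co.TStruct

/-!
Closed subgroups of the group of roots come from a decomposition.
-/

set_option maxSynthPendingDepth 3

namespace Pool.Agent.Lib.MP_346d6a_co

open Polynomial

namespace W28

variable {k Ω : Type} [Field k] [Field Ω] [Algebra k Ω] {s : Ω} {B : k[X][X]}

theorem inv_aeval_ne (hs : Transcendental k s) {c : k[X]} (hc : c ≠ 0) : aeval s c ≠ 0 :=
  fun e => hs ⟨c, hc, e⟩

/-- Splitting off the factors with a root in `U`. -/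
theorem inv_split (hs : Transcendental k s) (U : AddSubgroup Ω)
    (hinv : ∀ u ∈ U, ∀ w, col2 k s w = col2 k s u → w ∈ U) (B : k[X][X]) (hB : B ≠ 0) :
    ∃ h h' : k[X][X], B = h * h' ∧ h.IsPrimitive ∧ (∀ u, ev2 s u h = 0 → u ∈ U) ∧
      ∀ u ∈ U, ev2 s u h' ≠ 0 := by
  classical
  induction B using WfDvdMonoid.induction_on_irreducible with
  | zero => exact absurd rfl hB
  | unit a ha =>
    refine ⟨1, a, (one_mul a).symm, isPrimitive_one, fun u hu => ?_, fun u _ => ?_⟩
    · rw [map_one] at hu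
      exact absurd hu one_ne_zero
    · exact (ha.map (ev2 s u)).ne_zero
  | mul a P ha hP ih =>
    obtain ⟨h, h', e, hp, h1, h2⟩ := ih ha
    by_cases hx : ∃ u ∈ U, ev2 s u P = 0
    · obtain ⟨u, hu, hu0⟩ := hx
      have hd : P.natDegree ≠ 0 := fun d => by
        rw [eq_C_of_natDegree_eq_zero d, ev2_C] at hu0
        refine inv_aeval_ne hs (fun z => hP.ne_zero ?_) hu0
        rw [eq_C_of_natDegree_eq_zero d, z, map_zero]
      refine ⟨P * h, h', by rw [e, mul_assoc], (hP.isPrimitive hd).mul hp, fun w hw => ?_, h2⟩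
      rw [map_mul, mul_eq_zero] at hw
      rcases hw with hw | hw
      · exact hinv u hu w (by rw [col2_eq_span hs hP hw, col2_eq_span hs hP hu0])
      · exact h1 w hw
    · refine ⟨h, P * h', by rw [e, mul_left_comm], hp, h1, fun u hu => ?_⟩
      rw [map_mul]
      exact mul_ne_zero (fun z => hx ⟨u, hu, z⟩) (h2 u hu)

/-- A separable polynomial whose roots form a group is additive. -/
theorem inv_additive [IsAlgClosed Ω] {p : Polynomial Ω} (hp : p.Separable) (U : AddSubgroup Ω)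
    (hU : ∀ u, u ∈ U ↔ p.eval u = 0) (x y : Ω) : p.eval (x + y) = p.eval x + p.eval y := by
  classical
  have p0 : p ≠ 0 := hp.ne_zero
  have hc : p.roots.toFinset.card = p.natDegree := by
    rw [Multiset.toFinset_card_of_nodup (nodup_roots hp),
      (IsAlgClosed.splits p).natDegree_eq_card_roots]
  have key : ∀ q : Polynomial Ω, q.degree < p.degree → (∀ u ∈ U, q.eval u = 0) → q = 0 := by
    intro q hq hz
    refine eq_zero_of_degree_lt_of_eval_finset_eq_zero p.roots.toFinset ?_ fun u hu => ?_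
    · rwa [hc, ← degree_eq_natDegree p0]
    · exact hz u ((hU u).2 ((mem_roots p0).1 (Multiset.mem_toFinset.1 hu)))
  have hd : ∀ z : Ω, (taylor z p - p).degree < p.degree := fun z => by
    have := degree_sub_lt_left (p := taylor z p) (q := p) (degree_taylor p z)
      (by rwa [Ne, taylor_eq_zero]) (leadingCoeff_taylor z p)
    rwa [degree_taylor] at this
  have h1 : ∀ u ∈ U, ∀ z, p.eval (z + u) = p.eval z := fun u hu z => by
    have := key _ (hd u) fun w hw => by
      rw [eval_sub, taylor_eval, (hU w).1 hw, (hU _).1 (U.add_mem hw hu), sub_zero]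
    have h2 := congrArg (eval z) this
    rwa [eval_sub, taylor_eval, eval_zero, sub_eq_zero] at h2
  have hpos : 0 < p.degree := degree_pos_of_root p0 ((hU 0).1 U.zero_mem)
  have := key (taylor x p - p - C (p.eval x))
    ((degree_sub_le _ _).trans_lt (max_lt (hd x) (degree_C_le.trans_lt hpos))) fun w hw => by
      rw [eval_sub, eval_sub, taylor_eval, eval_C, add_comm, h1 w hw, (hU w).1 hw, sub_zero,
        sub_self]
  have h2 := congrArg (eval y) this
  rw [eval_sub, eval_sub, taylor_eval, eval_C, eval_zero, add_comm] at h2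
  linear_combination h2

/-- The substitution `u ↦ x + y`. -/
theorem inv_SS [CharP k 2] {D : k[X][X]} (hD : AddIn D) :
    eval₂RingHom ((C : k[X][X] →+* k[X][X][X]).comp C) (X + C X) D = SS D := by
  have e : ∀ f : k[X][X] →+ k[X][X][X], f D = ∑ i ∈ D.support, f (monomial i (D.coeff i)) :=
    fun f => by
      conv_lhs => rw [D.as_sum_support]
      rw [map_sum]
  have e1 := e (eval₂RingHom ((C : k[X][X] →+* k[X][X][X]).comp C) (X + C X))
  have e2 := e (mapRingHom (C : k[X] →+* k[X][X]))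
  have e3 := e (C : k[X][X] →+* k[X][X][X])
  simp only [AddMonoidHom.coe_coe, coe_mapRingHom] at e1 e2 e3
  rw [SS, e1, e2, e3, ← Finset.sum_add_distrib]
  refine Finset.sum_congr rfl fun i hi => ?_
  obtain ⟨b, rfl⟩ := hD i (mem_support_iff.1 hi)
  rw [coe_eval₂RingHom, eval₂_monomial, add_pow_char_pow, map_monomial,
    ← C_mul_X_pow_eq_monomial, ← C_mul_X_pow_eq_monomial, map_mul, map_pow, mul_add]
  rfl

theorem exists_sub [CharP k 2] [IsAlgClosed Ω] (hs : Transcendental k s) (hA : AddIn B)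
    (h1 : B.coeff 1 ≠ 0) (U : AddSubgroup Ω) (hU : ∀ u ∈ U, ev2 s u B = 0)
    (hinv : ∀ u ∈ U, ∀ w, col2 k s w = col2 k s u → w ∈ U) :
    ∃ h G : k[X][X], h.IsPrimitive ∧ AddIn h ∧ h.coeff 1 ≠ 0 ∧ h ∣ B ∧ B = G.comp h ∧
      (∀ u, u ∈ U ↔ ev2 s u h = 0) ∧ h.natDegree = Nat.card U ∧
      G.natDegree * h.natDegree = B.natDegree ∧
      B.leadingCoeff = G.leadingCoeff * h.leadingCoeff ^ G.natDegree := by
  have : CharP Ω 2 := charP_of_injective_algebraMap (algebraMap k Ω).injective 2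
  have hB : B ≠ 0 := fun e => h1 (by rw [e, coeff_zero])
  obtain ⟨h, h', e, hp, h2, h3⟩ := inv_split hs U hinv B hB
  have hd : h ∣ B := ⟨h', e⟩
  have hr : ∀ u, u ∈ U ↔ ev2 s u h = 0 := fun u => ⟨fun hu => by
    have := hU u hu
    rw [e, map_mul] at this
    exact (mul_eq_zero.1 this).resolve_right (h3 u hu), h2 u⟩
  have hsep : (h.map ((aeval s : k[X] →ₐ[k] Ω) : k[X] →+* Ω)).Separable :=
    (separable_roots hs hA h1).of_dvd (Polynomial.map_dvd _ hd)
  have hr' : ∀ u, u ∈ U ↔ (h.map ((aeval s : k[X] →ₐ[k] Ω) : k[X] →+* Ω)).eval u = 0 :=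
    fun u => by rw [hr, ev2_eq]
  have z0 := (hr' 0).1 U.zero_mem
  have haff := aff_of_additive (A := h.map ((aeval s : k[X] →ₐ[k] Ω) : k[X] →+* Ω))
    fun a b => by rw [z0, add_zero, inv_additive hsep U hr']
  have h0 : h.coeff 0 = 0 := by
    by_contra z
    rw [← coeff_zero_eq_eval_zero, coeff_map] at z0
    exact inv_aeval_ne hs z z0
  have hAh : AddIn h := fun i hi => by
    rcases haff i (by rw [coeff_map]; exact inv_aeval_ne hs hi) with z | z
    · exact absurd (z ▸ h0) hi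
    · exact z
  have h1h : h.coeff 1 ≠ 0 := fun z => h1 (by
    rw [e, coeff_mul, Finset.Nat.antidiagonal_succ, Finset.sum_cons, Finset.Nat.antidiagonal_zero,
      Finset.map_singleton, Finset.sum_singleton]
    simp [h0, z])
  have hn : h.natDegree ≠ 0 := fun z => h1h (coeff_eq_zero_of_natDegree_lt (by omega))
  have hS : SS h ∣ SS B := by
    rw [← inv_SS hA, ← inv_SS hAh]
    exact _root_.map_dvd _ hd
  obtain ⟨G, hG⟩ := TStruct.decomp hp h0 hn _ B rfl hS
  refine ⟨h, G, hp, hAh, h1h, hd, hG, hr, (card_roots hs hAh h1h U hr).symm, ?_, ?_⟩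
  · rw [hG, natDegree_comp]
  · rw [hG, leadingCoeff_comp hn]

theorem Cx.v_prod (X : Cx k Ω) {ι : Type} (T : Finset ι) (f : ι → Ω) (hf : ∀ i ∈ T, f i ≠ 0) :
    X.V.v (∏ i ∈ T, f i) = X.sz (∑ i ∈ T, X.lg (f i)) := by
  classical
  induction T using Finset.induction_on with
  | empty => simp
  | insert a T ha ih =>
    rw [Finset.prod_insert ha, Finset.sum_insert ha, map_mul, X.sz_add,
      X.sz_lg (hf a (Finset.mem_insert_self _ _)),
      ih fun i hi => hf i (Finset.mem_insert_of_mem hi)]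

theorem Cx.v_aeval_s (X : Cx k Ω) {p : k[X]} (hp : p ≠ 0) :
    X.V.v (aeval X.s p) = X.sz p.natDegree := by
  rw [X.V.v_aeval_of_one_lt X.R_gt hp, ← map_pow, X.v_s_pow]

theorem Cx.sz_inj (X : Cx k Ω) {t t' : ℝ} (h : X.sz t = X.sz t') : t = t' :=
  le_antisymm (X.sz_le.1 h.le) (X.sz_le.1 h.ge)

open Classical in
/-- The budget of a closed subgroup. -/
theorem Cx.inv_sum [CharP k 2] [IsAlgClosed Ω] (X : Cx k Ω) (U : AddSubgroup X.W) (hU : X.Inv U) :
    -((Nat.card U : ℝ) * 2 ^ X.r) ≤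
      2 ^ X.N * ∑ u ∈ Finset.univ.filter (fun u : X.W => u ∈ U ∧ u ≠ 0), X.lg u := by
  have := X.ch
  have hb1 : (BB X.cf X.N).coeff 1 ≠ 0 := by rw [X.coeff_BB_one]; exact X.row_zero_ne
  obtain ⟨h, G, -, hA, h1, -, -, hr, hn, hdeg, hlc⟩ := exists_sub X.s_tr (addIn_BB X.cf X.N) hb1
    (U.map X.W.subtype) (by rintro _ ⟨u, -, rfl⟩; exact u.2) (by
      rintro _ ⟨u, hu, rfl⟩ w hw
      have hw' : w ∈ X.W := (col2_eq_iff.1 hw _).2 u.2
      exact ⟨⟨w, hw'⟩, hU u hu ⟨w, hw'⟩ hw, rfl⟩)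
  have hh : h ≠ 0 := fun e => h1 (by rw [e, coeff_zero])
  have := finite_roots X.s_tr hh _ hr
  let _ : Fintype (U.map X.W.subtype) := Fintype.ofFinite _
  have hp := prod_ne_zero X.s_tr hA h1 _ hr
  have e : ∏ u ∈ Finset.univ.filter (fun u : X.W => u ∈ U ∧ u ≠ 0), (u : Ω) =
      ∏ u ∈ Finset.univ.filter (fun u : U.map X.W.subtype => u ≠ 0), (u : Ω) := by
    refine Finset.prod_bij (fun u hu => ⟨u, u, (Finset.mem_filter.1 hu).2.1, rfl⟩)
      (fun u hu => ?_) (fun u hu w hw e => ?_) (fun w hw => ?_) fun u hu => rfl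
    · refine Finset.mem_filter.2 ⟨Finset.mem_univ _, fun z => (Finset.mem_filter.1 hu).2.2 ?_⟩
      exact Subtype.ext (congrArg (fun t : U.map X.W.subtype => (t : Ω)) z)
    · exact Subtype.ext (congrArg (fun t : U.map X.W.subtype => (t : Ω)) e)
    · obtain ⟨_, u, hu, rfl⟩ := w
      refine ⟨u, Finset.mem_filter.2 ⟨Finset.mem_univ _, hu, fun z => ?_⟩, rfl⟩
      exact (Finset.mem_filter.1 hw).2 (Subtype.ext (congrArg (fun t : X.W => (t : Ω)) z))
  rw [← e] at hp
  have hv := congrArg X.V.v hp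
  rw [map_mul, X.v_aeval_s (leadingCoeff_ne_zero.2 hh), X.v_aeval_s h1,
    X.v_prod _ (fun u : X.W => (u : Ω)) fun u hu z =>
      (Finset.mem_filter.1 hu).2.2 (Subtype.ext z), ← X.sz_add] at hv
  have hv' := X.sz_inj hv
  have hc : Nat.card (U.map X.W.subtype) = Nat.card U :=
    AddSubgroup.card_map_of_injective Subtype.val_injective
  rw [hn, hc, X.natDegree_BB.1] at hdeg
  have hrow := (X.natDegree_row X.wd.top X.wd.top').1
  have hne : (BB X.cf X.N).leadingCoeff ≠ 0 := leadingCoeff_ne_zero.2 X.BB_ne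
  rw [← X.natDegree_BB.2, hlc] at hrow
  rw [hlc] at hne
  rw [natDegree_mul (left_ne_zero_of_mul hne) (right_ne_zero_of_mul hne), natDegree_pow] at hrow
  have a1 : (G.natDegree : ℝ) * Nat.card U = 2 ^ X.N := by exact_mod_cast hdeg
  have a2 : (G.natDegree : ℝ) * h.leadingCoeff.natDegree ≤ 2 ^ X.r := by
    exact_mod_cast (Nat.le_add_left _ _).trans hrow.le
  generalize ∑ u ∈ Finset.univ.filter (fun u : X.W => u ∈ U ∧ u ≠ 0), X.lg u = S at hv' ⊢
  have a3 : -(h.leadingCoeff.natDegree : ℝ) ≤ S := by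
    have : (0 : ℝ) ≤ (h.coeff 1).natDegree := Nat.cast_nonneg _
    linarith
  have a4 : (0 : ℝ) ≤ Nat.card U := Nat.cast_nonneg _
  have a5 : (0 : ℝ) ≤ G.natDegree := Nat.cast_nonneg _
  rw [← a1]
  nlinarith [mul_le_mul_of_nonneg_left a3 (mul_nonneg a5 a4), mul_le_mul_of_nonneg_left a2 a4]

open Classical in
theorem Cx.sum_lg [IsAlgClosed Ω] (X : Cx k Ω) :
    ∑ u ∈ Finset.univ.filter (fun u : X.W => u ≠ 0), X.lg u = 2 ^ X.j0 - 2 ^ X.r := by
  have := X.ch
  have hb1 : (BB X.cf X.N).coeff 1 ≠ 0 := by rw [X.coeff_BB_one]; exact X.row_zero_ne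
  have hp := prod_ne_zero X.s_tr (addIn_BB X.cf X.N) hb1 X.W fun _ => Iff.rfl
  have hv := congrArg X.V.v hp
  rw [map_mul, X.v_aeval_s (leadingCoeff_ne_zero.2 X.BB_ne), X.v_aeval_s hb1,
    X.v_prod _ (fun u : X.W => (u : Ω)) fun u hu z =>
      absurd (Subtype.ext z : u = 0) (Finset.mem_filter.1 hu).2, ← X.sz_add, X.natDegree_BB.2, X.coeff_BB_one,
    (X.natDegree_row X.wd.top X.wd.top').1, (X.natDegree_row X.wd.bot X.wd.bot').1] at hv
  have hv' := X.sz_inj hv
  push_cast at hv'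
  linarith

end W28

end Pool.Agent.Lib.MP_346d6a_co
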