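import Pool.Agent.Lib.MP_346d6a_co.W28Small
import Pool.Agent.Lib.MP_346d6a_co.W28Inv

/-!
The two budgets.
-/

set_option maxSynthPendingDepth 3

namespace Pool.Agent.Lib.MP_346d6a_co

open Polynomial

namespace W28

section abstract

variable {G : Type} [AddCommGroup G] [Fintype G]

open Classical in
theorem bud_shift (S : AddSubgroup G) (ph : G → ℝ) {u : G} (hu : u ∈ S) :
    ∑ v ∈ Finset.univ.filter (fun v => v ∈ S), ph (v + u) =
      ∑ v ∈ Finset.univ.filter (fun v => v ∈ S), ph v := by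
  refine Finset.sum_equiv (Equiv.addRight u) (fun v => ?_) (fun v _ => rfl)
  simp only [Finset.mem_filter, Finset.mem_univ, true_and, Equiv.coe_addRight]
  exact ⟨fun h => S.add_mem h hu, fun h => by simpa using S.sub_mem h hu⟩

open Classical in
theorem bud_avg (S U : AddSubgroup G) (hUS : U ≤ S) (ph : G → ℝ) :
    ∑ v ∈ Finset.univ.filter (fun v => v ∈ S), ∑ u ∈ Finset.univ.filter (fun u => u ∈ U),
      ph (v + u) = (Finset.univ.filter (fun u => u ∈ U)).card *
        ∑ v ∈ Finset.univ.filter (fun v => v ∈ S), ph v := by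
  rw [Finset.sum_comm, Finset.sum_congr rfl fun u hu =>
    bud_shift S ph (hUS (Finset.mem_filter.1 hu).2), Finset.sum_const, nsmul_eq_mul]

open Classical in
theorem bud_min (U : AddSubgroup G) (ph : G → ℝ)
    (h : ∀ a b, ph (a - b) ≤ max (ph a) (ph b)) (v : G) :
    ∃ u0 ∈ U, ∑ u ∈ Finset.univ.filter (fun u => u ∈ U), ph (v + u) =
      ∑ u ∈ Finset.univ.filter (fun u => u ∈ U), ph (v + u0 + u) ∧
      ∀ u ∈ U, ph (v + u0) ≤ ph (v + u0 + u) ∧ ph u ≤ ph (v + u0 + u) := by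
  obtain ⟨u0, h0, hm⟩ := Finset.exists_min_image (Finset.univ.filter (fun u => u ∈ U))
    (fun u => ph (v + u)) ⟨0, by simp⟩
  have h0' : u0 ∈ U := (Finset.mem_filter.1 h0).2
  refine ⟨u0, h0', ?_, fun u hu => ?_⟩
  · have := bud_shift U (fun u => ph (v + u)) h0'
    rw [← this]
    refine Finset.sum_congr rfl fun u _ => ?_
    congr 1; abel
  · have h1 : ph (v + u0) ≤ ph (v + u0 + u) := by
      have := hm (u0 + u) (by simpa using U.add_mem h0' hu)
      rwa [← add_assoc] at this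
    refine ⟨h1, ?_⟩
    have h2 := h (v + u0 + u) (v + u0)
    rw [add_sub_cancel_left, max_eq_left h1] at h2
    exact h2

open Classical in
theorem bud_card (U : AddSubgroup G) :
    (Finset.univ.filter (fun u => u ∈ U)).card = Nat.card U := by
  rw [Nat.card_eq_fintype_card, Fintype.card_subtype]

theorem bud_two (Z : AddSubgroup G) (hZ : Z ≠ ⊤) : 2 * Nat.card Z ≤ Nat.card G := by
  have h1 := Z.card_mul_index
  have h2 : Z.index ≠ 1 := fun e => hZ (AddSubgroup.index_eq_one.1 e)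
  have h3 : Z.index ≠ 0 := AddSubgroup.index_ne_zero_of_finite
  rw [← h1, mul_comm]
  exact Nat.mul_le_mul_left _ (by omega)

open Classical in
theorem bud_split (P : G → Prop) (h0 : P 0) (f g : G → ℝ) (t : ℝ) (hf0 : f 0 = t)
    (hf : ∀ u, u ≠ 0 → f u = g u) :
    ∑ u ∈ Finset.univ.filter P, f u =
      t + ∑ u ∈ Finset.univ.filter (fun u => P u ∧ u ≠ 0), g u := by
  rw [← Finset.add_sum_erase _ _ (a := 0) (by simpa using h0), hf0]
  congr 1
  refine Finset.sum_congr (by ext u; simp [and_comm]) fun u hu => hf u ?_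
  exact (Finset.mem_filter.1 hu).2.2

end abstract

namespace Cx

variable {k Ω : Type} [Field k] [IsAlgClosed k] [CharP k 2] [Field Ω] [IsAlgClosed Ω] [Algebra k Ω]
  (X : Cx k Ω)

open Classical in
/-- The truncated logarithmic size. -/
noncomputable def budph (u : X.W) : ℝ := if u = 0 then -X.ν else X.lg u

omit [IsAlgClosed k] [CharP k 2] [IsAlgClosed Ω] in
theorem budph_zero : X.budph 0 = -X.ν := by simp [budph]

omit [IsAlgClosed k] [CharP k 2] [IsAlgClosed Ω] in
theorem budph_ne {u : X.W} (h : u ≠ 0) : X.budph u = X.lg u := by simp [budph, h]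

omit [IsAlgClosed k] [CharP k 2] [IsAlgClosed Ω] in
theorem bud_sz {u : X.W} (h : u ≠ 0) : X.sz (X.budph u) = X.V.v (u : Ω) := by
  rw [X.budph_ne h, X.sz_lg (fun e => h (Subtype.ext e))]

theorem budph_ge (u : X.W) : -X.ν ≤ X.budph u := by
  by_cases h : u = 0
  · rw [h, X.budph_zero]
  · rw [← X.sz_le, X.bud_sz h]
    exact X.v_ge u.2 fun e => h (Subtype.ext e)

omit [IsAlgClosed k] [CharP k 2] [IsAlgClosed Ω] in
theorem bud_v_le (u : X.W) : X.V.v (u : Ω) ≤ X.sz (X.budph u) := by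
  by_cases h : u = 0
  · rw [h]; simp
  · rw [X.bud_sz h]

theorem budph_sub (a b : X.W) : X.budph (a - b) ≤ max (X.budph a) (X.budph b) := by
  by_cases h : a - b = 0
  · rw [h, X.budph_zero]
    exact (X.budph_ge a).trans (le_max_left _ _)
  · rw [← X.sz_le, X.bud_sz h]
    refine (X.V.v.map_sub (a : Ω) (b : Ω)).trans (max_le ?_ ?_)
    · exact (X.bud_v_le a).trans (X.sz_le.2 (le_max_left _ _))
    · exact (X.bud_v_le b).trans (X.sz_le.2 (le_max_right _ _))

omit [IsAlgClosed k] [CharP k 2] [IsAlgClosed Ω] in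
theorem budph_le_of {u : X.W} {t : ℝ} (ht : -X.ν ≤ t) (h : X.V.v (u : Ω) ≤ X.sz t) :
    X.budph u ≤ t := by
  by_cases h0 : u = 0
  · rw [h0, X.budph_zero]; exact ht
  · rw [← X.sz_le, X.bud_sz h0]; exact h

omit [IsAlgClosed k] [CharP k 2] [IsAlgClosed Ω] in
theorem budph_ge_of {u : X.W} {t : ℝ} (h : X.sz t ≤ X.V.v (u : Ω)) : t ≤ X.budph u :=
  X.sz_le.1 (h.trans (X.bud_v_le u))

omit [IsAlgClosed k] [CharP k 2] in
theorem bud_sumW : ∑ u : X.W, X.budph u = -X.α - 2 ^ X.r := by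
  classical
  have h := bud_split (G := X.W) (fun _ => True) trivial X.budph (fun u => X.lg u) (-X.ν)
    X.budph_zero fun u hu => X.budph_ne hu
  have h2 := X.sum_lg
  simp only [Finset.filter_true, true_and] at h
  rw [h]
  have h3 : ∑ u ∈ Finset.univ.filter (fun u : X.W => u ≠ 0), X.lg u = 2 ^ X.j0 - 2 ^ X.r := by
    convert h2
  rw [α]
  linarith

omit [IsAlgClosed k] [CharP k 2] in
theorem bud_cardW : (Fintype.card X.W : ℝ) = 2 ^ X.N := by
  rw [← Nat.card_eq_fintype_card, X.card_W]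
  push_cast
  rfl

theorem budA (U Z : AddSubgroup X.W) (hU : X.Inv U) (hUZ : U ≤ Z) (hZ : Z ≠ ⊤)
    (hY : ∀ u : X.W, X.V.v (u : Ω) ≤ X.sz (-X.ν) → u ∈ U)
    (hs : ∀ u : X.W, X.V.v (u : Ω) < X.sz (-2 ^ (X.D - 1)) → u ∈ Z) : False := by
  classical
  set FU := Finset.univ.filter (fun u : X.W => u ∈ U) with hFU
  set FZ := Finset.univ.filter (fun u : X.W => u ∈ Z) with hFZ
  set T := Finset.univ.filter (fun u : X.W => X.V.v (u : Ω) ≤ X.sz (-X.ν)) with hT
  have hTc : (T.card : ℝ) = 2 ^ X.a := by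
    have : T.card = 2 ^ X.a := by convert X.card_small
    rw [this]; push_cast; rfl
  have hTU : T ⊆ FU := fun u hu => by
    simpa [hFU] using hY u (Finset.mem_filter.1 hu).2
  have hD : (2 : ℝ) ^ X.D = 2 * 2 ^ (X.D - 1) := by
    have := X.wd.wild
    rw [← pow_succ']; congr 1; omega
  have hν := X.ν_gt
  have hp : (0 : ℝ) < 2 ^ (X.D - 1) := by positivity
  have key : ∀ v : X.W, ∑ u ∈ FU, X.budph u + 2 ^ X.a *
      ((if v ∈ U then 0 else X.ν - 2 ^ X.D) + (if v ∈ Z then 0 else 2 ^ (X.D - 1))) ≤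
      ∑ u ∈ FU, X.budph (v + u) := by
    intro v
    obtain ⟨u0, h0, e, hm⟩ := bud_min U X.budph X.budph_sub v
    have e' : ∑ u ∈ FU, X.budph (v + u) = ∑ u ∈ FU, X.budph (v + u0 + u) := by convert e
    have h1 : (if v ∈ U then 0 else X.ν - 2 ^ X.D) + (if v ∈ Z then 0 else 2 ^ (X.D - 1)) ≤
        X.budph (v + u0) + X.ν := by
      by_cases hv : v ∈ U
      · rw [if_pos hv, if_pos (hUZ hv)]
        have := X.budph_ge (v + u0)
        linarith
      · rw [if_neg hv]
        have hn : v + u0 ∉ U := fun h => hv (by simpa using U.sub_mem h h0)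
        by_cases hz : v ∈ Z
        · rw [if_pos hz]
          have := X.budph_ge_of (X.v_gap (v + u0).2 (lt_of_not_ge fun h => hn (hY _ h)))
          linarith
        · rw [if_neg hz]
          have hn' : v + u0 ∉ Z := fun h => hz (by simpa using Z.sub_mem h (hUZ h0))
          have := X.budph_ge_of (le_of_not_gt fun h => hn' (hs _ h))
          linarith
    have h2 : ∑ u ∈ FU, (X.budph u + if u ∈ T then X.budph (v + u0) + X.ν else 0) ≤
        ∑ u ∈ FU, X.budph (v + u0 + u) := by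
      refine Finset.sum_le_sum fun u hu => ?_
      obtain ⟨a1, a2⟩ := hm u (Finset.mem_filter.1 hu).2
      split_ifs with h
      · have := X.budph_le_of le_rfl (Finset.mem_filter.1 h).2
        linarith
      · linarith
    rw [Finset.sum_add_distrib, ← Finset.sum_filter, Finset.filter_mem_eq_inter,
      Finset.inter_eq_right.2 hTU, Finset.sum_const, nsmul_eq_mul, hTc] at h2
    rw [e']
    have : (0 : ℝ) < 2 ^ X.a := by positivity
    nlinarith
  have tot := Finset.sum_le_sum (s := Finset.univ) fun v _ => key v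
  have avg := bud_avg (G := X.W) ⊤ U le_top X.budph
  simp only [AddSubgroup.mem_top, Finset.filter_true] at avg
  have avg' : ∑ v : X.W, ∑ u ∈ FU, X.budph (v + u) = FU.card * (-X.α - 2 ^ X.r) := by
    rw [← X.bud_sumW]; convert avg
  have c1 : ∀ (S : AddSubgroup X.W) (t : ℝ), ∑ v : X.W, (if v ∈ S then 0 else t) =
      (2 ^ X.N - (Finset.univ.filter (fun u : X.W => u ∈ S)).card) * t := by
    intro S t
    rw [Finset.sum_ite, Finset.sum_const_zero, zero_add, Finset.sum_const, nsmul_eq_mul,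
      ← X.bud_cardW]
    congr 1
    have := Finset.card_filter_add_card_filter_not (s := (Finset.univ : Finset X.W))
      (fun u => u ∈ S)
    rw [Finset.card_univ] at this
    rw [← this]; push_cast; ring
  rw [avg', Finset.sum_add_distrib, Finset.sum_const, Finset.card_univ, nsmul_eq_mul,
    X.bud_cardW, ← Finset.mul_sum, Finset.sum_add_distrib, c1 U, c1 Z] at tot
  have sU : ∑ u ∈ FU, X.budph u = -X.ν +
      ∑ u ∈ Finset.univ.filter (fun u : X.W => u ∈ U ∧ u ≠ 0), X.lg u := by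
    convert bud_split (G := X.W) (fun u => u ∈ U) U.zero_mem X.budph (fun u => X.lg u) (-X.ν)
      X.budph_zero fun u hu => X.budph_ne hu
  have inv : -((FU.card : ℝ) * 2 ^ X.r) ≤
      2 ^ X.N * ∑ u ∈ Finset.univ.filter (fun u : X.W => u ∈ U ∧ u ≠ 0), X.lg u := by
    have h1 : FU.card = Nat.card U := by convert bud_card U
    rw [h1]
    convert X.inv_sum U hU
  have hz : 2 * (FZ.card : ℝ) ≤ 2 ^ X.N := by
    have h1 : FZ.card = Nat.card Z := by convert bud_card Z
    have h2 := bud_two Z hZ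
    rw [X.card_W, ← h1] at h2
    exact_mod_cast h2
  have hq : 2 ^ X.a * (X.ν - 2 ^ X.D) = X.α := by
    have := X.qν
    rw [pow_add] at this
    linarith
  have h4 : (4 : ℝ) ≤ 2 ^ X.a := by
    calc (4 : ℝ) = 2 ^ 2 := by norm_num
      _ ≤ 2 ^ X.a := pow_le_pow_right₀ one_le_two X.two_le_a
  have hj := X.pow_j0_lt
  have hN : (0 : ℝ) < 2 ^ X.N := by positivity
  have hα : X.ν - X.α = 2 ^ X.j0 := by rw [α]; ring
  rw [sU, ← hFU, ← hFZ] at tot
  have e1 : 2 ^ X.a * ((2 ^ X.N - (FU.card : ℝ)) * (X.ν - 2 ^ X.D) +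
      (2 ^ X.N - (FZ.card : ℝ)) * 2 ^ (X.D - 1)) = (2 ^ X.N - (FU.card : ℝ)) * X.α +
      2 ^ X.a * ((2 ^ X.N - (FZ.card : ℝ)) * 2 ^ (X.D - 1)) := by
    rw [← hq]; ring
  rw [e1] at tot
  have e2 : 2 ^ X.a * ((2 ^ X.N - (FZ.card : ℝ)) * 2 ^ (X.D - 1)) ≤ 2 ^ X.N * 2 ^ X.j0 := by
    rw [← hα]; nlinarith
  have e3 : 4 * ((2 ^ X.N / 2) * 2 ^ (X.D - 1)) ≤
      2 ^ X.a * ((2 ^ X.N - (FZ.card : ℝ)) * 2 ^ (X.D - 1)) := by
    refine mul_le_mul h4 (mul_le_mul_of_nonneg_right (by linarith) hp.le) (by positivity)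
      (by positivity)
  have e4 : 2 ^ X.N * (2 : ℝ) ^ X.j0 < 2 ^ X.N * 2 ^ X.D := mul_lt_mul_of_pos_left hj hN
  rw [hD] at e4
  nlinarith

theorem budB (hj : 2 ≤ X.j) (U : AddSubgroup X.W) (hU : X.Inv U)
    (hy : ∀ u ∈ U, X.y (u : X.W) = 0 ∨ X.y (u : X.W) = 1)
    (hY : ∃ u ∈ U, u ≠ 0 ∧ X.V.v ((u : X.W) : Ω) ≤ X.sz (-X.ν)) : False := by
  classical
  have hch := X.ch
  have y0 : X.y 0 = 0 := X.y_of_lt (by rw [map_zero]; exact X.sz_pos _)
  let W0 : AddSubgroup X.W :=
    { carrier := {u | X.y (u : X.W) = 0}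
      zero_mem' := y0
      add_mem' := fun {a b} ha hb => by
        have ha' : X.y (a : Ω) = 0 := ha
        have hb' : X.y (b : Ω) = 0 := hb
        change X.y ((a : Ω) + b) = 0
        rw [X.y_add a.2 b.2, ha', hb', add_zero]
      neg_mem' := fun {a} ha => by
        have ha' : X.y (a : Ω) = 0 := ha
        change X.y (-(a : Ω)) = 0
        rwa [CharTwo.neg_eq] }
  have mW : ∀ u : X.W, u ∈ W0 ↔ X.y (u : Ω) = 0 := fun _ => Iff.rfl
  set U0 := U ⊓ W0 with hU0
  set F0 := Finset.univ.filter (fun u : X.W => u ∈ U0) with hF0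
  set FW := Finset.univ.filter (fun u : X.W => u ∈ W0) with hFW
  set F1 := Finset.univ.filter (fun u : X.W => u ∈ U ∧ u ∉ W0) with hF1
  set G0 := Finset.univ.filter (fun u : X.W => u ∈ U0 ∧ u ≠ 0) with hG0
  have hWc : (FW.card : ℝ) = 2 ^ X.r := by
    have : FW.card = 2 ^ X.r := by convert X.card_y_zero; exact mW _
    rw [this]; push_cast; rfl
  have one : ∀ u : X.W, u ∉ W0 → u ≠ 0 ∧ X.lg u = 1 := fun u hu =>
    ⟨fun e => hu (e ▸ W0.zero_mem), X.lg_eq (X.v_of_y_ne u.2 hu)⟩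
  have sW : ∑ u ∈ FW, X.budph u = -X.α - 2 ^ X.N := by
    have h1 := Finset.sum_filter_add_sum_filter_not Finset.univ (fun u : X.W => u ∈ W0) X.budph
    have h2 : ∑ u ∈ Finset.univ.filter (fun u : X.W => ¬ u ∈ W0), X.budph u =
        (Finset.univ.filter (fun u : X.W => ¬ u ∈ W0)).card := by
      rw [Finset.sum_congr rfl (g := fun _ => (1 : ℝ)) fun u hu => by
        obtain ⟨a1, a2⟩ := one u (Finset.mem_filter.1 hu).2
        rw [X.budph_ne a1, a2]]
      simp
    have h3 := Finset.card_filter_add_card_filter_not (s := (Finset.univ : Finset X.W))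
      (fun u => u ∈ W0)
    rw [Finset.card_univ] at h3
    have h4 : (FW.card : ℝ) + (Finset.univ.filter (fun u : X.W => ¬ u ∈ W0)).card =
        Fintype.card X.W := by exact_mod_cast h3
    rw [X.bud_cardW, hWc] at h4
    rw [X.bud_sumW, h2, ← hFW] at h1
    linarith
  have key : ∀ v : X.W, ∑ u ∈ F0, X.budph u ≤ ∑ u ∈ F0, X.budph (v + u) := by
    intro v
    obtain ⟨u0, h0, e, hm⟩ := bud_min U0 X.budph X.budph_sub v
    have e' : ∑ u ∈ F0, X.budph (v + u) = ∑ u ∈ F0, X.budph (v + u0 + u) := by convert e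
    rw [e']
    exact Finset.sum_le_sum fun u hu => (hm u (Finset.mem_filter.1 hu).2).2
  have tot := Finset.sum_le_sum (s := FW) fun v _ => key v
  have avg : ∑ v ∈ FW, ∑ u ∈ F0, X.budph (v + u) = F0.card * (-X.α - 2 ^ X.N) := by
    rw [← sW]; convert bud_avg (G := X.W) W0 U0 inf_le_right X.budph
  have s0 : ∑ u ∈ F0, X.budph u = -X.ν + ∑ u ∈ G0, X.lg u := by
    convert bud_split (G := X.W) (fun u => u ∈ U0) U0.zero_mem X.budph (fun u => X.lg u) (-X.ν)
      X.budph_zero fun u hu => X.budph_ne hu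
  rw [avg, Finset.sum_const, nsmul_eq_mul, hWc, s0] at tot
  have hνp : 0 < X.ν := X.α_pos.trans X.α_lt
  have hS : ∑ u ∈ G0, X.lg u ≤ -X.ν := by
    obtain ⟨u1, m1, n1, l1⟩ := hY
    have hy1 : u1 ∈ W0 := X.y_of_lt (l1.trans_lt (X.sz_lt.2 (by linarith)))
    have mG : u1 ∈ G0 := by
      simp only [hG0, Finset.mem_filter, Finset.mem_univ, true_and]
      exact ⟨⟨m1, hy1⟩, n1⟩
    rw [← Finset.add_sum_erase _ _ mG]
    have a1 : X.lg u1 ≤ -X.ν := by
      rw [← X.budph_ne n1]; exact X.budph_le_of le_rfl l1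
    have a2 : ∑ u ∈ G0.erase u1, X.lg u ≤ 0 := Finset.sum_nonpos fun u hu => by
      obtain ⟨⟨-, b1⟩, b2⟩ := (Finset.mem_filter.1 (Finset.mem_of_mem_erase hu)).2
      rw [← X.budph_ne b2]
      exact X.budph_le_of (by linarith) (by rw [X.sz_zero]; exact X.v_le_one u.2 b1)
    linarith
  have c1 : F1.card ≤ F0.card := by
    rcases F1.eq_empty_or_nonempty with h | ⟨u1, h⟩
    · rw [h]; simp
    obtain ⟨m1, n1⟩ := (Finset.mem_filter.1 h).2
    refine Finset.card_le_card_of_injOn (fun u => u + u1) (fun u hu => ?_)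
      fun a _ b _ e => add_right_cancel e
    obtain ⟨m2, n2⟩ := (Finset.mem_filter.1 (Finset.mem_coe.1 hu)).2
    have y1 : X.y (u1 : Ω) = 1 := (hy u1 m1).resolve_left n1
    have y2 : X.y (u : Ω) = 1 := (hy u m2).resolve_left n2
    refine Finset.mem_coe.2 (Finset.mem_filter.2 ⟨Finset.mem_univ _, U.add_mem m2 m1, ?_⟩)
    change X.y ((u : Ω) + u1) = 0
    rw [X.y_add u.2 u1.2, y1, y2, CharTwo.add_self_eq_zero]
  have c2 : Nat.card U = F0.card + F1.card := by
    have h1 : (Finset.univ.filter (fun u : X.W => u ∈ U)).card = Nat.card U := by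
      convert bud_card U
    rw [← h1, ← Finset.card_filter_add_card_filter_not (fun u : X.W => u ∈ W0),
      Finset.filter_filter, Finset.filter_filter]
    congr 2
    ext u
    simp only [hF0, hU0, Finset.mem_filter, AddSubgroup.mem_inf]
  have s1 : ∑ u ∈ Finset.univ.filter (fun u : X.W => u ∈ U ∧ u ≠ 0), X.lg u =
      ∑ u ∈ G0, X.lg u + F1.card := by
    rw [← Finset.sum_filter_add_sum_filter_not _ (fun u : X.W => u ∈ W0), Finset.filter_filter,
      Finset.filter_filter]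
    congr 1
    · refine Finset.sum_congr ?_ fun _ _ => rfl
      ext u
      simp only [hG0, hU0, Finset.mem_filter, Finset.mem_univ, true_and, AddSubgroup.mem_inf]
      tauto
    · have : Finset.univ.filter (fun u : X.W => (u ∈ U ∧ u ≠ 0) ∧ ¬ u ∈ W0) = F1 := by
        ext u
        simp only [hF1, Finset.mem_filter, Finset.mem_univ, true_and]
        exact ⟨fun h => ⟨h.1.1, h.2⟩, fun h => ⟨⟨h.1, (one u h.2).1⟩, h.2⟩⟩
      rw [this, Finset.sum_congr rfl (g := fun _ => (1 : ℝ)) fun u hu =>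
        (one u (Finset.mem_filter.1 hu).2.2).2]
      simp
  have inv : -((Nat.card U : ℝ) * 2 ^ X.r) ≤ 2 ^ X.N * (∑ u ∈ G0, X.lg u + F1.card) := by
    rw [← s1]
    convert X.inv_sum U hU
  rw [c2] at inv
  push_cast at inv
  have c1' : (F1.card : ℝ) ≤ F0.card := by exact_mod_cast c1
  have p0 : (0 : ℝ) < F0.card := by
    exact_mod_cast Finset.card_pos.2 ⟨0, Finset.mem_filter.2 ⟨Finset.mem_univ _, U0.zero_mem⟩⟩
  have p1 : (0 : ℝ) ≤ F1.card := Nat.cast_nonneg _
  have hr : (0 : ℝ) < 2 ^ X.r := by positivity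
  have h4 : 4 * (2 : ℝ) ^ X.r ≤ 2 ^ X.N := by
    rw [X.N_eq, pow_add, mul_comm]
    refine mul_le_mul_of_nonneg_left ?_ hr.le
    calc (4 : ℝ) = 2 ^ 2 := by norm_num
      _ ≤ 2 ^ X.j := pow_le_pow_right₀ one_le_two hj
  have hα := X.α_pos
  generalize ∑ u ∈ G0, X.lg u = S at tot hS inv
  generalize (F0.card : ℝ) = n0 at tot inv c1' p0
  generalize (F1.card : ℝ) = n1 at inv c1' p1
  generalize (2 : ℝ) ^ X.r = R at tot inv hr h4
  generalize (2 : ℝ) ^ X.N = M at tot inv h4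
  have b1 : -(3 / 2 * n0) ≤ S := by
    by_contra hn
    have hn' : S + n1 < -(n0 / 2) := by linarith
    have : M * (S + n1) < M * (-(n0 / 2)) := mul_lt_mul_of_pos_left hn' (by linarith)
    nlinarith
  have b2 : R * (-(3 * n0)) ≤ R * (-X.ν + S) := mul_le_mul_of_nonneg_left (by linarith) hr.le
  nlinarith

end Cx

end W28

end Pool.Agent.Lib.MP_346d6a_co
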