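import Pool.Agent.Lib.MP_346d6a_co.W28Def
import Pool.Agent.Lib.MP_346d6a_co.TTrans

/-!
Roots of a polynomial that is additive in the outer variable: colours and orbit maps.
-/

set_option maxSynthPendingDepth 3

namespace Pool.Agent.Lib.MP_346d6a_co

open Polynomial

namespace W28

variable {k Ω : Type} [Field k] [Field Ω] [Algebra k Ω] {s : Ω} {B : k[X][X]}

theorem w28col_inj (hs : Transcendental k s) :
    Function.Injective ((aeval s : k[X] →ₐ[k] Ω) : k[X] →+* Ω) :=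
  transcendental_iff_injective.1 hs

theorem w28col_map_ne (hs : Transcendental k s) (hB : B ≠ 0) :
    B.map ((aeval s : k[X] →ₐ[k] Ω) : k[X] →+* Ω) ≠ 0 :=
  (Polynomial.map_ne_zero_iff (w28col_inj hs)).2 hB

theorem w28col_dvd_iff (hs : Transcendental k s) {P : k[X][X]} (hP : Irreducible P) {u : Ω}
    (h : ev2 s u P = 0) (Q : k[X][X]) : ev2 s u Q = 0 ↔ P ∣ Q :=
  ⟨fun h2 => dvd_of_aevalAeval_eq_zero hs hP h h2, by
    rintro ⟨R, rfl⟩
    rw [map_mul, h, zero_mul]⟩

theorem w28col_mp2_id (P : k[X][X]) : mp2 (RingHom.id k) P = P := by simp [mp2]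

theorem w28col_mem_map (φ : k ≃+* k) (I : Ideal k[X][X]) (P : k[X][X]) :
    mp2 (φ : k →+* k) P ∈ I.map (mp2 (φ : k →+* k)) ↔ P ∈ I := by
  rw [← Ideal.mem_comap, Ideal.comap_map_of_bijective _ (TTrans.mp2_bijective φ)]

theorem col2_eq_span (hs : Transcendental k s) {P : k[X][X]} (hP : Irreducible P) {u : Ω}
    (h : ev2 s u P = 0) : col2 k s u = Ideal.span {P} := by
  ext Q
  rw [mem_col2, w28col_dvd_iff hs hP h, Ideal.mem_span_singleton]

theorem col2_eq_of (hs : Transcendental k s) (hB : B ≠ 0) {u₁ u₂ : Ω} (h₁ : ev2 s u₁ B = 0)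
    (h₂ : ev2 s u₂ B = 0) (h : ∀ P₁ P₂ P₃ : k[X][X], Irreducible P₁ → Irreducible P₂ →
      P₁ * P₂ * P₃ = B → ev2 s u₁ P₁ = 0 → ev2 s u₂ P₂ = 0 → False) :
    col2 k s u₁ = col2 k s u₂ := by
  obtain ⟨P₁, i₁, d₁, z₁⟩ := exists_irred_factor _ B hB h₁
  obtain ⟨P₂, i₂, d₂, z₂⟩ := exists_irred_factor _ B hB h₂
  have h3 : P₁ ∣ P₂ := by
    by_contra hn
    obtain ⟨P₃, h3⟩ := (i₁.isRelPrime_iff_not_dvd.2 hn).mul_dvd d₁ d₂
    exact h P₁ P₂ P₃ i₁ i₂ h3.symm z₁ z₂
  rw [col2_eq_span hs i₁ z₁, col2_eq_span hs i₂ z₂, Ideal.span_singleton_eq_span_singleton]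
  exact i₁.associated_of_dvd i₂ h3

/-- The two trivial roots are alone in their colour classes. -/
theorem eq_zero_of_col2 {u : Ω} (h : col2 k s u = col2 k s 0) : u = 0 := by
  simpa using (col2_eq_iff.1 h X).2 (by simp)

theorem eq_s_of_col2 {u : Ω} (h : col2 k s u = col2 k s s) : u = s := by
  have := (col2_eq_iff.1 h (X - C X)).2 (by simp)
  exact sub_eq_zero.1 (by simpa using this)

theorem finite_roots (hs : Transcendental k s) (hB : B ≠ 0) (W : AddSubgroup Ω)
    (hW : ∀ u, u ∈ W ↔ ev2 s u B = 0) : Finite W := by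
  refine Set.Finite.subset (finite_setOfPred_isRoot (w28col_map_ne hs hB)) fun u hu => ?_
  have := (hW u).1 hu
  rwa [ev2_eq] at this

/-- Orbit maps. -/
theorem realise [IsAlgClosed Ω] (hs : Transcendental k s) (hB : B ≠ 0) (W : AddSubgroup Ω)
    (hW : ∀ u, u ∈ W ↔ ev2 s u B = 0) (u v : W) (h : col2 k s (u : Ω) = col2 k s (v : Ω)) :
    ∃ g : W ≃+ W, (∀ w : W, col2 k s (g w : Ω) = col2 k s (w : Ω)) ∧ g u = v := by
  have := finite_roots hs hB W hW
  obtain ⟨S, j, h1, h2⟩ := TTrans.exists_ext (ev2 (k := k) s (u : Ω)) (ev2 s (v : Ω))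
    (col2_eq_iff.1 h)
  choose m hm using h1
  have hk : ∀ c, algebraMap k Ω c ∈ S := fun c => by simpa using m (C (C c))
  let _ : Algebra k S := ((algebraMap k Ω).codRestrict S hk).toAlgebra
  have hj : ∀ (P : k[X][X]) (z : Ω) (hz : z ∈ S), ev2 s (u : Ω) P = z →
      j ⟨z, hz⟩ = ev2 s (v : Ω) P := by
    rintro P _ hz rfl
    exact hm P
  have ms : s ∈ S := by simpa using m (C X)
  have hs1 : j ⟨s, ms⟩ = s := by simpa using hj (C X) s ms (by simp)
  have key : ∀ (w : S) (P : k[X][X]), (ev2 s (j w) P = 0 ↔ ev2 s (w : Ω) P = 0) := fun w P => by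
    have e1 := map_ev2 (RingHom.id k) S.subtype (fun _ => rfl) (⟨s, ms⟩ : S) w P
    have e2 := map_ev2 (RingHom.id k) j (fun c => by
      exact (hj (C (C c)) _ (hk c) (by simp)).trans (by simp)) (⟨s, ms⟩ : S) w P
    rw [w28col_mp2_id] at e1 e2
    rw [hs1] at e2
    rw [← e2, map_eq_zero j, ← map_eq_zero S.subtype, e1]
    rfl
  have hS : ∀ w : W, (w : Ω) ∈ S := fun w => by
    have e : (B.map C).map (ev2 s (u : Ω)) = B.map ((aeval s : k[X] →ₐ[k] Ω) : k[X] →+* Ω) := by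
      rw [Polynomial.map_map]
      exact congrArg (B.map ·) (RingHom.ext fun p => ev2_C s (u : Ω) p)
    exact h2 (B.map C) (e ▸ w28col_map_ne hs hB) w (by rw [e, ← ev2_eq]; exact (hW _).1 w.2)
  let g : W →+ W :=
    { toFun := fun w => ⟨j ⟨w, hS w⟩, (hW _).2 ((key _ B).2 ((hW _).1 w.2))⟩
      map_zero' := Subtype.ext (map_zero j)
      map_add' := fun a b => Subtype.ext (map_add j ⟨a, hS a⟩ ⟨b, hS b⟩) }
  have hg : Function.Injective g := fun a b e =>
    Subtype.ext (congrArg (fun z : S => (z : Ω)) (j.injective (congrArg Subtype.val e)))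
  refine ⟨AddEquiv.ofBijective g (Finite.injective_iff_bijective.1 hg),
    fun w => col2_eq_iff.2 (key ⟨w, hS w⟩), Subtype.ext ?_⟩
  exact (hj X _ (hS u) (by simp)).trans (by simp)

/-- A semilinear automorphism fixing `s` twists the colours. -/
theorem col2_twist (φ : k ≃+* k) (g : Ω ≃+* Ω)
    (hc : ∀ c, g (algebraMap k Ω c) = algebraMap k Ω (φ c)) (hg : g s = s) (u : Ω) :
    col2 k s (g u) = (col2 k s u).map (mp2 (φ : k →+* k)) := by
  ext1 P
  obtain ⟨Q, rfl⟩ := (TTrans.mp2_bijective φ).2 P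
  have e := map_ev2 (φ : k →+* k) (g : Ω →+* Ω) hc s u Q
  simp only [RingHom.coe_coe, hg] at e
  rw [w28col_mem_map, mem_col2, mem_col2, ← e, map_eq_zero_iff _ g.injective]

theorem col2_map (φ : k ≃+* k) (g : Ω ≃+* Ω)
    (hc : ∀ c, g (algebraMap k Ω c) = algebraMap k Ω (φ c)) (hg : g s = s) {u v : Ω}
    (h : col2 k s u = col2 k s v) : col2 k s (g u) = col2 k s (g v) := by
  rw [col2_twist φ g hc hg, col2_twist φ g hc hg, h]

theorem col2_map_id (g : Ω ≃+* Ω) (hc : ∀ c, g (algebraMap k Ω c) = algebraMap k Ω c)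
    (hg : g s = s) (u : Ω) : col2 k s (g u) = col2 k s u := by
  refine col2_eq_iff.2 fun P => ?_
  have e := map_ev2 (RingHom.id k) (g : Ω →+* Ω) hc s u P
  simp only [RingHom.coe_coe, hg, w28col_mp2_id] at e
  rw [← e, map_eq_zero_iff _ g.injective]

/-- A stable colour is trivial. -/
theorem fixed_col [CharP Ω 2] (hs : Transcendental k s) (hB : B ≠ 0) (φ : k ≃+* k)
    (hexc : ExcB (φ : k →+* k) B) (g : Ω ≃+* Ω)
    (hc : ∀ c, g (algebraMap k Ω c) = algebraMap k Ω (φ c)) (hg : g s = s) {u : Ω}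
    (hu : ev2 s u B = 0) (h : col2 k s (g u) = col2 k s u) : u = 0 ∨ u = s := by
  obtain ⟨P, i, d, z⟩ := exists_irred_factor (ev2 s u) _ hB hu
  have h1 : ev2 s u (mp2 (φ : k →+* k) P) = 0 := by
    rw [← mem_col2, ← h, col2_twist φ g hc hg, w28col_mem_map, mem_col2, z]
  have h2 := (w28col_dvd_iff hs i z _).2 (hexc P i d ((w28col_dvd_iff hs i z _).1 h1))
  have h3 : s * u * (u + s) = 0 := by simpa only [map_mul, map_add, ev2_C, ev2_X, aeval_X] using h2
  rw [mul_eq_zero, mul_eq_zero, CharTwo.add_eq_zero] at h3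
  rcases h3 with (h3 | h3) | h3
  · exact absurd (h3 ▸ isAlgebraic_zero) hs
  · exact Or.inl h3
  · exact Or.inr h3

/-- The restriction of a field automorphism to the roots. -/
theorem exists_restrict (W : AddSubgroup Ω) [Finite W] (g : Ω ≃+* Ω) (hg : ∀ u ∈ W, g u ∈ W) :
    ∃ p : W ≃+ W, ∀ u : W, (p u : Ω) = g u := by
  let p : W →+ W :=
    { toFun := fun w => ⟨g w, hg w w.2⟩
      map_zero' := Subtype.ext (map_zero g)
      map_add' := fun a b => Subtype.ext (map_add g (a : Ω) b) }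
  have hp : Function.Injective p := fun a b e =>
    Subtype.ext (g.injective (congrArg Subtype.val e))
  exact ⟨AddEquiv.ofBijective p (Finite.injective_iff_bijective.1 hp), fun _ => rfl⟩

theorem w28col_derivative [CharP Ω 2] (hA : AddIn B) :
    derivative (B.map ((aeval s : k[X] →ₐ[k] Ω) : k[X] →+* Ω)) = C (aeval s (B.coeff 1)) := by
  ext i
  rw [coeff_derivative, coeff_map, coeff_C]
  split_ifs with h
  · subst h
    simp
  · by_cases h0 : B.coeff (i + 1) = 0
    · rw [h0, map_zero, zero_mul]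
    · obtain ⟨b, hb⟩ := hA _ h0
      have hb0 : b ≠ 0 := by
        rintro rfl
        exact h (by simpa using hb)
      have : ((i + 1 : ℕ) : Ω) = 0 := by
        rw [hb, Nat.cast_pow, Nat.cast_ofNat, CharTwo.two_eq_zero, zero_pow hb0]
      rw [Nat.cast_succ] at this
      rw [this, mul_zero]

theorem w28col_ne (h1 : B.coeff 1 ≠ 0) : B ≠ 0 := fun e => h1 (by rw [e, coeff_zero])

theorem separable_roots [CharP Ω 2] (hs : Transcendental k s) (hA : AddIn B) (h1 : B.coeff 1 ≠ 0) :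
    (B.map ((aeval s : k[X] →ₐ[k] Ω) : k[X] →+* Ω)).Separable := by
  rw [separable_def, w28col_derivative hA]
  have h2 : aeval s (B.coeff 1) ≠ 0 := fun e => h1 (w28col_inj hs (by simpa using e))
  exact isCoprime_comm.1 (((isUnit_C.2 h2.isUnit).isRelPrime_left).isCoprime)

theorem prod_roots [IsAlgClosed Ω] [CharP Ω 2] (hs : Transcendental k s) (hA : AddIn B)
    (h1 : B.coeff 1 ≠ 0) (W : AddSubgroup Ω) [Fintype W] (hW : ∀ u, u ∈ W ↔ ev2 s u B = 0) :
    B.map ((aeval s : k[X] →ₐ[k] Ω) : k[X] →+* Ω) =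
      C (aeval s B.leadingCoeff) * ∏ u : W, (X - C (u : Ω)) := by
  classical
  have hn := w28col_map_ne hs (w28col_ne h1)
  have hr : (B.map ((aeval s : k[X] →ₐ[k] Ω) : k[X] →+* Ω)).roots =
      (Finset.univ : Finset W).val.map (fun u : W => (u : Ω)) := by
    refine (Multiset.Nodup.ext (nodup_roots (separable_roots hs hA h1))
      (Finset.univ.nodup.map Subtype.val_injective)).2 fun z => ?_
    rw [mem_roots hn, IsRoot, ← ev2_eq, ← hW]
    simp
  conv_lhs => rw [(IsAlgClosed.splits (B.map _)).eq_prod_roots]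
  rw [hr, leadingCoeff_map_of_injective (w28col_inj hs), Multiset.map_map]
  rfl

theorem card_roots [IsAlgClosed Ω] [CharP Ω 2] (hs : Transcendental k s) (hA : AddIn B)
    (h1 : B.coeff 1 ≠ 0) (W : AddSubgroup Ω) (hW : ∀ u, u ∈ W ↔ ev2 s u B = 0) :
    Nat.card W = B.natDegree := by
  have := finite_roots hs (w28col_ne h1) W hW
  let _ : Fintype W := Fintype.ofFinite _
  have h2 : aeval s B.leadingCoeff ≠ 0 := fun e =>
    leadingCoeff_ne_zero.2 (w28col_ne h1) (w28col_inj hs (by simpa using e))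
  have h3 := congrArg natDegree (prod_roots hs hA h1 W hW)
  rw [natDegree_map_eq_of_injective (w28col_inj hs), natDegree_C_mul h2,
    natDegree_finsetProd_X_sub_C_eq_card] at h3
  rw [h3, Nat.card_eq_fintype_card, Finset.card_univ]

theorem w28col_coeff_one (p : Polynomial Ω) : (X * p).coeff 1 = p.eval 0 := by
  rw [coeff_X_mul, coeff_zero_eq_eval_zero]

open Classical in
/-- The product of the nonzero roots. -/
theorem prod_ne_zero [IsAlgClosed Ω] [CharP Ω 2] (hs : Transcendental k s) (hA : AddIn B)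
    (h1 : B.coeff 1 ≠ 0) (W : AddSubgroup Ω) [Fintype W] (hW : ∀ u, u ∈ W ↔ ev2 s u B = 0) :
    aeval s B.leadingCoeff * ∏ u ∈ Finset.univ.filter (fun u : W => u ≠ 0), (u : Ω) =
      aeval s (B.coeff 1) := by
  have h2 := congrArg (fun p => p.coeff 1) (prod_roots hs hA h1 W hW)
  rw [← Finset.mul_prod_erase _ _ (Finset.mem_univ (0 : W)), ← Finset.filter_ne'] at h2
  simp only [coeff_map, RingHom.coe_coe, coeff_C_mul, AddSubgroup.coe_zero, map_zero, sub_zero,
    w28col_coeff_one] at h2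
  rw [h2, eval_prod]
  simp only [eval_sub, eval_X, eval_C, zero_sub, CharTwo.neg_eq]

namespace Cx

variable (X : Cx k Ω)

theorem BB_ne : BB X.cf X.N ≠ 0 := fun e => X.row_zero_ne (by rw [← X.coeff_BB_one, e, coeff_zero])

instance finW : Finite X.W := finite_roots X.s_tr X.BB_ne X.W fun _ => Iff.rfl

noncomputable instance fintypeW : Fintype X.W := Fintype.ofFinite _

theorem card_W [IsAlgClosed Ω] : Nat.card X.W = 2 ^ X.N := by
  have := X.ch
  rw [card_roots X.s_tr (addIn_BB _ _) (by rw [X.coeff_BB_one]; exact X.row_zero_ne) X.W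
    fun _ => Iff.rfl, X.natDegree_BB.1]

theorem π_mem {u : Ω} (hu : u ∈ X.W) : X.π u ∈ X.W := by
  rw [mem_W, ← X.π_s, ← X.π_B, X.mem_W.1 hu, map_zero]

theorem π_fixed {u : Ω} (hu : u ∈ X.W) (h : col2 k X.s (X.π u) = col2 k X.s u) :
    u = 0 ∨ u = X.s :=
  have := X.ch
  fixed_col X.s_tr X.BB_ne X.φ X.wd.exc X.π X.πc X.π_s hu h

end Cx

end W28

end Pool.Agent.Lib.MP_346d6a_co
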