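import Pool.Agent.Lib.MP_346d6a_co.TDefs

/-!
The wild case: the statements of the three parts of the proof.
`k[X][X]` is `k[s][u]` (`s` inner, `u` outer).
-/

namespace Pool.Agent.Lib.MP_346d6a_co

open Polynomial

section

variable {k : Type} [Field k]

/-- `B (s, u)` is additive in `s` and in `u`. -/
def BiAdd (B : k[X][X]) : Prop :=
  ∀ a b, (B.coeff b).coeff a ≠ 0 → (∃ i, a = 2 ^ i) ∧ ∃ i, b = 2 ^ i

/-- The only invariant components of the curve `B = 0` are among `s`, `u`, `s + u`. -/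
def ExcB (φ : k →+* k) (B : k[X][X]) : Prop :=
  ∀ P : k[X][X], Irreducible P → P ∣ B → P ∣ mp2 φ P → P ∣ C X * X * (X + C X)

end

/-- Exceptional alternating biadditive forms are tame. -/
def WildDO : Prop :=
  ∀ (k : Type) [Field k] [IsAlgClosed k] [CharP k 2] (φ : k ≃+* k) (B : k[X][X]), BiAdd B →
    (∀ a b, (B.coeff b).coeff a = (B.coeff a).coeff b) → (∀ a, (B.coeff a).coeff a = 0) →
    mp2 (φ : k →+* k) B = B → ExcB (φ : k →+* k) B → B.coeff 1 ≠ 0 →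
    ∀ a b : ℕ, (B.coeff (2 ^ b)).coeff (2 ^ a) ≠ 0 → 2 ^ b ≤ 2 ^ a * (B.coeff 1).natDegree

/-- Wild exceptional polynomials of degree `2 ^ r` times a Gold number are quadratic. -/
def NonDO : Prop :=
  ∀ (k : Type) [Field k] [IsAlgClosed k] [CharP k 2] (φ : k ≃+* k) (f : k[X]) (r j : ℕ), Ctx φ f →
    (∀ e, f.coeff e ≠ 0 → ¬ Lin e) → ¬ Tame f → 2 ≤ r → 1 ≤ j →
    f.natDegree = 2 ^ r * (2 ^ j + 1) → ∀ e, f.coeff e ≠ 0 → ∃ a b, e = 2 ^ a + 2 ^ b

/-- Exceptional polynomials of degree `2 ^ r` times a Kasami-Welch number are tame. -/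
def WildK : Prop :=
  ∀ (k : Type) [Field k] [IsAlgClosed k] [CharP k 2] (φ : k ≃+* k) (f : k[X]) (r j : ℕ), Ctx φ f →
    (∀ e, f.coeff e ≠ 0 → ¬ Lin e) → 2 ≤ r → 2 ≤ j →
    f.natDegree = 2 ^ r * (4 ^ j - 2 ^ j + 1) → Tame f

end Pool.Agent.Lib.MP_346d6a_co
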