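import Pool.Agent.Lib.MP_346d6a_co.TBasic
import Pool.Agent.Lib.MP_346d6a_co.WDefs

/-!
Wild quadratic forms: definitions and basic facts (helper28).
`k[X][X]` is `k[s][u]` (`s` inner, `u` outer).
-/

set_option maxSynthPendingDepth 3

namespace Pool.Agent.Lib.MP_346d6a_co

open Polynomial

namespace W28

section defs

variable {k : Type} [Field k]

/-- The coefficient of `u ^ 2 ^ i`. -/
noncomputable def row (cf : ℕ → ℕ → k) (N i : ℕ) : k[X] :=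
  ∑ c ∈ Finset.range (N + 1), monomial (2 ^ c) (cf c i)

/-- The biadditive polynomial `∑ cf c i s ^ 2 ^ c u ^ 2 ^ i`. -/
noncomputable def BB (cf : ℕ → ℕ → k) (N : ℕ) : k[X][X] :=
  ∑ i ∈ Finset.range (N + 1), monomial (2 ^ i) (row cf N i)

/-- Additive in the outer variable. -/
def AddIn (B : k[X][X]) : Prop := ∀ i, B.coeff i ≠ 0 → ∃ b, i = 2 ^ b

variable (k) in
/-- The colour of a root. -/
noncomputable def col2 {Ω : Type} [Field Ω] [Algebra k Ω] (s u : Ω) : Ideal k[X][X] :=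
  RingHom.ker (ev2 s u)

/-- The data of a wild exceptional quadratic form. -/
structure WD (φ : k ≃+* k) (cf : ℕ → ℕ → k) (N r j0 a D : ℕ) : Prop where
  symm : ∀ c i, cf c i = cf i c
  diag : ∀ c, cf c c = 0
  fix : ∀ c i, φ (cf c i) = cf c i
  supp : ∀ c i, cf c i ≠ 0 → i ≤ N
  r_lt : r < N
  top : cf r N ≠ 0
  top' : ∀ c, cf c N ≠ 0 → c ≤ r
  bot : cf j0 0 ≠ 0
  bot' : ∀ c, cf c 0 ≠ 0 → c ≤ j0
  wid : ∀ c i, cf c i ≠ 0 → c ≤ i + D
  edge : cf (a + D) a ≠ 0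
  least : ∀ i, cf (i + D) i ≠ 0 → a ≤ i
  wild : j0 < D
  exc : ExcB (φ : k →+* k) (BB cf N)

variable (k) in
/-- The field with `2 ^ a` elements inside `k`. -/
noncomputable def Fq [CharP k 2] (a : ℕ) : Subfield k :=
  (iterateFrobenius k 2 a).eqLocusField (RingHom.id k)

theorem mem_Fq [CharP k 2] {a : ℕ} {x : k} : x ∈ Fq k a ↔ x ^ 2 ^ a = x := Iff.rfl

/-- The trace polynomial. -/
def Tr (a : ℕ) (x : k) : k := ∑ i ∈ Finset.range a, x ^ 2 ^ i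

end defs

section rs

variable {k Ω : Type} [Field k] [Field Ω] [Algebra k Ω] (V : Val k Ω)

open Classical in
/-- The residue of an integral element. -/
noncomputable def rs (x : Ω) : k := if h : V.v x ≤ 1 then (V.res x h).choose else 0

variable {V}

theorem rs_spec {x : Ω} (h : V.v x ≤ 1) : V.v (x - algebraMap k Ω (rs V x)) < 1 := by
  rw [rs, dif_pos h]
  exact (V.res x h).choose_spec

theorem rs_eq {x : Ω} {c : k} (h : V.v (x - algebraMap k Ω c) < 1) : rs V x = c :=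
  V.res_unique' (rs_spec (V.le_one_of_res h)) h

theorem rs_add {x y : Ω} (hx : V.v x ≤ 1) (hy : V.v y ≤ 1) : rs V (x + y) = rs V x + rs V y :=
  rs_eq (V.res_add (rs_spec hx) (rs_spec hy))

theorem rs_mul {x y : Ω} (hx : V.v x ≤ 1) (hy : V.v y ≤ 1) : rs V (x * y) = rs V x * rs V y :=
  rs_eq (V.res_mul (rs_spec hx) (rs_spec hy))

theorem rs_pow {x : Ω} (hx : V.v x ≤ 1) (n : ℕ) : rs V (x ^ n) = rs V x ^ n :=
  rs_eq (V.res_pow (rs_spec hx) n)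

theorem rs_const (c : k) : rs V (algebraMap k Ω c) = c := rs_eq (V.res_const c)

theorem rs_of_lt {x : Ω} (h : V.v x < 1) : rs V x = 0 := rs_eq (by simpa using h)

theorem rs_zero : rs V (0 : Ω) = 0 := rs_of_lt (by simp)

theorem rs_eq_zero {x : Ω} (h : V.v x ≤ 1) : rs V x = 0 ↔ V.v x < 1 :=
  ⟨fun h0 => by simpa [h0] using rs_spec h, rs_of_lt⟩

theorem rs_ne_zero {x : Ω} (h : V.v x ≤ 1) : rs V x ≠ 0 ↔ V.v x = 1 := by
  rw [Ne, rs_eq_zero h, not_lt]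
  exact ⟨fun h1 => le_antisymm h h1, fun h1 => h1.ge⟩

theorem rs_map {φ : k →+* k} {g : Ω →+* Ω} (hc : ∀ c, g (algebraMap k Ω c) = algebraMap k Ω (φ c))
    (hv : ∀ x, V.v (g x) = V.v x) {x : Ω} (h : V.v x ≤ 1) : rs V (g x) = φ (rs V x) :=
  rs_eq (by rw [← hc, ← map_sub, hv]; exact rs_spec h)

end rs

section ev

variable {k Ω : Type} [Field k] [Field Ω] [Algebra k Ω] (cf : ℕ → ℕ → k) (N : ℕ)

theorem aeval_row (i : ℕ) (x : Ω) : aeval x (row cf N i) =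
    ∑ c ∈ Finset.range (N + 1), algebraMap k Ω (cf c i) * x ^ 2 ^ c := by
  simp [row, map_sum, aeval_monomial]

theorem coeff_row (i c : ℕ) : (row cf N i).coeff (2 ^ c) = if c ≤ N then cf c i else 0 := by
  rw [row, finsetSum_coeff]
  simp only [coeff_monomial, Nat.pow_right_inj (one_lt_two), Finset.sum_ite_eq', Finset.mem_range,
    Nat.lt_succ_iff]

theorem coeff_row_ne (i e : ℕ) (h : (row cf N i).coeff e ≠ 0) :
    ∃ c, c ≤ N ∧ e = 2 ^ c ∧ cf c i ≠ 0 := by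
  rw [row, finsetSum_coeff] at h
  obtain ⟨c, hc, h1⟩ := Finset.exists_ne_zero_of_sum_ne_zero h
  rw [coeff_monomial] at h1
  split_ifs at h1 with h2
  · exact ⟨c, Nat.lt_succ_iff.1 (Finset.mem_range.1 hc), h2.symm, h1⟩
  · exact absurd rfl h1

theorem coeff_BB (i : ℕ) : (BB cf N).coeff (2 ^ i) = if i ≤ N then row cf N i else 0 := by
  rw [BB, finsetSum_coeff]
  simp only [coeff_monomial, Nat.pow_right_inj (one_lt_two), Finset.sum_ite_eq', Finset.mem_range,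
    Nat.lt_succ_iff]

theorem coeff_BB_ne (e : ℕ) (h : (BB cf N).coeff e ≠ 0) : ∃ i, i ≤ N ∧ e = 2 ^ i := by
  rw [BB, finsetSum_coeff] at h
  obtain ⟨c, hc, h1⟩ := Finset.exists_ne_zero_of_sum_ne_zero h
  rw [coeff_monomial] at h1
  split_ifs at h1 with h2
  · exact ⟨c, Nat.lt_succ_iff.1 (Finset.mem_range.1 hc), h2.symm⟩
  · exact absurd rfl h1

theorem addIn_BB : AddIn (BB cf N) := fun e h =>
  let ⟨i, _, hi⟩ := coeff_BB_ne cf N e h
  ⟨i, hi⟩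

theorem ev2_BB (x w : Ω) : ev2 x w (BB cf N) =
    ∑ i ∈ Finset.range (N + 1), aeval x (row cf N i) * w ^ 2 ^ i := by
  simp [BB, map_sum, ← C_mul_X_pow_eq_monomial]

theorem ev2_BB' (x w : Ω) : ev2 x w (BB cf N) = ∑ i ∈ Finset.range (N + 1),
    ∑ c ∈ Finset.range (N + 1), algebraMap k Ω (cf c i) * x ^ 2 ^ c * w ^ 2 ^ i := by
  simp only [ev2_BB, aeval_row, Finset.sum_mul]

theorem mem_col2 {s u : Ω} {P : k[X][X]} : P ∈ col2 k s u ↔ ev2 s u P = 0 := RingHom.mem_ker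

theorem col2_eq_iff {s u s' u' : Ω} : col2 k s u = col2 k s' u' ↔
    ∀ P : k[X][X], (ev2 s u P = 0 ↔ ev2 s' u' P = 0) := by
  simp only [Ideal.ext_iff, mem_col2]

theorem map_ev2 {Ω' : Type} [Field Ω'] [Algebra k Ω'] (φ : k →+* k) (j : Ω →+* Ω')
    (hj : ∀ c, j (algebraMap k Ω c) = algebraMap k Ω' (φ c)) (s x : Ω) (P : k[X][X]) :
    j (ev2 s x P) = ev2 (j s) (j x) (mp2 φ P) := by
  have : j.comp (ev2 s x) = (ev2 (j s) (j x)).comp (mp2 φ) := by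
    ext <;> simp [mp2, hj]
  exact RingHom.congr_fun this P

variable [CharP Ω 2]

theorem aeval_row_add (i : ℕ) (x y : Ω) :
    aeval (x + y) (row cf N i) = aeval x (row cf N i) + aeval y (row cf N i) := by
  simp only [aeval_row, add_pow_char_pow, mul_add, Finset.sum_add_distrib]

theorem AddIn.ev2_add {B : k[X][X]} (h : AddIn B) (s x y : Ω) :
    ev2 s (x + y) B = ev2 s x B + ev2 s y B := by
  have e : ∀ z : Ω, ev2 s z B = ∑ i ∈ B.support, aeval s (B.coeff i) * z ^ i := fun z => by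
    conv_lhs => rw [B.as_sum_support]
    simp [map_sum, ← C_mul_X_pow_eq_monomial]
  simp only [e, ← Finset.sum_add_distrib]
  refine Finset.sum_congr rfl fun i hi => ?_
  obtain ⟨b, rfl⟩ := h i (mem_support_iff.1 hi)
  rw [add_pow_char_pow, mul_add]

end ev

/-- The local setting at `s = ∞`. -/
structure Cx (k Ω : Type) [Field k] [Field Ω] [Algebra k Ω] where
  φ : k ≃+* k
  cf : ℕ → ℕ → k
  N : ℕ
  r : ℕ
  j0 : ℕ
  a : ℕ
  D : ℕ
  wd : WD φ cf N r j0 a D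
  V : Val k Ω
  ch : CharP Ω 2
  π : Ω ≃+* Ω
  πτ : π V.τ = V.τ
  πc : ∀ c, π (algebraMap k Ω c) = algebraMap k Ω (φ c)
  πv : ∀ x, V.v (π x) = V.v x
  tw : ∀ ζ : k, ζ ≠ 0 → ∃ g : Ω ≃+* Ω, g V.τ = algebraMap k Ω ζ * V.τ ∧
    (∀ c, g (algebraMap k Ω c) = algebraMap k Ω c) ∧ ∀ x, V.v (g x) = V.v x
  θ : k
  θ_ne : θ ≠ 0
  θ_eq : cf (a + D) a * θ ^ 2 ^ a = cf j0 0 * θ

namespace Cx

variable {k Ω : Type} [Field k] [Field Ω] [Algebra k Ω] (X : Cx k Ω)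

/-- The Gold parameter. -/
def j : ℕ := X.N - X.r

/-- The excess of the width. -/
def Del : ℕ := X.D - X.j0

/-- The large transcendental element. -/
noncomputable def s : Ω := (X.V.τ ^ (2 ^ X.a - 1))⁻¹

/-- The form. -/
noncomputable def B (x w : Ω) : Ω := ev2 x w (BB X.cf X.N)

/-- The rows of the form. -/
noncomputable def rw (i : ℕ) (x : Ω) : Ω := aeval x (row X.cf X.N i)

/-- The roots. -/
noncomputable def W : AddSubgroup Ω where
  carrier := {u | X.B X.s u = 0}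
  zero_mem' := by simp [B, ev2_BB]
  add_mem' := fun {u w} hu hw => by
    have := X.ch
    simp only [Set.mem_ofPred_eq, B] at hu hw ⊢
    rw [(addIn_BB _ _).ev2_add, hu, hw, add_zero]
  neg_mem' := fun {u} hu => by
    have := X.ch
    rwa [CharTwo.neg_eq]

/-- Sizes. -/
noncomputable def sz (t : ℝ) : NNReal := X.V.v X.s ^ t

/-- Logarithmic size. -/
noncomputable def lg (u : Ω) : ℝ := Real.logb (X.V.v X.s) (X.V.v u)

/-- The slope of the first edge. -/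
noncomputable def ν : ℝ := (2 ^ (X.a + X.D) - 2 ^ X.j0) / (2 ^ X.a - 1)

/-- The level of the first edge. -/
noncomputable def α : ℝ := X.ν - 2 ^ X.j0

/-- The scale of the smallest roots. -/
noncomputable def c : Ω := X.V.τ ^ (2 ^ (X.a + X.D) - 2 ^ X.j0) * algebraMap k Ω X.θ

/-- The scale of the values. -/
noncomputable def b : Ω := algebraMap k Ω (X.cf X.j0 0) * X.c * X.s ^ 2 ^ X.j0

/-- The leading coefficient of a root. -/
noncomputable def y (u : Ω) : k := rs X.V (u / X.s)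

/-- The coefficients of the variation. -/
noncomputable def Xi (i : ℕ) (u : Ω) : Ω :=
  X.rw i u + algebraMap k Ω (X.y u ^ 2 ^ (X.D + i)) * X.rw i X.s

/-- The first radius. -/
structure Rad (l : Ω) : Prop where
  le0 : ∀ u ∈ X.W, X.V.v (l * X.Xi 0 u / X.b) ≤ 1
  le1 : ∀ u ∈ X.W, X.V.v (l ^ 2 * X.Xi 1 u / X.b) ≤ 1
  ex : ∃ u ∈ X.W, X.V.v (l * X.Xi 0 u / X.b) = 1 ∨ X.V.v (l ^ 2 * X.Xi 1 u / X.b) = 1
  hi : ∀ i, 2 ≤ i → ∀ u ∈ X.W, X.V.v (l ^ 2 ^ i * X.Xi i u / X.b) < 1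
  sm : X.V.v l < X.sz (-X.α / 3)
  small : ∀ u ∈ X.W, X.V.v u < X.sz (-2 ^ (X.D - 1)) →
    X.V.v (l * X.Xi 0 u / X.b) < 1 ∧ X.V.v (l ^ 2 * X.Xi 1 u / X.b) < 1
  tie : X.a ∣ X.Del → (∃ u ∈ X.W, X.V.v (l ^ 2 * X.Xi 1 u / X.b) = 1) →
    2 ≤ X.j ∧ 2 * X.j ≤ X.a ∧ ∃ κ : k, κ ≠ 0 ∧ ∀ u ∈ X.W, X.V.v (l ^ 2 * X.Xi 1 u / X.b -
      algebraMap k Ω (κ * (X.y u ^ 2 ^ X.D + (X.y u ^ 2 ^ X.D) ^ 2))) < 1

/-- Subgroups of the group of roots that are unions of colour classes. -/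
def Inv (U : AddSubgroup X.W) : Prop :=
  ∀ u ∈ U, ∀ w : X.W, col2 k X.s (w : Ω) = col2 k X.s (u : Ω) → w ∈ U

theorem mem_W {u : Ω} : u ∈ X.W ↔ X.B X.s u = 0 := Iff.rfl

/-! Arithmetic. -/

theorem a_pos : 1 ≤ X.a := by
  by_contra h
  have h0 : X.a = 0 := by omega
  have := X.wd.bot' (X.a + X.D) (by simpa [h0] using X.wd.edge)
  have := X.wd.wild
  omega

theorem j0_pos : 1 ≤ X.j0 := by
  by_contra h
  have h0 : X.j0 = 0 := by omega
  exact X.wd.bot (by rw [h0]; exact X.wd.diag 0)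

theorem j_pos : 1 ≤ X.j := by have := X.wd.r_lt; unfold j; omega

theorem N_eq : X.N = X.r + X.j := by have := X.wd.r_lt; unfold j; omega

theorem D_eq : X.D = X.j0 + X.Del := by have := X.wd.wild; unfold Del; omega

theorem Del_pos : 1 ≤ X.Del := by have := X.wd.wild; unfold Del; omega

theorem supp' {c i : ℕ} (h : X.cf c i ≠ 0) : c ≤ X.N := X.wd.supp i c (by rwa [X.wd.symm])

theorem aD_le : X.a + X.D ≤ X.N := X.supp' X.wd.edge

theorem j_le : X.j ≤ X.D := by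
  have := X.wd.wid X.N X.r (by rw [X.wd.symm]; exact X.wd.top)
  unfold j; omega

theorem q_gt : (1 : ℝ) < 2 ^ X.a := one_lt_pow₀ one_lt_two (by have := X.a_pos; omega)

theorem ν_mul : X.ν * (2 ^ X.a - 1) = 2 ^ (X.a + X.D) - 2 ^ X.j0 :=
  div_mul_cancel₀ _ (sub_pos.2 X.q_gt).ne'

theorem qν : 2 ^ X.a * X.ν = 2 ^ (X.a + X.D) + X.α := by
  have := X.ν_mul; unfold α; linarith

theorem pow_j0_lt : (2 : ℝ) ^ X.j0 < 2 ^ X.D := pow_lt_pow_right₀ one_lt_two X.wd.wild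

/-- `(q - 1) (ν - 2 ^ D) = 2 ^ D - 2 ^ j0`. -/
theorem ν_sub : (X.ν - 2 ^ X.D) * (2 ^ X.a - 1) = 2 ^ X.D - 2 ^ X.j0 := by
  have := X.ν_mul; rw [pow_add] at this; linarith

theorem ν_gt : (2 : ℝ) ^ X.D < X.ν := by
  have h := X.ν_sub
  have := X.pow_j0_lt
  have := X.q_gt
  by_contra hn
  nlinarith

theorem α_gt : (2 : ℝ) ^ X.D - 2 ^ X.j0 < X.α := by have := X.ν_gt; unfold α; linarith

theorem α_pos : 0 < X.α := by have := X.α_gt; have := X.pow_j0_lt; linarith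

theorem α_lt : X.α < X.ν := by unfold α; have : (0 : ℝ) < 2 ^ X.j0 := by positivity
                               linarith

/-- The first edge of the hull carries only its two ends. -/
theorem hull {c i : ℕ} (h : X.cf c i ≠ 0) (h0 : ¬ (i = 0 ∧ c = X.j0))
    (h1 : ¬ (i = X.a ∧ c = X.a + X.D)) : (2 : ℝ) ^ c - 2 ^ i * X.ν < -X.α := by
  have hν := X.ν_gt
  have hj := X.pow_j0_lt
  have hj0 : (0 : ℝ) < 2 ^ X.j0 := by positivity
  unfold α
  rcases Nat.eq_zero_or_pos i with rfl | hi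
  · have h2 : c < X.j0 := lt_of_le_of_ne (X.wd.bot' c h) fun e => h0 ⟨rfl, e⟩
    have : (2 : ℝ) ^ c < 2 ^ X.j0 := pow_lt_pow_right₀ one_lt_two h2
    simp only [pow_zero, one_mul]
    linarith
  have h2 : (2 : ℝ) ≤ 2 ^ i := by
    calc (2 : ℝ) = 2 ^ 1 := by norm_num
      _ ≤ 2 ^ i := pow_le_pow_right₀ one_le_two hi
  rcases (X.wd.wid c i h).eq_or_lt with rfl | h3
  · have h4 : X.a < i := lt_of_le_of_ne (X.wd.least i h) fun e => h1 ⟨e.symm, by rw [e]⟩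
    have h5 : (2 : ℝ) ^ X.a < 2 ^ i := pow_lt_pow_right₀ one_lt_two h4
    have h6 := X.ν_sub
    rw [pow_add]
    nlinarith
  · have h4 : (2 : ℝ) ^ (c + 1) ≤ 2 ^ (i + X.D) := pow_le_pow_right₀ one_le_two h3
    rw [pow_add, pow_add] at h4
    nlinarith

/-! Sizes. -/

theorem s_ne : X.s ≠ 0 := inv_ne_zero (pow_ne_zero _ X.V.τ_ne)

theorem R_gt : 1 < X.V.v X.s := by
  rw [s, map_inv₀, map_pow]
  refine (one_lt_inv₀ (pow_pos X.V.τ_pos _)).2 (pow_lt_one₀ zero_le X.V.τ_lt ?_)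
  have : 2 ^ 1 ≤ 2 ^ X.a := Nat.pow_le_pow_right two_pos X.a_pos
  omega

theorem R_ne : X.V.v X.s ≠ 0 := (zero_lt_one.trans X.R_gt).ne'

theorem s_tr : Transcendental k X.s := by
  rintro ⟨p, hp, h⟩
  have := X.V.v_aeval_of_one_lt X.R_gt hp
  rw [h, map_zero] at this
  exact pow_ne_zero _ X.R_ne this.symm

theorem sz_pos (t : ℝ) : 0 < X.sz t := NNReal.rpow_pos (zero_lt_one.trans X.R_gt)

theorem sz_ne (t : ℝ) : X.sz t ≠ 0 := (X.sz_pos t).ne'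

@[simp] theorem sz_zero : X.sz 0 = 1 := NNReal.rpow_zero _

theorem sz_one : X.sz 1 = X.V.v X.s := NNReal.rpow_one _

theorem sz_add (t t' : ℝ) : X.sz (t + t') = X.sz t * X.sz t' := NNReal.rpow_add X.R_ne t t'

theorem sz_neg (t : ℝ) : X.sz (-t) = (X.sz t)⁻¹ := NNReal.rpow_neg _ t

theorem sz_sub (t t' : ℝ) : X.sz (t - t') = X.sz t / X.sz t' := NNReal.rpow_sub X.R_ne t t'

theorem sz_pow (t : ℝ) (n : ℕ) : X.sz t ^ n = X.sz (n * t) := by
  rw [sz, sz, mul_comm, NNReal.rpow_mul, NNReal.rpow_natCast]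

theorem sz_lt {t t' : ℝ} : X.sz t < X.sz t' ↔ t < t' := by
  rw [← NNReal.coe_lt_coe, sz, sz, NNReal.coe_rpow, NNReal.coe_rpow]
  exact Real.rpow_lt_rpow_left_iff (by exact_mod_cast X.R_gt)

theorem sz_le {t t' : ℝ} : X.sz t ≤ X.sz t' ↔ t ≤ t' := by
  rw [← not_lt, X.sz_lt, not_lt]

theorem sz_lt_one {t : ℝ} : X.sz t < 1 ↔ t < 0 := by rw [← X.sz_zero, X.sz_lt]

theorem sz_le_one {t : ℝ} : X.sz t ≤ 1 ↔ t ≤ 0 := by rw [← X.sz_zero, X.sz_le]

theorem v_s_pow (n : ℕ) : X.V.v (X.s ^ n) = X.sz n := by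
  rw [map_pow, ← X.sz_one, X.sz_pow, mul_one]

theorem sz_lg {u : Ω} (hu : u ≠ 0) : X.sz (X.lg u) = X.V.v u := by
  apply NNReal.eq
  rw [sz, NNReal.coe_rpow, lg]
  exact Real.rpow_logb (by exact_mod_cast zero_lt_one.trans X.R_gt)
    (by exact_mod_cast X.R_gt.ne') (by exact_mod_cast (X.V.v.pos_iff).2 hu)

theorem lg_eq {u : Ω} {t : ℝ} (h : X.V.v u = X.sz t) : X.lg u = t := by
  have hu : u ≠ 0 := fun e => X.sz_ne t (by rw [← h, e, map_zero])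
  rw [← X.sz_lg hu] at h
  exact le_antisymm (X.sz_le.1 h.le) (X.sz_le.1 h.ge)

theorem v_τ : X.V.v X.V.τ = X.sz (-(2 ^ X.a - 1)⁻¹) := by
  have h1 : 1 ≤ 2 ^ X.a := Nat.one_le_two_pow
  have hq := X.q_gt
  have h : X.sz ((2 ^ X.a - 1 : ℕ) * X.lg X.V.τ) = X.sz (-1) := by
    rw [← X.sz_pow, X.sz_lg X.V.τ_ne, X.sz_neg, X.sz_one, s, map_inv₀, inv_inv, map_pow]
  have h2 := le_antisymm (X.sz_le.1 h.le) (X.sz_le.1 h.ge)
  rw [Nat.cast_sub h1] at h2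
  push_cast at h2
  rw [← X.sz_lg X.V.τ_ne]
  congr 1
  field_simp [(sub_pos.2 hq).ne']
  linarith

theorem v_c : X.V.v X.c = X.sz (-X.ν) := by
  have h1 : 2 ^ X.j0 ≤ 2 ^ (X.a + X.D) :=
    Nat.pow_le_pow_right two_pos (by have := X.wd.wild; omega)
  rw [c, map_mul, X.V.const _ X.θ_ne, mul_one, map_pow, X.v_τ, X.sz_pow, Nat.cast_sub h1, ν]
  congr 1
  push_cast
  ring

theorem v_b : X.V.v X.b = X.sz (-X.α) := by
  rw [b, map_mul, map_mul, X.V.const _ X.wd.bot, one_mul, X.v_c, X.v_s_pow, ← X.sz_add, α]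
  congr 1
  push_cast
  ring

theorem c_ne : X.c ≠ 0 := fun e => X.sz_ne (-X.ν) (by rw [← X.v_c, e, map_zero])

theorem b_ne : X.b ≠ 0 := fun e => X.sz_ne (-X.α) (by rw [← X.v_b, e, map_zero])

theorem le_mul {x w : Ω} {t t' : ℝ} (hx : X.V.v x ≤ X.sz t) (hw : X.V.v w ≤ X.sz t') :
    X.V.v (x * w) ≤ X.sz (t + t') := by
  rw [map_mul, X.sz_add]; exact mul_le_mul' hx hw

theorem le_pow {x : Ω} {t : ℝ} (hx : X.V.v x ≤ X.sz t) (n : ℕ) :
    X.V.v (x ^ n) ≤ X.sz (n * t) := by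
  rw [map_pow, ← X.sz_pow]; exact pow_le_pow_left₀ zero_le hx n

theorem lt_pow {x : Ω} {t : ℝ} (hx : X.V.v x < X.sz t) {n : ℕ} (hn : n ≠ 0) :
    X.V.v (x ^ n) < X.sz (n * t) := by
  rw [map_pow, ← X.sz_pow]; exact pow_lt_pow_left₀ hx zero_le hn

theorem lt_mul {x w : Ω} {t t' : ℝ} (hx : X.V.v x < X.sz t) (hw : X.V.v w ≤ X.sz t') :
    X.V.v (x * w) < X.sz (t + t') := by
  rw [map_mul, X.sz_add]
  exact (mul_le_mul_right hw _).trans_lt (mul_lt_mul_of_pos_right hx (X.sz_pos t'))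

theorem le_const (c : k) {x : Ω} {t : NNReal} (hx : X.V.v x ≤ t) :
    X.V.v (algebraMap k Ω c * x) ≤ t := by
  rw [map_mul]; exact (mul_le_of_le_one_left zero_le (X.V.const_le c)).trans hx

theorem lt_const (c : k) {x : Ω} {t : NNReal} (hx : X.V.v x < t) :
    X.V.v (algebraMap k Ω c * x) < t := by
  rw [map_mul]; exact (mul_le_of_le_one_left zero_le (X.V.const_le c)).trans_lt hx

theorem div_b_le {x : Ω} : X.V.v (x / X.b) ≤ 1 ↔ X.V.v x ≤ X.sz (-X.α) := by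
  rw [map_div₀, X.v_b, div_le_one₀ (X.sz_pos _)]

theorem div_b_lt {x : Ω} : X.V.v (x / X.b) < 1 ↔ X.V.v x < X.sz (-X.α) := by
  rw [map_div₀, X.v_b, div_lt_one₀ (X.sz_pos _)]

theorem div_b_eq {x : Ω} : X.V.v (x / X.b) = 1 ↔ X.V.v x = X.sz (-X.α) := by
  rw [map_div₀, X.v_b, div_eq_one_iff_eq (X.sz_ne _)]

theorem div_c_le {x : Ω} : X.V.v (x / X.c) ≤ 1 ↔ X.V.v x ≤ X.sz (-X.ν) := by
  rw [map_div₀, X.v_c, div_le_one₀ (X.sz_pos _)]

theorem div_c_lt {x : Ω} : X.V.v (x / X.c) < 1 ↔ X.V.v x < X.sz (-X.ν) := by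
  rw [map_div₀, X.v_c, div_lt_one₀ (X.sz_pos _)]

theorem div_s_le {x : Ω} : X.V.v (x / X.s) ≤ 1 ↔ X.V.v x ≤ X.sz 1 := by
  rw [map_div₀, X.sz_one, div_le_one₀ (zero_lt_one.trans X.R_gt)]

theorem div_s_lt {x : Ω} : X.V.v (x / X.s) < 1 ↔ X.V.v x < X.sz 1 := by
  rw [map_div₀, X.sz_one, div_lt_one₀ (zero_lt_one.trans X.R_gt)]

/-! The form. -/

theorem rw_eq (i : ℕ) (x : Ω) : X.rw i x =
    ∑ c ∈ Finset.range (X.N + 1), algebraMap k Ω (X.cf c i) * x ^ 2 ^ c := aeval_row _ _ _ _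

theorem B_eq (x w : Ω) : X.B x w = ∑ i ∈ Finset.range (X.N + 1), X.rw i x * w ^ 2 ^ i :=
  ev2_BB _ _ _ _

theorem B_eq' (x w : Ω) : X.B x w = ∑ i ∈ Finset.range (X.N + 1),
    ∑ c ∈ Finset.range (X.N + 1), algebraMap k Ω (X.cf c i) * x ^ 2 ^ c * w ^ 2 ^ i :=
  ev2_BB' _ _ _ _

theorem B_symm (x w : Ω) : X.B x w = X.B w x := by
  rw [B_eq', B_eq', Finset.sum_comm]
  refine Finset.sum_congr rfl fun i _ => Finset.sum_congr rfl fun c _ => ?_
  rw [X.wd.symm]; ring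

theorem rw_add (i : ℕ) (x w : Ω) : X.rw i (x + w) = X.rw i x + X.rw i w :=
  have := X.ch
  aeval_row_add _ _ _ _ _

theorem B_add (x w w' : Ω) : X.B x (w + w') = X.B x w + X.B x w' :=
  have := X.ch
  (addIn_BB _ _).ev2_add _ _ _

theorem add_B (x x' w : Ω) : X.B (x + x') w = X.B x w + X.B x' w := by
  rw [X.B_symm, X.B_add, X.B_symm w, X.B_symm w]

theorem B_self (x : Ω) : X.B x x = 0 := by
  have := X.ch
  rw [B_eq', ← Finset.sum_product']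
  refine Finset.sum_involution (fun p _ => p.swap) (fun p _ => ?_) (fun p _ h e => h ?_)
    (fun p hp => ?_) (fun p _ => rfl)
  · rw [Prod.fst_swap, Prod.snd_swap, X.wd.symm p.1, mul_right_comm, CharTwo.add_self_eq_zero]
  · have : p.2 = p.1 := congrArg Prod.fst e
    rw [this, X.wd.diag, map_zero, zero_mul, zero_mul]
  · rw [Finset.mem_product] at hp ⊢
    exact ⟨hp.2, hp.1⟩

theorem s_mem : X.s ∈ X.W := X.B_self _

theorem π_s : X.π X.s = X.s := by rw [s, map_inv₀, map_pow, X.πτ]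

theorem π_rw (i : ℕ) (x : Ω) : X.π (X.rw i x) = X.rw i (X.π x) := by
  simp only [rw_eq, map_sum, map_mul, map_pow, X.πc, X.wd.fix]

theorem π_B (x w : Ω) : X.π (X.B x w) = X.B (X.π x) (X.π w) := by
  simp only [B_eq, map_sum, map_mul, map_pow, π_rw]

theorem natDegree_row {i c : ℕ} (h : X.cf c i ≠ 0) (h' : ∀ e, X.cf e i ≠ 0 → e ≤ c) :
    (row X.cf X.N i).natDegree = 2 ^ c ∧ (row X.cf X.N i).coeff (2 ^ c) = X.cf c i := by
  have h1 : (row X.cf X.N i).coeff (2 ^ c) = X.cf c i := by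
    rw [coeff_row, if_pos (X.supp' h)]
  refine ⟨le_antisymm (natDegree_le_iff_coeff_eq_zero.2 fun e he => ?_)
    (le_natDegree_of_ne_zero (h1 ▸ h)), h1⟩
  by_contra h2
  obtain ⟨c', -, rfl, h3⟩ := coeff_row_ne _ _ _ _ h2
  exact absurd (Nat.pow_le_pow_right two_pos (h' c' h3)) (not_le.2 he)

/-- The size of a row at `s`. -/
theorem v_rw_s {i c : ℕ} (h : X.cf c i ≠ 0) (h' : ∀ e, X.cf e i ≠ 0 → e ≤ c) :
    X.V.v (X.rw i X.s) = X.sz (2 ^ c) := by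
  obtain ⟨h1, h2⟩ := X.natDegree_row h h'
  have h3 : row X.cf X.N i ≠ 0 := fun e => h (by rw [← h2, e, coeff_zero])
  rw [rw, X.V.v_aeval_of_one_lt X.R_gt h3, h1, ← map_pow, X.v_s_pow]
  push_cast
  rfl

theorem natDegree_BB : (BB X.cf X.N).natDegree = 2 ^ X.N ∧
    (BB X.cf X.N).leadingCoeff = row X.cf X.N X.N := by
  have h1 : (BB X.cf X.N).coeff (2 ^ X.N) = row X.cf X.N X.N := by rw [coeff_BB, if_pos le_rfl]
  have h3 : row X.cf X.N X.N ≠ 0 := fun e =>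
    X.wd.top (by rw [← (X.natDegree_row X.wd.top X.wd.top').2, e, coeff_zero])
  have h4 : (BB X.cf X.N).natDegree = 2 ^ X.N := by
    refine le_antisymm (natDegree_le_iff_coeff_eq_zero.2 fun e he => ?_)
      (le_natDegree_of_ne_zero (h1 ▸ h3))
    by_contra h2
    obtain ⟨c', h5, rfl⟩ := coeff_BB_ne _ _ _ h2
    exact absurd (Nat.pow_le_pow_right two_pos h5) (not_le.2 he)
  exact ⟨h4, by rw [leadingCoeff, h4, h1]⟩

theorem coeff_BB_one : (BB X.cf X.N).coeff 1 = row X.cf X.N 0 := by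
  simpa using coeff_BB X.cf X.N 0

theorem row_zero_ne : row X.cf X.N 0 ≠ 0 := fun e =>
  X.wd.bot (by rw [← (X.natDegree_row X.wd.bot X.wd.bot').2, e, coeff_zero])

end Cx

end W28

end Pool.Agent.Lib.MP_346d6a_co
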