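import Pool.Agent.Lib.MP_346d6a_co.W28Def

/-!
Finite subfields.
-/

set_option maxSynthPendingDepth 3

namespace Pool.Agent.Lib.MP_346d6a_co

open Polynomial

namespace W28

section fq

variable {k : Type} [Field k] [IsAlgClosed k] [CharP k 2]

theorem card_Fq {a : ℕ} (ha : 1 ≤ a) : Nat.card (Fq k a) = 2 ^ a := by
  classical
  have hq : 1 < 2 ^ a := Nat.one_lt_two_pow (by omega)
  have hsep : (X ^ 2 ^ a - X : k[X]).Separable :=
    galois_poly_separable 2 (2 ^ a) (dvd_pow_self 2 (by omega))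
  have hdeg := FiniteField.X_pow_card_sub_X_natDegree_eq k hq
  have hne : (X ^ 2 ^ a - X : k[X]) ≠ 0 := hsep.ne_zero
  have hc := card_rootSet_eq_natDegree (K := k) hsep (IsAlgClosed.splits _)
  rw [hdeg, ← Nat.card_eq_fintype_card] at hc
  rw [← hc]
  refine Nat.card_congr (Equiv.subtypeEquivRight fun x => ?_)
  rw [mem_Fq, mem_rootSet]
  simp [hne, sub_eq_zero]

theorem finite_Fq {a : ℕ} (ha : 1 ≤ a) : Finite (Fq k a) :=
  Nat.finite_of_card_ne_zero (by rw [card_Fq ha]; positivity)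

theorem trace_Fq {a : ℕ} (ha : 1 ≤ a) [Algebra (ZMod 2) (Fq k a)] (x : Fq k a) :
    Algebra.trace (ZMod 2) (Fq k a) x = 0 ↔ Tr a (x : k) = 0 := by
  have := finite_Fq (k := k) ha
  have hr : Module.finrank (ZMod 2) (Fq k a) = a := by
    have h := Module.natCard_eq_pow_finrank (K := ZMod 2) (V := Fq k a)
    rw [card_Fq ha, Nat.card_zmod] at h
    exact (Nat.pow_right_injective (le_refl 2) h).symm
  have h := FiniteField.algebraMap_trace_eq_sum_pow (ZMod 2) (Fq k a) x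
  rw [hr, Nat.card_zmod] at h
  have h2 : ((algebraMap (ZMod 2) (Fq k a) (Algebra.trace (ZMod 2) (Fq k a) x) : Fq k a) : k)
      = Tr a (x : k) := by
    rw [h, Tr]
    push_cast
    rfl
  rw [← h2]
  simp

/-- A unit of the finite subfield of maximal order. -/
theorem exists_gen {a : ℕ} (ha : 1 ≤ a) :
    ∃ γ : (Fq k a)ˣ, orderOf γ = Nat.card (Fq k a)ˣ := by
  have := finite_Fq (k := k) ha
  obtain ⟨γ, hγ⟩ := IsCyclic.exists_generator (α := (Fq k a)ˣ)
  exact ⟨γ, orderOf_eq_card_of_forall_mem_zpowers hγ⟩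

theorem exists_not_fixed {j d : ℕ} (hj : 1 ≤ j) (h : ¬ j ∣ d) :
    ∃ t : k, t ^ 2 ^ j = t ∧ t ^ 2 ^ d ≠ t := by
  by_contra hc
  push Not at hc
  obtain ⟨γ, hγ⟩ := exists_gen (k := k) hj
  rw [Nat.card_units, card_Fq hj] at hγ
  have h1 : ((γ : Fq k j) : k) ^ 2 ^ d = ((γ : Fq k j) : k) := hc _ (mem_Fq.1 (γ : Fq k j).2)
  have h2 : γ ^ 2 ^ d = γ := by
    apply Units.ext
    apply Subtype.ext
    simpa using h1
  have h3 : γ ^ (2 ^ d - 1) = 1 := by
    have hp : 2 ^ d = (2 ^ d - 1) + 1 := (Nat.sub_add_cancel Nat.one_le_two_pow).symm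
    rw [hp, pow_succ] at h2
    exact mul_eq_right.1 h2
  have h4 : 2 ^ j - 1 ∣ 2 ^ d - 1 := hγ ▸ orderOf_dvd_of_pow_eq_one h3
  have h5 := Nat.pow_sub_one_gcd_pow_sub_one 2 j d
  rw [Nat.gcd_eq_left h4] at h5
  have h6 : 2 ^ j = 2 ^ Nat.gcd j d := by
    have e1 : 1 ≤ 2 ^ j := Nat.one_le_two_pow
    have e2 : 1 ≤ 2 ^ Nat.gcd j d := Nat.one_le_two_pow
    omega
  have h7 : j = Nat.gcd j d := Nat.pow_right_injective (le_refl 2) h6
  exact h (h7 ▸ Nat.gcd_dvd_right j d)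

omit [IsAlgClosed k] [CharP k 2] in
theorem fixed_of_dvd {j d : ℕ} (h : j ∣ d) {t : k} (ht : t ^ 2 ^ j = t) : t ^ 2 ^ d = t := by
  obtain ⟨c, rfl⟩ := h
  induction c with
  | zero => simp
  | succ c ih => rw [Nat.mul_succ, pow_add, pow_mul, ih, ht]

/-- The values of `t ^ 2 ^ D + t ^ 2 ^ (D + 1)` on the field with `2 ^ j` elements. -/
theorem exists_small_set {j : ℕ} (hj : 1 ≤ j) (D : ℕ) : ∃ S : Finset k, 2 * S.card ≤ 2 ^ j ∧
    ∀ t : k, t ^ 2 ^ j = t → t ^ 2 ^ D + (t ^ 2 ^ D) ^ 2 ∈ S := by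
  classical
  have := finite_Fq (k := k) hj
  have hfin : (Fq k j : Set k).Finite := Set.toFinite _
  have hcard : hfin.toFinset.card = 2 ^ j := by
    rw [← card_Fq (k := k) hj, ← Set.ncard_eq_toFinset_card _ hfin]
    rfl
  have h2 : (2 : k) = 0 := CharP.cast_eq_zero k 2
  refine ⟨hfin.toFinset.image (fun t => t + t ^ 2), ?_, ?_⟩
  · rw [← hcard]
    refine Finset.mul_card_image_le_card _ 2 ?_
    intro b hb
    obtain ⟨t, ht, rfl⟩ := Finset.mem_image.1 hb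
    have ht' : t ∈ Fq k j := by simpa using ht
    have hne : t ≠ t + 1 := by simp
    refine (Finset.card_pair hne).symm.le.trans (Finset.card_le_card ?_)
    intro u hu
    rcases Finset.mem_insert.1 hu with rfl | hu
    · exact Finset.mem_filter.2 ⟨ht, rfl⟩
    · rw [Finset.mem_singleton.1 hu]
      refine Finset.mem_filter.2 ⟨?_, ?_⟩
      · simpa using (Fq k j).add_mem ht' (Fq k j).one_mem
      · linear_combination (t + 1) * h2
  · intro t ht
    refine Finset.mem_image.2 ⟨t ^ 2 ^ D, ?_, rfl⟩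
    have : t ^ 2 ^ D ∈ Fq k j := (Fq k j).pow_mem (mem_Fq.2 ht) _
    simpa using this

/-- Either a twisted Hilbert 90 equation is solvable or there is a fixed root of unity. -/
theorem edge_alt (φ : k ≃+* k) {a : ℕ} (ha : 1 ≤ a) (n : ℕ) {δ : k} (hδ0 : δ ≠ 0)
    (hδ : δ ^ 2 ^ a = δ) :
    (∃ ζ w : k, ζ ≠ 0 ∧ ζ ^ 2 ^ a = ζ ∧ w ≠ 0 ∧ w ^ 2 ^ a = w ∧ ζ ^ n * δ * φ w = w) ∨
      ∃ x : k, x ≠ 0 ∧ x ≠ 1 ∧ x ^ 2 ^ a = x ∧ x ^ n = 1 ∧ φ x = x := by
  have := finite_Fq (k := k) ha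
  have hφ : ∀ x : Fq k a, φ (x : k) ∈ Fq k a := by
    intro x
    rw [mem_Fq, ← map_pow, mem_Fq.1 x.2]
  let ψ : Fq k a →* Fq k a :=
    { toFun := fun x => ⟨φ (x : k), hφ x⟩
      map_one' := Subtype.ext (by simp)
      map_mul' := fun x y => Subtype.ext (by simp) }
  let f : (Fq k a)ˣ × (Fq k a)ˣ →* (Fq k a)ˣ :=
    (powMonoidHom n).coprod (Units.map ψ / MonoidHom.id _)
  have hf : ∀ ζ w : (Fq k a)ˣ, f (ζ, w) = ζ ^ n * (Units.map ψ w / w) := fun _ _ => rfl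
  have hmap : ∀ w : (Fq k a)ˣ, (((Units.map ψ w : (Fq k a)ˣ) : Fq k a) : k)
      = φ ((w : Fq k a) : k) := fun _ => rfl
  have hnz : ∀ w : (Fq k a)ˣ, ((w : Fq k a) : k) ≠ 0 := by
    intro w hw
    exact w.ne_zero (Subtype.ext hw)
  by_cases hH : f.range = ⊤
  · left
    let d : (Fq k a)ˣ := Units.mk0 ⟨δ, mem_Fq.2 hδ⟩ (fun h => hδ0 (congrArg Subtype.val h))
    have hd : d⁻¹ ∈ f.range := hH ▸ Subgroup.mem_top _
    obtain ⟨⟨ζ, w⟩, hζ⟩ := hd
    rw [hf] at hζ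
    have h1 : ζ ^ n * d * Units.map ψ w = w := by
      have : ζ ^ n * d * Units.map ψ w = ζ ^ n * (Units.map ψ w / w) * d * w := by
        rw [mul_assoc (ζ ^ n * (Units.map ψ w / w)), mul_comm d w, ← mul_assoc,
          mul_assoc (ζ ^ n) _ w, div_mul_cancel, mul_right_comm]
      rw [this, hζ, inv_mul_cancel, one_mul]
    refine ⟨(ζ : Fq k a), (w : Fq k a), hnz ζ, mem_Fq.1 (ζ : Fq k a).2, hnz w,
      mem_Fq.1 (w : Fq k a).2, ?_⟩
    have h2 := congrArg (fun u : (Fq k a)ˣ => ((u : Fq k a) : k)) h1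
    simp only [Units.val_mul, Units.val_pow_eq_pow_val, MulMemClass.coe_mul,
      SubmonoidClass.coe_pow, hmap] at h2
    exact h2
  · right
    obtain ⟨γ, hγ⟩ := exists_gen (k := k) ha
    have hm0 : 0 < Nat.card f.range := Nat.card_pos
    have hlt : Nat.card f.range < Nat.card (Fq k a)ˣ := by
      refine lt_of_le_of_ne (Subgroup.card_le_card_group _) fun h => hH ?_
      exact Subgroup.eq_top_of_card_eq _ h
    have hpow : ∀ g ∈ f.range, g ^ Nat.card f.range = 1 := by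
      intro g hg
      have := pow_card_eq_one' (x := (⟨g, hg⟩ : f.range))
      exact congrArg Subtype.val this
    have hx1 : γ ^ Nat.card f.range ≠ 1 :=
      pow_ne_one_of_lt_orderOf hm0.ne' (hγ ▸ hlt)
    have hxn : (γ ^ Nat.card f.range) ^ n = 1 := by
      rw [← pow_mul, mul_comm, pow_mul]
      exact hpow _ ⟨(γ, 1), by rw [hf]; simp⟩
    have hxφ : Units.map ψ (γ ^ Nat.card f.range) = γ ^ Nat.card f.range := by
      have := hpow (Units.map ψ γ / γ) ⟨(1, γ), by rw [hf]; simp⟩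
      rw [div_pow, div_eq_one] at this
      rw [map_pow, this]
    refine ⟨((γ ^ Nat.card f.range : (Fq k a)ˣ) : Fq k a), hnz _, ?_,
      mem_Fq.1 (Subtype.property _), ?_, ?_⟩
    · intro h
      exact hx1 (Units.ext (Subtype.ext h))
    · have h2 := congrArg (fun u : (Fq k a)ˣ => ((u : Fq k a) : k)) hxn
      simpa using h2
    · rw [← hmap, hxφ]

omit [IsAlgClosed k] in
/-- A fixed element of the field with sixteen elements gives one in the field with four. -/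
theorem sixteen (φ : k ≃+* k) {x : k} (h0 : x ≠ 0) (h1 : x ≠ 1) (hx : x ^ 2 ^ 4 = x)
    (hφ : φ x = x) : ∃ t : k, t ≠ 0 ∧ t ≠ 1 ∧ t ^ 2 ^ 2 = t ∧ φ t = t := by
  have h2 : (2 : k) = 0 := CharP.cast_eq_zero k 2
  have hx' : x ^ 16 = x := by simpa using hx
  have hadd : ∀ u v : k, (u + v) ^ 2 ^ 2 = u ^ 2 ^ 2 + v ^ 2 ^ 2 := fun u v =>
    add_pow_char_pow u v 2 2
  by_cases h4 : x ^ 4 = x
  · exact ⟨x, h0, h1, by simpa using h4, hφ⟩
  by_cases h5 : x + x ^ 4 = 1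
  · refine ⟨x ^ 5, pow_ne_zero _ h0, ?_, ?_, by rw [map_pow, hφ]⟩
    · intro h
      apply h4
      have e4 : x ^ 4 = x + 1 := by linear_combination h5 - x * h2
      have e2 : x ^ 2 = x + 1 := by linear_combination h - x * e4 - x * h2
      linear_combination (x ^ 2 + x + 1) * e2 + e2 + (x + 1) * h2
    · have : (x ^ 5) ^ 2 ^ 2 = x ^ 16 * x ^ 4 := by ring
      rw [this, hx']
      ring
  · refine ⟨x + x ^ 4, ?_, h5, ?_, by rw [map_add, map_pow, hφ]⟩
    · intro h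
      apply h4
      linear_combination h - x * h2
    · rw [hadd]
      have : (x ^ 4) ^ 2 ^ 2 = x ^ 16 := by ring
      rw [this, hx']
      ring

end fq

end W28

end Pool.Agent.Lib.MP_346d6a_co
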