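import Pool.Agent.Lib.MP_346d6a_co.W28Root

/-!
A lower bound for the bottom row on the bounded roots.
-/

set_option maxSynthPendingDepth 3

namespace Pool.Agent.Lib.MP_346d6a_co

open Polynomial

namespace W28

/-- The Gauss norm of a product of linear factors. -/
theorem lb_gauss {Ω ι : Type} [Field Ω] (v : Valuation Ω NNReal) (ρ : NNReal) (f : ι → Ω)
    (S : Finset ι) (i : ℕ) :
    v ((∏ u ∈ S, (X - C (f u))).coeff i) * ρ ^ i ≤ ∏ u ∈ S, max (v (f u)) ρ := by
  classical
  induction S using Finset.induction_on generalizing i with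
  | empty =>
    rcases i with _ | i
    · simp
    · simp [coeff_one]
  | insert a S ha ih =>
    rw [Finset.prod_insert ha, Finset.prod_insert ha, mul_comm (X - C (f a))]
    rcases i with _ | i
    · have h := ih 0
      rw [pow_zero, mul_one] at h ⊢
      rw [mul_coeff_zero, map_mul, mul_comm]
      refine mul_le_mul' ?_ h
      simp
    · rw [coeff_mul_X_sub_C]
      refine (mul_le_mul_left (v.map_sub _ _) _).trans ?_
      rw [max_mul]
      refine max_le ?_ ?_
      · rw [pow_succ, ← mul_assoc, mul_comm]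
        exact mul_le_mul' (le_max_right _ _) (ih i)
      · rw [map_mul, mul_right_comm, mul_comm]
        exact mul_le_mul' (le_max_left _ _) (ih (i + 1))

namespace Cx

variable {k Ω : Type} [Field k] [IsAlgClosed k] [CharP k 2] [Field Ω] [IsAlgClosed Ω] [Algebra k Ω]
  (X : Cx k Ω)

omit [IsAlgClosed k] [IsAlgClosed Ω] in
/-- The bottom row is a power, so it has few distinct roots. -/
theorem lb_row : ∃ b0 : ℕ, 1 ≤ b0 ∧ b0 ≤ X.j0 ∧
    (row X.cf X.N 0).natTrailingDegree = 2 ^ b0 ∧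
    ∀ T : Finset k, (∀ t ∈ T, (row X.cf X.N 0).eval t = 0) → T.card ≤ 2 ^ (X.j0 - b0) := by
  classical
  have h0 := X.row_zero_ne
  obtain ⟨b0, -, e0, hb0⟩ := coeff_row_ne X.cf X.N 0 _
    (show (row X.cf X.N 0).coeff (row X.cf X.N 0).natTrailingDegree ≠ 0 from
      trailingCoeff_nonzero_iff_nonzero.2 h0)
  have hb1 : 1 ≤ b0 := by
    rcases Nat.eq_zero_or_pos b0 with rfl | h
    · exact absurd (X.wd.diag 0) hb0
    · exact h
  have hb2 : b0 ≤ X.j0 := X.wd.bot' _ hb0
  have hle : ∀ c, X.cf c 0 ≠ 0 → b0 ≤ c := by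
    intro c hc
    have h1 : (row X.cf X.N 0).coeff (2 ^ c) ≠ 0 := by
      rwa [coeff_row, if_pos (X.supp' hc)]
    have h2 := natTrailingDegree_le_of_ne_zero h1
    rw [e0] at h2
    exact (Nat.pow_le_pow_iff_right one_lt_two).1 h2
  refine ⟨b0, hb1, hb2, e0, fun T hT => ?_⟩
  set g : k[X] := ∑ c ∈ Finset.range (X.N + 1), monomial (2 ^ (c - b0)) (X.cf c 0) with hg
  have hex : expand k (2 ^ b0) g = row X.cf X.N 0 := by
    rw [hg, map_sum, row]
    refine Finset.sum_congr rfl fun c _ => ?_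
    by_cases hc : X.cf c 0 = 0
    · simp [hc]
    · rw [expand_monomial, ← pow_add, Nat.sub_add_cancel (hle c hc)]
  have hg0 : g ≠ 0 := fun e => h0 (by rw [← hex, e, map_zero])
  have hdeg : g.natDegree = 2 ^ (X.j0 - b0) := by
    have h1 := (X.natDegree_row X.wd.bot X.wd.bot').1
    rw [← hex, natDegree_expand] at h1
    have h2 : 2 ^ X.j0 = 2 ^ (X.j0 - b0) * 2 ^ b0 := by rw [← pow_add, Nat.sub_add_cancel hb2]
    rw [h2] at h1
    exact Nat.eq_of_mul_eq_mul_right (by positivity) h1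
  rw [← hdeg]
  refine le_trans ?_ ((Multiset.toFinset_card_le _).trans (card_roots' g))
  refine Finset.card_le_card_of_injOn (fun t => t ^ 2 ^ b0) (fun t ht => ?_) fun t _ t' _ e => ?_
  · have h1 := hT t ht
    rw [← hex, expand_eval] at h1
    simpa [hg0] using h1
  · exact (iterateFrobenius k 2 b0).injective e

open Classical in
/-- Many bounded roots are small. -/
theorem lb_count {n : ℕ} (hn : ∀ T : Finset k, (∀ t ∈ T, (row X.cf X.N 0).eval t = 0) → T.card ≤ n)
    (h : ∀ u ∈ X.W, X.y u = 0 → X.V.v (X.rw 0 u) < 1) :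
    2 ^ X.r ≤ (Finset.univ.filter fun u : X.W => X.y u = 0 ∧ X.V.v (u : Ω) < 1).card * n := by
  have := X.ch
  rw [← X.card_y_zero]
  set W0 := Finset.univ.filter fun u : X.W => X.y u = 0 with hW0
  set K := Finset.univ.filter fun u : X.W => X.y u = 0 ∧ X.V.v (u : Ω) < 1 with hK
  have hm : ∀ u : X.W, u ∈ W0 → X.y u = 0 := fun u hu => (Finset.mem_filter.1 hu).2
  have h1 : W0.card ≤ K.card * (W0.image fun u : X.W => rs X.V (u : Ω)).card := by
    refine Finset.card_le_mul_card_image _ _ fun t ht => ?_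
    obtain ⟨u0, hu0, rfl⟩ := Finset.mem_image.1 ht
    refine Finset.card_le_card_of_injOn (fun u => u + u0) (fun u hu => ?_)
      fun u _ u' _ e => add_right_cancel e
    obtain ⟨hu1, hu2⟩ := Finset.mem_filter.1 (Finset.mem_coe.1 hu)
    have a1 := X.v_le_one u.2 (hm u hu1)
    have a2 := X.v_le_one u0.2 (hm u0 hu0)
    refine Finset.mem_coe.2 (Finset.mem_filter.2 ⟨Finset.mem_univ _, ?_, ?_⟩)
    · rw [AddSubgroup.coe_add, X.y_add u.2 u0.2, hm u hu1, hm u0 hu0, add_zero]
    · rw [AddSubgroup.coe_add, ← rs_eq_zero (X.V.v.map_add_le a1 a2), rs_add a1 a2, hu2,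
        CharTwo.add_self_eq_zero]
  refine h1.trans (Nat.mul_le_mul_left _ (hn _ fun t ht => ?_))
  obtain ⟨u, hu, rfl⟩ := Finset.mem_image.1 ht
  have a1 := rs_spec (X.v_le_one u.2 (hm u hu))
  have a2 := (Val.Red.map (V := X.V) (row X.cf X.N 0)).eval a1
  rw [eval_map_algebraMap] at a2
  exact X.V.res_unique' a2 (by simpa [rw] using h u u.2 (hm u hu))

theorem lower (h : X.j ≤ X.Del) :
    ∃ u ∈ X.W, X.y u = 0 ∧ X.sz (-2 ^ (X.j + X.j0)) < X.V.v (X.rw 0 u) := by
  classical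
  have := X.ch
  by_contra hcon
  push Not at hcon
  obtain ⟨b0, hb1, hb2, htr, hT⟩ := X.lb_row
  have hc := X.lb_count hT fun u hu hy =>
    (hcon u hu hy).trans_lt (X.sz_lt_one.2 (neg_lt_zero.2 (by positivity)))
  set e := X.j + (X.j0 - b0) with he
  have heD : e < X.D := by have := X.D_eq; omega
  set K := Finset.univ.filter fun u : X.W => X.y u = 0 ∧ X.V.v (u : Ω) < 1 with hK
  set W0 := Finset.univ.filter fun u : X.W => X.y u = 0 with hW0
  have hsm : ∀ u ∈ K, X.V.v (u : Ω) ≤ X.sz (-2 ^ e) := by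
    intro u hu
    obtain ⟨-, hy, hv⟩ := Finset.mem_filter.1 hu
    have h1 := hcon u u.2 hy
    rw [rw, X.V.v_aeval_of_lt_one hv X.row_zero_ne, htr] at h1
    have h2 : X.sz (-2 ^ (X.j + X.j0)) = X.sz (-2 ^ e) ^ 2 ^ b0 := by
      rw [X.sz_pow]
      congr 1
      have h3 : X.j + X.j0 = b0 + e := by omega
      rw [h3, pow_add]
      push_cast
      ring
    rw [h2] at h1
    exact (pow_le_pow_iff_left₀ zero_le zero_le (by positivity)).1 h1
  -- the product formula
  have hP := prod_roots X.s_tr (addIn_BB X.cf X.N)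
    (by rw [X.coeff_BB_one]; exact X.row_zero_ne) X.W fun _ => Iff.rfl
  have haN : X.a ≤ X.N := by have := X.aD_le; omega
  have hco := congrArg (fun p => X.V.v (coeff p (2 ^ X.a))) hP
  simp only [coeff_map, coeff_C_mul, map_mul, coeff_BB, if_pos haN, X.natDegree_BB.2] at hco
  have e1 : X.V.v (X.rw X.a X.s) = X.sz (2 ^ (X.a + X.D)) := X.v_rw_s X.wd.edge fun c hc' =>
    X.wd.wid c _ hc'
  have e2 : X.V.v (X.rw X.N X.s) = X.sz (2 ^ X.r) := X.v_rw_s X.wd.top X.wd.top'
  change X.V.v (X.rw X.a X.s) = X.V.v (X.rw X.N X.s) * _ at hco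
  rw [e1, e2] at hco
  have hG := lb_gauss X.V.v (X.sz (-2 ^ e)) (fun u : X.W => (u : Ω)) Finset.univ (2 ^ X.a)
  set w : X.W → ℝ := fun u => (if u ∈ W0 then 0 else 1) - (if u ∈ K then 2 ^ e else 0) with hw
  have hpos : (0 : ℝ) < 2 ^ e := by positivity
  have hmax : ∀ u : X.W, max (X.V.v (u : Ω)) (X.sz (-2 ^ e)) ≤ X.sz (w u) := by
    intro u
    by_cases h1 : u ∈ K
    · have h2 : u ∈ W0 := Finset.mem_filter.2 ⟨Finset.mem_univ _, (Finset.mem_filter.1 h1).2.1⟩
      simp only [hw, if_pos h1, if_pos h2, zero_sub]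
      exact max_le (hsm u h1) le_rfl
    · by_cases h2 : u ∈ W0
      · simp only [hw, if_neg h1, if_pos h2, sub_zero]
        refine max_le ?_ (X.sz_le.2 (by linarith))
        rw [X.sz_zero]
        exact X.v_le_one u.2 (Finset.mem_filter.1 h2).2
      · simp only [hw, if_neg h1, if_neg h2, sub_zero]
        exact max_le (X.v_le u.2) (X.sz_le.2 (by linarith))
  have hprod : ∀ S : Finset X.W, ∏ u ∈ S, X.sz (w u) = X.sz (∑ u ∈ S, w u) := by
    intro S
    induction S using Finset.induction_on with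
    | empty => simp
    | insert a S ha ih => rw [Finset.prod_insert ha, Finset.sum_insert ha, ih, X.sz_add]
  have hsum : ∑ u : X.W, w u = 2 ^ X.N - 2 ^ X.r - K.card * 2 ^ e := by
    have c1 : (W0.card : ℝ) = 2 ^ X.r := by exact_mod_cast X.card_y_zero
    have c2 : (Fintype.card X.W : ℝ) = 2 ^ X.N := by
      rw [← Nat.card_eq_fintype_card, X.card_W]
      push_cast
      rfl
    have c3 : ∀ u : X.W, (if u ∈ W0 then (0 : ℝ) else 1) = 1 - if u ∈ W0 then 1 else 0 := by
      intro u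
      split_ifs <;> norm_num
    simp only [hw, c3, Finset.sum_sub_distrib, Finset.sum_ite_mem, Finset.univ_inter,
      Finset.sum_const, nsmul_eq_mul, mul_one, Finset.card_univ, c1, c2]
  have hfin : X.sz (2 ^ (X.a + X.D)) * X.sz (-2 ^ e) ^ 2 ^ X.a ≤
      X.sz (2 ^ X.r) * X.sz (2 ^ X.N - 2 ^ X.r - K.card * 2 ^ e) := by
    rw [hco, mul_assoc, ← hsum, ← hprod]
    exact mul_le_mul_right (hG.trans (Finset.prod_le_prod' fun u _ => hmax u)) _
  rw [X.sz_pow, ← X.sz_add, ← X.sz_add, X.sz_le] at hfin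
  push_cast at hfin
  have d1 : (2 : ℝ) ^ X.r ≤ K.card * 2 ^ (X.j0 - b0) := by exact_mod_cast hc
  have d2 : (2 : ℝ) ^ X.N ≤ K.card * 2 ^ e := by
    rw [X.N_eq, he, pow_add, pow_add]
    have : (0 : ℝ) < 2 ^ X.j := by positivity
    nlinarith
  have d3 : (2 : ℝ) ^ e < 2 ^ X.D := pow_lt_pow_right₀ one_lt_two heD
  have d4 : (0 : ℝ) < 2 ^ X.a := by positivity
  rw [pow_add] at hfin
  nlinarith

end Cx

end W28

end Pool.Agent.Lib.MP_346d6a_co
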