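import Pool.Agent.Lib.MP_346d6a_co.W28Small
import Pool.Agent.Lib.MP_346d6a_co.W28Path

/-!
Moves that preserve the colour.
-/

set_option maxSynthPendingDepth 3

namespace Pool.Agent.Lib.MP_346d6a_co

open Polynomial

namespace W28

namespace Cx

variable {k Ω : Type} [Field k] [IsAlgClosed k] [CharP k 2] [Field Ω] [IsAlgClosed Ω] [Algebra k Ω]
  (X : Cx k Ω)

omit [IsAlgClosed k] [CharP k 2] [IsAlgClosed Ω] in
theorem small_B_move {x w : Ω} (hx : X.V.v x < X.sz (-X.α / 3)) (hw : X.V.v w < X.sz (-X.α / 3)) :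
    X.V.v (X.B x w / X.b) < 1 := by
  rw [X.div_b_lt, X.B_eq']
  refine X.V.v.map_sum_lt (X.sz_ne _) fun i _ => X.V.v.map_sum_lt (X.sz_ne _) fun c _ => ?_
  by_cases hc : c = i
  · rw [hc, X.wd.diag, map_zero, zero_mul, zero_mul, map_zero]
    exact X.sz_pos _
  rw [mul_assoc]
  refine X.lt_const _ ?_
  have h1 := X.lt_mul (X.lt_pow hx (n := 2 ^ c) (by positivity))
    (X.lt_pow hw (n := 2 ^ i) (by positivity)).le
  refine h1.trans_le (X.sz_le.2 ?_)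
  have h3 : 3 ≤ 2 ^ c + 2 ^ i := by
    have a1 : 1 ≤ 2 ^ c := Nat.one_le_two_pow
    have a2 : 1 ≤ 2 ^ i := Nat.one_le_two_pow
    rcases Nat.lt_or_gt_of_ne hc with h | h
    · have := Nat.pow_lt_pow_right one_lt_two h
      omega
    · have := Nat.pow_lt_pow_right one_lt_two h
      omega
  have h4 : (3 : ℝ) ≤ ((2 ^ c : ℕ) : ℝ) + ((2 ^ i : ℕ) : ℝ) := by exact_mod_cast h3
  have := X.α_pos
  nlinarith

omit [IsAlgClosed k] [CharP k 2] [IsAlgClosed Ω] in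
theorem expand_move {u : Ω} (hu : u ∈ X.W) (η ξ : Ω) :
    X.B (X.s + η) (u + algebraMap k Ω (X.y u ^ 2 ^ X.D) * η + ξ) =
      X.B X.s ξ + ∑ i ∈ Finset.range (X.N + 1), η ^ 2 ^ i * X.Xi i u +
        X.B η (algebraMap k Ω (X.y u ^ 2 ^ X.D) * η + ξ) := by
  have e : ∑ i ∈ Finset.range (X.N + 1), η ^ 2 ^ i * X.Xi i u =
      X.B η u + X.B X.s (algebraMap k Ω (X.y u ^ 2 ^ X.D) * η) := by
    rw [X.B_symm η u, X.B_eq, X.B_eq, ← Finset.sum_add_distrib]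
    refine Finset.sum_congr rfl fun i _ => ?_
    rw [Xi, mul_pow, ← map_pow, ← pow_mul, ← pow_add]
    ring
  rw [e, add_assoc u, X.add_B, X.B_add X.s u, X.B_add η u, X.B_add X.s, X.mem_W.1 hu]
  ring

omit [IsAlgClosed k] [CharP k 2] [IsAlgClosed Ω] in
theorem lin_move {l : Ω} (hl : X.Rad l) {u : Ω} (hu : u ∈ X.W) {m z : k}
    (hm : X.V.v (l * X.Xi 0 u / X.b - algebraMap k Ω m) < 1)
    (hz : X.V.v (l ^ 2 * X.Xi 1 u / X.b - algebraMap k Ω z) < 1) (e : k) :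
    X.V.v ((∑ i ∈ Finset.range (X.N + 1), (l * algebraMap k Ω e) ^ 2 ^ i * X.Xi i u) / X.b -
      algebraMap k Ω (m * e + z * e ^ 2)) < 1 := by
  obtain ⟨n, hn⟩ : ∃ n, X.N = n + 1 := ⟨X.N - 1, by have := X.wd.r_lt; omega⟩
  have h1 := X.V.res_mul hm (X.V.res_const e)
  have h2 := X.V.res_mul hz (X.V.res_const (e ^ 2))
  have h3 : X.V.v (∑ i ∈ Finset.range n,
      algebraMap k Ω (e ^ 2 ^ (i + 1 + 1)) * (l ^ 2 ^ (i + 1 + 1) * X.Xi (i + 1 + 1) u / X.b)) < 1 :=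
    X.V.v.map_sum_lt one_ne_zero fun i _ => X.lt_const _ (hl.hi _ (by omega) u hu)
  have h4 := X.V.v.map_add_lt (X.V.res_add h1 h2) h3
  rw [hn, Finset.sum_range_succ', Finset.sum_range_succ', add_div, add_div, Finset.sum_div]
  convert h4 using 2
  have e1 : ∑ i ∈ Finset.range n,
      (l * algebraMap k Ω e) ^ 2 ^ (i + 1 + 1) * X.Xi (i + 1 + 1) u / X.b =
      ∑ i ∈ Finset.range n, algebraMap k Ω (e ^ 2 ^ (i + 1 + 1)) *
        (l ^ 2 ^ (i + 1 + 1) * X.Xi (i + 1 + 1) u / X.b) :=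
    Finset.sum_congr rfl fun i _ => by rw [map_pow, mul_pow]; ring
  rw [e1, map_pow]
  simp only [zero_add, pow_zero, pow_one]
  ring

theorem red_move {l : Ω} (hl : X.Rad l) {u : Ω} (hu : u ∈ X.W) {m z : k}
    (hm : X.V.v (l * X.Xi 0 u / X.b - algebraMap k Ω m) < 1)
    (hz : X.V.v (l ^ 2 * X.Xi 1 u / X.b - algebraMap k Ω z) < 1) (e t : k) :
    X.V.v (X.B (X.s + l * algebraMap k Ω e)
      (u + algebraMap k Ω (X.y u ^ 2 ^ X.D) * l * algebraMap k Ω e + X.c * algebraMap k Ω t) / X.b -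
      algebraMap k Ω (t ^ 2 ^ X.a + t + (m * e + z * e ^ 2))) < 1 := by
  have hη : X.V.v (l * algebraMap k Ω e) < X.sz (-X.α / 3) := by
    rw [mul_comm]; exact X.lt_const _ hl.sm
  have hξ : X.V.v (X.c * algebraMap k Ω t) < X.sz (-X.α / 3) := by
    rw [mul_comm]
    refine X.lt_const _ ?_
    rw [X.v_c, X.sz_lt]
    have := X.α_lt
    have := X.α_pos
    linarith
  have h1 : X.V.v (X.B X.s (X.c * algebraMap k Ω t) / X.b -
      algebraMap k Ω (t ^ 2 ^ X.a + t)) < 1 := by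
    rw [map_add, map_pow]
    exact X.red_first (X.V.const_le t)
  have h2 := X.lin_move hl hu hm hz e
  have h3 := X.small_B_move hη (X.V.v.map_add_lt (X.lt_const (X.y u ^ 2 ^ X.D) hη) hξ)
  have h4 := X.V.v.map_add_lt (X.V.res_add h1 h2) h3
  rw [mul_assoc, X.expand_move hu]
  convert h4 using 2
  ring

theorem move {l : Ω} (hl : X.Rad l) {u w : Ω} (hu : u ∈ X.W) (hw : w ∈ X.W) {m z h : k}
    (hm : X.V.v (l * X.Xi 0 u / X.b - algebraMap k Ω m) < 1)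
    (hz : X.V.v (l ^ 2 * X.Xi 1 u / X.b - algebraMap k Ω z) < 1) (h0 : m ≠ 0 ∨ z ≠ 0)
    (hh : h ^ 2 ^ X.a = h) (hwh : X.V.v (w / X.c - algebraMap k Ω h) < 1)
    (hρ : ∀ ρ : k, ρ ^ 2 ^ X.a = ρ → z = ρ * m ^ 2 → m ≠ 0 → Tr X.a (ρ * h) = 0) :
    col2 k X.s (u + w) = col2 k X.s u := by
  obtain ⟨p, q, χ, hp, p0, q0, pχ, qχ⟩ := exists_path X.a m z h h0 hh hρ
  refine col2_eq_of X.s_tr X.BB_ne (X.mem_W.1 (X.W.add_mem hu hw)) (X.mem_W.1 hu)
    fun P₁ P₂ P₃ _ _ hP z₁ z₂ => ?_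
  set μ : Ω := algebraMap k Ω (X.y u ^ 2 ^ X.D) * l with hμ
  set E : k[X][X] := Polynomial.X ^ 2 ^ X.a + Polynomial.X +
    C (C m * Polynomial.X + C z * Polynomial.X ^ 2) with hE
  have hev : ∀ e t : k, E.evalEval e t = t ^ 2 ^ X.a + t + (m * e + z * e ^ 2) := fun e t => by
    simp [hE, evalEval_add, evalEval_pow, evalEval_C]
  have hd : derivative E = 1 := by
    obtain ⟨n, hn⟩ : ∃ n, X.a = n + 1 := ⟨X.a - 1, by have := X.a_pos; omega⟩
    have h2 : ((2 ^ X.a : ℕ) : k[X]) = 0 := by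
      rw [hn, pow_succ, Nat.cast_mul, ← C_eq_natCast (R := k) 2, CharP.cast_eq_zero k 2, C_0,
        mul_zero]
    rw [hE, derivative_add, derivative_add, derivative_X_pow, derivative_X, derivative_C, h2, C_0,
      zero_mul, zero_add, add_zero]
  refine polydisc X.V (Q₁ := sub2 k X.s l u μ X.c P₁) (Q₂ := sub2 k X.s l u μ X.c P₂)
    (Q₃ := sub2 k X.s l u μ X.c P₃) (b := X.b) (E := E) (fun e t => ?_) (fun e t _ => ?_) p q ?_
    (χ₁ := χ) (χ₂ := 0) (ε₁ := 0) (ξ₁ := w / X.c) (ε₂ := 0) (ξ₂ := 0) ?_ ?_ ?_ ?_ ?_ ?_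
  · rw [← map_mul, ← map_mul, hP, evalEval_sub2, hev]
    exact X.red_move hl hu hm hz e t
  · rw [hd, evalEval_one]
    exact one_ne_zero
  · rw [← hp, hE]
    simp [add_assoc]
  · simp [pχ]
  · rwa [qχ]
  · simp [p0]
  · simp [q0]
  · rw [evalEval_sub2, mul_zero, add_zero, mul_zero, add_zero, mul_div_cancel₀ _ X.c_ne]
    exact z₁
  · rw [evalEval_sub2, mul_zero, add_zero, mul_zero, add_zero, mul_zero, add_zero]
    exact z₂

end Cx

end W28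

end Pool.Agent.Lib.MP_346d6a_co
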