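import Pool.Agent.Lib.MP_346d6a_co.W28Def

/-!
A valued field with twisted automorphisms; the passage from a form to its data.
-/

set_option maxSynthPendingDepth 3

namespace Pool.Agent.Lib.MP_346d6a_co

open Polynomial

namespace W28

theorem existsVal_of_complete2 (k : Type) [Field k] [IsAlgClosed k] (L : Type)
    [NontriviallyNormedField L] [IsUltrametricDist L] [CompleteSpace L] (ι : k →+* L) (τ : L)
    (hτ0 : τ ≠ 0) (hτ : ‖τ‖ < 1) (hc : ∀ c : k, c ≠ 0 → ‖ι c‖ = 1)
    (hres : ∀ x : L, ‖x‖ ≤ 1 → ∃ c : k, ‖x - ι c‖ < 1) :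
    ∃ (Ω : Type) (_ : Field Ω) (_ : IsAlgClosed Ω) (_ : Algebra k Ω) (V : Val k Ω),
      ∀ (φ : k ≃+* k) (ζ : k) (ψ : L ≃+* L), ψ τ = ι ζ * τ → (∀ c, ψ (ι c) = ι (φ c)) →
        (∀ x, ‖ψ x‖ = ‖x‖) → ∃ g : Ω ≃+* Ω, g V.τ = algebraMap k Ω ζ * V.τ ∧
        (∀ c, g (algebraMap k Ω c) = algebraMap k Ω (φ c)) ∧ ∀ x, V.v (g x) = V.v x := by
  let A := AlgebraicClosure L
  let _ : NormedField A := spectralNorm.normedField L A
  have hn : ∀ x : A, ‖x‖ = spectralNorm L A x := fun _ => rfl
  have hext : ∀ x : L, ‖algebraMap L A x‖ = ‖x‖ := fun x => spectralNorm_extends x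
  have : IsUltrametricDist A :=
    IsUltrametricDist.isUltrametricDist_of_forall_norm_add_le_max_norm
      (isNonarchimedean_spectralNorm (K := L) (L := A))
  let _ : Algebra k A := ((algebraMap L A).comp ι).toAlgebra
  have hal : ∀ c, algebraMap k A c = algebraMap L A (ι c) := fun _ => rfl
  let v : Valuation A NNReal := NormedField.valuation
  have hv : ∀ x, ((v x : NNReal) : ℝ) = ‖x‖ := fun _ => rfl
  have hv1 : ∀ x, v x < 1 ↔ ‖x‖ < 1 := fun x => by rw [← hv]; norm_cast
  have hv2 : ∀ x, v x ≤ 1 ↔ ‖x‖ ≤ 1 := fun x => by rw [← hv]; norm_cast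
  have hconst : ∀ c : k, c ≠ 0 → v (algebraMap k A c) = 1 := by
    intro c h0
    apply NNReal.eq
    rw [hv, hal, hext, hc c h0]; rfl
  have hR : ∀ x, v x ≤ 1 → ∃ c : k, v (x - algebraMap k A c) < 1 := by
    intro x hx
    have hint : IsIntegral L x := Algebra.IsIntegral.isIntegral x
    have hm := minpoly.monic hint
    have hco : ∀ i, ‖(minpoly L x).coeff i‖ ≤ 1 :=
      (spectralValue_le_one_iff hm).mp ((hv2 x).mp hx)
    choose c hcc using fun i => hres _ (hco i)
    set n := (minpoly L x).natDegree with hnd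
    let pb : k[X] := X ^ n + ∑ i ∈ Finset.range n, C (c i) * X ^ i
    have hdeg : (∑ i ∈ Finset.range n, C (c i) * X ^ i : k[X]).degree < n := by
      refine (degree_sum_le _ _).trans_lt
        ((Finset.sup_lt_iff (WithBot.bot_lt_coe n)).mpr fun i hi => ?_)
      exact (degree_C_mul_X_pow_le _ _).trans_lt (WithBot.coe_lt_coe.mpr (Finset.mem_range.mp hi))
    have hpm : pb.Monic := monic_X_pow_add hdeg
    have h0 : x ^ n + ∑ i ∈ Finset.range n, algebraMap L A ((minpoly L x).coeff i) * x ^ i = 0 := by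
      have := minpoly.aeval L x
      rw [hm.as_sum] at this
      simpa using this
    have h1 : aeval x pb = ∑ i ∈ Finset.range n,
        -(algebraMap L A ((minpoly L x).coeff i - ι (c i)) * x ^ i) := by
      simp only [pb, map_add, map_pow, aeval_X, map_sum, map_mul, aeval_C, hal, map_sub]
      rw [eq_neg_of_add_eq_zero_left h0, ← Finset.sum_neg_distrib, ← Finset.sum_add_distrib]
      exact Finset.sum_congr rfl fun i _ => by ring
    have h2 : v (aeval x pb) < 1 := by
      rw [h1]
      refine v.map_sum_lt one_ne_zero fun i _ => ?_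
      rw [Valuation.map_neg, map_mul, map_pow]
      refine mul_lt_one_of_nonneg_of_lt_one_left zero_le ?_ (pow_le_one₀ zero_le hx)
      rw [hv1, hext]
      exact hcc i
    by_contra hne
    push Not at hne
    rw [(IsAlgClosed.splits pb).eq_prod_roots_of_monic hpm, map_multiset_prod, map_multiset_prod,
      Multiset.map_map, Multiset.map_map] at h2
    refine absurd h2 (not_lt.mpr (Multiset.one_le_prod_of_one_le ?_))
    intro z hz
    obtain ⟨b, -, rfl⟩ := Multiset.mem_map.mp hz
    simpa using hne b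
  refine ⟨A, inferInstance, inferInstance, inferInstance,
    ⟨v, algebraMap L A τ, by simpa using hτ0, by rw [hv1, hext]; exact hτ, hconst, hR⟩,
    fun φ ζ ψ hψτ hψc hψ => ?_⟩
  let g : A ≃+* A := IsAlgClosure.equivOfEquiv A A ψ
  have hg : ∀ x : L, g (algebraMap L A x) = algebraMap L A (ψ x) := fun x =>
    IsAlgClosure.equivOfEquiv_algebraMap A A ψ x
  refine ⟨g, by simp only [hg, hψτ, hal, map_mul], fun c => by rw [hal, hal, hg, hψc],
    fun x => ?_⟩
  apply NNReal.eq
  let f : AbsoluteValue A ℝ := (NormedField.toAbsoluteValue A).comp (f := (g : A →+* A)) g.injective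
  have hf : ∀ x, f x = ‖g x‖ := fun _ => rfl
  have := spectralNorm_unique_field_norm_ext (K := L) (L := A) (f := f)
    (fun x => by rw [hf, hg, hext, hψ]) x
  rw [hf] at this
  exact this

section twist

open LaurentSeries WithZero

variable {k : Type} [Field k]

/-- The rescaling of the variable of a Laurent series, as a function. -/
noncomputable def twF (ζ : k) (x : LaurentSeries k) : LaurentSeries k where
  coeff n := ζ ^ n * x.coeff n
  isPWO_support' := x.isPWO_support.mono fun n hn h0 => hn (by simp only [h0, mul_zero])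

theorem twF_coeff (ζ : k) (x : LaurentSeries k) (n : ℤ) :
    (twF ζ x).coeff n = ζ ^ n * x.coeff n := rfl

theorem twF_support (ζ : k) (x : LaurentSeries k) : (twF ζ x).support ⊆ x.support :=
  fun n hn h0 => hn (by simp only [twF_coeff, h0, mul_zero])

theorem twF_mul {ζ : k} (hζ : ζ ≠ 0) (x y : LaurentSeries k) :
    twF ζ (x * y) = twF ζ x * twF ζ y := by
  ext n
  rw [twF_coeff, HahnSeries.coeff_mul,
    HahnSeries.coeff_mul_left' x.isPWO_support (twF_support ζ x), Finset.mul_sum]
  symm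
  refine (Finset.sum_subset ?_ ?_).trans (Finset.sum_congr rfl ?_)
  · intro p hp
    rw [Finset.mem_antidiagonal] at hp ⊢
    exact ⟨hp.1, twF_support ζ y hp.2.1, hp.2.2⟩
  · intro p hp hp'
    rw [Finset.mem_antidiagonal] at hp hp'
    have : (twF ζ y).coeff p.2 = 0 := by
      by_contra h
      exact hp' ⟨hp.1, h, hp.2.2⟩
    rw [this, mul_zero]
  · intro p hp
    rw [Finset.mem_antidiagonal] at hp
    rw [twF_coeff, twF_coeff, ← hp.2.2, zpow_add₀ hζ]
    ring

/-- The rescaling of the variable of a Laurent series. -/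
noncomputable def twE {ζ : k} (hζ : ζ ≠ 0) : LaurentSeries k ≃+* LaurentSeries k where
  toFun := twF ζ
  invFun := twF ζ⁻¹
  left_inv x := by
    ext n
    rw [twF_coeff, twF_coeff, ← mul_assoc, ← mul_zpow, inv_mul_cancel₀ hζ, one_zpow, one_mul]
  right_inv x := by
    ext n
    rw [twF_coeff, twF_coeff, ← mul_assoc, ← mul_zpow, mul_inv_cancel₀ hζ, one_zpow, one_mul]
  map_mul' := twF_mul hζ
  map_add' x y := by
    ext n
    simp only [twF_coeff, HahnSeries.coeff_add, mul_add]

theorem twE_coeff {ζ : k} (hζ : ζ ≠ 0) (x : LaurentSeries k) (n : ℤ) :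
    (twE hζ x).coeff n = ζ ^ n * x.coeff n := rfl

theorem v_le_of_coeff {x y : LaurentSeries k} (h : ∀ n, x.coeff n = 0 → y.coeff n = 0) :
    Valued.v y ≤ Valued.v x := by
  by_cases hx : x = 0
  · have : y = 0 := by
      ext n
      exact h n (by simp [hx])
    simp [this]
  have h0 : Valued.v x ≠ 0 := by simpa using hx
  rw [valuation_le_iff_coeff_lt_log_eq_zero k h0]
  intro n hn
  exact h n ((valuation_le_iff_coeff_lt_log_eq_zero k h0).mp le_rfl n hn)

end twist

open LaurentSeries WithZero in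
open scoped Valued in
theorem existsVal2 (k : Type) [Field k] [IsAlgClosed k] :
    ∃ (Ω : Type) (_ : Field Ω) (_ : IsAlgClosed Ω) (_ : Algebra k Ω) (V : Val k Ω),
      ∀ (φ : k ≃+* k) (ζ : k), ζ ≠ 0 → ∃ g : Ω ≃+* Ω, g V.τ = algebraMap k Ω ζ * V.τ ∧
        (∀ c, g (algebraMap k Ω c) = algebraMap k Ω (φ c)) ∧ ∀ x, V.v (g x) = V.v x := by
  have hX : Valued.v (HahnSeries.single (1 : ℤ) (1 : k) : LaurentSeries k) = exp (-1 : ℤ) :=
    valuation_single_zpow k 1
  have : (Valued.v : Valuation (LaurentSeries k) (WithZero (Multiplicative ℤ))).IsNontrivial :=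
    ⟨⟨HahnSeries.single (1 : ℤ) (1 : k), by rw [hX]; simp, by rw [hX, ← exp_zero]; simp⟩⟩
  let _ : (Valued.v : Valuation (LaurentSeries k) (WithZero (Multiplicative ℤ))).RankOne :=
    Valuation.IsRankOneDiscrete.rankOne _ (e := 2) one_lt_two
  obtain ⟨Ω, i1, i2, i3, V, hV⟩ := existsVal_of_complete2 k (LaurentSeries k) HahnSeries.C
    (HahnSeries.single (1 : ℤ) (1 : k)) (by simp)
    (by
      rw [Valued.toNormedField.norm_lt_one_iff, hX, ← exp_zero, exp_lt_exp]
      omega)
    (by
      intro c hc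
      apply le_antisymm
      · rw [Valued.toNormedField.norm_le_one_iff, ← exp_zero, ← neg_zero,
          valuation_le_iff_coeff_lt_eq_zero]
        intro n hn
        rw [HahnSeries.C_apply, HahnSeries.coeff_single_of_ne hn.ne]
      · rw [Valued.toNormedField.one_le_norm_iff, ← not_lt, v_lt_one_iff]
        intro h
        exact hc (by simpa using h 0 one_pos))
    (by
      intro x hx
      rw [Valued.toNormedField.norm_le_one_iff, ← exp_zero, ← neg_zero,
        valuation_le_iff_coeff_lt_eq_zero] at hx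
      refine ⟨x.coeff 0, ?_⟩
      rw [Valued.toNormedField.norm_lt_one_iff, v_lt_one_iff]
      intro n hn
      rw [HahnSeries.coeff_sub, HahnSeries.C_apply]
      rcases eq_or_lt_of_le (by omega : n ≤ 0) with rfl | h
      · simp
      · rw [hx n h, HahnSeries.coeff_single_of_ne h.ne, sub_zero])
  refine ⟨Ω, i1, i2, i3, V, fun φ ζ hζ => hV φ ζ ((lsMap φ).trans (twE hζ)) ?_ ?_ ?_⟩
  · ext n
    rw [RingEquiv.trans_apply, twE_coeff, lsMap_coeff, HahnSeries.C_apply,
      HahnSeries.coeff_single_zero_mul, HahnSeries.coeff_single]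
    split_ifs with h
    · simp [h]
    · simp
  · intro c
    ext n
    rw [RingEquiv.trans_apply, twE_coeff, lsMap_coeff, HahnSeries.C_apply, HahnSeries.C_apply,
      HahnSeries.coeff_single, HahnSeries.coeff_single]
    split_ifs with h
    · simp [h]
    · simp
  · intro x
    apply le_antisymm
    · rw [Valued.toNormedField.norm_le_iff]
      refine v_le_of_coeff fun n hn => ?_
      rw [RingEquiv.trans_apply, twE_coeff, lsMap_coeff, hn, map_zero, mul_zero]
    · rw [Valued.toNormedField.norm_le_iff]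
      refine v_le_of_coeff fun n hn => ?_
      rw [RingEquiv.trans_apply, twE_coeff, lsMap_coeff] at hn
      have h1 := (mul_eq_zero.mp hn).resolve_left (zpow_ne_zero n hζ)
      simpa using h1

theorem natDegree_pow_two {k : Type} [Field k] {B : k[X][X]} (hB : BiAdd B) {e : ℕ}
    (he : B.coeff e ≠ 0) : (∃ i, (B.coeff e).natDegree = 2 ^ i) ∧ ∃ i, e = 2 ^ i :=
  hB _ _ (by
    rw [coeff_natDegree]
    exact leadingCoeff_ne_zero.mpr he)

theorem bridge {k : Type} [Field k] (φ : k ≃+* k) (B : k[X][X]) (hB : BiAdd B)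
    (hs : ∀ a b, (B.coeff b).coeff a = (B.coeff a).coeff b) (hd : ∀ a, (B.coeff a).coeff a = 0)
    (hf : mp2 (φ : k →+* k) B = B) (he : ExcB (φ : k →+* k) B) (h1 : B.coeff 1 ≠ 0) {a b : ℕ}
    (hab : (B.coeff (2 ^ b)).coeff (2 ^ a) ≠ 0) (hw : ¬ 2 ^ b ≤ 2 ^ a * (B.coeff 1).natDegree) :
    ∃ (cf : ℕ → ℕ → k) (N r j0 a D : ℕ), WD φ cf N r j0 a D := by
  classical
  have hB0 : B ≠ 0 := fun h => h1 (by simp [h])
  have hlc : B.coeff B.natDegree ≠ 0 := by
    rw [coeff_natDegree]
    exact leadingCoeff_ne_zero.mpr hB0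
  obtain ⟨⟨r, hr⟩, N, hN⟩ := natDegree_pow_two hB hlc
  obtain ⟨⟨j0, hj0⟩, -⟩ := natDegree_pow_two hB h1
  rw [hN] at hlc hr
  let cf : ℕ → ℕ → k := fun c i => (B.coeff (2 ^ i)).coeff (2 ^ c)
  have hsymm : ∀ c i, cf c i = cf i c := fun c i => hs _ _
  have hsupp : ∀ c i, cf c i ≠ 0 → i ≤ N := by
    intro c i h
    have h2 : B.coeff (2 ^ i) ≠ 0 := fun h0 => h (by simp only [cf, h0, coeff_zero])
    have h3 := le_natDegree_of_ne_zero h2
    rw [hN] at h3
    exact (Nat.pow_le_pow_iff_right one_lt_two).mp h3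
  have hsupp' : ∀ c i, cf c i ≠ 0 → c ≤ N := fun c i h => hsupp i c (by rwa [hsymm])
  have htop : cf r N ≠ 0 := by
    simp only [cf]
    rw [← hr, coeff_natDegree]
    exact leadingCoeff_ne_zero.mpr hlc
  have hbot : cf j0 0 ≠ 0 := by
    simp only [cf, pow_zero]
    rw [← hj0, coeff_natDegree]
    exact leadingCoeff_ne_zero.mpr h1
  have hlt : a + j0 < b := by
    rw [hj0, ← pow_add, Nat.pow_le_pow_iff_right one_lt_two] at hw
    omega
  let P : ℕ → Prop := fun d => ∃ i, cf (i + d) i ≠ 0
  have hP : ∀ c i, cf c i ≠ 0 → i ≤ c → P (c - i) ∧ c - i ≤ N := fun c i h hic =>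
    ⟨⟨i, by rwa [Nat.add_sub_cancel' hic]⟩, (Nat.sub_le c i).trans (hsupp' c i h)⟩
  have hba : cf b a ≠ 0 := by rw [hsymm]; exact hab
  have hP0 := hP b a hba (by omega)
  have hD : P (Nat.findGreatest P N) := Nat.findGreatest_spec hP0.2 hP0.1
  have hBB : BB cf N = B := by
    ext e c
    by_cases h2 : ∃ i, e = 2 ^ i
    · obtain ⟨i, rfl⟩ := h2
      rw [coeff_BB]
      split_ifs with hi
      · by_cases h3 : ∃ j, c = 2 ^ j
        · obtain ⟨j, rfl⟩ := h3
          rw [coeff_row]
          split_ifs with hj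
          · rfl
          · by_contra h4
            exact hj (hsupp' j i fun h0 => h4 h0.symm)
        · have h4 : (row cf N i).coeff c = 0 := by
            by_contra h5
            obtain ⟨j, -, hj, -⟩ := coeff_row_ne cf N i c h5
            exact h3 ⟨j, hj⟩
          have h5 : (B.coeff (2 ^ i)).coeff c = 0 := by
            by_contra h6
            exact h3 (hB _ _ h6).1
          rw [h4, h5]
      · have h4 : B.coeff (2 ^ i) = 0 := by
          refine coeff_eq_zero_of_natDegree_lt ?_
          rw [hN]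
          exact Nat.pow_lt_pow_right one_lt_two (not_le.mp hi)
        rw [h4]
    · have h4 : (BB cf N).coeff e = 0 := by
        by_contra h5
        obtain ⟨j, -, hj⟩ := coeff_BB_ne cf N e h5
        exact h2 ⟨j, hj⟩
      have h5 : (B.coeff e).coeff c = 0 := by
        by_contra h6
        exact h2 (hB _ _ h6).2
      rw [h4, h5, coeff_zero]
  refine ⟨cf, N, r, j0, Nat.find hD, Nat.findGreatest P N, hsymm, fun c => hd _, ?_, hsupp, ?_,
    htop, ?_, hbot, ?_, ?_, Nat.find_spec hD, fun i hi => Nat.find_min' hD hi, ?_, ?_⟩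
  · intro c i
    have h2 := congrArg (fun Q : k[X][X] => (Q.coeff (2 ^ i)).coeff (2 ^ c)) hf
    simpa [mp2, coeff_map] using h2
  · refine lt_of_le_of_ne (hsupp' r N htop) ?_
    rintro rfl
    exact htop (hd _)
  · intro c hc
    have h3 := le_natDegree_of_ne_zero hc
    rw [hr] at h3
    exact (Nat.pow_le_pow_iff_right one_lt_two).mp h3
  · intro c hc
    have h3 := le_natDegree_of_ne_zero hc
    rw [pow_zero, hj0] at h3
    exact (Nat.pow_le_pow_iff_right one_lt_two).mp h3
  · intro c i h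
    rcases le_total c i with hci | hic
    · omega
    · have h2 := hP c i h hic
      have h3 := Nat.le_findGreatest h2.2 h2.1
      omega
  · have h3 := Nat.le_findGreatest hP0.2 hP0.1
    omega
  · rw [hBB]
    exact he

end W28

end Pool.Agent.Lib.MP_346d6a_co
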