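import Pool.Agent.Lib.MP_346d6a_co.W28Xi
import Pool.Agent.Lib.MP_346d6a_co.W28Move
import Pool.Agent.Lib.MP_346d6a_co.W28Bud
import Pool.Agent.Lib.MP_346d6a_co.W28Val
import Pool.Agent.Lib.MP_346d6a_co.H64Use

/-!
There is no wild exceptional quadratic form.
-/

set_option maxSynthPendingDepth 3

namespace Pool.Agent.Lib.MP_346d6a_co

open Polynomial

namespace W28

theorem Cx.absurd {k Ω : Type} [Field k] [IsAlgClosed k] [CharP k 2] [Field Ω] [IsAlgClosed Ω]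
    [Algebra k Ω] (X : Cx k Ω) : False := by
  classical
  have := X.ch
  obtain ⟨l, hl⟩ := X.exists_rad
  obtain ⟨io, io1, io2⟩ := X.exists_io
  obtain ⟨p, hp⟩ := exists_restrict X.W X.π fun u hu => X.π_mem hu
  have := finite_Fq (k := k) X.a_pos
  let _ : Algebra (ZMod 2) (Fq k X.a) := ZMod.algebra _ 2
  let m : X.W →+ k := AddMonoidHom.mk' (fun u => rs X.V (l * X.Xi 0 u / X.b)) fun u w => by
    rw [AddSubgroup.coe_add, X.Xi_add 0 u.2 w.2, mul_add, add_div]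
    exact rs_add (hl.le0 u u.2) (hl.le0 w w.2)
  let z : X.W →+ k := AddMonoidHom.mk' (fun u => rs X.V (l ^ 2 * X.Xi 1 u / X.b)) fun u w => by
    rw [AddSubgroup.coe_add, X.Xi_add 1 u.2 w.2, mul_add, add_div]
    exact rs_add (hl.le1 u u.2) (hl.le1 w w.2)
  have hm : ∀ u : X.W, m u = rs X.V (l * X.Xi 0 u / X.b) := fun _ => rfl
  have hz : ∀ u : X.W, z u = rs X.V (l ^ 2 * X.Xi 1 u / X.b) := fun _ => rfl
  have hsm : ∀ u : X.W, X.V.v (u : Ω) < X.sz (-2 ^ (X.D - 1)) → u ∈ m.ker ⊓ z.ker := fun u hu =>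
    ⟨rs_of_lt (hl.small u u.2 hu).1, rs_of_lt (hl.small u u.2 hu).2⟩
  have hio : ∀ w, X.V.v (io w : Ω) ≤ X.sz (-X.ν) := fun w =>
    X.div_c_le.1 (X.V.le_one_of_res (io1 w))
  have hlt : X.sz (-X.ν) < X.sz (-2 ^ (X.D - 1)) := by
    have h1 := X.ν_gt
    have h2 : (2 : ℝ) ^ (X.D - 1) ≤ 2 ^ X.D := pow_le_pow_right₀ one_le_two (by omega)
    exact X.sz_lt.2 (by linarith)
  have hφ : ∀ x : k, x ∈ Fq k X.a ↔ X.φ x ∈ Fq k X.a := fun x => by
    rw [mem_Fq, mem_Fq, ← map_pow, X.φ.injective.eq_iff]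
  let sig : Fq k X.a ≃+* Fq k X.a := RingEquiv.ofBijective
    (((X.φ : k →+* k).comp (Fq k X.a).subtype).codRestrict (Fq k X.a) fun x => (hφ x).1 x.2)
    (Finite.injective_iff_bijective.1 (RingHom.injective _))
  have hsig : ∀ w, (sig w : k) = X.φ w := fun _ => rfl
  have H : H64Q.Hyp (fun u : X.W => col2 k X.s (u : Ω)) p io m z ⟨_, mem_Fq.2 X.δ_mem⟩ sig := by
    refine ⟨fun v => Subtype.ext (CharTwo.add_self_eq_zero _), fun u v h =>
      realise X.s_tr X.BB_ne X.W (fun _ => Iff.rfl) u v h, fun u v h => ?_,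
      fun w => (hsm _ ((hio w).trans_lt hlt)).1, fun w => (hsm _ ((hio w).trans_lt hlt)).2,
      fun w => (io2 _ _ ?_).symm, fun w hw e => ?_, fun u h h0 hρ => ?_⟩
    · rw [hp, hp]
      exact col2_map X.φ X.π X.πc X.π_s h
    · rw [hp]
      exact X.π_small (io1 w)
    · rw [hp] at e
      rcases X.π_fixed (io w).2 e with h | h
      · have := io1 w
        rw [h, zero_div, zero_sub, Valuation.map_neg] at this
        exact hw (Subtype.ext (X.V.eq_zero_of_lt this))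
      · have := hio w
        rw [h, ← X.sz_one, X.sz_le] at this
        linarith [X.α_pos, X.α_lt]
    · refine X.move hl u.2 (io h).2 (rs_spec (hl.le0 u u.2)) (rs_spec (hl.le1 u u.2)) h0 h.2 (io1 h)
        fun ρ h1 h2 h3 => ?_
      exact (trace_Fq X.a_pos _).1 (hρ ⟨ρ, h1⟩ h2 h3)
  have hZ : m.ker ⊓ z.ker ≠ ⊤ := fun e => by
    obtain ⟨u, hu, h⟩ := hl.ex
    have h1 : (⟨u, hu⟩ : X.W) ∈ m.ker ⊓ z.ker := e ▸ AddSubgroup.mem_top _
    rcases h with h | h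
    · exact (rs_ne_zero h.le).2 h h1.1
    · exact (rs_ne_zero h.le).2 h h1.2
  have fin : (∃ U : AddSubgroup X.W, H64Q.Inv (fun u : X.W => col2 k X.s (u : Ω)) U ∧
      io.range ≤ U ∧ U ≤ m.ker ⊓ z.ker) → False := by
    rintro ⟨U, h1, h2, h3⟩
    refine X.budA U _ h1 h3 hZ (fun u hu => h2 ?_) hsm
    obtain ⟨w, hw⟩ := X.small_res u.2 hu
    exact ⟨w, io2 u w hw⟩
  by_cases ha : X.a ∣ X.Del
  · by_cases hz0 : z = 0
    · exact fin (H.useA (Or.inr hz0))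
    obtain ⟨u, hu⟩ := DFunLike.ne_iff.1 hz0
    obtain ⟨h1, h2, κ, hκ, h3⟩ := hl.tie ha ⟨u, u.2, (rs_ne_zero (hl.le1 u u.2)).1 hu⟩
    obtain ⟨S, hS, hS'⟩ := exists_small_set (k := k) X.j_pos X.D
    obtain ⟨U, h4, h5, w, hw, h6⟩ := H.useC κ S
      (fun u => ⟨_, hS' _ (X.y_pow u.2), rs_eq (h3 u u.2)⟩) (by
        rw [card_Fq X.a_pos]
        have h7 : (2 * S.card) ^ 2 ≤ (2 ^ X.j) ^ 2 := Nat.pow_le_pow_left hS 2
        have h8 : (2 ^ X.j) ^ 2 ≤ 2 ^ X.a := by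
          rw [← pow_mul]; exact Nat.pow_le_pow_right two_pos (by omega)
        have h9 : 0 < 2 ^ X.a := by positivity
        nlinarith)
    refine X.budB h1 U h4 (fun u hu => ?_) ⟨io w, h6, fun e => hw (H.inj e), hio w⟩
    have h7 : z u = 0 := (h5 hu).2
    rw [hz, rs_eq (h3 u u.2), mul_eq_zero, or_iff_right hκ, CharTwo.add_eq_zero, sq] at h7
    by_cases h8 : X.y u = 0
    · exact Or.inl h8
    · refine Or.inr (iterateFrobenius_inj k 2 X.D ?_)
      rw [map_one, iterateFrobenius_def]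
      exact (mul_eq_left₀ (pow_ne_zero _ h8)).1 h7.symm
  · obtain ⟨ζ, h1, h2⟩ := exists_not_fixed (k := k) X.a_pos ha
    have h0 : ζ ≠ 0 := fun e => h2 (by rw [e, zero_pow (by positivity)])
    obtain ⟨g, g1, g2, g3⟩ := X.twist h0 h1
    refine fin (H.useB (⟨ζ, h1⟩ ^ (2 ^ (X.a + X.D) - 2 ^ X.j0)) (fun e => h2 ?_) fun w => ?_)
    · have e1 : ζ ^ (2 ^ (X.a + X.D) - 2 ^ X.j0) = 1 := congrArg Subtype.val e
      have e2 : ζ ^ 2 ^ (X.a + X.D) = ζ ^ 2 ^ X.j0 := by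
        rw [← Nat.sub_add_cancel (Nat.pow_le_pow_right two_pos
          (by have := X.wd.wild; omega : X.j0 ≤ X.a + X.D)), pow_add, e1, one_mul]
      refine iterateFrobenius_inj k 2 X.j0 ?_
      rw [iterateFrobenius_def, iterateFrobenius_def, ← e2, pow_add, pow_mul, h1, ← pow_mul,
        ← pow_add, X.D_eq, add_comm]
    · show col2 k X.s _ = col2 k X.s _
      rw [io2 ⟨g (io w), g1 _ (io w).2⟩ _ (g3 _ _ (io1 w))]
      exact g2 _

end W28

theorem wildDO : WildDO := by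
  intro k _ _ _ φ B hB hs hd hf he h1 a b hab
  by_contra hw
  obtain ⟨cf, N, r, j0, a, D, wd⟩ := W28.bridge φ B hB hs hd hf he h1 hab hw
  obtain ⟨Ω, _, _, _, V, hV⟩ := W28.existsVal2 k
  obtain ⟨π, h2, h3, h4⟩ := hV φ 1 one_ne_zero
  have ha : 1 ≤ a := by
    by_contra h
    have h0 : a = 0 := by omega
    have := wd.bot' (a + D) (by simpa [h0] using wd.edge)
    have := wd.wild
    omega
  have hq : 2 ^ a - 1 ≠ 0 := by
    have : 2 ^ 1 ≤ 2 ^ a := Nat.pow_le_pow_right two_pos ha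
    omega
  obtain ⟨θ, hθ⟩ := IsAlgClosed.exists_pow_nat_eq (cf j0 0 / cf (a + D) a) (Nat.pos_of_ne_zero hq)
  refine W28.Cx.absurd (k := k) (Ω := Ω) ⟨φ, cf, N, r, j0, a, D, wd, V,
    charP_of_injective_algebraMap (algebraMap k Ω).injective 2, π, by simpa using h2, h3, h4,
    fun ζ hζ => hV (RingEquiv.refl k) ζ hζ, θ, ?_, ?_⟩
  · rintro rfl
    rw [zero_pow hq] at hθ
    exact div_ne_zero wd.bot wd.edge hθ.symm
  · rw [← Nat.sub_add_cancel (Nat.one_le_two_pow (n := a)), pow_succ, hθ, ← mul_assoc,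
      mul_div_cancel₀ _ wd.edge]

end Pool.Agent.Lib.MP_346d6a_co
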