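import Pool.Agent.Lib.MP_346d6a_co.W28Col

/-!
The sizes of the roots at infinity: the large roots.
-/

set_option maxSynthPendingDepth 3

namespace Pool.Agent.Lib.MP_346d6a_co

open Polynomial

namespace W28

namespace Cx

section comb

variable {k Ω : Type} [Field k] [Field Ω] [Algebra k Ω] (X : Cx k Ω)

theorem two_pow_add_lt52 {c i n : ℕ} (hc : c < n) (hi : i < n) (h : c ≠ i) :
    (2 : ℝ) ^ c + 2 ^ i < 2 ^ n := by
  have key : ∀ {c i : ℕ}, c < i → i < n → (2 : ℝ) ^ c + 2 ^ i < 2 ^ n := fun {c i} h1 h2 => by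
    have h3 : (2 : ℝ) ^ c < 2 ^ i := pow_lt_pow_right₀ one_lt_two h1
    have h4 : (2 : ℝ) ^ (i + 1) ≤ 2 ^ n := pow_le_pow_right₀ one_le_two h2
    rw [pow_succ] at h4
    linarith
  rcases lt_or_gt_of_ne h with h | h
  · exact key h hi
  · rw [add_comm]; exact key h hc

/-- The three kinds of terms. -/
theorem kinds52 {c i : ℕ} (h : X.cf c i ≠ 0) :
    (i = X.N ∧ c ≤ X.r) ∨ (c = X.N ∧ i ≤ X.r) ∨ (2 : ℝ) ^ c + 2 ^ i < 2 ^ X.N := by
  rcases (X.wd.supp c i h).eq_or_lt with h1 | h1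
  · exact Or.inl ⟨h1, X.wd.top' c (h1 ▸ h)⟩
  rcases (X.supp' h).eq_or_lt with h2 | h2
  · refine Or.inr (Or.inl ⟨h2, X.wd.top' i ?_⟩)
    rw [X.wd.symm, ← h2]
    exact h
  refine Or.inr (Or.inr (two_pow_add_lt52 h2 h1 ?_))
  rintro rfl
  exact h (X.wd.diag c)

theorem pow_r_lt52 : (2 : ℝ) ^ X.r < 2 ^ X.N := pow_lt_pow_right₀ one_lt_two X.wd.r_lt

theorem half_le52 {c n : ℕ} (h : c < n) : (2 : ℝ) ^ c ≤ 2 ^ n / 2 := by
  have h4 : (2 : ℝ) ^ (c + 1) ≤ 2 ^ n := pow_le_pow_right₀ one_le_two h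
  rw [pow_succ] at h4
  linarith

/-- The terms other than the two main ones are small. -/
theorem minor52 {c i : ℕ} (h : X.cf c i ≠ 0) (h1 : ¬ (i = X.N ∧ c = X.r))
    (h2 : ¬ (i = X.r ∧ c = X.N)) : (2 : ℝ) ^ c + 2 ^ i ≤ 2 ^ X.N + 2 ^ X.r / 2 := by
  have h0 : (0 : ℝ) < 2 ^ X.r := by positivity
  rcases X.kinds52 h with ⟨h3, h4⟩ | ⟨h3, h4⟩ | h3
  · have := half_le52 (lt_of_le_of_ne h4 fun e => h1 ⟨h3, e⟩)
    rw [h3]; linarith
  · have := half_le52 (lt_of_le_of_ne h4 fun e => h2 ⟨e, h3⟩)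
    rw [h3]; linarith
  · linarith

theorem B_prod52 (x w : Ω) : X.B x w = ∑ p ∈ Finset.range (X.N + 1) ×ˢ Finset.range (X.N + 1),
    algebraMap k Ω (X.cf p.2 p.1) * x ^ 2 ^ p.2 * w ^ 2 ^ p.1 := by
  rw [B_eq', Finset.sum_product]

theorem v_term52 {c i : ℕ} (h : X.cf c i ≠ 0) {w : Ω} {t : ℝ} (hw : X.V.v w = X.sz t) :
    X.V.v (algebraMap k Ω (X.cf c i) * X.s ^ 2 ^ c * w ^ 2 ^ i) = X.sz (2 ^ c + 2 ^ i * t) := by
  rw [map_mul, map_mul, X.V.const _ h, one_mul, X.v_s_pow, map_pow, hw, X.sz_pow, ← X.sz_add]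
  push_cast
  rfl

/-- A dominant term gives the size of the form. -/
theorem v_B_of_dom52 {c₀ i₀ : ℕ} (h₀ : X.cf c₀ i₀ ≠ 0) {w : Ω} {t : ℝ} (hw : X.V.v w = X.sz t)
    (h : ∀ c i, X.cf c i ≠ 0 → ¬ (i = i₀ ∧ c = c₀) →
      (2 : ℝ) ^ c + 2 ^ i * t < 2 ^ c₀ + 2 ^ i₀ * t) :
    X.V.v (X.B X.s w) = X.sz (2 ^ c₀ + 2 ^ i₀ * t) := by
  rw [B_prod52, X.V.v.map_sum_eq_of_lt (j := (i₀, c₀))]
  · exact X.v_term52 h₀ hw
  · rw [Finset.mem_product, Finset.mem_range, Finset.mem_range, Nat.lt_succ_iff, Nat.lt_succ_iff]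
    exact ⟨X.wd.supp _ _ h₀, X.supp' h₀⟩
  · rintro ⟨i, c⟩ hp
    rw [X.v_term52 h₀ hw]
    by_cases h1 : X.cf c i = 0
    · simp only [h1, map_zero, zero_mul]
      exact X.sz_pos _
    · rw [X.v_term52 h1 hw, X.sz_lt]
      refine h c i h1 fun e => ?_
      rw [Finset.mem_sdiff, Finset.mem_singleton] at hp
      exact hp.2 (by rw [e.1, e.2])

theorem v_B_big52 {w : Ω} {t : ℝ} (hw : X.V.v w = X.sz t) (ht : 1 < t) :
    X.V.v (X.B X.s w) = X.sz (2 ^ X.r + 2 ^ X.N * t) := by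
  refine X.v_B_of_dom52 X.wd.top hw fun c i h h1 => ?_
  have h0 : (0 : ℝ) < 2 ^ X.r := by positivity
  have h2 := X.pow_r_lt52
  rcases X.kinds52 h with ⟨h3, h4⟩ | ⟨h3, h4⟩ | h3
  · have : (2 : ℝ) ^ c < 2 ^ X.r :=
      pow_lt_pow_right₀ one_lt_two (lt_of_le_of_ne h4 fun e => h1 ⟨h3, e⟩)
    rw [h3]; linarith
  · have : (2 : ℝ) ^ i ≤ 2 ^ X.r := pow_le_pow_right₀ one_le_two h4
    rw [h3]; nlinarith
  · have h5 : (0 : ℝ) < 2 ^ c := by positivity
    nlinarith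

theorem v_B_mid52 {w : Ω} {t : ℝ} (hw : X.V.v w = X.sz t) (h0 : 0 < t) (ht : t < 1) :
    X.V.v (X.B X.s w) = X.sz (2 ^ X.N + 2 ^ X.r * t) := by
  refine X.v_B_of_dom52 (by rw [X.wd.symm]; exact X.wd.top) hw fun c i h h1 => ?_
  have h6 : (0 : ℝ) < 2 ^ X.r := by positivity
  have h2 := X.pow_r_lt52
  rcases X.kinds52 h with ⟨h3, h4⟩ | ⟨h3, h4⟩ | h3
  · have : (2 : ℝ) ^ c ≤ 2 ^ X.r := pow_le_pow_right₀ one_le_two h4
    rw [h3]; nlinarith
  · have : (2 : ℝ) ^ i < 2 ^ X.r :=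
      pow_lt_pow_right₀ one_lt_two (lt_of_le_of_ne h4 fun e => h1 ⟨e, h3⟩)
    rw [h3]; nlinarith
  · have h5 : (0 : ℝ) < 2 ^ i := by positivity
    nlinarith

theorem lt_lg52 {u : Ω} {t : ℝ} (h : X.sz t < X.V.v u) : X.V.v u = X.sz (X.lg u) ∧ t < X.lg u := by
  have hu : u ≠ 0 := by
    rintro rfl
    simp at h
  rw [← X.sz_lg hu] at h
  exact ⟨(X.sz_lg hu).symm, X.sz_lt.1 h⟩

/-- Splitting off the two main terms of a double sum. -/
theorem sum_main52 {M : Type} [AddCommMonoid M] (f : ℕ × ℕ → M) :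
    ∑ p ∈ Finset.range (X.N + 1) ×ˢ Finset.range (X.N + 1), f p =
      f (X.N, X.r) + f (X.r, X.N) + ∑ p ∈ ((Finset.range (X.N + 1) ×ˢ
        Finset.range (X.N + 1)).erase (X.N, X.r)).erase (X.r, X.N), f p := by
  have h := X.wd.r_lt
  rw [add_assoc, Finset.add_sum_erase, Finset.add_sum_erase]
  · simp only [Finset.mem_product, Finset.mem_range]
    omega
  · simp only [Finset.mem_erase, Finset.mem_product, Finset.mem_range, Ne, Prod.mk.injEq]
    omega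

theorem v_minor52 {x : Ω} (hx : X.V.v x ≤ 1) {p : ℕ × ℕ}
    (hp : p ∈ ((Finset.range (X.N + 1) ×ˢ Finset.range (X.N + 1)).erase (X.N, X.r)).erase
      (X.r, X.N)) :
    X.V.v (algebraMap k Ω (X.cf p.2 p.1) * X.s ^ 2 ^ p.2 * (x * X.s) ^ 2 ^ p.1) ≤
      X.sz (2 ^ X.N + 2 ^ X.r / 2) := by
  obtain ⟨i, c⟩ := p
  simp only [Finset.mem_erase, Ne, Prod.mk.injEq] at hp
  by_cases h1 : X.cf c i = 0
  · simp [h1]
  have h2 : X.V.v (x * X.s) ≤ X.sz 1 := by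
    rw [map_mul, X.sz_one]
    exact mul_le_of_le_one_left zero_le hx
  rw [mul_assoc]
  refine X.le_const _ ((X.le_mul (X.v_s_pow _).le (X.le_pow h2 _)).trans (X.sz_le.2 ?_))
  have := X.minor52 h1 hp.2.1 hp.1
  push_cast
  linarith

theorem red_monomial52 {V : Val k Ω} (n : ℕ) {x : Ω} {a : k} (h : V.v (x - algebraMap k Ω a) < 1) :
    V.Red (monomial n x) (monomial n a) := fun i => by
  rw [coeff_monomial, coeff_monomial]
  split_ifs
  · exact h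
  · simp

/-- The reduction of the rescaled form. -/
theorem exists_red_top52 : ∃ P : Polynomial Ω,
    (∀ x, P.eval x = X.B X.s (x * X.s) / X.s ^ (2 ^ X.N + 2 ^ X.r)) ∧
    X.V.Red P (monomial (2 ^ X.N) (X.cf X.r X.N) + monomial (2 ^ X.r) (X.cf X.r X.N)) := by
  refine ⟨∑ p ∈ Finset.range (X.N + 1) ×ˢ Finset.range (X.N + 1), monomial (2 ^ p.1)
    (algebraMap k Ω (X.cf p.2 p.1) * X.s ^ 2 ^ p.2 * (1 * X.s) ^ 2 ^ p.1 /
      X.s ^ (2 ^ X.N + 2 ^ X.r)), fun x => ?_, ?_⟩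
  · rw [eval_finsetSum, B_prod52, Finset.sum_div]
    refine Finset.sum_congr rfl fun p _ => ?_
    rw [eval_monomial]
    ring
  · have hs := X.s_ne
    rw [X.sum_main52, ← add_zero (monomial (2 ^ X.N) (X.cf X.r X.N) + _)]
    refine ((red_monomial52 _ ?_).add (red_monomial52 _ ?_)).add fun i => ?_
    · rw [one_mul, mul_assoc, ← pow_add, add_comm, mul_div_cancel_right₀ _ (pow_ne_zero _ hs)]
      simp
    · rw [one_mul, mul_assoc, ← pow_add, mul_div_cancel_right₀ _ (pow_ne_zero _ hs), X.wd.symm]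
      simp
    · rw [coeff_zero, map_zero, sub_zero, finsetSum_coeff]
      refine X.V.v.map_sum_lt one_ne_zero fun p hp => ?_
      rw [coeff_monomial]
      split_ifs
      · rw [map_div₀, X.v_s_pow, div_lt_one₀ (X.sz_pos _)]
        refine (X.v_minor52 (by simp) hp).trans_lt (X.sz_lt.2 ?_)
        have h0 : (0 : ℝ) < 2 ^ X.r := by positivity
        push_cast
        linarith
      · simp

theorem red_top_eq52 : (monomial (2 ^ X.N) (X.cf X.r X.N) + monomial (2 ^ X.r) (X.cf X.r X.N) : k[X])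
    = C (X.cf X.r X.N) * (Polynomial.X ^ (2 ^ X.N - 2 ^ X.r) + 1) *
      (Polynomial.X - C 0) ^ 2 ^ X.r := by
  have h : 2 ^ X.r ≤ 2 ^ X.N := Nat.pow_le_pow_right two_pos X.wd.r_lt.le
  rw [map_zero, sub_zero, mul_assoc, add_mul, ← pow_add, Nat.sub_add_cancel h, one_mul, mul_add,
    C_mul_X_pow_eq_monomial, C_mul_X_pow_eq_monomial]

theorem eval_zero_top52 :
    (C (X.cf X.r X.N) * (Polynomial.X ^ (2 ^ X.N - 2 ^ X.r) + 1) : k[X]).eval 0 ≠ 0 := by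
  have h : 2 ^ X.r < 2 ^ X.N := Nat.pow_lt_pow_right one_lt_two X.wd.r_lt
  have h1 : 2 ^ X.N - 2 ^ X.r ≠ 0 := by omega
  simpa [h1] using X.wd.top

theorem red_top_ne52 :
    (monomial (2 ^ X.N) (X.cf X.r X.N) + monomial (2 ^ X.r) (X.cf X.r X.N) : k[X]) ≠ 0 := by
  rw [red_top_eq52]
  refine mul_ne_zero (fun e => X.eval_zero_top52 (by rw [e, eval_zero]))
    (pow_ne_zero _ (X_sub_C_ne_zero _))

theorem isRoot_top52 [CharP k 2] {t : k} :
    (monomial (2 ^ X.N) (X.cf X.r X.N) + monomial (2 ^ X.r) (X.cf X.r X.N) : k[X]).IsRoot t ↔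
      t ^ 2 ^ X.j = t := by
  have e : t ^ 2 ^ X.N = (t ^ 2 ^ X.j) ^ 2 ^ X.r := by
    rw [← pow_mul, ← pow_add, add_comm, ← X.N_eq]
  rw [IsRoot, eval_add, eval_monomial, eval_monomial, ← mul_add, mul_eq_zero, or_iff_right X.wd.top,
    e, ← add_pow_char_pow, pow_eq_zero_iff (by positivity), CharTwo.add_eq_zero]

end comb

variable {k Ω : Type} [Field k] [IsAlgClosed k] [CharP k 2] [Field Ω] [IsAlgClosed Ω] [Algebra k Ω]
  (X : Cx k Ω)

theorem v_le {u : Ω} (hu : u ∈ X.W) : X.V.v u ≤ X.sz 1 := by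
  by_contra h
  obtain ⟨h1, h2⟩ := X.lt_lg52 (not_le.1 h)
  have := X.v_B_big52 h1 h2
  rw [X.mem_W.1 hu, map_zero] at this
  exact X.sz_ne _ this.symm

theorem y_spec {u : Ω} (hu : u ∈ X.W) : X.V.v (u / X.s - algebraMap k Ω (X.y u)) < 1 :=
  rs_spec (X.div_s_le.2 (X.v_le hu))

theorem y_add {u w : Ω} (hu : u ∈ X.W) (hw : w ∈ X.W) : X.y (u + w) = X.y u + X.y w := by
  rw [y, add_div]
  exact rs_add (X.div_s_le.2 (X.v_le hu)) (X.div_s_le.2 (X.v_le hw))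

omit [IsAlgClosed k] [CharP k 2] [IsAlgClosed Ω] in
theorem y_s : X.y X.s = 1 := rs_eq (by simp [X.s_ne])

omit [IsAlgClosed k] [CharP k 2] [IsAlgClosed Ω] in
theorem y_of_lt {u : Ω} (h : X.V.v u < X.sz 1) : X.y u = 0 := rs_of_lt (X.div_s_lt.2 h)

theorem y_π {u : Ω} (hu : u ∈ X.W) : X.y (X.π u) = X.φ (X.y u) := by
  have := rs_map (V := X.V) (φ := (X.φ : k →+* k)) (g := (X.π : Ω →+* Ω)) X.πc X.πv
    (X.div_s_le.2 (X.v_le hu))
  rw [map_div₀] at this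
  simpa [y, X.π_s] using this

theorem v_of_y_ne {u : Ω} (hu : u ∈ X.W) (h : X.y u ≠ 0) : X.V.v u = X.sz 1 := by
  have := (rs_ne_zero (X.div_s_le.2 (X.v_le hu))).1 h
  rwa [map_div₀, div_eq_one_iff_eq X.R_ne, ← X.sz_one] at this

open Classical in
/-- The number of roots with a given leading coefficient. -/
theorem card_y52 (b : k) : (Finset.univ.filter fun u : X.W => X.y u = b).card =
    (monomial (2 ^ X.N) (X.cf X.r X.N) +
      monomial (2 ^ X.r) (X.cf X.r X.N) : k[X]).rootMultiplicity b := by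
  have := X.ch
  obtain ⟨P, hP, hR⟩ := X.exists_red_top52
  have h1 := prod_roots X.s_tr (addIn_BB X.cf X.N) (by rw [X.coeff_BB_one]; exact X.row_zero_ne)
    X.W fun _ => Iff.rfl
  have h2 : P = C (aeval X.s (BB X.cf X.N).leadingCoeff * X.s ^ Fintype.card X.W /
      X.s ^ (2 ^ X.N + 2 ^ X.r)) *
      (((Finset.univ : Finset X.W).val.map fun u : X.W => (u : Ω) / X.s).map
        fun a => Polynomial.X - C a).prod := by
    refine Polynomial.funext fun x => ?_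
    have e : ∀ u : X.W, x * X.s - (u : Ω) = X.s * (x - (u : Ω) / X.s) := fun u => by
      field_simp [X.s_ne]
    rw [hP, B, ev2_eq, h1, Multiset.map_map, Finset.prod_map_val]
    simp only [eval_mul, eval_C, eval_prod, eval_sub, eval_X, Function.comp, e,
      Finset.prod_mul_distrib, Finset.prod_const, Finset.card_univ]
    ring
  have h3 : P ≠ 0 := hR.ne_zero X.red_top_ne52
  rw [← hR.card_cluster X.red_top_ne52 b]
  rw [h2] at h3 ⊢
  rw [roots_C_mul _ (fun e => h3 (by rw [e, map_zero, zero_mul])), roots_multiset_prod_X_sub_C,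
    Multiset.filter_map, Multiset.card_map, Finset.card_def, Finset.filter_val]
  congr 1
  refine Multiset.filter_congr fun u _ => ⟨fun h => ?_, fun h => rs_eq h⟩
  rw [← h]
  exact X.y_spec u.2

theorem y_pow {u : Ω} (hu : u ∈ X.W) : X.y u ^ 2 ^ X.j = X.y u := by
  classical
  rw [← X.isRoot_top52, ← rootMultiplicity_pos X.red_top_ne52, ← X.card_y52, Finset.card_pos]
  exact ⟨⟨u, hu⟩, by simp⟩

theorem y_surj {t : k} (ht : t ^ 2 ^ X.j = t) : ∃ u ∈ X.W, X.y u = t := by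
  classical
  rw [← X.isRoot_top52, ← rootMultiplicity_pos X.red_top_ne52, ← X.card_y52, Finset.card_pos] at ht
  obtain ⟨u, hu⟩ := ht
  exact ⟨u, u.2, by simpa using hu⟩

open Classical in
theorem card_y_zero : (Finset.univ.filter fun u : X.W => X.y u = 0).card = 2 ^ X.r := by
  rw [X.card_y52, X.red_top_eq52, rootMultiplicity_mul_X_sub_C_pow
    (fun e => X.eval_zero_top52 (by rw [e, eval_zero])), rootMultiplicity_eq_zero X.eval_zero_top52,
    zero_add]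

theorem v_le_one {u : Ω} (hu : u ∈ X.W) (h0 : X.y u = 0) : X.V.v u ≤ 1 := by
  by_contra h
  rw [not_le, ← X.sz_zero] at h
  obtain ⟨h1, h2⟩ := X.lt_lg52 h
  have h3 : X.V.v u < X.sz 1 := X.div_s_lt.1 (by simpa [h0] using X.y_spec hu)
  have := X.v_B_mid52 h1 h2 (X.sz_lt.1 (h1 ▸ h3))
  rw [X.mem_W.1 hu, map_zero] at this
  exact X.sz_ne _ this.symm

theorem v_sub_le {u : Ω} (hu : u ∈ X.W) :
    X.V.v (u + algebraMap k Ω (X.y u) * X.s) ≤ X.sz (1 / 2) := by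
  have := X.ch
  by_contra h
  obtain ⟨h1, h2⟩ := X.lt_lg52 (not_le.1 h)
  have h3 : X.V.v (u + algebraMap k Ω (X.y u) * X.s) < X.sz 1 := by
    rw [← X.div_s_lt, add_div, mul_div_cancel_right₀ _ X.s_ne, ← CharTwo.sub_eq_add]
    exact X.y_spec hu
  have h4 := X.v_B_mid52 h1 (by linarith) (X.sz_lt.1 (h1 ▸ h3))
  have e : algebraMap k Ω (X.y u) ^ 2 ^ X.N = algebraMap k Ω (X.y u) ^ 2 ^ X.r := by
    rw [X.N_eq, add_comm, pow_add, pow_mul, ← map_pow, X.y_pow hu]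
  have h5 : X.V.v (X.B X.s (u + algebraMap k Ω (X.y u) * X.s)) ≤ X.sz (2 ^ X.N + 2 ^ X.r / 2) := by
    rw [X.B_add, X.mem_W.1 hu, zero_add, B_prod52, X.sum_main52]
    have e2 : algebraMap k Ω (X.cf X.r X.N) * X.s ^ 2 ^ X.r *
        (algebraMap k Ω (X.y u) * X.s) ^ 2 ^ X.N + algebraMap k Ω (X.cf X.N X.r) * X.s ^ 2 ^ X.N *
        (algebraMap k Ω (X.y u) * X.s) ^ 2 ^ X.r = 0 := by
      rw [CharTwo.add_eq_zero, mul_pow, mul_pow, e, X.wd.symm X.N]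
      ring
    rw [e2, zero_add]
    exact X.V.v.map_sum_le fun p hp => X.v_minor52 (X.V.const_le _) hp
  rw [h4, X.sz_le] at h5
  have h0 : (0 : ℝ) < 2 ^ X.r := by positivity
  nlinarith

/-- No element of the field with `2 ^ j` elements other than `0`, `1` is fixed. -/
theorem no_fixed {t : k} (ht : t ^ 2 ^ X.j = t) (hφ : X.φ t = t) : t = 0 ∨ t = 1 := by
  have := X.ch
  obtain ⟨u, hu, rfl⟩ := X.y_surj ht
  have key : ∀ {w w' : Ω}, w ∈ X.W → w' ∈ X.W → X.π w + w = X.π w' + w' →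
      w + w' = 0 ∨ w + w' = X.s := fun {w w'} hw hw' h => by
    refine X.π_fixed (X.W.add_mem hw hw') ?_
    have h2 : (2 : Ω) = 0 := CharTwo.two_eq_zero
    rw [show X.π (w + w') = w + w' by rw [map_add]; linear_combination h + (X.π w' - w) * h2]
  have hy : ∀ {w : Ω}, w ∈ X.W → X.φ (X.y w) = X.y w → X.y (X.π w + w) = 0 := fun {w} hw h => by
    rw [X.y_add (X.π_mem hw) hw, X.y_π hw, h, CharTwo.add_self_eq_zero]
  let δ : {w : X.W // X.y w = 0} → {w : X.W // X.y w = 0} := fun w =>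
    ⟨⟨X.π w.1 + w.1, X.W.add_mem (X.π_mem w.1.2) w.1.2⟩, hy w.1.2 (by rw [w.2, map_zero])⟩
  have hinj : Function.Injective δ := fun w w' h => by
    rcases key w.1.2 w'.1.2 (congrArg (fun z => (z.1 : Ω)) h) with h1 | h1
    · exact Subtype.ext (Subtype.ext (CharTwo.add_eq_zero.1 h1))
    · have h2 := X.y_add w.1.2 w'.1.2
      rw [h1, X.y_s, w.2, w'.2, add_zero] at h2
      exact absurd h2 one_ne_zero
  obtain ⟨w, hw⟩ := Finite.surjective_of_injective hinj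
    ⟨⟨X.π u + u, X.W.add_mem (X.π_mem hu) hu⟩, hy hu hφ⟩
  have h2 := X.y_add w.1.2 hu
  rw [w.2, zero_add] at h2
  rcases key w.1.2 hu (congrArg (fun z => (z.1 : Ω)) hw) with h1 | h1
  · left
    rw [← h2, h1]
    exact X.y_of_lt (by simpa using X.sz_pos 1)
  · right
    rw [← h2, h1, X.y_s]

end Cx

end W28

end Pool.Agent.Lib.MP_346d6a_co
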