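import Pool.Agent.Lib.MP_346d6a_co.W28Root
import Pool.Agent.Lib.MP_346d6a_co.W28Fq

/-!
The sizes of the roots at infinity: the small roots, and arithmetic consequences.
-/

set_option maxSynthPendingDepth 3

namespace Pool.Agent.Lib.MP_346d6a_co

open Polynomial

namespace W28

namespace Cx

variable {k Ω : Type} [Field k] [IsAlgClosed k] [CharP k 2] [Field Ω] [IsAlgClosed Ω] [Algebra k Ω]
  (X : Cx k Ω)

omit [IsAlgClosed k] [CharP k 2] [IsAlgClosed Ω] in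
theorem small_term {u : Ω} {x : ℝ} (hu : X.V.v u = X.sz x) {c i : ℕ} (h : X.cf c i ≠ 0) :
    X.V.v (algebraMap k Ω (X.cf c i) * X.s ^ 2 ^ c * u ^ 2 ^ i) = X.sz (2 ^ c + 2 ^ i * x) := by
  rw [map_mul, map_mul, X.V.const _ h, one_mul, X.v_s_pow, map_pow, hu, X.sz_pow, ← X.sz_add]
  push_cast
  rfl

omit [IsAlgClosed k] [CharP k 2] [IsAlgClosed Ω] in
/-- An element with a dominant term is not a root. -/
theorem small_dom {u : Ω} {x : ℝ} (hu : X.V.v u = X.sz x) {c0 i0 : ℕ} (h0 : X.cf c0 i0 ≠ 0)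
    (h : ∀ c i, X.cf c i ≠ 0 → ¬ (i = i0 ∧ c = c0) →
      (2 : ℝ) ^ c + 2 ^ i * x < 2 ^ c0 + 2 ^ i0 * x) : u ∉ X.W := by
  intro hW
  rw [mem_W, B_eq', ← Finset.sum_product'] at hW
  have hm : (i0, c0) ∈ Finset.range (X.N + 1) ×ˢ Finset.range (X.N + 1) := by
    rw [Finset.mem_product, Finset.mem_range, Finset.mem_range]
    exact ⟨Nat.lt_succ_of_le (X.wd.supp _ _ h0), Nat.lt_succ_of_le (X.supp' h0)⟩
  have h1 := X.V.v.map_sum_eq_of_lt (f := fun p : ℕ × ℕ =>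
    algebraMap k Ω (X.cf p.2 p.1) * X.s ^ 2 ^ p.2 * u ^ 2 ^ p.1) hm (fun p hp => by
      rw [X.small_term hu h0]
      by_cases h2 : X.cf p.2 p.1 = 0
      · rw [h2, map_zero, zero_mul, zero_mul, map_zero]
        exact X.sz_pos _
      · rw [X.small_term hu h2, X.sz_lt]
        refine h _ _ h2 fun e => ?_
        rw [Finset.mem_sdiff, Finset.mem_singleton] at hp
        exact hp.2 (Prod.ext e.1 e.2))
  rw [hW, map_zero, X.small_term hu h0] at h1
  exact X.sz_ne _ h1.symm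

theorem v_ge {u : Ω} (hu : u ∈ X.W) (h0 : u ≠ 0) : X.sz (-X.ν) ≤ X.V.v u := by
  by_contra hn
  rw [not_le, ← X.sz_lg h0, X.sz_lt] at hn
  refine X.small_dom (X.sz_lg h0).symm X.wd.bot (fun c i h h1 => ?_) hu
  have hi : (1 : ℝ) ≤ 2 ^ i := one_le_pow₀ one_le_two
  rw [pow_zero, one_mul]
  by_cases h2 : i = X.a ∧ c = X.a + X.D
  · obtain ⟨rfl, rfl⟩ := h2
    have := X.ν_mul
    have := X.q_gt
    nlinarith
  · have := X.hull h h1 h2
    unfold α at this
    nlinarith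

theorem v_gap {u : Ω} (hu : u ∈ X.W) (h : X.sz (-X.ν) < X.V.v u) :
    X.sz (-2 ^ X.D) ≤ X.V.v u := by
  have h0 : u ≠ 0 := fun e => by
    rw [e, map_zero] at h
    exact absurd h (not_lt.2 zero_le)
  by_contra hn
  rw [not_le, ← X.sz_lg h0, X.sz_lt] at hn
  rw [← X.sz_lg h0, X.sz_lt] at h
  refine X.small_dom (X.sz_lg h0).symm X.wd.edge (fun c i h1 h2 => ?_) hu
  have hw : (2 : ℝ) ^ c ≤ 2 ^ i * 2 ^ X.D := by
    rw [← pow_add]
    exact pow_le_pow_right₀ one_le_two (X.wd.wid c i h1)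
  rcases lt_trichotomy i X.a with h3 | h3 | h3
  · have h4 : (2 : ℝ) ^ i < 2 ^ X.a := pow_lt_pow_right₀ one_lt_two h3
    have h5 : (2 : ℝ) ^ c - 2 ^ i * X.ν ≤ -X.α := by
      by_cases h6 : i = 0 ∧ c = X.j0
      · obtain ⟨rfl, rfl⟩ := h6
        unfold α
        rw [pow_zero]
        linarith
      · exact (X.hull h1 h6 h2).le
    have := X.qν
    nlinarith
  · have h4 : c < X.a + X.D := lt_of_le_of_ne (h3 ▸ X.wd.wid c i h1) fun e => h2 ⟨h3, e⟩
    have : (2 : ℝ) ^ c < 2 ^ (X.a + X.D) := pow_lt_pow_right₀ one_lt_two h4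
    rw [h3]
    linarith
  · have h4 : (2 : ℝ) ^ X.a < 2 ^ i := pow_lt_pow_right₀ one_lt_two h3
    rw [pow_add]
    nlinarith

omit [IsAlgClosed k] [CharP k 2] [IsAlgClosed Ω] in
theorem small_n_add : 2 ^ (X.a + X.D) - 2 ^ X.j0 + 2 ^ X.j0 = 2 ^ (X.a + X.D) :=
  Nat.sub_add_cancel (Nat.pow_le_pow_right two_pos (by have := X.wd.wild; omega))

omit [IsAlgClosed k] [CharP k 2] [IsAlgClosed Ω] in
theorem small_q_add : 2 ^ X.a - 1 + 1 = 2 ^ X.a := Nat.sub_add_cancel Nat.one_le_two_pow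

omit [IsAlgClosed k] [CharP k 2] [IsAlgClosed Ω] in
theorem small_edge : algebraMap k Ω (X.cf (X.a + X.D) X.a) * X.s ^ 2 ^ (X.a + X.D) *
    X.c ^ 2 ^ X.a = X.b := by
  have h1 : X.s * X.V.τ ^ (2 ^ X.a - 1) = 1 := inv_mul_cancel₀ (pow_ne_zero _ X.V.τ_ne)
  have h2 := congrArg (algebraMap k Ω) X.θ_eq
  rw [map_mul, map_mul, map_pow] at h2
  have h3 : X.V.τ ^ 2 ^ X.a = X.V.τ ^ (2 ^ X.a - 1) * X.V.τ := by
    rw [← pow_succ, X.small_q_add]
  rw [b, c]
  generalize hn : 2 ^ (X.a + X.D) - 2 ^ X.j0 = n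
  have h4 : 2 ^ (X.a + X.D) = n + 2 ^ X.j0 := by rw [← hn, X.small_n_add]
  have h5 : X.s ^ n * (X.V.τ ^ (2 ^ X.a - 1)) ^ n = 1 := by rw [← mul_pow, h1, one_pow]
  rw [h4, pow_add, mul_pow, ← pow_mul, mul_comm n, pow_mul, h3, mul_pow]
  linear_combination (X.s ^ 2 ^ X.j0 * X.V.τ ^ n * (X.s ^ n * (X.V.τ ^ (2 ^ X.a - 1)) ^ n)) * h2 +
    (algebraMap k Ω (X.cf X.j0 0) * algebraMap k Ω X.θ * X.V.τ ^ n * X.s ^ 2 ^ X.j0) * h5

omit [IsAlgClosed k] [CharP k 2] [IsAlgClosed Ω] in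
theorem small_coef (i : ℕ) : X.V.v (X.rw i X.s * X.c ^ 2 ^ i / X.b -
    algebraMap k Ω ((if i = X.a then 1 else 0) + if i = 0 then 1 else 0)) < 1 := by
  have ha := X.a_pos
  have h1 := X.V.res_sum (Finset.range (X.N + 1))
    (x := fun c => algebraMap k Ω (X.cf c i) * X.s ^ 2 ^ c * X.c ^ 2 ^ i / X.b)
    (a := fun c => (if X.a + X.D = c then (if i = X.a then 1 else 0) else 0) +
      if X.j0 = c then (if i = 0 then 1 else 0) else 0) (fun c _ => by
      by_cases h1 : i = X.a ∧ c = X.a + X.D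
      · obtain ⟨rfl, rfl⟩ := h1
        rw [X.small_edge, div_self X.b_ne, if_pos rfl, if_pos rfl, if_neg (by omega : ¬ X.a = 0),
          ite_self, add_zero, map_one, sub_self, map_zero]
        exact zero_lt_one
      by_cases h2 : i = 0 ∧ c = X.j0
      · obtain ⟨rfl, rfl⟩ := h2
        rw [pow_zero, pow_one, mul_right_comm, ← b, div_self X.b_ne, if_pos rfl, if_pos rfl,
          if_neg (by omega : ¬ 0 = X.a), ite_self, zero_add, map_one, sub_self, map_zero]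
        exact zero_lt_one
      have e1 : (if X.a + X.D = c then (if i = X.a then (1 : k) else 0) else 0) = 0 := by
        split_ifs with h3 h4
        · exact absurd ⟨h4, h3.symm⟩ h1
        · rfl
        · rfl
      have e2 : (if X.j0 = c then (if i = 0 then (1 : k) else 0) else 0) = 0 := by
        split_ifs with h3 h4
        · exact absurd ⟨h4, h3.symm⟩ h2
        · rfl
        · rfl
      rw [e1, e2, add_zero, map_zero, sub_zero, X.div_b_lt]
      by_cases h3 : X.cf c i = 0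
      · rw [h3, map_zero, zero_mul, zero_mul, map_zero]
        exact X.sz_pos _
      · rw [X.small_term X.v_c h3, X.sz_lt]
        have := X.hull h3 h2 h1
        linarith)
  rw [Finset.sum_add_distrib, Finset.sum_ite_eq, Finset.sum_ite_eq,
    if_pos (Finset.mem_range.2 (Nat.lt_succ_of_le X.aD_le)),
    if_pos (Finset.mem_range.2 (Nat.lt_succ_of_le (X.supp' X.wd.bot))), ← Finset.sum_div,
    ← Finset.sum_mul, ← X.rw_eq] at h1
  exact h1

omit [IsAlgClosed k] [CharP k 2] [IsAlgClosed Ω] in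
/-- The polynomial form of the first level of the reduction. -/
theorem small_red : ∃ (P : Polynomial Ω) (p : k[X]), X.V.Red P p ∧ p ≠ 0 ∧
    (∀ t, P.eval t = X.B X.s (X.c * t) / X.b) ∧ ∀ w, p.eval w = w ^ 2 ^ X.a + w := by
  have ha := X.a_pos
  have hN : X.a ∈ Finset.range (X.N + 1) :=
    Finset.mem_range.2 (by have := X.aD_le; omega)
  have h0 : 0 ∈ Finset.range (X.N + 1) := Finset.mem_range.2 (Nat.succ_pos _)
  refine ⟨∑ i ∈ Finset.range (X.N + 1), monomial (2 ^ i) (X.rw i X.s * X.c ^ 2 ^ i / X.b),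
    ∑ i ∈ Finset.range (X.N + 1),
      monomial (2 ^ i) ((if i = X.a then 1 else 0) + if i = 0 then 1 else 0),
    fun e => ?_, fun e => ?_, fun t => ?_, fun w => ?_⟩
  · rw [finsetSum_coeff, finsetSum_coeff]
    refine X.V.res_sum _ fun i _ => ?_
    rw [coeff_monomial, coeff_monomial]
    by_cases h : 2 ^ i = e
    · rw [if_pos h, if_pos h]
      exact X.small_coef i
    · rw [if_neg h, if_neg h]
      simp
  · have h1 := congrArg (fun p : k[X] => p.coeff (2 ^ 0)) e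
    simp only [finsetSum_coeff, coeff_monomial, Nat.pow_right_inj one_lt_two, Finset.sum_ite_eq',
      if_pos h0, coeff_zero, if_neg (by omega : ¬ 0 = X.a), if_true, zero_add] at h1
    exact one_ne_zero h1
  · rw [eval_finsetSum, B_eq, Finset.sum_div]
    refine Finset.sum_congr rfl fun i _ => ?_
    rw [eval_monomial, mul_pow]
    ring
  · rw [eval_finsetSum]
    simp only [eval_monomial, add_mul, ite_mul, one_mul, zero_mul, Finset.sum_add_distrib,
      Finset.sum_ite_eq', if_pos hN, if_pos h0, pow_zero, pow_one]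

/-- The first level of the reduction: `B (s, c t) / b ≡ t ^ q + t`. -/
theorem red_first {t : Ω} (ht : X.V.v t ≤ 1) :
    X.V.v (X.B X.s (X.c * t) / X.b - (t ^ 2 ^ X.a + t)) < 1 := by
  obtain ⟨P, p, h1, -, h3, h4⟩ := X.small_red
  have h5 := rs_spec ht
  have h6 := h1.eval h5
  rw [h3, h4] at h6
  have := X.V.v.map_sub_lt h6 (X.V.res_add (X.V.res_pow h5 (2 ^ X.a)) h5)
  rwa [sub_sub_sub_cancel_right] at this

theorem small_unique {u u' : Ω} (hu : u ∈ X.W) (hu' : u' ∈ X.W) {w : k}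
    (h : X.V.v (u / X.c - algebraMap k Ω w) < 1) (h' : X.V.v (u' / X.c - algebraMap k Ω w) < 1) :
    u = u' := by
  have h1 := X.V.v.map_sub_lt h h'
  rw [sub_sub_sub_cancel_right, ← sub_div, X.div_c_lt] at h1
  by_contra hn
  exact absurd (X.v_ge (X.W.sub_mem hu hu') (sub_ne_zero.2 hn)) (not_le.2 h1)

/-- The smallest roots form a copy of the field with `2 ^ a` elements. -/
theorem exists_io : ∃ io : Fq k X.a →+ X.W,
    (∀ w, X.V.v ((io w : Ω) / X.c - algebraMap k Ω (w : k)) < 1) ∧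
    ∀ (u : X.W) (w : Fq k X.a), X.V.v ((u : Ω) / X.c - algebraMap k Ω (w : k)) < 1 → io w = u := by
  obtain ⟨P, p, h1, h2, h3, h4⟩ := X.small_red
  have h5 : ∀ w : Fq k X.a, ∃ u : X.W, X.V.v ((u : Ω) / X.c - algebraMap k Ω (w : k)) < 1 := by
    intro w
    obtain ⟨y, h6, h7⟩ := X.V.lift_root P p h2 h1 w (by
      rw [h4, mem_Fq.1 w.2, CharTwo.add_self_eq_zero])
    rw [h3, div_eq_zero_iff, or_iff_left X.b_ne] at h6
    exact ⟨⟨X.c * y, h6⟩, by rwa [mul_div_cancel_left₀ _ X.c_ne]⟩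
  choose f hf using h5
  refine ⟨AddMonoidHom.mk' f fun w w' => Subtype.ext ?_, hf, fun u w h => Subtype.ext ?_⟩
  · refine X.small_unique (f _).2 (f w + f w').2 (hf _) ?_
    have := X.V.res_add (hf w) (hf w')
    rwa [← add_div] at this
  · exact X.small_unique (f _).2 u.2 (hf _) h

theorem small_res {u : Ω} (hu : u ∈ X.W) (h : X.V.v u ≤ X.sz (-X.ν)) :
    ∃ w : Fq k X.a, X.V.v (u / X.c - algebraMap k Ω (w : k)) < 1 := by
  obtain ⟨P, p, h1, -, h3, h4⟩ := X.small_red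
  have h5 := rs_spec (X.div_c_le.2 h)
  have h6 := h1.root h5 (by rw [h3, mul_div_cancel₀ _ X.c_ne, X.mem_W.1 hu, zero_div])
  rw [h4, CharTwo.add_eq_zero] at h6
  exact ⟨⟨_, mem_Fq.2 h6⟩, h5⟩

open Classical in
theorem card_small :
    (Finset.univ.filter fun u : X.W => X.V.v (u : Ω) ≤ X.sz (-X.ν)).card = 2 ^ X.a := by
  obtain ⟨io, h1, h2⟩ := X.exists_io
  have := finite_Fq (k := k) X.a_pos
  have := Fintype.ofFinite (Fq k X.a)
  have hinj : Function.Injective io := fun w w' e =>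
    Subtype.ext (X.V.res_unique' (h1 w) (e ▸ h1 w'))
  rw [← card_Fq (k := k) X.a_pos, Nat.card_eq_fintype_card, ← Finset.card_univ,
    ← Finset.card_image_of_injective _ hinj]
  congr 1
  ext u
  simp only [Finset.mem_filter, Finset.mem_univ, true_and, Finset.mem_image]
  constructor
  · intro h
    obtain ⟨w, hw⟩ := X.small_res u.2 h
    exact ⟨w, h2 u w hw⟩
  · rintro ⟨w, rfl⟩
    exact X.div_c_le.1 (X.V.le_one_of_res (h1 w))

theorem δ_mem : (X.φ X.θ / X.θ) ^ 2 ^ X.a = X.φ X.θ / X.θ := by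
  have h1 := X.θ_eq
  have h2 := congrArg X.φ h1
  rw [map_mul, map_mul, map_pow, X.wd.fix, X.wd.fix] at h2
  rw [div_pow, div_eq_div_iff (pow_ne_zero _ X.θ_ne) X.θ_ne]
  apply mul_left_cancel₀ X.wd.edge
  linear_combination X.θ * h2 - X.φ X.θ * h1

omit [IsAlgClosed k] [CharP k 2] [IsAlgClosed Ω] in
theorem small_scale {z : Ω} {e w : k} (he : e ≠ 0)
    (h : X.V.v (z / (algebraMap k Ω e * X.c) - algebraMap k Ω w) < 1) :
    X.V.v (z / X.c - algebraMap k Ω (e * w)) < 1 := by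
  have h1 := X.lt_const e h
  have h2 : algebraMap k Ω e ≠ 0 := (_root_.map_ne_zero _).2 he
  have h3 := X.c_ne
  rwa [mul_sub, ← map_mul, show algebraMap k Ω e * (z / (algebraMap k Ω e * X.c)) = z / X.c by
    field_simp] at h1

/-- Twists by roots of unity preserve the colours. -/
theorem twist {ζ : k} (h0 : ζ ≠ 0) (hζ : ζ ^ 2 ^ X.a = ζ) : ∃ g : Ω ≃+* Ω,
    (∀ u ∈ X.W, g u ∈ X.W) ∧ (∀ u, col2 k X.s (g u) = col2 k X.s u) ∧
    ∀ (u : Ω) (w : k), X.V.v (u / X.c - algebraMap k Ω w) < 1 →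
      X.V.v (g u / X.c - algebraMap k Ω (ζ ^ (2 ^ (X.a + X.D) - 2 ^ X.j0) * w)) < 1 := by
  obtain ⟨g, h1, h2, h3⟩ := X.tw ζ h0
  have h4 : ζ ^ (2 ^ X.a - 1) = 1 := by
    apply mul_right_cancel₀ h0
    rw [← pow_succ, X.small_q_add, hζ, one_mul]
  have h5 : g X.s = X.s := by
    rw [s, map_inv₀, map_pow, h1, mul_pow, ← map_pow, h4, map_one, one_mul]
  refine ⟨g, fun u hu => ?_, col2_map_id g h2 h5, fun u w h => X.small_scale (pow_ne_zero _ h0) ?_⟩
  · have h6 := congrArg g (X.mem_W.1 hu)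
    rw [mem_W, B_eq']
    simpa only [B_eq', map_sum, map_mul, map_pow, h2, h5, map_zero] using h6
  · rw [← h3, map_sub, map_div₀, h2, c, map_mul, map_pow, h1, h2, mul_pow, ← map_pow, mul_assoc,
      ← c] at h
    exact h

theorem π_small {u : Ω} {w : k} (h : X.V.v (u / X.c - algebraMap k Ω w) < 1) :
    X.V.v (X.π u / X.c - algebraMap k Ω (X.φ X.θ / X.θ * X.φ w)) < 1 := by
  have h1 : X.φ X.θ ≠ 0 := (_root_.map_ne_zero _).2 X.θ_ne
  refine X.small_scale (div_ne_zero h1 X.θ_ne) ?_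
  have h2 : X.π X.c = algebraMap k Ω (X.φ X.θ / X.θ) * X.c := by
    have h3 : algebraMap k Ω X.θ ≠ 0 := (_root_.map_ne_zero _).2 X.θ_ne
    rw [c, map_mul, map_pow, X.πτ, X.πc, map_div₀]
    field_simp
  rwa [← X.πv, map_sub, map_div₀, X.πc, h2] at h

theorem edge_elt : ∃ x : k, x ≠ 0 ∧ x ≠ 1 ∧ x ^ 2 ^ X.a = x ∧ x ^ 2 ^ X.Del = x ∧ X.φ x = x := by
  have hδ : X.φ X.θ / X.θ ≠ 0 := div_ne_zero ((_root_.map_ne_zero _).2 X.θ_ne) X.θ_ne
  rcases edge_alt X.φ X.a_pos (2 ^ (X.a + X.D) - 2 ^ X.j0) hδ X.δ_mem with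
    ⟨ζ, w, h1, h2, h3, h4, h5⟩ | ⟨x, h1, h2, h3, h4, h5⟩
  · exfalso
    obtain ⟨io, h6, -⟩ := X.exists_io
    obtain ⟨g, h8, h9, h10⟩ := X.twist h1 h2
    have h11 := h6 ⟨w, mem_Fq.2 h4⟩
    have hu := (io ⟨w, mem_Fq.2 h4⟩).2
    generalize ((io ⟨w, mem_Fq.2 h4⟩ : X.W) : Ω) = u at h11 hu
    have h12 := h10 _ _ (X.π_small h11)
    rw [← mul_assoc, h5] at h12
    have h13 : g (X.π u) = u := X.small_unique (h8 _ (X.π_mem hu)) hu h12 h11
    rcases X.π_fixed hu (by rw [← h9 (X.π u), h13]) with rfl | rfl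
    · rw [zero_div, zero_sub, Valuation.map_neg] at h11
      exact h3 (X.V.eq_zero_of_lt h11)
    · have h14 := X.div_c_le.1 (X.V.le_one_of_res h11)
      rw [← X.sz_one, X.sz_le] at h14
      have := X.ν_gt
      have : (0 : ℝ) < 2 ^ X.D := by positivity
      linarith
  · refine ⟨x, h1, h2, h3, (iterateFrobenius k 2 X.j0).injective ?_, h5⟩
    rw [iterateFrobenius_def, iterateFrobenius_def, ← pow_mul, ← pow_add, add_comm, ← X.D_eq]
    have h6 : x ^ 2 ^ (X.a + X.D) = x ^ 2 ^ X.j0 := by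
      rw [← X.small_n_add, pow_add, h4, one_mul]
    rwa [pow_add, pow_mul, h3] at h6

omit [IsAlgClosed k] [CharP k 2] in
theorem small_sq {x : k} (h0 : x ≠ 0) (h1 : x ≠ 1) (h : x ^ 2 ^ 1 = x) : False := by
  apply h1
  apply mul_left_cancel₀ h0
  rw [mul_one, ← pow_two]
  exact h

theorem two_le_a : 2 ≤ X.a := by
  obtain ⟨x, h1, h2, h3, -, -⟩ := X.edge_elt
  by_contra h
  have h4 : X.a = 1 := by have := X.a_pos; omega
  exact small_sq h1 h2 (h4 ▸ h3)

theorem two_le_Del : 2 ≤ X.Del := by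
  obtain ⟨x, h1, h2, -, h3, -⟩ := X.edge_elt
  by_contra h
  have h4 : X.Del = 1 := by have := X.Del_pos; omega
  exact small_sq h1 h2 (h4 ▸ h3)

theorem a_ne_j : X.a ≠ X.j := by
  obtain ⟨x, h1, h2, h3, -, h5⟩ := X.edge_elt
  intro h
  exact (X.no_fixed (h ▸ h3) h5).elim h1 h2

theorem Del_ge (h : X.j ∣ X.Del) : 2 * X.j ≤ X.Del := by
  obtain ⟨x, h1, h2, -, h4, h5⟩ := X.edge_elt
  obtain ⟨m, hm⟩ := h
  have h6 := X.Del_pos
  rcases m with _ | _ | m
  · omega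
  · rw [zero_add, mul_one] at hm
    exact ((X.no_fixed (hm ▸ h4) h5).elim h1 h2).elim
  · rw [hm]
    nlinarith [Nat.zero_le (X.j * m)]

theorem Del_ge' (h : X.j ∣ X.Del) (h2 : 2 ≤ X.j) : X.j + 3 ≤ X.Del := by
  have h3 := X.Del_ge h
  by_contra hn
  have h4 : X.j = 2 := by omega
  have h5 : X.Del = 4 := by omega
  obtain ⟨x, h6, h7, -, h8, h9⟩ := X.edge_elt
  obtain ⟨t, h10, h11, h12, h13⟩ := sixteen X.φ h6 h7 (h5 ▸ h8) h9
  exact (X.no_fixed (h4 ▸ h12) h13).elim h10 h11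

end Cx

end W28

end Pool.Agent.Lib.MP_346d6a_co
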