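import Pool.Agent.Lib.MP_346d6a_co.W28Small
import Pool.Agent.Lib.MP_346d6a_co.W28LB

/-!
The first radius.
-/

set_option maxSynthPendingDepth 3

namespace Pool.Agent.Lib.MP_346d6a_co

open Polynomial

namespace W28

namespace Cx

section basic

variable {k Ω : Type} [Field k] [Field Ω] [Algebra k Ω] (X : Cx k Ω)

theorem xi_rw_le {i : ℕ} {x : Ω} {t T : ℝ} (hx : X.V.v x ≤ X.sz t)
    (h : ∀ c, X.cf c i ≠ 0 → 2 ^ c * t ≤ T) : X.V.v (X.rw i x) ≤ X.sz T := by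
  rw [rw_eq]
  refine Valuation.map_sum_le _ fun c _ => ?_
  by_cases hc : X.cf c i = 0
  · simp [hc]
  refine X.le_const _ ((X.le_pow hx _).trans (X.sz_le.2 ?_))
  push_cast
  exact h c hc

theorem xi_rw_lt {i : ℕ} {x : Ω} {t T : ℝ} (hx : X.V.v x < X.sz t)
    (h : ∀ c, X.cf c i ≠ 0 → 2 ^ c * t ≤ T) : X.V.v (X.rw i x) < X.sz T := by
  rw [rw_eq]
  refine Valuation.map_sum_lt _ (X.sz_ne T) fun c _ => ?_
  by_cases hc : X.cf c i = 0
  · simpa [hc] using X.sz_pos T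
  refine X.lt_const _ ((X.lt_pow hx (by positivity)).trans_le (X.sz_le.2 ?_))
  push_cast
  exact h c hc

theorem xi_sum_le (g : ℕ → k) (S : Finset ℕ) {T : ℝ} (h : ∀ c ∈ S, g c ≠ 0 → 2 ^ c ≤ T) :
    X.V.v (∑ c ∈ S, algebraMap k Ω (g c) * X.s ^ 2 ^ c) ≤ X.sz T := by
  refine Valuation.map_sum_le _ fun c hc => ?_
  by_cases h0 : g c = 0
  · simp [h0]
  refine X.le_const _ ((X.v_s_pow _).trans_le (X.sz_le.2 ?_))
  push_cast
  exact h c hc h0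

/-- The coefficient of `s ^ 2 ^ c` in the variation. -/
noncomputable def xc (i : ℕ) (u : Ω) (c : ℕ) : k :=
  X.cf c i * (X.y u ^ 2 ^ c + X.y u ^ 2 ^ (X.D + i))

theorem Xi_eq (i : ℕ) (u : Ω) : X.Xi i u = X.rw i (u + algebraMap k Ω (X.y u) * X.s) +
    ∑ c ∈ Finset.range (X.N + 1), algebraMap k Ω (X.xc i u c) * X.s ^ 2 ^ c := by
  have := X.ch
  simp only [Xi, rw_eq, Finset.mul_sum, ← Finset.sum_add_distrib]
  refine Finset.sum_congr rfl fun c _ => ?_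
  simp only [xc, add_pow_char_pow, mul_pow, map_mul, map_add, map_pow]
  linear_combination (-(algebraMap k Ω (X.cf c i) * algebraMap k Ω (X.y u) ^ 2 ^ c *
    X.s ^ 2 ^ c)) * (CharTwo.two_eq_zero (R := Ω))

theorem Xi_eq' (i : ℕ) (u : Ω) (e : ℕ) : X.Xi i u - algebraMap k Ω (X.xc i u e) * X.s ^ 2 ^ e =
    X.rw i (u + algebraMap k Ω (X.y u) * X.s) +
    ∑ c ∈ (Finset.range (X.N + 1)).erase e, algebraMap k Ω (X.xc i u c) * X.s ^ 2 ^ c := by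
  rw [Xi_eq]
  by_cases h : X.cf e i = 0
  · have h0 : algebraMap k Ω (X.xc i u e) * X.s ^ 2 ^ e = 0 := by simp [xc, h]
    rw [Finset.sum_erase (f := fun c => algebraMap k Ω (X.xc i u c) * X.s ^ 2 ^ c) _ h0, h0,
      sub_zero]
  · rw [← Finset.add_sum_erase _ _ (Finset.mem_range.2 (Nat.lt_succ_of_le (X.supp' h)))]
    ring

theorem Xi_of_y {i : ℕ} {u : Ω} (h : X.y u = 0) : X.Xi i u = X.rw i u := by
  simp [Xi, h]

variable [CharP k 2]

theorem xc_ne {i c : ℕ} {u : Ω} (h : X.xc i u c ≠ 0) :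
    X.cf c i ≠ 0 ∧ X.y u ^ 2 ^ c ≠ X.y u ^ 2 ^ (X.D + i) :=
  ⟨left_ne_zero_of_mul h, fun e => h (by rw [xc, e, CharTwo.add_self_eq_zero, mul_zero])⟩

theorem xi_le {i : ℕ} {u : Ω} {t T : ℝ}
    (hu : X.V.v (u + algebraMap k Ω (X.y u) * X.s) ≤ X.sz t)
    (h1 : ∀ c, X.cf c i ≠ 0 → 2 ^ c * t ≤ T)
    (h2 : ∀ c, X.cf c i ≠ 0 → X.y u ^ 2 ^ c ≠ X.y u ^ 2 ^ (X.D + i) → 2 ^ c ≤ T) :
    X.V.v (X.Xi i u) ≤ X.sz T := by
  rw [Xi_eq]
  exact Valuation.map_add_le _ (X.xi_rw_le hu h1)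
    (X.xi_sum_le _ _ fun c _ hc => h2 c (X.xc_ne hc).1 (X.xc_ne hc).2)

theorem xi_sub_le {i : ℕ} {u : Ω} {t T : ℝ} (e : ℕ)
    (hu : X.V.v (u + algebraMap k Ω (X.y u) * X.s) ≤ X.sz t)
    (h1 : ∀ c, X.cf c i ≠ 0 → 2 ^ c * t ≤ T)
    (h2 : ∀ c, c ≠ e → X.cf c i ≠ 0 → X.y u ^ 2 ^ c ≠ X.y u ^ 2 ^ (X.D + i) → 2 ^ c ≤ T) :
    X.V.v (X.Xi i u - algebraMap k Ω (X.xc i u e) * X.s ^ 2 ^ e) ≤ X.sz T := by
  rw [Xi_eq']
  exact Valuation.map_add_le _ (X.xi_rw_le hu h1)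
    (X.xi_sum_le _ _ fun c hc0 hc =>
      h2 c (Finset.ne_of_mem_erase hc0) (X.xc_ne hc).1 (X.xc_ne hc).2)

end basic

theorem two_pow_half {c e : ℕ} (h : c < e) : (2 : ℝ) ^ c ≤ 2 ^ e / 2 := by
  have : (2 : ℝ) ^ (c + 1) ≤ 2 ^ e := pow_le_pow_right₀ one_le_two h
  rw [pow_succ] at this
  linarith

theorem two_pow_mono {c e : ℕ} (h : c ≤ e) : (2 : ℝ) ^ c ≤ 2 ^ e := pow_le_pow_right₀ one_le_two h

variable {k Ω : Type} [Field k] [IsAlgClosed k] [CharP k 2] [Field Ω] [IsAlgClosed Ω] [Algebra k Ω]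
  (X : Cx k Ω)

theorem Xi_add (i : ℕ) {u w : Ω} (hu : u ∈ X.W) (hw : w ∈ X.W) :
    X.Xi i (u + w) = X.Xi i u + X.Xi i w := by
  rw [Xi, Xi, Xi, X.rw_add, X.y_add hu hw, add_pow_char_pow, map_add]
  ring

/-- The general bound. -/
theorem xi_gen (i : ℕ) {u : Ω} (hu : u ∈ X.W) : X.V.v (X.Xi i u) ≤ X.sz (2 ^ (X.D + i) / 2) := by
  refine X.xi_le (X.v_sub_le hu) (fun c hc => ?_) fun c hc hy => ?_
  · have := two_pow_mono (show c ≤ X.D + i by have := X.wd.wid c i hc; omega)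
    linarith
  · refine two_pow_half (lt_of_le_of_ne (by have := X.wd.wid c i hc; omega) ?_)
    rintro rfl
    exact hy rfl

/-- The bound in the case `j = 1`. -/
theorem xi_one (hj : X.j = 1) (i : ℕ) {u : Ω} (hu : u ∈ X.W) : X.V.v (X.Xi i u) ≤ X.sz 0 := by
  have h1 : X.y u ^ 2 ^ 1 = X.y u := hj ▸ X.y_pow hu
  have h2 : ∀ c, X.y u ^ 2 ^ c = X.y u := fun c => fixed_of_dvd (one_dvd c) h1
  have h3 : X.y u = 0 ∨ X.y u = 1 := by
    have : X.y u * (X.y u - 1) = 0 := by linear_combination h1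
    exact (mul_eq_zero.1 this).imp id sub_eq_zero.1
  refine X.xi_le (t := 0) ?_ (fun c _ => by simp) fun c _ hy => absurd (by rw [h2, h2]) hy
  rw [X.sz_zero]
  rcases h3 with h | h
  · simpa [h] using X.v_le_one hu h
  · rw [h, map_one, one_mul]
    refine X.v_le_one (X.W.add_mem hu X.s_mem) ?_
    rw [X.y_add hu X.s_mem, h, X.y_s, CharTwo.add_self_eq_zero]

omit [IsAlgClosed k] [CharP k 2] in
/-- Choice of the radius. -/
theorem exists_l (h : ∃ u ∈ X.W, X.Xi 0 u ≠ 0) : ∃ l : Ω,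
    (∀ u ∈ X.W, X.V.v (l * X.Xi 0 u / X.b) ≤ 1) ∧
    (∀ u ∈ X.W, X.V.v (l ^ 2 * X.Xi 1 u / X.b) ≤ 1) ∧
    ∃ u ∈ X.W, X.V.v (l * X.Xi 0 u / X.b) = 1 ∨ X.V.v (l ^ 2 * X.Xi 1 u / X.b) = 1 := by
  obtain ⟨u0, hu0⟩ := Finite.exists_max fun u : X.W => X.V.v (X.Xi 0 u)
  obtain ⟨u1, hu1⟩ := Finite.exists_max fun u : X.W => X.V.v (X.Xi 1 u)
  obtain ⟨w, hw, hw0⟩ := h
  have h0 : X.Xi 0 u0 ≠ 0 := fun e => hw0 <| by
    have := hu0 ⟨w, hw⟩
    rw [e, map_zero] at this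
    simpa using this
  have mono : ∀ (l x z : Ω), X.V.v x ≤ X.V.v z → X.V.v (l * x / X.b) ≤ X.V.v (l * z / X.b) :=
    fun l x z hxz => by
      simp only [map_div₀, map_mul]
      gcongr
  have e0 : X.V.v (X.b / X.Xi 0 u0 * X.Xi 0 u0 / X.b) = 1 := by
    rw [div_mul_cancel₀ _ h0, div_self X.b_ne, map_one]
  by_cases hc : X.V.v ((X.b / X.Xi 0 u0) ^ 2 * X.Xi 1 u1 / X.b) ≤ 1
  · exact ⟨X.b / X.Xi 0 u0, fun u hu => (mono _ _ _ (hu0 ⟨u, hu⟩)).trans e0.le,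
      fun u hu => (mono _ _ _ (hu1 ⟨u, hu⟩)).trans hc, u0, u0.2, Or.inl e0⟩
  have h1 : X.Xi 1 u1 ≠ 0 := fun e => hc (by simp [e])
  obtain ⟨l, hl⟩ := IsAlgClosed.exists_pow_nat_eq (X.b / X.Xi 1 u1) two_pos
  have e1 : X.V.v (l ^ 2 * X.Xi 1 u1 / X.b) = 1 := by
    rw [hl, div_mul_cancel₀ _ h1, div_self X.b_ne, map_one]
  refine ⟨l, fun u hu => (mono _ _ _ (hu0 ⟨u, hu⟩)).trans (le_trans ?_ e0.le),
    fun u hu => (mono _ _ _ (hu1 ⟨u, hu⟩)).trans e1.le, u1, u1.2, Or.inr e1⟩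
  have h2 : X.V.v l ≤ X.V.v (X.b / X.Xi 0 u0) := by
    by_contra h3
    refine hc (le_trans ?_ e1.le)
    have := (not_le.1 h3).le
    generalize X.b / X.Xi 0 u0 = l0 at this ⊢
    simp only [map_div₀, map_mul, map_pow]
    gcongr
  generalize X.b / X.Xi 0 u0 = l0 at h2 ⊢
  simp only [map_div₀, map_mul]
  gcongr

/-- The case where `j` does not divide the excess. -/
theorem rad_one (h : ¬ X.j ∣ X.Del) : ∃ l, X.Rad l := by
  obtain ⟨t, ht, ht'⟩ := exists_not_fixed (k := k) X.j_pos h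
  obtain ⟨w, hw, rfl⟩ := X.y_surj ht
  have hx : X.xc 0 w X.j0 ≠ 0 := by
    refine mul_ne_zero X.wd.bot fun e => ht' ?_
    rw [add_zero, X.D_eq, add_comm X.j0, pow_add, pow_mul, ← add_pow_char_pow] at e
    have := pow_eq_zero_iff (by positivity) |>.1 e
    exact (CharTwo.add_eq_zero.1 this).symm
  have hj : (0 : ℝ) < 2 ^ X.j0 := by positivity
  have h1 : X.V.v (algebraMap k Ω (X.xc 0 w X.j0) * X.s ^ 2 ^ X.j0) = X.sz (2 ^ X.j0) := by
    rw [map_mul, X.V.const _ hx, one_mul, X.v_s_pow]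
    push_cast
    rfl
  have h2 : X.V.v (X.Xi 0 w - algebraMap k Ω (X.xc 0 w X.j0) * X.s ^ 2 ^ X.j0) ≤
      X.sz (2 ^ X.j0 / 2) := by
    refine X.xi_sub_le X.j0 (X.v_sub_le hw) (fun c hc => ?_) fun c hc0 hc _ =>
      two_pow_half (lt_of_le_of_ne (X.wd.bot' c hc) hc0)
    have := two_pow_mono (X.wd.bot' c hc)
    linarith
  have h3 : X.V.v (X.Xi 0 w) = X.sz (2 ^ X.j0) := by
    rw [← h1]
    refine Valuation.map_eq_of_sub_lt _ ?_
    rw [h1]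
    exact h2.trans_lt (X.sz_lt.2 (by linarith))
  obtain ⟨l, le0, le1, ex⟩ := X.exists_l ⟨w, hw, fun e => X.sz_ne _ (by rw [← h3, e, map_zero])⟩
  have hl : X.V.v l ≤ X.sz (-X.ν) := by
    have h4 := X.div_b_le.1 (le0 w hw)
    rw [map_mul, h3, ← le_div_iff₀ (X.sz_pos _), ← X.sz_sub] at h4
    refine h4.trans (X.sz_le.2 ?_)
    unfold α
    linarith
  have key : ∀ i, 1 ≤ i → ∀ u ∈ X.W, X.V.v (l ^ 2 ^ i * X.Xi i u / X.b) < 1 := fun i hi u hu => by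
    rw [X.div_b_lt, Xi_eq, mul_add, rw_eq, Finset.mul_sum, Finset.mul_sum]
    have hp := X.le_pow hl (2 ^ i)
    refine Valuation.map_add_lt _ (Valuation.map_sum_lt _ (X.sz_ne _) fun c _ => ?_)
      (Valuation.map_sum_lt _ (X.sz_ne _) fun c _ => ?_)
    · by_cases hc : X.cf c i = 0
      · simpa [hc] using X.sz_pos _
      refine (X.le_mul hp (X.le_const _ (X.le_pow (X.v_sub_le hu) _))).trans_lt (X.sz_lt.2 ?_)
      push_cast
      have hc2 : (0 : ℝ) < 2 ^ c := by positivity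
      by_cases h5 : i = X.a ∧ c = X.a + X.D
      · have := X.qν
        rw [h5.2] at hc2
        rw [h5.1, h5.2]
        linarith
      · have := X.hull hc (by omega) h5
        linarith
    · by_cases hc : X.xc i u c = 0
      · simpa [hc] using X.sz_pos _
      obtain ⟨h6, h7⟩ := X.xc_ne hc
      refine (X.le_mul hp (X.le_const _ (X.v_s_pow _).le)).trans_lt (X.sz_lt.2 ?_)
      push_cast
      have := X.hull h6 (by omega) fun e => h7 (by rw [e.1, e.2, add_comm])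
      linarith
  have key1 : ∀ u ∈ X.W, X.V.v (l ^ 2 * X.Xi 1 u / X.b) < 1 := fun u hu => by
    simpa using key 1 le_rfl u hu
  have hα := X.α_pos
  have hν := X.α_lt
  refine ⟨l, le0, le1, ex, fun i hi => key i (by omega), hl.trans_lt (X.sz_lt.2 (by linarith)),
    fun u hu hu' => ⟨?_, key1 u hu⟩, fun _ ⟨u, hu, e⟩ => absurd e (key1 u hu).ne⟩
  have hD : (0 : ℝ) < 2 ^ (X.D - 1) := by positivity
  rw [X.div_b_lt, X.Xi_of_y (X.y_of_lt (hu'.trans (X.sz_lt.2 (by linarith))))]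
  refine (X.le_mul hl (X.xi_rw_le (T := 0) hu'.le fun c _ => ?_)).trans_lt (X.sz_lt.2 (by linarith))
  have : (0 : ℝ) < 2 ^ c := by positivity
  nlinarith

omit [IsAlgClosed k] [CharP k 2] [IsAlgClosed Ω] in
/-- `(q - 1) (α - 2 ^ D) = 2 ^ D - q 2 ^ j0`. -/
theorem α_sub : (X.α - 2 ^ X.D) * (2 ^ X.a - 1) = 2 ^ X.D - 2 ^ (X.a + X.j0) := by
  have := X.ν_sub
  rw [pow_add]
  unfold α
  linarith

omit [IsAlgClosed k] [CharP k 2] [IsAlgClosed Ω] in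
theorem α_ge (h : X.a ≤ X.Del) : (2 : ℝ) ^ X.D ≤ X.α := by
  have h1 := X.α_sub
  have h2 := two_pow_mono (show X.a + X.j0 ≤ X.D by have := X.D_eq; omega)
  have := X.q_gt
  by_contra h3
  nlinarith

theorem Del_eq (ha : X.a ∣ X.Del) (hj : X.j ∣ X.Del)
    (h : X.α - 2 ^ X.D < 2 ^ (X.j + X.j0 + 1)) : X.Del = X.a := by
  have h0 := X.Del_pos
  have h1 := X.Del_ge hj
  have h2 := X.a_ne_j
  by_contra hne
  have h3 : 2 * X.a ≤ X.Del := by
    obtain ⟨m, hm⟩ := ha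
    rcases m with _ | _ | m
    · omega
    · omega
    · rw [hm]; nlinarith
  obtain ⟨e, he⟩ := Nat.exists_eq_add_of_le h3
  have hD : X.D = X.a + (X.j0 + X.a + e) := by have := X.D_eq; omega
  have h4 := X.α_sub
  have h5 := two_pow_mono (show X.a + X.j0 ≤ X.j0 + X.a + e by omega)
  have h6 : (2 : ℝ) ^ X.D = 2 ^ X.a * 2 ^ (X.j0 + X.a + e) := by rw [← pow_add, ← hD]
  have h7 := X.q_gt
  have h8 : (2 : ℝ) ^ (X.j0 + X.a + e) ≤ X.α - 2 ^ X.D := by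
    by_contra h9
    nlinarith
  have h9 : X.j0 + X.a + e < X.j + X.j0 + 1 :=
    (pow_lt_pow_iff_right₀ (one_lt_two (α := ℝ))).1 (h8.trans_lt h)
  omega

/-- The case where `j` divides the excess. -/
theorem rad_two (h : X.j ∣ X.Del) : ∃ l, X.Rad l := by
  have hj := X.j_pos
  have hDel := X.Del_ge h
  have hD := X.D_eq
  obtain ⟨w, hw, hy, hw'⟩ := X.lower (by omega)
  rw [← X.Xi_of_y hy] at hw'
  obtain ⟨l, le0, le1, ex⟩ := X.exists_l ⟨w, hw, fun e => by simp [e] at hw'⟩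
  set P : ℝ := 2 ^ (X.j + X.j0) with hP
  have hl : X.V.v l < X.sz (-X.α + P) := by
    have h4 := X.div_b_le.1 (le0 w hw)
    by_contra h5
    rw [map_mul] at h4
    have h6 : X.sz (-X.α + P) * X.sz (-P) < X.V.v l * X.V.v (X.Xi 0 w) :=
      (mul_lt_mul_of_pos_left hw' (X.sz_pos _)).trans_le (by gcongr; exact not_lt.1 h5)
    rw [← X.sz_add] at h6
    have := X.sz_lt.1 (h6.trans_le h4)
    linarith
  have hP0 : 0 < P := by positivity
  have hP1 : P ≤ 2 ^ X.D / 2 := two_pow_half (by omega)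
  have hP2 : (2 : ℝ) ^ X.j0 ≤ P / 2 := two_pow_half (by omega)
  have hα := X.α_gt
  have hl2 : X.V.v (l ^ 2) < X.sz (2 * (-X.α + P)) := by simpa using X.lt_pow hl two_ne_zero
  have hP3 : 2 ≤ X.j → P ≤ 2 ^ X.D / 8 := fun h2 => by
    have h3 := X.Del_ge' h h2
    have h4 := two_pow_mono (show X.j + X.j0 + 3 ≤ X.D by omega)
    rw [pow_add] at h4
    linarith
  refine ⟨l, le0, le1, ex, fun i hi u hu => ?_, hl.trans_le (X.sz_le.2 (by linarith)),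
    fun u hu hu' => ?_, fun ha ⟨u0, hu0, e0⟩ => ?_⟩
  · have hp := X.lt_pow hl (n := 2 ^ i) (by positivity)
    have h4 : (4 : ℝ) ≤ 2 ^ i := by simpa [show (2 : ℝ) ^ 2 = 4 by norm_num] using two_pow_mono hi
    rw [X.div_b_lt]
    rcases hj.eq_or_lt with h1 | h1
    · refine (X.lt_mul hp (X.xi_one h1.symm i hu)).trans_le (X.sz_le.2 ?_)
      push_cast
      nlinarith
    · refine (X.lt_mul hp (X.xi_gen i hu)).trans_le (X.sz_le.2 ?_)
      have := hP3 h1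
      push_cast
      rw [pow_add]
      nlinarith
  · have hD1 : (2 : ℝ) ^ (X.D - 1) = 2 ^ X.D / 2 := by
      obtain ⟨d, hd⟩ : ∃ d, X.D = d + 1 := ⟨X.D - 1, by omega⟩
      rw [hd, Nat.add_sub_cancel, pow_succ]
      ring
    rw [hD1] at hu'
    have hy' := X.y_of_lt (hu'.trans (X.sz_lt.2 (show _ < (1 : ℝ) by linarith)))
    rw [X.div_b_lt, X.div_b_lt, X.Xi_of_y hy', X.Xi_of_y hy']
    constructor
    · refine (X.lt_mul hl (X.xi_rw_le (T := -2 ^ X.D) hu'.le fun c hc => ?_)).trans_le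
        (X.sz_le.2 (by linarith))
      have h1 : 1 ≤ c := Nat.pos_of_ne_zero fun e => hc (by rw [e]; exact X.wd.diag 0)
      have h2 := two_pow_mono h1
      nlinarith
    · refine (X.lt_mul hl2 (X.xi_rw_le (T := -(2 ^ X.D / 2)) hu'.le fun c _ => ?_)).trans_le
        (X.sz_le.2 (by linarith))
      have h2 := two_pow_mono (Nat.zero_le c)
      nlinarith
  have hα2 := X.α_ge (Nat.le_of_dvd X.Del_pos ha)
  have hj2 : 2 ≤ X.j := by
    by_contra h1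
    have h2 := X.lt_mul hl2 (X.xi_one (by omega) 1 hu0)
    rw [X.div_b_eq.1 e0, X.sz_lt] at h2
    linarith
  have hP4 := hP3 hj2
  have hrow : ∀ c, X.cf c 1 ≠ 0 → c ≤ X.D := fun c hc => by
    have h1 := X.wd.wid c 1 hc
    by_contra h2
    have h3 := X.wd.least 1 (by rwa [show 1 + X.D = c by omega])
    have := X.two_le_a
    omega
  have hE : ∀ u ∈ X.W, X.V.v (l ^ 2 * (X.Xi 1 u - algebraMap k Ω (X.xc 1 u X.D) * X.s ^ 2 ^ X.D) /
      X.b) < 1 := fun u hu => by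
    rw [X.div_b_lt]
    refine (X.lt_mul hl2 (X.xi_sub_le (T := 2 ^ X.D / 2) X.D (X.v_sub_le hu) (fun c hc => ?_)
      fun c hc0 hc _ => two_pow_half (lt_of_le_of_ne (hrow c hc) hc0))).trans_le
      (X.sz_le.2 (by linarith))
    have := two_pow_mono (hrow c hc)
    linarith
  have h1 : X.V.v (algebraMap k Ω (X.xc 1 u0 X.D) * (l ^ 2 * X.s ^ 2 ^ X.D / X.b)) = 1 := by
    rw [← e0]
    refine Valuation.map_eq_of_sub_lt _ ?_
    rw [e0, Valuation.map_sub_swap]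
    convert hE u0 hu0 using 2
    ring
  have h2 : X.xc 1 u0 X.D ≠ 0 := fun e => by simp [e] at h1
  rw [map_mul, X.V.const _ h2, one_mul] at h1
  have h3 : X.α - 2 ^ X.D < 2 ^ (X.j + X.j0 + 1) := by
    have h4 := X.lt_mul hl2 (X.v_s_pow (2 ^ X.D)).le
    rw [X.div_b_eq.1 h1, X.sz_lt] at h4
    push_cast at h4
    rw [pow_succ]
    linarith
  refine ⟨hj2, X.Del_eq ha h h3 ▸ hDel, X.cf X.D 1 * rs X.V (l ^ 2 * X.s ^ 2 ^ X.D / X.b),
    mul_ne_zero (left_ne_zero_of_mul h2) ((rs_ne_zero h1.le).2 h1), fun u hu => ?_⟩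
  have h4 := X.lt_const (X.xc 1 u X.D) (rs_spec h1.le)
  convert Valuation.map_add_lt _ (hE u hu) h4 using 2
  simp only [xc, map_mul, map_add, map_pow, pow_succ 2 X.D, pow_mul]
  ring

theorem exists_rad : ∃ l, X.Rad l := by
  by_cases h : X.j ∣ X.Del
  exacts [X.rad_two h, X.rad_one h]

end Cx

end W28

end Pool.Agent.Lib.MP_346d6a_co
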