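import Pool.Agent.Lib.MP_346d6a_co.W48Def
import Pool.Agent.Lib.MP_346d6a_co.W28Col

/-!
Budgets: the product of the nonzero roots of a closed subgroup at two places.
-/

set_option maxSynthPendingDepth 3

namespace Pool.Agent.Lib.MP_346d6a_co

open Polynomial

namespace W48

open W28

variable {k Ω : Type} [Field k] [Field Ω] [Algebra k Ω] (V : Val k Ω) {B h : k[X][X]}

theorem Sub.dvd_one (hS : Sub B h) : h.coeff 1 ∣ B.coeff 1 := by
  obtain ⟨q, rfl⟩ := hS.dvd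
  refine ⟨q.coeff 0, ?_⟩
  rw [coeff_mul, Finset.Nat.sum_antidiagonal_eq_sum_range_succ_mk]
  simp [Finset.sum_range_succ, addIn_coeff_zero hS.add]

theorem Sub.dvd_lc (hS : Sub B h) : h.leadingCoeff ∣ B.leadingCoeff :=
  leadingCoeff_dvd_leadingCoeff hS.dvd

theorem Bud.shift [CharP Ω 2] {S : Finset Ω} {G : AddSubgroup Ω} (hS : ∀ u, u ∈ S ↔ u ∈ G) {a : Ω}
    (ha : a ∈ G) (f : Ω → ℝ) : ∑ u ∈ S, f (a + u) = ∑ u ∈ S, f u :=
  Finset.sum_nbij' (fun u => a + u) (fun u => a + u)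
    (fun u hu => (hS _).2 (G.add_mem ha ((hS u).1 hu)))
    (fun u hu => (hS _).2 (G.add_mem ha ((hS u).1 hu)))
    (fun u _ => CharTwo.add_cancel_left a u) (fun u _ => CharTwo.add_cancel_left a u) fun _ _ => rfl

theorem Bud.mono {p : k[X]} {e : ℕ} {c : k} (hc : c ≠ 0) (h : p ∣ monomial e c) :
    p ≠ 0 ∧ p.natTrailingDegree = p.natDegree := by
  obtain ⟨q, hq⟩ := h
  have h0 : p * q ≠ 0 := hq ▸ fun e => hc (monomial_eq_zero_iff _ _ |>.1 e)
  have h1 := natTrailingDegree_mul (left_ne_zero_of_mul h0) (right_ne_zero_of_mul h0)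
  have h2 := natDegree_mul (left_ne_zero_of_mul h0) (right_ne_zero_of_mul h0)
  rw [← hq, natTrailingDegree_monomial hc] at h1
  rw [← hq, natDegree_monomial_eq _ hc] at h2
  have h3 := natTrailingDegree_le_natDegree p
  have h4 := natTrailingDegree_le_natDegree q
  exact ⟨left_ne_zero_of_mul h0, by omega⟩

/-- A subgroup below the top level that contains a smallest element has a small mean. -/
theorem avg [CharP Ω 2] (U W : AddSubgroup Ω) (hUW : U ≤ W) (SU SW : Finset Ω)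
    (hU : ∀ u, u ∈ SU ↔ u ≠ 0 ∧ u ∈ U) (hW : ∀ u, u ∈ SW ↔ u ≠ 0 ∧ u ∈ W) {θ w : Ω} (hθ : θ ∈ SU)
    (hmin : ∀ u ∈ SW, lg V θ ≤ lg V u) (hw : w ∈ SW) (hlt : ∀ u ∈ SU, lg V u < lg V w) {μ : ℝ}
    (hμ : ∑ u ∈ SU, lg V u = SU.card * μ) : SW.card * μ < ∑ u ∈ SW, lg V u := by
  classical
  let F : Ω → ℝ := fun x => if x = 0 then lg V θ else lg V x
  have F0 : F 0 = lg V θ := if_pos rfl
  have F1 : ∀ x, x ≠ 0 → F x = lg V x := fun x hx => if_neg hx
  have mU : ∀ u, u ∈ insert 0 SU ↔ u ∈ U := fun u => by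
    rw [Finset.mem_insert, hU]
    exact ⟨fun h => h.elim (fun e => e ▸ U.zero_mem) And.right, fun h => (em _).imp id fun e => ⟨e, h⟩⟩
  have mW : ∀ u, u ∈ insert 0 SW ↔ u ∈ W := fun u => by
    rw [Finset.mem_insert, hW]
    exact ⟨fun h => h.elim (fun e => e ▸ W.zero_mem) And.right, fun h => (em _).imp id fun e => ⟨e, h⟩⟩
  have nU : (0 : Ω) ∉ SU := fun h => ((hU 0).1 h).1 rfl
  have nW : (0 : Ω) ∉ SW := fun h => ((hW 0).1 h).1 rfl
  have lo : ∀ x ∈ W, lg V θ ≤ F x := fun x hx => by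
    by_cases e : x = 0
    · rw [e, F0]
    · rw [F1 x e]; exact hmin x ((hW x).2 ⟨e, hx⟩)
  have ult : ∀ x ∈ W, ∀ y : Ω, F (x + y) ≤ max (F x) (F y) := fun x hx y => by
    by_cases e : x + y = 0
    · rw [e, F0]; exact le_max_of_le_left (lo x hx)
    by_cases e1 : x = 0
    · rw [e1, zero_add]; exact le_max_right _ _
    by_cases e2 : y = 0
    · rw [e2, add_zero]; exact le_max_left _ _
    rw [F1 _ e, F1 _ e1, F1 _ e2]
    exact lg_add_le e1 e2 e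
  have sU : ∑ u ∈ insert 0 SU, F u = lg V θ + SU.card * μ := by
    rw [Finset.sum_insert nU, F0, ← hμ]
    exact congrArg _ (Finset.sum_congr rfl fun u hu => F1 u ((hU u).1 hu).1)
  have sW : ∑ u ∈ insert 0 SW, F u = lg V θ + ∑ u ∈ SW, lg V u := by
    rw [Finset.sum_insert nW, F0]
    exact congrArg _ (Finset.sum_congr rfl fun u hu => F1 u ((hW u).1 hu).1)
  obtain ⟨w0, wW⟩ := (hW w).1 hw
  have A : ∀ z ∈ W, lg V θ + SU.card * μ ≤ ∑ u ∈ insert 0 SU, F (z + u) := fun z hz => by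
    obtain ⟨u0, h0, hm⟩ := Finset.exists_min_image (insert 0 SU) (fun u => F (z + u))
      (Finset.insert_nonempty _ _)
    rw [← sU, ← Bud.shift mU ((mU u0).1 h0) fun u => F (z + u)]
    refine Finset.sum_le_sum fun u hu => ?_
    have h1 := ult (z + u0) (W.add_mem hz (hUW ((mU u0).1 h0))) (z + (u0 + u))
    rw [← add_assoc z, CharTwo.add_cancel_left, add_assoc z,
      max_eq_right (hm _ ((mU _).2 (U.add_mem ((mU u0).1 h0) ((mU u).1 hu))))] at h1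
    exact h1
  have lt : ∀ u ∈ insert 0 SU, F u < lg V w := fun u hu => by
    rcases Finset.mem_insert.1 hu with e | e
    · rw [e, F0]; exact hlt θ hθ
    · rw [F1 u ((hU u).1 e).1]; exact hlt u e
  have C : ∀ z ∈ W, lg V w ≤ F z → (SU.card + 1 : ℝ) * lg V w ≤ ∑ u ∈ insert 0 SU, F (z + u) :=
    fun z hz h => by
      have h2 := Finset.card_nsmul_le_sum (insert 0 SU) (fun u => F (z + u)) (lg V w) fun u hu => by
        have h1 := ult (z + u) (W.add_mem hz (hUW ((mU u).1 hu))) u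
        rw [CharTwo.add_cancel_right] at h1
        exact (le_max_iff.1 (h.trans h1)).resolve_right (lt u hu).not_ge
      rwa [Finset.card_insert_of_notMem nU, nsmul_eq_mul, Nat.cast_succ] at h2
  have D : ∑ z ∈ insert 0 SW, ∑ u ∈ insert 0 SU, F (z + u) =
      (SU.card + 1 : ℝ) * (lg V θ + ∑ u ∈ SW, lg V u) := by
    rw [Finset.sum_comm, Finset.sum_congr rfl fun u hu => (Finset.sum_congr rfl fun z _ =>
      congrArg F (add_comm z u)).trans (Bud.shift mW (hUW ((mU u).1 hu)) F), Finset.sum_const,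
      Finset.card_insert_of_notMem nU, nsmul_eq_mul, Nat.cast_succ, sW]
  have E := Finset.card_nsmul_le_sum (insert 0 SW)
    (fun z => ∑ u ∈ insert 0 SU, F (z + u) + ∑ u ∈ insert 0 SU, F (w + z + u))
    (lg V θ + SU.card * μ + (SU.card + 1 : ℝ) * lg V w) fun z hz => by
      have hz := (mW z).1 hz
      have h1 := ult (w + z) (W.add_mem wW hz) z
      rw [CharTwo.add_cancel_right, F1 w w0] at h1
      rcases le_max_iff.1 h1 with h2 | h2
      · exact add_le_add (A z hz) (C _ (W.add_mem wW hz) h2)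
      · exact (add_comm _ _).trans_le (add_le_add (C z hz h2) (A _ (W.add_mem wW hz)))
  rw [Finset.sum_add_distrib, Bud.shift mW wW fun z => ∑ u ∈ insert 0 SU, F (z + u), D,
    Finset.card_insert_of_notMem nW, nsmul_eq_mul, Nat.cast_succ] at E
  have m0 : (0 : ℝ) < SU.card := Nat.cast_pos.2 (Finset.card_pos.2 ⟨θ, hθ⟩)
  have k1 := Finset.card_nsmul_le_sum SU (lg V) (lg V θ) fun u hu =>
    hmin u ((hW u).2 ⟨((hU u).1 hu).1, hUW ((hU u).1 hu).2⟩)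
  rw [nsmul_eq_mul, hμ] at k1
  have k2 := Finset.single_le_sum (f := fun u => lg V w - lg V u)
    (fun u hu => sub_nonneg.2 (hlt u hu).le) hθ
  rw [Finset.sum_sub_distrib, Finset.sum_const, nsmul_eq_mul, hμ] at k2
  have k3 := hlt θ hθ
  have k4 := le_of_mul_le_mul_left k1 m0
  have k5 : μ < lg V w := lt_of_mul_lt_mul_left (a := (SU.card : ℝ)) (by linarith) m0.le
  have k6 := mul_pos (show (0 : ℝ) < SW.card + 1 by positivity)
    (show 0 < lg V θ - μ + (SU.card + 1) * (lg V w - μ) by linarith)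
  have k7 := mul_nonneg (show (0 : ℝ) ≤ SU.card + 1 by positivity) (sub_nonneg.2 k4)
  refine lt_of_mul_lt_mul_left (a := (SU.card + 1 : ℝ)) ?_ (by positivity)
  linarith

variable [CharP k 2] [IsAlgClosed Ω]

theorem sum_lg (hA : AddIn B) (h1 : B.coeff 1 ≠ 0) {s : Ω} (hs : Transcendental k s) :
    ∃ S : Finset Ω, (∀ u, u ∈ S ↔ u ≠ 0 ∧ ev2 s u B = 0) ∧ S.card + 1 = B.natDegree ∧
      ∑ u ∈ S, lg V u = lg V (aeval s (B.coeff 1)) - lg V (aeval s B.leadingCoeff) := by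
  classical
  have := charP k Ω
  have hB : B ≠ 0 := fun e => h1 (by rw [e, coeff_zero])
  have hf := finite_roots hs hB (RG hA s) fun _ => Iff.rfl
  let _ : Fintype (RG hA s) := Fintype.ofFinite _
  have h2 := card_roots hs hA h1 (RG hA s) fun _ => Iff.rfl
  have h3 := prod_ne_zero hs hA h1 (RG hA s) fun _ => Iff.rfl
  have h4 : ∀ u ∈ Finset.univ.filter (fun u : RG hA s => u ≠ 0), (u : Ω) ≠ 0 := fun u hu e =>
    (Finset.mem_filter.1 hu).2 (Subtype.ext e)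
  refine ⟨(Finset.univ.filter fun u : RG hA s => u ≠ 0).map (Function.Embedding.subtype _),
    fun u => ⟨fun hu => ?_, fun hu => Finset.mem_map.2 ⟨⟨u, hu.2⟩, Finset.mem_filter.2
      ⟨Finset.mem_univ _, fun e => hu.1 (congrArg Subtype.val e)⟩, rfl⟩⟩, ?_, ?_⟩
  · obtain ⟨x, hx, rfl⟩ := Finset.mem_map.1 hu
    exact ⟨h4 x hx, x.2⟩
  · rw [Finset.card_map, Finset.filter_ne', Finset.card_erase_add_one (Finset.mem_univ _),
      Finset.card_univ, ← h2, Nat.card_eq_fintype_card]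
  · rw [← h3, lg_mul (aeval_ne hs (leadingCoeff_ne_zero.2 hB)) (Finset.prod_ne_zero_iff.2 h4),
      lg_prod _ _ h4, Finset.sum_map, add_sub_cancel_left]
    rfl

theorem bud1 (hS : Sub B h) {e : ℕ} {c : k} (hc : c ≠ 0) (hl : B.leadingCoeff = monomial e c)
    {θ : Ω} (hθ : θ ≠ 0) (z : ev2 V.τ θ h = 0) (h0 : ∀ u, u ≠ 0 → ev2 V.τ u h = 0 → lg V u ≤ 0)
    (hi : ∀ u, u ≠ 0 → ev2 V.τ⁻¹ u B = 0 → lg V u < 0) : False := by
  obtain ⟨S, m1, c1, s1⟩ := sum_lg V hS.add hS.sep V.transcendental_τ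
  obtain ⟨T, m2, c2, s2⟩ := sum_lg V hS.add hS.sep (transcendental_tau_inv (V := V))
  obtain ⟨l0, l1⟩ := Bud.mono hc (hl ▸ hS.dvd_lc)
  have p1 := Finset.card_pos.2 ⟨θ, (m1 θ).2 ⟨hθ, z⟩⟩
  have k1 := Finset.sum_nonpos (s := S) fun u hu => h0 u ((m1 u).1 hu).1 ((m1 u).1 hu).2
  have k2 := Finset.sum_neg (s := T) (fun u hu => hi u ((m2 u).1 hu).1 (hS.root ((m2 u).1 hu).2))
    (Finset.card_pos.1 (by omega))
  rw [s1, lg_aeval_tau hS.sep, lg_aeval_tau l0, l1] at k1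
  rw [s2, lg_aeval_tau_inv hS.sep, lg_aeval_tau_inv l0] at k2
  have k3 : ((h.coeff 1).natTrailingDegree : ℝ) ≤ (h.coeff 1).natDegree :=
    Nat.cast_le.2 (natTrailingDegree_le_natDegree _)
  linarith

theorem Bud.opp (hA : AddIn B) {e e' : ℕ} {c c' : k} (hc : c ≠ 0) (hc' : c' ≠ 0)
    (hl : B.leadingCoeff ∣ monomial e c) (h1 : B.coeff 1 ∣ monomial e' c') {ρ : ℝ}
    (hi : ∀ u, u ≠ 0 → ev2 V.τ⁻¹ u B = 0 → lg V u = ρ) :
    ∃ S : Finset Ω, (∀ u, u ∈ S ↔ u ≠ 0 ∧ ev2 V.τ u B = 0) ∧ ∑ u ∈ S, lg V u = S.card * -ρ := by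
  obtain ⟨l0, l1⟩ := Bud.mono hc hl
  obtain ⟨l2, l3⟩ := Bud.mono hc' h1
  obtain ⟨S, m1, c1, s1⟩ := sum_lg V hA l2 V.transcendental_τ
  obtain ⟨T, m2, c2, s2⟩ := sum_lg V hA l2 (transcendental_tau_inv (V := V))
  refine ⟨S, m1, ?_⟩
  rw [Finset.sum_congr rfl fun u hu => hi u ((m2 u).1 hu).1 ((m2 u).1 hu).2, Finset.sum_const,
    nsmul_eq_mul, lg_aeval_tau_inv l2, lg_aeval_tau_inv l0, show T.card = S.card by omega] at s2
  rw [s1, lg_aeval_tau l2, lg_aeval_tau l0, l1, l3]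
  linarith

theorem mean (hA : AddIn B) (hS : Sub B h) {e e' : ℕ} {c c' : k} (hc : c ≠ 0) (hc' : c' ≠ 0)
    (hl : B.leadingCoeff = monomial e c) (h1 : B.coeff 1 = monomial e' c') {ρ : ℝ}
    (hi : ∀ u, u ≠ 0 → ev2 V.τ⁻¹ u B = 0 → lg V u = ρ) {θ w : Ω} (hθ : θ ≠ 0)
    (z : ev2 V.τ θ h = 0) (hmin : ∀ u, u ≠ 0 → ev2 V.τ u B = 0 → lg V θ ≤ lg V u) (hw : w ≠ 0)
    (zw : ev2 V.τ w B = 0) (hlt : ∀ u, u ≠ 0 → ev2 V.τ u h = 0 → lg V u < lg V w) : False := by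
  have := charP k Ω
  obtain ⟨S, m1, s1⟩ := Bud.opp V hA hc hc' hl.dvd h1.dvd hi
  obtain ⟨T, m2, s2⟩ := Bud.opp V hS.add hc hc' (hl ▸ hS.dvd_lc) (h1 ▸ hS.dvd_one)
    fun u hu e => hi u hu (hS.root e)
  exact (avg V (RG hS.add V.τ) (RG hA V.τ) (fun _ hu => hS.root hu) T S m2 m1 ((m2 θ).2 ⟨hθ, z⟩)
    (fun u hu => hmin u ((m1 u).1 hu).1 ((m1 u).1 hu).2) ((m1 w).2 ⟨hw, zw⟩)
    (fun u hu => hlt u ((m2 u).1 hu).1 ((m2 u).1 hu).2) s2).ne s1.symm

end W48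

end Pool.Agent.Lib.MP_346d6a_co
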