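import Pool.Agent.Lib.MP_346d6a_co.W48Def
import Pool.Agent.Lib.MP_346d6a_co.W28Inv
import Pool.Agent.Lib.MP_346d6a_co.H64U

/-!
The group of roots with its colours: majority, stable modules, closed subgroups.
-/

set_option maxSynthPendingDepth 3

namespace Pool.Agent.Lib.MP_346d6a_co

open Polynomial

namespace W48

open W28

variable {k Ω : Type} [Field k] [Field Ω] [Algebra k Ω] {φ : k ≃+* k} {B : k[X][X]} {s : Ω}

namespace Grp

theorem mem_map (φ : k ≃+* k) (I : Ideal k[X][X]) (P : k[X][X]) :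
    mp2 (φ : k →+* k) P ∈ I.map (mp2 (φ : k →+* k)) ↔ P ∈ I := by
  rw [← Ideal.mem_comap, Ideal.comap_map_of_bijective _ (TTrans.mp2_bijective φ)]

/-- The function field of an invariant curve. -/
theorem field (φ : k ≃+* k) {P : k[X][X]} (hP : Irreducible P) (h : P ∣ mp2 (φ : k →+* k) P) :
    ∃ (Ω : Type) (_ : Field Ω) (_ : IsAlgClosed Ω) (ι : k[X][X] →+* Ω) (g : Ω ≃+* Ω),
      (∀ Q, ι Q = 0 ↔ P ∣ Q) ∧ ∀ Q, g (ι Q) = ι (mp2 (φ : k →+* k) Q) := by
  let e : k[X][X] ≃+* k[X][X] := mapEquiv (mapEquiv φ)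
  have he : ∀ Q, e Q = mp2 (φ : k →+* k) Q := fun _ => rfl
  have h1 : Irreducible (e P) := (MulEquiv.irreducible_iff e).2 hP
  have h2 : Ideal.span {P} = (Ideal.span {P}).map (e : k[X][X] →+* k[X][X]) := by
    rw [Ideal.map_span, Set.image_singleton, Ideal.span_singleton_eq_span_singleton]
    exact hP.associated_of_dvd h1 h
  have : (Ideal.span {P}).IsPrime := (Ideal.span_singleton_prime hP.ne_zero).2 hP.prime
  let q := Ideal.quotientEquiv (Ideal.span {P}) (Ideal.span {P}) e h2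
  let F := FractionRing (k[X][X] ⧸ Ideal.span {P})
  let q' : F ≃+* F := IsFractionRing.ringEquivOfRingEquiv q
  refine ⟨AlgebraicClosure F, inferInstance, inferInstance, (algebraMap F _).comp
    ((algebraMap _ F).comp (Ideal.Quotient.mk (Ideal.span {P}))),
    IsAlgClosure.equivOfEquiv _ _ q', fun Q => ?_, fun Q => ?_⟩
  · rw [RingHom.comp_apply, RingHom.comp_apply, map_eq_zero,
      map_eq_zero_iff _ (IsFractionRing.injective _ F), Ideal.Quotient.eq_zero_iff_mem,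
      Ideal.mem_span_singleton]
  · rw [RingHom.comp_apply, RingHom.comp_apply, IsAlgClosure.equivOfEquiv_algebraMap,
      IsFractionRing.ringEquivOfRingEquiv_algebraMap, Ideal.quotientEquiv_mk, he]
    rfl

/-- The closed subgroup generated by `A` is moved into `Z`. -/
theorem cor {V : Type*} [AddCommGroup V] [Finite V] {r : V → V → Prop} (hr : Equivalence r)
    (horb : ∀ u v, r u v → ∃ g : V ≃+ V, g u = v ∧ ∀ w, r w (g w))
    (p : V ≃+ V) (hp : ∀ u v, r u v → r (p u) (p v))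
    (hfix : ∀ x, r (p x) x → ∀ y, r x y → y = x)
    (A Z : AddSubgroup V) (hAZ : A ≤ Z) (hM : ∀ u, u ∉ Z → ∀ t, t ∈ A → r u (u + t)) :
    ∃ U : AddSubgroup V, (∀ u ∈ U, p u ∈ Z) ∧ A ≤ U ∧ ∀ u v, u ∈ U → r u v → v ∈ U := by
  refine ⟨AddSubgroup.closure {v | ∃ x, x ∈ A ∧ r x v}, ?_, fun x hx =>
    AddSubgroup.subset_closure ⟨x, hx, hr.refl x⟩, ?_⟩
  · have : AddSubgroup.closure {v | ∃ x, x ∈ A ∧ r x v} ≤ Z.comap p.toAddMonoidHom := by
      rw [AddSubgroup.closure_le]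
      rintro v ⟨x, hx, hxv⟩
      obtain ⟨g, rfl, hg⟩ := horb x v hxv
      by_contra hn
      have h1 : r (p (g x)) x := H64U.lemU hr (g.trans p)
        (fun u v h => hp _ _ (hr.trans (hr.symm (hg u)) (hr.trans h (hg v)))) A Z hM x hx hn
      have h2 : r (p x) x := hr.trans (hp _ _ hxv) h1
      apply hn
      change p (g x) ∈ Z
      rw [hfix x h2 _ (hr.symm h1)]
      exact hAZ hx
    exact fun u hu => this hu
  · intro u v hu huv
    obtain ⟨g, rfl, hg⟩ := horb u v huv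
    clear huv
    induction hu using AddSubgroup.closure_induction with
    | mem w hw =>
      obtain ⟨x, hx, hxw⟩ := hw
      exact AddSubgroup.subset_closure ⟨x, hx, hr.trans hxw (hg w)⟩
    | zero => simp
    | add a b _ _ ha hb => rw [map_add]; exact add_mem ha hb
    | neg a _ ha => rw [map_neg]; exact neg_mem ha

theorem surj {V : Type*} [AddCommGroup V] [Finite V] (p : V ≃+ V) (U : AddSubgroup V)
    (h : ∀ u ∈ U, p u ∈ U) {v : V} (hv : v ∈ U) : ∃ u ∈ U, p u = v := by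
  obtain ⟨u, hu⟩ := Finite.surjective_of_injective (f := fun u : U => (⟨p u, h u u.2⟩ : U))
    (fun a b e => Subtype.ext (p.injective (congrArg Subtype.val e))) ⟨v, hv⟩
  exact ⟨u, u.2, congrArg Subtype.val hu⟩

end Grp

theorem Au.grp_ne (h : Au φ B) : B ≠ 0 := fun e => h.sep (by rw [e, coeff_zero])

/-- The generic point of an invariant curve. -/
theorem fac (φ : k ≃+* k) {P : k[X][X]} (hP : Irreducible P) (hd : P.natDegree ≠ 0)
    (h : P ∣ mp2 (φ : k →+* k) P) :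
    ∃ (Ω : Type) (_ : Field Ω) (_ : IsAlgClosed Ω) (_ : Algebra k Ω) (g : Ω ≃+* Ω) (s u : Ω),
      Ov φ g ∧ Transcendental k s ∧ g s = s ∧ g u = u ∧ ev2 s u P = 0 := by
  obtain ⟨Ω, _, _, ι, g, h1, h2⟩ := Grp.field φ hP h
  let _ : Algebra k Ω := (ι.comp ((C : k[X] →+* k[X][X]).comp C)).toAlgebra
  have ha : ∀ c, algebraMap k Ω c = ι (C (C c)) := fun _ => rfl
  have e : ev2 (ι (C X)) (ι X) = ι := by ext <;> simp [ha]
  refine ⟨Ω, inferInstance, inferInstance, inferInstance, g, ι (C X), ι X, fun c => ?_, ?_, ?_, ?_,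
    by rw [e, h1]⟩
  · rw [ha, ha, h2]
    simp [mp2]
  · rintro ⟨p, hp, hz⟩
    rw [← ev2_C _ (ι X), e, h1] at hz
    have := natDegree_le_of_dvd hz (C_ne_zero.2 hp)
    rw [natDegree_C] at this
    omega
  · rw [h2]
    simp [mp2]
  · rw [h2]
    simp [mp2]

/-- The twist of the group of roots. -/
theorem twist [IsAlgClosed Ω] (hs : Transcendental k s) (hB : B ≠ 0)
    (hf : mp2 (φ : k →+* k) B = B) (W : AddSubgroup Ω) (hW : ∀ u, u ∈ W ↔ ev2 s u B = 0) :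
    ∃ p : W ≃+ W, ∀ w : W,
      col2 k s (p w : Ω) = (col2 k s (w : Ω)).map (mp2 (φ : k →+* k)) := by
  have := finite_roots hs hB W hW
  have hi : Function.Injective ((aeval s : k[X] →ₐ[k] Ω) : k[X] →+* Ω) :=
    transcendental_iff_injective.1 hs
  obtain ⟨S, j, h1, h2⟩ := TTrans.exists_ext ((aeval s : k[X] →ₐ[k] Ω) : k[X] →+* Ω)
    (((aeval s : k[X] →ₐ[k] Ω) : k[X] →+* Ω).comp (mapRingHom (φ : k →+* k))) fun r => by
      rw [RingHom.comp_apply, map_eq_zero_iff _ hi, map_eq_zero_iff _ hi, coe_mapRingHom,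
        Polynomial.map_eq_zero]
  choose m hm using h1
  have hk : ∀ c, algebraMap k Ω c ∈ S := fun c => by simpa using m (C c)
  let _ : Algebra k S := ((algebraMap k Ω).codRestrict S hk).toAlgebra
  have hj : ∀ (P : k[X]) (z : Ω) (hz : z ∈ S), aeval s P = z →
      j ⟨z, hz⟩ = aeval s (P.map (φ : k →+* k)) := by
    rintro P _ hz rfl
    exact hm P
  have ms : s ∈ S := by simpa using m X
  have hs1 : j ⟨s, ms⟩ = s := by simpa using hj X s ms (by simp)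
  have key : ∀ (w : S) (P : k[X][X]),
      (ev2 s (j w) (mp2 (φ : k →+* k) P) = 0 ↔ ev2 s (w : Ω) P = 0) := fun w P => by
    have e1 := map_ev2 (RingHom.id k) S.subtype (fun _ => rfl) (⟨s, ms⟩ : S) w P
    have e2 := map_ev2 (φ : k →+* k) j (fun c => by
      exact (hj (C c) _ (hk c) (by simp)).trans (by simp)) (⟨s, ms⟩ : S) w P
    rw [show mp2 (RingHom.id k) P = P by simp [mp2]] at e1
    rw [hs1] at e2
    rw [← e2, map_eq_zero j, ← map_eq_zero S.subtype, e1]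
    rfl
  have hS : ∀ w : W, (w : Ω) ∈ S := fun w =>
    h2 B ((Polynomial.map_ne_zero_iff hi).2 hB) w (by rw [← ev2_eq]; exact (hW _).1 w.2)
  let g : W →+ W :=
    { toFun := fun w => ⟨j ⟨w, hS w⟩, (hW _).2 (hf ▸ (key _ B).2 ((hW _).1 w.2))⟩
      map_zero' := Subtype.ext (map_zero j)
      map_add' := fun a b => Subtype.ext (map_add j ⟨a, hS a⟩ ⟨b, hS b⟩) }
  have hg : Function.Injective g := fun a b e =>
    Subtype.ext (congrArg (fun z : S => (z : Ω)) (j.injective (congrArg Subtype.val e)))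
  refine ⟨AddEquiv.ofBijective g (Finite.injective_iff_bijective.1 hg), fun w => ?_⟩
  ext1 P
  obtain ⟨Q, rfl⟩ := (TTrans.mp2_bijective φ).2 P
  rw [Grp.mem_map, mem_col2, mem_col2]
  exact key ⟨w, hS w⟩ Q

/-- Only the zero root has a stable colour. -/
theorem Au.fixed (h : Au φ B) (hs : Transcendental k s) {u : Ω} (hu : ev2 s u B = 0)
    (hc : (col2 k s u).map (mp2 (φ : k →+* k)) = col2 k s u) : u = 0 := by
  obtain ⟨P, i, ⟨Q, d⟩, z⟩ := exists_irred_factor (ev2 s u) _ h.grp_ne hu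
  have h1 : ev2 s u (mp2 (φ : k →+* k) P) = 0 := by
    rw [← mem_col2, ← hc, Grp.mem_map, mem_col2, z]
  have hd : P.natDegree ≠ 0 := fun e => by
    rw [eq_C_of_natDegree_eq_zero e, ev2_C] at z
    refine aeval_ne hs (fun y => i.ne_zero ?_) z
    rw [eq_C_of_natDegree_eq_zero e, y, map_zero]
  obtain ⟨Ω', _, _, _, g, s', u', h2, h3, h4, h5, h6⟩ :=
    fac φ i hd (dvd_of_aevalAeval_eq_zero hs i z h1)
  have h7 : u' = 0 := h.fpf Ω' g h2 s' u' h3 h4 h5 (by rw [d, map_mul, h6, zero_mul])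
  obtain ⟨R, hR⟩ : P ∣ X :=
    dvd_of_aevalAeval_eq_zero h3 i h6 ((ev2_X (k := k) s' u').trans h7)
  rw [← ev2_X (k := k) s u, hR, map_mul, z, zero_mul]

variable [CharP k 2] [IsAlgClosed Ω]

namespace Grp

omit [CharP k 2] in
theorem cor2 (h : Au φ B) (hs : Transcendental k s) (W : AddSubgroup Ω)
    (hW : ∀ u, u ∈ W ↔ ev2 s u B = 0) (p : W ≃+ W)
    (hp : ∀ w : W, col2 k s (p w : Ω) = (col2 k s (w : Ω)).map (mp2 (φ : k →+* k)))
    (A Z : AddSubgroup Ω) (hAZ : A ≤ Z)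
    (hM : ∀ u t, ev2 s u B = 0 → u ∉ Z → ev2 s t B = 0 → t ∈ A → col2 k s (u + t) = col2 k s u) :
    ∃ U : AddSubgroup W, (∀ u ∈ U, (p u : Ω) ∈ Z) ∧ (∀ u : W, (u : Ω) ∈ A → u ∈ U) ∧
      ∀ u v : W, u ∈ U → col2 k s (u : Ω) = col2 k s (v : Ω) → v ∈ U := by
  have := finite_roots hs h.grp_ne W hW
  refine cor (r := fun u v : W => col2 k s (u : Ω) = col2 k s (v : Ω))
    ⟨fun _ => rfl, Eq.symm, Eq.trans⟩ (fun u v e => ?_) p (fun u v e => by rw [hp, hp, e])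
    (fun x e y e' => ?_) (A.comap W.subtype) (Z.comap W.subtype) (fun _ hu => hAZ hu)
    fun u hu t ht => (hM u t ((hW _).1 u.2) hu ((hW _).1 t.2) ht).symm
  · obtain ⟨g, h1, h2⟩ := realise hs h.grp_ne W hW u v e
    exact ⟨g, h2, fun w => (h1 w).symm⟩
  · have h1 : (x : Ω) = 0 := h.fixed hs ((hW _).1 x.2) ((hp x).symm.trans e)
    rw [h1] at e'
    exact Subtype.ext ((eq_zero_of_col2 e'.symm).trans h1.symm)

theorem sub (h : Au φ B) (hs : Transcendental k s) (W : AddSubgroup Ω)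
    (hW : ∀ u, u ∈ W ↔ ev2 s u B = 0) (U : AddSubgroup W)
    (hU : ∀ u v : W, u ∈ U → col2 k s (u : Ω) = col2 k s (v : Ω) → v ∈ U) :
    ∃ h', Sub B h' ∧ ∀ u, ev2 s u h' = 0 ↔ ∃ w ∈ U, (w : Ω) = u := by
  obtain ⟨h', G, -, hA, h1, hd, -, hr, -, hdeg, hlc⟩ := exists_sub hs h.add h.sep
    (U.map W.subtype) (by rintro _ ⟨u, -, rfl⟩; exact (hW _).1 u.2) (by
      rintro _ ⟨u, hu, rfl⟩ w hw
      have hw' : w ∈ W := (hW _).2 (root_of_col hw ((hW _).1 u.2))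
      exact ⟨⟨w, hw'⟩, hU u ⟨w, hw'⟩ hu hw.symm, rfl⟩)
  refine ⟨h', ⟨hA, h1, hd, fun hlt => ?_⟩, fun u => (hr u).symm⟩
  have h2 : 2 ≤ G.natDegree := by
    by_contra hn
    have := Nat.mul_le_mul_right h'.natDegree (show G.natDegree ≤ 1 by omega)
    omega
  rw [hlc]
  exact (pow_dvd_pow _ h2).mul_left _

end Grp

/-- The complement of a proper subgroup is not monochromatic. -/
theorem maj (h : Au φ B) (hs : Transcendental k s) (Z : AddSubgroup Ω) {u₀ : Ω}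
    (h0 : ev2 s u₀ B = 0) (hZ : u₀ ∉ Z)
    (hc : ∀ u, ev2 s u B = 0 → u ∉ Z → col2 k s u = col2 k s u₀) : False := by
  have := charP k Ω
  obtain ⟨p, hp⟩ := twist hs h.grp_ne h.fix (RG h.add s) fun _ => Iff.rfl
  have key : ∀ w : RG h.add s, (w : Ω) ∉ Z → (p w : Ω) ∈ Z := fun w hw => by
    by_contra hn
    refine hw ?_
    rw [h.fixed hs w.2 ((hp w).symm.trans ((hc _ (p w).2 hn).trans (hc _ w.2 hw).symm))]
    exact Z.zero_mem
  let a : RG h.add s := ⟨u₀, h0⟩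
  have h1 : (p.symm a : Ω) ∈ Z := by
    by_contra hn
    have := key _ hn
    rw [p.apply_symm_apply] at this
    exact hZ this
  have h2 := key (a + p.symm a) fun e => hZ ((Z.add_mem_cancel_right h1).1 e)
  rw [map_add, p.apply_symm_apply] at h2
  exact hZ ((Z.add_mem_cancel_left (key a hZ)).1 h2)

/-- A module is the set of roots of a polynomial. -/
theorem clo_eq (h : Au φ B) (hs : Transcendental k s) (Z : AddSubgroup Ω)
    (hM : ∀ u t, ev2 s u B = 0 → u ∉ Z → ev2 s t B = 0 → t ∈ Z → col2 k s (u + t) = col2 k s u) :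
    ∃ h', Sub B h' ∧ ∀ u, ev2 s u h' = 0 ↔ ev2 s u B = 0 ∧ u ∈ Z := by
  have := charP k Ω
  have := finite_roots hs h.grp_ne (RG h.add s) fun _ => Iff.rfl
  obtain ⟨p, hp⟩ := twist hs h.grp_ne h.fix (RG h.add s) fun _ => Iff.rfl
  obtain ⟨U, h1, h2, h3⟩ := Grp.cor2 h hs _ (fun _ => Iff.rfl) p hp Z Z le_rfl hM
  obtain ⟨h', h4, h5⟩ := Grp.sub h hs _ (fun _ => Iff.rfl) U h3
  refine ⟨h', h4, fun u => (h5 u).trans ⟨?_, fun e => ⟨⟨u, e.1⟩, h2 _ e.2, rfl⟩⟩⟩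
  rintro ⟨w, hw, rfl⟩
  obtain ⟨v, hv, rfl⟩ := Grp.surj p U (fun v hv => h2 _ (h1 v hv)) hw
  exact ⟨(p v).2, h1 v hv⟩

omit [CharP k 2] in
theorem grp_stab [CharP Ω 2] (h : Au φ B) (hs : Transcendental k s) (Z : AddSubgroup Ω)
    (hM : ∀ u t, ev2 s u B = 0 → u ∉ Z → ev2 s t B = 0 → t ∈ Z → col2 k s (u + t) = col2 k s u)
    {t₀ : Ω} (h0 : ev2 s t₀ B = 0) (hZ : t₀ ∈ Z) (hne : t₀ ≠ 0)
    (hc : ∀ t, ev2 s t B = 0 → t ∈ Z → t ≠ 0 → col2 k s t = col2 k s t₀) : False := by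
  obtain ⟨p, hp⟩ := twist hs h.grp_ne h.fix (RG h.add s) fun _ => Iff.rfl
  obtain ⟨U, h1, h2, -⟩ := Grp.cor2 h hs _ (fun _ => Iff.rfl) p hp Z Z le_rfl hM
  let a : RG h.add s := ⟨t₀, h0⟩
  refine hne (h.fixed hs h0 ((hp a).symm.trans (hc _ (p a).2 (h1 a (h2 a hZ)) fun e => hne ?_)))
  exact congrArg Subtype.val ((map_eq_zero_iff p p.injective).1 (Subtype.ext e) : a = 0)

/-- The nonzero elements of a module do not all have the same colour. -/
theorem stab (h : Au φ B) (hs : Transcendental k s) (Z : AddSubgroup Ω)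
    (hM : ∀ u t, ev2 s u B = 0 → u ∉ Z → ev2 s t B = 0 → t ∈ Z → col2 k s (u + t) = col2 k s u)
    {t₀ : Ω} (h0 : ev2 s t₀ B = 0) (hZ : t₀ ∈ Z) (hne : t₀ ≠ 0)
    (hc : ∀ t, ev2 s t B = 0 → t ∈ Z → t ≠ 0 → col2 k s t = col2 k s t₀) : False :=
  have := charP k Ω
  grp_stab h hs Z hM h0 hZ hne hc

/-- The cycle lemma: a closed subgroup between `A` and `Z`. -/
theorem clo (h : Au φ B) (hs : Transcendental k s) (g : Ω ≃+* Ω) (hg : Ov φ g) (gs : g s = s)
    (A Z : AddSubgroup Ω) (hAZ : A ≤ Z) (gZ : ∀ u ∈ Z, g u ∈ Z)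
    (hM : ∀ u t, ev2 s u B = 0 → u ∉ Z → ev2 s t B = 0 → t ∈ A → col2 k s (u + t) = col2 k s u) :
    ∃ h', Sub B h' ∧ (∀ t, ev2 s t B = 0 → t ∈ A → ev2 s t h' = 0) ∧
      ∀ u, ev2 s u h' = 0 → u ∈ Z := by
  have := charP k Ω
  have := finite_roots hs h.grp_ne (RG h.add s) fun _ => Iff.rfl
  obtain ⟨p, hp⟩ := exists_restrict (RG h.add s) g fun u hu => by
    have e := map_ev2 (φ : k →+* k) (g : Ω →+* Ω) hg s u B
    rw [h.fix, (mem_RG h.add).1 hu, map_zero, RingHom.coe_coe, gs] at e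
    exact e.symm
  obtain ⟨U, h1, h2, h3⟩ := Grp.cor2 h hs _ (fun _ => Iff.rfl) p
    (fun w => by rw [hp, col2_twist φ g hg gs]) A Z hAZ hM
  obtain ⟨h', h4, h5⟩ := Grp.sub h hs _ (fun _ => Iff.rfl) U h3
  refine ⟨h', h4, fun t ht hA => (h5 t).2 ⟨⟨t, ht⟩, h2 _ hA, rfl⟩, fun u hu => ?_⟩
  obtain ⟨w, hw, rfl⟩ := (h5 u).1 hu
  obtain ⟨v, hv, e⟩ := Grp.surj p (Z.comap (RG h.add s).subtype)
    (fun v hv => by
      change (p v : Ω) ∈ Z
      rw [hp]
      exact gZ _ hv) (v := p w) (h1 w hw)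
  rw [← p.injective e]
  exact hv

end W48

end Pool.Agent.Lib.MP_346d6a_co
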