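import Pool.Agent.Lib.MP_346d6a_co.W48Tpl
import Pool.Agent.Lib.MP_346d6a_co.W48Grp
import Pool.Agent.Lib.MP_346d6a_co.W48Bud

/-!
Three shapes that are excluded by the cycle lemma and a budget.
-/

set_option maxSynthPendingDepth 3

namespace Pool.Agent.Lib.MP_346d6a_co

open Polynomial

namespace W48

open W28

variable {k : Type} [Field k] [IsAlgClosed k] [CharP k 2] {φ : k ≃+* k} {R : ℕ → ℕ → Prop}

namespace C12

theorem one_le_pow (a : ℕ) : (1 : ℝ) ≤ 2 ^ a := one_le_pow₀ one_le_two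

theorem pow_lt {a b : ℕ} (h : a < b) : (2 : ℝ) ^ a < 2 ^ b := pow_lt_pow_right₀ one_lt_two h

theorem pow_le {a b : ℕ} (h : a ≤ b) : (2 : ℝ) ^ a ≤ 2 ^ b := pow_le_pow_right₀ one_le_two h

theorem two_mul_pow_le {a b : ℕ} (h : a < b) : 2 * (2 : ℝ) ^ a ≤ 2 ^ b := by
  rw [← pow_succ']
  exact pow_le h

theorem lt_of_pow_lt {a b : ℕ} (h : (2 : ℝ) ^ a < 2 ^ b) : a < b :=
  not_le.1 fun e => absurd (pow_le e) (not_le.2 h)

theorem le_of_pow_le {a b : ℕ} (h : (2 : ℝ) ^ a ≤ 2 ^ b) : a ≤ b :=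
  not_lt.1 fun e => absurd (pow_lt e) (not_lt.2 h)

variable {Ω : Type} [Field Ω] [IsAlgClosed Ω] [Algebra k Ω] {cf : ℕ → ℕ → k} {N : ℕ}

omit [IsAlgClosed k] [CharP k 2] [IsAlgClosed Ω] in
theorem lg_tau_ne (V : Val k Ω) : lg V V.τ ≠ 0 := by
  rw [lg_tau]; norm_num

omit [IsAlgClosed k] [CharP k 2] in
theorem BB_ne (h : Bi φ cf N R) {a : ℕ} (ha : R a 0) : BB cf N ≠ 0 := fun e =>
  h.row_ne ha (by rw [← h.cf_one, e, coeff_zero])

/-- The cycle lemma for the smallest roots. -/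
theorem cyc (h : Bi φ cf N R) (hf : Fpf φ (BB cf N)) (V : Val k Ω) (g : Ω ≃+* Ω)
    (gτ : g V.τ = V.τ) (gc : Ov φ g) {a₀ : ℕ} (ha : R a₀ 0) (hm : ∀ c, R c 0 → a₀ ≤ c) {θ : Ω}
    (hθ : θ ≠ 0) (zθ : ev2 V.τ θ (BB cf N) = 0)
    (hmin : ∀ w, w ≠ 0 → ev2 V.τ w (BB cf N) = 0 → lg V θ ≤ lg V w) (Z : AddSubgroup Ω)
    (hZ : bLe V θ ≤ Z) (gZ : ∀ u ∈ Z, g u ∈ Z) {a₁ b₁ : ℕ} (h1 : R a₁ b₁)
    (hd : ∀ u, u ≠ 0 → ev2 V.τ u (BB cf N) = 0 → u ∉ Z → ∀ a b, R a b → ¬ (a = a₁ ∧ b = b₁) →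
      2 ^ a₁ * (2 ^ b * lg V u - (-2 ^ a₀ + lg V θ)) <
        2 ^ a * (2 ^ b₁ * lg V u - (-2 ^ a₀ + lg V θ))) :
    ∃ h', Sub (BB cf N) h' ∧ ev2 V.τ θ h' = 0 ∧ ∀ u, ev2 V.τ u h' = 0 → u ∈ Z := by
  obtain ⟨h', hS, e1, e2⟩ := clo (h.au hf ha) V.transcendental_τ g gc gτ (bLe V θ) Z hZ gZ
    fun u t zu hu zt ht => by
      have hu0 : u ≠ 0 := fun e => hu (e ▸ Z.zero_mem)
      refine tpl h V V.τ_ne (lg_tau_ne V) ha (fun c hc => ?_) hθ hmin hu0 zu ?_ h1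
        (fun a b r ne => ?_) zt ht
      · rw [lg_tau]; linarith [pow_le (hm c hc)]
      · rw [← v_lt_iff hθ hu0]
        exact not_le.1 fun e => hu (hZ e)
      · rw [lg_tau, mul_neg, mul_one]
        exact hd u hu0 zu hu a b r ne
  exact ⟨h', hS, e1 θ zθ (mem_bLe.2 le_rfl), e2⟩

end C12

open C12

theorem c1 (h : Real φ R) {ν : ℝ} (hν : 0 < ν) {m n N a₀ : ℕ} (hm : 1 ≤ m) (hn : 1 ≤ n)
    (h0 : R a₀ 0) (hA : R 0 m) (hC : R n N) (he : (2 : ℝ) ^ N = 2 ^ m + ν * (2 ^ n - 1))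
    (hR : ∀ a b, R a b → (2 : ℝ) ^ b ≤ 2 ^ m + ν * (2 ^ a - 1) ∧ (a < n ∨ (a = n ∧ b = N))) :
    False := by
  classical
  obtain ⟨cf, N', h, hf⟩ := h
  obtain ⟨Ω, _, _, _, V, g, gτ, gc, gv⟩ := existsVal k φ
  have hex : ∃ a, R a 0 := ⟨a₀, h0⟩
  have ha := Nat.find_spec hex
  have hmin0 : ∀ c, R c 0 → Nat.find hex ≤ c := fun c hc => Nat.find_min' hex hc
  set a' := Nat.find hex
  have hlt : ∀ a b, R a b → ¬ (a = n ∧ b = N) → a < n ∧ b < N := fun a b r ne => by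
    have h1 := (hR a b r).2.resolve_right ne
    refine ⟨h1, lt_of_pow_lt ?_⟩
    have h2 := mul_lt_mul_of_pos_left (sub_lt_sub_right (pow_lt h1) 1) hν
    linarith [(hR a b r).1]
  have hle : ∀ a b, R a b → b ≤ N := fun a b r => by
    by_cases e : a = n ∧ b = N
    · exact e.2.le
    · exact (hlt a b r e).2.le
  have hl : (BB cf N').leadingCoeff = monomial (2 ^ n) (cf n N) := by
    rw [(h.top hC hle).2]
    refine h.row_eq hC fun c r => ?_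
    by_contra e
    exact lt_irrefl _ (hlt c N r fun e' => e e'.1).2
  obtain ⟨y, hy, zy, ly⟩ := h.root_le V V.τ_ne (lg_tau_ne V) ha (fun c hc => by
    rw [lg_tau]; linarith [pow_le (hmin0 c hc)]) hA hm (ρ := 0) (by
    rw [lg_tau]; linarith [one_le_pow a'])
  obtain ⟨θ, hθ, zθ, hmin⟩ := exists_min_root V V.transcendental_τ (BB_ne h ha) hy zy
  have lθ : lg V θ ≤ 0 := (hmin y hy zy).trans ly
  obtain ⟨h', hS, z', hZ⟩ := cyc h hf V g gτ gc ha hmin0 hθ zθ hmin (bLe V 1)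
    (fun u hu => mem_bLe.2 ((mem_bLe.1 hu).trans (by
      rw [map_one]; exact (v_le_one_iff hθ).2 lθ)))
    (fun u hu => by rw [mem_bLe, gv]; exact hu) hA fun u hu zu hZ a b r ne => by
      have hx : 0 < lg V u := by
        rw [mem_bLe, map_one, v_le_one_iff hu, not_le] at hZ
        exact hZ
      obtain ⟨c, e, r', ne', t⟩ := h.tie2 V V.τ_ne hu zu hC
      rw [lg_tau] at t
      have hc := pow_lt (hlt c e r' ne').1
      have hν1 : ν * lg V u ≤ 1 := by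
        have h1 := mul_le_mul_of_nonneg_right (hR c e r').1 hx.le
        have h2 : (ν * lg V u) * (2 ^ n - 2 ^ c) ≤ 1 * (2 ^ n - 2 ^ c) := by
          rw [he] at t; linarith
        exact le_of_mul_le_mul_right h2 (by linarith)
      have h3 := mul_le_mul_of_nonneg_right (hR a b r).1 hx.le
      rcases Nat.eq_zero_or_pos a with rfl | hpos
      · have h4 : b ≤ m := le_of_pow_le (by simpa using (hR 0 b r).1)
        have h5 : b < m := lt_of_le_of_ne h4 fun e => ne ⟨rfl, e⟩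
        have := mul_lt_mul_of_pos_right (pow_lt h5) hx
        linarith
      · have h4 : (1 : ℝ) < 2 ^ a := by simpa using pow_lt hpos
        have h5 : 0 < 2 ^ m * lg V u := by positivity
        have h6 := mul_le_mul_of_nonneg_right hν1 (sub_pos.2 h4).le
        have h7 : 1 < 2 ^ m * lg V u - (-2 ^ a' + lg V θ) := by linarith [one_le_pow a']
        have h8 := mul_lt_mul_of_pos_left h7 (sub_pos.2 h4)
        linarith
  refine bud1 V hS ((h.iff _ _).2 hC) hl hθ z' (fun u hu zu => ?_) fun u hu zu => ?_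
  · have := mem_bLe.1 (hZ u zu)
    rwa [map_one, v_le_one_iff hu] at this
  · obtain ⟨c, e, r', ne', t⟩ := h.tie2 V (inv_ne_zero V.τ_ne) hu zu hC
    rw [lg_tau_inv] at t
    by_contra hx
    have h1 := mul_le_mul_of_nonneg_right (pow_lt (hlt c e r' ne').2).le (not_lt.1 hx)
    linarith [pow_lt (hlt c e r' ne').1]

theorem c2m (h : Real φ R) {ν : ℝ} (hν : 0 < ν) {n N : ℕ} (hn : 1 ≤ n) (hA : R 0 0) (hC : R N n)
    (he : (2 : ℝ) ^ N = 1 + ν * (2 ^ n - 1))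
    (hR : ∀ a b, R a b → (2 : ℝ) ^ a ≤ 1 + ν * (2 ^ b - 1) ∧ (b < n ∨ (b = n ∧ a = N)))
    {a₁ b₁ : ℕ} (h1 : R a₁ b₁) (hlt : a₁ < b₁)
    (hmin : ∀ a b, R a b → b + a₁ < b₁ + a ∨ (b + a₁ = b₁ + a ∧ a₁ ≤ a))
    {a₂ b₂ : ℕ} (h2 : R a₂ b₂) (hb : b₂ < n)
    (hs : 2 * ((2 : ℝ) ^ n - 2 ^ b₂) * 2 ^ a₁ < 2 ^ b₁ * (2 ^ N - 2 ^ a₂)) : False := by
  obtain ⟨cf, N', h, hf⟩ := h
  obtain ⟨Ω, _, _, _, V, g, gτ, gc, gv⟩ := existsVal k φ
  have r0 : ∀ c, R c 0 → c = 0 := fun c r =>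
    Nat.le_zero.1 (le_of_pow_le (by simpa using (hR c 0 r).1))
  have hle : ∀ a b, R a b → b ≤ n := fun a b r => by
    rcases (hR a b r).2 with e | e
    · exact e.le
    · exact e.1.le
  have rn : ∀ c, R c n → c = N := fun c r => ((hR c n r).2.resolve_left (lt_irrefl _)).2
  have hl : (BB cf N').leadingCoeff = monomial (2 ^ N) (cf N n) := by
    rw [(h.top hC hle).2]
    exact h.row_eq hC rn
  have hone : (BB cf N').coeff 1 = monomial (2 ^ 0) (cf 0 0) := by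
    rw [h.cf_one]
    exact h.row_eq hA r0
  obtain ⟨ρ, hρ⟩ : ∃ ρ : ℝ, 2 ^ b₁ * ρ = 2 ^ a₁ := ⟨2 ^ a₁ / 2 ^ b₁, by field_simp⟩
  have pb : (0 : ℝ) < 2 ^ b₁ := by positivity
  have ρ0 : 0 < ρ := by
    by_contra e
    have := mul_nonpos_of_nonneg_of_nonpos pb.le (not_lt.1 e)
    linarith [one_le_pow a₁]
  have ρ1 : ρ < 1 := by
    refine lt_of_mul_lt_mul_left ?_ pb.le
    rw [hρ, mul_one]
    exact pow_lt hlt
  obtain ⟨y, hy, zy, ly⟩ := h.root_le V V.τ_ne (lg_tau_ne V) hA (fun c hc => by rw [r0 c hc]) h1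
    (by omega) (ρ := ρ) (by rw [lg_tau, hρ]; linarith)
  obtain ⟨θ, hθ, zθ, hmn⟩ := exists_min_root V V.transcendental_τ (BB_ne h hA) hy zy
  have lθ : lg V θ ≤ ρ := (hmn y hy zy).trans ly
  have lθ0 : 0 ≤ lg V θ := by
    obtain ⟨c, e, r', ne', t⟩ := h.tie2 V V.τ_ne hθ zθ hA
    rw [lg_tau] at t
    by_contra hx
    have he0 : 0 < e := Nat.pos_of_ne_zero fun e0 => ne' ⟨r0 c (e0 ▸ r'), e0⟩
    have := mul_lt_mul_of_neg_right (pow_lt he0) (not_le.1 hx)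
    linarith [one_le_pow c]
  obtain ⟨y', hy', zy', ly'⟩ := h.root_gt V V.τ_ne (lg_tau_ne V) hC hle
    (fun c hc => by rw [rn c hc]) h2 (ρ := 2 * ρ) (by
      rw [lg_tau]
      rw [← hρ] at hs
      have : 2 ^ b₁ * (2 * ((2 : ℝ) ^ n - 2 ^ b₂) * ρ) < 2 ^ b₁ * (2 ^ N - 2 ^ a₂) := by linarith
      have := lt_of_mul_lt_mul_left this pb.le
      linarith)
  obtain ⟨w, hw, zw, hmx⟩ := exists_max_root V V.transcendental_τ (BB_ne h hA) hy' zy'
  have lw : 2 * ρ < lg V w := ly'.trans_le (hmx y' hy' zy')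
  obtain ⟨h', hS, z', hZ⟩ := cyc h hf V g gτ gc hA (fun c _ => Nat.zero_le c) hθ zθ hmn
    (bLt V w hw) (fun u hu => mem_bLt.2 ((mem_bLe.1 hu).trans_lt
      ((v_lt_iff hθ hw).2 (by linarith))))
    (fun u hu => by rw [mem_bLt, gv]; exact hu) h1 fun u hu zu hZ a b r ne => by
      have hx : 2 * ρ < lg V u := by
        rw [mem_bLt, v_lt_iff hu hw, not_lt] at hZ
        exact lw.trans_le hZ
      have pa := one_le_pow a
      have pa1 := one_le_pow a₁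
      rcases hmin a b r with e | e
      · have e1 := two_mul_pow_le e
        rw [pow_add, pow_add] at e1
        have e2 := mul_le_mul_of_nonneg_right e1 (by linarith : 0 ≤ lg V u)
        have e3 := mul_lt_mul_of_pos_left hx (by positivity : (0 : ℝ) < 2 ^ b₁ * 2 ^ a)
        have e4 : (2 : ℝ) ^ b₁ * 2 ^ a * (2 * ρ) = 2 * (2 ^ a * 2 ^ a₁) := by rw [← hρ]; ring
        have e5 := mul_le_mul_of_nonneg_right pa (by linarith : (0 : ℝ) ≤ 2 ^ a₁)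
        have e6 := mul_nonneg (by linarith : (0 : ℝ) ≤ 2 ^ a₁) lθ0
        have e7 := mul_nonneg (by linarith : (0 : ℝ) ≤ 2 ^ a) (by linarith : 0 ≤ 1 - lg V θ)
        linarith
      · have e1 : (2 : ℝ) ^ b * 2 ^ a₁ = 2 ^ b₁ * 2 ^ a := by rw [← pow_add, ← pow_add, e.1]
        have e2 : a₁ < a := lt_of_le_of_ne e.2 fun e' => ne ⟨e'.symm, by omega⟩
        have e3 := mul_pos (sub_pos.2 (pow_lt e2)) (by linarith : 0 < 1 - lg V θ)
        have e4 : (2 : ℝ) ^ b * 2 ^ a₁ * lg V u = 2 ^ b₁ * 2 ^ a * lg V u := by rw [e1]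
        linarith
  refine mean V (addIn_BB cf N') hS ((h.iff _ _).2 hC) ((h.iff _ _).2 hA) hl hone (ρ := -ν)
    (fun u hu zu => h.single V hA hC (by linarith) (fun a b r => ⟨hle a b r, ?_⟩) hu zu) hθ z' hmn
    hw zw fun u hu zu => (v_lt_iff hu hw).1 (mem_bLt.1 (hZ u zu))
  linarith [(hR a b r).1]

theorem c2b (h : Real φ R) {σ : ℝ} {n w : ℕ} (hw : 1 ≤ w) (hA : R n 0) (hC : R 0 w)
    (he : 1 + σ * 2 ^ w = 2 ^ n + σ)
    (hR : ∀ a b, R a b → (2 : ℝ) ^ a + σ * 2 ^ b ≤ 2 ^ n + σ ∧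
      ((a = 0 ∧ b = w) ∨ (1 ≤ a ∧ b < w)))
    (h0 : ∀ a, R a 0 → a = n) {a₁ b₁ : ℕ} (h1 : R a₁ b₁)
    (hlt : (2 : ℝ) ^ a₁ + σ * 2 ^ b₁ < 2 ^ n + σ) : False := by
  obtain ⟨cf, N', h, hf⟩ := h
  obtain ⟨Ω, _, _, _, V, g, gτ, gc, gv⟩ := existsVal k φ
  have hle : ∀ a b, R a b → b ≤ w := fun a b r => by
    rcases (hR a b r).2 with e | e
    · exact e.2.le
    · exact e.2.le
  have rw0 : ∀ c, R c w → c = 0 := fun c r =>
    ((hR c w r).2.resolve_right fun e => lt_irrefl _ e.2).1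
  have hl : (BB cf N').leadingCoeff = monomial (2 ^ 0) (cf 0 w) := by
    rw [(h.top hC hle).2]
    exact h.row_eq hC rw0
  have hone : (BB cf N').coeff 1 = monomial (2 ^ n) (cf n 0) := by
    rw [h.cf_one]
    exact h.row_eq hA h0
  obtain ⟨y, hy, zy, ly⟩ := h.root_lt V V.τ_ne (lg_tau_ne V) hA (fun c hc => by rw [h0 c hc]) h1
    (ρ := -σ) (by rw [lg_tau]; linarith)
  obtain ⟨θ, hθ, zθ, hmn⟩ := exists_min_root V V.transcendental_τ (BB_ne h hA) hy zy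
  have lθ : lg V θ < -σ := (hmn y hy zy).trans_lt ly
  obtain ⟨y', hy', zy', ly'⟩ := h.root_gt V V.τ_ne (lg_tau_ne V) hC hle
    (fun c hc => by rw [rw0 c hc]) h1 (ρ := -σ) (by rw [lg_tau]; linarith)
  obtain ⟨u₁, hu₁, zu₁, hmx⟩ := exists_max_root V V.transcendental_τ (BB_ne h hA) hy' zy'
  have lw : -σ < lg V u₁ := ly'.trans_le (hmx y' hy' zy')
  obtain ⟨h', hS, z', hZ⟩ := cyc h hf V g gτ gc hA (fun c r => (h0 c r).ge) hθ zθ hmn
    (bLt V u₁ hu₁) (fun u hu => mem_bLt.2 ((mem_bLe.1 hu).trans_lt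
      ((v_lt_iff hθ hu₁).2 (by linarith))))
    (fun u hu => by rw [mem_bLt, gv]; exact hu) hC fun u hu zu hZ a b r ne => by
      have hx : lg V u₁ ≤ lg V u := by
        rw [mem_bLt, v_lt_iff hu hu₁, not_lt] at hZ
        exact hZ
      have e1 : -(2 : ℝ) ^ a + 2 ^ b * lg V u ≤ -1 + 2 ^ w * lg V u := by
        by_contra e
        obtain ⟨t, ht, zt, lt⟩ := h.root_gt V V.τ_ne (lg_tau_ne V) hC hle
          (fun c hc => by rw [rw0 c hc]) r (ρ := lg V u) (by rw [lg_tau]; linarith)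
        linarith [hmx t ht zt]
      have e2 : (1 : ℝ) < 2 ^ a := by
        simpa using pow_lt (show 0 < a from ((hR a b r).2.resolve_left ne).1)
      have e3 := mul_lt_mul_of_pos_left (lw.trans_le hx) (by positivity : (0 : ℝ) < 2 ^ w)
      have e4 : 1 < 2 ^ w * lg V u - (-2 ^ n + lg V θ) := by linarith
      have e5 := mul_lt_mul_of_pos_left e4 (sub_pos.2 e2)
      linarith
  exact mean V (addIn_BB cf N') hS ((h.iff _ _).2 hC) ((h.iff _ _).2 hA) hl hone (ρ := σ)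
    (fun u hu zu => h.single V hA hC (by linarith) (fun a b r => ⟨hle a b r, (hR a b r).1⟩) hu zu)
    hθ z' hmn hu₁ zu₁ fun u hu zu => (v_lt_iff hu hu₁).1 (mem_bLt.1 (hZ u zu))

end W48

end Pool.Agent.Lib.MP_346d6a_co
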