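import Pool.Agent.Lib.MP_346d6a_co.W48Fin
import Pool.Agent.Lib.MP_346d6a_co.W48Bud

/-!
The bottom row has a nonzero root: nested modules and a budget.
-/

set_option maxSynthPendingDepth 3

namespace Pool.Agent.Lib.MP_346d6a_co

open Polynomial

namespace W48

open W28

namespace C2c

variable {k Ω : Type} [Field k] [Field Ω] [Algebra k Ω] (V : Val k Ω)

theorem mono_of_no_root [IsAlgClosed k] {p : k[X]} (hp : p ≠ 0)
    (h : ∀ κ, κ ≠ 0 → p.eval κ ≠ 0) : ∃ (j : ℕ) (c : k), p = X ^ j * C c := by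
  obtain ⟨q, hq, hd⟩ := exists_eq_pow_rootMultiplicity_mul_and_not_dvd p hp 0
  have h0 : q.degree = 0 := by
    by_contra h1
    obtain ⟨x, hx⟩ := IsAlgClosed.exists_root q h1
    by_cases e : x = 0
    · exact hd (dvd_iff_isRoot.2 (e ▸ hx))
    · exact h x e (by rw [hq, eval_mul, hx.eq_zero, mul_zero])
  refine ⟨p.rootMultiplicity 0, q.coeff 0, ?_⟩
  rw [← eq_C_of_degree_eq_zero h0]
  simpa using hq

theorem res_s (κ : k) : V.v (algebraMap k Ω κ + V.τ - algebraMap k Ω κ) < 1 := by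
  simpa using V.τ_lt

theorem lg_le (κ : k) {p : k[X]} (hp : p ≠ 0) : lg V (aeval (algebraMap k Ω κ + V.τ) p) ≤ 0 :=
  (v_le_one_iff (aeval_ne (transcendental_add_tau κ) hp)).1
    (V.le_one_of_res (res_aeval (res_s V κ) p))

theorem lg_eq {κ : k} {p : k[X]} (hp : p.eval κ ≠ 0) :
    lg V (aeval (algebraMap k Ω κ + V.τ) p) = 0 := by
  have h := V.const _ hp
  exact lg_of_v_one ((V.v.map_eq_of_sub_lt (h ▸ res_aeval (res_s V κ) p)).trans h)

theorem lg_lt {κ : k} {p : k[X]} (hp : p ≠ 0) (h : p.eval κ = 0) :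
    lg V (aeval (algebraMap k Ω κ + V.τ) p) < 0 :=
  (v_lt_one_iff (aeval_ne (transcendental_add_tau κ) hp)).1
    (by simpa [h] using res_aeval (res_s V κ) p)

/-- The roots are bounded where the leading coefficient does not vanish. -/
theorem bdd {B : k[X][X]} {κ : k} (hl : B.leadingCoeff.eval κ ≠ 0) {u : Ω}
    (z : ev2 (algebraMap k Ω κ + V.τ) u B = 0) : V.v u ≤ 1 := by
  refine v_le_one_of fun hu => ?_
  obtain ⟨j, h1, h2, h3⟩ := tie_row V (transcendental_add_tau κ) hu z (i := B.natDegree)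
    fun e => hl (by rw [leadingCoeff, e, eval_zero])
  have h4 : (j : ℝ) < B.natDegree := by
    exact_mod_cast lt_of_le_of_ne (le_natDegree_of_ne_zero h2) h1
  have h5 := lg_le V κ h2
  rw [← leadingCoeff, lg_eq V hl] at h3
  by_contra h6
  nlinarith

variable [CharP k 2] {φ : k ≃+* k} {cf : ℕ → ℕ → k} {N : ℕ} {R : ℕ → ℕ → Prop}

theorem ds_eq (h : Bi φ cf N R) {w : ℕ} (hC : R 0 w)
    (hR : ∀ a b, R a b → (a = 0 ∧ b = w) ∨ (1 ≤ a ∧ b < w)) :
    TStruct.ds (BB cf N) = monomial (2 ^ w) (C (cf 0 w)) := by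
  refine Polynomial.ext fun i => ?_
  rw [TStruct.coeff_ds, coeff_monomial]
  split_ifs with e
  · rw [← e, h.cf_BB, h.row_eq hC fun c hc => by have := hR c w hc; omega]
    simp [derivative_monomial]
  by_cases h0 : (BB cf N).coeff i = 0
  · rw [h0, derivative_zero]
  obtain ⟨b, rfl⟩ := addIn_BB cf N i h0
  rw [h.cf_BB, row, derivative_sum]
  refine Finset.sum_eq_zero fun a _ => ?_
  by_cases h1 : R a b
  · obtain ⟨a, rfl⟩ : ∃ a', a = a' + 1 := by
      rcases hR a b h1 with ⟨-, rfl⟩ | ⟨h2, -⟩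
      · exact absurd rfl e
      · exact ⟨a - 1, by omega⟩
    rw [derivative_monomial, Nat.cast_pow, Nat.cast_ofNat, CharTwo.two_eq_zero (R := k),
      zero_pow a.succ_ne_zero, mul_zero, map_zero]
  · rw [h.zero h1, map_zero, map_zero]

variable {B : k[X][X]}

/-- The small roots form a module. -/
theorem small (hB : Au φ B) {κ : k} (hl : B.leadingCoeff.eval κ ≠ 0)
    (hd : ∀ t, t ≠ 0 → (TStruct.ds B).evalEval κ t ≠ 0) {u t : Ω}
    (zu : ev2 (algebraMap k Ω κ + V.τ) u B = 0) (hu : ¬ V.v u < 1)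
    (zt : ev2 (algebraMap k Ω κ + V.τ) t B = 0) (ht : V.v t < 1) :
    col2 k (algebraMap k Ω κ + V.τ) (u + t) = col2 k (algebraMap k Ω κ + V.τ) u := by
  have := charP k Ω
  have h1 := bdd V hl zu
  refine sm V B (transcendental_add_tau κ) (res_s V κ) (rs_spec h1) ?_ zu
    (by rw [hB.add.ev2_add, zu, zt, add_zero]) (hd _ fun e => hu ((rs_eq_zero h1).1 e))
  rw [add_sub_right_comm]
  exact V.v.map_add_lt (rs_spec h1) ht

variable [IsAlgClosed Ω]

/-- A closed subgroup that is at least as large as the module contains it. -/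
theorem nested {h h' : k[X][X]} (hS : Sub B h) (hS' : Sub B h') {s : Ω} (hs : Transcendental k s)
    (hM : ∀ u t, ev2 s u B = 0 → ¬ V.v u < 1 → ev2 s t B = 0 → V.v t < 1 →
      col2 k s (u + t) = col2 k s u)
    (h1 : ∀ u, ev2 s u h' = 0 ↔ ev2 s u B = 0 ∧ V.v u < 1) (hle : h'.natDegree ≤ h.natDegree)
    {t : Ω} (zt : ev2 s t B = 0) (ht : V.v t < 1) : ev2 s t h = 0 := by
  have := charP k Ω
  by_cases h2 : ∃ u, ev2 s u h = 0 ∧ ¬ V.v u < 1
  · obtain ⟨u, zu, hu⟩ := h2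
    have h3 := root_of_col (hM u t (hS.root zu) hu zt ht) zu
    rwa [hS.add.ev2_add, zu, zero_add] at h3
  obtain ⟨S, m, c, -⟩ := sum_lg V hS.add hS.sep hs
  obtain ⟨S', m', c', -⟩ := sum_lg V hS'.add hS'.sep hs
  have h3 : S = S' := Finset.eq_of_subset_of_card_le (fun u hu => (m' u).2 ⟨((m u).1 hu).1,
    (h1 u).2 ⟨hS.root ((m u).1 hu).2, by_contra fun e => h2 ⟨u, ((m u).1 hu).2, e⟩⟩⟩) (by omega)
  by_cases h0 : t = 0
  · rw [h0]
    exact ev2_zero hS.add s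
  · exact ((m t).1 (h3 ▸ (m' t).2 ⟨h0, (h1 t).2 ⟨zt, ht⟩⟩)).2

/-- The budget at a finite place. -/
theorem quo (hB : Au φ B) {h : k[X][X]} (hS : Sub B h) {Q : k[X]} (hQ : B.coeff 1 = h.coeff 1 * Q)
    {κ : k} (hl : B.leadingCoeff.eval κ ≠ 0)
    (hn : ∀ t, ev2 (algebraMap k Ω κ + V.τ) t B = 0 → V.v t < 1 →
      ev2 (algebraMap k Ω κ + V.τ) t h = 0) : Q.eval κ ≠ 0 := fun e => by
  classical
  have hs := transcendental_add_tau (V := V) κ
  obtain ⟨S, m, -, c⟩ := sum_lg V hS.add hS.sep hs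
  obtain ⟨S', m', -, c'⟩ := sum_lg V hB.add hB.sep hs
  have h0 : Q ≠ 0 := right_ne_zero_of_mul (hQ ▸ hB.sep)
  have h1 : h.leadingCoeff.eval κ ≠ 0 := fun e' => by
    obtain ⟨q, hq⟩ := hS.dvd_lc
    exact hl (by rw [hq, eval_mul, e', zero_mul])
  have h2 : ∑ u ∈ S, lg V u = ∑ u ∈ S', lg V u := by
    refine Finset.sum_subset (fun u hu => (m' u).2 ⟨((m u).1 hu).1, hS.root ((m u).1 hu).2⟩)
      fun u hu hu' => lg_of_v_one (le_antisymm (bdd V hl ((m' u).1 hu).2) (not_lt.1 fun h3 => ?_))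
    exact hu' ((m u).2 ⟨((m' u).1 hu).1, hn u ((m' u).1 hu).2 h3⟩)
  rw [c, c', lg_eq V hl, lg_eq V h1, hQ, map_mul,
    lg_mul (aeval_ne hs hS.sep) (aeval_ne hs h0)] at h2
  have := lg_lt V h0 e
  linarith

end C2c

open C2c

variable {k : Type} [Field k] [IsAlgClosed k] [CharP k 2] {φ : k ≃+* k} {R : ℕ → ℕ → Prop}

theorem c2c (h : Real φ R) {σ : ℝ} {n w : ℕ} (hw : 1 ≤ w) (hA : R n 0) (hC : R 0 w)
    (he : 1 + σ * 2 ^ w = 2 ^ n + σ)
    (hR : ∀ a b, R a b → (2 : ℝ) ^ a + σ * 2 ^ b ≤ 2 ^ n + σ ∧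
      ((a = 0 ∧ b = w) ∨ (1 ≤ a ∧ b < w)))
    {a₁ : ℕ} (h1 : R a₁ 0) (hne : a₁ ≠ n) : False := by
  classical
  obtain ⟨cf, N, h, hf⟩ := h
  obtain ⟨Ω, _, _, _, V, -⟩ := existsVal k φ
  have hR' := fun a b r => (hR a b r).2
  have hB := h.au hf hA
  have hc := (h.iff 0 w).2 hC
  obtain ⟨hdeg, hlc⟩ := h.top hC fun a b r => by have := hR' a b r; omega
  rw [h.row_eq hC fun c hc => by have := hR' c w hc; omega, pow_zero] at hlc
  have hl : ∀ κ : k, κ ≠ 0 → (BB cf N).leadingCoeff.eval κ ≠ 0 := fun κ hκ => by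
    simp [hlc, hc, hκ]
  have hM := fun (κ : k) (hκ : κ ≠ 0) (u t : Ω) => small V hB (hl κ hκ) (u := u) (t := t)
    fun t ht => by simp [ds_eq h hC hR', evalEval, hc, ht]
  have ex : ∀ κ : k, ∃ h', κ ≠ 0 → Sub (BB cf N) h' ∧ ∀ u, ev2 (algebraMap k Ω κ + V.τ) u h' = 0 ↔
      ev2 (algebraMap k Ω κ + V.τ) u (BB cf N) = 0 ∧ V.v u < 1 := fun κ => by
    by_cases hκ : κ = 0
    · exact ⟨0, fun e => absurd hκ e⟩
    obtain ⟨h', e1, e2⟩ := clo_eq hB (transcendental_add_tau (V := V) κ) (bLt V 1 one_ne_zero)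
      fun u t zu hu zt ht => hM κ hκ u t zu (by simpa [mem_bLt] using hu) zt
        (by simpa [mem_bLt] using ht)
    exact ⟨h', fun _ => ⟨e1, by simpa [mem_bLt] using e2⟩⟩
  choose H hH using ex
  have r0 := h.row_ne hA
  have cn : (row cf N 0).coeff (2 ^ n) ≠ 0 := by rw [h.cf_row]; exact (h.iff n 0).2 hA
  have ca : (row cf N 0).coeff (2 ^ a₁) ≠ 0 := by rw [h.cf_row]; exact (h.iff a₁ 0).2 h1
  have hT : ∀ κ, κ ∈ (row cf N 0).roots.toFinset.erase 0 ↔ κ ≠ 0 ∧ (row cf N 0).eval κ = 0 :=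
    fun κ => by simp [r0]
  have hne' : ((row cf N 0).roots.toFinset.erase 0).Nonempty := by
    by_contra h2
    obtain ⟨j, c, e⟩ := mono_of_no_root r0 fun κ hκ e => h2 ⟨κ, (hT κ).2 ⟨hκ, e⟩⟩
    rw [e, coeff_mul_C, coeff_X_pow] at cn ca
    have e1 : 2 ^ n = j := by by_contra e'; simp [e'] at cn
    have e2 : 2 ^ a₁ = j := by by_contra e'; simp [e'] at ca
    exact hne (Nat.pow_right_injective le_rfl (e2.trans e1.symm))
  obtain ⟨κ₀, m0, hmax⟩ := Finset.exists_max_image _ (fun κ => (H κ).natDegree) hne'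
  obtain ⟨k0, -⟩ := (hT κ₀).1 m0
  obtain ⟨hS, hr⟩ := hH κ₀ k0
  generalize H κ₀ = p at hS hr hmax
  have hs := transcendental_add_tau (V := V) κ₀
  have hB0 : BB cf N ≠ 0 := fun e => hB.sep (by rw [e, coeff_zero])
  rcases (natDegree_le_of_dvd hS.dvd hB0).eq_or_lt with h2 | h2
  · obtain ⟨S, m, c, -⟩ := sum_lg V hS.add hS.sep hs
    obtain ⟨S', m', c', -⟩ := sum_lg V hB.add hB.sep hs
    have h3 : S = S' := Finset.eq_of_subset_of_card_le
      (fun u hu => (m' u).2 ⟨((m u).1 hu).1, hS.root ((m u).1 hu).2⟩) (by omega)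
    refine c2fin h hf hC hA hw hR' k0 fun β hβ => by_contra fun h4 => ?_
    obtain ⟨y, y0, zy, hy⟩ := root_ge V (B := BB cf N) hs (i := 2 ^ β) (ρ := 0)
      (hdeg ▸ Nat.pow_lt_pow_right one_lt_two hβ)
      (by rw [h.cf_BB]; exact fun e => h4 (by rw [e, eval_zero]))
      (by rw [h.cf_BB, lg_eq V h4, lg_eq V (hl κ₀ k0)]; simp)
    have h5 := ((hr y).1 ((m y).1 (h3 ▸ (m' y).2 ⟨y0, zy⟩)).2).2
    rw [v_lt_one_iff y0] at h5
    linarith
  obtain ⟨Q, hQ⟩ := hS.dvd_one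
  have hQ' : row cf N 0 = p.coeff 1 * Q := by rw [← hQ, h.cf_one]
  have Q0 : Q ≠ 0 := right_ne_zero_of_mul (hQ' ▸ r0)
  obtain ⟨j, c, e⟩ := mono_of_no_root Q0 fun κ hκ e =>
    quo V hB hS hQ (hl κ hκ) (fun t zt ht => nested V hS (hH κ hκ).1 (transcendental_add_tau κ)
      (hM κ hκ) (hH κ hκ).2 (hmax κ ((hT κ).2 ⟨hκ, by rw [hQ', eval_mul, e, mul_zero]⟩)) zt ht) e
  have hj : j ≤ 2 ^ a₁ := by
    by_contra h3
    exact ca (X_pow_dvd_iff.1 (show X ^ j ∣ row cf N 0 from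
      hQ' ▸ e ▸ (dvd_mul_right _ _).mul_left _) _ (not_le.1 h3))
  have han : a₁ < n := by
    have h3 := (hR a₁ 0 h1).1
    rw [pow_zero, mul_one, add_le_add_iff_right] at h3
    exact lt_of_le_of_ne ((pow_le_pow_iff_right₀ one_lt_two).1 h3) hne
  have hd1 : 2 ^ n ≤ (p.coeff 1).natDegree + j := by
    have h3 := le_natDegree_of_ne_zero cn
    rw [hQ', e] at h3
    refine h3.trans (natDegree_mul_le.trans ?_)
    exact Nat.add_le_add_left ((natDegree_mul_C_le _ _).trans (natDegree_X_pow_le j)) _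
  have p0 : p ≠ 0 := fun e => hS.sep (by rw [e, coeff_zero])
  have l0 := leadingCoeff_ne_zero.2 p0
  obtain ⟨S, m, c1, c2⟩ := sum_lg V hS.add hS.sep (transcendental_tau_inv (V := V))
  rw [lg_aeval_tau_inv hS.sep, lg_aeval_tau_inv l0, Finset.sum_congr rfl fun u hu =>
    h.single V hA hC (by simpa using he) (fun a b r => ⟨by have := hR' a b r; omega, (hR a b r).1⟩)
      ((m u).1 hu).1 (hS.root ((m u).1 hu).2), Finset.sum_const, nsmul_eq_mul] at c2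
  have hl0 : p.leadingCoeff.natDegree = 0 := by
    have h3 := natDegree_le_of_dvd (hS.sq h2) (leadingCoeff_ne_zero.2 hB0)
    rw [natDegree_pow, hlc] at h3
    have := natDegree_monomial_le (cf 0 w) (m := 1)
    omega
  obtain ⟨b, hb⟩ := hS.add _ l0
  rw [hb, hdeg] at h2
  have h3 : 2 ^ (b + 1) ≤ 2 ^ w :=
    Nat.pow_le_pow_right two_pos ((Nat.pow_lt_pow_iff_right one_lt_two).1 h2)
  have h4 : 2 ^ (a₁ + 1) ≤ 2 ^ n := Nat.pow_le_pow_right two_pos han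
  have h5 : (2 : ℝ) * (S.card + 1) ≤ 2 ^ w := by
    exact_mod_cast (show 2 * (S.card + 1) ≤ 2 ^ w by rw [c1, hb, ← pow_succ']; exact h3)
  have h6 : (2 : ℝ) ^ n ≤ 2 * (p.coeff 1).natDegree := by
    exact_mod_cast (show 2 ^ n ≤ 2 * (p.coeff 1).natDegree by rw [pow_succ] at h4; omega)
  have h7 : (1 : ℝ) ≤ 2 ^ n := one_le_pow₀ one_le_two
  have h8 : (0 : ℝ) ≤ S.card := Nat.cast_nonneg _
  have h9 : 0 ≤ σ := by
    by_contra h10
    nlinarith
  rw [hl0, Nat.cast_zero] at c2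
  nlinarith [mul_le_mul_of_nonneg_left h5 h9]

end W48

end Pool.Agent.Lib.MP_346d6a_co
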