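import Pool.Agent.Lib.MP_346d6a_co.W48Def

/-!
The views of a trilinear form: shifts, exchange of the variables, the adjoint.
-/

set_option maxSynthPendingDepth 3

namespace Pool.Agent.Lib.MP_346d6a_co

open Polynomial

namespace W48

open W28

namespace Vw

section A

variable {Ω : Type} [Field Ω]

/-- The additive polynomial with coefficients `c i`, `i < n`. -/
noncomputable def AP (c : ℕ → Ω) (n : ℕ) : Polynomial Ω :=
  ∑ i ∈ Finset.range n, monomial (2 ^ i) (c i)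

theorem eval_AP (c : ℕ → Ω) (n : ℕ) (u : Ω) :
    (AP c n).eval u = ∑ i ∈ Finset.range n, c i * u ^ 2 ^ i := by
  simp [AP, eval_finsetSum]

theorem coeff_AP_one (c : ℕ → Ω) (n : ℕ) : (AP c (n + 1)).coeff 1 = c 0 := by
  have : (AP c (n + 1)).coeff (2 ^ 0) = c 0 := by
    rw [AP, finsetSum_coeff]
    simp only [coeff_monomial, Nat.pow_right_inj (one_lt_two), Finset.sum_ite_eq',
      Finset.mem_range, Nat.zero_lt_succ, if_true]
  simpa using this

/-- The initial sums of the adjoint. -/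
def tt (ρ : ℕ → Ω) (i : ℕ) : Ω := ∑ b ∈ Finset.range (i + 1), ρ b ^ 2 ^ (i - b)

theorem tt_zero (ρ : ℕ → Ω) : tt ρ 0 = ρ 0 := by simp [tt]

variable [CharP Ω 2]

theorem tt_succ (ρ : ℕ → Ω) (i : ℕ) : tt ρ (i + 1) = tt ρ i ^ 2 + ρ (i + 1) := by
  rw [tt, Finset.sum_range_succ, Nat.sub_self, pow_zero, pow_one, tt, sum_pow_char]
  congr 1
  refine Finset.sum_congr rfl fun b hb => ?_
  rw [← pow_mul, ← pow_succ, Nat.succ_sub (Nat.lt_succ_iff.1 (Finset.mem_range.1 hb))]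

theorem key (ρ : ℕ → Ω) (u : Ω) (n : ℕ) :
    ∑ b ∈ Finset.range (n + 1), ρ b * u ^ 2 ^ b =
      (∑ i ∈ Finset.range n, tt ρ i * u ^ 2 ^ i) ^ 2 +
        ∑ i ∈ Finset.range (n + 1), tt ρ i * u ^ 2 ^ i := by
  induction n with
  | zero => simp [tt_zero]
  | succ n ih =>
    rw [Finset.sum_range_succ _ (n + 1), ih, Finset.sum_range_succ _ (n + 1),
      Finset.sum_range_succ _ n, tt_succ, add_pow_char, mul_pow, ← pow_mul, ← pow_succ]
    have h2 : (2 : Ω) = 0 := CharTwo.two_eq_zero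
    linear_combination (-(tt ρ n ^ 2 * u ^ 2 ^ (n + 1))) * h2

theorem eval_AP_add (c : ℕ → Ω) (n : ℕ) (x y : Ω) :
    (AP c n).eval (x + y) = (AP c n).eval x + (AP c n).eval y := by
  simp only [eval_AP, add_pow_char_pow, mul_add, Finset.sum_add_distrib]

omit [CharP Ω 2] in
theorem map_eval_AP (g : Ω ≃+* Ω) {c : ℕ → Ω} (hc : ∀ i, g (c i) = c i) (n : ℕ) (x : Ω) :
    (AP c n).eval (g x) = g ((AP c n).eval x) := by
  simp only [eval_AP, map_sum, map_mul, map_pow, hc]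

theorem root [IsAlgClosed Ω] (g : Ω ≃+* Ω) {x : Ω} (hx : g x = x) (m : ℕ) :
    ∃ y, y ^ 2 ^ m = x ∧ g y = y := by
  obtain ⟨y, hy⟩ := IsAlgClosed.exists_pow_nat_eq x (pow_pos two_pos m)
  refine ⟨y, hy, ?_⟩
  have h : (g y - y) ^ 2 ^ m = 0 := by rw [sub_pow_char_pow, ← map_pow, hy, hx, sub_self]
  exact sub_eq_zero.1 (pow_eq_zero_iff (pow_pos two_pos m).ne' |>.1 h)

end A

section B

variable {k : Type} [Field k] {φ : k ≃+* k} {R : ℕ → ℕ → Prop} {cf : ℕ → ℕ → k} {N : ℕ}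

theorem bi_shift (h : Bi φ cf N R) (m n : ℕ) :
    Bi φ (fun a b => cf (a + m) (b + n)) N fun a b => R (a + m) (b + n) :=
  ⟨fun _ _ => h.fix _ _, fun a b r => by have := h.supp _ _ r; omega, fun _ _ => h.iff _ _⟩

theorem ev_shift {Ω : Type} [Field Ω] [Algebra k Ω] (h : Bi φ cf N R) (m n : ℕ)
    (hR : ∀ a b, R a b → m ≤ a ∧ n ≤ b) (s u : Ω) :
    ev2 s u (BB cf N) =
      ev2 (s ^ 2 ^ m) (u ^ 2 ^ n) (BB (fun a b => cf (a + m) (b + n)) N) := by
  classical
  obtain ⟨S, hS⟩ := (bi_shift h m n).exists_supp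
  rw [(bi_shift h m n).sum_eq S fun a b => (hS a b).2,
    h.sum_eq (S.image fun p => (p.1 + m, p.2 + n)) fun a b r => ?_, Finset.sum_image]
  · refine Finset.sum_congr rfl fun p _ => ?_
    simp only [← pow_mul, ← pow_add, add_comm m, add_comm n]
  · intro p _ q _ e
    simp only [Prod.mk.injEq, add_left_inj] at e
    exact Prod.ext e.1 e.2
  · obtain ⟨h1, h2⟩ := hR a b r
    refine Finset.mem_image.2 ⟨(a - m, b - n), (hS _ _).2 ?_, ?_⟩
    · rwa [Nat.sub_add_cancel h1, Nat.sub_add_cancel h2]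
    · simp only [Nat.sub_add_cancel h1, Nat.sub_add_cancel h2]

theorem tr_root {Ω : Type} [Field Ω] [Algebra k Ω] {s : Ω} {n : ℕ} (h : Transcendental k (s ^ n)) :
    Transcendental k s := fun e => h (e.pow n)

theorem ev_swap {Ω : Type} [Field Ω] [Algebra k Ω] (s u : Ω) :
    ev2 s u (BB (fun a b => cf b a) N) = ev2 u s (BB cf N) := by
  rw [ev2_BB', ev2_BB', Finset.sum_comm]
  refine Finset.sum_congr rfl fun _ _ => Finset.sum_congr rfl fun _ _ => mul_right_comm _ _ _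

theorem ev_trunc {Ω : Type} [Field Ω] [Algebra k Ω] (h : Bi φ cf N R) (M : ℕ)
    (hM : ∀ a b, R a b → b ≤ M) (s u : Ω) :
    ev2 s u (BB cf N) = ∑ b ∈ Finset.range (M + 1), aeval s (row cf N b) * u ^ 2 ^ b := by
  rw [h.sum_eq (Finset.range (N + 1) ×ˢ Finset.range (M + 1)) fun a b r => ?_,
    Finset.sum_product_right]
  · simp only [aeval_row, Finset.sum_mul]
  · simp only [Finset.mem_product, Finset.mem_range, Nat.lt_succ_iff]
    exact ⟨(h.supp a b r).1, hM a b r⟩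

/-- The coefficients of the adjoint. -/
def cfA (cf : ℕ → ℕ → k) (M : ℕ) (α β : ℕ) : k :=
  if β ≤ M ∧ β ≤ α then cf (α - β) (M - β) ^ 2 ^ β else 0

theorem bi_adj (h : Bi φ cf N R) (M : ℕ) :
    Bi φ (cfA cf M) (N + M) fun α β => β ≤ M ∧ β ≤ α ∧ R (α - β) (M - β) := by
  refine ⟨fun a b => ?_, fun a b r => ?_, fun a b => ?_⟩
  · rw [cfA]
    split_ifs
    · rw [map_pow, h.fix]
    · exact map_zero _
  · have := h.supp _ _ r.2.2
    omega
  · rw [cfA]
    split_ifs with e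
    · rw [Ne, pow_eq_zero_iff (pow_pos two_pos b).ne', ← Ne, h.iff]
      exact ⟨fun r => ⟨e.1, e.2, r⟩, fun r => r.2.2⟩
    · exact ⟨fun r => absurd rfl r, fun r => absurd ⟨r.1, r.2.1⟩ e⟩

theorem ev_adj {Ω : Type} [Field Ω] [Algebra k Ω] [CharP Ω 2] (h : Bi φ cf N R) (M : ℕ)
    (s w : Ω) : ev2 s w (BB (cfA cf M) (N + M)) =
      ∑ b ∈ Finset.range (M + 1), (aeval s (row cf N b) * w) ^ 2 ^ (M - b) := by
  classical
  rw [(bi_adj h M).sum_eq ((Finset.range (N + 1) ×ˢ Finset.range (M + 1)).image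
    fun p => (p.1 + (M - p.2), M - p.2)) fun a b r => ?_, Finset.sum_image,
    Finset.sum_product_right]
  · refine Finset.sum_congr rfl fun b hb => ?_
    have hb' : b ≤ M := Nat.lt_succ_iff.1 (Finset.mem_range.1 hb)
    rw [aeval_row, Finset.sum_mul, sum_pow_char_pow]
    refine Finset.sum_congr rfl fun a _ => ?_
    rw [cfA, if_pos ⟨Nat.sub_le _ _, Nat.le_add_left _ _⟩, Nat.add_sub_cancel,
      Nat.sub_sub_self hb', mul_pow, mul_pow, map_pow, ← pow_mul, ← pow_add]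
  · intro p hp q hq e
    simp only [Finset.coe_product, Set.mem_prod, Finset.mem_coe, Finset.mem_range,
      Prod.mk.injEq] at hp hq e
    exact Prod.ext (by omega) (by omega)
  · obtain ⟨h1, h2, h3⟩ := r
    have := h.supp _ _ h3
    refine Finset.mem_image.2 ⟨(a - b, M - b), ?_, Prod.ext ?_ ?_⟩
    · simp only [Finset.mem_product, Finset.mem_range]
      omega
    · simp only
      omega
    · simp only
      omega

end B

end Vw

open Vw

/-- An additive polynomial whose adjoint has a fixed root has a fixed root. -/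
theorem adj1 {Ω : Type} [Field Ω] [IsAlgClosed Ω] [CharP Ω 2] (g : Ω ≃+* Ω) (r : ℕ → Ω) (M : ℕ)
    (hr : ∀ b, g (r b) = r b) (h0 : r 0 ≠ 0) {w : Ω} (hw : w ≠ 0) (gw : g w = w)
    (h : ∑ b ∈ Finset.range (M + 1), (r b * w) ^ 2 ^ (M - b) = 0) :
    ∃ u, u ≠ 0 ∧ g u = u ∧ ∑ b ∈ Finset.range (M + 1), r b * u ^ 2 ^ b = 0 := by
  set ρ : ℕ → Ω := fun b => r b * w with hρ
  have hM : tt ρ M = 0 := h
  have gt : ∀ i, g (tt ρ i) = tt ρ i := fun i => by
    simp only [tt, hρ, map_sum, map_pow, map_mul, hr, gw]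
  have hk : ∀ u, w * (AP r (M + 1)).eval u =
      (AP (tt ρ) (M + 1)).eval u * ((AP (tt ρ) (M + 1)).eval u + 1) := fun u => by
    have h1 := key ρ u M
    have h2 : (AP (tt ρ) (M + 1)).eval u = ∑ i ∈ Finset.range M, tt ρ i * u ^ 2 ^ i := by
      rw [eval_AP, Finset.sum_range_succ, hM, zero_mul, add_zero]
    rw [← h2, ← eval_AP (tt ρ)] at h1
    rw [mul_add, mul_one, ← sq, ← h1, eval_AP, Finset.mul_sum]
    exact Finset.sum_congr rfl fun b _ => by simp only [hρ]; ring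
  have hL : AP r (M + 1) ≠ 0 := fun e => h0 (by rw [← coeff_AP_one r M, e, coeff_zero])
  obtain ⟨u₀, hu₀⟩ := IsAlgClosed.exists_root (AP (tt ρ) (M + 1) + 1) fun e => by
    have h1 := coeff_eq_zero_of_degree_lt (n := 1) (e.trans_lt (by exact_mod_cast zero_lt_one))
    rw [coeff_add, coeff_AP_one, tt_zero, coeff_one, if_neg one_ne_zero, add_zero] at h1
    exact mul_ne_zero h0 hw h1
  rw [IsRoot, eval_add, eval_one] at hu₀
  have hV : {x | IsRoot (AP r (M + 1)) x}.Finite := finite_setOfPred_isRoot hL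
  have hm : Set.MapsTo (fun x => g x + x) {x | IsRoot (AP r (M + 1)) x}
      {x | IsRoot (AP r (M + 1)) x} := fun x hx => by
    simp only [Set.mem_ofPred_eq, IsRoot] at hx ⊢
    rw [eval_AP_add, map_eval_AP g hr, hx, map_zero, add_zero]
  by_contra hn
  have hi : Set.InjOn (fun x => g x + x) {x | IsRoot (AP r (M + 1)) x} := fun x hx y hy e => by
    simp only [Set.mem_ofPred_eq, IsRoot] at hx hy e
    by_contra hxy
    refine hn ⟨x + y, fun e' => hxy (CharTwo.add_eq_zero.1 e'), ?_, ?_⟩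
    · rw [map_add]
      have h2 : (2 : Ω) = 0 := CharTwo.two_eq_zero
      linear_combination e + (g y - x) * h2
    · rw [← eval_AP, eval_AP_add, hx, hy, add_zero]
  have h1 : u₀ ∈ {x | IsRoot (AP r (M + 1)) x} := by
    have := hk u₀
    rw [hu₀, mul_zero] at this
    exact (mul_eq_zero.1 this).resolve_left hw
  obtain ⟨x, hx, e⟩ := ((hV.injOn_iff_bijOn_of_mapsTo hm).1 hi).surjOn h1
  simp only [Set.mem_ofPred_eq, IsRoot] at hx e
  have h2 := hk x
  rw [hx, mul_zero] at h2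
  rw [← e, eval_AP_add, map_eval_AP g gt] at hu₀
  rcases mul_eq_zero.1 h2.symm with h3 | h3
  · rw [h3, map_zero, add_zero, zero_add] at hu₀
    exact one_ne_zero hu₀
  · rw [CharTwo.add_eq_zero.1 h3, map_one, CharTwo.add_self_eq_zero, zero_add] at hu₀
    exact one_ne_zero hu₀

variable {k : Type} [Field k] [IsAlgClosed k] [CharP k 2] {φ : k ≃+* k} {R : ℕ → ℕ → Prop}

omit [IsAlgClosed k] [CharP k 2] in
theorem Real.congr (h : Real φ R) {R' : ℕ → ℕ → Prop} (e : ∀ a b, R a b ↔ R' a b) : Real φ R' := by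
  rwa [← show R = R' from funext₂ fun a b => propext (e a b)]

theorem Real.shift (h : Real φ R) (m n : ℕ) (hR : ∀ a b, R a b → m ≤ a ∧ n ≤ b) :
    Real φ fun a b => R (a + m) (b + n) := by
  obtain ⟨cf, N, hb, hf⟩ := h
  refine ⟨_, N, bi_shift hb m n, fun Ω _ _ _ g hg s u hs gs gu z => ?_⟩
  have := charP k Ω
  obtain ⟨s', rfl, gs'⟩ := root g gs m
  obtain ⟨u', rfl, gu'⟩ := root g gu n
  rw [← ev_shift hb m n hR] at z
  rw [hf Ω g hg s' u' (tr_root hs) gs' gu' z, zero_pow (pow_pos two_pos n).ne']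

theorem RealS.shift (h : RealS φ R) (m : ℕ) (hR : ∀ a b, R a b → m ≤ a ∧ m ≤ b) :
    RealS φ fun a b => R (a + m) (b + m) := by
  obtain ⟨cf, N, hb, hf⟩ := h
  refine ⟨_, N, bi_shift hb m m, fun Ω _ _ _ g hg s u hs gs gu z => ?_⟩
  have := charP k Ω
  obtain ⟨s', rfl, gs'⟩ := root g gs m
  obtain ⟨u', rfl, gu'⟩ := root g gu m
  rw [← ev_shift hb m m hR] at z
  rcases hf Ω g hg s' u' (tr_root hs) gs' gu' z with e | e
  · exact Or.inl (by rw [e, zero_pow (pow_pos two_pos m).ne'])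
  · exact Or.inr (by rw [e])

theorem Real.swap (h : Real φ R) {a₀ b₀ : ℕ} (h0 : R a₀ b₀) (h1 : ∀ a, R a b₀ → a = a₀) :
    Real φ fun a b => R b a := by
  obtain ⟨cf, N, hb, hf⟩ := h
  refine ⟨fun a b => cf b a, N, ⟨fun _ _ => hb.fix _ _, fun _ _ r => (hb.supp _ _ r).symm,
    fun _ _ => hb.iff _ _⟩, fun Ω _ _ _ g hg s u hs gs gu z => ?_⟩
  rw [ev_swap] at z
  by_cases hu : IsAlgebraic k u
  · obtain ⟨κ, rfl⟩ := minpoly.mem_range_of_degree_eq_one k u
      (IsAlgClosed.degree_eq_one_of_irreducible k (minpoly.irreducible hu.isIntegral))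
    have h2 : aeval s ((BB cf N).map (evalRingHom κ)) = 0 := by
      rw [← z, ev2_BB, BB, Polynomial.map_sum, map_sum]
      refine Finset.sum_congr rfl fun i _ => ?_
      rw [Polynomial.map_monomial, aeval_monomial, coe_evalRingHom, aeval_algebraMap_apply,
        coe_aeval_eq_eval]
    have h3 : (BB cf N).map (evalRingHom κ) = 0 := by
      by_contra e
      exact aeval_ne hs e h2
    have h4 := congrArg (coeff · (2 ^ b₀)) h3
    simp only [coeff_map, hb.cf_BB, hb.row_eq h0 h1, coe_evalRingHom, eval_monomial,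
      coeff_zero] at h4
    rw [eq_zero_of_pow_eq_zero ((mul_eq_zero.1 h4).resolve_left ((hb.iff _ _).2 h0)), map_zero]
  · exact absurd (hf Ω g hg u s hu gu gs z ▸ isAlgebraic_zero) hs

theorem Real.adj (h : Real φ R) {a₀ : ℕ} (h0 : R a₀ 0) (M : ℕ) (hM : ∀ a b, R a b → b ≤ M) :
    Real φ fun α β => β ≤ M ∧ β ≤ α ∧ R (α - β) (M - β) := by
  obtain ⟨cf, N, hb, hf⟩ := h
  refine ⟨_, _, bi_adj hb M, fun Ω _ _ _ g hg s w hs gs gw z => ?_⟩
  have := charP k Ω
  rw [ev_adj hb] at z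
  by_contra hw
  obtain ⟨u, hu, gu, zu⟩ := adj1 g (fun b => aeval s (row cf N b)) M (fun b => by
    simp only [aeval_row, map_sum, map_mul, map_pow, hg _, hb.fix, gs])
    (aeval_ne hs (hb.row_ne h0)) hw gw z
  exact hu (hf Ω g hg s u hs gs gu (by rw [ev_trunc hb M hM]; exact zu))

end W48

end Pool.Agent.Lib.MP_346d6a_co
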