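import Pool.Agent.Lib.MP_346d6a_co.W48Grp
import Pool.Agent.Lib.MP_346d6a_co.W48View
import Pool.Agent.Lib.MP_346d6a_co.D90A

/-!
The diagonal face: a large gap below a separable top form.
-/

set_option maxSynthPendingDepth 3

namespace Pool.Agent.Lib.MP_346d6a_co

open Polynomial

namespace W48

open W28

variable {k : Type} [Field k] [IsAlgClosed k] [CharP k 2] {φ : k ≃+* k} {R : ℕ → ℕ → Prop}

namespace C4

open D90

omit [IsAlgClosed k] [CharP k 2] in
theorem Th_sum {cf : ℕ → ℕ → k} {M : ℕ} (h : Bi φ cf M R) (e j : ℕ)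
    (hne : ((Th (BB cf M)).coeff e).coeff j ≠ 0) :
    ∃ a b, R a b ∧ j = 2 ^ b ∧ e = 2 ^ a + 2 ^ b := by
  rw [coeff_coeff_Th] at hne
  split_ifs at hne with hj
  · obtain ⟨b, -, rfl⟩ := coeff_BB_ne cf M j fun e0 => hne (by rw [e0, coeff_zero])
    rw [h.cf_BB] at hne
    obtain ⟨a, -, ha, h1⟩ := coeff_row_ne cf M b _ hne
    exact ⟨a, b, (h.iff a b).1 h1, rfl, by omega⟩
  · exact absurd rfl hne

omit [IsAlgClosed k] [CharP k 2] in
theorem Th_cf {cf : ℕ → ℕ → k} {M : ℕ} (h : Bi φ cf M R) (a b : ℕ) :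
    ((Th (BB cf M)).coeff (2 ^ a + 2 ^ b)).coeff (2 ^ b) = cf a b := by
  rw [← coeff_coeff_eq_Th, h.cf_BB, h.cf_row]

omit [CharP k 2] in
theorem exists_root {T F : k[X]} (hT : T.Separable) (hF : F ≠ 0) (hd : F.natDegree < T.natDegree) :
    ∃ y, T.eval y = 0 ∧ F.eval y ≠ 0 := by
  classical
  by_contra hc
  have h1 : T.roots ≤ F.roots := by
    rw [Multiset.le_iff_subset (nodup_roots hT)]
    intro y hy
    rw [mem_roots hF]
    by_contra h2
    exact hc ⟨y, (mem_roots hT.ne_zero).1 hy, h2⟩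
  have h2 := Multiset.card_le_card h1
  rw [IsAlgClosed.card_roots_eq_natDegree, IsAlgClosed.card_roots_eq_natDegree] at h2
  omega

omit [IsAlgClosed k] [CharP k 2] in
/-- The cofactor of a factor whose top form vanishes at a simple root is small. -/
theorem cofactor_le {P Q : k[X][X]} {y : k} {m : ℕ} (hs : (top (P * Q)).Separable)
    (hP : (top P).eval y = 0) (h0 : (Th (P * Q)).map (evalRingHom y) ≠ 0)
    (hm : ((Th (P * Q)).map (evalRingHom y)).natDegree ≤ m) : (Th Q).natDegree ≤ m := by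
  have hQ : (top Q).eval y ≠ 0 := fun h => by
    rw [top_mul] at hs
    have h1 := hs.isCoprime
    exact not_isUnit_X_sub_C y (h1.isUnit_of_dvd' (dvd_iff_isRoot.2 hP) (dvd_iff_isRoot.2 h))
  rw [← natDegree_map_of_leadingCoeff_ne_zero (evalRingHom y) (p := Th Q) hQ]
  refine le_trans (natDegree_le_of_dvd ?_ h0) hm
  rw [map_mul, Polynomial.map_mul]
  exact dvd_mul_left _ _

omit [IsAlgClosed k] [CharP k 2] in
theorem tot_le {P Q : k[X][X]} (h : P ∣ Q) (hQ : Q ≠ 0) : (Th P).natDegree ≤ (Th Q).natDegree :=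
  natDegree_le_of_dvd (_root_.map_dvd Th h) (fun e => hQ (Th_eq_zero.1 e))

omit [IsAlgClosed k] [CharP k 2] in
theorem tot_mp2 (P : k[X][X]) : (Th (mp2 (φ : k →+* k) P)).natDegree = (Th P).natDegree := by
  rw [mp2, coe_mapRingHom, Th_map, natDegree_map_eq_of_injective]
  exact map_injective _ (φ : k →+* k).injective

omit [IsAlgClosed k] [CharP k 2] in
/-- A factor of more than half the total degree is a line. -/
theorem big {B P Q : k[X][X]} (hf : Fps φ B) (hB : mp2 (φ : k →+* k) B = B) (hP : Irreducible P)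
    (e : B = P * Q) (hQ : Q ≠ 0) (hd : P.natDegree ≠ 0) (hlt : (Th Q).natDegree < (Th P).natDegree) :
    (Th P).natDegree ≤ 1 := by
  have hP' : Irreducible (mp2 (φ : k →+* k) P) :=
    (MulEquiv.irreducible_iff (RingEquiv.ofBijective _ (TTrans.mp2_bijective φ))).2 hP
  have h1 : mp2 (φ : k →+* k) P ∣ P * Q := by
    rw [← e, ← hB]
    exact _root_.map_dvd _ ⟨Q, e⟩
  have h2 : P ∣ mp2 (φ : k →+* k) P := by
    rcases hP'.prime.dvd_or_dvd h1 with h | h
    · exact (hP'.associated_of_dvd hP h).symm.dvd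
    · have := tot_le h hQ
      rw [tot_mp2] at this
      omega
  obtain ⟨Ω, _, _, _, g, s, u, hg, hs, gs, gu, z⟩ := fac φ hP hd h2
  have hX : (Th (X : k[X][X])).natDegree ≤ 1 := by
    rw [Th_X]
    exact (natDegree_C_mul_le _ _).trans natDegree_X_le
  rcases hf Ω g hg s u hs gs gu (by rw [e, map_mul, z, zero_mul]) with h | h
  · exact (tot_le (dvd_of_aevalAeval_eq_zero hs hP z (Q := X) (by simp [h])) X_ne_zero).trans hX
  · refine (tot_le (dvd_of_aevalAeval_eq_zero hs hP z (Q := X - C X) (by simp [h]))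
      (X_sub_C_ne_zero _)).trans ?_
    rw [map_sub, Th_C_X]
    exact (natDegree_sub_le _ _).trans (max_le hX natDegree_X_le)

theorem c40 (h : RealS φ R) {n : ℕ} (hd : Diag R 0 n) : False := by
  obtain ⟨cf, M, h, hf⟩ := h
  obtain ⟨r1, r2, hR, a, b, rab, ha, hb⟩ := hd
  obtain ⟨n, rfl⟩ : ∃ m, n = m + 2 := ⟨n - 2, by omega⟩
  have hJ : 1 ≤ 2 ^ n := Nat.one_le_two_pow
  have e4 : 2 ^ (n + 2) = 4 * 2 ^ n := by ring
  have small : ∀ c, c + 2 ≤ n + 2 → 2 ^ c ≤ 2 ^ n := fun c hc =>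
    Nat.pow_le_pow_right two_pos (by omega)
  have c1 := (h.iff _ _).2 r1
  have c2 := (h.iff _ _).2 r2
  have key : ∀ e j, ((Th (BB cf M)).coeff e).coeff j ≠ 0 →
      (e = 4 * 2 ^ n + 1 ∧ (j = 4 * 2 ^ n ∨ j = 1)) ∨ e ≤ 2 * 2 ^ n := fun e j hne => by
    obtain ⟨a, b, r, rfl, rfl⟩ := Th_sum h e j hne
    rcases hR a b r with ⟨rfl, rfl⟩ | ⟨rfl, rfl⟩ | ⟨-, -, h1, h2⟩
    · left; rw [e4]; omega
    · left; rw [e4]; omega
    · right; have := small a h1; have := small b h2; omega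
  have t1 : ((Th (BB cf M)).coeff (4 * 2 ^ n + 1)).coeff (4 * 2 ^ n) = cf 0 (n + 2) := by
    have := Th_cf h 0 (n + 2)
    rwa [e4, pow_zero, add_comm] at this
  have t2 : ((Th (BB cf M)).coeff (4 * 2 ^ n + 1)).coeff 1 = cf (n + 2) 0 := by
    have := Th_cf h (n + 2) 0
    rwa [e4, pow_zero] at this
  have hT : (Th (BB cf M)).coeff (4 * 2 ^ n + 1) =
      monomial (4 * 2 ^ n) (cf 0 (n + 2)) + monomial 1 (cf (n + 2) 0) := by
    ext j
    rw [coeff_add, coeff_monomial, coeff_monomial]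
    by_cases j1 : 4 * 2 ^ n = j
    · rw [if_pos j1, if_neg (by omega), add_zero, ← j1, t1]
    by_cases j2 : 1 = j
    · rw [if_neg j1, if_pos j2, zero_add, ← j2, t2]
    rw [if_neg j1, if_neg j2, add_zero]
    by_contra hne
    rcases key _ _ hne with ⟨-, e | e⟩ | e <;> omega
  have hT0 : (Th (BB cf M)).coeff (4 * 2 ^ n + 1) ≠ 0 := fun e => c1 (by rw [← t1, e, coeff_zero])
  have hdeg : (Th (BB cf M)).natDegree = 4 * 2 ^ n + 1 := by
    refine le_antisymm (natDegree_le_iff_coeff_eq_zero.2 fun e he => ?_)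
      (le_natDegree_of_ne_zero hT0)
    ext j
    by_contra hne
    rcases key _ _ hne with ⟨e, -⟩ | e <;> omega
  have htop : top (BB cf M) = (Th (BB cf M)).coeff (4 * 2 ^ n + 1) := by
    rw [top, leadingCoeff, hdeg]
  have hsep : (top (BB cf M)).Separable := by
    have h4 : ((4 * 2 ^ n : ℕ) : k) = 0 := by
      rw [← e4, Nat.cast_pow, Nat.cast_ofNat, CharTwo.two_eq_zero, zero_pow (by omega)]
    rw [htop, hT, separable_def, derivative_add, derivative_monomial, derivative_monomial, h4,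
      mul_zero, map_zero, zero_add, Nat.cast_one, mul_one, Nat.sub_self, monomial_zero_left]
    exact isCoprime_one_right.of_isCoprime_of_dvd_right (isUnit_C.2 c2.isUnit).dvd
  have hF : (Th (BB cf M)).coeff (2 ^ a + 2 ^ b) ≠ 0 := fun e =>
    (h.iff _ _).2 rab (by rw [← Th_cf h, e, coeff_zero])
  have ha' := small a ha
  have hb' := small b hb
  obtain ⟨y, y1, y2⟩ := exists_root hsep hF (by
    have h1 := natDegree_coeff_Th_le (BB cf M) (2 ^ a + 2 ^ b)
    have h2 : 4 * 2 ^ n ≤ (top (BB cf M)).natDegree :=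
      le_natDegree_of_ne_zero (by rw [htop, t1]; exact c1)
    omega)
  have hB0 : BB cf M ≠ 0 := fun e => hT0 (by rw [e, map_zero, coeff_zero])
  obtain ⟨P, hP, ⟨Q, e⟩, hy⟩ := exists_irred_top y _ hB0 y1
  have hQ : Q ≠ 0 := fun e0 => hB0 (by rw [e, e0, mul_zero])
  have hq : (Th Q).natDegree ≤ 2 * 2 ^ n := by
    refine cofactor_le (e ▸ hsep) hy (fun e0 => y2 ?_) ?_
    · have := congrArg (fun p => coeff p (2 ^ a + 2 ^ b)) e0
      simpa [← e] using this
    · rw [← e, natDegree_le_iff_coeff_eq_zero]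
      intro c hc
      rw [coeff_map, coe_evalRingHom]
      by_cases e1 : c = 4 * 2 ^ n + 1
      · rw [e1, ← htop, y1]
      · have : (Th (BB cf M)).coeff c = 0 := by
          ext j
          by_contra hne
          rcases key _ _ hne with ⟨e, -⟩ | e <;> omega
        rw [this, eval_zero]
  have hsum : (Th P).natDegree + (Th Q).natDegree = 4 * 2 ^ n + 1 := by
    rw [← hdeg, e, map_mul, natDegree_mul (fun e0 => hP.ne_zero (Th_eq_zero.1 e0))
      fun e0 => hQ (Th_eq_zero.1 e0)]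
  have hd : P.natDegree ≠ 0 := fun h0 => by
    have h1 : (top P).natDegree = 0 :=
      Nat.le_zero.1 (h0 ▸ natDegree_coeff_Th_le' P (Th P).natDegree)
    rw [eq_C_of_natDegree_eq_zero h1, eval_C] at hy
    exact hP.ne_zero (top_eq_zero.1 (by rw [eq_C_of_natDegree_eq_zero h1, hy, map_zero]))
  have := big hf h.mp2_eq hP e hQ hd (by omega)
  omega

end C4

theorem c4 (h : RealS φ R) {r N : ℕ} (hd : Diag R r N) : False := by
  obtain ⟨r1, r2, hR, a, b, rab, ha, hb⟩ := hd
  have hab := hR a b rab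
  have hrN : r + 2 ≤ N := by omega
  obtain ⟨n, rfl⟩ : ∃ n, N = n + r := ⟨N - r, by omega⟩
  refine C4.c40 (h.shift r fun a b r' => by have := hR a b r'; omega) (n := n)
    ⟨by simpa using r1, by simpa using r2, fun a b r' => by have := hR _ _ r'; omega,
      a - r, b - r, ?_, by omega, by omega⟩
  have e1 : a - r + r = a := by omega
  have e2 : b - r + r = b := by omega
  simpa only [e1, e2] using rab

end W48

end Pool.Agent.Lib.MP_346d6a_co
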