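import Pool.Agent.Lib.MP_346d6a_co.W28Def
import Pool.Agent.Lib.MP_346d6a_co.VExists

/-!
Exceptional polynomials of Gold degree are quadratic: definitions and basic facts (helper48).
`k[X][X]` is `k[s][u]` (`s` inner, the parameter; `u` outer, the root).
-/

set_option maxSynthPendingDepth 3

namespace Pool.Agent.Lib.MP_346d6a_co

open Polynomial

namespace W48

open W28

section defs

variable {k : Type} [Field k]

/-- `g` extends `φ`. -/
def Ov (φ : k ≃+* k) {Ω : Type} [Field Ω] [Algebra k Ω] (g : Ω ≃+* Ω) : Prop :=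
  ∀ c, g (algebraMap k Ω c) = algebraMap k Ω (φ c)

/-- The only fixed root over a fixed generic parameter is zero. -/
def Fpf (φ : k ≃+* k) (B : k[X][X]) : Prop :=
  ∀ (Ω : Type) [Field Ω] [IsAlgClosed Ω] [Algebra k Ω] (g : Ω ≃+* Ω), Ov φ g → ∀ s u : Ω,
    Transcendental k s → g s = s → g u = u → ev2 s u B = 0 → u = 0

/-- The only fixed roots over a fixed generic parameter `s` are zero and `s`. -/
def Fps (φ : k ≃+* k) (B : k[X][X]) : Prop :=
  ∀ (Ω : Type) [Field Ω] [IsAlgClosed Ω] [Algebra k Ω] (g : Ω ≃+* Ω), Ov φ g → ∀ s u : Ω,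
    Transcendental k s → g s = s → g u = u → ev2 s u B = 0 → u = 0 ∨ u = s

/-- Separable additive polynomials without fixed roots. -/
structure Au (φ : k ≃+* k) (B : k[X][X]) : Prop where
  add : AddIn B
  sep : B.coeff 1 ≠ 0
  fix : mp2 (φ : k →+* k) B = B
  fpf : Fpf φ B

/-- `h` is the polynomial of a closed subgroup of the roots of `B`. -/
structure Sub (B h : k[X][X]) : Prop where
  add : AddIn h
  sep : h.coeff 1 ≠ 0
  dvd : h ∣ B
  sq : h.natDegree < B.natDegree → h.leadingCoeff ^ 2 ∣ B.leadingCoeff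

/-- `cf a b` is the coefficient of `s ^ 2 ^ a u ^ 2 ^ b`; the support is `R`. -/
structure Bi (φ : k ≃+* k) (cf : ℕ → ℕ → k) (N : ℕ) (R : ℕ → ℕ → Prop) : Prop where
  fix : ∀ a b, φ (cf a b) = cf a b
  supp : ∀ a b, R a b → a ≤ N ∧ b ≤ N
  iff : ∀ a b, cf a b ≠ 0 ↔ R a b

/-- `R` is the support of a biadditive polynomial without fixed roots. -/
def Real (φ : k ≃+* k) (R : ℕ → ℕ → Prop) : Prop :=
  ∃ (cf : ℕ → ℕ → k) (N : ℕ), Bi φ cf N R ∧ Fpf φ (BB cf N)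

/-- `R` is the support of a biadditive polynomial whose only fixed roots are `0` and `s`. -/
def RealS (φ : k ≃+* k) (R : ℕ → ℕ → Prop) : Prop :=
  ∃ (cf : ℕ → ℕ → k) (N : ℕ), Bi φ cf N R ∧ Fps φ (BB cf N)

/-- The additive polynomial `∑ r i u ^ 2 ^ i`. -/
noncomputable def PB (I : Finset ℕ) (r : ℕ → k[X]) : k[X][X] := ∑ i ∈ I, monomial (2 ^ i) (r i)

/-- `a` is the lowest binary digit of the exponent `D + 2 ^ a`. -/
def Cand1 (E : Finset ℕ) (a D : ℕ) : Prop := D + 2 ^ a ∈ E ∧ 2 ^ (a + 1) ∣ D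

/-- `a`, `b` are the two lowest binary digits of the exponent `D + 2 ^ a + 2 ^ b`. -/
def Cand (E : Finset ℕ) (a b D : ℕ) : Prop :=
  a ≠ b ∧ D + 2 ^ a + 2 ^ b ∈ E ∧ 2 ^ (a + 1) ∣ D ∧ 2 ^ (b + 1) ∣ D

/-- The terms of weight `W`. -/
def Face (E : Finset ℕ) (S U W : ℚ) (a b : ℕ) : Prop :=
  ∃ D, Cand E a b D ∧ (D : ℚ) + S * 2 ^ a + U * 2 ^ b = W

/-- The shape of a face that contains an edge of the quadratic part. -/
def Star (R : ℕ → ℕ → Prop) : Prop :=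
  ∃ (ν γ : ℝ) (a₀ b₀ a₁ b₁ : ℕ), 0 ≤ ν ∧ R a₀ b₀ ∧ R a₁ b₁ ∧ a₀ < a₁ ∧
    (2 : ℝ) ^ b₀ = γ + ν * 2 ^ a₀ ∧ (2 : ℝ) ^ b₁ = γ + ν * 2 ^ a₁ ∧
    (∀ a b, R a b → a₀ ≤ a ∧ (a < a₁ ∨ (a = a₁ ∧ b = b₁)) ∧
      ((2 : ℝ) ^ b = γ + ν * 2 ^ a ∨ 3 * (2 : ℝ) ^ b < γ + ν * 2 ^ a)) ∧
    ∃ a b, R a b ∧ 3 * (2 : ℝ) ^ b < γ + ν * 2 ^ a

/-- The shape of a face on the diagonal. -/
def Diag (R : ℕ → ℕ → Prop) (r N : ℕ) : Prop :=
  R r N ∧ R N r ∧ (∀ a b, R a b → (a = r ∧ b = N) ∨ (a = N ∧ b = r) ∨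
    (r ≤ a ∧ r ≤ b ∧ a + 2 ≤ N ∧ b + 2 ≤ N)) ∧ ∃ a b, R a b ∧ a + 2 ≤ N ∧ b + 2 ≤ N

end defs

section lg

variable {k Ω : Type} [Field k] [Field Ω] [Algebra k Ω] (V : Val k Ω)

/-- The logarithm of the size, normalised by `lg τ = -1`. -/
noncomputable def lg (x : Ω) : ℝ := Real.log (V.v x) / Real.log (V.v V.τ)⁻¹

/-- Closed ball. -/
def bLe (c : Ω) : AddSubgroup Ω where
  carrier := {x | V.v x ≤ V.v c}
  zero_mem' := by simp
  add_mem' := fun ha hb => V.v.map_add_le ha hb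
  neg_mem' := fun ha => by simpa using ha

/-- The ball without its boundary. -/
def bLt (c : Ω) (hc : c ≠ 0) : AddSubgroup Ω where
  carrier := {x | V.v x < V.v c}
  zero_mem' := by simpa using (V.v.pos_iff).2 hc
  add_mem' := fun ha hb => V.v.map_add_lt ha hb
  neg_mem' := fun ha => by simpa using ha

variable {V}

theorem mem_bLe {c x : Ω} : x ∈ bLe V c ↔ V.v x ≤ V.v c := Iff.rfl

theorem mem_bLt {c x : Ω} {hc : c ≠ 0} : x ∈ bLt V c hc ↔ V.v x < V.v c := Iff.rfl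

theorem log_pos : 0 < Real.log ((V.v V.τ : ℝ))⁻¹ :=
  Real.log_pos ((one_lt_inv₀ (by exact_mod_cast V.τ_pos)).2 (by exact_mod_cast V.τ_lt))

theorem v_pos {x : Ω} (hx : x ≠ 0) : (0 : ℝ) < V.v x := by
  exact_mod_cast (V.v.pos_iff).2 hx

theorem lg_mul {x y : Ω} (hx : x ≠ 0) (hy : y ≠ 0) : lg V (x * y) = lg V x + lg V y := by
  rw [lg, lg, lg, map_mul, NNReal.coe_mul, Real.log_mul (v_pos hx).ne' (v_pos hy).ne', add_div]

theorem lg_pow (x : Ω) (n : ℕ) : lg V (x ^ n) = n * lg V x := by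
  rw [lg, lg, map_pow, NNReal.coe_pow, Real.log_pow, mul_div_assoc]

theorem lg_two_pow (x : Ω) (n : ℕ) : lg V (x ^ 2 ^ n) = 2 ^ n * lg V x := by
  rw [lg_pow]; push_cast; rfl

theorem lg_inv (x : Ω) : lg V x⁻¹ = -lg V x := by
  rw [lg, lg, map_inv₀, NNReal.coe_inv, Real.log_inv, neg_div]

theorem lg_div {x y : Ω} (hx : x ≠ 0) (hy : y ≠ 0) : lg V (x / y) = lg V x - lg V y := by
  rw [div_eq_mul_inv, lg_mul hx (inv_ne_zero hy), lg_inv, sub_eq_add_neg]

theorem lg_zpow (x : Ω) (n : ℤ) : lg V (x ^ n) = n * lg V x := by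
  rw [lg, lg, map_zpow₀, NNReal.coe_zpow, Real.log_zpow, mul_div_assoc]

theorem lg_tau : lg V V.τ = -1 := by
  have := log_pos (V := V)
  rw [lg, div_eq_iff this.ne', Real.log_inv]; ring

theorem lg_tau_inv : lg V V.τ⁻¹ = 1 := by rw [lg_inv, lg_tau, neg_neg]

theorem lg_congr {x y : Ω} (h : V.v x = V.v y) : lg V x = lg V y := by rw [lg, lg, h]

theorem lg_of_v_one {x : Ω} (h : V.v x = 1) : lg V x = 0 := by simp [lg, h]

theorem lg_one : lg V 1 = 0 := lg_of_v_one (map_one _)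

theorem lg_const (c : k) : lg V (algebraMap k Ω c) = 0 := by
  by_cases h : c = 0
  · simp [lg, h]
  · exact lg_of_v_one (V.const c h)

theorem lg_const_mul {c : k} (hc : c ≠ 0) (x : Ω) : lg V (algebraMap k Ω c * x) = lg V x :=
  lg_congr (by rw [map_mul, V.const c hc, one_mul])

theorem v_lt_iff {x y : Ω} (hx : x ≠ 0) (hy : y ≠ 0) : V.v x < V.v y ↔ lg V x < lg V y := by
  rw [lg, lg, div_lt_div_iff_of_pos_right log_pos, Real.log_lt_log_iff (v_pos hx) (v_pos hy),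
    NNReal.coe_lt_coe]

theorem v_le_iff {x y : Ω} (hx : x ≠ 0) (hy : y ≠ 0) : V.v x ≤ V.v y ↔ lg V x ≤ lg V y := by
  rw [← not_lt, v_lt_iff hy hx, not_lt]

theorem v_eq_iff {x y : Ω} (hx : x ≠ 0) (hy : y ≠ 0) : V.v x = V.v y ↔ lg V x = lg V y := by
  rw [le_antisymm_iff, le_antisymm_iff, v_le_iff hx hy, v_le_iff hy hx]

theorem v_lt_one_iff {x : Ω} (hx : x ≠ 0) : V.v x < 1 ↔ lg V x < 0 := by
  rw [← lg_one (V := V), ← v_lt_iff hx one_ne_zero, map_one]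

theorem v_le_one_iff {x : Ω} (hx : x ≠ 0) : V.v x ≤ 1 ↔ lg V x ≤ 0 := by
  rw [← lg_one (V := V), ← v_le_iff hx one_ne_zero, map_one]

theorem one_lt_v_iff {x : Ω} (hx : x ≠ 0) : 1 < V.v x ↔ 0 < lg V x := by
  rw [← not_le, v_le_one_iff hx, not_le]

theorem v_eq_one_iff {x : Ω} (hx : x ≠ 0) : V.v x = 1 ↔ lg V x = 0 := by
  rw [← lg_one (V := V), ← v_eq_iff hx one_ne_zero, map_one]

/-- Use this to show that a term is small: it is zero or has negative logarithm. -/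
theorem v_lt_one_of {x : Ω} (h : x ≠ 0 → lg V x < 0) : V.v x < 1 := by
  by_cases hx : x = 0
  · simp [hx]
  · exact (v_lt_one_iff hx).2 (h hx)

theorem v_le_one_of {x : Ω} (h : x ≠ 0 → lg V x ≤ 0) : V.v x ≤ 1 := by
  by_cases hx : x = 0
  · simp [hx]
  · exact (v_le_one_iff hx).2 (h hx)

theorem lg_add_le {x y : Ω} (hx : x ≠ 0) (hy : y ≠ 0) (h : x + y ≠ 0) :
    lg V (x + y) ≤ max (lg V x) (lg V y) := by
  rcases le_max_iff.1 (V.v.map_add x y) with h1 | h1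
  · exact le_max_of_le_left ((v_le_iff h hx).1 h1)
  · exact le_max_of_le_right ((v_le_iff h hy).1 h1)

theorem lg_prod {ι : Type*} (S : Finset ι) (x : ι → Ω) (h : ∀ i ∈ S, x i ≠ 0) :
    lg V (∏ i ∈ S, x i) = ∑ i ∈ S, lg V (x i) := by
  classical
  induction S using Finset.induction_on with
  | empty => simpa using lg_one
  | insert a S ha ih =>
    have h' : ∀ i ∈ S, x i ≠ 0 := fun i hi => h i (Finset.mem_insert_of_mem hi)
    rw [Finset.prod_insert ha, Finset.sum_insert ha, lg_mul (h a (Finset.mem_insert_self _ _))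
      (Finset.prod_ne_zero_iff.2 h'), ih h']

theorem lg_aeval_tau {p : k[X]} (hp : p ≠ 0) : lg V (aeval V.τ p) = -p.natTrailingDegree := by
  rw [lg_congr (y := V.τ ^ p.natTrailingDegree) (by rw [V.v_aeval_τ hp, map_pow]), lg_pow, lg_tau]
  ring

theorem lg_aeval_tau_inv {p : k[X]} (hp : p ≠ 0) : lg V (aeval V.τ⁻¹ p) = p.natDegree := by
  rw [lg_congr (y := V.τ⁻¹ ^ p.natDegree) (by rw [V.v_aeval_τ_inv hp, map_pow, map_inv₀]), lg_pow,
    lg_tau_inv, mul_one]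

theorem transcendental_of_lg {s : Ω} (h0 : s ≠ 0) (h : lg V s ≠ 0) : Transcendental k s := by
  rcases h.lt_or_gt with h | h
  · exact V.transcendental_of_lt_one h0 ((v_lt_one_iff h0).2 h)
  · rintro ⟨p, hp, e⟩
    have := V.v_aeval_of_one_lt ((one_lt_v_iff h0).2 h) hp
    rw [e, map_zero] at this
    exact pow_ne_zero _ ((V.v.ne_zero_iff).2 h0) this.symm

theorem transcendental_tau_inv : Transcendental k V.τ⁻¹ :=
  transcendental_of_lg (V := V) (inv_ne_zero V.τ_ne) (by rw [lg_tau_inv]; exact one_ne_zero)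

theorem transcendental_add_tau (κ : k) : Transcendental k (algebraMap k Ω κ + V.τ) := fun h =>
  V.transcendental_τ (by simpa using h.sub (isAlgebraic_algebraMap κ))

theorem aeval_ne {s : Ω} (hs : Transcendental k s) {p : k[X]} (hp : p ≠ 0) : aeval s p ≠ 0 :=
  fun h => hs ⟨p, hp, h⟩

/-- The residue of the value of a polynomial. -/
theorem res_aeval {s : Ω} {κ : k} (h : V.v (s - algebraMap k Ω κ) < 1) (p : k[X]) :
    V.v (aeval s p - algebraMap k Ω (p.eval κ)) < 1 := by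
  have := (Val.Red.map (V := V) p).eval h
  rwa [eval_map_algebraMap] at this

/-- First order expansion of a polynomial at `κ`. -/
theorem res_aeval_first (κ : k) (p : k[X]) {x : Ω} (hx : V.v x ≤ 1) :
    V.v (aeval (algebraMap k Ω κ + x) p - algebraMap k Ω (p.eval κ) -
      algebraMap k Ω ((derivative p).eval κ) * x) ≤ V.v x ^ 2 := by
  obtain ⟨q, hq⟩ : (X - C κ) ^ 2 ∣ p - C (p.eval κ) - C ((derivative p).eval κ) * (X - C κ) := by
    have := (p.aeval_add_of_sq_eq_zero (S := k[X] ⧸ Ideal.span {(X - C κ : k[X]) ^ 2})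
      (algebraMap k _ κ) (Ideal.Quotient.mk _ (X - C κ)) (by
        rw [← map_pow]; exact Ideal.Quotient.eq_zero_iff_mem.2 (Ideal.mem_span_singleton_self _)))
    rw [← Ideal.mem_span_singleton, ← Ideal.Quotient.eq_zero_iff_mem]
    have e1 : ∀ c : k, algebraMap k (k[X] ⧸ Ideal.span {(X - C κ : k[X]) ^ 2}) c =
        Ideal.Quotient.mk _ (C c) := fun _ => rfl
    rw [aeval_algebraMap_apply, aeval_algebraMap_apply, coe_aeval_eq_eval, e1, e1, e1, ← map_add,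
      add_sub_cancel, ← Ideal.Quotient.mkₐ_eq_mk k, aeval_algHom_apply, aeval_X_left,
      AlgHom.id_apply] at this
    rw [map_sub, map_sub, map_mul, ← Ideal.Quotient.mkₐ_eq_mk k, this]
    ring
  have := congrArg (aeval (algebraMap k Ω κ + x)) hq
  simp only [map_sub, map_mul, map_pow, aeval_C, aeval_X, add_sub_cancel_left] at this
  rw [this, map_mul, map_pow]
  refine mul_le_of_le_one_right zero_le ?_
  obtain ⟨c, hc⟩ := V.res (algebraMap k Ω κ + x) (V.v.map_add_le (V.const_le κ) hx)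
  exact V.le_one_of_res (res_aeval hc q)

/-- In a vanishing sum no term is strictly larger than all others. -/
theorem tie {ι : Type*} (S : Finset ι) (x : ι → Ω) (h : ∑ i ∈ S, x i = 0) {i₀ : ι} (hi : i₀ ∈ S)
    (h0 : x i₀ ≠ 0) : ∃ i ∈ S, i ≠ i₀ ∧ x i ≠ 0 ∧ lg V (x i₀) ≤ lg V (x i) := by
  classical
  by_contra hn
  rw [← Finset.add_sum_erase S x hi] at h
  have h1 : V.v (∑ i ∈ S.erase i₀, x i) < V.v (x i₀) := by
    refine V.v.map_sum_lt ((V.v.ne_zero_iff).2 h0) fun i hi' => ?_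
    by_cases e : x i = 0
    · rw [e, map_zero]; exact (V.v.pos_iff).2 h0
    · rw [v_lt_iff e h0]
      by_contra h2
      exact hn ⟨i, Finset.mem_of_mem_erase hi', Finset.ne_of_mem_erase hi', e, not_lt.1 h2⟩
  rw [← neg_eq_of_add_eq_zero_right h, Valuation.map_neg] at h1
  exact lt_irrefl _ h1

end lg

section ev

variable {k Ω : Type} [Field k] [Field Ω] [Algebra k Ω]

theorem ev2_sum (B : k[X][X]) (s u : Ω) :
    ev2 s u B = ∑ i ∈ B.support, aeval s (B.coeff i) * u ^ i := by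
  conv_lhs => rw [B.as_sum_support]
  simp [map_sum, ← C_mul_X_pow_eq_monomial]

theorem ev2_eq_eval (B : k[X][X]) (s u : Ω) :
    ev2 s u B = (B.map ((aeval s : k[X] →ₐ[k] Ω) : k[X] →+* Ω)).eval u := by
  rw [ev2_eq]

theorem addIn_coeff_zero {B : k[X][X]} (h : AddIn B) : B.coeff 0 = 0 := by
  by_contra h0
  obtain ⟨b, hb⟩ := h 0 h0
  exact (pow_pos two_pos b).ne hb

theorem ev2_zero {B : k[X][X]} (h : AddIn B) (s : Ω) : ev2 s 0 B = 0 := by
  rw [ev2_eq_eval, ← coeff_zero_eq_eval_zero, coeff_map, addIn_coeff_zero h, map_zero]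

/-- The group of roots. -/
def RG [CharP Ω 2] {B : k[X][X]} (h : AddIn B) (s : Ω) : AddSubgroup Ω where
  carrier := {u | ev2 s u B = 0}
  zero_mem' := ev2_zero h s
  add_mem' := fun {a b} ha hb => by
    rw [Set.mem_ofPred_eq] at ha hb ⊢
    rw [h.ev2_add, ha, hb, add_zero]
  neg_mem' := fun {a} ha => by rwa [CharTwo.neg_eq]

theorem mem_RG [CharP Ω 2] {B : k[X][X]} (h : AddIn B) {s u : Ω} : u ∈ RG h s ↔ ev2 s u B = 0 :=
  Iff.rfl

theorem charP (k Ω : Type) [Field k] [Field Ω] [Algebra k Ω] [CharP k 2] : CharP Ω 2 :=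
  charP_of_injective_algebraMap (algebraMap k Ω).injective 2

theorem Sub.root {B h : k[X][X]} (hS : Sub B h) {s u : Ω} (hu : ev2 s u h = 0) : ev2 s u B = 0 := by
  obtain ⟨q, rfl⟩ := hS.dvd
  rw [map_mul, hu, zero_mul]

theorem root_of_col {B : k[X][X]} {s u w : Ω} (h : col2 k s w = col2 k s u) (hu : ev2 s u B = 0) :
    ev2 s w B = 0 := (col2_eq_iff.1 h B).2 hu

theorem coeff_PB (I : Finset ℕ) (r : ℕ → k[X]) (i : ℕ) :
    (PB I r).coeff (2 ^ i) = if i ∈ I then r i else 0 := by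
  rw [PB, finsetSum_coeff]
  simp only [coeff_monomial, Nat.pow_right_inj (one_lt_two), Finset.sum_ite_eq']

theorem addIn_PB (I : Finset ℕ) (r : ℕ → k[X]) : AddIn (PB I r) := fun e h => by
  rw [PB, finsetSum_coeff] at h
  obtain ⟨c, -, h1⟩ := Finset.exists_ne_zero_of_sum_ne_zero h
  rw [coeff_monomial] at h1
  split_ifs at h1 with h2
  · exact ⟨c, h2.symm⟩
  · exact absurd rfl h1

theorem ev2_PB (I : Finset ℕ) (r : ℕ → k[X]) (s u : Ω) :
    ev2 s u (PB I r) = ∑ i ∈ I, aeval s (r i) * u ^ 2 ^ i := by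
  simp [PB, map_sum, ← C_mul_X_pow_eq_monomial]

theorem mp2_PB (φ : k →+* k) (I : Finset ℕ) (r : ℕ → k[X]) (h : ∀ i ∈ I, (r i).map φ = r i) :
    mp2 φ (PB I r) = PB I r := by
  rw [PB, map_sum]
  refine Finset.sum_congr rfl fun i hi => ?_
  rw [mp2, coe_mapRingHom, Polynomial.map_monomial, coe_mapRingHom, h i hi]

/-- The degree of an additive polynomial. -/
theorem natDegree_of_top {B : k[X][X]} (h : AddIn B) {M : ℕ} (h1 : B.coeff (2 ^ M) ≠ 0)
    (h2 : ∀ b, B.coeff (2 ^ b) ≠ 0 → b ≤ M) :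
    B.natDegree = 2 ^ M ∧ B.leadingCoeff = B.coeff (2 ^ M) := by
  have h4 : B.natDegree = 2 ^ M := by
    refine le_antisymm (natDegree_le_iff_coeff_eq_zero.2 fun e he => ?_) (le_natDegree_of_ne_zero h1)
    by_contra h3
    obtain ⟨c, rfl⟩ := h e h3
    exact absurd (Nat.pow_le_pow_right two_pos (h2 c h3)) (not_le.2 he)
  exact ⟨h4, by rw [leadingCoeff, h4]⟩

variable {φ : k ≃+* k} {cf : ℕ → ℕ → k} {N : ℕ} {R : ℕ → ℕ → Prop}

theorem Bi.zero (h : Bi φ cf N R) {a b : ℕ} (hab : ¬ R a b) : cf a b = 0 := by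
  by_contra e
  exact hab ((h.iff a b).1 e)

theorem Bi.cf_row (h : Bi φ cf N R) (a b : ℕ) : (row cf N b).coeff (2 ^ a) = cf a b := by
  rw [W28.coeff_row]
  split_ifs with e
  · rfl
  · exact (h.zero fun r => e (h.supp a b r).1).symm

theorem Bi.row_ne (h : Bi φ cf N R) {a b : ℕ} (hab : R a b) : row cf N b ≠ 0 := fun e =>
  (h.iff a b).2 hab (by rw [← h.cf_row, e, coeff_zero])

theorem Bi.exists_of_row (h : Bi φ cf N R) {b : ℕ} (hb : row cf N b ≠ 0) : ∃ a, R a b := by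
  obtain ⟨c, -, -, h1⟩ := coeff_row_ne cf N b _ (leadingCoeff_ne_zero.2 hb)
  exact ⟨c, (h.iff c b).1 h1⟩

theorem Bi.cf_BB (h : Bi φ cf N R) (b : ℕ) : (BB cf N).coeff (2 ^ b) = row cf N b := by
  rw [W28.coeff_BB]
  split_ifs with e
  · rfl
  · by_contra e'
    obtain ⟨a, ha⟩ := h.exists_of_row (Ne.symm e')
    exact e (h.supp a b ha).2

theorem Bi.cf_one (h : Bi φ cf N R) : (BB cf N).coeff 1 = row cf N 0 := by
  simpa using h.cf_BB 0

theorem Bi.top (h : Bi φ cf N R) {a M : ℕ} (h1 : R a M) (h2 : ∀ a b, R a b → b ≤ M) :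
    (BB cf N).natDegree = 2 ^ M ∧ (BB cf N).leadingCoeff = row cf N M := by
  rw [← h.cf_BB]
  refine natDegree_of_top (addIn_BB cf N) (by rw [h.cf_BB]; exact h.row_ne h1) fun b hb => ?_
  rw [h.cf_BB] at hb
  obtain ⟨c, hc⟩ := h.exists_of_row hb
  exact h2 c b hc

theorem Bi.row_eq (h : Bi φ cf N R) {a b : ℕ} (h1 : R a b) (h2 : ∀ c, R c b → c = a) :
    row cf N b = monomial (2 ^ a) (cf a b) := by
  rw [row, Finset.sum_eq_single a (fun c _ hc => by rw [h.zero fun r => hc (h2 c r), map_zero])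
    fun e => absurd (Finset.mem_range.2 (Nat.lt_succ_of_le (h.supp a b h1).1)) e]

theorem Bi.mp2_eq (h : Bi φ cf N R) : mp2 (φ : k →+* k) (BB cf N) = BB cf N :=
  mp2_PB _ _ _ fun i _ => by
    rw [row, Polynomial.map_sum]
    refine Finset.sum_congr rfl fun c _ => ?_
    rw [Polynomial.map_monomial, RingHom.coe_coe, h.fix]

theorem Bi.au (h : Bi φ cf N R) (hf : Fpf φ (BB cf N)) {a : ℕ} (h0 : R a 0) : Au φ (BB cf N) :=
  ⟨addIn_BB cf N, by rw [h.cf_one]; exact h.row_ne h0, h.mp2_eq, hf⟩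

/-- The value as a sum over any finite set that contains the support. -/
theorem Bi.sum_eq (h : Bi φ cf N R) (S : Finset (ℕ × ℕ)) (hS : ∀ a b, R a b → (a, b) ∈ S) (s u : Ω) :
    ev2 s u (BB cf N) = ∑ p ∈ S, algebraMap k Ω (cf p.1 p.2) * s ^ 2 ^ p.1 * u ^ 2 ^ p.2 := by
  rw [ev2_BB', Finset.sum_comm, ← Finset.sum_product']
  refine Finset.sum_congr_of_eq_on_inter (fun p _ hp => ?_) (fun p _ hp => ?_) fun _ _ _ => rfl
  · rw [h.zero fun r => hp (hS _ _ r), map_zero, zero_mul, zero_mul]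
  · rw [h.zero fun r => hp (Finset.mem_product.2 ⟨Finset.mem_range.2 (Nat.lt_succ_of_le
      (h.supp _ _ r).1), Finset.mem_range.2 (Nat.lt_succ_of_le (h.supp _ _ r).2)⟩), map_zero,
      zero_mul, zero_mul]

open Classical in
/-- The support as a finite set. -/
theorem Bi.exists_supp (h : Bi φ cf N R) : ∃ S : Finset (ℕ × ℕ), ∀ a b, (a, b) ∈ S ↔ R a b :=
  ⟨(Finset.range (N + 1) ×ˢ Finset.range (N + 1)).filter fun p => R p.1 p.2, fun a b => by
    simp only [Finset.mem_filter, Finset.mem_product, Finset.mem_range, Nat.lt_succ_iff]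
    exact ⟨fun e => e.2, fun e => ⟨h.supp a b e, e⟩⟩⟩

theorem BB_add_left [CharP Ω 2] (cf : ℕ → ℕ → k) (N : ℕ) (s s' u : Ω) :
    ev2 (s + s') u (BB cf N) = ev2 s u (BB cf N) + ev2 s' u (BB cf N) := by
  simp only [ev2_BB, aeval_row_add, add_mul, Finset.sum_add_distrib]

/-- No monomial is strictly larger than all others at a root. -/
theorem Bi.tie2 (h : Bi φ cf N R) (V : Val k Ω) {s u : Ω} (hs : s ≠ 0) (hu : u ≠ 0)
    (z : ev2 s u (BB cf N) = 0) {a₀ b₀ : ℕ} (h0 : R a₀ b₀) : ∃ a b, R a b ∧ ¬ (a = a₀ ∧ b = b₀) ∧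
      2 ^ a₀ * lg V s + 2 ^ b₀ * lg V u ≤ 2 ^ a * lg V s + 2 ^ b * lg V u := by
  obtain ⟨S, hS⟩ := h.exists_supp
  rw [h.sum_eq S fun a b => (hS a b).2] at z
  have e : ∀ a b, R a b → algebraMap k Ω (cf a b) * s ^ 2 ^ a * u ^ 2 ^ b ≠ 0 ∧
      lg V (algebraMap k Ω (cf a b) * s ^ 2 ^ a * u ^ 2 ^ b) =
        2 ^ a * lg V s + 2 ^ b * lg V u := fun a b r => by
    have h1 := (h.iff a b).2 r
    refine ⟨mul_ne_zero (mul_ne_zero ((_root_.map_ne_zero _).2 h1) (pow_ne_zero _ hs))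
      (pow_ne_zero _ hu), ?_⟩
    rw [mul_assoc, lg_const_mul h1, lg_mul (pow_ne_zero _ hs) (pow_ne_zero _ hu), lg_two_pow,
      lg_two_pow]
  obtain ⟨⟨a, b⟩, h1, h2, -, h3⟩ := W48.tie (V := V) S _ z ((hS a₀ b₀).2 h0) (e _ _ h0).1
  rw [(e _ _ h0).2, (e _ _ ((hS a b).1 h1)).2] at h3
  exact ⟨a, b, (hS a b).1 h1, fun r => h2 (Prod.ext r.1 r.2), h3⟩

end ev

end W48

end Pool.Agent.Lib.MP_346d6a_co
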