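import Pool.Agent.Lib.MP_346d6a_co.W48Def
import Pool.Agent.Lib.MP_346d6a_co.T98Val

/-!
The fixed point lemma for clusters of roots with additive initial forms.
-/

set_option maxSynthPendingDepth 3

namespace Pool.Agent.Lib.MP_346d6a_co

open Polynomial

namespace W48

open W28

variable {k Ω : Type} [Field k] [Field Ω] [Algebra k Ω]

namespace Fp

/-- The size of the largest term of `A` at `t`. -/
noncomputable def Nm (V : Val k Ω) (A : Polynomial Ω) (t : Ω) : NNReal :=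
  A.support.sup fun l => V.v (A.coeff l * t ^ l)

/-- At level `t` the Taylor expansion of `Q` at `y` is close to `A`. -/
def Ap (V : Val k Ω) (A Q : Polynomial Ω) (y t : Ω) : Prop :=
  ∀ i, 1 ≤ i → V.v (((taylor y Q).coeff i - A.coeff i) * t ^ i) < Nm V A t

/-- No root of `A` of size `t` is fixed by `g` to first order. -/
def Free (V : Val k Ω) (g : Ω ≃+* Ω) (A : Polynomial Ω) (t : Ω) : Prop :=
  ∀ a, A.eval a = 0 → V.v a ≤ V.v t → V.v (g a - a) < V.v t → V.v a < V.v t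

variable {V : Val k Ω} {A Q : Polynomial Ω} {g : Ω ≃+* Ω}

theorem le_Nm (l : ℕ) (t : Ω) : V.v (A.coeff l * t ^ l) ≤ Nm V A t := by
  by_cases h : l ∈ A.support
  · exact Finset.le_sup (f := fun l => V.v (A.coeff l * t ^ l)) h
  · rw [notMem_support_iff.1 h]; simp

theorem exists_Nm {t : Ω} (h : 0 < Nm V A t) : ∃ l, Nm V A t = V.v (A.coeff l * t ^ l) := by
  rcases A.support.eq_empty_or_nonempty with h0 | h0
  · rw [Nm, h0] at h; simp at h
  · obtain ⟨l, -, hl⟩ := Finset.exists_mem_eq_sup _ h0 fun l => V.v (A.coeff l * t ^ l)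
    exact ⟨l, hl⟩

theorem Ap.pos {y t : Ω} (h : Ap V A Q y t) : 0 < Nm V A t := zero_le.trans_lt (h 1 le_rfl)

theorem Ap.est (h0 : A.coeff 0 = 0) {y t t' : Ω} (h : Ap V A Q y t) (ht : V.v t' ≤ V.v t) :
    V.v (Q.eval (y + t') - Q.eval y - A.eval t') < Nm V A t := by
  have e : Q.eval (y + t') - Q.eval y - A.eval t' =
      (taylor y Q - C (Q.eval y) - A).eval t' := by
    simp [taylor_eval, add_comm]
  rw [e, eval_eq_sum_range]
  refine V.v.map_sum_lt h.pos.ne' fun i _ => ?_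
  rcases Nat.eq_zero_or_pos i with rfl | hi
  · simpa [h0, taylor_coeff_zero] using h.pos
  · refine lt_of_le_of_lt ?_ (h i hi)
    rw [coeff_sub, coeff_sub, coeff_C, if_neg hi.ne', sub_zero, map_mul, map_mul, map_pow, map_pow]
    exact mul_le_mul_right (pow_le_pow_left₀ zero_le ht i) _

theorem Ap.top (h0 : A.coeff 0 = 0) {y t : Ω} (h : Ap V A Q y t) :
    ∃ l, 1 ≤ l ∧ V.v ((taylor y Q).coeff l * t ^ l) = Nm V A t := by
  obtain ⟨l, hl⟩ := exists_Nm h.pos
  have h1 : 1 ≤ l := by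
    by_contra h2
    obtain rfl : l = 0 := by omega
    have := h.pos
    rw [hl, h0] at this
    simp at this
  refine ⟨l, h1, ?_⟩
  have h2 := h l h1
  rw [hl] at h2 ⊢
  have := V.v.map_add_eq_of_lt_right h2
  rwa [← add_mul, sub_add_cancel] at this

theorem Ap.lift [IsAlgClosed Ω] (h0 : A.coeff 0 = 0) {y t c : Ω} (h : Ap V A Q y t) (ht : t ≠ 0)
    (hc : V.v (Q.eval y - c) < Nm V A t) : ∃ t', V.v t' < V.v t ∧ Q.eval (y + t') = c := by
  obtain ⟨l, h1, h2⟩ := h.top h0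
  obtain ⟨u, a1, a2⟩ := T98.exists_root_lt (V := V) (T98.resc Q y c t 1) l (by
    rwa [T98.coeff_resc_zero, T98.coeff_resc _ _ _ _ h1, div_one, div_one, h2])
  rw [T98.eval_resc, div_one, sub_eq_zero] at a1
  refine ⟨t * u, ?_, a1⟩
  rw [map_mul]
  exact mul_lt_of_lt_one_right ((V.v.pos_iff).2 ht) a2

theorem Ap.finite (h0 : A.coeff 0 = 0) {y t : Ω} (h : Ap V A Q y t) (c : Ω) :
    {s | Q.eval s = c}.Finite := by
  obtain ⟨l, h1, h2⟩ := h.top h0
  have h3 : Q - C c ≠ 0 := by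
    intro e
    have := h.pos
    rw [← h2, sub_eq_zero.1 e, taylor_C, coeff_C, if_neg (by omega)] at this
    simp at this
  simpa [sub_eq_zero] using finite_setOfPred_isRoot h3

theorem coeff_zero_of_add (hadd : ∀ x y, A.eval (x + y) = A.eval x + A.eval y) :
    A.coeff 0 = 0 := by
  have := hadd 0 0
  rw [add_zero] at this
  rw [coeff_zero_eq_eval_zero]
  linear_combination -this

theorem ap_self [IsAlgClosed Ω] (hadd : ∀ x y, A.eval (x + y) = A.eval x + A.eval y) (y : Ω)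
    {t : Ω} (ht : 0 < Nm V A t) : Ap V A A y t := fun i hi => by
  have e : taylor y A = A + C (A.eval y) := Polynomial.funext fun x => by
    rw [taylor_eval, hadd, eval_add, eval_C]
  rw [e, coeff_add, coeff_C, if_neg (by omega)]
  simpa using ht

theorem pigeon [CharP Ω 2] (hv : ∀ x, V.v (g x) = V.v x)
    (hA : ∀ y, g (A.eval y) = A.eval (g y)) (hadd : ∀ x y, A.eval (x + y) = A.eval x + A.eval y)
    (hfin : {s | A.eval s = 0}.Finite) {t a : Ω} (ht : t ≠ 0) (hF : Free V g A t)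
    (ha : A.eval a = 0) (hat : V.v a ≤ V.v t) :
    ∃ w, A.eval w = 0 ∧ V.v w ≤ V.v t ∧ V.v (g w + w + a) < V.v t := by
  have h2 : (2 : Ω) = 0 := CharTwo.two_eq_zero
  set D : Ω → Ω := fun x => g x + x with hD
  have hS : ∀ n x, A.eval x = 0 → V.v x ≤ V.v t →
      A.eval (D^[n] x) = 0 ∧ V.v (D^[n] x) ≤ V.v t := fun n x h1 h3 => by
    induction n with
    | zero => exact ⟨h1, h3⟩
    | succ n ih =>
      rw [Function.iterate_succ_apply']
      exact ⟨by rw [hD, hadd, ← hA, ih.1, map_zero, add_zero],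
        V.v.map_add_le ((hv _).trans_le ih.2) ih.2⟩
  have hinj : ∀ n x y, A.eval x = 0 → V.v x ≤ V.v t → A.eval y = 0 → V.v y ≤ V.v t →
      V.v (D^[n] x + D^[n] y) < V.v t → V.v (x + y) < V.v t := fun n x y a1 a2 a3 a4 h => by
    induction n with
    | zero => exact h
    | succ n ih =>
      refine ih (hF _ ?_ (V.v.map_add_le (hS n x a1 a2).2 (hS n y a3 a4).2) ?_)
      · rw [hadd, (hS n x a1 a2).1, (hS n y a3 a4).1, add_zero]
      · rw [Function.iterate_succ_apply', Function.iterate_succ_apply'] at h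
        convert h using 2
        rw [map_add]
        linear_combination (-D^[n] x - D^[n] y) * h2
  obtain ⟨i, j, hij, e⟩ := Set.Finite.exists_lt_map_eq_of_forall_mem
    (f := fun n : ℕ => D^[n] a) (fun n => (hS n a ha hat).1) hfin
  obtain ⟨m, rfl⟩ := Nat.exists_eq_add_of_lt hij
  refine ⟨D^[m] a, (hS m a ha hat).1, (hS m a ha hat).2, ?_⟩
  have := hinj i (D^[m + 1] a) a (hS _ a ha hat).1 (hS _ a ha hat).2 ha hat (by
    rw [← Function.iterate_add_apply, ← add_assoc, ← e, CharTwo.add_self_eq_zero, map_zero]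
    exact (V.v.pos_iff).2 ht)
  rwa [Function.iterate_succ_apply'] at this

theorem torsor [IsAlgClosed Ω] [CharP Ω 2] (hv : ∀ x, V.v (g x) = V.v x)
    (hQ : ∀ y, g (Q.eval y) = Q.eval (g y))
    (hA : ∀ y, g (A.eval y) = A.eval (g y)) (hadd : ∀ x y, A.eval (x + y) = A.eval x + A.eval y)
    {z θ : Ω} (hθ : θ ≠ 0)
    (H : ∀ y t : Ω, V.v (y - z) ≤ V.v θ → t ≠ 0 → V.v t ≤ V.v θ → Ap V A Q y t)
    {y₀ : Ω} {ρ : NNReal} (hρ : ρ ≤ V.v θ) (hy : V.v (y₀ - z) ≤ V.v θ)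
    (hc : g (Q.eval y₀) = Q.eval y₀) (hg : V.v (g y₀ - y₀) < ρ)
    (hF : ∀ t, t ≠ 0 → V.v t < ρ → Free V g A t) :
    ∃ y, g y = y ∧ Q.eval y = Q.eval y₀ ∧ V.v (y - y₀) < ρ := by
  have h2 : (2 : Ω) = 0 := CharTwo.two_eq_zero
  have h0 := coeff_zero_of_add hadd
  have hp := H y₀ θ hy hθ le_rfl
  set S := {s | Q.eval s = Q.eval y₀} ∩ {s | V.v (s - y₀) < ρ} with hS
  have hSz : ∀ s, V.v (s - y₀) < ρ → V.v (s - z) ≤ V.v θ := fun s hs => by
    have := V.v.map_add_le (hs.le.trans hρ) hy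
    rwa [sub_add_sub_cancel] at this
  obtain ⟨s, hs, hmin⟩ := Set.exists_min_image S (fun s => V.v (g s - s))
    ((hp.finite h0 _).inter_of_left _) ⟨y₀, rfl, by simpa using zero_le.trans_lt hg⟩
  have hs1 : Q.eval s = Q.eval y₀ := hs.1
  have hs2 : V.v (s - y₀) < ρ := hs.2
  refine ⟨s, ?_, hs1, hs2⟩
  by_contra hne
  set t := g s - s with ht
  have ht0 : t ≠ 0 := sub_ne_zero.2 hne
  have htρ : V.v t < ρ := by
    have := V.v.map_sub_lt (V.v.map_add_lt ((hv (s - y₀)).trans_lt hs2) hg) hs2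
    rwa [map_sub g, sub_add_sub_cancel, sub_sub_sub_cancel_right] at this
  have hs3 := H s t (hSz s hs2) ht0 (htρ.le.trans hρ)
  have hAA := ap_self (V := V) hadd t hs3.pos
  obtain ⟨t₁, a1, a2⟩ := hAA.lift h0 ht0 (c := 0) (by
    have := hs3.est h0 (le_refl (V.v t))
    rwa [ht, add_sub_cancel, ← hQ, hs1, hc, sub_self, zero_sub, Valuation.map_neg,
      ← sub_zero (A.eval _)] at this)
  obtain ⟨w, b1, b2, b3⟩ := pigeon hv hA hadd (hAA.finite h0 0) ht0 (hF t ht0 htρ) a2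
    (V.v.map_add_le le_rfl a1.le)
  have hw : V.v (s + w - y₀) < ρ := by
    rw [add_sub_right_comm]
    exact V.v.map_add_lt hs2 (b2.trans_lt htρ)
  obtain ⟨t₂, c1, c2⟩ := (H (s + w) t (hSz _ hw) ht0 (htρ.le.trans hρ)).lift h0 ht0
    (c := Q.eval y₀) (by
      have := hs3.est h0 b2
      rwa [b1, sub_zero, hs1] at this)
  have hmem : s + w + t₂ ∈ S := by
    refine ⟨c2, ?_⟩
    change V.v (s + w + t₂ - y₀) < ρ
    rw [add_sub_right_comm]
    exact V.v.map_add_lt hw (c1.trans htρ)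
  refine absurd (hmin _ hmem) (not_le.2 ?_)
  have e : g (s + w + t₂) - (s + w + t₂) = g w + w + (t + t₁) - t₁ + (g t₂ - t₂) := by
    rw [map_add, map_add, ht]
    linear_combination (-w) * h2
  change V.v (g (s + w + t₂) - (s + w + t₂)) < V.v t
  rw [e]
  exact V.v.map_add_lt (V.v.map_sub_lt b3 a1) (V.v.map_sub_lt ((hv _).trans_lt c1) c1)

end Fp

theorem fp [IsAlgClosed Ω] [CharP Ω 2] (V : Val k Ω) (g : Ω ≃+* Ω) (hv : ∀ x, V.v (g x) = V.v x)
    (Q A : Polynomial Ω) (hQ : ∀ y, g (Q.eval y) = Q.eval (g y))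
    (hA : ∀ y, g (A.eval y) = A.eval (g y)) (hadd : ∀ x y, A.eval (x + y) = A.eval x + A.eval y)
    {z θ : Ω} (hz : g z = z) (hθ : θ ≠ 0)
    (H : ∀ y t : Ω, V.v (y - z) ≤ V.v θ → t ≠ 0 → V.v t ≤ V.v θ → ∀ i, 1 ≤ i → ∃ l,
      V.v (((taylor y Q).coeff i - A.coeff i) * t ^ i) < V.v (A.coeff l * t ^ l))
    (hg : V.v (g θ - θ) < V.v θ) {l : ℕ} (h0 : V.v (A.eval θ) < V.v (A.coeff l * θ ^ l)) :
    ∃ y, g y = y ∧ Q.eval y = Q.eval z ∧ y ≠ z ∧
      (V.v (y - z) < V.v θ ∨ V.v (y - z - θ) < V.v θ) := by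
  have H' : ∀ y t : Ω, V.v (y - z) ≤ V.v θ → t ≠ 0 → V.v t ≤ V.v θ → Fp.Ap V A Q y t :=
    fun y t a1 a2 a3 i hi => by
      obtain ⟨l, hl⟩ := H y t a1 a2 a3 i hi
      exact hl.trans_le (Fp.le_Nm l t)
  have hA0 := Fp.coeff_zero_of_add hadd
  have hN := h0.trans_le (Fp.le_Nm l θ)
  have hAA := Fp.ap_self (V := V) hadd θ (zero_le.trans_lt hN)
  obtain ⟨t₁, a1, a2⟩ := hAA.lift hA0 hθ (c := 0) (by rwa [sub_zero])
  have a3 : V.v (θ + t₁) = V.v θ := V.v.map_add_eq_of_lt_left a1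
  set R := {s | A.eval s = 0} ∩ {a | a ≠ 0 ∧ V.v (g a - a) < V.v a ∧
    (V.v a < V.v θ ∨ V.v (a - θ) < V.v θ)} with hR
  obtain ⟨a, ⟨b1, b2, b3, b4⟩, hmin⟩ := Set.exists_min_image R (fun a => V.v a)
    ((hAA.finite hA0 0).inter_of_left _) ⟨θ + t₁, a2, fun e => by
      rw [e, map_zero] at a3
      exact (V.v.ne_zero_iff).2 hθ a3.symm, by
      rw [a3, map_add, add_sub_add_comm]
      exact V.v.map_add_lt hg (V.v.map_sub_lt ((hv _).trans_lt a1) a1),
      Or.inr (by rwa [add_sub_cancel_left])⟩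
  have b1' : A.eval a = 0 := b1
  have b5 : V.v a ≤ V.v θ := by
    rcases b4 with b4 | b4
    · exact b4.le
    · have := V.v.map_add_le b4.le (le_refl (V.v θ))
      rwa [sub_add_cancel] at this
  obtain ⟨t₂, c1, c2⟩ := (H' (z + a) a (by rwa [add_sub_cancel_left]) b2 b5).lift hA0 b2
    (c := Q.eval z) (by
      have := (H' z a (by simp) b2 b5).est hA0 (le_refl (V.v a))
      rwa [b1', sub_zero] at this)
  obtain ⟨y, d1, d2, d3⟩ := Fp.torsor hv hQ hA hadd hθ H' (y₀ := z + a + t₂) b5 (by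
      rw [add_assoc, add_sub_cancel_left]
      exact V.v.map_add_le b5 (c1.le.trans b5)) (by rw [c2, hQ, hz]) (by
      rw [map_add, map_add, hz, add_assoc, add_assoc, add_sub_add_left_eq_sub, add_sub_add_comm]
      exact V.v.map_add_lt b3 (V.v.map_sub_lt ((hv _).trans_lt c1) c1))
    fun t ht hta x e1 e2 e3 => by
      by_contra e4
      have e5 : V.v x = V.v t := le_antisymm e2 (not_lt.1 e4)
      have e6 : x ≠ 0 := fun e => by
        rw [e, map_zero] at e5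
        exact (V.v.ne_zero_iff).2 ht e5.symm
      have := hmin x ⟨e1, e6, e3.trans_eq e5.symm, Or.inl (e5.trans_lt (hta.trans_le b5))⟩
      exact absurd (e5.trans_lt hta) (not_lt.2 this)
  have d4 : V.v (y - z - a) < V.v a := by
    have := V.v.map_add_lt d3 c1
    rwa [show y - (z + a + t₂) + t₂ = y - z - a by ring] at this
  refine ⟨y, d1, d2.trans c2, fun e => ?_, b4.imp (fun b4 => ?_) fun b4 => ?_⟩
  · rw [e, sub_self, zero_sub, Valuation.map_neg] at d4
    exact lt_irrefl _ d4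
  · have := V.v.map_add_lt (d4.trans b4) b4
    rwa [sub_add_cancel] at this
  · have := V.v.map_add_lt (d4.trans_le b5) b4
    rwa [sub_add_sub_cancel] at this

end W48

end Pool.Agent.Lib.MP_346d6a_co
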