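import Pool.Agent.Lib.MP_346d6a_co.W48NP
import Pool.Agent.Lib.MP_346d6a_co.W48FP

/-!
A binomial edge at the place zero has no step of length one.
-/

set_option maxSynthPendingDepth 3

namespace Pool.Agent.Lib.MP_346d6a_co

open Polynomial

namespace W48

open W28

namespace Edge

theorem two_pow_lt {a b : ℕ} (h : a < b) : (2 : ℝ) ^ a < 2 ^ b :=
  pow_lt_pow_right₀ one_lt_two h

theorem two_pow_le {a b : ℕ} (h : a ≤ b) : (2 : ℝ) ^ a ≤ 2 ^ b :=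
  pow_le_pow_right₀ one_le_two h

theorem two_mul_le {a b : ℕ} (h : a < b) : 2 * (2 : ℝ) ^ a ≤ 2 ^ b := by
  rw [← pow_succ']
  exact two_pow_le h

theorem ne_of_lt' {β t w : ℕ} (h1 : β < t) (h2 : t < w) (a α : ℕ) :
    (2 : ℝ) ^ a * (2 ^ w - 2 ^ β) ≠ 2 ^ α * (2 ^ w - 2 ^ t) := by
  intro e
  have e1 := two_pow_lt h1
  have e2 := two_mul_le h2
  have e3 : (0 : ℝ) < 2 ^ a := by positivity
  have e4 : (0 : ℝ) < 2 ^ β := by positivity
  have e5 : (0 : ℝ) < 2 ^ t := by positivity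
  rcases le_or_gt α a with h | h
  · have e6 := two_pow_le h
    nlinarith
  · have e6 := two_mul_le h
    nlinarith

theorem exists_pair {k : Type} [Field k] [IsAlgClosed k] [CharP k 2] (φ : k ≃+* k) {c d : k}
    (hc : c ≠ 0) (hd : d ≠ 0) (fc : φ c = c) (fd : φ d = d) {w a t : ℕ} (h : a = 1 ∨ w = t + 1) :
    ∃ s₀ u₀ : k, s₀ ≠ 0 ∧ u₀ ≠ 0 ∧ φ s₀ = s₀ ∧ φ u₀ = u₀ ∧
      c * s₀ * u₀ ^ 2 ^ w + d * s₀ ^ 2 ^ a * u₀ ^ 2 ^ t = 0 := by
  rcases h with rfl | rfl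
  · refine ⟨c / d, 1, div_ne_zero hc hd, one_ne_zero, by rw [map_div₀, fc, fd], map_one _, ?_⟩
    have e : d * (c / d) ^ 2 ^ 1 = c * (c / d) := by
      rw [pow_one, sq, ← mul_assoc, mul_div_cancel₀ c hd]
    rw [one_pow, one_pow, mul_one, mul_one, e, CharTwo.add_self_eq_zero]
  · obtain ⟨u, hu⟩ := IsAlgClosed.exists_pow_nat_eq (d / c) (pow_pos two_pos t)
    have hu0 : u ≠ 0 := by
      rintro rfl
      rw [zero_pow (pow_pos two_pos t).ne'] at hu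
      exact div_ne_zero hd hc hu.symm
    refine ⟨1, u, one_ne_zero, hu0, map_one _, ?_, ?_⟩
    · have e : (φ u - u) ^ 2 ^ t = 0 := by
        rw [sub_pow_char_pow, ← map_pow, hu, map_div₀, fc, fd, sub_self]
      exact sub_eq_zero.1 (pow_eq_zero_iff (pow_pos two_pos t).ne' |>.1 e)
    · have e : c * u ^ 2 ^ (t + 1) = d * u ^ 2 ^ t := by
        rw [pow_succ, pow_mul, hu]
        field_simp
      rw [one_pow, mul_one, mul_one, e, CharTwo.add_self_eq_zero]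

end Edge

variable {k : Type} [Field k] [IsAlgClosed k] [CharP k 2] {φ : k ≃+* k} {R : ℕ → ℕ → Prop}

theorem edge (h : Real φ R) {w a t : ℕ} (hC : R 0 w) (hQ : R a t) (ht : t < w) (ha : 1 ≤ a)
    (hd : ∀ α β, R α β → (α = 0 ∧ β = w) ∨ (α = a ∧ β = t) ∨
      ((2 : ℝ) ^ a - 1) * (2 ^ w - 2 ^ β) < (2 ^ α - 1) * (2 ^ w - 2 ^ t)) :
    2 ≤ a ∧ t + 2 ≤ w := by
  classical
  by_contra hn
  have hcase : a = 1 ∨ w = t + 1 := by omega
  obtain ⟨cf, N, hB, hF⟩ := h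
  obtain ⟨s₀, u₀, hs₀, hu₀, fs, fu, hsum⟩ := Edge.exists_pair φ ((hB.iff 0 w).2 hC)
    ((hB.iff a t).2 hQ) (hB.fix 0 w) (hB.fix a t) (a := a) hcase
  obtain ⟨Ω, _, _, _, V, g, gτ, gc, gv⟩ := existsVal k φ
  have := charP k Ω
  obtain ⟨p, hp⟩ := Nat.exists_eq_add_of_le (Nat.pow_le_pow_right two_pos ht.le)
  obtain ⟨e, he⟩ := Nat.exists_eq_add_of_le (Nat.one_le_two_pow (n := a))
  have hpR : (p : ℝ) = 2 ^ w - 2 ^ t := by
    have : ((2 ^ w : ℕ) : ℝ) = ((2 ^ t + p : ℕ) : ℝ) := by rw [hp]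
    push_cast at this
    linarith
  have heR : (e : ℝ) = 2 ^ a - 1 := by
    have : ((2 ^ a : ℕ) : ℝ) = ((1 + e : ℕ) : ℝ) := by rw [he]
    push_cast at this
    linarith
  have hp0 : (0 : ℝ) < p := by
    rw [hpR]
    exact sub_pos.2 (Edge.two_pow_lt ht)
  obtain ⟨s, hs⟩ : ∃ s : Ω, s = algebraMap k Ω s₀ * V.τ ^ p := ⟨_, rfl⟩
  obtain ⟨θ, hθ⟩ : ∃ θ : Ω, θ = algebraMap k Ω u₀ * V.τ ^ e := ⟨_, rfl⟩
  have s0 : s ≠ 0 := by
    rw [hs]
    exact mul_ne_zero ((_root_.map_ne_zero _).2 hs₀) (pow_ne_zero _ V.τ_ne)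
  have θ0 : θ ≠ 0 := by
    rw [hθ]
    exact mul_ne_zero ((_root_.map_ne_zero _).2 hu₀) (pow_ne_zero _ V.τ_ne)
  have ls : lg V s = -(2 ^ w - 2 ^ t) := by
    rw [hs, lg_const_mul hs₀, lg_pow, lg_tau, hpR]
    ring
  have lθ : lg V θ = -(2 ^ a - 1) := by
    rw [hθ, lg_const_mul hu₀, lg_pow, lg_tau, heR]
    ring
  have ls0 : lg V s ≠ 0 := by
    rw [ls, ← hpR]
    exact neg_ne_zero.2 hp0.ne'
  have gs : g s = s := by rw [hs, map_mul, map_pow, gτ, gc, fs]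
  have gθ : g θ = θ := by rw [hθ, map_mul, map_pow, gτ, gc, fu]
  have hT : Transcendental k s := transcendental_of_lg (V := V) s0 ls0
  obtain ⟨A, hA⟩ : ∃ A : Polynomial Ω,
      A = (BB cf N).map ((aeval s : k[X] →ₐ[k] Ω) : k[X] →+* Ω) := ⟨_, rfl⟩
  have evA : ∀ y, A.eval y = ev2 s y (BB cf N) := fun y => by rw [hA, ev2_eq_eval]
  have gA : ∀ y, g (A.eval y) = A.eval (g y) := fun y => by
    have := map_ev2 (φ : k →+* k) (g : Ω →+* Ω) gc s y (BB cf N)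
    rw [hB.mp2_eq] at this
    simp only [RingHom.coe_coe] at this
    rw [evA, evA, this, gs]
  have addA : ∀ x y, A.eval (x + y) = A.eval x + A.eval y := fun x y => by
    rw [evA, evA, evA, (addIn_BB cf N).ev2_add]
  have cA : A.coeff (2 ^ w) = aeval s (row cf N w) := by
    rw [hA, coeff_map, hB.cf_BB]
    rfl
  have cA0 : A.coeff (2 ^ w) ≠ 0 := by
    rw [cA]
    exact aeval_ne hT (hB.row_ne hC)
  have tay : ∀ y, taylor y A = A + C (A.eval y) := fun y =>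
    Polynomial.funext fun x => by rw [taylor_eval, addA, eval_add, eval_C]
  have M0 : s * θ ^ 2 ^ w ≠ 0 := mul_ne_zero s0 (pow_ne_zero _ θ0)
  have lM : lg V (s * θ ^ 2 ^ w) = lg V s + 2 ^ w * lg V θ := by
    rw [lg_mul s0 (pow_ne_zero _ θ0), lg_two_pow]
  have h1 : V.v (A.eval θ) < V.v (s * θ ^ 2 ^ w) := by
    obtain ⟨S, hS⟩ := hB.exists_supp
    have hne : ((a, t) : ℕ × ℕ) ≠ (0, w) := fun e => by
      have := congrArg Prod.fst e
      simp only at this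
      omega
    have m1 : ((0, w) : ℕ × ℕ) ∈ S := (hS _ _).2 hC
    have m2 : ((a, t) : ℕ × ℕ) ∈ S.erase (0, w) := Finset.mem_erase.2 ⟨hne, (hS _ _).2 hQ⟩
    have z : algebraMap k Ω (cf 0 w) * s ^ 2 ^ 0 * θ ^ 2 ^ w +
        algebraMap k Ω (cf a t) * s ^ 2 ^ a * θ ^ 2 ^ t = 0 := by
      have e1 := congrArg (algebraMap k Ω) hsum
      simp only [map_add, map_mul, map_pow, map_zero] at e1
      have e2 : p + e * 2 ^ w = p * 2 ^ a + e * 2 ^ t := by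
        rw [hp, he]
        ring
      have e3 : V.τ ^ p * (V.τ ^ e) ^ 2 ^ w = (V.τ ^ p) ^ 2 ^ a * (V.τ ^ e) ^ 2 ^ t := by
        simp only [← pow_mul, ← pow_add, e2]
      rw [hs, hθ, pow_zero, pow_one, mul_pow, mul_pow, mul_pow]
      linear_combination (V.τ ^ p * (V.τ ^ e) ^ 2 ^ w) * e1 -
        (algebraMap k Ω (cf a t) * algebraMap k Ω s₀ ^ 2 ^ a * algebraMap k Ω u₀ ^ 2 ^ t) * e3
    rw [evA, hB.sum_eq S fun a b => (hS a b).2, ← Finset.add_sum_erase S _ m1,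
      ← Finset.add_sum_erase _ _ m2, ← add_assoc]
    simp only
    rw [z, zero_add]
    refine V.v.map_sum_lt ((V.v.ne_zero_iff).2 M0) fun q hq => ?_
    obtain ⟨α, β⟩ := q
    have q1 := Finset.mem_erase.1 hq
    have q2 := Finset.mem_erase.1 q1.2
    have r := (hS _ _).1 q2.2
    have c0 := (hB.iff α β).2 r
    have t0 : algebraMap k Ω (cf α β) * s ^ 2 ^ α * θ ^ 2 ^ β ≠ 0 :=
      mul_ne_zero (mul_ne_zero ((_root_.map_ne_zero _).2 c0) (pow_ne_zero _ s0)) (pow_ne_zero _ θ0)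
    simp only
    rw [v_lt_iff t0 M0, lM, mul_assoc, lg_const_mul c0,
      lg_mul (pow_ne_zero _ s0) (pow_ne_zero _ θ0), lg_two_pow, lg_two_pow, ls, lθ]
    rcases hd α β r with ⟨rfl, rfl⟩ | ⟨rfl, rfl⟩ | h3
    · exact absurd rfl q2.1
    · exact absurd rfl q1.1
    · linarith
  have h2 : V.v (s * θ ^ 2 ^ w) ≤ V.v (A.coeff (2 ^ w) * θ ^ 2 ^ w) := by
    rw [v_le_iff M0 (mul_ne_zero cA0 (pow_ne_zero _ θ0)), lM, lg_mul cA0 (pow_ne_zero _ θ0),
      lg_two_pow, cA]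
    have := hB.row_ge V s0 ls0 hC
    rw [pow_zero, one_mul] at this
    linarith
  obtain ⟨y, gy, hy, y0, -⟩ := fp V g gv A A gA gA addA (z := 0) (θ := θ) (map_zero g) θ0
    (fun y x _ hx _ i hi => ⟨2 ^ w, by
      rw [tay, coeff_add, coeff_C, if_neg (by omega), add_zero, sub_self, zero_mul, map_zero]
      exact (V.v.pos_iff).2 (mul_ne_zero cA0 (pow_ne_zero _ hx))⟩)
    (by rw [gθ, sub_self, map_zero]; exact (V.v.pos_iff).2 θ0) (h1.trans_le h2)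
  rw [evA, evA, ev2_zero (addIn_BB cf N)] at hy
  exact y0 (hF Ω g gc s y hT gs gy hy)

omit [IsAlgClosed k] [CharP k 2] in
/-- The vertex where the top level starts. -/
theorem exists_vertex {N : ℕ} (hN : ∀ α β, R α β → α ≤ N) {w a₀ : ℕ} (h0 : R a₀ 0) (hw : 1 ≤ w)
    (hR : ∀ α β, R α β → (α = 0 ∧ β = w) ∨ (1 ≤ α ∧ β < w)) :
    ∃ a t, R a t ∧ t < w ∧ 1 ≤ a ∧
      (∀ α β, R α β → (α = 0 ∧ β = w) ∨ (α = a ∧ β = t) ∨
        (2 : ℝ) ^ a * (2 ^ w - 2 ^ β) < 2 ^ α * (2 ^ w - 2 ^ t)) ∧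
      ∀ α β, R α β → (α = 0 ∧ β = w) ∨ (α = a ∧ β = t) ∨
        ((2 : ℝ) ^ a - 1) * (2 ^ w - 2 ^ β) < (2 ^ α - 1) * (2 ^ w - 2 ^ t) := by
  classical
  obtain ⟨S, hS⟩ : ∃ S : Finset (ℕ × ℕ), ∀ α β, (α, β) ∈ S ↔ R α β ∧ β < w :=
    ⟨(Finset.range (N + 1) ×ˢ Finset.range w).filter fun p => R p.1 p.2, fun α β => by
      simp only [Finset.mem_filter, Finset.mem_product, Finset.mem_range, Nat.lt_succ_iff]
      exact ⟨fun e => ⟨e.2, e.1.2⟩, fun e => ⟨⟨hN _ _ e.1, e.2⟩, e.1⟩⟩⟩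
  obtain ⟨⟨a, t⟩, hm, hmin⟩ := S.exists_min_image
    (fun p => (2 : ℝ) ^ p.1 / (2 ^ w - 2 ^ p.2)) ⟨(a₀, 0), (hS _ _).2 ⟨h0, hw⟩⟩
  obtain ⟨hat, ht⟩ := (hS _ _).1 hm
  have ha : 1 ≤ a := by
    rcases hR a t hat with h | h
    · omega
    · exact h.1
  have hP : (0 : ℝ) < 2 ^ w - 2 ^ t := sub_pos.2 (Edge.two_pow_lt ht)
  have key : ∀ α β, R α β → β < w → (α = a ∧ β = t) ∨
      (2 : ℝ) ^ a * (2 ^ w - 2 ^ β) < 2 ^ α * (2 ^ w - 2 ^ t) := by
    intro α β r hβ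
    have hP' : (0 : ℝ) < 2 ^ w - 2 ^ β := sub_pos.2 (Edge.two_pow_lt hβ)
    have h1 := hmin (α, β) ((hS _ _).2 ⟨r, hβ⟩)
    simp only at h1
    rw [div_le_div_iff₀ hP hP'] at h1
    rcases h1.lt_or_eq with h2 | h2
    · exact Or.inr h2
    · rcases lt_trichotomy β t with h3 | rfl | h3
      · exact absurd h2 (Edge.ne_of_lt' h3 ht a α)
      · have h4 := mul_right_cancel₀ hP.ne' h2
        exact Or.inl ⟨(pow_right_injective₀ two_pos (by norm_num) h4).symm, rfl⟩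
      · exact absurd h2.symm (Edge.ne_of_lt' h3 hβ α a)
  refine ⟨a, t, hat, ht, ha, fun α β r => ?_, fun α β r => ?_⟩
  · rcases hR α β r with h | h
    · exact Or.inl h
    · exact Or.inr (key α β r h.2)
  · rcases hR α β r with h | h
    · exact Or.inl h
    · rcases key α β r h.2 with h1 | h1
      · exact Or.inr (Or.inl h1)
      · refine Or.inr (Or.inr ?_)
        rcases le_or_gt β t with h2 | h2
        · have := Edge.two_pow_le h2
          linarith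
        · have e1 := Edge.two_pow_lt h2
          have e2 := Edge.two_mul_le h.2
          have e3 : (0 : ℝ) < 2 ^ t := by positivity
          have e4 : (0 : ℝ) < 2 ^ α := by positivity
          have e5 : a ≤ α := by
            by_contra h3
            have e6 := Edge.two_mul_le (not_le.1 h3)
            nlinarith
          have e6 := Edge.two_pow_le e5
          have e7 : (2 : ℝ) ^ 0 < 2 ^ a := Edge.two_pow_lt ha
          rw [pow_zero] at e7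
          nlinarith

end W48

end Pool.Agent.Lib.MP_346d6a_co
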