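import Pool.Agent.Lib.MP_346d6a_co.W48Core

/-!
Faces of the polyhedron of the second differences have no fixed roots.
-/

set_option maxSynthPendingDepth 3

namespace Pool.Agent.Lib.MP_346d6a_co

open Polynomial

namespace W48

open W28

namespace F1

/-- The binary digits of `m` and `n` are disjoint. -/
def O (m n : ℕ) : Prop := (m + n).choose n % 2 = 1

theorem O_zero (m : ℕ) : O m 0 := by simp [O]

theorem O_iff (m n : ℕ) : O m n ↔ ¬ (m % 2 = 1 ∧ n % 2 = 1) ∧ O (m / 2) (n / 2) := by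
  have : Fact (Nat.Prime 2) := ⟨Nat.prime_two⟩
  have h : (m + n).choose n % 2 =
      (((m + n) % 2).choose (n % 2) * ((m + n) / 2).choose (n / 2)) % 2 :=
    Choose.choose_modEq_choose_mod_mul_choose_div_nat (p := 2)
  unfold O
  rw [h]
  rcases Nat.mod_two_eq_zero_or_one m with hm | hm <;>
    rcases Nat.mod_two_eq_zero_or_one n with hn | hn
  · rw [show (m + n) % 2 = 0 by omega, show (m + n) / 2 = m / 2 + n / 2 by omega, hm, hn]; simp
  · rw [show (m + n) % 2 = 1 by omega, show (m + n) / 2 = m / 2 + n / 2 by omega, hm, hn]; simp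
  · rw [show (m + n) % 2 = 1 by omega, show (m + n) / 2 = m / 2 + n / 2 by omega, hm, hn]; simp
  · rw [show (m + n) % 2 = 0 by omega, hm, hn]; simp

theorem low1 (n : ℕ) : ∀ m, O m n → n ≠ 0 →
    ∃ j D, 2 ^ (j + 1) ∣ D ∧ D + 2 ^ j = m + n ∧ 2 ^ j ≤ n := by
  induction n using Nat.strong_induction_on with
  | _ n ih =>
    intro m h hn
    obtain ⟨h1, h2⟩ := (O_iff m n).1 h
    by_cases e : (m + n) % 2 = 1
    · exact ⟨0, m + n - 1, by omega, by omega, by omega⟩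
    · obtain ⟨j, D, d1, d2, d3⟩ := ih (n / 2) (by omega) (m / 2) h2 (by omega)
      refine ⟨j + 1, 2 * D, ?_, ?_, ?_⟩
      · rw [pow_succ' 2 (j + 1)]
        exact Nat.mul_dvd_mul_left 2 d1
      · rw [pow_succ]; omega
      · rw [pow_succ]; omega

theorem low2 (A : ℕ) : ∀ D l, O D A → O (D + A) l → A ≠ 0 → l ≠ 0 →
    ∃ i j D', i < j ∧ 2 ^ (j + 1) ∣ D' ∧ D' + 2 ^ i + 2 ^ j = D + A + l ∧ 2 ^ i ≤ A ∧
      2 ^ i + 2 ^ j ≤ A + l ∧ (A + l = 2 ^ i + 2 ^ j → A = 2 ^ i ∨ A = 2 ^ j) := by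
  induction A using Nat.strong_induction_on with
  | _ A ih =>
    intro D l h h' hA hl
    obtain ⟨h1, h2⟩ := (O_iff D A).1 h
    obtain ⟨h3, h4⟩ := (O_iff (D + A) l).1 h'
    have hd : ∀ {j D' : ℕ}, 2 ^ (j + 1) ∣ D' → 2 ^ (j + 1 + 1) ∣ 2 * D' := fun {j D'} d => by
      rw [pow_succ' 2 (j + 1)]
      exact Nat.mul_dvd_mul_left 2 d
    by_cases e : (D + A + l) % 2 = 1
    · by_cases e2 : l / 2 = 0
      · obtain ⟨j, D', d1, d2, d3⟩ := low1 (A / 2) (D / 2) h2 (by omega)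
        refine ⟨0, j + 1, 2 * D', by omega, hd d1, ?_, ?_, ?_, ?_⟩ <;> simp only [pow_succ, pow_zero] <;>
          omega
      · obtain ⟨j, D', d1, d2, d3⟩ := low1 (l / 2) ((D + A) / 2) h4 e2
        refine ⟨0, j + 1, 2 * D', by omega, hd d1, ?_, ?_, ?_, ?_⟩ <;> simp only [pow_succ, pow_zero] <;>
          omega
    · rw [show (D + A) / 2 = D / 2 + A / 2 by omega] at h4
      obtain ⟨i, j, D', d0, d1, d2, d3, d4, d5⟩ :=
        ih (A / 2) (by omega) (D / 2) (l / 2) h2 h4 (by omega) (by omega)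
      refine ⟨i + 1, j + 1, 2 * D', by omega, hd d1, ?_, ?_, ?_, ?_⟩ <;> simp only [pow_succ] <;>
        omega

theorem O_pow (b : ℕ) : ∀ m, m / 2 ^ b % 2 = 0 → O m (2 ^ b) := by
  induction b with
  | zero =>
    intro m h
    rw [O_iff]
    exact ⟨by omega, O_zero _⟩
  | succ b ih =>
    intro m h
    rw [O_iff, pow_succ, Nat.mul_div_cancel _ two_pos]
    refine ⟨by omega, ih _ ?_⟩
    rwa [Nat.div_div_eq_div_mul, ← pow_succ']

theorem O_of_dvd {b m : ℕ} (h : 2 ^ (b + 1) ∣ m) : O m (2 ^ b) := by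
  obtain ⟨c, rfl⟩ := h
  refine O_pow b _ ?_
  rw [pow_succ, mul_assoc, Nat.mul_div_cancel_left _ (pow_pos two_pos b)]
  omega

theorem O_cand {a b D : ℕ} (hab : a ≠ b) (ha : 2 ^ (a + 1) ∣ D) (hb : 2 ^ (b + 1) ∣ D) :
    O (D + 2 ^ a) (2 ^ b) := by
  rcases hab.lt_or_gt with h | h
  · obtain ⟨c, rfl⟩ := hb
    refine O_pow b _ ?_
    rw [pow_succ, mul_assoc, Nat.mul_add_div (pow_pos two_pos b),
      Nat.div_eq_of_lt (Nat.pow_lt_pow_right one_lt_two h)]
    omega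
  · exact O_of_dvd (dvd_add hb (pow_dvd_pow 2 h))

variable {k : Type} [Field k] [CharP k 2] {f : k[X]}

theorem cast_O {R : Type} [Ring R] [CharP R 2] {m n : ℕ} (h : O m n) :
    (((m + n).choose n : ℕ) : R) = 1 := by
  rw [← Nat.div_add_mod ((m + n).choose n) 2, show (m + n).choose n % 2 = 1 from h]
  push_cast
  rw [CharTwo.two_eq_zero, zero_mul, zero_add]

theorem O_of_cast {m n : ℕ} (h : (((m + n).choose n : ℕ) : k) ≠ 0) : O m n := by
  by_contra e
  refine h ((CharP.cast_eq_zero_iff k 2 _).2 ?_)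
  unfold O at e
  omega

theorem cf_eq (f : k[X]) (a D l : ℕ) : ((hasseDeriv (2 ^ a) (DD f)).coeff D).coeff l =
    ((D + 2 ^ a).choose (2 ^ a) : k) * (if l = 0 then 0 else
      ((D + 2 ^ a + l).choose l : k) * f.coeff (D + 2 ^ a + l)) := by
  rw [hasseDeriv_coeff, ← coeff_DD, ← C_eq_natCast, coeff_C_mul]

theorem cf_cand {a b D : ℕ} (h : Cand f.support a b D) :
    ((hasseDeriv (2 ^ a) (DD f)).coeff D).coeff (2 ^ b) = f.coeff (D + 2 ^ a + 2 ^ b) := by
  rw [cf_eq, if_neg (pow_pos two_pos b).ne', cast_O (O_of_dvd h.2.2.1),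
    cast_O (O_cand h.1 h.2.2.1 h.2.2.2), one_mul, one_mul]

/-- The weights of the monomials of the Hasse derivatives. -/
theorem wt_le {S U W : ℚ} (hSU : S ≤ U) (hU : U < 1)
    (hb : ∀ a b D, Cand f.support a b D → (D : ℚ) + S * 2 ^ a + U * 2 ^ b ≤ W) {a D l : ℕ}
    (h : ((hasseDeriv (2 ^ a) (DD f)).coeff D).coeff l ≠ 0) :
    (D : ℚ) + S * 2 ^ a + U * l < W ∨
      ∃ b, l = 2 ^ b ∧ Cand f.support a b D ∧ (D : ℚ) + S * 2 ^ a + U * 2 ^ b = W := by
  rw [cf_eq] at h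
  have hl : l ≠ 0 := fun e => h (by rw [if_pos e, mul_zero])
  rw [if_neg hl] at h
  have o1 : O D (2 ^ a) := O_of_cast (left_ne_zero_of_mul h)
  have o2 : O (D + 2 ^ a) l := O_of_cast (left_ne_zero_of_mul (right_ne_zero_of_mul h))
  have he : D + 2 ^ a + l ∈ f.support :=
    mem_support_iff.2 (right_ne_zero_of_mul (right_ne_zero_of_mul h))
  obtain ⟨i, j, D', d0, d1, d2, d3, d4, d5⟩ := low2 _ D l o1 o2 (pow_pos two_pos a).ne' hl
  have d1' : 2 ^ (i + 1) ∣ D' := (pow_dvd_pow 2 (by omega)).trans d1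
  have c1 : Cand f.support i j D' := ⟨d0.ne, by rw [d2]; exact he, d1', d1⟩
  have w1 := hb i j D' c1
  have q2 : (D' : ℚ) + 2 ^ i + 2 ^ j = D + 2 ^ a + l := by exact_mod_cast d2
  have q3 : (2 : ℚ) ^ i ≤ 2 ^ a := by exact_mod_cast d3
  rcases d4.lt_or_eq with d4 | d4
  · left
    have q4 : (2 : ℚ) ^ i + 2 ^ j < 2 ^ a + l := by exact_mod_cast d4
    nlinarith [mul_nonneg (sub_nonneg.2 hSU) (sub_nonneg.2 q3), mul_pos (sub_pos.2 hU) (sub_pos.2 q4)]
  · have hD : D' = D := by omega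
    subst hD
    have key : ∀ b, l = 2 ^ b → Cand f.support a b D' → (D' : ℚ) + S * 2 ^ a + U * l < W ∨
        ∃ b, l = 2 ^ b ∧ Cand f.support a b D' ∧ (D' : ℚ) + S * 2 ^ a + U * 2 ^ b = W :=
      fun b e c => by
        rcases (hb a b D' c).lt_or_eq with w | w
        · left
          rw [e]
          exact_mod_cast w
        · exact Or.inr ⟨b, e, c, w⟩
    rcases d5 d4.symm with e | e
    · have : a = i := Nat.pow_right_injective le_rfl e
      subst this
      exact key j (by omega) c1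
    · have : a = j := Nat.pow_right_injective le_rfl e
      subst this
      have e' : l = 2 ^ i := by omega
      exact key i e' ⟨d0.ne', by rw [← e']; exact he, d1, d1'⟩

open Classical in
/-- The remaining digits on the face. -/
noncomputable def Dof (E : Finset ℕ) (S U W : ℚ) (a b : ℕ) : ℕ :=
  if h : Face E S U W a b then h.choose else 0

theorem Dof_spec {E : Finset ℕ} {S U W : ℚ} {a b : ℕ} (h : Face E S U W a b) :
    Cand E a b (Dof E S U W a b) ∧ (Dof E S U W a b : ℚ) + S * 2 ^ a + U * 2 ^ b = W := by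
  rw [Dof, dif_pos h]
  exact h.choose_spec

open Classical in
/-- The coefficients of the initial form. -/
noncomputable def cff (f : k[X]) (S U W : ℚ) (b a : ℕ) : k :=
  if Face f.support S U W a b then f.coeff (Dof f.support S U W a b + 2 ^ a + 2 ^ b) else 0

omit [CharP k 2] in
theorem le_deg {a b D : ℕ} (h : Cand f.support a b D) : a ≤ f.natDegree ∧ b ≤ f.natDegree := by
  have h1 := le_natDegree_of_mem_supp _ h.2.1
  have h2 : a < 2 ^ a := Nat.lt_two_pow_self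
  have h3 : b < 2 ^ b := Nat.lt_two_pow_self
  omega

omit [CharP k 2] in
theorem bi {φ : k ≃+* k} (hf : f.map (φ : k →+* k) = f) (S U W : ℚ) :
    Bi φ (cff f S U W) f.natDegree fun b a => Face f.support S U W a b := by
  refine ⟨fun b a => ?_, fun b a h => (le_deg (Dof_spec h).1).symm, fun b a => ?_⟩
  · unfold cff
    split_ifs
    · generalize Dof f.support S U W a b + 2 ^ a + 2 ^ b = e
      conv_rhs => rw [← hf, coeff_map]
      rfl
    · exact map_zero _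
  · unfold cff
    split_ifs with h
    · exact ⟨fun _ => h, fun _ => mem_support_iff.1 (Dof_spec h).1.2.1⟩
    · exact ⟨fun e => absurd rfl e, fun e => absurd e h⟩

/-- The part of a Hasse derivative that lies on the face. -/
noncomputable def top (f : k[X]) (S U W : ℚ) (a : ℕ) : k[X][X] :=
  ∑ b ∈ Finset.range (f.natDegree + 1),
    monomial (Dof f.support S U W a b) (monomial (2 ^ b) (cff f S U W b a))

theorem wt_lt {S U W : ℚ} (hSU : S ≤ U) (hU : U < 1)
    (hb : ∀ a b D, Cand f.support a b D → (D : ℚ) + S * 2 ^ a + U * 2 ^ b ≤ W) {a D l : ℕ}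
    (h : ((hasseDeriv (2 ^ a) (DD f) - top f S U W a).coeff D).coeff l ≠ 0) :
    (D : ℚ) + S * 2 ^ a + U * l < W := by
  have e : ((top f S U W a).coeff D).coeff l = ∑ b ∈ Finset.range (f.natDegree + 1),
      if Dof f.support S U W a b = D ∧ 2 ^ b = l then cff f S U W b a else 0 := by
    rw [top, finsetSum_coeff, finsetSum_coeff]
    refine Finset.sum_congr rfl fun b _ => ?_
    rw [coeff_monomial]
    by_cases h1 : Dof f.support S U W a b = D
    · rw [if_pos h1, coeff_monomial]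
      simp only [h1, true_and]
    · rw [if_neg h1, coeff_zero, if_neg fun r => h1 r.1]
  rw [coeff_sub, coeff_sub, e] at h
  by_cases hx : ∃ b, Face f.support S U W a b ∧ Dof f.support S U W a b = D ∧ 2 ^ b = l
  · obtain ⟨b, h1, rfl, rfl⟩ := hx
    refine absurd ?_ h
    rw [Finset.sum_eq_single b, if_pos ⟨rfl, rfl⟩, cf_cand (Dof_spec h1).1, cff, if_pos h1, sub_self]
    · exact fun c _ hc => if_neg fun r => hc (Nat.pow_right_injective le_rfl r.2)
    · exact fun r => absurd (Finset.mem_range.2 (Nat.lt_succ_of_le (le_deg (Dof_spec h1).1).2)) r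
  · rw [Finset.sum_eq_zero, sub_zero] at h
    · rcases wt_le hSU hU hb h with w | ⟨b, rfl, c, w⟩
      · exact w
      · have h1 : Face f.support S U W a b := ⟨D, c, w⟩
        refine absurd ⟨b, h1, ?_, rfl⟩ hx
        have := (Dof_spec h1).2
        have h2 : (Dof f.support S U W a b : ℚ) = D := by linarith
        exact_mod_cast h2
    · intro b _
      split_ifs with r
      · rw [cff, if_neg fun h1 => hx ⟨b, h1, r⟩]
      · rfl

omit [CharP k 2] in
theorem v_ev2_lt {k₁ Ω : Type} [Field k₁] [Field Ω] [Algebra k k₁] [Algebra k Ω] [Algebra k₁ Ω]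
    [IsScalarTower k k₁ Ω] (V : Val k₁ Ω) (P : k[X][X]) (u x y : Ω) {c : NNReal} (hc : c ≠ 0)
    (h : ∀ D l, (P.coeff D).coeff l ≠ 0 → V.v (u ^ l * x ^ D * y) < c) :
    V.v (ev2 u x P * y) < c := by
  rw [ev2_sum, Finset.sum_mul]
  refine V.v.map_sum_lt hc fun D _ => ?_
  rw [aeval_def, eval₂_eq_sum, Polynomial.sum, Finset.sum_mul, Finset.sum_mul]
  refine V.v.map_sum_lt hc fun l hl => ?_
  have h1 := mem_support_iff.1 hl
  rw [mul_assoc, mul_assoc, map_mul, IsScalarTower.algebraMap_apply k k₁ Ω,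
    V.const _ ((_root_.map_ne_zero _).2 h1), one_mul, ← mul_assoc]
  exact h D l h1

theorem main {φ : k ≃+* k} (hc : Ctx φ f) {S U W : ℚ} (hSU : S ≤ U) (hU : U < 1)
    (hb : ∀ a b D, Cand f.support a b D → (D : ℚ) + S * 2 ^ a + U * 2 ^ b ≤ W) {a₀ b₀ : ℕ}
    (h0 : Face f.support S U W a₀ b₀) (K : Type) [Field K] [IsAlgClosed K] [Algebra k K]
    (g₀ : K ≃+* K) (hg : Ov φ g₀) (u₀ s₀ : K) (hu : Transcendental k u₀) (gu : g₀ u₀ = u₀)
    (gs : g₀ s₀ = s₀) (hz : ev2 u₀ s₀ (BB (cff f S U W) f.natDegree) = 0) (hs : s₀ ≠ 0) :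
    S = U ∧ s₀ = u₀ := by
  obtain ⟨Ω, _, _, _, V, g, gτ, gc, gv⟩ := existsVal K g₀
  let _ : Algebra k Ω := ((algebraMap K Ω).comp (algebraMap k K)).toAlgebra
  have : IsScalarTower k K Ω := IsScalarTower.of_algebraMap_eq' rfl
  have hg' : Ov φ g := fun c => by
    rw [IsScalarTower.algebraMap_apply k K Ω, gc, hg, ← IsScalarTower.algebraMap_apply]
  have hu0 : u₀ ≠ 0 := fun e => hu (e ▸ isAlgebraic_zero)
  obtain ⟨n, p, q, hn, hp, hq⟩ : ∃ n p q : ℤ, 0 < n ∧ (p : ℚ) = n * S ∧ (q : ℚ) = n * U := by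
    refine ⟨S.den * U.den, S.num * U.den, U.num * S.den, by positivity, ?_, ?_⟩
    · push_cast
      rw [mul_right_comm, Rat.den_mul_eq_num]
    · push_cast
      rw [mul_assoc, Rat.den_mul_eq_num, mul_comm]
  have hn' : (0 : ℚ) < n := by exact_mod_cast hn
  have hτ := V.τ_ne
  obtain ⟨u, hud⟩ : ∃ u, u = algebraMap K Ω u₀ * V.τ ^ (-q) := ⟨_, rfl⟩
  obtain ⟨θ, hθd⟩ : ∃ θ, θ = algebraMap K Ω s₀ * V.τ ^ (-p) := ⟨_, rfl⟩
  obtain ⟨x, hxd⟩ : ∃ x, x = V.τ ^ (-n) := ⟨_, rfl⟩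
  have u0 : u ≠ 0 := hud ▸ mul_ne_zero ((_root_.map_ne_zero _).2 hu0) (zpow_ne_zero _ hτ)
  have θ0 : θ ≠ 0 := hθd ▸ mul_ne_zero ((_root_.map_ne_zero _).2 hs) (zpow_ne_zero _ hτ)
  have x0 : x ≠ 0 := hxd ▸ zpow_ne_zero _ hτ
  have lu : lg V u = q := by rw [hud, lg_const_mul hu0, lg_zpow, lg_tau]; push_cast; ring
  have lθ : lg V θ = p := by rw [hθd, lg_const_mul hs, lg_zpow, lg_tau]; push_cast; ring
  have lx : lg V x = n := by rw [hxd, lg_zpow, lg_tau]; push_cast; ring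
  have hG : GP k V u x := by
    rw [hud, hxd]
    exact gauss_pair V hu (-q) (-n) (neg_ne_zero.2 hn.ne')
  have hpq : p ≤ q := by
    have : (p : ℚ) ≤ q := by rw [hp, hq]; exact mul_le_mul_of_nonneg_left hSU hn'.le
    exact_mod_cast this
  have hqn : q < n := by
    have : (q : ℚ) < n := by rw [hq]; nlinarith
    exact_mod_cast this
  obtain ⟨D₀, c0, w0⟩ := h0
  obtain ⟨w, hw⟩ : ∃ w : ℤ, w = q * 2 ^ b₀ + n * D₀ + p * 2 ^ a₀ := ⟨_, rfl⟩
  have hw' : (w : ℚ) = n * W := by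
    rw [hw, ← w0]
    push_cast
    rw [hp, hq]
    ring
  have m0 : ∀ a D l : ℕ, u ^ l * x ^ D * θ ^ 2 ^ a ≠ 0 := fun a D l =>
    mul_ne_zero (mul_ne_zero (pow_ne_zero _ u0) (pow_ne_zero _ x0)) (pow_ne_zero _ θ0)
  have lm : ∀ a D l : ℕ, lg V (u ^ l * x ^ D * θ ^ 2 ^ a) =
      ((q * l + n * D + p * 2 ^ a : ℤ) : ℝ) := fun a D l => by
    rw [lg_mul (mul_ne_zero (pow_ne_zero _ u0) (pow_ne_zero _ x0)) (pow_ne_zero _ θ0),
      lg_mul (pow_ne_zero _ u0) (pow_ne_zero _ x0), lg_pow, lg_pow, lg_two_pow, lu, lx, lθ]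
    push_cast
    ring
  have t0 : V.v (u ^ 2 ^ b₀ * x ^ D₀ * θ ^ 2 ^ a₀) ≠ 0 := (V.v.ne_zero_iff).2 (m0 _ _ _)
  have hsum : ∑ a ∈ Finset.range (f.natDegree + 1), ev2 u x (top f S U W a) * θ ^ 2 ^ a = 0 := by
    have e : ∀ a, ev2 u x (top f S U W a) * θ ^ 2 ^ a = ∑ b ∈ Finset.range (f.natDegree + 1),
        algebraMap K Ω (algebraMap k K (cff f S U W b a) * u₀ ^ 2 ^ b * s₀ ^ 2 ^ a) *
          V.τ ^ (-w) := fun a => by
      rw [top, map_sum, Finset.sum_mul]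
      refine Finset.sum_congr rfl fun b _ => ?_
      by_cases h1 : Face f.support S U W a b
      · have h2 : q * 2 ^ b + n * Dof f.support S U W a b + p * 2 ^ a = w := by
          have : ((q * 2 ^ b + n * Dof f.support S U W a b + p * 2 ^ a : ℤ) : ℚ) = w := by
            have h3 := (Dof_spec h1).2
            rw [hw']
            push_cast
            rw [hp, hq]
            linear_combination (n : ℚ) * h3
          exact_mod_cast this
        rw [← C_mul_X_pow_eq_monomial, map_mul, map_pow, ev2_C, ev2_X, aeval_monomial, ← h2, hud,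
          hθd, hxd, IsScalarTower.algebraMap_apply k K Ω, mul_pow, mul_pow, ← zpow_natCast (V.τ ^ _),
          ← zpow_natCast (V.τ ^ _), ← zpow_natCast (V.τ ^ _), ← zpow_mul, ← zpow_mul, ← zpow_mul,
          neg_add, neg_add, zpow_add₀ hτ, zpow_add₀ hτ, map_mul, map_mul, map_pow, map_pow]
        push_cast
        simp only [neg_mul]
        ring
      · rw [cff, if_neg h1]
        simp
    simp only [e, ← Finset.sum_mul, ← map_sum]
    rw [ev2_BB'] at hz
    simp only [← Finset.sum_mul] at hz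
    rw [hz, map_zero, zero_mul]
  have hlt : V.v (∑ a ∈ Finset.range (f.natDegree + 1),
      ev2 u x (hasseDeriv (2 ^ a) (DD f)) * θ ^ 2 ^ a) < V.v (u ^ 2 ^ b₀ * x ^ D₀ * θ ^ 2 ^ a₀) := by
    rw [← sub_zero (∑ a ∈ Finset.range (f.natDegree + 1), _), ← hsum, ← Finset.sum_sub_distrib]
    refine V.v.map_sum_lt t0 fun a _ => ?_
    rw [← sub_mul, ← map_sub]
    refine v_ev2_lt V _ u x _ t0 fun D l h => ?_
    rw [v_lt_iff (m0 _ _ _) (m0 _ _ _), lm, lm]
    have h1 := wt_lt hSU hU hb h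
    have h2 : ((q * l + n * D + p * 2 ^ a : ℤ) : ℚ) < w := by
      rw [hw']
      push_cast
      rw [hp, hq]
      nlinarith [mul_pos hn' (sub_pos.2 h1)]
    have h3 : q * l + n * D + p * 2 ^ a < w := by exact_mod_cast h2
    rw [hw] at h3
    exact_mod_cast h3
  have hle : V.v (u ^ 2 ^ b₀ * x ^ D₀ * θ ^ 2 ^ a₀) ≤
      V.v (ev2 u x (hasseDeriv (2 ^ a₀) (DD f)) * θ ^ 2 ^ a₀) := by
    rw [map_mul _ _ (θ ^ 2 ^ a₀), map_mul _ _ (θ ^ 2 ^ a₀)]
    exact mul_le_mul_left (hG _ _ _ (by rw [cf_cand c0]; exact mem_support_iff.1 c0.2.1)) _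
  have hcore := core hc V g hg' gv (u := u) (x := x) (θ := θ)
    (by rw [hud, map_mul, map_zpow₀, gτ, gc, gu]) (by rw [hxd, map_zpow₀, gτ])
    (by rw [hθd, map_mul, map_zpow₀, gτ, gc, gs]) u0 θ0 hG
    (by rw [v_lt_iff θ0 x0, lθ, lx]; exact_mod_cast hpq.trans_lt hqn)
    (by rw [v_le_iff θ0 u0, lθ, lu]; exact_mod_cast hpq) (hlt.trans_le hle)
  have hpq' : p = q := by
    by_contra e
    have h1 : V.v θ < V.v u := by
      rw [v_lt_iff θ0 u0, lθ, lu]
      exact_mod_cast lt_of_le_of_ne hpq e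
    rw [V.v.map_sub_eq_of_lt_left h1] at hcore
    exact lt_asymm h1 hcore
  refine ⟨mul_left_cancel₀ hn'.ne' (by rw [← hp, ← hq, hpq']), ?_⟩
  by_contra e
  rw [hud, hθd, hpq', ← sub_mul, ← map_sub, map_mul, map_mul, V.const _ hs,
    V.const _ (sub_ne_zero.2 (Ne.symm e))] at hcore
  exact lt_irrefl _ hcore

end F1

variable {k : Type} [Field k] [IsAlgClosed k] [CharP k 2] {φ : k ≃+* k} {f : k[X]}

theorem f1 (hc : Ctx φ f) {S U W : ℚ} (hSU : S ≤ U) (hU : U < 1)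
    (hb : ∀ a b D, Cand f.support a b D → (D : ℚ) + S * 2 ^ a + U * 2 ^ b ≤ W) {a₀ b₀ : ℕ}
    (h0 : Face f.support S U W a₀ b₀) :
    RealS φ (fun b a => Face f.support S U W a b) ∧
      (S < U → Real φ fun b a => Face f.support S U W a b) := by
  refine ⟨⟨_, _, F1.bi hc.fix S U W, fun K _ _ _ g hg s u hs gs gu z => ?_⟩,
    fun h => ⟨_, _, F1.bi hc.fix S U W, fun K _ _ _ g hg s u hs gs gu z => ?_⟩⟩
  · by_cases e : u = 0
    · exact Or.inl e
    · exact Or.inr (F1.main hc hSU hU hb h0 K g hg s u hs gs gu z e).2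
  · by_contra e
    exact h.ne (F1.main hc hSU hU hb h0 K g hg s u hs gs gu z e).1

end W48

end Pool.Agent.Lib.MP_346d6a_co
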