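import Pool.Agent.Lib.MP_346d6a_co.W48Core

/-!
Edges of the polygon of the first differences have no fixed roots.
-/

set_option maxSynthPendingDepth 3

namespace Pool.Agent.Lib.MP_346d6a_co

open Polynomial

namespace W48

open W28

variable {k : Type} [Field k] [IsAlgClosed k] [CharP k 2] {φ : k ≃+* k} {f : k[X]}

namespace F2

omit [IsAlgClosed k] [CharP k 2] in
theorem hasse_DD (f : k[X]) (i : ℕ) : hasseDeriv i (DD f) = DD (hasseDeriv i f) := by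
  ext1 m
  have h := LinearMap.congr_fun (hasseDeriv_comp (R := k) m i) f
  rw [LinearMap.comp_apply, LinearMap.smul_apply] at h
  rw [hasseDeriv_coeff, coeff_DD_eq, coeff_DD_eq, h, hasseDeriv_coeff, Nat.choose_symm_add,
    mul_add, nsmul_eq_mul, C_mul, map_natCast]

omit [IsAlgClosed k] [CharP k 2] in
theorem aeval_hasse {Ω : Type} [Field Ω] [Algebra k Ω] (f : k[X]) (i : ℕ) (y : Ω) :
    aeval y (hasseDeriv i f) =
      ∑ e ∈ f.support, algebraMap k Ω ((e.choose i : k) * f.coeff e) * y ^ (e - i) := by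
  rw [hasseDeriv_apply, Polynomial.sum, map_sum]
  simp only [aeval_monomial]

omit [IsAlgClosed k] in
theorem choose_cand {a D : ℕ} (h : 2 ^ (a + 1) ∣ D) : (((D + 2 ^ a).choose (2 ^ a) : ℕ) : k) = 1 := by
  obtain ⟨m, rfl⟩ := h
  have : 2 ^ (a + 1) * m + 2 ^ a = 2 ^ a * (2 * m + 1) := by ring
  rw [this]
  exact choose_two_pow_self a ⟨m, rfl⟩

omit [IsAlgClosed k] in
theorem weight {μ W : ℚ} (hμ : μ < 1)
    (hb : ∀ a D, Cand1 f.support a D → (D : ℚ) + μ * 2 ^ a ≤ W) {a e : ℕ} (he : e ∈ f.support)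
    (h : ((e.choose (2 ^ a) : ℕ) : k) ≠ 0) :
    2 ^ a ≤ e ∧ ((Cand1 f.support a (e - 2 ^ a) ∧ ((e - 2 ^ a : ℕ) : ℚ) + μ * 2 ^ a = W) ∨
      ((e - 2 ^ a : ℕ) : ℚ) + μ * 2 ^ a < W) := by
  have h1 : 2 ^ a ≤ e := by
    by_contra h2
    exact h (by rw [Nat.choose_eq_zero_of_lt (not_le.1 h2), Nat.cast_zero])
  refine ⟨h1, ?_⟩
  have h0 : e ≠ 0 := by have := Nat.two_pow_pos a; omega
  obtain ⟨b, o, ⟨m, rfl⟩, rfl⟩ := Nat.exists_eq_two_pow_mul_odd h0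
  have e1 : 2 ^ b * (2 * m + 1) = 2 ^ (b + 1) * m + 2 ^ b := by ring
  have hc : Cand1 f.support b (2 ^ (b + 1) * m) := ⟨e1 ▸ he, dvd_mul_right _ _⟩
  have hba : b ≤ a := by
    by_contra h2
    rw [choose_two_pow_mul, if_neg] at h
    · exact h rfl
    · rw [Nat.pow_dvd_pow_iff_le_right one_lt_two]
      exact h2
  have hW := hb _ _ hc
  rcases hba.eq_or_lt with rfl | hlt
  · rw [e1, Nat.add_sub_cancel]
    rcases hW.eq_or_lt with h3 | h3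
    · exact Or.inl ⟨hc, h3⟩
    · exact Or.inr h3
  · refine Or.inr (lt_of_lt_of_le ?_ hW)
    rw [Nat.cast_sub h1, e1]
    have h3 : (2 : ℚ) ^ b < 2 ^ a := pow_lt_pow_right₀ one_lt_two hlt
    push_cast
    nlinarith

end F2

theorem f2 (hc : Ctx φ f) (hl : ∀ e, f.coeff e ≠ 0 → ¬ Lin e) {μ W : ℚ} (hμ : μ < 1)
    (hb : ∀ a D, Cand1 f.support a D → (D : ℚ) + μ * 2 ^ a ≤ W) (F : Finset (ℕ × ℕ))
    (hF : ∀ a D, (a, D) ∈ F ↔ Cand1 f.support a D ∧ (D : ℚ) + μ * 2 ^ a = W) (hne : F.Nonempty)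
    (Ω : Type) [Field Ω] [IsAlgClosed Ω] [Algebra k Ω] (g : Ω ≃+* Ω) (hg : Ov φ g) {z T : Ω}
    (hz : Transcendental k z) (gz : g z = z) (gT : g T = T)
    (h : ∑ p ∈ F, algebraMap k Ω (f.coeff (p.2 + 2 ^ p.1)) * (1 + z ^ p.2) * T ^ 2 ^ p.1 = 0) :
    T = 0 := by
  classical
  by_contra hT
  obtain ⟨Ω₁, _, _, _, V, G, Gτ, Gc, Gv⟩ := existsVal Ω g
  let _ : Algebra k Ω₁ := ((algebraMap Ω Ω₁).comp (algebraMap k Ω)).toAlgebra
  have _ : IsScalarTower k Ω Ω₁ := IsScalarTower.of_algebraMap_eq fun _ => rfl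
  have _ := charP k Ω
  have _ := charP k Ω₁
  have hG : Ov φ G := fun c => by
    rw [IsScalarTower.algebraMap_apply k Ω Ω₁, Gc, hg, ← IsScalarTower.algebraMap_apply]
  have hz1 : Transcendental k (1 + z) := fun h1 =>
    hz (by simpa using h1.sub (isAlgebraic_one (R := k)))
  have hz0 : 1 + z ≠ 0 := fun e => hz1 (e ▸ isAlgebraic_zero)
  have hτ := V.τ_ne
  set n : ℤ := (μ.den : ℤ) with hn
  set p : ℤ := μ.num with hp
  have hn0 : 0 < n := by rw [hn]; exact_mod_cast μ.den_pos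
  have hn0' : (0 : ℚ) < n := by exact_mod_cast hn0
  have hpn : (p : ℚ) = μ * n := by rw [hp, hn]; exact_mod_cast (Rat.mul_den_eq_num μ).symm
  have hpn' : p < n := by
    have : (p : ℚ) < n := by rw [hpn]; nlinarith
    exact_mod_cast this
  obtain ⟨⟨a₀, D₀⟩, h0⟩ := hne
  obtain ⟨hc0, hW0⟩ := (hF a₀ D₀).1 h0
  set wt : ℕ → ℕ → ℤ := fun a D => n * D + p * 2 ^ a with hwt
  have wq : ∀ a D, ((wt a D : ℤ) : ℚ) = n * ((D : ℚ) + μ * 2 ^ a) := fun a D => by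
    simp only [hwt]
    push_cast
    rw [hpn]
    ring
  have weq : ∀ a D, (a, D) ∈ F → wt a D = wt a₀ D₀ := fun a D hm => by
    have : ((wt a D : ℤ) : ℚ) = wt a₀ D₀ := by rw [wq, wq, ((hF a D).1 hm).2, hW0]
    exact_mod_cast this
  have wlt : ∀ a D : ℕ, (D : ℚ) + μ * 2 ^ a < W → wt a D < wt a₀ D₀ := fun a D hm => by
    have : ((wt a D : ℤ) : ℚ) < wt a₀ D₀ := by
      rw [wq, wq, hW0]
      exact mul_lt_mul_of_pos_left hm hn0'
    exact_mod_cast this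
  have lgc : ∀ (c : Ω) (w : ℤ), c ≠ 0 → algebraMap Ω Ω₁ c * V.τ ^ (-w) ≠ 0 ∧
      lg V (algebraMap Ω Ω₁ c * V.τ ^ (-w)) = w := fun c w hc' =>
    ⟨mul_ne_zero ((_root_.map_ne_zero _).2 hc') (zpow_ne_zero _ hτ), by
      rw [lg_const_mul hc', lg_zpow, lg_tau]; push_cast; ring⟩
  have lgt : ∀ w : ℤ, lg V (V.τ ^ (-w)) = w := fun w => by
    rw [lg_zpow, lg_tau]; push_cast; ring
  set cc : ℕ → ℕ → Ω := fun a e =>
    algebraMap k Ω ((e.choose (2 ^ a) : k) * f.coeff e) * (1 + z ^ (e - 2 ^ a)) * T ^ 2 ^ a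
    with hcc
  set t : ℕ → ℕ → Ω₁ := fun a e => algebraMap Ω Ω₁ (cc a e) * V.τ ^ (-wt a (e - 2 ^ a)) with ht
  have hxu : V.τ ^ (-n) + algebraMap Ω Ω₁ (1 + z) * V.τ ^ (-n) =
      algebraMap Ω Ω₁ z * V.τ ^ (-n) := by
    rw [map_add, map_one, add_mul, one_mul, ← add_assoc, CharTwo.add_self_eq_zero, zero_add]
  have hS : ∀ a, ev2 (algebraMap Ω Ω₁ (1 + z) * V.τ ^ (-n)) (V.τ ^ (-n))
      (hasseDeriv (2 ^ a) (DD f)) * (algebraMap Ω Ω₁ T * V.τ ^ (-p)) ^ 2 ^ a =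
      ∑ e ∈ f.support, t a e := fun a => by
    rw [F2.hasse_DD, ev2_DD, hxu, F2.aeval_hasse, F2.aeval_hasse, ← Finset.sum_add_distrib,
      Finset.sum_mul]
    refine Finset.sum_congr rfl fun e _ => ?_
    have e1 : V.τ ^ (-wt a (e - 2 ^ a)) = (V.τ ^ (-n)) ^ (e - 2 ^ a) * (V.τ ^ (-p)) ^ 2 ^ a := by
      rw [← zpow_natCast, ← zpow_natCast, ← zpow_mul, ← zpow_mul, ← zpow_add₀ hτ]
      congr 1
      simp only [hwt]
      push_cast
      ring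
    simp only [ht, hcc]
    rw [e1, IsScalarTower.algebraMap_apply k Ω Ω₁]
    simp only [map_mul, map_add, map_pow, map_one, mul_pow]
    ring
  have hB : V.τ ^ (-wt a₀ D₀) ≠ 0 := zpow_ne_zero _ hτ
  have hB' : V.v (V.τ ^ (-wt a₀ D₀)) ≠ 0 := (V.v.ne_zero_iff).2 hB
  have small : ∀ a, ∀ e ∈ f.support, ¬ (2 ^ a ≤ e ∧ (a, e - 2 ^ a) ∈ F) →
      V.v (t a e) < V.v (V.τ ^ (-wt a₀ D₀)) := fun a e he hm => by
    by_cases h1 : cc a e = 0
    · simp only [ht, h1, map_zero, zero_mul]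
      exact (V.v.pos_iff).2 hB
    · have h2 : ((e.choose (2 ^ a) : ℕ) : k) ≠ 0 := fun e2 => h1 (by
        simp only [hcc]
        rw [e2, zero_mul, map_zero, zero_mul, zero_mul])
      obtain ⟨h3, h4 | h4⟩ := F2.weight hμ hb he h2
      · exact absurd ⟨h3, (hF _ _).2 h4⟩ hm
      · rw [v_lt_iff (lgc _ _ h1).1 hB, (lgc _ _ h1).2, lgt]
        exact_mod_cast wlt _ _ h4
  have ccF : ∀ a D, (a, D) ∈ F → cc a (D + 2 ^ a) =
      algebraMap k Ω (f.coeff (D + 2 ^ a)) * (1 + z ^ D) * T ^ 2 ^ a := fun a D hm => by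
    simp only [hcc]
    rw [F2.choose_cand ((hF a D).1 hm).1.2, one_mul, Nat.add_sub_cancel]
  have left : V.v (∑ a ∈ Finset.range (f.natDegree + 1), ∑ e ∈ f.support, t a e) <
      V.v (V.τ ^ (-wt a₀ D₀)) := by
    rw [← Finset.sum_product', ← Finset.sum_filter_add_sum_filter_not _
      (fun q : ℕ × ℕ => 2 ^ q.1 ≤ q.2 ∧ (q.1, q.2 - 2 ^ q.1) ∈ F)]
    have e1 : ∑ q ∈ (Finset.range (f.natDegree + 1) ×ˢ f.support).filter
        (fun q : ℕ × ℕ => 2 ^ q.1 ≤ q.2 ∧ (q.1, q.2 - 2 ^ q.1) ∈ F), t q.1 q.2 =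
        ∑ q ∈ F, t q.1 (q.2 + 2 ^ q.1) := by
      refine Finset.sum_nbij' (fun q => (q.1, q.2 - 2 ^ q.1)) (fun q => (q.1, q.2 + 2 ^ q.1))
        (fun q hq => (Finset.mem_filter.1 hq).2.2) (fun q hq => ?_) (fun q hq => ?_)
        (fun q _ => ?_) (fun q hq => ?_)
      · have h1 := ((hF q.1 q.2).1 hq).1.1
        have h2 := le_natDegree_of_mem_supp _ h1
        have h3 : q.1 < 2 ^ q.1 := Nat.lt_two_pow_self
        refine Finset.mem_filter.2 ⟨Finset.mem_product.2 ⟨Finset.mem_range.2 ?_, h1⟩,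
          Nat.le_add_left _ _, ?_⟩
        · change q.1 < _
          omega
        · simpa using hq
      · exact Prod.ext rfl (Nat.sub_add_cancel (Finset.mem_filter.1 hq).2.1)
      · exact Prod.ext rfl (Nat.add_sub_cancel _ _)
      · rw [Nat.sub_add_cancel (Finset.mem_filter.1 hq).2.1]
    have e2 : ∑ q ∈ F, t q.1 (q.2 + 2 ^ q.1) = 0 := by
      have : ∀ q ∈ F, t q.1 (q.2 + 2 ^ q.1) = algebraMap Ω Ω₁ (algebraMap k Ω
          (f.coeff (q.2 + 2 ^ q.1)) * (1 + z ^ q.2) * T ^ 2 ^ q.1) * V.τ ^ (-wt a₀ D₀) :=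
        fun q hq => by
          simp only [ht]
          rw [ccF _ _ hq, Nat.add_sub_cancel, weq _ _ hq]
      rw [Finset.sum_congr rfl this, ← Finset.sum_mul, ← map_sum, h, map_zero, zero_mul]
    rw [e1, e2, zero_add]
    refine V.v.map_sum_lt hB' fun q hq => ?_
    obtain ⟨h1, h2⟩ := Finset.mem_filter.1 hq
    exact small _ _ (Finset.mem_product.1 h1).2 h2
  have hD0 : D₀ ≠ 0 := fun e =>
    hl _ (mem_support_iff.1 hc0.1) (Or.inr ⟨a₀, by rw [e, zero_add]⟩)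
  have hzD : 1 + z ^ D₀ ≠ 0 := fun e => by
    have h1 : IsAlgebraic k (z ^ D₀) := by
      rw [← neg_eq_of_add_eq_zero_right e]
      exact isAlgebraic_one.neg
    exact hz (h1.of_pow (Nat.pos_of_ne_zero hD0))
  have hcc0 : cc a₀ (D₀ + 2 ^ a₀) ≠ 0 := by
    rw [ccF _ _ h0]
    exact mul_ne_zero (mul_ne_zero ((_root_.map_ne_zero _).2 (mem_support_iff.1 hc0.1)) hzD)
      (pow_ne_zero _ hT)
  have top : V.v (t a₀ (D₀ + 2 ^ a₀)) = V.v (V.τ ^ (-wt a₀ D₀)) := by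
    simp only [ht]
    rw [map_mul, V.const _ hcc0, one_mul, Nat.add_sub_cancel]
  have right : V.v (∑ e ∈ f.support, t a₀ e) = V.v (V.τ ^ (-wt a₀ D₀)) := by
    rw [← Finset.add_sum_erase _ _ hc0.1, V.v.map_add_eq_of_lt_left, top]
    rw [top]
    refine V.v.map_sum_lt hB' fun e he => small _ _ (Finset.mem_of_mem_erase he) ?_
    rintro ⟨h1, h2⟩
    have h3 := ((hF _ _).1 h2).2
    rw [← hW0, add_left_inj, Nat.cast_inj] at h3
    exact Finset.ne_of_mem_erase he (by omega)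
  have hθu : V.v (algebraMap Ω Ω₁ T * V.τ ^ (-p)) <
      V.v (algebraMap Ω Ω₁ (1 + z) * V.τ ^ (-n)) := by
    rw [v_lt_iff (lgc _ _ hT).1 (lgc _ _ hz0).1, (lgc _ _ hT).2, (lgc _ _ hz0).2]
    exact_mod_cast hpn'
  have key := core hc V G hG Gv (u := algebraMap Ω Ω₁ (1 + z) * V.τ ^ (-n)) (x := V.τ ^ (-n))
    (θ := algebraMap Ω Ω₁ T * V.τ ^ (-p))
    (by rw [map_mul, Gc, map_zpow₀, Gτ, map_add, map_one, gz]) (by rw [map_zpow₀, Gτ])
    (by rw [map_mul, Gc, map_zpow₀, Gτ, gT]) (lgc _ _ hz0).1 (lgc _ _ hT).1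
    (gauss_pair V hz1 (-n) (-n) (by omega))
    (by
      rw [v_lt_iff (lgc _ _ hT).1 (zpow_ne_zero _ hτ), (lgc _ _ hT).2, lgt]
      exact_mod_cast hpn') hθu.le (a₀ := a₀)
    (by rw [Finset.sum_congr rfl fun a _ => hS a, hS, right]; exact left)
  rw [V.v.map_sub_eq_of_lt_left hθu] at key
  exact lt_asymm hθu key

end W48

end Pool.Agent.Lib.MP_346d6a_co
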