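import Pool.Agent.Lib.MP_346d6a_co.W48Def

/-!
The choice of the face.
-/

set_option maxSynthPendingDepth 3

namespace Pool.Agent.Lib.MP_346d6a_co

open Polynomial

namespace W48

open W28

namespace Fc

theorem not_dvd (a : ℕ) : ¬ 2 ^ (a + 1) ∣ 2 ^ a := fun h => by
  have := Nat.le_of_dvd (by positivity) h
  have h2 : 2 ^ a < 2 ^ (a + 1) := Nat.pow_lt_pow_right one_lt_two (Nat.lt_succ_self a)
  omega

theorem low_lt {X Y a b : ℕ} (h : X + 2 ^ a = Y + 2 ^ b) (hX : 2 ^ (a + 1) ∣ X)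
    (hY : 2 ^ (b + 1) ∣ Y) : ¬ a < b := fun hab => by
  have h1 : 2 ^ (a + 1) ∣ Y + 2 ^ b :=
    dvd_add ((pow_dvd_pow 2 (by omega)).trans hY) (pow_dvd_pow 2 hab)
  rw [← h] at h1
  exact not_dvd a ((Nat.dvd_add_right hX).1 h1)

theorem low_unique {X Y a b : ℕ} (h : X + 2 ^ a = Y + 2 ^ b) (hX : 2 ^ (a + 1) ∣ X)
    (hY : 2 ^ (b + 1) ∣ Y) : a = b := by
  have := low_lt h hX hY
  have := low_lt h.symm hY hX
  omega

theorem not_pow {D M k : ℕ} (hD : 0 < D) (h : 2 ^ (M + 1) ∣ D) : D + 2 ^ M ≠ 2 ^ k := fun e => by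
  have := low_unique (Y := 0) (by rw [e, zero_add]) h (dvd_zero _)
  subst this
  omega

theorem decomp {e : ℕ} (he : e ≠ 0) : ∃ a D, e = D + 2 ^ a ∧ 2 ^ (a + 1) ∣ D := by
  obtain ⟨a, m, ⟨j, rfl⟩, rfl⟩ := Nat.exists_eq_two_pow_mul_odd he
  exact ⟨a, 2 ^ (a + 1) * j, by ring, dvd_mul_right _ _⟩

theorem cand_symm {E : Finset ℕ} {a b D : ℕ} (h : Cand E a b D) : Cand E b a D :=
  ⟨h.1.symm, by rw [add_right_comm]; exact h.2.1, h.2.2.2, h.2.2.1⟩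

theorem cand1 {E : Finset ℕ} {a b D : ℕ} (h : Cand E a b D) (hab : a < b) :
    Cand1 E a (D + 2 ^ b) :=
  ⟨by rw [add_right_comm]; exact h.2.1, dvd_add h.2.2.1 (pow_dvd_pow 2 hab)⟩

theorem exists_max (B : ℕ) (P : ℕ → ℕ → ℕ → Prop) (f : ℕ → ℕ → ℕ → ℚ)
    (hP : ∀ a b D, P a b D → a ≤ B ∧ b ≤ B ∧ D ≤ B) (hne : ∃ a b D, P a b D) :
    ∃ a b D, P a b D ∧ ∀ a' b' D', P a' b' D' → f a' b' D' ≤ f a b D := by
  obtain ⟨a, b, D, h⟩ := hne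
  obtain ⟨⟨a, b, D⟩, h1, h2⟩ := Set.exists_max_image {p : ℕ × ℕ × ℕ | P p.1 p.2.1 p.2.2}
    (fun p => f p.1 p.2.1 p.2.2) ((Set.finite_Iic (B, B, B)).subset fun p hp => hP _ _ _ hp)
    ⟨(a, b, D), h⟩
  exact ⟨a, b, D, h1, fun a' b' D' h' => h2 (a', b', D') h'⟩

theorem plt {a b : ℕ} (h : a < b) : (2 : ℚ) ^ a < 2 ^ b := pow_lt_pow_right₀ one_lt_two h

theorem ple {a b : ℕ} (h : a ≤ b) : (2 : ℚ) ^ a ≤ 2 ^ b := pow_le_pow_right₀ one_le_two h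

theorem ppos (a : ℕ) : (0 : ℚ) < 2 ^ a := by positivity

/-- The standing hypotheses. -/
structure H (E : Finset ℕ) (r N : ℕ) : Prop where
  hr : r < N
  hd : 2 ^ N + 2 ^ r ∈ E
  hle : ∀ e ∈ E, e ≤ 2 ^ N + 2 ^ r
  hK : ∀ μ : ℚ, μ < 1 → ∀ a D, Cand1 E a D →
      (∀ a' D', Cand1 E a' D' → (D' : ℚ) + μ * 2 ^ a' ≤ D + μ * 2 ^ a) → ∃ b, D = 2 ^ b

/-- `c` bounds the quadratic part in direction `ν`. -/
def Top (E : Finset ℕ) (ν c : ℚ) : Prop := ∀ a b, Cand E a b 0 → 2 ^ b - ν * 2 ^ a ≤ c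

/-- The pair attains the bound. -/
def Att (E : Finset ℕ) (ν c : ℚ) (a b : ℕ) : Prop := Cand E a b 0 ∧ 2 ^ b - ν * 2 ^ a = c

/-- Critical directions. -/
def Crit (E : Finset ℕ) (ν c : ℚ) : Prop :=
  (0 ≤ ν ∨ ν = -1) ∧ Top E ν c ∧ ∃ a b a' b', Att E ν c a b ∧ Att E ν c a' b' ∧ a < a'

/-- The height of the apex. -/
def Tau (E : Finset ℕ) (ν c τ : ℚ) : Prop :=
  (∀ a b D, Cand E a b D → 0 < D → (D : ℚ) ≤ τ * (c - 2 ^ b + ν * 2 ^ a)) ∧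
    ∃ a b D, Cand E a b D ∧ 0 < D ∧ (D : ℚ) = τ * (c - 2 ^ b + ν * 2 ^ a)

variable {E : Finset ℕ} {r N : ℕ}

theorem H.rN (h : H E r N) : Cand E r N 0 :=
  ⟨h.hr.ne, by rw [zero_add, add_comm]; exact h.hd, dvd_zero _, dvd_zero _⟩

theorem H.bd (h : H E r N) {a b D : ℕ} (hc : Cand E a b D) :
    a ≤ 2 ^ N + 2 ^ r ∧ b ≤ 2 ^ N + 2 ^ r ∧ D ≤ 2 ^ N + 2 ^ r := by
  have := h.hle _ hc.2.1
  have h1 : a < 2 ^ a := Nat.lt_two_pow_self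
  have h2 : b < 2 ^ b := Nat.lt_two_pow_self
  omega

theorem H.leq (h : H E r N) {a b D : ℕ} (hc : Cand E a b D) :
    (D : ℚ) + 2 ^ a + 2 ^ b ≤ 2 ^ N + 2 ^ r := by exact_mod_cast h.hle _ hc.2.1

theorem H.le_N (h : H E r N) {a b : ℕ} (hc : Cand E a b 0) : b ≤ N := by
  by_contra hb
  have h1 := h.leq hc
  have h2 : (2 : ℚ) ^ (N + 1) ≤ 2 ^ b := ple (by omega)
  have h3 := plt h.hr
  have h4 := ppos a
  rw [pow_succ] at h2
  push_cast at h1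
  linarith

theorem H.small (h : H E r N) {a b D : ℕ} (hc : Cand E a b D) (hD : 0 < D) : a + 2 ≤ N := by
  by_contra ha
  have h1 := h.leq hc
  have h2 : (2 : ℚ) ^ (a + 1) ≤ D := by exact_mod_cast Nat.le_of_dvd hD hc.2.2.1
  have h3 : (2 : ℚ) ^ N ≤ 2 ^ (a + 1) := ple (by omega)
  have h4 : (2 : ℚ) ^ r ≤ 2 ^ a := ple (by have := h.hr; omega)
  have h5 := ppos b
  linarith

theorem H.eq_top (h : H E r N) {a b D : ℕ} (hc : Cand E a b D) (hab : a < b)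
    (e : (D : ℚ) + 2 ^ a + 2 ^ b = 2 ^ N + 2 ^ r) : D = 0 ∧ a = r ∧ b = N := by
  have e' : D + 2 ^ b + 2 ^ a = 2 ^ N + 2 ^ r := by
    rw [add_right_comm]; exact_mod_cast e
  have h1 := low_unique e' (cand1 hc hab).2 (pow_dvd_pow 2 h.hr)
  subst h1
  have e2 : D + 2 ^ b = 2 ^ N := by omega
  have h0 : D = 0 := by
    by_contra h0
    exact not_pow (Nat.pos_of_ne_zero h0) hc.2.2.2 e2
  subst h0
  rw [zero_add] at e2
  exact ⟨rfl, rfl, Nat.pow_right_injective le_rfl e2⟩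

theorem H.max1 (h : H E r N) (μ : ℚ) (hμ : μ < 1) : ∃ a b, Cand E a b 0 ∧
    ∀ a' D', Cand1 E a' D' → (D' : ℚ) + μ * 2 ^ a' ≤ 2 ^ b + μ * 2 ^ a := by
  obtain ⟨a, b0, D, ⟨h1, -⟩, h2⟩ := exists_max (2 ^ N + 2 ^ r)
    (fun a b D => Cand1 E a D ∧ b = 0) (fun a _ D => (D : ℚ) + μ * 2 ^ a)
    (fun a b D hc => by
      have := h.hle _ hc.1.1
      have h1 : a < 2 ^ a := Nat.lt_two_pow_self
      omega)
    ⟨r, 0, 2 ^ N, ⟨h.hd, pow_dvd_pow 2 h.hr⟩, rfl⟩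
  have h3 : ∀ a' D', Cand1 E a' D' → (D' : ℚ) + μ * 2 ^ a' ≤ D + μ * 2 ^ a :=
    fun a' D' h' => h2 a' 0 D' ⟨h', rfl⟩
  obtain ⟨b, rfl⟩ := h.hK μ hμ a D h1 h3
  refine ⟨a, b, ⟨?_, ?_, dvd_zero _, dvd_zero _⟩, fun a' D' h' => ?_⟩
  · rintro rfl
    exact not_dvd a h1.2
  · rw [zero_add, add_comm]; exact h1.1
  · have := h3 a' D' h'
    push_cast at this
    exact this

/-- The terms that are not quadratic lie strictly below the quadratic polygon. -/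
theorem H.kp (h : H E r N) {ν c : ℚ} (hν : -1 ≤ ν) (ht : Top E ν c) {a b D : ℕ}
    (hc : Cand E a b D) (hD : 0 < D) : (D : ℚ) < c - 2 ^ b + ν * 2 ^ a := by
  have key : ∀ a b, Cand E a b D → a < b → (D : ℚ) + 2 ^ b - ν * 2 ^ a < c := by
    intro a b hc hab
    rcases hν.eq_or_lt with e | e
    · subst e
      have h1 := ht r N h.rN
      have h2 := h.leq hc
      have h3 : (D : ℚ) + 2 ^ a + 2 ^ b ≠ 2 ^ N + 2 ^ r := fun e => by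
        have := (h.eq_top hc hab e).1
        omega
      have := lt_of_le_of_ne h2 h3
      linarith
    · obtain ⟨a₁, b₁, h1, h2⟩ := h.max1 (-ν) (by linarith)
      have h3 := ht _ _ h1
      have h4 := h2 _ _ (cand1 hc hab)
      push_cast at h4
      rcases h4.eq_or_lt with e' | e'
      · obtain ⟨k, hk⟩ := h.hK (-ν) (by linarith) a _ (cand1 hc hab) fun a' D' h' => by
          push_cast
          rw [e']
          exact h2 a' D' h'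
        exact absurd hk (not_pow hD hc.2.2.2)
      · linarith
  rcases lt_or_gt_of_ne hc.1 with hab | hab
  · linarith [key a b hc hab]
  · have h1 := key b a (cand_symm hc) hab
    have h2 := mul_nonneg (show 0 ≤ ν + 1 by linarith) (sub_nonneg.2 (plt hab).le)
    nlinarith

theorem H.zero (h : H E r N) (ho : ∃ e ∈ E, Odd e) : ∃ b, Cand E 0 b 0 := by
  obtain ⟨e, he, j, rfl⟩ := ho
  have hp : (0 : ℚ) < 2 ^ N + 2 ^ r := by positivity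
  obtain ⟨a, b, h1, h2⟩ := h.max1 (-(2 ^ N + 2 ^ r)) (by linarith)
  have h3 := h2 0 (2 * j) ⟨by simpa using he, by simp⟩
  have h4 := h.leq h1
  by_cases ha : a = 0
  · exact ⟨b, ha ▸ h1⟩
  · have h5 : (2 : ℚ) ^ 1 ≤ 2 ^ a := ple (by omega)
    have h6 : (0 : ℚ) ≤ ((2 * j : ℕ) : ℚ) := Nat.cast_nonneg _
    have h7 := mul_le_mul_of_nonneg_left h5 hp.le
    have h8 := ppos a
    push_cast at h4
    rw [pow_zero] at h3
    linarith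

theorem H.mid (h : H E r N) {ν c : ℚ} (h1 : -1 < ν) (h0 : ν < 0) (ht : Top E ν c) {a b : ℕ}
    (ha : Att E ν c a b) : a = r := by
  by_contra hne
  have e1 := ht r N h.rN
  have e2 := h.leq ha.1
  have e3 := ha.2
  push_cast at e2
  rcases (h.le_N ha.1).eq_or_lt with e | e
  · subst e
    have : a < r := by
      by_contra h2
      have := plt (show r < a by omega)
      linarith
    have := plt this
    nlinarith
  · have := plt e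
    rcases le_total ((2 : ℚ) ^ a) (2 ^ r) with h2 | h2
    · nlinarith
    · nlinarith

theorem H.tau (h : H E r N) (hT : ∃ a b D, Cand E a b D ∧ 0 < D) {ν c : ℚ} (hν : -1 ≤ ν)
    (ht : Top E ν c) : ∃ τ, Tau E ν c τ := by
  obtain ⟨a, b, D, h1, h2⟩ := exists_max (2 ^ N + 2 ^ r) (fun a b D => Cand E a b D ∧ 0 < D)
    (fun a b D => (D : ℚ) / (c - 2 ^ b + ν * 2 ^ a)) (fun a b D hc => h.bd hc.1) hT
  have hp : ∀ a b D, Cand E a b D → 0 < D → 0 < c - 2 ^ b + ν * 2 ^ a := fun a b D hc hD =>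
    (Nat.cast_nonneg D).trans_lt (h.kp hν ht hc hD)
  refine ⟨D / (c - 2 ^ b + ν * 2 ^ a), fun a' b' D' hc hD => ?_, a, b, D, h1.1, h1.2, ?_⟩
  · exact (div_le_iff₀ (hp _ _ _ hc hD)).1 (h2 a' b' D' ⟨hc, hD⟩)
  · rw [div_mul_cancel₀ _ (hp _ _ _ h1.1 h1.2).ne']

theorem Crit.ge {ν c : ℚ} (h : Crit E ν c) : -1 ≤ ν := by
  rcases h.1 with e | e <;> linarith

theorem H.tau_bd (h : H E r N) {ν c τ : ℚ} (hν : -1 ≤ ν) (ht : Top E ν c) (hτ : Tau E ν c τ) :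
    0 < τ ∧ τ < 1 := by
  obtain ⟨a, b, D, h1, h2, h3⟩ := hτ.2
  have h4 := h.kp hν ht h1 h2
  have h5 : (0 : ℚ) < D := by exact_mod_cast h2
  constructor
  · by_contra h6
    nlinarith
  · by_contra h6
    nlinarith

theorem H.crit0 (h : H E r N) : Crit E (-1) (2 ^ N + 2 ^ r) := by
  refine ⟨Or.inr rfl, fun a b hc => ?_, r, N, N, r, ⟨h.rN, by ring⟩, ⟨cand_symm h.rN, by ring⟩,
    h.hr⟩
  have := h.leq hc
  push_cast at this
  linarith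

theorem H.fin (h : H E r N) :
    {p : ℚ × ℚ × ℚ | Crit E p.1 p.2.1 ∧ Tau E p.1 p.2.1 p.2.2}.Finite := by
  let s : ℕ × ℕ × ℕ × ℕ → ℚ := fun q => (2 ^ q.2.2.2 - 2 ^ q.2.1) / (2 ^ q.2.2.1 - 2 ^ q.1)
  let c : ℕ × ℕ × ℕ × ℕ → ℚ := fun q => 2 ^ q.2.1 - s q * 2 ^ q.1
  let B := 2 ^ N + 2 ^ r
  refine (((Set.finite_Iic ((B, B, B, B), (B, B, B))).image
    fun q : (ℕ × ℕ × ℕ × ℕ) × ℕ × ℕ × ℕ => (s q.1, c q.1,
      (q.2.2.2 : ℚ) / (c q.1 - 2 ^ q.2.2.1 + s q.1 * 2 ^ q.2.1)))).subset ?_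
  rintro ⟨ν, c', τ⟩ ⟨hc, -, a₂, b₂, D, t1, t2, t3⟩
  obtain ⟨-, ht, a, b, a', b', h1, h2, h3⟩ := id hc
  have e1 : s (a, b, a', b') = ν := by
    have := plt h3
    simp only [s]
    rw [div_eq_iff (by linarith)]
    linarith [h1.2, h2.2]
  have e2 : c (a, b, a', b') = c' := by
    simp only [c]
    rw [e1]
    exact h1.2
  refine ⟨((a, b, a', b'), a₂, b₂, D), ⟨⟨(h.bd h1.1).1, (h.bd h1.1).2.1, (h.bd h2.1).1,
    (h.bd h2.1).2.1⟩, h.bd t1⟩, ?_⟩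
  have hp := (Nat.cast_nonneg D).trans_lt (h.kp hc.ge ht t1 t2)
  simp only [e1, e2]
  simp only at t3 hp
  rw [t3, mul_div_cancel_right₀ _ hp.ne']

/-- Turning to the left. -/
theorem H.left (h : H E r N) (ho : ∃ e ∈ E, Odd e) {ν c : ℚ} (hc : Crit E ν c) {a₀ b₀ : ℕ}
    (hA : Att E ν c a₀ b₀) (hmin : ∀ a b, Att E ν c a b → a₀ ≤ a) (h0 : 0 < a₀) :
    ∃ ν', ν < ν' ∧ Crit E ν' (c - (ν' - ν) * 2 ^ a₀) := by
  obtain ⟨bz, hz⟩ := h.zero ho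
  obtain ⟨a, b, D, ⟨h1, h2, -⟩, h3⟩ := exists_max (2 ^ N + 2 ^ r)
    (fun a b D => Cand E a b 0 ∧ a < a₀ ∧ D = 0)
    (fun a b _ => -((2 ^ b₀ - 2 ^ b) / (2 ^ a₀ - 2 ^ a)))
    (fun a b D hq => ⟨(h.bd hq.1).1, (h.bd hq.1).2.1, hq.2.2.le.trans (Nat.zero_le _)⟩)
    ⟨0, bz, 0, hz, h0, rfl⟩
  have hp : (0 : ℚ) < 2 ^ a₀ - 2 ^ a := sub_pos.2 (plt h2)
  set ν' : ℚ := (2 ^ b₀ - 2 ^ b) / (2 ^ a₀ - 2 ^ a) with hν'
  have e : ν' * (2 ^ a₀ - 2 ^ a) = 2 ^ b₀ - 2 ^ b := div_mul_cancel₀ _ hp.ne'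
  have eA := hA.2
  have hlt : ν < ν' := by
    have t1 := hc.2.1 a b h1
    have t2 : (2 : ℚ) ^ b - ν * 2 ^ a ≠ c := fun e' => by
      have := hmin a b ⟨h1, e'⟩
      omega
    have := lt_of_le_of_ne t1 t2
    rw [hν', lt_div_iff₀ hp]
    linarith
  refine ⟨ν', hlt, Or.inl ?_, fun a' b' hq => ?_, a, b, a₀, b₀, ⟨h1, by linarith⟩,
    ⟨hA.1, by linarith⟩, h2⟩
  · rcases hc.1 with e0 | e0
    · linarith
    · subst e0
      have t1 := hc.2.1 r N h.rN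
      have t2 := h.leq hA.1
      push_cast at t2
      have t3 : a₀ ≤ r := hmin r N ⟨h.rN, by linarith⟩
      have t4 := ple t3
      have t5 := ple (h.le_N h1)
      exact div_nonneg (by linarith) hp.le
  · rcases lt_or_ge a' a₀ with t | t
    · have t1 := h3 a' b' 0 ⟨hq, t, rfl⟩
      have t2 : (0 : ℚ) < 2 ^ a₀ - 2 ^ a' := sub_pos.2 (plt t)
      rw [neg_le_neg_iff, le_div_iff₀ t2] at t1
      linarith
    · have t1 := hc.2.1 a' b' hq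
      have t2 := mul_le_mul_of_nonneg_left (ple t) (sub_nonneg.2 hlt.le)
      linarith

/-- Turning to the right. -/
theorem H.right (h : H E r N) {ν c : ℚ} (hc : Crit E ν c) {a₁ b₁ : ℕ}
    (hA : Att E ν c a₁ b₁) (hmax : ∀ a b, Att E ν c a b → a ≤ a₁) (h0 : a₁ < N) :
    ∃ ν', ν' < ν ∧ Crit E ν' (c + (ν - ν') * 2 ^ a₁) := by
  obtain ⟨a, b, D, ⟨h1, h2, -⟩, h3⟩ := exists_max (2 ^ N + 2 ^ r)
    (fun a b D => Cand E a b 0 ∧ a₁ < a ∧ D = 0)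
    (fun a b _ => (2 ^ b - 2 ^ b₁) / (2 ^ a - 2 ^ a₁))
    (fun a b D hq => ⟨(h.bd hq.1).1, (h.bd hq.1).2.1, hq.2.2.le.trans (Nat.zero_le _)⟩)
    ⟨N, r, 0, cand_symm h.rN, h0, rfl⟩
  have hp : (0 : ℚ) < 2 ^ a - 2 ^ a₁ := sub_pos.2 (plt h2)
  set ν' : ℚ := (2 ^ b - 2 ^ b₁) / (2 ^ a - 2 ^ a₁) with hν'
  have e : ν' * (2 ^ a - 2 ^ a₁) = 2 ^ b - 2 ^ b₁ := div_mul_cancel₀ _ hp.ne'
  have eA := hA.2
  have hlt : ν' < ν := by
    have t1 := hc.2.1 a b h1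
    have t2 : (2 : ℚ) ^ b - ν * 2 ^ a ≠ c := fun e' => by
      have := hmax a b ⟨h1, e'⟩
      omega
    have := lt_of_le_of_ne t1 t2
    rw [hν', div_lt_iff₀ hp]
    linarith
  have htop : Top E ν' (c + (ν - ν') * 2 ^ a₁) := fun a' b' hq => by
    rcases lt_or_ge a₁ a' with t | t
    · have t1 := h3 a' b' 0 ⟨hq, t, rfl⟩
      have t2 : (0 : ℚ) < 2 ^ a' - 2 ^ a₁ := sub_pos.2 (plt t)
      rw [div_le_iff₀ t2] at t1
      linarith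
    · have t1 := hc.2.1 a' b' hq
      have t2 := mul_le_mul_of_nonneg_left (ple t) (sub_nonneg.2 hlt.le)
      linarith
  have a1 : Att E ν' (c + (ν - ν') * 2 ^ a₁) a₁ b₁ := ⟨hA.1, by linarith⟩
  have a2 : Att E ν' (c + (ν - ν') * 2 ^ a₁) a b := ⟨h1, by linarith⟩
  refine ⟨ν', hlt, ?_, htop, a₁, b₁, a, b, a1, a2, h2⟩
  have hge : -1 ≤ ν' := by
    have t1 := h3 N r 0 ⟨cand_symm h.rN, h0, rfl⟩
    have t2 : (0 : ℚ) < 2 ^ N - 2 ^ a₁ := sub_pos.2 (plt h0)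
    have t3 := h.leq hA.1
    push_cast at t3
    refine le_trans ?_ t1
    rw [le_div_iff₀ t2]
    linarith
  rcases hge.eq_or_lt with t | t
  · exact Or.inr t.symm
  · left
    by_contra t'
    have := h.mid t (not_le.1 t') htop a1
    have := h.mid t (not_le.1 t') htop a2
    omega

end Fc

open Fc in
theorem face (E : Finset ℕ) {r N : ℕ} (hr : r < N) (hd : 2 ^ N + 2 ^ r ∈ E)
    (hle : ∀ e ∈ E, e ≤ 2 ^ N + 2 ^ r) (hl : ∀ e ∈ E, ¬ Lin e) (ho : ∃ e ∈ E, Odd e)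
    (hK : ∀ μ : ℚ, μ < 1 → ∀ a D, Cand1 E a D →
      (∀ a' D', Cand1 E a' D' → (D' : ℚ) + μ * 2 ^ a' ≤ D + μ * 2 ^ a) → ∃ b, D = 2 ^ b)
    (hn : ∃ e ∈ E, ¬ ∃ a b, e = 2 ^ a + 2 ^ b) :
    ∃ S U W : ℚ, S ≤ U ∧ U < 1 ∧
      (∀ a b D, Cand E a b D → (D : ℚ) + S * 2 ^ a + U * 2 ^ b ≤ W) ∧
      ((S < U ∧ Star (Face E S U W)) ∨ Diag (Face E S U W) r N) := by
  have h : H E r N := ⟨hr, hd, hle, hK⟩
  have hT : ∃ a b D, Cand E a b D ∧ 0 < D := by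
    obtain ⟨e, he, hq⟩ := hn
    obtain ⟨a, D₁, rfl, h1⟩ := decomp (e := e) fun e0 => hl e he (Or.inl e0)
    obtain ⟨b, D, rfl, h2⟩ := decomp (e := D₁) fun e0 => hl _ he (Or.inr ⟨a, by rw [e0, zero_add]⟩)
    have hab : a < b := by
      by_contra hab
      exact not_dvd b ((Nat.dvd_add_right h2).1 ((pow_dvd_pow 2 (by omega)).trans h1))
    refine ⟨a, b, D, ⟨hab.ne, by rw [add_right_comm]; exact he,
      (pow_dvd_pow 2 (by omega)).trans h2, h2⟩, Nat.pos_of_ne_zero fun e0 => hq ⟨b, a, ?_⟩⟩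
    rw [e0, zero_add]
  obtain ⟨τ₀, hτ₀⟩ := h.tau hT le_rfl h.crit0.2.1
  obtain ⟨p₁, hp₁, m₁⟩ := Set.exists_max_image _ (fun p : ℚ × ℚ × ℚ => p.2.2) h.fin
    ⟨(-1, 2 ^ N + 2 ^ r, τ₀), h.crit0, hτ₀⟩
  obtain ⟨⟨ν, c, τ⟩, ⟨⟨hc, hτ⟩, e₁⟩, m₂⟩ := Set.exists_min_image
    {p : ℚ × ℚ × ℚ | (Crit E p.1 p.2.1 ∧ Tau E p.1 p.2.1 p.2.2) ∧ p.2.2 = p₁.2.2}
    (fun p => p.1) (h.fin.subset fun p hp => hp.1) ⟨p₁, hp₁, rfl⟩
  simp only at hc hτ e₁ m₂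
  have M1 : ∀ ν' c' τ', Crit E ν' c' → Tau E ν' c' τ' → τ' ≤ τ := fun ν' c' τ' h1 h2 => by
    rw [e₁]; exact m₁ (ν', c', τ') ⟨h1, h2⟩
  have M2 : ∀ ν' c', Crit E ν' c' → Tau E ν' c' τ → ν ≤ ν' := fun ν' c' h1 h2 =>
    m₂ (ν', c', τ) ⟨⟨h1, h2⟩, e₁⟩
  obtain ⟨t0, t1⟩ := h.tau_bd hc.ge hc.2.1 hτ
  have hν := hc.ge
  obtain ⟨aa, bb, aa', bb', g1, g2, g3⟩ := hc.2.2
  obtain ⟨a₀, b₀, -, ⟨hA, -⟩, hA'⟩ := exists_max (2 ^ N + 2 ^ r)
    (fun a b D => Att E ν c a b ∧ D = 0) (fun a _ _ => -(a : ℚ))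
    (fun a b D hq => ⟨(h.bd hq.1.1).1, (h.bd hq.1.1).2.1, hq.2.le.trans (Nat.zero_le _)⟩)
    ⟨aa, bb, 0, g1, rfl⟩
  obtain ⟨a₁, b₁, -, ⟨hC, -⟩, hC'⟩ := exists_max (2 ^ N + 2 ^ r)
    (fun a b D => Att E ν c a b ∧ D = 0) (fun a _ _ => (a : ℚ))
    (fun a b D hq => ⟨(h.bd hq.1.1).1, (h.bd hq.1.1).2.1, hq.2.le.trans (Nat.zero_le _)⟩)
    ⟨aa, bb, 0, g1, rfl⟩
  have hmin : ∀ a b, Att E ν c a b → a₀ ≤ a := fun a b hq => by
    have := hA' a b 0 ⟨hq, rfl⟩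
    exact_mod_cast neg_le_neg_iff.1 this
  have hmax : ∀ a b, Att E ν c a b → a ≤ a₁ := fun a b hq => by
    exact_mod_cast hC' a b 0 ⟨hq, rfl⟩
  -- description of the face
  have F0 : ∀ a b, Att E ν c a b → Face E (-(τ * ν)) τ (τ * c) a b := fun a b hq =>
    ⟨0, hq.1, by rw [← hq.2]; push_cast; ring⟩
  have F1 : ∀ a b D, Cand E a b D → (D : ℚ) = τ * (c - 2 ^ b + ν * 2 ^ a) →
      Face E (-(τ * ν)) τ (τ * c) a b := fun a b D hq e => ⟨D, hq, by rw [e]; ring⟩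
  have F2 : ∀ a b, Face E (-(τ * ν)) τ (τ * c) a b → Att E ν c a b ∨
      ∃ D, Cand E a b D ∧ 0 < D ∧ (D : ℚ) = τ * (c - 2 ^ b + ν * 2 ^ a) := by
    rintro a b ⟨D, hq, e⟩
    rcases Nat.eq_zero_or_pos D with rfl | hD
    · refine Or.inl ⟨hq, mul_left_cancel₀ t0.ne' ?_⟩
      push_cast at e
      linarith
    · exact Or.inr ⟨D, hq, hD, by linarith⟩
  have L : ∀ a b D, Cand E a b D → 0 < D → (D : ℚ) = τ * (c - 2 ^ b + ν * 2 ^ a) → a₀ ≤ a := by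
    intro a b D hq hD e
    by_contra hlt
    have hlt' : a < a₀ := not_le.1 hlt
    obtain ⟨ν', u1, u2⟩ := h.left ho hc hA hmin (by omega)
    obtain ⟨τ', u3⟩ := h.tau hT u2.ge u2.2.1
    have u4 := M1 _ _ _ u2 u3
    have u5 := u3.1 a b D hq hD
    have u6 := (Nat.cast_nonneg D).trans_lt (h.kp u2.ge u2.2.1 hq hD)
    have u7 := mul_le_mul_of_nonneg_right u4 u6.le
    have u8 := mul_pos t0 (mul_pos (sub_pos.2 u1) (sub_pos.2 (plt hlt')))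
    nlinarith
  have R : ∀ a b D, Cand E a b D → 0 < D → (D : ℚ) = τ * (c - 2 ^ b + ν * 2 ^ a) → a < a₁ := by
    intro a b D hq hD e
    by_contra hlt
    have hlt' : a₁ ≤ a := not_lt.1 hlt
    have := h.small hq hD
    obtain ⟨ν', u1, u2⟩ := h.right hc hC hmax (by omega)
    obtain ⟨τ', u3⟩ := h.tau hT u2.ge u2.2.1
    have u4 := M1 _ _ _ u2 u3
    have u5 := u3.1 a b D hq hD
    have u6 := (Nat.cast_nonneg D).trans_lt (h.kp u2.ge u2.2.1 hq hD)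
    have u8 := mul_nonneg t0.le (mul_nonneg (sub_pos.2 u1).le (sub_nonneg.2 (ple hlt')))
    have u9 : τ ≤ τ' := by
      refine le_of_mul_le_mul_right ?_ u6
      nlinarith
    have u10 := le_antisymm u4 u9
    subst u10
    exact absurd (M2 _ _ u2 u3) (not_le.2 u1)
  have G : ∀ a b D, Cand E a b D → 0 < D → 3 * (2 : ℝ) ^ b < (c : ℝ) + (ν : ℝ) * 2 ^ a := by
    intro a b D hq hD
    have u1 := h.kp hν hc.2.1 hq hD
    have u2 : (2 : ℚ) ^ (b + 1) ≤ D := by exact_mod_cast Nat.le_of_dvd hD hq.2.2.2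
    rw [pow_succ] at u2
    have u3 : 3 * (2 : ℚ) ^ b < c + ν * 2 ^ a := by linarith
    exact_mod_cast u3
  have G0 : ∀ a b, Att E ν c a b → (2 : ℝ) ^ b = (c : ℝ) + (ν : ℝ) * 2 ^ a := fun a b hq => by
    have u3 : (2 : ℚ) ^ b = c + ν * 2 ^ a := by linarith [hq.2]
    exact_mod_cast u3
  obtain ⟨a₂, b₂, D₂, k1, k2, k3⟩ := hτ.2
  refine ⟨-(τ * ν), τ, τ * c, by nlinarith, t1, fun a b D hq => ?_, ?_⟩
  · rcases Nat.eq_zero_or_pos D with rfl | hD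
    · have := mul_le_mul_of_nonneg_left (hc.2.1 a b hq) t0.le
      push_cast
      linarith
    · linarith [hτ.1 a b D hq hD]
  rcases hc.1 with e0 | e0
  · refine Or.inl ⟨by nlinarith, ν, c, a₀, b₀, a₁, b₁, by exact_mod_cast e0, F0 _ _ hA, F0 _ _ hC,
      ?_, G0 _ _ hA, G0 _ _ hC, fun a b hf => ?_, a₂, b₂, F1 _ _ _ k1 k3, G _ _ _ k1 k2⟩
    · have := hmin _ _ g1
      have := hmax _ _ g2
      omega
    · rcases F2 a b hf with hq | ⟨D, hq, hD, e⟩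
      · refine ⟨hmin _ _ hq, ?_, Or.inl (G0 _ _ hq)⟩
        rcases (hmax _ _ hq).eq_or_lt with e | e
        · subst e
          refine Or.inr ⟨rfl, ?_⟩
          have u : (2 : ℚ) ^ b = 2 ^ b₁ := by linarith [hq.2, hC.2]
          exact (pow_right_injective₀ two_pos (by norm_num)) u
        · exact Or.inl e
      · exact ⟨L _ _ _ hq hD e, Or.inl (R _ _ _ hq hD e), Or.inr (G _ _ _ hq hD)⟩
  · subst e0
    have hcv : c = 2 ^ N + 2 ^ r := by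
      have u1 := hc.2.1 r N h.rN
      have u2 := h.leq hA.1
      have u3 := hA.2
      push_cast at u2
      linarith
    have hat : ∀ a b, Att E (-1) c a b → (a = r ∧ b = N) ∨ (a = N ∧ b = r) := fun a b hq => by
      have u := hq.2
      rcases lt_or_gt_of_ne hq.1.1 with hab | hab
      · exact Or.inl (h.eq_top hq.1 hab (by push_cast; linarith)).2
      · exact Or.inr (h.eq_top (cand_symm hq.1) hab (by push_cast; linarith)).2.symm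
    have hr0 : r ≤ a₀ := by rcases hat _ _ hA with u | u <;> omega
    refine Or.inr ⟨F0 _ _ ⟨h.rN, by linarith⟩, F0 _ _ ⟨cand_symm h.rN, by linarith⟩,
      fun a b hf => ?_, a₂, b₂, F1 _ _ _ k1 k3, h.small k1 k2, h.small (cand_symm k1) k2⟩
    rcases F2 a b hf with hq | ⟨D, hq, hD, e⟩
    · rcases hat a b hq with u | u
      · exact Or.inl u
      · exact Or.inr (Or.inl u)
    · exact Or.inr (Or.inr ⟨hr0.trans (L _ _ _ hq hD e),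
        hr0.trans (L _ _ _ (cand_symm hq) hD (by rw [e]; ring)), h.small hq hD,
        h.small (cand_symm hq) hD⟩)

end W48

end Pool.Agent.Lib.MP_346d6a_co
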