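import Pool.Agent.Lib.MP_346d6a_co.W48Def
import Pool.Agent.Lib.MP_346d6a_co.W28Col
import Pool.Agent.Lib.MP_346d6a_co.W28Path
import Pool.Agent.Lib.MP_346d6a_co.TStruct

/-!
Roots in one polydisc: when do they have the same colour.
-/

set_option maxSynthPendingDepth 3

namespace Pool.Agent.Lib.MP_346d6a_co

open Polynomial

namespace W48

open W28

variable {k Ω : Type} [Field k] [Field Ω] [Algebra k Ω]

/-- The residue curve `G₀ t + G₁ t e ^ 2 ^ y` (`e` inner, `t` outer). -/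
noncomputable def EE (G₀ G₁ : k[X]) (y : ℕ) : k[X][X] := G₀.map C + G₁.map C * C (X ^ 2 ^ y)

theorem evalEval_EE (G₀ G₁ : k[X]) (y : ℕ) (e t : k) :
    (EE G₀ G₁ y).evalEval e t = G₀.eval t + G₁.eval t * e ^ 2 ^ y := by
  rw [← map_evalRingHom_eval]
  have h : (evalRingHom e).comp (C : k →+* k[X]) = RingHom.id k := by ext; simp
  rw [EE, Polynomial.map_add, Polynomial.map_mul, Polynomial.map_map, Polynomial.map_map, h,
    Polynomial.map_id, Polynomial.map_id, map_C]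
  simp

namespace One

omit [Algebra k Ω] [Field Ω] in
theorem eval_swap (p : k[X][X]) (e t : k) :
    ((Bivariate.swap p).map (evalRingHom t)).eval e = p.evalEval e t := by
  rw [map_evalRingHom_eval, ← ev2_self, ← ev2_self]
  exact Bivariate.aevalAeval_swap t e p

omit [Algebra k Ω] [Field Ω] in
theorem swap_EE (G₀ G₁ : k[X]) (y : ℕ) :
    Bivariate.swap (EE G₀ G₁ y) = C G₁ * X ^ 2 ^ y + C G₀ := by
  rw [EE, map_add, map_mul, Bivariate.swap_map_C, Bivariate.swap_map_C, C_pow, map_pow,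
    Bivariate.swap_X, add_comm]

omit [Algebra k Ω] [Field Ω] in
theorem deg_EE {G₀ G₁ : k[X]} (y : ℕ) (h : G₁ ≠ 0) :
    (Bivariate.swap (EE G₀ G₁ y)).natDegree = 2 ^ y ∧
      (Bivariate.swap (EE G₀ G₁ y)).leadingCoeff = G₁ := by
  have h1 : (Bivariate.swap (EE G₀ G₁ y)).natDegree = 2 ^ y := by
    rw [swap_EE, natDegree_add_C, natDegree_C_mul_X_pow _ _ h]
  refine ⟨h1, ?_⟩
  have h2 : 2 ^ y ≠ 0 := by positivity
  rw [leadingCoeff, h1, swap_EE, coeff_add, coeff_C_mul_X_pow, if_pos rfl, coeff_C, if_neg h2,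
    add_zero]

omit [Algebra k Ω] [Field Ω] in
theorem EE_ne {G₀ G₁ : k[X]} (y : ℕ) (h : G₁ ≠ 0) : EE G₀ G₁ y ≠ 0 := fun e =>
  h (by rw [← (deg_EE (G₀ := G₀) y h).2, e, map_zero, leadingCoeff_zero])

omit [Algebra k Ω] [Field Ω] in
theorem lc_ne {G₀ G₁ : k[X]} {y : ℕ} {p : k[X][X]} (hp : p ∣ EE G₀ G₁ y) {t : k}
    (g : G₁.eval t ≠ 0) : (Bivariate.swap p).leadingCoeff.eval t ≠ 0 := by
  obtain ⟨r, hr⟩ := hp
  have h : G₁ ≠ 0 := fun e => g (by rw [e, eval_zero])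
  have := (deg_EE (G₀ := G₀) y h).2
  rw [hr, map_mul, leadingCoeff_mul] at this
  rw [← this, eval_mul] at g
  exact left_ne_zero_of_mul g

omit [Algebra k Ω] [Field Ω] in
theorem deg_pos {G₀ G₁ : k[X]} {y : ℕ} {p : k[X][X]} (hp : p ∣ EE G₀ G₁ y) {e t : k}
    (g : G₁.eval t ≠ 0) (h : p.evalEval e t = 0) : 0 < (Bivariate.swap p).natDegree := by
  refine Nat.pos_of_ne_zero fun h0 => lc_ne hp g ?_
  rw [← eval_swap, eq_C_of_natDegree_eq_zero h0, map_C, eval_C] at h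
  rw [leadingCoeff, h0]
  exact h

omit [Algebra k Ω] [Field Ω] in
theorem map_EE (G₀ G₁ : k[X]) (y : ℕ) (e : k) :
    (EE G₀ G₁ y).map (evalRingHom e) = G₀ + G₁ * C (e ^ 2 ^ y) := by
  have h : (evalRingHom e).comp (C : k →+* k[X]) = RingHom.id k := by ext; simp
  rw [EE, Polynomial.map_add, Polynomial.map_mul, Polynomial.map_map, Polynomial.map_map, h,
    Polynomial.map_id, Polynomial.map_id, map_C]
  simp

theorem B_ne (V : Val k Ω) {B : k[X][X]} {s₀ l u₀ c b : Ω} {G₀ G₁ : k[X]} {y : ℕ}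
    (h : ∀ e t : k, V.v (ev2 (s₀ + l * algebraMap k Ω e) (u₀ + c * algebraMap k Ω t) B / b -
      algebraMap k Ω (G₀.eval t + G₁.eval t * e ^ 2 ^ y)) < 1) {t : k} (g : G₁.eval t ≠ 0) :
    B ≠ 0 := by
  rintro rfl
  have h0 : ∀ e : k, G₀.eval t + G₁.eval t * e ^ 2 ^ y = 0 := fun e => by
    have := h e t
    rw [map_zero, zero_div, zero_sub, Valuation.map_neg] at this
    exact V.eq_zero_of_lt this
  have h1 := h0 0
  have h2 := h0 1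
  rw [zero_pow (by positivity), mul_zero, add_zero] at h1
  rw [h1, one_pow, mul_one, zero_add] at h2
  exact g h2

theorem ev_sub (s₀ l u₀ c ε t : Ω) (P : k[X][X]) :
    (sub2 k s₀ l u₀ 0 c P).evalEval ε t = ev2 (s₀ + l * ε) (u₀ + c * t) P := by
  rw [evalEval_sub2, zero_mul, add_zero]

end One

variable [IsAlgClosed k] [CharP k 2]

/-- The residue curve has one component outside the zeros of `G₁`. -/
theorem all_of_dvd {G₀ G₁ : k[X]} {y : ℕ} {p : k[X][X]} (hp : p ∣ EE G₀ G₁ y) {e₁ t₁ e₂ t₂ : k}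
    (g₁ : G₁.eval t₁ ≠ 0) (g₂ : G₁.eval t₂ ≠ 0) (h₁ : p.evalEval e₁ t₁ = 0)
    (h₂ : (EE G₀ G₁ y).evalEval e₂ t₂ = 0) : p.evalEval e₂ t₂ = 0 := by
  have hd := One.deg_pos hp g₁ h₁
  have hn : ((Bivariate.swap p).map (evalRingHom t₂)).natDegree = (Bivariate.swap p).natDegree :=
    natDegree_map_of_leadingCoeff_ne_zero _ (One.lc_ne hp g₂)
  obtain ⟨e', he'⟩ := IsAlgClosed.exists_root ((Bivariate.swap p).map (evalRingHom t₂))
    (natDegree_pos_iff_degree_pos.1 (hn ▸ hd)).ne'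
  rw [IsRoot.def, One.eval_swap] at he'
  obtain ⟨r, hr⟩ := hp
  have h3 : (EE G₀ G₁ y).evalEval e' t₂ = 0 := by rw [hr, evalEval_mul, he', zero_mul]
  rw [evalEval_EE] at h₂ h3
  have h4 : e' ^ 2 ^ y = e₂ ^ 2 ^ y :=
    mul_left_cancel₀ g₂ (add_left_cancel (h3.trans h₂.symm))
  have h5 : (e' - e₂) ^ 2 ^ y = 0 := by rw [sub_pow_char_pow, h4, sub_self]
  rwa [sub_eq_zero.1 (pow_eq_zero_iff (by positivity) |>.1 h5)] at he'

/-- In the linear case that component is simple. -/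
theorem not_two {G₀ G₁ : k[X]} {p q : k[X][X]} (hp : p * q ∣ EE G₀ G₁ 0) {e₁ t₁ e₂ t₂ : k}
    (g₁ : G₁.eval t₁ ≠ 0) (g₂ : G₁.eval t₂ ≠ 0) (h₁ : p.evalEval e₁ t₁ = 0)
    (h₂ : q.evalEval e₂ t₂ = 0) : False := by
  have d₁ := One.deg_pos ((dvd_mul_right p q).trans hp) g₁ h₁
  have d₂ := One.deg_pos ((dvd_mul_left q p).trans hp) g₂ h₂
  have h : G₁ ≠ 0 := fun e => g₁ (by rw [e, eval_zero])
  obtain ⟨r, hr⟩ := hp
  obtain ⟨h1, h2⟩ := One.deg_EE (G₀ := G₀) 0 h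
  rw [hr, map_mul, map_mul] at h1 h2
  generalize Bivariate.swap p = a at *
  generalize Bivariate.swap q = b at *
  generalize Bivariate.swap r = c at *
  have h0 : a * b * c ≠ 0 := fun e => h (by rw [← h2, e, leadingCoeff_zero])
  have h3 := left_ne_zero_of_mul h0
  rw [natDegree_mul h3 (right_ne_zero_of_mul h0),
    natDegree_mul (left_ne_zero_of_mul h3) (right_ne_zero_of_mul h3)] at h1
  omega

theorem one [IsAlgClosed Ω] (V : Val k Ω) (B : k[X][X]) {s₀ l u₀ c b : Ω} (G₀ G₁ : k[X]) (y : ℕ)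
    (h : ∀ e t : k, V.v (ev2 (s₀ + l * algebraMap k Ω e) (u₀ + c * algebraMap k Ω t) B / b -
      algebraMap k Ω (G₀.eval t + G₁.eval t * e ^ 2 ^ y)) < 1)
    {ε ξ₁ ξ₂ : Ω} {e t₁ t₂ : k} (he : V.v (ε - algebraMap k Ω e) < 1)
    (h₁ : V.v (ξ₁ - algebraMap k Ω t₁) < 1) (h₂ : V.v (ξ₂ - algebraMap k Ω t₂) < 1)
    (hs : Transcendental k (s₀ + l * ε)) (g₁ : G₁.eval t₁ ≠ 0) (g₂ : G₁.eval t₂ ≠ 0)
    (hq : G₀ + G₁ * C (e ^ 2 ^ y) ≠ 0) (z₁ : ev2 (s₀ + l * ε) (u₀ + c * ξ₁) B = 0)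
    (z₂ : ev2 (s₀ + l * ε) (u₀ + c * ξ₂) B = 0) :
    ∃ ξ, V.v (ξ - algebraMap k Ω t₂) < 1 ∧
      col2 k (s₀ + l * ε) (u₀ + c * ξ) = col2 k (s₀ + l * ε) (u₀ + c * ξ₁) := by
  have hG : G₁ ≠ 0 := fun e => g₁ (by rw [e, eval_zero])
  obtain ⟨P, iP, ⟨R, rfl⟩, zP⟩ := exists_irred_factor _ B (One.B_ne V h g₁) z₁
  obtain ⟨a₁, a₂, P₁, P₂, q₁, q₂, n₁, n₂, e₁, e₂, r₁, r₂, hE⟩ :=
    gauss2 V (Q₁ := sub2 k s₀ l u₀ 0 c P) (Q₂ := sub2 k s₀ l u₀ 0 c R) (b := b)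
      (One.EE_ne (G₀ := G₀) y hG) fun e t => by
        rw [← map_mul, One.ev_sub, evalEval_EE]
        exact h e t
  have k₁ : ∀ ξ : Ω, ev2 (s₀ + l * ε) (u₀ + c * ξ) P = a₁ * P₁.evalEval ε ξ := fun ξ => by
    rw [← One.ev_sub, e₁, evalEval_mul, evalEval_CC]
  have k₂ : ∀ ξ : Ω, ev2 (s₀ + l * ε) (u₀ + c * ξ) R = a₂ * P₂.evalEval ε ξ := fun ξ => by
    rw [← One.ev_sub, e₂, evalEval_mul, evalEval_CC]
  have w₁ : q₁.evalEval e t₁ = 0 :=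
    red_zero r₁ he h₁ ((mul_eq_zero.1 ((k₁ ξ₁).symm.trans zP)).resolve_left n₁)
  have w₂ : (EE G₀ G₁ y).evalEval e t₂ = 0 := by
    rw [← hE, evalEval_mul]
    rw [map_mul, k₁, k₂] at z₂
    rcases mul_eq_zero.1 z₂ with z | z
    · rw [red_zero r₁ he h₂ ((mul_eq_zero.1 z).resolve_left n₁), zero_mul]
    · rw [red_zero r₂ he h₂ ((mul_eq_zero.1 z).resolve_left n₂), mul_zero]
  have w₃ := all_of_dvd ⟨q₂, hE.symm⟩ g₁ g₂ w₁ w₂
  have hq' : q₁.map (evalRingHom e) ≠ 0 := fun e0 => hq (by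
    rw [← One.map_EE, ← hE, Polynomial.map_mul, e0, zero_mul])
  obtain ⟨ξ, hξ, z⟩ := red_lift r₁ he hq' w₃
  refine ⟨ξ, hξ, ?_⟩
  rw [col2_eq_span hs iP zP, col2_eq_span hs iP (by rw [k₁, z, mul_zero])]

theorem one0 (V : Val k Ω) (B : k[X][X]) {s₀ l u₀ c b : Ω} (G₀ G₁ : k[X])
    (h : ∀ e t : k, V.v (ev2 (s₀ + l * algebraMap k Ω e) (u₀ + c * algebraMap k Ω t) B / b -
      algebraMap k Ω (G₀.eval t + G₁.eval t * e)) < 1)
    {ε ξ₁ ξ₂ : Ω} {e t₁ t₂ : k} (he : V.v (ε - algebraMap k Ω e) < 1)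
    (h₁ : V.v (ξ₁ - algebraMap k Ω t₁) < 1) (h₂ : V.v (ξ₂ - algebraMap k Ω t₂) < 1)
    (hs : Transcendental k (s₀ + l * ε)) (g₁ : G₁.eval t₁ ≠ 0) (g₂ : G₁.eval t₂ ≠ 0)
    (z₁ : ev2 (s₀ + l * ε) (u₀ + c * ξ₁) B = 0) (z₂ : ev2 (s₀ + l * ε) (u₀ + c * ξ₂) B = 0) :
    col2 k (s₀ + l * ε) (u₀ + c * ξ₂) = col2 k (s₀ + l * ε) (u₀ + c * ξ₁) := by
  have h' : ∀ e t : k, V.v (ev2 (s₀ + l * algebraMap k Ω e) (u₀ + c * algebraMap k Ω t) B / b -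
      algebraMap k Ω (G₀.eval t + G₁.eval t * e ^ 2 ^ 0)) < 1 := fun e t => by
    rw [pow_zero, pow_one]
    exact h e t
  have hG : G₁ ≠ 0 := fun e => g₁ (by rw [e, eval_zero])
  have hE := One.EE_ne (G₀ := G₀) 0 hG
  refine col2_eq_of hs (One.B_ne V h' g₁) z₂ z₁ fun R₁ R₂ R₃ _ _ hB y₁ y₂ => ?_
  subst hB
  obtain ⟨a, a₃, P, P₃, q, q₃, na, -, hP, -, rP, -, hq⟩ :=
    gauss2 V (Q₁ := sub2 k s₀ l u₀ 0 c R₁ * sub2 k s₀ l u₀ 0 c R₂)
      (Q₂ := sub2 k s₀ l u₀ 0 c R₃) (b := b) hE fun e t => by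
        rw [← map_mul, ← map_mul, One.ev_sub, evalEval_EE]
        exact h' e t
  have hq0 : q ≠ 0 := by
    rintro rfl
    exact hE (by simpa using hq.symm)
  obtain ⟨a₁, a₂, P₁, P₂, q₁, q₂, n₁, n₂, e₁, e₂, r₁, r₂, hq'⟩ :=
    gauss2 V (Q₁ := sub2 k s₀ l u₀ 0 c R₁) (Q₂ := sub2 k s₀ l u₀ 0 c R₂) (b := a) hq0 fun e t => by
      rw [hP, evalEval_mul, evalEval_CC, mul_div_cancel_left₀ _ na]
      exact rP.eval (V.res_const e) (V.res_const t)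
  rw [← One.ev_sub, e₁, evalEval_mul, evalEval_CC] at y₁
  rw [← One.ev_sub, e₂, evalEval_mul, evalEval_CC] at y₂
  exact not_two (p := q₁) (q := q₂) ⟨q₃, by rw [hq', hq]⟩ g₂ g₁
    (red_zero r₁ he h₂ ((mul_eq_zero.1 y₁).resolve_left n₁))
    (red_zero r₂ he h₁ ((mul_eq_zero.1 y₂).resolve_left n₂))

omit [IsAlgClosed k] [CharP k 2] in
/-- Only one component passes through a smooth point. -/
theorem sm (V : Val k Ω) (B : k[X][X]) {s u₁ u₂ : Ω} {κ t : k} (hs : Transcendental k s)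
    (h : V.v (s - algebraMap k Ω κ) < 1) (h₁ : V.v (u₁ - algebraMap k Ω t) < 1)
    (h₂ : V.v (u₂ - algebraMap k Ω t) < 1) (z₁ : ev2 s u₁ B = 0) (z₂ : ev2 s u₂ B = 0)
    (hd : (TStruct.ds B).evalEval κ t ≠ 0) : col2 k s u₂ = col2 k s u₁ := by
  have hB : B ≠ 0 := by
    rintro rfl
    exact hd (by rw [map_zero, evalEval_zero])
  have red : ∀ {u : Ω} {P : k[X][X]}, V.v (u - algebraMap k Ω t) < 1 → ev2 s u P = 0 →
      P.evalEval κ t = 0 := fun {u P} hu z => by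
    have := V.res_ev2 h hu P
    rw [z, zero_sub, Valuation.map_neg, ev2_self] at this
    exact V.eq_zero_of_lt this
  refine col2_eq_of hs hB z₂ z₁ fun R₁ R₂ R₃ _ _ hB' y₁ y₂ => hd ?_
  have a₁ := red h₂ y₁
  have a₂ := red h₁ y₂
  rw [← hB', TStruct.ds_mul, TStruct.ds_mul]
  simp [evalEval_mul, evalEval_add, a₁, a₂]

end W48

end Pool.Agent.Lib.MP_346d6a_co
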