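import Pool.Agent.Lib.MP_346d6a_co.W48Edge
import Pool.Agent.Lib.MP_346d6a_co.W48One
import Pool.Agent.Lib.MP_346d6a_co.W48Grp

/-!
A place where all rows but the top one vanish.
-/

set_option maxSynthPendingDepth 3

namespace Pool.Agent.Lib.MP_346d6a_co

open Polynomial

namespace W48

open W28

variable {k : Type} [Field k] [IsAlgClosed k] [CharP k 2] {φ : k ≃+* k} {cf : ℕ → ℕ → k} {N : ℕ}
  {R : ℕ → ℕ → Prop}

namespace Fi

variable {Ω : Type} [Field Ω] [Algebra k Ω]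

omit [IsAlgClosed k] [CharP k 2] in
theorem v_term (V : Val k Ω) (c e t : k) {x y b : Ω} (hx : x ≠ 0) (hy : y ≠ 0) (hb : b ≠ 0)
    (m n : ℕ) (h : 2 ^ m * lg V x + 2 ^ n * lg V y < lg V b) :
    V.v (algebraMap k Ω c * (x * algebraMap k Ω e) ^ 2 ^ m * (y * algebraMap k Ω t) ^ 2 ^ n / b)
      < 1 := by
  have h1 : V.v (x ^ 2 ^ m * y ^ 2 ^ n / b) < 1 := v_lt_one_of fun _ => by
    rw [lg_div (mul_ne_zero (pow_ne_zero _ hx) (pow_ne_zero _ hy)) hb,
      lg_mul (pow_ne_zero _ hx) (pow_ne_zero _ hy), lg_two_pow, lg_two_pow]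
    linarith
  rw [show algebraMap k Ω c * (x * algebraMap k Ω e) ^ 2 ^ m * (y * algebraMap k Ω t) ^ 2 ^ n / b =
    algebraMap k Ω (c * e ^ 2 ^ m * t ^ 2 ^ n) * (x ^ 2 ^ m * y ^ 2 ^ n / b) by
      simp only [map_mul, map_pow]; ring, map_mul]
  exact (mul_le_of_le_one_left zero_le (V.const_le _)).trans_lt h1

omit [IsAlgClosed k] [CharP k 2] in
theorem split (h : Bi φ cf N R) {w : ℕ} (hC : R 0 w)
    (hR : ∀ α β, R α β → (α = 0 ∧ β = w) ∨ (1 ≤ α ∧ β < w)) {κ : k}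
    (hv : ∀ β, β < w → (row cf N β).eval κ = 0) (u : Ω) :
    ev2 (algebraMap k Ω κ) u (BB cf N) = algebraMap k Ω (cf 0 w) * algebraMap k Ω κ * u ^ 2 ^ w := by
  rw [ev2_BB, Finset.sum_eq_single w, h.row_eq hC fun c r => by have := hR c w r; omega]
  · simp [aeval_monomial]
  · intro i _ hi
    rcases hi.lt_or_gt with e | e
    · rw [aeval_algebraMap_apply, coe_aeval_eq_eval, hv i e, map_zero, zero_mul]
    · have : row cf N i = 0 := by
        by_contra e'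
        obtain ⟨c, r⟩ := h.exists_of_row e'
        have := hR c i r
        omega
      rw [this, map_zero, zero_mul]
  · exact fun e => absurd (Finset.mem_range.2 (Nat.lt_succ_of_le (h.supp _ _ hC).2)) e

end Fi

open Fi in
theorem c2fin (h : Bi φ cf N R) (hf : Fpf φ (BB cf N)) {w a₀ : ℕ} (hC : R 0 w) (h0 : R a₀ 0)
    (hw : 1 ≤ w) (hR : ∀ α β, R α β → (α = 0 ∧ β = w) ∨ (1 ≤ α ∧ β < w)) {κ : k} (hκ : κ ≠ 0)
    (hv : ∀ β, β < w → (row cf N β).eval κ = 0) : False := by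
  classical
  obtain ⟨a, t, hQ, ht, ha, hd1, hd2⟩ := exists_vertex (fun α β r => (h.supp α β r).1) h0 hw hR
  obtain ⟨ha2, ht2⟩ := edge ⟨cf, N, h, hf⟩ hC hQ ht ha hd2
  obtain ⟨Ω, _, _, _, V, -⟩ := existsVal k φ
  have := charP k Ω
  obtain ⟨S, hS⟩ := h.exists_supp
  have hc : cf 0 w ≠ 0 := (h.iff _ _).2 hC
  have hq : cf a t ≠ 0 := (h.iff _ _).2 hQ
  set c := algebraMap k Ω (cf 0 w) with hcd
  have c0 : c ≠ 0 := (_root_.map_ne_zero _).2 hc
  set S' := S.erase (0, w) with hS'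
  have mS : ∀ p ∈ S', R p.1 p.2 ∧ 1 ≤ p.1 ∧ p.2 < w := fun p hp => by
    have r := (hS p.1 p.2).1 (Finset.mem_of_mem_erase hp)
    exact ⟨r, (hR _ _ r).resolve_left fun e => Finset.ne_of_mem_erase hp (Prod.ext e.1 e.2)⟩
  have mQ : (a, t) ∈ S' := Finset.mem_erase.2 ⟨fun e => ht.ne (Prod.mk.inj e).2, (hS _ _).2 hQ⟩
  have e1 : ∀ x u : Ω, ev2 x u (BB cf N) = c * x * u ^ 2 ^ w +
      ∑ p ∈ S', algebraMap k Ω (cf p.1 p.2) * x ^ 2 ^ p.1 * u ^ 2 ^ p.2 := fun x u => by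
    rw [h.sum_eq S fun a b => (hS a b).2, ← Finset.add_sum_erase S _ ((hS _ _).2 hC)]
    simp [hcd, hS']
  have e2 : ∀ x u : Ω, ev2 (algebraMap k Ω κ + x) u (BB cf N) =
      c * (algebraMap k Ω κ + x) * u ^ 2 ^ w +
      ∑ p ∈ S', algebraMap k Ω (cf p.1 p.2) * x ^ 2 ^ p.1 * u ^ 2 ^ p.2 := fun x u => by
    rw [BB_add_left, split h hC hR hv, e1]; ring
  set s := algebraMap k Ω κ + V.τ with hsd
  have hs : Transcendental k s := transcendental_add_tau κ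
  have vs : V.v s = 1 := V.eq_one_of_res hκ (by simpa [hsd] using V.τ_lt)
  have s0 : s ≠ 0 := fun e => by simp [e] at vs
  have ls : lg V s = 0 := lg_of_v_one vs
  have pw : ∀ {i j : ℕ}, i ≤ j → (2 : ℝ) ^ i ≤ 2 ^ j := fun e => pow_le_pow_right₀ one_le_two e
  have pw' : ∀ {i j : ℕ}, i < j → 2 * (2 : ℝ) ^ i ≤ 2 ^ j := fun e => by
    rw [← pow_succ']; exact pw e
  have pp : ∀ i : ℕ, (0 : ℝ) < 2 ^ i := fun i => by positivity
  have w4 : 4 * (2 : ℝ) ^ t ≤ 2 ^ w := by have := pw ht2; rw [pow_add] at this; linarith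
  have a4 : (4 : ℝ) ≤ 2 ^ a := by have := pw ha2; norm_num at this; exact this
  have wt : (0 : ℝ) < 2 ^ w - 2 ^ t := by linarith [pp t]
  obtain ⟨l, hl⟩ : ∃ l : ℝ, l * (2 ^ w - 2 ^ t) = 2 ^ a := ⟨_, div_mul_cancel₀ _ wt.ne'⟩
  have l0 : 0 < l := by by_contra e; nlinarith [pp a]
  have l3 : 3 * (2 ^ t * l) ≤ 2 ^ a := by nlinarith
  have hlt : ∀ p ∈ S', p ≠ (a, t) → (2 ^ w - 2 ^ p.2) * l < 2 ^ p.1 := fun p hp hne => by
    obtain ⟨r, m1, m2⟩ := mS p hp
    have := ((hd1 _ _ r).resolve_left (by omega)).resolve_left fun e => hne (Prod.ext e.1 e.2)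
    rw [← hl] at this
    exact lt_of_mul_lt_mul_right (by linarith) wt.le
  have hle : ∀ p ∈ S', (2 ^ w - 2 ^ p.2) * l ≤ 2 ^ p.1 := fun p hp => by
    by_cases e : p = (a, t)
    · rw [e]; linarith
    · exact (hlt p hp e).le
  have low : ∀ p ∈ S', p.2 < t → 2 * (2 : ℝ) ^ a ≤ 2 ^ p.1 := fun p hp e => by
    refine pw' ((pow_lt_pow_iff_right₀ (one_lt_two (α := ℝ))).1 ?_)
    have := hle p hp
    have := pw' e
    nlinarith [pp p.2]
  have up : ∀ p ∈ S', t ≤ p.2 → (2 : ℝ) ^ a ≤ 2 ^ p.1 := fun p hp e => by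
    refine pw (not_lt.1 fun e' => ?_)
    have := hle p hp
    have := pw' e'
    have := pw' (mS p hp).2.2
    nlinarith [pp t, pp p.2]
  have dich : ∀ u : Ω, u ≠ 0 → ev2 s u (BB cf N) = 0 →
      lg V u = -l ∨ 2 ^ t * lg V u < -(2 ^ t * l) - 2 := fun u u0 z => by
    let F : ℕ × ℕ → Ω := fun p => if p = (0, w) then c * s * u ^ 2 ^ w else
      algebraMap k Ω (cf p.1 p.2) * V.τ ^ 2 ^ p.1 * u ^ 2 ^ p.2
    have zF : ∑ p ∈ S, F p = 0 := by
      rw [← Finset.add_sum_erase S _ ((hS _ _).2 hC), ← z, e2]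
      congr 1
      · exact if_pos rfl
      · exact Finset.sum_congr rfl fun p hp => if_neg (Finset.ne_of_mem_erase hp)
    have F0 : F (0, w) ≠ 0 ∧ lg V (F (0, w)) = 2 ^ w * lg V u := by
      rw [show F (0, w) = c * (s * u ^ 2 ^ w) from (if_pos rfl).trans (mul_assoc _ _ _)]
      exact ⟨mul_ne_zero c0 (mul_ne_zero s0 (pow_ne_zero _ u0)), by
        rw [lg_const_mul hc, lg_mul s0 (pow_ne_zero _ u0), ls, lg_two_pow, zero_add]⟩
    have F1 : ∀ p ∈ S', F p ≠ 0 ∧ lg V (F p) = -2 ^ p.1 + 2 ^ p.2 * lg V u := fun p hp => by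
      have r := (h.iff _ _).2 (mS p hp).1
      rw [show F p = algebraMap k Ω (cf p.1 p.2) * (V.τ ^ 2 ^ p.1 * u ^ 2 ^ p.2) from
        (if_neg (Finset.ne_of_mem_erase hp)).trans (mul_assoc _ _ _)]
      exact ⟨mul_ne_zero ((_root_.map_ne_zero _).2 r)
        (mul_ne_zero (pow_ne_zero _ V.τ_ne) (pow_ne_zero _ u0)), by
        rw [lg_const_mul r, lg_mul (pow_ne_zero _ V.τ_ne) (pow_ne_zero _ u0), lg_two_pow,
          lg_two_pow, lg_tau]; ring⟩
    have x1 : lg V u ≤ -l := by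
      obtain ⟨p, hp, hne, -, h1⟩ := tie (V := V) S F zF ((hS _ _).2 hC) F0.1
      have hp' : p ∈ S' := Finset.mem_erase.2 ⟨hne, hp⟩
      rw [F0.2, (F1 p hp').2] at h1
      have := hle p hp'
      have := pw' (mS p hp').2.2
      by_contra e
      nlinarith [pp p.2]
    obtain ⟨p, hp, hne, -, h1⟩ := tie (V := V) S F zF (Finset.mem_of_mem_erase mQ) (F1 _ mQ).1
    rw [(F1 _ mQ).2] at h1
    by_cases e : p = (0, w)
    · rw [e, F0.2] at h1
      left
      refine le_antisymm x1 (not_lt.1 fun e' => ?_)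
      nlinarith
    have hp' : p ∈ S' := Finset.mem_erase.2 ⟨e, hp⟩
    rw [(F1 p hp').2] at h1
    rcases lt_trichotomy p.2 t with e' | e' | e'
    · right
      have := low p hp' e'
      nlinarith [pp p.2]
    · have := hlt p hp' hne
      rw [e'] at this h1
      linarith
    · have := up p hp' e'.le
      have := pw' e'
      nlinarith [pp t]
  have wt' : 2 ^ t < 2 ^ w := Nat.pow_lt_pow_right one_lt_two ht
  obtain ⟨c₀, hc₀⟩ := IsAlgClosed.exists_pow_nat_eq (V.τ ^ 2 ^ a) (Nat.sub_pos_of_lt wt')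
  have n₀ : c₀ ≠ 0 := fun e => pow_ne_zero _ V.τ_ne (by
    rw [← hc₀, e, zero_pow (Nat.sub_pos_of_lt wt').ne'])
  have l₀ : lg V c₀ = -l := by
    have := congrArg (lg V) hc₀
    rw [lg_pow, lg_two_pow, lg_tau, Nat.cast_sub wt'.le] at this
    push_cast at this
    exact mul_left_cancel₀ wt.ne' (by linarith)
  have top : ∀ u : Ω, ev2 s u (BB cf N) = 0 → u ∉ bLt V c₀ n₀ → u ≠ 0 ∧ lg V u = -l :=
    fun u z hu => by
    have u0 : u ≠ 0 := fun e => hu (e ▸ zero_mem _)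
    refine ⟨u0, (dich u u0 z).resolve_right fun e => hu ?_⟩
    rw [mem_bLt, v_lt_iff u0 n₀, l₀]
    by_contra e'
    nlinarith [pp t]
  have md : ∀ u θ : Ω, u ≠ 0 → lg V u = -l → ev2 s u (BB cf N) = 0 → ev2 s θ (BB cf N) = 0 →
      V.v θ < V.v c₀ → col2 k s (u + θ) = col2 k s u := fun u θ u0 lu z zθ hθ => by
    rcases eq_or_ne θ 0 with rfl | θ0
    · rw [add_zero]
    rw [v_lt_iff θ0 n₀, l₀] at hθ
    have hx := (dich θ θ0 zθ).resolve_left hθ.ne
    have τ2 : V.τ ^ 2 ≠ 0 := pow_ne_zero _ V.τ_ne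
    have lτ : lg V (V.τ ^ 2) = -2 := by rw [lg_pow, lg_tau]; norm_num
    have b0 : c * V.τ ^ 2 * u ^ 2 ^ w ≠ 0 := mul_ne_zero (mul_ne_zero c0 τ2) (pow_ne_zero _ u0)
    have lb : lg V (c * V.τ ^ 2 * u ^ 2 ^ w) = -2 - 2 ^ w * l := by
      rw [mul_assoc, lg_const_mul hc, lg_mul τ2 (pow_ne_zero _ u0), lτ, lg_two_pow, lu]; ring
    have pert : ∀ p ∈ S', 2 ^ p.1 * (-2 : ℝ) + 2 ^ p.2 * (-l) < -2 - 2 ^ w * l := fun p hp => by
      by_cases e : p = (a, t)
      · rw [e]; linarith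
      · have := hlt p hp e
        have := pw (mS p hp).2.1
        linarith
    have := one0 V (BB cf N) (s₀ := s) (l := V.τ ^ 2) (u₀ := u) (c := θ)
      (b := c * V.τ ^ 2 * u ^ 2 ^ w) 0 1 (fun e t' => ?_) (ε := 0) (ξ₁ := 0) (ξ₂ := 1) (e := 0)
      (t₁ := 0) (t₂ := 1) (by simp) (by simp) (by simp) (by simpa using hs) (by simp) (by simp)
      (by simpa using z) (by
        rw [mul_zero, add_zero, mul_one, (addIn_BB cf N).ev2_add, z, zθ, add_zero])
    · simpa using this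
    rw [BB_add_left, (addIn_BB cf N).ev2_add, (addIn_BB cf N).ev2_add, z, zero_add, e2, e1, e1,
      eval_zero, eval_one, zero_add, one_mul]
    set b := c * V.τ ^ 2 * u ^ 2 ^ w with hb
    have : c * (V.τ ^ 2 * algebraMap k Ω e) * u ^ 2 ^ w / b = algebraMap k Ω e := by
      rw [div_eq_iff b0, hb]; ring
    simp only [add_div, Finset.sum_div]
    rw [this, show ∀ x₁ x₂ x₃ x₄ x₅ y : Ω, x₁ + x₂ + (y + x₃ + (x₄ + x₅)) - y =
      x₁ + x₂ + (x₃ + (x₄ + x₅)) from fun _ _ _ _ _ _ => by ring]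
    refine V.v.map_add_lt (V.v.map_add_lt ?_ (V.v.map_sum_lt one_ne_zero fun p hp => ?_))
      (V.v.map_add_lt (V.v.map_sum_lt one_ne_zero fun p hp => ?_)
        (V.v.map_add_lt ?_ (V.v.map_sum_lt one_ne_zero fun p hp => ?_)))
    · have := v_term V (cf 0 w) 1 t' s0 θ0 b0 0 w (by rw [ls, lb]; nlinarith [pp t])
      simpa using this
    · have := v_term V (cf p.1 p.2) 1 t' V.τ_ne θ0 b0 p.1 p.2 (by
        rw [lg_tau, lb]
        have := hle p hp
        rcases lt_or_ge p.2 t with e' | e'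
        · have := low p hp e'
          nlinarith [pp p.2]
        · have := pw e'
          nlinarith)
      simpa using this
    · have := v_term V (cf p.1 p.2) e 1 τ2 u0 b0 p.1 p.2 (by rw [lτ, lu, lb]; exact pert p hp)
      simpa using this
    · have := v_term V (cf 0 w) e t' τ2 θ0 b0 0 w (by rw [lτ, lb]; nlinarith [pp w])
      simpa using this
    · exact v_term V (cf p.1 p.2) e t' τ2 θ0 b0 p.1 p.2 (by
        rw [lτ, lb]
        have := pert p hp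
        nlinarith [pp p.2])
  have hB := h.au hf h0
  obtain ⟨d1, d2⟩ := h.top hC fun a b r => by have := hR a b r; omega
  obtain ⟨u₁, n₁, z₁, l₁⟩ := root_ge V (B := BB cf N) hs (i := 2 ^ t) (d1 ▸ wt')
    (by rw [h.cf_BB]; exact h.row_ne hQ) (ρ := -l) (by
      have r1 : aeval s (row cf N t) = aeval V.τ (row cf N t) := by
        rw [hsd, aeval_row_add, aeval_algebraMap_apply, coe_aeval_eq_eval, hv t ht, map_zero,
          zero_add]
      have r2 := h.row_ge V V.τ_ne (by rw [lg_tau]; norm_num) hQ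
      rw [d1, d2, h.cf_BB, r1, h.row_eq hC fun c r => by have := hR c w r; omega, aeval_monomial,
        lg_const_mul hc, lg_two_pow, ls]
      rw [lg_tau] at r2
      push_cast
      linarith)
  have m₁ : u₁ ∉ bLt V c₀ n₀ := by rw [mem_bLt, v_lt_iff n₁ n₀, l₀]; exact not_lt.2 l₁
  refine maj hB hs (bLt V c₀ n₀) z₁ m₁ fun u z hu => ?_
  have res : ∀ u : Ω, u ≠ 0 → lg V u = -l → V.v (u / c₀ - algebraMap k Ω (rs V (u / c₀))) < 1 ∧
      (C (cf a t) * X ^ 2 ^ t : k[X]).eval (rs V (u / c₀)) ≠ 0 := fun u u0 lu => by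
    have : V.v (u / c₀) = 1 := (v_eq_one_iff (div_ne_zero u0 n₀)).2 (by
      rw [lg_div u0 n₀, lu, l₀, sub_self])
    exact ⟨rs_spec this.le, by simp [hq, (rs_ne_zero this.le).2 this]⟩
  obtain ⟨u0, lu⟩ := top u z hu
  have ec : ∀ u : Ω, 0 + c₀ * (u / c₀) = u := fun u => by rw [zero_add, mul_div_cancel₀ _ n₀]
  have key := one V (BB cf N) (s₀ := algebraMap k Ω κ) (l := V.τ) (u₀ := 0) (c := c₀)
    (b := c₀ ^ 2 ^ w) (C (cf 0 w * κ) * X ^ 2 ^ w) (C (cf a t) * X ^ 2 ^ t) a (fun e t' => ?_)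
    (ε := 1) (e := 1) (by simp) (res u₁ n₁ (top u₁ z₁ m₁).2).1 (res u u0 lu).1
    (by rwa [mul_one]) (res u₁ n₁ (top u₁ z₁ m₁).2).2 (res u u0 lu).2 (fun e => by
      have := congrArg (coeff · (2 ^ t)) e
      simp only [one_pow, map_one, mul_one, coeff_add, coeff_C_mul, coeff_X_pow, if_neg wt'.ne,
        if_true, mul_zero, zero_add, coeff_zero] at this
      exact hq this) (by rwa [mul_one, ec]) (by rwa [mul_one, ec])
  · obtain ⟨ξ, hξ, hcol⟩ := key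
    rw [mul_one, ec, zero_add] at hcol
    rw [← hcol, show c₀ * ξ = u + (c₀ * ξ + u) by
      rw [add_left_comm, CharTwo.add_self_eq_zero, add_zero]]
    refine (md u _ u0 lu z (by
      rw [(addIn_BB cf N).ev2_add, root_of_col hcol z₁, z, add_zero]) ?_).symm
    have := V.v.map_sub_lt hξ (res u u0 lu).1
    rw [sub_sub_sub_cancel_right] at this
    rw [show c₀ * ξ + u = c₀ * (ξ - u / c₀) by
      rw [mul_sub, mul_div_cancel₀ _ n₀, CharTwo.sub_eq_add], map_mul]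
    exact mul_lt_of_lt_one_right ((V.v.pos_iff).2 n₀) this
  · have b0 : c₀ ^ 2 ^ w ≠ 0 := pow_ne_zero _ n₀
    have eb : c₀ ^ 2 ^ w = V.τ ^ 2 ^ a * c₀ ^ 2 ^ t := by
      rw [← hc₀, ← pow_add, Nat.sub_add_cancel wt'.le]
    rw [e2, zero_add, ← Finset.add_sum_erase S' _ mQ]
    simp only [add_div, Finset.sum_div]
    have t1 : c * (algebraMap k Ω κ + V.τ * algebraMap k Ω e) * (c₀ * algebraMap k Ω t') ^ 2 ^ w /
        c₀ ^ 2 ^ w = algebraMap k Ω (cf 0 w * κ * t' ^ 2 ^ w) +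
          algebraMap k Ω (cf 0 w * e * t' ^ 2 ^ w) * V.τ := by
      rw [div_eq_iff b0]; simp only [map_mul, map_pow, hcd]; ring
    have t2 : algebraMap k Ω (cf a t) * (V.τ * algebraMap k Ω e) ^ 2 ^ a *
        (c₀ * algebraMap k Ω t') ^ 2 ^ t / c₀ ^ 2 ^ w =
        algebraMap k Ω (cf a t * t' ^ 2 ^ t * e ^ 2 ^ a) := by
      rw [div_eq_iff b0, eb]; simp only [map_mul, map_pow]; ring
    rw [t1, t2, eval_mul, eval_mul, eval_C, eval_C, eval_pow, eval_pow, eval_X, map_add,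
      show ∀ x₁ x₂ x₃ x₄ : Ω, x₁ + x₂ + (x₃ + x₄) - (x₁ + x₃) = x₂ + x₄ from
        fun _ _ _ _ => by ring]
    refine V.v.map_add_lt ?_ (V.v.map_sum_lt one_ne_zero fun p hp => ?_)
    · rw [map_mul]
      exact (mul_le_of_le_one_left zero_le (V.const_le _)).trans_lt V.τ_lt
    · exact v_term V _ e t' V.τ_ne n₀ b0 p.1 p.2 (by
        rw [lg_tau, lg_two_pow, l₀]
        have := hlt p (Finset.mem_of_mem_erase hp) (Finset.ne_of_mem_erase hp)
        linarith)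

end W48

end Pool.Agent.Lib.MP_346d6a_co
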