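import Pool.Agent.Lib.MP_346d6a_co.W48N
import Pool.Agent.Lib.MP_346d6a_co.W48F2

/-!
The polygon of the first differences carries only quadratic terms.
-/

set_option maxSynthPendingDepth 3

namespace Pool.Agent.Lib.MP_346d6a_co

open Polynomial

namespace W48

open W28

namespace Kk

theorem two_pow_odd_inj {x y : ℕ} {u w : ℤ} (hu : Odd u) (hw : Odd w)
    (h : 2 ^ x * u = 2 ^ y * w) : x = y := by
  have key : ∀ {x y : ℕ} {u w : ℤ}, Odd u → 2 ^ x * u = 2 ^ y * w → ¬ x < y := by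
    intro x y u w hu h hxy
    obtain ⟨j, rfl⟩ := Nat.exists_eq_add_of_lt hxy
    have h1 : u = 2 * (2 ^ j * w) := by
      refine mul_left_cancel₀ (pow_ne_zero x (two_ne_zero : (2 : ℤ) ≠ 0)) ?_
      rw [h]; ring
    rw [h1] at hu
    exact (Int.not_odd_iff_even.2 (even_two_mul _)) hu
  exact le_antisymm (not_lt.1 (key hw h.symm)) (not_lt.1 (key hu h))

theorem odd_pow_sub {n : ℕ} (hn : 0 < n) {m : ℤ} (hm : Odd m) : Odd ((2 : ℤ) ^ n - m) :=
  Even.sub_odd (Even.pow_of_ne_zero even_two hn.ne') hm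

/-- The two adic shape of a lower term of a face. -/
theorem lower {μ : ℚ} (hμ : μ < 1) (hμ0 : μ ≠ 0) {t b c D : ℕ} (htb : t < b) (hct : c < t)
    (hD : D ≠ 0) (h : (D : ℚ) + μ * 2 ^ c = 2 ^ b + μ * 2 ^ t) :
    ∃ v m, Odd m ∧ D = 2 ^ v * m ∧ v < b := by
  obtain ⟨v, m, hm, rfl⟩ := Nat.exists_eq_two_pow_mul_odd hD
  refine ⟨v, m, hm, rfl, ?_⟩
  by_contra hv
  obtain ⟨j, rfl⟩ := Nat.exists_eq_add_of_le (not_lt.1 hv)
  have h1 : (2 : ℚ) ^ c < 2 ^ t := pow_lt_pow_right₀ one_lt_two hct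
  have h2 : (2 : ℚ) ^ t < 2 ^ b := pow_lt_pow_right₀ one_lt_two htb
  have h3 : (0 : ℚ) < 2 ^ c := by positivity
  have h4 : (0 : ℚ) < 2 ^ b := by positivity
  have h5 : μ * (2 ^ t - 2 ^ c) < 1 * (2 ^ t - 2 ^ c) := mul_lt_mul_of_pos_right hμ (by linarith)
  have h6 : ((2 ^ (b + j) * m : ℕ) : ℚ) = 2 ^ b * ((2 ^ j * m : ℕ) : ℚ) := by push_cast; ring
  rw [h6] at h
  have h7 : 2 ^ j * m ≠ 0 := mul_ne_zero (by positivity) hm.pos.ne'
  generalize 2 ^ j * m = q at h h7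
  have h8 : (q : ℚ) < 2 := by
    by_contra h9
    have := mul_le_mul_of_nonneg_left (not_lt.1 h9) h4.le
    linarith
  have h9 : q = 1 := by
    have : q < 2 := by exact_mod_cast h8
    omega
  subst h9
  have h10 : μ * (2 ^ t - 2 ^ c) = 0 := by push_cast at h; linarith
  rcases mul_eq_zero.1 h10 with h11 | h11
  · exact hμ0 h11
  · linarith

theorem cross {μ : ℚ} {t b c c' D D' : ℕ} (h : (D : ℚ) + μ * 2 ^ c = 2 ^ b + μ * 2 ^ t)
    (h' : (D' : ℚ) + μ * 2 ^ c' = 2 ^ b + μ * 2 ^ t) :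
    ((2 : ℤ) ^ b - D) * (2 ^ t - 2 ^ c') = (2 ^ b - D') * (2 ^ t - 2 ^ c) := by
  have : ((2 : ℚ) ^ b - D) * (2 ^ t - 2 ^ c') = (2 ^ b - D') * (2 ^ t - 2 ^ c) := by
    have e1 : (2 : ℚ) ^ b - D = μ * 2 ^ c - μ * 2 ^ t := by linarith
    have e2 : (2 : ℚ) ^ b - D' = μ * 2 ^ c' - μ * 2 ^ t := by linarith
    rw [e1, e2]; ring
  exact_mod_cast this

theorem val_eq {t b c c' v v' m m' : ℕ} (hc : c < t) (hc' : c' < t) (hv : v < b) (hv' : v' < b)
    (hm : Odd m) (hm' : Odd m')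
    (h : ((2 : ℤ) ^ b - (2 ^ v * m : ℕ)) * (2 ^ t - 2 ^ c') =
      (2 ^ b - (2 ^ v' * m' : ℕ)) * (2 ^ t - 2 ^ c)) : v + c' = v' + c := by
  have e : ∀ {c v m : ℕ}, c < t → v < b → ((2 : ℤ) ^ b - (2 ^ v * m : ℕ)) * (2 ^ t - 2 ^ c) =
      2 ^ (v + c) * ((2 ^ (b - v) - m) * (2 ^ (t - c) - 1)) := by
    intro c v m hc hv
    obtain ⟨i, rfl⟩ := Nat.exists_eq_add_of_le hc.le
    obtain ⟨j, rfl⟩ := Nat.exists_eq_add_of_le hv.le
    rw [Nat.add_sub_cancel_left, Nat.add_sub_cancel_left]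
    push_cast
    ring
  rw [e hc' hv, e hc hv'] at h
  exact two_pow_odd_inj
    ((odd_pow_sub (by omega) (by exact_mod_cast hm)).mul (odd_pow_sub (by omega) odd_one))
    ((odd_pow_sub (by omega) (by exact_mod_cast hm')).mul (odd_pow_sub (by omega) odd_one)) h

theorem pow_inj2 {Ω : Type} [Field Ω] [CharP Ω 2] (n : ℕ) {x y : Ω} (h : x ^ 2 ^ n = y ^ 2 ^ n) :
    x = y := by
  have h1 : (x - y) ^ 2 ^ n = 0 := by rw [sub_pow_char_pow, h, sub_self]
  exact sub_eq_zero.1 (pow_eq_zero_iff (by positivity) |>.1 h1)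

end Kk

open Kk

variable {k : Type} [Field k] [IsAlgClosed k] [CharP k 2] {φ : k ≃+* k} {f : k[X]}

theorem nface (hc : Ctx φ f) (hl : ∀ e, f.coeff e ≠ 0 → ¬ Lin e) {μ W : ℚ} (hμ : μ < 1)
    (hb : ∀ a D, Cand1 f.support a D → (D : ℚ) + μ * 2 ^ a ≤ W) {t b : ℕ}
    (ht : Cand1 f.support t (2 ^ b)) (ht' : (2 : ℚ) ^ b + μ * 2 ^ t = W)
    (hmax : ∀ a D, Cand1 f.support a D → (D : ℚ) + μ * 2 ^ a = W → a ≤ t) {a D : ℕ}
    (h1 : Cand1 f.support a D) (h1' : (D : ℚ) + μ * 2 ^ a = W) : ∃ c, D = 2 ^ c := by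
  classical
  have htb : t < b := (Nat.pow_dvd_pow_iff_le_right one_lt_two).1 ht.2
  rcases (hmax a D h1 h1').eq_or_lt with hat | hat
  · subst hat
    refine ⟨b, ?_⟩
    have : (D : ℚ) = 2 ^ b := by linarith
    exact_mod_cast this
  by_cases hμ0 : μ = 0
  · refine ⟨b, ?_⟩
    have : (D : ℚ) = 2 ^ b := by rw [hμ0] at h1' ht'; linarith
    exact_mod_cast this
  -- the face as a function of the index
  obtain ⟨Dc, hDc⟩ : ∃ Dc : ℕ → ℕ, ∀ c E : ℕ, (E : ℚ) + μ * 2 ^ c = W → Dc c = E :=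
    ⟨fun c => ⌊W - μ * 2 ^ c⌋₊, fun c E hE => by
      have : W - μ * 2 ^ c = E := by linarith
      simp only [this, Nat.floor_natCast]⟩
  let P : ℕ → Prop := fun c => Cand1 f.support c (Dc c) ∧ (Dc c : ℚ) + μ * 2 ^ c = W
  have hPa : P a := by
    refine ⟨?_, ?_⟩ <;> rw [hDc a D h1'] <;> assumption
  have hex : ∃ c, P c := ⟨a, hPa⟩
  obtain ⟨a0, hP0, hmin⟩ : ∃ a0, P a0 ∧ ∀ c, P c → a0 ≤ c :=
    ⟨Nat.find hex, Nat.find_spec hex, fun c h => Nat.find_min' hex h⟩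
  have ha0 : a0 ≤ a := hmin a hPa
  have hD0 : ∀ c, P c → Dc c ≠ 0 := fun c h e =>
    hl _ (mem_support_iff.1 h.1.1) (Or.inr ⟨c, by rw [e, zero_add]⟩)
  have hlow : ∀ c, P c → c < t → ∃ v m, Odd m ∧ Dc c = 2 ^ v * m ∧ v < b := fun c h hct =>
    lower hμ hμ0 htb hct (hD0 c h) (by rw [h.2, ht'])
  obtain ⟨v0, m0, hm0, e0, hv0⟩ := hlow a0 hP0 (by omega)
  have hv0' : a0 + 1 ≤ v0 := by
    have h2 := hP0.1.2
    rw [e0] at h2
    exact (Nat.pow_dvd_pow_iff_le_right one_lt_two).1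
      ((Nat.Coprime.pow_left _ (Nat.coprime_two_left.2 hm0)).dvd_of_dvd_mul_right h2)
  obtain ⟨κ, rfl⟩ := Nat.exists_eq_add_of_le (show a0 ≤ v0 by omega)
  obtain ⟨e, rfl⟩ := Nat.exists_eq_add_of_le hv0.le
  obtain ⟨d, rfl⟩ := Nat.exists_eq_add_of_le (show a0 ≤ t by omega)
  let m : ℕ → ℕ := fun i => Dc (a0 + i) / 2 ^ (a0 + κ + i)
  have hm : ∀ i, P (a0 + i) → i < d → Odd (m i) ∧ Dc (a0 + i) = 2 ^ (a0 + κ + i) * m i := by
    intro i h hi
    obtain ⟨v, n, hn, e1, hv⟩ := hlow _ h (by omega)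
    have h2 := cross (h.2.trans ht'.symm) (hP0.2.trans ht'.symm)
    rw [e1, e0] at h2
    have h3 := val_eq (by omega) (by omega) hv hv0 hn hm0 h2
    obtain rfl : v = a0 + κ + i := by omega
    have h4 : m i = n := by
      simp only [m, e1]
      exact Nat.mul_div_cancel_left _ (by positivity)
    rw [h4]
    exact ⟨hn, e1⟩
  let I : Finset ℕ := (Finset.range d).filter fun i => P (a0 + i)
  have hI : ∀ i, i ∈ I ↔ i < d ∧ P (a0 + i) := fun i => by
    simp only [I, Finset.mem_filter, Finset.mem_range]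
  have hDt : Dc (a0 + d) = 2 ^ (a0 + κ + e) := hDc _ _ (by push_cast; exact ht')
  have hPt : P (a0 + d) := by
    refine ⟨?_, ?_⟩ <;> rw [hDt]
    · exact ht
    · push_cast; exact ht'
  choose rt hrt using fun x : k => IsAlgClosed.exists_pow_nat_eq x (n := 2 ^ a0) (by positivity)
  let c : ℕ → k := fun i => rt (f.coeff (Dc (a0 + i) + 2 ^ (a0 + i)))
  have hc0 : ∀ i, P (a0 + i) → c i ≠ 0 := fun i h e1 => by
    have h2 := hrt (f.coeff (Dc (a0 + i) + 2 ^ (a0 + i)))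
    have h3 : rt (f.coeff (Dc (a0 + i) + 2 ^ (a0 + i))) = 0 := e1
    rw [h3, zero_pow (by positivity)] at h2
    exact mem_support_iff.1 h.1.1 h2.symm
  have hcf : ∀ i, φ (c i) = c i := fun i => by
    refine pow_inj2 a0 ?_
    rw [← map_pow, hrt]
    have h2 := congrArg (fun p => p.coeff (Dc (a0 + i) + 2 ^ (a0 + i))) hc.fix
    simpa only [coeff_map, RingHom.coe_coe] using h2
  have h0I : 0 ∈ I := (hI 0).2 ⟨by omega, hP0⟩
  have key := nedge (φ := φ) I c m (d := d) (e := e) (by omega) h0I (fun i hi => ?_)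
    (hc0 d hPt) (hcf d) (fun Ω _ _ _ g hg z T hz gz gT hs => ?_)
  · obtain ⟨i, rfl⟩ := Nat.exists_eq_add_of_le ha0
    have hi : i ∈ I := (hI i).2 ⟨by omega, hPa⟩
    refine ⟨a0 + κ + i, ?_⟩
    rw [← hDc _ _ h1', (hm i hPa (by omega)).2, key i hi, mul_one]
  · obtain ⟨hi1, hi2⟩ := (hI i).1 hi
    refine ⟨hi1, hc0 i hi2, hcf i, (hm i hi2 hi1).1, ?_⟩
    have h2 := cross (hi2.2.trans ht'.symm) (hP0.2.trans ht'.symm)
    have h3 := (hm 0 hP0 (by omega)).2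
    rw [add_zero, add_zero] at h3
    rw [(hm i hi2 hi1).2, h3] at h2
    refine mul_left_cancel₀ (pow_ne_zero (a0 + κ + a0) (two_ne_zero : (2 : ℤ) ≠ 0)) ?_
    push_cast at h2
    linear_combination h2
  · have := charP k Ω
    obtain ⟨y, rfl⟩ := IsAlgClosed.exists_pow_nat_eq z (n := 2 ^ κ) (by positivity)
    have hy : Transcendental k y := fun h => hz (h.pow _)
    have gy : g y = y := pow_inj2 κ (by rw [← map_pow, gz])
    let F : Finset (ℕ × ℕ) := insert (a0 + d, 2 ^ (a0 + κ + e))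
      (I.image fun i => (a0 + i, Dc (a0 + i)))
    have hF : ∀ a' D', (a', D') ∈ F ↔
        Cand1 f.support a' D' ∧ (D' : ℚ) + μ * 2 ^ a' = W := by
      intro a' D'
      simp only [F, Finset.mem_insert, Finset.mem_image, Prod.mk.injEq]
      constructor
      · rintro (⟨rfl, rfl⟩ | ⟨i, hi, rfl, rfl⟩)
        · exact ⟨ht, by push_cast; exact ht'⟩
        · exact ((hI i).1 hi).2
      · rintro ⟨h2, h3⟩
        have h4 := hDc _ _ h3
        have h5 : P a' := by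
          refine ⟨?_, ?_⟩ <;> rw [h4] <;> assumption
        obtain ⟨i, rfl⟩ := Nat.exists_eq_add_of_le (hmin _ h5)
        rcases (hmax _ _ h2 h3).eq_or_lt with h6 | h6
        · left
          refine ⟨h6, ?_⟩
          rw [← h4, h6, hDt]
        · exact Or.inr ⟨i, (hI i).2 ⟨by omega, h5⟩, rfl, h4⟩
    refine f2 hc hl hμ hb F hF ⟨_, Finset.mem_insert_self _ _⟩ Ω g hg hy gy gT ?_
    have hnot : (a0 + d, 2 ^ (a0 + κ + e)) ∉ I.image fun i => (a0 + i, Dc (a0 + i)) := by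
      intro h2
      obtain ⟨i, hi, h3⟩ := Finset.mem_image.1 h2
      have h4 := ((hI i).1 hi).1
      have h5 := (Prod.mk.inj h3).1
      omega
    rw [Finset.sum_insert hnot, Finset.sum_image fun i _ j _ h => by
      have := (Prod.mk.inj h).1
      omega]
    have h2 := congrArg (fun x => x ^ 2 ^ a0) hs
    simp only [zero_pow (show 2 ^ a0 ≠ 0 by positivity)] at h2
    rw [add_pow_char_pow, sum_pow_char_pow] at h2
    rw [add_comm, ← h2]
    congr 1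
    · refine Finset.sum_congr rfl fun i hi => ?_
      obtain ⟨hi1, hi2⟩ := (hI i).1 hi
      have h3 : (1 + (y ^ 2 ^ κ) ^ m i) ^ 2 ^ (a0 + i) = 1 + y ^ Dc (a0 + i) := by
        rw [add_pow_char_pow, one_pow, (hm i hi2 hi1).2, ← pow_mul, ← pow_mul]
        congr 2
        ring
      rw [mul_pow, ← map_pow, hrt, ← pow_mul, ← pow_add, add_comm i a0, mul_pow, h3]
      ring
    · have h3 : (1 + y ^ 2 ^ κ) ^ 2 ^ (e + a0) = 1 + y ^ 2 ^ (a0 + κ + e) := by
        rw [add_pow_char_pow, one_pow, ← pow_mul, ← pow_add]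
        congr 3
        ring
      rw [mul_pow, mul_pow, ← map_pow, hrt, ← pow_mul, ← pow_mul, ← pow_add, ← pow_add, h3, hDt,
        add_comm d a0]
      ring

theorem kdo (hc : Ctx φ f) (hl : ∀ e, f.coeff e ≠ 0 → ¬ Lin e) {r N : ℕ} (hr : r < N)
    (hd : f.natDegree = 2 ^ N + 2 ^ r) {μ : ℚ} (hμ : μ < 1) {a D : ℕ} (h : Cand1 f.support a D)
    (hm : ∀ a' D', Cand1 f.support a' D' → (D' : ℚ) + μ * 2 ^ a' ≤ D + μ * 2 ^ a) :
    ∃ b, D = 2 ^ b := by
  classical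
  have hf : f ≠ 0 := fun e0 => by
    have := h.1
    rw [e0] at this
    simp at this
  have hle : ∀ a D, Cand1 f.support a D → D + 2 ^ a ≤ 2 ^ N + 2 ^ r := fun a D h =>
    hd ▸ le_natDegree_of_mem_supp _ h.1
  have htop : Cand1 f.support r (2 ^ N) :=
    ⟨hd ▸ natDegree_mem_support_of_nonzero hf, pow_dvd_pow 2 hr⟩
  obtain ⟨S, hS⟩ : ∃ S : Finset (ℕ × ℕ), ∀ p, p ∈ S ↔ Cand1 f.support p.1 p.2 :=
    ⟨(Finset.range (2 ^ N + 2 ^ r + 1) ×ˢ Finset.range (2 ^ N + 2 ^ r + 1)).filter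
      fun p => Cand1 f.support p.1 p.2, fun p => by
        simp only [Finset.mem_filter, Finset.mem_product, Finset.mem_range, Nat.lt_succ_iff]
        refine ⟨fun e => e.2, fun e => ⟨?_, e⟩⟩
        have h1 := hle _ _ e
        have h2 : p.1 < 2 ^ p.1 := Nat.lt_two_pow_self
        omega⟩
  have main : ∀ n a : ℕ, r ≤ a + n → ∀ μ : ℚ, μ < 1 → ∀ D, Cand1 f.support a D →
      (∀ a' D', Cand1 f.support a' D' → (D' : ℚ) + μ * 2 ^ a' ≤ D + μ * 2 ^ a) →
      ∃ b, D = 2 ^ b := by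
    have big : ∀ a : ℕ, r ≤ a → ∀ μ : ℚ, μ < 1 → ∀ D, Cand1 f.support a D →
        (∀ a' D', Cand1 f.support a' D' → (D' : ℚ) + μ * 2 ^ a' ≤ D + μ * 2 ^ a) →
        ∃ b, D = 2 ^ b := by
      intro a har μ hμ D h hm
      have h1 := hm _ _ htop
      have h2 : (D : ℚ) + 2 ^ a ≤ 2 ^ N + 2 ^ r := by exact_mod_cast hle _ _ h
      push_cast at h1
      rcases har.eq_or_lt with rfl | har
      · refine ⟨N, ?_⟩
        have : (D : ℚ) = 2 ^ N := by linarith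
        exact_mod_cast this
      · exfalso
        have h3 : (2 : ℚ) ^ r < 2 ^ a := pow_lt_pow_right₀ one_lt_two har
        have h4 : μ * (2 ^ a - 2 ^ r) < 1 * (2 ^ a - 2 ^ r) :=
          mul_lt_mul_of_pos_right hμ (by linarith)
        linarith
    intro n
    induction n with
    | zero => exact fun a ha => big a ha
    | succ n ih =>
      intro a ha μ hμ D h hm
      rcases le_or_gt r a with har | har
      · exact big a har μ hμ D h hm
      obtain ⟨q, hq, hqm⟩ := Finset.exists_min_image (S.filter fun p => a < p.1)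
        (fun p => ((D : ℚ) - p.2) / (2 ^ p.1 - 2 ^ a))
        ⟨(r, 2 ^ N), Finset.mem_filter.2 ⟨(hS _).2 htop, har⟩⟩
      obtain ⟨hq1, hq2⟩ := Finset.mem_filter.1 hq
      have hq3 := (hS _).1 hq1
      have hpos : ∀ a', a < a' → (0 : ℚ) < 2 ^ a' - 2 ^ a := fun a' h' =>
        sub_pos.2 (pow_lt_pow_right₀ one_lt_two h')
      set ν : ℚ := ((D : ℚ) - q.2) / (2 ^ q.1 - 2 ^ a) with hν
      have hν1 : μ ≤ ν := by
        rw [hν, le_div_iff₀ (hpos _ hq2)]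
        have := hm _ _ hq3
        linarith
      have hν2 : ν < 1 := by
        refine lt_of_le_of_lt (hqm (r, 2 ^ N) (Finset.mem_filter.2 ⟨(hS _).2 htop, har⟩)) ?_
        rw [div_lt_one (hpos _ har)]
        have h1 : D + 2 ^ a ≠ 2 ^ N + 2 ^ r := fun e => by
          have h2 : 2 ^ (a + 1) ∣ D + 2 ^ a := by
            rw [e]
            exact dvd_add (pow_dvd_pow 2 (by omega)) (pow_dvd_pow 2 har)
          have h3 := (Nat.dvd_add_right h.2).1 h2
          have h4 := (Nat.pow_dvd_pow_iff_le_right one_lt_two).1 h3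
          omega
        have h2 : (D : ℚ) + 2 ^ a < 2 ^ N + 2 ^ r := by
          exact_mod_cast lt_of_le_of_ne (hle _ _ h) h1
        push_cast
        linarith
      have hν3 : ∀ a' D', Cand1 f.support a' D' → (D' : ℚ) + ν * 2 ^ a' ≤ D + ν * 2 ^ a := by
        intro a' D' h'
        rcases le_or_gt a' a with h1 | h1
        · have h2 := hm _ _ h'
          have h3 : (2 : ℚ) ^ a' ≤ 2 ^ a := pow_le_pow_right₀ one_le_two h1
          have h4 := mul_le_mul_of_nonneg_left h3 (sub_nonneg.2 hν1)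
          linarith
        · have h2 := hqm (a', D') (Finset.mem_filter.2 ⟨(hS _).2 h', h1⟩)
          rw [le_div_iff₀ (hpos _ h1)] at h2
          dsimp only at h2
          linarith
      have hν4 : (q.2 : ℚ) + ν * 2 ^ q.1 = D + ν * 2 ^ a := by
        have h1 : ν * (2 ^ q.1 - 2 ^ a) = D - q.2 := by
          rw [hν]; exact div_mul_cancel₀ _ (hpos _ hq2).ne'
        linarith
      obtain ⟨p, hp, hpm⟩ := Finset.exists_max_image
        (S.filter fun p => (p.2 : ℚ) + ν * 2 ^ p.1 = D + ν * 2 ^ a) (fun p => p.1)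
        ⟨q, Finset.mem_filter.2 ⟨hq1, hν4⟩⟩
      obtain ⟨hp1, hp2⟩ := Finset.mem_filter.1 hp
      have hp3 := (hS _).1 hp1
      have hp4 : q.1 ≤ p.1 := hpm q (Finset.mem_filter.2 ⟨hq1, hν4⟩)
      obtain ⟨b, hb⟩ := ih p.1 (by omega) ν hν2 p.2 hp3 fun a' D' h' => hp2 ▸ hν3 a' D' h'
      refine nface hc hl hν2 hν3 (t := p.1) (b := b) (hb ▸ hp3) ?_ (fun a' D' h1 h2 => ?_) h rfl
      · rw [← hp2, hb]; push_cast; rfl
      · exact hpm (a', D') (Finset.mem_filter.2 ⟨(hS _).2 h1, h2⟩)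
  exact main r a (by omega) μ hμ D h hm

end W48

end Pool.Agent.Lib.MP_346d6a_co
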