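import Pool.Agent.Lib.MP_346d6a_co.W48NP
import Pool.Agent.Lib.MP_346d6a_co.W48One
import Pool.Agent.Lib.MP_346d6a_co.W48Grp

/-!
Simple poles and simple zeros: totally ramified levels.
-/

set_option maxSynthPendingDepth 3

namespace Pool.Agent.Lib.MP_346d6a_co

open Polynomial

namespace W48

open W28

namespace Po

variable {k Ω : Type} [Field k] [Field Ω] [Algebra k Ω] (V : Val k Ω)

theorem v_le_one (κ : k) (p : k[X]) {x : Ω} (hx : V.v x < 1) :
    V.v (aeval (algebraMap k Ω κ + x) p) ≤ 1 :=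
  V.le_one_of_res (res_aeval (κ := κ) (by simpa using hx) p)

theorem v_first {κ : k} {p : k[X]} (h : p.eval κ = 0) {x : Ω} (hx : V.v x ≤ 1) :
    V.v (aeval (algebraMap k Ω κ + x) p - algebraMap k Ω ((derivative p).eval κ) * x) ≤
      V.v x ^ 2 := by
  have := res_aeval_first (V := V) κ p hx
  rwa [h, map_zero, sub_zero] at this

theorem v_le_x {κ : k} {p : k[X]} (h : p.eval κ = 0) {x : Ω} (hx : V.v x ≤ 1) :
    V.v (aeval (algebraMap k Ω κ + x) p) ≤ V.v x := by
  have h1 := (v_first V h hx).trans (pow_le_of_le_one zero_le hx two_ne_zero)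
  have h2 : V.v (algebraMap k Ω ((derivative p).eval κ) * x) ≤ V.v x := by
    rw [map_mul]; exact mul_le_of_le_one_left zero_le (V.const_le _)
  simpa using V.v.map_add_le h1 h2

theorem v_tau_mul (e : k) : V.v (V.τ * algebraMap k Ω e) ≤ V.v V.τ := by
  rw [map_mul]; exact mul_le_of_le_one_right zero_le (V.const_le _)

theorem res_div {κ : k} {p : k[X]} (h : p.eval κ = 0) (e : k) :
    V.v (aeval (algebraMap k Ω κ + V.τ * algebraMap k Ω e) p / V.τ -
      algebraMap k Ω ((derivative p).eval κ * e)) < 1 := by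
  have h0 := v_tau_mul V e
  have h1 := (v_first V h (h0.trans V.τ_lt.le)).trans (pow_le_pow_left₀ zero_le h0 2)
  have e1 : aeval (algebraMap k Ω κ + V.τ * algebraMap k Ω e) p / V.τ -
      algebraMap k Ω ((derivative p).eval κ * e) =
      (aeval (algebraMap k Ω κ + V.τ * algebraMap k Ω e) p -
        algebraMap k Ω ((derivative p).eval κ) * (V.τ * algebraMap k Ω e)) / V.τ := by
    have := V.τ_ne
    rw [map_mul]; field_simp
  rw [e1, map_div₀, div_lt_one₀ V.τ_pos]
  refine h1.trans_lt ?_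
  rw [pow_two]
  exact mul_lt_of_lt_one_left V.τ_pos V.τ_lt

theorem lg_le_zero (κ : k) {p : k[X]} (hp : p ≠ 0) :
    lg V (aeval (algebraMap k Ω κ + V.τ) p) ≤ 0 :=
  (v_le_one_iff (aeval_ne (transcendental_add_tau κ) hp)).1 (v_le_one V κ p V.τ_lt)

theorem lg_eq_zero {κ : k} {p : k[X]} (hp : p.eval κ ≠ 0) :
    lg V (aeval (algebraMap k Ω κ + V.τ) p) = 0 :=
  lg_of_v_one (V.eq_one_of_res hp (res_aeval (κ := κ) (by simpa using V.τ_lt) p))

theorem lg_le_neg {κ : k} {p : k[X]} (hp : p ≠ 0) (h : p.eval κ = 0) :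
    lg V (aeval (algebraMap k Ω κ + V.τ) p) ≤ -1 := by
  rw [← lg_tau (V := V), ← v_le_iff (aeval_ne (transcendental_add_tau κ) hp) V.τ_ne]
  exact v_le_x V h V.τ_lt.le

theorem lg_eq_neg {κ : k} {p : k[X]} (h : p.eval κ = 0) (h' : (derivative p).eval κ ≠ 0) :
    lg V (aeval (algebraMap k Ω κ + V.τ) p) = -1 := by
  have h1 := res_div V h 1
  rw [map_one, mul_one, mul_one] at h1
  have h2 := V.eq_one_of_res h' h1
  rw [map_div₀, div_eq_one_iff_eq V.τ_pos.ne'] at h2
  rw [lg_congr h2, lg_tau]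

theorem res_unit {u c : Ω} (hu : u ≠ 0) (hc : c ≠ 0) (h : lg V u = lg V c) :
    ∃ t : k, t ≠ 0 ∧ V.v (u / c - algebraMap k Ω t) < 1 := by
  have h1 : V.v (u / c) = 1 := (v_eq_one_iff (div_ne_zero hu hc)).2 (by rw [lg_div hu hc, h, sub_self])
  exact ⟨rs V (u / c), (rs_ne_zero h1.le).2 h1, rs_spec h1.le⟩

variable [IsAlgClosed k] [CharP k 2]

/-- An edge whose ends are a unit and a simple zero carries one colour. -/
theorem two {B : k[X][X]} {κ : k} {p q : ℕ} {c : Ω} (hc : c ≠ 0) (hpq : p ≠ q)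
    (he : c ^ q * V.τ = c ^ p) (hp : B.coeff p ≠ 0) (hq : (B.coeff q).eval κ = 0)
    (hq' : (derivative (B.coeff q)).eval κ ≠ 0)
    (ho : ∀ i, i ≠ p → i ≠ q → B.coeff i ≠ 0 → i * lg V c < p * lg V c ∨
      ((B.coeff i).eval κ = 0 ∧ -1 + i * lg V c < p * lg V c))
    {u w : Ω} (hu : ev2 (algebraMap k Ω κ + V.τ) u B = 0)
    (hw : ev2 (algebraMap k Ω κ + V.τ) w B = 0) (hu0 : u ≠ 0) (hw0 : w ≠ 0)
    (lu : lg V u = lg V c) (lw : lg V w = lg V c) :
    col2 k (algebraMap k Ω κ + V.τ) w = col2 k (algebraMap k Ω κ + V.τ) u := by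
  classical
  obtain ⟨t₁, ht₁, r₁⟩ := res_unit V hu0 hc lu
  obtain ⟨t₂, ht₂, r₂⟩ := res_unit V hw0 hc lw
  have hq0 : B.coeff q ≠ 0 := fun e => hq' (by rw [e, map_zero, eval_zero])
  have e₁ : 0 + c * (u / c) = u := by rw [zero_add, mul_div_cancel₀ _ hc]
  have e₂ : 0 + c * (w / c) = w := by rw [zero_add, mul_div_cancel₀ _ hc]
  have g : ∀ t : k, t ≠ 0 → (C ((derivative (B.coeff q)).eval κ) * X ^ q).eval t ≠ 0 :=
    fun t ht => by
      rw [eval_mul, eval_C, eval_pow, eval_X]; exact mul_ne_zero hq' (pow_ne_zero _ ht)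
  have key := one0 V B (s₀ := algebraMap k Ω κ) (l := V.τ) (u₀ := 0) (c := c) (b := c ^ p)
    (C ((B.coeff p).eval κ) * X ^ p) (C ((derivative (B.coeff q)).eval κ) * X ^ q) ?_
    (ε := 1) (e := 1) (by simp) r₁ r₂ (by rw [mul_one]; exact transcendental_add_tau κ)
    (g _ ht₁) (g _ ht₂) (by rwa [mul_one, e₁]) (by rwa [mul_one, e₂])
  · rwa [mul_one, e₁, e₂] at key
  intro e t
  have hx : V.v (V.τ * algebraMap k Ω e) < 1 := (v_tau_mul V e).trans_lt V.τ_lt
  have hcp : c ^ p ≠ 0 := pow_ne_zero _ hc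
  have e1 : (C ((B.coeff p).eval κ) * X ^ p).eval t +
      (C ((derivative (B.coeff q)).eval κ) * X ^ q).eval t * e =
      ∑ i ∈ B.support, ((if i = p then (B.coeff p).eval κ * t ^ p else 0) +
        if i = q then (derivative (B.coeff q)).eval κ * e * t ^ q else 0) := by
    rw [Finset.sum_add_distrib, Finset.sum_ite_eq', Finset.sum_ite_eq',
      if_pos (mem_support_iff.2 hp), if_pos (mem_support_iff.2 hq0)]
    simp only [eval_mul, eval_C, eval_pow, eval_X]
    ring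
  rw [e1, ev2_sum, Finset.sum_div, zero_add]
  refine V.res_sum _ fun i hi => ?_
  by_cases h1 : i = p
  · subst h1
    rw [if_pos rfl, if_neg hpq, add_zero, mul_pow, mul_left_comm, mul_div_cancel_left₀ _ hcp]
    exact V.res_mul (res_aeval (by simpa using hx) _) (V.res_pow (V.res_const t) _)
  by_cases h2 : i = q
  · subst h2
    rw [if_neg h1, if_pos rfl, zero_add, ← he, mul_pow, mul_left_comm,
      mul_div_mul_left _ _ (pow_ne_zero _ hc), mul_div_right_comm]
    exact V.res_mul (res_div V hq e) (V.res_pow (V.res_const t) _)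
  rw [if_neg h1, if_neg h2, add_zero, map_zero, sub_zero]
  have ht : V.v (algebraMap k Ω t ^ i) ≤ 1 := by
    rw [map_pow]; exact pow_le_one₀ zero_le (V.const_le t)
  have e2 : ∀ a : Ω, a * (c * algebraMap k Ω t) ^ i / c ^ p =
      a * (c ^ i / c ^ p) * algebraMap k Ω t ^ i := fun a => by rw [mul_pow]; ring
  rw [e2, map_mul]
  refine mul_lt_one_of_nonneg_of_lt_one_left zero_le ?_ ht
  have hci : c ^ i ≠ 0 := pow_ne_zero _ hc
  rw [map_mul]
  rcases ho i h1 h2 (mem_support_iff.1 hi) with h3 | ⟨h3, h4⟩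
  · refine mul_lt_one_of_nonneg_of_lt_one_right (v_le_one V κ _ hx) zero_le ?_
    rw [v_lt_one_iff (div_ne_zero hci hcp), lg_div hci hcp, lg_pow, lg_pow]
    linarith
  · refine (mul_le_mul_left ((v_le_x V h3 hx.le).trans (v_tau_mul V e)) _).trans_lt ?_
    rw [← map_mul, v_lt_one_iff (mul_ne_zero V.τ_ne (div_ne_zero hci hcp)),
      lg_mul V.τ_ne (div_ne_zero hci hcp), lg_div hci hcp, lg_pow, lg_pow, lg_tau]
    linarith

omit [IsAlgClosed k] in
theorem derivative_row (cf : ℕ → ℕ → k) (N b : ℕ) : derivative (row cf N b) = C (cf 0 b) := by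
  rw [row, derivative_sum, Finset.sum_eq_single 0 (fun c _ hc => ?_) (by simp)]
  · simp [derivative_monomial]
  · rw [derivative_monomial, Nat.cast_pow, Nat.cast_ofNat, CharTwo.two_eq_zero (R := k),
      zero_pow hc, mul_zero, map_zero]

omit [CharP k 2] in
theorem exists_root {p q : k[X]} (hp : p.Separable) (hq : q ≠ 0) (h : q.natDegree < p.natDegree) :
    ∃ κ, p.eval κ = 0 ∧ q.eval κ ≠ 0 := by
  by_contra hn
  push Not at hn
  have h1 : p.roots ≤ q.roots := (Multiset.le_iff_subset (nodup_roots hp)).2 fun x hx =>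
    (mem_roots hq).2 (hn x (isRoot_of_mem_roots hx))
  have h2 := (Multiset.card_le_card h1).trans (card_roots' q)
  rw [← (IsAlgClosed.splits p).natDegree_eq_card_roots] at h2
  omega

end Po

variable {k : Type} [Field k] [IsAlgClosed k] [CharP k 2] {φ : k ≃+* k} {B : k[X][X]}

theorem pole (h : Au φ B) {κ : k} (h0 : B.leadingCoeff.eval κ = 0)
    (h1 : (derivative B.leadingCoeff).eval κ ≠ 0) {i : ℕ} (hi : (B.coeff i).eval κ ≠ 0) :
    False := by
  classical
  obtain ⟨Ω, _, _, _, V, -⟩ := existsVal k φ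
  have ne : ∀ {j}, (B.coeff j).eval κ ≠ 0 → B.coeff j ≠ 0 := fun hj e => hj (by rw [e, eval_zero])
  obtain ⟨p, hp, hm⟩ : ∃ p, (B.coeff p).eval κ ≠ 0 ∧ ∀ j, p < j → (B.coeff j).eval κ = 0 := by
    refine ⟨Nat.findGreatest (fun j => (B.coeff j).eval κ ≠ 0) B.natDegree,
      Nat.findGreatest_spec (P := fun j => (B.coeff j).eval κ ≠ 0)
        (le_natDegree_of_ne_zero (ne hi)) hi, fun j hj => ?_⟩
    by_contra e
    exact Nat.findGreatest_is_greatest hj (le_natDegree_of_ne_zero (ne e)) e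
  have hlt : p < B.natDegree := lt_of_le_of_ne (le_natDegree_of_ne_zero (ne hp))
    fun e => hp (by rw [e]; exact h0)
  obtain ⟨m, hn⟩ : ∃ m, B.natDegree = p + (m + 1) := ⟨B.natDegree - p - 1, by omega⟩
  obtain ⟨c, hc⟩ := IsAlgClosed.exists_pow_nat_eq V.τ⁻¹ (Nat.succ_pos m)
  have hc0 : c ≠ 0 := fun e => inv_ne_zero V.τ_ne (by rw [← hc, e, zero_pow (Nat.succ_ne_zero m)])
  have lc : ((m : ℝ) + 1) * lg V c = 1 := by
    have := lg_pow (V := V) c (m + 1)
    rw [hc, lg_tau_inv] at this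
    push_cast at this
    exact this.symm
  have hm0 : (0 : ℝ) ≤ m := Nat.cast_nonneg m
  have lc0 : 0 < lg V c := by by_contra e; nlinarith
  have hnR : (B.natDegree : ℝ) = p + (m + 1) := by rw [hn]; push_cast; ring
  have hs := transcendental_add_tau (V := V) κ
  have hl := Po.lg_eq_neg V h0 h1
  have hB : B.coeff B.natDegree ≠ 0 := fun e => h1 (by rw [leadingCoeff, e, map_zero, eval_zero])
  have lev : ∀ u : Ω, ev2 (algebraMap k Ω κ + V.τ) u B = 0 → u ∉ bLe V 1 →
      u ≠ 0 ∧ lg V u = lg V c := fun u z hu => by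
    rw [mem_bLe, map_one, not_le] at hu
    have u0 : u ≠ 0 := fun e => by simp [e] at hu
    have x0 := (one_lt_v_iff u0).1 hu
    refine ⟨u0, mul_left_cancel₀ (a := (m : ℝ) + 1) (by linarith) ?_⟩
    rw [lc]
    apply le_antisymm
    · obtain ⟨j, j1, j2, j3⟩ := tie_row V hs u0 z hB
      rw [coeff_natDegree, hl, hnR] at j3
      have j4 : j < B.natDegree := lt_of_le_of_ne (le_natDegree_of_ne_zero j2) j1
      rcases le_or_gt j p with j5 | j5
      · have : (j : ℝ) ≤ p := by exact_mod_cast j5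
        have := Po.lg_le_zero V κ j2
        nlinarith
      · have : (j : ℝ) < p + (m + 1) := by rw [← hnR]; exact_mod_cast j4
        have := Po.lg_le_neg V j2 (hm j j5)
        nlinarith
    · obtain ⟨j, j1, j2, j3⟩ := tie_row V hs u0 z (ne hp)
      rw [Po.lg_eq_zero V hp] at j3
      rcases lt_or_gt_of_ne j1 with j5 | j5
      · have : (j : ℝ) < p := by exact_mod_cast j5
        have := Po.lg_le_zero V κ j2
        nlinarith
      · have : (j : ℝ) ≤ p + (m + 1) := by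
          rw [← hnR]; exact_mod_cast le_natDegree_of_ne_zero j2
        have := Po.lg_le_neg V j2 (hm j j5)
        nlinarith
  obtain ⟨y, y0, yz, yl⟩ := root_ge V hs hlt (ne hp) (ρ := lg V c) (by
    rw [hl, Po.lg_eq_zero V hp, hnR]; nlinarith)
  have yZ : y ∉ bLe V 1 := by
    rw [mem_bLe, map_one, not_le, one_lt_v_iff y0]; linarith
  refine maj h hs (bLe V 1) yz yZ fun u z hu => ?_
  refine Po.two V (p := p) (q := B.natDegree) hc0 hlt.ne ?_ (ne hp) h0 h1 (fun j j1 j2 j3 => ?_)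
    yz z y0 (lev u z hu).1 (lev y yz yZ).2 (lev u z hu).2
  · rw [hn, pow_add, hc, mul_assoc, inv_mul_cancel₀ V.τ_ne, mul_one]
  · rcases lt_or_gt_of_ne j1 with j5 | j5
    · have : (j : ℝ) < p := by exact_mod_cast j5
      exact Or.inl (by nlinarith)
    · have j4 : j < B.natDegree := lt_of_le_of_ne (le_natDegree_of_ne_zero j3) j2
      have : (j : ℝ) < p + (m + 1) := by rw [← hnR]; exact_mod_cast j4
      exact Or.inr ⟨hm j j5, by nlinarith⟩

theorem zero (h : Au φ B) {κ : k} (h0 : (B.coeff 1).eval κ = 0)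
    (h1 : (derivative (B.coeff 1)).eval κ ≠ 0)
    (h2 : ∀ i, i ≠ 1 → (derivative (B.coeff i)).eval κ = 0) (hl : B.leadingCoeff.eval κ ≠ 0) :
    False := by
  classical
  obtain ⟨Ω, _, _, _, V, -⟩ := existsVal k φ
  have := charP k Ω
  have ne : ∀ {j}, (B.coeff j).eval κ ≠ 0 → B.coeff j ≠ 0 := fun hj e => hj (by rw [e, eval_zero])
  have c0 := addIn_coeff_zero h.add
  obtain ⟨p, hp, hm⟩ : ∃ p, (B.coeff p).eval κ ≠ 0 ∧ ∀ j, j < p → (B.coeff j).eval κ = 0 := by
    have ex : ∃ j, (B.coeff j).eval κ ≠ 0 := ⟨B.natDegree, hl⟩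
    exact ⟨Nat.find ex, Nat.find_spec ex, fun j hj => not_not.1 (Nat.find_min ex hj)⟩
  have p0 : p ≠ 0 := fun e => ne hp (by rw [e, c0])
  have p1 : p ≠ 1 := fun e => hp (by rw [e, h0])
  obtain ⟨m, rfl⟩ : ∃ m, p = m + 2 := ⟨p - 2, by omega⟩
  obtain ⟨c, hc⟩ := IsAlgClosed.exists_pow_nat_eq V.τ (Nat.succ_pos m)
  have hc0 : c ≠ 0 := fun e => V.τ_ne (by rw [← hc, e, zero_pow (Nat.succ_ne_zero m)])
  have lc : ((m : ℝ) + 1) * lg V c = -1 := by
    have := lg_pow (V := V) c (m + 1)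
    rw [hc, lg_tau] at this
    push_cast at this
    exact this.symm
  have hm0 : (0 : ℝ) ≤ m := Nat.cast_nonneg m
  have lc0 : lg V c < 0 := by by_contra e; nlinarith
  have hs := transcendental_add_tau (V := V) κ
  have l1 := Po.lg_eq_neg V h0 h1
  have pos : ∀ {j}, B.coeff j ≠ 0 → 1 ≤ j := fun {j} hj =>
    Nat.pos_of_ne_zero fun e => hj (by rw [e, c0])
  have bd : ∀ u : Ω, ev2 (algebraMap k Ω κ + V.τ) u B = 0 → V.v u ≤ 1 := fun u z => by
    refine v_le_one_of fun u0 => ?_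
    obtain ⟨j, j1, j2, j3⟩ := tie_row V hs u0 z (i := B.natDegree) (ne hl)
    rw [coeff_natDegree, Po.lg_eq_zero V hl] at j3
    have : (j : ℝ) < B.natDegree := by
      exact_mod_cast lt_of_le_of_ne (le_natDegree_of_ne_zero j2) j1
    have := Po.lg_le_zero V κ j2
    by_contra e
    nlinarith
  have lev : ∀ u : Ω, ev2 (algebraMap k Ω κ + V.τ) u B = 0 → u ∈ bLt V 1 one_ne_zero → u ≠ 0 →
      lg V u = lg V c := fun u z hu u0 => by
    rw [mem_bLt, map_one] at hu
    have x0 := (v_lt_one_iff u0).1 hu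
    refine mul_left_cancel₀ (a := (m : ℝ) + 1) (by linarith) ?_
    rw [lc]
    apply le_antisymm
    · obtain ⟨j, j1, j2, j3⟩ := tie_row V hs u0 z (ne hp)
      rw [Po.lg_eq_zero V hp] at j3
      push_cast at j3
      rcases lt_or_gt_of_ne j1 with j5 | j5
      · have : (1 : ℝ) ≤ j := by exact_mod_cast pos j2
        have := Po.lg_le_neg V j2 (hm j j5)
        nlinarith
      · have : (m : ℝ) + 2 < j := by exact_mod_cast j5
        have := Po.lg_le_zero V κ j2
        nlinarith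
    · obtain ⟨j, j1, j2, j3⟩ := tie_row V hs u0 z h.sep
      rw [l1] at j3
      push_cast at j3
      rcases lt_or_ge j (m + 2) with j5 | j5
      · have : (1 : ℝ) < j := by exact_mod_cast lt_of_le_of_ne (pos j2) j1.symm
        have := Po.lg_le_neg V j2 (hm j j5)
        nlinarith
      · have : (m : ℝ) + 2 ≤ j := by exact_mod_cast j5
        have := Po.lg_le_zero V κ j2
        nlinarith
  obtain ⟨y, y0, yz, yl⟩ := root_le V hs c0 h.sep (by omega) (ne hp) (ρ := lg V c) (by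
    rw [l1, Po.lg_eq_zero V hp]; push_cast; nlinarith)
  have yZ : y ∈ bLt V 1 one_ne_zero := by
    rw [mem_bLt, map_one, v_lt_one_iff y0]; linarith
  refine stab h hs (bLt V 1 one_ne_zero) (fun u t z hu zt ht => ?_) yz yZ y0 fun u z hu u0 => ?_
  · rw [mem_bLt, map_one] at hu ht
    have u1 : V.v u = 1 := le_antisymm (bd u z) (not_lt.1 hu)
    have r := rs_spec (V := V) u1.le
    have r' := V.res_add r (b := 0) (y := t) (by simpa using ht)
    rw [add_zero] at r'
    refine sm V B (κ := κ) hs (by simpa using V.τ_lt) r r' z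
      (by rw [h.add.ev2_add, z, zt, add_zero]) ?_
    rw [← ev2_self, ev2_sum, Finset.sum_eq_single 1 (fun j _ j1 => ?_) fun e => ?_]
    · rw [TStruct.coeff_ds, coe_aeval_eq_eval, pow_one]
      exact mul_ne_zero h1 ((rs_ne_zero u1.le).2 u1)
    · rw [TStruct.coeff_ds, coe_aeval_eq_eval, h2 j j1, zero_mul]
    · rw [notMem_support_iff.1 e, map_zero, zero_mul]
  refine Po.two V (p := m + 2) (q := 1) hc0 p1 ?_ (ne hp) h0 h1 (fun j j1 j2 j3 => ?_)
    yz z y0 u0 (lev y yz yZ y0) (lev u z hu u0)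
  · rw [← hc, Nat.succ_eq_add_one]; ring
  · push_cast
    rcases lt_or_gt_of_ne j1 with j5 | j5
    · have : (1 : ℝ) < j := by exact_mod_cast lt_of_le_of_ne (pos j3) (Ne.symm j2)
      exact Or.inr ⟨hm j j5, by nlinarith⟩
    · have : (m : ℝ) + 2 < j := by exact_mod_cast j5
      exact Or.inl (by nlinarith)

theorem c3 {R : ℕ → ℕ → Prop} (h : Real φ R) {n N a₀ a₁ b₁ : ℕ} (h0 : R a₀ 0) (hA : R 0 N)
    (hC : R n N) (hR : ∀ a b, R a b → b ≤ N ∧ (a < n ∨ (a = n ∧ b = N))) (h1 : R a₁ b₁)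
    (hb : b₁ < N) : False := by
  obtain ⟨cf, M, hB, hf⟩ := h
  have hl := (hB.top hA fun a b r => (hR a b r).1).2
  have hA' := (hB.iff _ _).2 hA
  have hd := Po.derivative_row cf M N
  have sep : (row cf M N).Separable := by
    rw [separable_def, hd]
    exact ⟨0, C (cf 0 N)⁻¹, by rw [zero_mul, zero_add, ← C_mul, inv_mul_cancel₀ hA', C_1]⟩
  have d1 : 2 ^ n ≤ (row cf M N).natDegree :=
    le_natDegree_of_ne_zero (by rw [hB.cf_row]; exact (hB.iff _ _).2 hC)
  have d2 : (row cf M b₁).natDegree < 2 ^ n := by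
    obtain ⟨a, -, e, r⟩ := coeff_row_ne cf M b₁ _ (leadingCoeff_ne_zero.2 (hB.row_ne h1))
    rw [e]
    rcases (hR a b₁ ((hB.iff _ _).1 r)).2 with h2 | h2
    · exact Nat.pow_lt_pow_right one_lt_two h2
    · exact absurd h2.2 hb.ne
  obtain ⟨κ, k1, k2⟩ := Po.exists_root sep (hB.row_ne h1) (d2.trans_le d1)
  refine pole (hB.au hf h0) (κ := κ) (by rw [hl, k1]) (by rw [hl, hd, eval_C]; exact hA')
    (i := 2 ^ b₁) (by rw [hB.cf_BB]; exact k2)

end W48

end Pool.Agent.Lib.MP_346d6a_co
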