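import Pool.Agent.Lib.MP_346d6a_co.W48View
import Pool.Agent.Lib.MP_346d6a_co.W48C12
import Pool.Agent.Lib.MP_346d6a_co.W48Pole
import Pool.Agent.Lib.MP_346d6a_co.W48C2c

/-!
The case distinction for a face of the first shape.
-/

set_option maxSynthPendingDepth 3

namespace Pool.Agent.Lib.MP_346d6a_co

open Polynomial

namespace W48

open W28

variable {k : Type} [Field k] [IsAlgClosed k] [CharP k 2] {φ : k ≃+* k} {R : ℕ → ℕ → Prop}

namespace St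

theorem exists_ext {R : ℕ → ℕ → Prop} {n : ℕ} (hn : ∀ a b, R a b → a ≤ n) {a b : ℕ} (h : R a b) :
    ∃ a₁ b₁, R a₁ b₁ ∧ ∀ a b, R a b → a + b₁ < a₁ + b ∨ (a + b₁ = a₁ + b ∧ b₁ ≤ b) := by
  classical
  have h1 : ∃ d, ∃ a b, R a b ∧ b + n - a = d := ⟨_, a, b, h, rfl⟩
  have h2 : ∃ b, ∃ a, R a b ∧ b + n - a = Nat.find h1 := by
    obtain ⟨a, b, h3, h4⟩ := Nat.find_spec h1
    exact ⟨b, a, h3, h4⟩
  obtain ⟨a₁, h3, h4⟩ := Nat.find_spec h2
  refine ⟨a₁, Nat.find h2, h3, fun a b hab => ?_⟩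
  have h5 : Nat.find h1 ≤ b + n - a := Nat.find_min' h1 ⟨a, b, hab, rfl⟩
  have h6 := hn a b hab
  have h7 := hn _ _ h3
  by_cases h8 : b + n - a = Nat.find h1
  · have h9 : Nat.find h2 ≤ b := Nat.find_min' h2 ⟨a, hab, h8⟩
    omega
  · omega

theorem pw_lt {a b : ℕ} (h : (2 : ℝ) ^ a < 2 ^ b) : a < b :=
  (pow_lt_pow_iff_right₀ one_lt_two).1 h

theorem pw_le {a b : ℕ} (h : (2 : ℝ) ^ a ≤ 2 ^ b) : a ≤ b :=
  (pow_le_pow_iff_right₀ one_lt_two).1 h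

theorem pw_mono {a b : ℕ} (h : a ≤ b) : (2 : ℝ) ^ a ≤ 2 ^ b := pow_le_pow_right₀ one_le_two h

theorem pw_smono {a b : ℕ} (h : a < b) : (2 : ℝ) ^ a < 2 ^ b := pow_lt_pow_right₀ one_lt_two h

theorem pw_one (a : ℕ) : (1 : ℝ) ≤ 2 ^ a := one_le_pow₀ one_le_two

/-- The bottom left corner is a term and all terms lie above the diagonal. -/
theorem upper (h : Real φ fun b a => R a b) {ν : ℝ} {n N : ℕ} (hn : 1 ≤ n) (hN : n < N)
    (hA : R 0 0) (hC : R n N) (he : (2 : ℝ) ^ N = 1 + ν * (2 ^ n - 1))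
    (hR : ∀ a b, R a b → (2 : ℝ) ^ b ≤ 1 + ν * (2 ^ a - 1) ∧ (a < n ∨ (a = n ∧ b = N)))
    (hd : ∀ a b, R a b → a ≤ b) {a₁ b₁ : ℕ} (h1 : R a₁ b₁)
    (hlt : (2 : ℝ) ^ b₁ < 1 + ν * (2 ^ a₁ - 1)) : False := by
  have hle : ∀ a b, R a b → a ≤ n := fun a b hab => by have := (hR a b hab).2; omega
  have h2 := h.adj (a₀ := 0) hA n fun b a hab => hle a b hab
  have h3 := h2.swap (a₀ := N) (b₀ := 0) ⟨Nat.zero_le _, Nat.zero_le _, by simpa using hC⟩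
    fun x hx => by
      have h4 : R n x := by simpa using hx.2.2
      have := (hR _ _ h4).2
      omega
  have h4 := h3.shift 0 n fun α β hx => by
    have := hd _ _ hx.2.2
    have h5 := hx.1
    have h6 := hx.2.1
    omega
  obtain ⟨w, rfl⟩ : ∃ w, N = n + w := ⟨N - n, by omega⟩
  have hw : 1 ≤ w := by omega
  have p1 : (1 : ℝ) < 2 ^ n := by simpa using pw_smono (show 0 < n by omega)
  have p2 : (1 : ℝ) < 2 ^ w := by simpa using pw_smono (show 0 < w by omega)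
  have p3 : (ν - 1) * (2 ^ n - 1) = 2 ^ n * (2 ^ w - 1) := by rw [pow_add] at he; linarith
  have hν : 0 < ν - 1 := by
    have : 0 < (ν - 1) * (2 ^ n - 1) := by rw [p3]; exact mul_pos (by linarith) (by linarith)
    exact (mul_pos_iff_of_pos_right (by linarith)).1 this
  set σ : ℝ := 2 ^ n / (ν - 1) with hσ
  have s0 : 0 < σ := div_pos (by linarith) hν
  have s1 : σ * (ν - 1) = 2 ^ n := div_mul_cancel₀ _ hν.ne'
  have s2 : 1 + σ * 2 ^ w = 2 ^ n + σ := by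
    have : (σ * (2 ^ w - 1)) * (ν - 1) = (2 ^ n - 1) * (ν - 1) := by
      calc (σ * (2 ^ w - 1)) * (ν - 1) = (σ * (ν - 1)) * (2 ^ w - 1) := by ring
        _ = _ := by rw [s1, ← p3]; ring
    have := mul_right_cancel₀ hν.ne' this
    linarith
  have key : ∀ α β : ℕ, α ≤ n → ((2 : ℝ) ^ n + σ - (2 ^ α + σ * 2 ^ β)) * 2 ^ (n - α) =
      σ * (1 + ν * (2 ^ (n - α) - 1) - 2 ^ (β + n - α)) := by
    intro α β hα
    obtain ⟨a, rfl⟩ : ∃ a, n = α + a := ⟨n - α, by omega⟩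
    have e1 : α + a - α = a := by omega
    have e2 : β + (α + a) - α = β + a := by omega
    rw [e1, e2]
    have e3 : (2 : ℝ) ^ α * 2 ^ a = σ * (ν - 1) := by rw [s1, pow_add]
    rw [pow_add, pow_add]
    linear_combination ((2 : ℝ) ^ a - 1) * e3
  have hA' : (n + 0 ≤ n ∧ n + 0 ≤ 0 + n ∧ R (n - (n + 0)) (0 + n - (n + 0))) :=
    ⟨le_rfl, by omega, by simpa using hA⟩
  have hC' : (0 + 0 ≤ n ∧ 0 + 0 ≤ w + n ∧ R (n - (0 + 0)) (w + n - (0 + 0))) :=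
    ⟨by omega, by omega, by simpa [add_comm] using hC⟩
  have hR' : ∀ α β : ℕ, (α + 0 ≤ n ∧ α + 0 ≤ β + n ∧ R (n - (α + 0)) (β + n - (α + 0))) →
      (2 : ℝ) ^ α + σ * 2 ^ β ≤ 2 ^ n + σ ∧ ((α = 0 ∧ β = w) ∨ (1 ≤ α ∧ β < w)) := by
    rintro α β ⟨h5, h6, h7⟩
    simp only [add_zero] at h5 h6 h7
    obtain ⟨h8, h9⟩ := hR _ _ h7
    have h10 : (2 : ℝ) ^ α + σ * 2 ^ β ≤ 2 ^ n + σ := by
      have h11 : 0 ≤ ((2 : ℝ) ^ n + σ - (2 ^ α + σ * 2 ^ β)) * 2 ^ (n - α) := by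
        rw [key α β h5]; exact mul_nonneg s0.le (by linarith)
      have := nonneg_of_mul_nonneg_left h11 (by positivity)
      linarith
    refine ⟨h10, ?_⟩
    rcases h9 with h9 | h9
    · right
      have h11 : 1 ≤ α := by omega
      have h12 : (1 : ℝ) < 2 ^ α := by simpa using pw_smono (show 0 < α by omega)
      have h13 : σ * 2 ^ β < σ * 2 ^ w := by linarith
      exact ⟨h11, pw_lt (lt_of_mul_lt_mul_left h13 s0.le)⟩
    · left
      omega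
  by_cases h0 : ∀ α, (α + 0 ≤ n ∧ α + 0 ≤ 0 + n ∧ R (n - (α + 0)) (0 + n - (α + 0))) → α = n
  · have h5 := hle _ _ h1
    have h6 := hd _ _ h1
    have e1 : n - (n - a₁) = a₁ := by omega
    have e2 : b₁ - a₁ + n - (n - a₁) = b₁ := by omega
    refine c2b h4 hw hA' hC' s2 hR' h0 (a₁ := n - a₁) (b₁ := b₁ - a₁)
      ⟨by omega, by omega, by simpa only [add_zero, e1, e2] using h1⟩ ?_
    have h7 := key (n - a₁) (b₁ - a₁) (by omega)
    rw [e1, e2] at h7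
    have h8 : 0 < ((2 : ℝ) ^ n + σ - (2 ^ (n - a₁) + σ * 2 ^ (b₁ - a₁))) * 2 ^ a₁ := by
      rw [h7]; exact mul_pos s0 (by linarith)
    have := (mul_pos_iff_of_pos_right (by positivity)).1 h8
    linarith
  · push Not at h0
    obtain ⟨α, h5, h6⟩ := h0
    exact c2c h4 hw hA' hC' s2 hR' h5 h6

/-- The bottom left corner is a term. -/
theorem corner (h : Real φ fun b a => R a b) {ν : ℝ} (hν : 0 < ν) {n N : ℕ} (hn : 1 ≤ n)
    (hA : R 0 0) (hC : R n N) (he : (2 : ℝ) ^ N = 1 + ν * (2 ^ n - 1))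
    (hR : ∀ a b, R a b → (2 : ℝ) ^ b ≤ 1 + ν * (2 ^ a - 1) ∧ (a < n ∨ (a = n ∧ b = N)))
    {a₁ b₁ : ℕ} (h1 : R a₁ b₁) (hlt : 3 * (2 : ℝ) ^ b₁ < 1 + ν * (2 ^ a₁ - 1)) : False := by
  have hle : ∀ a b, R a b → a ≤ n := fun a b hab => by have := (hR a b hab).2; omega
  obtain ⟨a, b, hab, hmin⟩ := exists_ext hle h1
  have p1 : (1 : ℝ) < 2 ^ n := by simpa using pw_smono (show 0 < n by omega)
  rcases lt_or_ge n N with hN | hN
  · by_cases hd : ∀ a b, R a b → a ≤ b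
    · exact upper h hn hN hA hC he hR hd h1 (by linarith [pw_one b₁])
    · push Not at hd
      obtain ⟨a', b', h2, h3⟩ := hd
      have h4 : b < a := by have := hmin _ _ h2; omega
      refine c2m h hν hn hA hC he (fun b a hab => hR a b hab) (a₁ := b) (b₁ := a) hab h4
        (fun b a hab => hmin a b hab) (a₂ := 0) (b₂ := 0) hA (by omega) ?_
      have h5 : (2 : ℝ) ^ (b + 1) ≤ 2 ^ a := pw_mono h4
      have h6 := pw_smono hN
      have h7 : (0 : ℝ) < 2 ^ a := by positivity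
      rw [pow_succ] at h5
      rw [pow_zero]
      calc 2 * ((2 : ℝ) ^ n - 1) * 2 ^ b = 2 ^ b * 2 * (2 ^ n - 1) := by ring
        _ ≤ 2 ^ a * (2 ^ n - 1) := mul_le_mul_of_nonneg_right h5 (by linarith)
        _ < 2 ^ a * (2 ^ N - 1) := mul_lt_mul_of_pos_left (by linarith) h7
  · have h2 : ν * 2 ^ n ≤ 2 ^ N := by
      have h3 : ν ≤ 1 := by
        have h4 : ν * (2 ^ n - 1) ≤ 1 * (2 ^ n - 1) := by linarith [pw_mono hN]
        exact le_of_mul_le_mul_right h4 (by linarith)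
      linarith
    have h3 : b₁ + 1 + n < a₁ + N := by
      apply pw_lt
      have h4 : 2 * (2 : ℝ) ^ b₁ < ν * 2 ^ a₁ := by linarith [pw_one b₁]
      rw [pow_add, pow_add, pow_add, pow_one]
      calc (2 : ℝ) ^ b₁ * 2 * 2 ^ n = 2 * 2 ^ b₁ * 2 ^ n := by ring
        _ < ν * 2 ^ a₁ * 2 ^ n := mul_lt_mul_of_pos_right h4 (by positivity)
        _ = 2 ^ a₁ * (ν * 2 ^ n) := by ring
        _ ≤ 2 ^ a₁ * 2 ^ N := mul_le_mul_of_nonneg_left h2 (by positivity)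
    have h4 : b + n + 2 ≤ a + N := by have := hmin _ _ h1; omega
    have h5 : a < n := by have := (hR _ _ hab).2; omega
    refine c2m h hν hn hA hC he (fun b a hab => hR a b hab) (a₁ := b) (b₁ := a) hab (by omega)
      (fun b a hab => hmin a b hab) (a₂ := b) (b₂ := a) hab h5 ?_
    have h6 := pw_mono h4
    rw [pow_add, pow_add, pow_add] at h6
    have h7 : (0 : ℝ) < 2 ^ a * 2 ^ b := by positivity
    have h8 : (0 : ℝ) < 2 ^ b * 2 ^ n := by positivity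
    nlinarith

/-- The normalised shape. -/
theorem norm (h : Real φ fun b a => R a b) {ν : ℝ} (hν : 0 ≤ ν) {m n N a₀ : ℕ} (hn : 1 ≤ n)
    (h0 : R a₀ 0) (hA : R 0 m) (hC : R n N) (he : (2 : ℝ) ^ N = 2 ^ m + ν * (2 ^ n - 1))
    (hR : ∀ a b, R a b → (2 : ℝ) ^ b ≤ 2 ^ m + ν * (2 ^ a - 1) ∧ (a < n ∨ (a = n ∧ b = N)))
    {a₁ b₁ : ℕ} (h1 : R a₁ b₁) (hlt : 3 * (2 : ℝ) ^ b₁ < 2 ^ m + ν * (2 ^ a₁ - 1)) : False := by
  have h2 : Real φ R := h.swap (a₀ := N) (b₀ := n) hC fun x hx => by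
    have := (hR _ _ hx).2
    omega
  rcases hν.eq_or_lt with rfl | hν
  · simp only [zero_mul, add_zero] at he hR hlt
    have e : N = m := le_antisymm (pw_le he.le) (pw_le he.ge)
    subst e
    exact c3 h2 h0 hA hC (fun a b hab => ⟨pw_le (hR a b hab).1, (hR a b hab).2⟩) h1
      (pw_lt (by linarith [pw_one b₁]))
  · rcases Nat.eq_zero_or_pos m with rfl | hm
    · rw [pow_zero] at he hlt
      simp only [pow_zero] at hR
      exact corner h hν hn hA hC he hR h1 hlt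
    · exact c1 h2 hν hm hn h0 hA hC he hR

end St

theorem star (h : Real φ fun b a => R a b) (hS : Star R) : False := by
  classical
  obtain ⟨ν, γ, a₀, b₀, a₁, b₁, hν, hA, hC, hlt, eA, eC, hR, a₂, b₂, h2, hb⟩ := hS
  have hex : ∃ b, ∃ a, R a b := ⟨b₀, a₀, hA⟩
  obtain ⟨a₃, h3⟩ := Nat.find_spec hex
  have hmin : ∀ a b, R a b → Nat.find hex ≤ b := fun a b hab => Nat.find_min' hex ⟨a, hab⟩
  generalize Nat.find hex = c at h3 hmin
  have h4 := h.shift c a₀ fun b a hab => ⟨hmin a b hab, (hR a b hab).1⟩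
  obtain ⟨m, rfl⟩ : ∃ m, b₀ = m + c := ⟨b₀ - c, by have := hmin _ _ hA; omega⟩
  obtain ⟨N, rfl⟩ : ∃ N, b₁ = N + c := ⟨b₁ - c, by have := hmin _ _ hC; omega⟩
  obtain ⟨n, rfl⟩ : ∃ n, a₁ = n + a₀ := ⟨a₁ - a₀, by omega⟩
  obtain ⟨y, rfl⟩ : ∃ y, b₂ = y + c := ⟨b₂ - c, by have := hmin _ _ h2; omega⟩
  obtain ⟨x, rfl⟩ : ∃ x, a₂ = x + a₀ := ⟨a₂ - a₀, by have := (hR _ _ h2).1; omega⟩
  obtain ⟨z, rfl⟩ : ∃ z, a₃ = z + a₀ := ⟨a₃ - a₀, by have := (hR _ _ h3).1; omega⟩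
  have hc : (0 : ℝ) < 2 ^ c := by positivity
  have key : ∀ a : ℕ, (2 ^ m + ν * 2 ^ a₀ / 2 ^ c * (2 ^ a - 1)) * 2 ^ c =
      γ + ν * (2 : ℝ) ^ (a + a₀) := by
    intro a
    rw [pow_add] at eA
    rw [pow_add, add_mul, eA]
    field_simp
    ring
  refine St.norm (R := fun a b => R (a + a₀) (b + c)) h4 (ν := ν * 2 ^ a₀ / 2 ^ c)
    (by positivity) (m := m) (n := n) (N := N) (a₀ := z) (by omega) (by simpa using h3)
    (by simpa using hA) hC ?_ (fun a b hab => ⟨?_, ?_⟩) (a₁ := x) (b₁ := y) h2 ?_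
  · apply mul_right_cancel₀ hc.ne'
    rw [key, ← eC, pow_add]
  · apply le_of_mul_le_mul_right _ hc
    rw [key, ← pow_add]
    have h5 : (0 : ℝ) < 2 ^ (b + c) := by positivity
    rcases (hR _ _ hab).2.2 with h6 | h6 <;> linarith
  · have := (hR _ _ hab).2.1
    omega
  · apply lt_of_mul_lt_mul_right _ hc.le
    rw [key, mul_assoc, ← pow_add]
    exact hb

end W48

end Pool.Agent.Lib.MP_346d6a_co
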