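import Pool.Agent.Lib.MP_346d6a_co.W48K
import Pool.Agent.Lib.MP_346d6a_co.W48Face
import Pool.Agent.Lib.MP_346d6a_co.W48F1
import Pool.Agent.Lib.MP_346d6a_co.W48Star
import Pool.Agent.Lib.MP_346d6a_co.W48C4

/-!
Exceptional polynomials of degree `2 ^ r` times a Gold number are quadratic.
-/

set_option maxSynthPendingDepth 3

namespace Pool.Agent.Lib.MP_346d6a_co

open Polynomial

namespace W48

open W28

theorem diag_swap {R : ℕ → ℕ → Prop} {r N : ℕ} (h : Diag R r N) : Diag (fun b a => R a b) r N := by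
  obtain ⟨h1, h2, h3, a, b, h4, h5, h6⟩ := h
  refine ⟨h2, h1, fun a b hab => ?_, b, a, h4, h6, h5⟩
  have := h3 b a hab
  omega

end W48

open W48 in
theorem nonDO : NonDO := by
  intro k _ _ _ φ f r j hc hl _ _ hj hd e he
  by_contra hn
  have hd' : f.natDegree = 2 ^ (r + j) + 2 ^ r := by rw [hd, pow_add]; ring
  have hf : f ≠ 0 := fun e0 => he (by rw [e0, coeff_zero])
  have ho : ∃ e ∈ f.support, Odd e := by
    have h1 : derivative f ≠ 0 := fun e0 => hc.deg (by rw [e0, natDegree_zero])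
    have h2 := leadingCoeff_ne_zero.2 h1
    rw [leadingCoeff, coeff_derivative] at h2
    refine ⟨_, mem_support_iff.2 (left_ne_zero_of_mul h2), Nat.not_even_iff_odd.1 fun h3 => ?_⟩
    refine right_ne_zero_of_mul h2 ?_
    have := (CharP.cast_eq_zero_iff k 2 _).2 (even_iff_two_dvd.1 h3)
    simpa using this
  obtain ⟨S, U, W, h1, h2, h3, h4⟩ := face f.support (r := r) (N := r + j) (by omega)
    (hd' ▸ natDegree_mem_support_of_nonzero hf) (fun e he => hd' ▸ le_natDegree_of_mem_supp e he)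
    (fun e he => hl e (mem_support_iff.1 he)) ho
    (fun μ hμ a D h hm => kdo hc hl (by omega) hd' hμ h hm) ⟨e, mem_support_iff.2 he, hn⟩
  rcases h4 with ⟨h4, h5⟩ | h4
  · obtain ⟨_, _, _, _, _, _, _, h6, _⟩ := id h5
    exact star ((f1 hc h1 h2 h3 h6).2 h4) h5
  · exact c4 (f1 hc h1 h2 h3 h4.1).1 (diag_swap h4)

end Pool.Agent.Lib.MP_346d6a_co
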