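import Pool.Agent.Lib.MP_346d6a_co.W48NP
import Pool.Agent.Lib.MP_346d6a_co.W48One
import Pool.Agent.Lib.MP_346d6a_co.W48Grp
import Pool.Agent.Lib.MP_346d6a_co.W48Bud

/-!
An edge with quadratic ends and another term in the middle.
-/

set_option maxSynthPendingDepth 3

namespace Pool.Agent.Lib.MP_346d6a_co

open Polynomial

namespace W48

open W28

variable {k : Type} [Field k] [IsAlgClosed k] [CharP k 2] {φ : k ≃+* k} {B : k[X][X]}

namespace N2

variable {Ω : Type} [Field Ω] [Algebra k Ω] (V : Val k Ω)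

omit [IsAlgClosed k] [CharP k 2] in
theorem pw {a : Ω} (ha : 1 < V.v a) (e : k) (n : ℕ) :
    V.v (a * ((1 + algebraMap k Ω e / a) ^ n - 1) - algebraMap k Ω (n * e)) < 1 := by
  have h0 : V.v a ≠ 0 := (zero_lt_one.trans ha).ne'
  have a0 : a ≠ 0 := (V.v.ne_zero_iff).1 h0
  have hz : V.v (algebraMap k Ω e / a) ≤ (V.v a)⁻¹ := by
    rw [map_div₀, div_eq_mul_inv]
    exact mul_le_of_le_one_left zero_le (V.const_le e)
  have hi : (V.v a)⁻¹ < 1 := inv_lt_one_of_one_lt₀ ha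
  have := res_aeval_first (V := V) (1 : k) (X ^ n) (hz.trans hi.le)
  simp only [map_one, map_pow, aeval_X, eval_pow, eval_X, one_pow, derivative_X_pow, eval_mul,
    eval_C, mul_one] at this
  have e1 : a * ((1 + algebraMap k Ω e / a) ^ n - 1) - algebraMap k Ω (n * e) =
      a * ((1 + algebraMap k Ω e / a) ^ n - 1 - algebraMap k Ω n * (algebraMap k Ω e / a)) := by
    rw [map_mul]; field_simp
  rw [e1, map_mul]
  calc V.v a * _ ≤ V.v a * (V.v a)⁻¹ ^ 2 :=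
        mul_le_mul_right (this.trans (pow_le_pow_left₀ zero_le hz 2)) _
    _ = (V.v a)⁻¹ := by field_simp
    _ < 1 := hi

/-- The variation of a row. -/
noncomputable def F (u : Ω) (n : ℕ) (e : k) (p : k[X]) : Ω :=
  (aeval (V.τ * (1 + algebraMap k Ω e / (u * V.τ ^ n))) p - aeval V.τ p) * u

variable {u : Ω} {n : ℕ}

omit [IsAlgClosed k] [CharP k 2] in
theorem F_add (e : k) (p q : k[X]) : F V u n e (p + q) = F V u n e p + F V u n e q := by
  simp only [F, map_add]; ring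

omit [IsAlgClosed k] [CharP k 2] in
theorem F_C (e a : k) : F V u n e (C a) = 0 := by simp [F]

omit [IsAlgClosed k] [CharP k 2] in
theorem F_pow (e : k) (j : ℕ) : F V u n e (X ^ (n + j)) = V.τ ^ j * ((u * V.τ ^ n) *
    ((1 + algebraMap k Ω e / (u * V.τ ^ n)) ^ (n + j) - 1)) := by
  simp only [F, map_pow, aeval_X, mul_pow]; ring

omit [IsAlgClosed k] [CharP k 2] in
theorem F_hi (ha : 1 < V.v (u * V.τ ^ n)) (e : k) (r : k[X]) :
    V.v (F V u n e (X ^ (n + 1) * r)) < 1 := by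
  induction r using Polynomial.induction_on' with
  | add p q hp hq => rw [mul_add, F_add]; exact V.v.map_add_lt hp hq
  | monomial j a =>
    have e1 : F V u n e (X ^ (n + 1) * monomial j a) =
        algebraMap k Ω a * F V u n e (X ^ (n + (j + 1))) := by
      simp only [F, ← C_mul_X_pow_eq_monomial, map_mul, map_pow, aeval_X, aeval_C]; ring
    rw [e1, F_pow, map_mul, map_mul, map_pow]
    refine mul_lt_one_of_nonneg_of_lt_one_right (V.const_le a) zero_le ?_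
    exact mul_lt_one_of_nonneg_of_lt_one_left zero_le (pow_lt_one₀ zero_le V.τ_lt (by omega))
      (V.le_one_of_res (pw V ha e _))

omit [IsAlgClosed k] in
theorem F_top (ha : 1 < V.v (u * V.τ ^ n)) (hn : Odd n) (e : k) {p : k[X]} {a : k}
    (hp : X ^ (n + 1) ∣ p - C a - X ^ n) : V.v (F V u n e p - algebraMap k Ω e) < 1 := by
  obtain ⟨r, hr⟩ := hp
  have e1 : p = C a + (X ^ (n + 0) + X ^ (n + 1) * r) := by rw [← hr]; ring
  have h1 := pw V ha e (n + 0)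
  have h2 : ((n + 0 : ℕ) : k) = 1 := by
    obtain ⟨j, rfl⟩ := hn
    push_cast
    rw [CharTwo.two_eq_zero]; ring
  rw [h2, one_mul] at h1
  rw [e1, F_add, F_add, F_C, zero_add, F_pow, pow_zero, one_mul, add_sub_right_comm]
  exact V.v.map_add_lt h1 (F_hi V ha e r)

omit [IsAlgClosed k] [CharP k 2] in
theorem F_low (ha : 1 < V.v (u * V.τ ^ n)) (e : k) {p : k[X]} {a : k}
    (hp : X ^ (n + 1) ∣ p - C a) : V.v (F V u n e p) < 1 := by
  obtain ⟨r, hr⟩ := hp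
  have e1 : p = C a + X ^ (n + 1) * r := by rw [← hr]; ring
  rw [e1, F_add, F_C, zero_add]
  exact F_hi V ha e r

omit [IsAlgClosed k] [CharP k 2] in
theorem sum_eq (hA : AddIn B) {d : ℕ} {c : ℕ → k} {w : ℕ → k[X]}
    (hB : ∀ i, B.coeff (2 ^ i) = C (c i) * w i ^ 2 ^ i) (cz : ∀ i, d < i → c i = 0) (s u : Ω) :
    ev2 s u B = ∑ i ∈ Finset.range (d + 1), algebraMap k Ω (c i) * (aeval s (w i) * u) ^ 2 ^ i := by
  have e : B = PB (Finset.range (d + 1)) fun i => C (c i) * w i ^ 2 ^ i := by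
    refine Polynomial.ext fun j => ?_
    by_cases hj : ∃ b, j = 2 ^ b
    · obtain ⟨b, rfl⟩ := hj
      rw [coeff_PB, hB]
      split_ifs with h
      · rfl
      · rw [cz b (by simpa using h), map_zero, zero_mul]
    · have h1 : B.coeff j = 0 := by_contra fun h => hj (hA j h)
      have h2 : (PB (Finset.range (d + 1)) fun i => C (c i) * w i ^ 2 ^ i).coeff j = 0 :=
        by_contra fun h => hj (addIn_PB _ _ j h)
      rw [h1, h2]
  conv_lhs => rw [e, ev2_PB]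
  refine Finset.sum_congr rfl fun i _ => ?_
  simp only [map_mul, map_pow, aeval_C, mul_pow, mul_assoc]

/-- The module property. -/
theorem modu [IsAlgClosed Ω] (hA : AddIn B) {d : ℕ} {c : ℕ → k} {w : ℕ → k[X]}
    (hB : ∀ i, B.coeff (2 ^ i) = C (c i) * w i ^ 2 ^ i) (cz : ∀ i, d < i → c i = 0)
    (c0 : c 0 ≠ 0) (w0 : w 0 = 1) {y : ℕ} (hy : y ≤ d) (cy : c y ≠ 0) (hn : Odd n)
    (wy : ∃ a, X ^ (n + 1) ∣ w y - C a - X ^ n)
    (wo : ∀ i, i ≠ y → c i ≠ 0 → ∃ a, X ^ (n + 1) ∣ w i - C a)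
    (sm : ∀ x, ev2 V.τ x B = 0 → V.v x < 1 → x = 0) (ha : 1 < V.v (u * V.τ ^ n))
    (hu : ev2 V.τ u B = 0) {t : Ω} (ht : ev2 V.τ t B = 0) (ht' : V.v t ≤ 1) :
    col2 k V.τ (u + t) = col2 k V.τ u := by
  have := charP k Ω
  have a0 : u * V.τ ^ n ≠ 0 := (V.v.ne_zero_iff).1 (zero_lt_one.trans ha).ne'
  obtain ⟨t₂, h₂⟩ := V.res t ht'
  have key := one V B (s₀ := V.τ) (l := V.τ / (u * V.τ ^ n)) (u₀ := u) (c := 1) (b := 1)
    (B.map ((aeval (0 : k) : k[X] →ₐ[k] k) : k[X] →+* k)) (C (c y)) y ?_ (ε := 0) (ξ₁ := 0)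
    (ξ₂ := t) (e := 0) (t₁ := 0) (t₂ := t₂) (by simp) (by simp) h₂
    (by simpa using V.transcendental_τ) (by simpa using cy) (by simpa using cy) ?_
    (by simpa using hu) (by rw [mul_zero, add_zero, one_mul, hA.ev2_add, hu, ht, add_zero])
  · obtain ⟨ξ, h1, h2⟩ := key
    simp only [mul_zero, add_zero, one_mul] at h2
    have h3 := root_of_col h2 hu
    rw [hA.ev2_add, hu, zero_add] at h3
    have h4 : ξ + t = 0 := sm _ (by rw [hA.ev2_add, h3, ht, add_zero]) (by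
      have := V.v.map_sub_lt h1 h₂
      rwa [sub_sub_sub_cancel_right, CharTwo.sub_eq_add] at this)
    rw [← CharTwo.sub_eq_add, sub_eq_zero] at h4
    rwa [h4] at h2
  · intro e t
    have e1 : V.τ + V.τ / (u * V.τ ^ n) * algebraMap k Ω e =
        V.τ * (1 + algebraMap k Ω e / (u * V.τ ^ n)) := by ring
    rw [div_one, one_mul, hA.ev2_add, add_comm (ev2 _ u B), e1, ← ev2_eq, eval_C]
    refine V.res_add (V.res_ev2 ?_ (V.res_const t) B) ?_
    · rw [map_zero, sub_zero, map_mul]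
      refine mul_lt_one_of_nonneg_of_lt_one_left zero_le V.τ_lt (V.v.map_add_le (by simp) ?_)
      rw [map_div₀]
      exact div_le_one_of_le₀ ((V.const_le e).trans ha.le) zero_le
    · have e2 : ev2 (V.τ * (1 + algebraMap k Ω e / (u * V.τ ^ n))) u B =
          ∑ i ∈ Finset.range (d + 1), algebraMap k Ω (c i) * F V u n e (w i) ^ 2 ^ i := by
        rw [← sub_zero (ev2 _ u B), ← hu, sum_eq hA hB cz, sum_eq hA hB cz,
          ← Finset.sum_sub_distrib]
        refine Finset.sum_congr rfl fun i _ => ?_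
        rw [F, sub_mul, sub_pow_char_pow, mul_sub]
      have e3 : c y * e ^ 2 ^ y = ∑ i ∈ Finset.range (d + 1),
          if i = y then c y * e ^ 2 ^ y else 0 := by
        rw [Finset.sum_ite_eq', if_pos (Finset.mem_range.2 (by omega))]
      rw [e2, e3]
      refine V.res_sum _ fun i _ => ?_
      split_ifs with h
      · obtain ⟨a, ha'⟩ := wy
        rw [h]
        exact V.res_mul (V.res_const _) (V.res_pow (F_top V ha hn e ha') _)
      · by_cases ci : c i = 0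
        · simp [ci]
        · obtain ⟨a, ha'⟩ := wo i h ci
          rw [map_zero, sub_zero, map_mul, map_pow, V.const _ ci, one_mul]
          exact pow_lt_one₀ zero_le (F_low V ha e ha') (by positivity)
  · intro h
    have h1 := congrArg (coeff · (2 ^ 0)) h
    simp only [zero_pow (pow_pos two_pos y).ne', map_zero, mul_zero, add_zero, coeff_map, hB, w0,
      coeff_zero] at h1
    exact c0 (by simpa using h1)

omit [IsAlgClosed k] [CharP k 2] in
theorem dvd_pow {a b : ℕ} (h : a < b) : (X : k[X]) ^ (2 ^ a - 1 + 1) ∣ X ^ (2 ^ b - 1) := by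
  refine pow_dvd_pow _ ?_
  have h1 : 2 ^ (a + 1) ≤ 2 ^ b := Nat.pow_le_pow_right two_pos h
  have h2 : 0 < 2 ^ a := pow_pos two_pos a
  rw [pow_succ] at h1
  omega

theorem odd_pow {a : ℕ} (h : 1 ≤ a) : Odd (2 ^ a - 1) :=
  Nat.Even.sub_odd Nat.one_le_two_pow (Nat.even_pow.2 ⟨even_two, by omega⟩) odd_one

omit [IsAlgClosed k] [CharP k 2] in
/-- The dominant row. -/
theorem dom {d Δ m : ℕ} (hΔ : 1 ≤ Δ) (hm : 1 ≤ m) (hmd : m < d) (hne : m + Δ ≠ d)
    {c : ℕ → k} {w : ℕ → k[X]} (cm : c m ≠ 0) (cd : c d ≠ 0) (cz : ∀ i, m < i → i ≠ d → c i = 0)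
    (w0 : w 0 = 1) (wd : w d = X ^ (2 ^ Δ - 1))
    (wi : ∀ i, 1 ≤ i → i ≤ m → c i ≠ 0 →
      ∃ r : k[X], w i = 1 + X ^ (2 ^ (d - i) - 1) + X ^ 2 ^ (d - i) * r) :
    ∃ y n, y ≤ d ∧ c y ≠ 0 ∧ Odd n ∧ n ≤ 2 ^ Δ - 1 ∧ (∃ a, X ^ (n + 1) ∣ w y - C a - X ^ n) ∧
      ∀ i, i ≠ y → c i ≠ 0 → ∃ a, X ^ (n + 1) ∣ w i - C a := by
  have low : ∀ t i, i ≤ m → t < d - i → c i ≠ 0 → ∃ a, X ^ (2 ^ t - 1 + 1) ∣ w i - C a := by
    intro t i hi ht ci
    refine ⟨1, ?_⟩
    rcases Nat.eq_zero_or_pos i with rfl | h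
    · simp [w0]
    · obtain ⟨r, hr⟩ := wi i h hi ci
      rw [hr, map_one, add_assoc, add_sub_cancel_left]
      exact dvd_add (dvd_pow ht) (((dvd_pow ht).trans (pow_dvd_pow _ (Nat.sub_le _ _))).mul_right _)
  have le : ∀ i, i ≠ d → c i ≠ 0 → i ≤ m := fun i h ci => not_lt.1 fun h' => ci (cz i h' h)
  rcases lt_or_gt_of_ne hne with h | h
  · refine ⟨d, 2 ^ Δ - 1, le_rfl, cd, odd_pow hΔ, le_rfl, ⟨0, by simp [wd]⟩, fun i hi ci => ?_⟩
    have := le i hi ci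
    exact low Δ i this (by omega) ci
  · refine ⟨m, 2 ^ (d - m) - 1, hmd.le, cm, odd_pow (by omega),
      Nat.sub_le_sub_right (Nat.pow_le_pow_right two_pos (by omega)) 1, ⟨1, ?_⟩, fun i hi ci => ?_⟩
    · obtain ⟨r, hr⟩ := wi m hm le_rfl cm
      rw [hr, map_one, add_assoc, add_sub_cancel_left, add_sub_cancel_left,
        Nat.sub_add_cancel Nat.one_le_two_pow]
      exact dvd_mul_right _ _
    · by_cases e : i = d
      · refine ⟨0, ?_⟩
        rw [e, wd, map_zero, sub_zero]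
        exact dvd_pow (by omega)
      · have := le i e ci
        exact low _ i this (by omega) ci

end N2

theorem n2core (h : Au φ B) {d Δ m : ℕ} (hΔ : 1 ≤ Δ) (hm : 1 ≤ m) (hmd : m < d) (hne : m + Δ ≠ d)
    (c : ℕ → k) (w : ℕ → k[X]) (hB : ∀ i, B.coeff (2 ^ i) = C (c i) * w i ^ 2 ^ i)
    (c0 : c 0 ≠ 0) (cm : c m ≠ 0) (cd : c d ≠ 0) (cz : ∀ i, m < i → i ≠ d → c i = 0)
    (w0 : w 0 = 1) (wd : w d = X ^ (2 ^ Δ - 1))
    (wi : ∀ i, 1 ≤ i → i ≤ m → c i ≠ 0 →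
      (∃ r : k[X], w i = 1 + X ^ (2 ^ (d - i) - 1) + X ^ 2 ^ (d - i) * r) ∧
        2 ^ i * (w i).natDegree < 2 ^ d * (2 ^ Δ - 1)) : False := by
  obtain ⟨Ω, _, _, _, V, g, gτ, gc, gv⟩ := existsVal k φ
  have := charP k Ω
  have le : ∀ i, i ≠ d → c i ≠ 0 → i ≤ m := fun i h ci => not_lt.1 fun h' => ci (cz i h' h)
  have cz' : ∀ i, d < i → c i = 0 := fun i hi => cz i (by omega) (by omega)
  have row : ∀ j, B.coeff j ≠ 0 → ∃ i, j = 2 ^ i ∧ c i ≠ 0 ∧ w i ≠ 0 := fun j hj => by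
    obtain ⟨i, rfl⟩ := h.add j hj
    rw [hB] at hj
    refine ⟨i, rfl, fun e => hj (by rw [e, map_zero, zero_mul]), fun e => hj ?_⟩
    rw [e, zero_pow (pow_pos two_pos i).ne', mul_zero]
  have rlg : ∀ (s : Ω) i, c i ≠ 0 →
      lg V (aeval s (B.coeff (2 ^ i))) = 2 ^ i * lg V (aeval s (w i)) := fun s i ci => by
    rw [hB, map_mul, aeval_C, lg_const_mul ci, map_pow, lg_two_pow]
  have e2 : ∀ i : ℕ, ((2 ^ i : ℕ) : ℝ) = 2 ^ i := fun i => by push_cast; rfl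
  have hτ : V.v (V.τ - algebraMap k Ω 0) < 1 := by simpa using V.τ_lt
  have unit : ∀ i, i ≤ m → c i ≠ 0 → V.v (aeval V.τ (w i)) = 1 := fun i hi ci => by
    rcases Nat.eq_zero_or_pos i with rfl | h0
    · simp [w0]
    · obtain ⟨⟨r, hr⟩, -⟩ := wi i h0 hi ci
      refine V.eq_one_of_res ?_ (res_aeval hτ (w i))
      have h1 : 2 ^ 1 ≤ 2 ^ (d - i) := Nat.pow_le_pow_right two_pos (by omega)
      rw [hr]
      simp [zero_pow (show 2 ^ (d - i) - 1 ≠ 0 by omega)]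
  have hD : 2 ^ 1 ≤ 2 ^ Δ := Nat.pow_le_pow_right two_pos hΔ
  have hDr : ((2 ^ Δ - 1 : ℕ) : ℝ) = 2 ^ Δ - 1 := by
    rw [Nat.cast_sub (by omega)]; push_cast; rfl
  have hD2 : (2 : ℝ) ≤ 2 ^ Δ := by exact_mod_cast hD
  have top : lg V (aeval V.τ (w d)) = -(2 ^ Δ - 1) := by
    rw [wd, map_pow, aeval_X, lg_pow, lg_tau, hDr]; ring
  have top' : lg V (aeval V.τ⁻¹ (w d)) = 2 ^ Δ - 1 := by
    rw [wd, map_pow, aeval_X, lg_pow, lg_tau_inv, hDr]; ring
  have ne : ∀ i, c i ≠ 0 → w i ≠ 0 → B.coeff (2 ^ i) ≠ 0 := fun i ci wi => by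
    rw [hB]; exact mul_ne_zero (C_ne_zero.2 ci) (pow_ne_zero _ wi)
  have wm : w m ≠ 0 := fun e => by simpa [e] using unit m le_rfl cm
  have wd' : w d ≠ 0 := by rw [wd]; exact pow_ne_zero _ X_ne_zero
  have r0 : lg V (aeval V.τ (B.coeff 1)) = 0 := by
    have := rlg V.τ 0 c0
    rwa [lg_of_v_one (unit 0 (by omega) c0), mul_zero, pow_zero] at this
  have rm : lg V (aeval V.τ (B.coeff (2 ^ m))) = 0 := by
    rw [rlg V.τ m cm, lg_of_v_one (unit m le_rfl cm), mul_zero]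
  have sm : ∀ x, ev2 V.τ x B = 0 → V.v x < 1 → x = 0 := fun x z hx => by
    by_contra x0
    have hl := (v_lt_one_iff x0).1 hx
    obtain ⟨j, h1, h2, h3⟩ := tie_row V V.transcendental_τ x0 z h.sep
    obtain ⟨i, rfl, ci, -⟩ := row j h2
    have h4 : (2 : ℝ) ^ 1 ≤ 2 ^ i :=
      pow_le_pow_right₀ one_le_two (Nat.pos_of_ne_zero fun e => h1 (by rw [e, pow_zero]))
    have h5 : lg V (aeval V.τ (w i)) ≤ 0 := by
      by_cases e : i = d
      · rw [e, top]; linarith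
      · exact (lg_of_v_one (unit i (le i e ci) ci)).le
    rw [r0, rlg _ i ci, e2] at h3
    push_cast at h3
    nlinarith
  have big : ∀ x, ev2 V.τ x B = 0 → 1 < V.v x → 2 ^ Δ - 1 < lg V x := fun x z hx => by
    have x0 : x ≠ 0 := (V.v.ne_zero_iff).1 (zero_lt_one.trans hx).ne'
    have hl := (one_lt_v_iff x0).1 hx
    obtain ⟨j, h1, h2, h3⟩ := tie_row V V.transcendental_τ x0 z (ne m cm wm)
    obtain ⟨i, rfl, ci, -⟩ := row j h2
    rw [rm, rlg _ i ci, e2, e2] at h3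
    have h4 : (0 : ℝ) < 2 ^ m := by positivity
    by_cases e : i = d
    · rw [e, top] at h3
      have h5 : (0 : ℝ) < 2 ^ d := by positivity
      by_contra hn
      nlinarith
    · have h5 : i < m := lt_of_le_of_ne (le i e ci) fun e' => h1 (by rw [e'])
      have h6 : (2 : ℝ) ^ i < 2 ^ m := pow_lt_pow_right₀ one_lt_two h5
      rw [lg_of_v_one (unit i h5.le ci)] at h3
      nlinarith
  obtain ⟨y, n, hy, cy, hn, hn', wy, wo⟩ := N2.dom hΔ hm hmd hne cm cd cz w0 wd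
    fun i h1 h2 h3 => (wi i h1 h2 h3).1
  obtain ⟨h', hS, hR⟩ := clo_eq h V.transcendental_τ (bLe V 1) fun u t hu hZ ht hZ' => by
    rw [mem_bLe, map_one] at hZ hZ'
    have h1 := not_le.1 hZ
    have u0 : u ≠ 0 := (V.v.ne_zero_iff).1 (zero_lt_one.trans h1).ne'
    refine N2.modu V h.add hB cz' c0 w0 hy cy hn wy wo sm ?_ hu ht hZ'
    have h2 := big u hu h1
    have h3 : (n : ℝ) ≤ 2 ^ Δ - 1 := by rw [← hDr]; exact_mod_cast hn'
    rw [one_lt_v_iff (mul_ne_zero u0 (pow_ne_zero _ V.τ_ne)), lg_mul u0 (pow_ne_zero _ V.τ_ne),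
      lg_pow, lg_tau]
    linarith
  obtain ⟨θ, θ0, zθ, hθ⟩ := root_le V V.transcendental_τ (addIn_coeff_zero h.add) h.sep
    (Nat.one_lt_two_pow (by omega : m ≠ 0)) (ne m cm wm) (ρ := 0) (by rw [r0, rm]; simp)
  have hl : B.leadingCoeff = monomial ((2 ^ Δ - 1) * 2 ^ d) (c d) := by
    rw [(natDegree_of_top h.add (ne d cd wd') fun b hb => ?_).2, hB, wd, ← pow_mul,
      C_mul_X_pow_eq_monomial]
    by_contra hn
    exact hb (by rw [hB, cz' b (not_le.1 hn), map_zero, zero_mul])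
  refine bud1 V hS cd hl θ0 ((hR θ).2 ⟨zθ, ?_⟩) (fun u u0 z => ?_) fun u u0 z => ?_
  · rw [mem_bLe, map_one]; exact (v_le_one_iff θ0).2 hθ
  · have := ((hR u).1 z).2
    rw [mem_bLe, map_one] at this
    exact (v_le_one_iff u0).1 this
  · by_contra hn
    obtain ⟨j, h1, h2, h3⟩ := tie_row V (transcendental_tau_inv (V := V)) u0 z (ne d cd wd')
    obtain ⟨i, rfl, ci, w1⟩ := row j h2
    have hi : i ≤ m := le i (fun e => h1 (by rw [e])) ci
    rw [rlg _ d cd, rlg _ i ci, e2, e2, top', lg_aeval_tau_inv w1] at h3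
    have h4 : (2 : ℝ) ^ i ≤ 2 ^ d := pow_le_pow_right₀ one_le_two (by omega)
    have h5 : (2 : ℝ) ^ i * (w i).natDegree < 2 ^ d * (2 ^ Δ - 1) := by
      rcases Nat.eq_zero_or_pos i with rfl | h0
      · rw [w0, natDegree_one, Nat.cast_zero, mul_zero]
        exact mul_pos (by positivity) (by linarith)
      · rw [← hDr]; exact_mod_cast (wi i h0 hi ci).2
    nlinarith

end W48

end Pool.Agent.Lib.MP_346d6a_co
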