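import Pool.Agent.Lib.MP_346d6a_co.W48Pole
import Pool.Agent.Lib.MP_346d6a_co.W48N2

/-!
Normalised edges.
-/

set_option maxSynthPendingDepth 3

namespace Pool.Agent.Lib.MP_346d6a_co

open Polynomial

namespace W48

open W28

variable {k : Type} [Field k] [IsAlgClosed k] [CharP k 2] {φ : k ≃+* k}

namespace Ne

theorem arith {i t Δ m : ℕ} (hi : 1 ≤ i) (ht : 1 ≤ t) (hΔ : 1 ≤ Δ)
    (h : ((2 : ℤ) ^ (i + t + Δ) - 2 ^ i * m) * (2 ^ (i + t) - 1) =
      (2 ^ (i + t + Δ) - 1) * (2 ^ (i + t) - 2 ^ i)) :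
    ∃ o : ℕ, Odd o ∧ m = 1 + 2 ^ t * o ∧ o < 2 ^ Δ - 1 ∧ Δ ≠ t := by
  have two : ∀ n : ℕ, 1 ≤ n → (2 : ℤ) ≤ 2 ^ n ∧ Odd ((2 : ℤ) ^ n - 1) := fun n hn =>
    ⟨by simpa using pow_le_pow_right₀ (one_le_two (α := ℤ)) hn,
      ((Int.even_pow.2 ⟨even_two, by omega⟩).sub_odd odd_one)⟩
  obtain ⟨a1, a2⟩ := two i hi
  obtain ⟨b1, -⟩ := two t ht
  obtain ⟨c1, c2⟩ := two Δ hΔ
  obtain ⟨-, d2⟩ := two (i + t) (by omega)
  have h1 : ((m : ℤ) - 1) * (2 ^ (i + t) - 1) = 2 ^ t * ((2 ^ i - 1) * (2 ^ Δ - 1)) := by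
    refine mul_left_cancel₀ (pow_ne_zero i (two_ne_zero (α := ℤ))) ?_
    rw [pow_add, pow_add] at h
    rw [pow_add]
    linear_combination -h
  have hc : IsCoprime ((2 : ℤ) ^ t) (2 ^ (i + t) - 1) :=
    ⟨2 ^ i, -1, by rw [pow_add]; ring⟩
  obtain ⟨o, ho⟩ := hc.dvd_of_dvd_mul_right ⟨_, h1⟩
  have h2 : o * (2 ^ (i + t) - 1) = (2 ^ i - 1) * (2 ^ Δ - 1) := by
    refine mul_left_cancel₀ (pow_ne_zero t (two_ne_zero (α := ℤ))) ?_
    rw [← h1, ho]; ring
  have h3 : Odd o := (Int.odd_mul.1 (h2 ▸ a2.mul c2)).1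
  rw [pow_add] at h2
  have h4 : 0 < o := by
    by_contra hn
    have : o * (2 ^ i * 2 ^ t - 1) ≤ 0 :=
      mul_nonpos_of_nonpos_of_nonneg (not_lt.1 hn) (by nlinarith)
    nlinarith
  have h5 : o < 2 ^ Δ - 1 := by
    by_contra hn
    have : (2 ^ Δ - 1) * (2 ^ i * 2 ^ t - 1) ≤ o * (2 ^ i * 2 ^ t - 1) :=
      mul_le_mul_of_nonneg_right (not_lt.1 hn) (by nlinarith)
    have h6 : (0 : ℤ) < (2 ^ Δ - 1) * (2 ^ i * (2 ^ t - 1)) :=
      mul_pos (by linarith) (mul_pos (by linarith) (by linarith))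
    nlinarith
  lift o to ℕ using h4.le
  refine ⟨o, by exact_mod_cast h3, ?_, ?_, ?_⟩
  · have : (m : ℤ) = 1 + 2 ^ t * o := by linarith
    exact_mod_cast this
  · have h6 : 1 ≤ 2 ^ Δ := Nat.one_le_two_pow
    zify [h6]
    exact h5
  · rintro rfl
    have : 1 * (2 ^ i * 2 ^ Δ - 1) ≤ (o : ℤ) * (2 ^ i * 2 ^ Δ - 1) :=
      mul_le_mul_of_nonneg_right h4 (by nlinarith)
    nlinarith

omit [IsAlgClosed k] in
theorem two_pow_cast {n : ℕ} (hn : 1 ≤ n) : ((2 ^ n : ℕ) : k[X]) = 0 := by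
  rw [Nat.cast_pow, Nat.cast_ofNat, CharTwo.two_eq_zero, zero_pow (by omega)]

omit [IsAlgClosed k] in
theorem odd_cast {n : ℕ} (hn : Odd n) : (n : k) = 1 := by
  obtain ⟨a, rfl⟩ := hn
  rw [Nat.cast_add, Nat.cast_mul, Nat.cast_ofNat, CharTwo.two_eq_zero, zero_mul, zero_add,
    Nat.cast_one]

variable (k) in
/-- The polynomial `1 + (1 + X) ^ m` divided by `X`. -/
noncomputable def ww (m : ℕ) : k[X] := divX (1 + (1 + X) ^ m)

omit [IsAlgClosed k] in
theorem X_mul_ww (m : ℕ) : X * ww k m = 1 + (1 + X) ^ m := by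
  have := X_mul_divX_add (1 + (1 + X) ^ m : k[X])
  rwa [coeff_zero_eq_eval_zero, eval_add, eval_pow, eval_add, eval_one, eval_X, add_zero, one_pow,
    CharTwo.add_self_eq_zero, map_zero, add_zero] at this

omit [IsAlgClosed k] in
theorem ww_one : ww k 1 = 1 := by
  refine mul_left_cancel₀ X_ne_zero ?_
  rw [X_mul_ww, pow_one, ← add_assoc, CharTwo.add_self_eq_zero, zero_add, mul_one]

omit [IsAlgClosed k] in
theorem ww_map (ψ : k →+* k) (m : ℕ) : (ww k m).map ψ = ww k m := by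
  refine mul_left_cancel₀ X_ne_zero ?_
  have := congrArg (Polynomial.map ψ) (X_mul_ww (k := k) m)
  rw [Polynomial.map_mul, map_X] at this
  rw [this, X_mul_ww]
  simp

omit [IsAlgClosed k] [CharP k 2] in
theorem ww_natDegree (m : ℕ) : (ww k m).natDegree ≤ m - 1 := by
  rw [ww, natDegree_divX_eq_natDegree_tsub_one]
  refine Nat.sub_le_sub_right ((natDegree_add_le _ _).trans (max_le (by simp) ?_)) 1
  refine natDegree_pow_le.trans ?_
  have : (1 + X : k[X]).natDegree ≤ 1 := (natDegree_add_le _ _).trans (by simp)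
  simpa using Nat.mul_le_mul_left m this

omit [IsAlgClosed k] in
theorem ww_form (t : ℕ) {o : ℕ} (ho : Odd o) :
    ∃ r : k[X], ww k (1 + 2 ^ t * o) = 1 + X ^ (2 ^ t - 1) + X ^ 2 ^ t * r := by
  obtain ⟨a, rfl⟩ := ho
  obtain ⟨q, hq⟩ : ∃ q, 2 ^ t = q + 1 := ⟨2 ^ t - 1, (Nat.sub_add_cancel Nat.one_le_two_pow).symm⟩
  have h1 : (1 + X : k[X]) ^ 2 ^ t = 1 + X ^ (q + 1) := by
    rw [add_pow_char_pow, one_pow, hq]
  obtain ⟨s, hs⟩ : ∃ s : k[X], (1 + (X ^ (q + 1)) ^ 2) ^ a = 1 + (X ^ (q + 1)) ^ 2 * s := by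
    obtain ⟨s, hs⟩ := sub_dvd_pow_sub_pow (1 + (X ^ (q + 1)) ^ 2 : k[X]) 1 a
    exact ⟨s, by rw [one_pow, add_sub_cancel_left] at hs; rw [← hs]; ring⟩
  have h2 : (1 + X ^ (q + 1) : k[X]) ^ (2 * a) = 1 + (X ^ (q + 1)) ^ 2 * s := by
    rw [pow_mul, CharTwo.add_sq, one_pow, hs]
  refine ⟨1 + X ^ q * (1 + X) * (1 + X ^ (q + 1)) * s, mul_left_cancel₀ X_ne_zero ?_⟩
  rw [X_mul_ww, pow_add, pow_mul, h1, pow_succ _ (2 * a), h2, hq, Nat.add_sub_cancel]
  linear_combination (CharTwo.two_eq_zero : (2 : k[X]) = 0)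

end Ne

/-- A normalised edge `∑ c i (T (1 + z ^ m i)) ^ 2 ^ i + c d T ^ 2 ^ d (1 + z) ^ 2 ^ e` without
fixed roots has `m i = 1` for all `i`. -/
theorem nedge (I : Finset ℕ) (c : ℕ → k) (m : ℕ → ℕ) {d e : ℕ} (he : 1 ≤ e) (h0 : 0 ∈ I)
    (hI : ∀ i ∈ I, i < d ∧ c i ≠ 0 ∧ φ (c i) = c i ∧ Odd (m i) ∧
      ((2 : ℤ) ^ e - 2 ^ i * m i) * (2 ^ d - 1) = (2 ^ e - m 0) * (2 ^ d - 2 ^ i))
    (cd : c d ≠ 0) (fd : φ (c d) = c d)
    (hf : ∀ (Ω : Type) [Field Ω] [IsAlgClosed Ω] [Algebra k Ω] (g : Ω ≃+* Ω), Ov φ g →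
      ∀ z T : Ω, Transcendental k z → g z = z → g T = T →
      ∑ i ∈ I, algebraMap k Ω (c i) * (T * (1 + z ^ m i)) ^ 2 ^ i +
        algebraMap k Ω (c d) * T ^ 2 ^ d * (1 + z) ^ 2 ^ e = 0 → T = 0) :
    ∀ i ∈ I, m i = 1 := by
  classical
  have hd : d ∉ I := fun h => lt_irrefl _ (hI d h).1
  have top : ∀ r : ℕ → k[X], r d ≠ 0 → (PB (insert d I) r).leadingCoeff = r d := fun r hr => by
    have h1 : (PB (insert d I) r).coeff (2 ^ d) = r d := by
      rw [coeff_PB, if_pos (Finset.mem_insert_self _ _)]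
    rw [← h1]
    refine (natDegree_of_top (addIn_PB _ _) (h1 ▸ hr) fun b hb => ?_).2
    rw [coeff_PB] at hb
    split_ifs at hb with h2
    · rcases Finset.mem_insert.1 h2 with rfl | h2
      · exact le_rfl
      · exact (hI b h2).1.le
    · exact absurd rfl hb
  obtain ⟨d0, c0, -, o0, -⟩ := hI 0 h0
  have m0 : m 0 = 1 := by
    by_contra hm
    have hm1 : 1 < m 0 := by have := o0.pos; omega
    have : NeZero ((m 0 : ℕ) : k) := ⟨by rw [Ne.odd_cast o0]; exact one_ne_zero⟩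
    obtain ⟨ζ, hζ⟩ := HasEnoughRootsOfUnity.exists_primitiveRoot k (m 0)
    let r : ℕ → k[X] := fun i =>
      if i = d then C (c d) * (1 + X) ^ 2 ^ e else C (c i) * (1 + X ^ m i) ^ 2 ^ i
    have rd : r d = C (c d) * (1 + X) ^ 2 ^ e := if_pos rfl
    have ri : ∀ i ∈ I, r i = C (c i) * (1 + X ^ m i) ^ 2 ^ i := fun i hi => if_neg (hI i hi).1.ne
    have r1 : (PB (insert d I) r).coeff 1 = C (c 0) * (1 + X ^ m 0) := by
      have := coeff_PB (insert d I) r 0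
      rwa [pow_zero, if_pos (Finset.mem_insert_of_mem h0), ri 0 h0, pow_zero, pow_one] at this
    have z1 : (1 + ζ : k) ≠ 0 := fun h =>
      hζ.ne_one hm1 (by rw [← CharTwo.neg_eq ζ]; exact (neg_eq_of_add_eq_zero_left h))
    have rdz : (r d).eval ζ ≠ 0 := by
      rw [rd]; simpa using ⟨cd, z1⟩
    have d1 : (derivative ((PB (insert d I) r).coeff 1)).eval ζ ≠ 0 := by
      rw [r1, derivative_C_mul, derivative_add, derivative_one, zero_add, derivative_X_pow,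
        Ne.odd_cast o0]
      simpa using ⟨c0, fun h => absurd h (hζ.ne_zero (by omega))⟩
    refine zero (φ := φ) (B := PB (insert d I) r) (κ := ζ) ⟨addIn_PB _ _, fun h => d1 (by simp [h]),
      mp2_PB _ _ _ fun i hi => ?_, fun Ω _ _ _ g hg s u hs gs gu z => ?_⟩ ?_ d1 (fun i hi => ?_) ?_
    · rcases Finset.mem_insert.1 hi with rfl | hi
      · simp [rd, fd]
      · simp [ri i hi, (hI i hi).2.2.1]
    · refine hf Ω g hg s u hs gs gu ?_
      rw [ev2_PB, Finset.sum_insert hd, add_comm, rd] at z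
      rw [← z]
      congr 1
      · refine Finset.sum_congr rfl fun i hi => ?_
        simp only [ri i hi, map_mul, map_pow, map_add, map_one, aeval_C, aeval_X, mul_pow]
        ring
      · simp only [map_mul, map_pow, map_add, map_one, aeval_C, aeval_X]
        ring
    · rw [r1]; simp [hζ.pow_eq_one, CharTwo.add_self_eq_zero]
    · by_cases h1 : (PB (insert d I) r).coeff i = 0
      · simp [h1]
      obtain ⟨b, rfl⟩ := addIn_PB _ _ i h1
      have hb : 1 ≤ b := Nat.pos_of_ne_zero fun h => hi (by rw [h, pow_zero])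
      rw [coeff_PB] at h1 ⊢
      split_ifs at h1 ⊢ with h2
      · rcases Finset.mem_insert.1 h2 with rfl | h2
        · rw [rd, derivative_C_mul, derivative_pow, map_natCast, Ne.two_pow_cast he]; simp
        · rw [ri b h2, derivative_C_mul, derivative_pow, map_natCast, Ne.two_pow_cast hb]; simp
      · exact absurd rfl h1
    · rwa [top r fun h => rdz (by rw [h, eval_zero])]
  by_contra hcon
  push Not at hcon
  obtain ⟨j, hj, mj⟩ := hcon
  have j1 : 1 ≤ j := Nat.pos_of_ne_zero fun h => mj (by rw [h, m0])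
  have de : d < e := by
    obtain ⟨jd, -, -, oj, h⟩ := hI j hj
    rw [m0, Nat.cast_one] at h
    have h1 : (2 : ℤ) ≤ m j := by have := oj.pos; omega
    have h2 : (1 : ℤ) < 2 ^ d := one_lt_pow₀ one_lt_two (by omega)
    have h3 : (1 : ℤ) < 2 ^ j := one_lt_pow₀ one_lt_two (by omega)
    have h4 : (0 : ℤ) < 2 ^ j * ((m j - 1) * (2 ^ d - 1)) :=
      mul_pos (by linarith) (mul_pos (by linarith) (by linarith))
    have h5 : (0 : ℤ) < (2 ^ j - 1) * (2 ^ e - 2 ^ d) := by linarith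
    have h6 := (pos_iff_pos_of_mul_pos h5).1 (by linarith)
    exact (pow_lt_pow_iff_right₀ (one_lt_two (α := ℤ))).1 (by linarith)
  obtain ⟨Δ, rfl⟩ := Nat.exists_eq_add_of_le de.le
  have hΔ : 1 ≤ Δ := by omega
  have ar : ∀ i ∈ I, 1 ≤ i →
      ∃ o : ℕ, Odd o ∧ m i = 1 + 2 ^ (d - i) * o ∧ o < 2 ^ Δ - 1 ∧ Δ ≠ d - i := fun i hi h1 => by
    obtain ⟨id, -, -, -, h⟩ := hI i hi
    refine Ne.arith h1 (by omega) hΔ ?_
    rwa [m0, Nat.cast_one, ← Nat.add_sub_cancel' id.le] at h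
  let M := I.max' ⟨0, h0⟩
  have hM : M ∈ I := I.max'_mem _
  have M1 : 1 ≤ M := j1.trans (I.le_max' j hj)
  let c' : ℕ → k := fun i => if i ∈ insert d I then c i else 0
  let w : ℕ → k[X] := fun i => if i = d then X ^ (2 ^ Δ - 1) else Ne.ww k (m i)
  have wd : w d = X ^ (2 ^ Δ - 1) := if_pos rfl
  have wi : ∀ i ∈ I, w i = Ne.ww k (m i) := fun i hi => if_neg (hI i hi).1.ne
  have ci : ∀ i ∈ I, c' i = c i := fun i hi => if_pos (Finset.mem_insert_of_mem hi)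
  have cd' : c' d = c d := if_pos (Finset.mem_insert_self _ _)
  have hB : ∀ i, (PB (insert d I) fun i => C (c i) * w i ^ 2 ^ i).coeff (2 ^ i) =
      C (c' i) * w i ^ 2 ^ i := fun i => by
    rw [coeff_PB]
    simp only [c']
    split_ifs <;> simp
  have w0 : w 0 = 1 := by rw [wi 0 h0, m0, Ne.ww_one]
  refine n2core (φ := φ) (B := PB (insert d I) fun i => C (c i) * w i ^ 2 ^ i)
    ⟨addIn_PB _ _, ?_, mp2_PB _ _ _ fun i hi => ?_, fun Ω _ _ _ g hg s u hs gs gu z => ?_⟩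
    hΔ M1 (hI M hM).1 ?_ c' w hB (by rwa [ci 0 h0]) (by rw [ci M hM]; exact (hI M hM).2.1)
    (by rwa [cd']) (fun i h1 h2 => if_neg fun h3 => ?_) w0 wd fun i h1 _ h3 => ?_
  · have := hB 0
    rw [pow_zero] at this
    rw [this, w0, ci 0 h0]
    simpa using c0
  · rcases Finset.mem_insert.1 hi with rfl | hi
    · simp [wd, fd]
    · simp [wi i hi, (hI i hi).2.2.1, Ne.ww_map]
  · have := charP k Ω
    have s0 : s ≠ 0 := fun h => hs (h ▸ isAlgebraic_zero)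
    have t1 : Transcendental k (1 + s) := fun h => hs (by simpa using h.sub isAlgebraic_one)
    have h1 := hf Ω g hg (1 + s) (u / s) t1 (by rw [map_add, map_one, gs])
      (by rw [map_div₀, gu, gs]) ?_
    · exact (div_eq_zero_iff.1 h1).resolve_right s0
    rw [ev2_PB, Finset.sum_insert hd, add_comm, wd] at z
    rw [← z]
    congr 1
    · refine Finset.sum_congr rfl fun i hi => ?_
      have h2 := congrArg (aeval s) (Ne.X_mul_ww (k := k) (m i))
      simp only [map_mul, map_pow, map_add, map_one, aeval_X] at h2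
      rw [← h2, wi i hi, map_mul, map_pow, aeval_C, mul_assoc, ← mul_pow]
      congr 2
      field_simp
    · obtain ⟨q, hq⟩ : ∃ q, 2 ^ Δ = q + 1 :=
        ⟨2 ^ Δ - 1, (Nat.sub_add_cancel Nat.one_le_two_pow).symm⟩
      rw [← add_assoc, CharTwo.add_self_eq_zero, zero_add, pow_add, mul_comm (2 ^ d), pow_mul, hq,
        Nat.add_sub_cancel, map_mul, map_pow, map_pow, aeval_C, aeval_X, mul_assoc, mul_assoc,
        ← mul_pow, ← mul_pow]
      congr 2
      field_simp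
      ring
  · obtain ⟨o, -, -, -, h⟩ := ar M hM M1
    omega
  · rcases Finset.mem_insert.1 h3 with h3 | h3
    · exact h2 h3
    · exact absurd (I.le_max' i h3) (not_le.2 h1)
  · have hi : i ∈ I := by
      have h4 : i ∈ insert d I := by
        by_contra h4
        exact h3 (if_neg h4)
      refine (Finset.mem_insert.1 h4).resolve_left ?_
      have := (hI M hM).1
      omega
    obtain ⟨o, o1, o2, o3, -⟩ := ar i hi h1
    rw [wi i hi, o2]
    refine ⟨Ne.ww_form _ o1, ?_⟩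
    have h4 := Ne.ww_natDegree (k := k) (1 + 2 ^ (d - i) * o)
    rw [Nat.add_sub_cancel_left] at h4
    calc 2 ^ i * (Ne.ww k (1 + 2 ^ (d - i) * o)).natDegree ≤ 2 ^ i * (2 ^ (d - i) * o) :=
          Nat.mul_le_mul_left _ h4
      _ = 2 ^ d * o := by rw [← mul_assoc, ← pow_add, Nat.add_sub_cancel' (hI i hi).1.le]
      _ < 2 ^ d * (2 ^ Δ - 1) := Nat.mul_lt_mul_of_pos_left o3 (by positivity)

end W48

end Pool.Agent.Lib.MP_346d6a_co
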