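import Pool.Agent.Lib.MP_346d6a_co.W48Pole
import Pool.Agent.Lib.MP_346d6a_co.W48F2

/-!
The odd part of the left end of an edge divides the right end.
-/

set_option maxSynthPendingDepth 3

namespace Pool.Agent.Lib.MP_346d6a_co

open Polynomial

namespace W48

open W28

variable {k : Type} [Field k] [IsAlgClosed k] [CharP k 2] {φ : k ≃+* k} {f : k[X]}

theorem two_adic {μ W : ℚ} {a v m t D c E : ℕ} (ha1 : ((2 ^ v * m : ℕ) : ℚ) + μ * 2 ^ a = W)
    (hm : Odd m) (ht1 : (D : ℚ) + μ * 2 ^ t = W) (hat : a < t) (hv : 2 ^ (v + 1) ∣ D) (hac : a < c)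
    (hE : (E : ℚ) + μ * 2 ^ c = W) : 2 ^ (v + 1) ∣ E := by
  obtain ⟨D₁, rfl⟩ := hv
  obtain ⟨x, rfl⟩ := Nat.exists_eq_add_of_lt hat
  obtain ⟨y, rfl⟩ := Nat.exists_eq_add_of_lt hac
  have h1 : ((E : ℤ) - 2 ^ v * m) * (2 ^ (x + 1) - 1) =
      2 ^ v * ((2 * D₁ - m) * (2 ^ (y + 1) - 1)) := by
    have h2 : (2 : ℚ) ^ a ≠ 0 := by positivity
    have : ((E : ℚ) - 2 ^ v * m) * (2 ^ (x + 1) - 1) =
        2 ^ v * ((2 * D₁ - m) * (2 ^ (y + 1) - 1)) := by
      push_cast at ha1 ht1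
      rw [add_assoc, pow_add] at ht1 hE
      rw [pow_succ] at ht1
      linear_combination (2 ^ (x + 1) - 1) * (hE - ha1) - (2 ^ (y + 1) - 1) * (ht1 - ha1)
    exact_mod_cast this
  have o : ∀ z : ℕ, Odd ((2 : ℤ) ^ (z + 1) - 1) := fun z =>
    (Int.even_pow.2 ⟨even_two, z.succ_ne_zero⟩).sub_odd odd_one
  have hm' : Odd (m : ℤ) := by exact_mod_cast hm
  obtain ⟨e, he⟩ : (2 : ℤ) ^ v ∣ (E : ℤ) - 2 ^ v * m :=
    ((Int.isCoprime_two_left.2 (o x)).pow_left).dvd_of_dvd_mul_right ⟨_, h1⟩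
  rw [he, mul_assoc] at h1
  have h3 : Odd (e * (2 ^ (x + 1) - 1)) := by
    rw [mul_left_cancel₀ (by positivity) h1]
    exact ((even_two_mul _).sub_odd hm').mul (o y)
  obtain ⟨w, hw⟩ := (Int.odd_mul.1 h3).1.add_odd hm'
  have : (2 : ℤ) ^ (v + 1) ∣ (E : ℤ) := ⟨w, by rw [pow_succ]; linear_combination he + 2 ^ v * hw⟩
  exact_mod_cast this

theorem n1p (hc : Ctx φ f) (hl : ∀ e, f.coeff e ≠ 0 → ¬ Lin e) {μ W : ℚ} (hμ : μ < 1)
    (hb : ∀ a D, Cand1 f.support a D → (D : ℚ) + μ * 2 ^ a ≤ W) {a v m t D : ℕ}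
    (ha : Cand1 f.support a (2 ^ v * m)) (ha1 : ((2 ^ v * m : ℕ) : ℚ) + μ * 2 ^ a = W) (hm : Odd m)
    (ht : Cand1 f.support t D) (ht1 : (D : ℚ) + μ * 2 ^ t = W) (hat : a < t)
    (hr : ∀ c E, Cand1 f.support c E → (E : ℚ) + μ * 2 ^ c = W → a ≤ c ∧ c ≤ t)
    (hv : 2 ^ (v + 1) ∣ D) : m ∣ D := by
  classical
  by_contra hn
  have hav : a + 1 ≤ v := (Nat.pow_dvd_pow_iff_le_right one_lt_two).1
    ((Nat.Coprime.pow_left _ (Nat.coprime_two_left.2 hm)).dvd_of_dvd_mul_right ha.2)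
  obtain ⟨κ, rfl⟩ : ∃ κ, v = κ + a := ⟨v - a, by omega⟩
  let On : ℕ → ℕ → Prop := fun c E => Cand1 f.support c E ∧ (E : ℚ) + μ * 2 ^ c = W
  have uniq : ∀ c E E', On c E → On c E' → E = E' := fun c E E' h h' => by
    exact_mod_cast add_right_cancel (h.2.trans h'.2.symm)
  let DE : ℕ → ℕ := fun c => if h : ∃ E, On c E then h.choose else 0
  have hDE : ∀ c E, On c E → DE c = E := fun c E h => by
    have h' : ∃ E, On c E := ⟨E, h⟩
    exact uniq c _ _ (by simp only [DE, dif_pos h']; exact h'.choose_spec) h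
  let I := (Finset.range (t + 1)).filter fun i => On (i + a) (DE (i + a))
  have hI : ∀ i E, On (i + a) E → i ∈ I := fun i E h => Finset.mem_filter.2
    ⟨Finset.mem_range.2 (by have := (hr _ _ h.1 h.2).2; omega), (hDE _ _ h).symm ▸ h⟩
  have hI' : ∀ i ∈ I, On (i + a) (DE (i + a)) := fun i hi => (Finset.mem_filter.1 hi).2
  let cc : ℕ → k := fun i =>
    (iterateFrobeniusEquiv k 2 a).symm (f.coeff (DE (i + a) + 2 ^ (i + a)))
  have hcc : ∀ i, cc i ^ 2 ^ a = f.coeff (DE (i + a) + 2 ^ (i + a)) := fun i =>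
    (iterateFrobeniusEquiv k 2 a).apply_symm_apply _
  have hc0 : ∀ i ∈ I, cc i ≠ 0 := fun i hi e => mem_support_iff.1 (hI' i hi).1.1 (by
    rw [← hcc, e, zero_pow (by positivity)])
  have hφ : ∀ i, φ (cc i) = cc i := fun i => (iterateFrobeniusEquiv k 2 a).injective (by
    change φ (cc i) ^ 2 ^ a = cc i ^ 2 ^ a
    rw [← map_pow, hcc]
    conv_rhs => rw [← hc.fix, coeff_map]
    rfl)
  let r : ℕ → k[X] := fun i => C (cc i) * (1 + X ^ (DE (i + a) / 2 ^ (κ + a)))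
  have h0 : 0 ∈ I := hI 0 _ (by rw [zero_add]; exact ⟨ha, ha1⟩)
  have e0 : DE (0 + a) = 2 ^ (κ + a) * m := hDE _ _ (by rw [zero_add]; exact ⟨ha, ha1⟩)
  have r0 : r 0 = C (cc 0) * (1 + X ^ m) := by
    simp only [r, e0, Nat.mul_div_cancel_left _ (pow_pos two_pos _)]
  have ev : ∀ i ∈ I, i ≠ 0 → 2 ^ (κ + a + 1) ∣ DE (i + a) := fun i hi h =>
    two_adic ha1 hm ht1 hat hv (by omega) (hI' i hi).2
  have dv : ∀ i ∈ I, 2 ^ (κ + a) ∣ DE (i + a) := fun i hi => by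
    rcases eq_or_ne i 0 with rfl | h
    · rw [e0]; exact dvd_mul_right _ _
    · exact (pow_dvd_pow _ (Nat.le_succ _)).trans (ev i hi h)
  have : NeZero (m : k) := ⟨fun e => Nat.not_even_iff_odd.2 hm
    (even_iff_two_dvd.2 ((CharP.cast_eq_zero_iff k 2 m).1 e))⟩
  have : NeZero m := ⟨hm.pos.ne'⟩
  obtain ⟨ζ, hζ⟩ := HasEnoughRootsOfUnity.exists_primitiveRoot k m
  have c1 : (PB I r).coeff 1 = C (cc 0) * (1 + X ^ m) := by
    have := coeff_PB I r 0
    rwa [pow_zero, if_pos h0, r0] at this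
  have d1 : (derivative ((PB I r).coeff 1)).eval ζ ≠ 0 := by
    rw [c1]
    simp [hc0 0 h0, NeZero.ne (m : k), hζ.ne_zero hm.pos.ne', derivative_X_pow]
  have ta : t - a + a = t := by omega
  have tI : t - a ∈ I := hI _ D (by rw [ta]; exact ⟨ht, ht1⟩)
  have rt : (r (t - a)).eval ζ ≠ 0 := by
    simp only [r, ta, hDE t D ⟨ht, ht1⟩, eval_mul, eval_C, eval_add, eval_one, eval_pow, eval_X]
    refine mul_ne_zero (hc0 _ tI) fun e => hn ?_
    rw [CharTwo.add_eq_zero, eq_comm, hζ.pow_eq_one_iff_dvd] at e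
    exact e.trans (Nat.div_dvd_of_dvd ((pow_dvd_pow _ (Nat.le_succ _)).trans hv))
  refine zero (φ := φ) (B := PB I r) (κ := ζ) ⟨addIn_PB I r, fun e => d1 (by simp [e]),
    mp2_PB _ _ _ fun i _ => by simp [r, hφ], fun Ω _ _ _ g hg z' T hz gz gT h => ?_⟩ ?_ d1
    (fun i hi => ?_) ?_
  · have := charP k Ω
    obtain ⟨z, rfl⟩ := IsAlgClosed.exists_pow_nat_eq z' (pow_pos two_pos κ)
    refine f2 hc hl hμ hb (I.image fun i => (i + a, DE (i + a))) (fun c E => ?_)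
      (Finset.Nonempty.image ⟨0, h0⟩ _) Ω g hg (z := z) (fun e => hz (e.pow _))
      ((iterateFrobenius Ω 2 κ).injective (by
        change g z ^ 2 ^ κ = z ^ 2 ^ κ
        rwa [← map_pow])) gT ?_
    · rw [Finset.mem_image]
      constructor
      · rintro ⟨i, hi, e⟩
        obtain ⟨rfl, rfl⟩ := Prod.mk.inj e
        exact hI' i hi
      · intro h
        obtain ⟨i, rfl⟩ : ∃ i, c = i + a := ⟨c - a, by have := (hr _ _ h.1 h.2).1; omega⟩
        exact ⟨i, hI i E h, by rw [hDE _ _ h]⟩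
    · rw [Finset.sum_image fun i _ j _ e => add_right_cancel (Prod.mk.inj e).1]
      have h2 := congrArg (· ^ 2 ^ a) h
      simp only [ev2_PB, sum_pow_char_pow, zero_pow (pow_pos two_pos a).ne'] at h2
      rw [← h2]
      refine Finset.sum_congr rfl fun i hi => ?_
      obtain ⟨E, hE⟩ := dv i hi
      simp only [r, map_mul, map_add, map_one, map_pow, aeval_C, aeval_X, mul_pow,
        add_pow_char_pow, one_pow, ← pow_mul, ← hcc]
      rw [hE, Nat.mul_div_cancel_left _ (pow_pos two_pos _)]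
      congr 3 <;> ring
  · rw [c1]
    simp [hζ.pow_eq_one, CharTwo.add_self_eq_zero]
  · by_cases e : (PB I r).coeff i = 0
    · simp [e]
    obtain ⟨j, rfl⟩ := addIn_PB I r i e
    rw [coeff_PB] at e ⊢
    split_ifs at e ⊢ with hj
    · obtain ⟨E, hE⟩ := ev j hj (by rintro rfl; exact hi rfl)
      have : ((2 * E : ℕ) : k) = 0 := (CharP.cast_eq_zero_iff k 2 _).2 (dvd_mul_right _ _)
      simp only [r]
      rw [hE, pow_succ, mul_assoc, Nat.mul_div_cancel_left _ (pow_pos two_pos _), derivative_C_mul,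
        derivative_add, derivative_one, derivative_X_pow, this]
      simp
    · exact absurd rfl e
  · rw [(natDegree_of_top (addIn_PB I r) (M := t - a) (by
      rw [coeff_PB, if_pos tI]
      exact fun e => rt (by rw [e, eval_zero])) fun b hb => ?_).2, coeff_PB, if_pos tI]
    · exact rt
    · rw [coeff_PB] at hb
      split_ifs at hb with hj
      · have := (hr _ _ (hI' b hj).1 (hI' b hj).2).2
        omega
      · exact absurd rfl hb

end W48

end Pool.Agent.Lib.MP_346d6a_co
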