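import Pool.Agent.Lib.MP_346d6a_co.W48Def
import Pool.Agent.Lib.MP_346d6a_co.W28Col

/-!
Newton polygons: existence of small and large roots.
-/

set_option maxSynthPendingDepth 3

namespace Pool.Agent.Lib.MP_346d6a_co

open Polynomial

namespace W48

open W28

variable {k Ω : Type} [Field k] [Field Ω] [Algebra k Ω] (V : Val k Ω)

namespace NP

/-- The size with a given logarithm. -/
noncomputable def sz (t : ℝ) : NNReal := (V.v V.τ)⁻¹ ^ t

theorem one_lt_base : 1 < (V.v V.τ)⁻¹ := (one_lt_inv₀ V.τ_pos).2 V.τ_lt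

theorem sz_add (t t' : ℝ) : sz V (t + t') = sz V t * sz V t' :=
  NNReal.rpow_add (zero_lt_one.trans (one_lt_base V)).ne' t t'

theorem sz_pow (t : ℝ) (n : ℕ) : sz V t ^ n = sz V (n * t) := by
  rw [sz, sz, mul_comm, NNReal.rpow_mul, NNReal.rpow_natCast]

theorem sz_le {t t' : ℝ} : sz V t ≤ sz V t' ↔ t ≤ t' := by
  rw [sz, sz, ← NNReal.coe_le_coe, NNReal.coe_rpow, NNReal.coe_rpow]
  exact Real.rpow_le_rpow_left_iff (by exact_mod_cast one_lt_base V)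

theorem sz_lg {x : Ω} (hx : x ≠ 0) : sz V (lg V x) = V.v x := by
  have h1 : (1 : ℝ) < ((V.v V.τ : ℝ))⁻¹ := by exact_mod_cast one_lt_base V
  rw [← NNReal.coe_inj, sz, NNReal.coe_rpow, NNReal.coe_inv]
  exact Real.rpow_logb (zero_lt_one.trans h1) h1.ne' (v_pos hx)

/-- The coefficients of a product of linear factors. -/
theorem key (R : NNReal) (M : Multiset Ω) : ∀ j : ℕ,
    V.v ((M.map fun a => X - C a).prod.coeff j) * R ^ j ≤
      (M.map fun y => max (V.v y) R).prod := by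
  induction M using Multiset.induction_on with
  | empty =>
    intro j
    rcases j with _ | j
    · simp
    · simp [coeff_one]
  | cons a M ih =>
    intro j
    rw [Multiset.map_cons, Multiset.prod_cons, Multiset.map_cons, Multiset.prod_cons]
    have h1 : ∀ i, V.v (a * (M.map fun a => X - C a).prod.coeff i) * R ^ i ≤
        max (V.v a) R * (M.map fun y => max (V.v y) R).prod := fun i => by
      rw [map_mul, mul_assoc]
      exact mul_le_mul' (le_max_left _ _) (ih i)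
    rcases j with _ | j
    · rw [mul_coeff_zero]
      simpa using h1 0
    · rw [coeff_X_sub_C_mul]
      refine (mul_le_mul_left (V.v.map_sub _ _) _).trans ?_
      rw [max_mul]
      refine max_le ?_ (h1 (j + 1))
      rw [pow_succ, ← mul_assoc, mul_comm]
      exact mul_le_mul' (le_max_right _ _) (ih j)

theorem key' [IsAlgClosed Ω] (R : NNReal) (p : Polynomial Ω) (j : ℕ) :
    V.v (p.coeff j) * R ^ j ≤
      V.v p.leadingCoeff * (p.roots.map fun y => max (V.v y) R).prod := by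
  conv_lhs => rw [← C_leadingCoeff_mul_prod_multiset_X_sub_C
    (IsAlgClosed.card_roots_eq_natDegree (p := p)), coeff_C_mul, map_mul, mul_assoc]
  exact mul_le_mul_right (key V R p.roots j) _

theorem v_zero [IsAlgClosed Ω] (p : Polynomial Ω) :
    V.v (p.coeff 0) = V.v p.leadingCoeff * (p.roots.map fun y => V.v y).prod := by
  conv_lhs => rw [← C_leadingCoeff_mul_prod_multiset_X_sub_C
    (IsAlgClosed.card_roots_eq_natDegree (p := p)), coeff_C_mul, map_mul,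
    coeff_zero_multiset_prod, map_multiset_prod, Multiset.map_map, Multiset.map_map]
  simp

theorem finite_roots {p : Polynomial Ω} (hp : p ≠ 0) : {y : Ω | y ≠ 0 ∧ p.eval y = 0}.Finite := by
  classical
  exact (p.roots.toFinset.finite_toSet).subset fun y hy => by
    simpa [hp] using hy.2

theorem min_root {p : Polynomial Ω} (hp : p ≠ 0) {y : Ω} (hy : y ≠ 0) (z : p.eval y = 0) :
    ∃ θ, θ ≠ 0 ∧ p.eval θ = 0 ∧ ∀ u, u ≠ 0 → p.eval u = 0 → lg V θ ≤ lg V u := by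
  obtain ⟨θ, h1, h2⟩ := Set.exists_min_image _ (lg V) (finite_roots hp) ⟨y, hy, z⟩
  exact ⟨θ, h1.1, h1.2, fun u hu zu => h2 u ⟨hu, zu⟩⟩

theorem max_root {p : Polynomial Ω} (hp : p ≠ 0) {y : Ω} (hy : y ≠ 0) (z : p.eval y = 0) :
    ∃ θ, θ ≠ 0 ∧ p.eval θ = 0 ∧ ∀ u, u ≠ 0 → p.eval u = 0 → lg V u ≤ lg V θ := by
  obtain ⟨θ, h1, h2⟩ := Set.exists_max_image _ (lg V) (finite_roots hp) ⟨y, hy, z⟩
  exact ⟨θ, h1.1, h1.2, fun u hu zu => h2 u ⟨hu, zu⟩⟩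

theorem small [IsAlgClosed Ω] (p : Polynomial Ω) (h0 : p.coeff 0 ≠ 0) {j : ℕ}
    (hj' : p.coeff j ≠ 0) {ρ : ℝ} (h : lg V (p.coeff 0) < lg V (p.coeff j) + j * ρ) :
    ∃ y, y ≠ 0 ∧ p.eval y = 0 ∧ lg V y < ρ := by
  by_contra hn
  have h1 := key' V (sz V ρ) p j
  have h2 : (p.roots.map fun y => max (V.v y) (sz V ρ)) = p.roots.map fun y => V.v y := by
    refine Multiset.map_congr rfl fun y hy => max_eq_left ?_
    have z : p.eval y = 0 := isRoot_of_mem_roots hy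
    have hy0 : y ≠ 0 := by
      rintro rfl
      exact h0 (by rw [coeff_zero_eq_eval_zero, z])
    rw [← sz_lg V hy0, sz_le]
    by_contra h3
    exact hn ⟨y, hy0, z, not_le.1 h3⟩
  rw [h2, ← v_zero, ← sz_lg V hj', ← sz_lg V h0, sz_pow, ← sz_add, sz_le] at h1
  exact absurd h (not_lt.2 h1)

theorem large [IsAlgClosed Ω] (p : Polynomial Ω) {j : ℕ} (hj' : p.coeff j ≠ 0) {ρ : ℝ}
    (h : lg V p.leadingCoeff + p.natDegree * ρ < lg V (p.coeff j) + j * ρ) :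
    ∃ y, y ≠ 0 ∧ p.eval y = 0 ∧ ρ < lg V y := by
  by_contra hn
  have hp : p ≠ 0 := by
    rintro rfl
    exact hj' (coeff_zero j)
  have h1 := key' V (sz V ρ) p j
  have h2 : (p.roots.map fun y => max (V.v y) (sz V ρ)) = p.roots.map fun _ => sz V ρ := by
    refine Multiset.map_congr rfl fun y hy => max_eq_right ?_
    have z : p.eval y = 0 := isRoot_of_mem_roots hy
    by_cases hy0 : y = 0
    · rw [hy0, map_zero]; exact zero_le
    · rw [← sz_lg V hy0, sz_le]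
      by_contra h3
      exact hn ⟨y, hy0, z, not_le.1 h3⟩
  rw [h2, Multiset.map_const', Multiset.prod_replicate, IsAlgClosed.card_roots_eq_natDegree,
    ← sz_lg V hj', ← sz_lg V (leadingCoeff_ne_zero.2 hp), sz_pow, sz_pow, ← sz_add, ← sz_add,
    sz_le] at h1
  exact absurd h (not_lt.2 h1)

theorem inj {s : Ω} (hs : Transcendental k s) :
    Function.Injective ((aeval s : k[X] →ₐ[k] Ω) : k[X] →+* Ω) :=
  transcendental_iff_injective.1 hs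

theorem eval_of_divX {p : Polynomial Ω} (h0 : p.coeff 0 = 0) {y : Ω} (z : p.divX.eval y = 0) :
    p.eval y = 0 := by
  rw [← divX_mul_X_add p, eval_add, eval_mul, z, h0]
  simp

end NP

section one

variable [IsAlgClosed Ω]

theorem small_le (p : Polynomial Ω) (h0 : p.coeff 0 ≠ 0) {j : ℕ} (hj : 1 ≤ j) (hj' : p.coeff j ≠ 0)
    {ρ : ℝ} (h : lg V (p.coeff 0) ≤ lg V (p.coeff j) + j * ρ) :
    ∃ y, y ≠ 0 ∧ p.eval y = 0 ∧ lg V y ≤ ρ := by
  have hp : p ≠ 0 := by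
    rintro rfl
    exact hj' (coeff_zero j)
  have hj1 : (1 : ℝ) ≤ j := by exact_mod_cast hj
  obtain ⟨y, hy, z, -⟩ := NP.small V p h0 hj' (ρ := ρ + 1) (by linarith)
  obtain ⟨θ, h1, h2, h3⟩ := NP.min_root V hp hy z
  refine ⟨θ, h1, h2, ?_⟩
  by_contra h4
  obtain ⟨u, hu, zu, h5⟩ := NP.small V p h0 hj' (ρ := lg V θ) (by nlinarith [not_le.1 h4])
  exact absurd (h3 u hu zu) (not_le.2 h5)

theorem small_lt (p : Polynomial Ω) (h0 : p.coeff 0 ≠ 0) {j : ℕ} (hj' : p.coeff j ≠ 0)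
    {ρ : ℝ} (h : lg V (p.coeff 0) < lg V (p.coeff j) + j * ρ) :
    ∃ y, y ≠ 0 ∧ p.eval y = 0 ∧ lg V y < ρ := by
  exact NP.small V p h0 hj' h

theorem large_le (p : Polynomial Ω) {j : ℕ} (hj : j < p.natDegree) (hj' : p.coeff j ≠ 0)
    {ρ : ℝ} (h : lg V p.leadingCoeff + p.natDegree * ρ ≤ lg V (p.coeff j) + j * ρ) :
    ∃ y, y ≠ 0 ∧ p.eval y = 0 ∧ ρ ≤ lg V y := by
  have hp : p ≠ 0 := by
    rintro rfl
    exact hj' (coeff_zero j)
  have hj1 : (j : ℝ) + 1 ≤ p.natDegree := by exact_mod_cast hj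
  obtain ⟨y, hy, z, -⟩ := NP.large V p hj' (ρ := ρ - 1) (by linarith)
  obtain ⟨θ, h1, h2, h3⟩ := NP.max_root V hp hy z
  refine ⟨θ, h1, h2, ?_⟩
  by_contra h4
  obtain ⟨u, hu, zu, h5⟩ := NP.large V p hj' (ρ := lg V θ) (by nlinarith [not_le.1 h4])
  exact absurd (h3 u hu zu) (not_le.2 h5)

theorem large_lt (p : Polynomial Ω) {j : ℕ} (hj' : p.coeff j ≠ 0)
    {ρ : ℝ} (h : lg V p.leadingCoeff + p.natDegree * ρ < lg V (p.coeff j) + j * ρ) :
    ∃ y, y ≠ 0 ∧ p.eval y = 0 ∧ ρ < lg V y := by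
  exact NP.large V p hj' h

variable {B : k[X][X]} {s : Ω}

theorem root_le (hs : Transcendental k s) (h0 : B.coeff 0 = 0) (h1 : B.coeff 1 ≠ 0) {i : ℕ}
    (hi : 1 < i) (hi' : B.coeff i ≠ 0) {ρ : ℝ}
    (h : lg V (aeval s (B.coeff 1)) + ρ ≤ lg V (aeval s (B.coeff i)) + i * ρ) :
    ∃ y, y ≠ 0 ∧ ev2 s y B = 0 ∧ lg V y ≤ ρ := by
  obtain ⟨j, rfl⟩ : ∃ j, i = j + 1 := ⟨i - 1, by omega⟩
  obtain ⟨y, hy, z, h2⟩ := small_le V
    (B.map ((aeval s : k[X] →ₐ[k] Ω) : k[X] →+* Ω)).divX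
    (by rw [coeff_divX, coeff_map]; exact aeval_ne hs h1) (j := j) (by omega)
    (by rw [coeff_divX, coeff_map]; exact aeval_ne hs hi') (ρ := ρ)
    (by
      rw [coeff_divX, coeff_map, coeff_divX, coeff_map]
      push_cast at h
      simp only [RingHom.coe_coe, zero_add]
      linarith)
  refine ⟨y, hy, ?_, h2⟩
  rw [ev2_eq_eval]
  exact NP.eval_of_divX (by rw [coeff_map, h0, map_zero]) z

theorem root_lt (hs : Transcendental k s) (h0 : B.coeff 0 = 0) (h1 : B.coeff 1 ≠ 0) {i : ℕ}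
    (hi' : B.coeff i ≠ 0) {ρ : ℝ}
    (h : lg V (aeval s (B.coeff 1)) + ρ < lg V (aeval s (B.coeff i)) + i * ρ) :
    ∃ y, y ≠ 0 ∧ ev2 s y B = 0 ∧ lg V y < ρ := by
  obtain ⟨j, rfl⟩ : ∃ j, i = j + 1 := ⟨i - 1, by
    rcases i with _ | i
    · exact absurd h0 hi'
    · omega⟩
  obtain ⟨y, hy, z, h2⟩ := small_lt V
    (B.map ((aeval s : k[X] →ₐ[k] Ω) : k[X] →+* Ω)).divX
    (by rw [coeff_divX, coeff_map]; exact aeval_ne hs h1) (j := j)
    (by rw [coeff_divX, coeff_map]; exact aeval_ne hs hi') (ρ := ρ)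
    (by
      rw [coeff_divX, coeff_map, coeff_divX, coeff_map]
      push_cast at h
      simp only [RingHom.coe_coe, zero_add]
      linarith)
  refine ⟨y, hy, ?_, h2⟩
  rw [ev2_eq_eval]
  exact NP.eval_of_divX (by rw [coeff_map, h0, map_zero]) z

theorem root_ge (hs : Transcendental k s) {i : ℕ} (hi : i < B.natDegree) (hi' : B.coeff i ≠ 0)
    {ρ : ℝ} (h : lg V (aeval s B.leadingCoeff) + B.natDegree * ρ ≤
      lg V (aeval s (B.coeff i)) + i * ρ) : ∃ y, y ≠ 0 ∧ ev2 s y B = 0 ∧ ρ ≤ lg V y := by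
  obtain ⟨y, hy, z, h2⟩ := large_le V (B.map ((aeval s : k[X] →ₐ[k] Ω) : k[X] →+* Ω)) (j := i)
    (by rwa [natDegree_map_eq_of_injective (NP.inj hs)])
    (by rw [coeff_map]; exact aeval_ne hs hi') (ρ := ρ)
    (by
      rw [natDegree_map_eq_of_injective (NP.inj hs), leadingCoeff_map_of_injective (NP.inj hs),
        coeff_map]
      exact h)
  exact ⟨y, hy, by rw [ev2_eq_eval]; exact z, h2⟩

theorem root_gt (hs : Transcendental k s) {i : ℕ} (hi' : B.coeff i ≠ 0)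
    {ρ : ℝ} (h : lg V (aeval s B.leadingCoeff) + B.natDegree * ρ <
      lg V (aeval s (B.coeff i)) + i * ρ) : ∃ y, y ≠ 0 ∧ ev2 s y B = 0 ∧ ρ < lg V y := by
  obtain ⟨y, hy, z, h2⟩ := large_lt V (B.map ((aeval s : k[X] →ₐ[k] Ω) : k[X] →+* Ω)) (j := i)
    (by rw [coeff_map]; exact aeval_ne hs hi') (ρ := ρ)
    (by
      rw [natDegree_map_eq_of_injective (NP.inj hs), leadingCoeff_map_of_injective (NP.inj hs),
        coeff_map]
      exact h)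
  exact ⟨y, hy, by rw [ev2_eq_eval]; exact z, h2⟩

end one

/-- At a nonzero root no row is strictly larger than all others. -/
theorem tie_row {B : k[X][X]} {s u : Ω} (hs : Transcendental k s) (hu : u ≠ 0)
    (z : ev2 s u B = 0) {i : ℕ} (hi : B.coeff i ≠ 0) : ∃ j, j ≠ i ∧ B.coeff j ≠ 0 ∧
      lg V (aeval s (B.coeff i)) + i * lg V u ≤ lg V (aeval s (B.coeff j)) + j * lg V u := by
  rw [ev2_sum] at z
  have e : ∀ j, B.coeff j ≠ 0 → lg V (aeval s (B.coeff j) * u ^ j) =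
      lg V (aeval s (B.coeff j)) + j * lg V u := fun j hj => by
    rw [lg_mul (aeval_ne hs hj) (pow_ne_zero _ hu), lg_pow]
  obtain ⟨j, h1, h2, -, h3⟩ := W48.tie (V := V) B.support _ z (mem_support_iff.2 hi)
    (mul_ne_zero (aeval_ne hs hi) (pow_ne_zero _ hu))
  rw [e i hi, e j (mem_support_iff.1 h1)] at h3
  exact ⟨j, h2, mem_support_iff.1 h1, h3⟩

theorem exists_min_root {B : k[X][X]} {s : Ω} (hs : Transcendental k s) (hB : B ≠ 0) {y : Ω}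
    (hy : y ≠ 0) (z : ev2 s y B = 0) : ∃ θ, θ ≠ 0 ∧ ev2 s θ B = 0 ∧
      ∀ u, u ≠ 0 → ev2 s u B = 0 → lg V θ ≤ lg V u := by
  simp only [ev2_eq_eval] at z ⊢
  exact NP.min_root V ((Polynomial.map_ne_zero_iff (NP.inj hs)).2 hB) hy z

theorem exists_max_root {B : k[X][X]} {s : Ω} (hs : Transcendental k s) (hB : B ≠ 0) {y : Ω}
    (hy : y ≠ 0) (z : ev2 s y B = 0) : ∃ θ, θ ≠ 0 ∧ ev2 s θ B = 0 ∧
      ∀ u, u ≠ 0 → ev2 s u B = 0 → lg V u ≤ lg V θ := by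
  simp only [ev2_eq_eval] at z ⊢
  exact NP.max_root V ((Polynomial.map_ne_zero_iff (NP.inj hs)).2 hB) hy z

variable {φ : k ≃+* k} {cf : ℕ → ℕ → k} {N : ℕ} {R : ℕ → ℕ → Prop} {s : Ω}

/-- At `0` and at infinity a row is as large as its largest monomial. -/
theorem Bi.row_lg (h : Bi φ cf N R) (h0 : s ≠ 0) (hs : lg V s ≠ 0) {a b : ℕ} (hab : R a b)
    (hm : ∀ c, R c b → 2 ^ c * lg V s ≤ 2 ^ a * lg V s) :
    lg V (aeval s (row cf N b)) = 2 ^ a * lg V s := by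
  have ha := (h.iff a b).2 hab
  have e : ∀ c, cf c b ≠ 0 → algebraMap k Ω (cf c b) * s ^ 2 ^ c ≠ 0 ∧
      lg V (algebraMap k Ω (cf c b) * s ^ 2 ^ c) = 2 ^ c * lg V s := fun c hc =>
    ⟨mul_ne_zero ((_root_.map_ne_zero _).2 hc) (pow_ne_zero _ h0),
      by rw [lg_const_mul hc, lg_two_pow]⟩
  rw [← (e a ha).2, aeval_row]
  refine lg_congr (V.v.map_sum_eq_of_lt (f := fun c => algebraMap k Ω (cf c b) * s ^ 2 ^ c)
    (Finset.mem_range.2 (Nat.lt_succ_of_le (h.supp a b hab).1)) fun c hc => ?_)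
  by_cases hc0 : cf c b = 0
  · rw [hc0, map_zero, zero_mul, map_zero]
    exact (V.v.pos_iff).2 (e a ha).1
  · rw [v_lt_iff (e c hc0).1 (e a ha).1, (e c hc0).2, (e a ha).2]
    refine lt_of_le_of_ne (hm c ((h.iff c b).1 hc0)) fun h1 => ?_
    have h2 : (2 : ℝ) ^ c = 2 ^ a := mul_right_cancel₀ hs h1
    have h3 : c = a := pow_right_injective₀ two_pos (by norm_num) h2
    exact (Finset.mem_sdiff.1 hc).2 (Finset.mem_singleton.2 h3)

theorem Bi.row_ge (h : Bi φ cf N R) (h0 : s ≠ 0) (hs : lg V s ≠ 0) {a b : ℕ} (hab : R a b) :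
    2 ^ a * lg V s ≤ lg V (aeval s (row cf N b)) := by
  have hf : {c : ℕ | R c b}.Finite :=
    (Set.finite_Iic N).subset fun c hc => (h.supp c b hc).1
  obtain ⟨c, h1, h2⟩ := Set.exists_max_image _ (fun c : ℕ => (2 : ℝ) ^ c * lg V s) hf ⟨a, hab⟩
  rw [h.row_lg V h0 hs h1 h2]
  exact h2 a hab

variable [IsAlgClosed Ω]

theorem Bi.root_le (h : Bi φ cf N R) (h0 : s ≠ 0) (hs : lg V s ≠ 0) {a₀ : ℕ} (ha : R a₀ 0)
    (hm : ∀ c, R c 0 → 2 ^ c * lg V s ≤ 2 ^ a₀ * lg V s) {a b : ℕ} (hab : R a b) (hb : 1 ≤ b)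
    {ρ : ℝ} (hρ : 2 ^ a₀ * lg V s + ρ ≤ 2 ^ a * lg V s + 2 ^ b * ρ) :
    ∃ y, y ≠ 0 ∧ ev2 s y (BB cf N) = 0 ∧ lg V y ≤ ρ := by
  refine W48.root_le V (transcendental_of_lg h0 hs) (addIn_coeff_zero (addIn_BB cf N))
    (by rw [h.cf_one]; exact h.row_ne ha) (i := 2 ^ b) (Nat.one_lt_two_pow (by omega))
    (by rw [h.cf_BB]; exact h.row_ne hab) ?_
  have := h.row_ge V h0 hs hab
  rw [h.cf_one, h.cf_BB, h.row_lg V h0 hs ha hm]
  push_cast
  linarith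

theorem Bi.root_lt (h : Bi φ cf N R) (h0 : s ≠ 0) (hs : lg V s ≠ 0) {a₀ : ℕ} (ha : R a₀ 0)
    (hm : ∀ c, R c 0 → 2 ^ c * lg V s ≤ 2 ^ a₀ * lg V s) {a b : ℕ} (hab : R a b)
    {ρ : ℝ} (hρ : 2 ^ a₀ * lg V s + ρ < 2 ^ a * lg V s + 2 ^ b * ρ) :
    ∃ y, y ≠ 0 ∧ ev2 s y (BB cf N) = 0 ∧ lg V y < ρ := by
  refine W48.root_lt V (transcendental_of_lg h0 hs) (addIn_coeff_zero (addIn_BB cf N))
    (by rw [h.cf_one]; exact h.row_ne ha) (i := 2 ^ b)
    (by rw [h.cf_BB]; exact h.row_ne hab) ?_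
  have := h.row_ge V h0 hs hab
  rw [h.cf_one, h.cf_BB, h.row_lg V h0 hs ha hm]
  push_cast
  linarith

theorem Bi.root_ge (h : Bi φ cf N R) (h0 : s ≠ 0) (hs : lg V s ≠ 0) {a₀ M : ℕ} (ha : R a₀ M)
    (hM : ∀ a b, R a b → b ≤ M) (hm : ∀ c, R c M → 2 ^ c * lg V s ≤ 2 ^ a₀ * lg V s) {a b : ℕ}
    (hab : R a b) (hb : b < M) {ρ : ℝ}
    (hρ : 2 ^ a₀ * lg V s + 2 ^ M * ρ ≤ 2 ^ a * lg V s + 2 ^ b * ρ) :
    ∃ y, y ≠ 0 ∧ ev2 s y (BB cf N) = 0 ∧ ρ ≤ lg V y := by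
  obtain ⟨e1, e2⟩ := h.top ha hM
  refine W48.root_ge V (transcendental_of_lg h0 hs) (i := 2 ^ b)
    (by rw [e1]; exact Nat.pow_lt_pow_right one_lt_two hb)
    (by rw [h.cf_BB]; exact h.row_ne hab) ?_
  have := h.row_ge V h0 hs hab
  rw [e1, e2, h.cf_BB, h.row_lg V h0 hs ha hm]
  push_cast
  linarith

theorem Bi.root_gt (h : Bi φ cf N R) (h0 : s ≠ 0) (hs : lg V s ≠ 0) {a₀ M : ℕ} (ha : R a₀ M)
    (hM : ∀ a b, R a b → b ≤ M) (hm : ∀ c, R c M → 2 ^ c * lg V s ≤ 2 ^ a₀ * lg V s) {a b : ℕ}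
    (hab : R a b) {ρ : ℝ}
    (hρ : 2 ^ a₀ * lg V s + 2 ^ M * ρ < 2 ^ a * lg V s + 2 ^ b * ρ) :
    ∃ y, y ≠ 0 ∧ ev2 s y (BB cf N) = 0 ∧ ρ < lg V y := by
  obtain ⟨e1, e2⟩ := h.top ha hM
  refine W48.root_gt V (transcendental_of_lg h0 hs) (i := 2 ^ b)
    (by rw [h.cf_BB]; exact h.row_ne hab) ?_
  have := h.row_ge V h0 hs hab
  rw [e1, e2, h.cf_BB, h.row_lg V h0 hs ha hm]
  push_cast
  linarith

omit [IsAlgClosed Ω] in
/-- A single slope at infinity. -/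
theorem Bi.single (h : Bi φ cf N R) {a₀ a₁ M : ℕ} {σ : ℝ} (h0 : R a₀ 0) (h1 : R a₁ M)
    (he : (2 : ℝ) ^ a₁ + σ * 2 ^ M = 2 ^ a₀ + σ)
    (hR : ∀ a b, R a b → b ≤ M ∧ (2 : ℝ) ^ a + σ * 2 ^ b ≤ 2 ^ a₀ + σ) {u : Ω} (hu : u ≠ 0)
    (z : ev2 V.τ⁻¹ u (BB cf N) = 0) : lg V u = σ := by
  have hi : ∀ {c d : ℕ}, (2 : ℝ) ^ c = 2 ^ d → c = d := fun e =>
    pow_right_injective₀ two_pos (by norm_num) e
  by_contra hn
  rcases lt_or_gt_of_ne hn with hx | hx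
  · obtain ⟨a, b, r, hne, h2⟩ := h.tie2 V (inv_ne_zero V.τ_ne) hu z h0
    rw [lg_tau_inv] at h2
    have h3 := (hR a b r).2
    have h4 : (1 : ℝ) ≤ 2 ^ b := one_le_pow₀ one_le_two
    have h5 : (2 : ℝ) ^ b = 2 ^ 0 := by
      rw [pow_zero] at h2 ⊢
      nlinarith
    have h6 := hi h5
    subst h6
    exact hne ⟨hi (by rw [pow_zero] at h2 h3; linarith), rfl⟩
  · obtain ⟨a, b, r, hne, h2⟩ := h.tie2 V (inv_ne_zero V.τ_ne) hu z h1
    rw [lg_tau_inv] at h2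
    obtain ⟨h7, h3⟩ := hR a b r
    have h4 : (2 : ℝ) ^ b ≤ 2 ^ M := pow_le_pow_right₀ one_le_two h7
    have h5 : (2 : ℝ) ^ b = 2 ^ M := by nlinarith
    have h6 := hi h5
    subst h6
    exact hne ⟨hi (by linarith), rfl⟩

end W48

end Pool.Agent.Lib.MP_346d6a_co
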