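import Pool.Agent.Lib.MP_346d6a_co.W48NP
import Pool.Agent.Lib.MP_346d6a_co.W48One

/-!
A large root does not distinguish the smallest roots if the perturbation is a monomial.
-/

set_option maxSynthPendingDepth 3

namespace Pool.Agent.Lib.MP_346d6a_co

open Polynomial

namespace W48

open W28

namespace Tp

variable {k Ω : Type} [Field k] [Field Ω] [Algebra k Ω] {V : Val k Ω}

theorem lg_mono {x y b : Ω} (hx : x ≠ 0) (hy : y ≠ 0) (hb : b ≠ 0) (i j : ℕ) :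
    lg V (x ^ 2 ^ i * y ^ 2 ^ j / b) = 2 ^ i * lg V x + 2 ^ j * lg V y - lg V b := by
  rw [lg_div (mul_ne_zero (pow_ne_zero _ hx) (pow_ne_zero _ hy)) hb,
    lg_mul (pow_ne_zero _ hx) (pow_ne_zero _ hy), lg_two_pow, lg_two_pow]

theorem small {x y b : Ω} (hx : x ≠ 0) (hy : y ≠ 0) (hb : b ≠ 0) {i j : ℕ}
    (h : 2 ^ i * lg V x + 2 ^ j * lg V y < lg V b) (c : k) :
    V.v (algebraMap k Ω c * (x ^ 2 ^ i * y ^ 2 ^ j / b)) < 1 := by
  rw [map_mul]
  refine (mul_le_of_le_one_left zero_le (V.const_le c)).trans_lt (v_lt_one_of fun _ => ?_)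
  rw [lg_mono hx hy hb]
  linarith

theorem bdd {x y b : Ω} (hx : x ≠ 0) (hy : y ≠ 0) (hb : b ≠ 0) {i j : ℕ}
    (h : 2 ^ i * lg V x + 2 ^ j * lg V y ≤ lg V b) (c : k) :
    V.v (algebraMap k Ω c * (x ^ 2 ^ i * y ^ 2 ^ j / b)) ≤ 1 := by
  rw [map_mul]
  refine (mul_le_of_le_one_left zero_le (V.const_le c)).trans (v_le_one_of fun _ => ?_)
  rw [lg_mono hx hy hb]
  linarith

end Tp

variable {k Ω : Type} [Field k] [IsAlgClosed k] [CharP k 2] [Field Ω] [IsAlgClosed Ω] [Algebra k Ω]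
  {φ : k ≃+* k} {cf : ℕ → ℕ → k} {N : ℕ} {R : ℕ → ℕ → Prop}

theorem tpl (h : Bi φ cf N R) (V : Val k Ω) {s θ u : Ω} (h0 : s ≠ 0) (hs : lg V s ≠ 0) {a₀ : ℕ}
    (ha : R a₀ 0) (hm : ∀ c, R c 0 → 2 ^ c * lg V s ≤ 2 ^ a₀ * lg V s) (hθ : θ ≠ 0)
    (hmin : ∀ w, w ≠ 0 → ev2 s w (BB cf N) = 0 → lg V θ ≤ lg V w)
    (hu : u ≠ 0) (zu : ev2 s u (BB cf N) = 0) (hlt : lg V θ < lg V u) {a₁ b₁ : ℕ} (h1 : R a₁ b₁)
    (hd : ∀ a b, R a b → ¬ (a = a₁ ∧ b = b₁) →
      2 ^ a₁ * (2 ^ b * lg V u - (2 ^ a₀ * lg V s + lg V θ)) <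
        2 ^ a * (2 ^ b₁ * lg V u - (2 ^ a₀ * lg V s + lg V θ)))
    {t : Ω} (zt : ev2 s t (BB cf N) = 0) (ht : V.v t ≤ V.v θ) :
    col2 k s (u + t) = col2 k s u := by
  classical
  have := charP k Ω
  have hadd := addIn_BB cf N
  obtain ⟨S, hS⟩ := h.exists_supp
  have hS' : ∀ a b, R a b → (a, b) ∈ S := fun a b r => (hS a b).2 r
  obtain ⟨β, hβ⟩ : ∃ β, β = s ^ 2 ^ a₀ * θ := ⟨_, rfl⟩
  have hβ0 : β ≠ 0 := hβ ▸ mul_ne_zero (pow_ne_zero _ h0) hθ
  have hW : lg V β = 2 ^ a₀ * lg V s + lg V θ := by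
    rw [hβ, lg_mul (pow_ne_zero _ h0) hθ, lg_two_pow]
  rw [← hW] at hd
  have hA : ∀ a b, R a b → 2 ^ a * lg V s + 2 ^ b * lg V θ ≤ lg V β := fun a b r => by
    by_contra hcon
    obtain ⟨y, hy, zy, hl⟩ := h.root_lt V h0 hs ha hm r (ρ := lg V θ) (by rw [← hW]; linarith)
    exact absurd (hmin y hy zy) (not_le.2 hl)
  obtain ⟨l, hl⟩ := IsAlgClosed.exists_pow_nat_eq (β / u ^ 2 ^ b₁) (n := 2 ^ a₁) (by positivity)
  have hl0 : l ≠ 0 := by
    rintro rfl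
    rw [zero_pow (by positivity)] at hl
    exact div_ne_zero hβ0 (pow_ne_zero _ hu) hl.symm
  have hl1 : l ^ 2 ^ a₁ * u ^ 2 ^ b₁ / β = 1 := by
    rw [hl]
    field_simp
  have hl2 : 2 ^ a₁ * lg V l + 2 ^ b₁ * lg V u = lg V β := by
    have e := Tp.lg_mono (V := V) hl0 hu hβ0 a₁ b₁
    rw [hl1, lg_one] at e
    linarith
  have hB : ∀ a b, R a b → ¬ (a = a₁ ∧ b = b₁) → 2 ^ a * lg V l + 2 ^ b * lg V u < lg V β := by
    intro a b r hne
    have e := hd a b r hne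
    have e1 : (2 : ℝ) ^ b₁ * lg V u - lg V β = -(2 ^ a₁ * lg V l) := by linarith
    rw [e1] at e
    have e2 : (0 : ℝ) < 2 ^ a₁ := by positivity
    have e3 : (2 : ℝ) ^ a₁ * (2 ^ b * lg V u - lg V β) < 2 ^ a₁ * (-(2 ^ a * lg V l)) := by
      linarith
    have e4 := lt_of_mul_lt_mul_left e3 e2.le
    linarith
  have hls : lg V l < lg V s := by
    have e2 : (0 : ℝ) < 2 ^ a₀ := by positivity
    refine lt_of_mul_lt_mul_left ?_ e2.le
    by_cases e : a₀ = a₁ ∧ 0 = b₁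
    · obtain ⟨rfl, rfl⟩ := e
      rw [pow_zero, one_mul] at hl2
      linarith
    · have e3 := hB a₀ 0 ha e
      rw [pow_zero, one_mul] at e3
      linarith
  have hC : ∀ a b, R a b → 2 ^ a * lg V l + 2 ^ b * lg V θ < lg V β := fun a b r => by
    have e1 := hA a b r
    have e2 : (2 : ℝ) ^ a * lg V l < 2 ^ a * lg V s := mul_lt_mul_of_pos_left hls (by positivity)
    linarith
  obtain ⟨z, hz⟩ : ∃ z : ℕ × ℕ → Ω,
      z = fun p => algebraMap k Ω (cf p.1 p.2) * (s ^ 2 ^ p.1 * θ ^ 2 ^ p.2 / β) := ⟨_, rfl⟩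
  have hz1 : ∀ p ∈ S, V.v (z p) ≤ 1 := fun p hp => by
    rw [hz]
    exact Tp.bdd h0 hθ hβ0 (hA _ _ ((hS _ _).1 hp)) _
  obtain ⟨G, hG⟩ : ∃ G : k[X], G = ∑ p ∈ S, monomial (2 ^ p.2) (rs V (z p)) := ⟨_, rfl⟩
  have hG0 : G ≠ 0 := by
    intro e
    have e1 := congrArg (coeff · 1) e
    simp only [hG, finsetSum_coeff, coeff_monomial, coeff_zero] at e1
    rw [Finset.sum_eq_single (a₀, 0) ?_ fun hn => absurd (hS' _ _ ha) hn] at e1
    · have e2 : z (a₀, 0) = algebraMap k Ω (cf a₀ 0) := by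
        rw [hz, hβ]
        simp only [pow_zero, pow_one]
        rw [div_self (mul_ne_zero (pow_ne_zero _ h0) hθ), mul_one]
      rw [e2, rs_const] at e1
      simp only [pow_zero, if_true] at e1
      exact (h.iff _ _).2 ha e1
    · rintro ⟨a, b⟩ hp hne
      split_ifs with e2
      · have e3 : b = 0 := by simpa using e2
        subst e3
        have e4 : a ≠ a₀ := fun e => hne (by rw [e])
        have e5 := hm a ((hS _ _).1 hp)
        have e6 : (2 : ℝ) ^ a * lg V s ≠ 2 ^ a₀ * lg V s := fun e =>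
          e4 (pow_right_injective₀ two_pos (by norm_num) (mul_right_cancel₀ hs e))
        refine rs_of_lt ?_
        rw [hz]
        refine Tp.small h0 hθ hβ0 ?_ _
        rw [hW, pow_zero, one_mul]
        exact add_lt_add_left (lt_of_le_of_ne e5 e6) _
      · rfl
  have key : ∀ e τ : k, V.v (ev2 (s + l * algebraMap k Ω e) (u + θ * algebraMap k Ω τ) (BB cf N) / β -
      algebraMap k Ω (G.eval τ + (C (cf a₁ b₁)).eval τ * e ^ 2 ^ a₁)) < 1 := by
    intro e τ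
    have r1 : V.v (ev2 s (θ * algebraMap k Ω τ) (BB cf N) / β - algebraMap k Ω (G.eval τ)) < 1 := by
      rw [h.sum_eq S hS', hG, eval_finsetSum, Finset.sum_div]
      refine V.res_sum S fun p hp => ?_
      have e1 := V.res_mul (rs_spec (hz1 p hp)) (V.res_const (τ ^ 2 ^ p.2))
      rw [eval_monomial]
      convert e1 using 3
      rw [hz, map_pow]
      ring
    have r2 : V.v (ev2 (l * algebraMap k Ω e) u (BB cf N) / β -
        algebraMap k Ω (cf a₁ b₁ * e ^ 2 ^ a₁)) < 1 := by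
      rw [h.sum_eq S hS', Finset.sum_div, ← Finset.add_sum_erase S _ (hS' _ _ h1)]
      have e1 : algebraMap k Ω (cf a₁ b₁) * (l * algebraMap k Ω e) ^ 2 ^ a₁ * u ^ 2 ^ b₁ / β =
          algebraMap k Ω (cf a₁ b₁ * e ^ 2 ^ a₁) * (l ^ 2 ^ a₁ * u ^ 2 ^ b₁ / β) := by
        rw [map_mul, map_pow]
        ring
      simp only [e1, hl1, mul_one, add_sub_cancel_left]
      refine V.v.map_sum_lt one_ne_zero fun p hp => ?_
      have e2 := Tp.small hl0 hu hβ0 (hB _ _ ((hS _ _).1 (Finset.mem_of_mem_erase hp))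
        fun e => Finset.ne_of_mem_erase hp (Prod.ext e.1 e.2)) (cf p.1 p.2 * e ^ 2 ^ p.1)
      convert e2 using 2
      rw [map_mul, map_pow]
      ring
    have r3 : V.v (ev2 (l * algebraMap k Ω e) (θ * algebraMap k Ω τ) (BB cf N) / β) < 1 := by
      rw [h.sum_eq S hS', Finset.sum_div]
      refine V.v.map_sum_lt one_ne_zero fun p hp => ?_
      have e2 := Tp.small hl0 hθ hβ0 (hC _ _ ((hS _ _).1 hp))
        (cf p.1 p.2 * e ^ 2 ^ p.1 * τ ^ 2 ^ p.2)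
      convert e2 using 2
      rw [map_mul, map_mul, map_pow, map_pow]
      ring
    have r4 := V.v.map_add_lt (V.v.map_add_lt r1 r2) r3
    convert r4 using 2
    rw [BB_add_left, hadd.ev2_add, hadd.ev2_add, zu, eval_C, map_add]
    ring
  have ht1 : V.v (t / θ) ≤ 1 := by
    rw [map_div₀]
    exact div_le_one_of_le₀ ht zero_le
  have hz0 : V.v ((0 : Ω) - algebraMap k Ω 0) < 1 := by simp
  have hc1 : ∀ τ : k, (C (cf a₁ b₁)).eval τ ≠ 0 := fun τ => by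
    rw [eval_C]
    exact (h.iff _ _).2 h1
  obtain ⟨ξ, hξ, hcol⟩ := one V (BB cf N) G (C (cf a₁ b₁)) a₁ key hz0 hz0 (rs_spec ht1)
    (by simpa using transcendental_of_lg h0 hs) (hc1 _) (hc1 _) (by simpa using hG0)
    (by simpa using zu)
    (by rw [mul_zero, add_zero, mul_div_cancel₀ _ hθ, hadd.ev2_add, zu, zt, add_zero])
  simp only [mul_zero, add_zero] at hcol
  have z1 := root_of_col hcol zu
  rw [hadd.ev2_add, zu, zero_add] at z1
  have z2 : ev2 s (θ * ξ + t) (BB cf N) = 0 := by rw [hadd.ev2_add, z1, zt, add_zero]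
  have hv : V.v (θ * ξ + t) < V.v θ := by
    have e1 : V.v (ξ - t / θ) < 1 := by
      have e2 := V.v.map_sub_lt hξ (rs_spec ht1)
      rwa [sub_sub_sub_cancel_right] at e2
    have e3 : θ * ξ + t = θ * (ξ - t / θ) := by
      rw [mul_sub, mul_div_cancel₀ _ hθ, CharTwo.sub_eq_add]
    rw [e3, map_mul]
    exact mul_lt_of_lt_one_right ((V.v.pos_iff).2 hθ) e1
  have hw : θ * ξ + t = 0 := by
    by_contra hne
    exact absurd (hmin _ hne z2) (not_le.2 ((v_lt_iff hne hθ).1 hv))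
  rw [← hcol, CharTwo.add_eq_zero.1 hw]

end W48

end Pool.Agent.Lib.MP_346d6a_co
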