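import Pool.Agent.Lib.MP_346d6a_co.W48N1p

/-!
The vertices of the polygon of the first differences.
-/

set_option maxSynthPendingDepth 3

namespace Pool.Agent.Lib.MP_346d6a_co

open Polynomial

namespace W64

open W48

variable {k : Type} [Field k] [IsAlgClosed k] [CharP k 2] {φ : k ≃+* k} {f : k[X]}

theorem exists_max (E : Finset ℕ) (w : ℕ → ℕ → ℚ) (P : ℕ → ℕ → Prop) {a₀ D₀ : ℕ}
    (h0 : Cand1 E a₀ D₀) (hP : P a₀ D₀) : ∃ a D, Cand1 E a D ∧ P a D ∧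
      ∀ a' D', Cand1 E a' D' → P a' D' → w a' D' ≤ w a D := by
  classical
  let S : Finset (ℕ × ℕ) := (Finset.range (E.sup id + 1) ×ˢ Finset.range (E.sup id + 1)).filter
    fun p => Cand1 E p.1 p.2 ∧ P p.1 p.2
  have hS : ∀ a D, Cand1 E a D → P a D → (a, D) ∈ S := fun a D h h' => by
    have h1 : D + 2 ^ a ≤ E.sup id := Finset.le_sup (f := id) h.1
    have h2 := Nat.lt_two_pow_self (n := a)
    simp only [S, Finset.mem_filter, Finset.mem_product, Finset.mem_range]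
    exact ⟨⟨by omega, by omega⟩, h, h'⟩
  obtain ⟨p, hp, hm⟩ := S.exists_max_image (fun p => w p.1 p.2) ⟨_, hS _ _ h0 hP⟩
  obtain ⟨-, h1, h2⟩ := Finset.mem_filter.1 hp
  exact ⟨p.1, p.2, h1, h2, fun a' D' h h' => hm _ (hS _ _ h h')⟩

theorem low_digit {a D b E : ℕ} (h : D + 2 ^ a = E + 2 ^ b) (h1 : 2 ^ (a + 1) ∣ D)
    (h2 : 2 ^ (b + 1) ∣ E) : a = b := by
  have key : ∀ {a D b E : ℕ}, D + 2 ^ a = E + 2 ^ b → 2 ^ (a + 1) ∣ D → 2 ^ (b + 1) ∣ E →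
      ¬ a < b := fun {a D b E} h h1 h2 hab => by
    have h3 : 2 ^ (a + 1) ∣ E + 2 ^ b :=
      dvd_add ((pow_dvd_pow 2 (by omega)).trans h2) (pow_dvd_pow 2 hab)
    rw [← h] at h3
    have := (Nat.pow_dvd_pow_iff_le_right one_lt_two).1 ((Nat.dvd_add_right h1).1 h3)
    omega
  exact le_antisymm (not_lt.1 (key h.symm h2 h1)) (not_lt.1 (key h h1 h2))

theorem chain_odd (hc : Ctx φ f) (hl : ∀ e, f.coeff e ≠ 0 → ¬ Lin e) {r n β m : ℕ}
    (hd : f.natDegree = n + 2 ^ r) (hn : 2 ^ (r + 1) ∣ n) (hm : n = 2 ^ β * m) (ho : Odd m)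
    (i : ℕ) : ∀ {μ : ℚ} {a D : ℕ}, r - a = i → μ < 1 → Cand1 f.support a D →
    (∀ a' D', Cand1 f.support a' D' → (D' : ℚ) + μ * 2 ^ a' ≤ D + μ * 2 ^ a) →
    (∀ a' D', Cand1 f.support a' D' → (D' : ℚ) + μ * 2 ^ a' = D + μ * 2 ^ a → a' ≤ a) →
    D ≤ n ∧ ∃ b m', D = 2 ^ b * m' ∧ Odd m' ∧ m' ≤ m := by
  have hf : f ≠ 0 := fun e => by
    rw [e, natDegree_zero] at hd
    have := Nat.two_pow_pos r
    omega
  have hr : Cand1 f.support r n := ⟨hd ▸ natDegree_mem_support_of_nonzero hf, hn⟩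
  have hle : ∀ a D, Cand1 f.support a D → D + 2 ^ a ≤ n + 2 ^ r := fun a D h =>
    hd ▸ le_natDegree_of_mem_supp _ h.1
  have hpos : ∀ a D, Cand1 f.support a D → D ≠ 0 := fun a D h e =>
    hl _ (mem_support_iff.1 h.1) (Or.inr ⟨a, by rw [e, zero_add]⟩)
  induction i using Nat.strong_induction_on with
  | _ i ih =>
  intro μ a D hi hμ h hmax htop
  have h1 : (D : ℚ) + 2 ^ a ≤ n + 2 ^ r := by exact_mod_cast hle a D h
  have h2 := hmax r n hr
  rcases lt_trichotomy a r with har | rfl | har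
  · -- the next vertex to the right
    have pw : ∀ a', a < a' → (0 : ℚ) < 2 ^ a' - 2 ^ a := fun a' h' =>
      sub_pos.2 (pow_lt_pow_right₀ one_lt_two h')
    obtain ⟨a₂, D₂, c₂, p₂, m₂⟩ := exists_max f.support
      (fun a' D' => ((D' : ℚ) - D) / (2 ^ a' - 2 ^ a)) (fun a' _ => a < a') hr har
    set ν : ℚ := -(((D₂ : ℚ) - D) / (2 ^ a₂ - 2 ^ a)) with hν
    have e₂ : (D₂ : ℚ) + ν * 2 ^ a₂ = D + ν * 2 ^ a := by
      have := (pw a₂ p₂).ne'
      rw [hν]; field_simp; ring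
    have hμν : μ < ν := by
      have h3 := (hmax a₂ D₂ c₂).lt_of_ne fun e => absurd (htop a₂ D₂ c₂ e) (not_le.2 p₂)
      have := pw a₂ p₂
      nlinarith
    have hup : ∀ a' D', Cand1 f.support a' D' → a < a' → (D' : ℚ) + ν * 2 ^ a' ≤ D + ν * 2 ^ a :=
      fun a' D' c' p' => by
        have h3 := m₂ a' D' c' p'
        rw [div_le_iff₀ (pw a' p')] at h3
        rw [hν]; linarith
    have hν1 : ν < 1 := by
      have h3 := hup r n hr har
      have h4 : (D : ℚ) + 2 ^ a < n + 2 ^ r := by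
        have := (hle a D h).lt_of_ne fun e => har.ne (low_digit e h.2 hn)
        exact_mod_cast this
      have := pw r har
      nlinarith
    have hlo : ∀ a' D', Cand1 f.support a' D' → a' < a → (D' : ℚ) + ν * 2 ^ a' < D + ν * 2 ^ a :=
      fun a' D' c' p' => by
        have h3 := hmax a' D' c'
        have h4 : (2 : ℚ) ^ a' < 2 ^ a := pow_lt_pow_right₀ one_lt_two p'
        nlinarith
    have hall : ∀ a' D', Cand1 f.support a' D' → (D' : ℚ) + ν * 2 ^ a' ≤ D + ν * 2 ^ a :=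
      fun a' D' c' => by
        rcases lt_trichotomy a' a with p' | rfl | p'
        · exact (hlo a' D' c' p').le
        · have := hmax a' D' c'
          linarith
        · exact hup a' D' c' p'
    obtain ⟨a₁, D₁, c₁, e₁, m₁⟩ := exists_max f.support (fun a' _ => (a' : ℚ))
      (fun a' D' => (D' : ℚ) + ν * 2 ^ a' = D + ν * 2 ^ a) c₂ e₂
    have m₁' : ∀ a' D', Cand1 f.support a' D' → (D' : ℚ) + ν * 2 ^ a' = D + ν * 2 ^ a → a' ≤ a₁ :=
      fun a' D' c' e' => by exact_mod_cast m₁ a' D' c' e'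
    have p₁ : a < a₁ := p₂.trans_le (m₁' _ _ c₂ e₂)
    obtain ⟨hD₁, b₁, o₁, rfl, ho₁, hm₁⟩ := ih (r - a₁) (by omega) rfl hν1 c₁
      (fun a' D' c' => e₁ ▸ hall a' D' c') (fun a' D' c' e' => m₁' a' D' c' (e'.trans e₁))
    obtain ⟨b, o, ho', rfl⟩ := Nat.exists_eq_two_pow_mul_odd (hpos a D h)
    rcases lt_or_ge b b₁ with hb | hb
    · have h3 := n1p hc hl hν1 hall h rfl ho' c₁ e₁ p₁ (fun c E c' e' =>
        ⟨not_lt.1 fun p' => (hlo c E c' p').ne e', m₁' c E c' e'⟩)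
        ((pow_dvd_pow 2 hb).mul_right _)
      have h4 : o ≤ o₁ := Nat.le_of_dvd ho₁.pos
        ((Nat.Coprime.pow_right _ (Nat.coprime_two_right.2 ho')).dvd_of_dvd_mul_left h3)
      exact ⟨(Nat.mul_le_mul (Nat.pow_le_pow_right two_pos hb.le) h4).trans hD₁, b, o, rfl, ho',
        h4.trans hm₁⟩
    · have h3 : 2 ^ b * o ≤ 2 ^ b₁ * o₁ := by
        by_contra h4
        have h5 : 2 ^ b₁ ∣ 2 ^ b * o - 2 ^ b₁ * o₁ :=
          Nat.dvd_sub ((pow_dvd_pow 2 hb).mul_right _) (dvd_mul_right _ _)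
        have h6 := Nat.le_of_dvd (by omega) h5
        have h7 : a₁ + 1 ≤ b₁ := (Nat.pow_dvd_pow_iff_le_right one_lt_two).1
          ((Nat.Coprime.pow_left _ (Nat.coprime_two_left.2 ho₁)).dvd_of_dvd_mul_right c₁.2)
        have h8 : 2 ^ a₁ ≤ 2 ^ b₁ := Nat.pow_le_pow_right two_pos (by omega)
        have h9 : ((2 ^ b₁ * o₁ : ℕ) : ℚ) + 2 ^ a₁ ≤ (2 ^ b * o : ℕ) := by
          exact_mod_cast (by omega : 2 ^ b₁ * o₁ + 2 ^ a₁ ≤ 2 ^ b * o)
        have := pw a₁ p₁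
        have : (0 : ℚ) < 2 ^ a := by positivity
        nlinarith
      refine ⟨h3.trans hD₁, b, o, rfl, ho', le_trans ?_ hm₁⟩
      exact Nat.le_of_mul_le_mul_left ((Nat.mul_le_mul_right o
        (Nat.pow_le_pow_right two_pos hb)).trans h3) (pow_pos two_pos _)
  · have : D = n := by exact_mod_cast (by linarith : (D : ℚ) = n)
    exact ⟨this.le, β, m, this.trans hm, ho, le_rfl⟩
  · have h4 : (2 : ℚ) ^ r < 2 ^ a := pow_lt_pow_right₀ one_lt_two har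
    nlinarith

theorem chain (hc : Ctx φ f) (hl : ∀ e, f.coeff e ≠ 0 → ¬ Lin e) {r n β m : ℕ}
    (hd : f.natDegree = n + 2 ^ r) (hn : 2 ^ (r + 1) ∣ n) (hm : n = 2 ^ β * m) (ho : Odd m)
    {μ : ℚ} (hμ : μ < 1) {a D : ℕ} (h : Cand1 f.support a D)
    (hmax : ∀ a' D', Cand1 f.support a' D' → (D' : ℚ) + μ * 2 ^ a' ≤ D + μ * 2 ^ a)
    (htop : ∀ a' D', Cand1 f.support a' D' → (D' : ℚ) + μ * 2 ^ a' = D + μ * 2 ^ a → a' ≤ a) :
    D ≤ n ∧ ∃ b m', D = 2 ^ b * m' ∧ m' ≤ m := by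
  obtain ⟨h1, b, o, h2, -, h3⟩ := chain_odd hc hl hd hn hm ho _ rfl hμ h hmax htop
  exact ⟨h1, b, o, h2, h3⟩

theorem cand_le (hc : Ctx φ f) (hl : ∀ e, f.coeff e ≠ 0 → ¬ Lin e) {r n β m : ℕ}
    (hd : f.natDegree = n + 2 ^ r) (hn : 2 ^ (r + 1) ∣ n) (hm : n = 2 ^ β * m) (ho : Odd m)
    {a D : ℕ} (h : Cand1 f.support a D) : D ≤ n := by
  obtain ⟨a₁, D₁, c₁, -, m₁⟩ := exists_max f.support (fun _ D' => (D' : ℚ)) (fun _ _ => True) h
    trivial
  obtain ⟨a₂, D₂, c₂, rfl, m₂⟩ := exists_max f.support (fun a' _ => (a' : ℚ))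
    (fun _ D' => D' = D₁) c₁ rfl
  have h1 := (chain hc hl hd hn hm ho (μ := 0) zero_lt_one c₂
    (fun a' D' c' => by simpa using m₁ a' D' c' trivial)
    (fun a' D' c' e' => by exact_mod_cast m₂ a' D' c' (by simpa using e'))).1
  exact le_trans (by exact_mod_cast m₁ a D h trivial) h1

end W64

end Pool.Agent.Lib.MP_346d6a_co
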