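import Pool.Agent.Lib.MP_346d6a_co.WDefs
import Pool.Agent.Lib.MP_346d6a_co.TMain

/-!
The wild case: assembly.
-/

set_option maxSynthPendingDepth 3

namespace Pool.Agent.Lib.MP_346d6a_co

open Polynomial

section

variable {k : Type} [Field k] [CharP k 2]

theorem choose_two_bits (a b i : ℕ) : (((2 ^ a + 2 ^ b).choose i : ℕ) : k) =
    (if i = 2 ^ a + 2 ^ b then 1 else 0) + (if i = 2 ^ a then 1 else 0) +
      (if i = 2 ^ b then 1 else 0) + if i = 0 then 1 else 0 := by
  have h : ((X + 1) ^ (2 ^ a + 2 ^ b) : k[X]) = X ^ (2 ^ a + 2 ^ b) + X ^ 2 ^ a + X ^ 2 ^ b + 1 := by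
    rw [pow_add, add_pow_char_pow, add_pow_char_pow, one_pow, one_pow]
    ring
  rw [← coeff_X_add_one_pow, h]
  simp only [coeff_add, coeff_X_pow, coeff_one]

/-- The form `f (s + u) + f s + f u`. -/
noncomputable def polar (f : k[X]) : k[X][X] := DD f + C f

theorem coeff_polar {f : k[X]} (h0 : f.coeff 0 = 0) (a b : ℕ) : ((polar f).coeff b).coeff a =
    if a = 0 ∨ b = 0 then 0 else ((b + a).choose a : k) * f.coeff (b + a) := by
  rw [polar, coeff_add, coeff_add, coeff_DD, coeff_C]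
  rcases eq_or_ne a 0 with rfl | ha <;> rcases eq_or_ne b 0 with rfl | hb <;>
    simp [*, CharTwo.add_self_eq_zero]

/-- The substitution `u ↦ y + x`. -/
noncomputable def sg : k[X][X] →+* k[X][X][X] :=
  ((taylorAlgHom (X : k[X][X])).toRingHom).comp (mapRingHom C)

omit [CharP k 2] in
theorem sg_apply (P : k[X][X]) : sg P = taylor X (P.map C) := rfl

omit [CharP k 2] in
theorem irreducible_sg {P : k[X][X]} (hP : Irreducible P) : Irreducible (sg P) := by
  have h1 : Irreducible (C P : k[X][X][X]) := (prime_C_iff.2 hP.prime).irreducible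
  have h2 := (MulEquiv.irreducible_iff (Bivariate.swap (R := k[X]))).2 h1
  rw [Bivariate.swap_C] at h2
  exact (MulEquiv.irreducible_iff (taylorEquiv (X : k[X][X]))).2 h2

omit [CharP k 2] in
theorem map_sg (P : k[X][X]) : (sg P).map (evalRingHom 0) = P := by
  have h : (evalRingHom (0 : k[X])).comp C = RingHom.id _ := RingHom.ext fun p => by simp
  rw [sg_apply, map_taylor, Polynomial.map_map, h]
  simp

omit [CharP k 2] in
theorem mp3_sg (φ : k →+* k) (P : k[X][X]) : mp3 φ (sg P) = sg (mp2 φ P) := by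
  simp [mp3, mp2, sg_apply, Polynomial.map_map, mapRingHom_comp_C]

omit [CharP k 2] in
theorem ev3_sg (s x y : k) (P : k[X][X]) : ev3 s x y (sg P) = ev2 s (y + x) P := by
  rw [← ev3_map_C s x (y + x), ev3_eq, ev3_eq, sg_apply, map_taylor, taylor_eval, ev2_X]

theorem tame_of_DO [IsAlgClosed k] (hDO : WildDO) {φ : k ≃+* k} {f : k[X]} (hc : Ctx φ f)
    (hl : ∀ e, f.coeff e ≠ 0 → ¬ Lin e) (hq : ∀ e, f.coeff e ≠ 0 → ∃ a b, e = 2 ^ a + 2 ^ b) :
    Tame f := by
  have h2 : (2 : k) = 0 := CharTwo.two_eq_zero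
  have h0 : f.coeff 0 = 0 := by_contra fun h => hl 0 h (Or.inl rfl)
  have h1 : f.coeff 1 = 0 := by_contra fun h => hl 1 h (Or.inr ⟨0, rfl⟩)
  have hbit : ∀ a b, ((polar f).coeff b).coeff a ≠ 0 → ∃ i, a = 2 ^ i := fun a b h => by
    rw [coeff_polar h0] at h
    split_ifs at h with h3
    · exact absurd rfl h
    push Not at h3
    obtain ⟨x, y, hxy⟩ := hq _ (right_ne_zero_of_mul h)
    by_contra hn
    push Not at hn
    refine left_ne_zero_of_mul h ?_
    rw [hxy, choose_two_bits, if_neg (by omega), if_neg (hn x), if_neg (hn y), if_neg h3.1]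
    simp
  have hsym : ∀ a b, ((polar f).coeff b).coeff a = ((polar f).coeff a).coeff b := fun a b => by
    rw [coeff_polar h0, coeff_polar h0, add_comm a b, Nat.choose_symm_add]
    simp only [or_comm]
  have hrow : (polar f).coeff 1 = derivative f := by
    rw [polar, coeff_add, coeff_DD_eq, h1, hasseDeriv_one', coeff_C_of_ne_zero one_ne_zero]
    simp
  have hadd : ∀ s x y : k, ev2 s (y + x) (polar f) = ev2 s y (polar f) + ev2 s x (polar f) := by
    intro s x y
    have hA : Aff ((polar f).map (evalRingHom s)) := fun j hj => by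
      rw [coeff_map] at hj
      have h3 : (polar f).coeff j ≠ 0 := fun h => hj (by rw [h, map_zero])
      refine Or.inr (hbit j ((polar f).coeff j).natDegree ?_)
      rw [hsym]
      exact leadingCoeff_ne_zero.2 h3
    have h3 := hA.eval₂_add (RingHom.id k) y x
    have h4 : (polar f).coeff 0 = 0 := by
      ext a
      rw [coeff_polar h0, if_pos (Or.inr rfl), coeff_zero]
    simp only [eval₂_id, coeff_map, h4, map_zero, add_zero, map_evalRingHom_eval] at h3
    simpa only [ev2_self] using h3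
  have hsg : sg (polar f) = FF f := ext_ev3 fun s x y => by
    rw [ev3_sg, hadd, FF, ev3_SS]
    simp only [polar, map_add, ev2_C]
    linear_combination aeval s f * h2
  have htr : sg (C X * X * (X + C X) : k[X][X]) = triv k := by
    simp only [triv, map_mul, map_add]
    simp [sg_apply]
  have key := hDO k φ (polar f) (fun a b h => ⟨hbit a b h, hbit b a (by rwa [hsym])⟩) hsym
    (fun a => by
      rw [coeff_polar h0]
      split_ifs with h
      · rfl
      · obtain ⟨a, rfl⟩ := Nat.exists_eq_succ_of_ne_zero fun h' => h (Or.inl h')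
        rw [← two_mul, ← Nat.centralBinom_eq_two_mul_choose,
          (CharP.cast_eq_zero_iff k 2 _).2 (Nat.two_dvd_centralBinom_of_one_le (by omega)), zero_mul])
    (by
      rw [polar, map_add, mp2_DD, hc.fix]
      simp [mp2, hc.fix])
    (fun P hP h3 h4 => by
      have h5 := hc.exc (sg P) (irreducible_sg hP) (by rw [← hsg]; exact map_dvd sg h3)
        (by rw [mp3_sg]; exact map_dvd sg h4)
      rw [← htr] at h5
      simpa only [map_sg] using Polynomial.map_dvd (evalRingHom (0 : k[X])) h5)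
    (by
      rw [hrow]
      exact fun h => hc.deg (by rw [h, natDegree_zero]))
  rw [hrow] at key
  refine tame_iff.2 fun c o ho hne => ?_
  have main : ∀ a b, a < b → 2 ^ c * o = 2 ^ a + 2 ^ b → o ≤ (derivative f).natDegree + 1 := by
    intro a b hab h
    obtain ⟨d, rfl⟩ := Nat.exists_eq_add_of_lt hab
    have h3 : 2 ^ c * o = 2 ^ a * (2 ^ (d + 1) + 1) := by rw [h]; ring
    obtain ⟨rfl, rfl⟩ := odd_part_unique ho (Nat.even_pow.2 ⟨even_two, by omega⟩).add_one h3
    have h4 := key c (c + d + 1) (by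
      rw [coeff_polar h0, if_neg (by simp), add_comm, ← h, choose_two_pow_self c ho, one_mul]
      exact hne)
    rw [add_assoc, pow_add] at h4
    exact Nat.succ_le_succ (Nat.le_of_mul_le_mul_left h4 (by positivity))
  obtain ⟨a, b, h⟩ := hq _ hne
  rcases lt_trichotomy a b with hab | rfl | hab
  · exact main a b hab h
  · exact absurd (Or.inr ⟨a + 1, by rw [h]; ring⟩) (hl _ hne)
  · exact main b a hab (by rw [h, add_comm])

theorem tame_of_exc [IsAlgClosed k] (hDO : WildDO) (hN : NonDO) (hK : WildK) {φ : k ≃+* k}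
    {f : k[X]} (hc : Ctx φ f) (hl : ∀ e, f.coeff e ≠ 0 → ¬ Lin e) {r t : ℕ} (hr : r ≠ 1)
    (ht : Gold t ∨ Kasami t) (hd : f.natDegree = 2 ^ r * t) : Tame f := by
  have gold : ∀ j, 2 ≤ r → 1 ≤ j → f.natDegree = 2 ^ r * (2 ^ j + 1) → Tame f :=
    fun j hr hj hd => by_contra fun h => h (tame_of_DO hDO hc hl (hN k φ f r j hc hl h hr hj hd))
  rcases Nat.eq_zero_or_pos r with rfl | hr0
  · refine tame_iff.2 fun c o ho hne => ?_
    obtain ⟨h1, h3⟩ := odd_of_gk ht
    rw [pow_zero, one_mul] at hd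
    have h2 : (derivative f).coeff (t - 1) ≠ 0 := by
      rw [coeff_derivative_odd h1, ← hd]
      refine leadingCoeff_ne_zero.2 ?_
      rintro rfl
      rw [natDegree_zero] at hd
      omega
    have h4 := le_natDegree_of_ne_zero h2
    have h5 := le_natDegree_of_ne_zero hne
    have h6 : o ≤ 2 ^ c * o := Nat.le_mul_of_pos_left o (by positivity)
    omega
  rcases ht with ⟨j, hj, rfl⟩ | ⟨j, hj, rfl⟩
  · exact gold j (by omega) hj hd
  · rcases hj.eq_or_lt with rfl | hj
    · exact gold 1 (by omega) le_rfl hd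
    · exact hK k φ f r j hc hl (by omega) hj hd

end

/-- The largest odd part of an exponent occurs at the lowest power of two. -/
theorem lowest_level (hB : ExistsPAC) (hC : TopReduction) (hM : BigFactor) (hsurf : SurfPAC)
    (hDO : WildDO) (hN : NonDO) (hK : WildK) (F : Type) [Field F] [Fintype F] [CharP F 2]
    (f : F[X]) (hf : ExcAPN f) :
    ∃ ν e : ℕ, Odd e ∧ e ≠ 1 ∧ f.coeff (2 ^ ν * e) ≠ 0 ∧
      ∀ c o : ℕ, Odd o → o ≠ 1 → f.coeff (2 ^ c * o) ≠ 0 → ν ≤ c ∧ o ≤ e := by
  classical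
  obtain ⟨a, -, ha⟩ := FiniteField.card F 2
  let k₀ := AlgebraicClosure F
  have halg : ∀ c : k₀, ∃ N, 1 ≤ N ∧ c ^ 2 ^ N = c := fun c => by
    have hi : IsIntegral F c := Algebra.IsIntegral.isIntegral c
    have := IntermediateField.adjoin.finiteDimensional hi
    have : Finite (IntermediateField.adjoin F {c}) := Module.finite_of_finite F
    let := Fintype.ofFinite (IntermediateField.adjoin F {c})
    obtain ⟨N, -, hN⟩ := FiniteField.card (IntermediateField.adjoin F {c}) 2
    refine ⟨N, N.2, ?_⟩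
    have h := FiniteField.pow_card (IntermediateField.AdjoinSimple.gen F c)
    rw [hN] at h
    exact congrArg Subtype.val h
  obtain ⟨k, _, _, _, _, φ, φ₀, t, hφ, h₀, ht, ht', hfix, hapn⟩ := hB k₀ halg _
    (hf.image (f := fun m => (a : ℕ) * m) fun m _ m' _ h => Nat.eq_of_mul_eq_mul_left a.2 h)
  have hφ₀ : ∀ c : F, φ₀ (algebraMap F k₀ c) = algebraMap F k₀ c := fun c => hfix _ (by
    rintro s ⟨m, -, rfl⟩
    rw [← map_pow, pow_mul, ← ha, FiniteField.pow_card_pow])
  let φ₁ : k₀ ≃+* k₀ := RingEquiv.ofBijective φ₀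
    (Algebra.IsAlgebraic.algHom_bijective (⟨φ₀, hφ₀⟩ : k₀ →ₐ[F] k₀))
  let ι : F →+* k := (algebraMap k₀ k).comp (algebraMap F k₀)
  have hι : ∀ c, φ (ι c) = ι c := fun c => by simp [ι, h₀, hφ₀]
  have h1 : APNFix φ (f.map ι) := by
    rw [← Polynomial.map_map]
    refine hapn _ ?_
    rintro s ⟨m, ⟨hm, E, _, _, hE, h⟩, rfl⟩
    exact apnFix_of_isAPN ha k₀ hm hE h
  have h2 := apn_nl ι h1
  have h3 : (nl f).natDegree ≠ 0 := fun h => by
    have h4 : nl f = 0 := by
      rw [eq_C_of_natDegree_eq_zero h, coeff_nl, if_pos (show Lin 0 from Or.inl rfl), map_zero]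
    rw [h4] at h2
    rcases h2 0 1 t (map_zero φ) (map_one φ) ht (by simp) with h | h | h
    · exact zero_ne_one h
    · exact ht' (h ▸ isAlgebraic_one)
    · exact ht' (h ▸ isAlgebraic_zero)
  obtain ⟨μ, h, hh, hh'⟩ := exists_contract _ h3
  have h4 : APNFix φ (h.map ι) := apn_of_expand ι μ (hh ▸ h2)
  have hco : ∀ j, (nl f).coeff (j * 2 ^ μ) = h.coeff j := fun j => by
    rw [hh, coeff_expand_mul (by positivity)]
  have h5 : ∀ j, h.coeff j ≠ 0 → ¬ Lin j := fun j hj hl =>
    ((nl_ne_iff f _).1 (hco j ▸ hj)).2 (hl.mul_pow μ)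
  obtain ⟨ho, hoc⟩ := odd_natDegree_derivative hh'
  have hdeg : (derivative h).natDegree ≠ 0 := fun h0 =>
    h5 _ hoc (Or.inr ⟨0, by rw [h0]; rfl⟩)
  have h0 : h ≠ 0 := by
    rintro rfl
    exact hh' derivative_zero
  have h6 := h5 _ (leadingCoeff_ne_zero.2 h0)
  obtain ⟨r, e, he, hd⟩ := Nat.exists_eq_two_pow_mul_odd (n := h.natDegree)
    fun h => h6 (Or.inl h)
  obtain ⟨hr, hg⟩ := hC k φ hφ (h.map ι) r e h4 (by ext j; simp [hι])
    (fun j hj => h5 j (by simpa using hj))
    (by rw [derivative_map]; exact (Polynomial.map_ne_zero_iff ι.injective).2 hh') he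
    (by rw [natDegree_map, hd])
  have he1 : e ≠ 1 := by
    rintro rfl
    exact h6 (Or.inr ⟨r, by rw [hd, mul_one]⟩)
  have hdeg₀ : (derivative (h.map (algebraMap F k₀))).natDegree ≠ 0 := by
    rwa [derivative_map, natDegree_map]
  have htame := tame_iff.1 (tame_of_exc hDO hN hK (φ := φ₁) (f := h.map (algebraMap F k₀))
    ⟨by ext j; rw [coeff_map, coeff_map]; exact hφ₀ _, hsurf k₀ k φ φ₀ t hφ h₀ ht ht' halg _ hdeg₀
      (by rwa [Polynomial.map_map]), hdeg₀⟩ (fun j hj => h5 j (by simpa using hj)) hr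
    (gold_or_kasami hM hφ he he1 hg) (by rw [natDegree_map, hd]))
  rw [derivative_map, natDegree_map] at htame
  refine ⟨μ, _, ho, by omega, ?_, fun c o ho' ho1 hc => ?_⟩
  · rw [mul_comm]
    exact ((nl_ne_iff f _).1 (hco _ ▸ hoc)).1
  have h7 : (nl f).coeff (2 ^ c * o) ≠ 0 :=
    (nl_ne_iff f _).2 ⟨hc, fun h => ho1 ((lin_iff ho').1 h)⟩
  have h8 : μ ≤ c := by
    rw [hh, coeff_expand (by positivity)] at h7
    split_ifs at h7 with hd
    · exact (Nat.pow_dvd_pow_iff_le_right one_lt_two).1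
        ((Nat.Coprime.pow_left μ (Nat.coprime_two_left.2 ho')).dvd_of_dvd_mul_right hd)
    · exact absurd rfl h7
  obtain ⟨c, rfl⟩ := Nat.exists_eq_add_of_le h8
  rw [show 2 ^ (μ + c) * o = 2 ^ c * o * 2 ^ μ by ring, hco] at h7
  exact ⟨h8, htame c o ho' (by simpa using h7)⟩

end Pool.Agent.Lib.MP_346d6a_co
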