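import Pool.Agent.Lib.MP_346d6a_co.Defs

/-!
Affine polynomials.
-/

namespace Pool.Agent.Lib.MP_346d6a_co

open Polynomial

/-- Affine polynomials: every exponent that occurs is zero or a power of two. -/
def AffPoly {F : Type} [Field F] (A : F[X]) : Prop :=
  ∀ i, A.coeff i ≠ 0 → i = 0 ∨ ∃ k, i = 2 ^ k

/-- `t` is the Gold number or the Kasami-Welch number with parameter `j ≥ 1`. -/
def GKW (j t : ℕ) : Prop := 1 ≤ j ∧ (t = 2 ^ j + 1 ∨ t = 4 ^ j - 2 ^ j + 1)

end Pool.Agent.Lib.MP_346d6a_co
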