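import Pool.Agent.Lib.MP_346d6a_co.X42Def

/-!
Gold and Kasami-Welch monomials on a finite field, and invariance of the APN property.
-/

namespace Pool.Agent.Lib.MP_346d6a_co.X42

variable {E : Type} [Field E] [Finite E] [CharP E 2]

theorem apn_iff {G : E → E} : IsAPN G ↔ ∀ s, s ≠ 0 → ∀ u w : E,
    G (w + s) + G w = G (u + s) + G u → w = u ∨ w = u + s := by
  have h2 : (2 : E) = 0 := CharTwo.two_eq_zero
  constructor
  · intro h s hs u w he
    by_contra hn
    push Not at hn
    have h5 : ({u, u + s, w} : Set E) ⊆ {x | G (x + s) + G x = G (u + s) + G u} := by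
      rintro x (rfl | rfl | rfl)
      · rfl
      · rw [Set.mem_ofPred_eq, show u + s + s = u by linear_combination s * h2, add_comm]
      · exact he
    have h6 := Set.ncard_le_ncard h5 (Set.toFinite _)
    rw [Set.ncard_eq_three.2 ⟨u, u + s, w, by simpa using hs, hn.1.symm, hn.2.symm, rfl⟩] at h6
    exact absurd (h6.trans (h s _ hs)) (by norm_num)
  · intro h s β hs
    rcases Set.eq_empty_or_nonempty {x : E | G (x + s) + G x = β} with h0 | ⟨u, hu⟩
    · rw [h0, Set.ncard_empty]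
      omega
    · refine (Set.ncard_le_ncard (t := {u, u + s}) (fun w hw => ?_) (Set.toFinite _)).trans
        ((Set.ncard_insert_le _ _).trans (by rw [Set.ncard_singleton]))
      exact h s hs u w (Eq.trans hw (Eq.symm hu))

/-- The graph of an APN function is a Sidon set. -/
theorem apn_iff_sidon {G : E → E} : IsAPN G ↔ ∀ a b c d : E × E, a.2 = G a.1 → b.2 = G b.1 →
    c.2 = G c.1 → d.2 = G d.1 → a + b = c + d → a = b ∨ a = c ∨ a = d := by
  have h2 : (2 : E) = 0 := CharTwo.two_eq_zero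
  rw [apn_iff]
  constructor
  · rintro h ⟨x, _⟩ ⟨y, _⟩ ⟨z, _⟩ ⟨w, _⟩ ha hb hc hd he
    simp only at ha hb hc hd
    subst ha hb hc hd
    have e1 : x + y = z + w := congrArg Prod.fst he
    have e2 : G x + G y = G z + G w := congrArg Prod.snd he
    by_cases hxy : x = y
    · exact Or.inl (by rw [hxy])
    have hs : x + y ≠ 0 := fun h0 => hxy (by linear_combination h0 - y * h2)
    have g1 : x + (x + y) = y := by linear_combination x * h2
    have g2 : z + (x + y) = w := by linear_combination e1 + z * h2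
    rcases h (x + y) hs z x (by rw [g1, g2, add_comm, e2, add_comm]) with h1 | h1
    · exact Or.inr (Or.inl (by rw [h1]))
    · exact Or.inr (Or.inr (by rw [← g2, ← h1]))
  · intro h s hs u w he
    rcases h (w, G w) (w + s, G (w + s)) (u, G u) (u + s, G (u + s)) rfl rfl rfl rfl
      (Prod.ext (by simp only [Prod.fst_add]; linear_combination (w - u) * h2)
        (by simp only [Prod.snd_add]; linear_combination he)) with h1 | h1 | h1
    · exact absurd (by simpa using congrArg Prod.fst h1) hs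
    · exact Or.inl (congrArg Prod.fst h1)
    · exact Or.inr (congrArg Prod.fst h1)

theorem ccz_apn {G H : E → E} (h : CCZ G H) : IsAPN G ↔ IsAPN H := by
  obtain ⟨L, c, h⟩ := h
  have hinj : Function.Injective fun p : E × E => L p + c := fun p q hpq =>
    L.injective (add_right_cancel hpq)
  have h1 : ∀ p : E × E, p.2 = G p.1 → (L p + c).2 = H (L p + c).1 := fun p hp =>
    (h ▸ ⟨p, hp, rfl⟩ : L p + c ∈ {p : E × E | p.2 = H p.1})
  have h2 : ∀ q : E × E, q.2 = H q.1 → ∃ p : E × E, p.2 = G p.1 ∧ L p + c = q := fun q hq =>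
    (h.symm ▸ hq : q ∈ (fun p => L p + c) '' {p : E × E | p.2 = G p.1})
  rw [apn_iff_sidon, apn_iff_sidon]
  constructor
  · intro hG a b c' d ha hb hc hd he
    obtain ⟨a, ha', rfl⟩ := h2 a ha
    obtain ⟨b, hb', rfl⟩ := h2 b hb
    obtain ⟨c', hc', rfl⟩ := h2 c' hc
    obtain ⟨d, hd', rfl⟩ := h2 d hd
    have e : a + b = c' + d := L.injective (by
      rw [map_add, map_add]
      rw [add_add_add_comm, add_add_add_comm (L c')] at he
      exact add_right_cancel he)
    rcases hG a b c' d ha' hb' hc' hd' e with h3 | h3 | h3 <;> simp [h3]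
  · intro hH a b c' d ha hb hc hd he
    have e : L a + c + (L b + c) = L c' + c + (L d + c) := by
      rw [add_add_add_comm, add_add_add_comm (L c'), ← map_add, ← map_add, he]
    exact (hH _ _ _ _ (h1 a ha) (h1 b hb) (h1 c' hc) (h1 d hd) e).imp (fun h3 => hinj h3)
      (Or.imp (fun h3 => hinj h3) fun h3 => hinj h3)

theorem fix_two {N j : ℕ} (hN : Nat.card E = 2 ^ N) (hj : j.Coprime N) {x : E}
    (hx : x ^ 2 ^ j = x) : x = 0 ∨ x = 1 := by
  let _ : Fintype E := Fintype.ofFinite E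
  have h1 : x ^ 2 ^ N = x := by
    rw [← hN, Nat.card_eq_fintype_card, FiniteField.pow_card]
  have h2 : ∀ k, x ^ 2 ^ k = x → Function.IsPeriodicPt (frobenius E 2) k x := fun k hk => by
    rw [Function.IsPeriodicPt, Function.IsFixedPt, iterate_frobenius, hk]
  have h3 := (h2 j hx).gcd (h2 N h1)
  rw [hj, Function.IsPeriodicPt, Function.IsFixedPt, iterate_frobenius, pow_one] at h3
  rcases mul_eq_zero.1 (show x * (x - 1) = 0 by linear_combination h3) with h | h
  · exact Or.inl h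
  · exact Or.inr (sub_eq_zero.1 h)

theorem apn_pow {t : ℕ} (h : ∀ u w : E, (w + 1) ^ t + w ^ t = (u + 1) ^ t + u ^ t →
    w = u ∨ w = u + 1) : IsAPN fun x : E => x ^ t := by
  refine apn_iff.2 fun s hs u w he => ?_
  have e : ∀ z : E, (z + s) ^ t + z ^ t = s ^ t * ((z / s + 1) ^ t + (z / s) ^ t) := fun z => by
    rw [mul_add, ← mul_pow, ← mul_pow, mul_add, mul_div_cancel₀ _ hs, mul_one]
  simp only [e] at he
  rcases h _ _ (mul_left_cancel₀ (pow_ne_zero t hs) he) with h1 | h1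
  · exact Or.inl (by field_simp at h1; exact h1)
  · exact Or.inr (by field_simp at h1; exact h1)

theorem kw_add (j : ℕ) : 4 ^ j - 2 ^ j + 1 + 2 ^ j = 2 ^ j * 2 ^ j + 1 := by
  have h1 : 2 ^ j ≤ 4 ^ j := Nat.pow_le_pow_left (by norm_num) j
  have h2 : 4 ^ j = 2 ^ j * 2 ^ j := by rw [← Nat.mul_pow]
  omega

omit [Finite E] in
/-- The derivative of the Kasami-Welch monomial. -/
theorem kw_der (j : ℕ) (x : E) :
    ((x + 1) ^ (4 ^ j - 2 ^ j + 1) + x ^ (4 ^ j - 2 ^ j + 1) + 1) * (x ^ 2 ^ j * (x ^ 2 ^ j + 1)) =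
      ((x ^ 2 ^ j) ^ 2 ^ j + x ^ 2 ^ j) * (x ^ 2 ^ j + x) := by
  have h2 : (2 : E) = 0 := CharTwo.two_eq_zero
  have e : ∀ y : E, y ^ (4 ^ j - 2 ^ j + 1) * y ^ 2 ^ j = (y ^ 2 ^ j) ^ 2 ^ j * y := fun y => by
    rw [← pow_add, kw_add, pow_succ, pow_mul]
  have e1 := e x
  have e2 := e (x + 1)
  rw [add_pow_char_pow, add_pow_char_pow, one_pow, one_pow] at e2
  generalize (x + 1) ^ (4 ^ j - 2 ^ j + 1) = a at e2 ⊢
  generalize x ^ (4 ^ j - 2 ^ j + 1) = b at e1 ⊢
  generalize (x ^ 2 ^ j) ^ 2 ^ j = X2 at e1 e2 ⊢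
  generalize x ^ 2 ^ j = X1 at e1 e2 ⊢
  linear_combination X1 * e2 + (X1 + 1) * e1 + (X1 * X2 * x + X1) * h2

theorem apn_kw {N j : ℕ} (hN : Nat.card E = 2 ^ N) (hj : j.Coprime N) :
    IsAPN fun x : E => x ^ (4 ^ j - 2 ^ j + 1) := by
  have h2 : (2 : E) = 0 := CharTwo.two_eq_zero
  let φ : E →+* E := iterateFrobenius E 2 j
  have hφ : ∀ x, φ x = x ^ 2 ^ j := fun x => rfl
  have hfix : ∀ x, φ x = x → x = 0 ∨ x = 1 := fun x hx => fix_two hN hj hx
  let D : E → E := fun x => (x + 1) ^ (4 ^ j - 2 ^ j + 1) + x ^ (4 ^ j - 2 ^ j + 1) + 1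
  have hD : ∀ x, D x * (φ x * (φ x + 1)) = (φ (φ x) + φ x) * (φ x + x) := fun x => kw_der j x
  have hD0 : D 0 = 0 := by
    simp only [D]
    rw [zero_add, one_pow, zero_pow (Nat.succ_ne_zero _), add_zero, CharTwo.add_self_eq_zero]
  have hD1 : D 1 = 0 := by
    simp only [D]
    rw [CharTwo.add_self_eq_zero, one_pow, zero_pow (Nat.succ_ne_zero _), zero_add,
      CharTwo.add_self_eq_zero]
  have hne : ∀ x, ¬ (x = 0 ∨ x = 1) → φ x + x ≠ 0 := fun x hx h0 =>
    hx (hfix x (by linear_combination h0 - x * h2))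
  have hD2 : ∀ x, D x = 0 → x = 0 ∨ x = 1 := fun x hx => by
    by_contra hn
    have h1 := hD x
    rw [hx, zero_mul, ← map_add, eq_comm, mul_eq_zero, map_eq_zero, or_self] at h1
    exact hne x hn h1
  refine apn_pow fun y x he => ?_
  have he' : D x = D y := congrArg (· + 1) he
  by_cases hy : y = 0 ∨ y = 1
  · have h1 : D x = 0 := by
      rcases hy with rfl | rfl
      · rw [he', hD0]
      · rw [he', hD1]
    rcases hD2 x h1 with rfl | rfl <;> rcases hy with rfl | rfl <;>
      simp [CharTwo.add_self_eq_zero]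
  have hx : ¬ (x = 0 ∨ x = 1) := fun hx => hy (hD2 y (by
    rcases hx with rfl | rfl
    · rw [← he', hD0]
    · rw [← he', hD1]))
  have hS := hne y hy
  obtain ⟨R, hR⟩ : ∃ R, R * (φ y + y) = φ x + x := ⟨_, div_mul_cancel₀ _ hS⟩
  have hR0 : R ≠ 0 := fun h => hne x hx (by rw [← hR, h, zero_mul])
  have hR' : φ R * (φ (φ y) + φ y) = φ (φ x) + φ x := by rw [← map_add, ← map_mul, hR, map_add]
  have hDy : D y ≠ 0 := fun h => hy (hD2 y h)
  have hrel : φ R * R * (φ y * (φ y + 1)) = φ x * (φ x + 1) := by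
    refine mul_left_cancel₀ hDy ?_
    have g1 := hD x
    have g2 := hD y
    rw [he', ← hR, ← hR'] at g1
    linear_combination (φ R * R) * g2 - g1
  obtain ⟨γ, hγ⟩ : ∃ γ, γ * R = (x + y) * R + R ^ 2 * (y * (y + 1)) + x * (x + 1) :=
    ⟨_, div_mul_cancel₀ _ hR0⟩
  have hγ' := congrArg φ hγ
  simp only [map_add, map_mul, map_pow, map_one] at hγ'
  have hφR : φ R ≠ 0 := (map_ne_zero φ).2 hR0
  have hγ1 : φ γ = φ x + φ y + φ R * (φ y * (φ y + 1)) + R * (φ y * (φ y + 1)) := by
    refine mul_right_cancel₀ hφR ?_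
    linear_combination hγ' - hrel
  have hγ2 : φ γ = γ := by
    refine mul_right_cancel₀ hR0 ?_
    rw [hγ, hγ1]
    have hX : φ x = R * (φ y + y) - x := by linear_combination -hR
    rw [hX] at hrel ⊢
    linear_combination hrel + (R ^ 2 * φ y ^ 2 + R ^ 2 * φ y + R ^ 2 * φ y * y + R * φ y - R * x -
      R * φ y * x - R * y * x - x) * h2
  have key : ∀ a b : E, R * (φ b + b) = φ a + a → φ b ≠ 0 → a = R * b → a = b := by
    intro a b g1 g2 g3
    have g4 := congrArg φ g3
    rw [map_mul] at g4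
    have g5 : φ R = R := mul_right_cancel₀ g2 (by linear_combination -g3 - g4 - g1)
    rcases hfix R g5 with h | h
    · exact absurd h hR0
    · rw [g3, h, one_mul]
  have hy0 : φ y ≠ 0 := (map_ne_zero φ).2 fun h => hy (Or.inl h)
  have hy1 : φ (y + 1) ≠ 0 := (map_ne_zero φ).2 fun h =>
    hy (Or.inr (by linear_combination h - h2))
  have main : ∀ a : E, R * (φ y + y) = φ a + a →
      (a + y) * R + R ^ 2 * (y * (y + 1)) + a * (a + 1) = 0 → a = y := fun a g1 g2 => by
    have g3 : (a - R * y) * (a + 1 - R * (y + 1)) = 0 := by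
      linear_combination g2 - (a * R + R * y + a * R * y) * h2
    rcases mul_eq_zero.1 g3 with g4 | g4
    · exact key a y g1 hy0 (sub_eq_zero.1 g4)
    · refine add_right_cancel (key (a + 1) (y + 1) ?_ hy1 (sub_eq_zero.1 g4))
      simp only [map_add, map_one]
      linear_combination g1 + (R - 1) * h2
  rcases hfix γ hγ2 with h | h
  · exact Or.inl (main x hR (by rw [← hγ, h, zero_mul]))
  · have := main (x + 1) (by rw [map_add, map_one]; linear_combination hR - h2)
      (by rw [h] at hγ; linear_combination -hγ + (R + x + 1) * h2)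
    exact Or.inr (by linear_combination this - h2)

theorem apn_gold {N j : ℕ} (hN : Nat.card E = 2 ^ N) (hj : j.Coprime N) :
    IsAPN fun x : E => x ^ (2 ^ j + 1) := by
  have h2 : (2 : E) = 0 := CharTwo.two_eq_zero
  refine apn_pow fun u w he => ?_
  rw [pow_succ, pow_succ, pow_succ, pow_succ, add_pow_char_pow, add_pow_char_pow, one_pow] at he
  rcases fix_two hN hj (x := w + u) (by
    rw [add_pow_char_pow]
    linear_combination he + (u ^ 2 ^ j - w + u ^ 2 ^ j * u - w ^ 2 ^ j * w) * h2) with h | h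
  · exact Or.inl (by linear_combination h - u * h2)
  · exact Or.inr (by linear_combination h - u * h2)

theorem apn_of_coprime {N j t : ℕ} (hN : Nat.card E = 2 ^ N) (ht : GKW j t) (hj : j.Coprime N) :
    IsAPN fun x : E => x ^ t := by
  rcases ht.2 with rfl | rfl
  · exact apn_gold hN hj
  · exact apn_kw hN hj

theorem coprime_of_apn {N j t : ℕ} (hN : Nat.card E = 2 ^ N) (ht : GKW j t)
    (h : IsAPN fun x : E => x ^ t) : j.Coprime N := by
  have h2 : (2 : E) = 0 := CharTwo.two_eq_zero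
  by_contra hn
  have hd0 : 0 < j.gcd N := Nat.gcd_pos_of_pos_left _ ht.1
  have hd : 2 ≤ j.gcd N := by
    have : j.gcd N ≠ 1 := hn
    omega
  obtain ⟨g, hg⟩ := IsCyclic.exists_ofOrder_eq_natCard (α := Eˣ)
  rw [Nat.card_units, hN] at hg
  have hk : 2 ^ j.gcd N - 1 ∣ orderOf g := by
    rw [hg]
    exact Nat.pow_sub_one_dvd_pow_sub_one 2 (Nat.gcd_dvd_right j N)
  have h4 : 4 ≤ 2 ^ j.gcd N := Nat.pow_le_pow_right (n := 2) two_pos hd
  have ho := orderOf_pow_orderOf_div (orderOf_pos g).ne' hk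
  generalize g ^ (orderOf g / (2 ^ j.gcd N - 1)) = v at ho
  have hv1 : (v : E) ≠ 1 := fun h1 => by
    rw [Units.val_eq_one.1 h1, orderOf_one] at ho
    omega
  have hv : (v : E) ^ 2 ^ j = v := by
    have g1 : v ^ (2 ^ j - 1) = 1 := orderOf_dvd_iff_pow_eq_one.1
      (ho ▸ Nat.pow_sub_one_dvd_pow_sub_one 2 (Nat.gcd_dvd_left j N))
    have g2 : 2 ^ j = 2 ^ j - 1 + 1 := (Nat.sub_add_cancel Nat.one_le_two_pow).symm
    rw [g2, pow_succ, ← Units.val_pow_eq_pow_val, g1, Units.val_one, one_mul]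
  have hv' : ((v : E) + 1) ^ 2 ^ j = v + 1 := by rw [add_pow_char_pow, hv, one_pow]
  have he : ((v : E) + 1) ^ t + (v : E) ^ t = (0 + 1) ^ t + 0 ^ t := by
    rcases ht.2 with rfl | rfl
    · rw [pow_succ, pow_succ, hv, hv', zero_add, one_pow, zero_pow (Nat.succ_ne_zero _)]
      linear_combination ((v : E) * v + v) * h2
    · have e : ∀ y : E, y ≠ 0 → y ^ 2 ^ j = y → y ^ (4 ^ j - 2 ^ j + 1) = y := fun y g1 g2 => by
        refine mul_right_cancel₀ (pow_ne_zero (2 ^ j) g1) ?_
        rw [← pow_add, kw_add, pow_succ, pow_mul, g2, g2]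
      rw [e _ v.ne_zero hv, e _ (fun g => hv1 (by linear_combination g - h2)) hv', zero_add,
        one_pow, zero_pow (Nat.succ_ne_zero _)]
      linear_combination (v : E) * h2
  rcases apn_iff.1 h 1 one_ne_zero 0 v he with h1 | h1
  · exact v.ne_zero h1
  · exact hv1 (by rw [h1, zero_add])

end Pool.Agent.Lib.MP_346d6a_co.X42
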