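import Pool.Agent.Lib.MP_346d6a_co.TFin
import Pool.Agent.Lib.MP_346d6a_co.TMain
import Pool.Agent.Lib.MP_346d6a_co.X42Pow

/-!
Polynomials of the shape `L₁ (L₂ ^ t) + A` on finite extensions.
-/

set_option linter.unusedSectionVars false

namespace Pool.Agent.Lib.MP_346d6a_co.X42

open Polynomial

section fin

variable {E : Type} [Field E] [Finite E] [CharP E 2] {L₁ L₂ B : E →+ E} {c b : E} {t : ℕ}
  {G : E → E} (hG : ∀ x, G x = L₁ ((L₂ x + c) ^ t) + B x + b) (hA : IsAPN G)

include hA in
theorem not_const (hE : 2 < Nat.card E) {κ β : E} (hκ : κ ≠ 0)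
    (h : ∀ x, G (x + κ) + G x = β) : False := by
  have h1 := hA κ β hκ
  rw [Set.eq_univ_of_forall (s := {x : E | G (x + κ) + G x = β}) h, Set.ncard_univ] at h1
  omega

include hG hA in
theorem inj_two (hE : 2 < Nat.card E) : Function.Injective L₂ := by
  have h2 : (2 : E) = 0 := CharTwo.two_eq_zero
  rw [injective_iff_map_eq_zero]
  intro κ hκ
  by_contra hne
  refine not_const hA hE hne (β := B κ) fun x => ?_
  rw [hG, hG, map_add, map_add, hκ, add_zero]
  linear_combination (L₁ ((L₂ x + c) ^ t) + B x + b) * h2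

include hG hA in
theorem inj_one (ht : 1 ≤ t) (ht' : t + 1 < Nat.card E) : Function.Injective L₁ := by
  have h2 : (2 : E) = 0 := CharTwo.two_eq_zero
  have hL₂ := inj_two hG hA (by omega)
  let σ : E ≃+ E := AddEquiv.ofBijective L₂ (Finite.injective_iff_bijective.1 hL₂)
  have hσ : ∀ x, L₂ (σ.symm x) = x := fun x => σ.apply_symm_apply x
  refine TFin.inj_of_pow L₁ ht ht' fun s hs u w he => ?_
  have e : ∀ z : E, G (σ.symm (z - c) + σ.symm s) + G (σ.symm (z - c)) =
      L₁ ((z + s) ^ t + z ^ t) + B (σ.symm s) := fun z => by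
    rw [hG, hG, map_add L₂, map_add B, map_add L₁, hσ, hσ, sub_add_cancel,
      show z - c + s + c = z + s by ring]
    linear_combination (B (σ.symm (z - c)) + b) * h2
  have h1 := TFin.two_to_one hA (s := σ.symm s) (by simpa using hs) (u := σ.symm (u - c))
    (w := σ.symm (w - c)) (by rw [e, e, he])
  rcases h1 with h1 | h1
  · exact Or.inl (sub_left_injective (σ.symm.injective h1))
  · rw [← map_add] at h1
    exact Or.inr (by linear_combination σ.symm.injective h1)

include hG hA in
/-- No restriction on the size of the field. -/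
theorem ccz_all (ht : 1 ≤ t) : CCZ G fun x => x ^ t := by
  have h2 : (2 : E) = 0 := CharTwo.two_eq_zero
  let _ : Fintype E := Fintype.ofFinite E
  have hc : 1 < Nat.card E := Finite.one_lt_card
  have hone : ∀ y : E, y ≠ 0 → y ^ (Nat.card E - 1) = 1 := fun y hy => by
    rw [Nat.card_eq_fintype_card]
    exact FiniteField.pow_card_sub_one_eq_one y hy
  rcases (show Nat.card E = 2 ∨ 2 < Nat.card E by omega) with hE | hE
  · have h01 : ∀ x : E, x = 0 ∨ x = 1 := fun x => by
      by_cases hx : x = 0
      · exact Or.inl hx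
      · have := hone x hx
        rw [hE, pow_one] at this
        exact Or.inr this
    refine TFin.ccz_of_equiv (AddEquiv.refl E) (AddEquiv.refl E)
      (AddMonoidHom.mulLeft (G 1 - G 0 - 1)) (G 0) 0 fun x => ?_
    rcases h01 x with rfl | rfl
    · simp [zero_pow (show t ≠ 0 by omega)]
    · simp
  by_cases hd : t % (Nat.card E - 1) = 0
  · have hp : ∀ y : E, y ^ t = 0 ∨ y ^ t = 1 := fun y => by
      by_cases hy : y = 0
      · exact Or.inl (by rw [hy, zero_pow (by omega)])
      · obtain ⟨k, hk⟩ := Nat.dvd_of_mod_eq_zero hd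
        exact Or.inr (by rw [hk, pow_mul, hone y hy, one_pow])
    have h1 : ∀ y : E, L₁ (y ^ t) = L₁ 1 * y ^ t := fun y => by
      rcases hp y with h | h <;> simp [h]
    have ha : L₁ 1 ≠ 0 := fun ha => by
      refine not_const hA hE one_ne_zero (β := B 1) fun x => ?_
      rw [hG, hG, h1, h1, ha, map_add B]
      linear_combination (B x + b) * h2
    refine TFin.ccz_of_equiv
      (AddEquiv.ofBijective L₂ (Finite.injective_iff_bijective.1 (inj_two hG hA hE)))
      (AddEquiv.ofBijective (AddMonoidHom.mulLeft (L₁ 1))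
        (Finite.injective_iff_bijective.1 (mul_right_injective₀ ha))) B b c fun x => ?_
    rw [hG, h1]
    rfl
  · have hlt := Nat.mod_lt t (show 0 < Nat.card E - 1 by omega)
    have hp : ∀ y : E, y ^ t = y ^ (t % (Nat.card E - 1)) := fun y => by
      by_cases hy : y = 0
      · rw [hy, zero_pow (by omega), zero_pow hd]
      · exact pow_eq_pow_mod t (hone y hy)
    simp only [hp] at hG ⊢
    exact finCCZ E L₁ L₂ B c b _ G hG hA (by omega) (by omega)

end fin

variable {F : Type} [Field F] [CharP F 2] {f L₁ L₂ A L : F[X]}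

theorem form_eval (h₁ : Aff L₁) (h₂ : Aff L₂) (hA : Aff A) {t : ℕ}
    (hf : f = L₁.comp (L₂ ^ t) + A) (E : Type) [Field E] [CharP E 2] [Algebra F E] (x : E) :
    aeval x f = h₁.hom E ((h₂.hom E x + algebraMap F E (L₂.coeff 0)) ^ t) + hA.hom E x +
      (algebraMap F E (L₁.coeff 0) + algebraMap F E (A.coeff 0)) := by
  have h2 : (2 : E) = 0 := CharTwo.two_eq_zero
  simp only [Aff.hom_apply]
  rw [add_assoc (aeval x L₂), CharTwo.add_self_eq_zero, add_zero, hf, map_add, aeval_comp, map_pow]
  linear_combination -(algebraMap F E (L₁.coeff 0) + algebraMap F E (A.coeff 0)) * h2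

theorem bij_of_inj [Finite F] (h : Aff L) (E : Type) [Field E] [CharP E 2] [Algebra F E]
    (hi : Function.Injective (h.hom E)) : Function.Bijective fun x : F => L.eval x := by
  refine Finite.injective_iff_bijective.1 fun x y hxy => (algebraMap F E).injective (hi ?_)
  simp only [Aff.hom_apply, aeval_algebraMap_apply_eq_algebraMap_eval]
  exact congrArg (fun z => algebraMap F E z + _) hxy

theorem inj_of_prime (h : Aff L) (hb : Function.Injective fun x : F => L.eval x) (E : Type)
    [Field E] [CharP E 2] [Algebra F E] (hp : (Module.finrank F E).Prime)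
    (hm : L.natDegree < Module.finrank F E) : Function.Injective (h.hom E) := by
  have h2 : (2 : E) = 0 := CharTwo.two_eq_zero
  have : Module.Finite F E := Module.finite_of_finrank_pos hp.pos
  rw [injective_iff_map_eq_zero]
  intro r hr
  rw [Aff.hom_apply] at hr
  have hP : aeval r (L - C (L.coeff 0)) = 0 := by
    rw [map_sub, aeval_C]
    linear_combination hr - algebraMap F E (L.coeff 0) * h2
  have hP0 : L - C (L.coeff 0) ≠ 0 := fun h0 => by
    have h3 : L.eval 1 = L.eval 0 := by rw [sub_eq_zero.1 h0, eval_C, eval_C]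
    exact one_ne_zero (hb h3)
  have hi : IsIntegral F r := Algebra.IsIntegral.isIntegral r
  have h3 := natDegree_le_of_dvd (minpoly.dvd F r hP) hP0
  rw [natDegree_sub_C] at h3
  have h4 : (minpoly F r).natDegree = 1 :=
    (hp.eq_one_or_self_of_dvd _ (minpoly.degree_dvd hi)).resolve_right (by omega)
  obtain ⟨a, rfl⟩ := minpoly.natDegree_eq_one_iff.1 h4
  rw [aeval_algebraMap_apply_eq_algebraMap_eval, map_eq_zero, eval_sub, eval_C, sub_eq_zero,
    coeff_zero_eq_eval_zero] at hP
  rw [hb hP, map_zero]

end Pool.Agent.Lib.MP_346d6a_co.X42
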