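import Pool.Agent.Lib.MP_346d6a_co.TMain

/-!
The shape of an exceptional APN polynomial as an identity of polynomials.
-/

set_option maxSynthPendingDepth 3

namespace Pool.Agent.Lib.MP_346d6a_co.X42

open Polynomial

theorem finish_form {F : Type} [Field F] [CharP F 2] {f h q L M : F[X]} {ν e : ℕ} {c : F}
    (hh : nl f = expand F (2 ^ ν) h) (hL : Aff L) (hMa : Aff M)
    (hdec : h = (taylor c q).comp L + M) (he3 : 3 ≤ e)
    (hq' : ∀ v o, Odd o → q.coeff (2 ^ v * o) ≠ 0 → o = 1 ∨ o = e) :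
    ∃ L₁ L₂ A : F[X], Aff L₁ ∧ Aff L₂ ∧ Aff A ∧ f = L₁.comp (L₂ ^ e) + A := by
  have hf₁ : taylor c q = taylor c (nl q) + taylor c (q - nl q) := by
    rw [← map_add, add_sub_cancel]
  have hexp : ∀ j, (nl q).coeff j ≠ 0 → ∃ v, j = 2 ^ v * e := fun j hj => by
    obtain ⟨g1, g2⟩ := (nl_ne_iff q j).1 hj
    obtain ⟨v, o, ho, rfl⟩ := Nat.exists_eq_two_pow_mul_odd (n := j) fun h => g2 (Or.inl h)
    rcases hq' v o ho g1 with rfl | rfl
    · exact absurd ((lin_iff ho).2 rfl) g2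
    · exact ⟨v, rfl⟩
  have hA := ((aff_sub_nl q).taylor c).comp hL |>.add hMa
  have hh₂ : h = (taylor c (nl q)).comp L + ((taylor c (q - nl q)).comp L + M) := by
    rw [← add_assoc, ← add_comp, ← hf₁, hdec]
  have he0 : e ≠ 0 := by omega
  have hL₁ : Aff (contract e (nl q)) := fun i hi => by
    rw [coeff_contract he0] at hi
    obtain ⟨u, hu⟩ := hexp _ hi
    exact Or.inr ⟨u, Nat.eq_of_mul_eq_mul_right (by omega) hu⟩
  have hL₂ : expand F e (contract e (nl q)) = nl q := by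
    ext j
    rw [coeff_expand (by omega)]
    split_ifs with hj
    · rw [coeff_contract he0, Nat.div_mul_cancel hj]
    · by_contra hne
      obtain ⟨u, rfl⟩ := hexp j (Ne.symm hne)
      exact hj (dvd_mul_left _ _)
  have hX : Aff (X ^ 2 ^ ν : F[X]) := fun j hj => by
    rw [coeff_X_pow] at hj
    exact Or.inr ⟨ν, by_contra fun h => hj (if_neg h)⟩
  have hC : Aff (C c : F[X]) := fun j hj => by
    rw [coeff_C] at hj
    exact Or.inl (by_contra fun h => hj (if_neg h))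
  have g3 : (taylor c (nl q)).comp L = (contract e (nl q)).comp ((L + C c) ^ e) := by
    conv_lhs => rw [← hL₂]
    rw [taylor_apply, expand_eq_comp_X_pow, comp_assoc, comp_assoc]
    simp only [pow_comp, add_comp, X_comp, C_comp]
  refine ⟨_, _, _, hL₁, (hL.add hC).comp hX, (hA.comp hX).add (aff_sub_nl f), ?_⟩
  rw [← pow_comp, ← comp_assoc, ← g3, ← add_assoc, ← add_comp, ← hh₂, ← expand_eq_comp_X_pow, ← hh,
    add_sub_cancel]

set_option maxHeartbeats 400000 in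
theorem main_form (hB : ExistsPAC) (hC : TopReduction) (hD : Blocks) (hE : GoldCase)
    (hF : KasamiCase) (hM : BigFactor) (hcore : CoreThm) (hsurf : SurfPAC) (hrad : RadRed)
    (hcomp : ApnComp) (hhom : Homog) (F : Type) [Field F] [Fintype F] [CharP F 2]
    (f : F[X]) (hf : ExcAPN f) {ν e₀ : ℕ} (he₀ : Odd e₀) (he₁ : e₀ ≠ 1)
    (hν : f.coeff (2 ^ ν * e₀) ≠ 0)
    (hT : ∀ c o, Odd o → o ≠ 1 → f.coeff (2 ^ c * o) ≠ 0 → ν ≤ c ∧ o ≤ e₀) :
    ∃ (t : ℕ) (L₁ L₂ A : F[X]), (Gold t ∨ Kasami t) ∧ Aff L₁ ∧ Aff L₂ ∧ Aff A ∧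
      f = L₁.comp (L₂ ^ t) + A := by
  classical
  obtain ⟨a, -, ha⟩ := FiniteField.card F 2
  let k₀ := AlgebraicClosure F
  have halg : ∀ c : k₀, ∃ N, 1 ≤ N ∧ c ^ 2 ^ N = c := fun c => by
    have hi : IsIntegral F c := Algebra.IsIntegral.isIntegral c
    have := IntermediateField.adjoin.finiteDimensional hi
    have : Finite (IntermediateField.adjoin F {c}) := Module.finite_of_finite F
    let := Fintype.ofFinite (IntermediateField.adjoin F {c})
    obtain ⟨N, -, hN⟩ := FiniteField.card (IntermediateField.adjoin F {c}) 2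
    refine ⟨N, N.2, ?_⟩
    have h := FiniteField.pow_card (IntermediateField.AdjoinSimple.gen F c)
    rw [hN] at h
    exact congrArg Subtype.val h
  obtain ⟨k, _, _, _, _, φ, φ₀, t, hφ, h₀, ht, ht', hfix, hapn⟩ := hB k₀ halg _
    (hf.image (f := fun m => (a : ℕ) * m) fun m _ m' _ h => Nat.eq_of_mul_eq_mul_left a.2 h)
  have hφ₀ : ∀ c : F, φ₀ (algebraMap F k₀ c) = algebraMap F k₀ c := fun c => hfix _ (by
    rintro s ⟨m, -, rfl⟩
    rw [← map_pow, pow_mul, ← ha, FiniteField.pow_card_pow])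
  let φ₁ : k₀ ≃+* k₀ := RingEquiv.ofBijective φ₀
    (Algebra.IsAlgebraic.algHom_bijective (⟨φ₀, hφ₀⟩ : k₀ →ₐ[F] k₀))
  let ι : F →+* k := (algebraMap k₀ k).comp (algebraMap F k₀)
  have hι : ∀ c, φ (ι c) = ι c := fun c => by simp [ι, h₀, hφ₀]
  have h1 : APNFix φ (f.map ι) := by
    rw [← Polynomial.map_map]
    refine hapn _ ?_
    rintro s ⟨m, ⟨hm, E, _, _, hE, h⟩, rfl⟩
    exact apnFix_of_isAPN ha k₀ hm hE h
  have h2 := apn_nl ι h1
  have hν' : (nl f).coeff (2 ^ ν * e₀) ≠ 0 :=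
    (nl_ne_iff f _).2 ⟨hν, fun h => he₁ ((lin_iff he₀).1 h)⟩
  have h3 : (nl f).natDegree ≠ 0 := fun h => by
    have := le_natDegree_of_ne_zero hν'
    exact absurd (Nat.le_zero.1 (h ▸ this)) (mul_ne_zero (by positivity) he₀.pos.ne')
  obtain ⟨μ, h, hh, hh'⟩ := exists_contract _ h3
  have h4 : APNFix φ (h.map ι) := apn_of_expand ι μ (hh ▸ h2)
  have hco : ∀ j, (nl f).coeff (j * 2 ^ μ) = h.coeff j := fun j => by
    rw [hh, coeff_expand_mul (by positivity)]
  have h5 : ∀ j, h.coeff j ≠ 0 → ¬ Lin j := fun j hj hl =>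
    ((nl_ne_iff f _).1 (hco j ▸ hj)).2 (hl.mul_pow μ)
  have h6 : ∀ c o, Odd o → h.coeff (2 ^ c * o) ≠ 0 → ν ≤ c + μ ∧ o ≤ e₀ := fun c o ho hc =>
    hT _ o ho (fun h1 => h5 _ hc ((lin_iff ho).2 h1)) (by
      rw [pow_add, mul_right_comm]
      exact ((nl_ne_iff f _).1 (hco _ ▸ hc)).1)
  obtain ⟨ho, hoc⟩ := odd_natDegree_derivative hh'
  have hdeg : (derivative h).natDegree ≠ 0 := fun h0 =>
    h5 _ hoc (Or.inr ⟨0, by rw [h0]; rfl⟩)
  have h7 : ν = μ := by
    refine le_antisymm (by simpa using (h6 0 _ ho (by simpa using hoc)).1) ?_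
    rw [hh, coeff_expand (by positivity)] at hν'
    split_ifs at hν' with hd
    · exact (Nat.pow_dvd_pow_iff_le_right one_lt_two).1
        ((Nat.Coprime.pow_left μ (Nat.coprime_two_left.2 he₀)).dvd_of_dvd_mul_right hd)
    · exact absurd rfl hν'
  subst h7
  have h8 : e₀ ≤ (derivative h).natDegree + 1 := by
    rw [mul_comm, hco, ← coeff_derivative_odd he₀] at hν'
    have := le_natDegree_of_ne_zero hν'
    omega
  have htame : Tame h := tame_iff.2 fun c o ho hc => (h6 c o ho hc).2.trans h8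
  obtain ⟨f₁, L, M, hL, hL0, hLm, hL1, hMa, hdec, hdeg₁, htame₁, hrad₁⟩ := hrad F k₀ h hdeg htame
  have h9 : APNFix φ (f₁.map ι) := by
    refine hcomp k φ (fun a b => ?_) (L.map ι) _ (by ext j; simp [hι]) ((aff_map_iff ι).2 hL)
      (by simp [hL0]) (by simpa using hL1) ?_
    · have t0 : t ≠ 0 := fun h => ht' (h ▸ isAlgebraic_zero)
      have t1 : t ≠ 1 := fun h => ht' (h ▸ isAlgebraic_one)
      by_contra hn
      push Not at hn
      have g0 := hn 0 (map_zero φ)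
      have g1 := hn 1 (map_one φ)
      have g2 := hn t ht
      by_cases ha0 : (0 : k) = a
      · subst ha0
        exact t1 ((g2 t0).trans (g1 one_ne_zero).symm)
      · obtain rfl := g0 ha0
        by_cases ha1 : (1 : k) = a
        · subst ha1
          exact t0 (g2 t1)
        · exact one_ne_zero (g1 ha1)
    · rw [← map_comp]
      exact apn_of_add_aff ι hMa (hdec ▸ h4)
  obtain ⟨e, c, hGK, hq, hq'⟩ := tame_struct hC hD hE hF hM hcore hsurf hhom (φ₀ := φ₁) hφ h₀ ht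
    ht' halg hφ₀ (f := f₁) (by rwa [Polynomial.map_map]) hdeg₁ htame₁ hrad₁
  obtain ⟨he, he3⟩ := odd_of_gk hGK
  obtain ⟨L₁, L₂, A, hr⟩ := finish_form (c := c) hh hL hMa
    (by rwa [taylor_taylor, CharTwo.add_self_eq_zero, taylor_zero]) he3 hq'
  exact ⟨e, L₁, L₂, A, hGK, hr⟩

end Pool.Agent.Lib.MP_346d6a_co.X42
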